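import Pool.Agent.PFM.UP

/-! Crossed homomorphisms and one Fox derivative. -/

set_option autoImplicit false

namespace Pool.Agent.PFM

open scoped commutatorElement

/-- crossed homomorphisms -/
structure Cross {E M : Type} [Group E] [AddCommGroup M] (act : E →* AddMonoid.End M) (D : E → M) : Prop where
  mul : ∀ g h, D (g * h) = D g + act g (D h)

namespace Cross

variable {E M : Type} [Group E] [AddCommGroup M] {act : E →* AddMonoid.End M} {D D' : E → M}

theorem one (hD : Cross act D) : D 1 = 0 := by
  have h := hD.mul 1 1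
  rw [mul_one, map_one, AddMonoid.End.one_apply] at h
  simpa using h

/-- the subgroup where a crossed homomorphism vanishes -/
def zeros (hD : Cross act D) : Subgroup E where
  carrier := {g | D g = 0}
  mul_mem' {g h} hg hh := by
    change D (g * h) = 0
    rw [hD.mul, show D g = 0 from hg, show D h = 0 from hh, map_zero, add_zero]
  one_mem' := hD.one
  inv_mem' {g} hg := by
    change D g⁻¹ = 0
    have h := hD.mul g⁻¹ g
    rw [inv_mul_cancel, hD.one, show D g = 0 from hg, map_zero, add_zero] at h
    exact h.symm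

theorem mem_zeros (hD : Cross act D) {g : E} : g ∈ hD.zeros ↔ D g = 0 := Iff.rfl

theorem comm_le (hD : Cross act D) (N : Subgroup E) (hN : ∀ n ∈ N, act n = 1) : ⁅N, N⁆ ≤ hD.zeros := by
  rw [Subgroup.commutator_le]
  have hm : ∀ g ∈ N, ∀ h, D (g * h) = D g + D h := by
    intro g hg h
    rw [hD.mul, hN g hg, AddMonoid.End.one_apply]
  have hi : ∀ g ∈ N, D g⁻¹ = - D g := by
    intro g hg
    have := hm g hg g⁻¹
    rw [mul_inv_cancel, hD.one] at this
    exact (neg_eq_of_add_eq_zero_right this.symm).symm
  intro g hg h hh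
  rw [mem_zeros, commutatorElement_def, mul_assoc, mul_assoc, hm g hg, hm h hh, hm g⁻¹ (N.inv_mem hg),
    hi g hg, hi h hh]
  abel

theorem nc_le (hD : Cross act D) (r : E) (hr : D r = 0) (hr1 : act r = 1) :
    Subgroup.normalClosure {r} ≤ hD.zeros := by
  rw [Subgroup.normalClosure, Subgroup.closure_le]
  intro x hx
  rw [Group.mem_conjugatesOfSet_iff] at hx
  obtain ⟨a, ha, hax⟩ := hx
  rw [Set.mem_singleton_iff] at ha
  subst ha
  obtain ⟨g, rfl⟩ := isConj_iff.1 hax
  change D (g * a * g⁻¹) = 0
  rw [mul_assoc, hD.mul, hD.mul, hr, hr1, AddMonoid.End.one_apply, zero_add, ← hD.mul, mul_inv_cancel, hD.one]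

theorem ext {X : Type} {act : FreeGroup X →* AddMonoid.End M} {D D' : FreeGroup X → M} (hD : Cross act D)
    (hD' : Cross act D') (h : ∀ x, D (FreeGroup.of x) = D' (FreeGroup.of x)) (w : FreeGroup X) : D w = D' w := by
  have hdiff : Cross act (fun w => D w - D' w) := ⟨fun g h => by
    rw [hD.mul, hD'.mul, map_sub]; abel⟩
  have : w ∈ hdiff.zeros := by
    induction w using FreeGroup.induction_on with
    | C1 => exact hdiff.zeros.one_mem
    | of x => exact sub_eq_zero.2 (h x)
    | inv_of x hx => exact hdiff.zeros.inv_mem hx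
    | mul x y hx hy => exact hdiff.zeros.mul_mem hx hy
  exact sub_eq_zero.1 this

end Cross

/-- the affine group over a ring in which `E` acts by left multiplication -/
structure Af {E R : Type} [Group E] [Ring R] (j : E →* R) where
  m : R
  g : E

namespace Af

variable {E R : Type} [Group E] [Ring R] {j : E →* R}

@[ext] theorem ext' {a b : Af j} (h1 : a.m = b.m) (h2 : a.g = b.g) : a = b := by
  cases a; cases b; simp_all

instance : Mul (Af j) := ⟨fun a b => ⟨a.m + j a.g * b.m, a.g * b.g⟩⟩
instance : One (Af j) := ⟨⟨0, 1⟩⟩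
instance : Inv (Af j) := ⟨fun a => ⟨- (j a.g⁻¹ * a.m), a.g⁻¹⟩⟩

theorem mul_m (a b : Af j) : (a * b).m = a.m + j a.g * b.m := rfl
theorem mul_g (a b : Af j) : (a * b).g = a.g * b.g := rfl
theorem one_m : (1 : Af j).m = 0 := rfl
theorem one_g : (1 : Af j).g = 1 := rfl
theorem inv_m (a : Af j) : (a⁻¹).m = - (j a.g⁻¹ * a.m) := rfl
theorem inv_g (a : Af j) : (a⁻¹).g = a.g⁻¹ := rfl

instance : Group (Af j) := Group.ofLeftAxioms
  (fun a b c => by
    ext
    · rw [mul_m, mul_m, mul_m, mul_m, mul_g, map_mul, mul_add, add_assoc, mul_assoc]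
    · rw [mul_g, mul_g, mul_g, mul_g, mul_assoc])
  (fun a => by
    ext
    · rw [mul_m, one_m, one_g, map_one, one_mul, zero_add]
    · rw [mul_g, one_g, one_mul])
  (fun a => by
    ext
    · rw [mul_m, inv_m, inv_g, one_m, neg_add_cancel]
    · rw [mul_g, inv_g, one_g, inv_mul_cancel])

/-- projection -/
def pr (j : E →* R) : Af j →* E where
  toFun := Af.g
  map_one' := rfl
  map_mul' _ _ := rfl

end Af

variable {ι : Type}

/-- the inclusion of `E` in its group ring -/
noncomputable def jj (X : Type) : FreeGroup X →* MonoidAlgebra ℤ (FreeGroup X) := MonoidAlgebra.of ℤ (FreeGroup X)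

/-- auxiliary homomorphism -/
noncomputable def foxHom (ι : Type) : FreeGroup (Option ι) →* Af (jj (Option ι)) :=
  FreeGroup.lift (fun o => ⟨o.elim 1 (fun _ => 0), FreeGroup.of o⟩)

/-- Fox derivative with respect to the last letter -/
noncomputable def fox (w : FreeGroup (Option ι)) : MonoidAlgebra ℤ (FreeGroup (Option ι)) := (foxHom ι w).m

theorem foxHom_g (w : FreeGroup (Option ι)) : (foxHom ι w).g = w := by
  have : (Af.pr (jj (Option ι))).comp (foxHom ι) = MonoidHom.id _ := by
    refine FreeGroup.ext_hom _ _ fun o => ?_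
    simp [foxHom, Af.pr]
  exact DFunLike.congr_fun this w

theorem fox_mul (g h : FreeGroup (Option ι)) : fox (g * h) = fox g + jj (Option ι) g * fox h := by
  unfold fox
  rw [map_mul, Af.mul_m, foxHom_g]

theorem fox_one : fox (1 : FreeGroup (Option ι)) = 0 := by
  unfold fox
  rw [map_one, Af.one_m]

theorem fox_none : fox (FreeGroup.of (none : Option ι)) = 1 := by
  simp [fox, foxHom]

theorem fox_some (i : ι) : fox (FreeGroup.of (some i)) = 0 := by
  simp [fox, foxHom]

/-- the inclusion of the free group on `ι` -/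
def incl (ι : Type) : FreeGroup ι →* FreeGroup (Option ι) := FreeGroup.map some

theorem incl_of (i : ι) : incl ι (FreeGroup.of i) = FreeGroup.of (some i) := by simp [incl]

/-- for every ring homomorphism out of the group ring, `fox` becomes a crossed homomorphism -/
theorem cross_fox {M : Type} [AddCommGroup M] (T : MonoidAlgebra ℤ (FreeGroup (Option ι)) →+* AddMonoid.End M)
    (m : M) : Cross (T.toMonoidHom.comp (jj (Option ι))) (fun w => T (fox w) m) := by
  refine ⟨fun g h => ?_⟩
  change T (fox (g * h)) m = T (fox g) m + T (jj _ g) (T (fox h) m)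
  rw [fox_mul, map_add, map_mul]
  rfl

theorem fox_incl (w : FreeGroup ι) : fox (incl ι w) = 0 := by
  have h := cross_fox (Module.toAddMonoidEnd (MonoidAlgebra ℤ (FreeGroup (Option ι))) (MonoidAlgebra ℤ (FreeGroup (Option ι))))
    (1 : MonoidAlgebra ℤ (FreeGroup (Option ι)))
  have h1 : ∀ w : FreeGroup ι, incl ι w ∈ h.zeros := by
    intro w
    induction w using FreeGroup.induction_on with
    | C1 => rw [map_one]; exact h.zeros.one_mem
    | of x =>
      rw [incl_of, h.mem_zeros, fox_some, map_zero]
      rfl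
    | inv_of x hx => rw [map_inv]; exact h.zeros.inv_mem hx
    | mul x y hx hy => rw [map_mul]; exact h.zeros.mul_mem hx hy
  have h2 : fox (incl ι w) * 1 = 0 := (h.mem_zeros).1 (h1 w)
  rwa [mul_one] at h2

end Pool.Agent.PFM
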