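import Mathlib

section -- file TFC/Defs

/-!
2-factors without 4-cycles: basic definitions (degree vectors, squares, jump sets, clusters, units).
-/

set_option autoImplicit false

namespace Pool.Agent.TFC

open Finset
open scoped Pointwise

variable {V : Type*} [DecidableEq V]

/-- the degree of `v` in the edge set `z` -/
def dg (z : Finset (Sym2 V)) (v : V) : ℕ := #{e ∈ z | v ∈ e}

/-- the degree vector of the edge set `z` -/
def dv (z : Finset (Sym2 V)) : V → ℤ := fun v => (dg z v : ℤ)

/-- no loops -/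
def NoLoop (z : Finset (Sym2 V)) : Prop := ∀ e ∈ z, ¬ e.IsDiag

/-- `z` is a simple 2-matching: no loops, all degrees at most 2 -/
structure M2 (z : Finset (Sym2 V)) : Prop where
  nl : NoLoop z
  le : ∀ v, dg z v ≤ 2

/-- `z` is a 2-factor: no loops, all degrees equal to 2 -/
structure TF (z : Finset (Sym2 V)) : Prop where
  nl : NoLoop z
  eq : ∀ v, dg z v = 2

/-- `a b c d` is a square (a 4-cycle) of `z` (for `z` without loops, the four are distinct) -/
structure Sq (z : Finset (Sym2 V)) (a b c d : V) : Prop where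
  ac : a ≠ c
  bd : b ≠ d
  ab : s(a, b) ∈ z
  bc : s(b, c) ∈ z
  cd : s(c, d) ∈ z
  da : s(d, a) ∈ z

/-- `z` contains no square -/
def SqFree (z : Finset (Sym2 V)) : Prop := ∀ a b c d, ¬ Sq z a b c d

/-- all squares of `z` are allowed by `al` -/
def Good (al : V → V → V → V → Prop) (z : Finset (Sym2 V)) : Prop :=
  ∀ a b c d, Sq z a b c d → al a b c d

/-- the predicate does not depend on how the square is written -/
structure AlSym (al : V → V → V → V → Prop) : Prop where
  rot : ∀ a b c d, al a b c d → al b c d a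
  ref : ∀ a b c d, al a b c d → al d c b a

/-- no square allowed -/
def none4 : V → V → V → V → Prop := fun _ _ _ _ => False

/-- degree vectors of the 2-matchings contained in `E` all of whose squares are allowed -/
def JS (E : Finset (Sym2 V)) (al : V → V → V → V → Prop) : Set (V → ℤ) :=
  {x | ∃ z ⊆ E, M2 z ∧ Good al z ∧ x = dv z}

/-- unit vector -/
def ev (v : V) : V → ℤ := Pi.single v 1

/-- jump set (constant parity jump system): two-step axiom -/
def Jump {W : Type*} [DecidableEq W] (J : Set (W → ℤ)) : Prop :=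
  ∀ x ∈ J, ∀ y ∈ J, ∀ (i : W) (ε : ℤ), (ε = 1 ∨ ε = -1) → 0 < ε * (y i - x i) →
    ∃ (j : W) (δ : ℤ), (δ = 1 ∨ δ = -1) ∧ 0 < δ * (y j - (x + Pi.single i ε : W → ℤ) j) ∧
      x + Pi.single i ε + Pi.single j δ ∈ J

/-- the edge set of the square `a b c d` -/
def sq (a b c d : V) : Finset (Sym2 V) := {s(a, b), s(b, c), s(c, d), s(d, a)}

/-- four distinct vertices -/
def Dist4 (a b c d : V) : Prop := a ≠ b ∧ a ≠ c ∧ a ≠ d ∧ b ≠ c ∧ b ≠ d ∧ c ≠ d

/-- `Q` is the edge set of a square -/
def IsSq (Q : Finset (Sym2 V)) : Prop := ∃ a b c d, Dist4 a b c d ∧ Q = sq a b c d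

/-- clusters: a complete graph on 4 vertices, or all edges between two centres and a set of leaves -/
inductive Clu (V : Type*) where
  | k4 (X : Finset V)
  | k2 (x y : V) (L : Finset V)

/-- the edges of a cluster -/
def Clu.edges : Clu V → Finset (Sym2 V)
  | .k4 X => X.sym2.filter (fun e => ¬ e.IsDiag)
  | .k2 x y L => L.image (fun l => s(x, l)) ∪ L.image (fun l => s(y, l))

/-- non-degenerate cluster -/
def Clu.Valid : Clu V → Prop
  | .k4 X => #X = 4
  | .k2 x y L => x ≠ y ∧ x ∉ L ∧ y ∉ L ∧ 2 ≤ #L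

/-- the constant vector 2 -/
def two : V → ℤ := fun _ => 2

/-- a unit: nothing, or join a vertex of `S` with a vertex of `T` -/
def Un (S T : Finset V) : Set (V → ℤ) :=
  {x | x = 0 ∨ ∃ s ∈ S, ∃ t ∈ T, x = ev s + ev t}

/-- the sums of a list of units -/
def sumU : List (Finset V × Finset V) → Set (V → ℤ)
  | [] => {0}
  | u :: us => Un u.1 u.2 + sumU us

/-- clusters with a choice: for `k2 w w' c L` the centre `w` and the leaf `c` are chosen -/
inductive CC (V : Type*) where
  | k4 (X : Finset V)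
  | k2 (w w' c : V) (L : Finset V)

/-- forget the choice -/
def CC.clu : CC V → Clu V
  | .k4 X => .k4 X
  | .k2 w w' _ L => .k2 w w' L

/-- non-degenerate cluster, the chosen leaf is a leaf -/
def CC.Valid : CC V → Prop
  | .k4 X => #X = 4
  | .k2 w w' c L => w ≠ w' ∧ w ∉ L ∧ w' ∉ L ∧ 2 ≤ #L ∧ c ∈ L

/-- the units of a cluster -/
noncomputable def CC.units : CC V → List (Finset V × Finset V)
  | .k4 X => [(X, X), (X, X), (X, X)]
  | .k2 w w' c L => (L.erase c).toList.map (fun l => ({l}, {w, w'})) ++ [({w}, L), ({w'}, {c})]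

/-- the unit of an ordinary edge -/
def Ue (e : Sym2 V) : Set (V → ℤ) :=
  {x | x = 0 ∨ ∃ u v, e = s(u, v) ∧ x = ev u + ev v}

end Pool.Agent.TFC

end

section -- file TFC/Deg

/-!
Elementary facts on degrees and squares.
-/

set_option autoImplicit false
set_option linter.unusedSectionVars false

namespace Pool.Agent.TFC

open Finset

variable {V : Type*} [DecidableEq V]

lemma dg_insert {z : Finset (Sym2 V)} {e : Sym2 V} (he : e ∉ z) (v : V) :
    dg (insert e z) v = dg z v + if v ∈ e then 1 else 0 := by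
  unfold dg
  rw [filter_insert]
  split_ifs with h
  · rw [card_insert_of_notMem]
    intro h'
    exact he (mem_of_mem_filter _ h')
  · simp

lemma dg_erase {z : Finset (Sym2 V)} {e : Sym2 V} (he : e ∈ z) (v : V) :
    dg (z.erase e) v + (if v ∈ e then 1 else 0) = dg z v := by
  have := dg_insert (notMem_erase e z) v
  rw [insert_erase he] at this
  exact this.symm

lemma msw {z : Finset (Sym2 V)} {a b : V} (h : s(a, b) ∈ z) : s(b, a) ∈ z := by
  rw [Sym2.eq_swap]; exact h

lemma ev_apply (a v : V) : ev a v = if v = a then 1 else 0 := by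
  unfold ev
  by_cases h : v = a
  · subst h; simp
  · simp [h]

lemma ev_self (a : V) : ev a a = 1 := by simp [ev]

lemma ev_ne {a v : V} (h : v ≠ a) : ev a v = 0 := by simp [ev_apply, h]

lemma dv_insert {z : Finset (Sym2 V)} {a b : V} (hab : a ≠ b) (h : s(a, b) ∉ z) :
    dv (insert s(a, b) z) = dv z + ev a + ev b := by
  funext v
  simp only [dv, Pi.add_apply, dg_insert h, ev_apply, Sym2.mem_iff]
  by_cases h1 : v = a
  · subst h1
    simp [hab]
  · by_cases h2 : v = b
    · subst h2
      simp [h1]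
    · simp [h1, h2]

lemma dv_erase {z : Finset (Sym2 V)} {a b : V} (hab : a ≠ b) (h : s(a, b) ∈ z) :
    dv (z.erase s(a, b)) = dv z - ev a - ev b := by
  have := dv_insert hab (notMem_erase s(a, b) z)
  rw [insert_erase h] at this
  rw [this]
  abel

lemma dv_apply (z : Finset (Sym2 V)) (v : V) : dv z v = (dg z v : ℤ) := rfl

lemma NoLoop.ne {z : Finset (Sym2 V)} (hz : NoLoop z) {a b : V} (h : s(a, b) ∈ z) : a ≠ b := by
  intro hab
  exact hz _ h (by simpa using hab)

lemma NoLoop.mono {z z' : Finset (Sym2 V)} (hz : NoLoop z') (h : z ⊆ z') : NoLoop z :=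
  fun e he => hz e (h he)

lemma NoLoop.insert {z : Finset (Sym2 V)} (hz : NoLoop z) {a b : V} (h : a ≠ b) :
    NoLoop (insert s(a, b) z) := by
  intro e he
  rw [mem_insert] at he
  rcases he with rfl | he
  · simpa using h
  · exact hz e he

lemma dg_mono {z z' : Finset (Sym2 V)} (h : z ⊆ z') (v : V) : dg z v ≤ dg z' v :=
  card_le_card (filter_subset_filter _ h)

lemma M2.mono {z z' : Finset (Sym2 V)} (hz : M2 z') (h : z ⊆ z') : M2 z :=
  ⟨hz.nl.mono h, fun v => (dg_mono h v).trans (hz.le v)⟩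

/-- the neighbours of `v` -/
lemma dg_pos {z : Finset (Sym2 V)} {v a : V} (h : s(v, a) ∈ z) : 1 ≤ dg z v := by
  unfold dg
  exact card_pos.mpr ⟨s(v, a), by simp [h]⟩

lemma sym2_inj_left {v a b : V} (h : s(v, a) = s(v, b)) : a = b := Sym2.congr_right.mp h

lemma nbr_unique {z : Finset (Sym2 V)} {v a b : V} (hd : dg z v ≤ 1) (ha : s(v, a) ∈ z)
    (hb : s(v, b) ∈ z) : a = b := by
  unfold dg at hd
  have := card_le_one.mp hd s(v, a) (by simp [ha]) s(v, b) (by simp [hb])
  exact sym2_inj_left this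

lemma dg_ge_two {z : Finset (Sym2 V)} {v a b : V} (ha : s(v, a) ∈ z)
    (hb : s(v, b) ∈ z) (hab : a ≠ b) : 2 ≤ dg z v := by
  by_contra h
  exact hab (nbr_unique (by omega) ha hb)

lemma nbr_two {z : Finset (Sym2 V)} {v a b c : V} (hd : dg z v ≤ 2) (ha : s(v, a) ∈ z)
    (hb : s(v, b) ∈ z) (hab : a ≠ b) (hc : s(v, c) ∈ z) : c = a ∨ c = b := by
  by_contra h
  push Not at h
  have h3 : ({s(v, a), s(v, b), s(v, c)} : Finset (Sym2 V)) ⊆ {e ∈ z | v ∈ e} := by
    intro e he
    simp only [mem_insert, mem_singleton] at he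
    rcases he with rfl | rfl | rfl <;> simp [ha, hb, hc]
  have h4 := card_le_card h3
  have h5 : #({s(v, a), s(v, b), s(v, c)} : Finset (Sym2 V)) = 3 := by
    rw [card_insert_of_notMem, card_insert_of_notMem, card_singleton]
    · simp only [mem_singleton]
      intro h'
      exact h.2 (sym2_inj_left h').symm
    · simp only [mem_insert, mem_singleton]
      rintro (h' | h')
      · exact hab (sym2_inj_left h')
      · exact h.1 (sym2_inj_left h').symm
  unfold dg at hd
  omega

lemma exists_nbr_notMem {z z' : Finset (Sym2 V)} {v : V} (h : dg z v < dg z' v) :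
    ∃ c, s(v, c) ∈ z' ∧ s(v, c) ∉ z := by
  by_contra hc
  push Not at hc
  have : {e ∈ z' | v ∈ e} ⊆ {e ∈ z | v ∈ e} := by
    intro e he
    rw [mem_filter] at he ⊢
    obtain ⟨c, rfl⟩ := he.2
    exact ⟨hc c he.1, he.2⟩
  exact absurd (card_le_card this) (not_le.mpr h)

lemma exists_nbr_ne {z : Finset (Sym2 V)} {v : V} (h : 2 ≤ dg z v) (a : V) :
    ∃ c, c ≠ a ∧ s(v, c) ∈ z := by
  by_contra hc
  push Not at hc
  have : {e ∈ z | v ∈ e} ⊆ {s(v, a)} := by
    intro e he
    rw [mem_filter] at he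
    obtain ⟨c, rfl⟩ := he.2
    by_cases hca : c = a
    · subst hca; simp
    · exact absurd he.1 (hc c hca)
  have h1 := card_le_card this
  rw [card_singleton] at h1
  unfold dg at h
  omega

lemma exists_nbr {z : Finset (Sym2 V)} {v : V} (h : 1 ≤ dg z v) : ∃ c, s(v, c) ∈ z := by
  unfold dg at h
  obtain ⟨e, he⟩ := card_pos.mp h
  rw [mem_filter] at he
  obtain ⟨c, rfl⟩ := he.2
  exact ⟨c, he.1⟩

namespace Sq

variable {z z' : Finset (Sym2 V)} {a b c d : V}

lemma mono (h : Sq z a b c d) (hz : z ⊆ z') : Sq z' a b c d :=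
  ⟨h.ac, h.bd, hz h.ab, hz h.bc, hz h.cd, hz h.da⟩

lemma rot (h : Sq z a b c d) : Sq z b c d a :=
  ⟨h.bd, h.ac.symm, h.bc, h.cd, h.da, h.ab⟩

lemma ref (h : Sq z a b c d) : Sq z d c b a :=
  ⟨h.bd.symm, h.ac.symm, by rw [Sym2.eq_swap]; exact h.cd, by rw [Sym2.eq_swap]; exact h.bc,
    by rw [Sym2.eq_swap]; exact h.ab, by rw [Sym2.eq_swap]; exact h.da⟩

lemma dist4 (h : Sq z a b c d) (hz : NoLoop z) : Dist4 a b c d :=
  ⟨hz.ne h.ab, h.ac, (hz.ne h.da).symm, hz.ne h.bc, h.bd, hz.ne h.cd⟩

end Sq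

/-- a square of `insert s(x, y) z` is a square of `z` or (up to symmetry) contains the new edge as
its first edge -/
lemma good_insert {al : V → V → V → V → Prop} (hal : AlSym al) {z : Finset (Sym2 V)} {x y : V}
    (hz : Good al z) (h : ∀ p q, Sq (insert s(x, y) z) x y p q → al x y p q) :
    Good al (insert s(x, y) z) := by
  have key : ∀ a b c d, Sq (insert s(x, y) z) a b c d → s(a, b) = s(x, y) → al a b c d := by
    intro a b c d hs he
    rw [Sym2.eq_iff] at he
    rcases he with ⟨rfl, rfl⟩ | ⟨rfl, rfl⟩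
    · exact h c d hs
    · have h1 : Sq (insert s(b, a) z) b a d c := hs.ref.rot.rot
      have h2 := h d c h1
      have h3 := hal.ref _ _ _ _ h2
      exact hal.rot _ _ _ _ (hal.rot _ _ _ _ h3)
  intro a b c d hs
  by_cases h1 : s(a, b) = s(x, y)
  · exact key a b c d hs h1
  by_cases h2 : s(b, c) = s(x, y)
  · have := key b c d a hs.rot h2
    exact hal.rot _ _ _ _ (hal.rot _ _ _ _ (hal.rot _ _ _ _ this))
  by_cases h3 : s(c, d) = s(x, y)
  · have := key c d a b hs.rot.rot h3
    exact hal.rot _ _ _ _ (hal.rot _ _ _ _ this)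
  by_cases h4 : s(d, a) = s(x, y)
  · have := key d a b c hs.rot.rot.rot h4
    exact hal.rot _ _ _ _ this
  · exact hz a b c d ⟨hs.ac, hs.bd, (mem_insert.mp hs.ab).resolve_left h1,
      (mem_insert.mp hs.bc).resolve_left h2, (mem_insert.mp hs.cd).resolve_left h3,
      (mem_insert.mp hs.da).resolve_left h4⟩

lemma Good.mono {al : V → V → V → V → Prop} {z z' : Finset (Sym2 V)} (hz : Good al z')
    (h : z ⊆ z') : Good al z := fun a b c d hs => hz a b c d (hs.mono h)

/-- a 2-matching in terms of the degree vector -/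
lemma M2.of_dv {z : Finset (Sym2 V)} (hn : NoLoop z) (h : ∀ v, dv z v ≤ 2) : M2 z :=
  ⟨hn, fun v => by have := h v; rw [dv_apply] at this; exact_mod_cast this⟩

end Pool.Agent.TFC

end

section -- file TFC/LemW

/-!
The exchange theorem for 2-matchings all of whose squares are allowed.
-/

set_option autoImplicit false
set_option linter.unusedSectionVars false

namespace Pool.Agent.TFC

open Finset

variable {V : Type*} [DecidableEq V]

lemma card_dist_insert {L K : Finset (Sym2 V)} {e : Sym2 V} (h1 : e ∈ K) (h2 : e ∉ L) :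
    #(insert e L \ K) + #(K \ insert e L) + 1 = #(L \ K) + #(K \ L) := by
  have e1 : insert e L \ K = L \ K := by
    rw [insert_sdiff_of_mem _ h1]
  have e2 : K \ insert e L = (K \ L).erase e := by
    rw [sdiff_insert]
  rw [e1, e2, add_assoc, card_erase_add_one (mem_sdiff.mpr ⟨h1, h2⟩)]

lemma card_dist_erase {L K : Finset (Sym2 V)} {e : Sym2 V} (h1 : e ∉ K) (h2 : e ∈ L) :
    #(L.erase e \ K) + #(K \ L.erase e) + 1 = #(L \ K) + #(K \ L) := by
  have e1 : L.erase e \ K = (L \ K).erase e := by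
    rw [erase_sdiff_comm]
  have e2 : K \ L.erase e = K \ L := by
    ext f
    simp only [mem_sdiff, mem_erase, not_and]
    constructor
    · rintro ⟨hf, h⟩
      exact ⟨hf, fun h' => h (fun h'' => h1 (h'' ▸ hf)) h'⟩
    · rintro ⟨hf, h⟩
      exact ⟨hf, fun _ h' => h h'⟩
  rw [e1, e2, add_right_comm, card_erase_add_one (mem_sdiff.mpr ⟨h2, h1⟩)]

lemma card_dist_erase' {L K : Finset (Sym2 V)} {e : Sym2 V} (h1 : e ∈ K) (h2 : e ∈ L) :
    #(L.erase e \ K) + #(K \ L.erase e) = #(L \ K) + #(K \ L) + 1 := by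
  have := card_dist_insert (L := L.erase e) h1 (notMem_erase e L)
  rw [insert_erase h2] at this
  omega

/-- the conclusion of Lemma W -/
def WConc (al : V → V → V → V → Prop) (K : Finset (Sym2 V)) (τ : V → ℤ) (L : Finset (Sym2 V)) :
    Prop :=
  ∃ M ⊆ L ∪ K, M2 M ∧ Good al M ∧
    ((∃ w, dv M = τ - ev w ∧ dv K w < τ w) ∨ (∃ c, dv M = τ + ev c ∧ τ c < dv K c))

lemma WConc.mono {al : V → V → V → V → Prop} {K : Finset (Sym2 V)} {τ : V → ℤ}
    {L L' : Finset (Sym2 V)} (h : WConc al K τ L') (hL : L' ⊆ L ∪ K) : WConc al K τ L := by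
  obtain ⟨M, hM, h2⟩ := h
  refine ⟨M, hM.trans ?_, h2⟩
  exact union_subset hL subset_union_right

variable {al : V → V → V → V → Prop}

lemma M2.of_tau {M : Finset (Sym2 V)} (hn : NoLoop M) {τ : V → ℤ} (hτ : ∀ v, τ v ≤ 2) {w : V}
    (h : dv M = τ - ev w) : M2 M := by
  refine M2.of_dv hn fun v => ?_
  rw [h, Pi.sub_apply, ev_apply]
  have := hτ v
  split_ifs <;> omega

/-- Case A of Lemma W: the edge `zc` can be added without creating a bad square. -/
lemma caseA (hal : AlSym al) {K : Finset (Sym2 V)} (hK : M2 K) {τ : V → ℤ} (hτ : ∀ v, τ v ≤ 2)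
    {n : ℕ} (ih : ∀ (L : Finset (Sym2 V)) (z : V), #(L \ K) + #(K \ L) < n → M2 L → Good al L →
      dv L = τ - ev z → WConc al K τ L)
    {L : Finset (Sym2 V)} {z c : V} (hn : #(L \ K) + #(K \ L) ≤ n) (hL : M2 L)
    (hd : dv L = τ - ev z) (hzK : s(z, c) ∈ K) (hzL : s(z, c) ∉ L)
    (hg : Good al (insert s(z, c) L)) : WConc al K τ L := by
  have hzc : z ≠ c := hK.nl.ne hzK
  have hd1 : dv (insert s(z, c) L) = τ + ev c := by
    rw [dv_insert hzc hzL, hd]; abel
  have hnl : NoLoop (insert s(z, c) L) := hL.nl.insert hzc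
  have hsub : insert s(z, c) L ⊆ L ∪ K := by
    intro e he
    rw [mem_insert] at he
    rcases he with rfl | he
    · exact mem_union_right _ hzK
    · exact mem_union_left _ he
  by_cases h1 : τ c < dv K c
  · refine ⟨insert s(z, c) L, hsub, ?_, hg, Or.inr ⟨c, hd1, h1⟩⟩
    refine M2.of_dv hnl fun v => ?_
    rw [hd1, Pi.add_apply, ev_apply]
    have hKc := hK.le c
    rw [dv_apply] at h1
    split_ifs with hv
    · subst hv; omega
    · have := hτ v; omega
  · push Not at h1
    have h2 : dg K c < dg (insert s(z, c) L) c := by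
      have h3 : dv (insert s(z, c) L) c = τ c + 1 := by rw [hd1, Pi.add_apply, ev_self]
      rw [dv_apply] at h1 h3
      omega
    obtain ⟨w, hw1, hw2⟩ := exists_nbr_notMem h2
    have hcw : c ≠ w := hnl.ne hw1
    have hwz : w ≠ z := by
      rintro rfl
      rw [Sym2.eq_swap] at hw2
      exact hw2 hzK
    have hd2 : dv ((insert s(z, c) L).erase s(c, w)) = τ - ev w := by
      rw [dv_erase hcw hw1, hd1]; abel
    have hsub2 : (insert s(z, c) L).erase s(c, w) ⊆ L ∪ K := (erase_subset _ _).trans hsub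
    have hnl2 : NoLoop ((insert s(z, c) L).erase s(c, w)) := hnl.mono (erase_subset _ _)
    refine WConc.mono (ih _ w ?_ (M2.of_tau hnl2 hτ hd2) (hg.mono (erase_subset _ _)) hd2) hsub2
    have e1 := card_dist_insert hzK hzL
    have e2 := card_dist_erase hw2 hw1
    omega

theorem lemW_aux (hal : AlSym al) {K : Finset (Sym2 V)} (hK : M2 K) (hKg : Good al K)
    {τ : V → ℤ} (hτ : ∀ v, τ v ≤ 2) (n : ℕ) :
    ∀ (L : Finset (Sym2 V)) (z : V), #(L \ K) + #(K \ L) ≤ n → M2 L → Good al L →
      dv L = τ - ev z → WConc al K τ L := by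
  induction n using Nat.strong_induction_on with
  | _ n ih =>
  intro L z hn hL hLg hd
  have ih' : ∀ (L : Finset (Sym2 V)) (z : V), #(L \ K) + #(K \ L) < n → M2 L → Good al L →
      dv L = τ - ev z → WConc al K τ L := fun L z h => ih _ h L z le_rfl
  by_cases h0 : dv K z < τ z
  · exact ⟨L, subset_union_left, hL, hLg, Or.inl ⟨z, hd, h0⟩⟩
  push Not at h0
  have hdz : dv L z = τ z - 1 := by rw [hd, Pi.sub_apply, ev_self]
  have hlt : dg L z < dg K z := by
    rw [dv_apply] at hdz h0
    omega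
  obtain ⟨c, hcK, hcL⟩ := exists_nbr_notMem hlt
  have hzc : z ≠ c := hK.nl.ne hcK
  by_cases hB : ∀ p q, Sq (insert s(z, c) L) z c p q → al z c p q
  · exact caseA hal hK hτ ih' hn hL hd hcK hcL (good_insert hal hLg hB)
  push Not at hB
  obtain ⟨c2, t, hX, hbad⟩ := hB
  have hnl1 : NoLoop (insert s(z, c) L) := hL.nl.insert hzc
  have hD := hX.dist4 hnl1
  obtain ⟨-, hzc2, hzt, hcc2, hct, hc2t⟩ := hD
  -- the three other edges are in L
  have m1 : s(c, c2) ∈ L := by
    refine (mem_insert.mp hX.bc).resolve_left fun h => ?_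
    rw [Sym2.eq_iff] at h
    rcases h with ⟨h, -⟩ | ⟨-, h⟩
    · exact hzc h.symm
    · exact hzc2 h.symm
  have m2 : s(c2, t) ∈ L := by
    refine (mem_insert.mp hX.cd).resolve_left fun h => ?_
    rw [Sym2.eq_iff] at h
    rcases h with ⟨h, -⟩ | ⟨h, -⟩
    · exact hzc2 h.symm
    · exact hcc2 h.symm
  have m3 : s(t, z) ∈ L := by
    refine (mem_insert.mp hX.da).resolve_left fun h => ?_
    rw [Sym2.eq_iff] at h
    rcases h with ⟨h, -⟩ | ⟨h, -⟩
    · exact hzt h.symm
    · exact hct h.symm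
  have m1' : s(c2, c) ∈ L := by rw [Sym2.eq_swap]; exact m1
  have m2' : s(t, c2) ∈ L := by rw [Sym2.eq_swap]; exact m2
  have m3' : s(z, t) ∈ L := by rw [Sym2.eq_swap]; exact m3
  have hzle : dg L z ≤ 1 := by
    have := hτ z
    rw [dv_apply] at hdz
    omega
  have hτz : τ z = 2 := by
    have h1 := dg_pos m3'
    have := hτ z
    rw [dv_apply] at hdz
    omega
  have nz : ∀ u, s(z, u) ∈ L → u = t := fun u hu => nbr_unique hzle hu m3'
  have nt : ∀ u, s(t, u) ∈ L → u = z ∨ u = c2 := fun u hu =>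
    nbr_two (hL.le t) m3 m2' (Ne.symm hzc2.symm) hu
  have nc2 : ∀ u, s(c2, u) ∈ L → u = t ∨ u = c := fun u hu =>
    nbr_two (hL.le c2) m2 m1' (Ne.symm hct) hu
  have hzK2 : dg K z = 2 := by
    have := hK.le z
    rw [dv_apply] at h0
    omega
  -- squares of `insert s(z, c) L` through `s(z, c)` are the one we found
  have uniq : ∀ p q, Sq (insert s(z, c) L) z c p q → p = c2 ∧ q = t := by
    intro p q hs
    have hD' := hs.dist4 hnl1
    obtain ⟨-, hzp, hzq, hcp, hcq, hpq⟩ := hD'
    have k3 : s(z, q) ∈ L := by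
      have := msw hs.da
      refine (mem_insert.mp this).resolve_left fun h => hcq (sym2_inj_left h).symm
    have hq : q = t := nz q k3
    subst hq
    have k2 : s(q, p) ∈ L := by
      have := msw hs.cd
      refine (mem_insert.mp this).resolve_left fun h => ?_
      rw [Sym2.eq_iff] at h
      rcases h with ⟨h, -⟩ | ⟨-, h⟩
      · exact hzq h.symm
      · exact hzp h.symm
    rcases nt p k2 with h | h
    · exact absurd h.symm hzp
    · exact ⟨h, rfl⟩
  -- removing `s(c, c2)` destroys all bad squares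
  have hc2mem : s(c, c2) ∈ insert s(z, c) L := mem_insert_of_mem m1
  have hg2 : Good al ((insert s(z, c) L).erase s(c, c2)) := by
    have hne : s(z, c) ≠ s(c, c2) := by
      intro h
      rw [Sym2.eq_iff] at h
      rcases h with ⟨h, -⟩ | ⟨h, -⟩
      · exact hzc h
      · exact hzc2 h
    have e : (insert s(z, c) L).erase s(c, c2) = insert s(z, c) (L.erase s(c, c2)) := by
      rw [erase_insert_of_ne hne]
    rw [e]
    refine good_insert hal (hLg.mono (erase_subset _ _)) ?_
    intro p q hs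
    have hs' : Sq (insert s(z, c) L) z c p q := hs.mono (insert_subset_insert _ (erase_subset _ _))
    obtain ⟨rfl, rfl⟩ := uniq p q hs'
    have := hs.bc
    rw [← e] at this
    exact absurd this (notMem_erase _ _)
  have hd1 : dv (insert s(z, c) L) = τ + ev c := by
    rw [dv_insert hzc hcL, hd]; abel
  have hd2 : dv ((insert s(z, c) L).erase s(c, c2)) = τ - ev c2 := by
    rw [dv_erase hcc2 hc2mem, hd1]; abel
  have hsub1 : insert s(z, c) L ⊆ L ∪ K := by
    intro e he
    rw [mem_insert] at he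
    rcases he with rfl | he
    · exact mem_union_right _ hcK
    · exact mem_union_left _ he
  have hsub2 : (insert s(z, c) L).erase s(c, c2) ⊆ L ∪ K := (erase_subset _ _).trans hsub1
  have hnl2 : NoLoop ((insert s(z, c) L).erase s(c, c2)) := hnl1.mono (erase_subset _ _)
  have hM2 : M2 ((insert s(z, c) L).erase s(c, c2)) := M2.of_tau hnl2 hτ hd2
  by_cases hcK2 : s(c, c2) ∈ K
  swap
  · -- case (a)
    refine WConc.mono (ih' _ c2 ?_ hM2 hg2 hd2) hsub2
    have e1 := card_dist_insert hcK hcL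
    have e2 := card_dist_erase hcK2 hc2mem
    omega
  by_cases htK : s(z, t) ∈ K
  swap
  · -- case (b)
    obtain ⟨c', hc'c, hc'K⟩ := exists_nbr_ne (z := K) (v := z) (by omega) c
    have hc't : c' ≠ t := by rintro rfl; exact htK hc'K
    have hc'L : s(z, c') ∉ L := fun h => hc't (nz c' h)
    refine caseA hal hK hτ ih' hn hL hd hc'K hc'L (good_insert hal hLg ?_)
    intro p q hs
    exfalso
    have hzc' : z ≠ c' := hK.nl.ne hc'K
    have hD' := hs.dist4 (hL.nl.insert hzc')
    obtain ⟨-, hzp, hzq, hcp, hcq, hpq⟩ := hD'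
    have k3 : s(z, q) ∈ L := by
      have := msw hs.da
      refine (mem_insert.mp this).resolve_left fun h => hcq (sym2_inj_left h).symm
    have hq : q = t := nz q k3
    subst hq
    have k2 : s(q, p) ∈ L := by
      have := msw hs.cd
      refine (mem_insert.mp this).resolve_left fun h => ?_
      rw [Sym2.eq_iff] at h
      rcases h with ⟨h, -⟩ | ⟨-, h⟩
      · exact hzq h.symm
      · exact hzp h.symm
    rcases nt p k2 with h | h
    · exact hzp h.symm
    · subst h
      have k1 : s(p, c') ∈ L := by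
        have := msw hs.bc
        refine (mem_insert.mp this).resolve_left fun h => ?_
        rw [Sym2.eq_iff] at h
        rcases h with ⟨h, -⟩ | ⟨h, h'⟩
        · exact hzp h.symm
        · exact hcp h.symm
      rcases nc2 c' k1 with h | h
      · exact hc't h
      · exact hc'c h
  -- case (c)
  have htc2 : s(t, c2) ∉ K := by
    intro h
    refine hbad (hKg _ _ _ _ ⟨hX.ac, hX.bd, hcK, hcK2, ?_, ?_⟩)
    · rw [Sym2.eq_swap]; exact h
    · rw [Sym2.eq_swap]; exact htK
  by_cases h5 : dv K c2 < τ c2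
  · exact ⟨_, hsub2, hM2, hg2, Or.inl ⟨c2, hd2, h5⟩⟩
  push Not at h5
  have hLc2 : dg L c2 = 2 := le_antisymm (hL.le c2) (dg_ge_two m2 m1' (Ne.symm hct))
  have hτc2 : τ c2 = 2 := by
    have : dv L c2 = τ c2 - 0 := by rw [hd, Pi.sub_apply, ev_ne hzc2.symm]
    rw [dv_apply, hLc2] at this
    push_cast at this
    omega
  have hKc2 : 2 ≤ dg K c2 := by
    rw [dv_apply, hτc2] at h5
    exact_mod_cast h5
  obtain ⟨y, hyc, hyK⟩ := exists_nbr_ne hKc2 c
  have hyt : y ≠ t := by
    rintro rfl
    rw [Sym2.eq_swap] at hyK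
    exact htc2 hyK
  have hyz : y ≠ z := by
    rintro rfl
    rw [Sym2.eq_swap] at hyK
    rcases nbr_two (hK.le y) hcK htK hct hyK with h | h
    · exact hcc2 h.symm
    · exact hc2t h
  have hyc2 : c2 ≠ y := hK.nl.ne hyK
  set L2 := (insert s(z, c) L).erase s(c, c2) with hL2
  -- membership in L2
  have inL2 : ∀ e, e ∈ L2 → e = s(z, c) ∨ (e ∈ L ∧ e ≠ s(c, c2)) := by
    intro e he
    rw [hL2, mem_erase, mem_insert] at he
    rcases he with ⟨h1, h2 | h2⟩
    · exact Or.inl h2
    · exact Or.inr ⟨h2, h1⟩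
  have n2c2 : ∀ u, s(c2, u) ∈ L2 → u = t := by
    intro u hu
    rcases inL2 _ hu with h | ⟨h, h'⟩
    · rw [Sym2.eq_iff] at h
      rcases h with ⟨h, -⟩ | ⟨h, -⟩
      · exact absurd h.symm hzc2
      · exact absurd h.symm hcc2
    · rcases nc2 u h with h1 | h1
      · exact h1
      · subst h1
        exact absurd Sym2.eq_swap h'
  have n2t : ∀ u, s(t, u) ∈ L2 → u = z ∨ u = c2 := by
    intro u hu
    rcases inL2 _ hu with h | ⟨h, -⟩
    · rw [Sym2.eq_iff] at h
      rcases h with ⟨h, -⟩ | ⟨h, -⟩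
      · exact absurd h.symm hzt
      · exact absurd h.symm hct
    · exact nt u h
  have n2z : ∀ u, s(z, u) ∈ L2 → u = t ∨ u = c := by
    intro u hu
    rcases inL2 _ hu with h | ⟨h, -⟩
    · exact Or.inr (sym2_inj_left h)
    · exact Or.inl (nz u h)
  have hyL2 : s(c2, y) ∉ L2 := fun h => hyt (n2c2 y h)
  have hg3 : Good al (insert s(c2, y) L2) := by
    refine good_insert hal hg2 ?_
    intro p q hs
    exfalso
    have hD' := hs.dist4 (hnl2.insert hyc2)
    obtain ⟨-, hap, haq, hyp, hyq, hpq⟩ := hD'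
    have k3 : s(c2, q) ∈ L2 := by
      have := msw hs.da
      refine (mem_insert.mp this).resolve_left fun h => hyq (sym2_inj_left h).symm
    have hq : q = t := n2c2 q k3
    subst hq
    have k2 : s(q, p) ∈ L2 := by
      have := msw hs.cd
      refine (mem_insert.mp this).resolve_left fun h => ?_
      rw [Sym2.eq_iff] at h
      rcases h with ⟨h, -⟩ | ⟨-, h⟩
      · exact haq h.symm
      · exact hap h.symm
    rcases n2t p k2 with h | h
    · subst h
      have k1 : s(p, y) ∈ L2 := by
        have := msw hs.bc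
        refine (mem_insert.mp this).resolve_left fun h => ?_
        rw [Sym2.eq_iff] at h
        rcases h with ⟨h, -⟩ | ⟨h, -⟩
        · exact hap h.symm
        · exact hyp h.symm
      rcases n2z y k1 with h | h
      · exact hyt h
      · exact hyc h
    · exact hap h.symm
  have e1 := card_dist_insert hcK hcL
  have e2 := card_dist_erase' hcK2 hc2mem
  rw [← hL2] at e2
  exact WConc.mono (caseA hal hK hτ ih' (by omega) hM2 hd2 hyK hyL2 hg3) hsub2

end Pool.Agent.TFC

end

section -- file TFC/JumpJS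

/-!
Degree vectors of 2-matchings all of whose squares are allowed form a jump set.
-/

set_option autoImplicit false
set_option linter.unusedSectionVars false

namespace Pool.Agent.TFC

open Finset

variable {V : Type*} [DecidableEq V]

lemma single_one (v : V) : (Pi.single v (1 : ℤ) : V → ℤ) = ev v := rfl

lemma single_neg_one (v : V) : (Pi.single v (-1 : ℤ) : V → ℤ) = -ev v := by
  funext u
  by_cases h : u = v
  · subst h; simp [ev]
  · simp [ev, h]

/-- **Theorem 1** -/
theorem jump_JS {al : V → V → V → V → Prop} (hal : AlSym al) (E : Finset (Sym2 V)) :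
    Jump (JS E al) := by
  rintro x ⟨A, hAE, hA, hAg, rfl⟩ y ⟨B, hBE, hB, hBg, rfl⟩ i ε hε hpos
  have fin : ∀ (τ : V → ℤ) (L : Finset (Sym2 V)), L ⊆ E → WConc al B τ L →
      ∃ (j : V) (δ : ℤ), (δ = 1 ∨ δ = -1) ∧ 0 < δ * (dv B j - τ j) ∧
        τ + Pi.single j δ ∈ JS E al := by
    rintro τ L hL ⟨M, hM, hM2, hMg, h⟩
    have hME : M ⊆ E := hM.trans (union_subset hL hBE)
    rcases h with ⟨w, h1, h2⟩ | ⟨c, h1, h2⟩
    · refine ⟨w, -1, Or.inr rfl, by linarith, M, hME, hM2, hMg, ?_⟩
      rw [h1, single_neg_one]; abel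
    · refine ⟨c, 1, Or.inl rfl, by linarith, M, hME, hM2, hMg, ?_⟩
      rw [h1, single_one]
  rcases hε with rfl | rfl
  · -- step up
    have hlt : dv A i < dv B i := by linarith
    refine fin (dv A + Pi.single i 1) A hAE ?_
    refine lemW_aux hal hB hBg (fun v => ?_) _ A i le_rfl hA hAg ?_
    · rw [single_one, Pi.add_apply, ev_apply]
      have h1 := hA.le v
      have h2 := hB.le v
      simp only [dv_apply] at hlt ⊢
      split_ifs with hv
      · subst hv; omega
      · omega
    · rw [single_one]; abel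
  · -- step down
    have hlt : dg B i < dg A i := by
      have : dv B i < dv A i := by linarith
      simp only [dv_apply] at this
      exact_mod_cast this
    obtain ⟨u, hu1, hu2⟩ := exists_nbr_notMem hlt
    have hiu : i ≠ u := hA.nl.ne hu1
    refine fin (dv A + Pi.single i (-1)) (A.erase s(i, u)) ((erase_subset _ _).trans hAE) ?_
    refine lemW_aux hal hB hBg (fun v => ?_) _ (A.erase s(i, u)) u le_rfl
      (hA.mono (erase_subset _ _)) (hAg.mono (erase_subset _ _)) ?_
    · rw [single_neg_one, Pi.add_apply, Pi.neg_apply, ev_apply]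
      have h1 := hA.le v
      simp only [dv_apply]
      split_ifs <;> omega
    · rw [single_neg_one, dv_erase hiu hu1]; abel

end Pool.Agent.TFC

end

section -- file TFC/Plain

/-!
Ordinary edges: `Ue e` is a jump set, and a sum of ordinary edges is the degree vector of a set of
edges.
-/

set_option autoImplicit false
set_option linter.unusedSectionVars false

namespace Pool.Agent.TFC

open Finset
open scoped Pointwise

variable {V : Type*} [DecidableEq V]

lemma Plain_Ue (a b : V) (x : V → ℤ) : x ∈ Ue s(a, b) ↔ x = 0 ∨ x = ev a + ev b := by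
  constructor
  · rintro (h | ⟨u, v, h, hx⟩)
    · exact Or.inl h
    · right
      rw [Sym2.eq_iff] at h
      rcases h with ⟨rfl, rfl⟩ | ⟨rfl, rfl⟩
      · exact hx
      · rw [hx, add_comm]
  · rintro (h | h)
    · exact Or.inl h
    · exact Or.inr ⟨a, b, rfl, h⟩

lemma Plain_dv_empty : dv (∅ : Finset (Sym2 V)) = 0 := by
  funext v
  simp [dv, dg]

/-- a sum of ordinary edges is the degree vector of a set of edges -/
theorem mem_sum_Ue (E : Finset (Sym2 V)) (hE : NoLoop E) (k : V → ℤ) :
    k ∈ ∑ e ∈ E, Ue e ↔ ∃ z ⊆ E, k = dv z := by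
  induction E using Finset.induction_on generalizing k with
  | empty =>
    rw [Finset.sum_empty, Set.mem_zero]
    constructor
    · intro h
      exact ⟨∅, le_rfl, by rw [Plain_dv_empty]; exact h⟩
    · rintro ⟨z, hz, rfl⟩
      rw [Finset.subset_empty.mp hz, Plain_dv_empty]
  | insert e E he ih =>
    have hE' : NoLoop E := hE.mono (subset_insert _ _)
    rw [Finset.sum_insert he, Set.mem_add]
    induction e using Sym2.ind with
    | _ a b =>
      have hab : a ≠ b := hE.ne (mem_insert_self _ _)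
      constructor
      · rintro ⟨x, hx, y, hy, rfl⟩
        obtain ⟨z, hz, rfl⟩ := (ih hE' y).mp hy
        rw [Plain_Ue] at hx
        rcases hx with rfl | rfl
        · exact ⟨z, hz.trans (subset_insert _ _), zero_add _⟩
        · refine ⟨insert s(a, b) z, insert_subset_insert _ hz, ?_⟩
          rw [dv_insert hab (fun h => he (hz h))]
          abel
      · rintro ⟨z, hz, rfl⟩
        by_cases hmem : s(a, b) ∈ z
        · refine ⟨ev a + ev b, (Plain_Ue _ _ _).mpr (Or.inr rfl), dv (z.erase s(a, b)),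
            (ih hE' _).mpr ⟨_, ?_, rfl⟩, ?_⟩
          · intro e' he'
            rw [mem_erase] at he'
            exact (mem_insert.mp (hz he'.2)).resolve_left he'.1
          · rw [dv_erase hab hmem]; abel
        · refine ⟨0, (Plain_Ue _ _ _).mpr (Or.inl rfl), dv z, (ih hE' _).mpr ⟨z, ?_, rfl⟩,
            zero_add _⟩
          intro e' he'
          refine (mem_insert.mp (hz he')).resolve_left ?_
          rintro rfl
          exact hmem he'

end Pool.Agent.TFC

end

section -- file TFC/R4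

/-!
Lemma 6.4: the units of a cluster `K4(X)`.
-/

set_option autoImplicit false
set_option linter.unusedSectionVars false

namespace Pool.Agent.TFC

open Finset
open scoped Pointwise

variable {V : Type*} [DecidableEq V]

lemma R4_card_sq {a b c d : V} (h : Dist4 a b c d) : #(sq a b c d) = 4 := by
  obtain ⟨hab, hac, had, hbc, hbd, hcd⟩ := h
  have n12 : s(a, b) ≠ s(b, c) := by simp [hab, hac]
  have n13 : s(a, b) ≠ s(c, d) := by simp [hac, had]
  have n14 : s(a, b) ≠ s(d, a) := by simp [had, hbd]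
  have n23 : s(b, c) ≠ s(c, d) := by simp [hbc, hbd]
  have n24 : s(b, c) ≠ s(d, a) := by simp [hbd, hab.symm]
  have n34 : s(c, d) ≠ s(d, a) := by simp [hcd, hac.symm]
  unfold sq
  rw [card_insert_of_notMem (by simp [n12, n13, n14]),
    card_insert_of_notMem (by simp [n23, n24]), card_insert_of_notMem (by simp [n34]),
    card_singleton]

lemma R4_sq_sub {z : Finset (Sym2 V)} {a b c d : V} (h : Sq z a b c d) : sq a b c d ⊆ z := by
  simp [sq, insert_subset_iff, h.ab, h.bc, h.cd, h.da]

/-- fewer than four edges: no square -/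
lemma R4_good {z : Finset (Sym2 V)} (hz : NoLoop z) (h : #z < 4) : Good none4 z := by
  intro a b c d hs
  have h1 := R4_card_sq (hs.dist4 hz)
  have h2 := card_le_card (R4_sq_sub hs)
  omega

lemma R4_mem_edges {X : Finset V} {a b : V} : s(a, b) ∈ (Clu.k4 X).edges ↔ a ∈ X ∧ b ∈ X ∧ a ≠ b := by
  simp only [Clu.edges, mem_filter, mk_mem_sym2_iff, Sym2.mk_isDiag_iff, and_assoc]

lemma R4_noLoop (X : Finset V) : NoLoop (Clu.k4 X).edges := by
  intro e he
  exact (mem_filter.mp he).2

/-- at most three edges in a square-free 2-matching of `K4` -/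
lemma R4_card_le {X : Finset V} (hX : #X = 4) {z : Finset (Sym2 V)} (hz : z ⊆ (Clu.k4 X).edges)
    (hM : M2 z) (hG : Good none4 z) : #z ≤ 3 := by
  obtain ⟨a, b, c, d, hab, hac, had, hbc, hbd, hcd, rfl⟩ := card_eq_four.mp hX
  have hsub : z ⊆ {s(a, b), s(c, d), s(a, c), s(b, d), s(a, d), s(b, c)} := by
    intro e he
    have h1 := hz he
    induction e using Sym2.ind with
    | _ u v =>
      rw [R4_mem_edges] at h1
      obtain ⟨hu, hv, huv⟩ := h1
      simp only [mem_insert, mem_singleton] at hu hv ⊢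
      rcases hu with rfl | rfl | rfl | rfl <;> rcases hv with rfl | rfl | rfl | rfl <;>
        simp_all [Sym2.eq_swap]
  -- stars
  have star : ∀ {p q r t : V}, q ≠ r → q ≠ t → r ≠ t → s(p, q) ∈ z → s(p, r) ∈ z → s(p, t) ∈ z →
      False := by
    intro p q r t hqr hqt hrt h1 h2 h3
    rcases nbr_two (hM.le p) h1 h2 hqr h3 with h | h
    · exact hqt h.symm
    · exact hrt h.symm
  have sa : s(a, b) ∈ z → s(a, c) ∈ z → s(a, d) ∈ z → False := star hbc hbd hcd
  have sb : s(a, b) ∈ z → s(b, c) ∈ z → s(b, d) ∈ z → False :=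
    fun h => star hac had hcd (msw h)
  have sc : s(a, c) ∈ z → s(b, c) ∈ z → s(c, d) ∈ z → False :=
    fun h h' => star hab had hbd (msw h) (msw h')
  have sd : s(a, d) ∈ z → s(b, d) ∈ z → s(c, d) ∈ z → False :=
    fun h h' h'' => star hab hac hbc (msw h) (msw h') (msw h'')
  have q1 : s(a, b) ∈ z → s(b, c) ∈ z → s(c, d) ∈ z → s(a, d) ∈ z → False :=
    fun h1 h2 h3 h4 => hG a b c d ⟨hac, hbd, h1, h2, h3, msw h4⟩
  have q2 : s(a, b) ∈ z → s(b, d) ∈ z → s(c, d) ∈ z → s(a, c) ∈ z → False :=
    fun h1 h2 h3 h4 => hG a b d c ⟨had, hbc, h1, h2, msw h3, msw h4⟩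
  have q3 : s(a, c) ∈ z → s(b, c) ∈ z → s(b, d) ∈ z → s(a, d) ∈ z → False :=
    fun h1 h2 h3 h4 => hG a c b d ⟨hab, hcd, h1, msw h2, h3, msw h4⟩
  have hcard : #z ≤ (if s(a, b) ∈ z then 1 else 0) + (if s(c, d) ∈ z then 1 else 0) +
      (if s(a, c) ∈ z then 1 else 0) + (if s(b, d) ∈ z then 1 else 0) +
      (if s(a, d) ∈ z then 1 else 0) + (if s(b, c) ∈ z then 1 else 0) := by
    have step : ∀ (e : Sym2 V) (T : Finset (Sym2 V)),
        #{f ∈ insert e T | f ∈ z} ≤ (if e ∈ z then 1 else 0) + #{f ∈ T | f ∈ z} := by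
      intro e T
      rw [filter_insert]
      split_ifs with h
      · rw [add_comm]; exact card_insert_le _ _
      · simp
    have h0 : z = {f ∈ ({s(a, b), s(c, d), s(a, c), s(b, d), s(a, d), s(b, c)} :
        Finset (Sym2 V)) | f ∈ z} := by
      ext e
      rw [mem_filter]
      exact ⟨fun h => ⟨hsub h, h⟩, fun h => h.2⟩
    have h1 := step s(a, b) {s(c, d), s(a, c), s(b, d), s(a, d), s(b, c)}
    have h2 := step s(c, d) {s(a, c), s(b, d), s(a, d), s(b, c)}
    have h3 := step s(a, c) {s(b, d), s(a, d), s(b, c)}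
    have h4 := step s(b, d) {s(a, d), s(b, c)}
    have h5 := step s(a, d) {s(b, c)}
    have h6 := step s(b, c) ∅
    rw [← h0] at h1
    have h7 : #{f ∈ (∅ : Finset (Sym2 V)) | f ∈ z} = 0 := by simp
    have h8 : (insert s(b, c) ∅ : Finset (Sym2 V)) = {s(b, c)} := rfl
    rw [h8] at h6
    omega
  refine hcard.trans ?_
  by_cases e1 : s(a, b) ∈ z <;> by_cases e2 : s(c, d) ∈ z <;> by_cases e3 : s(a, c) ∈ z <;>
    by_cases e4 : s(b, d) ∈ z <;> by_cases e5 : s(a, d) ∈ z <;> by_cases e6 : s(b, c) ∈ z <;>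
    first
    | exact (sa e1 e3 e5).elim
    | exact (sb e1 e6 e4).elim
    | exact (sc e3 e6 e2).elim
    | exact (sd e5 e4 e2).elim
    | exact (q1 e1 e6 e2 e5).elim
    | exact (q2 e1 e4 e2 e3).elim
    | exact (q3 e3 e6 e4 e5).elim
    | simp [e1, e2, e3, e4, e5, e6]

/-- the degree vector of a set of at most `n` edges of `K4(X)` is a sum of `n` units -/
lemma R4_units (X : Finset V) (n : ℕ) : ∀ z : Finset (Sym2 V), z ⊆ (Clu.k4 X).edges → #z ≤ n →
    dv z ∈ sumU (List.replicate n (X, X)) := by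
  induction n with
  | zero =>
    intro z _ hc
    have : z = ∅ := card_eq_zero.mp (Nat.le_zero.mp hc)
    subst this
    rw [Plain_dv_empty]
    exact Set.mem_singleton _
  | succ n ih =>
    intro z hz hc
    rw [List.replicate_succ]
    change dv z ∈ Un X X + sumU (List.replicate n (X, X))
    rcases z.eq_empty_or_nonempty with rfl | ⟨e, he⟩
    · exact Set.mem_add.mpr ⟨0, Or.inl rfl, dv ∅, ih ∅ (empty_subset _) (by simp),
        zero_add _⟩
    · induction e using Sym2.ind with
      | _ u v =>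
        obtain ⟨hu, hv, huv⟩ := R4_mem_edges.mp (hz he)
        refine Set.mem_add.mpr ⟨ev u + ev v, Or.inr ⟨u, hu, v, hv, rfl⟩, dv (z.erase s(u, v)),
          ih _ ((erase_subset _ _).trans hz) ?_, ?_⟩
        · rw [card_erase_of_mem he]; omega
        · rw [dv_erase huv he]; abel

theorem JS_subset_units_k4 {X : Finset V} (hX : #X = 4) :
    JS (Clu.k4 X).edges none4 ⊆ sumU (CC.k4 X).units := by
  rintro x ⟨z, hz, hM, hG, rfl⟩
  exact R4_units X 3 z hz (R4_card_le hX hz hM hG)

/-- the vector `2` on `X`, `0` elsewhere -/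
def R4_tx (X : Finset V) : V → ℤ := fun v => if v ∈ X then 2 else 0

lemma R4_tx4 (a b c d : V) (hab : a ≠ b) (hac : a ≠ c) (had : a ≠ d) (hbc : b ≠ c) (hbd : b ≠ d)
    (hcd : c ≠ d) : R4_tx {a, b, c, d} = 2 • ev a + 2 • ev b + 2 • ev c + 2 • ev d := by
  funext v
  simp only [R4_tx, mem_insert, mem_singleton, Pi.add_apply, Pi.smul_apply, ev_apply]
  by_cases h1 : v = a
  · subst h1; simp [hab, hac, had]
  by_cases h2 : v = b
  · subst h2; simp [h1, hbc, hbd]
  by_cases h3 : v = c
  · subst h3; simp [h1, h2, hcd]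
  by_cases h4 : v = d
  · subst h4; simp [h1, h2, h3]
  · simp [h1, h2, h3, h4]

/-- the path `i u v j` -/
lemma R4_path {X : Finset V} {i u v j : V} (h : Dist4 i u v j) (hX : X = {i, u, v, j}) :
    R4_tx X - ev i - ev j ∈ JS (Clu.k4 X).edges none4 := by
  obtain ⟨hiu, hiv, hij, huv, huj, hvj⟩ := h
  have h1 : s(i, u) ∉ ({s(u, v), s(v, j)} : Finset (Sym2 V)) := by
    simp [hiu, hiv, hij]
  have h2 : s(u, v) ∉ ({s(v, j)} : Finset (Sym2 V)) := by simp [huv, huj]
  have h3 : s(v, j) ∉ (∅ : Finset (Sym2 V)) := by simp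
  have hdv : dv ({s(i, u), s(u, v), s(v, j)} : Finset (Sym2 V)) = R4_tx X - ev i - ev j := by
    have e1 := dv_insert hiu h1
    have e2 := dv_insert huv h2
    have e3 := dv_insert hvj h3
    rw [Plain_dv_empty] at e3
    have e3' : dv ({s(v, j)} : Finset (Sym2 V)) = 0 + ev v + ev j := e3
    rw [e1, e2, e3', hX, R4_tx4 _ _ _ _ hiu hiv hij huv huj hvj]
    module
  have hn : NoLoop ({s(i, u), s(u, v), s(v, j)} : Finset (Sym2 V)) := by
    intro e he
    simp only [mem_insert, mem_singleton] at he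
    rcases he with rfl | rfl | rfl
    · simpa using hiu
    · simpa using huv
    · simpa using hvj
  refine ⟨{s(i, u), s(u, v), s(v, j)}, ?_, ?_, R4_good hn ?_, hdv.symm⟩
  · intro e he
    simp only [mem_insert, mem_singleton] at he
    rcases he with rfl | rfl | rfl <;> rw [R4_mem_edges, hX] <;> simp [hiu, huv, hvj]
  · refine M2.of_dv hn ?_
    intro w
    rw [hdv]
    simp only [R4_tx, Pi.sub_apply, ev_apply]
    split_ifs <;> norm_num
  · have := card_le_three (a := s(i, u)) (b := s(u, v)) (c := s(v, j))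
    omega

/-- the triangle `u v w` -/
lemma R4_tri {X : Finset V} {i u v w : V} (h : Dist4 i u v w) (hX : X = {i, u, v, w}) :
    R4_tx X - ev i - ev i ∈ JS (Clu.k4 X).edges none4 := by
  obtain ⟨hiu, hiv, hiw, huv, huw, hvw⟩ := h
  have h1 : s(u, v) ∉ ({s(v, w), s(w, u)} : Finset (Sym2 V)) := by
    simp [huv, huw, hvw]
  have h2 : s(v, w) ∉ ({s(w, u)} : Finset (Sym2 V)) := by simp [hvw, huv.symm]
  have h3 : s(w, u) ∉ (∅ : Finset (Sym2 V)) := by simp
  have hdv : dv ({s(u, v), s(v, w), s(w, u)} : Finset (Sym2 V)) = R4_tx X - ev i - ev i := by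
    have e1 := dv_insert huv h1
    have e2 := dv_insert hvw h2
    have e3 := dv_insert huw.symm h3
    rw [Plain_dv_empty] at e3
    have e3' : dv ({s(w, u)} : Finset (Sym2 V)) = 0 + ev w + ev u := e3
    rw [e1, e2, e3', hX, R4_tx4 _ _ _ _ hiu hiv hiw huv huw hvw]
    module
  have hn : NoLoop ({s(u, v), s(v, w), s(w, u)} : Finset (Sym2 V)) := by
    intro e he
    simp only [mem_insert, mem_singleton] at he
    rcases he with rfl | rfl | rfl
    · simpa using huv
    · simpa using hvw
    · simpa using huw.symm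
  refine ⟨{s(u, v), s(v, w), s(w, u)}, ?_, ?_, R4_good hn ?_, hdv.symm⟩
  · intro e he
    simp only [mem_insert, mem_singleton] at he
    rcases he with rfl | rfl | rfl <;> rw [R4_mem_edges, hX] <;> simp [huv, hvw, huw.symm]
  · refine M2.of_dv hn ?_
    intro t
    rw [hdv]
    simp only [R4_tx, Pi.sub_apply, ev_apply]
    split_ifs <;> norm_num
  · have := card_le_three (a := s(u, v)) (b := s(v, w)) (c := s(w, u))
    omega

lemma R4_JS {X : Finset V} (hX : #X = 4) {i j : V} (hi : i ∈ X) (hj : j ∈ X) :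
    R4_tx X - ev i - ev j ∈ JS (Clu.k4 X).edges none4 := by
  by_cases hij : i = j
  · subst hij
    have h3 : #(X.erase i) = 3 := by rw [card_erase_of_mem hi]; omega
    obtain ⟨u, v, w, huv, huw, hvw, he⟩ := card_eq_three.mp h3
    have hm : ∀ t ∈ ({u, v, w} : Finset V), t ≠ i := by
      intro t ht
      rw [← he] at ht
      exact (mem_erase.mp ht).1
    refine R4_tri (i := i) (u := u) (v := v) (w := w)
      ⟨(hm u (by simp)).symm, (hm v (by simp)).symm, (hm w (by simp)).symm, huv, huw, hvw⟩ ?_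
    rw [← insert_erase hi, he]
  · have hj' : j ∈ X.erase i := mem_erase.mpr ⟨fun e => hij e.symm, hj⟩
    have h2 : #((X.erase i).erase j) = 2 := by
      rw [card_erase_of_mem hj', card_erase_of_mem hi]; omega
    obtain ⟨u, v, huv, he⟩ := card_eq_two.mp h2
    have hm : ∀ t ∈ ({u, v} : Finset V), t ≠ i ∧ t ≠ j := by
      intro t ht
      rw [← he] at ht
      exact ⟨(mem_erase.mp (mem_erase.mp ht).2).1, (mem_erase.mp ht).1⟩
    refine R4_path (i := i) (u := u) (v := v) (j := j)
      ⟨(hm u (by simp)).1.symm, (hm v (by simp)).1.symm, hij, huv, (hm u (by simp)).2,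
        (hm v (by simp)).2⟩ ?_
    rw [← insert_erase hi, ← insert_erase hj', he]
    ext t
    simp only [mem_insert, mem_singleton]
    tauto

/-- a 2-matching with a square inside `K4(X)` is the square -/
lemma R4_dv_sq {X : Finset V} (hX : #X = 4) {z : Finset (Sym2 V)} (hz : z ⊆ (Clu.k4 X).edges)
    (hM : M2 z) {a b c d : V} (hs : Sq z a b c d) : dv z = R4_tx X := by
  have h4 := hs.dist4 hM.nl
  obtain ⟨hab, hac, had, hbc, hbd, hcd⟩ := h4
  have ma := (R4_mem_edges.mp (hz hs.ab)).1
  have mb := (R4_mem_edges.mp (hz hs.ab)).2.1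
  have mc := (R4_mem_edges.mp (hz hs.cd)).1
  have md := (R4_mem_edges.mp (hz hs.cd)).2.1
  have hsub : ({a, b, c, d} : Finset V) ⊆ X := by
    simp [insert_subset_iff, ma, mb, mc, md]
  have hc4 : #({a, b, c, d} : Finset V) = 4 := by
    rw [card_insert_of_notMem (by simp [hab, hac, had]),
      card_insert_of_notMem (by simp [hbc, hbd]), card_insert_of_notMem (by simp [hcd]),
      card_singleton]
  have hXe : ({a, b, c, d} : Finset V) = X := eq_of_subset_of_card_le hsub (by omega)
  funext v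
  simp only [dv_apply, R4_tx]
  by_cases hv : v ∈ X
  · rw [if_pos hv]
    have h2 : 2 ≤ dg z v := by
      rw [← hXe] at hv
      simp only [mem_insert, mem_singleton] at hv
      rcases hv with rfl | rfl | rfl | rfl
      · exact dg_ge_two hs.ab (msw hs.da) hbd
      · exact dg_ge_two hs.bc (msw hs.ab) hac.symm
      · exact dg_ge_two hs.cd (msw hs.bc) hbd.symm
      · exact dg_ge_two hs.da (msw hs.cd) hac
    have := hM.le v
    omega
  · rw [if_neg hv]
    have : dg z v = 0 := by
      unfold dg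
      rw [card_eq_zero, filter_eq_empty_iff]
      intro e he hve
      obtain ⟨w, rfl⟩ := hve
      exact hv (R4_mem_edges.mp (hz he)).1
    rw [this]; rfl

end Pool.Agent.TFC

end
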