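import Pool.Agent.PFM.M01

section -- file PF4/WStep

/-!
The exchange theorem for 2-matchings all of whose squares are allowed: the one-step version (at most
two insertions of edges of `K` and two deletions).
-/

set_option autoImplicit false
set_option linter.unusedSectionVars false

namespace Pool.Agent.PF4

open Finset Pool.Agent.TFC

variable {V : Type*} [DecidableEq V]

/-- delete an optional edge -/
def ersO (o : Option (Sym2 V)) (L : Finset (Sym2 V)) : Finset (Sym2 V) :=
  match o with
  | none => L
  | some e => L.erase e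

/-- insert an optional edge -/
def insO (o : Option (Sym2 V)) (L : Finset (Sym2 V)) : Finset (Sym2 V) :=
  match o with
  | none => L
  | some e => insert e L

/-- `o` is empty or contains an element of `E` -/
def OIn (o : Option (Sym2 V)) (E : Finset (Sym2 V)) : Prop := ∀ e, o = some e → e ∈ E

lemma OIn.no (E : Finset (Sym2 V)) : OIn none E := fun _ he => by cases he

lemma OIn.so {E : Finset (Sym2 V)} {e : Sym2 V} (h : e ∈ E) : OIn (some e) E := by
  intro e' he
  rw [← Option.some.inj he]
  exact h

/-- the possible results of one step -/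
def WRes (al : V → V → V → V → Prop) (K : Finset (Sym2 V)) (τ : V → ℤ) (n : ℕ)
    (L : Finset (Sym2 V)) : Prop :=
  M2 L ∧ Good al L ∧ ((∃ w, dv L = τ - ev w ∧ (dv K w < τ w ∨ #(L \ K) + #(K \ L) < n)) ∨
    (∃ c, dv L = τ + ev c ∧ τ c < dv K c))

variable {al : V → V → V → V → Prop}

/-- one exchange (insert an edge of `K`, perhaps delete an edge) leads to `WRes` -/
def WOne (al : V → V → V → V → Prop) (K : Finset (Sym2 V)) (τ : V → ℤ) (n : ℕ)
    (L : Finset (Sym2 V)) : Prop :=
  ∃ e ∈ K, ∃ o, OIn o (L ∪ K) ∧ WRes al K τ n (ersO o (insert e L))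

/-- Case A of Lemma W: the edge `zc` can be added without creating a bad square. -/
lemma caseA {K : Finset (Sym2 V)} (hK : M2 K) {τ : V → ℤ} (hτ : ∀ v, τ v ≤ 2) {n : ℕ}
    {L : Finset (Sym2 V)} {z c : V} (hn : #(L \ K) + #(K \ L) ≤ n) (hL : M2 L)
    (hd : dv L = τ - ev z) (hzK : s(z, c) ∈ K) (hzL : s(z, c) ∉ L)
    (hg : Good al (insert s(z, c) L)) : WOne al K τ n L := by
  have hzc : z ≠ c := hK.nl.ne hzK
  have hd1 : dv (insert s(z, c) L) = τ + ev c := by
    rw [dv_insert hzc hzL, hd]; abel
  have hnl : NoLoop (insert s(z, c) L) := hL.nl.insert hzc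
  have hsub : insert s(z, c) L ⊆ L ∪ K := by
    intro e he
    rw [mem_insert] at he
    rcases he with rfl | he
    · exact mem_union_right _ hzK
    · exact mem_union_left _ he
  by_cases h1 : τ c < dv K c
  · refine ⟨s(z, c), hzK, none, OIn.no _, ?_, hg, Or.inr ⟨c, hd1, h1⟩⟩
    show M2 (insert s(z, c) L)
    refine M2.of_dv hnl fun v => ?_
    rw [hd1, Pi.add_apply, ev_apply]
    have hKc := hK.le c
    rw [dv_apply] at h1
    split_ifs with hv
    · subst hv; omega
    · have := hτ v; omega
  · push Not at h1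
    have h2 : dg K c < dg (insert s(z, c) L) c := by
      have h3 : dv (insert s(z, c) L) c = τ c + 1 := by rw [hd1, Pi.add_apply, ev_self]
      rw [dv_apply] at h1 h3
      omega
    obtain ⟨w, hw1, hw2⟩ := exists_nbr_notMem h2
    have hcw : c ≠ w := hnl.ne hw1
    have hwz : w ≠ z := by
      rintro rfl
      rw [Sym2.eq_swap] at hw2
      exact hw2 hzK
    have hd2 : dv ((insert s(z, c) L).erase s(c, w)) = τ - ev w := by
      rw [dv_erase hcw hw1, hd1]; abel
    have hsub2 : (insert s(z, c) L).erase s(c, w) ⊆ L ∪ K := (erase_subset _ _).trans hsub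
    have hnl2 : NoLoop ((insert s(z, c) L).erase s(c, w)) := hnl.mono (erase_subset _ _)
    refine ⟨s(z, c), hzK, some s(c, w), OIn.so (hsub hw1), M2.of_tau hnl2 hτ hd2,
      hg.mono (erase_subset _ _), Or.inl ⟨w, hd2, Or.inr ?_⟩⟩
    · show #((insert s(z, c) L).erase s(c, w) \ K) + #(K \ (insert s(z, c) L).erase s(c, w)) < n
      have e1 := card_dist_insert hzK hzL
      have e2 := card_dist_erase hw2 hw1
      omega

/-- the result of one step of the exchange -/
def WSt (al : V → V → V → V → Prop) (K : Finset (Sym2 V)) (τ : V → ℤ) (L : Finset (Sym2 V)) : Prop :=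
  ∃ e1 ∈ K, ∃ o2, OIn o2 (L ∪ K) ∧ ∃ o3, OIn o3 K ∧ ∃ o4, OIn o4 (L ∪ K) ∧
    WRes al K τ (#(L \ K) + #(K \ L)) (ersO o4 (insO o3 (ersO o2 (insert e1 L))))

lemma WOne.st {K : Finset (Sym2 V)} {τ : V → ℤ} {L : Finset (Sym2 V)}
    (h : WOne al K τ (#(L \ K) + #(K \ L)) L) : WSt al K τ L := by
  obtain ⟨e, he, o, ho, h⟩ := h
  exact ⟨e, he, o, ho, none, OIn.no _, none, OIn.no _, h⟩

/-- **One step of the exchange.** -/
theorem wstep (hal : AlSym al) {K : Finset (Sym2 V)} (hK : M2 K) (hKg : Good al K)
    {τ : V → ℤ} (hτ : ∀ v, τ v ≤ 2) {L : Finset (Sym2 V)} {z : V} (hL : M2 L) (hLg : Good al L)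
    (hd : dv L = τ - ev z) (h0 : τ z ≤ dv K z) : WSt al K τ L := by
  have hdz : dv L z = τ z - 1 := by rw [hd, Pi.sub_apply, ev_self]
  have hlt : dg L z < dg K z := by
    rw [dv_apply] at hdz h0
    omega
  obtain ⟨c, hcK, hcL⟩ := exists_nbr_notMem hlt
  have hzc : z ≠ c := hK.nl.ne hcK
  by_cases hB : ∀ p q, Sq (insert s(z, c) L) z c p q → al z c p q
  · exact (caseA hK hτ le_rfl hL hd hcK hcL (good_insert hal hLg hB)).st
  push Not at hB
  obtain ⟨c2, t, hX, hbad⟩ := hB
  have hnl1 : NoLoop (insert s(z, c) L) := hL.nl.insert hzc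
  have hD := hX.dist4 hnl1
  obtain ⟨-, hzc2, hzt, hcc2, hct, hc2t⟩ := hD
  -- the three other edges are in L
  have m1 : s(c, c2) ∈ L := by
    refine (mem_insert.mp hX.bc).resolve_left fun h => ?_
    rw [Sym2.eq_iff] at h
    rcases h with ⟨h, -⟩ | ⟨-, h⟩
    · exact hzc h.symm
    · exact hzc2 h.symm
  have m2 : s(c2, t) ∈ L := by
    refine (mem_insert.mp hX.cd).resolve_left fun h => ?_
    rw [Sym2.eq_iff] at h
    rcases h with ⟨h, -⟩ | ⟨h, -⟩
    · exact hzc2 h.symm
    · exact hcc2 h.symm
  have m3 : s(t, z) ∈ L := by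
    refine (mem_insert.mp hX.da).resolve_left fun h => ?_
    rw [Sym2.eq_iff] at h
    rcases h with ⟨h, -⟩ | ⟨h, -⟩
    · exact hzt h.symm
    · exact hct h.symm
  have m1' : s(c2, c) ∈ L := by rw [Sym2.eq_swap]; exact m1
  have m2' : s(t, c2) ∈ L := by rw [Sym2.eq_swap]; exact m2
  have m3' : s(z, t) ∈ L := by rw [Sym2.eq_swap]; exact m3
  have hzle : dg L z ≤ 1 := by
    have := hτ z
    rw [dv_apply] at hdz
    omega
  have hτz : τ z = 2 := by
    have h1 := dg_pos m3'
    have := hτ z
    rw [dv_apply] at hdz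
    omega
  have nz : ∀ u, s(z, u) ∈ L → u = t := fun u hu => nbr_unique hzle hu m3'
  have nt : ∀ u, s(t, u) ∈ L → u = z ∨ u = c2 := fun u hu =>
    nbr_two (hL.le t) m3 m2' (Ne.symm hzc2.symm) hu
  have nc2 : ∀ u, s(c2, u) ∈ L → u = t ∨ u = c := fun u hu =>
    nbr_two (hL.le c2) m2 m1' (Ne.symm hct) hu
  have hzK2 : dg K z = 2 := by
    have := hK.le z
    rw [dv_apply] at h0
    omega
  -- squares of `insert s(z, c) L` through `s(z, c)` are the one we found
  have uniq : ∀ p q, Sq (insert s(z, c) L) z c p q → p = c2 ∧ q = t := by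
    intro p q hs
    have hD' := hs.dist4 hnl1
    obtain ⟨-, hzp, hzq, hcp, hcq, hpq⟩ := hD'
    have k3 : s(z, q) ∈ L := by
      have := msw hs.da
      refine (mem_insert.mp this).resolve_left fun h => hcq (sym2_inj_left h).symm
    have hq : q = t := nz q k3
    subst hq
    have k2 : s(q, p) ∈ L := by
      have := msw hs.cd
      refine (mem_insert.mp this).resolve_left fun h => ?_
      rw [Sym2.eq_iff] at h
      rcases h with ⟨h, -⟩ | ⟨-, h⟩
      · exact hzq h.symm
      · exact hzp h.symm
    rcases nt p k2 with h | h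
    · exact absurd h.symm hzp
    · exact ⟨h, rfl⟩
  -- removing `s(c, c2)` destroys all bad squares
  have hc2mem : s(c, c2) ∈ insert s(z, c) L := mem_insert_of_mem m1
  have hg2 : Good al ((insert s(z, c) L).erase s(c, c2)) := by
    have hne : s(z, c) ≠ s(c, c2) := by
      intro h
      rw [Sym2.eq_iff] at h
      rcases h with ⟨h, -⟩ | ⟨h, -⟩
      · exact hzc h
      · exact hzc2 h
    have e : (insert s(z, c) L).erase s(c, c2) = insert s(z, c) (L.erase s(c, c2)) := by
      rw [erase_insert_of_ne hne]
    rw [e]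
    refine good_insert hal (hLg.mono (erase_subset _ _)) ?_
    intro p q hs
    have hs' : Sq (insert s(z, c) L) z c p q := hs.mono (insert_subset_insert _ (erase_subset _ _))
    obtain ⟨rfl, rfl⟩ := uniq p q hs'
    have := hs.bc
    rw [← e] at this
    exact absurd this (notMem_erase _ _)
  have hd1 : dv (insert s(z, c) L) = τ + ev c := by
    rw [dv_insert hzc hcL, hd]; abel
  have hd2 : dv ((insert s(z, c) L).erase s(c, c2)) = τ - ev c2 := by
    rw [dv_erase hcc2 hc2mem, hd1]; abel
  have hsub1 : insert s(z, c) L ⊆ L ∪ K := by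
    intro e he
    rw [mem_insert] at he
    rcases he with rfl | he
    · exact mem_union_right _ hcK
    · exact mem_union_left _ he
  have hsub2 : (insert s(z, c) L).erase s(c, c2) ⊆ L ∪ K := (erase_subset _ _).trans hsub1
  have hnl2 : NoLoop ((insert s(z, c) L).erase s(c, c2)) := hnl1.mono (erase_subset _ _)
  have hM2 : M2 ((insert s(z, c) L).erase s(c, c2)) := M2.of_tau hnl2 hτ hd2
  by_cases hcK2 : s(c, c2) ∈ K
  swap
  · -- case (a)
    refine ⟨s(z, c), hcK, some s(c, c2), OIn.so (mem_union_left _ m1), none, OIn.no _, none,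
      OIn.no _, hM2, hg2, Or.inl ⟨c2, hd2, Or.inr ?_⟩⟩
    · show #((insert s(z, c) L).erase s(c, c2) \ K) + #(K \ (insert s(z, c) L).erase s(c, c2)) < _
      have e1 := card_dist_insert hcK hcL
      have e2 := card_dist_erase hcK2 hc2mem
      omega
  by_cases htK : s(z, t) ∈ K
  swap
  · -- case (b)
    obtain ⟨c', hc'c, hc'K⟩ := exists_nbr_ne (z := K) (v := z) (by omega) c
    have hc't : c' ≠ t := by rintro rfl; exact htK hc'K
    have hc'L : s(z, c') ∉ L := fun h => hc't (nz c' h)
    refine (caseA hK hτ le_rfl hL hd hc'K hc'L (good_insert hal hLg ?_)).st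
    intro p q hs
    exfalso
    have hzc' : z ≠ c' := hK.nl.ne hc'K
    have hD' := hs.dist4 (hL.nl.insert hzc')
    obtain ⟨-, hzp, hzq, hcp, hcq, hpq⟩ := hD'
    have k3 : s(z, q) ∈ L := by
      have := msw hs.da
      refine (mem_insert.mp this).resolve_left fun h => hcq (sym2_inj_left h).symm
    have hq : q = t := nz q k3
    subst hq
    have k2 : s(q, p) ∈ L := by
      have := msw hs.cd
      refine (mem_insert.mp this).resolve_left fun h => ?_
      rw [Sym2.eq_iff] at h
      rcases h with ⟨h, -⟩ | ⟨-, h⟩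
      · exact hzq h.symm
      · exact hzp h.symm
    rcases nt p k2 with h | h
    · exact hzp h.symm
    · subst h
      have k1 : s(p, c') ∈ L := by
        have := msw hs.bc
        refine (mem_insert.mp this).resolve_left fun h => ?_
        rw [Sym2.eq_iff] at h
        rcases h with ⟨h, -⟩ | ⟨h, h'⟩
        · exact hzp h.symm
        · exact hcp h.symm
      rcases nc2 c' k1 with h | h
      · exact hc't h
      · exact hc'c h
  -- case (c)
  have htc2 : s(t, c2) ∉ K := by
    intro h
    refine hbad (hKg _ _ _ _ ⟨hX.ac, hX.bd, hcK, hcK2, ?_, ?_⟩)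
    · rw [Sym2.eq_swap]; exact h
    · rw [Sym2.eq_swap]; exact htK
  by_cases h5 : dv K c2 < τ c2
  · exact ⟨s(z, c), hcK, some s(c, c2), OIn.so (mem_union_left _ m1), none, OIn.no _, none,
      OIn.no _, hM2, hg2, Or.inl ⟨c2, hd2, Or.inl h5⟩⟩
  push Not at h5
  have hLc2 : dg L c2 = 2 := le_antisymm (hL.le c2) (dg_ge_two m2 m1' (Ne.symm hct))
  have hτc2 : τ c2 = 2 := by
    have : dv L c2 = τ c2 - 0 := by rw [hd, Pi.sub_apply, ev_ne hzc2.symm]
    rw [dv_apply, hLc2] at this
    push_cast at this
    omega
  have hKc2 : 2 ≤ dg K c2 := by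
    rw [dv_apply, hτc2] at h5
    exact_mod_cast h5
  obtain ⟨y, hyc, hyK⟩ := exists_nbr_ne hKc2 c
  have hyt : y ≠ t := by
    rintro rfl
    rw [Sym2.eq_swap] at hyK
    exact htc2 hyK
  have hyz : y ≠ z := by
    rintro rfl
    rw [Sym2.eq_swap] at hyK
    rcases nbr_two (hK.le y) hcK htK hct hyK with h | h
    · exact hcc2 h.symm
    · exact hc2t h
  have hyc2 : c2 ≠ y := hK.nl.ne hyK
  set L2 := (insert s(z, c) L).erase s(c, c2) with hL2
  -- membership in L2
  have inL2 : ∀ e, e ∈ L2 → e = s(z, c) ∨ (e ∈ L ∧ e ≠ s(c, c2)) := by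
    intro e he
    rw [hL2, mem_erase, mem_insert] at he
    rcases he with ⟨h1, h2 | h2⟩
    · exact Or.inl h2
    · exact Or.inr ⟨h2, h1⟩
  have n2c2 : ∀ u, s(c2, u) ∈ L2 → u = t := by
    intro u hu
    rcases inL2 _ hu with h | ⟨h, h'⟩
    · rw [Sym2.eq_iff] at h
      rcases h with ⟨h, -⟩ | ⟨h, -⟩
      · exact absurd h.symm hzc2
      · exact absurd h.symm hcc2
    · rcases nc2 u h with h1 | h1
      · exact h1
      · subst h1
        exact absurd Sym2.eq_swap h'
  have n2t : ∀ u, s(t, u) ∈ L2 → u = z ∨ u = c2 := by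
    intro u hu
    rcases inL2 _ hu with h | ⟨h, -⟩
    · rw [Sym2.eq_iff] at h
      rcases h with ⟨h, -⟩ | ⟨h, -⟩
      · exact absurd h.symm hzt
      · exact absurd h.symm hct
    · exact nt u h
  have n2z : ∀ u, s(z, u) ∈ L2 → u = t ∨ u = c := by
    intro u hu
    rcases inL2 _ hu with h | ⟨h, -⟩
    · exact Or.inr (sym2_inj_left h)
    · exact Or.inl (nz u h)
  have hyL2 : s(c2, y) ∉ L2 := fun h => hyt (n2c2 y h)
  have hg3 : Good al (insert s(c2, y) L2) := by
    refine good_insert hal hg2 ?_
    intro p q hs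
    exfalso
    have hD' := hs.dist4 (hnl2.insert hyc2)
    obtain ⟨-, hap, haq, hyp, hyq, hpq⟩ := hD'
    have k3 : s(c2, q) ∈ L2 := by
      have := msw hs.da
      refine (mem_insert.mp this).resolve_left fun h => hyq (sym2_inj_left h).symm
    have hq : q = t := n2c2 q k3
    subst hq
    have k2 : s(q, p) ∈ L2 := by
      have := msw hs.cd
      refine (mem_insert.mp this).resolve_left fun h => ?_
      rw [Sym2.eq_iff] at h
      rcases h with ⟨h, -⟩ | ⟨-, h⟩
      · exact haq h.symm
      · exact hap h.symm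
    rcases n2t p k2 with h | h
    · subst h
      have k1 : s(p, y) ∈ L2 := by
        have := msw hs.bc
        refine (mem_insert.mp this).resolve_left fun h => ?_
        rw [Sym2.eq_iff] at h
        rcases h with ⟨h, -⟩ | ⟨h, -⟩
        · exact hap h.symm
        · exact hyp h.symm
      rcases n2z y k1 with h | h
      · exact hyt h
      · exact hyc h
    · exact hap h.symm
  have e1 := card_dist_insert hcK hcL
  have e2 := card_dist_erase' hcK2 hc2mem
  rw [← hL2] at e2
  obtain ⟨e, he, o, ho, h⟩ := caseA hK hτ (n := #(L \ K) + #(K \ L)) (by omega) hM2 hd2 hyK hyL2 hg3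
  refine ⟨s(z, c), hcK, some s(c, c2), OIn.so (mem_union_left _ m1), some e, OIn.so he, o,
    fun e' he' => ?_, h⟩
  · rcases mem_union.1 (ho e' he') with h1 | h1
    · exact hsub2 h1
    · exact mem_union_right _ h1

end Pool.Agent.PF4

end

section -- file Lib/helper60/StackProg

/-!
Structured programs on finitely many stacks of bits, with a cost semantics, and their
translation into the `Turing.TM2` machines of Mathlib.
-/

set_option autoImplicit false

namespace Pool.Agent.Lib.helper60

open Turing StateTransition Function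

/-- Structured programs on stacks of bits indexed by `K`.
`popCase k pN pF pT` pops stack `k` and runs `pN` if it was empty, `pF` / `pT` if the popped bit
was `false` / `true`. `loop k pF pT` pops stack `k` and runs `pF` / `pT`, again and again,
until stack `k` is found empty. -/
inductive Prog (K : Type) : Type where
  | skip : Prog K
  | push : K → Bool → Prog K
  | seq : Prog K → Prog K → Prog K
  | popCase : K → Prog K → Prog K → Prog K → Prog K
  | loop : K → Prog K → Prog K → Prog K

variable {K : Type}

/-- sequential composition is written `++` -/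
instance : Append (Prog K) := ⟨Prog.seq⟩

/-- the stacks -/
abbrev Stk (K : Type) := K → List Bool

/-- `Exec p S t S'`: started with stacks `S`, the program `p` ends with stacks `S'` after exactly
`t` steps. -/
inductive Exec [DecidableEq K] : Prog K → Stk K → ℕ → Stk K → Prop
  | skip (S : Stk K) : Exec .skip S 1 S
  | push (k : K) (b : Bool) (S : Stk K) : Exec (.push k b) S 1 (update S k (b :: S k))
  | seq {p q : Prog K} {S S' S'' : Stk K} {t t' : ℕ} :
      Exec p S t S' → Exec q S' t' S'' → Exec (p ++ q) S (t + t') S''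
  | popN {k : K} {pN pF pT : Prog K} {S S' : Stk K} {t : ℕ} :
      S k = [] → Exec pN S t S' → Exec (.popCase k pN pF pT) S (t + 1) S'
  | popF {k : K} {pN pF pT : Prog K} {S S' : Stk K} {t : ℕ} {l : List Bool} :
      S k = false :: l → Exec pF (update S k l) t S' → Exec (.popCase k pN pF pT) S (t + 1) S'
  | popT {k : K} {pN pF pT : Prog K} {S S' : Stk K} {t : ℕ} {l : List Bool} :
      S k = true :: l → Exec pT (update S k l) t S' → Exec (.popCase k pN pF pT) S (t + 1) S'
  | loopN {k : K} {pF pT : Prog K} {S : Stk K} :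
      S k = [] → Exec (.loop k pF pT) S 1 S
  | loopF {k : K} {pF pT : Prog K} {S S' S'' : Stk K} {t t' : ℕ} {l : List Bool} :
      S k = false :: l → Exec pF (update S k l) t S' → Exec (.loop k pF pT) S' t' S'' →
      Exec (.loop k pF pT) S (t + t' + 1) S''
  | loopT {k : K} {pF pT : Prog K} {S S' S'' : Stk K} {t t' : ℕ} {l : List Bool} :
      S k = true :: l → Exec pT (update S k l) t S' → Exec (.loop k pF pT) S' t' S'' →
      Exec (.loop k pF pT) S (t + t' + 1) S''

/-- `Runs p S t S'`: started with stacks `S`, the program `p` ends with stacks `S'` after at most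
`t` steps. -/
def Runs [DecidableEq K] (p : Prog K) (S : Stk K) (t : ℕ) (S' : Stk K) : Prop :=
  ∃ t' ≤ t, Exec p S t' S'

section rules

variable [DecidableEq K]

lemma Runs.mono {p : Prog K} {S S' : Stk K} {t t' : ℕ} (h : Runs p S t S') (htt : t ≤ t') :
    Runs p S t' S' := by
  obtain ⟨u, hu, he⟩ := h
  exact ⟨u, hu.trans htt, he⟩

lemma Runs.skip (S : Stk K) : Runs .skip S 1 S := ⟨1, le_rfl, Exec.skip S⟩

lemma Runs.push (k : K) (b : Bool) (S : Stk K) :
    Runs (.push k b) S 1 (update S k (b :: S k)) := ⟨1, le_rfl, Exec.push k b S⟩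

lemma Runs.seq {p q : Prog K} {S S' S'' : Stk K} {t t' : ℕ}
    (h : Runs p S t S') (h' : Runs q S' t' S'') : Runs (p ++ q) S (t + t') S'' := by
  obtain ⟨u, hu, he⟩ := h
  obtain ⟨u', hu', he'⟩ := h'
  exact ⟨u + u', by omega, Exec.seq he he'⟩

lemma Runs.popN {k : K} {pN pF pT : Prog K} {S S' : Stk K} {t : ℕ}
    (hS : S k = []) (h : Runs pN S t S') : Runs (.popCase k pN pF pT) S (t + 1) S' := by
  obtain ⟨u, hu, he⟩ := h
  exact ⟨u + 1, by omega, Exec.popN hS he⟩

lemma Runs.popF {k : K} {pN pF pT : Prog K} {S S' : Stk K} {t : ℕ} {l : List Bool}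
    (hS : S k = false :: l) (h : Runs pF (update S k l) t S') :
    Runs (.popCase k pN pF pT) S (t + 1) S' := by
  obtain ⟨u, hu, he⟩ := h
  exact ⟨u + 1, by omega, Exec.popF hS he⟩

lemma Runs.popT {k : K} {pN pF pT : Prog K} {S S' : Stk K} {t : ℕ} {l : List Bool}
    (hS : S k = true :: l) (h : Runs pT (update S k l) t S') :
    Runs (.popCase k pN pF pT) S (t + 1) S' := by
  obtain ⟨u, hu, he⟩ := h
  exact ⟨u + 1, by omega, Exec.popT hS he⟩

lemma Runs.loopN {k : K} {pF pT : Prog K} {S : Stk K} (hS : S k = []) :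
    Runs (.loop k pF pT) S 1 S := ⟨1, le_rfl, Exec.loopN hS⟩

lemma Runs.loopF {k : K} {pF pT : Prog K} {S S' S'' : Stk K} {t t' : ℕ} {l : List Bool}
    (hS : S k = false :: l) (h : Runs pF (update S k l) t S')
    (h' : Runs (.loop k pF pT) S' t' S'') : Runs (.loop k pF pT) S (t + t' + 1) S'' := by
  obtain ⟨u, hu, he⟩ := h
  obtain ⟨u', hu', he'⟩ := h'
  exact ⟨u + u' + 1, by omega, Exec.loopF hS he he'⟩

lemma Runs.loopT {k : K} {pF pT : Prog K} {S S' S'' : Stk K} {t t' : ℕ} {l : List Bool}
    (hS : S k = true :: l) (h : Runs pT (update S k l) t S')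
    (h' : Runs (.loop k pF pT) S' t' S'') : Runs (.loop k pF pT) S (t + t' + 1) S'' := by
  obtain ⟨u, hu, he⟩ := h
  obtain ⟨u', hu', he'⟩ := h'
  exact ⟨u + u' + 1, by omega, Exec.loopT hS he he'⟩

end rules

/-! ### Total length of the stacks grows at most by the number of steps -/

section length

variable [DecidableEq K] [Fintype K]

/-- total length of the stacks -/
def total (S : Stk K) : ℕ := ∑ k, (S k).length

lemma total_update (S : Stk K) (k : K) (l : List Bool) :
    total (update S k l) + (S k).length = total S + l.length := by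
  unfold total
  rw [← Finset.add_sum_erase Finset.univ (fun j => (update S k l j).length) (Finset.mem_univ k),
    ← Finset.add_sum_erase Finset.univ (fun j => (S j).length) (Finset.mem_univ k)]
  have : ∑ x ∈ Finset.univ.erase k, (update S k l x).length
      = ∑ x ∈ Finset.univ.erase k, (S x).length := by
    apply Finset.sum_congr rfl
    intro x hx
    rw [update_of_ne (Finset.ne_of_mem_erase hx)]
  rw [this]
  simp only [update_self]
  ring

lemma Exec.total_le {p : Prog K} {S S' : Stk K} {t : ℕ} (h : Exec p S t S') :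
    total S' ≤ total S + t := by
  induction h with
  | skip S => omega
  | push k b S =>
    have := total_update S k (b :: S k)
    simp at this
    omega
  | seq _ _ ih1 ih2 => omega
  | popN _ _ ih => omega
  | popF hS _ ih =>
    rename_i k pN pF pT S S' t l _
    have := total_update S k l
    rw [hS] at this
    simp at this
    omega
  | popT hS _ ih =>
    rename_i k pN pF pT S S' t l _
    have := total_update S k l
    rw [hS] at this
    simp at this
    omega
  | loopN _ => omega
  | loopF hS _ _ ih1 ih2 =>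
    rename_i k pF pT S S' S'' t t' l _ _
    have := total_update S k l
    rw [hS] at this
    simp at this
    omega
  | loopT hS _ _ ih1 ih2 =>
    rename_i k pF pT S S' S'' t t' l _ _
    have := total_update S k l
    rw [hS] at this
    simp at this
    omega

lemma Runs.total_le {p : Prog K} {S S' : Stk K} {t : ℕ} (h : Runs p S t S') :
    total S' ≤ total S + t := by
  obtain ⟨u, hu, he⟩ := h
  exact he.total_le.trans (by omega)

end length

/-! ### Translation into `TM2` machines -/

/-- labels of the machine of a program -/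
def Lab : Prog K → Type
  | .skip => Unit
  | .push _ _ => Unit
  | .seq p q => Lab p ⊕ Lab q
  | .popCase _ pN pF pT => Unit ⊕ (Lab pN ⊕ (Lab pF ⊕ Lab pT))
  | .loop _ pF pT => Unit ⊕ (Lab pF ⊕ Lab pT)

/-- there are finitely many labels -/
@[instance_reducible, instance] def labFintype : (p : Prog K) → Fintype (Lab p)
  | .skip => inferInstanceAs (Fintype Unit)
  | .push _ _ => inferInstanceAs (Fintype Unit)
  | .seq p q =>
    letI := labFintype p
    letI := labFintype q
    inferInstanceAs (Fintype (Lab p ⊕ Lab q))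
  | .popCase _ pN pF pT =>
    letI := labFintype pN
    letI := labFintype pF
    letI := labFintype pT
    inferInstanceAs (Fintype (Unit ⊕ (Lab pN ⊕ (Lab pF ⊕ Lab pT))))
  | .loop _ pF pT =>
    letI := labFintype pF
    letI := labFintype pT
    inferInstanceAs (Fintype (Unit ⊕ (Lab pF ⊕ Lab pT)))

/-- entry label -/
def entry : (p : Prog K) → Lab p
  | .skip => ()
  | .push _ _ => ()
  | .seq p _ => Sum.inl (entry p)
  | .popCase _ _ _ _ => Sum.inl ()
  | .loop _ _ _ => Sum.inl ()

/-- the statements of the machine of a program; the internal state holds the last popped bit and is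
reset to `none` before each jump -/
def comp : (p : Prog K) → {Λ : Type} → (Lab p → Λ) → Λ → Lab p →
    TM2.Stmt (fun _ : K => Bool) Λ (Option Bool)
  | .skip, _, _, ex, _ => .goto (fun _ => ex)
  | .push k b, _, _, ex, _ => .push k (fun _ => b) (.goto (fun _ => ex))
  | .seq p q, _, emb, ex, l =>
    match l with
    | Sum.inl l => comp p (fun a => emb (Sum.inl a)) (emb (Sum.inr (entry q))) l
    | Sum.inr l => comp q (fun a => emb (Sum.inr a)) ex l
  | .popCase k pN pF pT, _, emb, ex, l =>
    match l with
    | Sum.inl _ => .pop k (fun _ o => o) <|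
        .branch (fun v => v.isNone) (.load (fun _ => none)
          (.goto (fun _ => emb (Sum.inr (Sum.inl (entry pN)))))) <|
        .branch (fun v => v.getD false) (.load (fun _ => none)
          (.goto (fun _ => emb (Sum.inr (Sum.inr (Sum.inr (entry pT))))))) <|
        (.load (fun _ => none) (.goto (fun _ => emb (Sum.inr (Sum.inr (Sum.inl (entry pF)))))))
    | Sum.inr (Sum.inl l) => comp pN (fun a => emb (Sum.inr (Sum.inl a))) ex l
    | Sum.inr (Sum.inr (Sum.inl l)) => comp pF (fun a => emb (Sum.inr (Sum.inr (Sum.inl a)))) ex l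
    | Sum.inr (Sum.inr (Sum.inr l)) => comp pT (fun a => emb (Sum.inr (Sum.inr (Sum.inr a)))) ex l
  | .loop k pF pT, _, emb, ex, l =>
    match l with
    | Sum.inl _ => .pop k (fun _ o => o) <|
        .branch (fun v => v.isNone) (.load (fun _ => none) (.goto (fun _ => ex))) <|
        .branch (fun v => v.getD false) (.load (fun _ => none)
          (.goto (fun _ => emb (Sum.inr (Sum.inr (entry pT)))))) <|
        (.load (fun _ => none) (.goto (fun _ => emb (Sum.inr (Sum.inl (entry pF))))))
    | Sum.inr (Sum.inl l) => comp pF (fun a => emb (Sum.inr (Sum.inl a))) (emb (Sum.inl ())) l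
    | Sum.inr (Sum.inr l) => comp pT (fun a => emb (Sum.inr (Sum.inr a))) (emb (Sum.inl ())) l

/-- `n` steps of a partial step function -/
def stepsN {σ : Type} (f : σ → Option σ) (n : ℕ) (a b : σ) : Prop :=
  (flip bind f)^[n] (some a) = some b

lemma stepsN_one {σ : Type} {f : σ → Option σ} {a b : σ} (h : f a = some b) : stepsN f 1 a b := by
  simpa [stepsN, flip] using h

lemma stepsN_trans {σ : Type} {f : σ → Option σ} {a b c : σ} {m n : ℕ}
    (h : stepsN f m a b) (h' : stepsN f n b c) : stepsN f (m + n) a c := by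
  unfold stepsN at *
  rw [add_comm, Function.iterate_add_apply, h, h']

lemma stepsN_succ {σ : Type} {f : σ → Option σ} {a b c : σ} {n : ℕ}
    (h : f a = some b) (h' : stepsN f n b c) : stepsN f (n + 1) a c := by
  rw [add_comm]
  exact stepsN_trans (stepsN_one h) h'

theorem comp_correct [DecidableEq K] {p : Prog K} {S S' : Stk K} {t : ℕ} (h : Exec p S t S') :
    ∀ {Λ : Type} (emb : Lab p → Λ) (ex : Λ)
      (M : Λ → TM2.Stmt (fun _ : K => Bool) Λ (Option Bool))
      (_ : ∀ l, M (emb l) = comp p emb ex l),
      stepsN (TM2.step M) t ⟨some (emb (entry p)), none, S⟩ ⟨some ex, none, S'⟩ := by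
  induction h with
  | skip S =>
    intro Λ emb ex M hM
    apply stepsN_one
    have h1 := hM (entry (.skip : Prog K))
    simp only [TM2.step, h1, comp, TM2.stepAux]
  | push k b S =>
    intro Λ emb ex M hM
    apply stepsN_one
    have h1 := hM (entry (.push k b : Prog K))
    simp only [TM2.step, h1, comp, TM2.stepAux]
  | seq _ _ ih1 ih2 =>
    intro Λ emb ex M hM
    exact stepsN_trans
      (ih1 (fun a => emb (Sum.inl a)) _ M (fun l => hM (Sum.inl l)))
      (ih2 (fun a => emb (Sum.inr a)) _ M (fun l => hM (Sum.inr l)))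
  | popN hS _ ih =>
    rename_i k pN pF pT S S' t _
    intro Λ emb ex M hM
    have h1 := hM (Sum.inl ())
    refine stepsN_succ (b := ⟨some (emb (Sum.inr (Sum.inl (entry pN)))), none, S⟩) ?_
      (ih (fun a => emb (Sum.inr (Sum.inl a))) ex M (fun l => hM (Sum.inr (Sum.inl l))))
    have h2 : update S k [] = S := by rw [← hS, update_eq_self]
    simp only [TM2.step, entry, h1, comp, TM2.stepAux, hS, List.head?_nil, Option.isNone_none,
      cond_true, List.tail_nil, h2]
  | popF hS _ ih =>
    rename_i k pN pF pT S S' t l _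
    intro Λ emb ex M hM
    have h1 := hM (Sum.inl ())
    refine stepsN_succ
      (b := ⟨some (emb (Sum.inr (Sum.inr (Sum.inl (entry pF))))), none, update S k l⟩) ?_
      (ih (fun a => emb (Sum.inr (Sum.inr (Sum.inl a)))) ex M
        (fun l => hM (Sum.inr (Sum.inr (Sum.inl l)))))
    simp only [TM2.step, entry, h1, comp, TM2.stepAux, hS, List.head?_cons, Option.isNone_some,
      cond_false, List.tail_cons, Option.getD_some]
  | popT hS _ ih =>
    rename_i k pN pF pT S S' t l _
    intro Λ emb ex M hM
    have h1 := hM (Sum.inl ())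
    refine stepsN_succ
      (b := ⟨some (emb (Sum.inr (Sum.inr (Sum.inr (entry pT))))), none, update S k l⟩) ?_
      (ih (fun a => emb (Sum.inr (Sum.inr (Sum.inr a)))) ex M
        (fun l => hM (Sum.inr (Sum.inr (Sum.inr l)))))
    simp only [TM2.step, entry, h1, comp, TM2.stepAux, hS, List.head?_cons, Option.isNone_some,
      cond_false, cond_true, List.tail_cons, Option.getD_some]
  | loopN hS =>
    rename_i k pF pT S
    intro Λ emb ex M hM
    have h1 := hM (Sum.inl ())
    apply stepsN_one
    have h2 : update S k [] = S := by rw [← hS, update_eq_self]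
    simp only [TM2.step, entry, h1, comp, TM2.stepAux, hS, List.head?_nil, Option.isNone_none,
      cond_true, List.tail_nil, h2]
  | loopF hS _ _ ih1 ih2 =>
    rename_i k pF pT S S' S'' t t' l _ _
    intro Λ emb ex M hM
    have h1 := hM (Sum.inl ())
    refine stepsN_succ
      (b := ⟨some (emb (Sum.inr (Sum.inl (entry pF)))), none, update S k l⟩) ?_
      (stepsN_trans (ih1 (fun a => emb (Sum.inr (Sum.inl a))) (emb (Sum.inl ())) M
        (fun l => hM (Sum.inr (Sum.inl l)))) (ih2 emb ex M hM))
    simp only [TM2.step, entry, h1, comp, TM2.stepAux, hS, List.head?_cons, Option.isNone_some,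
      cond_false, List.tail_cons, Option.getD_some]
  | loopT hS _ _ ih1 ih2 =>
    rename_i k pF pT S S' S'' t t' l _ _
    intro Λ emb ex M hM
    have h1 := hM (Sum.inl ())
    refine stepsN_succ
      (b := ⟨some (emb (Sum.inr (Sum.inr (entry pT)))), none, update S k l⟩) ?_
      (stepsN_trans (ih1 (fun a => emb (Sum.inr (Sum.inr a))) (emb (Sum.inl ())) M
        (fun l => hM (Sum.inr (Sum.inr l)))) (ih2 emb ex M hM))
    simp only [TM2.step, entry, h1, comp, TM2.stepAux, hS, List.head?_cons, Option.isNone_some,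
      cond_false, cond_true, List.tail_cons, Option.getD_some]

/-- stacks empty except stack `k`, which holds `w` -/
def only [DecidableEq K] (k : K) (w : List Bool) : Stk K := fun j => if j = k then w else []

/-- the bundled machine of a program -/
def machine [DecidableEq K] [Fintype K] (k₀ k₁ : K) (p : Prog K) : FinTM2 where
  K := K
  k₀ := k₀
  k₁ := k₁
  Γ := fun _ => Bool
  Λ := Option (Lab p)
  main := some (entry p)
  σ := Option Bool
  initialState := none
  m := fun l => match l with
    | none => TM2.Stmt.halt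
    | some l => comp p some none l

/-- a program run gives a machine run -/
theorem machine_runs [DecidableEq K] [Fintype K] (k₀ k₁ : K) (p : Prog K) {w w' : List Bool}
    {t : ℕ} (h : Runs p (only k₀ w) t (only k₁ w')) :
    Nonempty (TM2OutputsInTime (machine k₀ k₁ p) w (some w') (t + 1)) := by
  obtain ⟨u, hu, he⟩ := h
  have h1 := comp_correct he some none (machine k₀ k₁ p).m (fun l => rfl)
  have h2 : stepsN (TM2.step (machine k₀ k₁ p).m) (u + 1)
      ⟨some (some (entry p)), none, only k₀ w⟩ ⟨none, none, only k₁ w'⟩ :=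
    stepsN_trans h1 (stepsN_one rfl)
  have e1 : initList (machine k₀ k₁ p) w = ⟨some (some (entry p)), none, only k₀ w⟩ := by
    unfold initList
    congr 1
  have e2 : haltList (machine k₀ k₁ p) w' = ⟨none, none, only k₁ w'⟩ := by
    unfold haltList
    congr 1
  have h3 : (flip bind (TM2.step (machine k₀ k₁ p).m))^[u + 1]
      (some (initList (machine k₀ k₁ p) w)) = some (haltList (machine k₀ k₁ p) w') := by
    unfold stepsN at h2
    rw [e2]
    refine Eq.trans ?_ h2
    rw [e1]
  exact ⟨{ steps := u + 1, evals_in_steps := h3, steps_le_m := Nat.succ_le_succ hu }⟩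

end Pool.Agent.Lib.helper60

end

section -- file Lib/helper60/DTree

/-!
Binary trees, their prefix code, and basic stack programs acting on the top term of the main stack.
-/

set_option autoImplicit false

namespace Pool.Agent.Lib.helper60

open Function

/-- binary trees: the universal data type -/
inductive D : Type where
  | nil : D
  | node : D → D → D
  deriving DecidableEq, Inhabited

namespace D

/-- prefix code -/
def enc : D → List Bool
  | nil => [false]
  | node a b => true :: (a.enc ++ b.enc)

/-- size: the length of the code -/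
def size (x : D) : ℕ := x.enc.length

@[simp] lemma size_nil : size nil = 1 := rfl

@[simp] lemma size_node (a b : D) : size (node a b) = a.size + b.size + 1 := by
  simp [size, enc]

lemma size_pos (x : D) : 0 < x.size := by cases x <;> simp

end D

/-- the four stacks -/
inductive R : Type where
  | m | a | b | c
  deriving DecidableEq

instance : Fintype R where
  elems := {R.m, R.a, R.b, R.c}
  complete := by intro x; cases x <;> decide

/-- stacks given by their contents -/
def st (m a b c : List Bool) : Stk R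
  | .m => m
  | .a => a
  | .b => b
  | .c => c

@[simp] lemma st_m (m a b c : List Bool) : st m a b c R.m = m := rfl
@[simp] lemma st_a (m a b c : List Bool) : st m a b c R.a = a := rfl
@[simp] lemma st_b (m a b c : List Bool) : st m a b c R.b = b := rfl
@[simp] lemma st_c (m a b c : List Bool) : st m a b c R.c = c := rfl

@[simp] lemma update_st_m (m a b c x : List Bool) : update (st m a b c) R.m x = st x a b c := by
  funext k; cases k <;> simp [update]

@[simp] lemma update_st_a (m a b c x : List Bool) : update (st m a b c) R.a x = st m x b c := by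
  funext k; cases k <;> simp [update]

@[simp] lemma update_st_b (m a b c x : List Bool) : update (st m a b c) R.b x = st m a x c := by
  funext k; cases k <;> simp [update]

@[simp] lemma update_st_c (m a b c x : List Bool) : update (st m a b c) R.c x = st m a b x := by
  funext k; cases k <;> simp [update]

lemma st_only (w : List Bool) : st w [] [] [] = only R.m w := by
  funext k; cases k <;> simp [only]

lemma total_st (m a b c : List Bool) :
    total (st m a b c) = m.length + a.length + b.length + c.length := by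
  have h : (Finset.univ : Finset R) = {R.m, R.a, R.b, R.c} := by rfl
  unfold total
  rw [h]
  simp [st]
  ring

section basics

/-- move the contents of stack `s` onto stack `d` (reversing the order) -/
def transfer (s d : R) : Prog R := .loop s (.push d false) (.push d true)

lemma transfer_runs (s d : R) (hsd : s ≠ d) (w : List Bool) : ∀ (S : Stk R), S s = w →
    Runs (transfer s d) S (2 * w.length + 1)
      (update (update S s []) d (w.reverse ++ S d)) := by
  induction w with
  | nil =>
    intro S hS
    have h0 : update S s [] = S := by rw [← hS, update_eq_self]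
    have : update (update S s []) d ([].reverse ++ S d) = S := by
      rw [h0]
      simp
    rw [this]
    exact Runs.loopN hS
  | cons x w ih =>
    intro S hS
    have h1 : (update (update S s w) d (x :: S d)) s = w := by
      rw [update_of_ne hsd, update_self]
    have h2 := ih _ h1
    have h3 : update (update (update (update S s w) d (x :: S d)) s []) d
        (w.reverse ++ (update (update S s w) d (x :: S d)) d)
        = update (update S s []) d ((x :: w).reverse ++ S d) := by
      funext k
      by_cases hk : k = d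
      · subst hk
        simp
      · by_cases hk' : k = s
        · subst hk'
          simp [update_of_ne hk]
        · simp [update_of_ne hk, update_of_ne hk']
    rw [h3] at h2
    cases x with
    | false =>
      have h4 : Runs (.push d false) (update S s w) 1
          (update (update S s w) d (false :: S d)) := by
        have := Runs.push d false (update S s w)
        rwa [update_of_ne hsd.symm] at this
      exact (Runs.loopF hS h4 h2).mono (by simp; omega)
    | true =>
      have h4 : Runs (.push d true) (update S s w) 1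
          (update (update S s w) d (true :: S d)) := by
        have := Runs.push d true (update S s w)
        rwa [update_of_ne hsd.symm] at this
      exact (Runs.loopT hS h4 h2).mono (by simp; omega)

/-- move the contents of stack `s` onto both `d` and `e` -/
def transfer2 (s d e : R) : Prog R :=
  .loop s (.push d false ++ .push e false) (.push d true ++ .push e true)

lemma transfer2_ab (w : List Bool) : ∀ (m b c : List Bool),
    Runs (transfer2 .a .m .b) (st m w b c) (3 * w.length + 1)
      (st (w.reverse ++ m) [] (w.reverse ++ b) c) := by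
  induction w with
  | nil => intro m b c; exact Runs.loopN rfl
  | cons x w ih =>
    intro m b c
    have h2 := ih (x :: m) (x :: b) c
    cases x with
    | false =>
      have h4 : Runs (.push R.m false ++ .push R.b false) (st m w b c) 2
          (st (false :: m) w (false :: b) c) := by
        have h5 := (Runs.push R.m false (st m w b c)).seq (Runs.push R.b false _)
        simpa using h5
      have h6 := Runs.loopF (k := R.a) (S := st m (false :: w) b c) rfl
        (by simpa using h4) h2
      refine (Runs.mono (t := 2 + (3 * w.length + 1) + 1) ?_ (by simp; omega))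
      simpa [transfer2] using h6
    | true =>
      have h4 : Runs (.push R.m true ++ .push R.b true) (st m w b c) 2
          (st (true :: m) w (true :: b) c) := by
        have h5 := (Runs.push R.m true (st m w b c)).seq (Runs.push R.b true _)
        simpa using h5
      have h6 := Runs.loopT (k := R.a) (S := st m (true :: w) b c) rfl
        (by simpa using h4) h2
      refine (Runs.mono (t := 2 + (3 * w.length + 1) + 1) ?_ (by simp; omega))
      simpa [transfer2] using h6

/-- erase a stack -/
def clear (s : R) : Prog R := .loop s .skip .skip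

lemma clear_a (w : List Bool) : ∀ (m b c : List Bool),
    Runs (clear .a) (st m w b c) (2 * w.length + 1) (st m [] b c) := by
  induction w with
  | nil => intro m b c; exact Runs.loopN rfl
  | cons x w ih =>
    intro m b c
    have h2 := ih m b c
    have h4 : Runs .skip (st m w b c) 1 (st m w b c) := Runs.skip _
    cases x with
    | false =>
      have h6 := Runs.loopF (k := R.a) (pT := .skip) (S := st m (false :: w) b c) rfl
        (by simpa using h4) h2
      exact h6.mono (by simp; omega)
    | true =>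
      have h6 := Runs.loopT (k := R.a) (pF := .skip) (S := st m (true :: w) b c) rfl
        (by simpa using h4) h2
      exact h6.mono (by simp; omega)

/-- one step of scanning a term -/
def scanBody (d : R) : Prog R :=
  .popCase .m .skip (.push d false) (.push d true ++ (.push .c true ++ .push .c true))

/-- move the top term of the main stack onto stack `d` (reversed), using `c` as a counter -/
def moveTerm (d : R) : Prog R :=
  .push .c true ++ .loop .c (scanBody d) (scanBody d)

lemma scan_a : ∀ (n : ℕ) (xs : List D) (r a b : List Bool), (xs.flatMap D.enc).length ≤ n →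
    Runs (.loop .c (scanBody .a) (scanBody .a))
      (st (xs.flatMap D.enc ++ r) a b (List.replicate xs.length true))
      (5 * n + 1)
      (st r ((xs.flatMap D.enc).reverse ++ a) b []) := by
  intro n
  induction n with
  | zero =>
    intro xs r a b h
    cases xs with
    | nil => exact Runs.loopN rfl
    | cons x xs =>
      have := x.size_pos
      simp [D.size] at this h
      simp [h.1] at this
  | succ n ih =>
    intro xs r a b h
    cases xs with
    | nil => exact (Runs.loopN rfl).mono (by omega)
    | cons x xs =>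
      cases x with
      | nil =>
        have h1 := ih xs r (false :: a) b (by simp [D.enc] at h ⊢; omega)
        have h2 : Runs (scanBody .a) (st (false :: (xs.flatMap D.enc ++ r)) a b
            (List.replicate xs.length true)) 2
            (st (xs.flatMap D.enc ++ r) (false :: a) b (List.replicate xs.length true)) := by
          refine Runs.popF (k := R.m) (t := 1) (l := xs.flatMap D.enc ++ r) rfl ?_
          have := Runs.push R.a false (st (xs.flatMap D.enc ++ r) a b
            (List.replicate xs.length true))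
          simpa using this
        have h3 := Runs.loopT (k := R.c) (pF := scanBody .a)
          (S := st (((D.nil :: xs).flatMap D.enc) ++ r) a b
            (List.replicate (D.nil :: xs).length true))
          (l := List.replicate xs.length true) rfl (by simpa [D.enc] using h2) h1
        refine Runs.mono (t := 2 + (5 * n + 1) + 1) ?_ (by omega)
        simpa [D.enc] using h3
      | node y z =>
        have h1 := ih (y :: z :: xs) r (true :: a) b (by simp [D.enc] at h ⊢; omega)
        have h2 : Runs (scanBody .a) (st (true :: (((y :: z :: xs).flatMap D.enc) ++ r)) a b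
            (List.replicate xs.length true)) 4
            (st (((y :: z :: xs).flatMap D.enc) ++ r) (true :: a) b
              (List.replicate (y :: z :: xs).length true)) := by
          refine Runs.popT (k := R.m) (t := 3) (l := ((y :: z :: xs).flatMap D.enc) ++ r) rfl ?_
          have := (Runs.push R.a true (st (((y :: z :: xs).flatMap D.enc) ++ r) a b
            (List.replicate xs.length true))).seq
            ((Runs.push R.c true _).seq (Runs.push R.c true _))
          simpa [List.replicate_succ] using this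
        have h3 := Runs.loopT (k := R.c) (pF := scanBody .a)
          (S := st (((D.node y z :: xs).flatMap D.enc) ++ r) a b
            (List.replicate (D.node y z :: xs).length true))
          (l := List.replicate xs.length true) rfl (by simpa [D.enc] using h2) h1
        refine Runs.mono (t := 4 + (5 * n + 1) + 1) ?_ (by omega)
        simpa [D.enc] using h3

lemma scan_b : ∀ (n : ℕ) (xs : List D) (r a b : List Bool), (xs.flatMap D.enc).length ≤ n →
    Runs (.loop .c (scanBody .b) (scanBody .b))
      (st (xs.flatMap D.enc ++ r) a b (List.replicate xs.length true))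
      (5 * n + 1)
      (st r a ((xs.flatMap D.enc).reverse ++ b) []) := by
  intro n
  induction n with
  | zero =>
    intro xs r a b h
    cases xs with
    | nil => exact Runs.loopN rfl
    | cons x xs =>
      have := x.size_pos
      simp [D.size] at this h
      simp [h.1] at this
  | succ n ih =>
    intro xs r a b h
    cases xs with
    | nil => exact (Runs.loopN rfl).mono (by omega)
    | cons x xs =>
      cases x with
      | nil =>
        have h1 := ih xs r a (false :: b) (by simp [D.enc] at h ⊢; omega)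
        have h2 : Runs (scanBody .b) (st (false :: (xs.flatMap D.enc ++ r)) a b
            (List.replicate xs.length true)) 2
            (st (xs.flatMap D.enc ++ r) a (false :: b) (List.replicate xs.length true)) := by
          refine Runs.popF (k := R.m) (t := 1) (l := xs.flatMap D.enc ++ r) rfl ?_
          have := Runs.push R.b false (st (xs.flatMap D.enc ++ r) a b
            (List.replicate xs.length true))
          simpa using this
        have h3 := Runs.loopT (k := R.c) (pF := scanBody .b)
          (S := st (((D.nil :: xs).flatMap D.enc) ++ r) a b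
            (List.replicate (D.nil :: xs).length true))
          (l := List.replicate xs.length true) rfl (by simpa [D.enc] using h2) h1
        refine Runs.mono (t := 2 + (5 * n + 1) + 1) ?_ (by omega)
        simpa [D.enc] using h3
      | node y z =>
        have h1 := ih (y :: z :: xs) r a (true :: b) (by simp [D.enc] at h ⊢; omega)
        have h2 : Runs (scanBody .b) (st (true :: (((y :: z :: xs).flatMap D.enc) ++ r)) a b
            (List.replicate xs.length true)) 4
            (st (((y :: z :: xs).flatMap D.enc) ++ r) a (true :: b)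
              (List.replicate (y :: z :: xs).length true)) := by
          refine Runs.popT (k := R.m) (t := 3) (l := ((y :: z :: xs).flatMap D.enc) ++ r) rfl ?_
          have := (Runs.push R.b true (st (((y :: z :: xs).flatMap D.enc) ++ r) a b
            (List.replicate xs.length true))).seq
            ((Runs.push R.c true _).seq (Runs.push R.c true _))
          simpa [List.replicate_succ] using this
        have h3 := Runs.loopT (k := R.c) (pF := scanBody .b)
          (S := st (((D.node y z :: xs).flatMap D.enc) ++ r) a b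
            (List.replicate (D.node y z :: xs).length true))
          (l := List.replicate xs.length true) rfl (by simpa [D.enc] using h2) h1
        refine Runs.mono (t := 4 + (5 * n + 1) + 1) ?_ (by omega)
        simpa [D.enc] using h3

lemma moveTerm_a (x : D) (r a b : List Bool) :
    Runs (moveTerm .a) (st (x.enc ++ r) a b []) (5 * x.size + 2) (st r (x.enc.reverse ++ a) b []) := by
  have h1 := Runs.push R.c true (st (x.enc ++ r) a b [])
  have h2 := scan_a x.size [x] r a b (by simp [D.size])
  have h3 := h1.seq (t' := 5 * x.size + 1) (S'' := st r (x.enc.reverse ++ a) b [])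
    (by simpa using h2)
  exact h3.mono (by omega)

lemma moveTerm_b (x : D) (r a b : List Bool) :
    Runs (moveTerm .b) (st (x.enc ++ r) a b []) (5 * x.size + 2) (st r a (x.enc.reverse ++ b) []) := by
  have h1 := Runs.push R.c true (st (x.enc ++ r) a b [])
  have h2 := scan_b x.size [x] r a b (by simp [D.size])
  have h3 := h1.seq (t' := 5 * x.size + 1) (S'' := st r a (x.enc.reverse ++ b) [])
    (by simpa using h2)
  exact h3.mono (by omega)

lemma transfer_am (w m b c : List Bool) :
    Runs (transfer .a .m) (st m w b c) (2 * w.length + 1) (st (w.reverse ++ m) [] b c) := by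
  have := transfer_runs .a .m (by decide) w (st m w b c) rfl
  simpa using this

lemma transfer_bm (w m a c : List Bool) :
    Runs (transfer .b .m) (st m a w c) (2 * w.length + 1) (st (w.reverse ++ m) a [] c) := by
  have := transfer_runs .b .m (by decide) w (st m a w c) rfl
  simpa using this

lemma transfer_ba (w m a c : List Bool) :
    Runs (transfer .b .a) (st m a w c) (2 * w.length + 1) (st m (w.reverse ++ a) [] c) := by
  have := transfer_runs .b .a (by decide) w (st m a w c) rfl
  simpa using this

/-- drop the top term -/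
def dropP : Prog R := moveTerm .a ++ clear .a

lemma dropP_runs (x : D) (r : List Bool) :
    Runs dropP (st (x.enc ++ r) [] [] []) (7 * x.size + 3) (st r [] [] []) := by
  have h1 := moveTerm_a x r [] []
  have h2 := clear_a (x.enc.reverse ++ []) r [] []
  refine (h1.seq h2).mono ?_
  simp [D.size]
  omega

/-- duplicate the top term -/
def dupP : Prog R := moveTerm .a ++ (transfer2 .a .m .b ++ (transfer .b .a ++ transfer .a .m))

lemma dupP_runs (x : D) (r : List Bool) :
    Runs dupP (st (x.enc ++ r) [] [] []) (12 * x.size + 5) (st (x.enc ++ (x.enc ++ r)) [] [] []) := by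
  have h1 := moveTerm_a x r [] []
  have h2 := transfer2_ab (x.enc.reverse ++ []) r [] []
  have h3 := transfer_ba (x.enc) (x.enc ++ r) [] []
  have h4 := transfer_am (x.enc.reverse) (x.enc ++ r) [] []
  have h5 := h1.seq (h2.seq ((by simpa using h3 : Runs (transfer .b .a)
      (st ((x.enc.reverse ++ []).reverse ++ r) [] ((x.enc.reverse ++ []).reverse ++ []) []) _
      (st (x.enc ++ r) x.enc.reverse [] [])).seq h4))
  refine Runs.mono (t := _) (by simpa [dupP] using h5) ?_
  simp [D.size]
  omega

/-- swap the two top terms -/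
def swapP : Prog R := moveTerm .a ++ (moveTerm .b ++ (transfer .a .m ++ transfer .b .m))

lemma swapP_runs (x y : D) (r : List Bool) :
    Runs swapP (st (x.enc ++ (y.enc ++ r)) [] [] []) (7 * x.size + 7 * y.size + 6)
      (st (y.enc ++ (x.enc ++ r)) [] [] []) := by
  have h1 := moveTerm_a x (y.enc ++ r) [] []
  have h2 := moveTerm_b y r (x.enc.reverse ++ []) []
  have h3 := transfer_am (x.enc.reverse ++ []) r (y.enc.reverse ++ []) []
  have h4 := transfer_bm (y.enc.reverse ++ []) ((x.enc.reverse ++ []).reverse ++ r) [] []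
  have h5 := h1.seq (h2.seq (h3.seq h4))
  refine Runs.mono (t := _) (by simpa [swapP] using h5) ?_
  simp [D.size]
  omega

/-- push a word so that it is read in order from the top -/
def pushWord : List Bool → Prog R
  | [] => .skip
  | b :: w => pushWord w ++ .push .m b

lemma pushWord_runs (w r : List Bool) :
    Runs (pushWord w) (st r [] [] []) (w.length + 1) (st (w ++ r) [] [] []) := by
  induction w with
  | nil => exact Runs.skip _
  | cons b w ih =>
    have := ih.seq (Runs.push R.m b _)
    refine Runs.mono (t := _) (by simpa [pushWord] using this) ?_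
    simp

end basics

end Pool.Agent.Lib.helper60

end

section -- file Lib/helper60/PT

/-!
Polynomial-time functions between types encoded as binary trees, and closure properties.
-/

set_option autoImplicit false

namespace Pool.Agent.Lib.helper60

open Function

/-- encodings of data as binary trees -/
class DEnc (α : Type) where
  toD : α → D

export DEnc (toD)

section

variable {α β γ δ ι : Type} [DEnc α] [DEnc β] [DEnc γ] [DEnc δ] [DEnc ι]

/-- size of the code -/
def tsize (a : α) : ℕ := (toD a).size

lemma tsize_pos (a : α) : 0 < tsize a := D.size_pos _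

lemma evalMono (P : Polynomial ℕ) : Monotone (fun n => P.eval n) := by
  intro m n hmn
  induction P using Polynomial.induction_on' with
  | add p q hp hq => simp only [Polynomial.eval_add]; exact add_le_add hp hq
  | monomial k c =>
    simp only [Polynomial.eval_monomial]
    exact Nat.mul_le_mul_left _ (Nat.pow_le_pow_left hmn k)

/-- polynomially bounded in the size of the argument -/
def PB (t : α → ℕ) : Prop := ∃ P : Polynomial ℕ, ∀ a, t a ≤ P.eval (tsize a)

lemma PB.of_le {t t' : α → ℕ} (h : PB t') (hle : ∀ a, t a ≤ t' a) : PB t := by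
  obtain ⟨P, hP⟩ := h
  exact ⟨P, fun a => (hle a).trans (hP a)⟩

lemma PB.const (n : ℕ) : PB (fun _ : α => n) := ⟨Polynomial.C n, fun a => by simp⟩

lemma PB.tsize : PB (fun a : α => tsize a) := ⟨Polynomial.X, fun a => by simp⟩

lemma PB.add {t t' : α → ℕ} (h : PB t) (h' : PB t') : PB (fun a => t a + t' a) := by
  obtain ⟨P, hP⟩ := h
  obtain ⟨Q, hQ⟩ := h'
  exact ⟨P + Q, fun a => by simpa using add_le_add (hP a) (hQ a)⟩

lemma PB.mul {t t' : α → ℕ} (h : PB t) (h' : PB t') : PB (fun a => t a * t' a) := by
  obtain ⟨P, hP⟩ := h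
  obtain ⟨Q, hQ⟩ := h'
  exact ⟨P * Q, fun a => by simpa using Nat.mul_le_mul (hP a) (hQ a)⟩

/-- substitution: if the size of `f a` is bounded, bounds on `t` transfer -/
lemma PB.comp {t : β → ℕ} {f : α → β} (h : PB t) (hf : PB (fun a => Lib.helper60.tsize (f a))) :
    PB (fun a => t (f a)) := by
  obtain ⟨P, hP⟩ := h
  obtain ⟨Q, hQ⟩ := hf
  exact ⟨P.comp Q, fun a => by
    rw [Polynomial.eval_comp]
    exact (hP (f a)).trans (evalMono P (hQ a))⟩

/-- `f` is computed by a stack program in polynomial time: the program replaces the code of `a` on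
top of the main stack by the code of `f a`. -/
def PT (f : α → β) : Prop :=
  ∃ (p : Prog R) (t : α → ℕ), PB t ∧ ∀ (a : α) (r : List Bool),
    Runs p (st ((toD a).enc ++ r) [] [] []) (t a) (st ((toD (f a)).enc ++ r) [] [] [])

lemma PT.size {f : α → β} (hf : PT f) : PB (fun a => Lib.helper60.tsize (f a)) := by
  obtain ⟨p, t, ht, h⟩ := hf
  refine (PB.tsize.add ht).of_le fun a => ?_
  have := (h a []).total_le
  simpa [total_st, Lib.helper60.tsize, D.size] using this

lemma PT.congr {f g : α → β} (hf : PT f) (h : ∀ a, f a = g a) : PT g := by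
  have : f = g := funext h
  rwa [← this]

/-- functions that do not change the code -/
lemma PT.recode {f : α → β} (h : ∀ a, toD (f a) = toD a) : PT f :=
  ⟨.skip, fun _ => 1, PB.const 1, fun a r => by rw [h]; exact Runs.skip _⟩

lemma PT.id : PT (fun a : α => a) := PT.recode fun _ => rfl

lemma PT.comp {g : β → γ} {f : α → β} (hg : PT g) (hf : PT f) : PT (fun a => g (f a)) := by
  have hs := hf.size
  obtain ⟨p, t, ht, h⟩ := hf
  obtain ⟨q, u, hu, h'⟩ := hg
  exact ⟨p ++ q, fun a => t a + u (f a), ht.add (hu.comp hs), fun a r => (h a r).seq (h' (f a) r)⟩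

lemma PT.const (b : β) : PT (fun _ : α => b) := by
  refine ⟨dropP ++ pushWord (toD b).enc, fun a => (7 * Lib.helper60.tsize a + 3) +
    ((toD b).enc.length + 1), ((((PB.const 7).mul PB.tsize).add (PB.const 3)).add (PB.const _)),
    fun a r => ?_⟩
  exact (dropP_runs (toD a) r).seq (pushWord_runs _ r)

instance : DEnc D := ⟨fun x => x⟩

/-- pairs -/
instance : DEnc (α × β) := ⟨fun x => D.node (toD x.1) (toD x.2)⟩

@[simp] lemma toD_pair (a : α) (b : β) : toD (a, b) = D.node (toD a) (toD b) := rfl

@[simp] lemma tsize_pair (a : α) (b : β) : tsize (a, b) = tsize a + tsize b + 1 := by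
  simp [tsize]

/-- general combination of two results -/
lemma PT.combine {f : α → β} {g : α → γ} {k : α → δ} (hf : PT f) (hg : PT g)
    (h : ∀ a, toD (k a) = D.node (toD (f a)) (toD (g a))) : PT k := by
  have hsf := hf.size
  have hsg := hg.size
  obtain ⟨p, t, ht, hp⟩ := hf
  obtain ⟨q, u, hu, hq⟩ := hg
  refine ⟨dupP ++ (p ++ (swapP ++ (q ++ (swapP ++ .push .m true)))),
    fun a => (12 * Lib.helper60.tsize a + 5) + (t a +
      ((7 * Lib.helper60.tsize (f a) + 7 * Lib.helper60.tsize a + 6) + (u a +
        ((7 * Lib.helper60.tsize (g a) + 7 * Lib.helper60.tsize (f a) + 6) + 1)))), ?_, ?_⟩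
  · exact (((PB.const 12).mul PB.tsize).add (PB.const 5)).add (ht.add
      (((((PB.const 7).mul hsf).add ((PB.const 7).mul PB.tsize)).add (PB.const 6)).add (hu.add
        (((((PB.const 7).mul hsg).add ((PB.const 7).mul hsf)).add (PB.const 6)).add (PB.const 1)))))
  · intro a r
    have h1 := dupP_runs (toD a) r
    have h2 := hp a ((toD a).enc ++ r)
    have h3 := swapP_runs (toD (f a)) (toD a) r
    have h4 := hq a ((toD (f a)).enc ++ r)
    have h5 := swapP_runs (toD (g a)) (toD (f a)) r
    have h6 := Runs.push R.m true (st ((toD (f a)).enc ++ ((toD (g a)).enc ++ r)) [] [] [])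
    have h7 := h1.seq (h2.seq (h3.seq (h4.seq (h5.seq h6))))
    rw [h a]
    simpa [D.enc, Lib.helper60.tsize] using h7

lemma PT.pair {f : α → β} {g : α → γ} (hf : PT f) (hg : PT g) : PT (fun a => (f a, g a)) :=
  PT.combine hf hg fun _ => rfl

/-- first component of a node -/
lemma PT.hdD : PT (fun x : D => match x with | .nil => D.nil | .node a _ => a) := by
  refine ⟨.popCase .m .skip (.push .m false) (swapP ++ dropP),
    fun x => (7 * Lib.helper60.tsize x + 7 * Lib.helper60.tsize x + 6) +
      (7 * Lib.helper60.tsize x + 3) + 1,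
    ((((((PB.const 7).mul PB.tsize).add ((PB.const 7).mul PB.tsize)).add (PB.const 6)).add
      (((PB.const 7).mul PB.tsize).add (PB.const 3))).add (PB.const 1)), ?_⟩
  intro x r
  cases x with
  | nil =>
    refine Runs.popF (k := R.m) (l := r) rfl ?_
    have := Runs.push R.m false (st r [] [] [])
    exact (by simpa [D.enc, toD] using this : Runs (.push R.m false) _ 1 _).mono (by omega)
  | node a b =>
    refine Runs.popT (k := R.m) (l := a.enc ++ (b.enc ++ r)) (by simp [D.enc, toD]) ?_
    have h1 := (swapP_runs a b r).seq (dropP_runs b (a.enc ++ r))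
    refine Runs.mono (t := _) (by simpa [D.enc, toD] using h1) ?_
    simp [Lib.helper60.tsize, toD]
    omega

/-- second component of a node -/
lemma PT.tlD : PT (fun x : D => match x with | .nil => D.nil | .node _ b => b) := by
  refine ⟨.popCase .m .skip (.push .m false) dropP,
    fun x => (7 * Lib.helper60.tsize x + 3) + 1,
    (((PB.const 7).mul PB.tsize).add (PB.const 3)).add (PB.const 1), ?_⟩
  intro x r
  cases x with
  | nil =>
    refine Runs.popF (k := R.m) (l := r) rfl ?_
    have := Runs.push R.m false (st r [] [] [])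
    exact (by simpa [D.enc, toD] using this : Runs (.push R.m false) _ 1 _).mono (by omega)
  | node a b =>
    refine Runs.popT (k := R.m) (l := a.enc ++ (b.enc ++ r)) (by simp [D.enc, toD]) ?_
    have h1 := dropP_runs a (b.enc ++ r)
    refine Runs.mono (t := _) (by simpa [D.enc, toD] using h1) ?_
    simp [Lib.helper60.tsize, toD]
    omega

lemma PT.fst : PT (fun x : α × β => x.1) := by
  have h := PT.hdD.comp (PT.recode (f := fun x : α × β => toD x) (fun _ => rfl))
  obtain ⟨p, t, ht, hp⟩ := h
  exact ⟨p, t, ht, fun a r => hp a r⟩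

lemma PT.snd : PT (fun x : α × β => x.2) := by
  have h := PT.tlD.comp (PT.recode (f := fun x : α × β => toD x) (fun _ => rfl))
  obtain ⟨p, t, ht, hp⟩ := h
  exact ⟨p, t, ht, fun a r => hp a r⟩

/-- booleans -/
instance : DEnc Bool := ⟨fun b => bif b then D.node .nil .nil else .nil⟩

@[simp] lemma toD_true : toD true = D.node .nil .nil := rfl
@[simp] lemma toD_false : toD false = D.nil := rfl

instance : DEnc Unit := ⟨fun _ => .nil⟩

@[simp] lemma toD_unit (u : Unit) : toD u = D.nil := rfl

lemma tsize_bool_le (b : Bool) : tsize b ≤ 3 := by cases b <;> simp [tsize]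

/-- branching on a tree -/
lemma PT.casesD {c : α → D} {f : α → γ} {g : α × D × D → γ} (hc : PT c) (hf : PT f) (hg : PT g) :
    PT (fun a => match c a with | .nil => f a | .node x y => g (a, x, y)) := by
  have hsc := hc.size
  obtain ⟨p, t, ht, hp⟩ := hc
  obtain ⟨q, u, hu, hq⟩ := hf
  obtain ⟨w, v, hv, hw⟩ := hg
  have hv' : ∃ v' : α → ℕ, PB v' ∧ ∀ a x y, c a = .node x y → v (a, x, y) ≤ v' a := by
    obtain ⟨P, hP⟩ := hv
    refine ⟨fun a => P.eval (Lib.helper60.tsize a + Lib.helper60.tsize (c a) + 1), ?_, ?_⟩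
    · obtain ⟨Q, hQ⟩ := (PB.tsize.add hsc).add (PB.const 1)
      exact ⟨P.comp Q, fun a => by rw [Polynomial.eval_comp]; exact evalMono P (hQ a)⟩
    · intro a x y hxy
      refine (hP _).trans (evalMono P ?_)
      rw [hxy]
      simp [Lib.helper60.tsize, toD]
  obtain ⟨v', hv'1, hv'2⟩ := hv'
  refine ⟨dupP ++ (p ++ .popCase .m .skip q (.push .m true ++ (swapP ++ (.push .m true ++ w)))),
    fun a => (12 * Lib.helper60.tsize a + 5) + (t a +
      ((u a + (1 + ((7 * Lib.helper60.tsize (c a) + 7 * Lib.helper60.tsize a + 6) +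
        (1 + v' a)))) + 1)), ?_, ?_⟩
  · exact (((PB.const 12).mul PB.tsize).add (PB.const 5)).add (ht.add
      ((hu.add ((PB.const 1).add (((((PB.const 7).mul hsc).add ((PB.const 7).mul PB.tsize)).add
        (PB.const 6)).add ((PB.const 1).add hv'1)))).add (PB.const 1)))
  · intro a r
    refine (dupP_runs (toD a) r).seq ((hp a ((toD a).enc ++ r)).seq ?_)
    beta_reduce
    cases hca : c a with
    | nil =>
      have h1 := hq a r
      refine Runs.mono (Runs.popF (k := R.m) (t := u a) (l := (toD a).enc ++ r) rfl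
        (by simpa using h1)) (by omega)
    | node x y =>
      have h1 := Runs.push R.m true (st (x.enc ++ (y.enc ++ ((toD a).enc ++ r))) [] [] [])
      have h2 := swapP_runs (.node x y) (toD a) r
      have h3 := Runs.push R.m true (st ((toD a).enc ++ ((D.node x y).enc ++ r)) [] [] [])
      have h4 := hw (a, x, y) r
      have h5 := h1.seq (t' := _) (S'' := _) ((by simpa [D.enc] using h2 :
        Runs swapP (update (st (x.enc ++ (y.enc ++ ((toD a).enc ++ r))) [] [] []) R.m
          (true :: (st (x.enc ++ (y.enc ++ ((toD a).enc ++ r))) [] [] []) R.m)) _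
          (st ((toD a).enc ++ ((D.node x y).enc ++ r)) [] [] [])).seq
        (h3.seq (t' := v (a, x, y)) (S'' := st ((toD (g (a, x, y))).enc ++ r) [] [] [])
          (by simpa [D.enc, toD] using h4)))
      refine Runs.mono (Runs.popT (k := R.m) (t := _) (l := x.enc ++ (y.enc ++ ((toD a).enc ++ r)))
        (by simp [toD, D.enc]) (by simpa using h5)) ?_
      have h6 := hv'2 a x y hca
      have h7 : Lib.helper60.tsize (D.node x y) = (D.node x y).size := rfl
      simp only [h7, D.size_node]
      have h8 : Lib.helper60.tsize a = (toD a).size := rfl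
      simp only [h8]
      omega

lemma PT.code : PT (fun a : α => DEnc.toD a) := PT.recode fun _ => rfl

/-- conditional -/
lemma PT.cond {c : α → Bool} {f g : α → γ} (hc : PT c) (hf : PT f) (hg : PT g) :
    PT (fun a => bif c a then f a else g a) := by
  have h := PT.casesD (g := fun x : α × D × D => f x.1) (PT.code.comp hc) hg (hf.comp PT.fst)
  refine h.congr fun a => ?_
  cases hca : c a <;> simp

lemma PT.ite {c : α → Prop} [DecidablePred c] {f g : α → γ} (hc : PT (fun a => decide (c a)))
    (hf : PT f) (hg : PT g) : PT (fun a => if c a then f a else g a) := by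
  refine (PT.cond hc hf hg).congr fun a => ?_
  by_cases h : c a <;> simp [h]

/-! ### lists -/

/-- trees of lists -/
def listToD : List α → D
  | [] => .nil
  | x :: xs => .node (toD x) (listToD xs)

instance : DEnc (List α) := ⟨listToD⟩

@[simp] lemma toD_nil : toD ([] : List α) = D.nil := rfl
@[simp] lemma toD_cons (x : α) (xs : List α) : toD (x :: xs) = D.node (toD x) (toD xs) := rfl

@[simp] lemma tsize_nil : tsize ([] : List α) = 1 := rfl
@[simp] lemma tsize_cons (x : α) (xs : List α) : tsize (x :: xs) = tsize x + tsize xs + 1 := by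
  simp [tsize]

lemma PT.cons {f : α → β} {g : α → List β} (hf : PT f) (hg : PT g) : PT (fun a => f a :: g a) :=
  PT.combine hf hg fun _ => rfl

/-- naturals in unary -/
def natToD : ℕ → D
  | 0 => .nil
  | n + 1 => .node .nil (natToD n)

instance : DEnc ℕ := ⟨natToD⟩

@[simp] lemma toD_zero : toD (0 : ℕ) = D.nil := rfl
@[simp] lemma toD_succ (n : ℕ) : toD (n + 1) = D.node .nil (toD n) := rfl

@[simp] lemma tsize_nat (n : ℕ) : tsize n = 2 * n + 1 := by
  induction n with
  | zero => rfl
  | succ n ih =>
    have : tsize (n + 1) = tsize n + 2 := by simp [tsize]; omega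
    rw [this, ih]; ring

lemma PT.succ : PT (fun n : ℕ => n + 1) := by
  refine PT.combine (f := fun _ : ℕ => D.nil) (g := fun n : ℕ => n) (PT.const _) PT.id fun n => ?_
  rfl

end

/-! ### decoding relations for the recursor-like operations -/

section decode

variable {α β γ δ ι : Type} [DEnc α] [DEnc β] [DEnc γ] [DEnc δ] [DEnc ι]

/-- case distinction on a list -/
lemma PT.listCases {l : α → List β} {f : α → γ} {g : α × β × List β → γ} (hl : PT l) (hf : PT f)
    (hg : PT g) : PT (fun a => match l a with | [] => f a | x :: xs => g (a, x, xs)) := by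
  have hsc := hl.size
  obtain ⟨p, t, ht, hp⟩ := hl
  obtain ⟨q, u, hu, hq⟩ := hf
  obtain ⟨w, v, hv, hw⟩ := hg
  have hv' : ∃ v' : α → ℕ, PB v' ∧ ∀ a x y, l a = x :: y → v (a, x, y) ≤ v' a := by
    obtain ⟨P, hP⟩ := hv
    refine ⟨fun a => P.eval (tsize a + tsize (l a) + 1), ?_, ?_⟩
    · obtain ⟨Q, hQ⟩ := (PB.tsize.add hsc).add (PB.const 1)
      exact ⟨P.comp Q, fun a => by rw [Polynomial.eval_comp]; exact evalMono P (hQ a)⟩
    · intro a x y hxy
      refine (hP _).trans (evalMono P ?_)
      rw [hxy]
      simp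
  obtain ⟨v', hv'1, hv'2⟩ := hv'
  refine ⟨dupP ++ (p ++ .popCase .m .skip q (.push .m true ++ (swapP ++ (.push .m true ++ w)))),
    fun a => (12 * tsize a + 5) + (t a +
      ((u a + (1 + ((7 * tsize (l a) + 7 * tsize a + 6) + (1 + v' a)))) + 1)), ?_, ?_⟩
  · exact (((PB.const 12).mul PB.tsize).add (PB.const 5)).add (ht.add
      ((hu.add ((PB.const 1).add (((((PB.const 7).mul hsc).add ((PB.const 7).mul PB.tsize)).add
        (PB.const 6)).add ((PB.const 1).add hv'1)))).add (PB.const 1)))
  · intro a r
    refine (dupP_runs (toD a) r).seq ((hp a ((toD a).enc ++ r)).seq ?_)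
    beta_reduce
    cases hca : l a with
    | nil =>
      have h1 := hq a r
      refine Runs.mono (Runs.popF (k := R.m) (t := u a) (l := (toD a).enc ++ r) rfl
        (by simpa using h1)) (by omega)
    | cons x y =>
      have h1 := Runs.push R.m true
        (st ((toD x).enc ++ ((toD y).enc ++ ((toD a).enc ++ r))) [] [] [])
      have h2 := swapP_runs (.node (toD x) (toD y)) (toD a) r
      have h3 := Runs.push R.m true
        (st ((toD a).enc ++ ((D.node (toD x) (toD y)).enc ++ r)) [] [] [])
      have h4 := hw (a, x, y) r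
      have h5 := h1.seq (t' := _) (S'' := _) ((by simpa [D.enc] using h2 :
        Runs swapP (update (st ((toD x).enc ++ ((toD y).enc ++ ((toD a).enc ++ r))) [] [] []) R.m
          (true :: (st ((toD x).enc ++ ((toD y).enc ++ ((toD a).enc ++ r))) [] [] []) R.m)) _
          (st ((toD a).enc ++ ((D.node (toD x) (toD y)).enc ++ r)) [] [] [])).seq
        (h3.seq (t' := v (a, x, y)) (S'' := st ((toD (g (a, x, y))).enc ++ r) [] [] [])
          (by simpa [D.enc] using h4)))
      refine Runs.mono (Runs.popT (k := R.m) (t := _)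
        (l := (toD x).enc ++ ((toD y).enc ++ ((toD a).enc ++ r)))
        (by simp [D.enc]) (by simpa using h5)) ?_
      have h6 := hv'2 a x y hca
      have h7 : tsize (x :: y) = (D.node (toD x) (toD y)).size := rfl
      simp only [h7, D.size_node]
      have h8 : tsize a = (toD a).size := rfl
      simp only [h8]
      omega

/-- case distinction on a natural number -/
lemma PT.natCases {l : α → ℕ} {f : α → γ} {g : α × ℕ → γ} (hl : PT l) (hf : PT f)
    (hg : PT g) : PT (fun a => match l a with | 0 => f a | n + 1 => g (a, n)) := by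
  have hl' : PT (fun a => List.replicate (l a) ()) := by
    obtain ⟨p, t, ht, hp⟩ := hl
    refine ⟨p, t, ht, fun a r => ?_⟩
    have : ∀ n : ℕ, toD (List.replicate n ()) = toD n := by
      intro n
      induction n with
      | zero => rfl
      | succ n ih => rw [List.replicate_succ, toD_cons, ih]; rfl
    rw [this]
    exact hp a r
  -- recode lists of units as naturals
  have hlen : PT (fun l : List Unit => l.length) := by
    refine PT.recode fun l => ?_
    induction l with
    | nil => rfl
    | cons x xs ih => rw [toD_cons, ← ih]; rfl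
  have hg' : PT (fun x : α × Unit × List Unit => g (x.1, x.2.2.length)) :=
    hg.comp (PT.pair PT.fst (hlen.comp (PT.snd.comp PT.snd)))
  refine (PT.listCases hl' hf hg').congr fun a => ?_
  cases h : l a with
  | zero => simp
  | succ n => simp [List.replicate_succ]

end decode

/-! ### iteration -/

/-- length of the right spine -/
def D.spine : D → ℕ
  | .nil => 0
  | .node _ b => b.spine + 1

section iterate

variable {α β γ δ ι σ : Type} [DEnc α] [DEnc β] [DEnc γ] [DEnc δ] [DEnc ι] [DEnc σ]

@[simp] lemma spine_list (l : List α) : (toD l).spine = l.length := by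
  induction l with
  | nil => rfl
  | cons x xs ih => simp [D.spine, ih]

@[simp] lemma spine_nat (n : ℕ) : (toD n).spine = n := by
  induction n with
  | zero => rfl
  | succ n ih => simp [D.spine, ih]

/-- body of the iteration loop -/
def iterBody (p : Prog R) : Prog R :=
  .popCase .m .skip .skip
    (.popCase .m .skip .skip
      (dropP ++ (swapP ++ (p ++ (swapP ++ (.push .m true ++ .push .b true))))))

/-- the iteration program -/
def iterP (p : Prog R) : Prog R :=
  .push .b true ++ .loop .b (iterBody p) (iterBody p)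

lemma iter_loop {step : σ → σ} {p : Prog R} {t : σ → ℕ}
    (hp : ∀ (a : σ) (r : List Bool),
      Runs p (st ((toD a).enc ++ r) [] [] []) (t a) (st ((toD (step a)).enc ++ r) [] [] []))
    (T : ℕ) (r : List Bool) : ∀ (n : D) (s : σ),
      (∀ i < n.spine, t (step^[i] s) + 21 * n.size + 7 * tsize (step^[i] s) +
        7 * tsize (step^[i+1] s) + 20 ≤ T) →
      Runs (.loop .b (iterBody p) (iterBody p)) (st (true :: (n.enc ++ ((toD s).enc ++ r))) [] [true] [])
        (n.spine * (T + 1) + 5) (st ((toD (step^[n.spine] s)).enc ++ r) [] [] [])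
  | .nil, s, _ => by
    have h1 : Runs (.popCase .m .skip .skip
      (dropP ++ (swapP ++ (p ++ (swapP ++ (.push .m true ++ .push .b true))))))
        (st (false :: ((toD s).enc ++ r)) [] [] []) 2 (st ((toD s).enc ++ r) [] [] []) :=
      Runs.popF (k := R.m) (l := (toD s).enc ++ r) rfl (by simpa using Runs.skip _)
    have h2 : Runs (iterBody p) (st (true :: ((D.nil).enc ++ ((toD s).enc ++ r))) [] [] []) 3
        (st ((toD s).enc ++ r) [] [] []) :=
      Runs.popT (k := R.m) (l := (D.nil).enc ++ ((toD s).enc ++ r)) rfl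
        (by simpa [D.enc] using h1)
    have h3 := Runs.loopT (k := R.b) (pF := iterBody p) (pT := iterBody p) (l := [])
      (S := st (true :: ((D.nil).enc ++ ((toD s).enc ++ r))) [] [true] []) rfl
      (by simpa using h2) (Runs.loopN rfl)
    exact h3.mono (by simp [D.spine])
  | .node x n, s, hT => by
    have h0 := hT 0 (by simp [D.spine])
    simp only [iterate_zero, id_eq, zero_add, iterate_one] at h0
    have h1 := dropP_runs x (n.enc ++ ((toD s).enc ++ r))
    have h2 := swapP_runs n (toD s) r
    have h3 := hp s (n.enc ++ r)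
    have h4 := swapP_runs (toD (step s)) n r
    have h5 := Runs.push R.m true (st (n.enc ++ ((toD (step s)).enc ++ r)) [] [] [])
    have h6 := Runs.push R.b true (st (true :: (n.enc ++ ((toD (step s)).enc ++ r))) [] [] [])
    have h7 := h1.seq (h2.seq (h3.seq (h4.seq (h5.seq (t' := 1)
      (S'' := st (true :: (n.enc ++ ((toD (step s)).enc ++ r))) [] [true] [])
      (by simpa using h6)))))
    have h8 := Runs.popT (k := R.m) (pN := .skip) (pF := .skip)
      (S := st (true :: (x.enc ++ (n.enc ++ ((toD s).enc ++ r)))) [] [] [])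
      (l := x.enc ++ (n.enc ++ ((toD s).enc ++ r))) rfl (by simpa using h7)
    have h9 := Runs.popT (k := R.m) (pN := .skip) (pF := .skip)
      (S := st (true :: ((D.node x n).enc ++ ((toD s).enc ++ r))) [] [] [])
      (l := true :: (x.enc ++ (n.enc ++ ((toD s).enc ++ r)))) (by simp [D.enc])
      (by simpa using h8)
    have ih := iter_loop hp T r n (step s) (by
      intro i hi
      have := hT (i + 1) (by simp only [D.spine]; omega)
      simp only [iterate_succ_apply] at this ⊢
      simp only [D.size_node] at this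
      omega)
    have h10 := Runs.loopT (k := R.b) (pF := iterBody p) (pT := iterBody p) (l := [])
      (S := st (true :: ((D.node x n).enc ++ ((toD s).enc ++ r))) [] [true] []) rfl
      (by simpa [iterBody] using h9) (by simpa using ih)
    refine Runs.mono (by simpa [D.spine, iterate_succ_apply] using h10) ?_
    simp only [D.size_node] at h0
    simp only [D.spine, tsize] at h0 ⊢
    have e : (n.spine + 1) * (T + 1) = n.spine * (T + 1) + T + 1 := by ring
    rw [e]
    omega

/-- **Bounded iteration.** -/
theorem PT.iterateD {count : ι → D} {init : ι → σ} {step : σ → σ} (hc : PT count) (hi : PT init)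
    (hs : PT step) (hb : ∃ t : ι → ℕ, PB t ∧
      ∀ x i, i ≤ (count x).spine → tsize (step^[i] (init x)) ≤ t x) :
    PT (fun x => step^[(count x).spine] (init x)) := by
  obtain ⟨p, u, hu, hp⟩ := hs
  obtain ⟨q, v, hv, hq⟩ := hc.pair hi
  obtain ⟨bnd, hbnd, hbd⟩ := hb
  obtain ⟨P, hP⟩ := hu
  have hcs := hc.size
  have hsp : ∀ n : D, n.spine ≤ n.size := by
    intro n
    induction n with
    | nil => simp [D.spine]
    | node a b _ ih => simp [D.spine]; omega
  let T : ι → ℕ := fun x => P.eval (bnd x) + 21 * tsize (count x) + 7 * bnd x + 7 * bnd x + 20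
  have hT : PB T := by
    have h1 : PB (fun x => P.eval (bnd x)) := by
      obtain ⟨Q, hQ⟩ := hbnd
      exact ⟨P.comp Q, fun a => by rw [Polynomial.eval_comp]; exact evalMono P (hQ a)⟩
    exact (((h1.add ((PB.const 21).mul hcs)).add ((PB.const 7).mul hbnd)).add
      ((PB.const 7).mul hbnd)).add (PB.const 20)
  refine ⟨q ++ iterP p, fun x => v x + (1 + (tsize (count x) * (T x + 1) + 5)),
    hv.add ((PB.const 1).add ((hcs.mul (hT.add (PB.const 1))).add (PB.const 5))), ?_⟩
  intro x r
  have h1 := hq x r
  have h2 := Runs.push R.b true (st (true :: ((count x).enc ++ ((toD (init x)).enc ++ r))) [] [] [])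
  have h3 := iter_loop hp (T x) r (count x) (init x) (by
    intro i hi
    have h4 := hbd x i hi.le
    have h5 := hbd x (i + 1) hi
    have h6 := (hP (step^[i] (init x))).trans (evalMono P h4)
    have h7 : tsize (count x) = (count x).size := rfl
    simp only [T, h7]
    simp only at h6
    omega)
  have h4 := h2.seq (t' := _) (S'' := _) (by simpa using h3)
  have h5 := h1.seq (t' := _) (S'' := _) (by simpa [D.enc, toD, iterP] using h4 :
    Runs (iterP p) (st ((toD ((count x), (init x))).enc ++ r) [] [] []) _ _)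
  refine h5.mono ?_
  have h8 : (count x).spine * (T x + 1) ≤ tsize (count x) * (T x + 1) :=
    Nat.mul_le_mul_right _ (hsp _)
  beta_reduce
  omega

lemma PT.iterateNat {count : ι → ℕ} {init : ι → σ} {step : σ → σ} (hc : PT count) (hi : PT init)
    (hs : PT step) (hb : ∃ t : ι → ℕ, PB t ∧
      ∀ x i, i ≤ count x → tsize (step^[i] (init x)) ≤ t x) :
    PT (fun x => step^[count x] (init x)) := by
  have := PT.iterateD (count := fun x => toD (count x)) (PT.code.comp hc) hi hs
    (by simpa using hb)
  simpa using this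

lemma PT.iterateList {count : ι → List β} {init : ι → σ} {step : σ → σ} (hc : PT count)
    (hi : PT init) (hs : PT step) (hb : ∃ t : ι → ℕ, PB t ∧
      ∀ x i, i ≤ (count x).length → tsize (step^[i] (init x)) ≤ t x) :
    PT (fun x => step^[(count x).length] (init x)) := by
  have := PT.iterateD (count := fun x => toD (count x)) (PT.code.comp hc) hi hs
    (by simpa using hb)
  simpa using this

/-- **Folding over a list.** -/
theorem PT.foldl {l : ι → List β} {init : ι → σ} {g : ι × σ × β → σ} (hl : PT l) (hi : PT init)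
    (hg : PT g) (hb : ∃ t : ι → ℕ, PB t ∧
      ∀ x l₁ l₂, l₁ ++ l₂ = l x → tsize (l₁.foldl (fun s b => g (x, s, b)) (init x)) ≤ t x) :
    PT (fun x => (l x).foldl (fun s b => g (x, s, b)) (init x)) := by
  let stp : ι × List β × σ → ι × List β × σ := fun y =>
    match y.2.1 with
    | [] => y
    | b :: tl => (y.1, tl, g (y.1, y.2.2, b))
  have hstp : PT stp := by
    have h1 : PT (fun z : (ι × List β × σ) × β × List β =>
        (z.1.1, z.2.2, g (z.1.1, z.1.2.2, z.2.1))) :=
      PT.pair (PT.fst.comp PT.fst) (PT.pair (PT.snd.comp PT.snd)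
        (hg.comp (PT.pair (PT.fst.comp PT.fst) (PT.pair (PT.snd.comp (PT.snd.comp PT.fst))
          (PT.fst.comp PT.snd)))))
    exact PT.listCases (l := fun y : ι × List β × σ => y.2.1) (PT.fst.comp PT.snd) PT.id h1
  have hit : ∀ (i : ℕ) (x : ι) (l' : List β) (s : σ), i ≤ l'.length →
      stp^[i] (x, l', s) = (x, l'.drop i, (l'.take i).foldl (fun s b => g (x, s, b)) s) := by
    intro i
    induction i with
    | zero => intro x l' s _; simp
    | succ i ih =>
      intro x l' s h
      cases l' with
      | nil => simp at h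
      | cons b tl =>
        rw [iterate_succ_apply]
        have : stp (x, b :: tl, s) = (x, tl, g (x, s, b)) := rfl
        rw [this, ih x tl _ (by simpa using h)]
        simp
  have htl : ∀ (l' : List β) (i : ℕ), tsize (l'.drop i) ≤ tsize l' := by
    intro l'
    induction l' with
    | nil => intro i; simp
    | cons b tl ih =>
      intro i
      cases i with
      | zero => simp
      | succ i =>
        have := ih i
        simp only [List.drop_succ_cons, tsize_cons]
        omega
  obtain ⟨t, ht, hbd⟩ := hb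
  have h2 := PT.iterateList (count := l) (init := fun x => (x, l x, init x)) hl
    (PT.pair PT.id (PT.pair hl hi)) hstp
    ⟨fun x => tsize x + (tsize (l x) + t x + 1) + 1,
      (PB.tsize.add ((hl.size.add ht).add (PB.const 1))).add (PB.const 1), by
      intro x i hi'
      rw [hit i x (l x) (init x) hi']
      have h3 := hbd x ((l x).take i) ((l x).drop i) (List.take_append_drop i (l x))
      have h4 := htl (l x) i
      simp only [tsize_pair]
      omega⟩
  refine ((PT.snd.comp PT.snd).comp h2).congr fun x => ?_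
  simp only [hit (l x).length x (l x) (init x) le_rfl, List.take_length]

end iterate

end Pool.Agent.Lib.helper60

end

section -- file Lib/helper60/PTLib

/-!
Polynomial-time operations on booleans, naturals (unary) and lists.
-/

set_option autoImplicit false

namespace Pool.Agent.Lib.helper60

open Function

section

variable {α β γ δ ι σ : Type} [DEnc α] [DEnc β] [DEnc γ] [DEnc δ] [DEnc ι] [DEnc σ]

/-! ### booleans -/

lemma PT.bnot {f : α → Bool} (hf : PT f) : PT (fun a => !f a) :=
  (PT.cond hf (PT.const false) (PT.const true)).congr fun a => by cases f a <;> rfl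

lemma PT.band {f g : α → Bool} (hf : PT f) (hg : PT g) : PT (fun a => f a && g a) :=
  (PT.cond hf hg (PT.const false)).congr fun a => by cases f a <;> rfl

lemma PT.bor {f g : α → Bool} (hf : PT f) (hg : PT g) : PT (fun a => f a || g a) :=
  (PT.cond hf (PT.const true) hg).congr fun a => by cases f a <;> rfl

/-! ### projections -/

lemma PT.p1 {f : α → β × γ} (hf : PT f) : PT (fun a => (f a).1) := PT.fst.comp hf
lemma PT.p2 {f : α → β × γ} (hf : PT f) : PT (fun a => (f a).2) := PT.snd.comp hf

/-! ### naturals -/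

lemma PT.pred : PT (fun n : ℕ => n - 1) :=
  (PT.natCases (l := fun n : ℕ => n) (f := fun _ => 0) (g := fun x : ℕ × ℕ => x.2) PT.id
    (PT.const 0) PT.snd).congr fun n => by cases n <;> simp

lemma PT.nsucc {f : α → ℕ} (hf : PT f) : PT (fun a => f a + 1) := PT.succ.comp hf

lemma PT.npred {f : α → ℕ} (hf : PT f) : PT (fun a => f a - 1) := PT.pred.comp hf

lemma iterate_succ_nat (n m : ℕ) : (fun n : ℕ => n + 1)^[n] m = m + n := by
  induction n generalizing m with
  | zero => rfl
  | succ n ih => rw [iterate_succ_apply, ih]; ring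

lemma iterate_pred_nat (n m : ℕ) : (fun n : ℕ => n - 1)^[n] m = m - n := by
  induction n generalizing m with
  | zero => rfl
  | succ n ih => rw [iterate_succ_apply, ih]; omega

lemma PT.nadd {f g : α → ℕ} (hf : PT f) (hg : PT g) : PT (fun a => f a + g a) := by
  have h := PT.iterateNat (count := g) (init := f) hg hf PT.succ
    ⟨fun x => tsize (f x) + tsize (g x), hf.size.add hg.size, by
      intro x i hi
      rw [iterate_succ_nat]
      simp only [tsize_nat]
      omega⟩
  refine h.congr fun a => ?_
  rw [iterate_succ_nat]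

lemma PT.nsub {f g : α → ℕ} (hf : PT f) (hg : PT g) : PT (fun a => f a - g a) := by
  have h := PT.iterateNat (count := g) (init := f) hg hf PT.pred
    ⟨fun x => tsize (f x), hf.size, by
      intro x i hi
      rw [iterate_pred_nat]
      simp only [tsize_nat]
      omega⟩
  refine h.congr fun a => ?_
  rw [iterate_pred_nat]

lemma PT.nmul {f g : α → ℕ} (hf : PT f) (hg : PT g) : PT (fun a => f a * g a) := by
  have hstep : PT (fun s : ℕ × ℕ => (s.1, s.2 + s.1)) := PT.pair PT.fst (PT.nadd PT.snd PT.fst)
  have hit : ∀ (i m n : ℕ), (fun s : ℕ × ℕ => (s.1, s.2 + s.1))^[i] (m, n) = (m, n + m * i) := by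
    intro i
    induction i with
    | zero => intro m n; rfl
    | succ i ih => intro m n; rw [iterate_succ_apply, ih]; simp; ring
  have h := PT.iterateNat (count := g) (init := fun a => (f a, 0)) hg (PT.pair hf (PT.const 0))
    hstep ⟨fun x => tsize (f x) + tsize (f x) * tsize (g x) + tsize (g x) + 1,
      (((hf.size.add (hf.size.mul hg.size)).add hg.size).add (PB.const 1)), by
      intro x i hi
      rw [hit]
      simp only [tsize_nat, tsize_pair]
      have : f x * i ≤ f x * g x := Nat.mul_le_mul_left _ hi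
      nlinarith⟩
  refine (PT.snd.comp h).congr fun a => ?_
  rw [hit]
  simp

lemma PT.isZero {f : α → ℕ} (hf : PT f) : PT (fun a => decide (f a = 0)) :=
  (PT.natCases hf (f := fun _ => true) (g := fun _ : α × ℕ => false) (PT.const _)
    (PT.const _)).congr fun a => by cases f a <;> simp

lemma PT.nle {f g : α → ℕ} (hf : PT f) (hg : PT g) : PT (fun a => decide (f a ≤ g a)) :=
  (PT.isZero (PT.nsub hf hg)).congr fun a => by simp [Nat.sub_eq_zero_iff_le]

lemma PT.nlt {f g : α → ℕ} (hf : PT f) (hg : PT g) : PT (fun a => decide (f a < g a)) :=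
  (PT.nle (PT.nsucc hf) hg).congr fun a => by simp

lemma PT.neq {f g : α → ℕ} (hf : PT f) (hg : PT g) : PT (fun a => decide (f a = g a)) :=
  (PT.band (PT.nle hf hg) (PT.nle hg hf)).congr fun a => by
    rw [← Bool.decide_and]
    congr 1
    exact propext ⟨fun h => le_antisymm h.1 h.2, fun h => ⟨h.le, h.ge⟩⟩

lemma PT.beq {f g : α → Bool} (hf : PT f) (hg : PT g) : PT (fun a => decide (f a = g a)) :=
  (PT.cond hf hg (PT.bnot hg)).congr fun a => by cases f a <;> cases g a <;> simp

/-! ### sizes of lists -/

lemma tsize_append (l₁ l₂ : List α) : tsize (l₁ ++ l₂) + 1 = tsize l₁ + tsize l₂ := by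
  induction l₁ with
  | nil => simp; omega
  | cons x xs ih => simp only [List.cons_append, tsize_cons]; omega

lemma tsize_reverse (l : List α) : tsize l.reverse = tsize l := by
  induction l with
  | nil => rfl
  | cons x xs ih =>
    have := tsize_append xs.reverse [x]
    simp only [List.reverse_cons, tsize_cons, tsize_nil] at this ⊢
    omega

lemma tsize_mem_lt {x : α} {l : List α} (h : x ∈ l) : tsize x < tsize l := by
  induction l with
  | nil => simp at h
  | cons y ys ih =>
    simp only [tsize_cons]
    rcases List.mem_cons.1 h with h | h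
    · subst h
      have := tsize_pos ys
      omega
    · have := ih h
      omega

lemma length_lt_tsize (l : List α) : l.length < tsize l := by
  induction l with
  | nil => simp
  | cons b w ih => simp only [tsize_cons, List.length_cons]; omega

lemma tsize_le_of_forall {l : List α} {B : ℕ} (h : ∀ x ∈ l, tsize x ≤ B) :
    tsize l ≤ l.length * (B + 1) + 1 := by
  induction l with
  | nil => simp
  | cons x xs ih =>
    have h1 := ih (fun y hy => h y (List.mem_cons_of_mem _ hy))
    have h2 := h x List.mem_cons_self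
    simp only [tsize_cons, List.length_cons]
    have : (xs.length + 1) * (B + 1) = xs.length * (B + 1) + B + 1 := by ring
    omega

/-! ### lists -/

lemma PT.reverse {l : ι → List β} (hl : PT l) : PT (fun x => (l x).reverse) := by
  have h := PT.foldl (init := fun _ => ([] : List β)) (g := fun y : ι × List β × β => y.2.2 :: y.2.1)
    hl (PT.const []) (PT.cons (PT.snd.comp PT.snd) (PT.fst.comp PT.snd))
    ⟨fun x => tsize (l x), hl.size, by
      intro x l₁ l₂ h
      have e : l₁.foldl (fun s b => b :: s) ([] : List β) = l₁.reverse := by simp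
      simp only [e, tsize_reverse]
      have := tsize_append l₁ l₂
      rw [h] at this
      have := tsize_pos l₂
      omega⟩
  refine h.congr fun x => ?_
  simp

lemma PT.append {l₁ l₂ : ι → List β} (h₁ : PT l₁) (h₂ : PT l₂) : PT (fun x => l₁ x ++ l₂ x) := by
  have h := PT.foldl (init := l₂) (g := fun y : ι × List β × β => y.2.2 :: y.2.1)
    (PT.reverse h₁) h₂ (PT.cons (PT.snd.comp PT.snd) (PT.fst.comp PT.snd))
    ⟨fun x => tsize (l₁ x) + tsize (l₂ x), h₁.size.add h₂.size, by
      intro x l l' h
      have e : ∀ (u v : List β), u.foldl (fun s b => b :: s) v = u.reverse ++ v := by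
        intro u
        induction u with
        | nil => intro v; rfl
        | cons b u ih => intro v; simp [ih]
      rw [e]
      have h3 := tsize_append l.reverse (l₂ x)
      have h4 := tsize_append l l'
      rw [h, tsize_reverse] at h4
      rw [tsize_reverse] at h3
      have := tsize_pos l'
      beta_reduce
      omega⟩
  refine h.congr fun x => ?_
  have e : ∀ (u v : List β), u.foldl (fun s b => b :: s) v = u.reverse ++ v := by
    intro u
    induction u with
    | nil => intro v; rfl
    | cons b u ih => intro v; simp [ih]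
  rw [e]
  simp

/-- bounds for a parametrised function on the members of a list -/
lemma PB.member {l : ι → List β} (hl : PT l) {t : ι × β → ℕ} (ht : PB t) :
    ∃ T : ι → ℕ, PB T ∧ ∀ x, ∀ b ∈ l x, t (x, b) ≤ T x := by
  obtain ⟨P, hP⟩ := ht
  refine ⟨fun x => P.eval (Lib.helper60.tsize x + Lib.helper60.tsize (l x) + 1), ?_, ?_⟩
  · obtain ⟨Q, hQ⟩ := (PB.tsize.add hl.size).add (PB.const 1)
    exact ⟨P.comp Q, fun a => by rw [Polynomial.eval_comp]; exact evalMono P (hQ a)⟩
  · intro x b hb
    refine (hP _).trans (evalMono P ?_)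
    have := tsize_mem_lt hb
    simp only [tsize_pair]
    omega

lemma PT.map {l : ι → List β} {g : ι × β → γ} (hl : PT l) (hg : PT g) :
    PT (fun x => (l x).map (fun b => g (x, b))) := by
  obtain ⟨T, hT, hTb⟩ := PB.member hl hg.size
  have e : ∀ (x : ι) (u : List β) (v : List γ),
      u.foldl (fun s b => g (x, b) :: s) v = (u.map (fun b => g (x, b))).reverse ++ v := by
    intro x u
    induction u with
    | nil => intro v; rfl
    | cons b u ih => intro v; simp [ih]
  have h := PT.foldl (init := fun _ => ([] : List γ))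
    (g := fun y : ι × List γ × β => g (y.1, y.2.2) :: y.2.1)
    hl (PT.const []) (PT.cons (hg.comp (PT.pair PT.fst (PT.snd.comp PT.snd))) (PT.fst.comp PT.snd))
    ⟨fun x => tsize (l x) * (T x + 1) + 1, (hl.size.mul (hT.add (PB.const 1))).add (PB.const 1), by
      intro x l₁ l₂ h
      rw [e, List.append_nil, tsize_reverse]
      have h1 : ∀ y ∈ l₁.map (fun b => g (x, b)), tsize y ≤ T x := by
        intro y hy
        obtain ⟨b, hb, rfl⟩ := List.mem_map.1 hy
        exact hTb x b (by rw [← h]; exact List.mem_append_left _ hb)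
      have h2 := tsize_le_of_forall h1
      have h3 : l₁.length ≤ tsize (l x) := by
        have := length_lt_tsize (l x)
        rw [← h] at this ⊢
        simp at this
        omega
      rw [List.length_map] at h2
      have h4 : l₁.length * (T x + 1) ≤ tsize (l x) * (T x + 1) := Nat.mul_le_mul_right _ h3
      beta_reduce
      omega⟩
  refine (PT.reverse h).congr fun x => ?_
  rw [e]
  simp

lemma tsize_flatten_le (l : List (List β)) : tsize l.flatten ≤ tsize l := by
  induction l with
  | nil => simp
  | cons x xs ih =>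
    have := tsize_append x xs.flatten
    simp only [List.flatten_cons, tsize_cons]
    omega

lemma PT.flatten {l : ι → List (List β)} (hl : PT l) : PT (fun x => (l x).flatten) := by
  have e : ∀ (u : List (List β)) (v : List β),
      u.foldl (fun s b => b ++ s) v = u.reverse.flatten ++ v := by
    intro u
    induction u with
    | nil => intro v; rfl
    | cons b u ih => intro v; simp [ih]
  have h := PT.foldl (init := fun _ => ([] : List β))
    (g := fun y : ι × List β × List β => y.2.2 ++ y.2.1)
    (PT.reverse hl) (PT.const []) (PT.append (PT.snd.comp PT.snd) (PT.fst.comp PT.snd))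
    ⟨fun x => tsize (l x), hl.size, by
      intro x l₁ l₂ h
      rw [e, List.append_nil]
      refine (tsize_flatten_le _).trans ?_
      rw [tsize_reverse]
      have := tsize_append l₁ l₂
      rw [h, tsize_reverse] at this
      have := tsize_pos l₂
      beta_reduce
      omega⟩
  refine h.congr fun x => ?_
  rw [e]
  simp

lemma PT.flatMap {l : ι → List β} {g : ι × β → List γ} (hl : PT l) (hg : PT g) :
    PT (fun x => (l x).flatMap (fun b => g (x, b))) :=
  (PT.flatten (PT.map hl hg)).congr fun x => by rw [List.flatMap_def]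

lemma PT.filter {l : ι → List β} {p : ι × β → Bool} (hl : PT l) (hp : PT p) :
    PT (fun x => (l x).filter (fun b => p (x, b))) := by
  have h := PT.flatMap hl (g := fun y : ι × β => bif p y then [y.2] else [])
    (PT.cond hp (PT.cons PT.snd (PT.const [])) (PT.const []))
  refine h.congr fun x => ?_
  induction l x with
  | nil => rfl
  | cons b u ih =>
    rw [List.flatMap_cons, ih, List.filter_cons]
    cases p (x, b) <;> simp

lemma PT.all {l : ι → List β} {p : ι × β → Bool} (hl : PT l) (hp : PT p) :
    PT (fun x => (l x).all (fun b => p (x, b))) := by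
  have h := PT.foldl (init := fun _ => true)
    (g := fun y : ι × Bool × β => y.2.1 && p (y.1, y.2.2)) hl (PT.const true)
    (PT.band (PT.fst.comp PT.snd) (hp.comp (PT.pair PT.fst (PT.snd.comp PT.snd))))
    ⟨fun _ => 3, PB.const 3, fun x l₁ l₂ _ => tsize_bool_le _⟩
  refine h.congr fun x => ?_
  have e : ∀ (u : List β) (v : Bool),
      u.foldl (fun s b => s && p (x, b)) v = (v && u.all (fun b => p (x, b))) := by
    intro u
    induction u with
    | nil => intro v; simp
    | cons b u ih => intro v; simp [ih, Bool.and_assoc]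
  rw [e]
  simp

lemma PT.any {l : ι → List β} {p : ι × β → Bool} (hl : PT l) (hp : PT p) :
    PT (fun x => (l x).any (fun b => p (x, b))) := by
  have h := PT.bnot (PT.all hl (PT.bnot hp))
  refine h.congr fun x => ?_
  rw [List.not_all_eq_any_not]
  simp

lemma PT.length {l : ι → List β} (hl : PT l) : PT (fun x => (l x).length) := by
  have h := PT.iterateList (count := l) (init := fun _ => 0) hl (PT.const 0) PT.succ
    ⟨fun x => 2 * tsize (l x) + 1, ((PB.const 2).mul hl.size).add (PB.const 1), by
      intro x i hi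
      rw [iterate_succ_nat]
      have := length_lt_tsize (l x)
      simp only [tsize_nat]
      omega⟩
  refine h.congr fun x => ?_
  rw [iterate_succ_nat]
  simp

lemma PT.tail {l : ι → List β} (hl : PT l) : PT (fun x => (l x).tail) :=
  (PT.listCases hl (f := fun _ => []) (g := fun y : ι × β × List β => y.2.2) (PT.const [])
    (PT.snd.comp PT.snd)).congr fun x => by cases l x <;> rfl

omit [DEnc β] in
lemma iterate_tail (n : ℕ) (l : List β) : (fun l : List β => l.tail)^[n] l = l.drop n := by
  induction n generalizing l with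
  | zero => rfl
  | succ n ih =>
    rw [iterate_succ_apply, ih]
    cases l <;> simp

lemma tsize_drop_le (l : List β) (n : ℕ) : tsize (l.drop n) ≤ tsize l := by
  have h := tsize_append (l.take n) (l.drop n)
  rw [List.take_append_drop] at h
  have := tsize_pos (l.take n)
  omega

lemma PT.drop {l : ι → List β} {n : ι → ℕ} (hn : PT n) (hl : PT l) :
    PT (fun x => (l x).drop (n x)) := by
  have h := PT.iterateNat (count := n) (init := l) hn hl (PT.tail PT.id)
    ⟨fun x => tsize (l x), hl.size, by
      intro x i hi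
      rw [iterate_tail]
      exact tsize_drop_le _ _⟩
  refine h.congr fun x => ?_
  rw [iterate_tail]

lemma PT.headD {l : ι → List β} {d : ι → β} (hl : PT l) (hd : PT d) :
    PT (fun x => (l x).headD (d x)) :=
  (PT.listCases hl (f := d) (g := fun y : ι × β × List β => y.2.1) hd
    (PT.fst.comp PT.snd)).congr fun x => by cases l x <;> rfl

lemma PT.getD {l : ι → List β} {n : ι → ℕ} {d : ι → β} (hl : PT l) (hn : PT n) (hd : PT d) :
    PT (fun x => (l x).getD (n x) (d x)) := by
  refine (PT.headD (PT.drop hn hl) hd).congr fun x => ?_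
  rw [List.headD_eq_head?_getD, List.head?_drop, List.getD_eq_getElem?_getD]

/-- `List.range` -/
lemma PT.range {n : ι → ℕ} (hn : PT n) : PT (fun x => List.range (n x)) := by
  have hstep : PT (fun s : ℕ × List ℕ => (s.1 - 1, (s.1 - 1) :: s.2)) :=
    PT.pair (PT.npred PT.fst) (PT.cons (PT.npred PT.fst) PT.snd)
  have hit : ∀ (i m : ℕ) (l : List ℕ), i ≤ m →
      (fun s : ℕ × List ℕ => (s.1 - 1, (s.1 - 1) :: s.2))^[i] (m, l) =
        (m - i, (List.range' (m - i) i) ++ l) := by
    intro i
    induction i with
    | zero => intro m l _; simp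
    | succ i ih =>
      intro m l h
      rw [iterate_succ_apply, ih (m - 1) _ (by omega)]
      have e1 : m - 1 - i = m - (i + 1) := by omega
      rw [e1, List.range'_concat]
      have e2 : m - (i + 1) + 1 * i = m - 1 := by omega
      rw [e2]
      simp
  have h := PT.iterateNat (count := n) (init := fun x => (n x, ([] : List ℕ))) hn
    (PT.pair hn (PT.const [])) hstep
    ⟨fun x => tsize (n x) + (tsize (n x) * (tsize (n x) + 1) + 1) + 1,
      ((hn.size.add ((hn.size.mul (hn.size.add (PB.const 1))).add (PB.const 1))).add (PB.const 1)),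
      by
        intro x i hi
        rw [hit i (n x) [] hi]
        have h1 : ∀ y ∈ List.range' (n x - i) i, tsize y ≤ tsize (n x) := by
          intro y hy
          rw [List.mem_range'] at hy
          obtain ⟨j, hj, rfl⟩ := hy
          simp only [tsize_nat]
          omega
        have h2 := tsize_le_of_forall h1
        rw [List.length_range'] at h2
        have h3 : i * (tsize (n x) + 1) ≤ tsize (n x) * (tsize (n x) + 1) := by
          apply Nat.mul_le_mul_right
          simp only [tsize_nat]
          omega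
        have h4 : tsize (n x - i) ≤ tsize (n x) := by
          simp only [tsize_nat]
          omega
        simp only [tsize_pair, List.append_nil]
        omega⟩
  refine (PT.snd.comp h).congr fun x => ?_
  rw [hit (n x) (n x) [] le_rfl]
  simp [List.range_eq_range']

lemma PT.replicate {n : ι → ℕ} {b : ι → β} (hn : PT n) (hb : PT b) :
    PT (fun x => List.replicate (n x) (b x)) := by
  have h := PT.map (PT.range hn) (g := fun y : ι × ℕ => b y.1) (hb.comp PT.fst)
  refine h.congr fun x => ?_
  simp

end

end Pool.Agent.Lib.helper60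

end

section -- file PF4/Base

/-!
2-factors without 4-cycles in polynomial time: the data layer. Edge sets are lists of pairs of natural
numbers (in either orientation), `fs l` is the corresponding finite set of elements of `Sym2 ℕ`.
-/

set_option autoImplicit false

namespace Pool.Agent.PF4

open Finset Pool.Agent.TFC Pool.Agent.Lib.helper60

/-- edges -/
abbrev Ed := ℕ × ℕ

/-- squares `(a, b, c, d)` -/
abbrev Sq4 := ℕ × ℕ × ℕ × ℕ

/-- the unordered pair of an edge -/
def fe (e : Ed) : Sym2 ℕ := s(e.1, e.2)

/-- the edge set of a list -/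
def fs (l : List Ed) : Finset (Sym2 ℕ) := (l.map fe).toFinset

/-- no edge occurs twice (in whatever orientation) -/
def WF (l : List Ed) : Prop := (l.map fe).Nodup

/-- the same edge -/
def eqE (e f : Ed) : Bool :=
  (decide (e.1 = f.1) && decide (e.2 = f.2)) || (decide (e.1 = f.2) && decide (e.2 = f.1))

/-- membership -/
def hasE (l : List Ed) (e : Ed) : Bool := l.any fun f => eqE f e

/-- insertion -/
def insE (l : List Ed) (e : Ed) : List Ed := bif hasE l e then l else e :: l

/-- deletion -/
def ersE (l : List Ed) (e : Ed) : List Ed := l.filter fun f => !eqE f e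

/-- the edges of `U` which are in `l` -/
def norm (U l : List Ed) : List Ed := U.filter fun e => hasE l e

/-- the edges of `U` which are not in `l` -/
def rest (U l : List Ed) : List Ed := U.filter fun e => !hasE l e

/-- union -/
def uni (A B : List Ed) : List Ed := A ++ rest B A

/-- incidence -/
def inc (v : ℕ) (e : Ed) : Bool := decide (e.1 = v) || decide (e.2 = v)

/-- degree -/
def degL (l : List Ed) (v : ℕ) : ℕ := (l.filter fun e => inc v e).length

/-- the square `q` is contained in `l` -/
def sqIn (l : List Ed) (q : Sq4) : Bool :=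
  hasE l (q.1, q.2.1) && (hasE l (q.2.1, q.2.2.1) && (hasE l (q.2.2.1, q.2.2.2) && hasE l (q.2.2.2, q.1)))

/-- no square of `FS` is contained in `l` -/
def freeL (FS : List Sq4) (l : List Ed) : Bool := FS.all fun q => !sqIn l q

/-- the edge set of the square -/
def sqs (q : Sq4) : Finset (Sym2 ℕ) := sq q.1 q.2.1 q.2.2.1 q.2.2.2

/-- the allowed squares: those not in the list `FS` -/
def alF (FS : List Sq4) (a b c d : ℕ) : Prop := ∀ q ∈ FS, sqs q ≠ sq a b c d

/-- four distinct corners -/
def SqOK (q : Sq4) : Prop := Dist4 q.1 q.2.1 q.2.2.1 q.2.2.2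

theorem eqE_iff (e f : Ed) : eqE e f = true ↔ fe e = fe f := by
  simp only [eqE, fe, Bool.or_eq_true, Bool.and_eq_true, decide_eq_true_eq, Sym2.eq_iff]

theorem mem_fs {l : List Ed} {x : Sym2 ℕ} : x ∈ fs l ↔ ∃ e ∈ l, fe e = x := by
  simp [fs]

theorem hasE_iff (l : List Ed) (e : Ed) : hasE l e = true ↔ fe e ∈ fs l := by
  simp only [hasE, List.any_eq_true, eqE_iff, mem_fs]

theorem hasE_false (l : List Ed) (e : Ed) : hasE l e = false ↔ fe e ∉ fs l := by
  rw [← hasE_iff, Bool.not_eq_true]

theorem fe_mem_fs {l : List Ed} {e : Ed} (h : e ∈ l) : fe e ∈ fs l := mem_fs.2 ⟨e, h, rfl⟩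

theorem fs_nil : fs [] = ∅ := rfl

theorem fs_cons (e : Ed) (l : List Ed) : fs (e :: l) = insert (fe e) (fs l) := by
  simp [fs]

theorem fs_append (l l' : List Ed) : fs (l ++ l') = fs l ∪ fs l' := by
  ext x; simp [fs, or_and_right, exists_or]

theorem fs_insE (l : List Ed) (e : Ed) : fs (insE l e) = insert (fe e) (fs l) := by
  unfold insE
  cases h : hasE l e with
  | true =>
    rw [hasE_iff] at h
    simp [Finset.insert_eq_of_mem h]
  | false => simp [fs_cons]

theorem fs_ersE (l : List Ed) (e : Ed) : fs (ersE l e) = (fs l).erase (fe e) := by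
  ext x
  rw [mem_fs, Finset.mem_erase, mem_fs]
  constructor
  · rintro ⟨f, hf, rfl⟩
    rw [ersE, List.mem_filter] at hf
    refine ⟨?_, f, hf.1, rfl⟩
    intro h
    rw [(eqE_iff f e).2 h] at hf
    simp at hf
  · rintro ⟨hx, f, hf, rfl⟩
    refine ⟨f, ?_, rfl⟩
    rw [ersE, List.mem_filter]
    refine ⟨hf, ?_⟩
    cases h : eqE f e with
    | true => exact absurd ((eqE_iff f e).1 h) hx
    | false => rfl

theorem fs_norm (U l : List Ed) : fs (norm U l) = fs U ∩ fs l := by
  ext x
  rw [mem_fs, Finset.mem_inter, mem_fs]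
  constructor
  · rintro ⟨f, hf, rfl⟩
    rw [norm, List.mem_filter, hasE_iff] at hf
    exact ⟨⟨f, hf.1, rfl⟩, hf.2⟩
  · rintro ⟨⟨f, hf, rfl⟩, h⟩
    exact ⟨f, by rw [norm, List.mem_filter, hasE_iff]; exact ⟨hf, h⟩, rfl⟩

theorem fs_norm_of {U l : List Ed} (h : fs l ⊆ fs U) : fs (norm U l) = fs l := by
  rw [fs_norm, Finset.inter_eq_right.2 h]

theorem fs_rest (U l : List Ed) : fs (rest U l) = fs U \ fs l := by
  ext x
  rw [mem_fs, Finset.mem_sdiff, mem_fs]
  constructor
  · rintro ⟨f, hf, rfl⟩
    rw [rest, List.mem_filter] at hf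
    refine ⟨⟨f, hf.1, rfl⟩, ?_⟩
    rw [← hasE_false]
    simpa using hf.2
  · rintro ⟨⟨f, hf, rfl⟩, h⟩
    refine ⟨f, ?_, rfl⟩
    rw [rest, List.mem_filter]
    refine ⟨hf, ?_⟩
    rw [← hasE_false] at h
    simp [h]

theorem fs_uni (A B : List Ed) : fs (uni A B) = fs A ∪ fs B := by
  rw [uni, fs_append, fs_rest, Finset.union_sdiff_self_eq_union]

theorem WF.filter {l : List Ed} (h : WF l) (p : Ed → Bool) : WF (l.filter p) :=
  List.Nodup.sublist (List.Sublist.map _ List.filter_sublist) h

theorem WF.nil : WF [] := List.nodup_nil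

theorem WF.norm {U : List Ed} (h : WF U) (l : List Ed) : WF (norm U l) := h.filter _

theorem WF.rest {U : List Ed} (h : WF U) (l : List Ed) : WF (rest U l) := h.filter _

theorem WF.ersE {l : List Ed} (h : WF l) (e : Ed) : WF (ersE l e) := h.filter _

theorem WF.insE {l : List Ed} (h : WF l) (e : Ed) : WF (insE l e) := by
  unfold PF4.insE
  cases h1 : hasE l e with
  | true => exact h
  | false =>
    rw [hasE_false] at h1
    show ((e :: l).map fe).Nodup
    rw [List.map_cons, List.nodup_cons]
    refine ⟨fun h2 => h1 ?_, h⟩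
    rw [fs, List.mem_toFinset]
    exact h2

theorem WF.uni {A B : List Ed} (hA : WF A) (hB : WF B) : WF (uni A B) := by
  show ((A ++ PF4.rest B A).map fe).Nodup
  rw [List.map_append, List.nodup_append']
  refine ⟨hA, hB.rest A, ?_⟩
  intro x h1 h2
  have h3 : x ∈ fs A := by rw [fs, List.mem_toFinset]; exact h1
  have h4 : x ∈ fs (PF4.rest B A) := by rw [fs, List.mem_toFinset]; exact h2
  rw [fs_rest, Finset.mem_sdiff] at h4
  exact h4.2 h3

theorem card_fs {l : List Ed} (h : WF l) : #(fs l) = l.length := by
  rw [fs, List.toFinset_card_of_nodup h, List.length_map]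

theorem inc_iff (v : ℕ) (e : Ed) : inc v e = true ↔ v ∈ fe e := by
  simp only [inc, fe, Bool.or_eq_true, decide_eq_true_eq, Sym2.mem_iff]
  constructor <;> rintro (h | h) <;> simp [h]

theorem degL_eq {l : List Ed} (h : WF l) (v : ℕ) : degL l v = dg (fs l) v := by
  have h1 := card_fs (h.filter fun e => inc v e)
  rw [degL, ← h1, dg]
  congr 1
  ext x
  rw [mem_fs, Finset.mem_filter, mem_fs]
  constructor
  · rintro ⟨e, he, rfl⟩
    rw [List.mem_filter, inc_iff] at he
    exact ⟨⟨e, he.1, rfl⟩, he.2⟩
  · rintro ⟨⟨e, he, rfl⟩, h2⟩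
    exact ⟨e, by rw [List.mem_filter, inc_iff]; exact ⟨he, h2⟩, rfl⟩

theorem sqIn_iff (l : List Ed) (q : Sq4) : sqIn l q = true ↔ sqs q ⊆ fs l := by
  simp only [sqIn, Bool.and_eq_true, hasE_iff, sqs, TFC.sq, Finset.insert_subset_iff,
    Finset.singleton_subset_iff, fe]

theorem freeL_iff (FS : List Sq4) (l : List Ed) : freeL FS l = true ↔ ∀ q ∈ FS, ¬ sqs q ⊆ fs l := by
  simp only [freeL, List.all_eq_true, Bool.not_eq_true', Bool.eq_false_iff, ne_eq, sqIn_iff]

theorem sq_rot' (a b c d : ℕ) : sq b c d a = sq a b c d := by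
  ext x; simp only [TFC.sq, Finset.mem_insert, Finset.mem_singleton]; tauto

theorem sq_ref' (a b c d : ℕ) : sq d c b a = sq a b c d := by
  ext x
  simp only [TFC.sq, Finset.mem_insert, Finset.mem_singleton, Sym2.eq_swap (a := d) (b := c),
    Sym2.eq_swap (a := c) (b := b), Sym2.eq_swap (a := b) (b := a), Sym2.eq_swap (a := a) (b := d)]
  tauto

theorem alF_sym (FS : List Sq4) : AlSym (alF FS) where
  rot := fun a b c d h q hq => by rw [sq_rot']; exact h q hq
  ref := fun a b c d h q hq => by rw [sq_ref']; exact h q hq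

theorem Sq.sub {V : Type*} [DecidableEq V] {z : Finset (Sym2 V)} {a b c d : V} (h : Sq z a b c d) :
    sq a b c d ⊆ z := by
  intro x hx
  simp only [TFC.sq, Finset.mem_insert, Finset.mem_singleton] at hx
  rcases hx with rfl | rfl | rfl | rfl
  · exact h.ab
  · exact h.bc
  · exact h.cd
  · exact h.da

theorem good_iff {FS : List Sq4} (hFS : ∀ q ∈ FS, SqOK q) (z : Finset (Sym2 ℕ)) :
    Good (alF FS) z ↔ ∀ q ∈ FS, ¬ sqs q ⊆ z := by
  constructor
  · intro h q hq hs
    have hd := hFS q hq
    refine h q.1 q.2.1 q.2.2.1 q.2.2.2 ⟨hd.2.1, hd.2.2.2.2.1, ?_, ?_, ?_, ?_⟩ q hq rfl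
    all_goals
      apply hs
      simp [sqs, TFC.sq]
  · intro h a b c d hs q hq he
    exact h q hq (by rw [he]; exact Sq.sub hs)

theorem freeL_good {FS : List Sq4} (hFS : ∀ q ∈ FS, SqOK q) (l : List Ed) :
    freeL FS l = true ↔ Good (alF FS) (fs l) := by
  rw [freeL_iff, good_iff hFS]

end Pool.Agent.PF4

end

section -- file PF4/PTB

/-! Polynomial time of the basic functions. -/

set_option autoImplicit false

namespace Pool.Agent.PF4

open Pool.Agent.Lib.helper60

variable {ι β : Type} [DEnc ι] [DEnc β]

theorem pt_eqE {e f : ι → Ed} (he : PT e) (hf : PT f) : PT (fun x => eqE (e x) (f x)) :=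
  PT.bor (PT.band (PT.neq (PT.p1 he) (PT.p1 hf)) (PT.neq (PT.p2 he) (PT.p2 hf)))
    (PT.band (PT.neq (PT.p1 he) (PT.p2 hf)) (PT.neq (PT.p2 he) (PT.p1 hf)))

theorem pt_hasE {l : ι → List Ed} {e : ι → Ed} (hl : PT l) (he : PT e) :
    PT (fun x => hasE (l x) (e x)) :=
  PT.any hl (p := fun y : ι × Ed => eqE y.2 (e y.1)) (pt_eqE PT.snd (he.comp PT.fst))

theorem pt_insE {l : ι → List Ed} {e : ι → Ed} (hl : PT l) (he : PT e) :
    PT (fun x => insE (l x) (e x)) := PT.cond (pt_hasE hl he) hl (PT.cons he hl)

theorem pt_ersE {l : ι → List Ed} {e : ι → Ed} (hl : PT l) (he : PT e) :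
    PT (fun x => ersE (l x) (e x)) :=
  PT.filter hl (p := fun y : ι × Ed => !eqE y.2 (e y.1)) (PT.bnot (pt_eqE PT.snd (he.comp PT.fst)))

theorem pt_norm {U l : ι → List Ed} (hU : PT U) (hl : PT l) : PT (fun x => norm (U x) (l x)) :=
  PT.filter hU (p := fun y : ι × Ed => hasE (l y.1) y.2) (pt_hasE (hl.comp PT.fst) PT.snd)

theorem pt_rest {U l : ι → List Ed} (hU : PT U) (hl : PT l) : PT (fun x => rest (U x) (l x)) :=
  PT.filter hU (p := fun y : ι × Ed => !hasE (l y.1) y.2) (PT.bnot (pt_hasE (hl.comp PT.fst) PT.snd))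

theorem pt_uni {A B : ι → List Ed} (hA : PT A) (hB : PT B) : PT (fun x => uni (A x) (B x)) :=
  PT.append hA (pt_rest hB hA)

theorem pt_inc {v : ι → ℕ} {e : ι → Ed} (hv : PT v) (he : PT e) : PT (fun x => inc (v x) (e x)) :=
  PT.bor (PT.neq (PT.p1 he) hv) (PT.neq (PT.p2 he) hv)

theorem pt_degL {l : ι → List Ed} {v : ι → ℕ} (hl : PT l) (hv : PT v) :
    PT (fun x => degL (l x) (v x)) :=
  PT.length (PT.filter hl (p := fun y : ι × Ed => inc (v y.1) y.2) (pt_inc (hv.comp PT.fst) PT.snd))

theorem pt_sqIn {l : ι → List Ed} {q : ι → Sq4} (hl : PT l) (hq : PT q) :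
    PT (fun x => sqIn (l x) (q x)) := by
  have h1 := PT.p1 hq
  have h2 := PT.p1 (PT.p2 hq)
  have h3 := PT.p1 (PT.p2 (PT.p2 hq))
  have h4 := PT.p2 (PT.p2 (PT.p2 hq))
  exact PT.band (pt_hasE hl (PT.pair h1 h2)) (PT.band (pt_hasE hl (PT.pair h2 h3))
    (PT.band (pt_hasE hl (PT.pair h3 h4)) (pt_hasE hl (PT.pair h4 h1))))

theorem pt_freeL {FS : ι → List Sq4} {l : ι → List Ed} (hF : PT FS) (hl : PT l) :
    PT (fun x => freeL (FS x) (l x)) :=
  PT.all hF (p := fun y : ι × Sq4 => !sqIn (l y.1) y.2) (PT.bnot (pt_sqIn (hl.comp PT.fst) PT.snd))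

/-- first element satisfying `p`, or `d` -/
def findD {α : Type} (p : α → Bool) (l : List α) (d : α) : α := (l.filter p).headD d

theorem findD_spec {α : Type} (p : α → Bool) (l : List α) (d : α) (h : ∃ a ∈ l, p a = true) :
    findD p l d ∈ l ∧ p (findD p l d) = true := by
  obtain ⟨a, ha, hp⟩ := h
  have h1 : a ∈ l.filter p := List.mem_filter.2 ⟨ha, hp⟩
  unfold findD
  cases h2 : l.filter p with
  | nil => rw [h2] at h1; cases h1
  | cons b t =>
    have h3 : b ∈ l.filter p := by rw [h2]; exact List.mem_cons_self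
    exact ⟨(List.mem_filter.1 h3).1, (List.mem_filter.1 h3).2⟩

theorem pt_findD {p : ι × β → Bool} {l : ι → List β} {d : ι → β} (hp : PT p) (hl : PT l) (hd : PT d) :
    PT (fun x => findD (fun b => p (x, b)) (l x) (d x)) :=
  PT.headD (PT.filter hl hp) hd

end Pool.Agent.PF4

end

section -- file PF4/Exch

/-!
The exchange as a polynomial time function.
-/

set_option autoImplicit false

namespace Pool.Agent.PF4

open Finset Pool.Agent.TFC Pool.Agent.Lib.helper60

/-- `1` if `v = w` -/
def one (v w : ℕ) : ℕ := bif decide (v = w) then 1 else 0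

/-- the vector `deg A ± e_i` -/
def tau (A : List Ed) (i : ℕ) (up : Bool) (v : ℕ) : ℕ :=
  bif up then degL A v + one v i else degL A v - one v i

/-- the end vertices of the edges of a list -/
def ends (A : List Ed) : List ℕ := A.flatMap fun e => [e.1, e.2]

/-- the relevant vertices -/
def vts (A B : List Ed) (i : ℕ) : List ℕ := i :: (ends A ++ ends B)

/-- `deg L = tau - e_w` -/
def eqDef (A B : List Ed) (i : ℕ) (up : Bool) (L : List Ed) (w : ℕ) : Bool :=
  (vts A B i).all fun v => decide (degL L v + one v w = tau A i up v)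

/-- `deg L = tau + e_c` -/
def eqSur (A B : List Ed) (i : ℕ) (up : Bool) (L : List Ed) (c : ℕ) : Bool :=
  (vts A B i).all fun v => decide (degL L v = tau A i up v + one v c)

/-- `L` is a final result -/
def isFin (A B : List Ed) (i : ℕ) (up : Bool) (L : List Ed) : Bool :=
  ((vts A B i).any fun w => eqDef A B i up L w && decide (degL B w < tau A i up w)) ||
    ((vts A B i).any fun c => eqSur A B i up L c && decide (tau A i up c < degL B c))

/-- distance -/
def distL (L B : List Ed) : ℕ := (rest L B).length + (rest B L).length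

/-- progress from `L` to `L'` -/
def isProg (A B : List Ed) (i : ℕ) (up : Bool) (L L' : List Ed) : Bool :=
  ((vts A B i).any fun w => eqDef A B i up L' w) && decide (distL L' B < distL L B)

/-- all degrees are at most 2 -/
def le2 (W : List ℕ) (L : List Ed) : Bool := W.all fun v => decide (degL L v ≤ 2)

/-- `L'` is an admissible successor of `L` -/
def isVal (FS : List Sq4) (A B : List Ed) (i : ℕ) (up : Bool) (L L' : List Ed) : Bool :=
  le2 (ends L') L' && (freeL FS L' && (isFin A B i up L' || isProg A B i up L L'))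

/-- nothing or one edge -/
def opts (l : List Ed) : List (List Ed) := [] :: l.map fun e => [e]

/-- insert an edge of `B` -/
def stI (L B : List Ed) : List (List Ed) := B.map fun e => insE L e

/-- perhaps delete an edge -/
def stD (Ls O : List (List Ed)) : List (List Ed) := Ls.flatMap fun L => O.map fun o => rest L o

/-- perhaps insert an edge -/
def stU (Ls O : List (List Ed)) : List (List Ed) := Ls.flatMap fun L => O.map fun o => uni L o

/-- all candidates -/
def cand (L B : List Ed) : List (List Ed) :=
  stD (stU (stD (stI L B) (opts (L ++ B))) (opts B)) (opts (L ++ B))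

/-- one step -/
def xstep (FS : List Sq4) (A B : List Ed) (i : ℕ) (up : Bool) (L : List Ed) : List Ed :=
  bif isFin A B i up L then L
  else norm (uni A B) (findD (fun L' => isVal FS A B i up L L') (cand L B) L)

/-- the start -/
def xinit (A B : List Ed) (i : ℕ) (up : Bool) : List Ed :=
  bif up then A else ersE A (findD (fun e => inc i e && !hasE B e) A (0, 0))

/-- **the exchange** -/
def exch (FS : List Sq4) (A B : List Ed) (i : ℕ) (up : Bool) : List Ed :=
  (xstep FS A B i up)^[A.length + B.length + 1] (xinit A B i up)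

/-! ### correctness -/

theorem one_eq (v w : ℕ) : (one v w : ℤ) = ev w v := by
  rw [one, ev_apply]
  by_cases h : v = w <;> simp [h]

theorem mem_ends {A : List Ed} {v : ℕ} : v ∈ ends A ↔ ∃ x ∈ fs A, v ∈ x := by
  rw [ends, List.mem_flatMap]
  constructor
  · rintro ⟨e, he, hv⟩
    refine ⟨fe e, fe_mem_fs he, ?_⟩
    simp only [List.mem_cons, List.not_mem_nil, or_false] at hv
    rw [fe, Sym2.mem_iff]
    exact hv
  · rintro ⟨x, hx, hv⟩
    obtain ⟨e, he, rfl⟩ := mem_fs.1 hx
    refine ⟨e, he, ?_⟩
    rw [fe, Sym2.mem_iff] at hv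
    simpa using hv

theorem dg_eq_zero {z : Finset (Sym2 ℕ)} {A : List Ed} {v : ℕ} (h : z ⊆ fs A) (hv : v ∉ ends A) :
    dg z v = 0 := by
  rw [dg, Finset.card_eq_zero, Finset.filter_eq_empty_iff]
  intro x hx hvx
  exact hv (mem_ends.2 ⟨x, h hx, hvx⟩)

theorem dg_eq_zero' {z : Finset (Sym2 ℕ)} {A B : List Ed} {i v : ℕ} (h : z ⊆ fs A ∪ fs B)
    (hv : v ∉ vts A B i) : dg z v = 0 := by
  rw [dg, Finset.card_eq_zero, Finset.filter_eq_empty_iff]
  intro x hx hvx
  apply hv
  rw [vts, List.mem_cons, List.mem_append, mem_ends, mem_ends]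
  rcases Finset.mem_union.1 (h hx) with h1 | h1
  · exact Or.inr (Or.inl ⟨x, h1, hvx⟩)
  · exact Or.inr (Or.inr ⟨x, h1, hvx⟩)

/-- the sign -/
def sgn (up : Bool) : ℤ := bif up then 1 else -1

/-- the data and hypotheses of an exchange -/
structure XH (FS : List Sq4) (A B : List Ed) (i : ℕ) (up : Bool) : Prop where
  ok : ∀ q ∈ FS, SqOK q
  wa : WF A
  wb : WF B
  ma : M2 (fs A)
  mb : M2 (fs B)
  ga : Good (alF FS) (fs A)
  gb : Good (alF FS) (fs B)
  lt : 0 < sgn up * (dv (fs B) i - dv (fs A) i)

/-- the target vector -/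
def TT (A : List Ed) (i : ℕ) (up : Bool) : ℕ → ℤ := dv (fs A) + Pi.single i (sgn up)

section
variable {FS : List Sq4} {A B : List Ed} {i : ℕ} {up : Bool}

theorem TT_apply (A : List Ed) (i : ℕ) (up : Bool) (v : ℕ) :
    TT A i up v = dv (fs A) v + sgn up * ev i v := by
  rw [TT, Pi.add_apply, ev_apply]
  by_cases h : v = i
  · subst h; simp
  · simp [h]

theorem XH.tau (H : XH FS A B i up) (v : ℕ) : (tau A i up v : ℤ) = TT A i up v := by
  have hl := H.lt
  have hb : 0 ≤ dv (fs B) i := by rw [dv_apply]; positivity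
  rw [TT_apply, ← one_eq, dv_apply, ← degL_eq H.wa]
  rw [dv_apply (fs A) i, ← degL_eq H.wa] at hl
  unfold PF4.tau sgn at *
  cases up with
  | true => simp
  | false =>
    simp only [cond_false, neg_mul, one_mul] at hl ⊢
    have h1 : one v i ≤ degL A v := by
      unfold one
      by_cases h : v = i
      · subst h; simp only [decide_true, cond_true]; omega
      · simp [h]
    omega

theorem XH.le (H : XH FS A B i up) (v : ℕ) : TT A i up v ≤ 2 := by
  have h1 := H.ma.le v
  have h2 := H.mb.le i
  have hl := H.lt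
  rw [TT_apply, ev_apply, dv_apply]
  simp only [dv_apply] at hl
  unfold sgn at *
  cases up with
  | true =>
    simp only [cond_true, one_mul] at hl ⊢
    split_ifs with h
    · subst h; omega
    · omega
  | false =>
    simp only [cond_false, neg_mul, one_mul]
    split_ifs <;> omega

theorem XH.out (H : XH FS A B i up) {v : ℕ} (hv : v ∉ vts A B i) : TT A i up v = 0 := by
  have h1 : dg (fs A) v = 0 := dg_eq_zero' (B := B) (i := i) Finset.subset_union_left hv
  have h2 : v ≠ i := by rintro rfl; exact hv List.mem_cons_self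
  have := H.wa
  rw [TT_apply, dv_apply, h1, ev_ne h2]
  simp

theorem XH.def_iff (H : XH FS A B i up) {L : List Ed} (hL : WF L) (hs : fs L ⊆ fs A ∪ fs B) {w : ℕ}
    (hw : w ∈ vts A B i) :
    eqDef A B i up L w = true ↔ dv (fs L) = TT A i up - ev w := by
  simp only [eqDef, List.all_eq_true, decide_eq_true_eq]
  constructor
  · intro h
    funext v
    by_cases hv : v ∈ vts A B i
    · have h1 := h v hv
      rw [Pi.sub_apply, ← H.tau, ← one_eq, dv_apply, ← degL_eq hL]
      omega
    · have h2 : v ≠ w := by rintro rfl; exact hv hw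
      rw [Pi.sub_apply, H.out hv, ev_ne h2, dv_apply, dg_eq_zero' hs hv]
      simp
  · intro h v hv
    have h1 := congrFun h v
    rw [Pi.sub_apply, ← H.tau, ← one_eq, dv_apply, ← degL_eq hL] at h1
    omega

theorem XH.sur_iff (H : XH FS A B i up) {L : List Ed} (hL : WF L) (hs : fs L ⊆ fs A ∪ fs B) {c : ℕ}
    (hc : c ∈ vts A B i) :
    eqSur A B i up L c = true ↔ dv (fs L) = TT A i up + ev c := by
  simp only [eqSur, List.all_eq_true, decide_eq_true_eq]
  constructor
  · intro h
    funext v
    by_cases hv : v ∈ vts A B i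
    · have h1 := h v hv
      rw [Pi.add_apply, ← H.tau, ← one_eq, dv_apply, ← degL_eq hL]
      omega
    · have h2 : v ≠ c := by rintro rfl; exact hv hc
      rw [Pi.add_apply, H.out hv, ev_ne h2, dv_apply, dg_eq_zero' hs hv]
      simp
  · intro h v hv
    have h1 := congrFun h v
    rw [Pi.add_apply, ← H.tau, ← one_eq, dv_apply, ← degL_eq hL] at h1
    omega

/-- final results -/
def FinP (A B : List Ed) (i : ℕ) (up : Bool) (z : Finset (Sym2 ℕ)) : Prop :=
  (∃ w, dv z = TT A i up - ev w ∧ dv (fs B) w < TT A i up w) ∨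
    (∃ c, dv z = TT A i up + ev c ∧ TT A i up c < dv (fs B) c)

theorem XH.defmem (H : XH FS A B i up) {z : Finset (Sym2 ℕ)} {w : ℕ}
    (h : dv z = TT A i up - ev w) : w ∈ vts A B i := by
  by_contra hw
  have h1 := congrFun h w
  rw [Pi.sub_apply, H.out hw, ev_self, dv_apply] at h1
  omega

theorem XH.fin_iff (H : XH FS A B i up) {L : List Ed} (hL : WF L) (hs : fs L ⊆ fs A ∪ fs B) :
    isFin A B i up L = true ↔ FinP A B i up (fs L) := by
  simp only [isFin, FinP, Bool.or_eq_true, List.any_eq_true, Bool.and_eq_true, decide_eq_true_eq]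
  refine or_congr ?_ ?_
  · constructor
    · rintro ⟨w, hw, h1, h2⟩
      refine ⟨w, (H.def_iff hL hs hw).1 h1, ?_⟩
      rw [← H.tau, dv_apply, ← degL_eq H.wb]
      exact_mod_cast h2
    · rintro ⟨w, h1, h2⟩
      have hw := H.defmem h1
      refine ⟨w, hw, (H.def_iff hL hs hw).2 h1, ?_⟩
      rw [← H.tau, dv_apply, ← degL_eq H.wb] at h2
      exact_mod_cast h2
  · constructor
    · rintro ⟨c, hc, h1, h2⟩
      refine ⟨c, (H.sur_iff hL hs hc).1 h1, ?_⟩
      rw [← H.tau, dv_apply, ← degL_eq H.wb]
      exact_mod_cast h2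
    · rintro ⟨c, h1, h2⟩
      have hc : c ∈ vts A B i := by
        by_contra hc
        have h3 := congrFun h1 c
        rw [Pi.add_apply, H.out hc, ev_self, dv_apply, dg_eq_zero' hs hc] at h3
        simp at h3
      refine ⟨c, hc, (H.sur_iff hL hs hc).2 h1, ?_⟩
      rw [← H.tau, dv_apply, ← degL_eq H.wb] at h2
      exact_mod_cast h2

theorem distL_eq {L B : List Ed} (hL : WF L) (hB : WF B) :
    distL L B = #(fs L \ fs B) + #(fs B \ fs L) := by
  rw [distL, ← fs_rest, ← fs_rest, card_fs (hL.rest B), card_fs (hB.rest L)]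

/-- the common part of the invariant -/
structure Inv0 (FS : List Sq4) (A B : List Ed) (L : List Ed) : Prop where
  wf : WF L
  sub : fs L ⊆ fs A ∪ fs B
  m2 : M2 (fs L)
  gd : Good (alF FS) (fs L)

theorem le2_iff {L : List Ed} (hL : WF L) : le2 (ends L) L = true ↔ ∀ v, dg (fs L) v ≤ 2 := by
  simp only [le2, List.all_eq_true, decide_eq_true_eq]
  constructor
  · intro h v
    by_cases hv : v ∈ ends L
    · rw [← degL_eq hL]; exact h v hv
    · rw [dg_eq_zero (Finset.Subset.refl _) hv]; omega
  · intro h v _
    rw [degL_eq hL]; exact h v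

theorem mem_opts {l o : List Ed} : o ∈ opts l ↔ o = [] ∨ ∃ e ∈ l, o = [e] := by
  rw [opts, List.mem_cons, List.mem_map]
  constructor
  · rintro (h | ⟨e, he, h⟩)
    · exact Or.inl h
    · exact Or.inr ⟨e, he, h.symm⟩
  · rintro (h | ⟨e, he, h⟩)
    · exact Or.inl h
    · exact Or.inr ⟨e, he, h.symm⟩

theorem WF.single (e : Ed) : WF [e] := List.nodup_singleton _

theorem opts_wf {l o : List Ed} (h : o ∈ opts l) : WF o ∧ fs o ⊆ fs l := by
  rcases mem_opts.1 h with rfl | ⟨e, he, rfl⟩
  · exact ⟨WF.nil, by simp [fs_nil]⟩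
  · refine ⟨WF.single e, ?_⟩
    rw [fs_cons, fs_nil]
    intro x hx
    simp only [insert_empty_eq, Finset.mem_singleton] at hx
    rw [hx]; exact fe_mem_fs he

theorem mem_cand {L B f : List Ed} : f ∈ cand L B ↔ ∃ e ∈ B, ∃ o2 ∈ opts (L ++ B), ∃ o3 ∈ opts B,
    ∃ o4 ∈ opts (L ++ B), f = rest (uni (rest (insE L e) o2) o3) o4 := by
  simp only [cand, stD, stU, stI, List.mem_flatMap, List.mem_map]
  constructor
  · rintro ⟨l3, ⟨l2, ⟨l1, ⟨e, he, rfl⟩, o2, h2, rfl⟩, o3, h3, rfl⟩, o4, h4, rfl⟩
    exact ⟨e, he, o2, h2, o3, h3, o4, h4, rfl⟩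
  · rintro ⟨e, he, o2, h2, o3, h3, o4, h4, rfl⟩
    exact ⟨_, ⟨_, ⟨_, ⟨e, he, rfl⟩, o2, h2, rfl⟩, o3, h3, rfl⟩, o4, h4, rfl⟩

theorem cand_ok {L B f : List Ed} (hL : WF L) (h : f ∈ cand L B) :
    WF f ∧ fs f ⊆ fs L ∪ fs B := by
  obtain ⟨e, he, o2, h2, o3, h3, o4, h4, rfl⟩ := mem_cand.1 h
  refine ⟨((((hL.insE e).rest o2).uni (opts_wf h3).1).rest o4), ?_⟩
  rw [fs_rest, fs_uni, fs_rest, fs_insE]
  intro x hx
  rw [Finset.mem_sdiff, Finset.mem_union, Finset.mem_sdiff, Finset.mem_insert] at hx
  rcases hx.1 with ⟨rfl | h, _⟩ | h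
  · exact Finset.mem_union_right _ (fe_mem_fs he)
  · exact Finset.mem_union_left _ h
  · exact Finset.mem_union_right _ ((opts_wf h3).2 h)

theorem opt_exists {l : List Ed} {o : Option (Sym2 ℕ)} (h : OIn o (fs l)) :
    ∃ o' ∈ opts l, (∀ M, fs (rest M o') = ersO o (fs M)) ∧ (∀ M, fs (uni M o') = insO o (fs M)) := by
  cases o with
  | none =>
    refine ⟨[], mem_opts.2 (Or.inl rfl), fun M => ?_, fun M => ?_⟩
    · rw [fs_rest, fs_nil, Finset.sdiff_empty]; rfl
    · rw [fs_uni, fs_nil, Finset.union_empty]; rfl
  | some x =>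
    obtain ⟨e, he, rfl⟩ := mem_fs.1 (h x rfl)
    refine ⟨[e], mem_opts.2 (Or.inr ⟨e, he, rfl⟩), fun M => ?_, fun M => ?_⟩
    · rw [fs_rest, fs_cons, fs_nil]
      show fs M \ {fe e} = (fs M).erase (fe e)
      rw [Finset.sdiff_singleton_eq_erase]
    · rw [fs_uni, fs_cons, fs_nil]
      show fs M ∪ {fe e} = insert (fe e) (fs M)
      rw [Finset.union_comm]; rfl

theorem XH.val_iff (H : XH FS A B i up) {L f : List Ed} (hL : WF L) (hf : WF f) (hn : NoLoop (fs f))
    (hs : fs f ⊆ fs A ∪ fs B) : isVal FS A B i up L f = true ↔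
      M2 (fs f) ∧ Good (alF FS) (fs f) ∧ (FinP A B i up (fs f) ∨
        ((∃ w, dv (fs f) = TT A i up - ev w) ∧
          #(fs f \ fs B) + #(fs B \ fs f) < #(fs L \ fs B) + #(fs B \ fs L))) := by
  rw [isVal, Bool.and_eq_true, Bool.and_eq_true, Bool.or_eq_true, le2_iff hf, freeL_good H.ok,
    H.fin_iff hf hs, isProg, Bool.and_eq_true, decide_eq_true_eq, distL_eq hf H.wb, distL_eq hL H.wb,
    List.any_eq_true]
  refine and_congr ⟨fun h => ⟨hn, h⟩, fun h => h.le⟩ (and_congr Iff.rfl (or_congr Iff.rfl
    (and_congr ?_ Iff.rfl)))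
  constructor
  · rintro ⟨w, hw, h⟩
    exact ⟨w, (H.def_iff hf hs hw).1 h⟩
  · rintro ⟨w, h⟩
    have hw := H.defmem h
    exact ⟨w, hw, (H.def_iff hf hs hw).2 h⟩

theorem XH.step (H : XH FS A B i up) {L : List Ed} (hI : Inv0 FS A B L)
    (hz : FinP A B i up (fs L) ∨ ∃ z, dv (fs L) = TT A i up - ev z) :
    Inv0 FS A B (xstep FS A B i up L) ∧ (FinP A B i up (fs (xstep FS A B i up L)) ∨
      ((∃ z, dv (fs (xstep FS A B i up L)) = TT A i up - ev z) ∧
        distL (xstep FS A B i up L) B < distL L B)) := by
  have hn : NoLoop (fs A ∪ fs B) := by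
    intro x hx
    rcases Finset.mem_union.1 hx with h | h
    · exact H.ma.nl x h
    · exact H.mb.nl x h
  unfold xstep
  cases hf : isFin A B i up L with
  | true =>
    rw [H.fin_iff hI.wf hI.sub] at hf
    exact ⟨hI, Or.inl hf⟩
  | false =>
    have hnf : ¬ FinP A B i up (fs L) := by
      rw [← H.fin_iff hI.wf hI.sub, hf]; simp
    obtain ⟨z, hz⟩ := hz.resolve_left hnf
    have h0 : TT A i up z ≤ dv (fs B) z := by
      by_contra h
      exact hnf (Or.inl ⟨z, hz, not_le.1 h⟩)
    obtain ⟨x1, hx1, o2, ho2, o3, ho3, o4, ho4, hm, hg, hr⟩ :=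
      wstep (alF_sym FS) H.mb H.gb H.le hI.m2 hI.gd hz h0
    obtain ⟨e1, he1, rfl⟩ := mem_fs.1 hx1
    rw [← fs_append] at ho2 ho4
    obtain ⟨p2, hp2, hp2e, -⟩ := opt_exists ho2
    obtain ⟨p3, hp3, -, hp3e⟩ := opt_exists ho3
    obtain ⟨p4, hp4, hp4e, -⟩ := opt_exists ho4
    have hc : rest (uni (rest (insE L e1) p2) p3) p4 ∈ cand L B :=
      mem_cand.2 ⟨e1, he1, p2, hp2, p3, hp3, p4, hp4, rfl⟩
    have hce : fs (rest (uni (rest (insE L e1) p2) p3) p4) =
        ersO o4 (insO o3 (ersO o2 (insert (fe e1) (fs L)))) := by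
      rw [hp4e, hp3e, hp2e, fs_insE]
    have hsubc : ∀ f ∈ cand L B, fs f ⊆ fs A ∪ fs B := fun f hf =>
      (cand_ok hI.wf hf).2.trans (Finset.union_subset hI.sub Finset.subset_union_right)
    have hv : isVal FS A B i up L (rest (uni (rest (insE L e1) p2) p3) p4) = true := by
      rw [H.val_iff hI.wf (cand_ok hI.wf hc).1 (hn.mono (hsubc _ hc)) (hsubc _ hc), hce]
      refine ⟨hm, hg, ?_⟩
      rcases hr with ⟨w, hw, h1 | h1⟩ | ⟨c, h1, h2⟩
      · exact Or.inl (Or.inl ⟨w, hw, h1⟩)
      · exact Or.inr ⟨⟨w, hw⟩, h1⟩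
      · exact Or.inl (Or.inr ⟨c, h1, h2⟩)
    obtain ⟨hf1, hf2⟩ := findD_spec (fun L' => isVal FS A B i up L L') (cand L B) L ⟨_, hc, hv⟩
    set f := findD (fun L' => isVal FS A B i up L L') (cand L B) L with hfdef
    have hwf : WF f := (cand_ok hI.wf hf1).1
    have hsf := hsubc f hf1
    rw [H.val_iff hI.wf hwf (hn.mono hsf) hsf] at hf2
    have hU : fs f ⊆ fs (uni A B) := by rw [fs_uni]; exact hsf
    have he : fs (norm (uni A B) f) = fs f := fs_norm_of hU
    have hw2 : WF (norm (uni A B) f) := (H.wa.uni H.wb).norm f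
    simp only [cond_false]
    refine ⟨⟨hw2, by rw [he]; exact hsf, by rw [he]; exact hf2.1, by rw [he]; exact hf2.2.1⟩, ?_⟩
    rw [distL_eq hw2 H.wb, distL_eq hI.wf H.wb, he]
    exact hf2.2.2

theorem XH.init (H : XH FS A B i up) : Inv0 FS A B (xinit A B i up) ∧
    (∃ z, dv (fs (xinit A B i up)) = TT A i up - ev z) := by
  have hl := H.lt
  unfold xinit
  cases up with
  | true =>
    refine ⟨⟨H.wa, Finset.subset_union_left, H.ma, H.ga⟩, i, ?_⟩
    simp only [cond_true, TT, sgn]
    rw [single_one]; abel
  | false =>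
    have hlt : dg (fs B) i < dg (fs A) i := by
      simp only [sgn, cond_false, dv_apply] at hl
      omega
    obtain ⟨u, hu1, hu2⟩ := exists_nbr_notMem hlt
    obtain ⟨e, he, hee⟩ := mem_fs.1 hu1
    have hp : (inc i e && !hasE B e) = true := by
      rw [Bool.and_eq_true, inc_iff, hee]
      refine ⟨by simp, ?_⟩
      rw [Bool.not_eq_true', hasE_false, hee]
      exact hu2
    obtain ⟨h1, h2⟩ := findD_spec (fun e => inc i e && !hasE B e) A (0, 0) ⟨e, he, hp⟩
    set f := findD (fun e => inc i e && !hasE B e) A (0, 0) with hfdef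
    rw [Bool.and_eq_true, inc_iff] at h2
    obtain ⟨u', hu'⟩ := Sym2.mem_iff_exists.1 h2.1
    have hiu : i ≠ u' := by
      have := fe_mem_fs h1
      rw [hu'] at this
      exact H.ma.nl.ne this
    have hmem : s(i, u') ∈ fs A := by rw [← hu']; exact fe_mem_fs h1
    simp only [cond_false]
    refine ⟨⟨H.wa.ersE f, ?_, ?_, ?_⟩, u', ?_⟩
    · rw [fs_ersE]; exact (Finset.erase_subset _ _).trans Finset.subset_union_left
    · rw [fs_ersE]; exact H.ma.mono (Finset.erase_subset _ _)
    · rw [fs_ersE]; exact H.ga.mono (Finset.erase_subset _ _)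
    · rw [fs_ersE, hu', dv_erase hiu hmem, TT, sgn, cond_false, single_neg_one]; abel

theorem XH.iter (H : XH FS A B i up) (k : ℕ) :
    Inv0 FS A B ((xstep FS A B i up)^[k] (xinit A B i up)) ∧
      (FinP A B i up (fs ((xstep FS A B i up)^[k] (xinit A B i up))) ∨
        ((∃ z, dv (fs ((xstep FS A B i up)^[k] (xinit A B i up))) = TT A i up - ev z) ∧
          distL ((xstep FS A B i up)^[k] (xinit A B i up)) B + k ≤ distL (xinit A B i up) B)) := by
  induction k with
  | zero => exact ⟨H.init.1, Or.inr ⟨H.init.2, le_rfl⟩⟩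
  | succ k ih =>
    rw [Function.iterate_succ_apply']
    generalize (xstep FS A B i up)^[k] (xinit A B i up) = L at ih
    obtain ⟨h1, h2⟩ := H.step ih.1 (ih.2.imp id fun h => h.1)
    refine ⟨h1, ?_⟩
    rcases ih.2 with h3 | ⟨h3, h4⟩
    · left
      have hf : isFin A B i up L = true := (H.fin_iff ih.1.wf ih.1.sub).2 h3
      have : xstep FS A B i up L = L := by rw [xstep, hf]; rfl
      rw [this]; exact h3
    · rcases h2 with h2 | ⟨h2, h5⟩
      · exact Or.inl h2
      · exact Or.inr ⟨h2, by omega⟩

theorem distL_le {L B : List Ed} : distL L B ≤ L.length + B.length :=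
  Nat.add_le_add (List.length_filter_le _ _) (List.length_filter_le _ _)

theorem xinit_len (A B : List Ed) (i : ℕ) (up : Bool) : (xinit A B i up).length ≤ A.length := by
  unfold xinit
  cases up with
  | true => exact le_rfl
  | false => exact List.length_filter_le _ _

/-- **Specification of the exchange**: the two-step axiom. -/
theorem exch_spec (H : XH FS A B i up) : WF (exch FS A B i up) ∧
    fs (exch FS A B i up) ⊆ fs A ∪ fs B ∧ M2 (fs (exch FS A B i up)) ∧
    Good (alF FS) (fs (exch FS A B i up)) ∧
    ∃ (j : ℕ) (δ : ℤ), (δ = 1 ∨ δ = -1) ∧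
      0 < δ * (dv (fs B) j - (dv (fs A) + Pi.single i (sgn up) : ℕ → ℤ) j) ∧
      dv (fs (exch FS A B i up)) = dv (fs A) + Pi.single i (sgn up) + Pi.single j δ := by
  obtain ⟨h1, h2⟩ := H.iter (A.length + B.length + 1)
  have h3 : FinP A B i up (fs (exch FS A B i up)) := by
    rcases h2 with h2 | ⟨-, h2⟩
    · exact h2
    · have h4 := distL_le (L := xinit A B i up) (B := B)
      have h5 := xinit_len A B i up
      omega
  refine ⟨h1.wf, h1.sub, h1.m2, h1.gd, ?_⟩
  rcases h3 with ⟨w, h4, h5⟩ | ⟨c, h4, h5⟩
  · refine ⟨w, -1, Or.inr rfl, ?_, ?_⟩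
    · show 0 < -1 * (dv (fs B) w - TT A i up w)
      linarith
    · rw [h4, single_neg_one, TT]; abel
  · refine ⟨c, 1, Or.inl rfl, ?_, ?_⟩
    · show 0 < 1 * (dv (fs B) c - TT A i up c)
      linarith
    · rw [h4, single_one, TT]

end

end Pool.Agent.PF4

end

section -- file PF4/PTX

/-! Polynomial time of the exchange. -/

set_option autoImplicit false

namespace Pool.Agent.PF4

open Pool.Agent.Lib.helper60

variable {ι : Type} [DEnc ι]

theorem pt_one {v w : ι → ℕ} (hv : PT v) (hw : PT w) : PT (fun x => one (v x) (w x)) :=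
  PT.cond (PT.neq hv hw) (PT.const 1) (PT.const 0)

theorem pt_tau {A : ι → List Ed} {i : ι → ℕ} {up : ι → Bool} {v : ι → ℕ} (hA : PT A) (hi : PT i)
    (hu : PT up) (hv : PT v) : PT (fun x => tau (A x) (i x) (up x) (v x)) :=
  PT.cond hu (PT.nadd (pt_degL hA hv) (pt_one hv hi)) (PT.nsub (pt_degL hA hv) (pt_one hv hi))

theorem pt_ends {A : ι → List Ed} (hA : PT A) : PT (fun x => ends (A x)) :=
  PT.flatMap hA (g := fun y : ι × Ed => [y.2.1, y.2.2])
    (PT.cons (PT.p1 PT.snd) (PT.cons (PT.p2 PT.snd) (PT.const [])))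

theorem pt_vts {A B : ι → List Ed} {i : ι → ℕ} (hA : PT A) (hB : PT B) (hi : PT i) :
    PT (fun x => vts (A x) (B x) (i x)) :=
  PT.cons hi (PT.append (pt_ends hA) (pt_ends hB))

section
variable {A B L L' : ι → List Ed} {i w : ι → ℕ} {up : ι → Bool}

theorem pt_eqDef (hA : PT A) (hB : PT B) (hi : PT i) (hu : PT up) (hL : PT L) (hw : PT w) :
    PT (fun x => eqDef (A x) (B x) (i x) (up x) (L x) (w x)) :=
  PT.all (pt_vts hA hB hi)
    (p := fun y : ι × ℕ => decide (degL (L y.1) y.2 + one y.2 (w y.1) = tau (A y.1) (i y.1) (up y.1) y.2))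
    (PT.neq (PT.nadd (pt_degL (hL.comp PT.fst) PT.snd) (pt_one PT.snd (hw.comp PT.fst)))
      (pt_tau (hA.comp PT.fst) (hi.comp PT.fst) (hu.comp PT.fst) PT.snd))

theorem pt_eqSur (hA : PT A) (hB : PT B) (hi : PT i) (hu : PT up) (hL : PT L) (hw : PT w) :
    PT (fun x => eqSur (A x) (B x) (i x) (up x) (L x) (w x)) :=
  PT.all (pt_vts hA hB hi)
    (p := fun y : ι × ℕ => decide (degL (L y.1) y.2 = tau (A y.1) (i y.1) (up y.1) y.2 + one y.2 (w y.1)))
    (PT.neq (pt_degL (hL.comp PT.fst) PT.snd)
      (PT.nadd (pt_tau (hA.comp PT.fst) (hi.comp PT.fst) (hu.comp PT.fst) PT.snd)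
        (pt_one PT.snd (hw.comp PT.fst))))

theorem pt_isFin (hA : PT A) (hB : PT B) (hi : PT i) (hu : PT up) (hL : PT L) :
    PT (fun x => isFin (A x) (B x) (i x) (up x) (L x)) :=
  PT.bor
    (PT.any (pt_vts hA hB hi) (p := fun y : ι × ℕ => eqDef (A y.1) (B y.1) (i y.1) (up y.1) (L y.1) y.2 &&
        decide (degL (B y.1) y.2 < tau (A y.1) (i y.1) (up y.1) y.2))
      (PT.band (pt_eqDef (hA.comp PT.fst) (hB.comp PT.fst) (hi.comp PT.fst) (hu.comp PT.fst)
          (hL.comp PT.fst) PT.snd)
        (PT.nlt (pt_degL (hB.comp PT.fst) PT.snd)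
          (pt_tau (hA.comp PT.fst) (hi.comp PT.fst) (hu.comp PT.fst) PT.snd))))
    (PT.any (pt_vts hA hB hi) (p := fun y : ι × ℕ => eqSur (A y.1) (B y.1) (i y.1) (up y.1) (L y.1) y.2 &&
        decide (tau (A y.1) (i y.1) (up y.1) y.2 < degL (B y.1) y.2))
      (PT.band (pt_eqSur (hA.comp PT.fst) (hB.comp PT.fst) (hi.comp PT.fst) (hu.comp PT.fst)
          (hL.comp PT.fst) PT.snd)
        (PT.nlt (pt_tau (hA.comp PT.fst) (hi.comp PT.fst) (hu.comp PT.fst) PT.snd)
          (pt_degL (hB.comp PT.fst) PT.snd))))

theorem pt_distL (hL : PT L) (hB : PT B) : PT (fun x => distL (L x) (B x)) :=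
  PT.nadd (PT.length (pt_rest hL hB)) (PT.length (pt_rest hB hL))

theorem pt_isProg (hA : PT A) (hB : PT B) (hi : PT i) (hu : PT up) (hL : PT L) (hL' : PT L') :
    PT (fun x => isProg (A x) (B x) (i x) (up x) (L x) (L' x)) :=
  PT.band
    (PT.any (pt_vts hA hB hi) (p := fun y : ι × ℕ => eqDef (A y.1) (B y.1) (i y.1) (up y.1) (L' y.1) y.2)
      (pt_eqDef (hA.comp PT.fst) (hB.comp PT.fst) (hi.comp PT.fst) (hu.comp PT.fst)
          (hL'.comp PT.fst) PT.snd))
    (PT.nlt (pt_distL hL' hB) (pt_distL hL hB))

theorem pt_le2 {W : ι → List ℕ} (hW : PT W) (hL : PT L) : PT (fun x => le2 (W x) (L x)) :=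
  PT.all hW (p := fun y : ι × ℕ => decide (degL (L y.1) y.2 ≤ 2))
    (PT.nle (pt_degL (hL.comp PT.fst) PT.snd) (PT.const 2))

theorem pt_isVal {FS : ι → List Sq4} (hF : PT FS) (hA : PT A) (hB : PT B) (hi : PT i) (hu : PT up)
    (hL : PT L) (hL' : PT L') :
    PT (fun x => isVal (FS x) (A x) (B x) (i x) (up x) (L x) (L' x)) :=
  PT.band (pt_le2 (pt_ends hL') hL') (PT.band (pt_freeL hF hL')
    (PT.bor (pt_isFin hA hB hi hu hL') (pt_isProg hA hB hi hu hL hL')))

theorem pt_opts (hL : PT L) : PT (fun x => opts (L x)) :=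
  PT.cons (PT.const []) (PT.map hL (g := fun y : ι × Ed => [y.2]) (PT.cons PT.snd (PT.const [])))

theorem pt_stI (hL : PT L) (hB : PT B) : PT (fun x => stI (L x) (B x)) :=
  PT.map hB (g := fun y : ι × Ed => insE (L y.1) y.2) (pt_insE (hL.comp PT.fst) PT.snd)

theorem pt_stD {Ls O : ι → List (List Ed)} (hL : PT Ls) (hO : PT O) : PT (fun x => stD (Ls x) (O x)) :=
  PT.flatMap hL (g := fun y : ι × List Ed => (O y.1).map fun o => rest y.2 o)
    (PT.map (hO.comp PT.fst) (g := fun z : (ι × List Ed) × List Ed => rest z.1.2 z.2)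
      (pt_rest (PT.snd.comp PT.fst) PT.snd))

theorem pt_stU {Ls O : ι → List (List Ed)} (hL : PT Ls) (hO : PT O) : PT (fun x => stU (Ls x) (O x)) :=
  PT.flatMap hL (g := fun y : ι × List Ed => (O y.1).map fun o => uni y.2 o)
    (PT.map (hO.comp PT.fst) (g := fun z : (ι × List Ed) × List Ed => uni z.1.2 z.2)
      (pt_uni (PT.snd.comp PT.fst) PT.snd))

theorem pt_cand (hL : PT L) (hB : PT B) : PT (fun x => cand (L x) (B x)) :=
  pt_stD (pt_stU (pt_stD (pt_stI hL hB) (pt_opts (PT.append hL hB))) (pt_opts hB))
    (pt_opts (PT.append hL hB))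

theorem pt_xstep {FS : ι → List Sq4} (hF : PT FS) (hA : PT A) (hB : PT B) (hi : PT i) (hu : PT up)
    (hL : PT L) : PT (fun x => xstep (FS x) (A x) (B x) (i x) (up x) (L x)) :=
  PT.cond (pt_isFin hA hB hi hu hL) hL (pt_norm (pt_uni hA hB)
    (pt_findD (p := fun y : ι × List Ed => isVal (FS y.1) (A y.1) (B y.1) (i y.1) (up y.1) (L y.1) y.2)
      (pt_isVal (hF.comp PT.fst) (hA.comp PT.fst) (hB.comp PT.fst) (hi.comp PT.fst) (hu.comp PT.fst)
        (hL.comp PT.fst) PT.snd) (pt_cand hL hB) hL))

theorem pt_xinit (hA : PT A) (hB : PT B) (hi : PT i) (hu : PT up) :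
    PT (fun x => xinit (A x) (B x) (i x) (up x)) :=
  PT.cond hu hA (pt_ersE hA (pt_findD (p := fun y : ι × Ed => inc (i y.1) y.2 && !hasE (B y.1) y.2)
    (PT.band (pt_inc (hi.comp PT.fst) PT.snd) (PT.bnot (pt_hasE (hB.comp PT.fst) PT.snd)))
    hA (PT.const (0, 0))))

theorem tsize_filter_le {β : Type} [DEnc β] (l : List β) (p : β → Bool) : tsize (l.filter p) ≤ tsize l := by
  induction l with
  | nil => exact le_rfl
  | cons b u ih =>
    rw [List.filter_cons]
    split_ifs <;> simp only [tsize_cons] <;> omega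

theorem tsize_xstep_le (FS : List Sq4) (A B : List Ed) (i : ℕ) (up : Bool) (L : List Ed) (T : ℕ)
    (h : tsize L ≤ T) (h' : tsize (uni A B) ≤ T) : tsize (xstep FS A B i up L) ≤ T := by
  unfold xstep
  cases isFin A B i up L with
  | true => exact h
  | false => exact (tsize_filter_le _ _).trans h'

/-- **The exchange is a polynomial time function.** -/
theorem pt_exch {FS : ι → List Sq4} (hF : PT FS) (hA : PT A) (hB : PT B) (hi : PT i) (hu : PT up) :
    PT (fun x => exch (FS x) (A x) (B x) (i x) (up x)) := by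
  -- state: (parameters, current list)
  let stp : ι × List Ed → ι × List Ed := fun s =>
    (s.1, xstep (FS s.1) (A s.1) (B s.1) (i s.1) (up s.1) s.2)
  have hstp : PT stp := PT.pair PT.fst (pt_xstep (hF.comp PT.fst) (hA.comp PT.fst) (hB.comp PT.fst)
    (hi.comp PT.fst) (hu.comp PT.fst) PT.snd)
  have hit : ∀ (k : ℕ) (x : ι) (L : List Ed), stp^[k] (x, L) =
      (x, (xstep (FS x) (A x) (B x) (i x) (up x))^[k] L) := by
    intro k
    induction k with
    | zero => intro x L; rfl
    | succ k ih => intro x L; rw [Function.iterate_succ_apply, Function.iterate_succ_apply, ← ih x]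
  have hc : PT (fun x => (A x).length + (B x).length + 1) :=
    PT.nadd (PT.nadd (PT.length hA) (PT.length hB)) (PT.const 1)
  have hsz : ∀ (x : ι) (k : ℕ), tsize ((xstep (FS x) (A x) (B x) (i x) (up x))^[k]
      (xinit (A x) (B x) (i x) (up x))) ≤ tsize (xinit (A x) (B x) (i x) (up x)) +
        tsize (uni (A x) (B x)) := by
    intro x k
    induction k with
    | zero => exact Nat.le_add_right _ _
    | succ k ih =>
      rw [Function.iterate_succ_apply']
      exact tsize_xstep_le _ _ _ _ _ _ _ ih (Nat.le_add_left _ _)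
  have h := PT.iterateNat hc (init := fun x => (x, xinit (A x) (B x) (i x) (up x)))
    (PT.pair PT.id (pt_xinit hA hB hi hu)) hstp
    ⟨fun x => tsize x + (tsize (xinit (A x) (B x) (i x) (up x)) + tsize (uni (A x) (B x))) + 1,
      (PB.tsize.add ((pt_xinit hA hB hi hu).size.add (pt_uni hA hB).size)).add (PB.const 1), by
        intro x k _
        have h1 := hsz x k
        have h2 : tsize (stp^[k] (x, xinit (A x) (B x) (i x) (up x))) = tsize x +
            tsize ((xstep (FS x) (A x) (B x) (i x) (up x))^[k] (xinit (A x) (B x) (i x) (up x))) + 1 := by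
          rw [hit]; exact tsize_pair _ _
        beta_reduce
        omega⟩
  refine (PT.p2 h).congr fun x => ?_
  rw [hit]
  rfl

end

end Pool.Agent.PF4

end

section -- file PF4/Pool

/-!
Pools of 2-matchings, closed under the exchange a constant number of times.
-/

set_option autoImplicit false

namespace Pool.Agent.PF4

open Finset Pool.Agent.TFC Pool.Agent.Lib.helper60

/-- a 2-matching without squares from `FS` -/
structure GM (FS : List Sq4) (x : List Ed) : Prop where
  wf : WF x
  m2 : M2 (fs x)
  gd : Good (alF FS) (fs x)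

/-- exchange, if possible -/
def exch1 (FS : List Sq4) (x y : List Ed) (i : ℕ) (up : Bool) : List (List Ed) :=
  bif (bif up then decide (degL x i < degL y i) else decide (degL y i < degL x i)) then
    [exch FS x y i up] else []

/-- one round of exchanges -/
def rnd (FS : List Sq4) (V : List ℕ) (P : List (List Ed)) : List (List Ed) :=
  P ++ P.flatMap fun x => P.flatMap fun y => V.flatMap fun i =>
    exch1 FS x y i true ++ exch1 FS x y i false

/-- the pool after `k` rounds -/
def pool (FS : List Sq4) (V : List ℕ) (P : List (List Ed)) (k : ℕ) : List (List Ed) :=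
  (rnd FS V)^[k] P

/-- `z` is a result of the two-step exchange from `x` towards `y` with first step `ε e_i` -/
def Two (x y z : ℕ → ℤ) (i : ℕ) (ε : ℤ) : Prop :=
  ∃ (j : ℕ) (δ : ℤ), (δ = 1 ∨ δ = -1) ∧ 0 < δ * (y j - (x + Pi.single i ε : ℕ → ℤ) j) ∧
    z = x + Pi.single i ε + Pi.single j δ

theorem sgn_or (up : Bool) : sgn up = 1 ∨ sgn up = -1 := by
  cases up <;> simp [sgn]

theorem XH.mk' {FS : List Sq4} {x y : List Ed} {i : ℕ} {up : Bool} (ok : ∀ q ∈ FS, SqOK q)
    (hx : GM FS x) (hy : GM FS y) (h : 0 < sgn up * (dv (fs y) i - dv (fs x) i)) :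
    XH FS x y i up := ⟨ok, hx.wf, hy.wf, hx.m2, hy.m2, hx.gd, hy.gd, h⟩

/-- the result of the exchange -/
theorem exch_GM {FS : List Sq4} {x y : List Ed} {i : ℕ} {up : Bool} (ok : ∀ q ∈ FS, SqOK q)
    (hx : GM FS x) (hy : GM FS y) (h : 0 < sgn up * (dv (fs y) i - dv (fs x) i)) :
    GM FS (exch FS x y i up) ∧ fs (exch FS x y i up) ⊆ fs x ∪ fs y ∧
      Two (dv (fs x)) (dv (fs y)) (dv (fs (exch FS x y i up))) i (sgn up) := by
  obtain ⟨h1, h2, h3, h4, h5⟩ := exch_spec (XH.mk' ok hx hy h)
  exact ⟨⟨h1, h3, h4⟩, h2, h5⟩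

/-- every coordinate of the result lies between those of `x` and `y` -/
theorem Two.between {x y z : ℕ → ℤ} {i : ℕ} {ε : ℤ} (hε : ε = 1 ∨ ε = -1) (h0 : 0 < ε * (y i - x i))
    (h : Two x y z i ε) (v : ℕ) : min (x v) (y v) ≤ z v ∧ z v ≤ max (x v) (y v) := by
  obtain ⟨j, δ, hδ, h1, rfl⟩ := h
  have e1 : (x + Pi.single i ε + Pi.single j δ : ℕ → ℤ) v =
      x v + (if v = i then ε else 0) + (if v = j then δ else 0) := by
    simp only [Pi.add_apply, Pi.single_apply]
  have e2 : (x + Pi.single i ε : ℕ → ℤ) j = x j + (if j = i then ε else 0) := by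
    simp only [Pi.add_apply, Pi.single_apply]
  rw [e2] at h1
  rw [e1]
  by_cases hvi : v = i
  · subst hvi
    by_cases hvj : v = j
    · subst hvj
      simp only [if_true] at h1 ⊢
      rcases hε with rfl | rfl <;> rcases hδ with rfl | rfl <;> omega
    · rw [if_neg hvj, if_pos rfl]
      rcases hε with rfl | rfl <;> omega
  · by_cases hvj : v = j
    · subst hvj
      rw [if_neg hvi] at h1
      rw [if_neg hvi, if_pos rfl]
      rcases hδ with rfl | rfl <;> omega
    · rw [if_neg hvi, if_neg hvj]
      omega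

section
variable {FS : List Sq4} {V : List ℕ} {P : List (List Ed)}

end

/-! ### polynomial time -/

section
variable {ι : Type} [DEnc ι]

end

end Pool.Agent.PF4

end

section -- file PF4/XI

/-!
Interfaces for the lemma on two conflicting squares (`xf1`).

`XD` = the data of one call: real vertices `< n`, edges `E` (the union of `F`, of the near covers and of the two squares),
`T` the vertices of demand 2 (the other real vertices are free), `En` the near edges, `E2` the edges which may be deleted
and added, `V2` the vertices where the demand may be open.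

Vectors are DEMAND vectors `k`: `k v` = what a completion has to supply at `v`; the coordinate `n` is the parity token.
A completion of a vector `k` with `k n = 0` is an edge set `K` with `dv K = k`.
-/

set_option autoImplicit false

namespace Pool.Agent.PF4.XF

open Finset Pool.Agent.TFC

/-- the data of one call -/
structure XD where
  n : ℕ
  E : Finset (Sym2 ℕ)
  T : Finset ℕ
  En : Finset (Sym2 ℕ)
  E2 : Finset (Sym2 ℕ)
  V2 : Finset ℕ

/-- `Z` is a harmful square: two opposite corners in `T` -/
def Hs (T : Finset ℕ) (Z : Finset (Sym2 ℕ)) : Prop :=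
  ∃ a b c d, Dist4 a b c d ∧ Z = TFC.sq a b c d ∧ a ∈ T ∧ c ∈ T

/-- well-formed data -/
structure XD.OK (X : XD) : Prop where
  lt : ∀ e ∈ X.E, ∀ v ∈ e, v < X.n
  nl : NoLoop X.E
  e1 : X.En ⊆ X.E2
  e2 : X.E2 ⊆ X.E
  tn : ∀ v ∈ X.T, v < X.n
  vn : ∀ v ∈ X.V2, v < X.n
  ev : ∀ e ∈ X.E2, ∀ v ∈ e, v ∈ X.V2
  near : ∀ Z, Hs X.T Z → Z ⊆ X.E → (∃ e ∈ Z, e ∈ X.En) → Z ⊆ X.E2

/-- the demand vector `k` fits the outer part `O` (a 2-matching): exact at `T`, at a free vertex at most the capacity, `0` off
`V2`, parity token `k n` in `{0, 1}`, even sum, nothing above `n` -/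
structure FitK (X : XD) (O : Finset (Sym2 ℕ)) (k : ℕ → ℤ) : Prop where
  t : ∀ v ∈ X.T, k v = 2 - dv O v
  f : ∀ v < X.n, v ∉ X.T → 0 ≤ k v ∧ k v ≤ 2 - dv O v
  off : ∀ v < X.n, v ∉ X.V2 → k v = 0
  tok : k X.n = 0 ∨ k X.n = 1
  par : Even (∑ v ∈ Finset.range (X.n + 1), k v)
  up : ∀ v, X.n < v → k v = 0

/-- `L` covers the demand -/
def Cv (X : XD) (L : Finset (Sym2 ℕ)) : Prop := ∀ v ∈ X.T, dg L v = 2

/-- **the staged pool**: `P t L` = the 2-matching `L` is in the pool after `t` rounds -/
structure XP (X : XD) (P : ℕ → Finset (Sym2 ℕ) → Prop) : Prop where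
  mono : ∀ t L, P t L → P (t + 1) L
  m2 : ∀ t L, P t L → M2 L ∧ L ⊆ X.E
  del : ∀ t L H, P t L → H ⊆ X.E2 → P (t + 1) (L \ H)
  add : ∀ t L K, P t L → K ⊆ X.E2 → M2 (L ∪ K) →
    (∀ Z, Hs X.T Z → Z ⊆ L ∪ K → Z ⊆ L ∨ ∃ e ∈ Z, e ∈ X.En) → P (t + 1) (L ∪ K)
  ex : ∀ t L L' k k', P t L → P t L' → FitK X L k → FitK X L' k' → ∀ (i : ℕ) (ε : ℤ),
    (i ∈ X.V2 ∨ i = X.n) → (ε = 1 ∨ ε = -1) → 0 < ε * (k' i - k i) →
    ∃ L'' k'', P (t + 1) L'' ∧ FitK X L'' k'' ∧ L'' ⊆ L ∪ L' ∧
      (∀ Z, IsSq Z → Z ⊆ L'' → Z ⊆ L ∨ Z ⊆ L') ∧ Two k k' k'' i ε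

/-- **a minimal blocking family, relative to the pool** -/
structure Blk (X : XD) (P : ℕ → Finset (Sym2 ℕ) → Prop) (D : Finset (Finset (Sym2 ℕ))) (j m : ℕ) : Prop where
  hs : ∀ Z ∈ D, Hs X.T Z ∧ Z ⊆ X.E2
  blk : ∀ t ≤ j + m, ∀ L, P t L → Cv X L → ∃ Z ∈ D, Z ⊆ L
  wit : ∀ Z ∈ D, ∃ L, P j L ∧ Cv X L ∧ Z ⊆ L ∧ ∀ Z' ∈ D, Z' ⊆ L → Z' = Z

/-- **one world at one cluster** (or at a union of clusters): `C` the edges of the cluster, `ER` extra edges (not in `C`),
`PL` those extra edges which are in no square of `D`, `DC` the squares of `D` in `C`, `H t k` = the demand vector `k` is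
available at stage `t` (there is an outer part without edge of `C` and `ER` and without square of `D`, which `k` fits). At most
`m` stages may be used. -/
structure World (n : ℕ) (T V2 : Finset ℕ) (C ER PL : Finset (Sym2 ℕ)) (DC : Finset (Finset (Sym2 ℕ))) (m : ℕ)
    (H : ℕ → (ℕ → ℤ) → Prop) : Prop where
  mono : ∀ t k, H t k → H (t + 1) k
  rg : ∀ t k, H t k → ∀ v < n, 0 ≤ k v ∧ k v ≤ 2
  off : ∀ t k, H t k → ∀ v < n, v ∉ V2 → k v = 0
  tok : ∀ t k, H t k → k n = 0 ∨ k n = 1
  up : ∀ t k, H t k → ∀ v, n < v → k v = 0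
  par : ∀ t k, H t k → Even (∑ v ∈ Finset.range (n + 1), k v)
  /-- at a free vertex the demand may be lowered, the parity token is changed accordingly -/
  dn : ∀ t k k', H t k → (∀ v < n, v ∈ T → k' v = k v) → (∀ v < n, v ∉ T → 0 ≤ k' v ∧ k' v ≤ k v) →
    (k' n = 0 ∨ k' n = 1) → Even (∑ v ∈ Finset.range (n + 1), k' v) → (∀ v, n < v → k' v = 0) → H t k'
  /-- two-step exchange -/
  ex : ∀ t k k' (i : ℕ) (ε : ℤ), H t k → H t k' → (i ∈ V2 ∨ i = n) → (ε = 1 ∨ ε = -1) →
    0 < ε * (k' i - k i) → ∃ k'', H (t + 1) k'' ∧ Two k k' k'' i ε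
  /-- there is no completion without square of `D`; an edge `e` of the completion outside `C` must be plain or have an end in
  the part of the completion in `C` (then a square of `D` through `e` would contain an edge of `C`) -/
  blk : ∀ t ≤ m, ∀ k, H t k → ∀ K ⊆ C ∪ ER, M2 K → (∀ Z ∈ DC, ¬ Z ⊆ K) →
    (∀ e ∈ K, e ∉ C → e ∈ PL ∨ ∃ y ∈ e, 1 ≤ dg (K ∩ C) y) → dv K ≠ k

/-- availability of a demand vector -/
def Av (X : XD) (P : ℕ → Finset (Sym2 ℕ) → Prop) (D : Finset (Finset (Sym2 ℕ))) (j : ℕ)
    (C : Finset (Sym2 ℕ)) (t : ℕ) (k : ℕ → ℤ) : Prop :=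
  ∃ O, P (j + t) O ∧ Disjoint O C ∧ (∀ Z ∈ D, ¬ Z ⊆ O) ∧ FitK X O k

end Pool.Agent.PF4.XF

end
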