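import Pool.Agent.PFM.M01

section -- file TFC/CE0

/-!
Preparations for the conflict elimination theorem.
-/

set_option autoImplicit false
set_option linter.unusedSectionVars false

namespace Pool.Agent.TFC

open Finset

variable {V : Type*} [DecidableEq V]

/-- the vector of an edge -/
def esum : Sym2 V → (V → ℤ) := Sym2.lift ⟨fun a b => ev a + ev b, fun _ _ => add_comm _ _⟩

@[simp] lemma esum_mk (a b : V) : esum s(a, b) = ev a + ev b := rfl

lemma dv_empty : dv (∅ : Finset (Sym2 V)) = 0 := by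
  funext v; simp [dv, dg]

lemma dv_eq_sum {z : Finset (Sym2 V)} (hz : NoLoop z) : dv z = ∑ e ∈ z, esum e := by
  induction z using Finset.induction_on with
  | empty => simp [dv_empty]
  | insert e z he ih =>
    induction e using Sym2.ind with
    | _ a b =>
      have hab : a ≠ b := hz.ne (mem_insert_self _ _)
      rw [dv_insert hab he, sum_insert he, ih (hz.mono (subset_insert _ _)), esum_mk]
      abel

/-- degree vector of an explicit list of edges -/
lemma dv_list {l : List (Sym2 V)} (hn : l.Nodup) (hl : ∀ e ∈ l, ¬ e.IsDiag) :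
    dv l.toFinset = (l.map esum).sum := by
  have h : NoLoop l.toFinset := fun e he => hl e (List.mem_toFinset.mp he)
  rw [dv_eq_sum h, List.sum_toFinset _ hn]

lemma dv_union {z w : Finset (Sym2 V)} (hz : NoLoop z) (hw : NoLoop w) (h : Disjoint z w) :
    dv (z ∪ w) = dv z + dv w := by
  have hzw : NoLoop (z ∪ w) := by
    intro e he
    rcases mem_union.mp he with h | h
    · exact hz e h
    · exact hw e h
  rw [dv_eq_sum hzw, sum_union h, ← dv_eq_sum hz, ← dv_eq_sum hw]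

/-- the vertex set of a square is closed under adjacency -/
lemma Sq.closed {M : Finset (Sym2 V)} (hM : M2 M) {a b c d u w : V} (h : Sq M a b c d)
    (hu : u = a ∨ u = b ∨ u = c ∨ u = d) (huw : s(u, w) ∈ M) : w = a ∨ w = b ∨ w = c ∨ w = d := by
  rcases hu with rfl | rfl | rfl | rfl
  · rcases nbr_two (hM.le u) h.ab (msw h.da) h.bd huw with h | h <;> simp [h]
  · rcases nbr_two (hM.le u) h.bc (msw h.ab) h.ac.symm huw with h | h <;> simp [h]
  · rcases nbr_two (hM.le u) h.cd (msw h.bc) h.bd.symm huw with h | h <;> simp [h]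
  · rcases nbr_two (hM.le u) h.da (msw h.cd) h.ac huw with h | h <;> simp [h]

/-- each vertex of a square has two neighbours among its vertices -/
lemma Sq.two_nbrs {M : Finset (Sym2 V)} {a b c d u : V} (h : Sq M a b c d)
    (hu : u = a ∨ u = b ∨ u = c ∨ u = d) : ∃ v w, v ≠ w ∧ s(u, v) ∈ M ∧ s(u, w) ∈ M ∧
      (v = a ∨ v = b ∨ v = c ∨ v = d) ∧ (w = a ∨ w = b ∨ w = c ∨ w = d) := by
  rcases hu with rfl | rfl | rfl | rfl
  · exact ⟨b, d, h.bd, h.ab, msw h.da, by simp, by simp⟩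
  · exact ⟨c, a, h.ac.symm, h.bc, msw h.ab, by simp, by simp⟩
  · exact ⟨d, b, h.bd.symm, h.cd, msw h.bc, by simp, by simp⟩
  · exact ⟨a, c, h.ac, h.da, msw h.cd, by simp, by simp⟩

/-- five different vertices do not fit in four places -/
lemma five_false {a b c d : V} {v : Fin 5 → V} (hv : Function.Injective v)
    (h : ∀ i, v i = a ∨ v i = b ∨ v i = c ∨ v i = d) : False := by
  have h1 : (Finset.univ.image v) ⊆ ({a, b, c, d} : Finset V) := by
    intro u hu
    obtain ⟨i, -, rfl⟩ := mem_image.mp hu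
    simpa using h i
  have h2 := card_le_card h1
  rw [card_image_of_injective _ hv] at h2
  have h3 : #({a, b, c, d} : Finset V) ≤ 4 := by
    refine (card_insert_le _ _).trans ?_
    have := (card_insert_le b ({c, d} : Finset V))
    have := (card_insert_le c ({d} : Finset V))
    simp at *
    omega
  simp at h2
  omega

/-- a connected part with five vertices is disjoint from all squares -/
lemma fin5 {M P : Finset (Sym2 V)} (hM : M2 M) {v : Fin 5 → V} (hv : Function.Injective v)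
    (h01 : s(v 0, v 1) ∈ M) (h12 : s(v 1, v 2) ∈ M) (h23 : s(v 2, v 3) ∈ M)
    (h34 : s(v 3, v 4) ∈ M) (hcov : ∀ e ∈ P, ∃ i, v i ∈ e) :
    ∀ a b c d, Sq M a b c d → s(a, b) ∉ P := by
  intro a b c d hs hab
  obtain ⟨i, hi⟩ := hcov _ hab
  let I : V → Prop := fun u => u = a ∨ u = b ∨ u = c ∨ u = d
  have hcl : ∀ u w, I u → s(u, w) ∈ M → I w := fun u w hu huw => hs.closed hM hu huw
  have hi' : I (v i) := by
    rcases Sym2.mem_iff.mp hi with h | h
    · exact Or.inl h
    · exact Or.inr (Or.inl h)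
  have e01 : I (v 0) ↔ I (v 1) := ⟨fun h => hcl _ _ h h01, fun h => hcl _ _ h (msw h01)⟩
  have e12 : I (v 1) ↔ I (v 2) := ⟨fun h => hcl _ _ h h12, fun h => hcl _ _ h (msw h12)⟩
  have e23 : I (v 2) ↔ I (v 3) := ⟨fun h => hcl _ _ h h23, fun h => hcl _ _ h (msw h23)⟩
  have e34 : I (v 3) ↔ I (v 4) := ⟨fun h => hcl _ _ h h34, fun h => hcl _ _ h (msw h34)⟩
  refine five_false hv (a := a) (b := b) (c := c) (d := d) fun j => ?_
  change I (v j)
  fin_cases i <;> fin_cases j <;> simp_all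

/-- four different vertices and a fifth one do not fit in four places -/
lemma four_mem {a b c d u : V} {v : Fin 4 → V} (hv : Function.Injective v)
    (h : ∀ i, v i = a ∨ v i = b ∨ v i = c ∨ v i = d) (hu : u = a ∨ u = b ∨ u = c ∨ u = d) :
    ∃ i, u = v i := by
  by_contra hc
  push Not at hc
  refine five_false (v := Fin.cons u v) (a := a) (b := b) (c := c) (d := d) ?_ ?_
  · rw [Fin.cons_injective_iff]
    refine ⟨?_, hv⟩
    rintro ⟨i, hi⟩
    exact hc i hi.symm
  · intro i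
    refine Fin.cases ?_ (fun j => ?_) i
    · simpa using hu
    · simpa using h j

/-- a path with four vertices whose ends are not adjacent is disjoint from all squares -/
lemma fin4 {M P : Finset (Sym2 V)} (hM : M2 M) {v : Fin 4 → V} (hv : Function.Injective v)
    (h01 : s(v 0, v 1) ∈ M) (h12 : s(v 1, v 2) ∈ M) (h23 : s(v 2, v 3) ∈ M)
    (h03 : s(v 0, v 3) ∉ M) (hcov : ∀ e ∈ P, ∃ i, v i ∈ e) :
    ∀ a b c d, Sq M a b c d → s(a, b) ∉ P := by
  intro a b c d hs hab
  obtain ⟨i, hi⟩ := hcov _ hab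
  let I : V → Prop := fun u => u = a ∨ u = b ∨ u = c ∨ u = d
  have hcl : ∀ u w, I u → s(u, w) ∈ M → I w := fun u w hu huw => hs.closed hM hu huw
  have hi' : I (v i) := by
    rcases Sym2.mem_iff.mp hi with h | h
    · exact Or.inl h
    · exact Or.inr (Or.inl h)
  have e01 : I (v 0) ↔ I (v 1) := ⟨fun h => hcl _ _ h h01, fun h => hcl _ _ h (msw h01)⟩
  have e12 : I (v 1) ↔ I (v 2) := ⟨fun h => hcl _ _ h h12, fun h => hcl _ _ h (msw h12)⟩
  have e23 : I (v 2) ↔ I (v 3) := ⟨fun h => hcl _ _ h h23, fun h => hcl _ _ h (msw h23)⟩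
  have hall : ∀ j, I (v j) := by
    intro j
    fin_cases i <;> fin_cases j <;> simp_all
  obtain ⟨u, w, huw, hu1, hw1, hu2, hw2⟩ := hs.two_nbrs (hall 0)
  have key : ∀ u, s(v 0, u) ∈ M → (u = a ∨ u = b ∨ u = c ∨ u = d) → u = v 1 := by
    intro u h1 h2
    obtain ⟨j, rfl⟩ := four_mem hv hall h2
    fin_cases j
    · exact absurd rfl (hM.nl.ne h1)
    · rfl
    · exfalso
      have h3 : v 0 = v 1 ∨ v 0 = v 3 :=
        nbr_two (hM.le (v 2)) (msw h12) h23 (hv.ne (by decide)) (msw h1)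
      rcases h3 with h3 | h3
      · exact hv.ne (by decide) h3
      · exact hv.ne (by decide) h3
    · exact absurd h1 h03
  exact huw ((key u hu1 hu2).trans (key w hw1 hw2).symm)

/-- the vertex of a square opposite to `u` -/
lemma Sq.opp {M : Finset (Sym2 V)} (hM : M2 M) {a b c d u v w : V} (h : Sq M a b c d)
    (hu : u = a ∨ u = b ∨ u = c ∨ u = d) (h1 : s(u, v) ∈ M) (h2 : s(u, w) ∈ M) (hvw : v ≠ w) :
    ∃ m, m ≠ u ∧ s(v, m) ∈ M ∧ s(w, m) ∈ M := by
  have key : ∀ a b c d, Sq M a b c d → u = a → ∃ m, m ≠ u ∧ s(v, m) ∈ M ∧ s(w, m) ∈ M := by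
    rintro a b c d h rfl
    have e1 := nbr_two (hM.le u) h.ab (msw h.da) h.bd h1
    have e2 := nbr_two (hM.le u) h.ab (msw h.da) h.bd h2
    rcases e1 with rfl | rfl <;> rcases e2 with rfl | rfl
    · exact absurd rfl hvw
    · exact ⟨c, h.ac.symm, h.bc, msw h.cd⟩
    · exact ⟨c, h.ac.symm, msw h.cd, h.bc⟩
    · exact absurd rfl hvw
  rcases hu with hu | hu | hu | hu
  · exact key _ _ _ _ h hu
  · exact key _ _ _ _ h.rot hu
  · exact key _ _ _ _ h.rot.rot hu
  · exact key _ _ _ _ h.rot.rot.rot hu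

lemma sq_mem_of_subset {Z M : Finset (Sym2 V)} {a b c d : V} (h4 : Dist4 a b c d)
    (hZ : Z = sq a b c d) (h : Z ⊆ M) : Sq M a b c d := by
  subst hZ
  obtain ⟨hab, hac, had, hbc, hbd, hcd⟩ := h4
  refine ⟨hac, hbd, h ?_, h ?_, h ?_, h ?_⟩ <;> simp [sq]

lemma Sq.subset {M : Finset (Sym2 V)} {a b c d : V} (h : Sq M a b c d) : sq a b c d ⊆ M := by
  intro e he
  simp only [sq, mem_insert, mem_singleton] at he
  rcases he with rfl | rfl | rfl | rfl
  · exact h.ab
  · exact h.bc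
  · exact h.cd
  · exact h.da

/-- the allowed squares: those of `F` or of `N` -/
def alFN (F N : Finset (Sym2 V)) : V → V → V → V → Prop := fun a b c d =>
  Sq F a b c d ∨ Sq N a b c d

/-- the conclusion of conflict elimination -/
def CEConc (F N Q R : Finset (Sym2 V)) : Prop :=
  ∃ M ⊆ F ∪ N, TF M ∧ ¬ Q ⊆ M ∧ ¬ R ⊆ M ∧ ∀ Z, IsSq Z → Z ⊆ M → Z ⊆ F ∨ Z ⊆ N

/-- writing a square with a given edge first -/
lemma isSq_first {Q : Finset (Sym2 V)} (hQ : IsSq Q) {x y : V} (he : s(x, y) ∈ Q) :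
    ∃ q p, Dist4 x y q p ∧ Q = sq x y q p := by
  obtain ⟨a, b, c, d, ⟨hab, hac, had, hbc, hbd, hcd⟩, rfl⟩ := hQ
  simp only [sq, mem_insert, mem_singleton, Sym2.eq_iff] at he
  rcases he with (⟨rfl, rfl⟩ | ⟨rfl, rfl⟩) | (⟨rfl, rfl⟩ | ⟨rfl, rfl⟩) | (⟨rfl, rfl⟩ | ⟨rfl, rfl⟩) |
    (⟨rfl, rfl⟩ | ⟨rfl, rfl⟩)
  · exact ⟨c, d, ⟨hab, hac, had, hbc, hbd, hcd⟩, rfl⟩
  · refine ⟨d, c, ⟨hab.symm, hbd, hbc, had, hac, hcd.symm⟩, ?_⟩
    ext e
    simp only [sq, mem_insert, mem_singleton]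
    rw [Sym2.eq_swap (a := x) (b := y), Sym2.eq_swap (a := y) (b := d), Sym2.eq_swap (a := d) (b := c),
      Sym2.eq_swap (a := c) (b := x)]
    tauto
  · refine ⟨d, a, ⟨hbc, hbd, hab.symm, hcd, hac.symm, had.symm⟩, ?_⟩
    ext e
    simp only [sq, mem_insert, mem_singleton]
    tauto
  · refine ⟨a, d, ⟨hbc.symm, hac.symm, hcd, hab.symm, hbd, had⟩, ?_⟩
    ext e
    simp only [sq, mem_insert, mem_singleton]
    rw [Sym2.eq_swap (a := x) (b := y), Sym2.eq_swap (a := y) (b := a), Sym2.eq_swap (a := a) (b := d),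
      Sym2.eq_swap (a := d) (b := x)]
    tauto
  · refine ⟨a, b, ⟨hcd, hac.symm, hbc.symm, had.symm, hbd.symm, hab⟩, ?_⟩
    ext e
    simp only [sq, mem_insert, mem_singleton]
    tauto
  · refine ⟨b, a, ⟨hcd.symm, hbd.symm, had.symm, hbc.symm, hac.symm, hab.symm⟩, ?_⟩
    ext e
    simp only [sq, mem_insert, mem_singleton]
    rw [Sym2.eq_swap (a := x) (b := y), Sym2.eq_swap (a := y) (b := b), Sym2.eq_swap (a := b) (b := a),
      Sym2.eq_swap (a := a) (b := x)]
    tauto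
  · refine ⟨b, c, ⟨had.symm, hbd.symm, hcd.symm, hab, hac, hbc⟩, ?_⟩
    ext e
    simp only [sq, mem_insert, mem_singleton]
    tauto
  · refine ⟨c, b, ⟨had, hac, hab, hcd.symm, hbd.symm, hbc.symm⟩, ?_⟩
    ext e
    simp only [sq, mem_insert, mem_singleton]
    rw [Sym2.eq_swap (a := x) (b := y), Sym2.eq_swap (a := y) (b := c), Sym2.eq_swap (a := c) (b := b),
      Sym2.eq_swap (a := b) (b := x)]
    tauto

end Pool.Agent.TFC

end
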