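import Pool.Agent.PFM.M03
import Pool.Agent.PFM.M04

section -- file TFC/CE

/-!
Conflict elimination: two 2-factors with squares sharing exactly one edge.
-/

set_option autoImplicit false
set_option linter.unusedSectionVars false
set_option linter.unusedSimpArgs false
set_option linter.unusedTactic false

namespace Pool.Agent.TFC.CE

open Finset

variable {V : Type*} [DecidableEq V]

lemma put4 (f : Fin 4 → V) (k : Fin 4 → ℤ) (v : V) :
    put f k v = k 0 * ev (f 0) v + k 1 * ev (f 1) v + k 2 * ev (f 2) v + k 3 * ev (f 3) v := by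
  have h : ∀ i, (if f i = v then k i else 0) = k i * ev (f i) v := by
    intro i
    rw [ev_apply]
    by_cases hv : f i = v
    · simp [hv]
    · rw [if_neg hv, if_neg (fun h => hv h.symm)]; simp
  simp only [put, h, Fin.sum_univ_four]

/-- six different vertices -/
structure Six (x y p q r t : V) : Prop where
  xy : x ≠ y
  xp : x ≠ p
  xq : x ≠ q
  xr : x ≠ r
  xt : x ≠ t
  yp : y ≠ p
  yq : y ≠ q
  yr : y ≠ r
  yt : y ≠ t
  pq : p ≠ q
  pr : p ≠ r
  pt : p ≠ t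
  qr : q ≠ r
  qt : q ≠ t
  rt : r ≠ t

section six

variable {F N : Finset (Sym2 V)} {x y p q r t : V}

/-- the data used for a completion -/
structure Dat (F N : Finset (Sym2 V)) (x y p q r t : V) : Prop where
  hF : TF F
  hN : TF N
  six : Six x y p q r t
  hQF : sq x y q p ⊆ F
  hRN : sq x y r t ⊆ N

/-- outer part with given degrees at `p, q, r, t` -/
def Outer (F N : Finset (Sym2 V)) (x y p q r t : V) (k : Fin 4 → ℤ) : Prop :=
  ∃ O ⊆ (F ∪ N) \ (sq x y q p ∪ sq x y r t), Good (alFN F N) O ∧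
    ∀ v, dv O v = 2 - 2 * ev x v - 2 * ev y v + (k 0 - 2) * ev p v + (k 1 - 2) * ev q v +
      (k 2 - 2) * ev r v + (k 3 - 2) * ev t v

lemma Six.all (h : Six x y p q r t) :
    (x ≠ y ∧ x ≠ p ∧ x ≠ q ∧ x ≠ r ∧ x ≠ t ∧ y ≠ p ∧ y ≠ q ∧ y ≠ r ∧ y ≠ t ∧ p ≠ q ∧ p ≠ r ∧ p ≠ t ∧
      q ≠ r ∧ q ≠ t ∧ r ≠ t) ∧
    (y ≠ x ∧ p ≠ x ∧ q ≠ x ∧ r ≠ x ∧ t ≠ x ∧ p ≠ y ∧ q ≠ y ∧ r ≠ y ∧ t ≠ y ∧ q ≠ p ∧ r ≠ p ∧ t ≠ p ∧
      r ≠ q ∧ t ≠ q ∧ t ≠ r) :=
  ⟨⟨h.xy, h.xp, h.xq, h.xr, h.xt, h.yp, h.yq, h.yr, h.yt, h.pq, h.pr, h.pt, h.qr, h.qt, h.rt⟩,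
    ⟨h.xy.symm, h.xp.symm, h.xq.symm, h.xr.symm, h.xt.symm, h.yp.symm, h.yq.symm, h.yr.symm,
      h.yt.symm, h.pq.symm, h.pr.symm, h.pt.symm, h.qr.symm, h.qt.symm, h.rt.symm⟩⟩

end six

end Pool.Agent.TFC.CE

end

section -- file TFC/CE2

/-!
Conflict elimination: the outer parts of the two 2-factors, and the two cases.
-/

set_option autoImplicit false
set_option linter.unusedSectionVars false
set_option linter.unusedSimpArgs false
set_option linter.unusedTactic false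

namespace Pool.Agent.TFC.CE

open Finset

variable {V : Type*} [DecidableEq V]

lemma dv_sq {a b c d : V} (h : Dist4 a b c d) (v : V) :
    dv (sq a b c d) v = 2 * ev a v + 2 * ev b v + 2 * ev c v + 2 * ev d v := by
  obtain ⟨hab, hac, had, hbc, hbd, hcd⟩ := h
  have e : sq a b c d = [s(a, b), s(b, c), s(c, d), s(d, a)].toFinset := by
    simp [sq]
  rw [e, dv_list]
  · simp
    ring
  · simp [Sym2.eq_iff, hab, hac, had, hbc, hbd, hcd, hab.symm, hac.symm, had.symm, hbc.symm, hbd.symm,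
      hcd.symm]
  · simp [hab, hbc, hcd, had.symm]

section six

variable {F N : Finset (Sym2 V)} {x y p q r t : V}

/-- the base vector -/
def bas (x y p q r t : V) : V → ℤ := fun v => 2 - 2 * ev x v - 2 * ev y v - 2 * ev p v - 2 * ev q v -
  2 * ev r v - 2 * ev t v

end six

end Pool.Agent.TFC.CE

end

section -- file TFC/CE3

/-!
Conflict elimination: five vertices, and the theorem.
-/

set_option autoImplicit false
set_option linter.unusedSectionVars false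
set_option linter.unusedSimpArgs false
set_option linter.unusedTactic false
set_option linter.unreachableTactic false

namespace Pool.Agent.TFC

open Finset

variable {V : Type*} [DecidableEq V]

namespace CE

/-- five different vertices -/
structure Five (x y p q r : V) : Prop where
  xy : x ≠ y
  xp : x ≠ p
  xq : x ≠ q
  xr : x ≠ r
  yp : y ≠ p
  yq : y ≠ q
  yr : y ≠ r
  pq : p ≠ q
  pr : p ≠ r
  qr : q ≠ r

section five

variable {F N : Finset (Sym2 V)} {x y p q r : V}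

lemma Five.all (h : Five x y p q r) :
    (x ≠ y ∧ x ≠ p ∧ x ≠ q ∧ x ≠ r ∧ y ≠ p ∧ y ≠ q ∧ y ≠ r ∧ p ≠ q ∧ p ≠ r ∧ q ≠ r) ∧
    (y ≠ x ∧ p ≠ x ∧ q ≠ x ∧ r ≠ x ∧ p ≠ y ∧ q ≠ y ∧ r ≠ y ∧ q ≠ p ∧ r ≠ p ∧ r ≠ q) :=
  ⟨⟨h.xy, h.xp, h.xq, h.xr, h.yp, h.yq, h.yr, h.pq, h.pr, h.qr⟩,
    ⟨h.xy.symm, h.xp.symm, h.xq.symm, h.xr.symm, h.yp.symm, h.yq.symm, h.yr.symm, h.pq.symm,
      h.pr.symm, h.qr.symm⟩⟩

lemma put2 (f : Fin 2 → V) (k : Fin 2 → ℤ) (v : V) :
    put f k v = k 0 * ev (f 0) v + k 1 * ev (f 1) v := by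
  have h : ∀ i, (if f i = v then k i else 0) = k i * ev (f i) v := by
    intro i
    rw [ev_apply]
    by_cases hv : f i = v
    · simp [hv]
    · rw [if_neg hv, if_neg (fun h => hv h.symm)]; simp
  simp only [put, h, Fin.sum_univ_two]

end five

end CE

end Pool.Agent.TFC

end
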