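import Pool.Agent.PFM.M02
import Pool.Agent.PFM.M05

section -- file PF4/XC

/-!
The stage lemma: a minimal blocking family which is minimal at an early stage and blocking until a later stage.
-/

set_option autoImplicit false

namespace Pool.Agent.PF4.XF

open Finset Pool.Agent.TFC

/-- the stage lemma -/
theorem stage {α : Type*} [DecidableEq α] (B : Finset α → ℕ → Prop)
    (anti : ∀ D s t, s ≤ t → B D t → B D s) (m : ℕ) (D₀ : Finset α) (K : ℕ) (hB : B D₀ K)
    (hK : m * (#D₀ + 1) ≤ K) :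
    ∃ D ⊆ D₀, ∃ j, j + m ≤ K ∧ B D (j + m) ∧ ∀ Z ∈ D, ¬ B (D.erase Z) j := by
  induction hn : #D₀ generalizing D₀ K with
  | zero =>
    have h0 : D₀ = ∅ := card_eq_zero.1 hn
    rw [hn] at hK
    refine ⟨D₀, le_rfl, K - m, by omega, ?_, ?_⟩
    · exact anti _ _ _ (by omega) hB
    · intro Z hZ
      rw [h0] at hZ
      simp at hZ
  | succ k ih =>
    rw [hn] at hK
    have hmK : m * (k + 1 + 1) = m * (k + 1) + m := by ring
    rw [hmK] at hK
    by_cases h : ∃ Z ∈ D₀, B (D₀.erase Z) (K - m)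
    · obtain ⟨Z, hZ, hBZ⟩ := h
      have hc : #(D₀.erase Z) = k := by rw [card_erase_of_mem hZ, hn]; rfl
      obtain ⟨D, hD, j, h1, h2, h3⟩ := ih (D₀.erase Z) (K - m) hBZ (by rw [hc]; omega) hc
      exact ⟨D, hD.trans (erase_subset _ _), j, by omega, h2, h3⟩
    · push Not at h
      refine ⟨D₀, le_rfl, K - m, by omega, anti _ _ _ (by omega) hB, h⟩

theorem XP.mono' {X : XD} {P : ℕ → Finset (Sym2 ℕ) → Prop} (hP : XP X P) {s t : ℕ} (h : s ≤ t)
    {L : Finset (Sym2 ℕ)} (hL : P s L) : P t L := by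
  induction t, h using Nat.le_induction with
  | base => exact hL
  | succ t _ ih => exact hP.mono t L ih

theorem Hs.card {T : Finset ℕ} {Z : Finset (Sym2 ℕ)} (h : Hs T Z) : #Z = 4 := by
  obtain ⟨a, b, c, d, h4, rfl, _, _⟩ := h
  exact R4_card_sq h4

/-- **a minimal blocking family of the pool**: if no member of the pool at stage `K` is a cover all of whose harmful squares
are allowed, there is a minimal blocking family of harmful squares which are not allowed -/
theorem XP.exists_blk {X : XD} (hX : X.OK) {P : ℕ → Finset (Sym2 ℕ) → Prop} (hP : XP X P)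
    (A : Finset (Sym2 ℕ) → Prop) {K m : ℕ} (hK : m * ((#X.E2).choose 4 + 1) ≤ K)
    (inv : ∀ t L Z, P t L → Hs X.T Z → Z ⊆ L → A Z ∨ ∃ e ∈ Z, e ∈ X.En)
    (hno : ∀ L, P K L → Cv X L → ∃ Z, Hs X.T Z ∧ Z ⊆ L ∧ ¬ A Z) :
    ∃ (D : Finset (Finset (Sym2 ℕ))) (j : ℕ), j + m ≤ K ∧ Blk X P D j m ∧
      ∀ Z ∈ D, ¬ A Z ∧ ∃ e ∈ Z, e ∈ X.En := by
  classical
  set D₀ : Finset (Finset (Sym2 ℕ)) :=
    (X.E2.powersetCard 4).filter fun Z => Hs X.T Z ∧ ¬ A Z ∧ ∃ e ∈ Z, e ∈ X.En with hD₀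
  have hc : #D₀ ≤ (#X.E2).choose 4 := by
    refine (card_filter_le _ _).trans ?_
    rw [card_powersetCard]
  have hmem : ∀ Z, Hs X.T Z → Z ⊆ X.E → ¬ A Z → (∃ e ∈ Z, e ∈ X.En) → Z ∈ D₀ := by
    intro Z h1 h2 h3 h4
    rw [hD₀, mem_filter, mem_powersetCard]
    exact ⟨⟨hX.near Z h1 h2 h4, h1.card⟩, h1, h3, h4⟩
  obtain ⟨D, hD, j, h1, h2, h3⟩ := stage
    (fun D t => ∀ s ≤ t, ∀ L, P s L → Cv X L → ∃ Z ∈ D, Z ⊆ L)
    (fun D s t hst h r hr => h r (hr.trans hst)) m D₀ K
    (by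
      intro s hs L hL hC
      obtain ⟨Z, z1, z2, z3⟩ := hno L (hP.mono' hs hL) hC
      refine ⟨Z, hmem Z z1 (z2.trans (hP.m2 s L hL).2) z3 ?_, z2⟩
      exact (inv s L Z hL z1 z2).resolve_left z3)
    (le_trans (Nat.mul_le_mul_left _ (Nat.add_le_add_right hc 1)) hK)
  have hprop : ∀ Z ∈ D, Hs X.T Z ∧ Z ⊆ X.E2 ∧ ¬ A Z ∧ ∃ e ∈ Z, e ∈ X.En := by
    intro Z hZ
    have := hD hZ
    rw [hD₀, mem_filter, mem_powersetCard] at this
    exact ⟨this.2.1, this.1.1, this.2.2.1, this.2.2.2⟩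
  refine ⟨D, j, h1, ⟨fun Z hZ => ⟨(hprop Z hZ).1, (hprop Z hZ).2.1⟩, h2, ?_⟩,
    fun Z hZ => (hprop Z hZ).2.2⟩
  intro Z hZ
  have h4 := h3 Z hZ
  push Not at h4
  obtain ⟨s, hs, L, hL, hC, h5⟩ := h4
  have hu : ∀ Z' ∈ D, Z' ⊆ L → Z' = Z := by
    intro Z' hZ' hZL
    by_contra hne
    exact h5 Z' (mem_erase.2 ⟨hne, hZ'⟩) hZL
  obtain ⟨Z', z1, z2⟩ := h2 s (hs.trans (Nat.le_add_right _ _)) L hL hC
  have := hu Z' z1 z2
  subst this
  exact ⟨L, hP.mono' hs hL, hC, z2, hu⟩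

end Pool.Agent.PF4.XF

end

section -- file PF4/XRes

/-!
Resolution: two squares of a minimal blocking family do not share exactly one edge.
-/

set_option autoImplicit false
set_option linter.unusedSectionVars false
set_option linter.unusedSimpArgs false
set_option linter.unusedTactic false
set_option linter.unreachableTactic false

namespace Pool.Agent.PF4.XF

open Finset Pool.Agent.TFC Pool.Agent.TFC.CE

namespace Rs

/-- the sum of the degrees is even -/
theorem par_dv {n : ℕ} {K : Finset (Sym2 ℕ)} (hK : NoLoop K) (hn : ∀ e ∈ K, ∀ v ∈ e, v < n) :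
    Even (∑ v ∈ Finset.range (n + 1), dv K v) := by
  rw [dv_eq_sum hK]
  have h : ∑ v ∈ Finset.range (n + 1), (∑ e ∈ K, esum e) v = ∑ _e ∈ K, (2 : ℤ) := by
    simp only [Finset.sum_apply]
    rw [sum_comm]
    refine sum_congr rfl fun e he => ?_
    induction e using Sym2.ind with
    | _ a b =>
      have ha : a < n + 1 := (hn _ he a (by simp)).trans (Nat.lt_succ_self n)
      have hb : b < n + 1 := (hn _ he b (by simp)).trans (Nat.lt_succ_self n)
      simp only [esum_mk, Pi.add_apply, sum_add_distrib, ev_apply]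
      rw [sum_ite_eq', sum_ite_eq', if_pos (mem_range.2 ha), if_pos (mem_range.2 hb)]
      norm_num
  rw [h, sum_const, nsmul_eq_mul]
  exact ⟨(#K : ℤ), by ring⟩

theorem dv_split {L : Finset (Sym2 ℕ)} (hL : NoLoop L) (H : Finset (Sym2 ℕ)) (v : ℕ) :
    dv (L \ H) v + dv (L ∩ H) v = dv L v := by
  have h1 := dv_union (hL.mono (sdiff_subset (s := L) (t := H))) (hL.mono (inter_subset_left (s₁ := L) (s₂ := H)))
    (disjoint_sdiff_inter L H)
  rw [sdiff_union_inter] at h1
  exact (congrFun h1 v).symm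

theorem dg_zero {K : Finset (Sym2 ℕ)} {v : ℕ} (h : ∀ e ∈ K, v ∉ e) : dg K v = 0 := by
  unfold dg
  rw [card_eq_zero, filter_eq_empty_iff]
  exact fun e he => h e he

theorem fit_base {X : XD} (hX : X.OK) {L H : Finset (Sym2 ℕ)} (hM : M2 L) (hE : L ⊆ X.E) (hC : Cv X L)
    (hH : H ⊆ X.E2) : FitK X (L \ H) (dv (L ∩ H)) := by
  have hs := dv_split hM.nl H
  have hz : ∀ v, X.n ≤ v → dv (L ∩ H) v = 0 := by
    intro v hv
    rw [dv_apply, dg_zero]
    · rfl
    · intro e he hve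
      have := hX.lt e (hE (mem_inter.1 he).1) v hve
      omega
  refine ⟨?_, ?_, ?_, Or.inl (hz _ le_rfl), par_dv (hM.nl.mono inter_subset_left) ?_, fun v hv => hz v hv.le⟩
  · intro v hv
    have h1 := hs v
    have h2 := hC v hv
    rw [dv_apply L v, h2] at h1
    push_cast at h1
    linarith
  · intro v _ _
    have h1 := hs v
    have h2 := hM.le v
    rw [dv_apply L v] at h1
    refine ⟨by rw [dv_apply]; exact Nat.cast_nonneg _, ?_⟩
    have h3 : (dg L v : ℤ) ≤ 2 := by exact_mod_cast h2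
    linarith
  · intro v _ hv
    rw [dv_apply, dg_zero]
    · rfl
    · intro e he hve
      exact hv (hX.ev e (hH (mem_inter.1 he).2) v hve)
  · intro e he v hv
    exact hX.lt e (hE (mem_inter.1 he).1) v hv

theorem FitK.le {X : XD} {O : Finset (Sym2 ℕ)} {k : ℕ → ℤ} (h : FitK X O k) {v : ℕ} (hv : v < X.n) :
    dv O v ≤ 2 - k v := by
  by_cases ht : v ∈ X.T
  · rw [h.t v ht]; linarith
  · have := (h.f v hv ht).2
    linarith

/-- the data of a conflict -/
structure Ctx (X : XD) (P : ℕ → Finset (Sym2 ℕ) → Prop) (D : Finset (Finset (Sym2 ℕ))) (j m : ℕ)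
    (L1 L2 Z1 Z2 : Finset (Sym2 ℕ)) : Prop where
  hX : X.OK
  hP : XP X P
  hD : Blk X P D j m
  z1 : Z1 ∈ D
  z2 : Z2 ∈ D
  p1 : P j L1
  p2 : P j L2
  c1 : Cv X L1
  c2 : Cv X L2
  s1 : Z1 ⊆ L1
  s2 : Z2 ⊆ L2
  w1 : ∀ Y ∈ D, Y ⊆ L1 → Y = Z1
  w2 : ∀ Y ∈ D, Y ⊆ L2 → Y = Z2

/-- there is an outer part with demand vector `k` -/
def Out (X : XD) (P : ℕ → Finset (Sym2 ℕ) → Prop) (L1 L2 H : Finset (Sym2 ℕ)) (t : ℕ) (k : ℕ → ℤ) : Prop :=
  ∃ O, P t O ∧ FitK X O k ∧ Disjoint O H ∧ ∀ Y, IsSq Y → Y ⊆ O → Y ⊆ L1 \ H ∨ Y ⊆ L2 \ H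

section
variable {X : XD} {P : ℕ → Finset (Sym2 ℕ) → Prop} {D : Finset (Finset (Sym2 ℕ))} {j m : ℕ}
  {L1 L2 Z1 Z2 H : Finset (Sym2 ℕ)}

theorem Out.mono (hP : XP X P) {s t : ℕ} (h : s ≤ t) {k : ℕ → ℤ} (hk : Out X P L1 L2 H s k) :
    Out X P L1 L2 H t k := by
  obtain ⟨O, h1, h2⟩ := hk
  exact ⟨O, hP.mono' h h1, h2⟩

theorem Out.ex (hP : XP X P) {t : ℕ} {k k' : ℕ → ℤ} (h : Out X P L1 L2 H t k)
    (h' : Out X P L1 L2 H t k') (i : ℕ) (ε : ℤ) (hi : i ∈ X.V2 ∨ i = X.n) (hε : ε = 1 ∨ ε = -1)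
    (h0 : 0 < ε * (k' i - k i)) : ∃ k'', Out X P L1 L2 H (t + 1) k'' ∧ Two k k' k'' i ε := by
  obtain ⟨O, h1, h2, h3, h4⟩ := h
  obtain ⟨O', h1', h2', h3', h4'⟩ := h'
  obtain ⟨O'', k'', g1, g2, g3, g4, g5⟩ := hP.ex t O O' k k' h1 h1' h2 h2' i ε hi hε h0
  refine ⟨k'', ⟨O'', g1, g2, ?_, ?_⟩, g5⟩
  · exact (disjoint_union_left.2 ⟨h3, h3'⟩).mono_left g3
  · intro Y hY hYO
    rcases g4 Y hY hYO with h | h
    · exact h4 Y hY h
    · exact h4' Y hY h

theorem Ctx.hH (C : Ctx X P D j m L1 L2 Z1 Z2) : Z1 ∪ Z2 ⊆ X.E2 :=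
  union_subset (C.hD.hs _ C.z1).2 (C.hD.hs _ C.z2).2

theorem Ctx.out1 (C : Ctx X P D j m L1 L2 Z1 Z2) :
    Out X P L1 L2 (Z1 ∪ Z2) (j + 1) (dv (L1 ∩ (Z1 ∪ Z2))) :=
  ⟨L1 \ (Z1 ∪ Z2), C.hP.del j L1 _ C.p1 C.hH, fit_base C.hX (C.hP.m2 j _ C.p1).1 (C.hP.m2 j _ C.p1).2 C.c1 C.hH,
    sdiff_disjoint, fun _ _ h => Or.inl h⟩

theorem Ctx.out2 (C : Ctx X P D j m L1 L2 Z1 Z2) :
    Out X P L1 L2 (Z1 ∪ Z2) (j + 1) (dv (L2 ∩ (Z1 ∪ Z2))) :=
  ⟨L2 \ (Z1 ∪ Z2), C.hP.del j L2 _ C.p2 C.hH, fit_base C.hX (C.hP.m2 j _ C.p2).1 (C.hP.m2 j _ C.p2).2 C.c2 C.hH,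
    sdiff_disjoint, fun _ _ h => Or.inr h⟩

/-- a completion without new squares is impossible -/
theorem Ctx.complete (C : Ctx X P D j m L1 L2 Z1 Z2) {t : ℕ} (ht : t < j + m) {O K : Finset (Sym2 ℕ)}
    {k : ℕ → ℤ} (hO : P t O) (hk : FitK X O k) (hd : Disjoint O (Z1 ∪ Z2))
    (hsq : ∀ Y, IsSq Y → Y ⊆ O → Y ⊆ L1 \ (Z1 ∪ Z2) ∨ Y ⊆ L2 \ (Z1 ∪ Z2)) (hK : K ⊆ Z1 ∪ Z2)
    (hdv : dv K = k) (hno : M2 (O ∪ K) → ∀ a b c d, Sq (O ∪ K) a b c d → s(a, b) ∉ K) : False := by
  have hKE : K ⊆ X.E2 := hK.trans C.hH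
  have hOE : O ⊆ X.E := (C.hP.m2 t O hO).2
  have hUE : O ∪ K ⊆ X.E := union_subset hOE (hKE.trans C.hX.e2)
  have hdis : Disjoint O K := hd.mono_right hK
  have hU : ∀ v, dv (O ∪ K) v = dv O v + k v := by
    intro v
    rw [dv_union (C.hX.nl.mono hOE) (C.hX.nl.mono (hKE.trans C.hX.e2)) hdis, Pi.add_apply, hdv]
  have hM : M2 (O ∪ K) := by
    refine M2.of_dv (C.hX.nl.mono hUE) fun v => ?_
    by_cases hv : v < X.n
    · rw [hU v]
      have := FitK.le hk hv
      linarith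
    · rw [dv_apply, dg_zero]
      · norm_num
      · intro e he hve
        exact hv (C.hX.lt e (hUE he) v hve)
  have hC : Cv X (O ∪ K) := by
    intro v hv
    have h1 := hU v
    rw [hk.t v hv, dv_apply] at h1
    have h2 : (dg (O ∪ K) v : ℤ) = 2 := by linarith
    exact_mod_cast h2
  have hno' := hno hM
  -- a square of the union lies in `O`
  have key : ∀ Y, IsSq Y → Y ⊆ O ∪ K → Y ⊆ O := by
    rintro Y ⟨a, b, c, d, h4, rfl⟩ hY
    have hs := sq_mem_of_subset h4 rfl hY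
    refine Sq.subset ⟨hs.ac, hs.bd, (mem_union.mp hs.ab).resolve_right (hno' _ _ _ _ hs),
      (mem_union.mp hs.bc).resolve_right (hno' _ _ _ _ hs.rot),
      (mem_union.mp hs.cd).resolve_right (hno' _ _ _ _ hs.rot.rot),
      (mem_union.mp hs.da).resolve_right (hno' _ _ _ _ hs.rot.rot.rot)⟩
  have isq : ∀ Y, Hs X.T Y → IsSq Y := fun Y ⟨a, b, c, d, h, e, _⟩ => ⟨a, b, c, d, h, e⟩
  have hPU : P (t + 1) (O ∪ K) := C.hP.add t O K hO hKE hM fun Y hY hYU => Or.inl (key Y (isq Y hY) hYU)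
  obtain ⟨Y, hYD, hYU⟩ := C.hD.blk (t + 1) (by omega) _ hPU hC
  have hYs := isq Y (C.hD.hs Y hYD).1
  have hYO := key Y hYs hYU
  have hYn : ∃ e, e ∈ Y := by
    obtain ⟨a, b, c, d, _, rfl⟩ := hYs
    exact ⟨s(a, b), by simp [TFC.sq]⟩
  obtain ⟨e, he⟩ := hYn
  rcases hsq Y hYs hYO with h | h
  · have h1 := C.w1 Y hYD (h.trans sdiff_subset)
    have h2 := (mem_sdiff.1 (h he)).2
    rw [h1] at he
    exact h2 (mem_union_left _ he)
  · have h1 := C.w2 Y hYD (h.trans sdiff_subset)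
    have h2 := (mem_sdiff.1 (h he)).2
    rw [h1] at he
    exact h2 (mem_union_right _ he)

end

/-- exchange in few coordinates -/
theorem pull_st {n : ℕ} {f : Fin n → ℕ} (hf : Function.Injective f) (b : ℕ → ℤ) {A B : (ℕ → ℤ) → Prop}
    (hA : ∀ x, A x → ∀ y, A y → ∀ (i : Fin n) (ε : ℤ), (ε = 1 ∨ ε = -1) → 0 < ε * (y (f i) - x (f i)) →
      ∃ z, B z ∧ Two x y z (f i) ε)
    {k l : Fin n → ℤ} (hk : A (b - put f k)) (hl : A (b - put f l)) (i : Fin n) (ε : ℤ)
    (hε : ε = 1 ∨ ε = -1) (hpos : 0 < ε * (l i - k i)) :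
    ∃ (j : Fin n) (δ : ℤ), (δ = 1 ∨ δ = -1) ∧ 0 < δ * (l j - (k + Pi.single i ε : Fin n → ℤ) j) ∧
      B (b - put f (k + Pi.single i ε + Pi.single j δ)) := by
  have h1 : 0 < (-ε) * ((b - put f l : ℕ → ℤ) (f i) - (b - put f k : ℕ → ℤ) (f i)) := by
    simp only [Pi.sub_apply, put_apply hf]
    have : (-ε) * (b (f i) - l i - (b (f i) - k i)) = ε * (l i - k i) := by ring
    rw [this]
    exact hpos
  obtain ⟨z, hz, j, δ, hδ, hj, hm⟩ := hA _ hk _ hl i (-ε) (by omega) h1
  have hr : ∃ j', f j' = j := by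
    by_contra hne
    push Not at hne
    simp only [Pi.add_apply, Pi.sub_apply, put_of_not l hne, put_of_not k hne,
      Pi.single_eq_of_ne (fun e : j = f i => hne i e.symm)] at hj
    simp at hj
  obtain ⟨j', rfl⟩ := hr
  have e1 : (b - put f k + Pi.single (f i) (-ε) : ℕ → ℤ) = b - put f (k + Pi.single i ε) := by
    rw [put_add, put_single, Pi.single_neg]; abel
  refine ⟨j', -δ, by omega, ?_, ?_⟩
  · rw [e1] at hj
    simp only [Pi.sub_apply, put_apply hf] at hj
    have e2 : δ * (b (f j') - l j' - (b (f j') - (k + Pi.single i ε : Fin n → ℤ) j')) =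
        -δ * (l j' - (k + Pi.single i ε : Fin n → ℤ) j') := by ring
    rw [e2] at hj
    exact hj
  · rw [e1] at hm
    rw [put_add, put_single]
    have e3 : b - (put f (k + Pi.single i ε) + (Pi.single (f j') (-δ) : ℕ → ℤ)) =
        b - put f (k + Pi.single i ε) + Pi.single (f j') δ := by
      rw [Pi.single_neg]; abel
    rw [e3, ← hm]
    exact hz

/-- staged jump sets -/
def SJ (A B : Set (Fin 4 → ℤ)) : Prop := ∀ a ∈ A, ∀ b ∈ A, ∀ (i : Fin 4) (ε : ℤ), (ε = 1 ∨ ε = -1) →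
  0 < ε * (b i - a i) → ∃ (j : Fin 4) (δ : ℤ), (δ = 1 ∨ δ = -1) ∧
    0 < δ * (b j - (a + Pi.single i ε : Fin 4 → ℤ) j) ∧ a + Pi.single i ε + Pi.single j δ ∈ B

lemma SJ.step {A B : Set (Fin 4 → ℤ)} (hP : SJ A B) {a b : Fin 4 → ℤ} (ha : a ∈ A) (hb : b ∈ A)
    (i : Fin 4) (ε : ℤ) (hε : ε = 1 ∨ ε = -1) (h : 0 < ε * (b i - a i)) (c : Fin 4 → ℤ)
    (hc : c = a + Pi.single i ε) :
    ∃ j : Fin 4, (c j < b j ∧ c + Pi.single j 1 ∈ B) ∨ (b j < c j ∧ c + Pi.single j (-1) ∈ B) := by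
  obtain ⟨j, δ, hδ, hj, hm⟩ := hP a ha b hb i ε hε h
  rw [← hc] at hj hm
  refine ⟨j, ?_⟩
  rcases hδ with rfl | rfl
  · exact Or.inl ⟨by linarith, hm⟩
  · exact Or.inr ⟨by linarith, hm⟩

theorem four_st {P : ℕ → Set (Fin 4 → ℤ)} (hm : ∀ t, P t ⊆ P (t + 1)) (hJ : ∀ t, SJ (P t) (P (t + 1)))
    (h1 : ![2, 2, 0, 0] ∈ P 0) (h2 : ![0, 0, 2, 2] ∈ P 0) :
    ![1, 1, 0, 0] ∈ P 3 ∨ ![1, 2, 0, 1] ∈ P 3 ∨ ![0, 0, 0, 0] ∈ P 3 ∨ ![0, 1, 0, 1] ∈ P 3 ∨
    ![2, 1, 1, 0] ∈ P 3 ∨ ![1, 1, 2, 2] ∈ P 3 ∨ ![1, 0, 2, 1] ∈ P 3 ∨ ![1, 1, 1, 1] ∈ P 3 ∨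
    ![1, 0, 1, 0] ∈ P 3 := by
  have M2' : P 2 ⊆ P 3 := hm 2
  have M1' : P 1 ⊆ P 3 := (hm 1).trans M2'
  have M3' : P 3 ⊆ P 3 := le_rfl
  have a1 := hm 0 h1
  have a2 := hm 0 h2
  have b1 := hm 1 a1
  by_contra hno
  simp only [not_or] at hno
  obtain ⟨g1, g2, g3, g4, g5, g6, g7, g8, g9⟩ := hno
  have s1 : ![0, 2, 0, 0] ∈ P 1 ∨ ![1, 2, 1, 0] ∈ P 1 := by
    obtain ⟨j, h⟩ := (hJ 0).step h1 h2 0 (-1) (Or.inr rfl) (by decide) ![1, 2, 0, 0] (by decide)
    fin_cases j
    · rcases h with ⟨h, -⟩ | ⟨-, h⟩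
      · exact absurd h (by decide)
      · exact Or.inl (by convert h using 1; decide)
    · rcases h with ⟨h, -⟩ | ⟨-, h⟩
      · exact absurd h (by decide)
      · exact absurd (M1' (by convert h using 1; decide)) g1
    · rcases h with ⟨-, h⟩ | ⟨h, -⟩
      · exact Or.inr (by convert h using 1; decide)
      · exact absurd h (by decide)
    · rcases h with ⟨-, h⟩ | ⟨h, -⟩
      · exact absurd (M1' (by convert h using 1; decide)) g2
      · exact absurd h (by decide)
  rcases s1 with k1 | k1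
  · have s2 : ![0, 1, 1, 0] ∈ P 2 := by
      obtain ⟨j, h⟩ := (hJ 1).step k1 a2 1 (-1) (Or.inr rfl) (by decide) ![0, 1, 0, 0] (by decide)
      fin_cases j
      · rcases h with ⟨h, -⟩ | ⟨h, -⟩
        · exact absurd h (by decide)
        · exact absurd h (by decide)
      · rcases h with ⟨h, -⟩ | ⟨-, h⟩
        · exact absurd h (by decide)
        · exact absurd (M2' (by convert h using 1; decide)) g3
      · rcases h with ⟨-, h⟩ | ⟨h, -⟩
        · convert h using 1; decide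
        · exact absurd h (by decide)
      · rcases h with ⟨-, h⟩ | ⟨h, -⟩
        · exact absurd (M2' (by convert h using 1; decide)) g4
        · exact absurd h (by decide)
    obtain ⟨j, h⟩ := (hJ 2).step b1 s2 1 (-1) (Or.inr rfl) (by decide) ![2, 1, 0, 0] (by decide)
    fin_cases j
    · rcases h with ⟨h, -⟩ | ⟨-, h⟩
      · exact absurd h (by decide)
      · exact absurd (M3' (by convert h using 1; decide)) g1
    · rcases h with ⟨h, -⟩ | ⟨h, -⟩
      · exact absurd h (by decide)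
      · exact absurd h (by decide)
    · rcases h with ⟨-, h⟩ | ⟨h, -⟩
      · exact absurd (M3' (by convert h using 1; decide)) g5
      · exact absurd h (by decide)
    · rcases h with ⟨h, -⟩ | ⟨h, -⟩
      · exact absurd h (by decide)
      · exact absurd h (by decide)
  · have s2 : ![1, 0, 1, 2] ∈ P 2 := by
      obtain ⟨j, h⟩ := (hJ 1).step a2 k1 0 1 (Or.inl rfl) (by decide) ![1, 0, 2, 2] (by decide)
      fin_cases j
      · rcases h with ⟨h, -⟩ | ⟨h, -⟩
        · exact absurd h (by decide)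
        · exact absurd h (by decide)
      · rcases h with ⟨-, h⟩ | ⟨h, -⟩
        · exact absurd (M2' (by convert h using 1; decide)) g6
        · exact absurd h (by decide)
      · rcases h with ⟨h, -⟩ | ⟨-, h⟩
        · exact absurd h (by decide)
        · convert h using 1; decide
      · rcases h with ⟨h, -⟩ | ⟨-, h⟩
        · exact absurd h (by decide)
        · exact absurd (M2' (by convert h using 1; decide)) g7
    obtain ⟨j, h⟩ := (hJ 2).step s2 (hm 1 k1) 3 (-1) (Or.inr rfl) (by decide) ![1, 0, 1, 1] (by decide)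
    fin_cases j
    · rcases h with ⟨h, -⟩ | ⟨h, -⟩
      · exact absurd h (by decide)
      · exact absurd h (by decide)
    · rcases h with ⟨-, h⟩ | ⟨h, -⟩
      · exact absurd (M3' (by convert h using 1; decide)) g8
      · exact absurd h (by decide)
    · rcases h with ⟨h, -⟩ | ⟨h, -⟩
      · exact absurd h (by decide)
      · exact absurd h (by decide)
    · rcases h with ⟨h, -⟩ | ⟨-, h⟩
      · exact absurd h (by decide)
      · exact absurd (M3' (by convert h using 1; decide)) g9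


/-- the data, six vertices -/
structure Dat6 (X : XD) (P : ℕ → Finset (Sym2 ℕ) → Prop) (D : Finset (Finset (Sym2 ℕ))) (j m : ℕ)
    (L1 L2 : Finset (Sym2 ℕ)) (x y p q r t : ℕ) : Prop where
  ctx : Ctx X P D j m L1 L2 (TFC.sq x y q p) (TFC.sq x y r t)
  hm : 10 ≤ m
  six : Six x y p q r t

section six

variable {X : XD} {P : ℕ → Finset (Sym2 ℕ) → Prop} {D : Finset (Finset (Sym2 ℕ))} {j m : ℕ}
  {L1 L2 : Finset (Sym2 ℕ)} {x y p q r t : ℕ}

/-- the demand vector: degree 2 at all six vertices -/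
def bas6 (x y p q r t : ℕ) : ℕ → ℤ := fun v => 2 * ev x v + 2 * ev y v + 2 * ev p v + 2 * ev q v +
  2 * ev r v + 2 * ev t v

/-- outer part with given degrees at `p, q, r, t` -/
def O6 (X : XD) (P : ℕ → Finset (Sym2 ℕ) → Prop) (L1 L2 : Finset (Sym2 ℕ)) (x y p q r t : ℕ) (s : ℕ)
    (k : Fin 4 → ℤ) : Prop :=
  Out X P L1 L2 (TFC.sq x y q p ∪ TFC.sq x y r t) s (bas6 x y p q r t - put ![p, q, r, t] k)

theorem dem6 (k : Fin 4 → ℤ) (v : ℕ) : (bas6 x y p q r t - put ![p, q, r, t] k) v =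
    2 * ev x v + 2 * ev y v + (2 - k 0) * ev p v +
      (2 - k 1) * ev q v + (2 - k 2) * ev r v + (2 - k 3) * ev t v := by
  rw [Pi.sub_apply, put4, bas6]
  simp
  ring

/-- completion for a given outer part -/
lemma completeO (D : Dat6 X P D j m L1 L2 x y p q r t) {k : Fin 4 → ℤ} {s : ℕ} (hs : s ≤ j + 4)
    {O : Finset (Sym2 ℕ)} (hO : P s O) (hk : FitK X O (bas6 x y p q r t - put ![p, q, r, t] k))
    (hd : Disjoint O (TFC.sq x y q p ∪ TFC.sq x y r t))
    (hsq : ∀ Y, IsSq Y → Y ⊆ O → Y ⊆ L1 \ (TFC.sq x y q p ∪ TFC.sq x y r t) ∨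
      Y ⊆ L2 \ (TFC.sq x y q p ∪ TFC.sq x y r t))
    (l : List (Sym2 ℕ)) (hn : l.Nodup) (hl : ∀ e ∈ l, ¬ e.IsDiag)
    (hlH : ∀ e ∈ l, e ∈ TFC.sq x y q p ∪ TFC.sq x y r t)
    (hsum : ∀ v, (l.map esum).sum v = 2 * ev x v + 2 * ev y v + (2 - k 0) * ev p v +
      (2 - k 1) * ev q v + (2 - k 2) * ev r v + (2 - k 3) * ev t v)
    (hno : M2 (O ∪ l.toFinset) → ∀ a b c d, Sq (O ∪ l.toFinset) a b c d → s(a, b) ∉ l.toFinset) :
    False := by
  have := D.hm
  refine D.ctx.complete (t := s) (by omega) hO hk hd hsq (K := l.toFinset) ?_ ?_ hno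
  · intro e he
    exact hlH e (List.mem_toFinset.mp he)
  · funext v
    rw [dv_list hn hl, hsum v, dem6]

lemma complete (D : Dat6 X P D j m L1 L2 x y p q r t) {k : Fin 4 → ℤ} {s : ℕ} (hs : s ≤ j + 4)
    (h : O6 X P L1 L2 x y p q r t s k)
    (l : List (Sym2 ℕ)) (hn : l.Nodup) (hl : ∀ e ∈ l, ¬ e.IsDiag)
    (hlH : ∀ e ∈ l, e ∈ TFC.sq x y q p ∪ TFC.sq x y r t)
    (hsum : ∀ v, (l.map esum).sum v = 2 * ev x v + 2 * ev y v + (2 - k 0) * ev p v +
      (2 - k 1) * ev q v + (2 - k 2) * ev r v + (2 - k 3) * ev t v)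
    (hno : ∀ O, Disjoint O (TFC.sq x y q p ∪ TFC.sq x y r t) → M2 (O ∪ l.toFinset) →
      ∀ a b c d, Sq (O ∪ l.toFinset) a b c d → s(a, b) ∉ l.toFinset) :
    False := by
  obtain ⟨O, hO, hk, hd, hsq⟩ := h
  exact completeO D hs hO hk hd hsq l hn hl hlH hsum (hno O hd)

/-- completion by a connected set with at least five vertices -/
lemma complete5 (D : Dat6 X P D j m L1 L2 x y p q r t) {k : Fin 4 → ℤ} {s : ℕ} (hs : s ≤ j + 4)
    (h : O6 X P L1 L2 x y p q r t s k)
    (l : List (Sym2 ℕ)) (hn : l.Nodup) (hl : ∀ e ∈ l, ¬ e.IsDiag)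
    (hlH : ∀ e ∈ l, e ∈ TFC.sq x y q p ∪ TFC.sq x y r t)
    (hsum : ∀ v, (l.map esum).sum v = 2 * ev x v + 2 * ev y v + (2 - k 0) * ev p v +
      (2 - k 1) * ev q v + (2 - k 2) * ev r v + (2 - k 3) * ev t v)
    (v : Fin 5 → ℕ) (hv : Function.Injective v) (h01 : s(v 0, v 1) ∈ l) (h12 : s(v 1, v 2) ∈ l)
    (h23 : s(v 2, v 3) ∈ l) (h34 : s(v 3, v 4) ∈ l) (hcov : ∀ e ∈ l, ∃ i, v i ∈ e) :
    False := by
  refine complete D hs h l hn hl hlH hsum fun O _ hM => ?_
  have hm : ∀ {e}, e ∈ l → e ∈ O ∪ l.toFinset := fun he =>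
    mem_union_right _ (List.mem_toFinset.mpr he)
  exact fin5 hM hv (hm h01) (hm h12) (hm h23) (hm h34) fun e he => hcov e (List.mem_toFinset.mp he)

lemma c1100 (D : Dat6 X P D j m L1 L2 x y p q r t) {s : ℕ} (hs : s ≤ j + 4)
    (h : O6 X P L1 L2 x y p q r t s ![1, 1, 0, 0]) : False := by
  have s6 := D.six
  refine complete5 D hs h [s(p, x), s(t, x), s(r, t), s(y, r), s(y, q)] ?_ ?_ ?_ ?_ ![p, x, t, r, y] ?_ ?_ ?_ ?_ ?_ ?_
  · simp [Sym2.eq_iff, s6.all]
  · simp [Sym2.eq_iff, s6.all]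
  · intro e he
    simp only [List.mem_cons, List.not_mem_nil, or_false] at he
    rcases he with he | he | he | he | he <;> subst he <;> simp [TFC.sq]
  · intro v
    simp
    ring
  · (intro i j hij; fin_cases i <;> fin_cases j <;> first | rfl | (exfalso; revert hij; simp [Sym2.eq_iff, s6.all]))
  · simp [Sym2.eq_iff, s6.all]
  · simp [Sym2.eq_iff, s6.all]
  · simp [Sym2.eq_iff, s6.all]
  · simp [Sym2.eq_iff, s6.all]
  · intro e he
    simp only [List.mem_cons, List.not_mem_nil, or_false] at he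
    rcases he with he | he | he | he | he <;> subst he <;>
      first | (refine ⟨0, ?_⟩; simp; done) | (refine ⟨1, ?_⟩; simp; done) | (refine ⟨2, ?_⟩; simp; done) |
        (refine ⟨3, ?_⟩; simp; done) | (refine ⟨4, ?_⟩; simp; done)

lemma c0011 (D : Dat6 X P D j m L1 L2 x y p q r t) {s : ℕ} (hs : s ≤ j + 4)
    (h : O6 X P L1 L2 x y p q r t s ![0, 0, 1, 1]) : False := by
  have s6 := D.six
  refine complete5 D hs h [s(t, x), s(p, x), s(q, p), s(y, q), s(y, r)] ?_ ?_ ?_ ?_ ![t, x, p, q, y] ?_ ?_ ?_ ?_ ?_ ?_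
  · simp [Sym2.eq_iff, s6.all]
  · simp [Sym2.eq_iff, s6.all]
  · intro e he
    simp only [List.mem_cons, List.not_mem_nil, or_false] at he
    rcases he with he | he | he | he | he <;> subst he <;> simp [TFC.sq]
  · intro v
    simp
    ring
  · (intro i j hij; fin_cases i <;> fin_cases j <;> first | rfl | (exfalso; revert hij; simp [Sym2.eq_iff, s6.all]))
  · simp [Sym2.eq_iff, s6.all]
  · simp [Sym2.eq_iff, s6.all]
  · simp [Sym2.eq_iff, s6.all]
  · simp [Sym2.eq_iff, s6.all]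
  · intro e he
    simp only [List.mem_cons, List.not_mem_nil, or_false] at he
    rcases he with he | he | he | he | he <;> subst he <;>
      first | (refine ⟨0, ?_⟩; simp; done) | (refine ⟨1, ?_⟩; simp; done) | (refine ⟨2, ?_⟩; simp; done) |
        (refine ⟨3, ?_⟩; simp; done) | (refine ⟨4, ?_⟩; simp; done)

lemma c0000 (D : Dat6 X P D j m L1 L2 x y p q r t) {s : ℕ} (hs : s ≤ j + 4)
    (h : O6 X P L1 L2 x y p q r t s ![0, 0, 0, 0]) : False := by
  have s6 := D.six
  refine complete5 D hs h [s(p, x), s(t, x), s(r, t), s(y, r), s(y, q), s(q, p)] ?_ ?_ ?_ ?_ ![p, x, t, r, y] ?_ ?_ ?_ ?_ ?_ ?_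
  · simp [Sym2.eq_iff, s6.all]
  · simp [Sym2.eq_iff, s6.all]
  · intro e he
    simp only [List.mem_cons, List.not_mem_nil, or_false] at he
    rcases he with he | he | he | he | he | he <;> subst he <;> simp [TFC.sq]
  · intro v
    simp
    ring
  · (intro i j hij; fin_cases i <;> fin_cases j <;> first | rfl | (exfalso; revert hij; simp [Sym2.eq_iff, s6.all]))
  · simp [Sym2.eq_iff, s6.all]
  · simp [Sym2.eq_iff, s6.all]
  · simp [Sym2.eq_iff, s6.all]
  · simp [Sym2.eq_iff, s6.all]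
  · intro e he
    simp only [List.mem_cons, List.not_mem_nil, or_false] at he
    rcases he with he | he | he | he | he | he <;> subst he <;>
      first | (refine ⟨0, ?_⟩; simp; done) | (refine ⟨1, ?_⟩; simp; done) | (refine ⟨2, ?_⟩; simp; done) |
        (refine ⟨3, ?_⟩; simp; done) | (refine ⟨4, ?_⟩; simp; done)

lemma c1201 (D : Dat6 X P D j m L1 L2 x y p q r t) {s : ℕ} (hs : s ≤ j + 4)
    (h : O6 X P L1 L2 x y p q r t s ![1, 2, 0, 1]) : False := by
  have s6 := D.six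
  refine complete5 D hs h [s(r, t), s(y, r), s(x, y), s(p, x)] ?_ ?_ ?_ ?_ ![t, r, y, x, p] ?_ ?_ ?_ ?_ ?_ ?_
  · simp [Sym2.eq_iff, s6.all]
  · simp [Sym2.eq_iff, s6.all]
  · intro e he
    simp only [List.mem_cons, List.not_mem_nil, or_false] at he
    rcases he with he | he | he | he <;> subst he <;> simp [TFC.sq]
  · intro v
    simp
    ring
  · (intro i j hij; fin_cases i <;> fin_cases j <;> first | rfl | (exfalso; revert hij; simp [Sym2.eq_iff, s6.all]))
  · simp [Sym2.eq_iff, s6.all]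
  · simp [Sym2.eq_iff, s6.all]
  · simp [Sym2.eq_iff, s6.all]
  · simp [Sym2.eq_iff, s6.all]
  · intro e he
    simp only [List.mem_cons, List.not_mem_nil, or_false] at he
    rcases he with he | he | he | he <;> subst he <;>
      first | (refine ⟨0, ?_⟩; simp; done) | (refine ⟨1, ?_⟩; simp; done) | (refine ⟨2, ?_⟩; simp; done) |
        (refine ⟨3, ?_⟩; simp; done) | (refine ⟨4, ?_⟩; simp; done)

lemma c2110 (D : Dat6 X P D j m L1 L2 x y p q r t) {s : ℕ} (hs : s ≤ j + 4)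
    (h : O6 X P L1 L2 x y p q r t s ![2, 1, 1, 0]) : False := by
  have s6 := D.six
  refine complete5 D hs h [s(r, t), s(t, x), s(x, y), s(y, q)] ?_ ?_ ?_ ?_ ![r, t, x, y, q] ?_ ?_ ?_ ?_ ?_ ?_
  · simp [Sym2.eq_iff, s6.all]
  · simp [Sym2.eq_iff, s6.all]
  · intro e he
    simp only [List.mem_cons, List.not_mem_nil, or_false] at he
    rcases he with he | he | he | he <;> subst he <;> simp [TFC.sq]
  · intro v
    simp
    ring
  · (intro i j hij; fin_cases i <;> fin_cases j <;> first | rfl | (exfalso; revert hij; simp [Sym2.eq_iff, s6.all]))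
  · simp [Sym2.eq_iff, s6.all]
  · simp [Sym2.eq_iff, s6.all]
  · simp [Sym2.eq_iff, s6.all]
  · simp [Sym2.eq_iff, s6.all]
  · intro e he
    simp only [List.mem_cons, List.not_mem_nil, or_false] at he
    rcases he with he | he | he | he <;> subst he <;>
      first | (refine ⟨0, ?_⟩; simp; done) | (refine ⟨1, ?_⟩; simp; done) | (refine ⟨2, ?_⟩; simp; done) |
        (refine ⟨3, ?_⟩; simp; done) | (refine ⟨4, ?_⟩; simp; done)

lemma c1021 (D : Dat6 X P D j m L1 L2 x y p q r t) {s : ℕ} (hs : s ≤ j + 4)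
    (h : O6 X P L1 L2 x y p q r t s ![1, 0, 2, 1]) : False := by
  have s6 := D.six
  refine complete5 D hs h [s(q, p), s(y, q), s(x, y), s(t, x)] ?_ ?_ ?_ ?_ ![p, q, y, x, t] ?_ ?_ ?_ ?_ ?_ ?_
  · simp [Sym2.eq_iff, s6.all]
  · simp [Sym2.eq_iff, s6.all]
  · intro e he
    simp only [List.mem_cons, List.not_mem_nil, or_false] at he
    rcases he with he | he | he | he <;> subst he <;> simp [TFC.sq]
  · intro v
    simp
    ring
  · (intro i j hij; fin_cases i <;> fin_cases j <;> first | rfl | (exfalso; revert hij; simp [Sym2.eq_iff, s6.all]))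
  · simp [Sym2.eq_iff, s6.all]
  · simp [Sym2.eq_iff, s6.all]
  · simp [Sym2.eq_iff, s6.all]
  · simp [Sym2.eq_iff, s6.all]
  · intro e he
    simp only [List.mem_cons, List.not_mem_nil, or_false] at he
    rcases he with he | he | he | he <;> subst he <;>
      first | (refine ⟨0, ?_⟩; simp; done) | (refine ⟨1, ?_⟩; simp; done) | (refine ⟨2, ?_⟩; simp; done) |
        (refine ⟨3, ?_⟩; simp; done) | (refine ⟨4, ?_⟩; simp; done)

lemma c0101 (D : Dat6 X P D j m L1 L2 x y p q r t) {s : ℕ} (hs : s ≤ j + 4)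
    (h : O6 X P L1 L2 x y p q r t s ![0, 1, 0, 1]) : False := by
  have s6 := D.six
  refine complete5 D hs h [s(q, p), s(p, x), s(x, y), s(y, r), s(r, t)] ?_ ?_ ?_ ?_ ![q, p, x, y, r] ?_ ?_ ?_ ?_ ?_ ?_
  · simp [Sym2.eq_iff, s6.all]
  · simp [Sym2.eq_iff, s6.all]
  · intro e he
    simp only [List.mem_cons, List.not_mem_nil, or_false] at he
    rcases he with he | he | he | he | he <;> subst he <;> simp [TFC.sq]
  · intro v
    simp
    ring
  · (intro i j hij; fin_cases i <;> fin_cases j <;> first | rfl | (exfalso; revert hij; simp [Sym2.eq_iff, s6.all]))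
  · simp [Sym2.eq_iff, s6.all]
  · simp [Sym2.eq_iff, s6.all]
  · simp [Sym2.eq_iff, s6.all]
  · simp [Sym2.eq_iff, s6.all]
  · intro e he
    simp only [List.mem_cons, List.not_mem_nil, or_false] at he
    rcases he with he | he | he | he | he <;> subst he <;>
      first | (refine ⟨0, ?_⟩; simp; done) | (refine ⟨1, ?_⟩; simp; done) | (refine ⟨2, ?_⟩; simp; done) |
        (refine ⟨3, ?_⟩; simp; done) | (refine ⟨4, ?_⟩; simp; done)

lemma c1010 (D : Dat6 X P D j m L1 L2 x y p q r t) {s : ℕ} (hs : s ≤ j + 4)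
    (h : O6 X P L1 L2 x y p q r t s ![1, 0, 1, 0]) : False := by
  have s6 := D.six
  refine complete5 D hs h [s(q, p), s(y, q), s(x, y), s(t, x), s(r, t)] ?_ ?_ ?_ ?_ ![p, q, y, x, t] ?_ ?_ ?_ ?_ ?_ ?_
  · simp [Sym2.eq_iff, s6.all]
  · simp [Sym2.eq_iff, s6.all]
  · intro e he
    simp only [List.mem_cons, List.not_mem_nil, or_false] at he
    rcases he with he | he | he | he | he <;> subst he <;> simp [TFC.sq]
  · intro v
    simp
    ring
  · (intro i j hij; fin_cases i <;> fin_cases j <;> first | rfl | (exfalso; revert hij; simp [Sym2.eq_iff, s6.all]))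
  · simp [Sym2.eq_iff, s6.all]
  · simp [Sym2.eq_iff, s6.all]
  · simp [Sym2.eq_iff, s6.all]
  · simp [Sym2.eq_iff, s6.all]
  · intro e he
    simp only [List.mem_cons, List.not_mem_nil, or_false] at he
    rcases he with he | he | he | he | he <;> subst he <;>
      first | (refine ⟨0, ?_⟩; simp; done) | (refine ⟨1, ?_⟩; simp; done) | (refine ⟨2, ?_⟩; simp; done) |
        (refine ⟨3, ?_⟩; simp; done) | (refine ⟨4, ?_⟩; simp; done)

lemma c1122 (D : Dat6 X P D j m L1 L2 x y p q r t) {s : ℕ} (hs : s ≤ j + 4)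
    (h : O6 X P L1 L2 x y p q r t s ![1, 1, 2, 2]) : False := by
  have s6 := D.six
  refine complete D hs h [s(p, x), s(x, y), s(y, q)] ?_ ?_ ?_ ?_ ?_
  · simp [Sym2.eq_iff, s6.all]
  · simp [Sym2.eq_iff, s6.all]
  · intro e he
    simp only [List.mem_cons, List.not_mem_nil, or_false] at he
    rcases he with he | he | he <;> subst he <;> simp [TFC.sq]
  · intro v
    simp
    ring
  · intro O hO hM
    refine fin4 hM (v := ![p, x, y, q]) ?_ ?_ ?_ ?_ ?_ ?_
    · (intro i j hij; fin_cases i <;> fin_cases j <;> first | rfl | (exfalso; revert hij; simp [Sym2.eq_iff, s6.all]))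
    · simp [Sym2.eq_iff, s6.all]
    · simp [Sym2.eq_iff, s6.all]
    · simp [Sym2.eq_iff, s6.all]
    · intro h1
      rcases mem_union.mp h1 with h1 | h1
      · refine disjoint_left.mp hO h1 ?_
        simp [TFC.sq]
      · revert h1
        simp [Sym2.eq_iff, s6.all]
    · intro e he
      rw [List.mem_toFinset] at he
      simp only [List.mem_cons, List.not_mem_nil, or_false] at he
      rcases he with he | he | he <;> subst he <;>
        first | (refine ⟨0, ?_⟩; simp; done) | (refine ⟨1, ?_⟩; simp; done) | (refine ⟨2, ?_⟩; simp; done) |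
          (refine ⟨3, ?_⟩; simp; done)

lemma c1111 (D : Dat6 X P D j m L1 L2 x y p q r t) {s : ℕ} (hs : s ≤ j + 4)
    (h : O6 X P L1 L2 x y p q r t s ![1, 1, 1, 1]) : False := by
  have s6 := D.six
  obtain ⟨O, hO, hk, hd, hsq⟩ := h
  have hOH : ∀ e ∈ O, e ∉ TFC.sq x y q p ∪ TFC.sq x y r t := fun e he => disjoint_left.mp hd he
  have hlt : ∀ e ∈ TFC.sq x y q p, ∀ v ∈ e, v < X.n := fun e he v hv =>
    D.ctx.hX.lt e (D.ctx.hX.e2 (D.ctx.hH (mem_union_left _ he))) v hv
  -- no edge of the outer part at `x` or `y`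
  have hx : ∀ m, s(x, m) ∉ O := by
    intro m hm
    have h1 := FitK.le hk (hlt s(x, y) (by simp [TFC.sq]) x (by simp))
    rw [dem6] at h1
    have h2 : 0 < dg O x := by
      rw [dg, card_pos]
      exact ⟨_, mem_filter.mpr ⟨hm, by simp⟩⟩
    simp [dv_apply, ev_apply, s6.xy, s6.xp, s6.xq, s6.xr, s6.xt, s6.xy.symm, s6.xp.symm, s6.xq.symm,
      s6.xr.symm, s6.xt.symm] at h1
    omega
  have hy : ∀ m, s(y, m) ∉ O := by
    intro m hm
    have h1 := FitK.le hk (hlt s(x, y) (by simp [TFC.sq]) y (by simp))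
    rw [dem6] at h1
    have h2 : 0 < dg O y := by
      rw [dg, card_pos]
      exact ⟨_, mem_filter.mpr ⟨hm, by simp⟩⟩
    simp [dv_apply, ev_apply, s6.xy, s6.yp, s6.yq, s6.yr, s6.yt, s6.xy.symm, s6.yp.symm, s6.yq.symm,
      s6.yr.symm, s6.yt.symm] at h1
    omega
  -- the second completion
  have second : ∀ m, (s(p, m) ∈ O ∧ s(t, m) ∈ O) ∨ (s(q, m) ∈ O ∧ s(r, m) ∈ O) →
      False := by
    intro m hm
    refine completeO (k := ![1, 1, 1, 1]) D hs hO hk hd hsq [s(t, x), s(x, y), s(y, r), s(q, p)] ?_ ?_ ?_ ?_ ?_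
    · simp [Sym2.eq_iff, s6.all]
    · simp [Sym2.eq_iff, s6.all]
    · intro e he
      simp only [List.mem_cons, List.not_mem_nil, or_false] at he
      rcases he with he | he | he | he <;> subst he <;> simp [TFC.sq]
    · intro v
      simp
      ring
    · intro hM a b c d hs hab
      rw [List.mem_toFinset] at hab
      have f4 := fin4 hM (v := ![t, x, y, r]) (P := {s(t, x), s(x, y), s(y, r)}) (by (intro i j hij; fin_cases i <;> fin_cases j <;> first | rfl | (exfalso; revert hij; simp [Sym2.eq_iff, s6.all])))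
        (by simp [Sym2.eq_iff, s6.all]) (by simp [Sym2.eq_iff, s6.all]) (by simp [Sym2.eq_iff, s6.all]) (by
          intro h1
          rcases mem_union.mp h1 with h1 | h1
          · refine hOH _ h1 ?_
            simp [TFC.sq]
          · revert h1
            simp [Sym2.eq_iff, s6.all]) (by
          intro e he
          simp only [mem_insert, mem_singleton] at he
          rcases he with he | he | he <;> subst he <;>
            first | (refine ⟨0, ?_⟩; simp; done) | (refine ⟨1, ?_⟩; simp; done) | (refine ⟨2, ?_⟩; simp; done)) a b c d hs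
      have hab2 : s(a, b) = s(q, p) := by
        simp only [List.mem_cons, List.not_mem_nil, or_false] at hab
        simp only [mem_insert, mem_singleton, not_or] at f4
        tauto
      rcases hm with ⟨h1, h2⟩ | ⟨h1, h2⟩
      · have mx : m ≠ x := by rintro rfl; exact hx p (msw h1)
        have mp : m ≠ p := by rintro rfl; exact (hM.nl.mono subset_union_left).ne h1 rfl
        have mt : m ≠ t := by rintro rfl; exact (hM.nl.mono subset_union_left).ne h2 rfl
        have mq : m ≠ q := by rintro rfl; exact hOH _ h1 (by simp [TFC.sq])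
        refine fin5 hM (v := ![q, p, m, t, x]) (P := {s(q, p)}) ?_ ?_ ?_ ?_ ?_ ?_ a b c d hs ?_
        · intro i j hij
          fin_cases i <;> fin_cases j <;> first | rfl | (exfalso; revert hij; simp [mx, mp, mt, mq, mx.symm, mp.symm, mt.symm, mq.symm, s6.all])
        · simp [Sym2.eq_iff, s6.all]
        · exact mem_union_left _ h1
        · exact mem_union_left _ (msw h2)
        · simp [Sym2.eq_iff, s6.all]
        · intro e he
          rw [mem_singleton] at he
          subst he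
          exact ⟨0, by simp⟩
        · rw [hab2]; simp
      · have my : m ≠ y := by rintro rfl; exact hy q (msw h1)
        have mq : m ≠ q := by rintro rfl; exact (hM.nl.mono subset_union_left).ne h1 rfl
        have mr : m ≠ r := by rintro rfl; exact (hM.nl.mono subset_union_left).ne h2 rfl
        have mp : m ≠ p := by rintro rfl; exact hOH _ h1 (by simp [TFC.sq])
        refine fin5 hM (v := ![p, q, m, r, y]) (P := {s(q, p)}) ?_ ?_ ?_ ?_ ?_ ?_ a b c d hs ?_
        · intro i j hij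
          fin_cases i <;> fin_cases j <;> first | rfl | (exfalso; revert hij; simp [my, mp, mr, mq, my.symm, mp.symm, mr.symm, mq.symm, s6.all])
        · simp [Sym2.eq_iff, s6.all]
        · exact mem_union_left _ h1
        · exact mem_union_left _ (msw h2)
        · simp [Sym2.eq_iff, s6.all]
        · intro e he
          rw [mem_singleton] at he
          subst he
          exact ⟨0, by simp⟩
        · rw [hab2]; simp
  by_cases hsec : ∃ m, (s(p, m) ∈ O ∧ s(t, m) ∈ O) ∨ (s(q, m) ∈ O ∧ s(r, m) ∈ O)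
  · obtain ⟨m, hm⟩ := hsec
    exact second m hm
  · refine completeO (k := ![1, 1, 1, 1]) D hs hO hk hd hsq [s(t, x), s(p, x), s(y, r), s(y, q)] ?_ ?_ ?_ ?_ ?_
    · simp [Sym2.eq_iff, s6.all]
    · simp [Sym2.eq_iff, s6.all]
    · intro e he
      simp only [List.mem_cons, List.not_mem_nil, or_false] at he
      rcases he with he | he | he | he <;> subst he <;> simp [TFC.sq]
    · intro v
      simp
      ring
    · intro hM a b c d hs hab
      rw [List.mem_toFinset] at hab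
      -- no square contains `x`
      have nx : ¬ (x = a ∨ x = b ∨ x = c ∨ x = d) := by
        intro hxm
        obtain ⟨m, hmx, h1, h2⟩ := hs.opp hM (u := x) (v := p) (w := t) hxm (by simp [Sym2.eq_iff, s6.all]) (by simp [Sym2.eq_iff, s6.all]) s6.pt
        refine hsec ⟨m, Or.inl ⟨?_, ?_⟩⟩
        · refine (mem_union.mp h1).resolve_right fun h3 => ?_
          revert h3
          simp [Sym2.eq_iff, s6.all]
          exact hmx
        · refine (mem_union.mp h2).resolve_right fun h3 => ?_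
          revert h3
          simp [Sym2.eq_iff, s6.all]
          exact hmx
      have ny : ¬ (y = a ∨ y = b ∨ y = c ∨ y = d) := by
        intro hym
        obtain ⟨m, hmy, h1, h2⟩ := hs.opp hM (u := y) (v := q) (w := r) hym (by simp [Sym2.eq_iff, s6.all]) (by simp [Sym2.eq_iff, s6.all]) s6.qr
        refine hsec ⟨m, Or.inr ⟨?_, ?_⟩⟩
        · refine (mem_union.mp h1).resolve_right fun h3 => ?_
          revert h3
          simp [Sym2.eq_iff, s6.all]
          exact hmy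
        · refine (mem_union.mp h2).resolve_right fun h3 => ?_
          revert h3
          simp [Sym2.eq_iff, s6.all]
          exact hmy
      simp only [List.mem_cons, List.not_mem_nil, or_false, Sym2.eq_iff] at hab
      rcases hab with (⟨h1, h2⟩ | ⟨h1, h2⟩) | (⟨h1, h2⟩ | ⟨h1, h2⟩) | (⟨h1, h2⟩ | ⟨h1, h2⟩) | (⟨h1, h2⟩ | ⟨h1, h2⟩)
      · exact nx (Or.inr (Or.inl h2.symm))
      · exact nx (Or.inl h1.symm)
      · exact nx (Or.inr (Or.inl h2.symm))
      · exact nx (Or.inl h1.symm)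
      · exact ny (Or.inl h1.symm)
      · exact ny (Or.inr (Or.inl h2.symm))
      · exact ny (Or.inl h1.symm)
      · exact ny (Or.inr (Or.inl h2.symm))

lemma interF (D : Dat6 X P D j m L1 L2 x y p q r t) {e : Sym2 ℕ} (h1 : e ∈ L1)
    (h2 : e ∈ TFC.sq x y q p ∪ TFC.sq x y r t) : e ∈ TFC.sq x y q p ∨ e = s(r, t) := by
  have s6 := D.six
  have hM := (D.ctx.hP.m2 j _ D.ctx.p1).1
  have q1 : s(x, y) ∈ L1 := D.ctx.s1 (by simp [TFC.sq])
  have q2 : s(y, q) ∈ L1 := D.ctx.s1 (by simp [TFC.sq])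
  have q4 : s(p, x) ∈ L1 := D.ctx.s1 (by simp [TFC.sq])
  rcases mem_union.mp h2 with h2 | h2
  · exact Or.inl h2
  · simp only [TFC.sq, mem_insert, mem_singleton] at h2
    rcases h2 with rfl | rfl | rfl | rfl
    · left; simp [TFC.sq]
    · exfalso
      rcases nbr_two (hM.le y) (msw q1) q2 s6.xq h1 with h | h
      · exact s6.xr h.symm
      · exact s6.qr h.symm
    · right; rfl
    · exfalso
      rcases nbr_two (hM.le x) q1 (msw q4) s6.yp (msw h1) with h | h
      · exact s6.yt h.symm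
      · exact s6.pt h.symm

lemma interN (D : Dat6 X P D j m L1 L2 x y p q r t) {e : Sym2 ℕ} (h1 : e ∈ L2)
    (h2 : e ∈ TFC.sq x y q p ∪ TFC.sq x y r t) : e ∈ TFC.sq x y r t ∨ e = s(q, p) := by
  have s6 := D.six
  have hM := (D.ctx.hP.m2 j _ D.ctx.p2).1
  have q1 : s(x, y) ∈ L2 := D.ctx.s2 (by simp [TFC.sq])
  have q2 : s(y, r) ∈ L2 := D.ctx.s2 (by simp [TFC.sq])
  have q4 : s(t, x) ∈ L2 := D.ctx.s2 (by simp [TFC.sq])
  rcases mem_union.mp h2 with h2 | h2
  · simp only [TFC.sq, mem_insert, mem_singleton] at h2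
    rcases h2 with rfl | rfl | rfl | rfl
    · left; simp [TFC.sq]
    · exfalso
      rcases nbr_two (hM.le y) (msw q1) q2 s6.xr h1 with h | h
      · exact s6.xq h.symm
      · exact s6.qr h
    · right; rfl
    · exfalso
      rcases nbr_two (hM.le x) q1 (msw q4) s6.yt (msw h1) with h | h
      · exact s6.yp h.symm
      · exact s6.pt h
  · exact Or.inl h2

lemma outerF1 (D : Dat6 X P D j m L1 L2 x y p q r t) (h : s(r, t) ∈ L1) :
    O6 X P L1 L2 x y p q r t (j + 1) ![0, 0, 1, 1] := by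
  have s6 := D.six
  have hd : Dist4 x y q p := ⟨s6.xy, s6.xq, s6.xp, s6.yq, s6.yp, s6.pq.symm⟩
  have hrt : s(r, t) ∉ TFC.sq x y q p := by
    simp [TFC.sq, Sym2.eq_iff, s6.xr.symm, s6.xt.symm, s6.yr.symm, s6.yt.symm, s6.pr.symm, s6.pt.symm,
      s6.qr.symm, s6.qt.symm]
  have e : L1 ∩ (TFC.sq x y q p ∪ TFC.sq x y r t) = insert s(r, t) (TFC.sq x y q p) := by
    ext e
    simp only [mem_inter]
    constructor
    · rintro ⟨h1, h2⟩
      rcases interF D h1 h2 with h3 | h3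
      · exact mem_insert_of_mem h3
      · rw [h3]; exact mem_insert_self _ _
    · intro h3
      rcases mem_insert.mp h3 with rfl | h3
      · exact ⟨h, mem_union_right _ (by simp [TFC.sq])⟩
      · exact ⟨D.ctx.s1 h3, mem_union_left _ h3⟩
  have ho := D.ctx.out1
  rw [e] at ho
  unfold O6
  convert ho using 1
  funext v
  rw [dem6, dv_insert s6.rt hrt, Pi.add_apply, Pi.add_apply, dv_sq hd]
  simp
  ring

lemma outerF2 (D : Dat6 X P D j m L1 L2 x y p q r t) (h : s(r, t) ∉ L1) :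
    O6 X P L1 L2 x y p q r t (j + 1) ![0, 0, 2, 2] := by
  have s6 := D.six
  have hd : Dist4 x y q p := ⟨s6.xy, s6.xq, s6.xp, s6.yq, s6.yp, s6.pq.symm⟩
  have e : L1 ∩ (TFC.sq x y q p ∪ TFC.sq x y r t) = TFC.sq x y q p := by
    ext e
    simp only [mem_inter]
    constructor
    · rintro ⟨h1, h2⟩
      rcases interF D h1 h2 with h3 | h3
      · exact h3
      · rw [h3] at h1; exact absurd h1 h
    · intro h3
      exact ⟨D.ctx.s1 h3, mem_union_left _ h3⟩
  have ho := D.ctx.out1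
  rw [e] at ho
  unfold O6
  convert ho using 1
  funext v
  rw [dem6, dv_sq hd]
  simp
  ring

lemma outerN1 (D : Dat6 X P D j m L1 L2 x y p q r t) (h : s(q, p) ∈ L2) :
    O6 X P L1 L2 x y p q r t (j + 1) ![1, 1, 0, 0] := by
  have s6 := D.six
  have hd : Dist4 x y r t := ⟨s6.xy, s6.xr, s6.xt, s6.yr, s6.yt, s6.rt⟩
  have hrt : s(q, p) ∉ TFC.sq x y r t := by
    simp [TFC.sq, Sym2.eq_iff, s6.xq.symm, s6.xp.symm, s6.yq.symm, s6.yp.symm, s6.pr, s6.pt,
      s6.qr, s6.qt]
  have e : L2 ∩ (TFC.sq x y q p ∪ TFC.sq x y r t) = insert s(q, p) (TFC.sq x y r t) := by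
    ext e
    simp only [mem_inter]
    constructor
    · rintro ⟨h1, h2⟩
      rcases interN D h1 h2 with h3 | h3
      · exact mem_insert_of_mem h3
      · rw [h3]; exact mem_insert_self _ _
    · intro h3
      rcases mem_insert.mp h3 with rfl | h3
      · exact ⟨h, mem_union_left _ (by simp [TFC.sq])⟩
      · exact ⟨D.ctx.s2 h3, mem_union_right _ h3⟩
  have ho := D.ctx.out2
  rw [e] at ho
  unfold O6
  convert ho using 1
  funext v
  rw [dem6, dv_insert s6.pq.symm hrt, Pi.add_apply, Pi.add_apply, dv_sq hd]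
  simp
  ring

lemma outerN2 (D : Dat6 X P D j m L1 L2 x y p q r t) (h : s(q, p) ∉ L2) :
    O6 X P L1 L2 x y p q r t (j + 1) ![2, 2, 0, 0] := by
  have s6 := D.six
  have hd : Dist4 x y r t := ⟨s6.xy, s6.xr, s6.xt, s6.yr, s6.yt, s6.rt⟩
  have e : L2 ∩ (TFC.sq x y q p ∪ TFC.sq x y r t) = TFC.sq x y r t := by
    ext e
    simp only [mem_inter]
    constructor
    · rintro ⟨h1, h2⟩
      rcases interN D h1 h2 with h3 | h3
      · exact h3
      · rw [h3] at h1; exact absurd h1 h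
    · intro h3
      exact ⟨D.ctx.s2 h3, mem_union_right _ h3⟩
  have ho := D.ctx.out2
  rw [e] at ho
  unfold O6
  convert ho using 1
  funext v
  rw [dem6, dv_sq hd]
  simp

/-- **resolution, six vertices** -/
theorem ce6 (D : Dat6 X P D j m L1 L2 x y p q r t) : False := by
  have s6 := D.six
  by_cases h1 : s(r, t) ∈ L1
  · exact c0011 D (by omega) (outerF1 D h1)
  by_cases h2 : s(q, p) ∈ L2
  · exact c1100 D (by omega) (outerN1 D h2)
  have hf : Function.Injective ![p, q, r, t] := by (intro i j hij; fin_cases i <;> fin_cases j <;> first | rfl | (exfalso; revert hij; simp [Sym2.eq_iff, s6.all]))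
  have hV : ∀ i, ![p, q, r, t] i ∈ X.V2 := by
    have hv : ∀ e ∈ TFC.sq x y q p ∪ TFC.sq x y r t, ∀ v ∈ e, v ∈ X.V2 := fun e he v hv =>
      D.ctx.hX.ev e (D.ctx.hH he) v hv
    intro i
    fin_cases i
    · exact hv s(q, p) (by simp [TFC.sq]) p (by simp)
    · exact hv s(q, p) (by simp [TFC.sq]) q (by simp)
    · exact hv s(r, t) (by simp [TFC.sq]) r (by simp)
    · exact hv s(r, t) (by simp [TFC.sq]) t (by simp)
  have h := four_st (P := fun s => {k | O6 X P L1 L2 x y p q r t (j + 1 + s) k})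
    (fun s k hk => Out.mono D.ctx.hP (by omega) hk)
    (by
      intro s k hk l hl i ε hε hpos
      exact pull_st hf (bas6 x y p q r t)
        (A := fun k => Out X P L1 L2 (TFC.sq x y q p ∪ TFC.sq x y r t) (j + 1 + s) k)
        (B := fun k => Out X P L1 L2 (TFC.sq x y q p ∪ TFC.sq x y r t) (j + 1 + (s + 1)) k)
        (fun a ha b hb i' ε' hε' h0 => Out.ex D.ctx.hP ha hb _ ε' (Or.inl (hV i')) hε' h0)
        hk hl i ε hε hpos)
    (outerN2 D h2) (outerF2 D h1)
  rcases h with h | h | h | h | h | h | h | h | h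
  · exact c1100 D (by omega) h
  · exact c1201 D (by omega) h
  · exact c0000 D (by omega) h
  · exact c0101 D (by omega) h
  · exact c2110 D (by omega) h
  · exact c1122 D (by omega) h
  · exact c1021 D (by omega) h
  · exact c1111 D (by omega) h
  · exact c1010 D (by omega) h

end six

section five

variable {X : XD} {P : ℕ → Finset (Sym2 ℕ) → Prop} {D : Finset (Finset (Sym2 ℕ))} {j m : ℕ}
  {L1 L2 : Finset (Sym2 ℕ)} {x y p q r : ℕ}

/-- **resolution, five vertices** -/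
theorem ce5 (C : Ctx X P D j m L1 L2 (TFC.sq x y q p) (TFC.sq x y r q)) (hm : 10 ≤ m)
    (s5 : Five x y p q r) : False := by
  have hdQ : Dist4 x y q p := ⟨s5.xy, s5.xq, s5.xp, s5.yq, s5.yp, s5.pq.symm⟩
  have hdR : Dist4 x y r q := ⟨s5.xy, s5.xr, s5.xq, s5.yr, s5.yq, s5.qr.symm⟩
  have m1 := (C.hP.m2 j _ C.p1).1
  have m2 := (C.hP.m2 j _ C.p2).1
  have f1 : s(x, y) ∈ L1 := C.s1 (by simp [TFC.sq])
  have f2 : s(y, q) ∈ L1 := C.s1 (by simp [TFC.sq])
  have f3 : s(q, p) ∈ L1 := C.s1 (by simp [TFC.sq])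
  have f4 : s(p, x) ∈ L1 := C.s1 (by simp [TFC.sq])
  have n1 : s(x, y) ∈ L2 := C.s2 (by simp [TFC.sq])
  have n2 : s(y, r) ∈ L2 := C.s2 (by simp [TFC.sq])
  have n3 : s(r, q) ∈ L2 := C.s2 (by simp [TFC.sq])
  have n4 : s(q, x) ∈ L2 := C.s2 (by simp [TFC.sq])
  set H := TFC.sq x y q p ∪ TFC.sq x y r q with hH
  have eF : L1 ∩ H = TFC.sq x y q p := by
    ext e
    simp only [mem_inter]
    constructor
    · rintro ⟨h1, h3⟩
      rcases mem_union.mp h3 with h3 | h3
      · exact h3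
      · simp only [TFC.sq, mem_insert, mem_singleton] at h3
        rcases h3 with rfl | rfl | rfl | rfl
        · simp [TFC.sq]
        · exfalso
          rcases nbr_two (m1.le y) (msw f1) f2 s5.xq h1 with h | h
          · exact s5.xr h.symm
          · exact s5.qr h.symm
        · exfalso
          rcases nbr_two (m1.le q) (msw f2) f3 s5.yp (msw h1) with h | h
          · exact s5.yr h.symm
          · exact s5.pr h.symm
        · exfalso
          rcases nbr_two (m1.le x) f1 (msw f4) s5.yp (msw h1) with h | h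
          · exact s5.yq h.symm
          · exact s5.pq h.symm
    · intro h3
      exact ⟨C.s1 h3, mem_union_left _ h3⟩
  have eN : L2 ∩ H = TFC.sq x y r q := by
    ext e
    simp only [mem_inter]
    constructor
    · rintro ⟨h1, h3⟩
      rcases mem_union.mp h3 with h3 | h3
      · simp only [TFC.sq, mem_insert, mem_singleton] at h3
        rcases h3 with rfl | rfl | rfl | rfl
        · simp [TFC.sq]
        · exfalso
          rcases nbr_two (m2.le y) (msw n1) n2 s5.xr h1 with h | h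
          · exact s5.xq h.symm
          · exact s5.qr h
        · exfalso
          rcases nbr_two (m2.le q) (msw n3) n4 s5.xr.symm h1 with h | h
          · exact s5.pr h
          · exact s5.xp h.symm
        · exfalso
          rcases nbr_two (m2.le x) n1 (msw n4) s5.yq (msw h1) with h | h
          · exact s5.yp h.symm
          · exact s5.pq h
      · exact h3
    · intro h3
      exact ⟨C.s2 h3, mem_union_right _ h3⟩
  let base : ℕ → ℤ := fun v => 2 * ev x v + 2 * ev y v + 2 * ev q v + 2 * ev p v + 2 * ev r v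
  have hf : Function.Injective ![p, r] := by
    intro i j hij
    fin_cases i <;> fin_cases j <;> first | rfl | (exfalso; revert hij; simp [Sym2.eq_iff, s5.all])
  have hV : ∀ i, ![p, r] i ∈ X.V2 := by
    have hv : ∀ e ∈ H, ∀ v ∈ e, v ∈ X.V2 := fun e he v hv => C.hX.ev e (C.hH he) v hv
    intro i
    fin_cases i
    · exact hv s(q, p) (by simp [hH, TFC.sq]) p (by simp)
    · exact hv s(y, r) (by simp [hH, TFC.sq]) r (by simp)
  have o1 : Out X P L1 L2 H (j + 1) (base - put ![p, r] ![0, 2]) := by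
    have ho := C.out1
    rw [← hH, eF] at ho
    convert ho using 1
    funext v
    rw [dv_sq hdQ, Pi.sub_apply, put2]
    simp [base]
  have o2 : Out X P L1 L2 H (j + 1) (base - put ![p, r] ![2, 0]) := by
    have ho := C.out2
    rw [← hH, eN] at ho
    convert ho using 1
    funext v
    rw [dv_sq hdR, Pi.sub_apply, put2]
    simp [base]
    ring
  obtain ⟨i, δ, hδ, hpos, hmem⟩ := pull_st hf base
    (A := fun k => Out X P L1 L2 H (j + 1) k) (B := fun k => Out X P L1 L2 H (j + 1 + 1) k)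
    (fun a ha b hb i' ε' hε' h0 => Out.ex C.hP ha hb _ ε' (Or.inl (hV i')) hε' h0)
    o1 o2 0 1 (Or.inl rfl) (by simp)
  fin_cases i
  · -- (2,2): a triangle
    have hδ1 : δ = 1 := by
      rcases hδ with h | h
      · exact h
      · subst h
        simp at hpos
    subst hδ1
    have e22 : (![0, 2] + Pi.single 0 1 + Pi.single (0 : Fin 2) (1 : ℤ) : Fin 2 → ℤ) = ![2, 2] := by
      funext i
      fin_cases i <;> simp [Matrix.vecHead, Matrix.vecTail]
    have hmem' : Out X P L1 L2 H (j + 1 + 1) (base - put ![p, r] ![2, 2]) := by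
      rw [← e22]; exact hmem
    obtain ⟨O, hO, hk, hd, hsq⟩ := hmem'
    refine C.complete (t := j + 1 + 1) (by omega) hO hk hd hsq (K := [s(x, y), s(y, q), s(q, x)].toFinset) ?_ ?_ ?_
    · intro e he
      rw [List.mem_toFinset] at he
      simp only [List.mem_cons, List.not_mem_nil, or_false] at he
      rcases he with he | he | he <;> subst he <;> simp [TFC.sq]
    · funext v
      rw [dv_list, Pi.sub_apply, put2]
      · simp [base]
        ring
      · simp [Sym2.eq_iff, s5.all]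
      · simp [Sym2.eq_iff, s5.all]
    · intro hM a b c d hs hab
      have e1 : s(x, y) ∈ O ∪ [s(x, y), s(y, q), s(q, x)].toFinset := by simp
      have e2 : s(y, q) ∈ O ∪ [s(x, y), s(y, q), s(q, x)].toFinset := by simp
      have e3 : s(q, x) ∈ O ∪ [s(x, y), s(y, q), s(q, x)].toFinset := by simp
      let I : ℕ → Prop := fun u => u = a ∨ u = b ∨ u = c ∨ u = d
      have hcl : ∀ u w, I u → s(u, w) ∈ O ∪ [s(x, y), s(y, q), s(q, x)].toFinset → I w :=
        fun u w hu huw => hs.closed hM hu huw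
      have hx : I x := by
        rw [List.mem_toFinset] at hab
        simp only [List.mem_cons, List.not_mem_nil, or_false, Sym2.eq_iff] at hab
        rcases hab with (⟨h1, h2⟩ | ⟨h1, h2⟩) | (⟨h1, h2⟩ | ⟨h1, h2⟩) | (⟨h1, h2⟩ | ⟨h1, h2⟩)
        · exact Or.inl h1.symm
        · exact Or.inr (Or.inl h2.symm)
        · exact hcl y x (Or.inl h1.symm) (msw e1)
        · exact hcl y x (Or.inr (Or.inl h2.symm)) (msw e1)
        · exact Or.inr (Or.inl h2.symm)
        · exact Or.inl h1.symm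
      obtain ⟨m, hmx, h1, h2⟩ := hs.opp hM (u := x) (v := y) (w := q) hx e1 (msw e3) s5.yq
      rcases nbr_two (hM.le y) (msw e1) e2 s5.xq h1 with h | h
      · exact hmx h
      · subst h
        exact hM.nl.ne h2 rfl
  · -- (1,1): a path
    have hδ1 : δ = -1 := by
      rcases hδ with h | h
      · subst h
        simp at hpos
      · exact h
    subst hδ1
    have e11 : (![0, 2] + Pi.single 0 1 + Pi.single (1 : Fin 2) (-1 : ℤ) : Fin 2 → ℤ) = ![1, 1] := by
      funext i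
      fin_cases i <;> simp [Matrix.vecHead, Matrix.vecTail]
    have hmem' : Out X P L1 L2 H (j + 1 + 1) (base - put ![p, r] ![1, 1]) := by
      rw [← e11]; exact hmem
    obtain ⟨O, hO, hk, hd, hsq⟩ := hmem'
    refine C.complete (t := j + 1 + 1) (by omega) hO hk hd hsq
      (K := [s(p, x), s(x, y), s(y, q), s(q, r)].toFinset) ?_ ?_ ?_
    · intro e he
      rw [List.mem_toFinset] at he
      simp only [List.mem_cons, List.not_mem_nil, or_false] at he
      rcases he with he | he | he | he <;> subst he <;> simp [TFC.sq]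
    · funext v
      rw [dv_list, Pi.sub_apply, put2]
      · simp [base]
        ring
      · simp [Sym2.eq_iff, s5.all]
      · simp [Sym2.eq_iff, s5.all]
    · intro hM
      refine fin5 hM (v := ![p, x, y, q, r]) ?_ ?_ ?_ ?_ ?_ ?_
      · intro i j hij
        fin_cases i <;> fin_cases j <;> first | rfl | (exfalso; revert hij; simp [Sym2.eq_iff, s5.all])
      · simp
      · simp
      · simp
      · simp
      · intro e he
        rw [List.mem_toFinset] at he
        simp only [List.mem_cons, List.not_mem_nil, or_false] at he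
        rcases he with he | he | he | he <;> subst he <;>
          first | (refine ⟨0, ?_⟩; simp; done) | (refine ⟨1, ?_⟩; simp; done) | (refine ⟨2, ?_⟩; simp; done) |
            (refine ⟨3, ?_⟩; simp; done) | (refine ⟨4, ?_⟩; simp; done)

end five

end Rs

/-- **resolution**: two squares of a minimal blocking family do not share exactly one edge -/
theorem res {X : XD} {P : ℕ → Finset (Sym2 ℕ) → Prop} {D : Finset (Finset (Sym2 ℕ))} {j m : ℕ}
    (hX : X.OK) (hP : XP X P) (hD : Blk X P D j m) (hm : 10 ≤ m) :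
    ∀ Z ∈ D, ∀ Z' ∈ D, Z ≠ Z' → #(Z ∩ Z') ≠ 1 := by
  intro Q hQD R hRD hne h1
  obtain ⟨L1, p1, c1, s1, w1⟩ := hD.wit Q hQD
  obtain ⟨L2, p2, c2, s2, w2⟩ := hD.wit R hRD
  have isq : ∀ Y, Hs X.T Y → IsSq Y := fun Y ⟨a, b, c, d, h, e, _⟩ => ⟨a, b, c, d, h, e⟩
  have hQ := isq Q (hD.hs Q hQD).1
  have hR := isq R (hD.hs R hRD).1
  obtain ⟨e, he⟩ := card_eq_one.mp h1
  induction e using Sym2.ind with
  | _ x y =>
  have hmem : ∀ e', e' ∈ Q → e' ∈ R → e' = s(x, y) := by
    intro e' h h'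
    have : e' ∈ Q ∩ R := mem_inter.mpr ⟨h, h'⟩
    rw [he, mem_singleton] at this
    exact this
  have hxy : s(x, y) ∈ Q ∩ R := by rw [he]; exact mem_singleton_self _
  obtain ⟨q, p, ⟨xy, xq, xp, yq, yp, qp⟩, rfl⟩ := isSq_first hQ (mem_inter.mp hxy).1
  obtain ⟨r, t, ⟨-, xr, xt, yr, yt, rt⟩, rfl⟩ := isSq_first hR (mem_inter.mp hxy).2
  have hqr : q ≠ r := by
    rintro rfl
    have := hmem s(y, q) (by simp [TFC.sq]) (by simp [TFC.sq])
    rw [Sym2.eq_iff] at this
    rcases this with ⟨h1, -⟩ | ⟨-, h2⟩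
    · exact xy h1.symm
    · exact xq h2.symm
  have hpt : p ≠ t := by
    rintro rfl
    have := hmem s(p, x) (by simp [TFC.sq]) (by simp [TFC.sq])
    rw [Sym2.eq_iff] at this
    rcases this with ⟨h1, -⟩ | ⟨h2, -⟩
    · exact xp h1.symm
    · exact yp h2.symm
  by_cases hqt : q = t
  · subst hqt
    have hpr : p ≠ r := by
      rintro rfl
      have := hmem s(q, p) (by simp [TFC.sq]) (by simp [TFC.sq])
      rw [Sym2.eq_iff] at this
      rcases this with ⟨h1, -⟩ | ⟨h2, -⟩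
      · exact xq h1.symm
      · exact yq h2.symm
    exact Rs.ce5 ⟨hX, hP, hD, hQD, hRD, p1, p2, c1, c2, s1, s2, w1, w2⟩ hm
      ⟨xy, xp, xq, xr, yp, yq, yr, qp.symm, hpr, hqr⟩
  by_cases hpr : p = r
  · subst hpr
    have e1 : TFC.sq x y q p = TFC.sq y x p q := by
      ext e
      simp only [TFC.sq, mem_insert, mem_singleton]
      rw [Sym2.eq_swap (a := y) (b := x), Sym2.eq_swap (a := x) (b := p), Sym2.eq_swap (a := p) (b := q),
        Sym2.eq_swap (a := q) (b := y)]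
      tauto
    have e2 : TFC.sq x y p t = TFC.sq y x t p := by
      ext e
      simp only [TFC.sq, mem_insert, mem_singleton]
      rw [Sym2.eq_swap (a := y) (b := x), Sym2.eq_swap (a := x) (b := t), Sym2.eq_swap (a := t) (b := p),
        Sym2.eq_swap (a := p) (b := y)]
      tauto
    rw [e1] at hQD s1 w1
    rw [e2] at hRD s2 w2
    exact Rs.ce5 ⟨hX, hP, hD, hQD, hRD, p1, p2, c1, c2, s1, s2, w1, w2⟩ hm
      ⟨xy.symm, yq, yp, yt, xq, xp, xt, qp, hqt, hpt⟩
  · exact Rs.ce6 ⟨⟨hX, hP, hD, hQD, hRD, p1, p2, c1, c2, s1, s2, w1, w2⟩, hm,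
      ⟨xy, xp, xq, xr, xt, yp, yq, yr, yt, qp.symm, hpr, hpt, hqr, hqt, rt⟩⟩

end Pool.Agent.PF4.XF

end
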