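import Mathlib

section -- file TF4/Ver

set_option autoImplicit false

namespace TF4

open Finset

/-! ### the problem -/

/-- `F` is a 2-factor of `G` without cycles of length 4 -/
structure IsFac {V : Type} (G F : SimpleGraph V) : Prop where
  le : F ≤ G
  two : ∀ v, {u | F.Adj v u}.ncard = 2
  free : ∀ a b c d, F.Adj a b → F.Adj b c → F.Adj c d → F.Adj d a → a = c ∨ b = d

/-- the adjacency matrix of `G`, row by row -/
noncomputable def code {n : ℕ} (G : SimpleGraph (Fin n)) : List Bool := by
  classical exact List.ofFn fun k : Fin (n * n) => decide (G.Adj k.divNat k.modNat)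

/-- 2F({4}) as a language: adjacency matrices of the graphs with a 2-factor without cycles of length 4 -/
def TwoF4 : Set (List Bool) :=
  {w | ∃ (n : ℕ) (G : SimpleGraph (Fin n)), w = code G ∧ ∃ F, IsFac G F}

/-! ### graphs on `0, .., n-1` given by a bit string -/

/-- the bit in row `i` and column `j` -/
def bit (n : ℕ) (w : List Bool) (i j : ℕ) : Bool := w.getD (n * i + j) false

/-- the graph of a bit string -/
def gr (n : ℕ) (w : List Bool) : SimpleGraph (Fin n) where
  Adj i j := bit n w i j = true ∧ bit n w j i = true ∧ i ≠ j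
  symm := ⟨fun _ _ h => ⟨h.2.1, h.1, h.2.2.symm⟩⟩
  loopless := ⟨fun _ h => h.2.2 rfl⟩

/-- `w` is the adjacency matrix of a graph on `0, .., n-1` -/
def matB (n : ℕ) (w : List Bool) : Bool :=
  decide (w.length = n * n) && (List.range n).all (fun i => !bit n w i i &&
    (List.range n).all (fun j => decide (bit n w i j = bit n w j i)))

/-- the number of vertices -/
def side (w : List Bool) : ℕ :=
  ((List.range (w.length + 1)).filter (fun n => decide (n * n = w.length))).headD 0

end TF4

end

section -- file Lib/helper60/PNP

/-!
The classes P and NP of languages over `{0,1}`, in terms of the Turing machines of Mathlib.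
-/

set_option autoImplicit false

namespace Pool.Agent.Lib.helper60

open Turing Computability

/-- code of a pair `(x, c)` of bit strings: each bit of `x` doubled, then `01`, then `c` -/
def encPair (p : List Bool × List Bool) : List Bool :=
  p.1.flatMap (fun b => [b, b]) ++ ([false, true] ++ p.2)

/-- `L` is decided by a deterministic Turing machine in polynomial time -/
def InP (L : Set (List Bool)) : Prop :=
  ∃ d : List Bool → Bool,
    Nonempty (TM2ComputableInPolyTime (fun w : List Bool => w) encodeBool d) ∧
    ∀ w, w ∈ L ↔ d w = true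

/-- `L` is in NP: membership of `w` is witnessed by certificates of polynomial length that a
deterministic Turing machine checks in polynomial time -/
def InNP (L : Set (List Bool)) : Prop :=
  ∃ (R : List Bool × List Bool → Bool) (p : Polynomial ℕ),
    Nonempty (TM2ComputableInPolyTime encPair encodeBool R) ∧
    ∀ w, w ∈ L ↔ ∃ c : List Bool, c.length ≤ p.eval w.length ∧ R (w, c) = true

end Pool.Agent.Lib.helper60

end

section -- file TF34/K12

set_option autoImplicit false

namespace TF34

open TF4

/-- `F` is a 2-factor of `G` without cycles of length in `S` -/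
structure Fac (S : Set ℕ) {V : Type} (G F : SimpleGraph V) : Prop where
  le : F ≤ G
  two : ∀ v, {u | F.Adj v u}.ncard = 2
  free : ∀ (v : V) (p : F.Walk v v), p.IsCycle → p.length ∉ S

/-- (TF34-K12) cycles of length 4. -/
theorem no_four {V : Type} (F : SimpleGraph V) :
    (∀ (v : V) (p : F.Walk v v), p.IsCycle → p.length ≠ 4) ↔
      ∀ a b c d, F.Adj a b → F.Adj b c → F.Adj c d → F.Adj d a → a = c ∨ b = d := by
  constructor
  · intro h a b c d h1 h2 h3 h4
    by_contra hcon
    rw [not_or] at hcon
    obtain ⟨hac, hbd⟩ := hcon
    refine h a (.cons h1 (.cons h2 (.cons h3 (.cons h4 .nil)))) ?_ rfl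
    rw [SimpleGraph.Walk.cons_isCycle_iff]
    refine ⟨?_, ?_⟩
    · rw [SimpleGraph.Walk.isPath_def]
      simp [h2.ne, h3.ne, h4.ne, h1.ne.symm, hbd, Ne.symm hac]
    · simp [h1.ne, h2.ne, h3.ne, h4.ne.symm, h1.ne.symm, hac, hbd]
  · intro h v p hp hl
    match p, hl, hp with
    | .cons h1 (.cons h2 (.cons h3 (.cons h4 .nil))), _, hp =>
      rw [SimpleGraph.Walk.cons_isCycle_iff, SimpleGraph.Walk.isPath_def] at hp
      have hnd := hp.1
      simp only [SimpleGraph.Walk.support_cons, SimpleGraph.Walk.support_nil, List.nodup_cons,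
        List.mem_cons, List.not_mem_nil, or_false, not_or] at hnd
      obtain ⟨⟨-, hbd, -⟩, ⟨-, hca⟩, -⟩ := hnd
      rcases h _ _ _ _ h1 h2 h3 h4 with h5 | h5
      · exact hca h5.symm
      · exact hbd h5

theorem fac_four {V : Type} (G F : SimpleGraph V) : Fac {4} G F ↔ IsFac G F := by
  constructor
  · intro h
    refine ⟨h.le, h.two, ?_⟩
    exact (no_four F).1 fun v p hp hl => h.free v p hp (by rw [hl]; exact rfl)
  · intro h
    refine ⟨h.le, h.two, ?_⟩
    intro v p hp hl
    exact (no_four F).2 h.free v p hp hl

end TF34

end
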