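import Pool.Agent.PFM.M02
import Pool.Agent.PFM.M05
import Pool.Agent.PFM.M08

section -- file PF4/LemD

/-!
The digon lemma of the solver for a conflict-free family of squares (note 1993 on MP_d66f00_lc), in
abstract graded form.  `H k x` = the vector `x` is available at stage `k`.  `o` is the vector of the
relaxed configuration (token `t` used), `o - e_t - e_v` and `o - e_t + e_v` are the vectors of the
facts `(v, -)` and `(v, +)` (token not used).
-/

set_option autoImplicit false

namespace Pool.Agent.PF4.LD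

open Pool.Agent.TFC

/-- a graded family of vectors, closed under the two-step exchange (first step in `I`) -/
structure Gr (I : ℕ → Prop) (H : ℕ → (ℕ → ℤ) → Prop) : Prop where
  mono : ∀ k x, H k x → H (k + 1) x
  ex : ∀ k x y (i : ℕ) (ε : ℤ), I i → H k x → H k y → (ε = 1 ∨ ε = -1) → 0 < ε * (y i - x i) →
    ∃ z, H (k + 1) z ∧ Two x y z i ε

theorem Gr.up {I : ℕ → Prop} {H : ℕ → (ℕ → ℤ) → Prop} (G : Gr I H) {k l : ℕ} (h : k ≤ l)
    {x : ℕ → ℤ} (hx : H k x) : H l x := by
  induction l, h using Nat.le_induction with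
  | base => exact hx
  | succ n _ ih => exact G.mono _ _ ih

theorem evv (a v : ℕ) : (ev a : ℕ → ℤ) v = if v = a then 1 else 0 := ev_apply a v

theorem sgl (i : ℕ) (ε : ℤ) (v : ℕ) : (Pi.single i ε : ℕ → ℤ) v = if v = i then ε else 0 := by
  rw [Pi.single_apply]

/-- change the vector -/
theorem cgH {H : ℕ → (ℕ → ℤ) → Prop} {k : ℕ} {x y : ℕ → ℤ} (h : H k x) (e : ∀ v, x v = y v) :
    H k y := by
  rw [← funext e]; exact h

section
variable {I : ℕ → Prop} {H : ℕ → (ℕ → ℤ) → Prop} {o : ℕ → ℤ} {t a p c w k : ℕ}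

/-- STAR: both ends of the digon have an unknown deficit port -/
theorem d_star (G : Gr I H) {σ : ℤ} (hσ : σ = 1 ∨ σ = -1) (hw : I w) (hat : a ≠ t) (hpt : p ≠ t)
    (hap : a ≠ p) (hwt : w ≠ t) (hY : H k (o - ev t + σ • ev w)) (ha : ¬(σ = -1 ∧ w = a))
    (hp : ¬(σ = -1 ∧ w = p)) (h1 : H k (o - ev a - ev p)) :
    H (k + 1) o ∨ H (k + 1) (o - ev t - ev a) ∨ H (k + 1) (o - ev t - ev p) := by
  obtain ⟨z, hz, j, δ, hδ, h, rfl⟩ := G.ex k _ _ w (-σ) hw hY h1 (by omega) (by
    simp only [Pi.add_apply, Pi.sub_apply, Pi.smul_apply, evv, smul_eq_mul]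
    split_ifs <;> rcases hσ with rfl | rfl <;>
      first | (exfalso; omega) | omega | (simp_all; done) | (exfalso; simp_all; omega))
  simp only [Pi.add_apply, Pi.sub_apply, Pi.smul_apply, evv, sgl, smul_eq_mul] at h
  have key : (j = t ∧ δ = 1) ∨ (j = a ∧ δ = -1) ∨ (j = p ∧ δ = -1) := by
    split_ifs at h <;> rcases hσ with rfl | rfl <;> rcases hδ with rfl | rfl <;>
      first | (exfalso; omega) | omega | (simp_all; done) | (exfalso; simp_all; omega)
  rcases key with ⟨rfl, rfl⟩ | ⟨rfl, rfl⟩ | ⟨rfl, rfl⟩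
  · left; exact cgH hz (by intro v; simp only [Pi.add_apply, Pi.sub_apply, Pi.smul_apply, evv, sgl, smul_eq_mul]; split_ifs <;> ring)
  · right; left; exact cgH hz (by intro v; simp only [Pi.add_apply, Pi.sub_apply, Pi.smul_apply, evv, sgl, smul_eq_mul]; split_ifs <;> ring)
  · right; right; exact cgH hz (by intro v; simp only [Pi.add_apply, Pi.sub_apply, Pi.smul_apply, evv, sgl, smul_eq_mul]; split_ifs <;> ring)

/-- L2: the vertex `c` has a known deficit port -/
theorem d_plus (G : Gr I H) (ha : I a) (hat : a ≠ t) (hct : c ≠ t) (hac : a ≠ c)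
    (hY : H k (o - ev t - ev c)) (hX : H k (o - ev a + ev c)) :
    H (k + 1) o ∨ H (k + 1) (o - ev t + ev c) := by
  obtain ⟨z, hz, j, δ, hδ, h, rfl⟩ := G.ex k _ _ a 1 ha hX hY (by omega) (by
    simp only [Pi.add_apply, Pi.sub_apply, evv]
    split_ifs <;>
      first | (exfalso; omega) | omega | (simp_all; done) | (exfalso; simp_all; omega))
  simp only [Pi.add_apply, Pi.sub_apply, evv, sgl] at h
  have key : (j = t ∧ δ = -1) ∨ (j = c ∧ δ = -1) := by
    split_ifs at h <;> rcases hδ with rfl | rfl <;>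
      first | (exfalso; omega) | omega | (simp_all; done) | (exfalso; simp_all; omega)
  rcases key with ⟨rfl, rfl⟩ | ⟨rfl, rfl⟩
  · right; exact cgH hz (by intro v; simp only [Pi.add_apply, Pi.sub_apply, Pi.smul_apply, evv, sgl, smul_eq_mul]; split_ifs <;> ring)
  · left; exact cgH hz (by intro v; simp only [Pi.add_apply, Pi.sub_apply, Pi.smul_apply, evv, sgl, smul_eq_mul]; split_ifs <;> ring)

/-- L1a: `a` has a known surplus port -/
theorem d_a (G : Gr I H) (ha : I a) (hp : I p) (ht : I t) (hat : a ≠ t) (hpt : p ≠ t)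
    (hap : a ≠ p) (hY : H k (o - ev t + ev a)) (h1 : H k (o - ev a - ev p))
    (h2 : H k (o - (2 : ℤ) • ev a - (2 : ℤ) • ev p)) :
    H (k + 3) o ∨ H (k + 3) (o - ev t - ev p) := by
  -- step 1: from Y towards X1, first step at a
  obtain ⟨z, hz, j, δ, hδ, h, rfl⟩ := G.ex k _ _ a (-1) ha hY h1 (by omega) (by
    simp only [Pi.add_apply, Pi.sub_apply, evv]
    split_ifs <;>
      first | (exfalso; omega) | omega | (simp_all; done) | (exfalso; simp_all; omega))
  simp only [Pi.add_apply, Pi.sub_apply, evv, sgl] at h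
  have key : (j = t ∧ δ = 1) ∨ (j = a ∧ δ = -1) ∨ (j = p ∧ δ = -1) := by
    split_ifs at h <;> rcases hδ with rfl | rfl <;>
      first | (exfalso; omega) | omega | (simp_all; done) | (exfalso; simp_all; omega)
  rcases key with ⟨rfl, rfl⟩ | ⟨rfl, rfl⟩ | ⟨rfl, rfl⟩
  · left; apply G.up (show k + 1 ≤ k + 3 by omega); exact cgH hz (by intro v; simp only [Pi.add_apply, Pi.sub_apply, Pi.smul_apply, evv, sgl, smul_eq_mul]; split_ifs <;> ring)
  · -- z1 = o - e_t - e_a
    have hz1 : H (k + 1) (o - ev t - ev j) := by exact cgH hz (by intro v; simp only [Pi.add_apply, Pi.sub_apply, Pi.smul_apply, evv, sgl, smul_eq_mul]; split_ifs <;> ring)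
    obtain ⟨z, hz, i, δ, hδ, h, rfl⟩ := G.ex (k + 1) _ _ j (-1) ha hz1 (G.mono _ _ h2) (by omega) (by
      simp only [Pi.sub_apply, Pi.smul_apply, evv, smul_eq_mul]
      split_ifs <;>
      first | (exfalso; omega) | omega | (simp_all; done) | (exfalso; simp_all; omega))
    simp only [Pi.add_apply, Pi.sub_apply, Pi.smul_apply, evv, sgl, smul_eq_mul] at h
    have key : (i = t ∧ δ = 1) ∨ (i = p ∧ δ = -1) := by
      split_ifs at h <;> rcases hδ with rfl | rfl <;>
      first | (exfalso; omega) | omega | (simp_all; done) | (exfalso; simp_all; omega)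
    rcases key with ⟨rfl, rfl⟩ | ⟨rfl, rfl⟩
    · -- z3 = o - 2 e_a
      have hz3 : H (k + 2) (o - (2 : ℤ) • ev j) := by exact cgH hz (by intro v; simp only [Pi.add_apply, Pi.sub_apply, Pi.smul_apply, evv, sgl, smul_eq_mul]; split_ifs <;> ring)
      obtain ⟨z, hz, l, δ, hδ, h, rfl⟩ := G.ex (k + 2) _ _ i 1 ht
        (G.up (show k ≤ k + 2 by omega) hY) hz3 (by omega) (by
        simp only [Pi.add_apply, Pi.sub_apply, Pi.smul_apply, evv, smul_eq_mul]
        split_ifs <;>
      first | (exfalso; omega) | omega | (simp_all; done) | (exfalso; simp_all; omega))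
      simp only [Pi.add_apply, Pi.sub_apply, Pi.smul_apply, evv, sgl, smul_eq_mul] at h
      have key : l = j ∧ δ = -1 := by
        split_ifs at h <;> rcases hδ with rfl | rfl <;>
      first | (exfalso; omega) | omega | (simp_all; done) | (exfalso; simp_all; omega)
      obtain ⟨rfl, rfl⟩ := key
      left; exact cgH hz (by intro v; simp only [Pi.add_apply, Pi.sub_apply, Pi.smul_apply, evv, sgl, smul_eq_mul]; split_ifs <;> ring)
    · -- z2 = o - e_t - 2 e_a - e_p
      have hz2 : H (k + 2) (o - ev t - (2 : ℤ) • ev j - ev i) := by exact cgH hz (by intro v; simp only [Pi.add_apply, Pi.sub_apply, Pi.smul_apply, evv, sgl, smul_eq_mul]; split_ifs <;> ring)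
      obtain ⟨z, hz, l, δ, hδ, h, rfl⟩ := G.ex (k + 2) _ _ i (-1) hp
        (G.up (show k ≤ k + 2 by omega) hY) hz2 (by omega) (by
        simp only [Pi.add_apply, Pi.sub_apply, Pi.smul_apply, evv, smul_eq_mul]
        split_ifs <;>
      first | (exfalso; omega) | omega | (simp_all; done) | (exfalso; simp_all; omega))
      simp only [Pi.add_apply, Pi.sub_apply, Pi.smul_apply, evv, sgl, smul_eq_mul] at h
      have key : l = j ∧ δ = -1 := by
        split_ifs at h <;> rcases hδ with rfl | rfl <;>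
      first | (exfalso; omega) | omega | (simp_all; done) | (exfalso; simp_all; omega)
      obtain ⟨rfl, rfl⟩ := key
      right; exact cgH hz (by intro v; simp only [Pi.add_apply, Pi.sub_apply, Pi.smul_apply, evv, sgl, smul_eq_mul]; split_ifs <;> ring)
  · right; apply G.up (show k + 1 ≤ k + 3 by omega); exact cgH hz (by intro v; simp only [Pi.add_apply, Pi.sub_apply, Pi.smul_apply, evv, sgl, smul_eq_mul]; split_ifs <;> ring)

/-- L1b: both ends of the digon have a known surplus port -/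
theorem d_ab (G : Gr I H) (hp : I p) (ht : I t) (hat : a ≠ t) (hpt : p ≠ t)
    (hap : a ≠ p) (hY : H k (o - ev t + ev a)) (hY' : H k (o - ev t + ev p))
    (h1 : H k (o - ev a - ev p)) (h2 : H k (o - (2 : ℤ) • ev a - (2 : ℤ) • ev p)) :
    H (k + 3) o := by
  obtain ⟨z, hz, j, δ, hδ, h, rfl⟩ := G.ex k _ _ t 1 ht hY h1 (by omega) (by
    simp only [Pi.add_apply, Pi.sub_apply, evv]
    split_ifs <;>
      first | (exfalso; omega) | omega | (simp_all; done) | (exfalso; simp_all; omega))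
  simp only [Pi.add_apply, Pi.sub_apply, evv, sgl] at h
  have key : (j = a ∧ δ = -1) ∨ (j = p ∧ δ = -1) := by
    split_ifs at h <;> rcases hδ with rfl | rfl <;>
      first | (exfalso; omega) | omega | (simp_all; done) | (exfalso; simp_all; omega)
  rcases key with ⟨rfl, rfl⟩ | ⟨rfl, rfl⟩
  · apply G.up (show k + 1 ≤ k + 3 by omega); exact cgH hz (by intro v; simp only [Pi.add_apply, Pi.sub_apply, Pi.smul_apply, evv, sgl, smul_eq_mul]; split_ifs <;> ring)
  · have hz1 : H (k + 1) (o + ev a - ev j) := by exact cgH hz (by intro v; simp only [Pi.add_apply, Pi.sub_apply, Pi.smul_apply, evv, sgl, smul_eq_mul]; split_ifs <;> ring)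
    obtain ⟨z, hz, i, δ, hδ, h, rfl⟩ := G.ex (k + 1) _ _ j (-1) hp hz1 (G.mono _ _ h2) (by omega) (by
      simp only [Pi.add_apply, Pi.sub_apply, Pi.smul_apply, evv, smul_eq_mul]
      split_ifs <;>
      first | (exfalso; omega) | omega | (simp_all; done) | (exfalso; simp_all; omega))
    simp only [Pi.add_apply, Pi.sub_apply, Pi.smul_apply, evv, sgl, smul_eq_mul] at h
    have key : i = a ∧ δ = -1 := by
      split_ifs at h <;> rcases hδ with rfl | rfl <;>
      first | (exfalso; omega) | omega | (simp_all; done) | (exfalso; simp_all; omega)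
    obtain ⟨rfl, rfl⟩ := key
    have hz2 : H (k + 2) (o - (2 : ℤ) • ev j) := by exact cgH hz (by intro v; simp only [Pi.add_apply, Pi.sub_apply, Pi.smul_apply, evv, sgl, smul_eq_mul]; split_ifs <;> ring)
    obtain ⟨z, hz, l, δ, hδ, h, rfl⟩ := G.ex (k + 2) _ _ t 1 ht
      (G.up (show k ≤ k + 2 by omega) hY') hz2 (by omega) (by
      simp only [Pi.add_apply, Pi.sub_apply, Pi.smul_apply, evv, smul_eq_mul]
      split_ifs <;>
      first | (exfalso; omega) | omega | (simp_all; done) | (exfalso; simp_all; omega))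
    simp only [Pi.add_apply, Pi.sub_apply, Pi.smul_apply, evv, sgl, smul_eq_mul] at h
    have key : l = j ∧ δ = -1 := by
      split_ifs at h <;> rcases hδ with rfl | rfl <;>
      first | (exfalso; omega) | omega | (simp_all; done) | (exfalso; simp_all; omega)
    obtain ⟨rfl, rfl⟩ := key
    exact cgH hz (by intro v; simp only [Pi.add_apply, Pi.sub_apply, Pi.smul_apply, evv, sgl, smul_eq_mul]; split_ifs <;> ring)

/-- K4: the full square, `c` has a known surplus port -/
theorem d_sq (G : Gr I H) (ht : I t) (hct : c ≠ t) (hY : H k (o - ev t + ev c))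
    (hX : H k (o - (2 : ℤ) • ev c)) : H (k + 1) o := by
  obtain ⟨z, hz, j, δ, hδ, h, rfl⟩ := G.ex k _ _ t 1 ht hY hX (by omega) (by
    simp only [Pi.add_apply, Pi.sub_apply, Pi.smul_apply, evv, smul_eq_mul]
    split_ifs <;>
      first | (exfalso; omega) | omega | (simp_all; done) | (exfalso; simp_all; omega))
  simp only [Pi.add_apply, Pi.sub_apply, Pi.smul_apply, evv, sgl, smul_eq_mul] at h
  have key : j = c ∧ δ = -1 := by
    split_ifs at h <;> rcases hδ with rfl | rfl <;>
      first | (exfalso; omega) | omega | (simp_all; done) | (exfalso; simp_all; omega)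
  obtain ⟨rfl, rfl⟩ := key
  exact cgH hz (by intro v; simp only [Pi.add_apply, Pi.sub_apply, Pi.smul_apply, evv, sgl, smul_eq_mul]; split_ifs <;> ring)

/-- K4: the full square, the deficit port of `c` is unknown -/
theorem d_sq' (G : Gr I H) {σ : ℤ} (hσ : σ = 1 ∨ σ = -1) (hw : I w) (hct : c ≠ t) (hwt : w ≠ t)
    (hY : H k (o - ev t + σ • ev w)) (hc : ¬(σ = -1 ∧ w = c))
    (hX : H k (o - (2 : ℤ) • ev c)) : H (k + 1) o ∨ H (k + 1) (o - ev t - ev c) := by
  obtain ⟨z, hz, j, δ, hδ, h, rfl⟩ := G.ex k _ _ w (-σ) hw hY hX (by omega) (by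
    simp only [Pi.add_apply, Pi.sub_apply, Pi.smul_apply, evv, smul_eq_mul]
    split_ifs <;> rcases hσ with rfl | rfl <;>
      first | (exfalso; omega) | omega | (simp_all; done) | (exfalso; simp_all; omega))
  simp only [Pi.add_apply, Pi.sub_apply, Pi.smul_apply, evv, sgl, smul_eq_mul] at h
  have key : (j = t ∧ δ = 1) ∨ (j = c ∧ δ = -1) := by
    split_ifs at h <;> rcases hσ with rfl | rfl <;> rcases hδ with rfl | rfl <;>
      first | (exfalso; omega) | omega | (simp_all; done) | (exfalso; simp_all; omega)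
  rcases key with ⟨rfl, rfl⟩ | ⟨rfl, rfl⟩
  · left; exact cgH hz (by intro v; simp only [Pi.add_apply, Pi.sub_apply, Pi.smul_apply, evv, sgl, smul_eq_mul]; split_ifs <;> ring)
  · right; exact cgH hz (by intro v; simp only [Pi.add_apply, Pi.sub_apply, Pi.smul_apply, evv, sgl, smul_eq_mul]; split_ifs <;> ring)

end

/-! ### known and unknown ports -/

/-- the known ports: `Fm v` = `(v, -)` is known, `Fp v` = `(v, +)` is known -/
structure Facts (I : ℕ → Prop) (H : ℕ → (ℕ → ℤ) → Prop) (o : ℕ → ℤ) (t k : ℕ)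
    (Fm Fp : ℕ → Prop) : Prop where
  gr : Gr I H
  tI : I t
  m : ∀ v, Fm v → v ≠ t ∧ I v ∧ H k (o - ev t - ev v)
  p : ∀ v, Fp v → v ≠ t ∧ I v ∧ H k (o - ev t + ev v)
  some : (∃ v, Fm v) ∨ ∃ v, Fp v

/-- the vectors we want: `o` itself or an unknown port -/
def Gv (o : ℕ → ℤ) (t : ℕ) (Fm Fp : ℕ → Prop) (z : ℕ → ℤ) : Prop :=
  z = o ∨ (∃ v, v ≠ t ∧ ¬Fm v ∧ z = o - ev t - ev v) ∨ ∃ v, v ≠ t ∧ ¬Fp v ∧ z = o - ev t + ev v

section
variable {I : ℕ → Prop} {H : ℕ → (ℕ → ℤ) → Prop} {o : ℕ → ℤ} {t a p c k : ℕ}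
  {Fm Fp : ℕ → Prop}

/-- LEMMA D, case of a PLUS vertex `c` (deficit port known, surplus port unknown) -/
theorem lemD_plus (F : Facts I H o t k Fm Fp) (hc : Fm c) (hc' : ¬Fp c) (ha : I a) (hat : a ≠ t)
    (hac : a ≠ c) (hX : H k (o - ev a + ev c)) : ∃ z, Gv o t Fm Fp z ∧ H (k + 3) z := by
  obtain ⟨hct, _, hY⟩ := F.m c hc
  rcases d_plus F.gr ha hat hct hac hY hX with h | h
  · exact ⟨_, Or.inl rfl, F.gr.up (show k + 1 ≤ k + 3 by omega) h⟩
  · exact ⟨_, Or.inr (Or.inr ⟨c, hct, hc', rfl⟩), F.gr.up (show k + 1 ≤ k + 3 by omega) h⟩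

/-- LEMMA D, case of a digon without PLUS vertex -/
theorem lemD_digon (F : Facts I H o t k Fm Fp) (ha : I a) (hp : I p) (hat : a ≠ t) (hpt : p ≠ t)
    (hap : a ≠ p) (hFa : Fm a → Fp a) (hFp : Fm p → Fp p) (h1 : H k (o - ev a - ev p))
    (h2 : H k (o - (2 : ℤ) • ev a - (2 : ℤ) • ev p)) :
    ∃ z, Gv o t Fm Fp z ∧ H (k + 3) z := by
  classical
  have up1 : ∀ {x}, H (k + 1) x → H (k + 3) x := fun {x} h => F.gr.up (by omega) h
  have h1' : H k (o - ev p - ev a) := by exact cgH h1 (by intro v; simp only [Pi.add_apply, Pi.sub_apply, Pi.smul_apply, evv, sgl, smul_eq_mul]; split_ifs <;> ring)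
  have h2' : H k (o - (2 : ℤ) • ev p - (2 : ℤ) • ev a) := by exact cgH h2 (by intro v; simp only [Pi.add_apply, Pi.sub_apply, Pi.smul_apply, evv, sgl, smul_eq_mul]; split_ifs <;> ring)
  by_cases ma : Fm a
  · have pa := hFa ma
    by_cases mp : Fm p
    · exact ⟨_, Or.inl rfl, d_ab F.gr hp F.tI hat hpt hap (F.p a pa).2.2 (F.p p (hFp mp)).2.2 h1 h2⟩
    · rcases d_a F.gr ha hp F.tI hat hpt hap (F.p a pa).2.2 h1 h2 with h | h
      · exact ⟨_, Or.inl rfl, h⟩
      · exact ⟨_, Or.inr (Or.inl ⟨p, hpt, mp, rfl⟩), h⟩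
  · by_cases mp : Fm p
    · rcases d_a F.gr hp ha F.tI hpt hat (Ne.symm hap) (F.p p (hFp mp)).2.2 h1' h2' with h | h
      · exact ⟨_, Or.inl rfl, h⟩
      · exact ⟨_, Or.inr (Or.inl ⟨a, hat, ma, rfl⟩), h⟩
    · obtain ⟨σ, w, hσ, hw, hwt, hY, hwa, hwp⟩ : ∃ (σ : ℤ) (w : ℕ), (σ = 1 ∨ σ = -1) ∧ I w ∧ w ≠ t ∧
          H k (o - ev t + σ • ev w) ∧ ¬(σ = -1 ∧ w = a) ∧ ¬(σ = -1 ∧ w = p) := by
        rcases F.some with ⟨v, hv⟩ | ⟨v, hv⟩
        · obtain ⟨q1, q2, q3⟩ := F.m v hv
          refine ⟨-1, v, by simp, q2, q1, ?_, ?_, ?_⟩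
          · exact cgH q3 (by intro v; simp only [Pi.add_apply, Pi.sub_apply, Pi.smul_apply, evv, sgl, smul_eq_mul]; split_ifs <;> ring)
          · rintro ⟨_, rfl⟩; exact ma hv
          · rintro ⟨_, rfl⟩; exact mp hv
        · obtain ⟨q1, q2, q3⟩ := F.p v hv
          refine ⟨1, v, by simp, q2, q1, ?_, ?_, ?_⟩
          · exact cgH q3 (by intro v; simp only [Pi.add_apply, Pi.sub_apply, Pi.smul_apply, evv, sgl, smul_eq_mul]; split_ifs <;> ring)
          · rintro ⟨h, _⟩; omega
          · rintro ⟨h, _⟩; omega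
      rcases d_star F.gr hσ hw hat hpt hap hwt hY hwa hwp h1 with h | h | h
      · exact ⟨_, Or.inl rfl, up1 h⟩
      · exact ⟨_, Or.inr (Or.inl ⟨a, hat, ma, rfl⟩), up1 h⟩
      · exact ⟨_, Or.inr (Or.inl ⟨p, hpt, mp, rfl⟩), up1 h⟩

/-- LEMMA D, case of the full square of a `K4` with a vertex `c` which is not PLUS -/
theorem lemD_sq (F : Facts I H o t k Fm Fp) (hct : c ≠ t) (hFc : Fm c → Fp c)
    (hX : H k (o - (2 : ℤ) • ev c)) : ∃ z, Gv o t Fm Fp z ∧ H (k + 3) z := by
  classical
  have up1 : ∀ {x}, H (k + 1) x → H (k + 3) x := fun {x} h => F.gr.up (by omega) h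
  by_cases mc : Fm c
  · exact ⟨_, Or.inl rfl, up1 (d_sq F.gr F.tI hct (F.p c (hFc mc)).2.2 hX)⟩
  · obtain ⟨σ, w, hσ, hw, hwt, hY, hwc⟩ : ∃ (σ : ℤ) (w : ℕ), (σ = 1 ∨ σ = -1) ∧ I w ∧ w ≠ t ∧
        H k (o - ev t + σ • ev w) ∧ ¬(σ = -1 ∧ w = c) := by
      rcases F.some with ⟨v, hv⟩ | ⟨v, hv⟩
      · obtain ⟨q1, q2, q3⟩ := F.m v hv
        refine ⟨-1, v, by simp, q2, q1, ?_, ?_⟩
        · exact cgH q3 (by intro v; simp only [Pi.add_apply, Pi.sub_apply, Pi.smul_apply, evv, sgl, smul_eq_mul]; split_ifs <;> ring)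
        · rintro ⟨_, rfl⟩; exact mc hv
      · obtain ⟨q1, q2, q3⟩ := F.p v hv
        refine ⟨1, v, by simp, q2, q1, ?_, ?_⟩
        · exact cgH q3 (by intro v; simp only [Pi.add_apply, Pi.sub_apply, Pi.smul_apply, evv, sgl, smul_eq_mul]; split_ifs <;> ring)
        · rintro ⟨h, _⟩; omega
    rcases d_sq' F.gr hσ hw hct hwt hY hwc hX with h | h
    · exact ⟨_, Or.inl rfl, up1 h⟩
    · exact ⟨_, Or.inr (Or.inl ⟨c, hct, mc, rfl⟩), up1 h⟩

end

end Pool.Agent.PF4.LD

end

section -- file PF4/XCal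

/-!
Calculus of graded families of vectors: sum with a fixed jump set, partner exchange, loops.
-/

set_option autoImplicit false

namespace Pool.Agent.PF4.XC

open Finset Pool.Agent.TFC Pool.Agent.PF4 Pool.Agent.PF4.LD

/-- `B` is a jump set of vectors -/
def JB (B : (ℕ → ℤ) → Prop) : Prop :=
  ∀ x y (i : ℕ) (ε : ℤ), B x → B y → (ε = 1 ∨ ε = -1) → 0 < ε * (y i - x i) → ∃ z, B z ∧ Two x y z i ε

/-- `ℓ1` distance on `S` -/
def dS (S : Finset ℕ) (x y : ℕ → ℤ) : ℕ := ∑ v ∈ S, (y v - x v).natAbs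

theorem dS_step (S : Finset ℕ) (x y : ℕ → ℤ) (i : ℕ) (ε : ℤ) (hi : i ∈ S) (hε : ε = 1 ∨ ε = -1)
    (h : 0 < ε * (y i - x i)) : dS S (x + Pi.single i ε) y + 1 = dS S x y := by
  unfold dS
  have e : ∀ v ∈ S, (y v - x v).natAbs =
      (y v - (x + Pi.single i ε : ℕ → ℤ) v).natAbs + if v = i then 1 else 0 := by
    intro v _
    rw [Pi.add_apply, sgl]
    by_cases hv : v = i
    · subst hv
      simp only [if_true]
      rcases hε with rfl | rfl <;> omega
    · simp only [if_neg hv, add_zero]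
  rw [Finset.sum_congr rfl e, Finset.sum_add_distrib]
  simp [hi]

/-- a two-step exchange inside `S` decreases the distance by 2 -/
theorem dS_two {S : Finset ℕ} {x y z : ℕ → ℤ} {i : ℕ} {ε : ℤ} (hx : ∀ v, v ∉ S → x v = y v)
    (hε : ε = 1 ∨ ε = -1) (h : 0 < ε * (y i - x i)) (h2 : Two x y z i ε) :
    ∃ (j : ℕ) (δ : ℤ), j ∈ S ∧ i ∈ S ∧ (δ = 1 ∨ δ = -1) ∧
      0 < δ * (y j - (x + Pi.single i ε : ℕ → ℤ) j) ∧ z = x + Pi.single i ε + Pi.single j δ ∧
      dS S z y + 2 = dS S x y := by
  obtain ⟨j, δ, hδ, hj, rfl⟩ := h2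
  have hi : i ∈ S := by
    by_contra hc
    rw [hx i hc] at h
    simp at h
  have hjS : j ∈ S := by
    by_contra hc
    rw [Pi.add_apply, sgl, hx j hc, if_neg (fun e : j = i => hc (by rw [e]; exact hi))] at hj
    simp at hj
  refine ⟨j, δ, hjS, hi, hδ, hj, rfl, ?_⟩
  have h1 := dS_step S x y i ε hi hε h
  have h2 := dS_step S (x + Pi.single i ε) y j δ hjS hδ hj
  omega

/-- the result of an exchange in a sum -/
def Res (A B : (ℕ → ℤ) → Prop) (y u : ℕ → ℤ) : Prop :=
  ∃ (j : ℕ) (δ : ℤ) (a b : ℕ → ℤ), (δ = 1 ∨ δ = -1) ∧ 0 < δ * (y j - u j) ∧ A a ∧ B b ∧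
    a + b = u + Pi.single j δ

theorem Res.mono {A A' B : (ℕ → ℤ) → Prop} {y u : ℕ → ℤ} (h : ∀ a, A a → A' a) :
    Res A B y u → Res A' B y u := by
  rintro ⟨j, δ, a, b, h1, h2, h3, h4, h5⟩
  exact ⟨j, δ, a, b, h1, h2, h a h3, h4, h5⟩

variable {I : ℕ → Prop} {A : ℕ → (ℕ → ℤ) → Prop} {B : (ℕ → ℤ) → Prop} {S : Finset ℕ}

/-- the exchange in a sum, starting with a step `(i, δ)` -/
theorem sum_aux (GA : Gr I A) (hB : JB B) (hS : ∀ v ∈ S, I v) (hBS : ∀ b, B b → ∀ v, v ∉ S → b v = 0)
    {a' b' u : ℕ → ℤ} (hb' : B b') : ∀ (n k : ℕ), A k a' → ∀ (a b : ℕ → ℤ) (i : ℕ) (δ : ℤ), A k a →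
    B b → I i → (δ = 1 ∨ δ = -1) → dS S b b' ≤ 2 * n + 1 → a + b + Pi.single i δ = u →
    (0 < δ * (a' i - a i) ∨ 0 < δ * (b' i - b i)) → Res (A (k + n + 1)) B (a' + b') u := by
  intro n
  induction n with
  | zero =>
    intro k ha' a b i δ ha hb hi hδ hn hu h
    -- no step in `B` is possible
    have nb : ∀ (j : ℕ) (δ : ℤ), (δ = 1 ∨ δ = -1) → ¬ 0 < δ * (b' j - b j) := by
      intro j δ hδ hj
      obtain ⟨z, _, hz⟩ := hB b b' j δ hb hb' hδ hj
      obtain ⟨_, _, _, _, _, _, _, hd⟩ := dS_two (fun v hv => (hBS b hb v hv).trans (hBS b' hb' v hv).symm)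
        hδ hj hz
      omega
    rcases h with h | h
    · obtain ⟨z, hz, j, δ', hδ', hj, rfl⟩ := GA.ex k a a' i δ hi ha ha' hδ h
      refine ⟨j, δ', _, b, hδ', ?_, hz, hb, by rw [← hu]; abel⟩
      by_contra hc
      refine nb j (-δ') (by omega) ?_
      rw [← hu] at hc
      simp only [Pi.add_apply] at hc hj ⊢
      rcases hδ' with rfl | rfl <;> omega
    · exact absurd h (nb i δ hδ)
  | succ n ih =>
    intro k ha' a b i δ ha hb hi hδ hn hu h
    -- a step in `B`
    have sb : ∀ (l : ℕ) (a : ℕ → ℤ) (j : ℕ) (δ : ℤ), A l a' → A l a → (δ = 1 ∨ δ = -1) →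
        a + b + Pi.single j δ = u → 0 < δ * (b' j - b j) → Res (A (l + n + 1)) B (a' + b') u := by
      intro l a j δ ha' ha hδ hu hj
      obtain ⟨z, hz, hz2⟩ := hB b b' j δ hb hb' hδ hj
      obtain ⟨j', δ', hjS, _, hδ', hj', rfl, hd⟩ := dS_two
        (fun v hv => (hBS b hb v hv).trans (hBS b' hb' v hv).symm) hδ hj hz2
      by_cases hc : 0 < δ' * ((a' + b') j' - u j')
      · exact ⟨j', δ', a, _, hδ', hc, GA.up (by omega) ha, hz, by rw [← hu]; abel⟩
      · refine ih l ha' a _ j' (-δ') ha hz (hS j' hjS) (by omega) (by omega) ?_ ?_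
        · rw [← hu, Pi.single_neg]; abel
        · rw [← hu] at hc
          simp only [Pi.add_apply, Pi.single_eq_same] at hc hj' ⊢
          rcases hδ' with rfl | rfl <;> omega
    rcases h with h | h
    · obtain ⟨z, hz, j, δ', hδ', hj, rfl⟩ := GA.ex k a a' i δ hi ha ha' hδ h
      by_cases hc : 0 < δ' * ((a' + b') j - u j)
      · exact ⟨j, δ', _, b, hδ', hc, GA.up (by omega) hz, hb, by rw [← hu]; abel⟩
      · have := sb (k + 1) _ j (-δ') (GA.mono _ _ ha') hz (by omega)
          (by rw [← hu, Pi.single_neg]; abel) (by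
          rw [← hu] at hc
          simp only [Pi.add_apply] at hc hj ⊢
          rcases hδ' with rfl | rfl <;> omega)
        exact this.mono fun x hx => GA.up (by omega) hx
    · exact (sb k a i δ ha' ha hδ hu h).mono fun x hx => GA.up (by omega) hx

/-- sum of two jump sets, the second one living on a finite set of coordinates -/
theorem JB.add {A B : (ℕ → ℤ) → Prop} {S : Finset ℕ} (hA : JB A) (hB : JB B)
    (hBS : ∀ b, B b → ∀ v, v ∉ S → b v = 0) : JB (fun z => ∃ a b, A a ∧ B b ∧ z = a + b) := by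
  have GA : Gr (fun _ => True) (fun _ => A) :=
    ⟨fun _ _ h => h, fun _ x y i ε _ hx hy hε h => hA x y i ε hx hy hε h⟩
  rintro _ _ i ε ⟨a, b, ha, hb, rfl⟩ ⟨a', b', ha', hb', rfl⟩ hε h
  obtain ⟨j, δ, a₂, b₂, hδ, hj, h1, h2, h3⟩ := sum_aux GA hB (fun _ _ => trivial) hBS
    (u := a + b + Pi.single i ε) hb' (dS S b b') 0 ha' a b i ε ha hb trivial hε (by omega) rfl (by
      simp only [Pi.add_apply] at h
      rcases hε with rfl | rfl <;> omega)
  exact ⟨a₂ + b₂, ⟨a₂, b₂, h1, h2, rfl⟩, j, δ, hδ, hj, h3⟩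

theorem JB.neg {A : (ℕ → ℤ) → Prop} (hA : JB A) : JB (fun z => A (-z)) := by
  intro x y i ε hx hy hε h
  obtain ⟨z, hz, j, δ, hδ, hj, rfl⟩ := hA (-x) (-y) i (-ε) hx hy (by omega) (by
    simp only [Pi.neg_apply]
    rcases hε with rfl | rfl <;> omega)
  refine ⟨-(-x + Pi.single i (-ε) + Pi.single j δ), ?_, j, -δ, by omega, ?_, ?_⟩
  · show A (- -(-x + Pi.single i (-ε) + Pi.single j δ))
    rw [neg_neg]; exact hz
  · simp only [Pi.neg_apply, Pi.add_apply, sgl] at hj ⊢
    split_ifs at hj ⊢ <;> rcases hε with rfl | rfl <;> rcases hδ with rfl | rfl <;> omega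
  · simp only [Pi.single_neg]; abel

/-! ### a closed stage -/

open Classical in
/-- the vectors of the box `{0,1,2}^S` -/
noncomputable def boxV (S : Finset ℕ) : Finset (ℕ → ℤ) :=
  (Finset.univ : Finset (S → Fin 3)).image fun g v => if h : v ∈ S then ((g ⟨v, h⟩ : ℕ) : ℤ) else 0

open Classical in
theorem card_boxV (S : Finset ℕ) : #(boxV S) ≤ 3 ^ #S := by
  refine Finset.card_image_le.trans ?_
  simp

open Classical in
theorem mem_boxV {S : Finset ℕ} {z : ℕ → ℤ} (h0 : ∀ v, v ∉ S → z v = 0)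
    (h1 : ∀ v ∈ S, 0 ≤ z v ∧ z v ≤ 2) : z ∈ boxV S := by
  unfold boxV
  rw [Finset.mem_image]
  refine ⟨fun v => ⟨(z v).toNat, ?_⟩, Finset.mem_univ _, ?_⟩
  · have := h1 v v.2
    omega
  · funext v
    by_cases hv : v ∈ S
    · have := h1 v hv
      simp only [hv, dif_pos]
      omega
    · simp only [hv, dif_neg, not_false_iff]
      exact (h0 v hv).symm

/-- among the stages `j, ..., j + #F` there is one which is closed -/
theorem exists_closed {α : Type*} {H : ℕ → α → Prop} (mono : ∀ k z, H k z → H (k + 1) z)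
    (F : Finset α) (hF : ∀ k z, H k z → z ∈ F) (j : ℕ) :
    ∃ k, j ≤ k ∧ k ≤ j + #F ∧ ∀ z, H (k + 1) z → H k z := by
  classical
  by_contra hc
  push Not at hc
  have key : ∀ n, n ≤ #F + 1 → n ≤ #(F.filter (H (j + n))) := by
    intro n
    induction n with
    | zero => intro _; exact Nat.zero_le _
    | succ n ih =>
      intro hn
      have h1 := ih (by omega)
      obtain ⟨z, hz, hz'⟩ := hc (j + n) (by omega) (by omega)
      have h2 : F.filter (H (j + n)) ⊂ F.filter (H (j + (n + 1))) := by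
        rw [Finset.ssubset_iff_of_subset]
        · exact ⟨z, Finset.mem_filter.2 ⟨hF _ _ hz, hz⟩, fun h => hz' (Finset.mem_filter.1 h).2⟩
        · intro w hw
          rw [Finset.mem_filter] at hw ⊢
          exact ⟨hw.1, mono _ _ hw.2⟩
      have := Finset.card_lt_card h2
      omega
  have h1 := key (#F + 1) le_rfl
  have h2 := Finset.card_filter_le F (H (j + (#F + 1)))
  omega

/-- **a closed stage is a jump set** -/
theorem closed_stage {I : ℕ → Prop} {H : ℕ → (ℕ → ℤ) → Prop} (G : Gr I H) (S : Finset ℕ)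
    (hI : ∀ v ∈ S, I v) (h0 : ∀ k z, H k z → ∀ v, v ∉ S → z v = 0)
    (h1 : ∀ k z, H k z → ∀ v ∈ S, 0 ≤ z v ∧ z v ≤ 2) (j : ℕ) :
    ∃ k, j ≤ k ∧ k ≤ j + 3 ^ #S ∧ JB (H k) := by
  obtain ⟨k, hk1, hk2, hk⟩ := exists_closed G.mono (boxV S)
    (fun k z hz => mem_boxV (h0 k z hz) (h1 k z hz)) j
  refine ⟨k, hk1, hk2.trans (Nat.add_le_add_left (card_boxV S) j), ?_⟩
  intro x y i ε hx hy hε h
  have hi : i ∈ S := by
    by_contra hc
    rw [h0 k x hx i hc, h0 k y hy i hc] at h
    simp at h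
  obtain ⟨z, hz, hz2⟩ := G.ex k x y i ε (hI i hi) hx hy hε h
  exact ⟨z, hk z hz, hz2⟩

end Pool.Agent.PF4.XC

end

section -- file TFC/Clus

/-!
Clusters: a finite set of squares, no two of which share exactly one edge, is covered by edge-disjoint clusters.
-/

set_option autoImplicit false
set_option linter.unusedSectionVars false
set_option linter.unusedSimpArgs false

namespace Pool.Agent.TFC

open Finset
open scoped Pointwise

variable {V : Type*} [DecidableEq V]

/-- `Q` is the square `a b c d`, on the vertex set `X` -/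
def Clus_F (Q : Finset (Sym2 V)) (X : Finset V) (a b c d : V) : Prop :=
  Dist4 a b c d ∧ Q = sq a b c d ∧ X = {a, b, c, d}

lemma Clus_rot {Q : Finset (Sym2 V)} {X : Finset V} {a b c d : V} (h : Clus_F Q X a b c d) :
    Clus_F Q X b c d a := by
  obtain ⟨⟨h1, h2, h3, h4, h5, h6⟩, hQ, hX⟩ := h
  refine ⟨⟨h4, h5, h1.symm, h6, h2.symm, h3.symm⟩, ?_, ?_⟩
  · rw [hQ]
    ext e
    simp only [sq, mem_insert, mem_singleton]
    tauto
  · rw [hX]
    ext e
    simp only [mem_insert, mem_singleton]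
    tauto

lemma Clus_ref {Q : Finset (Sym2 V)} {X : Finset V} {a b c d : V} (h : Clus_F Q X a b c d) :
    Clus_F Q X d c b a := by
  obtain ⟨⟨h1, h2, h3, h4, h5, h6⟩, hQ, hX⟩ := h
  refine ⟨⟨h6.symm, h5.symm, h3.symm, h4.symm, h2.symm, h1.symm⟩, ?_, ?_⟩
  · rw [hQ]
    have e1 : s(d, c) = s(c, d) := Sym2.eq_swap
    have e2 : s(c, b) = s(b, c) := Sym2.eq_swap
    have e3 : s(b, a) = s(a, b) := Sym2.eq_swap
    have e4 : s(a, d) = s(d, a) := Sym2.eq_swap
    ext e
    simp only [sq, mem_insert, mem_singleton, e1, e2, e3, e4]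
    tauto
  · rw [hX]
    ext e
    simp only [mem_insert, mem_singleton]
    tauto

/-- `Q` is a square on the vertex set `X` -/
def Clus_On (Q : Finset (Sym2 V)) (X : Finset V) : Prop := ∃ a b c d, Clus_F Q X a b c d

lemma Clus_start {Q : Finset (Sym2 V)} {X : Finset V} (h : Clus_On Q X) {u : V} (hu : u ∈ X) :
    ∃ b c d, Clus_F Q X u b c d := by
  obtain ⟨a, b, c, d, h⟩ := h
  have hu' := hu
  rw [h.2.2] at hu'
  simp only [mem_insert, mem_singleton] at hu'
  rcases hu' with rfl | rfl | rfl | rfl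
  · exact ⟨_, _, _, h⟩
  · exact ⟨_, _, _, Clus_rot h⟩
  · exact ⟨_, _, _, Clus_rot (Clus_rot h)⟩
  · exact ⟨_, _, _, Clus_rot (Clus_rot (Clus_rot h))⟩

lemma Clus_adj {Q : Finset (Sym2 V)} {X : Finset V} (h : Clus_On Q X) {u v : V} (hu : s(u, v) ∈ Q) :
    ∃ c d, Clus_F Q X u v c d := by
  obtain ⟨a, b, c, d, h⟩ := h
  have hu' := hu
  rw [h.2.1] at hu'
  simp only [sq, mem_insert, mem_singleton, Sym2.eq_iff] at hu'
  rcases hu' with (⟨rfl, rfl⟩ | ⟨rfl, rfl⟩) | (⟨rfl, rfl⟩ | ⟨rfl, rfl⟩) | (⟨rfl, rfl⟩ | ⟨rfl, rfl⟩) |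
    (⟨rfl, rfl⟩ | ⟨rfl, rfl⟩)
  · exact ⟨_, _, h⟩
  · exact ⟨_, _, Clus_rot (Clus_rot (Clus_ref h))⟩
  · exact ⟨_, _, Clus_rot h⟩
  · exact ⟨_, _, Clus_rot (Clus_ref h)⟩
  · exact ⟨_, _, Clus_rot (Clus_rot h)⟩
  · exact ⟨_, _, Clus_ref h⟩
  · exact ⟨_, _, Clus_rot (Clus_rot (Clus_rot h))⟩
  · exact ⟨_, _, Clus_rot (Clus_rot (Clus_rot (Clus_ref h)))⟩

lemma Clus_adj2 {Q : Finset (Sym2 V)} {X : Finset V} (h : Clus_On Q X) {u v w : V} (hu : s(u, v) ∈ Q)
    (hv : s(v, w) ∈ Q) (huw : u ≠ w) : ∃ d, Clus_F Q X u v w d := by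
  obtain ⟨c, d, h'⟩ := Clus_adj h hu
  have hv' := hv
  obtain ⟨⟨h1, h2, h3, h4, h5, h6⟩, hQ, hX⟩ := id h'
  rw [hQ] at hv'
  simp only [sq, mem_insert, mem_singleton, Sym2.eq_iff] at hv'
  rcases hv' with (⟨e1, e2⟩ | ⟨e1, e2⟩) | (⟨e1, e2⟩ | ⟨e1, e2⟩) | (⟨e1, e2⟩ | ⟨e1, e2⟩) |
    (⟨e1, e2⟩ | ⟨e1, e2⟩)
  · exact absurd e1 h1.symm
  · exact absurd e2.symm huw
  · subst e2
    exact ⟨_, h'⟩
  · exact absurd e1 h4
  · exact absurd e1 h4
  · exact absurd e1 h5
  · exact absurd e1 h5
  · exact absurd e1 h1.symm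

lemma Clus_eq {Q R : Finset (Sym2 V)} {X : Finset V} (hQ : Clus_On Q X) (hR : Clus_On R X) {u v w : V}
    (huw : u ≠ w) (h1 : s(u, v) ∈ Q) (h2 : s(v, w) ∈ Q) (h3 : s(u, v) ∈ R) (h4 : s(v, w) ∈ R) : Q = R := by
  obtain ⟨d, ⟨a1, a2, a3, a4, a5, a6⟩, eQ, eX⟩ := Clus_adj2 hQ h1 h2 huw
  obtain ⟨d', ⟨b1, b2, b3, b4, b5, b6⟩, eR, eX'⟩ := Clus_adj2 hR h3 h4 huw
  have hd : d ∈ X := by rw [eX]; simp
  rw [eX'] at hd
  simp only [mem_insert, mem_singleton] at hd
  rcases hd with e | e | e | e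
  · exact absurd e a3.symm
  · exact absurd e a5.symm
  · exact absurd e a6.symm
  · rw [eQ, eR, e]

lemma Clus_mem {Q : Finset (Sym2 V)} {X : Finset V} (h : Clus_On Q X) {u v : V} (hu : s(u, v) ∈ Q) :
    u ∈ X ∧ v ∈ X ∧ u ≠ v := by
  obtain ⟨c, d, h1, -, hX⟩ := Clus_adj h hu
  rw [hX]
  exact ⟨by simp, by simp, h1.1⟩

lemma Clus_card {Q : Finset (Sym2 V)} {X : Finset V} (h : Clus_On Q X) : #X = 4 := by
  obtain ⟨a, b, c, d, ⟨h1, h2, h3, h4, h5, h6⟩, -, hX⟩ := h
  rw [hX, card_insert_of_notMem, card_insert_of_notMem, card_insert_of_notMem, card_singleton]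
  · simpa using h6
  · simp [h4, h5]
  · simp [h1, h2, h3]

lemma Clus_isSq {Q : Finset (Sym2 V)} (h : IsSq Q) : ∃ X, Clus_On Q X := by
  obtain ⟨a, b, c, d, h1, h2⟩ := h
  exact ⟨_, a, b, c, d, h1, h2, rfl⟩

lemma Clus_k4 {X : Finset V} {u v : V} : s(u, v) ∈ (Clu.k4 X).edges ↔ u ∈ X ∧ v ∈ X ∧ u ≠ v := by
  simp only [Clu.edges, mem_filter, Finset.mk_mem_sym2_iff, Sym2.mk_isDiag_iff]
  tauto

/-- two squares sharing an edge and not exactly one share a second edge -/
lemma Clus_second {T Z : Finset (Sym2 V)} (h : #(T ∩ Z) ≠ 1) {e : Sym2 V} (h1 : e ∈ T) (h2 : e ∈ Z) :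
    ∃ e' ∈ T, e' ∈ Z ∧ e' ≠ e := by
  by_contra hcon
  push Not at hcon
  apply h
  rw [card_eq_one]
  refine ⟨e, ?_⟩
  ext e'
  simp only [mem_inter, mem_singleton]
  constructor
  · rintro ⟨h3, h4⟩
    exact hcon e' h3 h4
  · rintro rfl
    exact ⟨h1, h2⟩

/-- the conclusion of one step -/
def Clus_Step (D : Finset (Finset (Sym2 V))) (Q : Finset (Sym2 V)) : Prop :=
  ∃ (c : Clu V) (D' : Finset (Finset (Sym2 V))), D' ⊆ D ∧ Q ∈ D' ∧ c.Valid ∧ (∀ S ∈ D', S ⊆ c.edges) ∧
    c.edges ⊆ D'.biUnion id ∧ ∀ T ∈ D, T ∉ D' → ∀ e ∈ T, e ∉ c.edges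

/-- case 1 -/
lemma Clus_case1 {D : Finset (Finset (Sym2 V))} (hD : ∀ Q ∈ D, IsSq Q)
    (hc : ∀ Q ∈ D, ∀ R ∈ D, Q ≠ R → #(Q ∩ R) ≠ 1) {Q R : Finset (Sym2 V)} (hQ : Q ∈ D) (hR : R ∈ D)
    (hne : Q ≠ R) {X : Finset V} (oQ : Clus_On Q X) (oR : Clus_On R X) : Clus_Step D Q := by
  classical
  have sub : ∀ Z, Clus_On Z X → Z ⊆ (Clu.k4 X).edges := by
    intro Z hZ e he
    induction e using Sym2.ind with
    | _ u v => exact Clus_k4.2 (Clus_mem hZ he)
  have cov : ∀ u v, s(u, v) ∈ (Clu.k4 X).edges → s(u, v) ∈ Q ∨ s(u, v) ∈ R := by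
    intro u v huv
    by_contra hcon
    push Not at hcon
    obtain ⟨hu, hv, huv'⟩ := Clus_k4.1 huv
    have key : ∀ Z, Clus_On Z X → s(u, v) ∉ Z → ∃ b d, Clus_F Z X b u d v := by
      intro Z hZ hn
      obtain ⟨b, c, d, h⟩ := Clus_start hZ hu
      obtain ⟨⟨h1, h2, h3, h4, h5, h6⟩, eQ, eX⟩ := id h
      have hv' := hv
      rw [eX] at hv'
      simp only [mem_insert, mem_singleton] at hv'
      rcases hv' with e | e | e | e
      · exact absurd e huv'.symm
      · exfalso
        apply hn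
        rw [eQ, e]
        simp [sq]
      · subst e
        exact ⟨_, _, Clus_rot (Clus_ref (Clus_rot (Clus_ref (Clus_rot (Clus_rot (Clus_rot h))))))⟩
      · exfalso
        apply hn
        rw [eQ, e, Sym2.eq_swap]
        simp [sq]
    obtain ⟨b, d, ⟨a1, a2, a3, a4, a5, a6⟩, eQ, eX⟩ := key Q oQ hcon.1
    obtain ⟨b', d', ⟨b1, b2, b3, b4, b5, b6⟩, eR, eX'⟩ := key R oR hcon.2
    have hbm : b ∈ X := by rw [eX]; simp
    have hdm : d ∈ X := by rw [eX]; simp
    rw [eX'] at hbm hdm
    simp only [mem_insert, mem_singleton] at hbm hdm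
    apply hne
    have hb : b = b' ∨ b = d' := by
      rcases hbm with e | e | e | e
      · exact Or.inl e
      · exact absurd e a1
      · exact Or.inr e
      · exact absurd e a3
    have hd : d = b' ∨ d = d' := by
      rcases hdm with e | e | e | e
      · exact Or.inl e
      · exact absurd e a4.symm
      · exact Or.inr e
      · exact absurd e a6
    rcases hb with rfl | rfl
    · rcases hd with rfl | rfl
      · exact absurd rfl a2
      · rw [eQ, eR]
    · rcases hd with rfl | rfl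
      · rw [eQ, eR]
        have e1 : s(d, u) = s(u, d) := Sym2.eq_swap
        have e2 : s(u, b) = s(b, u) := Sym2.eq_swap
        have e3 : s(b, v) = s(v, b) := Sym2.eq_swap
        have e4 : s(v, d) = s(d, v) := Sym2.eq_swap
        ext e
        simp only [sq, mem_insert, mem_singleton, e1, e2, e3, e4]
        tauto
      · exact absurd rfl a2
  refine ⟨Clu.k4 X, D.filter (fun S => S ⊆ (Clu.k4 X).edges), filter_subset _ _, ?_, Clus_card oQ, ?_, ?_, ?_⟩
  · rw [mem_filter]
    exact ⟨hQ, sub Q oQ⟩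
  · intro S hS
    exact (mem_filter.1 hS).2
  · intro e he
    rw [mem_biUnion]
    induction e using Sym2.ind with
    | _ u v =>
      rcases cov u v he with h | h
      · exact ⟨Q, mem_filter.2 ⟨hQ, sub Q oQ⟩, h⟩
      · exact ⟨R, mem_filter.2 ⟨hR, sub R oR⟩, h⟩
  · intro T hT hTn e heT heK
    have hTn' : ¬ T ⊆ (Clu.k4 X).edges := fun h => hTn (mem_filter.2 ⟨hT, h⟩)
    obtain ⟨Y, oT⟩ := Clus_isSq (hD T hT)
    -- the main argument
    have main : ∀ p q r s, Clus_F T Y p q r s → p ∈ X → q ∈ X → s ∉ X → False := by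
      intro p q r s h hp hq hs
      obtain ⟨⟨h1, h2, h3, h4, h5, h6⟩, eT, -⟩ := h
      have hiff : ∀ Z ∈ D, Clus_On Z X → (s(p, q) ∈ Z ↔ s(q, r) ∈ Z) := by
        intro Z hZ oZ
        have hTZ : T ≠ Z := by
          rintro rfl
          exact hTn' (sub _ oZ)
        have hcard := hc T hT Z hZ hTZ
        have n1 : s(r, s) ∉ Z := fun h => hs (Clus_mem oZ h).2.1
        have n2 : s(s, p) ∉ Z := fun h => hs (Clus_mem oZ h).1
        constructor
        · intro h
          obtain ⟨e', he1, he2, he3⟩ := Clus_second hcard (e := s(p, q)) (by rw [eT]; simp [sq]) h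
          rw [eT] at he1
          simp only [sq, mem_insert, mem_singleton] at he1
          rcases he1 with rfl | rfl | rfl | rfl
          · exact absurd rfl he3
          · exact he2
          · exact absurd he2 n1
          · exact absurd he2 n2
        · intro h
          obtain ⟨e', he1, he2, he3⟩ := Clus_second hcard (e := s(q, r)) (by rw [eT]; simp [sq]) h
          rw [eT] at he1
          simp only [sq, mem_insert, mem_singleton] at he1
          rcases he1 with rfl | rfl | rfl | rfl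
          · exact he2
          · exact absurd rfl he3
          · exact absurd he2 n1
          · exact absurd he2 n2
      have final : ∀ Z Z', Z ∈ D → Z' ∈ D → Clus_On Z X → Clus_On Z' X → Z ≠ Z' → s(p, q) ∈ Z → False := by
        intro Z Z' hZ hZ' oZ oZ' hZZ hpq
        have hqr := (hiff Z hZ oZ).1 hpq
        by_cases hpq' : s(p, q) ∈ Z'
        · exact hZZ (Clus_eq oZ oZ' h2 hpq hqr hpq' ((hiff Z' hZ' oZ').1 hpq'))
        · have hqr' : s(q, r) ∉ Z' := fun h => hpq' ((hiff Z' hZ' oZ').2 h)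
          have hr : r ∈ X := (Clus_mem oZ hqr).2.1
          obtain ⟨b, c, d, ⟨c1, c2, c3, c4, c5, c6⟩, eZ, eX⟩ := Clus_start oZ' hq
          have only : ∀ m, m ∈ X → m ≠ q → s(q, m) ∉ Z' → m = c := by
            intro m hm hmq hn
            rw [eX] at hm
            simp only [mem_insert, mem_singleton] at hm
            rcases hm with e | e | e | e
            · exact absurd e hmq
            · exfalso
              apply hn
              rw [eZ, e]
              simp [sq]
            · exact e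
            · exfalso
              apply hn
              rw [eZ, e, Sym2.eq_swap]
              simp [sq]
          have e1 := only p hp h1 (by rw [Sym2.eq_swap]; exact hpq')
          have e2 := only r hr h4.symm hqr'
          exact h2 (e1.trans e2.symm)
      rcases cov p q (Clus_k4.2 ⟨hp, hq, h1⟩) with h | h
      · exact final Q R hQ hR oQ oR hne h
      · exact final R Q hR hQ oR oQ hne.symm h
    induction e using Sym2.ind with
    | _ p q =>
      obtain ⟨hp, hq, hpq⟩ := Clus_k4.1 heK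
      obtain ⟨r, s, h⟩ := Clus_adj oT heT
      by_cases hs : s ∈ X
      · by_cases hr : r ∈ X
        · apply hTn'
          obtain ⟨⟨h1, h2, h3, h4, h5, h6⟩, eT, -⟩ := h
          rw [eT]
          intro e he
          simp only [sq, mem_insert, mem_singleton] at he
          rcases he with rfl | rfl | rfl | rfl
          · exact Clus_k4.2 ⟨hp, hq, h1⟩
          · exact Clus_k4.2 ⟨hq, hr, h4⟩
          · exact Clus_k4.2 ⟨hr, hs, h6⟩
          · exact Clus_k4.2 ⟨hs, hp, h3.symm⟩
        · exact main q p s r (Clus_rot (Clus_rot (Clus_ref h))) hq hp hr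
      · exact main p q r s h hp hq hs

/-- exchange the two leaves -/
lemma Clus_leaf {Q : Finset (Sym2 V)} {X : Finset V} {x a y b : V} (h : Clus_F Q X x a y b) :
    Clus_F Q X x b y a := Clus_rot (Clus_rot (Clus_rot (Clus_ref h)))

/-- exchange the two centres -/
lemma Clus_cen {Q : Finset (Sym2 V)} {X : Finset V} {x a y b : V} (h : Clus_F Q X x a y b) :
    Clus_F Q X y a x b := Clus_rot (Clus_ref h)

lemma Clus_sq_leaf {x a y b : V} (h : Dist4 x a y b) : Dist4 x b y a ∧ sq x a y b = sq x b y a := by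
  have h1 : Clus_F (sq x a y b) {x, a, y, b} x a y b := ⟨h, rfl, rfl⟩
  have h2 := Clus_leaf h1
  exact ⟨h2.1, h2.2.1⟩

lemma Clus_sq_cen {x a y b : V} (h : Dist4 x a y b) : Dist4 y a x b ∧ sq x a y b = sq y a x b := by
  have h1 : Clus_F (sq x a y b) {x, a, y, b} x a y b := ⟨h, rfl, rfl⟩
  have h2 := Clus_cen h1
  exact ⟨h2.1, h2.2.1⟩

lemma Clus_core {D : Finset (Finset (Sym2 V))} (hD : ∀ Q ∈ D, IsSq Q)
    (hc : ∀ Q ∈ D, ∀ R ∈ D, Q ≠ R → #(Q ∩ R) ≠ 1) {x y l l' : V} {T : Finset (Sym2 V)} (hT : T ∈ D)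
    (h4 : Dist4 x l y l') (hS : sq x l y l' ∈ D) (hTS : T ≠ sq x l y l')
    (hTn : ∀ m, Dist4 x l y m → m ≠ l' → T ≠ sq x l y m) (he : s(x, l) ∈ T)
    (hP : ∃ m m' m'', ((m = l ∧ m' = l') ∨ (m = l' ∧ m' = l)) ∧ Dist4 x m y m'' ∧ m'' ≠ m' ∧
      sq x m y m'' ∈ D) : False := by
  obtain ⟨Y, oT⟩ := Clus_isSq (hD T hT)
  obtain ⟨p, q, ⟨h1, h2, h3, h4', h5, h6⟩, eT, -⟩ := Clus_adj oT he
  obtain ⟨k1, k2, k3, k4, k5, k6⟩ := id h4
  obtain ⟨e', he1, he2, he3⟩ := Clus_second (hc T hT _ hS hTS) he (by simp [sq])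
  obtain ⟨m, m', m'', hm, ⟨n1, n2, n3, n4, n5, n6⟩, hmm, hSm⟩ := hP
  -- a common edge of T and the partner is the only one
  have fin : ∀ e1 ∈ T, e1 ∈ sq x m y m'' → (∀ e2 ∈ T, e2 ∈ sq x m y m'' → e2 = e1) → T ≠ sq x m y m'' →
      False := by
    intro e1 g1 g2 g3 g4
    obtain ⟨e2, f1, f2, f3⟩ := Clus_second (hc T hT _ hSm g4) g1 g2
    exact f3 (g3 e2 f1 f2)
  rw [eT] at he1
  simp only [sq, mem_insert, mem_singleton] at he1
  rcases he1 with rfl | rfl | rfl | rfl
  · exact he3 rfl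
  · -- second edge l p
    simp only [sq, mem_insert, mem_singleton, Sym2.eq_iff] at he2
    have hpy : p = y := by
      rcases he2 with (⟨e1, e2⟩ | ⟨e1, e2⟩) | (⟨e1, e2⟩ | ⟨e1, e2⟩) | (⟨e1, e2⟩ | ⟨e1, e2⟩) |
        (⟨e1, e2⟩ | ⟨e1, e2⟩)
      · exact absurd e1 h1.symm
      · exact absurd e2.symm h2
      · exact e2
      · exact absurd e1 k4
      · exact absurd e1 k4
      · exact absurd e1 k5
      · exact absurd e1 k5
      · exact absurd e1 h1.symm
    subst hpy
    by_cases hq : q = l'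
    · subst hq
      exact hTS eT
    · exact hTn q ⟨h1, h2, h3, h4', h5, h6⟩ hq eT
  · -- second edge p q
    simp only [sq, mem_insert, mem_singleton, Sym2.eq_iff] at he2
    have hpq : (p = y ∧ q = l') ∨ (p = l' ∧ q = y) := by
      rcases he2 with (⟨e1, e2⟩ | ⟨e1, e2⟩) | (⟨e1, e2⟩ | ⟨e1, e2⟩) | (⟨e1, e2⟩ | ⟨e1, e2⟩) |
        (⟨e1, e2⟩ | ⟨e1, e2⟩)
      · exact absurd e1.symm h2
      · exact absurd e2.symm h3
      · exact absurd e1.symm h4'
      · exact absurd e2.symm h5
      · exact Or.inl ⟨e1, e2⟩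
      · exact Or.inr ⟨e1, e2⟩
      · exact absurd e2.symm h3
      · exact absurd e1.symm h2
    rcases hpq with ⟨rfl, rfl⟩ | ⟨rfl, rfl⟩
    · exact hTS eT
    · -- T = x l l' y
      have hne : T ≠ sq x m q m'' := by
        intro h
        have : s(q, x) ∈ sq x m q m'' := by rw [← h, eT]; simp [sq]
        simp [sq, n1, n2, n3, n4, n5, n6, n1.symm, n2.symm, n3.symm, n4.symm, n5.symm, n6.symm] at this
      rcases hm with ⟨rfl, rfl⟩ | ⟨rfl, rfl⟩
      · refine fin s(x, m) he (by simp [sq]) ?_ hne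
        intro e2 g1 g2
        rw [eT] at g1
        simp only [sq, mem_insert, mem_singleton] at g1
        rcases g1 with rfl | rfl | rfl | rfl
        · rfl
        all_goals
          exfalso
          simp [sq, n1, n2, n3, n4, n5, n6, n1.symm, n2.symm, n3.symm, n4.symm, n5.symm, n6.symm, k1, k2, k3, k4,
            k5, k6, k1.symm, k2.symm, k3.symm, k4.symm, k5.symm, k6.symm, hmm, hmm.symm] at g2
      · refine fin s(m, q) (by rw [eT]; simp [sq]) (by simp [sq]) ?_ hne
        intro e2 g1 g2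
        rw [eT] at g1
        simp only [sq, mem_insert, mem_singleton] at g1
        rcases g1 with rfl | rfl | rfl | rfl
        · exfalso
          simp [sq, n1, n2, n3, n4, n5, n6, n1.symm, n2.symm, n3.symm, n4.symm, n5.symm, n6.symm, k1, k2, k3, k4,
            k5, k6, k1.symm, k2.symm, k3.symm, k4.symm, k5.symm, k6.symm, hmm, hmm.symm] at g2
        · exfalso
          simp [sq, n1, n2, n3, n4, n5, n6, n1.symm, n2.symm, n3.symm, n4.symm, n5.symm, n6.symm, k1, k2, k3, k4,
            k5, k6, k1.symm, k2.symm, k3.symm, k4.symm, k5.symm, k6.symm, hmm, hmm.symm] at g2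
        · rfl
        · exfalso
          simp [sq, n1, n2, n3, n4, n5, n6, n1.symm, n2.symm, n3.symm, n4.symm, n5.symm, n6.symm, k1, k2, k3, k4,
            k5, k6, k1.symm, k2.symm, k3.symm, k4.symm, k5.symm, k6.symm, hmm, hmm.symm] at g2
  · -- second edge q x
    simp only [sq, mem_insert, mem_singleton, Sym2.eq_iff] at he2
    have hq : q = l' := by
      rcases he2 with (⟨e1, e2⟩ | ⟨e1, e2⟩) | (⟨e1, e2⟩ | ⟨e1, e2⟩) | (⟨e1, e2⟩ | ⟨e1, e2⟩) |
        (⟨e1, e2⟩ | ⟨e1, e2⟩)
      · exact absurd e2 k1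
      · exact absurd e1.symm h5
      · exact absurd e2 k2
      · exact absurd e2 k1
      · exact absurd e2 k3
      · exact absurd e2 k2
      · exact e1
      · exact absurd e1.symm h3
    subst hq
    by_cases hpy : p = y
    · subst hpy
      exact hTS eT
    · -- T = x l p l'
      have hpy' : y ≠ p := fun h => hpy h.symm
      have hne : T ≠ sq x m y m'' := by
        intro h
        have : s(l, p) ∈ sq x m y m'' := by rw [← h, eT]; simp [sq]
        rcases hm with ⟨rfl, rfl⟩ | ⟨rfl, rfl⟩ <;>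
        simp [sq, n1, n2, n3, n4, n5, n6, n1.symm, n2.symm, n3.symm, n4.symm, n5.symm, n6.symm, k1, k2, k3, k4,
            k5, k6, k1.symm, k2.symm, k3.symm, k4.symm, k5.symm, k6.symm, hmm, hmm.symm, hpy, hpy', h1, h2, h3, h4',
            h5, h6, h1.symm, h2.symm, h3.symm, h4'.symm, h5.symm, h6.symm] at this
      rcases hm with ⟨rfl, rfl⟩ | ⟨rfl, rfl⟩
      · refine fin s(x, m) he (by simp [sq]) ?_ hne
        intro e2 g1 g2
        rw [eT] at g1
        simp only [sq, mem_insert, mem_singleton] at g1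
        rcases g1 with rfl | rfl | rfl | rfl
        · rfl
        all_goals
          exfalso
          simp [sq, n1, n2, n3, n4, n5, n6, n1.symm, n2.symm, n3.symm, n4.symm, n5.symm, n6.symm, k1, k2, k3, k4,
            k5, k6, k1.symm, k2.symm, k3.symm, k4.symm, k5.symm, k6.symm, hmm, hmm.symm, hpy, hpy', h1, h2, h3, h4',
            h5, h6, h1.symm, h2.symm, h3.symm, h4'.symm, h5.symm, h6.symm] at g2
      · refine fin s(m, x) (by rw [eT]; simp [sq]) (by rw [Sym2.eq_swap]; simp [sq]) ?_ hne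
        intro e2 g1 g2
        rw [eT] at g1
        simp only [sq, mem_insert, mem_singleton] at g1
        rcases g1 with rfl | rfl | rfl | rfl
        · exfalso
          simp [sq, n1, n2, n3, n4, n5, n6, n1.symm, n2.symm, n3.symm, n4.symm, n5.symm, n6.symm, k1, k2, k3, k4,
            k5, k6, k1.symm, k2.symm, k3.symm, k4.symm, k5.symm, k6.symm, hmm, hmm.symm, hpy, hpy', h1, h2, h3, h4',
            h5, h6, h1.symm, h2.symm, h3.symm, h4'.symm, h5.symm, h6.symm] at g2
        · exfalso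
          simp [sq, n1, n2, n3, n4, n5, n6, n1.symm, n2.symm, n3.symm, n4.symm, n5.symm, n6.symm, k1, k2, k3, k4,
            k5, k6, k1.symm, k2.symm, k3.symm, k4.symm, k5.symm, k6.symm, hmm, hmm.symm, hpy, hpy', h1, h2, h3, h4',
            h5, h6, h1.symm, h2.symm, h3.symm, h4'.symm, h5.symm, h6.symm] at g2
        · exfalso
          simp [sq, n1, n2, n3, n4, n5, n6, n1.symm, n2.symm, n3.symm, n4.symm, n5.symm, n6.symm, k1, k2, k3, k4,
            k5, k6, k1.symm, k2.symm, k3.symm, k4.symm, k5.symm, k6.symm, hmm, hmm.symm, hpy, hpy', h1, h2, h3, h4',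
            h5, h6, h1.symm, h2.symm, h3.symm, h4'.symm, h5.symm, h6.symm] at g2
        · rfl

/-- case 2 -/
lemma Clus_case2 {D : Finset (Finset (Sym2 V))} (hD : ∀ Q ∈ D, IsSq Q)
    (hc : ∀ Q ∈ D, ∀ R ∈ D, Q ≠ R → #(Q ∩ R) ≠ 1) {x y a b c : V} (hQ : sq x a y b ∈ D)
    (hR : sq x a y c ∈ D) (dQ : Dist4 x a y b) (dR : Dist4 x a y c) (hbc : b ≠ c) :
    Clus_Step D (sq x a y b) := by
  classical
  obtain ⟨Pr, hPr⟩ : ∃ Pr : Finset (Sym2 V) → Prop, ∀ S, Pr S ↔ ∃ l l' l'', Dist4 x l y l' ∧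
      Dist4 x l y l'' ∧ l' ≠ l'' ∧ S = sq x l y l' ∧ sq x l y l'' ∈ D := ⟨_, fun _ => Iff.rfl⟩
  set D' := D.filter Pr with hD'
  have hmD' : ∀ S, S ∈ D' ↔ S ∈ D ∧ Pr S := fun S => mem_filter
  set L : Finset V := (D'.biUnion (fun S => S.biUnion Sym2.toFinset)).filter (fun l => l ≠ x ∧ l ≠ y) with hL
  have hmL : ∀ l, l ∈ L ↔ (∃ S ∈ D', ∃ e ∈ S, l ∈ e) ∧ l ≠ x ∧ l ≠ y := by
    intro l
    rw [hL, mem_filter]
    simp only [mem_biUnion, Sym2.mem_toFinset]
  -- leaves of members of D'
  have leafL : ∀ l l', Dist4 x l y l' → sq x l y l' ∈ D' → l ∈ L ∧ l' ∈ L := by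
    rintro l l' ⟨h1, h2, h3, h4, h5, h6⟩ hS
    refine ⟨(hmL l).2 ⟨⟨_, hS, s(x, l), by simp [sq], by simp⟩, h1.symm, h4⟩,
      (hmL l').2 ⟨⟨_, hS, s(y, l'), by simp [sq], by simp⟩, h3.symm, h6.symm⟩⟩
  have ofL : ∀ l ∈ L, ∃ l', Dist4 x l y l' ∧ sq x l y l' ∈ D' ∧
      ∃ m m' m'', ((m = l ∧ m' = l') ∨ (m = l' ∧ m' = l)) ∧ Dist4 x m y m'' ∧ m'' ≠ m' ∧
      sq x m y m'' ∈ D := by
    intro l hl
    obtain ⟨⟨S, hS, e, he, hle⟩, hlx, hly⟩ := (hmL l).1 hl
    have hS' := hS
    obtain ⟨hSD, m, m', m'', d1, d2, hmm, rfl, hSm⟩ := (hmD' S).1 hS |>.imp_right (hPr S).1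
    have hl' : l = m ∨ l = m' := by
      simp only [sq, mem_insert, mem_singleton] at he
      rcases he with rfl | rfl | rfl | rfl <;> rw [Sym2.mem_iff] at hle <;> tauto
    rcases hl' with rfl | rfl
    · exact ⟨m', d1, hS', l, m', m'', Or.inl ⟨rfl, rfl⟩, d2, hmm.symm, hSm⟩
    · obtain ⟨d3, e3⟩ := Clus_sq_leaf d1
      exact ⟨m, d3, by rw [← e3]; exact hS', m, l, m'', Or.inr ⟨rfl, rfl⟩, d2, hmm.symm, hSm⟩
  have hQ' : sq x a y b ∈ D' := (hmD' _).2 ⟨hQ, (hPr _).2 ⟨a, b, c, dQ, dR, hbc, rfl, hR⟩⟩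
  have hedge : ∀ l ∈ L, s(x, l) ∈ (Clu.k2 x y L).edges ∧ s(y, l) ∈ (Clu.k2 x y L).edges := by
    intro l hl
    constructor
    · exact mem_union_left _ (mem_image_of_mem _ hl)
    · exact mem_union_right _ (mem_image_of_mem _ hl)
  refine ⟨Clu.k2 x y L, D', filter_subset _ _, hQ', ⟨dQ.2.1, ?_, ?_, ?_⟩, ?_, ?_, ?_⟩
  · intro h
    exact ((hmL x).1 h).2.1 rfl
  · intro h
    exact ((hmL y).1 h).2.2 rfl
  · obtain ⟨h1, h2⟩ := leafL a b dQ hQ'
    exact one_lt_card.2 ⟨a, h1, b, h2, dQ.2.2.2.2.1⟩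
  · intro S hS
    have hS' := hS
    obtain ⟨hSD, m, m', m'', d1, d2, hmm, rfl, hSm⟩ := (hmD' S).1 hS |>.imp_right (hPr S).1
    obtain ⟨h1, h2⟩ := leafL m m' d1 hS'
    intro e he
    simp only [sq, mem_insert, mem_singleton] at he
    rcases he with rfl | rfl | rfl | rfl
    · exact (hedge m h1).1
    · rw [Sym2.eq_swap]; exact (hedge m h1).2
    · exact (hedge m' h2).2
    · rw [Sym2.eq_swap]; exact (hedge m' h2).1
  · intro e he
    rw [mem_biUnion]
    have he' : (∃ l ∈ L, s(x, l) = e) ∨ (∃ l ∈ L, s(y, l) = e) := by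
      simpa [Clu.edges] using he
    rcases he' with ⟨l, hl, rfl⟩ | ⟨l, hl, rfl⟩
    · obtain ⟨l', d, hS, -⟩ := ofL l hl
      exact ⟨_, hS, by simp [sq]⟩
    · obtain ⟨l', d, hS, -⟩ := ofL l hl
      exact ⟨_, hS, by rw [Sym2.eq_swap]; simp [sq]⟩
  · intro T hT hTn e heT heK
    have he' : (∃ l ∈ L, s(x, l) = e) ∨ (∃ l ∈ L, s(y, l) = e) := by
      simpa [Clu.edges] using heK
    rcases he' with ⟨l, hl, rfl⟩ | ⟨l, hl, rfl⟩
    · obtain ⟨l', d, hS, hP⟩ := ofL l hl
      refine Clus_core hD hc hT d ((hmD' _).1 hS).1 (fun h => hTn (by rw [h]; exact hS)) ?_ heT hP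
      intro m dm hm h
      apply hTn
      rw [hmD']
      exact ⟨hT, (hPr T).2 ⟨l, m, l', dm, d, hm, h, ((hmD' _).1 hS).1⟩⟩
    · obtain ⟨l', d, hS, m, m', m'', hm, d2, hmm, hSm⟩ := ofL l hl
      obtain ⟨d', e'⟩ := Clus_sq_cen d
      obtain ⟨d2', e2'⟩ := Clus_sq_cen d2
      have hSD := ((hmD' _).1 hS).1
      refine Clus_core hD hc hT d' (by rw [← e']; exact hSD) (fun h => hTn (by rw [h, ← e']; exact hS)) ?_ heT
        ⟨m, m', m'', hm, d2', hmm, by rw [← e2']; exact hSm⟩
      intro k dk hk h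
      obtain ⟨dk', ek'⟩ := Clus_sq_cen dk
      apply hTn
      rw [hmD']
      exact ⟨hT, (hPr T).2 ⟨l, k, l', dk', d, hk, by rw [h, ek'], hSD⟩⟩

/-- case 3 -/
lemma Clus_case3 {D : Finset (Finset (Sym2 V))} {Q : Finset (Sym2 V)} (hQ : Q ∈ D) (oQ : IsSq Q)
    (h : ∀ R ∈ D, R ≠ Q → ∀ e ∈ R, e ∉ Q) : Clus_Step D Q := by
  obtain ⟨a, b, c, d, ⟨h1, h2, h3, h4, h5, h6⟩, rfl⟩ := oQ
  have hed : (Clu.k2 a c {b, d}).edges = sq a b c d := by
    ext e
    have e1 : s(b, c) = s(c, b) := Sym2.eq_swap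
    have e2 : s(d, a) = s(a, d) := Sym2.eq_swap
    simp only [Clu.edges, sq, mem_union, mem_image, mem_insert, mem_singleton, e1, e2]
    constructor
    · rintro (⟨l, rfl | rfl, rfl⟩ | ⟨l, rfl | rfl, rfl⟩) <;> simp
    · rintro (rfl | rfl | rfl | rfl)
      · exact Or.inl ⟨b, Or.inl rfl, rfl⟩
      · exact Or.inr ⟨b, Or.inl rfl, rfl⟩
      · exact Or.inr ⟨d, Or.inr rfl, rfl⟩
      · exact Or.inl ⟨d, Or.inr rfl, rfl⟩
  refine ⟨Clu.k2 a c {b, d}, {sq a b c d}, by simpa using hQ, mem_singleton_self _,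
    ⟨h2, by simp [h1, h3], by simp [h4.symm, h6], ?_⟩, ?_, ?_, ?_⟩
  · rw [card_pair h5]
  · intro S hS
    rw [mem_singleton] at hS
    rw [hS, hed]
  · rw [hed]
    intro e he
    rw [mem_biUnion]
    exact ⟨_, mem_singleton_self _, he⟩
  · intro T hT hTn e he
    rw [hed]
    exact h T hT (fun hh => hTn (by rw [hh]; exact mem_singleton_self _)) e he

lemma Clus_step {D : Finset (Finset (Sym2 V))} (hD : ∀ Q ∈ D, IsSq Q)
    (hc : ∀ Q ∈ D, ∀ R ∈ D, Q ≠ R → #(Q ∩ R) ≠ 1) {Q : Finset (Sym2 V)} (hQ : Q ∈ D) : Clus_Step D Q := by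
  by_cases c1 : ∃ R ∈ D, Q ≠ R ∧ ∃ X, Clus_On Q X ∧ Clus_On R X
  · obtain ⟨R, hR, hne, X, h1, h2⟩ := c1
    exact Clus_case1 hD hc hQ hR hne h1 h2
  by_cases c2 : ∀ R ∈ D, R ≠ Q → ∀ e ∈ R, e ∉ Q
  · exact Clus_case3 hQ (hD Q hQ) c2
  push Not at c2
  obtain ⟨R, hR, hne, e, he, heQ⟩ := c2
  obtain ⟨X, oQ⟩ := Clus_isSq (hD Q hQ)
  obtain ⟨X', oR⟩ := Clus_isSq (hD R hR)
  obtain ⟨e', he1, he2, he3⟩ := Clus_second (hc Q hQ R hR hne.symm) heQ he
  -- adjacent common edges
  have adj : ∀ u v w, u ≠ w → s(u, v) ∈ Q → s(v, w) ∈ Q → s(u, v) ∈ R → s(v, w) ∈ R → Clus_Step D Q := by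
    intro u v w huw q1 q2 r1 r2
    obtain ⟨t, dQ, eQ, -⟩ := Clus_adj2 oQ q1 q2 huw
    obtain ⟨t', dR, eR, -⟩ := Clus_adj2 oR r1 r2 huw
    have htt : t ≠ t' := by
      rintro rfl
      exact hne (by rw [eQ, eR])
    have := Clus_case2 hD hc (by rw [← eQ]; exact hQ) (by rw [← eR]; exact hR) dQ dR htt
    rwa [← eQ] at this
  induction e using Sym2.ind with
  | _ u v =>
    obtain ⟨w, t, hF⟩ := Clus_adj oQ heQ
    obtain ⟨⟨h1, h2, h3, h4, h5, h6⟩, eQ, eX⟩ := id hF
    rw [eQ] at he1
    simp only [sq, mem_insert, mem_singleton] at he1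
    rcases he1 with rfl | rfl | rfl | rfl
    · exact absurd rfl he3
    · exact adj u v w h2 heQ (by rw [eQ]; simp [sq]) he he2
    · exfalso
      obtain ⟨c, d, ⟨g1, g2, g3, g4, g5, g6⟩, eR, eX'⟩ := Clus_adj oR he
      have he2' := he2
      rw [eR] at he2'
      simp only [sq, mem_insert, mem_singleton, Sym2.eq_iff] at he2'
      have hcd : (w = c ∧ t = d) ∨ (w = d ∧ t = c) := by
        rcases he2' with (⟨e1, e2⟩ | ⟨e1, e2⟩) | (⟨e1, e2⟩ | ⟨e1, e2⟩) | (⟨e1, e2⟩ | ⟨e1, e2⟩) |
          (⟨e1, e2⟩ | ⟨e1, e2⟩)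
        · exact absurd e1.symm h2
        · exact absurd e1.symm h4
        · exact absurd e1.symm h4
        · exact absurd e2.symm h5
        · exact Or.inl ⟨e1, e2⟩
        · exact Or.inr ⟨e1, e2⟩
        · exact absurd e2.symm h3
        · exact absurd e1.symm h2
      apply c1
      refine ⟨R, hR, hne.symm, X, oQ, ?_⟩
      have hXX : X = X' := by
        rw [eX, eX']
        rcases hcd with ⟨rfl, rfl⟩ | ⟨rfl, rfl⟩
        · rfl
        · ext z
          simp only [mem_insert, mem_singleton]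
          tauto
      rw [hXX]
      exact oR
    · exact adj t u v h5.symm (by rw [eQ]; simp [sq]) heQ he2 he

theorem clusters (D : Finset (Finset (Sym2 V))) (hD : ∀ Q ∈ D, IsSq Q)
    (hc : ∀ Q ∈ D, ∀ R ∈ D, Q ≠ R → #(Q ∩ R) ≠ 1) :
    ∃ C : List (Clu V), (∀ c ∈ C, c.Valid) ∧ (C.Pairwise fun c c' => Disjoint c.edges c'.edges) ∧
      (∀ c ∈ C, c.edges ⊆ D.biUnion id) ∧ ∀ Q ∈ D, ∃ c ∈ C, Q ⊆ c.edges := by
  classical
  induction D using Finset.strongInduction with
  | H D ih =>
    rcases D.eq_empty_or_nonempty with rfl | ⟨Q, hQ⟩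
    · exact ⟨[], by simp, List.Pairwise.nil, by simp, by simp⟩
    · obtain ⟨c, D', hD'D, hQD', hval, hin, hcov, hdis⟩ := Clus_step hD hc hQ
      have hss : D \ D' ⊂ D := by
        refine sdiff_ssubset hD'D ⟨Q, hQD'⟩
      obtain ⟨C, h1, h2, h3, h4⟩ := ih (D \ D') hss (fun Q hQ => hD Q (sdiff_subset hQ))
        (fun Q hQ R hR => hc Q (sdiff_subset hQ) R (sdiff_subset hR))
      refine ⟨c :: C, ?_, ?_, ?_, ?_⟩
      · intro c' hc'
        rcases List.mem_cons.1 hc' with rfl | h
        · exact hval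
        · exact h1 c' h
      · rw [List.pairwise_cons]
        refine ⟨fun c' hc' => ?_, h2⟩
        rw [disjoint_left]
        intro e he he'
        have := h3 c' hc' he'
        rw [mem_biUnion] at this
        obtain ⟨T, hT, heT⟩ := this
        rw [mem_sdiff] at hT
        exact hdis T hT.1 hT.2 e heT he
      · intro c' hc'
        rcases List.mem_cons.1 hc' with rfl | h
        · exact hcov.trans (biUnion_subset_biUnion_of_subset_left _ hD'D)
        · exact (h3 c' h).trans (biUnion_subset_biUnion_of_subset_left _ sdiff_subset)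
      · intro R hR
        by_cases hRD : R ∈ D'
        · exact ⟨c, List.mem_cons_self .., hin R hRD⟩
        · obtain ⟨c', hc', hs⟩ := h4 R (mem_sdiff.2 ⟨hR, hRD⟩)
          exact ⟨c', List.mem_cons_of_mem _ hc', hs⟩

end Pool.Agent.TFC

end

section -- file PF4/RG

/-!
# The rooted Gallai-Edmonds inequality for jump sets

`J` a jump set of vectors, `z` the root coordinate, `0` not in `J`. The facts are the signed units `(v, ε)` with
`ε e_v + e_z` in `J`. `phi` counts each vector with the types of the facts; `phi d ≥ 1` for all `d` in `J` with `d z = 0` or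
`d z = 1`.
-/

set_option autoImplicit false

namespace Pool.Agent.PF4.RG

open Finset Pool.Agent.TFC Pool.Agent.PF4 Pool.Agent.PF4.LD Pool.Agent.PF4.XC

/-- the signed unit `(v, ε)` is a fact -/
def Fa (J : (ℕ → ℤ) → Prop) (z v : ℕ) (ε : ℤ) : Prop := J (Pi.single v ε + Pi.single z 1)

open Classical in
/-- contribution of the coordinate `v` -/
noncomputable def wt (J : (ℕ → ℤ) → Prop) (z v : ℕ) (a : ℤ) : ℤ :=
  if Fa J z v 1 then (if Fa J z v (-1) then a % 2 else a) else if Fa J z v (-1) then -a else 0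

/-- the form -/
noncomputable def phi (J : (ℕ → ℤ) → Prop) (z : ℕ) (S : Finset ℕ) (d : ℕ → ℤ) : ℤ := ∑ v ∈ S, wt J z v (d v)

theorem wt_step (J : (ℕ → ℤ) → Prop) (z v : ℕ) (a δ : ℤ) (hδ : δ = 1 ∨ δ = -1) :
    wt J z v (a + δ) ≤ wt J z v a + 1 := by
  unfold wt
  split_ifs <;> rcases hδ with rfl | rfl <;> omega

theorem wt_good {J : (ℕ → ℤ) → Prop} {z v : ℕ} {a ε : ℤ} (hε : ε = 1 ∨ ε = -1) (hf : Fa J z v ε) (h : 0 < ε * a)
    (hz : Fa J z v 1 → Fa J z v (-1) → a.natAbs ≤ 1) : 1 ≤ wt J z v a ∧ wt J z v (a - ε) = wt J z v a - 1 := by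
  unfold wt
  rcases hε with rfl | rfl
  · rw [if_pos hf, if_pos hf]
    by_cases h2 : Fa J z v (-1)
    · have := hz hf h2
      rw [if_pos h2, if_pos h2]
      omega
    · rw [if_neg h2, if_neg h2]
      omega
  · by_cases h2 : Fa J z v 1
    · have := hz h2 hf
      rw [if_pos h2, if_pos h2, if_pos hf, if_pos hf]
      omega
    · rw [if_neg h2, if_neg h2, if_pos hf, if_pos hf]
      omega

theorem wt_bad {J : (ℕ → ℤ) → Prop} {z v : ℕ} {a : ℤ} (h : wt J z v a < 0) :
    ∃ η : ℤ, (η = 1 ∨ η = -1) ∧ 0 < η * a ∧ Fa J z v (-η) := by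
  unfold wt at h
  split_ifs at h with h1 h2 h2
  · omega
  · exact ⟨-1, Or.inr rfl, by omega, by simpa using h1⟩
  · exact ⟨1, Or.inl rfl, by omega, h2⟩
  · omega

/-- the size -/
def nm (S : Finset ℕ) (d : ℕ → ℤ) : ℕ := ∑ v ∈ S, (d v).natAbs

theorem sum_upd {S : Finset ℕ} {v : ℕ} (hv : v ∈ S) (g : ℕ → ℤ → ℤ) (d : ℕ → ℤ) (c : ℤ) :
    ∑ u ∈ S, g u ((d + Pi.single v c : ℕ → ℤ) u) = ∑ u ∈ S, g u (d u) + (g v (d v + c) - g v (d v)) := by
  rw [← Finset.add_sum_erase S _ hv, ← Finset.add_sum_erase S (fun u => g u (d u)) hv]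
  have h : ∀ u ∈ S.erase v, g u ((d + Pi.single v c : ℕ → ℤ) u) = g u (d u) := by
    intro u hu
    rw [Pi.add_apply, sgl, if_neg (Finset.ne_of_mem_erase hu), add_zero]
  rw [Finset.sum_congr rfl h, Pi.add_apply, sgl, if_pos rfl]
  ring

theorem nm_upd {S : Finset ℕ} {v : ℕ} (hv : v ∈ S) (d : ℕ → ℤ) (c : ℤ) :
    (nm S (d + Pi.single v c) : ℤ) = nm S d + ((d v + c).natAbs - (d v).natAbs) := by
  have h := sum_upd hv (fun _ a => (a.natAbs : ℤ)) d c
  unfold nm
  rw [Nat.cast_sum, Nat.cast_sum]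
  exact h

theorem phi_upd (J : (ℕ → ℤ) → Prop) (z : ℕ) {S : Finset ℕ} {v : ℕ} (hv : v ∈ S) (d : ℕ → ℤ) (c : ℤ) :
    phi J z S (d + Pi.single v c) = phi J z S d + (wt J z v (d v + c) - wt J z v (d v)) :=
  sum_upd hv (fun u a => wt J z u a) d c

/-! ### periodicity -/

theorem jb_even (v : ℕ) : JB (fun b => ∃ k : ℤ, b = Pi.single v (2 * k)) := by
  rintro _ _ i ε ⟨k, rfl⟩ ⟨l, rfl⟩ hε h
  rw [sgl, sgl] at h
  by_cases hi : i = v
  · subst hi
    rw [if_pos rfl, if_pos rfl] at h
    refine ⟨Pi.single i (2 * (k + ε)), ⟨k + ε, rfl⟩, i, ε, hε, ?_, ?_⟩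
    · rw [Pi.add_apply, sgl, sgl, sgl, if_pos rfl, if_pos rfl, if_pos rfl]
      rcases hε with rfl | rfl <;> omega
    · funext u
      rw [Pi.add_apply, Pi.add_apply, sgl, sgl, sgl]
      split_ifs <;> ring
  · rw [if_neg hi, if_neg hi] at h
    simp at h

/-- properties of the extended jump set -/
structure Ext (J J' : (ℕ → ℤ) → Prop) (z : ℕ) (S Z : Finset ℕ) : Prop where
  jb : JB J'
  sub : ∀ x, J x → J' x
  off : ∀ x, J' x → ∀ v, v ∉ S → v ≠ z → x v = 0
  no : ¬ J' 0
  fa : ∀ v (ε : ℤ), v ≠ z → (ε = 1 ∨ ε = -1) → Fa J' z v ε → Fa J z v ε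
  per : ∀ v ∈ Z, ∀ x, J' x → ∀ k : ℤ, J' (x + Pi.single v (2 * k))

theorem extend {J : (ℕ → ℤ) → Prop} {z : ℕ} {S : Finset ℕ} (hJ : JB J)
    (hoff : ∀ x, J x → ∀ v, v ∉ S → v ≠ z → x v = 0) (h0 : ¬ J 0) (Z : Finset ℕ)
    (hZ : ∀ v ∈ Z, v ∈ S ∧ v ≠ z ∧ Fa J z v 1 ∧ Fa J z v (-1)) : ∃ J', Ext J J' z S Z := by
  classical
  induction Z using Finset.induction_on with
  | empty => exact ⟨J, hJ, fun _ h => h, hoff, h0, fun _ _ _ _ h => h, fun v hv => by simp at hv⟩
  | insert v Z hv ih =>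
    obtain ⟨J₁, e⟩ := ih fun u hu => hZ u (Finset.mem_insert_of_mem hu)
    obtain ⟨hvS, hvz, hf1, hf2⟩ := hZ v (Finset.mem_insert_self _ _)
    have g1 : J₁ (Pi.single v 1 + Pi.single z 1) := e.sub _ hf1
    have g2 : J₁ (Pi.single v (-1) + Pi.single z 1) := e.sub _ hf2
    -- the key step
    have key : ∀ (m : ℤ), m ≠ 0 → ∃ η : ℤ, (η = 1 ∨ η = -1) ∧ 0 < η * m ∧
        J₁ (Pi.single v (-η) + Pi.single z 1) := by
      intro m hm
      rcases lt_or_gt_of_ne hm with h | h
      · exact ⟨-1, Or.inr rfl, by omega, by simpa using g1⟩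
      · exact ⟨1, Or.inl rfl, by omega, g2⟩
    refine ⟨fun x => ∃ a b, J₁ a ∧ (∃ k : ℤ, b = Pi.single v (2 * k)) ∧ x = a + b,
      e.jb.add (S := {v}) (jb_even v) ?_, ?_, ?_, ?_, ?_, ?_⟩
    · rintro b ⟨k, rfl⟩ u hu
      rw [Finset.mem_singleton] at hu
      rw [sgl, if_neg hu]
    · intro x hx
      exact ⟨x, Pi.single v (2 * 0), e.sub x hx, ⟨0, rfl⟩, by simp⟩
    · rintro _ ⟨a, _, ha, ⟨k, rfl⟩, rfl⟩ u hu huz
      rw [Pi.add_apply, e.off a ha u hu huz, sgl, if_neg (fun h => hu (by rw [h]; exact hvS)), add_zero]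
    · rintro ⟨a, _, ha, ⟨k, rfl⟩, h⟩
      by_cases hk : k = 0
      · subst hk
        have : a = 0 := by simpa using h.symm
        rw [this] at ha
        exact e.no ha
      · obtain ⟨η, hη, hη2, hx⟩ := key (-k) (by omega)
        have ha2 : ∀ u, a u = if u = v then -(2 * k) else 0 := by
          intro u
          have := congrFun h u
          rw [Pi.add_apply, sgl, Pi.zero_apply] at this
          split_ifs at this ⊢ <;> omega
        obtain ⟨w, hw, j, δ, hδ, hj, rfl⟩ := e.jb _ _ z (-1) hx ha (Or.inr rfl) (by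
          rw [ha2, Pi.add_apply, sgl, sgl, if_neg hvz.symm, if_neg hvz.symm, if_pos rfl]
          norm_num)
        simp only [Pi.add_apply, sgl, ha2] at hj
        have hjv : j = v := by
          by_contra hjv
          simp only [if_neg hjv] at hj
          by_cases hjz : j = z
          · simp [hjz] at hj
          · simp [hjz] at hj
        subst hjv
        simp only [if_pos, if_neg hvz] at hj
        have hd : δ = η := by
          rcases hδ with rfl | rfl <;> rcases hη with rfl | rfl <;> first | rfl | (exfalso; omega)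
        apply e.no
        have e0 : (Pi.single j (-η) + Pi.single z 1 + Pi.single z (-1) + Pi.single j δ : ℕ → ℤ) = 0 := by
          rw [hd, Pi.single_neg, Pi.single_neg]
          abel
        rw [e0] at hw
        exact hw
    · rintro u ε huz hε ⟨a, _, ha, ⟨k, rfl⟩, h⟩
      by_cases huv : u = v
      · subst huv
        rcases hε with rfl | rfl
        · exact hf1
        · exact hf2
      · refine e.fa u ε huz hε ?_
        show J₁ (Pi.single u ε + Pi.single z 1)
        by_cases hk : k = 0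
        · subst hk
          have : a = Pi.single u ε + Pi.single z 1 := by simpa using h.symm
          rw [← this]
          exact ha
        · obtain ⟨η, hη, hη2, hx⟩ := key (-k) (by omega)
          have ha2 : ∀ w, a w = (if w = u then ε else 0) + (if w = z then 1 else 0) -
              (if w = v then 2 * k else 0) := by
            intro w
            have := congrFun h w
            rw [Pi.add_apply, Pi.add_apply, sgl, sgl, sgl] at this
            omega
          obtain ⟨w, hw, j, δ, hδ, hj, rfl⟩ := e.jb _ _ u ε hx ha hε (by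
            rw [ha2, Pi.add_apply, sgl, sgl, if_pos rfl, if_neg huv, if_neg huz, if_neg huv]
            rcases hε with rfl | rfl <;> norm_num)
          simp only [Pi.add_apply, sgl, ha2] at hj
          have hjv : j = v := by
            by_contra hjv
            simp only [if_neg hjv] at hj
            have : ((if j = u then ε else 0) + (if j = z then 1 else 0) - 0 -
              (0 + (if j = z then 1 else 0) + if j = u then ε else 0) : ℤ) = 0 := by ring
            rw [this] at hj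
            simp at hj
          subst hjv
          have h5 : ¬ j = u := fun h => huv h.symm
          simp only [if_pos, if_neg hvz, if_neg h5] at hj
          have hd : δ = η := by
            rcases hδ with rfl | rfl <;> rcases hη with rfl | rfl <;> first | rfl | (exfalso; omega)
          have e0 : (Pi.single j (-η) + Pi.single z 1 + Pi.single u ε + Pi.single j δ : ℕ → ℤ) =
              Pi.single u ε + Pi.single z 1 := by
            rw [hd, Pi.single_neg]
            abel
          rw [e0] at hw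
          exact hw
    · rintro u hu _ ⟨a, _, ha, ⟨k, rfl⟩, rfl⟩ l
      rcases Finset.mem_insert.1 hu with rfl | hu
      · refine ⟨a, Pi.single u (2 * (k + l)), ha, ⟨k + l, rfl⟩, ?_⟩
        rw [add_assoc, ← Pi.single_add]
        congr 2
        ring
      · refine ⟨a + Pi.single u (2 * l), Pi.single v (2 * k), e.per u hu a ha l, ⟨k, rfl⟩, ?_⟩
        abel

/-! ### the inequality -/

theorem step {J : (ℕ → ℤ) → Prop} {z : ℕ} {S : Finset ℕ} (hJ : JB J) (hzS : z ∉ S)
    (hoff : ∀ x, J x → ∀ v, v ∉ S → v ≠ z → x v = 0) (h0 : ¬ J 0)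
    (hne : ∃ v ∈ S, ∃ ε : ℤ, (ε = 1 ∨ ε = -1) ∧ Fa J z v ε) {d : ℕ → ℤ} (hd : J d) (hdz : d z = 0 ∨ d z = 1)
    (hZ : ∀ v ∈ S, Fa J z v 1 → Fa J z v (-1) → (d v).natAbs ≤ 1) (hp : phi J z S d ≤ 0) :
    ∃ d', J d' ∧ phi J z S d' ≤ 0 ∧ ((d' z = d z ∧ nm S d' < nm S d) ∨ (d z = 0 ∧ d' z = 1)) := by
  have hSz : ∀ v ∈ S, v ≠ z := fun v hv h => hzS (h ▸ hv)
  have hjS : ∀ j, d j ≠ 0 → j ≠ z → j ∈ S := by
    intro j hj hjz
    by_contra hc
    exact hj (hoff d hd j hc hjz)
  -- a right unit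
  obtain ⟨v, hv, ε, hε, hf, hv2⟩ : ∃ v ∈ S, ∃ ε : ℤ, (ε = 1 ∨ ε = -1) ∧ Fa J z v ε ∧ 0 < ε * d v := by
    obtain ⟨u, hu, η, hη, hs⟩ := hne
    by_cases h1 : 0 < η * d u
    · exact ⟨u, hu, η, hη, hs, h1⟩
    · have huz := hSz u hu
      obtain ⟨w, hw, j, δ, hδ, hj, rfl⟩ := hJ _ _ u (-η) hs hd (by omega) (by
        rw [Pi.add_apply, sgl, sgl, if_pos rfl, if_neg huz]
        rcases hη with rfl | rfl <;> omega)
      have e1 : (Pi.single u η + Pi.single z 1 + Pi.single u (-η) : ℕ → ℤ) = Pi.single z 1 := by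
        rw [Pi.single_neg]; abel
      rw [e1] at hj hw
      by_cases hjz : j = z
      · subst hjz
        rw [sgl, if_pos rfl] at hj
        exfalso
        have h2 : δ = -1 := by
          rcases hδ with rfl | rfl
          · exfalso; omega
          · rfl
        apply h0
        have e2 : (Pi.single j 1 + Pi.single j δ : ℕ → ℤ) = 0 := by
          rw [h2, Pi.single_neg]; abel
        rw [e2] at hw
        exact hw
      · rw [sgl, if_neg hjz, sub_zero] at hj
        refine ⟨j, hjS j ?_ hjz, δ, hδ, ?_, hj⟩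
        · intro h; rw [h] at hj; simp at hj
        · show J (Pi.single j δ + Pi.single z 1)
          rw [add_comm]
          exact hw
  obtain ⟨g1, g2⟩ := wt_good hε hf hv2 (hZ v hv)
  -- a wrong unit
  obtain ⟨w, hw, η, hη, hw2, hwf⟩ : ∃ w ∈ S, ∃ η : ℤ, (η = 1 ∨ η = -1) ∧ 0 < η * d w ∧ Fa J z w (-η) ∧ w ≠ v := by
    have h1 : ∃ w ∈ S, wt J z w (d w) < 0 := by
      by_contra hc
      push Not at hc
      have h2 : wt J z v (d v) ≤ phi J z S d :=
        Finset.single_le_sum (f := fun u => wt J z u (d u)) (fun u hu => hc u hu) hv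
      omega
    obtain ⟨w, hw, h2⟩ := h1
    obtain ⟨η, h3, h4, h5⟩ := wt_bad h2
    refine ⟨w, hw, η, h3, h4, h5, ?_⟩
    rintro rfl
    omega
  obtain ⟨hwf, hwv⟩ := hwf
  have hvz := hSz v hv
  have hwz := hSz w hw
  have hvw : ¬ v = w := fun h => hwv h.symm
  obtain ⟨w', hw', j, δ, hδ, hj, rfl⟩ := hJ _ _ v (-ε) hd hwf (by omega) (by
    rw [Pi.add_apply, sgl, sgl, if_neg hvw, if_neg hvz]
    rcases hε with rfl | rfl <;> omega)
  have hp1 : phi J z S (d + Pi.single v (-ε)) = phi J z S d - 1 := by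
    rw [phi_upd J z hv, ← sub_eq_add_neg, g2]
    ring
  by_cases hjz : j = z
  · subst hjz
    have hz1 : ∀ a b : ℕ, a ≠ b → (Pi.single b (-ε) : ℕ → ℤ) a = 0 := fun a b h => by rw [sgl, if_neg h]
    simp only [Pi.add_apply, sgl, if_neg hvz.symm, if_neg hwz.symm, if_true, zero_add, add_zero] at hj
    have h3 : d j = 0 ∧ δ = 1 := by
      rcases hdz with h | h <;> rw [h] at hj <;> rcases hδ with rfl | rfl
      · exact ⟨h, rfl⟩
      · exfalso; omega
      · exfalso; omega
      · exfalso; omega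
    refine ⟨_, hw', ?_, Or.inr ⟨h3.1, ?_⟩⟩
    · have h4 : phi J j S (d + Pi.single v (-ε) + Pi.single j δ) = phi J j S (d + Pi.single v (-ε)) := by
        unfold phi
        refine Finset.sum_congr rfl fun u hu => ?_
        have e5 : (d + Pi.single v (-ε) + Pi.single j δ : ℕ → ℤ) u = (d + Pi.single v (-ε) : ℕ → ℤ) u := by
          rw [Pi.add_apply, sgl, if_neg (hSz u hu), add_zero]
        rw [e5]
      rw [h4, hp1]
      omega
    · rw [Pi.add_apply, Pi.add_apply, sgl, sgl, if_neg hvz.symm, if_pos rfl, h3.1, h3.2]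
      norm_num
  · -- the second step is a removal
    have hrem : (d + Pi.single v (-ε) : ℕ → ℤ) j ≠ 0 ∧ δ * (d + Pi.single v (-ε) : ℕ → ℤ) j < 0 := by
      by_cases hjw : j = w
      · subst hjw
        have e1 : (d + Pi.single v (-ε) : ℕ → ℤ) j = d j := by
          rw [Pi.add_apply, sgl, if_neg hwv, add_zero]
        rw [e1] at hj ⊢
        rw [Pi.add_apply, sgl, sgl, if_pos rfl, if_neg hjz] at hj
        constructor
        · intro h; rw [h] at hw2; simp at hw2
        · rcases hη with rfl | rfl <;> rcases hδ with rfl | rfl <;> omega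
      · have e1 : (Pi.single w (-η) + Pi.single z 1 : ℕ → ℤ) j = 0 := by
          rw [Pi.add_apply, sgl, sgl, if_neg hjw, if_neg hjz, add_zero]
        rw [e1] at hj
        constructor
        · intro h; rw [h] at hj; simp at hj
        · rcases hδ with rfl | rfl <;> omega
    have hjS' : j ∈ S := by
      by_cases hjv : j = v
      · rw [hjv]; exact hv
      · refine hjS j ?_ hjz
        have h1 := hrem.1
        rw [Pi.add_apply, sgl, if_neg hjv, add_zero] at h1
        exact h1
    refine ⟨_, hw', ?_, Or.inl ⟨?_, ?_⟩⟩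
    · rw [phi_upd J z hjS', hp1]
      have := wt_step J z j ((d + Pi.single v (-ε) : ℕ → ℤ) j) δ hδ
      omega
    · rw [Pi.add_apply, Pi.add_apply, sgl, sgl, if_neg hvz.symm, if_neg (Ne.symm hjz), add_zero, add_zero]
    · have h1 := nm_upd hjS' (d + Pi.single v (-ε)) δ
      have h2 := nm_upd hv d (-ε)
      have h3 := hrem.2
      generalize (d + Pi.single v (-ε) : ℕ → ℤ) j = c at h1 h3
      rcases hε with rfl | rfl <;> rcases hδ with rfl | rfl <;> omega

/-- the inequality for periodic jump sets -/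
theorem ineq_per {J : (ℕ → ℤ) → Prop} {z : ℕ} {S : Finset ℕ} (hJ : JB J) (hzS : z ∉ S)
    (hoff : ∀ x, J x → ∀ v, v ∉ S → v ≠ z → x v = 0) (h0 : ¬ J 0)
    (hne : ∃ v ∈ S, ∃ ε : ℤ, (ε = 1 ∨ ε = -1) ∧ Fa J z v ε)
    (hper : ∀ v ∈ S, Fa J z v 1 → Fa J z v (-1) → ∀ x, J x → ∀ k : ℤ, J (x + Pi.single v (2 * k))) :
    ∀ l : ℤ, (l = 0 ∨ l = 1) → ∀ (n : ℕ) (d : ℕ → ℤ), J d → d z = l → nm S d = n → 1 ≤ phi J z S d := by
  have hSz : ∀ v ∈ S, v ≠ z := fun v hv h => hzS (h ▸ hv)
  have main : ∀ l : ℤ, (l = 0 ∨ l = 1) → (l = 0 → ∀ d, J d → d z = 1 → 1 ≤ phi J z S d) →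
      ∀ (n : ℕ) (d : ℕ → ℤ), J d → d z = l → nm S d = n → 1 ≤ phi J z S d := by
    intro l hl h1 n
    induction n using Nat.strong_induction_on with
    | _ n ih =>
      intro d hd hdl hn
      by_contra hc
      have hp : phi J z S d ≤ 0 := by omega
      by_cases hZ : ∀ v ∈ S, Fa J z v 1 → Fa J z v (-1) → (d v).natAbs ≤ 1
      · obtain ⟨d', hd', hp', h2 | h2⟩ := step hJ hzS hoff h0 hne hd (by rw [hdl]; exact hl) hZ hp
        · have := ih (nm S d') (by omega) d' hd' (by rw [h2.1, hdl]) rfl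
          omega
        · have := h1 (by rw [← hdl]; exact h2.1) d' hd' h2.2
          omega
      · push Not at hZ
        obtain ⟨v, hv, f1, f2, h3⟩ := hZ
        obtain ⟨k, hk⟩ : ∃ k : ℤ, (k = 1 ∨ k = -1) ∧ k * d v < 0 := by
          rcases lt_or_ge (d v) 0 with h | h
          · exact ⟨1, Or.inl rfl, by omega⟩
          · exact ⟨-1, Or.inr rfl, by omega⟩
        have hd' := hper v hv f1 f2 d hd k
        have hw : phi J z S (d + Pi.single v (2 * k)) = phi J z S d := by
          rw [phi_upd J z hv]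
          have : wt J z v (d v + 2 * k) = wt J z v (d v) := by
            unfold wt
            rw [if_pos f1, if_pos f2, if_pos f1, if_pos f2]
            omega
          rw [this]
          ring
        have hnm := nm_upd hv d (2 * k)
        have h4 : nm S (d + Pi.single v (2 * k)) < n := by
          rcases hk with ⟨rfl | rfl, h5⟩ <;> omega
        have := ih _ h4 _ hd' (by rw [Pi.add_apply, sgl, if_neg (hSz v hv).symm, add_zero, hdl]) rfl
        omega
  intro l hl
  refine main l hl ?_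
  intro _ d hd hd1
  exact main 1 (Or.inr rfl) (fun h => by omega) _ d hd hd1 rfl

/-- **the rooted Gallai-Edmonds inequality** -/
theorem rgc {J : (ℕ → ℤ) → Prop} {z : ℕ} {S : Finset ℕ} (hJ : JB J) (hzS : z ∉ S)
    (hoff : ∀ x, J x → ∀ v, v ∉ S → v ≠ z → x v = 0) (h0 : ¬ J 0)
    (hne : ∃ v ∈ S, ∃ ε : ℤ, (ε = 1 ∨ ε = -1) ∧ Fa J z v ε) {d : ℕ → ℤ} (hd : J d) (hdz : d z = 0 ∨ d z = 1) :
    1 ≤ phi J z S d := by
  classical
  have hSz : ∀ v ∈ S, v ≠ z := fun v hv h => hzS (h ▸ hv)
  obtain ⟨J', e⟩ := extend hJ hoff h0 (S.filter fun v => Fa J z v 1 ∧ Fa J z v (-1)) (by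
    intro v hv
    rw [Finset.mem_filter] at hv
    exact ⟨hv.1, hSz v hv.1, hv.2⟩)
  have hfa : ∀ v ∈ S, ∀ ε : ℤ, (ε = 1 ∨ ε = -1) → (Fa J' z v ε ↔ Fa J z v ε) := fun v hv ε hε =>
    ⟨e.fa v ε (hSz v hv) hε, fun h => e.sub _ h⟩
  have hphi : phi J' z S d = phi J z S d := by
    unfold phi
    refine Finset.sum_congr rfl fun v hv => ?_
    unfold wt
    simp only [hfa v hv 1 (Or.inl rfl), hfa v hv (-1) (Or.inr rfl)]
  rw [← hphi]
  refine ineq_per e.jb hzS e.off e.no ?_ ?_ (d z) hdz _ d (e.sub d hd) rfl rfl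
  · obtain ⟨v, hv, ε, hε, h⟩ := hne
    exact ⟨v, hv, ε, hε, (hfa v hv ε hε).2 h⟩
  · intro v hv f1 f2
    refine e.per v ?_
    rw [Finset.mem_filter]
    exact ⟨hv, (hfa v hv 1 (Or.inl rfl)).1 f1, (hfa v hv (-1) (Or.inr rfl)).1 f2⟩

end Pool.Agent.PF4.RG

end

section -- file TFC/R2

/-!
Lemma 6.3: units of a cluster with two centres.
-/

set_option autoImplicit false
set_option linter.unusedSectionVars false

namespace Pool.Agent.TFC

open Finset
open scoped Pointwise

variable {V : Type*} [DecidableEq V]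

/-- indicator vector -/
private def r2ind (S : Finset V) : V → ℤ := ∑ l ∈ S, ev l

private lemma r2ind_apply (S : Finset V) (v : V) : r2ind S v = if v ∈ S then 1 else 0 := by
  simp only [r2ind, Finset.sum_apply, ev_apply]
  rw [Finset.sum_ite_eq]

/-- the star at `w` with leaves `A` -/
private def r2st (w : V) (A : Finset V) : Finset (Sym2 V) := A.image (fun l => s(w, l))

private lemma r2_mem_st {w x y : V} {A : Finset V} :
    s(x, y) ∈ r2st w A ↔ (x = w ∧ y ∈ A) ∨ (y = w ∧ x ∈ A) := by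
  simp only [r2st, mem_image, Sym2.eq_iff]
  constructor
  · rintro ⟨a, ha, (⟨rfl, rfl⟩ | ⟨rfl, rfl⟩)⟩
    · exact Or.inl ⟨rfl, ha⟩
    · exact Or.inr ⟨rfl, ha⟩
  · rintro (⟨rfl, h⟩ | ⟨rfl, h⟩)
    · exact ⟨y, h, Or.inl ⟨rfl, rfl⟩⟩
    · exact ⟨x, h, Or.inr ⟨rfl, rfl⟩⟩

private lemma r2_dv_st {w : V} {A : Finset V} (hw : w ∉ A) :
    dv (r2st w A) = r2ind A + (#A : ℤ) • ev w := by
  induction A using Finset.induction_on with
  | empty => funext v; simp [r2st, r2ind, dv, dg]
  | insert a A ha ih =>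
    rw [mem_insert, not_or] at hw
    have h1 : r2st w (insert a A) = insert s(w, a) (r2st w A) := by
      simp [r2st, image_insert]
    rw [h1, dv_insert hw.1, ih hw.2, card_insert_of_notMem ha]
    · rw [r2ind, r2ind, Finset.sum_insert ha]
      push_cast
      rw [add_smul, one_smul]
      abel
    · rw [r2_mem_st]
      rintro (⟨-, h⟩ | ⟨h, -⟩)
      · exact ha h
      · exact hw.1 h.symm

private lemma r2_dv_union {s t : Finset (Sym2 V)} (h : Disjoint s t) :
    dv (s ∪ t) = dv s + dv t := by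
  funext v
  simp only [dv, dg, Pi.add_apply]
  rw [filter_union, card_union_of_disjoint (disjoint_filter_filter h)]
  push_cast
  rfl

/-- the degree vector of the star at `w` with leaves `A` and the star at `w'` with leaves `B` -/
private def r2K (w w' : V) (A B : Finset V) : V → ℤ :=
  r2ind A + r2ind B + (#A : ℤ) • ev w + (#B : ℤ) • ev w'

private lemma r2_dv {w w' : V} {L A B : Finset V} (h1 : w ≠ w') (h2 : w ∉ L) (h3 : w' ∉ L)
    (hA : A ⊆ L) (hB : B ⊆ L) : dv (r2st w A ∪ r2st w' B) = r2K w w' A B := by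
  have hd : Disjoint (r2st w A) (r2st w' B) := by
    rw [Finset.disjoint_left]
    intro e
    induction e using Sym2.ind with
    | _ x y =>
      rw [r2_mem_st, r2_mem_st]
      rintro (⟨rfl, h⟩ | ⟨rfl, h⟩) (⟨h4, h5⟩ | ⟨h4, h5⟩)
      · exact h1 h4
      · exact h3 (h4 ▸ hA h)
      · exact h3 (h4 ▸ hA h)
      · exact h1 h4
  rw [r2_dv_union hd, r2_dv_st (fun h => h2 (hA h)), r2_dv_st (fun h => h3 (hB h)), r2K]
  abel

private lemma r2K_w {w w' : V} {L A B : Finset V} (h1 : w ≠ w') (h2 : w ∉ L)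
    (hA : A ⊆ L) (hB : B ⊆ L) : r2K w w' A B w = #A := by
  have h4 : w ∉ A := fun h => h2 (hA h)
  have h5 : w ∉ B := fun h => h2 (hB h)
  simp [r2K, r2ind_apply, h4, h5, ev_apply, h1]

private lemma r2K_w' {w w' : V} {L A B : Finset V} (h1 : w ≠ w') (h2 : w' ∉ L)
    (hA : A ⊆ L) (hB : B ⊆ L) : r2K w w' A B w' = #B := by
  have h4 : w' ∉ A := fun h => h2 (hA h)
  have h5 : w' ∉ B := fun h => h2 (hB h)
  simp [r2K, r2ind_apply, h4, h5, ev_apply, h1.symm]

private lemma r2K_other {w w' v : V} {A B : Finset V} (h1 : v ≠ w) (h2 : v ≠ w') :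
    r2K w w' A B v ≤ 2 := by
  simp only [r2K, Pi.add_apply, r2ind_apply, Pi.smul_apply, ev_apply, h1, h2, if_false, smul_zero,
    add_zero]
  split_ifs <;> norm_num

private lemma r2K_eraseA {w w' t : V} {A B : Finset V} (ht : t ∈ A) :
    r2K w w' A B = r2K w w' (A.erase t) B + (ev w + ev t) := by
  have h1 : r2ind A = r2ind (A.erase t) + ev t := by
    rw [r2ind, r2ind, Finset.sum_erase_add _ _ ht]
  have h2 : ((#A : ℕ) : ℤ) = (#(A.erase t) : ℤ) + 1 := by
    rw [← card_erase_add_one ht]; push_cast; rfl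
  rw [r2K, r2K, h1, h2, add_smul, one_smul]
  abel

private lemma r2K_eraseB {w w' t : V} {A B : Finset V} (ht : t ∈ B) :
    r2K w w' A B = r2K w w' A (B.erase t) + (ev w' + ev t) := by
  have h1 : r2ind B = r2ind (B.erase t) + ev t := by
    rw [r2ind, r2ind, Finset.sum_erase_add _ _ ht]
  have h2 : ((#B : ℕ) : ℤ) = (#(B.erase t) : ℤ) + 1 := by
    rw [← card_erase_add_one ht]; push_cast; rfl
  rw [r2K, r2K, h1, h2, add_smul, one_smul]
  abel

private lemma r2K_insA {w w' t : V} {A B : Finset V} (ht : t ∉ A) :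
    r2K w w' A B + (ev w + ev t) = r2K w w' (insert t A) B := by
  rw [r2K_eraseA (mem_insert_self t A), erase_insert ht]

private lemma r2K_insB {w w' t : V} {A B : Finset V} (ht : t ∉ B) :
    r2K w w' A B + (ev w' + ev t) = r2K w w' A (insert t B) := by
  rw [r2K_eraseB (mem_insert_self t B), erase_insert ht]

private lemma r2_mem_JS {w w' : V} {L A B : Finset V} (h1 : w ≠ w') (h2 : w ∉ L) (h3 : w' ∉ L)
    (hA : A ⊆ L) (hB : B ⊆ L) (cA : #A ≤ 2) (cB : #B ≤ 2) (cAB : #(A ∩ B) ≤ 1) :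
    r2K w w' A B ∈ JS (Clu.k2 w w' L).edges none4 := by
  refine ⟨r2st w A ∪ r2st w' B, ?_, ?_, ?_, (r2_dv h1 h2 h3 hA hB).symm⟩
  · exact union_subset_union (image_subset_image hA) (image_subset_image hB)
  · refine M2.of_dv ?_ ?_
    · intro e he
      rcases mem_union.mp he with he | he
      · obtain ⟨l, hl, rfl⟩ := mem_image.mp he
        intro h; rw [Sym2.mk_isDiag_iff] at h; exact h2 (h ▸ hA hl)
      · obtain ⟨l, hl, rfl⟩ := mem_image.mp he
        intro h; rw [Sym2.mk_isDiag_iff] at h; exact h3 (h ▸ hB hl)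
    · intro v
      rw [r2_dv h1 h2 h3 hA hB]
      by_cases hw : v = w
      · subst hw; rw [r2K_w h1 h2 hA hB]; exact_mod_cast cA
      by_cases hw' : v = w'
      · subst hw'; rw [r2K_w' h1 h3 hA hB]; exact_mod_cast cB
      exact r2K_other hw hw'
  · intro a b c d h
    have hm : ∀ {x y : V}, s(x, y) ∈ r2st w A ∪ r2st w' B →
        (x = w ∧ y ∈ A) ∨ (y = w ∧ x ∈ A) ∨ (x = w' ∧ y ∈ B) ∨ (y = w' ∧ x ∈ B) := by
      intro x y hxy
      rw [mem_union, r2_mem_st, r2_mem_st] at hxy
      tauto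
    have hAw : w ∉ A := fun h => h2 (hA h)
    have hAw' : w' ∉ A := fun h => h3 (hA h)
    have hBw : w ∉ B := fun h => h2 (hB h)
    have hBw' : w' ∉ B := fun h => h3 (hB h)
    have hcard : ∀ x y : V, x ≠ y → x ∈ A → x ∈ B → y ∈ A → y ∈ B → False := by
      intro x y hxy h4 h5 h6 h7
      have := card_le_one.mp cAB x (mem_inter.mpr ⟨h4, h5⟩) y (mem_inter.mpr ⟨h6, h7⟩)
      exact hxy this
    have hac := h.ac
    have hbd := h.bd
    -- a square `x y x' y'` with a centre in first position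
    have key : ∀ {a b c d : V}, a ≠ c → b ≠ d →
        (a = w ∧ b ∈ A) ∨ (a = w' ∧ b ∈ B) →
        s(b, c) ∈ r2st w A ∪ r2st w' B → s(c, d) ∈ r2st w A ∪ r2st w' B →
        s(d, a) ∈ r2st w A ∪ r2st w' B → False := by
      intro a b c d hac hbd hab hbc hcd hda
      rcases hab with ⟨rfl, hb⟩ | ⟨rfl, hb⟩
      · rcases hm hbc with ⟨rfl, h5⟩ | ⟨rfl, h5⟩ | ⟨rfl, h5⟩ | ⟨rfl, h5⟩
        · exact hAw hb
        · exact hac rfl
        · exact hAw' hb
        · rcases hm hda with ⟨rfl, h6⟩ | ⟨-, h6⟩ | ⟨rfl, h6⟩ | ⟨h, h6⟩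
          · exact hAw h6
          · rcases hm hcd with ⟨h, h7⟩ | ⟨rfl, h7⟩ | ⟨-, h7⟩ | ⟨rfl, h7⟩
            · exact h1 h.symm
            · exact hAw h6
            · exact hcard b d hbd hb h5 h6 h7
            · exact hAw' h6
          · exact hBw h6
          · exact h1 h
      · rcases hm hbc with ⟨rfl, h5⟩ | ⟨rfl, h5⟩ | ⟨rfl, h5⟩ | ⟨rfl, h5⟩
        · exact hBw hb
        · rcases hm hda with ⟨rfl, h6⟩ | ⟨h, h6⟩ | ⟨rfl, h6⟩ | ⟨-, h6⟩
          · exact hAw' h6
          · exact h1 h.symm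
          · exact hBw' h6
          · rcases hm hcd with ⟨-, h7⟩ | ⟨rfl, h7⟩ | ⟨h, h7⟩ | ⟨rfl, h7⟩
            · exact hcard b d hbd h5 hb h7 h6
            · exact hBw h6
            · exact h1 h
            · exact hBw' h6
        · exact hBw' hb
        · exact hac rfl
    rcases hm h.ab with ⟨h4, h5⟩ | ⟨h4, h5⟩ | ⟨h4, h5⟩ | ⟨h4, h5⟩
    · exact key h.ac h.bd (Or.inl ⟨h4, h5⟩) h.bc h.cd h.da
    · have hr := h.ref.rot.rot
      exact key hr.ac hr.bd (Or.inl ⟨h4, h5⟩) hr.bc hr.cd hr.da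
    · exact key h.ac h.bd (Or.inr ⟨h4, h5⟩) h.bc h.cd h.da
    · have hr := h.ref.rot.rot
      exact key hr.ac hr.bd (Or.inr ⟨h4, h5⟩) hr.bc hr.cd hr.da

private lemma r2_of_mem_JS {w w' : V} {L : Finset V} (h1 : w ≠ w') (h2 : w ∉ L) (h3 : w' ∉ L)
    {k : V → ℤ} (hk : k ∈ JS (Clu.k2 w w' L).edges none4) :
    ∃ A B : Finset V, A ⊆ L ∧ B ⊆ L ∧ #A ≤ 2 ∧ #B ≤ 2 ∧ #(A ∩ B) ≤ 1 ∧ k = r2K w w' A B := by
  obtain ⟨z, hz, hM, hg, rfl⟩ := hk
  set A := L.filter (fun l => s(w, l) ∈ z) with hA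
  set B := L.filter (fun l => s(w', l) ∈ z) with hB
  have hAL : A ⊆ L := filter_subset _ _
  have hBL : B ⊆ L := filter_subset _ _
  have hzz : z = r2st w A ∪ r2st w' B := by
    ext e
    constructor
    · intro he
      have h4 := hz he
      simp only [Clu.edges, mem_union, mem_image] at h4
      rcases h4 with ⟨l, hl, rfl⟩ | ⟨l, hl, rfl⟩
      · exact mem_union_left _ (mem_image.mpr ⟨l, mem_filter.mpr ⟨hl, he⟩, rfl⟩)
      · exact mem_union_right _ (mem_image.mpr ⟨l, mem_filter.mpr ⟨hl, he⟩, rfl⟩)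
    · intro he
      rcases mem_union.mp he with he | he
      · obtain ⟨l, hl, rfl⟩ := mem_image.mp he
        exact (mem_filter.mp hl).2
      · obtain ⟨l, hl, rfl⟩ := mem_image.mp he
        exact (mem_filter.mp hl).2
  have hdv : dv z = r2K w w' A B := by
    rw [← r2_dv h1 h2 h3 hAL hBL, ← hzz]
  refine ⟨A, B, hAL, hBL, ?_, ?_, ?_, hdv⟩
  · have h4 := congrFun hdv w
    rw [r2K_w h1 h2 hAL hBL, dv_apply] at h4
    have h5 := hM.le w
    have : dg z w = #A := by exact_mod_cast h4
    omega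
  · have h4 := congrFun hdv w'
    rw [r2K_w' h1 h3 hAL hBL, dv_apply] at h4
    have h5 := hM.le w'
    have : dg z w' = #B := by exact_mod_cast h4
    omega
  · by_contra hcon
    push Not at hcon
    obtain ⟨a, ha, b, hb, hab⟩ := one_lt_card.mp hcon
    rw [mem_inter] at ha hb
    have a1 := (mem_filter.mp ha.1).2
    have a2 := (mem_filter.mp ha.2).2
    have b1 := (mem_filter.mp hb.1).2
    have b2 := (mem_filter.mp hb.2).2
    exact hg w a w' b ⟨h1, hab, a1, msw a2, b2, msw b1⟩

private lemma r2_list_mem {w w' : V} : ∀ (l : List V), l.Nodup → ∀ P Q : Finset V,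
    (∀ x ∈ P, x ∈ l) → (∀ x ∈ Q, x ∈ l) → Disjoint P Q →
    r2K w w' P Q ∈ sumU (l.map (fun l => (({l} : Finset V), ({w, w'} : Finset V)))) := by
  intro l
  induction l with
  | nil =>
    intro _ P Q hP hQ _
    have h1 : P = ∅ := by
      rw [eq_empty_iff_forall_notMem]; intro x hx; simpa using hP x hx
    have h2 : Q = ∅ := by
      rw [eq_empty_iff_forall_notMem]; intro x hx; simpa using hQ x hx
    subst h1 h2
    simp [sumU, r2K, r2ind]
  | cons a l ih =>
    intro hn P Q hP hQ hd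
    rw [List.nodup_cons] at hn
    rw [List.map_cons, sumU]
    by_cases haP : a ∈ P
    · have haQ : a ∉ Q := Finset.disjoint_left.mp hd haP
      rw [r2K_eraseA haP, add_comm (r2K w w' (P.erase a) Q)]
      refine Set.add_mem_add ?_ ?_
      · refine Or.inr ⟨a, mem_singleton_self a, w, by simp, add_comm _ _⟩
      · refine ih hn.2 _ _ ?_ ?_ (hd.mono_left (erase_subset _ _))
        · intro x hx
          rw [mem_erase] at hx
          exact (List.mem_cons.mp (hP x hx.2)).resolve_left hx.1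
        · intro x hx
          refine (List.mem_cons.mp (hQ x hx)).resolve_left ?_
          rintro rfl; exact haQ hx
    · by_cases haQ : a ∈ Q
      · rw [r2K_eraseB haQ, add_comm (r2K w w' P (Q.erase a))]
        refine Set.add_mem_add ?_ ?_
        · refine Or.inr ⟨a, mem_singleton_self a, w', by simp, add_comm _ _⟩
        · refine ih hn.2 _ _ ?_ ?_ (hd.mono_right (erase_subset _ _))
          · intro x hx
            refine (List.mem_cons.mp (hP x hx)).resolve_left ?_
            rintro rfl; exact haP hx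
          · intro x hx
            rw [mem_erase] at hx
            exact (List.mem_cons.mp (hQ x hx.2)).resolve_left hx.1
      · rw [← zero_add (r2K w w' P Q)]
        refine Set.add_mem_add (Or.inl rfl) ?_
        refine ih hn.2 _ _ ?_ ?_ hd
        · intro x hx
          refine (List.mem_cons.mp (hP x hx)).resolve_left ?_
          rintro rfl; exact haP hx
        · intro x hx
          refine (List.mem_cons.mp (hQ x hx)).resolve_left ?_
          rintro rfl; exact haQ hx

private lemma r2_of_list_mem {w w' : V} : ∀ (l : List V), l.Nodup → ∀ k : V → ℤ,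
    k ∈ sumU (l.map (fun l => (({l} : Finset V), ({w, w'} : Finset V)))) →
    ∃ P Q : Finset V, (∀ x ∈ P, x ∈ l) ∧ (∀ x ∈ Q, x ∈ l) ∧ Disjoint P Q ∧ k = r2K w w' P Q := by
  intro l
  induction l with
  | nil =>
    intro _ k hk
    refine ⟨∅, ∅, by simp, by simp, by simp, ?_⟩
    rw [List.map_nil, sumU, Set.mem_singleton_iff] at hk
    simp [hk, r2K, r2ind]
  | cons a l ih =>
    intro hn k hk
    rw [List.nodup_cons] at hn
    rw [List.map_cons, sumU] at hk
    obtain ⟨u, hu, t, ht, rfl⟩ := Set.mem_add.mp hk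
    obtain ⟨P, Q, hP, hQ, hd, rfl⟩ := ih hn.2 t ht
    have haP : a ∉ P := fun h => hn.1 (hP a h)
    have haQ : a ∉ Q := fun h => hn.1 (hQ a h)
    rcases hu with rfl | ⟨s, hs, t, ht', rfl⟩
    · refine ⟨P, Q, fun x hx => List.mem_cons_of_mem _ (hP x hx),
        fun x hx => List.mem_cons_of_mem _ (hQ x hx), hd, by rw [zero_add]⟩
    · have hs' : s = a := mem_singleton.mp hs
      subst hs'
      have ht'' : t = w ∨ t = w' := by simpa using ht'
      rcases ht'' with rfl | rfl
      · refine ⟨insert s P, Q, ?_, fun x hx => List.mem_cons_of_mem _ (hQ x hx), ?_, ?_⟩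
        · intro x hx
          rcases mem_insert.mp hx with rfl | hx
          · exact List.mem_cons_self
          · exact List.mem_cons_of_mem _ (hP x hx)
        · rw [disjoint_insert_left]; exact ⟨haQ, hd⟩
        · rw [← r2K_insA haP]; abel
      · refine ⟨P, insert s Q, fun x hx => List.mem_cons_of_mem _ (hP x hx), ?_, ?_, ?_⟩
        · intro x hx
          rcases mem_insert.mp hx with rfl | hx
          · exact List.mem_cons_self
          · exact List.mem_cons_of_mem _ (hQ x hx)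
        · rw [disjoint_insert_right]; exact ⟨haP, hd⟩
        · rw [← r2K_insB haQ]; abel

private lemma r2_mem_units {w w' c : V} {L P Q : Finset V} {u1 u2 : V → ℤ}
    (hP : P ⊆ L.erase c) (hQ : Q ⊆ L.erase c) (hd : Disjoint P Q)
    (h1 : u1 = 0 ∨ ∃ t ∈ L, u1 = ev w + ev t) (h2 : u2 = 0 ∨ u2 = ev w' + ev c) :
    r2K w w' P Q + u1 + u2 ∈ sumU (CC.k2 w w' c L).units := by
  rw [CC.units, sumU_append, add_assoc]
  refine Set.add_mem_add ?_ ?_
  · refine r2_list_mem _ (nodup_toList _) P Q ?_ ?_ hd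
    · intro x hx; rw [mem_toList]; exact hP hx
    · intro x hx; rw [mem_toList]; exact hQ hx
  · rw [sumU, sumU, sumU]
    refine Set.add_mem_add ?_ ?_
    · rcases h1 with rfl | ⟨t, ht, rfl⟩
      · exact Or.inl rfl
      · exact Or.inr ⟨w, mem_singleton_self w, t, ht, rfl⟩
    · rw [← add_zero u2]
      refine Set.add_mem_add ?_ (Set.mem_singleton _)
      rcases h2 with rfl | rfl
      · exact Or.inl rfl
      · exact Or.inr ⟨w', mem_singleton_self w', c, mem_singleton_self c, rfl⟩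

private lemma r2_of_mem_units {w w' c : V} {L : Finset V} {k : V → ℤ}
    (hk : k ∈ sumU (CC.k2 w w' c L).units) :
    ∃ (P Q : Finset V) (u1 u2 : V → ℤ), P ⊆ L.erase c ∧ Q ⊆ L.erase c ∧ Disjoint P Q ∧
      (u1 = 0 ∨ ∃ t ∈ L, u1 = ev w + ev t) ∧ (u2 = 0 ∨ u2 = ev w' + ev c) ∧
      k = r2K w w' P Q + u1 + u2 := by
  rw [CC.units, sumU_append] at hk
  obtain ⟨a, ha, b, hb, rfl⟩ := Set.mem_add.mp hk
  obtain ⟨P, Q, hP, hQ, hd, rfl⟩ := r2_of_list_mem _ (nodup_toList _) a ha
  rw [sumU, sumU, sumU] at hb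
  obtain ⟨u1, hu1, r, hr, rfl⟩ := Set.mem_add.mp hb
  obtain ⟨u2, hu2, z, hz, rfl⟩ := Set.mem_add.mp hr
  rw [Set.mem_singleton_iff] at hz
  subst hz
  refine ⟨P, Q, u1, u2, ?_, ?_, hd, ?_, ?_, ?_⟩
  · intro x hx; exact mem_toList.mp (hP x hx)
  · intro x hx; exact mem_toList.mp (hQ x hx)
  · rcases hu1 with rfl | ⟨s, hs, t, ht, rfl⟩
    · exact Or.inl rfl
    · rw [mem_singleton] at hs
      subst hs
      exact Or.inr ⟨t, ht, rfl⟩
  · rcases hu2 with rfl | ⟨s, hs, t, ht, rfl⟩
    · exact Or.inl rfl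
    · rw [mem_singleton] at hs ht
      subst hs ht
      exact Or.inr rfl
  · rw [add_zero]; abel

theorem JS_subset_units_k2 {w w' c : V} {L : Finset V} (hv : (CC.k2 w w' c L).Valid) :
    JS (CC.k2 w w' c L).clu.edges none4 ⊆ sumU (CC.k2 w w' c L).units := by
  obtain ⟨h1, h2, h3, -, hc⟩ := hv
  intro k hk
  obtain ⟨A, B, hA, hB, cA, cB, cAB, rfl⟩ := r2_of_mem_JS h1 h2 h3 hk
  have hAc : A.erase c ⊆ L.erase c := erase_subset_erase c hA
  have hBc : B.erase c ⊆ L.erase c := erase_subset_erase c hB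
  -- the part of `B` at `c`
  have hBB : ∃ u2 : V → ℤ, (u2 = 0 ∨ u2 = ev w' + ev c) ∧
      ∀ P : Finset V, r2K w w' P B = r2K w w' P (B.erase c) + u2 := by
    by_cases hcB : c ∈ B
    · exact ⟨_, Or.inr rfl, fun P => r2K_eraseB hcB⟩
    · exact ⟨0, Or.inl rfl, fun P => by rw [erase_eq_of_notMem hcB, add_zero]⟩
  obtain ⟨u2, hu2, hB2⟩ := hBB
  by_cases hcA : c ∈ A
  · by_cases hcB : c ∈ B
    · -- both
      have hd : Disjoint (A.erase c) (B.erase c) := by
        rw [Finset.disjoint_left]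
        intro x hx hx'
        rw [mem_erase] at hx hx'
        exact hx.1 (card_le_one.mp cAB x (mem_inter.mpr ⟨hx.2, hx'.2⟩) c
          (mem_inter.mpr ⟨hcA, hcB⟩))
      rw [r2K_eraseA hcA, hB2]
      have := r2_mem_units hAc hBc hd (u1 := ev w + ev c) (u2 := u2)
        (Or.inr ⟨c, hc, rfl⟩) hu2
      convert this using 1
      abel
    · have hBL : B ⊆ L.erase c := by
        intro x hx
        rw [mem_erase]
        exact ⟨fun h => hcB (h ▸ hx), hB hx⟩
      by_cases he : A ∩ B = ∅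
      · have hd : Disjoint (A.erase c) B :=
          (disjoint_iff_inter_eq_empty.mpr he).mono_left (erase_subset _ _)
        rw [r2K_eraseA hcA]
        have := r2_mem_units hAc hBL hd (u1 := ev w + ev c) (u2 := 0)
          (Or.inr ⟨c, hc, rfl⟩) (Or.inl rfl) (w := w) (w' := w')
        rwa [add_zero] at this
      · obtain ⟨l, hl⟩ := nonempty_iff_ne_empty.mpr he
        rw [mem_inter] at hl
        have hlc : l ≠ c := fun h => hcB (h ▸ hl.2)
        have hAl : A.erase c = {l} := by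
          have h5 : l ∈ A.erase c := mem_erase.mpr ⟨hlc, hl.1⟩
          have h6 : #(A.erase c) ≤ 1 := by
            have := card_erase_add_one hcA
            omega
          exact eq_singleton_iff_unique_mem.mpr ⟨h5, fun x hx => card_le_one.mp h6 x hx l h5⟩
        have hd : Disjoint ({l} : Finset V) (B.erase l) := by simp
        have hBl : B.erase l ⊆ L.erase c := (erase_subset _ _).trans hBL
        have hll : ({l} : Finset V) ⊆ L.erase c := by
          rw [← hAl]; exact hAc
        have := r2_mem_units hll hBl hd (u1 := ev w + ev l) (u2 := ev w' + ev c)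
          (Or.inr ⟨l, hA hl.1, rfl⟩) (Or.inr rfl) (w := w) (w' := w')
        rw [r2K_eraseA hcA, hAl, r2K_eraseB hl.2]
        convert this using 1
        abel
  · have hAL : A ⊆ L.erase c := by
      intro x hx
      rw [mem_erase]
      exact ⟨fun h => hcA (h ▸ hx), hA hx⟩
    by_cases he : A ∩ B = ∅
    · have hd : Disjoint A (B.erase c) :=
        (disjoint_iff_inter_eq_empty.mpr he).mono_right (erase_subset _ _)
      have := r2_mem_units (w := w) hAL hBc hd (u1 := 0) (u2 := u2) (Or.inl rfl) hu2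
      rw [hB2]
      rwa [add_zero] at this
    · obtain ⟨t, ht⟩ := nonempty_iff_ne_empty.mpr he
      have ht' := mem_inter.mp ht
      have hd : Disjoint (A.erase t) (B.erase c) := by
        rw [Finset.disjoint_left]
        intro x hx hx'
        rw [mem_erase] at hx hx'
        exact hx.1 (card_le_one.mp cAB x (mem_inter.mpr ⟨hx.2, hx'.2⟩) t ht)
      have := r2_mem_units ((erase_subset t A).trans hAL) hBc hd (u1 := ev w + ev t) (u2 := u2)
        (Or.inr ⟨t, hA ht'.1, rfl⟩) hu2
      rw [r2K_eraseA ht'.1, hB2]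
      convert this using 1
      abel

theorem units_k2_le {w w' c : V} {L : Finset V} (hv : (CC.k2 w w' c L).Valid) {k : V → ℤ}
    (hk : k ∈ sumU (CC.k2 w w' c L).units) (h2 : ∀ v, k v ≤ 2) :
    k ∈ JS (CC.k2 w w' c L).clu.edges none4 ∨ ∃ l ∈ L, l ≠ c ∧ k = 2 • ev w + 2 • ev l := by
  obtain ⟨h1, hwL, hwL', -, hc⟩ := hv
  obtain ⟨P, Q, u1, u2, hP, hQ, hd, hu1, hu2, rfl⟩ := r2_of_mem_units hk
  have hcP : c ∉ P := fun h => (mem_erase.mp (hP h)).1 rfl
  have hcQ : c ∉ Q := fun h => (mem_erase.mp (hQ h)).1 rfl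
  have hPL : P ⊆ L := hP.trans (erase_subset _ _)
  have hQL : Q ⊆ L := hQ.trans (erase_subset _ _)
  -- absorb `u2`
  obtain ⟨B, hBL, hdB, hB⟩ : ∃ B : Finset V, B ⊆ L ∧ Disjoint P B ∧
      ∀ A : Finset V, r2K w w' A Q + u2 = r2K w w' A B := by
    rcases hu2 with rfl | rfl
    · exact ⟨Q, hQL, hd, fun A => add_zero _⟩
    · refine ⟨insert c Q, insert_subset hc hQL, ?_, fun A => r2K_insB hcQ⟩
      rw [disjoint_insert_right]; exact ⟨hcP, hd⟩
  have hk2 : r2K w w' P Q + u1 + u2 = r2K w w' P B + u1 := by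
    rw [← hB P]; abel
  rw [hk2] at h2 ⊢
  change _ ∈ JS (Clu.k2 w w' L).edges none4 ∨ _
  rcases hu1 with rfl | ⟨t, htL, rfl⟩
  · left
    rw [add_zero] at h2 ⊢
    refine r2_mem_JS h1 hwL hwL' hPL hBL ?_ ?_ ?_
    · have := h2 w
      rw [r2K_w h1 hwL hPL hBL] at this
      exact_mod_cast this
    · have := h2 w'
      rw [r2K_w' h1 hwL' hPL hBL] at this
      exact_mod_cast this
    · rw [disjoint_iff_inter_eq_empty.mp hdB]; simp
  · by_cases htP : t ∈ P
    · -- `t ∈ P`
      have htw : t ≠ w := fun h => hwL (h ▸ htL)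
      have htw' : t ≠ w' := fun h => hwL' (h ▸ htL)
      have hwt : ev t w = 0 := ev_ne htw.symm
      have hP1 : P = {t} := by
        have h5 := h2 w
        rw [Pi.add_apply, Pi.add_apply, r2K_w h1 hwL hPL hBL, ev_self, hwt] at h5
        have h6 : #P ≤ 1 := by
          have : (#P : ℤ) ≤ 1 := by linarith
          exact_mod_cast this
        exact eq_singleton_iff_unique_mem.mpr ⟨htP, fun x hx => card_le_one.mp h6 x hx t htP⟩
      have hB2 : #B ≤ 2 := by
        have h5 := h2 w'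
        rw [Pi.add_apply, Pi.add_apply, r2K_w' h1 hwL' hPL hBL, ev_ne h1.symm, ev_ne htw'.symm] at h5
        have : (#B : ℤ) ≤ 2 := by linarith
        exact_mod_cast this
      have htB : t ∉ B := Finset.disjoint_left.mp hdB htP
      have htc : t ≠ c := fun h => hcP (h ▸ htP)
      subst hP1
      by_cases hB0 : B = ∅
      · right
        subst hB0
        refine ⟨t, htL, htc, ?_⟩
        rw [r2K, r2ind, r2ind, sum_singleton, sum_empty, card_singleton, card_empty, two_smul,
          two_smul]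
        push_cast
        rw [one_smul, zero_smul]
        abel
      · left
        obtain ⟨m, hm⟩ := nonempty_iff_ne_empty.mpr hB0
        have htm : t ≠ m := fun h => htB (h ▸ hm)
        have hmt : m ∉ ({t} : Finset V) := by simpa using htm.symm
        -- move `m` from `B` to `A`, put `t` in both
        have e1 : r2K w w' {t} B + (ev w + ev t) =
            r2K w w' (insert m {t}) (insert t (B.erase m)) := by
          have htB' : t ∉ B.erase m := fun h => htB (mem_of_mem_erase h)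
          rw [← r2K_insA hmt, ← r2K_insB htB', r2K_eraseB hm]
          abel
        rw [e1]
        refine r2_mem_JS h1 hwL hwL' ?_ ?_ ?_ ?_ ?_
        · exact insert_subset (hBL hm) (by simpa using htL)
        · exact insert_subset htL ((erase_subset _ _).trans hBL)
        · exact card_le_two
        · have htB' : t ∉ B.erase m := fun h => htB (mem_of_mem_erase h)
          rw [card_insert_of_notMem htB', card_erase_add_one hm]
          exact hB2
        · rw [card_le_one]
          have : ∀ x ∈ insert m {t} ∩ insert t (B.erase m), x = t := by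
            intro x hx
            rw [mem_inter, mem_insert, mem_singleton, mem_insert, mem_erase] at hx
            rcases hx.1 with rfl | h
            · rcases hx.2 with h | h
              · exact h
              · exact absurd rfl h.1
            · exact h
          intro x hx y hy
          rw [this x hx, this y hy]
    · left
      rw [r2K_insA htP] at h2 ⊢
      have hAL : insert t P ⊆ L := insert_subset htL hPL
      refine r2_mem_JS h1 hwL hwL' hAL hBL ?_ ?_ ?_
      · have := h2 w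
        rw [r2K_w h1 hwL hAL hBL] at this
        exact_mod_cast this
      · have := h2 w'
        rw [r2K_w' h1 hwL' hAL hBL] at this
        exact_mod_cast this
      · rw [card_le_one]
        have : ∀ x ∈ insert t P ∩ B, x = t := by
          intro x hx
          rw [mem_inter, mem_insert] at hx
          rcases hx.1 with h | h
          · exact h
          · exact absurd hx.2 (Finset.disjoint_left.mp hdB h)
        intro x hx y hy
        rw [this x hx, this y hy]

end Pool.Agent.TFC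

end

section -- file TFC/Unit

/-!
Lemma 6.1 (two opposite digons) and Lemma 6.2 (relaxation of a cluster `K2(x, y; L)`).
-/

set_option autoImplicit false
set_option linter.unusedSectionVars false

namespace Pool.Agent.TFC

open Finset
open scoped Pointwise

variable {V : Type*} [DecidableEq V]

lemma Unit_dv0 : dv (∅ : Finset (Sym2 V)) = 0 := by
  funext v
  simp [dv, dg]

lemma Unit_dv1 {a b : V} (hab : a ≠ b) : dv ({s(a, b)} : Finset (Sym2 V)) = ev a + ev b := by
  have h := dv_insert (z := ∅) hab (notMem_empty _)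
  rw [Unit_dv0, zero_add] at h
  exact h

lemma Unit_dv2 {a b c d : V} (hab : a ≠ b) (hcd : c ≠ d) (h : s(a, b) ≠ s(c, d)) :
    dv ({s(a, b), s(c, d)} : Finset (Sym2 V)) = ev a + ev b + (ev c + ev d) := by
  have h1 := dv_insert (z := {s(c, d)}) hab (by simpa using h)
  rw [Unit_dv1 hcd] at h1
  rw [h1]; abel

lemma Unit_card_sq {a b c d : V} (h : Dist4 a b c d) : #(sq a b c d) = 4 := by
  obtain ⟨hab, hac, had, hbc, hbd, hcd⟩ := h
  have n12 : s(a, b) ≠ s(b, c) := by simp [hab, hac]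
  have n13 : s(a, b) ≠ s(c, d) := by simp [hac, had]
  have n14 : s(a, b) ≠ s(d, a) := by simp [had, hbd]
  have n23 : s(b, c) ≠ s(c, d) := by simp [hbc, hbd]
  have n24 : s(b, c) ≠ s(d, a) := by simp [hbd, hab.symm]
  have n34 : s(c, d) ≠ s(d, a) := by simp [hcd, hac.symm]
  unfold sq
  rw [card_insert_of_notMem (by simp [n12, n13, n14]),
    card_insert_of_notMem (by simp [n23, n24]), card_insert_of_notMem (by simp [n34]),
    card_singleton]

lemma Unit_sq_sub {z : Finset (Sym2 V)} {a b c d : V} (h : Sq z a b c d) : sq a b c d ⊆ z := by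
  simp [sq, insert_subset_iff, h.ab, h.bc, h.cd, h.da]

/-- fewer than four edges: no square -/
lemma Unit_good {z : Finset (Sym2 V)} (hz : NoLoop z) (h : #z < 4) : Good none4 z := by
  intro a b c d hs
  have h1 := Unit_card_sq (hs.dist4 hz)
  have h2 := card_le_card (Unit_sq_sub hs)
  omega

lemma Unit_sq_M2 {a b c d : V} (h : Dist4 a b c d) : M2 (sq a b c d) := by
  obtain ⟨hab, hac, had, hbc, hbd, hcd⟩ := h
  constructor
  · intro e he
    simp only [sq, mem_insert, mem_singleton] at he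
    rcases he with rfl | rfl | rfl | rfl
    · simpa using hab
    · simpa using hbc
    · simpa using hcd
    · simpa using had.symm
  · intro v
    unfold dg sq
    by_cases ha : v = a
    · subst ha
      have : ({e ∈ ({s(v, b), s(b, c), s(c, d), s(d, v)} : Finset (Sym2 V)) | v ∈ e}) ⊆
          {s(v, b), s(d, v)} := by
        intro e he
        simp only [mem_filter, mem_insert, mem_singleton] at he ⊢
        obtain ⟨rfl | rfl | rfl | rfl, he⟩ := he
        · exact Or.inl rfl
        · simp [hab, hac] at he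
        · simp [hac, had] at he
        · exact Or.inr rfl
      exact (card_le_card this).trans card_le_two
    by_cases hb : v = b
    · subst hb
      have : ({e ∈ ({s(a, v), s(v, c), s(c, d), s(d, a)} : Finset (Sym2 V)) | v ∈ e}) ⊆
          {s(a, v), s(v, c)} := by
        intro e he
        simp only [mem_filter, mem_insert, mem_singleton] at he ⊢
        obtain ⟨rfl | rfl | rfl | rfl, he⟩ := he
        · exact Or.inl rfl
        · exact Or.inr rfl
        · simp [hbc, hbd] at he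
        · simp [ha, hbd] at he
      exact (card_le_card this).trans card_le_two
    have : ({e ∈ ({s(a, b), s(b, c), s(c, d), s(d, a)} : Finset (Sym2 V)) | v ∈ e}) ⊆
        {s(c, d), if v = c then s(b, c) else s(d, a)} := by
      intro e he
      simp only [mem_filter, mem_insert, mem_singleton] at he ⊢
      obtain ⟨rfl | rfl | rfl | rfl, he⟩ := he
      · simp [ha, hb] at he
      · right
        have : v = c := by simpa [hb] using he
        rw [if_pos this]
      · exact Or.inl rfl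
      · right
        have : v = d := by simpa [ha] using he
        rw [if_neg (by rw [this]; exact hcd.symm)]
    exact (card_le_card this).trans card_le_two

end Pool.Agent.TFC

end

section -- file PF4/XUK

/-!
The square-free edge sets inside `K2(a, b; L)`, without bound on the degrees: their degree vectors form a jump set.
-/

set_option autoImplicit false

namespace Pool.Agent.PF4.XU

open Finset Pool.Agent.TFC Pool.Agent.PF4

/-- the degree vectors of the square-free edge sets inside `K2(a, b; L)` -/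
structure UJ (a b : ℕ) (L : Finset ℕ) (x : ℕ → ℤ) : Prop where
  off : ∀ v, v ≠ a → v ≠ b → v ∉ L → x v = 0
  rg : ∀ l ∈ L, 0 ≤ x l ∧ x l ≤ 2
  one : ∀ l ∈ L, ∀ l' ∈ L, x l = 2 → x l' = 2 → l = l'
  na : 0 ≤ x a
  nb : 0 ≤ x b
  dbl : ∀ l ∈ L, x l = 2 → 1 ≤ x a ∧ 1 ≤ x b
  sum : x a + x b = ∑ l ∈ L, x l

theorem UJ.swap {a b : ℕ} {L : Finset ℕ} {x : ℕ → ℤ} (h : UJ a b L x) : UJ b a L x :=
  ⟨fun v h1 h2 h3 => h.off v h2 h1 h3, h.rg, h.one, h.nb, h.na, fun l hl h2 => (h.dbl l hl h2).symm,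
    by rw [add_comm]; exact h.sum⟩

theorem pos_ex {S : Finset ℕ} {f : ℕ → ℤ} (h : 0 < ∑ l ∈ S, f l) : ∃ l ∈ S, 0 < f l := by
  by_contra hc
  push Not at hc
  exact absurd h (not_lt.2 (Finset.sum_nonpos hc))

theorem neg_ex {S : Finset ℕ} {f : ℕ → ℤ} (h : ∑ l ∈ S, f l < 0) : ∃ l ∈ S, f l < 0 := by
  by_contra hc
  push Not at hc
  exact absurd h (not_lt.2 (Finset.sum_nonneg hc))

theorem sum_single (L : Finset ℕ) (i : ℕ) (ε : ℤ) :
    ∑ l ∈ L, (Pi.single i ε : ℕ → ℤ) l = if i ∈ L then ε else 0 := by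
  simp only [Pi.single_apply]
  rw [Finset.sum_ite_eq' L i]

section
variable {a b : ℕ} {L : Finset ℕ} {x y : ℕ → ℤ}

/-- the vector after two steps -/
theorem stp_apply (x : ℕ → ℤ) (i j : ℕ) (ε δ : ℤ) (v : ℕ) :
    (x + Pi.single i ε + Pi.single j δ : ℕ → ℤ) v = x v + (if v = i then ε else 0) + (if v = j then δ else 0) := by
  simp only [Pi.add_apply, Pi.single_apply]

theorem stp_sum (x : ℕ → ℤ) (L : Finset ℕ) (i j : ℕ) (ε δ : ℤ) :
    ∑ l ∈ L, (x + Pi.single i ε + Pi.single j δ : ℕ → ℤ) l =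
      ∑ l ∈ L, x l + (if i ∈ L then ε else 0) + (if j ∈ L then δ else 0) := by
  simp only [Pi.add_apply, Finset.sum_add_distrib, sum_single]

/-- the goal of an exchange -/
def Goal (a b : ℕ) (L : Finset ℕ) (x y : ℕ → ℤ) (i : ℕ) (ε : ℤ) : Prop := ∃ z, UJ a b L z ∧ Two x y z i ε

theorem mk_goal {i j : ℕ} {ε δ : ℤ} (hij : i ≠ j) (hδ : δ = 1 ∨ δ = -1) (h : 0 < δ * (y j - x j))
    (hz : UJ a b L (x + Pi.single i ε + Pi.single j δ)) : Goal a b L x y i ε := by
  refine ⟨_, hz, j, δ, hδ, ?_, rfl⟩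
  rw [Pi.add_apply, Pi.single_apply, if_neg (Ne.symm hij), add_zero]
  exact h

theorem sum_diff (hx : UJ a b L x) (hy : UJ a b L y) :
    ∑ l ∈ L, (y l - x l) = (y a - x a) + (y b - x b) := by
  rw [Finset.sum_sub_distrib, ← hx.sum, ← hy.sum]
  ring

theorem sum_erase1 {f : ℕ → ℤ} {l : ℕ} (hl : l ∈ L) : ∑ v ∈ L.erase l, f v = ∑ v ∈ L, f v - f l := by
  rw [← Finset.add_sum_erase L f hl]
  ring

theorem sum_erase2 {f : ℕ → ℤ} {l l' : ℕ} (hl : l ∈ L) (hl' : l' ∈ L) (h : l ≠ l') :
    ∑ v ∈ (L.erase l).erase l', f v = ∑ v ∈ L, f v - f l - f l' := by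
  rw [sum_erase1 (Finset.mem_erase.2 ⟨Ne.symm h, hl'⟩), sum_erase1 hl]

/-- steps at two leaves: `l` up, `l'` down -/
theorem up_dn (ha : a ∉ L) (hb : b ∉ L) (hx : UJ a b L x) {l l' : ℕ} (hl : l ∈ L) (hl' : l' ∈ L) (hne : l ≠ l')
    (h1 : x l ≤ 1) (h2 : 1 ≤ x l') (h3 : x l = 1 → 1 ≤ x a ∧ 1 ≤ x b ∧ ∀ m ∈ L, x m = 2 → m = l') :
    UJ a b L (x + Pi.single l 1 + Pi.single l' (-1)) := by
  have hal : a ≠ l := fun e => ha (e ▸ hl)
  have hal' : a ≠ l' := fun e => ha (e ▸ hl')
  have hbl : b ≠ l := fun e => hb (e ▸ hl)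
  have hbl' : b ≠ l' := fun e => hb (e ▸ hl')
  refine ⟨?_, ?_, ?_, ?_, ?_, ?_, ?_⟩
  · intro v g1 g2 g3
    rw [stp_apply, if_neg (fun e : v = l => g3 (by rw [e]; exact hl)),
      if_neg (fun e : v = l' => g3 (by rw [e]; exact hl')), hx.off v g1 g2 g3]
    rfl
  · intro m hm
    rw [stp_apply]
    have := hx.rg m hm
    by_cases e1 : m = l
    · subst e1; rw [if_pos rfl, if_neg hne]; omega
    · by_cases e2 : m = l'
      · subst e2; rw [if_neg e1, if_pos rfl]; omega
      · rw [if_neg e1, if_neg e2]; omega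
  · intro m hm m' hm' g g'
    rw [stp_apply] at g g'
    have r1 := hx.rg m hm
    have r2 := hx.rg m' hm'
    have o := hx.one m hm m' hm'
    by_cases e1 : m = l
    · by_cases e1' : m' = l
      · rw [e1, e1']
      · rw [if_pos e1] at g
        rw [if_neg e1'] at g'
        subst e1
        rw [if_neg hne] at g
        have := (h3 (by omega)).2.2 m' hm'
        by_cases e2' : m' = l'
        · rw [if_pos e2'] at g'; omega
        · rw [if_neg e2'] at g'
          exact absurd (this (by omega)) e2'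
    · rw [if_neg e1] at g
      by_cases e1' : m' = l
      · rw [if_pos e1'] at g'
        subst e1'
        rw [if_neg hne] at g'
        have := (h3 (by omega)).2.2 m hm
        by_cases e2 : m = l'
        · rw [if_pos e2] at g; omega
        · rw [if_neg e2] at g
          exact absurd (this (by omega)) e2
      · rw [if_neg e1'] at g'
        by_cases e2 : m = l'
        · rw [if_pos e2] at g; omega
        · by_cases e2' : m' = l'
          · rw [if_pos e2'] at g'; omega
          · rw [if_neg e2] at g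
            rw [if_neg e2'] at g'
            exact o (by omega) (by omega)
  · rw [stp_apply, if_neg hal, if_neg hal']
    have := hx.na
    omega
  · rw [stp_apply, if_neg hbl, if_neg hbl']
    have := hx.nb
    omega
  · intro m hm g
    rw [stp_apply] at g
    rw [stp_apply, stp_apply, if_neg hal, if_neg hal', if_neg hbl, if_neg hbl']
    have r := hx.rg m hm
    have d := hx.dbl m hm
    by_cases e1 : m = l
    · rw [if_pos e1] at g
      subst e1
      rw [if_neg hne] at g
      have := h3 (by omega)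
      omega
    · rw [if_neg e1] at g
      by_cases e2 : m = l'
      · rw [if_pos e2] at g; omega
      · rw [if_neg e2] at g; omega
  · rw [stp_sum, if_pos hl, if_pos hl', stp_apply, stp_apply, if_neg hal, if_neg hal', if_neg hbl, if_neg hbl',
      ← hx.sum]
    ring

/-- one hub and one leaf up -/
theorem hub_up (hab : a ≠ b) (ha : a ∉ L) (hb : b ∉ L) (hx : UJ a b L x) {l : ℕ} (hl : l ∈ L) (h1 : x l ≤ 1)
    (h3 : x l = 1 → 1 ≤ x b ∧ ∀ m ∈ L, x m ≠ 2) : UJ a b L (x + Pi.single a 1 + Pi.single l 1) := by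
  have hal : a ≠ l := fun e => ha (e ▸ hl)
  have hbl : b ≠ l := fun e => hb (e ▸ hl)
  have hLa : ∀ m ∈ L, m ≠ a := fun m hm e => ha (e ▸ hm)
  refine ⟨?_, ?_, ?_, ?_, ?_, ?_, ?_⟩
  · intro v g1 g2 g3
    rw [stp_apply, if_neg g1, if_neg (fun e : v = l => g3 (by rw [e]; exact hl)), hx.off v g1 g2 g3]
    rfl
  · intro m hm
    rw [stp_apply, if_neg (hLa m hm)]
    have := hx.rg m hm
    by_cases e1 : m = l
    · subst e1; rw [if_pos rfl]; omega
    · rw [if_neg e1]; omega
  · intro m hm m' hm' g g'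
    rw [stp_apply, if_neg (hLa m hm)] at g
    rw [stp_apply, if_neg (hLa m' hm')] at g'
    have o := hx.one m hm m' hm'
    by_cases e1 : m = l
    · by_cases e1' : m' = l
      · rw [e1, e1']
      · rw [if_pos e1] at g
        rw [if_neg e1'] at g'
        subst e1
        exact absurd (by omega) ((h3 (by omega)).2 m' hm')
    · rw [if_neg e1] at g
      by_cases e1' : m' = l
      · rw [if_pos e1'] at g'
        subst e1'
        exact absurd (by omega) ((h3 (by omega)).2 m hm)
      · rw [if_neg e1'] at g'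
        exact o (by omega) (by omega)
  · rw [stp_apply, if_pos rfl, if_neg hal]
    have := hx.na
    omega
  · rw [stp_apply, if_neg hab.symm, if_neg hbl]
    have := hx.nb
    omega
  · intro m hm g
    rw [stp_apply, if_neg (hLa m hm)] at g
    rw [stp_apply, stp_apply, if_pos rfl, if_neg hal, if_neg hab.symm, if_neg hbl]
    have r := hx.rg m hm
    have d := hx.dbl m hm
    have n1 := hx.na
    by_cases e1 : m = l
    · rw [if_pos e1] at g
      subst e1
      have := (h3 (by omega)).1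
      omega
    · rw [if_neg e1] at g; omega
  · rw [stp_sum, if_neg ha, if_pos hl, stp_apply, stp_apply, if_pos rfl, if_neg hal, if_neg hab.symm, if_neg hbl,
      ← hx.sum]
    ring

/-- one hub and one leaf down -/
theorem hub_dn (hab : a ≠ b) (ha : a ∉ L) (hb : b ∉ L) (hx : UJ a b L x) {l : ℕ} (hl : l ∈ L) (h1 : 1 ≤ x l)
    (h2 : 1 ≤ x a) (h3 : ∀ m ∈ L, m ≠ l → x m = 2 → 2 ≤ x a) : UJ a b L (x + Pi.single a (-1) + Pi.single l (-1)) := by
  have hal : a ≠ l := fun e => ha (e ▸ hl)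
  have hbl : b ≠ l := fun e => hb (e ▸ hl)
  have hLa : ∀ m ∈ L, m ≠ a := fun m hm e => ha (e ▸ hm)
  refine ⟨?_, ?_, ?_, ?_, ?_, ?_, ?_⟩
  · intro v g1 g2 g3
    rw [stp_apply, if_neg g1, if_neg (fun e : v = l => g3 (by rw [e]; exact hl)), hx.off v g1 g2 g3]
    rfl
  · intro m hm
    rw [stp_apply, if_neg (hLa m hm)]
    have := hx.rg m hm
    by_cases e1 : m = l
    · subst e1; rw [if_pos rfl]; omega
    · rw [if_neg e1]; omega
  · intro m hm m' hm' g g'
    rw [stp_apply, if_neg (hLa m hm)] at g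
    rw [stp_apply, if_neg (hLa m' hm')] at g'
    have r1 := hx.rg m hm
    have r2 := hx.rg m' hm'
    have o := hx.one m hm m' hm'
    by_cases e1 : m = l
    · rw [if_pos e1] at g; omega
    · by_cases e1' : m' = l
      · rw [if_pos e1'] at g'; omega
      · rw [if_neg e1] at g
        rw [if_neg e1'] at g'
        exact o (by omega) (by omega)
  · rw [stp_apply, if_pos rfl, if_neg hal]
    omega
  · rw [stp_apply, if_neg hab.symm, if_neg hbl]
    have := hx.nb
    omega
  · intro m hm g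
    rw [stp_apply, if_neg (hLa m hm)] at g
    rw [stp_apply, stp_apply, if_pos rfl, if_neg hal, if_neg hab.symm, if_neg hbl]
    have r := hx.rg m hm
    have d := hx.dbl m hm
    by_cases e1 : m = l
    · rw [if_pos e1] at g; omega
    · rw [if_neg e1] at g
      have := h3 m hm e1 (by omega)
      omega
  · rw [stp_sum, if_neg ha, if_pos hl, stp_apply, stp_apply, if_pos rfl, if_neg hal, if_neg hab.symm, if_neg hbl,
      ← hx.sum]
    ring

/-- `a` up, `b` down -/
theorem hub_hub (hab : a ≠ b) (ha : a ∉ L) (hb : b ∉ L) (hx : UJ a b L x) (h2 : 1 ≤ x b)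
    (h3 : ∀ m ∈ L, x m = 2 → 2 ≤ x b) : UJ a b L (x + Pi.single a 1 + Pi.single b (-1)) := by
  have hLa : ∀ m ∈ L, m ≠ a := fun m hm e => ha (e ▸ hm)
  have hLb : ∀ m ∈ L, m ≠ b := fun m hm e => hb (e ▸ hm)
  refine ⟨?_, ?_, ?_, ?_, ?_, ?_, ?_⟩
  · intro v g1 g2 g3
    rw [stp_apply, if_neg g1, if_neg g2, hx.off v g1 g2 g3]
    rfl
  · intro m hm
    rw [stp_apply, if_neg (hLa m hm), if_neg (hLb m hm)]
    have := hx.rg m hm
    omega
  · intro m hm m' hm' g g'
    rw [stp_apply, if_neg (hLa m hm), if_neg (hLb m hm)] at g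
    rw [stp_apply, if_neg (hLa m' hm'), if_neg (hLb m' hm')] at g'
    exact hx.one m hm m' hm' (by omega) (by omega)
  · rw [stp_apply, if_pos rfl, if_neg hab]
    have := hx.na
    omega
  · rw [stp_apply, if_neg hab.symm, if_pos rfl]
    omega
  · intro m hm g
    rw [stp_apply, if_neg (hLa m hm), if_neg (hLb m hm)] at g
    rw [stp_apply, stp_apply, if_pos rfl, if_neg hab, if_neg hab.symm, if_pos rfl]
    have d := hx.na
    have := h3 m hm (by omega)
    omega
  · rw [stp_sum, if_neg ha, if_neg hb, stp_apply, stp_apply, if_pos rfl, if_neg hab, if_neg hab.symm, if_pos rfl,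
      ← hx.sum]
    ring

theorem goal_swap {i : ℕ} {ε : ℤ} (h : Goal b a L x y i ε) : Goal a b L x y i ε := by
  obtain ⟨z, h1, h2⟩ := h
  exact ⟨z, h1.swap, h2⟩

/-- a leaf goes up -/
theorem leaf_up (hab : a ≠ b) (ha : a ∉ L) (hb : b ∉ L) (hx : UJ a b L x) (hy : UJ a b L y) {l : ℕ} (hl : l ∈ L)
    (h : x l < y l) : Goal a b L x y l 1 := by
  have hal : a ≠ l := fun e => ha (e ▸ hl)
  have hbl : b ≠ l := fun e => hb (e ▸ hl)
  have rx := hx.rg l hl
  have ry := hy.rg l hl
  have comm : ∀ (i j : ℕ) (ε δ : ℤ), (x + Pi.single i ε + Pi.single j δ : ℕ → ℤ) = x + Pi.single j δ + Pi.single i ε :=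
    fun i j ε δ => by abel
  -- the three candidates
  have cA : x a < y a → (x l = 1 → 1 ≤ x b ∧ ∀ m ∈ L, x m ≠ 2) → Goal a b L x y l 1 := fun g1 g2 =>
    mk_goal hal.symm (Or.inl rfl) (by omega) (by rw [comm]; exact hub_up hab ha hb hx hl (by omega) g2)
  have cB : x b < y b → (x l = 1 → 1 ≤ x a ∧ ∀ m ∈ L, x m ≠ 2) → Goal a b L x y l 1 := fun g1 g2 =>
    mk_goal hbl.symm (Or.inl rfl) (by omega)
      (by rw [comm]; exact (hub_up hab.symm hb ha hx.swap hl (by omega) g2).swap)
  have cC : ∀ l' ∈ L, y l' < x l' → (x l = 1 → 1 ≤ x a ∧ 1 ≤ x b ∧ ∀ m ∈ L, x m = 2 → m = l') →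
      Goal a b L x y l 1 := fun l' hl' g1 g2 =>
    mk_goal (by rintro rfl; omega) (Or.inr rfl) (by omega)
      (up_dn ha hb hx hl hl' (by rintro rfl; omega) (by omega) (by have := hy.rg l' hl'; omega) g2)
  have hex : x a < y a ∨ x b < y b ∨ ∃ l' ∈ L, y l' < x l' := by
    by_contra hc
    push Not at hc
    obtain ⟨h1, h2, h3⟩ := hc
    have h4 : 0 < ∑ l ∈ L, (y l - x l) :=
      Finset.sum_pos' (fun m hm => by have := h3 m hm; omega) ⟨l, hl, by omega⟩
    rw [sum_diff hx hy] at h4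
    omega
  by_cases h1 : x l = 1
  · have dy := hy.dbl l hl (by omega)
    by_cases h2 : ∃ m ∈ L, x m = 2
    · obtain ⟨m, hm, hm2⟩ := h2
      have hml : m ≠ l := by rintro rfl; omega
      have hy2 : y m < x m := by
        have := hy.rg m hm
        have := hy.one m hm l hl
        by_contra hc
        exact hml (this (by omega) (by omega))
      have dx := hx.dbl m hm hm2
      exact cC m hm hy2 fun _ => ⟨dx.1, dx.2, fun m' hm' g => hx.one m' hm' m hm g hm2⟩
    · push Not at h2
      have hs := hx.sum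
      have hs2 : x l ≤ ∑ l ∈ L, x l := Finset.single_le_sum (fun m hm => (hx.rg m hm).1) hl
      have n1 := hx.na
      have n2 := hx.nb
      by_cases h3 : x a = 0
      · exact cA (by omega) fun _ => ⟨by omega, h2⟩
      · by_cases h4 : x b = 0
        · exact cB (by omega) fun _ => ⟨by omega, h2⟩
        · rcases hex with h5 | h5 | ⟨l', hl', h5⟩
          · exact cA h5 fun _ => ⟨by omega, h2⟩
          · exact cB h5 fun _ => ⟨by omega, h2⟩
          · exact cC l' hl' h5 fun _ => ⟨by omega, by omega, fun m hm g => absurd g (h2 m hm)⟩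
  · rcases hex with h5 | h5 | ⟨l', hl', h5⟩
    · exact cA h5 fun g => absurd g h1
    · exact cB h5 fun g => absurd g h1
    · exact cC l' hl' h5 fun g => absurd g h1

/-- a leaf goes down -/
theorem leaf_dn (hab : a ≠ b) (ha : a ∉ L) (hb : b ∉ L) (hx : UJ a b L x) (hy : UJ a b L y) {l : ℕ} (hl : l ∈ L)
    (h : y l < x l) : Goal a b L x y l (-1) := by
  have hal : a ≠ l := fun e => ha (e ▸ hl)
  have hbl : b ≠ l := fun e => hb (e ▸ hl)
  have rx := hx.rg l hl
  have ry := hy.rg l hl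
  have n1 := hx.na
  have n2 := hx.nb
  have n3 := hy.na
  have n4 := hy.nb
  have comm : ∀ (i j : ℕ) (ε δ : ℤ), (x + Pi.single i ε + Pi.single j δ : ℕ → ℤ) = x + Pi.single j δ + Pi.single i ε :=
    fun i j ε δ => by abel
  -- the three candidates
  have cA : y a < x a → (∀ m ∈ L, m ≠ l → x m = 2 → 2 ≤ x a) → Goal a b L x y l (-1) := fun g1 g2 =>
    mk_goal hal.symm (Or.inr rfl) (by omega) (by rw [comm]; exact hub_dn hab ha hb hx hl (by omega) (by omega) g2)
  have cB : y b < x b → (∀ m ∈ L, m ≠ l → x m = 2 → 2 ≤ x b) → Goal a b L x y l (-1) := fun g1 g2 =>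
    mk_goal hbl.symm (Or.inr rfl) (by omega)
      (by rw [comm]; exact (hub_dn hab.symm hb ha hx.swap hl (by omega) (by omega) g2).swap)
  have cC : ∀ l' ∈ L, x l' < y l' → (x l' = 1 → 1 ≤ x a ∧ 1 ≤ x b ∧ ∀ m ∈ L, x m = 2 → m = l) →
      Goal a b L x y l (-1) := fun l' hl' g1 g2 =>
    mk_goal (j := l') (by rintro rfl; omega) (Or.inl rfl) (by omega)
      (by
        rw [comm]
        exact up_dn ha hb hx hl' hl (by rintro rfl; omega) (by have := hy.rg l' hl'; omega) (by omega) g2)
  -- a leaf from 0 up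
  have c0 : (∃ l' ∈ L, x l' = 0 ∧ 0 < y l') → Goal a b L x y l (-1) := by
    rintro ⟨l', hl', g1, g2⟩
    exact cC l' hl' (by omega) fun g => by omega
  have hsd := sum_diff hx hy
  by_cases h2 : ∃ m ∈ L, m ≠ l ∧ x m = 2
  · obtain ⟨m, hm, hml, hm2⟩ := h2
    have dx := hx.dbl m hm hm2
    have hxl : x l ≤ 1 := by
      by_contra hc
      exact hml (hx.one m hm l hl hm2 (by omega))
    have honly : ∀ m' ∈ L, m' ≠ m → x m' ≤ 1 := by
      intro m' hm' hne
      have := hx.rg m' hm'
      by_contra hc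
      exact hne (hx.one m' hm' m hm (by omega) hm2)
    by_cases hA : y a < x a ∧ 2 ≤ x a
    · exact cA hA.1 fun _ _ _ _ => hA.2
    · by_cases hB : y b < x b ∧ 2 ≤ x b
      · exact cB hB.1 fun _ _ _ _ => hB.2
      · apply c0
        -- the sum of the differences of the other leaves
        have he := sum_erase2 (f := fun v => y v - x v) hl hm (Ne.symm hml)
        rw [hsd] at he
        have hs1 : x a + x b = ∑ v ∈ L, x v := hx.sum
        have hs2 : x l + x m ≤ ∑ v ∈ L, x v := by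
          have := sum_erase2 (f := x) hl hm (Ne.symm hml)
          have h5 : 0 ≤ ∑ v ∈ (L.erase l).erase m, x v :=
            Finset.sum_nonneg fun v hv => (hx.rg v (Finset.mem_of_mem_erase (Finset.mem_of_mem_erase hv))).1
          omega
        have hym := hy.rg m hm
        by_cases hy2 : y m = 2
        · -- then `y` has its double at `m`
          have dy := hy.dbl m hm hy2
          have h6 : 0 < ∑ v ∈ (L.erase l).erase m, (y v - x v) := by rw [he]; omega
          obtain ⟨l', hl', h7⟩ := pos_ex h6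
          rw [Finset.mem_erase, Finset.mem_erase] at hl'
          have r1 := hx.rg l' hl'.2.2
          have r2 := hy.rg l' hl'.2.2
          have : y l' ≠ 2 := fun e => hl'.1 (hy.one l' hl'.2.2 m hm e hy2)
          exact ⟨l', hl'.2.2, by omega, by omega⟩
        · by_cases h8 : ∃ m' ∈ L, y m' = 2
          · obtain ⟨m', hm', hy2'⟩ := h8
            have dy := hy.dbl m' hm' hy2'
            have hmm' : m ≠ m' := by rintro rfl; exact hy2 hy2'
            have h6 : 1 ≤ ∑ v ∈ (L.erase l).erase m, (y v - x v) := by rw [he]; omega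
            -- two units up outside
            by_cases h9 : ∃ l' ∈ (L.erase l).erase m, l' ≠ m' ∧ 0 < y l' - x l'
            · obtain ⟨l', hl', hne, h7⟩ := h9
              rw [Finset.mem_erase, Finset.mem_erase] at hl'
              have r1 := hx.rg l' hl'.2.2
              have r2 := hy.rg l' hl'.2.2
              have : y l' ≠ 2 := fun e => hne (hy.one l' hl'.2.2 m' hm' e hy2')
              exact ⟨l', hl'.2.2, by omega, by omega⟩
            · push Not at h9
              have r1 := hx.rg m' hm'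
              have r3 := honly m' hm' (Ne.symm hmm')
              by_cases h10 : x m' = 0
              · exact ⟨m', hm', h10, by omega⟩
              · exfalso
                have h11 : ∑ v ∈ (L.erase l).erase m, (y v - x v) ≤ 1 := by
                  by_cases h12 : m' ∈ (L.erase l).erase m
                  · rw [← Finset.add_sum_erase _ _ h12]
                    have : ∑ v ∈ ((L.erase l).erase m).erase m', (y v - x v) ≤ 0 :=
                      Finset.sum_nonpos fun v hv =>
                        h9 v (Finset.mem_of_mem_erase hv) (Finset.ne_of_mem_erase hv)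
                    omega
                  · have : ∑ v ∈ (L.erase l).erase m, (y v - x v) ≤ 0 :=
                      Finset.sum_nonpos fun v hv => h9 v hv (by rintro rfl; exact h12 hv)
                    omega
                omega
          · push Not at h8
            have h6 : 0 < ∑ v ∈ (L.erase l).erase m, (y v - x v) := by rw [he]; omega
            obtain ⟨l', hl', h7⟩ := pos_ex h6
            rw [Finset.mem_erase, Finset.mem_erase] at hl'
            have r1 := hx.rg l' hl'.2.2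
            have r2 := hy.rg l' hl'.2.2
            have := h8 l' hl'.2.2
            exact ⟨l', hl'.2.2, by omega, by omega⟩
  · push Not at h2
    have h2' : ∀ m ∈ L, m ≠ l → x m = 2 → False := fun m hm hne e => h2 m hm hne e
    by_cases hA : y a < x a
    · exact cA hA fun m hm hne e => (h2' m hm hne e).elim
    · by_cases hB : y b < x b
      · exact cB hB fun m hm hne e => (h2' m hm hne e).elim
      · have he := sum_erase1 (f := fun v => y v - x v) hl
        rw [hsd] at he
        have h6 : 0 < ∑ v ∈ L.erase l, (y v - x v) := by rw [he]; omega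
        obtain ⟨l', hl', h7⟩ := pos_ex h6
        rw [Finset.mem_erase] at hl'
        have r1 := hx.rg l' hl'.2
        have r2 := hy.rg l' hl'.2
        by_cases h8 : 1 ≤ x a ∧ 1 ≤ x b
        · refine cC l' hl'.2 (by omega) fun _ => ⟨h8.1, h8.2, fun m hm e => ?_⟩
          by_contra hc
          exact h2' m hm hc e
        · by_cases h9 : x l' = 0
          · exact c0 ⟨l', hl'.2, h9, by omega⟩
          · -- `y` has its double at `l'`
            have dy := hy.dbl l' hl'.2 (by omega)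
            have he2 := sum_erase2 (f := fun v => y v - x v) hl hl'.2 (Ne.symm hl'.1)
            rw [hsd] at he2
            have h10 : 0 < ∑ v ∈ (L.erase l).erase l', (y v - x v) := by rw [he2]; omega
            obtain ⟨l'', hl'', h11⟩ := pos_ex h10
            rw [Finset.mem_erase, Finset.mem_erase] at hl''
            have r3 := hx.rg l'' hl''.2.2
            have r4 := hy.rg l'' hl''.2.2
            have : y l'' ≠ 2 := fun e => hl''.1 (hy.one l'' hl''.2.2 l' hl'.2 e (by omega))
            exact c0 ⟨l'', hl''.2.2, by omega, by omega⟩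

/-- a hub goes up -/
theorem a_up (hab : a ≠ b) (ha : a ∉ L) (hb : b ∉ L) (hx : UJ a b L x) (hy : UJ a b L y) (h : x a < y a) :
    Goal a b L x y a 1 := by
  have n1 := hx.na
  have n2 := hx.nb
  have n3 := hy.na
  have n4 := hy.nb
  have hsd := sum_diff hx hy
  have cB : y b < x b → (∀ m ∈ L, x m = 2 → 2 ≤ x b) → Goal a b L x y a 1 := fun g1 g2 =>
    mk_goal hab (Or.inr rfl) (by omega) (hub_hub hab ha hb hx (by omega) g2)
  have cC : ∀ l ∈ L, x l < y l → (x l = 1 → 1 ≤ x b ∧ ∀ m ∈ L, x m ≠ 2) → Goal a b L x y a 1 := fun l hl g1 g2 =>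
    mk_goal (fun e => ha (e ▸ hl)) (Or.inl rfl) (by omega)
      (hub_up hab ha hb hx hl (by have := hy.rg l hl; omega) g2)
  have c0 : (∃ l' ∈ L, x l' = 0 ∧ 0 < y l') → Goal a b L x y a 1 := by
    rintro ⟨l', hl', g1, g2⟩
    exact cC l' hl' (by omega) fun g => by omega
  by_cases h2 : ∃ m ∈ L, x m = 2
  · obtain ⟨m, hm, hm2⟩ := h2
    have dx := hx.dbl m hm hm2
    have honly : ∀ m' ∈ L, m' ≠ m → x m' ≤ 1 := by
      intro m' hm' hne
      have := hx.rg m' hm'
      by_contra hc
      exact hne (hx.one m' hm' m hm (by omega) hm2)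
    by_cases hB : y b < x b ∧ 2 ≤ x b
    · exact cB hB.1 fun _ _ _ => hB.2
    · apply c0
      have he := sum_erase1 (f := fun v => y v - x v) hm
      rw [hsd] at he
      have hym := hy.rg m hm
      by_cases hy2 : y m = 2
      · have dy := hy.dbl m hm hy2
        have h6 : 0 < ∑ v ∈ L.erase m, (y v - x v) := by rw [he]; omega
        obtain ⟨l', hl', h7⟩ := pos_ex h6
        rw [Finset.mem_erase] at hl'
        have r1 := hx.rg l' hl'.2
        have r2 := hy.rg l' hl'.2
        have : y l' ≠ 2 := fun e => hl'.1 (hy.one l' hl'.2 m hm e hy2)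
        exact ⟨l', hl'.2, by omega, by omega⟩
      · by_cases h8 : ∃ m' ∈ L, y m' = 2
        · obtain ⟨m', hm', hy2'⟩ := h8
          have dy := hy.dbl m' hm' hy2'
          have hmm' : m ≠ m' := by rintro rfl; exact hy2 hy2'
          have r1 := hx.rg m' hm'
          have r3 := honly m' hm' (Ne.symm hmm')
          by_cases h10 : x m' = 0
          · exact ⟨m', hm', h10, by omega⟩
          · have he2 := sum_erase2 (f := fun v => y v - x v) hm hm' hmm'
            rw [hsd] at he2
            have h6 : 0 < ∑ v ∈ (L.erase m).erase m', (y v - x v) := by rw [he2]; omega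
            obtain ⟨l', hl', h7⟩ := pos_ex h6
            rw [Finset.mem_erase, Finset.mem_erase] at hl'
            have r1 := hx.rg l' hl'.2.2
            have r2 := hy.rg l' hl'.2.2
            have : y l' ≠ 2 := fun e => hl'.1 (hy.one l' hl'.2.2 m' hm' e hy2')
            exact ⟨l', hl'.2.2, by omega, by omega⟩
        · push Not at h8
          have h6 : 0 < ∑ v ∈ L.erase m, (y v - x v) := by rw [he]; omega
          obtain ⟨l', hl', h7⟩ := pos_ex h6
          rw [Finset.mem_erase] at hl'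
          have r1 := hx.rg l' hl'.2
          have r2 := hy.rg l' hl'.2
          have := h8 l' hl'.2
          exact ⟨l', hl'.2, by omega, by omega⟩
  · push Not at h2
    by_cases hB : y b < x b
    · exact cB hB fun m hm e => absurd e (h2 m hm)
    · have h6 : 0 < ∑ v ∈ L, (y v - x v) := by rw [hsd]; omega
      obtain ⟨l', hl', h7⟩ := pos_ex h6
      have r1 := hx.rg l' hl'
      have r2 := hy.rg l' hl'
      by_cases h8 : 1 ≤ x b
      · exact cC l' hl' (by omega) fun _ => ⟨h8, h2⟩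
      · by_cases h9 : x l' = 0
        · exact c0 ⟨l', hl', h9, by omega⟩
        · have dy := hy.dbl l' hl' (by have := h2 l' hl'; omega)
          have he := sum_erase1 (f := fun v => y v - x v) hl'
          rw [hsd] at he
          have h10 : 0 < ∑ v ∈ L.erase l', (y v - x v) := by rw [he]; omega
          obtain ⟨l'', hl'', h11⟩ := pos_ex h10
          rw [Finset.mem_erase] at hl''
          have r3 := hx.rg l'' hl''.2
          have r4 := hy.rg l'' hl''.2
          have : y l'' ≠ 2 := fun e => hl''.1 (hy.one l'' hl''.2 l' hl' e (by have := h2 l' hl'; omega))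
          exact c0 ⟨l'', hl''.2, by omega, by omega⟩

/-- a hub goes down -/
theorem a_dn (hab : a ≠ b) (ha : a ∉ L) (hb : b ∉ L) (hx : UJ a b L x) (hy : UJ a b L y) (h : y a < x a) :
    Goal a b L x y a (-1) := by
  have n1 := hx.na
  have n2 := hx.nb
  have n3 := hy.na
  have n4 := hy.nb
  have hsd := sum_diff hx hy
  have comm : ∀ (i j : ℕ) (ε δ : ℤ), (x + Pi.single i ε + Pi.single j δ : ℕ → ℤ) = x + Pi.single j δ + Pi.single i ε :=
    fun i j ε δ => by abel
  have cB : x b < y b → (∀ m ∈ L, x m = 2 → 2 ≤ x a) → Goal a b L x y a (-1) := fun g1 g2 =>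
    mk_goal hab (Or.inl rfl) (by omega) (by
      rw [comm]
      exact (hub_hub hab.symm hb ha hx.swap (by omega) g2).swap)
  have cC : ∀ l ∈ L, y l < x l → (∀ m ∈ L, m ≠ l → x m = 2 → 2 ≤ x a) → Goal a b L x y a (-1) := fun l hl g1 g2 =>
    mk_goal (fun e => ha (e ▸ hl)) (Or.inr rfl) (by omega)
      (hub_dn hab ha hb hx hl (by have := hy.rg l hl; omega) (by omega) g2)
  by_cases h2 : (∃ m ∈ L, x m = 2) ∧ x a = 1
  · obtain ⟨⟨m, hm, hm2⟩, h3⟩ := h2
    have hy2 : y m < x m := by
      have := hy.rg m hm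
      have := hy.dbl m hm
      by_contra hc
      have := this (by omega)
      omega
    refine cC m hm hy2 fun m' hm' hne e => ?_
    exact absurd (hx.one m' hm' m hm e hm2) hne
  · have h3 : ∀ m ∈ L, x m = 2 → 2 ≤ x a := by
      intro m hm e
      have := hx.dbl m hm e
      by_contra hc
      exact h2 ⟨⟨m, hm, e⟩, by omega⟩
    by_cases hB : x b < y b
    · exact cB hB h3
    · have h6 : ∑ v ∈ L, (y v - x v) < 0 := by rw [hsd]; omega
      obtain ⟨l', hl', h7⟩ := neg_ex h6
      exact cC l' hl' (by omega) fun m hm _ e => h3 m hm e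

/-- **the degree vectors of the square-free edge sets of `K2(a, b; L)` form a jump set** -/
theorem jb_UJ (hab : a ≠ b) (ha : a ∉ L) (hb : b ∉ L) : XC.JB (UJ a b L) := by
  intro x y i ε hx hy hε h
  show Goal a b L x y i ε
  by_cases h1 : i = a
  · subst h1
    rcases hε with rfl | rfl
    · exact a_up hab ha hb hx hy (by omega)
    · exact a_dn hab ha hb hx hy (by omega)
  · by_cases h2 : i = b
    · subst h2
      rcases hε with rfl | rfl
      · exact goal_swap (a_up hab.symm hb ha hx.swap hy.swap (by omega))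
      · exact goal_swap (a_dn hab.symm hb ha hx.swap hy.swap (by omega))
    · by_cases h3 : i ∈ L
      · rcases hε with rfl | rfl
        · exact leaf_up hab ha hb hx hy h3 (by omega)
        · exact leaf_dn hab ha hb hx hy h3 (by omega)
      · rw [hx.off i h1 h2 h3, hy.off i h1 h2 h3] at h
        simp at h

end

/-! ### edge sets of `K2(a, b; L)` -/

/-- the edges from `a` to `P` and from `b` to `Q` -/
def tw (a b : ℕ) (P Q : Finset ℕ) : Finset (Sym2 ℕ) := P.image (fun l => s(a, l)) ∪ Q.image (fun l => s(b, l))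

theorem mem_tw {a b u v : ℕ} {P Q : Finset ℕ} : s(u, v) ∈ tw a b P Q ↔
    (u = a ∧ v ∈ P) ∨ (v = a ∧ u ∈ P) ∨ (u = b ∧ v ∈ Q) ∨ (v = b ∧ u ∈ Q) := by
  simp only [tw, Finset.mem_union, Finset.mem_image, Sym2.eq_iff]
  constructor
  · rintro (⟨l, hl, ⟨rfl, rfl⟩ | ⟨rfl, rfl⟩⟩ | ⟨l, hl, ⟨rfl, rfl⟩ | ⟨rfl, rfl⟩⟩)
    · exact Or.inl ⟨rfl, hl⟩
    · exact Or.inr (Or.inl ⟨rfl, hl⟩)
    · exact Or.inr (Or.inr (Or.inl ⟨rfl, hl⟩))
    · exact Or.inr (Or.inr (Or.inr ⟨rfl, hl⟩))
  · rintro (⟨rfl, h⟩ | ⟨rfl, h⟩ | ⟨rfl, h⟩ | ⟨rfl, h⟩)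
    · exact Or.inl ⟨v, h, Or.inl ⟨rfl, rfl⟩⟩
    · exact Or.inl ⟨u, h, Or.inr ⟨rfl, rfl⟩⟩
    · exact Or.inr ⟨v, h, Or.inl ⟨rfl, rfl⟩⟩
    · exact Or.inr ⟨u, h, Or.inr ⟨rfl, rfl⟩⟩

section
variable {a b : ℕ} {L P Q : Finset ℕ}

theorem tw_sub (hP : P ⊆ L) (hQ : Q ⊆ L) : tw a b P Q ⊆ (Clu.k2 a b L).edges :=
  Finset.union_subset_union (Finset.image_subset_image hP) (Finset.image_subset_image hQ)

theorem tw_of {K : Finset (Sym2 ℕ)} (hK : K ⊆ (Clu.k2 a b L).edges) (hab : a ≠ b) (ha : a ∉ L) (hb : b ∉ L) :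
    K = tw a b (L.filter fun l => s(a, l) ∈ K) (L.filter fun l => s(b, l) ∈ K) := by
  ext e
  induction e using Sym2.ind with
  | _ u v =>
    rw [mem_tw]
    simp only [Finset.mem_filter]
    constructor
    · intro h
      have h1 := hK h
      simp only [Clu.edges, Finset.mem_union, Finset.mem_image, Sym2.eq_iff] at h1
      rcases h1 with ⟨l, hl, ⟨rfl, rfl⟩ | ⟨rfl, rfl⟩⟩ | ⟨l, hl, ⟨rfl, rfl⟩ | ⟨rfl, rfl⟩⟩
      · exact Or.inl ⟨rfl, hl, h⟩
      · exact Or.inr (Or.inl ⟨rfl, hl, by rw [Sym2.eq_swap]; exact h⟩)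
      · exact Or.inr (Or.inr (Or.inl ⟨rfl, hl, h⟩))
      · exact Or.inr (Or.inr (Or.inr ⟨rfl, hl, by rw [Sym2.eq_swap]; exact h⟩))
    · rintro (⟨rfl, _, h⟩ | ⟨rfl, _, h⟩ | ⟨rfl, _, h⟩ | ⟨rfl, _, h⟩)
      · exact h
      · rw [Sym2.eq_swap]; exact h
      · exact h
      · rw [Sym2.eq_swap]; exact h

theorem tw_nl (hP : a ∉ P) (hQ : b ∉ Q) : NoLoop (tw a b P Q) := by
  intro e he
  induction e using Sym2.ind with
  | _ u v =>
    rw [Sym2.mk_isDiag_iff]
    rintro rfl
    rcases mem_tw.1 he with ⟨rfl, h⟩ | ⟨rfl, h⟩ | ⟨rfl, h⟩ | ⟨rfl, h⟩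
    · exact hP h
    · exact hP h
    · exact hQ h
    · exact hQ h

theorem dv_star {w : ℕ} {A : Finset ℕ} (hw : w ∉ A) (v : ℕ) :
    dv (A.image fun l => s(w, l)) v = (if v ∈ A then 1 else 0) + if v = w then (#A : ℤ) else 0 := by
  induction A using Finset.induction_on with
  | empty => simp [dv, dg]
  | insert c A hc ih =>
    rw [Finset.mem_insert, not_or] at hw
    have h2 : s(w, c) ∉ A.image fun l => s(w, l) := by
      rw [Finset.mem_image]
      rintro ⟨l, hl, h⟩
      rw [Sym2.eq_iff] at h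
      rcases h with ⟨_, h⟩ | ⟨h, _⟩
      · exact hc (h ▸ hl)
      · exact hw.1 h
    rw [Finset.image_insert, dv_insert hw.1 h2, Pi.add_apply, Pi.add_apply, ih hw.2, TFC.ev_apply, TFC.ev_apply,
      Finset.card_insert_of_notMem hc]
    by_cases h3 : v = w
    · subst h3
      simp [hw.1, hw.2]
    · by_cases h5 : v = c
      · subst h5
        simp [h3, hc]
      · simp [h3, h5]

theorem dv_tw (hab : a ≠ b) (ha : a ∉ L) (hb : b ∉ L) (hP : P ⊆ L) (hQ : Q ⊆ L) (v : ℕ) :
    dv (tw a b P Q) v = (if v ∈ P then 1 else 0) + (if v ∈ Q then 1 else 0) +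
      ((if v = a then (#P : ℤ) else 0) + if v = b then (#Q : ℤ) else 0) := by
  have h1 : a ∉ P := fun h => ha (hP h)
  have h2 : b ∉ Q := fun h => hb (hQ h)
  have hd : Disjoint (P.image fun l => s(a, l)) (Q.image fun l => s(b, l)) := by
    rw [Finset.disjoint_left]
    intro e he he'
    obtain ⟨l, hl, rfl⟩ := Finset.mem_image.1 he
    obtain ⟨m, hm, h⟩ := Finset.mem_image.1 he'
    rw [Sym2.eq_iff] at h
    rcases h with ⟨h, _⟩ | ⟨h, h'⟩
    · exact hab h.symm
    · exact ha (h' ▸ hQ hm)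
  have e1 : dv (tw a b P Q) v = dv (P.image fun l => s(a, l)) v + dv (Q.image fun l => s(b, l)) v := by
    unfold tw dv dg
    rw [Finset.filter_union, Finset.card_union_of_disjoint (Finset.disjoint_filter_filter hd)]
    push_cast
    rfl
  rw [e1, dv_star h1, dv_star h2]
  ring

/-- a square in `tw` -/
theorem tw_sq (hab : a ≠ b) (ha : a ∉ L) (hb : b ∉ L) (hP : P ⊆ L) (hQ : Q ⊆ L) {Z : Finset (Sym2 ℕ)}
    (hZ : IsSq Z) (h : Z ⊆ tw a b P Q) : 2 ≤ #(P ∩ Q) := by
  obtain ⟨c, d, e, f, ⟨n1, n2, n3, n4, n5, n6⟩, rfl⟩ := hZ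
  have m1 : s(c, d) ∈ tw a b P Q := h (by simp [TFC.sq])
  have m2 : s(d, e) ∈ tw a b P Q := h (by simp [TFC.sq])
  have m3 : s(e, f) ∈ tw a b P Q := h (by simp [TFC.sq])
  have m4 : s(f, c) ∈ tw a b P Q := h (by simp [TFC.sq])
  rw [mem_tw] at m1 m2 m3 m4
  have two : ∀ l l' : ℕ, l ≠ l' → l ∈ P → l ∈ Q → l' ∈ P → l' ∈ Q → 2 ≤ #(P ∩ Q) := by
    intro l l' hne h1 h2 h3 h4
    have hs : ({l, l'} : Finset ℕ) ⊆ P ∩ Q := by
      intro v hv
      rw [Finset.mem_insert, Finset.mem_singleton] at hv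
      rcases hv with rfl | rfl
      · exact Finset.mem_inter.2 ⟨h1, h2⟩
      · exact Finset.mem_inter.2 ⟨h3, h4⟩
    rw [← Finset.card_pair hne]
    exact Finset.card_le_card hs
  have nP : ∀ l ∈ P, l ≠ a ∧ l ≠ b := fun l hl => ⟨fun e => ha (e ▸ hP hl), fun e => hb (e ▸ hP hl)⟩
  have nQ : ∀ l ∈ Q, l ≠ a ∧ l ≠ b := fun l hl => ⟨fun e => ha (e ▸ hQ hl), fun e => hb (e ▸ hQ hl)⟩
  -- `c` is a hub or `d` is a hub
  by_cases hc : c = a ∨ c = b
  · -- `d, f` are leaves, `e` is the other hub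
    have hd : d ≠ a ∧ d ≠ b ∧ (c = a → d ∈ P) ∧ (c = b → d ∈ Q) := by
      rcases m1 with ⟨g1, g2⟩ | ⟨g1, g2⟩ | ⟨g1, g2⟩ | ⟨g1, g2⟩
      · exact ⟨(nP d g2).1, (nP d g2).2, fun _ => g2, fun g => absurd (g1.symm.trans g) hab⟩
      · exact absurd hc (not_or.2 (nP c g2))
      · exact ⟨(nQ d g2).1, (nQ d g2).2, fun g => absurd (g.symm.trans g1) hab, fun _ => g2⟩
      · exact absurd hc (not_or.2 (nQ c g2))
    have hf : f ≠ a ∧ f ≠ b ∧ (c = a → f ∈ P) ∧ (c = b → f ∈ Q) := by
      rcases m4 with ⟨g1, g2⟩ | ⟨g1, g2⟩ | ⟨g1, g2⟩ | ⟨g1, g2⟩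
      · exact absurd hc (not_or.2 (nP c g2))
      · exact ⟨(nP f g2).1, (nP f g2).2, fun _ => g2, fun g => absurd (g1.symm.trans g) hab⟩
      · exact absurd hc (not_or.2 (nQ c g2))
      · exact ⟨(nQ f g2).1, (nQ f g2).2, fun g => absurd (g.symm.trans g1) hab, fun _ => g2⟩
    have he : (e = a → d ∈ P ∧ f ∈ P) ∧ (e = b → d ∈ Q ∧ f ∈ Q) ∧ (e = a ∨ e = b) := by
      rcases m2 with ⟨g1, g2⟩ | ⟨g1, g2⟩ | ⟨g1, g2⟩ | ⟨g1, g2⟩
      · exact absurd g1 hd.1
      · rcases m3 with ⟨k1, k2⟩ | ⟨k1, k2⟩ | ⟨k1, k2⟩ | ⟨k1, k2⟩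
        · exact ⟨fun _ => ⟨g2, k2⟩, fun g => absurd (g1.symm.trans g) hab, Or.inl g1⟩
        · exact absurd k1 hf.1
        · exact absurd (g1.symm.trans k1) hab
        · exact absurd k1 hf.2.1
      · exact absurd g1 hd.2.1
      · rcases m3 with ⟨k1, k2⟩ | ⟨k1, k2⟩ | ⟨k1, k2⟩ | ⟨k1, k2⟩
        · exact absurd (k1.symm.trans g1) hab
        · exact absurd k1 hf.1
        · exact ⟨fun g => absurd (g.symm.trans g1) hab, fun _ => ⟨g2, k2⟩, Or.inr g1⟩
        · exact absurd k1 hf.2.1
    rcases hc with hc | hc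
    · have heb : e = b := by
        rcases he.2.2 with g | g
        · exact absurd (hc.trans g.symm) n2
        · exact g
      exact two d f n5 (hd.2.2.1 hc) (he.2.1 heb).1 (hf.2.2.1 hc) (he.2.1 heb).2
    · have hea : e = a := by
        rcases he.2.2 with g | g
        · exact g
        · exact absurd (hc.trans g.symm) n2
      exact two d f n5 (he.1 hea).1 (hd.2.2.2 hc) (he.1 hea).2 (hf.2.2.2 hc)
  · -- `c, e` are leaves, `d, f` are the hubs
    rw [not_or] at hc
    have hd : (d = a ∧ c ∈ P) ∨ (d = b ∧ c ∈ Q) := by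
      rcases m1 with ⟨g1, _⟩ | ⟨g1, g2⟩ | ⟨g1, _⟩ | ⟨g1, g2⟩
      · exact absurd g1 hc.1
      · exact Or.inl ⟨g1, g2⟩
      · exact absurd g1 hc.2
      · exact Or.inr ⟨g1, g2⟩
    have hf : (f = a ∧ c ∈ P) ∨ (f = b ∧ c ∈ Q) := by
      rcases m4 with ⟨g1, g2⟩ | ⟨g1, _⟩ | ⟨g1, g2⟩ | ⟨g1, _⟩
      · exact Or.inl ⟨g1, g2⟩
      · exact absurd g1 hc.1
      · exact Or.inr ⟨g1, g2⟩
      · exact absurd g1 hc.2
    have hed : (d = a → e ∈ P) ∧ (d = b → e ∈ Q) := by
      rcases m2 with ⟨g1, g2⟩ | ⟨g1, g2⟩ | ⟨g1, g2⟩ | ⟨g1, g2⟩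
      · exact ⟨fun _ => g2, fun g => absurd (g1.symm.trans g) hab⟩
      · rcases hd with ⟨k, _⟩ | ⟨k, _⟩
        · exact absurd (k.trans g1.symm) n4
        · exact absurd k (nP d g2).2
      · exact ⟨fun g => absurd (g.symm.trans g1) hab, fun _ => g2⟩
      · rcases hd with ⟨k, _⟩ | ⟨k, _⟩
        · exact absurd k (nQ d g2).1
        · exact absurd (k.trans g1.symm) n4
    have hef : (f = a → e ∈ P) ∧ (f = b → e ∈ Q) := by
      rcases m3 with ⟨g1, g2⟩ | ⟨g1, g2⟩ | ⟨g1, g2⟩ | ⟨g1, g2⟩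
      · rcases hf with ⟨k, _⟩ | ⟨k, _⟩
        · exact absurd (g1.trans k.symm) n6
        · exact absurd k (nP f g2).2
      · exact ⟨fun _ => g2, fun g => absurd (g1.symm.trans g) hab⟩
      · rcases hf with ⟨k, _⟩ | ⟨k, _⟩
        · exact absurd k (nQ f g2).1
        · exact absurd (g1.trans k.symm) n6
      · exact ⟨fun g => absurd (g.symm.trans g1) hab, fun _ => g2⟩
    rcases hd with ⟨k1, k2⟩ | ⟨k1, k2⟩ <;> rcases hf with ⟨k3, k4⟩ | ⟨k3, k4⟩
    · exact absurd (k1.trans k3.symm) n5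
    · exact two c e n2 k2 k4 (hed.1 k1) (hef.2 k3)
    · exact two c e n2 k4 k2 (hef.1 k3) (hed.2 k1)
    · exact absurd (k1.trans k3.symm) n5

/-- two common leaves give a square -/
theorem sq_tw (hab : a ≠ b) (ha : a ∉ L) (hb : b ∉ L) (hP : P ⊆ L) (h : 2 ≤ #(P ∩ Q)) :
    ∃ Z, IsSq Z ∧ Z ⊆ tw a b P Q := by
  obtain ⟨l, hl, l', hl', hne⟩ := Finset.one_lt_card.1 (show 1 < #(P ∩ Q) by omega)
  rw [Finset.mem_inter] at hl hl'
  have n1 : a ≠ l := fun e => ha (e ▸ hP hl.1)
  have n2 : a ≠ l' := fun e => ha (e ▸ hP hl'.1)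
  have n3 : b ≠ l := fun e => hb (e ▸ hP hl.1)
  have n4 : b ≠ l' := fun e => hb (e ▸ hP hl'.1)
  refine ⟨TFC.sq a l b l', ⟨a, l, b, l', ⟨n1, hab, n2, n3.symm, hne, n4⟩, rfl⟩, ?_⟩
  intro e he
  simp only [TFC.sq, Finset.mem_insert, Finset.mem_singleton] at he
  rcases he with rfl | rfl | rfl | rfl
  · exact mem_tw.2 (Or.inl ⟨rfl, hl.1⟩)
  · exact mem_tw.2 (Or.inr (Or.inr (Or.inr ⟨rfl, hl.2⟩)))
  · exact mem_tw.2 (Or.inr (Or.inr (Or.inl ⟨rfl, hl'.2⟩)))
  · exact mem_tw.2 (Or.inr (Or.inl ⟨rfl, hl'.1⟩))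

theorem tw_free (hab : a ≠ b) (ha : a ∉ L) (hb : b ∉ L) (hP : P ⊆ L) (hQ : Q ⊆ L) :
    (∀ Z, IsSq Z → ¬ Z ⊆ tw a b P Q) ↔ #(P ∩ Q) ≤ 1 := by
  constructor
  · intro h
    by_contra hc
    obtain ⟨Z, h1, h2⟩ := sq_tw (Q := Q) hab ha hb hP (by omega)
    exact h Z h1 h2
  · intro h Z h1 h2
    have := tw_sq hab ha hb hP hQ h1 h2
    omega

theorem ind_sum {A : Finset ℕ} (hA : A ⊆ L) : ∑ l ∈ L, (if l ∈ A then (1 : ℤ) else 0) = #A := by
  rw [Finset.sum_ite_mem, Finset.inter_eq_right.2 hA, Finset.sum_const, nsmul_eq_mul, mul_one]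

/-- the description of the degree vectors -/
theorem UJ_iff (hab : a ≠ b) (ha : a ∉ L) (hb : b ∉ L) (x : ℕ → ℤ) :
    UJ a b L x ↔ ∃ P ⊆ L, ∃ Q ⊆ L, #(P ∩ Q) ≤ 1 ∧ x = dv (tw a b P Q) := by
  constructor
  · intro h
    obtain ⟨I, hI⟩ : ∃ I, I = L.filter fun l => x l = 2 := ⟨_, rfl⟩
    obtain ⟨S, hS⟩ : ∃ S, S = L.filter fun l => x l = 1 := ⟨_, rfl⟩
    have mI : ∀ l, l ∈ I ↔ l ∈ L ∧ x l = 2 := fun l => by rw [hI, Finset.mem_filter]
    have mS : ∀ l, l ∈ S ↔ l ∈ L ∧ x l = 1 := fun l => by rw [hS, Finset.mem_filter]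
    have hI1 : #I ≤ 1 := Finset.card_le_one.2 fun l hl l' hl' =>
      h.one l ((mI l).1 hl).1 l' ((mI l').1 hl').1 ((mI l).1 hl).2 ((mI l').1 hl').2
    have hIa : (#I : ℤ) ≤ x a ∧ (#I : ℤ) ≤ x b := by
      rcases Finset.eq_empty_or_nonempty I with h0 | ⟨l, hl⟩
      · rw [h0]
        exact ⟨by simpa using h.na, by simpa using h.nb⟩
      · have := h.dbl l ((mI l).1 hl).1 ((mI l).1 hl).2
        constructor
        · have : (#I : ℤ) ≤ 1 := by exact_mod_cast hI1
          omega
        · have : (#I : ℤ) ≤ 1 := by exact_mod_cast hI1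
          omega
    have hsum : ∑ l ∈ L, x l = 2 * #I + #S := by
      have e1 : ∀ l ∈ L, x l = 2 * (if l ∈ I then (1 : ℤ) else 0) + (if l ∈ S then (1 : ℤ) else 0) := by
        intro l hl
        have r := h.rg l hl
        by_cases g1 : x l = 2
        · have g2 : l ∈ I := (mI l).2 ⟨hl, g1⟩
          have g3 : l ∉ S := fun g => by have := ((mS l).1 g).2; omega
          rw [if_pos g2, if_neg g3, g1]
          norm_num
        · have g2 : l ∉ I := fun g => g1 ((mI l).1 g).2
          rw [if_neg g2]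
          by_cases g3 : x l = 1
          · rw [if_pos ((mS l).2 ⟨hl, g3⟩), g3]
            norm_num
          · rw [if_neg fun g => g3 ((mS l).1 g).2]
            omega
      rw [Finset.sum_congr rfl e1, Finset.sum_add_distrib, ← Finset.mul_sum,
        ind_sum (hI ▸ Finset.filter_subset _ _), ind_sum (hS ▸ Finset.filter_subset _ _)]
    obtain ⟨A, hA1, hA2⟩ : ∃ A ⊆ S, #A = (x a - #I).toNat := by
      refine Finset.exists_subset_card_eq ?_
      have := h.sum
      have := hIa
      omega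
    have dI : Disjoint I S := by
      rw [Finset.disjoint_left]
      intro l h1 h2
      have := ((mI l).1 h1).2
      have := ((mS l).1 h2).2
      omega
    have dA : Disjoint I A := dI.mono_right hA1
    have dB : Disjoint I (S \ A) := dI.mono_right Finset.sdiff_subset
    have hIL : I ⊆ L := hI ▸ Finset.filter_subset _ _
    have hSL : S ⊆ L := hS ▸ Finset.filter_subset _ _
    have hPL : I ∪ A ⊆ L := Finset.union_subset hIL (hA1.trans hSL)
    have hQL : I ∪ (S \ A) ⊆ L := Finset.union_subset hIL (Finset.sdiff_subset.trans hSL)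
    refine ⟨I ∪ A, hPL, I ∪ (S \ A), hQL, ?_, ?_⟩
    · have : (I ∪ A) ∩ (I ∪ (S \ A)) ⊆ I := by
        intro l hl
        rw [Finset.mem_inter, Finset.mem_union, Finset.mem_union, Finset.mem_sdiff] at hl
        rcases hl with ⟨g | g, g' | g'⟩
        · exact g
        · exact g
        · exact g'
        · exact absurd g g'.2
      exact (Finset.card_le_card this).trans hI1
    · funext v
      rw [dv_tw hab ha hb hPL hQL]
      have cP : #(I ∪ A) = #I + #A := Finset.card_union_of_disjoint dA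
      have cQ : #(I ∪ (S \ A)) = #I + (#S - #A) := by
        rw [Finset.card_union_of_disjoint dB, Finset.card_sdiff_of_subset hA1]
      have cAS := Finset.card_le_card hA1
      have hs := h.sum
      by_cases e1 : v = a
      · subst e1
        rw [if_neg fun g => ha (hPL g), if_neg fun g => ha (hQL g), if_pos rfl, if_neg hab, cP]
        push_cast
        have := hIa
        omega
      · by_cases e2 : v = b
        · subst e2
          rw [if_neg fun g => hb (hPL g), if_neg fun g => hb (hQL g), if_neg e1, if_pos rfl, cQ]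
          have := hIa
          push_cast
          omega
        · rw [if_neg e1, if_neg e2]
          by_cases e3 : v ∈ L
          · have r := h.rg v e3
            by_cases g1 : v ∈ I
            · have := ((mI v).1 g1).2
              rw [if_pos (Finset.mem_union_left _ g1), if_pos (Finset.mem_union_left _ g1), this]
              norm_num
            · have g1' : x v ≠ 2 := fun g => g1 ((mI v).2 ⟨e3, g⟩)
              by_cases g2 : v ∈ S
              · have := ((mS v).1 g2).2
                by_cases g3 : v ∈ A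
                · have g4 : v ∉ I ∪ (S \ A) := by
                    rw [Finset.mem_union, Finset.mem_sdiff]
                    rintro (g | g)
                    · exact g1 g
                    · exact g.2 g3
                  rw [if_pos (Finset.mem_union_right _ g3), if_neg g4, this]
                  norm_num
                · have g4 : v ∉ I ∪ A := by
                    rw [Finset.mem_union]
                    rintro (g | g)
                    · exact g1 g
                    · exact g3 g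
                  rw [if_neg g4, if_pos (Finset.mem_union_right _ (Finset.mem_sdiff.2 ⟨g2, g3⟩)), this]
                  norm_num
              · have g2' : x v ≠ 1 := fun g => g2 ((mS v).2 ⟨e3, g⟩)
                have g4 : v ∉ I ∪ A := by
                  rw [Finset.mem_union]
                  rintro (g | g)
                  · exact g1 g
                  · exact g2 (hA1 g)
                have g5 : v ∉ I ∪ (S \ A) := by
                  rw [Finset.mem_union, Finset.mem_sdiff]
                  rintro (g | g)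
                  · exact g1 g
                  · exact g2 g.1
                rw [if_neg g4, if_neg g5]
                omega
          · rw [if_neg fun g => e3 (hPL g), if_neg fun g => e3 (hQL g), h.off v e1 e2 e3]
            rfl
  · rintro ⟨P, hP, Q, hQ, hc, rfl⟩
    have nP : ∀ l ∈ L, l ≠ a ∧ l ≠ b := fun l hl => ⟨fun e => ha (e ▸ hl), fun e => hb (e ▸ hl)⟩
    have key : ∀ l ∈ L, dv (tw a b P Q) l = (if l ∈ P then 1 else 0) + (if l ∈ Q then 1 else 0) := by
      intro l hl
      rw [dv_tw hab ha hb hP hQ, if_neg (nP l hl).1, if_neg (nP l hl).2]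
      simp
    have ka : dv (tw a b P Q) a = #P := by
      rw [dv_tw hab ha hb hP hQ, if_neg fun g => ha (hP g), if_neg fun g => ha (hQ g), if_pos rfl, if_neg hab]
      simp
    have kb : dv (tw a b P Q) b = #Q := by
      rw [dv_tw hab ha hb hP hQ, if_neg fun g => hb (hP g), if_neg fun g => hb (hQ g), if_neg hab.symm, if_pos rfl]
      simp
    have both : ∀ l ∈ L, dv (tw a b P Q) l = 2 → l ∈ P ∩ Q := by
      intro l hl h2
      rw [key l hl] at h2
      rw [Finset.mem_inter]
      by_cases g1 : l ∈ P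
      · by_cases g2 : l ∈ Q
        · exact ⟨g1, g2⟩
        · rw [if_pos g1, if_neg g2] at h2
          norm_num at h2
      · by_cases g2 : l ∈ Q
        · rw [if_neg g1, if_pos g2] at h2
          norm_num at h2
        · rw [if_neg g1, if_neg g2] at h2
          norm_num at h2
    refine ⟨?_, ?_, ?_, ?_, ?_, ?_, ?_⟩
    · intro v g1 g2 g3
      rw [dv_tw hab ha hb hP hQ, if_neg fun g => g3 (hP g), if_neg fun g => g3 (hQ g), if_neg g1, if_neg g2]
      rfl
    · intro l hl
      rw [key l hl]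
      split_ifs <;> norm_num
    · intro l hl l' hl' g g'
      exact Finset.card_le_one.1 hc l (both l hl g) l' (both l' hl' g')
    · rw [ka]; exact Int.natCast_nonneg _
    · rw [kb]; exact Int.natCast_nonneg _
    · intro l hl g
      have h3 := Finset.mem_inter.1 (both l hl g)
      rw [ka, kb]
      have h4 : 0 < #P := Finset.card_pos.2 ⟨l, h3.1⟩
      have h5 : 0 < #Q := Finset.card_pos.2 ⟨l, h3.2⟩
      omega
    · rw [ka, kb, Finset.sum_congr rfl key, Finset.sum_add_distrib, ind_sum hP, ind_sum hQ]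

/-- **the square-free edge sets of a cluster `K2(a, b; L)` (no bound on the degrees) form a jump set** -/
theorem jb_k2 (hv : (Clu.k2 a b L).Valid) :
    XC.JB (fun x => ∃ K ⊆ (Clu.k2 a b L).edges, (∀ Z, IsSq Z → ¬ Z ⊆ K) ∧ x = dv K) := by
  obtain ⟨hab, ha, hb, -⟩ := hv
  have e : (fun x => ∃ K ⊆ (Clu.k2 a b L).edges, (∀ Z, IsSq Z → ¬ Z ⊆ K) ∧ x = dv K) = UJ a b L := by
    funext x
    rw [UJ_iff hab ha hb]
    apply propext
    constructor
    · rintro ⟨K, hK, h1, rfl⟩
      have h2 := tw_of hK hab ha hb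
      rw [h2] at h1
      exact ⟨_, Finset.filter_subset _ _, _, Finset.filter_subset _ _,
        (tw_free hab ha hb (Finset.filter_subset _ _) (Finset.filter_subset _ _)).1 h1, by rw [← h2]⟩
    · rintro ⟨P, hP, Q, hQ, hc, rfl⟩
      exact ⟨_, tw_sub hP hQ, (tw_free hab ha hb hP hQ).2 hc, rfl⟩
  rw [e]
  exact jb_UJ hab ha hb

end

end Pool.Agent.PF4.XU

end

section -- file Lib/helper60/ToTM2

/-!
From polynomial-time functions on encoded data to `Turing.TM2ComputableInPolyTime`.
-/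

set_option autoImplicit false

namespace Pool.Agent.Lib.helper60

open Function Turing

/-- conversion of a raw bit string into the code of the corresponding list -/
def convIn : Prog R :=
  transfer .m .a ++ (.push .m false ++
    .loop .a (.push .m false ++ .push .m true)
      (.push .m false ++ (.push .m false ++ (.push .m true ++ .push .m true))))

lemma convIn_loop (w : List Bool) : ∀ (v : List Bool),
    Runs (.loop .a (.push .m false ++ .push .m true)
      (.push .m false ++ (.push .m false ++ (.push .m true ++ .push .m true))))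
      (st (toD v).enc w [] []) (5 * w.length + 1) (st (toD (w.reverse ++ v)).enc [] [] []) := by
  induction w with
  | nil => intro v; exact Runs.loopN rfl
  | cons b w ih =>
    intro v
    have h1 := ih (b :: v)
    cases b with
    | false =>
      have h2 : Runs (.push R.m false ++ .push R.m true) (st (toD v).enc w [] []) 2
          (st (toD (false :: v)).enc w [] []) := by
        have := (Runs.push R.m false (st (toD v).enc w [] [])).seq (Runs.push R.m true _)
        simpa [D.enc] using this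
      have h3 := Runs.loopF (k := R.a) (S := st (toD v).enc (false :: w) [] [])
        (pT := (.push R.m false ++ (.push R.m false ++ (.push R.m true ++ .push R.m true))))
        (l := w) rfl (by simpa using h2) h1
      refine Runs.mono (t := _) (by simpa using h3) ?_
      simp
      omega
    | true =>
      have h2 : Runs (.push R.m false ++ (.push R.m false ++ (.push R.m true ++ .push R.m true)))
          (st (toD v).enc w [] []) 4 (st (toD (true :: v)).enc w [] []) := by
        have := (Runs.push R.m false (st (toD v).enc w [] [])).seq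
          ((Runs.push R.m false _).seq ((Runs.push R.m true _).seq (Runs.push R.m true _)))
        simpa [D.enc] using this
      have h3 := Runs.loopT (k := R.a) (S := st (toD v).enc (true :: w) [] [])
        (pF := (.push R.m false ++ .push R.m true))
        (l := w) rfl (by simpa using h2) h1
      refine Runs.mono (t := _) (by simpa using h3) ?_
      simp
      omega

lemma convIn_runs (w : List Bool) :
    Runs convIn (st w [] [] []) (7 * w.length + 3) (st (toD w).enc [] [] []) := by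
  have h1 := transfer_runs .m .a (by decide) w (st w [] [] []) rfl
  have h2 := Runs.push R.m false (st [] w.reverse [] [])
  have h3 := convIn_loop w.reverse []
  have h4 := h1.seq (t' := _) (S'' := _) ((by simpa [D.enc] using h2 :
    Runs (.push R.m false) (update (update (st w [] [] []) R.m []) R.a
      (w.reverse ++ (st w [] [] []) R.a)) 1 (st (toD ([] : List Bool)).enc w.reverse [] [])).seq h3)
  refine Runs.mono (by simpa [convIn] using h4) ?_
  omega

/-- body of the output conversion -/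
def convOutBody : Prog R :=
  .popCase .m .skip .skip
    (.push .b true ++ .popCase .m .skip (.push .a false)
      (.popCase .m .skip (.popCase .m .skip (.push .a true) .skip) .skip))

/-- conversion of the code of a list of bits into the raw bit string -/
def convOut : Prog R :=
  .push .b true ++ (.loop .b .skip convOutBody ++ transfer .a .m)

lemma convOut_loop : ∀ (w a : List Bool),
    Runs (.loop .b .skip convOutBody) (st (toD w).enc a [true] []) (7 * w.length + 4)
      (st [] (w.reverse ++ a) [] [])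
  | [], a => by
    have h1 : Runs convOutBody (st (toD ([] : List Bool)).enc a [] []) 2 (st [] a [] []) :=
      Runs.popF (k := R.m) (l := []) rfl (by simpa using Runs.skip _)
    have h2 := Runs.loopT (k := R.b) (pF := .skip) (S := st (toD ([] : List Bool)).enc a [true] [])
      (l := []) rfl (by simpa using h1) (Runs.loopN rfl)
    exact h2
  | false :: w, a => by
    have h0 := convOut_loop w (false :: a)
    have h1 := Runs.push R.b true (st (false :: (toD w).enc) a [] [])
    have h2 : Runs (.popCase .m .skip (.push .a false)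
      (.popCase .m .skip (.popCase .m .skip (.push .a true) .skip) .skip))
      (st (false :: (toD w).enc) a [true] []) 2 (st (toD w).enc (false :: a) [true] []) :=
      Runs.popF (k := R.m) (l := (toD w).enc) rfl
        (by simpa using Runs.push R.a false (st (toD w).enc a [true] []))
    have h3 : Runs convOutBody (st (toD (false :: w)).enc a [] []) 4
        (st (toD w).enc (false :: a) [true] []) :=
      Runs.popT (k := R.m) (l := false :: (toD w).enc) (by simp [D.enc])
        (by simpa using h1.seq (t' := 2) (by simpa using h2))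
    have h4 := Runs.loopT (k := R.b) (pF := .skip) (S := st (toD (false :: w)).enc a [true] [])
      (l := []) rfl (by simpa using h3) h0
    refine Runs.mono (t := _) (by simpa using h4) ?_
    simp
    omega
  | true :: w, a => by
    have h0 := convOut_loop w (true :: a)
    have h1 := Runs.push R.b true (st (true :: false :: false :: (toD w).enc) a [] [])
    have h2 : Runs (.popCase .m .skip (.push .a true) .skip)
      (st (false :: (toD w).enc) a [true] []) 2 (st (toD w).enc (true :: a) [true] []) :=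
      Runs.popF (k := R.m) (l := (toD w).enc) rfl
        (by simpa using Runs.push R.a true (st (toD w).enc a [true] []))
    have h2' : Runs (.popCase .m .skip (.popCase .m .skip (.push .a true) .skip) .skip)
      (st (false :: false :: (toD w).enc) a [true] []) 3 (st (toD w).enc (true :: a) [true] []) :=
      Runs.popF (k := R.m) (l := false :: (toD w).enc) rfl (by simpa using h2)
    have h2'' : Runs (.popCase .m .skip (.push .a false)
      (.popCase .m .skip (.popCase .m .skip (.push .a true) .skip) .skip))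
      (st (true :: false :: false :: (toD w).enc) a [true] []) 4
        (st (toD w).enc (true :: a) [true] []) :=
      Runs.popT (k := R.m) (l := false :: false :: (toD w).enc) rfl (by simpa using h2')
    have h3 : Runs convOutBody (st (toD (true :: w)).enc a [] []) 6
        (st (toD w).enc (true :: a) [true] []) :=
      Runs.popT (k := R.m) (l := true :: false :: false :: (toD w).enc) (by simp [D.enc])
        (by simpa using h1.seq (t' := 4) (by simpa using h2''))
    have h4 := Runs.loopT (k := R.b) (pF := .skip) (S := st (toD (true :: w)).enc a [true] [])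
      (l := []) rfl (by simpa using h3) h0
    refine Runs.mono (t := _) (by simpa using h4) ?_
    simp
    omega

lemma convOut_runs (w : List Bool) :
    Runs convOut (st (toD w).enc [] [] []) (9 * w.length + 6) (st w [] [] []) := by
  have h1 := Runs.push R.b true (st (toD w).enc [] [] [])
  have h2 := convOut_loop w []
  have h3 := transfer_am (w.reverse ++ []) [] [] []
  have h4 := h1.seq (t' := _) (S'' := _) ((by simpa using h2 :
    Runs (.loop .b .skip convOutBody) (update (st (toD w).enc [] [] []) R.b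
      (true :: (st (toD w).enc [] [] []) R.b)) _ (st [] (w.reverse ++ []) [] [])).seq h3)
  refine Runs.mono (by simpa [convOut] using h4) ?_
  omega

lemma tsize_bits_le (w : List Bool) : tsize w ≤ 4 * w.length + 1 := by
  induction w with
  | nil => simp
  | cons b w ih =>
    have := tsize_bool_le b
    simp only [tsize_cons, List.length_cons]
    omega

lemma length_le_tsize {α : Type} [DEnc α] (w : List α) : w.length ≤ tsize w := by
  induction w with
  | nil => simp
  | cons b w ih => simp only [tsize_cons, List.length_cons]; omega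

/-- **Polynomial-time functions on bit strings are computed by Turing machines in polynomial
time** (Mathlib's `Turing.TM2ComputableInPolyTime`). -/
theorem PT.toTM2 {α β : Type} {ea : α → List Bool} {eb : β → List Bool} {f : α → β}
    {F : List Bool → List Bool} (hF : PT F) (h : ∀ a, F (ea a) = eb (f a)) :
    Nonempty (TM2ComputableInPolyTime ea eb f) := by
  have hsz := hF.size
  obtain ⟨p, t, ⟨P, hP⟩, hp⟩ := hF
  obtain ⟨Q, hQ⟩ := hsz
  -- total time
  let lin : Polynomial ℕ := 4 * Polynomial.X + 1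
  let T : Polynomial ℕ := (7 * Polynomial.X + 3) + (P.comp lin + (9 * Q.comp lin + 6)) + 1
  have key : ∀ a, Nonempty (TM2OutputsInTime (machine R.m R.m (convIn ++ (p ++ convOut)))
      (ea a) (some (eb (f a))) (T.eval (ea a).length)) := by
    intro a
    have h1 := convIn_runs (ea a)
    have h2 := hp (ea a) []
    have h3 := convOut_runs (F (ea a))
    simp only [List.append_nil] at h2
    have h4 := h1.seq (h2.seq h3)
    rw [h a] at h4
    have hlin : tsize (ea a) ≤ lin.eval (ea a).length := by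
      simpa [lin] using tsize_bits_le (ea a)
    have h5 : t (ea a) ≤ (P.comp lin).eval (ea a).length := by
      rw [Polynomial.eval_comp]
      exact (hP _).trans (evalMono P hlin)
    have h6 : (eb (f a)).length ≤ (Q.comp lin).eval (ea a).length := by
      rw [Polynomial.eval_comp, ← h a]
      exact (length_le_tsize _).trans ((hQ _).trans (evalMono Q hlin))
    have h7 : Runs (convIn ++ (p ++ convOut)) (only R.m (ea a))
        ((7 * (ea a).length + 3) + ((P.comp lin).eval (ea a).length +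
          (9 * (Q.comp lin).eval (ea a).length + 6))) (only R.m (eb (f a))) := by
      rw [← st_only, ← st_only]
      exact h4.mono (by omega)
    have h8 := machine_runs R.m R.m _ h7
    have h9 : T.eval (ea a).length = ((7 * (ea a).length + 3) + ((P.comp lin).eval (ea a).length +
          (9 * (Q.comp lin).eval (ea a).length + 6))) + 1 := by
      simp [T]
    rw [h9]
    exact h8
  have key2 : ∀ (a : α) (u v : List Bool), u = ea a → v = eb (f a) →
      Nonempty (TM2OutputsInTime (machine R.m R.m (convIn ++ (p ++ convOut)))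
        u (some v) (T.eval (ea a).length)) := by
    rintro a u v rfl rfl
    exact key a
  exact ⟨{ tm := machine R.m R.m (convIn ++ (p ++ convOut))
           inputAlphabet := Equiv.refl Bool
           outputAlphabet := Equiv.refl Bool
           time := T
           outputsFun := fun a => (key2 a _ _ (List.map_id _) (List.map_id _)).some }⟩

end Pool.Agent.Lib.helper60

end

section -- file Lib/helper60/NPLib

/-!
Tools for membership in NP, and the inclusion of P in NP.
-/

set_option autoImplicit false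

namespace Pool.Agent.Lib.helper60

open Turing Computability

/-! ### decoding pairs -/

/-- state of the pair parser: mode, stored bit, two outputs (reversed) -/
abbrev UState := ℕ × Bool × List Bool × List Bool

/-- one step of the pair parser -/
def ustep (s : UState) (b : Bool) : UState :=
  if s.1 = 0 then (1, b, s.2.2.1, s.2.2.2)
  else if s.1 = 1 then (bif s.2.1 then (0, false, true :: s.2.2.1, s.2.2.2)
    else (bif b then (2, false, s.2.2.1, s.2.2.2) else (0, false, false :: s.2.2.1, s.2.2.2)))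
  else (2, false, s.2.2.1, b :: s.2.2.2)

/-- the pair parser -/
def unpair (w : List Bool) : List Bool × List Bool :=
  ((w.foldl ustep (0, false, [], [])).2.2.1.reverse,
    (w.foldl ustep (0, false, [], [])).2.2.2.reverse)

/-! ### machines for predicates -/

/-- a polynomial-time predicate on raw strings -/
theorem PT.decider {α : Type} {ea : α → List Bool} {f : α → Bool} {F : List Bool → Bool}
    (hF : PT F) (h : ∀ a, F (ea a) = f a) :
    Nonempty (TM2ComputableInPolyTime ea encodeBool f) :=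
  PT.toTM2 (F := fun w => [F w]) (PT.cons hF (PT.const [])) (fun a => by rw [h a]; rfl)

/-- a machine on raw strings yields a machine on encoded objects -/
def TM2_precomp {α β αΓ βΓ : Type} {ea : α → List αΓ} {eb : β → List βΓ} {f : List αΓ → β}
    (h : TM2ComputableInPolyTime (fun w : List αΓ => w) eb f) :
    TM2ComputableInPolyTime ea eb (fun a => f (ea a)) where
  toTM2ComputableAux := h.toTM2ComputableAux
  time := h.time
  outputsFun := fun a => h.outputsFun (ea a)

end Pool.Agent.Lib.helper60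

end

section -- file TF4/PTV

set_option autoImplicit false

/-! [TF4] the verifiers run in polynomial time -/

namespace TF4

open Pool.Agent.Lib.helper60

section

variable {ι : Type} [DEnc ι]

theorem pt_bit {n : ι → ℕ} {w : ι → List Bool} {i j : ι → ℕ} (hn : PT n) (hw : PT w) (hi : PT i)
    (hj : PT j) : PT (fun x => bit (n x) (w x) (i x) (j x)) :=
  PT.getD hw (PT.nadd (PT.nmul hn hi) hj) (PT.const false)

theorem pt_matB {n : ι → ℕ} {w : ι → List Bool} (hn : PT n) (hw : PT w) :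
    PT (fun x => matB (n x) (w x)) := by
  unfold matB
  refine PT.band (PT.neq (PT.length hw) (PT.nmul hn hn)) ?_
  refine PT.all (p := fun y : ι × ℕ => !bit (n y.1) (w y.1) y.2 y.2 &&
    (List.range (n y.1)).all (fun j => decide (bit (n y.1) (w y.1) y.2 j = bit (n y.1) (w y.1) j y.2)))
    (PT.range hn) ?_
  refine PT.band (PT.bnot (pt_bit (hn.comp PT.fst) (hw.comp PT.fst) PT.snd PT.snd)) ?_
  refine PT.all (p := fun z : (ι × ℕ) × ℕ => decide (bit (n z.1.1) (w z.1.1) z.1.2 z.2 =
    bit (n z.1.1) (w z.1.1) z.2 z.1.2)) (PT.range (hn.comp PT.fst)) ?_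
  have hn' : PT (fun z : (ι × ℕ) × ℕ => n z.1.1) := hn.comp PT.fst.p1
  have hw' : PT (fun z : (ι × ℕ) × ℕ => w z.1.1) := hw.comp PT.fst.p1
  exact PT.beq (pt_bit hn' hw' PT.fst.p2 PT.snd) (pt_bit hn' hw' PT.snd PT.fst.p2)

theorem pt_side {w : ι → List Bool} (hw : PT w) : PT (fun x => side (w x)) := by
  unfold side
  refine PT.headD ?_ (PT.const 0)
  refine PT.filter (p := fun y : ι × ℕ => decide (y.2 * y.2 = (w y.1).length))
    (PT.range (PT.nsucc (PT.length hw))) ?_
  exact PT.neq (PT.nmul PT.snd PT.snd) (PT.length (hw.comp PT.fst))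

end

end TF4

end

section -- file TF4/K10

set_option autoImplicit false

namespace TF4

open Finset Pool.Agent.TFC
open scoped Classical

/-- the adjacency matrix as a list -/
theorem code_length {n : ℕ} (G : SimpleGraph (Fin n)) : (code G).length = n * n := by
  unfold code
  simp

theorem idx_lt {n i j : ℕ} (hi : i < n) (hj : j < n) : n * i + j < n * n := by
  have : n * i + n ≤ n * n := by
    calc n * i + n = n * (i + 1) := by ring
      _ ≤ n * n := Nat.mul_le_mul_left _ hi
  omega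

theorem bit_code {n : ℕ} (G : SimpleGraph (Fin n)) (i j : Fin n) : bit n (code G) i j = decide (G.Adj i j) := by
  have hlt : n * (i : ℕ) + j < n * n := idx_lt i.2 j.2
  have hn : 0 < n := Nat.lt_of_le_of_lt (Nat.zero_le _) i.2
  unfold bit
  rw [List.getD_eq_getElem _ _ (by rw [code_length]; exact hlt)]
  unfold code
  rw [List.getElem_ofFn]
  have e1 : (⟨n * (i : ℕ) + j, by simpa using hlt⟩ : Fin (n * n)).divNat = i := by
    apply Fin.ext
    simp only [Fin.coe_divNat]
    rw [Nat.mul_add_div hn, Nat.div_eq_of_lt j.2, add_zero]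
  have e2 : (⟨n * (i : ℕ) + j, by simpa using hlt⟩ : Fin (n * n)).modNat = j := by
    apply Fin.ext
    simp only [Fin.coe_modNat]
    rw [Nat.mul_add_mod, Nat.mod_eq_of_lt j.2]
  rw [e1, e2]

theorem matB_iff' {n : ℕ} {w : List Bool} : matB n w = true ↔
    w.length = n * n ∧ ∀ i < n, bit n w i i = false ∧ ∀ j < n, bit n w i j = bit n w j i := by
  unfold matB
  simp only [Bool.and_eq_true, decide_eq_true_eq, List.all_eq_true, List.mem_range,
    Bool.not_eq_true']

theorem adj_gr {n : ℕ} {w : List Bool} (hw : matB n w = true) (i j : Fin n) :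
    (gr n w).Adj i j ↔ bit n w i j = true := by
  rw [matB_iff'] at hw
  constructor
  · rintro ⟨h, _, _⟩
    exact h
  · intro h
    refine ⟨h, ?_, ?_⟩
    · rw [← (hw.2 i i.2).2 j j.2]; exact h
    · rintro rfl
      rw [(hw.2 i i.2).1] at h
      exact Bool.false_ne_true h

/-- (TF4-K10) codes and well-formed strings.
PROOF. `bit n (code G) i j` is the entry with number `n i + j`, whose `divNat` is `i` and whose `modNat` is `j`; symmetric and zero on the diagonal. -/
theorem matB_code {n : ℕ} (G : SimpleGraph (Fin n)) : matB n (code G) = true ∧ gr n (code G) = G := by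
  have h1 : matB n (code G) = true := by
    rw [matB_iff']
    refine ⟨code_length G, ?_⟩
    intro i hi
    refine ⟨?_, ?_⟩
    · have := bit_code G ⟨i, hi⟩ ⟨i, hi⟩
      simp only at this
      rw [this]
      simp
    · intro j hj
      have a := bit_code G ⟨i, hi⟩ ⟨j, hj⟩
      have b := bit_code G ⟨j, hj⟩ ⟨i, hi⟩
      simp only at a b
      rw [a, b]
      simp only [G.adj_comm]
  refine ⟨h1, ?_⟩
  ext i j
  rw [adj_gr h1, bit_code, decide_eq_true_eq]

/-- PROOF. Both lists have length `n * n`; entry `k` of `code (gr n w)` is the truth value of `bit n w i j ∧ bit n w j i ∧ i ≠ j` with `k = n i + j` (`i = k / n`, `j = k % n`),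
which is `bit n w i j` by `matB` (symmetry and diagonal); `List.ext_getElem`. -/
theorem code_gr {n : ℕ} {w : List Bool} (hw : matB n w = true) : code (gr n w) = w := by
  have hl : w.length = n * n := (matB_iff'.1 hw).1
  apply List.ext_getElem
  · rw [code_length, hl]
  intro k h1 h2
  have hk : k < n * n := by rw [← hl]; exact h2
  have hn : 0 < n := by
    rcases Nat.eq_zero_or_pos n with h | h
    · subst h; simp at hk
    · exact h
  have hi : k / n < n := Nat.div_lt_of_lt_mul hk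
  have hj : k % n < n := Nat.mod_lt _ hn
  have e : n * (k / n) + k % n = k := Nat.div_add_mod k n
  have a := bit_code (gr n w) ⟨k / n, hi⟩ ⟨k % n, hj⟩
  simp only at a
  have b : bit n (code (gr n w)) (k / n) (k % n) = (code (gr n w))[k] := by
    unfold bit
    rw [e, List.getD_eq_getElem _ _ h1]
  have c : bit n w (k / n) (k % n) = w[k] := by
    unfold bit
    rw [e, List.getD_eq_getElem _ _ h2]
  rw [← b, ← c, a]
  have d := adj_gr hw ⟨k / n, hi⟩ ⟨k % n, hj⟩
  simp only at d
  rw [Bool.eq_iff_iff, decide_eq_true_eq]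
  exact d

/-- PROOF. `side w` is the head of the list of the `m < w.length + 1` with `m * m = w.length`, which contains `n` (`n ≤ n * n`) and nothing else (`Nat.mul_self_inj`). -/
theorem side_eq {n : ℕ} {w : List Bool} (hw : matB n w = true) : side w = n := by
  have hl : w.length = n * n := (matB_iff'.1 hw).1
  unfold side
  have hmem : n ∈ (List.range (w.length + 1)).filter (fun m => decide (m * m = w.length)) := by
    rw [List.mem_filter, List.mem_range]
    refine ⟨?_, by simp [hl]⟩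
    rw [hl]
    rcases Nat.eq_zero_or_pos n with h | h
    · subst h; simp
    · have : n ≤ n * n := Nat.le_mul_of_pos_left n h
      omega
  generalize hL : (List.range (w.length + 1)).filter (fun m => decide (m * m = w.length)) = L at hmem ⊢
  have hall : ∀ m ∈ L, m = n := by
    intro m hm
    rw [← hL, List.mem_filter] at hm
    have : m * m = n * n := by rw [← hl]; exact of_decide_eq_true hm.2
    exact Nat.mul_self_inj.1 this
  cases L with
  | nil => simp at hmem
  | cons a t => exact hall a (List.mem_cons_self ..)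

/-- (TF4-K10) PROOF. From the four lemmas. -/
theorem code_iff (w : List Bool) : w ∈ TwoF4 ↔
    matB (side w) w = true ∧ ∃ F, IsFac (gr (side w) w) F := by
  constructor
  · rintro ⟨n, G, rfl, F, hF⟩
    obtain ⟨h1, h2⟩ := matB_code G
    rw [side_eq h1]
    refine ⟨h1, ?_⟩
    rw [h2]
    exact ⟨F, hF⟩
  · rintro ⟨h1, F, hF⟩
    exact ⟨side w, gr (side w) w, (code_gr h1).symm, F, hF⟩

end TF4

end

section -- file PF4/InP

/-!
# 2F({4}) in P: the statement and the parsing of the input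

`inP_of`: if `dec n E` decides, in polynomial time, whether the graph with the vertices `0, ..., n - 1` and the edges
`E` (pairs `(u, v)` with `u < v < n`, without repetition) has a 2-factor without 4-cycles, then 2F({4}) is in P.
-/

set_option autoImplicit false

namespace Pool.Agent.PF4

open TF4 Pool.Agent.Lib.helper60

/-- the edges `(u, v)`, `u < v < n`, of the graph of a bit string -/
def edg (n : ℕ) (w : List Bool) : List (ℕ × ℕ) :=
  (List.range n).flatMap fun v => ((List.range v).filter fun u => bit n w u v).map fun u => (u, v)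

theorem mem_edg {n : ℕ} {w : List Bool} {u v : ℕ} : (u, v) ∈ edg n w ↔ u < v ∧ v < n ∧ bit n w u v = true := by
  simp only [edg, List.mem_flatMap, List.mem_range, List.mem_map, List.mem_filter, Prod.mk.injEq]
  constructor
  · rintro ⟨v', h1, u', ⟨h2, h3⟩, rfl, rfl⟩
    exact ⟨h2, h1, h3⟩
  · rintro ⟨h1, h2, h3⟩
    exact ⟨v, h2, u, ⟨h1, h3⟩, rfl, rfl⟩

theorem nodup_edg (n : ℕ) (w : List Bool) : (edg n w).Nodup := by
  unfold edg
  rw [List.nodup_flatMap]
  constructor
  · intro v _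
    refine List.Nodup.map ?_ (List.nodup_range.filter _)
    intro a b h
    exact (Prod.mk.inj h).1
  · refine (List.nodup_range (n := n)).pairwise_of_forall_ne ?_
    intro a _ b _ hab
    simp only [Function.onFun, List.disjoint_left, List.mem_map]
    rintro e ⟨u, _, rfl⟩ ⟨u', _, h⟩
    exact hab (Prod.mk.inj h).2.symm

theorem pt_edg {ι : Type} [DEnc ι] {n : ι → ℕ} {w : ι → List Bool} (hn : PT n) (hw : PT w) :
    PT (fun x => edg (n x) (w x)) := by
  unfold edg
  refine PT.flatMap (g := fun y : ι × ℕ =>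
    ((List.range y.2).filter fun u => bit (n y.1) (w y.1) u y.2).map fun u => (u, y.2)) (PT.range hn) ?_
  refine PT.map (g := fun z : (ι × ℕ) × ℕ => (z.2, z.1.2)) ?_ (PT.pair PT.snd PT.fst.p2)
  refine PT.filter (p := fun z : (ι × ℕ) × ℕ => bit (n z.1.1) (w z.1.1) z.2 z.1.2) (PT.range PT.snd) ?_
  exact pt_bit (hn.comp PT.fst.p1) (hw.comp PT.fst.p1) PT.snd PT.fst.p2

/-- **The frame of the polynomial algorithm.** -/
theorem inP_of {dec : ℕ → List (ℕ × ℕ) → Bool} (hpt : PT (fun x : ℕ × List (ℕ × ℕ) => dec x.1 x.2))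
    (h : ∀ (n : ℕ) (G : SimpleGraph (Fin n)) (E : List (ℕ × ℕ)), E.Nodup → (∀ e ∈ E, e.1 < e.2 ∧ e.2 < n) →
      (∀ u v : Fin n, u < v → (G.Adj u v ↔ (u.val, v.val) ∈ E)) → (dec n E = true ↔ ∃ F, IsFac G F)) :
    InP TwoF4 := by
  refine ⟨fun w => matB (side w) w && dec (side w) (edg (side w) w), ?_, ?_⟩
  · refine PT.decider (F := fun w => matB (side w) w && dec (side w) (edg (side w) w)) ?_ (fun _ => rfl)
    refine PT.band (pt_matB (pt_side PT.id) PT.id) ?_
    exact hpt.comp (PT.pair (pt_side PT.id) (pt_edg (pt_side PT.id) PT.id))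
  · intro w
    rw [code_iff, Bool.and_eq_true]
    refine and_congr_right fun hw => ?_
    rw [h (side w) (gr (side w) w) _ (nodup_edg _ _)]
    · rintro ⟨u, v⟩ he
      obtain ⟨h1, h2, _⟩ := mem_edg.1 he
      exact ⟨h1, h2⟩
    · intro u v huv
      rw [mem_edg]
      simp only [matB, Bool.and_eq_true, decide_eq_true_eq, List.all_eq_true, List.mem_range,
        Bool.not_eq_true'] at hw
      constructor
      · intro hadj
        exact ⟨huv, v.2, hadj.1⟩
      · rintro ⟨_, _, h3⟩
        refine ⟨h3, ?_, ne_of_lt huv⟩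
        rw [← (hw.2 u.val u.2).2 v.val v.2]
        exact h3

end Pool.Agent.PF4

end

section -- file PF4/CluX

/-!
The steps of the proof of `clusters` with explicit clusters.
-/

set_option autoImplicit false
set_option linter.unusedSectionVars false
set_option linter.unusedSimpArgs false

namespace Pool.Agent.TFC

open Finset
open scoped Pointwise

variable {V : Type*} [DecidableEq V]

/-- the conclusion of one step, with a given cluster -/
def StepY (D : Finset (Finset (Sym2 V))) (Q : Finset (Sym2 V)) (c : Clu V) : Prop :=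
  ∃ (D' : Finset (Finset (Sym2 V))), D' ⊆ D ∧ Q ∈ D' ∧ c.Valid ∧ (∀ S ∈ D', S ⊆ c.edges) ∧
    c.edges ⊆ D'.biUnion id ∧ ∀ T ∈ D, T ∉ D' → ∀ e ∈ T, e ∉ c.edges

/-- case 1 -/
lemma case1Y {D : Finset (Finset (Sym2 V))} (hD : ∀ Q ∈ D, IsSq Q)
    (hc : ∀ Q ∈ D, ∀ R ∈ D, Q ≠ R → #(Q ∩ R) ≠ 1) {Q R : Finset (Sym2 V)} (hQ : Q ∈ D) (hR : R ∈ D)
    (hne : Q ≠ R) {X : Finset V} (oQ : Clus_On Q X) (oR : Clus_On R X) :
    StepY D Q (Clu.k4 X) := by
  classical
  have sub : ∀ Z, Clus_On Z X → Z ⊆ (Clu.k4 X).edges := by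
    intro Z hZ e he
    induction e using Sym2.ind with
    | _ u v => exact Clus_k4.2 (Clus_mem hZ he)
  have cov : ∀ u v, s(u, v) ∈ (Clu.k4 X).edges → s(u, v) ∈ Q ∨ s(u, v) ∈ R := by
    intro u v huv
    by_contra hcon
    push Not at hcon
    obtain ⟨hu, hv, huv'⟩ := Clus_k4.1 huv
    have key : ∀ Z, Clus_On Z X → s(u, v) ∉ Z → ∃ b d, Clus_F Z X b u d v := by
      intro Z hZ hn
      obtain ⟨b, c, d, h⟩ := Clus_start hZ hu
      obtain ⟨⟨h1, h2, h3, h4, h5, h6⟩, eQ, eX⟩ := id h
      have hv' := hv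
      rw [eX] at hv'
      simp only [mem_insert, mem_singleton] at hv'
      rcases hv' with e | e | e | e
      · exact absurd e huv'.symm
      · exfalso
        apply hn
        rw [eQ, e]
        simp [sq]
      · subst e
        exact ⟨_, _, Clus_rot (Clus_ref (Clus_rot (Clus_ref (Clus_rot (Clus_rot (Clus_rot h))))))⟩
      · exfalso
        apply hn
        rw [eQ, e, Sym2.eq_swap]
        simp [sq]
    obtain ⟨b, d, ⟨a1, a2, a3, a4, a5, a6⟩, eQ, eX⟩ := key Q oQ hcon.1
    obtain ⟨b', d', ⟨b1, b2, b3, b4, b5, b6⟩, eR, eX'⟩ := key R oR hcon.2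
    have hbm : b ∈ X := by rw [eX]; simp
    have hdm : d ∈ X := by rw [eX]; simp
    rw [eX'] at hbm hdm
    simp only [mem_insert, mem_singleton] at hbm hdm
    apply hne
    have hb : b = b' ∨ b = d' := by
      rcases hbm with e | e | e | e
      · exact Or.inl e
      · exact absurd e a1
      · exact Or.inr e
      · exact absurd e a3
    have hd : d = b' ∨ d = d' := by
      rcases hdm with e | e | e | e
      · exact Or.inl e
      · exact absurd e a4.symm
      · exact Or.inr e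
      · exact absurd e a6
    rcases hb with rfl | rfl
    · rcases hd with rfl | rfl
      · exact absurd rfl a2
      · rw [eQ, eR]
    · rcases hd with rfl | rfl
      · rw [eQ, eR]
        have e1 : s(d, u) = s(u, d) := Sym2.eq_swap
        have e2 : s(u, b) = s(b, u) := Sym2.eq_swap
        have e3 : s(b, v) = s(v, b) := Sym2.eq_swap
        have e4 : s(v, d) = s(d, v) := Sym2.eq_swap
        ext e
        simp only [sq, mem_insert, mem_singleton, e1, e2, e3, e4]
        tauto
      · exact absurd rfl a2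
  refine ⟨D.filter (fun S => S ⊆ (Clu.k4 X).edges), filter_subset _ _, ?_, Clus_card oQ, ?_, ?_, ?_⟩
  · rw [mem_filter]
    exact ⟨hQ, sub Q oQ⟩
  · intro S hS
    exact (mem_filter.1 hS).2
  · intro e he
    rw [mem_biUnion]
    induction e using Sym2.ind with
    | _ u v =>
      rcases cov u v he with h | h
      · exact ⟨Q, mem_filter.2 ⟨hQ, sub Q oQ⟩, h⟩
      · exact ⟨R, mem_filter.2 ⟨hR, sub R oR⟩, h⟩
  · intro T hT hTn e heT heK
    have hTn' : ¬ T ⊆ (Clu.k4 X).edges := fun h => hTn (mem_filter.2 ⟨hT, h⟩)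
    obtain ⟨Y, oT⟩ := Clus_isSq (hD T hT)
    -- the main argument
    have main : ∀ p q r s, Clus_F T Y p q r s → p ∈ X → q ∈ X → s ∉ X → False := by
      intro p q r s h hp hq hs
      obtain ⟨⟨h1, h2, h3, h4, h5, h6⟩, eT, -⟩ := h
      have hiff : ∀ Z ∈ D, Clus_On Z X → (s(p, q) ∈ Z ↔ s(q, r) ∈ Z) := by
        intro Z hZ oZ
        have hTZ : T ≠ Z := by
          rintro rfl
          exact hTn' (sub _ oZ)
        have hcard := hc T hT Z hZ hTZ
        have n1 : s(r, s) ∉ Z := fun h => hs (Clus_mem oZ h).2.1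
        have n2 : s(s, p) ∉ Z := fun h => hs (Clus_mem oZ h).1
        constructor
        · intro h
          obtain ⟨e', he1, he2, he3⟩ := Clus_second hcard (e := s(p, q)) (by rw [eT]; simp [sq]) h
          rw [eT] at he1
          simp only [sq, mem_insert, mem_singleton] at he1
          rcases he1 with rfl | rfl | rfl | rfl
          · exact absurd rfl he3
          · exact he2
          · exact absurd he2 n1
          · exact absurd he2 n2
        · intro h
          obtain ⟨e', he1, he2, he3⟩ := Clus_second hcard (e := s(q, r)) (by rw [eT]; simp [sq]) h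
          rw [eT] at he1
          simp only [sq, mem_insert, mem_singleton] at he1
          rcases he1 with rfl | rfl | rfl | rfl
          · exact he2
          · exact absurd rfl he3
          · exact absurd he2 n1
          · exact absurd he2 n2
      have final : ∀ Z Z', Z ∈ D → Z' ∈ D → Clus_On Z X → Clus_On Z' X → Z ≠ Z' → s(p, q) ∈ Z → False := by
        intro Z Z' hZ hZ' oZ oZ' hZZ hpq
        have hqr := (hiff Z hZ oZ).1 hpq
        by_cases hpq' : s(p, q) ∈ Z'
        · exact hZZ (Clus_eq oZ oZ' h2 hpq hqr hpq' ((hiff Z' hZ' oZ').1 hpq'))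
        · have hqr' : s(q, r) ∉ Z' := fun h => hpq' ((hiff Z' hZ' oZ').2 h)
          have hr : r ∈ X := (Clus_mem oZ hqr).2.1
          obtain ⟨b, c, d, ⟨c1, c2, c3, c4, c5, c6⟩, eZ, eX⟩ := Clus_start oZ' hq
          have only : ∀ m, m ∈ X → m ≠ q → s(q, m) ∉ Z' → m = c := by
            intro m hm hmq hn
            rw [eX] at hm
            simp only [mem_insert, mem_singleton] at hm
            rcases hm with e | e | e | e
            · exact absurd e hmq
            · exfalso
              apply hn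
              rw [eZ, e]
              simp [sq]
            · exact e
            · exfalso
              apply hn
              rw [eZ, e, Sym2.eq_swap]
              simp [sq]
          have e1 := only p hp h1 (by rw [Sym2.eq_swap]; exact hpq')
          have e2 := only r hr h4.symm hqr'
          exact h2 (e1.trans e2.symm)
      rcases cov p q (Clus_k4.2 ⟨hp, hq, h1⟩) with h | h
      · exact final Q R hQ hR oQ oR hne h
      · exact final R Q hR hQ oR oQ hne.symm h
    induction e using Sym2.ind with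
    | _ p q =>
      obtain ⟨hp, hq, hpq⟩ := Clus_k4.1 heK
      obtain ⟨r, s, h⟩ := Clus_adj oT heT
      by_cases hs : s ∈ X
      · by_cases hr : r ∈ X
        · apply hTn'
          obtain ⟨⟨h1, h2, h3, h4, h5, h6⟩, eT, -⟩ := h
          rw [eT]
          intro e he
          simp only [sq, mem_insert, mem_singleton] at he
          rcases he with rfl | rfl | rfl | rfl
          · exact Clus_k4.2 ⟨hp, hq, h1⟩
          · exact Clus_k4.2 ⟨hq, hr, h4⟩
          · exact Clus_k4.2 ⟨hr, hs, h6⟩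
          · exact Clus_k4.2 ⟨hs, hp, h3.symm⟩
        · exact main q p s r (Clus_rot (Clus_rot (Clus_ref h))) hq hp hr
      · exact main p q r s h hp hq hs

/-- case 2 -/
lemma case2Y {D : Finset (Finset (Sym2 V))} (hD : ∀ Q ∈ D, IsSq Q)
    (hc : ∀ Q ∈ D, ∀ R ∈ D, Q ≠ R → #(Q ∩ R) ≠ 1) {x y a b c : V} (hQ : sq x a y b ∈ D)
    (hR : sq x a y c ∈ D) (dQ : Dist4 x a y b) (dR : Dist4 x a y c) (hbc : b ≠ c)
    (Pr : Finset (Sym2 V) → Prop) (hPr : ∀ S, Pr S ↔ ∃ l l' l'', Dist4 x l y l' ∧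
      Dist4 x l y l'' ∧ l' ≠ l'' ∧ S = sq x l y l' ∧ sq x l y l'' ∈ D) (L : Finset V)
    (hL : ∀ l, l ∈ L ↔ (∃ S ∈ D, Pr S ∧ ∃ e ∈ S, l ∈ e) ∧ l ≠ x ∧ l ≠ y) :
    StepY D (sq x a y b) (Clu.k2 x y L) := by
  classical
  set D' := D.filter Pr with hD'
  have hmD' : ∀ S, S ∈ D' ↔ S ∈ D ∧ Pr S := fun S => mem_filter
  have hmL : ∀ l, l ∈ L ↔ (∃ S ∈ D', ∃ e ∈ S, l ∈ e) ∧ l ≠ x ∧ l ≠ y := by
    intro l
    rw [hL]
    simp only [hmD', and_assoc]
  -- leaves of members of D'
  have leafL : ∀ l l', Dist4 x l y l' → sq x l y l' ∈ D' → l ∈ L ∧ l' ∈ L := by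
    rintro l l' ⟨h1, h2, h3, h4, h5, h6⟩ hS
    refine ⟨(hmL l).2 ⟨⟨_, hS, s(x, l), by simp [sq], by simp⟩, h1.symm, h4⟩,
      (hmL l').2 ⟨⟨_, hS, s(y, l'), by simp [sq], by simp⟩, h3.symm, h6.symm⟩⟩
  have ofL : ∀ l ∈ L, ∃ l', Dist4 x l y l' ∧ sq x l y l' ∈ D' ∧
      ∃ m m' m'', ((m = l ∧ m' = l') ∨ (m = l' ∧ m' = l)) ∧ Dist4 x m y m'' ∧ m'' ≠ m' ∧
      sq x m y m'' ∈ D := by
    intro l hl
    obtain ⟨⟨S, hS, e, he, hle⟩, hlx, hly⟩ := (hmL l).1 hl
    have hS' := hS
    obtain ⟨hSD, m, m', m'', d1, d2, hmm, rfl, hSm⟩ := (hmD' S).1 hS |>.imp_right (hPr S).1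
    have hl' : l = m ∨ l = m' := by
      simp only [sq, mem_insert, mem_singleton] at he
      rcases he with rfl | rfl | rfl | rfl <;> rw [Sym2.mem_iff] at hle <;> tauto
    rcases hl' with rfl | rfl
    · exact ⟨m', d1, hS', l, m', m'', Or.inl ⟨rfl, rfl⟩, d2, hmm.symm, hSm⟩
    · obtain ⟨d3, e3⟩ := Clus_sq_leaf d1
      exact ⟨m, d3, by rw [← e3]; exact hS', m, l, m'', Or.inr ⟨rfl, rfl⟩, d2, hmm.symm, hSm⟩
  have hQ' : sq x a y b ∈ D' := (hmD' _).2 ⟨hQ, (hPr _).2 ⟨a, b, c, dQ, dR, hbc, rfl, hR⟩⟩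
  have hedge : ∀ l ∈ L, s(x, l) ∈ (Clu.k2 x y L).edges ∧ s(y, l) ∈ (Clu.k2 x y L).edges := by
    intro l hl
    constructor
    · exact mem_union_left _ (mem_image_of_mem _ hl)
    · exact mem_union_right _ (mem_image_of_mem _ hl)
  refine ⟨D', filter_subset _ _, hQ', ⟨dQ.2.1, ?_, ?_, ?_⟩, ?_, ?_, ?_⟩
  · intro h
    exact ((hmL x).1 h).2.1 rfl
  · intro h
    exact ((hmL y).1 h).2.2 rfl
  · obtain ⟨h1, h2⟩ := leafL a b dQ hQ'
    exact one_lt_card.2 ⟨a, h1, b, h2, dQ.2.2.2.2.1⟩
  · intro S hS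
    have hS' := hS
    obtain ⟨hSD, m, m', m'', d1, d2, hmm, rfl, hSm⟩ := (hmD' S).1 hS |>.imp_right (hPr S).1
    obtain ⟨h1, h2⟩ := leafL m m' d1 hS'
    intro e he
    simp only [sq, mem_insert, mem_singleton] at he
    rcases he with rfl | rfl | rfl | rfl
    · exact (hedge m h1).1
    · rw [Sym2.eq_swap]; exact (hedge m h1).2
    · exact (hedge m' h2).2
    · rw [Sym2.eq_swap]; exact (hedge m' h2).1
  · intro e he
    rw [mem_biUnion]
    have he' : (∃ l ∈ L, s(x, l) = e) ∨ (∃ l ∈ L, s(y, l) = e) := by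
      simpa [Clu.edges] using he
    rcases he' with ⟨l, hl, rfl⟩ | ⟨l, hl, rfl⟩
    · obtain ⟨l', d, hS, -⟩ := ofL l hl
      exact ⟨_, hS, by simp [sq]⟩
    · obtain ⟨l', d, hS, -⟩ := ofL l hl
      exact ⟨_, hS, by rw [Sym2.eq_swap]; simp [sq]⟩
  · intro T hT hTn e heT heK
    have he' : (∃ l ∈ L, s(x, l) = e) ∨ (∃ l ∈ L, s(y, l) = e) := by
      simpa [Clu.edges] using heK
    rcases he' with ⟨l, hl, rfl⟩ | ⟨l, hl, rfl⟩
    · obtain ⟨l', d, hS, hP⟩ := ofL l hl
      refine Clus_core hD hc hT d ((hmD' _).1 hS).1 (fun h => hTn (by rw [h]; exact hS)) ?_ heT hP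
      intro m dm hm h
      apply hTn
      rw [hmD']
      exact ⟨hT, (hPr T).2 ⟨l, m, l', dm, d, hm, h, ((hmD' _).1 hS).1⟩⟩
    · obtain ⟨l', d, hS, m, m', m'', hm, d2, hmm, hSm⟩ := ofL l hl
      obtain ⟨d', e'⟩ := Clus_sq_cen d
      obtain ⟨d2', e2'⟩ := Clus_sq_cen d2
      have hSD := ((hmD' _).1 hS).1
      refine Clus_core hD hc hT d' (by rw [← e']; exact hSD) (fun h => hTn (by rw [h, ← e']; exact hS)) ?_ heT
        ⟨m, m', m'', hm, d2', hmm, by rw [← e2']; exact hSm⟩
      intro k dk hk h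
      obtain ⟨dk', ek'⟩ := Clus_sq_cen dk
      apply hTn
      rw [hmD']
      exact ⟨hT, (hPr T).2 ⟨l, k, l', dk', d, hk, by rw [h, ek'], hSD⟩⟩

/-- case 3 -/
lemma case3Y {D : Finset (Finset (Sym2 V))} {a b c d : V} (hd : Dist4 a b c d) (hQ : sq a b c d ∈ D)
    (h : ∀ R ∈ D, R ≠ sq a b c d → ∀ e ∈ R, e ∉ sq a b c d) :
    StepY D (sq a b c d) (Clu.k2 a c {b, d}) := by
  obtain ⟨h1, h2, h3, h4, h5, h6⟩ := hd
  have hed : (Clu.k2 a c {b, d}).edges = sq a b c d := by
    ext e
    have e1 : s(b, c) = s(c, b) := Sym2.eq_swap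
    have e2 : s(d, a) = s(a, d) := Sym2.eq_swap
    simp only [Clu.edges, sq, mem_union, mem_image, mem_insert, mem_singleton, e1, e2]
    constructor
    · rintro (⟨l, rfl | rfl, rfl⟩ | ⟨l, rfl | rfl, rfl⟩) <;> simp
    · rintro (rfl | rfl | rfl | rfl)
      · exact Or.inl ⟨b, Or.inl rfl, rfl⟩
      · exact Or.inr ⟨b, Or.inl rfl, rfl⟩
      · exact Or.inr ⟨d, Or.inr rfl, rfl⟩
      · exact Or.inl ⟨d, Or.inr rfl, rfl⟩
  refine ⟨{sq a b c d}, by simpa using hQ, mem_singleton_self _,
    ⟨h2, by simp [h1, h3], by simp [h4.symm, h6], ?_⟩, ?_, ?_, ?_⟩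
  · rw [card_pair h5]
  · intro S hS
    rw [mem_singleton] at hS
    rw [hS, hed]
  · rw [hed]
    intro e he
    rw [mem_biUnion]
    exact ⟨_, mem_singleton_self _, he⟩
  · intro T hT hTn e he
    rw [hed]
    exact h T hT (fun hh => hTn (by rw [hh]; exact mem_singleton_self _)) e he


end Pool.Agent.TFC

end
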