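import Pool.Agent.PFM.M07
import Pool.Agent.PFM.M09

section -- file PF4/XE

/-!
From the staged pool and the minimal blocking family to the worlds at the clusters.
-/

set_option autoImplicit false

namespace Pool.Agent.PF4.XF

open Finset Pool.Agent.TFC Pool.Agent.PF4

theorem Hs.isSq {T : Finset ℕ} {Z : Finset (Sym2 ℕ)} (h : Hs T Z) : IsSq Z := by
  obtain ⟨a, b, c, d, h1, h2, _⟩ := h
  exact ⟨a, b, c, d, h1, h2⟩

/-- in a 2-matching, all edges at a vertex of a square are edges of the square -/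
theorem sq_closed {L Z : Finset (Sym2 ℕ)} (hL : M2 L) (hZ : IsSq Z) (hs : Z ⊆ L) {e f : Sym2 ℕ} {y : ℕ}
    (he : e ∈ Z) (hy : y ∈ e) (hf : f ∈ L) (hyf : y ∈ f) : f ∈ Z := by
  obtain ⟨a, b, c, d, hd, rfl⟩ := hZ
  have hok : SqOK (a, b, c, d) := hd
  obtain ⟨u, rfl⟩ := hy
  obtain ⟨w, rfl⟩ := hyf
  have he' : s(y, u) ∈ sqs (a, b, c, d) := he
  obtain ⟨v, hv, h1⟩ := sq_other hok he'
  have h1' : s(y, v) ∈ TFC.sq a b c d := h1
  rcases nbr_two (hL.le y) (hs he) (hs h1') (Ne.symm hv) hf with h | h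
  · rw [h]; exact he
  · rw [h]; exact h1'

theorem dg_union {O K : Finset (Sym2 ℕ)} (h : Disjoint O K) (v : ℕ) : dg (O ∪ K) v = dg O v + dg K v := by
  unfold dg
  rw [Finset.filter_union, Finset.card_union_of_disjoint (Finset.disjoint_filter_filter h)]

theorem dg_real {X : XD} (hX : X.OK) {L : Finset (Sym2 ℕ)} (hL : L ⊆ X.E) {v : ℕ} (hv : X.n ≤ v) :
    dg L v = 0 := by
  rw [dg, Finset.card_eq_zero, Finset.filter_eq_empty_iff]
  intro e he hve
  have := hX.lt e (hL he) v hve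
  omega

theorem dg_off {X : XD} (hX : X.OK) {L : Finset (Sym2 ℕ)} (hL : L ⊆ X.E2) {v : ℕ} (hv : v ∉ X.V2) :
    dg L v = 0 := by
  rw [dg, Finset.card_eq_zero, Finset.filter_eq_empty_iff]
  intro e he hve
  exact hv (hX.ev e (hL he) v hve)

section
variable {X : XD} {P : ℕ → Finset (Sym2 ℕ) → Prop} {D : Finset (Finset (Sym2 ℕ))} {j m : ℕ}

/-- a fitting completion makes a cover -/
theorem fit_union (hX : X.OK) {O K : Finset (Sym2 ℕ)} (hO : M2 O) (hOE : O ⊆ X.E) (hK : M2 K) (hKE : K ⊆ X.E)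
    (hd : Disjoint O K) {k : ℕ → ℤ} (hk : FitK X O k) (he : dv K = k) : M2 (O ∪ K) ∧ Cv X (O ∪ K) := by
  constructor
  · constructor
    · intro e he'
      rcases Finset.mem_union.1 he' with h | h
      · exact hO.nl e h
      · exact hK.nl e h
    · intro v
      rw [dg_union hd]
      by_cases hv : v < X.n
      · have h1 := congrFun he v
        rw [dv_apply] at h1
        by_cases hT : v ∈ X.T
        · have h2 := hk.t v hT
          rw [dv_apply] at h2
          omega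
        · have h2 := (hk.f v hv hT).2
          rw [dv_apply] at h2
          omega
      · rw [dg_real hX hOE (by omega), dg_real hX hKE (by omega)]
        omega
  · intro v hv
    rw [dg_union hd]
    have h1 := congrFun he v
    have h2 := hk.t v hv
    rw [dv_apply] at h1 h2
    omega

/-- **the world at a union of clusters** -/
theorem world_of (hX : X.OK) (hP : XP X P) (hD : Blk X P D j m) {C ER PL : Finset (Sym2 ℕ)}
    (hC : ∀ Z ∈ D, Z ⊆ C ∨ Disjoint Z C) (hCn : C ⊆ X.En) (hER : ER ⊆ X.En)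
    (hPL : ∀ e ∈ PL, ∀ Z ∈ D, e ∉ Z) (hm : 2 ≤ m) :
    World X.n X.T X.V2 C ER PL (D.filter fun Z => Z ⊆ C) (m - 2) (Av X P D (j + 1) (C ∪ ER)) := by
  refine ⟨?_, ?_, ?_, ?_, ?_, ?_, ?_, ?_, ?_⟩
  · rintro t k ⟨O, h1, h2, h3, h4⟩
    exact ⟨O, hP.mono _ _ h1, h2, h3, h4⟩
  · rintro t k ⟨O, h1, h2, h3, h4⟩ v hv
    have h5 := (hP.m2 _ _ h1).1.le v
    by_cases hT : v ∈ X.T
    · have h6 := h4.t v hT
      rw [dv_apply] at h6
      omega
    · have h6 := h4.f v hv hT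
      rw [dv_apply] at h6
      omega
  · rintro t k ⟨O, h1, h2, h3, h4⟩ v hv hv2
    exact h4.off v hv hv2
  · rintro t k ⟨O, h1, h2, h3, h4⟩
    exact h4.tok
  · rintro t k ⟨O, h1, h2, h3, h4⟩ v hv
    exact h4.up v hv
  · rintro t k ⟨O, h1, h2, h3, h4⟩
    exact h4.par
  · rintro t k k' ⟨O, h1, h2, h3, h4⟩ g1 g2 g3 g4 g5
    refine ⟨O, h1, h2, h3, ⟨?_, ?_, ?_, g3, g4, g5⟩⟩
    · intro v hv
      rw [g1 v (hX.tn v hv) hv]
      exact h4.t v hv
    · intro v hv hT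
      exact ⟨(g2 v hv hT).1, (g2 v hv hT).2.trans (h4.f v hv hT).2⟩
    · intro v hv hv2
      have h5 := h4.off v hv hv2
      by_cases hT : v ∈ X.T
      · rw [g1 v hv hT]; exact h5
      · have := g2 v hv hT
        omega
  · rintro t k k' i ε ⟨O, h1, h2, h3, h4⟩ ⟨O', h1', h2', h3', h4'⟩ hi hε h
    obtain ⟨L, k'', g1, g2, g3, g4, g5⟩ := hP.ex _ O O' k k' h1 h1' h4 h4' i ε hi hε h
    refine ⟨k'', ⟨L, g1, ?_, ?_, g2⟩, g5⟩
    · exact Finset.disjoint_of_subset_left g3 (Finset.disjoint_union_left.2 ⟨h2, h2'⟩)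
    · intro Z hZ hs
      rcases g4 Z (hD.hs Z hZ).1.isSq hs with h | h
      · exact h3 Z hZ h
      · exact h3' Z hZ h
  · rintro t ht k ⟨O, h1, h2, h3, h4⟩ K hK hKm hKD hKa he
    have hKn : K ⊆ X.En := hK.trans (Finset.union_subset hCn hER)
    have hKE : K ⊆ X.E := hKn.trans (hX.e1.trans hX.e2)
    have hdis : Disjoint O K := Finset.disjoint_of_subset_right hK h2
    obtain ⟨g1, g2⟩ := fit_union hX (hP.m2 _ _ h1).1 (hP.m2 _ _ h1).2 hKm hKE hdis h4 he
    have g3 := hP.add _ O K h1 (hKn.trans hX.e1) g1 (by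
      intro Z _ hs
      by_cases h : Z ⊆ O
      · exact Or.inl h
      · right
        obtain ⟨e, he1, he2⟩ := Finset.not_subset.1 h
        rcases Finset.mem_union.1 (hs he1) with h5 | h5
        · exact absurd h5 he2
        · exact ⟨e, he1, hKn h5⟩)
    obtain ⟨Z, hZ, hs⟩ := hD.blk (j + 1 + t + 1) (by omega) _ g3 g2
    rcases hC Z hZ with h | h
    · apply hKD Z (Finset.mem_filter.2 ⟨hZ, h⟩)
      intro e he1
      rcases Finset.mem_union.1 (hs he1) with h5 | h5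
      · exact absurd (Finset.mem_union_left _ (h he1)) (Finset.disjoint_left.1 h2 h5)
      · exact h5
    · obtain ⟨e, he1, he2⟩ := Finset.not_subset.1 (h3 Z hZ)
      have h5 : e ∈ K := by
        rcases Finset.mem_union.1 (hs he1) with h5 | h5
        · exact absurd h5 he2
        · exact h5
      have h6 : e ∉ C := Finset.disjoint_left.1 h he1
      rcases hKa e h5 h6 with h7 | ⟨y, hy, h7⟩
      · exact hPL e h7 Z hZ he1
      · rw [dg, Nat.succ_le_iff, Finset.card_pos] at h7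
        obtain ⟨f, hf⟩ := h7
        obtain ⟨hf1, hf2⟩ := Finset.mem_filter.1 hf
        obtain ⟨hf3, hf4⟩ := Finset.mem_inter.1 hf1
        have h8 := sq_closed g1 (hD.hs Z hZ).1.isSq hs he1 hy (Finset.mem_union_right _ hf3) hf2
        exact Finset.disjoint_left.1 h h8 hf4

/-- availability of the outer part of a member of the pool -/
theorem av_of (hP : XP X P) {C : Finset (Sym2 ℕ)} (hC : C ⊆ X.E2) {L : Finset (Sym2 ℕ)} (hL : P j L)
    (hD : ∀ Z ∈ D, Z ⊆ L → ¬ Disjoint Z C) {k : ℕ → ℤ} (hk : FitK X (L \ C) k) :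
    Av X P D (j + 1) C 0 k := by
  refine ⟨L \ C, hP.del _ _ _ hL hC, Finset.sdiff_disjoint, ?_, hk⟩
  intro Z hZ hs
  exact hD Z hZ (hs.trans Finset.sdiff_subset) (Finset.disjoint_of_subset_left hs Finset.sdiff_disjoint)

theorem dg_split (L C : Finset (Sym2 ℕ)) (v : ℕ) : dg L v = dg (L \ C) v + dg (L ∩ C) v := by
  rw [← dg_union (Finset.disjoint_sdiff_inter L C), Finset.sdiff_union_inter]

theorem sum_dv {n : ℕ} {z : Finset (Sym2 ℕ)} (hn : NoLoop z) (hr : ∀ e ∈ z, ∀ v ∈ e, v < n) :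
    ∑ v ∈ Finset.range (n + 1), dv z v = 2 * (#z : ℤ) := by
  have h0 : dg z n = 0 := by
    rw [dg, Finset.card_eq_zero, Finset.filter_eq_empty_iff]
    intro e he hve
    have := hr e he n hve
    omega
  have h1 := sum_dg hn hr
  rw [Finset.sum_range_succ, dv_apply, h0]
  have : ∑ v ∈ Finset.range n, dv z v = ((∑ v ∈ Finset.range n, dg z v : ℕ) : ℤ) := by
    push_cast
    rfl
  rw [this, h1]
  push_cast
  ring

/-- the demand vector of a cover -/
theorem fit_cover (hX : X.OK) {L C : Finset (Sym2 ℕ)} (hL : M2 L) (hE : L ⊆ X.E) (hc : Cv X L)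
    (hC : C ⊆ X.E2) : FitK X (L \ C) (dv (L ∩ C)) := by
  have hi : L ∩ C ⊆ X.E := Finset.inter_subset_left.trans hE
  refine ⟨?_, ?_, ?_, ?_, ?_, ?_⟩
  · intro v hv
    have h1 := hc v hv
    have h2 := dg_split L C v
    rw [dv_apply, dv_apply]
    omega
  · intro v _ _
    have h1 := hL.le v
    have h2 := dg_split L C v
    rw [dv_apply, dv_apply]
    omega
  · intro v _ hv
    rw [dv_apply, dg_off hX (Finset.inter_subset_right.trans hC) hv]
    rfl
  · left
    rw [dv_apply, dg_real hX hi le_rfl]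
    rfl
  · rw [sum_dv (hL.mono Finset.inter_subset_left).nl (fun e he v hv => hX.lt e (hi he) v hv)]
    exact ⟨_, two_mul _⟩
  · intro v hv
    rw [dv_apply, dg_real hX hi (by omega)]
    rfl

/-- near cover at `w` -/
structure NC (X : XD) (w : ℕ) (M : Finset (Sym2 ℕ)) : Prop where
  m2 : M2 M
  sub : M ⊆ X.E
  one : dg M w = 1
  two : ∀ v ∈ X.T, v ≠ w → dg M v = 2

/-- the demand vector of a near cover -/
theorem fit_near (hX : X.OK) {M C : Finset (Sym2 ℕ)} {w : ℕ} (hM : NC X w M) (hw : w ∈ X.T) (hw2 : w ∈ X.V2)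
    (hC : C ⊆ X.E2) : FitK X (M \ C) (dv (M ∩ C) + ev w + ev X.n) := by
  have hi : M ∩ C ⊆ X.E := Finset.inter_subset_left.trans hM.sub
  have hwn := hX.tn w hw
  refine ⟨?_, ?_, ?_, ?_, ?_, ?_⟩
  · intro v hv
    have h2 := dg_split M C v
    have hvn := hX.tn v hv
    rw [Pi.add_apply, Pi.add_apply, ev_apply, ev_apply, dv_apply, dv_apply, if_neg (show v ≠ X.n by omega)]
    by_cases h : v = w
    · subst h
      have := hM.one
      rw [if_pos rfl]
      omega
    · have := hM.two v hv h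
      rw [if_neg h]
      omega
  · intro v hv hT
    have h1 := hM.m2.le v
    have h2 := dg_split M C v
    have h3 : v ≠ w := fun h => hT (h ▸ hw)
    rw [Pi.add_apply, Pi.add_apply, ev_apply, ev_apply, dv_apply, dv_apply, if_neg (show v ≠ X.n by omega),
      if_neg h3]
    omega
  · intro v hv hv2
    have h3 : v ≠ w := fun h => hv2 (h ▸ hw2)
    rw [Pi.add_apply, Pi.add_apply, ev_apply, ev_apply, dv_apply,
      dg_off hX (Finset.inter_subset_right.trans hC) hv2, if_neg (show v ≠ X.n by omega), if_neg h3]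
    rfl
  · right
    rw [Pi.add_apply, Pi.add_apply, ev_apply, ev_apply, dv_apply, dg_real hX hi le_rfl, if_pos rfl,
      if_neg (by omega)]
    rfl
  · simp only [Pi.add_apply]
    rw [Finset.sum_add_distrib, Finset.sum_add_distrib,
      sum_dv (hM.m2.mono Finset.inter_subset_left).nl (fun e he v hv => hX.lt e (hi he) v hv)]
    simp only [ev_apply]
    rw [Finset.sum_ite_eq', Finset.sum_ite_eq', if_pos (Finset.mem_range.2 (by omega)),
      if_pos (Finset.mem_range.2 (by omega))]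
    exact ⟨#(M ∩ C) + 1, by ring⟩
  · intro v hv
    rw [Pi.add_apply, Pi.add_apply, ev_apply, ev_apply, dv_apply, dg_real hX hi (by omega),
      if_neg (by omega), if_neg (by omega)]
    rfl

end

end Pool.Agent.PF4.XF

end

section -- file PF4/XW

/-!
From a world with stages to a world without stages: a closed stage is a jump set.
-/

set_option autoImplicit false

namespace Pool.Agent.PF4.XF

open Finset Pool.Agent.TFC Pool.Agent.PF4

/-- **one world at one cluster (or at a union of clusters), without stages**: `J` is a jump set -/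
structure WJ (n : ℕ) (T V2 : Finset ℕ) (C ER PL : Finset (Sym2 ℕ)) (DC : Finset (Finset (Sym2 ℕ)))
    (J : (ℕ → ℤ) → Prop) : Prop where
  jb : XC.JB J
  rg : ∀ k, J k → ∀ v < n, 0 ≤ k v ∧ k v ≤ 2
  off : ∀ k, J k → ∀ v < n, v ∉ V2 → k v = 0
  tok : ∀ k, J k → k n = 0 ∨ k n = 1
  up : ∀ k, J k → ∀ v, n < v → k v = 0
  par : ∀ k, J k → Even (∑ v ∈ Finset.range (n + 1), k v)
  /-- at a free vertex the demand may be lowered, the parity token is changed accordingly -/
  dn : ∀ k k', J k → (∀ v < n, v ∈ T → k' v = k v) → (∀ v < n, v ∉ T → 0 ≤ k' v ∧ k' v ≤ k v) →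
    (k' n = 0 ∨ k' n = 1) → Even (∑ v ∈ Finset.range (n + 1), k' v) → (∀ v, n < v → k' v = 0) → J k'
  /-- there is no completion without square of `D` -/
  blk : ∀ k, J k → ∀ K ⊆ C ∪ ER, M2 K → (∀ Z ∈ DC, ¬ Z ⊆ K) →
    (∀ e ∈ K, e ∉ C → e ∈ PL ∨ ∃ y ∈ e, 1 ≤ dg (K ∩ C) y) → dv K ≠ k

theorem World.up' {n : ℕ} {T V2 : Finset ℕ} {C ER PL : Finset (Sym2 ℕ)} {DC : Finset (Finset (Sym2 ℕ))}
    {m : ℕ} {H : ℕ → (ℕ → ℤ) → Prop} (h : World n T V2 C ER PL DC m H) {s t : ℕ} (hst : s ≤ t)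
    {k : ℕ → ℤ} (hk : H s k) : H t k := by
  induction t, hst using Nat.le_induction with
  | base => exact hk
  | succ t _ ih => exact h.mono _ _ ih

/-- **a closed stage** -/
theorem World.toWJ {n : ℕ} {T V2 : Finset ℕ} {C ER PL : Finset (Sym2 ℕ)} {DC : Finset (Finset (Sym2 ℕ))}
    {m : ℕ} {H : ℕ → (ℕ → ℤ) → Prop} (h : World n T V2 C ER PL DC m H) (hV : ∀ v ∈ V2, v < n)
    (hm : 3 ^ (#V2 + 1) ≤ m) :
    ∃ t ≤ m, (∀ k, H 0 k → H t k) ∧ WJ n T V2 C ER PL DC (H t) := by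
  have G : LD.Gr (fun i => i ∈ V2 ∨ i = n) H :=
    ⟨h.mono, fun k x y i ε hi hx hy hε h1 => h.ex k x y i ε hx hy hi hε h1⟩
  have hn : n ∉ V2 := fun hc => lt_irrefl _ (hV n hc)
  have hc : #(insert n V2) = #V2 + 1 := Finset.card_insert_of_notMem hn
  obtain ⟨t, _, ht, hJ⟩ := XC.closed_stage G (insert n V2)
    (by
      intro v hv
      rcases Finset.mem_insert.1 hv with h1 | h1
      · exact Or.inr h1
      · exact Or.inl h1)
    (by
      intro k z hz v hv
      rw [Finset.mem_insert, not_or] at hv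
      rcases Nat.lt_trichotomy v n with h1 | h1 | h1
      · exact h.off k z hz v h1 hv.2
      · exact absurd h1 hv.1
      · exact h.up k z hz v h1)
    (by
      intro k z hz v hv
      rcases Finset.mem_insert.1 hv with h1 | h1
      · subst h1
        have := h.tok k z hz
        omega
      · exact h.rg k z hz v (hV v h1)) 0
  rw [hc] at ht
  have htm : t ≤ m := by omega
  refine ⟨t, htm, fun k hk => h.up' (Nat.zero_le t) hk, ?_⟩
  exact ⟨hJ, h.rg t, h.off t, h.tok t, h.up t, h.par t, h.dn t, h.blk t htm⟩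

end Pool.Agent.PF4.XF

end

section -- file PF4/XOW

/-!
The interface between the algorithm (pool, minimal blocking family) and the theorem on two conflicting squares: everything
that is known in one world (`OW`), and the statement of the theorem for two worlds (`XfStatement`).
-/

set_option autoImplicit false

namespace Pool.Agent.PF4.XF

open Finset Pool.Agent.TFC Pool.Agent.PF4

/-- reachable from `S` in at most `k` steps -/
def Rch (E : Finset (Sym2 ℕ)) (S : Finset ℕ) : ℕ → ℕ → Prop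
  | 0, v => v ∈ S
  | k + 1, v => Rch E S k v ∨ ∃ u, Rch E S k u ∧ s(u, v) ∈ E

/-- **everything that is known in one world**: the pool `P`, the minimal blocking family `D` (minimal at stage `j`, blocking
until stage `j + m`), the near covers `M w` of the vertices `w` of `S` (the corners of the two squares) -/
structure OW (X : XD) (P : ℕ → Finset (Sym2 ℕ) → Prop) (D : Finset (Finset (Sym2 ℕ))) (j m : ℕ)
    (S : Finset ℕ) (M : ℕ → Finset (Sym2 ℕ)) : Prop where
  ok : X.OK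
  xp : XP X P
  blk : Blk X P D j m
  mb : 3 ^ (#X.V2 + 1) + 20 ≤ m
  /-- all edges with an end at distance at most 4 from `S` are near edges -/
  rch : ∀ v, Rch X.E S 4 v → ∀ e ∈ X.E, v ∈ e → e ∈ X.En
  sv : ∀ v ∈ S, v ∈ X.V2
  nc : ∀ w ∈ S, w ∈ X.T → NC X w (M w) ∧ P j (M w) ∧ ∀ Z, Hs X.T Z → ¬ Z ⊆ M w

/-- the corners of a square -/
def cr (Q : Sq4) : Finset ℕ := {Q.1, Q.2.1, Q.2.2.1, Q.2.2.2}

/-- **the theorem on two conflicting squares** -/
def XfStatement : Prop :=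
  ∀ (X₁ X₂ : XD) (P₁ P₂ : ℕ → Finset (Sym2 ℕ) → Prop) (D₁ D₂ : Finset (Finset (Sym2 ℕ))) (j₁ m₁ j₂ m₂ : ℕ)
    (M : ℕ → Finset (Sym2 ℕ)) (Q R : Sq4), SqOK Q → SqOK R → #(sqs Q ∩ sqs R) = 1 →
    OW X₁ P₁ D₁ j₁ m₁ (cr Q ∪ cr R) M → OW X₂ P₂ D₂ j₂ m₂ (cr Q ∪ cr R) M →
    X₁.n = X₂.n → X₁.T = X₂.T → sqs Q ∈ D₁ → sqs R ∈ D₂ → sqs R ⊆ X₁.E → sqs Q ⊆ X₂.E → False

section
variable {X : XD} {P : ℕ → Finset (Sym2 ℕ) → Prop} {D : Finset (Finset (Sym2 ℕ))} {j m : ℕ} {S : Finset ℕ}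
  {M : ℕ → Finset (Sym2 ℕ)}

theorem OW.cE (h : OW X P D j m S M) {C : Finset (Sym2 ℕ)} (hC : C ⊆ X.En) : C ⊆ X.E2 := hC.trans h.ok.e1

/-- **the world at a union of clusters**: a jump set `J` which contains the vectors of the covers whose squares of `D` meet
`C ∪ ER`, and the vectors of the near covers -/
theorem OW.world (h : OW X P D j m S M) {C ER PL : Finset (Sym2 ℕ)} (hC : ∀ Z ∈ D, Z ⊆ C ∨ Disjoint Z C)
    (hCn : C ⊆ X.En) (hER : ER ⊆ X.En) (hPL : ∀ e ∈ PL, ∀ Z ∈ D, e ∉ Z) :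
    ∃ J : (ℕ → ℤ) → Prop, WJ X.n X.T X.V2 C ER PL (D.filter fun Z => Z ⊆ C) J ∧
      (∀ L, P j L → Cv X L → (∀ Z ∈ D, Z ⊆ L → ¬ Disjoint Z (C ∪ ER)) → J (dv (L ∩ (C ∪ ER)))) ∧
      (∀ w ∈ S, w ∈ X.T → J (dv (M w ∩ (C ∪ ER)) + ev w + ev X.n)) := by
  have hCE : C ∪ ER ⊆ X.E2 := h.cE (Finset.union_subset hCn hER)
  have hm := h.mb
  obtain ⟨c, hc⟩ : ∃ c, c = 3 ^ (#X.V2 + 1) := ⟨_, rfl⟩
  rw [← hc] at hm
  obtain ⟨t, _, hJ0, hJ⟩ := (world_of h.ok h.xp h.blk hC hCn hER hPL (show 2 ≤ m by omega)).toWJ h.ok.vn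
    (by rw [← hc]; omega)
  refine ⟨_, hJ, ?_, ?_⟩
  · intro L hL hc hD
    exact hJ0 _ (av_of h.xp hCE hL hD (fit_cover h.ok (h.xp.m2 _ _ hL).1 (h.xp.m2 _ _ hL).2 hc hCE))
  · intro w hw hT
    obtain ⟨h1, h2, h3⟩ := h.nc w hw hT
    exact hJ0 _ (av_of h.xp hCE h2 (fun Z hZ hs => absurd hs (h3 Z (h.blk.hs Z hZ).1))
      (fit_near h.ok h1 hT (h.sv w hw) hCE))

end

end Pool.Agent.PF4.XF

end
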