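import Pool.Agent.PFM.M06
import Pool.Agent.PFM.M10

section -- file PF4/XCl

/-!
The clusters of a minimal blocking family.
-/

set_option autoImplicit false

namespace Pool.Agent.PF4.XF

open Finset Pool.Agent.TFC Pool.Agent.PF4

/-- edges of a `K4` cluster -/
theorem mem_k4 {X : Finset ℕ} {a b : ℕ} : s(a, b) ∈ (Clu.k4 X).edges ↔ a ∈ X ∧ b ∈ X ∧ a ≠ b :=
  R4_mem_edges

/-- edges of a `K2` cluster -/
theorem mem_k2 {u v : ℕ} {L : Finset ℕ} {a b : ℕ} : s(a, b) ∈ (Clu.k2 u v L).edges ↔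
    ((a = u ∨ a = v) ∧ b ∈ L) ∨ ((b = u ∨ b = v) ∧ a ∈ L) := by
  simp only [Clu.edges, mem_union, mem_image, Sym2.eq_iff]
  constructor
  · rintro (⟨l, hl, (⟨rfl, rfl⟩ | ⟨rfl, rfl⟩)⟩ | ⟨l, hl, (⟨rfl, rfl⟩ | ⟨rfl, rfl⟩)⟩)
    · exact Or.inl ⟨Or.inl rfl, hl⟩
    · exact Or.inr ⟨Or.inl rfl, hl⟩
    · exact Or.inl ⟨Or.inr rfl, hl⟩
    · exact Or.inr ⟨Or.inr rfl, hl⟩
  · rintro (⟨rfl | rfl, h⟩ | ⟨rfl | rfl, h⟩)
    · exact Or.inl ⟨b, h, Or.inl ⟨rfl, rfl⟩⟩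
    · exact Or.inr ⟨b, h, Or.inl ⟨rfl, rfl⟩⟩
    · exact Or.inl ⟨a, h, Or.inr ⟨rfl, rfl⟩⟩
    · exact Or.inr ⟨a, h, Or.inr ⟨rfl, rfl⟩⟩

theorem valid_nonempty {c : Clu ℕ} (h : c.Valid) : ∃ e, e ∈ c.edges := by
  cases c with
  | k4 X =>
    have h4 : #X = 4 := h
    obtain ⟨a, ha, b, hb, hab⟩ := one_lt_card.1 (by omega : 1 < #X)
    exact ⟨s(a, b), mem_k4.2 ⟨ha, hb, hab⟩⟩
  | k2 u v L =>
    obtain ⟨_, _, _, h4⟩ : u ≠ v ∧ u ∉ L ∧ v ∉ L ∧ 2 ≤ #L := h
    obtain ⟨a, ha⟩ := card_pos.1 (by omega : 0 < #L)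
    exact ⟨s(u, a), mem_k2.2 (Or.inl ⟨Or.inl rfl, ha⟩)⟩

/-- a square in a cluster: the shape of the cluster -/
theorem shape {c : Clu ℕ} (hc : c.Valid) {x y q p : ℕ} (h4 : Dist4 x y q p)
    (hs : TFC.sq x y q p ⊆ c.edges) :
    c = Clu.k4 {x, y, q, p} ∨
    (∃ L, (c = Clu.k2 x q L ∨ c = Clu.k2 q x L) ∧ y ∈ L ∧ p ∈ L ∧ x ∉ L ∧ q ∉ L) ∨
    (∃ L, (c = Clu.k2 y p L ∨ c = Clu.k2 p y L) ∧ x ∈ L ∧ q ∈ L ∧ y ∉ L ∧ p ∉ L) := by
  obtain ⟨xy, xq, xp, yq, yp, qp⟩ := h4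
  have e1 : s(x, y) ∈ c.edges := hs (by simp [TFC.sq])
  have e2 : s(y, q) ∈ c.edges := hs (by simp [TFC.sq])
  have e3 : s(q, p) ∈ c.edges := hs (by simp [TFC.sq])
  have e4 : s(p, x) ∈ c.edges := hs (by simp [TFC.sq])
  cases c with
  | k4 X =>
    left
    rw [mem_k4] at e1 e3
    have h4 : #X = 4 := hc
    have h1 : ({x, y, q, p} : Finset ℕ) ⊆ X := by
      intro v hv
      simp only [mem_insert, mem_singleton] at hv
      rcases hv with rfl | rfl | rfl | rfl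
      · exact e1.1
      · exact e1.2.1
      · exact e3.1
      · exact e3.2.1
    have h2 : #({x, y, q, p} : Finset ℕ) = 4 := by
      rw [card_insert_of_notMem (by simp [xy, xq, xp]), card_insert_of_notMem (by simp [yq, yp]),
        card_insert_of_notMem (by simp [qp]), card_singleton]
    rw [eq_of_subset_of_card_le h1 (by rw [h4, h2])]
  | k2 u v L =>
    right
    obtain ⟨uv, uL, vL, _⟩ : u ≠ v ∧ u ∉ L ∧ v ∉ L ∧ 2 ≤ #L := hc
    rw [mem_k2] at e1 e2 e3 e4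
    have cl : ∀ a, (a = u ∨ a = v) → a ∉ L := by
      rintro a (rfl | rfl)
      · exact uL
      · exact vL
    rcases e1 with ⟨hx, hy⟩ | ⟨hy, hx⟩
    · left
      have hq : q = u ∨ q = v := by
        rcases e2 with ⟨h, _⟩ | ⟨h, _⟩
        · exact absurd hy (cl y h)
        · exact h
      have hp : p ∈ L := by
        rcases e3 with ⟨_, h⟩ | ⟨_, h⟩
        · exact h
        · exact absurd h (cl q hq)
      refine ⟨L, ?_, hy, hp, cl x hx, cl q hq⟩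
      rcases hx with rfl | rfl <;> rcases hq with rfl | rfl
      · exact absurd rfl xq
      · exact Or.inl rfl
      · exact Or.inr rfl
      · exact absurd rfl xq
    · right
      have hp : p = u ∨ p = v := by
        rcases e4 with ⟨h, _⟩ | ⟨h, _⟩
        · exact h
        · exact absurd hx (cl x h)
      have hq : q ∈ L := by
        rcases e3 with ⟨_, h⟩ | ⟨_, h⟩
        · exact absurd h (cl p hp)
        · exact h
      refine ⟨L, ?_, hx, hq, cl y hy, cl p hp⟩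
      rcases hy with rfl | rfl <;> rcases hp with rfl | rfl
      · exact absurd rfl yp
      · exact Or.inl rfl
      · exact Or.inr rfl
      · exact absurd rfl yp

/-- the clusters of a family of squares -/
structure Cls (D : Finset (Finset (Sym2 ℕ))) (CL : List (Clu ℕ)) : Prop where
  val : ∀ c ∈ CL, c.Valid
  dj : CL.Pairwise fun c c' => Disjoint c.edges c'.edges
  sub : ∀ c ∈ CL, c.edges ⊆ D.biUnion id
  cov : ∀ Z ∈ D, ∃ c ∈ CL, Z ⊆ c.edges

/-- **the clusters of a minimal blocking family** -/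
theorem cls_of {X : XD} {P : ℕ → Finset (Sym2 ℕ) → Prop} {D : Finset (Finset (Sym2 ℕ))} {j m : ℕ}
    (hX : X.OK) (hP : XP X P) (hD : Blk X P D j m) (hm : 10 ≤ m) : ∃ CL, Cls D CL := by
  obtain ⟨C, h1, h2, h3, h4⟩ := TFC.clusters D (fun Z hZ => (hD.hs Z hZ).1.isSq) (res hX hP hD hm)
  exact ⟨C, h1, h2, h3, h4⟩

/-- the edges of several clusters -/
def Ucl : List (Clu ℕ) → Finset (Sym2 ℕ)
  | [] => ∅
  | c :: S => c.edges ∪ Ucl S

theorem mem_Ucl {e : Sym2 ℕ} : ∀ {S : List (Clu ℕ)}, e ∈ Ucl S ↔ ∃ c ∈ S, e ∈ c.edges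
  | [] => by simp [Ucl]
  | c :: S => by
    rw [Ucl, mem_union, mem_Ucl]
    simp

section
variable {D : Finset (Finset (Sym2 ℕ))} {CL : List (Clu ℕ)}

/-- clusters with a common edge are equal -/
theorem Cls.eq (h : Cls D CL) {c c' : Clu ℕ} (hc : c ∈ CL) (hc' : c' ∈ CL) {e : Sym2 ℕ}
    (he : e ∈ c.edges) (he' : e ∈ c'.edges) : c = c' := by
  by_contra hne
  have : Std.Symm (fun c c' : Clu ℕ => Disjoint c.edges c'.edges) := ⟨fun _ _ h => h.symm⟩
  have h1 := h.dj.forall hc hc' hne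
  exact Finset.disjoint_left.1 h1 he he'

/-- a square of the family and a cluster -/
theorem Cls.whole (h : Cls D CL) {c : Clu ℕ} (hc : c ∈ CL) {Z : Finset (Sym2 ℕ)} (hZ : Z ∈ D) :
    Z ⊆ c.edges ∨ Disjoint Z c.edges := by
  obtain ⟨c', hc', hs⟩ := h.cov Z hZ
  by_cases he : c = c'
  · subst he; exact Or.inl hs
  · right
    rw [Finset.disjoint_left]
    intro e h1 h2
    exact he (h.eq hc hc' h2 (hs h1))

/-- a square of the family and a union of clusters -/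
theorem Cls.wholeU (h : Cls D CL) {S : List (Clu ℕ)} (hS : ∀ c ∈ S, c ∈ CL) {Z : Finset (Sym2 ℕ)} (hZ : Z ∈ D) :
    Z ⊆ Ucl S ∨ Disjoint Z (Ucl S) := by
  obtain ⟨c', hc', hs⟩ := h.cov Z hZ
  by_cases he : c' ∈ S
  · left
    intro e h1
    exact mem_Ucl.2 ⟨c', he, hs h1⟩
  · right
    rw [Finset.disjoint_left]
    intro e h1 h2
    obtain ⟨c, hc, h3⟩ := mem_Ucl.1 h2
    have := h.eq (hS c hc) hc' h3 (hs h1)
    subst this
    exact he hc

/-- an edge is in a cluster iff it is in a square of the family -/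
theorem Cls.edge (h : Cls D CL) {e : Sym2 ℕ} : (∃ c ∈ CL, e ∈ c.edges) ↔ ∃ Z ∈ D, e ∈ Z := by
  constructor
  · rintro ⟨c, hc, he⟩
    have := h.sub c hc he
    rw [mem_biUnion] at this
    exact this
  · rintro ⟨Z, hZ, he⟩
    obtain ⟨c, hc, hs⟩ := h.cov Z hZ
    exact ⟨c, hc, hs he⟩

/-- every edge of a cluster lies in a square of the family inside the cluster -/
theorem Cls.edge_sq (h : Cls D CL) {c : Clu ℕ} (hc : c ∈ CL) {f : Sym2 ℕ} (hf : f ∈ c.edges) :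
    ∃ Z ∈ D, f ∈ Z ∧ Z ⊆ c.edges := by
  obtain ⟨Z, hZ, hfZ⟩ := h.edge.1 ⟨c, hc, hf⟩
  refine ⟨Z, hZ, hfZ, (h.whole hc hZ).resolve_right fun hd => ?_⟩
  exact Finset.disjoint_left.1 hd hfZ hf

/-- two vertices of a cluster: all edges of the cluster have an end which is the first vertex or adjacent to it -/
theorem near_edge {c : Clu ℕ} (hc : c.Valid) {e f : Sym2 ℕ} (he : e ∈ c.edges) {a : ℕ} (ha : a ∈ e)
    (hf : f ∈ c.edges) : ∃ w ∈ f, w = a ∨ s(a, w) ∈ c.edges := by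
  obtain ⟨b, rfl⟩ := ha
  induction f using Sym2.ind with
  | _ u v =>
  cases c with
  | k4 X =>
    rw [mem_k4] at he hf
    by_cases h : u = a
    · exact ⟨u, by simp, Or.inl h⟩
    · exact ⟨u, by simp, Or.inr (mem_k4.2 ⟨he.1, hf.1, fun h' => h h'.symm⟩)⟩
  | k2 x y L =>
    obtain ⟨xy, xL, yL, _⟩ : x ≠ y ∧ x ∉ L ∧ y ∉ L ∧ 2 ≤ #L := hc
    rw [mem_k2] at he hf
    rcases he with ⟨ha, hb⟩ | ⟨hb, ha⟩
    · -- `a` is a centre
      rcases hf with ⟨_, hv⟩ | ⟨_, hu⟩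
      · exact ⟨v, by simp, Or.inr (mem_k2.2 (Or.inl ⟨ha, hv⟩))⟩
      · exact ⟨u, by simp, Or.inr (mem_k2.2 (Or.inl ⟨ha, hu⟩))⟩
    · -- `a` is a leaf
      rcases hf with ⟨hu, _⟩ | ⟨hv, _⟩
      · exact ⟨u, by simp, Or.inr (mem_k2.2 (Or.inr ⟨hu, ha⟩))⟩
      · exact ⟨v, by simp, Or.inr (mem_k2.2 (Or.inr ⟨hv, ha⟩))⟩

theorem Rch.mono {E : Finset (Sym2 ℕ)} {S : Finset ℕ} {r s : ℕ} (h : r ≤ s) {v : ℕ} (hv : Rch E S r v) :
    Rch E S s v := by
  induction s, h using Nat.le_induction with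
  | base => exact hv
  | succ s _ ih => exact Or.inl ih

theorem Rch.step {E : Finset (Sym2 ℕ)} {S : Finset ℕ} {r : ℕ} {u v : ℕ} (hu : Rch E S r u) (h : s(u, v) ∈ E) :
    Rch E S (r + 1) v := Or.inr ⟨u, hu, h⟩

end

section
variable {X : XD} {P : ℕ → Finset (Sym2 ℕ) → Prop} {D : Finset (Finset (Sym2 ℕ))} {j m : ℕ} {S : Finset ℕ}
  {M : ℕ → Finset (Sym2 ℕ)} {CL : List (Clu ℕ)}

theorem OW.ten (h : OW X P D j m S M) : 10 ≤ m :=
  le_trans (by norm_num) (le_trans (Nat.le_add_left 20 _) h.mb)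

/-- two squares of the family do not share exactly one edge -/
theorem OW.res (h : OW X P D j m S M) : ∀ Z ∈ D, ∀ Z' ∈ D, Z ≠ Z' → #(Z ∩ Z') ≠ 1 :=
  XF.res h.ok h.xp h.blk (h.ten)

/-- the clusters -/
theorem OW.cls (h : OW X P D j m S M) : ∃ CL, Cls D CL :=
  cls_of h.ok h.xp h.blk (h.ten)

theorem OW.sqE (h : OW X P D j m S M) {Z : Finset (Sym2 ℕ)} (hZ : Z ∈ D) : Z ⊆ X.E :=
  (h.blk.hs Z hZ).2.trans h.ok.e2

theorem OW.isq (h : OW X P D j m S M) {Z : Finset (Sym2 ℕ)} (hZ : Z ∈ D) : IsSq Z :=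
  (h.blk.hs Z hZ).1.isSq

theorem OW.clE (h : OW X P D j m S M) (hc : Cls D CL) {c : Clu ℕ} (hcC : c ∈ CL) : c.edges ⊆ X.E := by
  intro f hf
  have := hc.sub c hcC hf
  rw [mem_biUnion] at this
  obtain ⟨Z, hZ, hfZ⟩ := this
  exact h.sqE hZ hfZ

/-- a cluster with a vertex near `S` is in `En` -/
theorem OW.near (h : OW X P D j m S M) (hc : Cls D CL) {c : Clu ℕ} (hcC : c ∈ CL) {e : Sym2 ℕ}
    (he : e ∈ c.edges) {a : ℕ} (ha : a ∈ e) (haS : Rch X.E S 3 a) : c.edges ⊆ X.En := by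
  have hcE := h.clE hc hcC
  intro f hf
  obtain ⟨w, hw, h1⟩ := near_edge (hc.val c hcC) he ha hf
  refine h.rch w ?_ f (hcE hf) hw
  rcases h1 with rfl | h1
  · exact haS.mono (by omega)
  · exact haS.step (hcE h1)

/-- an edge at `S` -/
theorem OW.edgeS (h : OW X P D j m S M) {e : Sym2 ℕ} (he : e ∈ X.E) {a : ℕ} (ha : a ∈ e) (haS : a ∈ S) :
    e ∈ X.En :=
  h.rch a (Rch.mono (r := 0) (Nat.zero_le 4) haS) e he ha

/-- **the cluster of a square of `D` with a vertex in `S`** -/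
theorem OW.cluster (h : OW X P D j m S M) (hc : Cls D CL) {Z : Finset (Sym2 ℕ)} (hZ : Z ∈ D) {e : Sym2 ℕ}
    (he : e ∈ Z) {a : ℕ} (ha : a ∈ e) (haS : a ∈ S) :
    ∃ c ∈ CL, Z ⊆ c.edges ∧ c.edges ⊆ X.En ∧ c.Valid := by
  obtain ⟨c, hcC, hs⟩ := hc.cov Z hZ
  exact ⟨c, hcC, hs, h.near hc hcC (hs he) ha (Rch.mono (r := 0) (Nat.zero_le 3) haS), hc.val c hcC⟩

/-- **the cluster of a square of `D`, all in one** -/
theorem OW.clq (h : OW X P D j m S M) {Z : Finset (Sym2 ℕ)} (hZ : Z ∈ D) {e : Sym2 ℕ} (he : e ∈ Z) {a : ℕ}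
    (ha : a ∈ e) (haS : a ∈ S) :
    ∃ c : Clu ℕ, c.Valid ∧ Z ⊆ c.edges ∧ c.edges ⊆ X.En ∧ (∀ Z' ∈ D, Z' ⊆ c.edges ∨ Disjoint Z' c.edges) ∧
      ∀ f ∈ c.edges, ∃ Z' ∈ D, f ∈ Z' ∧ Z' ⊆ c.edges := by
  obtain ⟨CL, hc⟩ := h.cls
  obtain ⟨c, hcC, h1, h2, h3⟩ := h.cluster hc hZ he ha haS
  exact ⟨c, h3, h1, h2, fun Z' hZ' => hc.whole hcC hZ', fun f hf => hc.edge_sq hcC hf⟩

/-- the witness of a square of `D`: a cover in the pool, whose only square of `D` is `Z` -/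
theorem OW.wit (h : OW X P D j m S M) {Z : Finset (Sym2 ℕ)} (hZ : Z ∈ D) :
    ∃ L, P j L ∧ Cv X L ∧ M2 L ∧ L ⊆ X.E ∧ Z ⊆ L ∧ ∀ Z' ∈ D, Z' ⊆ L → Z' = Z := by
  obtain ⟨L, h1, h2, h3, h4⟩ := h.blk.wit Z hZ
  exact ⟨L, h1, h2, (h.xp.m2 _ _ h1).1, (h.xp.m2 _ _ h1).2, h3, h4⟩

/-- **the world at a union of clusters**, with the vectors of the witnesses of all squares in it -/
theorem OW.world' (h : OW X P D j m S M) (hc : Cls D CL) {U : List (Clu ℕ)} (hU : ∀ c ∈ U, c ∈ CL)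
    (hUn : ∀ c ∈ U, c.edges ⊆ X.En) {ER PL : Finset (Sym2 ℕ)} (hER : ER ⊆ X.En)
    (hPL : ∀ e ∈ PL, ∀ Z ∈ D, e ∉ Z) :
    ∃ J : (ℕ → ℤ) → Prop, WJ X.n X.T X.V2 (Ucl U) ER PL (D.filter fun Z => Z ⊆ Ucl U) J ∧
      (∀ L Z, Z ∈ D → P j L → Cv X L → (∀ Z' ∈ D, Z' ⊆ L → Z' = Z) → ¬ Disjoint Z (Ucl U ∪ ER) →
        J (dv (L ∩ (Ucl U ∪ ER)))) ∧
      (∀ w ∈ S, w ∈ X.T → J (dv (M w ∩ (Ucl U ∪ ER)) + ev w + ev X.n)) := by
  obtain ⟨J, h1, h2, h3⟩ := h.world (C := Ucl U) (ER := ER) (PL := PL) (fun Z hZ => hc.wholeU hU hZ)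
    (by
      intro e he
      obtain ⟨c, hcU, hec⟩ := mem_Ucl.1 he
      exact hUn c hcU hec) hER hPL
  refine ⟨J, h1, ?_, h3⟩
  intro L Z hZ hL hcv hu hd
  refine h2 L hL hcv fun Z' hZ' hs => ?_
  rw [hu Z' hZ' hs]
  exact hd

end

end Pool.Agent.PF4.XF

end

section -- file PF4/XT

/-!
# The phi frame

Allowed families of edge sets (`A c K`: the part `K` in the cluster `c` is allowed), the jump set of the differences
`dv K - k` (`K` allowed, `k` a demand vector of the world), the types of the vertices and the inequality `1 ≤ ph d`.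

Signs as on paper: `mi v` = the unit `-e_v` is a fact, `pl v` = the unit `+e_v` is a fact; type X: `mi` only, type Y: `pl`
only, type Z: both, type N: none. `ph d = sum_Y d - sum_X d + #{v in Z : d v odd}`.
-/

set_option autoImplicit false

namespace Pool.Agent.PF4.XT

open Finset Pool.Agent.TFC Pool.Agent.PF4 Pool.Agent.PF4.LD Pool.Agent.PF4.XC Pool.Agent.PF4.XF

/-! ### the form -/

open Classical in
/-- contribution of one vertex -/
noncomputable def con (p m : Prop) (a : ℤ) : ℤ := if p then (if m then a % 2 else a) else (if m then -a else 0)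

/-- the form -/
noncomputable def ph (V : Finset ℕ) (pl mi : ℕ → Prop) (d : ℕ → ℤ) : ℤ := ∑ v ∈ V, con (pl v) (mi v) (d v)

theorem con_zero (p m : Prop) : con p m 0 = 0 := by
  unfold con; split_ifs <;> rfl

theorem con_X {p m : Prop} (hp : ¬ p) (hm : m) (a : ℤ) : con p m a = -a := by
  unfold con; rw [if_neg hp, if_pos hm]

theorem con_Y {p m : Prop} (hp : p) (hm : ¬ m) (a : ℤ) : con p m a = a := by
  unfold con; rw [if_pos hp, if_neg hm]

theorem con_Z {p m : Prop} (hp : p) (hm : m) (a : ℤ) : con p m a = a % 2 := by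
  unfold con; rw [if_pos hp, if_pos hm]

theorem con_N {p m : Prop} (hp : ¬ p) (hm : ¬ m) (a : ℤ) : con p m a = 0 := by
  unfold con; rw [if_neg hp, if_neg hm]

theorem con_one (p m : Prop) : con p m 1 ≤ 1 := by
  unfold con; split_ifs <;> norm_num

theorem con_one_eq {p m : Prop} (h : 0 < con p m 1) : p := by
  by_contra hp
  unfold con at h
  rw [if_neg hp] at h
  split_ifs at h <;> norm_num at h

theorem con_neg_one (p m : Prop) : con p m (-1) ≤ 1 := by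
  unfold con; split_ifs <;> norm_num

theorem con_neg_eq {p m : Prop} (h : 0 < con p m (-1)) : m := by
  by_contra hm
  unfold con at h
  split_ifs at h <;> norm_num at h

theorem ph_zero (V : Finset ℕ) (pl mi : ℕ → Prop) : ph V pl mi 0 = 0 := by
  unfold ph
  refine Finset.sum_eq_zero fun v _ => ?_
  rw [Pi.zero_apply, con_zero]

/-- the form of a vector that vanishes off `S` -/
theorem ph_supp {V : Finset ℕ} {pl mi : ℕ → Prop} {S : Finset ℕ} (hS : S ⊆ V) {d : ℕ → ℤ}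
    (h : ∀ v ∈ V, v ∉ S → d v = 0) : ph V pl mi d = ∑ v ∈ S, con (pl v) (mi v) (d v) := by
  unfold ph
  symm
  refine Finset.sum_subset hS fun v hv hvS => ?_
  rw [h v hv hvS, con_zero]

/-- add a multiple of a unit vector at a vertex where the vector is zero -/
theorem ph_add {V : Finset ℕ} {pl mi : ℕ → Prop} {v : ℕ} (hv : v ∈ V) {d : ℕ → ℤ} (hd : d v = 0) (c : ℤ) :
    ph V pl mi (d + Pi.single v c) = ph V pl mi d + con (pl v) (mi v) c := by
  unfold ph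
  have h := RG.sum_upd hv (fun u a => con (pl u) (mi u) a) d c
  rw [h, hd, con_zero, zero_add, sub_zero]

/-- at most two vertices -/
theorem ph_two {V : Finset ℕ} {pl mi : ℕ → Prop} {u v : ℕ} (hu : u ∈ V) (hv : v ∈ V) (huv : u ≠ v) (a b : ℤ) :
    ph V pl mi (Pi.single u a + Pi.single v b) = con (pl u) (mi u) a + con (pl v) (mi v) b := by
  rw [ph_add hv (by rw [sgl, if_neg huv.symm])]
  have h := ph_add (pl := pl) (mi := mi) hu (d := 0) rfl a
  rw [zero_add, ph_zero, zero_add] at h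
  rw [h]

theorem ph_one {V : Finset ℕ} {pl mi : ℕ → Prop} {u : ℕ} (hu : u ∈ V) (a : ℤ) :
    ph V pl mi (Pi.single u a) = con (pl u) (mi u) a := by
  have h := ph_add (pl := pl) (mi := mi) hu (d := 0) rfl a
  rwa [zero_add, ph_zero, zero_add] at h

/-! ### degree vectors -/

theorem dv_union {O K : Finset (Sym2 ℕ)} (h : Disjoint O K) : dv (O ∪ K) = dv O + dv K := by
  funext v
  rw [Pi.add_apply, dv, dv, dv, dg_union h]
  push_cast
  rfl

theorem dv_sdiff {L A : Finset (Sym2 ℕ)} (h : A ⊆ L) : dv (L \ A) = dv L - dv A := by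
  have h1 := dv_union (O := L \ A) (K := A) Finset.sdiff_disjoint
  rw [Finset.sdiff_union_of_subset h] at h1
  rw [h1, add_sub_cancel_right]

/-- remove `A`, add `B` -/
theorem dv_swap {L A B : Finset (Sym2 ℕ)} (hA : A ⊆ L) (hB : Disjoint B L) :
    dv ((L \ A) ∪ B) = dv L - dv A + dv B := by
  rw [dv_union (hB.mono_right Finset.sdiff_subset).symm, dv_sdiff hA]

theorem dv_empty : dv (∅ : Finset (Sym2 ℕ)) = 0 := by
  funext v
  simp [dv, dg]

theorem dv_single {e : Sym2 ℕ} : dv ({e} : Finset (Sym2 ℕ)) = fun v => if v ∈ e then 1 else 0 := by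
  funext v
  rw [dv, dg, Finset.filter_singleton]
  split_ifs <;> simp

theorem dv_pair {u v : ℕ} (h : u ≠ v) : dv ({s(u, v)} : Finset (Sym2 ℕ)) = Pi.single u 1 + Pi.single v 1 := by
  rw [dv_single]
  funext w
  rw [Pi.add_apply, sgl, sgl]
  by_cases h1 : w = u
  · have h2 : ¬ w = v := by rw [h1]; exact h
    rw [if_pos (Sym2.mem_iff.2 (Or.inl h1)), if_pos h1, if_neg h2]
    rfl
  · by_cases h2 : w = v
    · rw [if_pos (Sym2.mem_iff.2 (Or.inr h2)), if_neg h1, if_pos h2]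
      rfl
    · rw [if_neg (by rw [Sym2.mem_iff]; tauto), if_neg h1, if_neg h2]
      rfl

theorem dv_insert {e : Sym2 ℕ} {L : Finset (Sym2 ℕ)} (h : e ∉ L) : dv (insert e L) = dv L + dv {e} := by
  rw [Finset.insert_eq, Finset.union_comm, dv_union (Finset.disjoint_singleton_right.2 h)]

/-- the vertices of an edge set -/
def vs (E : Finset (Sym2 ℕ)) : Finset ℕ := E.biUnion Sym2.toFinset

theorem mem_vs {E : Finset (Sym2 ℕ)} {v : ℕ} : v ∈ vs E ↔ ∃ e ∈ E, v ∈ e := by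
  simp [vs]

theorem dv_off {E K : Finset (Sym2 ℕ)} (hK : K ⊆ E) {v : ℕ} (hv : v ∉ vs E) : dv K v = 0 := by
  rw [dv, Nat.cast_eq_zero, dg, Finset.card_eq_zero, Finset.filter_eq_empty_iff]
  intro e he hve
  exact hv (mem_vs.2 ⟨e, hK he, hve⟩)

/-! ### allowed families -/

theorem jb_iff {A B : (ℕ → ℤ) → Prop} (h : ∀ x, A x ↔ B x) (hA : JB A) : JB B := by
  have : A = B := funext fun x => propext (h x)
  rwa [← this]

theorem jb_of_jump {J : Set (ℕ → ℤ)} (h : Jump J) : JB (fun x => x ∈ J) := by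
  intro x y i ε hx hy hε hp
  obtain ⟨j, δ, h1, h2, h3⟩ := h x hx y hy i ε hε hp
  exact ⟨_, h3, j, δ, h1, h2, rfl⟩

/-- the vectors of the edge sets in `E` with the property `A` -/
def Vc (E : Finset (Sym2 ℕ)) (A : Finset (Sym2 ℕ) → Prop) (b : ℕ → ℤ) : Prop := ∃ K ⊆ E, A K ∧ b = dv K

theorem Vc.off {E : Finset (Sym2 ℕ)} {A : Finset (Sym2 ℕ) → Prop} {b : ℕ → ℤ} (h : Vc E A b) {v : ℕ}
    (hv : v ∉ vs E) : b v = 0 := by
  obtain ⟨K, hK, _, rfl⟩ := h
  exact dv_off hK hv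

/-- two disjoint regions -/
theorem jb_union {E E' : Finset (Sym2 ℕ)} (hd : Disjoint E E') {A A' : Finset (Sym2 ℕ) → Prop} (h : JB (Vc E A))
    (h' : JB (Vc E' A')) : JB (Vc (E ∪ E') fun K => A (K ∩ E) ∧ A' (K ∩ E')) := by
  refine jb_iff (fun x => ?_) (h.add (S := vs E') h' fun b hb v hv => hb.off hv)
  constructor
  · rintro ⟨_, _, ⟨K, hK, hA, rfl⟩, ⟨K', hK', hA', rfl⟩, rfl⟩
    have e1 : (K ∪ K') ∩ E = K := by
      rw [Finset.union_inter_distrib_right, Finset.inter_eq_left.2 hK,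
        Finset.disjoint_iff_inter_eq_empty.1 (hd.mono_right hK').symm, Finset.union_empty]
    have e2 : (K ∪ K') ∩ E' = K' := by
      rw [Finset.union_inter_distrib_right, Finset.inter_eq_left.2 hK',
        Finset.disjoint_iff_inter_eq_empty.1 (hd.mono_left hK), Finset.empty_union]
    refine ⟨K ∪ K', Finset.union_subset_union hK hK', ⟨by rw [e1]; exact hA, by rw [e2]; exact hA'⟩, ?_⟩
    rw [dv_union (hd.mono hK hK')]
  · rintro ⟨K, hK, ⟨hA, hA'⟩, rfl⟩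
    refine ⟨dv (K ∩ E), dv (K ∩ E'), ⟨_, Finset.inter_subset_right, hA, rfl⟩,
      ⟨_, Finset.inter_subset_right, hA', rfl⟩, ?_⟩
    rw [← dv_union (hd.mono Finset.inter_subset_right Finset.inter_subset_right),
      ← Finset.inter_union_distrib_left, Finset.inter_eq_left.2 hK]

/-- one plain edge -/
theorem jb_edge {e : Sym2 ℕ} (he : ¬ e.IsDiag) : JB (Vc {e} fun _ => True) := by
  induction e using Sym2.ind with
  | _ u v =>
  have huv : u ≠ v := by simpa using he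
  refine jb_iff (fun x => ?_) (jb_of_jump (jump_Un {u} {v}))
  constructor
  · rintro (rfl | ⟨s, hs, t, ht, rfl⟩)
    · exact ⟨∅, Finset.empty_subset _, trivial, dv_empty.symm⟩
    · rw [Finset.mem_singleton] at hs ht
      subst hs ht
      exact ⟨{s(s, t)}, le_rfl, trivial, (dv_pair huv).symm⟩
  · rintro ⟨K, hK, _, rfl⟩
    rcases Finset.subset_singleton_iff.1 hK with rfl | rfl
    · exact Or.inl dv_empty
    · exact Or.inr ⟨u, by simp, v, by simp, dv_pair huv⟩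

/-- plain edges -/
theorem jb_plain (PL : Finset (Sym2 ℕ)) (h : NoLoop PL) : JB (Vc PL fun _ => True) := by
  induction PL using Finset.induction_on with
  | empty =>
    rintro _ _ i ε ⟨K, hK, _, rfl⟩ ⟨K', hK', _, rfl⟩ _ hp
    rw [Finset.subset_empty.1 hK, Finset.subset_empty.1 hK', sub_self, mul_zero] at hp
    exact absurd hp (lt_irrefl 0)
  | insert e PL he ih =>
    have h1 := ih fun f hf => h f (Finset.mem_insert_of_mem hf)
    have h2 := jb_edge (h e (Finset.mem_insert_self _ _))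
    refine jb_iff (fun x => ?_) (jb_union (Finset.disjoint_singleton_left.2 he) h2 h1)
    rw [← Finset.insert_eq]
    constructor
    · rintro ⟨K, hK, _, hx⟩
      exact ⟨K, hK, trivial, hx⟩
    · rintro ⟨K, hK, _, hx⟩
      exact ⟨K, hK, ⟨trivial, trivial⟩, hx⟩

/-- the family at a list of clusters and plain edges -/
def AU (A : Clu ℕ → Finset (Sym2 ℕ) → Prop) (U : List (Clu ℕ)) (PL K : Finset (Sym2 ℕ)) : Prop :=
  K ⊆ Ucl U ∪ PL ∧ ∀ c ∈ U, A c (K ∩ c.edges)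

theorem jb_AU {A : Clu ℕ → Finset (Sym2 ℕ) → Prop} {U : List (Clu ℕ)} {PL : Finset (Sym2 ℕ)}
    (hA : ∀ c ∈ U, JB (Vc c.edges (A c))) (hU : U.Pairwise fun c c' => Disjoint c.edges c'.edges)
    (hPL : ∀ c ∈ U, Disjoint c.edges PL) (hn : NoLoop PL) : JB (fun b => ∃ K, AU A U PL K ∧ b = dv K) := by
  induction U with
  | nil =>
    refine jb_iff (fun x => ?_) (jb_plain PL hn)
    constructor
    · rintro ⟨K, hK, _, rfl⟩
      exact ⟨K, ⟨by simpa [Ucl] using hK, by simp⟩, rfl⟩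
    · rintro ⟨K, ⟨hK, _⟩, rfl⟩
      exact ⟨K, by simpa [Ucl] using hK, trivial, rfl⟩
  | cons c U ih =>
    rw [List.pairwise_cons] at hU
    have h1 := ih (fun c hc => hA c (List.mem_cons_of_mem _ hc)) hU.2
      (fun c hc => hPL c (List.mem_cons_of_mem _ hc))
    have hd : Disjoint c.edges (Ucl U ∪ PL) := by
      rw [Finset.disjoint_union_right]
      refine ⟨?_, hPL c List.mem_cons_self⟩
      rw [Finset.disjoint_left]
      intro e he he'
      obtain ⟨c', hc', he'⟩ := mem_Ucl.1 he'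
      exact Finset.disjoint_left.1 (hU.1 c' hc') he he'
    have h1' : JB (Vc (Ucl U ∪ PL) fun K => ∀ c ∈ U, A c (K ∩ c.edges)) := by
      refine jb_iff (fun x => ?_) h1
      constructor
      · rintro ⟨K, ⟨hK, hc⟩, rfl⟩
        exact ⟨K, hK, hc, rfl⟩
      · rintro ⟨K, hK, hc, rfl⟩
        exact ⟨K, ⟨hK, hc⟩, rfl⟩
    refine jb_iff (fun x => ?_) (jb_union hd (hA c List.mem_cons_self) h1')
    have hin : ∀ (K : Finset (Sym2 ℕ)), ∀ c' ∈ U, (K ∩ (Ucl U ∪ PL)) ∩ c'.edges = K ∩ c'.edges := by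
      intro K c' hc'
      rw [Finset.inter_assoc]
      congr 1
      rw [Finset.inter_eq_right]
      intro e he
      exact Finset.mem_union_left _ (mem_Ucl.2 ⟨c', hc', he⟩)
    constructor
    · rintro ⟨K, hK, ⟨h2, h3⟩, rfl⟩
      refine ⟨K, ⟨by rw [Ucl, Finset.union_assoc]; exact hK, ?_⟩, rfl⟩
      intro c' hc'
      rcases List.mem_cons.1 hc' with rfl | hc'
      · exact h2
      · rw [← hin K c' hc']
        exact h3 c' hc'
    · rintro ⟨K, ⟨hK, h2⟩, rfl⟩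
      refine ⟨K, by rw [Ucl, Finset.union_assoc] at hK; exact hK, ⟨h2 c List.mem_cons_self, ?_⟩, rfl⟩
      intro c' hc'
      rw [hin K c' hc']
      exact h2 c' (List.mem_cons_of_mem _ hc')

/-- a good family of edge sets in `E` -/
structure PcA (D : Finset (Finset (Sym2 ℕ))) (A : Finset (Sym2 ℕ) → Prop) (E : Finset (Sym2 ℕ)) : Prop where
  jb : JB (Vc E A)
  rl : ∀ K ⊆ E, A K → (∀ v, dg K v ≤ 2) → ∀ Z ∈ D, ¬ Z ⊆ K

/-- the capped family: 2-matchings without square of `D` -/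
def Acap (D : Finset (Finset (Sym2 ℕ))) (K : Finset (Sym2 ℕ)) : Prop := M2 K ∧ ∀ Z ∈ D, ¬ Z ⊆ K

theorem sq_rot (a b c d : ℕ) : TFC.sq a b c d = TFC.sq b c d a := by
  ext e
  simp only [TFC.sq, Finset.mem_insert, Finset.mem_singleton]
  tauto

theorem sq_ref (a b c d : ℕ) : TFC.sq a b c d = TFC.sq d c b a := by
  ext e
  simp only [TFC.sq, Finset.mem_insert, Finset.mem_singleton]
  rw [Sym2.eq_swap (a := a) (b := b), Sym2.eq_swap (a := b) (b := c), Sym2.eq_swap (a := c) (b := d),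
    Sym2.eq_swap (a := d) (b := a)]
  tauto

theorem pca_cap {D : Finset (Finset (Sym2 ℕ))} (hD : ∀ Z ∈ D, IsSq Z) (E : Finset (Sym2 ℕ)) : PcA D (Acap D) E where
  jb := by
    have hal : AlSym (fun a b c d : ℕ => TFC.sq a b c d ∉ D) := by
      refine ⟨fun a b c d h => ?_, fun a b c d h => ?_⟩
      · rw [sq_rot a b c d] at h; exact h
      · rw [sq_ref a b c d] at h; exact h
    refine jb_iff (fun x => ?_) (jb_of_jump (jump_JS hal E))
    constructor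
    · rintro ⟨K, hK, h1, h2, rfl⟩
      refine ⟨K, hK, ⟨h1, fun Z hZ hs => ?_⟩, rfl⟩
      obtain ⟨a, b, c, d, h3, rfl⟩ := hD Z hZ
      obtain ⟨hab, hac, had, hbc, hbd, hcd⟩ := h3
      exact h2 a b c d ⟨hac, hbd, hs (by simp [TFC.sq]), hs (by simp [TFC.sq]), hs (by simp [TFC.sq]),
        hs (by simp [TFC.sq])⟩ hZ
    · rintro ⟨K, hK, ⟨h1, h2⟩, rfl⟩
      refine ⟨K, hK, h1, fun a b c d hs hZ => h2 _ hZ ?_, rfl⟩
      intro e he
      simp only [TFC.sq, Finset.mem_insert, Finset.mem_singleton] at he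
      rcases he with rfl | rfl | rfl | rfl
      · exact hs.ab
      · exact hs.bc
      · exact hs.cd
      · exact hs.da
  rl := fun _ _ h _ => h.2

/-! ### the differences -/

/-- the differences -/
def Df (J B : (ℕ → ℤ) → Prop) (d : ℕ → ℤ) : Prop := ∃ k b, J k ∧ B b ∧ d = b - k

/-- the unit `-e_v` is a fact -/
def Mi (J B : (ℕ → ℤ) → Prop) (n v : ℕ) : Prop := Df J B (Pi.single v (-1) + Pi.single n (-1))

/-- the unit `+e_v` is a fact -/
def Pls (J B : (ℕ → ℤ) → Prop) (n v : ℕ) : Prop := Df J B (Pi.single v 1 + Pi.single n (-1))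

theorem jb_Df {J B : (ℕ → ℤ) → Prop} {S : Finset ℕ} (hJ : JB J) (hB : JB B)
    (hS : ∀ b, B b → ∀ v, v ∉ S → b v = 0) : JB (Df J B) := by
  refine jb_iff (fun x => ?_) (hJ.neg.add hB hS)
  constructor
  · rintro ⟨a, b, ha, hb, rfl⟩
    exact ⟨-a, b, ha, hb, by rw [sub_neg_eq_add, add_comm]⟩
  · rintro ⟨k, b, hk, hb, rfl⟩
    exact ⟨-k, b, by show J (- -k); rw [neg_neg]; exact hk, hb, by rw [sub_eq_neg_add]⟩

/-- **the inequality for the differences** -/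
theorem df_ph {J B : (ℕ → ℤ) → Prop} {n : ℕ} {V : Finset ℕ} (hJ : JB (Df J B)) (hn : n ∉ V)
    (hoff : ∀ x, Df J B x → ∀ v, v ∉ V → v ≠ n → x v = 0) (h0 : ¬ Df J B 0)
    (hne : ∃ v ∈ V, Pls J B n v ∨ Mi J B n v) {d : ℕ → ℤ} (hd : Df J B d) (hdn : d n = 0 ∨ d n = -1) :
    1 ≤ ph V (Pls J B n) (Mi J B n) d := by
  have e1 : ∀ v, RG.Fa (fun z => Df J B (-z)) n v 1 ↔ Mi J B n v := by
    intro v
    show Df J B (-(Pi.single v 1 + Pi.single n 1)) ↔ _
    rw [neg_add, ← Pi.single_neg, ← Pi.single_neg]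
    rfl
  have e2 : ∀ v, RG.Fa (fun z => Df J B (-z)) n v (-1) ↔ Pls J B n v := by
    intro v
    show Df J B (-(Pi.single v (-1) + Pi.single n 1)) ↔ _
    rw [neg_add, ← Pi.single_neg, ← Pi.single_neg, neg_neg]
    rfl
  have h := RG.rgc (J := fun z => Df J B (-z)) (z := n) (S := V) hJ.neg hn
    (fun x hx v hv hvn => by
      have := hoff _ hx v hv hvn
      rw [Pi.neg_apply] at this
      omega)
    (by rw [neg_zero]; exact h0)
    (by
      obtain ⟨v, hv, h | h⟩ := hne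
      · exact ⟨v, hv, -1, Or.inr rfl, (e2 v).2 h⟩
      · exact ⟨v, hv, 1, Or.inl rfl, (e1 v).2 h⟩)
    (d := -d) (by show Df J B (- -d); rw [neg_neg]; exact hd)
    (by rw [Pi.neg_apply]; omega)
  refine h.trans (le_of_eq ?_)
  unfold RG.phi ph
  refine Finset.sum_congr rfl fun v _ => ?_
  unfold RG.wt con
  rw [Pi.neg_apply]
  by_cases hm : Mi J B n v
  · rw [if_pos ((e1 v).2 hm), if_pos hm]
    by_cases hp : Pls J B n v
    · rw [if_pos ((e2 v).2 hp), if_pos hp]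
      omega
    · rw [if_neg (fun h => hp ((e2 v).1 h)), if_neg hp, if_pos hm]
  · rw [if_neg (fun h => hm ((e1 v).1 h)), if_neg hm]
    by_cases hp : Pls J B n v
    · rw [if_pos ((e2 v).2 hp), if_pos hp, neg_neg]
    · rw [if_neg (fun h => hp ((e2 v).1 h)), if_neg hp, if_neg hm]

section
variable {n : ℕ} {T V2 : Finset ℕ} {C ER PL : Finset (Sym2 ℕ)} {DC : Finset (Finset (Sym2 ℕ))}
  {J B : (ℕ → ℤ) → Prop}

/-- **the inequality in a world** -/
theorem wj_ph (h : WJ n T V2 C ER PL DC J) (hV : ∀ v ∈ V2, v < n) (hB : JB B)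
    (hoff : ∀ b, B b → ∀ v, v ∉ V2 → b v = 0)
    (hr : ∀ b, B b → (∀ v, b v ≤ 2) → ∃ K ⊆ C ∪ ER, M2 K ∧ (∀ Z ∈ DC, ¬ Z ⊆ K) ∧ (∀ e ∈ K, e ∉ C → e ∈ PL) ∧
      dv K = b)
    (hne : ∃ v ∈ V2, Pls J B n v ∨ Mi J B n v) {k b : ℕ → ℤ} (hk : J k) (hb : B b) :
    1 ≤ ph V2 (Pls J B n) (Mi J B n) (b - k) := by
  have hnV : n ∉ V2 := fun hc => lt_irrefl _ (hV n hc)
  refine df_ph (jb_Df h.jb hB hoff) hnV ?_ ?_ hne ⟨k, b, hk, hb, rfl⟩ ?_
  · rintro _ ⟨k, b, hk, hb, rfl⟩ v hv hvn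
    rw [Pi.sub_apply, hoff b hb v hv]
    rcases Nat.lt_trichotomy v n with h1 | h1 | h1
    · rw [h.off k hk v h1 hv]; rfl
    · exact absurd h1 hvn
    · rw [h.up k hk v h1]; rfl
  · rintro ⟨k, b, hk, hb, h0⟩
    have hkb : b = k := by
      have : b - k = 0 := h0.symm
      exact sub_eq_zero.1 this
    subst hkb
    obtain ⟨K, h1, h2, h3, h4, h5⟩ := hr b hb (by
      intro v
      rcases Nat.lt_trichotomy v n with h1 | h1 | h1
      · exact (h.rg b hk v h1).2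
      · subst h1
        rcases h.tok b hk with h2 | h2 <;> omega
      · rw [h.up b hk v h1]; norm_num)
    exact h.blk b hk K h1 h2 h3 (fun e he hC => Or.inl (h4 e he hC)) h5
  · rw [Pi.sub_apply, hoff b hb n hnV]
    rcases h.tok k hk with h1 | h1 <;> rw [h1]
    · left; rfl
    · right; rfl

/-- free vertices have no deficit fact -/
theorem wj_free (h : WJ n T V2 C ER PL DC J) (hV : ∀ v ∈ V2, v < n)
    (hoff : ∀ b, B b → ∀ v, v ∉ V2 → b v = 0) (hnn : ∀ b, B b → ∀ v, 0 ≤ b v) (h0 : ¬ Df J B 0) {v : ℕ}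
    (hv : v ∉ T) (hvn : v < n) : ¬ Mi J B n v := by
  rintro ⟨k, b, hk, hb, he⟩
  have hnV : n ∉ V2 := fun hc => lt_irrefl _ (hV n hc)
  have h1 : ∀ w, b w = k w - (if w = v then 1 else 0) - (if w = n then 1 else 0) := by
    intro w
    have := congrFun he w
    rw [Pi.add_apply, sgl, sgl, Pi.sub_apply] at this
    split_ifs at this ⊢ <;> omega
  apply h0
  refine ⟨b, b, ?_, hb, by rw [sub_self]⟩
  have h2 : (∑ w ∈ Finset.range (n + 1), b w) = (∑ w ∈ Finset.range (n + 1), k w) - 2 := by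
    simp only [h1, Finset.sum_sub_distrib]
    rw [Finset.sum_ite_eq' (Finset.range (n + 1)) v fun _ => (1 : ℤ),
      Finset.sum_ite_eq' (Finset.range (n + 1)) n fun _ => (1 : ℤ), if_pos (Finset.mem_range.2 (by omega)),
      if_pos (Finset.mem_range.2 (by omega))]
    ring
  refine h.dn k b hk ?_ ?_ ?_ ?_ ?_
  · intro w hw hwT
    rw [h1, if_neg (fun e => hv (by rw [← e]; exact hwT)), if_neg (by omega)]
    ring
  · intro w hw _
    refine ⟨hnn b hb w, ?_⟩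
    rw [h1]
    split_ifs <;> omega
  · left
    exact hoff b hb n hnV
  · rw [h2]
    have := h.par k hk
    obtain ⟨r, hr⟩ := this
    exact ⟨r - 1, by rw [hr]; ring⟩
  · intro w hw
    rw [h1, h.up k hk w hw, if_neg (by omega), if_neg (by omega)]
    rfl

end

/-! ### one world, in terms of the form -/

/-- **what is known in one world**: `W` the region (all clusters in `En` and all edges of `En` in no square of `D`), `PL` the
plain edges, `U` the clusters, `A` the allowed families, `pl`, `mi` the facts -/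
structure PW (X : XD) (P : ℕ → Finset (Sym2 ℕ) → Prop) (D : Finset (Finset (Sym2 ℕ))) (j : ℕ) (S : Finset ℕ)
    (M : ℕ → Finset (Sym2 ℕ)) (A : Clu ℕ → Finset (Sym2 ℕ) → Prop) (CL U : List (Clu ℕ))
    (PL : Finset (Sym2 ℕ)) (pl mi : ℕ → Prop) : Prop where
  ok : X.OK
  sv : ∀ v ∈ S, v ∈ X.V2
  isq : ∀ Z ∈ D, IsSq Z
  dE : ∀ Z ∈ D, Z ⊆ X.E
  w2 : Ucl U ∪ PL ⊆ X.E2
  cls : Cls D CL
  uc : ∀ c, c ∈ U ↔ c ∈ CL ∧ c.edges ⊆ X.En
  pm : ∀ e, e ∈ PL ↔ e ∈ X.En ∧ ∀ Z ∈ D, e ∉ Z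
  rch : ∀ v, Rch X.E S 3 v → ∀ e ∈ X.E, v ∈ e → e ∈ Ucl U ∪ PL
  free : ∀ v < X.n, v ∉ X.T → ¬ mi v
  /-- near covers -/
  nc : ∀ w ∈ S, w ∈ X.T → ∀ K, AU A U PL K →
    1 ≤ ph X.V2 pl mi (dv K - dv (M w ∩ (Ucl U ∪ PL)) - Pi.single w 1)
  mi' : ∀ w ∈ S, w ∈ X.T → AU A U PL (M w ∩ (Ucl U ∪ PL)) → mi w
  /-- the witnesses exist (they do not depend on the families `A`) -/
  witE : ∀ Z ∈ D, ∃ L, P j L ∧ Cv X L ∧ M2 L ∧ L ⊆ X.E ∧ Z ⊆ L ∧ ∀ Z' ∈ D, Z' ⊆ L → Z' = Z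
  /-- witnesses -/
  witA : ∀ Z ∈ D, Z ⊆ Ucl U → ∀ L, P j L → Cv X L → (∀ Z' ∈ D, Z' ⊆ L → Z' = Z) → ∀ K, AU A U PL K →
    1 ≤ ph X.V2 pl mi (dv K - dv (L ∩ (Ucl U ∪ PL)))

theorem ucl_sub_En {X : XD} {U : List (Clu ℕ)} (h : ∀ c ∈ U, c.edges ⊆ X.En) : Ucl U ⊆ X.En := by
  intro e he
  obtain ⟨c, hc, hec⟩ := mem_Ucl.1 he
  exact h c hc hec

open Classical in
/-- **the phi frame for one world** -/
theorem OW.pw {X : XD} {P : ℕ → Finset (Sym2 ℕ) → Prop} {D : Finset (Finset (Sym2 ℕ))} {j m : ℕ} {S : Finset ℕ}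
    {M : ℕ → Finset (Sym2 ℕ)} (h : OW X P D j m S M) {CL : List (Clu ℕ)} (hc : Cls D CL)
    {A : Clu ℕ → Finset (Sym2 ℕ) → Prop} (hA : ∀ c ∈ CL, c.edges ⊆ X.En → PcA D (A c) c.edges)
    (hS : ∃ w ∈ S, w ∈ X.T ∧ ∀ c ∈ CL, c.edges ⊆ X.En → A c (M w ∩ c.edges)) :
    ∃ (U : List (Clu ℕ)) (PL : Finset (Sym2 ℕ)) (pl mi : ℕ → Prop), PW X P D j S M A CL U PL pl mi := by
  obtain ⟨U, hUdef⟩ : ∃ U, U = CL.filter fun c => decide (c.edges ⊆ X.En) := ⟨_, rfl⟩
  obtain ⟨PL, hPLdef⟩ : ∃ PL, PL = X.En.filter fun e => ∀ Z ∈ D, e ∉ Z := ⟨_, rfl⟩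
  have uc : ∀ c, c ∈ U ↔ c ∈ CL ∧ c.edges ⊆ X.En := by
    intro c
    rw [hUdef, List.mem_filter, decide_eq_true_eq]
  have pm : ∀ e, e ∈ PL ↔ e ∈ X.En ∧ ∀ Z ∈ D, e ∉ Z := by
    intro e
    rw [hPLdef, Finset.mem_filter]
  have hUn : Ucl U ⊆ X.En := ucl_sub_En fun c hc => ((uc c).1 hc).2
  have hPn : PL ⊆ X.En := fun e he => ((pm e).1 he).1
  have hWn : Ucl U ∪ PL ⊆ X.En := Finset.union_subset hUn hPn
  have hEn : X.En ⊆ X.E := h.ok.e1.trans h.ok.e2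
  obtain ⟨J, hJ, h2, h3⟩ := h.world' hc (U := U) (fun c hc => ((uc c).1 hc).1) (fun c hc => ((uc c).1 hc).2)
    (ER := PL) (PL := PL) hPn (fun e he => ((pm e).1 he).2)
  -- allowed vectors
  have hUp : U.Pairwise fun c c' => Disjoint c.edges c'.edges := by
    rw [hUdef]
    exact hc.dj.filter _
  have hUP : ∀ c ∈ U, Disjoint c.edges PL := by
    intro c hcU
    rw [Finset.disjoint_left]
    intro e he he'
    obtain ⟨Z, hZ, heZ⟩ := hc.edge.1 ⟨c, ((uc c).1 hcU).1, he⟩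
    exact ((pm e).1 he').2 Z hZ heZ
  have hnl : NoLoop (Ucl U ∪ PL) := fun e he => h.ok.nl e (hEn (hWn he))
  have hjb : JB (fun b => ∃ K, AU A U PL K ∧ b = dv K) :=
    jb_AU (fun c hcU => (hA c ((uc c).1 hcU).1 ((uc c).1 hcU).2).jb) hUp hUP
      fun e he => hnl e (Finset.mem_union_right _ he)
  have hoff : ∀ b, (∃ K, AU A U PL K ∧ b = dv K) → ∀ v, v ∉ X.V2 → b v = 0 := by
    rintro _ ⟨K, hK, rfl⟩ v hv
    rw [dv, dg_off h.ok (hK.1.trans (hWn.trans h.ok.e1)) hv]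
    rfl
  have hnn : ∀ b, (∃ K, AU A U PL K ∧ b = dv K) → ∀ v, 0 ≤ b v := by
    rintro _ ⟨K, hK, rfl⟩ v
    exact Nat.cast_nonneg _
  have hr : ∀ b, (∃ K, AU A U PL K ∧ b = dv K) → (∀ v, b v ≤ 2) → ∃ K ⊆ Ucl U ∪ PL, M2 K ∧
      (∀ Z ∈ D.filter (fun Z => Z ⊆ Ucl U), ¬ Z ⊆ K) ∧ (∀ e ∈ K, e ∉ Ucl U → e ∈ PL) ∧ dv K = b := by
    rintro _ ⟨K, hK, rfl⟩ h2
    have hdg : ∀ v, dg K v ≤ 2 := by
      intro v
      have := h2 v
      rw [dv] at this
      exact_mod_cast this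
    refine ⟨K, hK.1, ⟨fun e he => hnl e (hK.1 he), hdg⟩, ?_, ?_, rfl⟩
    · intro Z hZ hs
      rw [Finset.mem_filter] at hZ
      obtain ⟨c, hcC, hZc⟩ := hc.cov Z hZ.1
      have hcU : c ∈ U := by
        obtain ⟨a, b, c', d, _, hZe⟩ := h.isq hZ.1
        have he : s(a, b) ∈ Z := by rw [hZe]; simp [TFC.sq]
        obtain ⟨c'', hc'', he''⟩ := mem_Ucl.1 (hZ.2 he)
        rw [hc.eq hcC ((uc c'').1 hc'').1 (hZc he) he'']
        exact hc''
      refine (hA c hcC ((uc c).1 hcU).2).rl (K ∩ c.edges) Finset.inter_subset_right (hK.2 c hcU) ?_ Z hZ.1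
        (Finset.subset_inter hs hZc)
      intro v
      refine le_trans ?_ (hdg v)
      exact Finset.card_le_card (Finset.filter_subset_filter _ Finset.inter_subset_left)
    · intro e he heU
      rcases Finset.mem_union.1 (hK.1 he) with h1 | h1
      · exact absurd h1 heU
      · exact h1
  -- restriction to the clusters
  have hcap : ∀ (L : Finset (Sym2 ℕ)), (∀ c ∈ CL, c.edges ⊆ X.En → A c (L ∩ c.edges)) →
      AU A U PL (L ∩ (Ucl U ∪ PL)) := by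
    intro L hL
    refine ⟨Finset.inter_subset_right, fun c hcU => ?_⟩
    have e : L ∩ (Ucl U ∪ PL) ∩ c.edges = L ∩ c.edges := by
      rw [Finset.inter_assoc]
      congr 1
      rw [Finset.inter_eq_right]
      intro e he
      exact Finset.mem_union_left _ (mem_Ucl.2 ⟨c, hcU, he⟩)
    rw [e]
    exact hL c ((uc c).1 hcU).1 ((uc c).1 hcU).2
  have hmi : ∀ w ∈ S, w ∈ X.T → AU A U PL (M w ∩ (Ucl U ∪ PL)) →
      Mi J (fun b => ∃ K, AU A U PL K ∧ b = dv K) X.n w := by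
    intro w hw hwT hAU
    refine ⟨_, _, h3 w hw hwT, ⟨_, hAU, rfl⟩, ?_⟩
    rw [Pi.single_neg, Pi.single_neg]
    show _ = dv (M w ∩ (Ucl U ∪ PL)) - (dv (M w ∩ (Ucl U ∪ PL)) + Pi.single w 1 + Pi.single X.n 1)
    abel
  have hne : ∃ v ∈ X.V2, Pls J (fun b => ∃ K, AU A U PL K ∧ b = dv K) X.n v ∨
      Mi J (fun b => ∃ K, AU A U PL K ∧ b = dv K) X.n v := by
    obtain ⟨w, hw, hwT, hwA⟩ := hS
    exact ⟨w, h.sv w hw, Or.inr (hmi w hw hwT (hcap _ hwA))⟩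
  have h0 : ¬ Df J (fun b => ∃ K, AU A U PL K ∧ b = dv K) 0 := by
    rintro ⟨k, b, hk, hb, h0⟩
    have := wj_ph hJ h.ok.vn hjb hoff hr hne hk hb
    rw [← h0, ph_zero] at this
    omega
  refine ⟨U, PL, Pls J (fun b => ∃ K, AU A U PL K ∧ b = dv K) X.n,
    Mi J (fun b => ∃ K, AU A U PL K ∧ b = dv K) X.n, h.ok, h.sv, fun Z hZ => h.isq hZ, fun Z hZ => h.sqE hZ,
    hWn.trans h.ok.e1, hc, uc, pm, ?_, ?_, ?_, hmi, ?_, ?_⟩
  · intro v hv e heE hve
    have heN : e ∈ X.En := h.rch v (Rch.mono (by omega) hv) e heE hve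
    by_cases h1 : ∃ Z ∈ D, e ∈ Z
    · obtain ⟨c, hcC, hec⟩ := hc.edge.2 h1
      exact Finset.mem_union_left _ (mem_Ucl.2 ⟨c, (uc c).2 ⟨hcC, h.near hc hcC hec hve hv⟩, hec⟩)
    · push Not at h1
      exact Finset.mem_union_right _ ((pm e).2 ⟨heN, h1⟩)
  · intro v hvn hvT
    exact wj_free hJ h.ok.vn hoff hnn h0 hvT hvn
  · intro w hw hwT K hK
    have h4 := wj_ph hJ h.ok.vn hjb hoff hr hne (h3 w hw hwT) ⟨K, hK, rfl⟩
    have e : ph X.V2 (Pls J (fun b => ∃ K, AU A U PL K ∧ b = dv K) X.n)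
        (Mi J (fun b => ∃ K, AU A U PL K ∧ b = dv K) X.n)
        (dv K - (dv (M w ∩ (Ucl U ∪ PL)) + ev w + ev X.n)) =
        ph X.V2 (Pls J (fun b => ∃ K, AU A U PL K ∧ b = dv K) X.n)
        (Mi J (fun b => ∃ K, AU A U PL K ∧ b = dv K) X.n)
        (dv K - dv (M w ∩ (Ucl U ∪ PL)) - Pi.single w 1) := by
      unfold ph
      refine Finset.sum_congr rfl fun v hv => ?_
      congr 1
      have hvn : v ≠ X.n := fun hc => lt_irrefl _ (hc ▸ h.ok.vn v hv)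
      rw [Pi.sub_apply, Pi.sub_apply, Pi.sub_apply, Pi.add_apply, Pi.add_apply, TFC.ev_apply, TFC.ev_apply, sgl,
        if_neg hvn]
      ring
    rw [← e]
    exact h4
  · intro Z hZ
    exact h.wit hZ
  · intro Z hZ hZU L h4 h5 h9 K hK
    refine wj_ph hJ h.ok.vn hjb hoff hr hne (h2 L Z hZ h4 h5 h9 ?_) ⟨K, hK, rfl⟩
    rw [Finset.not_disjoint_iff]
    obtain ⟨a, b, c, d, _, hZe⟩ := h.isq hZ
    have he : s(a, b) ∈ Z := by rw [hZe]; simp [TFC.sq]
    exact ⟨_, he, Finset.mem_union_left _ (hZU he)⟩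

/-! ### modified edge sets -/

/-- all families are closed under subsets -/
def Dwn (A : Clu ℕ → Finset (Sym2 ℕ) → Prop) : Prop := ∀ c K K', K' ⊆ K → A c K → A c K'

theorem AU.mono {A : Clu ℕ → Finset (Sym2 ℕ) → Prop} (hD : Dwn A) {U : List (Clu ℕ)} {PL K K' : Finset (Sym2 ℕ)}
    (h : AU A U PL K) (hK : K' ⊆ K) : AU A U PL K' :=
  ⟨hK.trans h.1, fun c hc => hD c _ _ (Finset.inter_subset_inter hK le_rfl) (h.2 c hc)⟩

/-- only the parts in the clusters matter -/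
theorem AU.of {A : Clu ℕ → Finset (Sym2 ℕ) → Prop} {U : List (Clu ℕ)} {PL K : Finset (Sym2 ℕ)}
    (h : K ⊆ Ucl U ∪ PL) (h2 : ∀ c ∈ U, A c (K ∩ c.edges)) : AU A U PL K := ⟨h, h2⟩

section
variable {X : XD} {P : ℕ → Finset (Sym2 ℕ) → Prop} {D : Finset (Finset (Sym2 ℕ))} {j : ℕ} {S : Finset ℕ}
  {M : ℕ → Finset (Sym2 ℕ)} {A : Clu ℕ → Finset (Sym2 ℕ) → Prop} {CL U : List (Clu ℕ)} {PL : Finset (Sym2 ℕ)}
  {pl mi : ℕ → Prop}

theorem PW.wit (h : PW X P D j S M A CL U PL pl mi) {Z : Finset (Sym2 ℕ)} (hZ : Z ∈ D) (hZU : Z ⊆ Ucl U) :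
    ∃ L, P j L ∧ Cv X L ∧ M2 L ∧ L ⊆ X.E ∧ Z ⊆ L ∧ (∀ Z' ∈ D, Z' ⊆ L → Z' = Z) ∧
      ∀ K, AU A U PL K → 1 ≤ ph X.V2 pl mi (dv K - dv (L ∩ (Ucl U ∪ PL))) := by
  obtain ⟨L, h1, h2, h3, h4, h5, h6⟩ := h.witE Z hZ
  exact ⟨L, h1, h2, h3, h4, h5, h6, h.witA Z hZ hZU L h1 h2 h6⟩

theorem PW.plain (h : PW X P D j S M A CL U PL pl mi) {c : Clu ℕ} (hc : c ∈ U) : Disjoint PL c.edges := by
  rw [Finset.disjoint_left]
  intro e he hec
  obtain ⟨Z, hZ, heZ⟩ := h.cls.edge.1 ⟨c, ((h.uc c).1 hc).1, hec⟩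
  exact ((h.pm e).1 he).2 Z hZ heZ

/-- add plain edges -/
theorem PW.addp (h : PW X P D j S M A CL U PL pl mi) {K B : Finset (Sym2 ℕ)} (hK : AU A U PL K) (hB : B ⊆ PL) :
    AU A U PL (K ∪ B) := by
  refine ⟨Finset.union_subset hK.1 (hB.trans Finset.subset_union_right), fun c hc => ?_⟩
  have e : (K ∪ B) ∩ c.edges = K ∩ c.edges := by
    rw [Finset.union_inter_distrib_right,
      Finset.disjoint_iff_inter_eq_empty.1 ((h.plain hc).mono_left hB), Finset.union_empty]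
  rw [e]
  exact hK.2 c hc

/-- add an edge of a cluster -/
theorem PW.addc (h : PW X P D j S M A CL U PL pl mi) {K : Finset (Sym2 ℕ)} (hK : AU A U PL K) {c : Clu ℕ}
    (hc : c ∈ U) {e : Sym2 ℕ} (he : e ∈ c.edges) (hA : A c (insert e (K ∩ c.edges))) : AU A U PL (insert e K) := by
  refine ⟨Finset.insert_subset (Finset.mem_union_left _ (mem_Ucl.2 ⟨c, hc, he⟩)) hK.1, fun c' hc' => ?_⟩
  by_cases hcc : c' = c
  · subst hcc
    rw [Finset.insert_inter_of_mem he]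
    exact hA
  · have hne : e ∉ c'.edges := fun h' => hcc (h.cls.eq ((h.uc c').1 hc').1 ((h.uc c).1 hc).1 h' he)
    rw [Finset.insert_inter_of_notMem hne]
    exact hK.2 c' hc'

/-- near cover, modified: remove `R`, add `B` -/
theorem PW.nc_swap (h : PW X P D j S M A CL U PL pl mi) {w : ℕ} (hw : w ∈ S) (hT : w ∈ X.T)
    {R B : Finset (Sym2 ℕ)} (hR : R ⊆ M w) (hRW : R ⊆ Ucl U ∪ PL) (hB : Disjoint B (M w ∩ (Ucl U ∪ PL)))
    (hA : AU A U PL (((M w ∩ (Ucl U ∪ PL)) \ R) ∪ B)) :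
    1 ≤ ph X.V2 pl mi (dv B - dv R - Pi.single w 1) := by
  have h1 := h.nc w hw hT _ hA
  rw [dv_swap (Finset.subset_inter hR hRW) hB] at h1
  have e : dv (M w ∩ (Ucl U ∪ PL)) - dv R + dv B - dv (M w ∩ (Ucl U ∪ PL)) - Pi.single w 1 =
      dv B - dv R - Pi.single w 1 := by abel
  rwa [e] at h1

end

end Pool.Agent.PF4.XT

end

section -- file PF4/XUV

/-!
# The square-free family of a K2 cluster in the phi frame
-/

set_option autoImplicit false

namespace Pool.Agent.PF4.XU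

open Finset Pool.Agent.TFC Pool.Agent.PF4 Pool.Agent.PF4.LD Pool.Agent.PF4.XC Pool.Agent.PF4.XT

/-- without loops, square-free means without a square as a subset -/
theorem sqFree_iff {K : Finset (Sym2 ℕ)} (hK : ∀ e ∈ K, ¬ e.IsDiag) :
    TFC.SqFree K ↔ ∀ Z, IsSq Z → ¬ Z ⊆ K := by
  constructor
  · rintro h Z ⟨a, b, c, d, h4, rfl⟩ hs
    obtain ⟨hab, hac, had, hbc, hbd, hcd⟩ := h4
    exact h a b c d ⟨hac, hbd, hs (by simp [TFC.sq]), hs (by simp [TFC.sq]), hs (by simp [TFC.sq]),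
      hs (by simp [TFC.sq])⟩
  · intro h a b c d hs
    have hl : ∀ u v : ℕ, s(u, v) ∈ K → u ≠ v := by
      intro u v huv he
      exact hK _ huv (by simpa using he)
    refine h (TFC.sq a b c d) ⟨a, b, c, d, ⟨hl a b hs.ab, hs.ac, ?_, hl b c hs.bc, hs.bd, hl c d hs.cd⟩, rfl⟩ ?_
    · exact fun he => hl d a hs.da he.symm
    · intro e he
      simp only [TFC.sq, Finset.mem_insert, Finset.mem_singleton] at he
      rcases he with rfl | rfl | rfl | rfl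
      · exact hs.ab
      · exact hs.bc
      · exact hs.cd
      · exact hs.da

theorem k2_nl {a b : ℕ} {L : Finset ℕ} (hv : (Clu.k2 a b L).Valid) : NoLoop (Clu.k2 a b L).edges := by
  obtain ⟨_, ha, hb, _⟩ := hv
  intro e he
  simp only [Clu.edges, Finset.mem_union, Finset.mem_image] at he
  rcases he with ⟨l, hl, rfl⟩ | ⟨l, hl, rfl⟩
  · intro hd
    exact ha (by rw [show a = l by simpa using hd]; exact hl)
  · intro hd
    exact hb (by rw [show b = l by simpa using hd]; exact hl)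

theorem jb_sqFree {a b : ℕ} {L : Finset ℕ} (hv : (Clu.k2 a b L).Valid) :
    JB (Vc (Clu.k2 a b L).edges TFC.SqFree) := by
  refine jb_iff (fun x => ?_) (jb_k2 hv)
  constructor
  · rintro ⟨K, hK, hs, rfl⟩
    exact ⟨K, hK, (sqFree_iff fun e he => k2_nl hv e (hK he)).2 hs, rfl⟩
  · rintro ⟨K, hK, hs, rfl⟩
    exact ⟨K, hK, (sqFree_iff fun e he => k2_nl hv e (hK he)).1 hs, rfl⟩

/-- **the square-free family is good** -/
theorem pca_sqFree {D : Finset (Finset (Sym2 ℕ))} (hD : ∀ Z ∈ D, IsSq Z) {a b : ℕ} {L : Finset ℕ}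
    (hv : (Clu.k2 a b L).Valid) : PcA D TFC.SqFree (Clu.k2 a b L).edges where
  jb := jb_sqFree hv
  rl := fun K hK hs _ Z hZ =>
    (sqFree_iff fun e he => k2_nl hv e (hK he)).1 hs Z (hD Z hZ)

end Pool.Agent.PF4.XU

end

section -- file PF4/X5A

/-!
Two squares with a common edge and a common further vertex: the triangle move, and elementary lemmas on edge sets.
-/

set_option autoImplicit false

namespace Pool.Agent.PF4.XF

open Finset Pool.Agent.TFC Pool.Agent.PF4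

/-- a square contains no triangle -/
theorem sq_no_tri {Z : Finset (Sym2 ℕ)} (hZ : IsSq Z) {x y q : ℕ} (h1 : s(x, y) ∈ Z) (h2 : s(y, q) ∈ Z)
    (h3 : s(x, q) ∈ Z) : False := by
  obtain ⟨a, b, c, d, ⟨ab, ac, ad, bc, bd, cd⟩, rfl⟩ := hZ
  have key : ∀ u v : ℕ, s(u, v) ∈ TFC.sq a b c d → ((u = a ∨ u = c) ↔ ¬ (v = a ∨ v = c)) := by
    intro u v h
    simp only [TFC.sq, mem_insert, mem_singleton, Sym2.eq_iff] at h
    rcases h with (⟨rfl, rfl⟩ | ⟨rfl, rfl⟩) | (⟨rfl, rfl⟩ | ⟨rfl, rfl⟩) | (⟨rfl, rfl⟩ | ⟨rfl, rfl⟩) |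
      (⟨rfl, rfl⟩ | ⟨rfl, rfl⟩) <;> simp_all [eq_comm]
  have k1 := key _ _ h1
  have k2 := key _ _ h2
  have k3 := key _ _ h3
  tauto

/-- no square -/
def Sf (K : Finset (Sym2 ℕ)) : Prop := ∀ Z, IsSq Z → ¬ Z ⊆ K

theorem Sf.mono {K K' : Finset (Sym2 ℕ)} (h : Sf K') (hs : K ⊆ K') : Sf K := fun Z hZ h' => h Z hZ (h'.trans hs)

/-- in a square every vertex has two edges -/
theorem sq_two {Z : Finset (Sym2 ℕ)} (hZ : IsSq Z) {e : Sym2 ℕ} (he : e ∈ Z) {v : ℕ} (hv : v ∈ e) :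
    ∃ f ∈ Z, f ≠ e ∧ v ∈ f := by
  obtain ⟨a, b, c, d, hd, rfl⟩ := hZ
  have hok : SqOK (a, b, c, d) := hd
  obtain ⟨u, rfl⟩ := hv
  obtain ⟨w, hw, h1⟩ := sq_other hok (he : s(v, u) ∈ sqs (a, b, c, d))
  exact ⟨s(v, w), h1, fun h => hw (sym2_inj_left h), by simp⟩

/-- a pendant edge closes no square -/
theorem Sf.insert {K : Finset (Sym2 ℕ)} (h : Sf K) {v : ℕ} {e : Sym2 ℕ} (hv : v ∈ e) (h0 : ∀ f ∈ K, v ∉ f) :
    Sf (Insert.insert e K) := by
  intro Z hZ hs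
  by_cases he : e ∈ Z
  · obtain ⟨f, hf, hfe, hvf⟩ := sq_two hZ he hv
    rcases mem_insert.1 (hs hf) with h1 | h1
    · exact hfe h1
    · exact h0 f h1 hvf
  · exact h Z hZ ((subset_insert_iff_of_notMem he).1 hs)

/-- fewer than four edges contain no square -/
theorem sf_of_card {K : Finset (Sym2 ℕ)} (h : #K < 4) : Sf K := by
  rintro _ ⟨a, b, c, d, hd, rfl⟩ hs
  have := card_le_card hs
  rw [R4_card_sq hd] at this
  omega

section
variable {X : XD} {P : ℕ → Finset (Sym2 ℕ) → Prop} {D : Finset (Finset (Sym2 ℕ))} {j m : ℕ} {S : Finset ℕ}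
  {M : ℕ → Finset (Sym2 ℕ)}

/-- **the triangle move**: if `x y q p` is a square of the family and `x q` is an edge, then `p` is in `T` -/
theorem OW.tri (h : OW X P D j m S M) {x y q p : ℕ} (hd : Dist4 x y q p) (hx : x ∈ S)
    (hQ : TFC.sq x y q p ∈ D) (he : s(x, q) ∈ X.E) : p ∈ X.T := by
  by_contra hp
  obtain ⟨L, hL, hc, hM, hE, hs, hu⟩ := h.wit hQ
  obtain ⟨xy, xq, xp, yq, yp, qp⟩ := hd
  have e1 : s(x, y) ∈ L := hs (by simp [TFC.sq])
  have e2 : s(y, q) ∈ L := hs (by simp [TFC.sq])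
  have e3 : s(q, p) ∈ L := hs (by simp [TFC.sq])
  have e4 : s(p, x) ∈ L := hs (by simp [TFC.sq])
  have hn : s(x, q) ∈ X.En := h.edgeS he (a := x) (by simp) hx
  have hQ2 := (h.blk.hs _ hQ).2
  set L₁ : Finset (Sym2 ℕ) := L \ {s(q, p), s(p, x)} with hL₁
  have p1 : P (j + 1) L₁ := h.xp.del _ _ _ hL (by
    intro e he
    simp only [mem_insert, mem_singleton] at he
    rcases he with rfl | rfl
    · exact hQ2 (by simp [TFC.sq])
    · exact hQ2 (by simp [TFC.sq]))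
  have hxq : s(x, q) ∉ L := by
    intro hc
    rcases nbr_two (hM.le x) e1 (msw e4) yp hc with h1 | h1
    · exact yq h1.symm
    · exact qp h1
  have hL₁e : L₁ = (L.erase s(q, p)).erase s(p, x) := by
    ext e
    simp only [hL₁, mem_sdiff, mem_insert, mem_singleton, mem_erase]
    tauto
  have hne : s(p, x) ≠ s(q, p) := by
    rw [ne_eq, Sym2.eq_iff]
    rintro (⟨h1, _⟩ | ⟨_, h1⟩)
    · exact qp h1.symm
    · exact xq h1
  have d1 : dv L₁ = dv L - ev q - ev p - ev p - ev x := by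
    rw [hL₁e, dv_erase (Ne.symm xp) (mem_erase.2 ⟨hne, e4⟩), dv_erase qp e3]
  have hxq₁ : s(x, q) ∉ L₁ := fun h' => hxq (mem_sdiff.1 h').1
  have d2 : dv (L₁ ∪ {s(x, q)}) = dv L - ev p - ev p := by
    rw [union_comm, ← insert_eq, dv_insert xq hxq₁, d1]
    abel
  have hM₂ : M2 (L₁ ∪ {s(x, q)}) := by
    refine M2.of_dv ?_ ?_
    · rw [union_comm, ← insert_eq]
      exact (hM.nl.mono sdiff_subset).insert xq
    · intro v
      rw [d2]
      have h1 : dv L v ≤ 2 := by rw [dv_apply]; exact_mod_cast hM.le v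
      have h2 : 0 ≤ ev p v := by rw [ev_apply]; split_ifs <;> norm_num
      simp only [Pi.sub_apply]
      linarith
  have p2 : P (j + 1 + 1) (L₁ ∪ {s(x, q)}) := by
    refine h.xp.add _ _ _ p1 (by
      intro e he
      rw [mem_singleton] at he
      subst he
      exact h.ok.e1 hn) hM₂ ?_
    intro Z _ hZs
    by_cases h1 : s(x, q) ∈ Z
    · exact Or.inr ⟨_, h1, hn⟩
    · left
      intro e heZ
      rcases mem_union.1 (hZs heZ) with h2 | h2
      · exact h2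
      · rw [mem_singleton] at h2
        subst h2
        exact absurd heZ h1
  have hcv : Cv X (L₁ ∪ {s(x, q)}) := by
    intro v hv
    have h1 := congrFun d2 v
    have h2 : v ≠ p := fun h' => hp (h' ▸ hv)
    rw [Pi.sub_apply, Pi.sub_apply, ev_ne h2, dv_apply, dv_apply, hc v hv, sub_zero, sub_zero] at h1
    exact_mod_cast h1
  have hm := h.ten
  obtain ⟨Z, hZ, hZs⟩ := h.blk.blk (j + 1 + 1) (by omega) _ p2 hcv
  have hZq := h.isq hZ
  by_cases h1 : s(x, q) ∈ Z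
  · have f1 : s(x, y) ∈ L₁ ∪ {s(x, q)} := by
      refine mem_union.2 (Or.inl (mem_sdiff.2 ⟨e1, ?_⟩))
      simp only [mem_insert, mem_singleton, Sym2.eq_iff]
      rintro ((⟨h1, _⟩ | ⟨h1, _⟩) | (⟨h1, _⟩ | ⟨_, h1⟩))
      · exact xq h1
      · exact xp h1
      · exact xp h1
      · exact yp h1
    have f2 : s(y, q) ∈ L₁ ∪ {s(x, q)} := by
      refine mem_union.2 (Or.inl (mem_sdiff.2 ⟨e2, ?_⟩))
      simp only [mem_insert, mem_singleton, Sym2.eq_iff]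
      rintro ((⟨h1, _⟩ | ⟨h1, _⟩) | (⟨h1, _⟩ | ⟨h1, _⟩))
      · exact yq h1
      · exact yp h1
      · exact yp h1
      · exact xy h1.symm
    have g1 : s(x, y) ∈ Z := sq_closed hM₂ hZq hZs h1 (y := x) (by simp) f1 (by simp)
    have g2 : s(y, q) ∈ Z := sq_closed hM₂ hZq hZs h1 (y := q) (by simp) f2 (by simp)
    exact sq_no_tri hZq g1 g2 h1
  · have h2 : Z ⊆ L := by
      intro e heZ
      rcases mem_union.1 (hZs heZ) with h2 | h2
      · exact (mem_sdiff.1 h2).1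
      · rw [mem_singleton] at h2
        subst h2
        exact absurd heZ h1
    have h3 := hu Z hZ h2
    have h4 : s(q, p) ∈ Z := by rw [h3]; simp [TFC.sq]
    rcases mem_union.1 (hZs h4) with h5 | h5
    · exact (mem_sdiff.1 h5).2 (by simp)
    · rw [mem_singleton] at h5
      rw [h5] at h4
      exact h1 h4

end

end Pool.Agent.PF4.XF

end

section -- file PF4/X5B

/-!
Replacing the part of a witness in a cluster; the types of the leaves of a cluster with a square which is not in the family;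
the corners of a `K4` cluster.
-/

set_option autoImplicit false

namespace Pool.Agent.PF4.XT

open Finset Pool.Agent.TFC Pool.Agent.PF4 Pool.Agent.PF4.XF Pool.Agent.PF4.XU

/-- every edge of a cluster meets every square of the cluster -/
theorem cl_touch {c : Clu ℕ} (hc : c.Valid) {Z : Finset (Sym2 ℕ)} (hZ : IsSq Z) (hs : Z ⊆ c.edges) {e : Sym2 ℕ}
    (he : e ∈ c.edges) : ∃ f ∈ Z, ∃ v, v ∈ e ∧ v ∈ f := by
  obtain ⟨x, y, q, p, h4, rfl⟩ := hZ
  have k : ∀ v, (v = x ∨ v = y ∨ v = q ∨ v = p) → ∃ f ∈ TFC.sq x y q p, v ∈ f := by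
    rintro v (rfl | rfl | rfl | rfl)
    · exact ⟨s(v, y), by simp [TFC.sq], by simp⟩
    · exact ⟨s(v, q), by simp [TFC.sq], by simp⟩
    · exact ⟨s(v, p), by simp [TFC.sq], by simp⟩
    · exact ⟨s(v, x), by simp [TFC.sq], by simp⟩
  have k' : ∀ v, v ∈ e → (v = x ∨ v = y ∨ v = q ∨ v = p) → ∃ f ∈ TFC.sq x y q p, ∃ v, v ∈ e ∧ v ∈ f := by
    intro v hv h
    obtain ⟨f, hf, hvf⟩ := k v h
    exact ⟨f, hf, v, hv, hvf⟩
  induction e using Sym2.ind with
  | _ a b =>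
  rcases shape hc h4 hs with rfl | ⟨L, rfl | rfl, _⟩ | ⟨L, rfl | rfl, _⟩
  · rw [mem_k4] at he
    have h1 := he.1
    simp only [mem_insert, mem_singleton] at h1
    exact k' a (by simp) h1
  all_goals
    rw [mem_k2] at he
    rcases he with ⟨h1 | h1, _⟩ | ⟨h1 | h1, _⟩
    · exact k' a (by simp) (by tauto)
    · exact k' a (by simp) (by tauto)
    · exact k' b (by simp) (by tauto)
    · exact k' b (by simp) (by tauto)

/-- the part in the cluster of a 2-matching which contains a square of the cluster is this square -/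
theorem inter_eq {c : Clu ℕ} (hc : c.Valid) {Z L : Finset (Sym2 ℕ)} (hZ : IsSq Z) (hs : Z ⊆ c.edges) (hL : M2 L)
    (hZL : Z ⊆ L) : L ∩ c.edges = Z := by
  refine Finset.Subset.antisymm ?_ (Finset.subset_inter hZL hs)
  intro e he
  obtain ⟨h1, h2⟩ := mem_inter.1 he
  obtain ⟨f, hf, v, hve, hvf⟩ := cl_touch hc hZ hs h2
  exact sq_closed hL hZ hZL hf hvf h1 hve

theorem IsSq.ne {Z : Finset (Sym2 ℕ)} (h : IsSq Z) : ∃ e, e ∈ Z := by
  obtain ⟨a, b, c, d, _, rfl⟩ := h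
  exact ⟨s(a, b), by simp [TFC.sq]⟩

theorem IsSq.card {Z : Finset (Sym2 ℕ)} (h : IsSq Z) : #Z = 4 := by
  obtain ⟨a, b, c, d, h4, rfl⟩ := h
  exact R4_card_sq h4

/-- replace the part in `C` by `K` -/
theorem dv_rep {F C K : Finset (Sym2 ℕ)} (hK : K ⊆ C) : dv ((F \ C) ∪ K) = dv F - dv (F ∩ C) + dv K := by
  rw [XT.dv_union (disjoint_sdiff_self_left.mono_right hK)]
  have h1 := XT.dv_union (O := F \ C) (K := F ∩ C) (disjoint_sdiff_inter F C)
  rw [Finset.sdiff_union_inter] at h1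
  rw [h1]
  abel

/-- the degree vector of a square -/
theorem dv_sq {a b c d : ℕ} (h : Dist4 a b c d) :
    dv (TFC.sq a b c d) = ev a + ev a + ev b + ev b + ev c + ev c + ev d + ev d := by
  obtain ⟨ab, ac, ad, bc, bd, cd⟩ := h
  have n1 : s(c, d) ∉ ({s(d, a)} : Finset (Sym2 ℕ)) := by
    simp only [mem_singleton, Sym2.eq_iff]
    rintro (⟨h1, _⟩ | ⟨h1, _⟩)
    · exact cd h1
    · exact ac h1.symm
  have n2 : s(b, c) ∉ ({s(c, d), s(d, a)} : Finset (Sym2 ℕ)) := by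
    simp only [mem_insert, mem_singleton, Sym2.eq_iff]
    rintro ((⟨h1, _⟩ | ⟨h1, _⟩) | (⟨h1, _⟩ | ⟨h1, _⟩))
    · exact bc h1
    · exact bd h1
    · exact bd h1
    · exact ab h1.symm
  have n3 : s(a, b) ∉ ({s(b, c), s(c, d), s(d, a)} : Finset (Sym2 ℕ)) := by
    simp only [mem_insert, mem_singleton, Sym2.eq_iff]
    rintro ((⟨h1, _⟩ | ⟨h1, _⟩) | (⟨h1, _⟩ | ⟨h1, _⟩) | (⟨h1, _⟩ | ⟨_, h1⟩))
    · exact ab h1
    · exact ac h1
    · exact ac h1
    · exact ad h1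
    · exact ad h1
    · exact bd h1
  rw [TFC.sq, TFC.dv_insert ab n3, TFC.dv_insert bc n2, TFC.dv_insert cd n1, XT.dv_pair (Ne.symm ad)]
  show ev d + ev a + ev c + ev d + ev b + ev c + ev a + ev b = _
  abel

/-- a square, written from one of its corners -/
theorem sq_at {Z : Finset (Sym2 ℕ)} (hZ : IsSq Z) {e : Sym2 ℕ} (he : e ∈ Z) {v : ℕ} (hv : v ∈ e) :
    ∃ a b c, Dist4 v a b c ∧ Z = TFC.sq v a b c := by
  obtain ⟨x, y, q, p, h4, rfl⟩ := hZ
  obtain ⟨xy, xq, xp, yq, yp, qp⟩ := h4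
  have hc : v = x ∨ v = y ∨ v = q ∨ v = p := by
    simp only [TFC.sq, mem_insert, mem_singleton] at he
    rcases he with rfl | rfl | rfl | rfl <;> rw [Sym2.mem_iff] at hv <;> tauto
  rcases hc with rfl | rfl | rfl | rfl
  · exact ⟨y, q, p, ⟨xy, xq, xp, yq, yp, qp⟩, rfl⟩
  · exact ⟨q, p, x, ⟨yq, yp, Ne.symm xy, qp, Ne.symm xq, Ne.symm xp⟩, sq_rot _ _ _ _⟩
  · exact ⟨p, x, y, ⟨qp, Ne.symm xq, Ne.symm yq, Ne.symm xp, Ne.symm yp, xy⟩, by rw [sq_rot, sq_rot]⟩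
  · exact ⟨x, y, q, ⟨Ne.symm xp, Ne.symm yp, Ne.symm qp, xy, xq, yq⟩, by rw [sq_rot, sq_rot, sq_rot]⟩

section
variable {X : XD} {P : ℕ → Finset (Sym2 ℕ) → Prop} {D : Finset (Finset (Sym2 ℕ))} {j : ℕ} {S : Finset ℕ}
  {M : ℕ → Finset (Sym2 ℕ)} {A : Clu ℕ → Finset (Sym2 ℕ) → Prop} {CL U : List (Clu ℕ)} {PL : Finset (Sym2 ℕ)}
  {pl mi : ℕ → Prop}

theorem PW.cW (_ : PW X P D j S M A CL U PL pl mi) {c : Clu ℕ} (hc : c ∈ U) : c.edges ⊆ Ucl U ∪ PL :=
  fun _ he => mem_union_left _ (mem_Ucl.2 ⟨c, hc, he⟩)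

theorem PW.cU (_ : PW X P D j S M A CL U PL pl mi) {c : Clu ℕ} (hc : c ∈ U) : c.edges ⊆ Ucl U :=
  fun _ he => mem_Ucl.2 ⟨c, hc, he⟩

theorem PW.djc (h : PW X P D j S M A CL U PL pl mi) {c c' : Clu ℕ} (hc : c ∈ U) (hc' : c' ∈ U) (hne : c ≠ c') :
    Disjoint c.edges c'.edges := by
  rw [Finset.disjoint_left]
  intro e he he'
  exact hne (h.cls.eq ((h.uc c).1 hc).1 ((h.uc c').1 hc').1 he he')

theorem PW.val (h : PW X P D j S M A CL U PL pl mi) {c : Clu ℕ} (hc : c ∈ U) : c.Valid :=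
  h.cls.val c ((h.uc c).1 hc).1

theorem PW.nl (h : PW X P D j S M A CL U PL pl mi) {K : Finset (Sym2 ℕ)} (hK : K ⊆ Ucl U ∪ PL) : NoLoop K :=
  fun e he => h.ok.nl e (h.ok.e2 (h.w2 (hK he)))

theorem PW.v2 (h : PW X P D j S M A CL U PL pl mi) {c : Clu ℕ} (hc : c ∈ U) {e : Sym2 ℕ} (he : e ∈ c.edges) {v : ℕ}
    (hv : v ∈ e) : v ∈ X.V2 :=
  h.ok.ev e (h.w2 (h.cW hc he)) v hv

/-- restrictions to the clusters of a set which is changed only in the cluster `c0` -/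
theorem AU_rep (h : PW X P D j S M A CL U PL pl mi) {c0 : Clu ℕ} (h0 : c0 ∈ U) {F K0 : Finset (Sym2 ℕ)}
    (hF : F ⊆ Ucl U ∪ PL) (hK0 : K0 ⊆ c0.edges) (hA0 : A c0 K0) (hA : ∀ c ∈ U, c ≠ c0 → A c (F ∩ c.edges)) :
    AU A U PL ((F \ c0.edges) ∪ K0) := by
  refine ⟨union_subset (sdiff_subset.trans hF) (hK0.trans (h.cW h0)), fun c hc => ?_⟩
  by_cases hcc : c = c0
  · subst hcc
    have e : ((F \ c.edges) ∪ K0) ∩ c.edges = K0 := by
      rw [union_inter_distrib_right, sdiff_inter_self, empty_union, inter_eq_left.2 hK0]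
    rw [e]
    exact hA0
  · have hd := h.djc hc h0 hcc
    have e : ((F \ c0.edges) ∪ K0) ∩ c.edges = F ∩ c.edges := by
      ext e
      simp only [mem_inter, mem_union, mem_sdiff]
      constructor
      · rintro ⟨h1 | h1, h2⟩
        · exact ⟨h1.1, h2⟩
        · exact absurd (hK0 h1) (disjoint_left.1 hd h2)
      · rintro ⟨h1, h2⟩
        exact ⟨Or.inl ⟨h1, disjoint_left.1 hd h2⟩, h2⟩
    rw [e]
    exact hA c hc hcc

/-- **replace a square of the family by another allowed set in the same cluster** -/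
theorem PW.repl (h : PW X P D j S M A CL U PL pl mi) {c0 : Clu ℕ} (h0 : c0 ∈ U)
    (hA : ∀ c ∈ U, c ≠ c0 → A c = Acap D) {Z : Finset (Sym2 ℕ)} (hZ : Z ∈ D) (hs : Z ⊆ c0.edges)
    {K0 : Finset (Sym2 ℕ)} (hK0 : K0 ⊆ c0.edges) (hK0A : A c0 K0) : 1 ≤ ph X.V2 pl mi (dv K0 - dv Z) := by
  obtain ⟨L, _, _, hM, hE, hZL, hu, hph⟩ := h.wit hZ (hs.trans (h.cU h0))
  have h1 := hph _ (AU_rep h h0 (F := L ∩ (Ucl U ∪ PL)) inter_subset_right hK0 hK0A (by
    intro c hc hcc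
    have e : L ∩ (Ucl U ∪ PL) ∩ c.edges = L ∩ c.edges := by
      rw [inter_assoc, inter_eq_right.2 (h.cW hc)]
    rw [e, hA c hc hcc]
    refine ⟨hM.mono inter_subset_left, fun Z' hZ' hs' => ?_⟩
    have h2 := hu Z' hZ' (hs'.trans inter_subset_left)
    subst h2
    obtain ⟨e, he⟩ := IsSq.ne (h.isq Z' hZ')
    exact disjoint_left.1 (h.djc hc h0 hcc) (mem_inter.1 (hs' he)).2 (hs he)))
  rw [dv_rep hK0] at h1
  have e : L ∩ (Ucl U ∪ PL) ∩ c0.edges = Z := by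
    rw [inter_assoc, inter_eq_right.2 (h.cW h0)]
    exact inter_eq (h.val h0) (h.isq Z hZ) hs hM hZL
  rw [e] at h1
  have e2 : dv (L ∩ (Ucl U ∪ PL)) - dv Z + dv K0 - dv (L ∩ (Ucl U ∪ PL)) = dv K0 - dv Z := by abel
  rwa [e2] at h1

/-- squares of the family are 2-matchings -/
theorem PW.m2Z (h : PW X P D j S M A CL U PL pl mi) {c0 : Clu ℕ} (h0 : c0 ∈ U) {Z : Finset (Sym2 ℕ)} (hZ : Z ∈ D)
    (hs : Z ⊆ c0.edges) : M2 Z := by
  obtain ⟨L, _, _, hM, _, hZL, _⟩ := h.wit hZ (hs.trans (h.cU h0))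
  exact hM.mono hZL

/-- fewer than four edges contain no square of the family -/
theorem PW.free_card (h : PW X P D j S M A CL U PL pl mi) {K : Finset (Sym2 ℕ)} (hK : #K < 4) :
    ∀ Z ∈ D, ¬ Z ⊆ K := fun Z hZ => sf_of_card hK Z (h.isq Z hZ)

/-- **adjacent corners of a square of the family** -/
theorem PW.adj (h : PW X P D j S M A CL U PL pl mi) {c0 : Clu ℕ} (h0 : c0 ∈ U)
    (hA : ∀ c ∈ U, A c = Acap D) {Z : Finset (Sym2 ℕ)} (hZ : Z ∈ D) (hs : Z ⊆ c0.edges) {a b : ℕ} (hab : s(a, b) ∈ Z) :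
    1 ≤ con (pl a) (mi a) (-1) + con (pl b) (mi b) (-1) := by
  have hn := h.nl ((hs.trans (h.cW h0)))
  have hne : a ≠ b := hn.ne hab
  have h1 := h.repl h0 (fun c hc _ => hA c hc) hZ hs ((erase_subset s(a, b) Z).trans hs) (by
    rw [hA c0 h0]
    refine ⟨(h.m2Z h0 hZ hs).mono (erase_subset _ _), h.free_card ?_⟩
    rw [card_erase_of_mem hab, IsSq.card (h.isq Z hZ)]
    norm_num)
  have e : dv (Z.erase s(a, b)) - dv Z = Pi.single a (-1) + Pi.single b (-1) := by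
    rw [TFC.dv_erase hne hab]
    have e1 : (Pi.single a (-1) : ℕ → ℤ) = -ev a := by rw [Pi.single_neg]; rfl
    have e2 : (Pi.single b (-1) : ℕ → ℤ) = -ev b := by rw [Pi.single_neg]; rfl
    rw [e1, e2]
    abel
  rw [e, ph_two (h.v2 h0 (hs hab) (by simp)) (h.v2 h0 (hs hab) (by simp)) hne] at h1
  exact h1

/-- no corner of a square of the family has type Y -/
theorem PW.notY (h : PW X P D j S M A CL U PL pl mi) {c0 : Clu ℕ} (h0 : c0 ∈ U)
    (hA : ∀ c ∈ U, A c = Acap D) {Z : Finset (Sym2 ℕ)} (hZ : Z ∈ D) (hs : Z ⊆ c0.edges) {a b : ℕ} (hab : s(a, b) ∈ Z) :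
    pl a → mi a := by
  intro hp
  by_contra hm
  have h1 := h.adj h0 hA hZ hs hab
  rw [con_Y hp hm] at h1
  have h2 := con_neg_one (pl b) (mi b)
  omega

/-- a corner of a `K4` cluster has type X -/
theorem PW.k4X (h : PW X P D j S M A CL U PL pl mi) {Y : Finset ℕ} (h0 : Clu.k4 Y ∈ U)
    (hA : ∀ c ∈ U, c ≠ Clu.k4 Y → A c = Acap D) (hA0 : A (Clu.k4 Y) = Acap D) {v : ℕ} (hv : v ∈ Y) :
    mi v ∧ ¬ pl v := by
  have hval : #Y = 4 := h.val h0
  obtain ⟨a₀, ha₀⟩ : (Y.erase v).Nonempty := by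
    rw [← card_pos, card_erase_of_mem hv, hval]; norm_num
  simp only [mem_erase] at ha₀
  -- a square of the family in the cluster
  obtain ⟨Z, hZ, he, hs⟩ := h.cls.edge_sq ((h.uc _).1 h0).1 (f := s(v, a₀)) (mem_k4.2 ⟨hv, ha₀.2, Ne.symm ha₀.1⟩)
  obtain ⟨a, b, c, h4, rfl⟩ := sq_at (v := v) (h.isq Z hZ) he (by simp)
  have dZ := dv_sq h4
  obtain ⟨va, vb, vc, ab, ac, bc⟩ := h4
  have e1 : s(a, b) ∈ (Clu.k4 Y).edges := hs (by simp [TFC.sq])
  have e2 : s(b, c) ∈ (Clu.k4 Y).edges := hs (by simp [TFC.sq])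
  rw [mem_k4] at e1 e2
  -- the triangle
  set K : Finset (Sym2 ℕ) := {s(a, b), s(b, c), s(a, c)} with hK
  have n1 : s(b, c) ∉ ({s(a, c)} : Finset (Sym2 ℕ)) := by
    simp only [mem_singleton, Sym2.eq_iff]
    rintro (⟨h1, _⟩ | ⟨h1, _⟩)
    · exact ab h1.symm
    · exact bc h1
  have n2 : s(a, b) ∉ ({s(b, c), s(a, c)} : Finset (Sym2 ℕ)) := by
    simp only [mem_insert, mem_singleton, Sym2.eq_iff]
    rintro ((⟨h1, _⟩ | ⟨h1, _⟩) | (⟨_, h1⟩ | ⟨h1, _⟩))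
    · exact ab h1
    · exact ac h1
    · exact bc h1
    · exact ac h1
  have hKc : K ⊆ (Clu.k4 Y).edges := by
    intro e he
    simp only [hK, mem_insert, mem_singleton] at he
    rcases he with rfl | rfl | rfl
    · exact mem_k4.2 e1
    · exact mem_k4.2 e2
    · exact mem_k4.2 ⟨e1.1, e2.2.1, ac⟩
  have dK : dv K = ev a + ev a + ev b + ev b + ev c + ev c := by
    rw [hK, TFC.dv_insert ab n2, TFC.dv_insert bc n1, XT.dv_pair ac]
    show ev a + ev c + ev b + ev c + ev a + ev b = _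
    abel
  have h1 := h.repl h0 hA hZ hs hKc (by
    rw [hA0]
    refine ⟨M2.of_dv (h.nl (hKc.trans (h.cW h0))) ?_, h.free_card ?_⟩
    · intro w
      rw [dK]
      simp only [Pi.add_apply, ev_apply]
      split_ifs <;> simp_all
    · rw [hK, card_insert_of_notMem n2, card_insert_of_notMem n1, card_singleton]
      norm_num)
  have e : dv K - dv (TFC.sq v a b c) = Pi.single v (-2) := by
    rw [dK, dZ]
    have e1 : (Pi.single v (-2) : ℕ → ℤ) = -ev v - ev v := by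
      funext w
      simp only [Pi.sub_apply, Pi.neg_apply, ev_apply, Pi.single_apply]
      split_ifs <;> norm_num
    rw [e1]
    abel
  have hv2 : v ∈ X.V2 := h.v2 h0 (hs he) (by simp)
  rw [e, ph_one hv2] at h1
  unfold con at h1
  split_ifs at h1 with p1 p2 p2
  · norm_num at h1
  · norm_num at h1
  · exact ⟨p2, p1⟩
  · norm_num at h1

/-! ### clusters with two hubs -/

/-- the square with two given leaves -/
theorem sq_tw {u v b c : ℕ} : TFC.sq u b v c = tw u v {b, c} {b, c} := by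
  ext e
  induction e using Sym2.ind with
  | _ p q =>
    rw [mem_tw]
    simp only [TFC.sq, mem_insert, mem_singleton, Sym2.eq_iff]
    tauto

/-- the leaves: facts on one leaf exchange -/
theorem PW.leaf (h : PW X P D j S M A CL U PL pl mi) {u v : ℕ} {L : Finset ℕ} (h0 : Clu.k2 u v L ∈ U)
    (hA : ∀ c ∈ U, A c = Acap D) {b c l : ℕ} (hb : b ∈ L) (hc : c ∈ L) (hl : l ∈ L) (bc : b ≠ c) (bl : b ≠ l)
    (cl : c ≠ l) (hD : TFC.sq u c v l ∈ D) : 1 ≤ con (pl c) (mi c) (-1) + con (pl b) (mi b) 1 := by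
  obtain ⟨uv, uL, vL, _⟩ : u ≠ v ∧ u ∉ L ∧ v ∉ L ∧ 2 ≤ #L := h.val h0
  have s1 : ({b, l} : Finset ℕ) ⊆ L := by
    intro w hw
    simp only [mem_insert, mem_singleton] at hw
    rcases hw with rfl | rfl <;> assumption
  have s2 : ({c, l} : Finset ℕ) ⊆ L := by
    intro w hw
    simp only [mem_insert, mem_singleton] at hw
    rcases hw with rfl | rfl <;> assumption
  have hK : tw u v {b, l} {c, l} ⊆ (Clu.k2 u v L).edges := tw_sub s1 s2
  have hZ : TFC.sq u c v l ⊆ (Clu.k2 u v L).edges := by rw [sq_tw]; exact tw_sub s2 s2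
  have c1 : #({b, l} : Finset ℕ) = 2 := card_pair bl
  have c2 : #({c, l} : Finset ℕ) = 2 := card_pair cl
  have d1 := fun w => dv_tw uv uL vL s1 s2 w
  have d2 := fun w => dv_tw uv uL vL s2 s2 w
  rw [c1, c2] at d1
  rw [c2] at d2
  simp only [mem_insert, mem_singleton] at d1 d2
  have h1 := h.repl h0 (fun c hc _ => hA c hc) hD hZ hK (by
    rw [hA _ h0]
    refine ⟨M2.of_dv (h.nl (hK.trans (h.cW h0))) ?_, ?_⟩
    · intro w
      rw [d1]
      have w1 : w = u → w ∉ L := fun e => e ▸ uL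
      have w2 : w = v → w ∉ L := fun e => e ▸ vL
      have w3 : w = b → w ∈ L := fun e => e ▸ hb
      have w4 : w = c → w ∈ L := fun e => e ▸ hc
      have w5 : w = l → w ∈ L := fun e => e ▸ hl
      by_cases e1 : w = b <;> by_cases e2 : w = c <;> by_cases e3 : w = l <;> by_cases e4 : w = u <;>
        by_cases e5 : w = v <;> simp_all
    · intro Z hZ hs
      refine (tw_free uv uL vL s1 s2).2 ?_ Z (h.isq Z hZ) hs
      rw [card_le_one]
      intro a ha b' hb'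
      simp only [mem_inter, mem_insert, mem_singleton] at ha hb'
      rcases ha with ⟨rfl | rfl, h1 | h1⟩ <;> rcases hb' with ⟨rfl | rfl, h2 | h2⟩ <;> simp_all)
  have e : dv (tw u v {b, l} {c, l}) - dv (TFC.sq u c v l) = Pi.single c (-1) + Pi.single b 1 := by
    rw [sq_tw]
    funext w
    rw [Pi.sub_apply, d1, d2, Pi.add_apply, Pi.single_apply, Pi.single_apply]
    by_cases e1 : w = b <;> by_cases e2 : w = c <;> by_cases e3 : w = l <;> simp_all
  have vc : c ∈ X.V2 := h.v2 h0 (hZ (by simp [TFC.sq] : s(u, c) ∈ TFC.sq u c v l)) (by simp)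
  have vb : b ∈ X.V2 := h.v2 h0 (hK (mem_tw.2 (Or.inl ⟨rfl, by simp⟩) : s(u, b) ∈ tw u v {b, l} {c, l})) (by simp)
  rw [e, ph_two vc vb bc.symm] at h1
  exact h1

/-- a leaf which is missing in a square of the family does not have type X -/
theorem PW.leaf_notX (h : PW X P D j S M A CL U PL pl mi) {u v : ℕ} {L : Finset ℕ} (h0 : Clu.k2 u v L ∈ U)
    (hA : ∀ c ∈ U, A c = Acap D) {b c l : ℕ} (hb : b ∈ L) (hc : c ∈ L) (hl : l ∈ L) (bc : b ≠ c) (bl : b ≠ l)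
    (cl : c ≠ l) (hD : TFC.sq u c v l ∈ D) (hm : mi b) : pl b := by
  by_contra hp
  have h1 := h.leaf h0 hA hb hc hl bc bl cl hD
  rw [con_X hp hm] at h1
  have h2 := con_neg_one (pl c) (mi c)
  omega

/-- squares in a cluster with two hubs -/
theorem k2_sq {u v : ℕ} {L : Finset ℕ} (hv : (Clu.k2 u v L).Valid) {Z : Finset (Sym2 ℕ)} (hZ : IsSq Z)
    (hs : Z ⊆ (Clu.k2 u v L).edges) {b : ℕ} (he : s(u, b) ∈ Z) :
    ∃ l ∈ L, b ∈ L ∧ l ≠ b ∧ Z = TFC.sq u b v l := by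
  obtain ⟨a, v', c, h4, rfl⟩ := sq_at (v := u) hZ he (by simp)
  have hd := h4
  obtain ⟨n1, n2, n3, n4, n5, n6⟩ := hd
  rcases shape hv h4 hs with h | ⟨L', h | h, h1, h2, h3, h5⟩ | ⟨L', h | h, h1, h2, h3, h5⟩
  · cases h
  · injection h with _ e1 e2
    subst e1 e2
    simp only [TFC.sq, mem_insert, mem_singleton, Sym2.eq_iff] at he
    have hb : b = a ∨ b = c := by
      rcases he with (⟨_, h⟩ | ⟨h, _⟩) | (⟨h, _⟩ | ⟨h, _⟩) | (⟨h, _⟩ | ⟨h, _⟩) | (⟨h, _⟩ | ⟨_, h⟩)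
      · exact Or.inl h
      · exact absurd h n1
      · exact absurd h n1
      · exact absurd h n2
      · exact absurd h n2
      · exact absurd h n3
      · exact absurd h n3
      · exact Or.inr h
    rcases hb with rfl | rfl
    · exact ⟨c, h2, h1, n5.symm, rfl⟩
    · exact ⟨a, h1, h2, n5, by rw [sq_ref, sq_rot, sq_rot, sq_rot]⟩
  · injection h with e0
    exact absurd e0 n2
  · injection h with e0
    exact absurd e0 n1
  · injection h with e0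
    exact absurd e0 n3

/-- **a square of the cluster which is not in the family**: the centre `e` has type X, the leaves `b`, `c` have not -/
theorem PW.star (h : PW X P D j S M A CL U PL pl mi) {u v : ℕ} {L : Finset ℕ} (h0 : Clu.k2 u v L ∈ U)
    (hA : ∀ c ∈ U, A c = Acap D) {b c : ℕ} (hb : b ∈ L) (hc : c ∈ L) (bc : b ≠ c) (hD : TFC.sq u b v c ∉ D) :
    ∃ e ∈ L, e ≠ b ∧ e ≠ c ∧ (mi e ∧ ¬ pl e) ∧ (mi b → pl b) ∧ (mi c → pl c) := by
  obtain ⟨uv, uL, vL, _⟩ : u ≠ v ∧ u ∉ L ∧ v ∉ L ∧ 2 ≤ #L := h.val h0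
  have swp : ∀ a d : ℕ, TFC.sq u a v d = TFC.sq u d v a := fun a d => by rw [sq_ref, sq_rot, sq_rot, sq_rot]
  -- every leaf is in a square of the family
  have par : ∀ b ∈ L, ∃ l ∈ L, l ≠ b ∧ TFC.sq u b v l ∈ D := by
    intro b hb
    obtain ⟨Z, hZ, he, hs⟩ := h.cls.edge_sq ((h.uc _).1 h0).1 (f := s(u, b)) (mem_k2.2 (Or.inl ⟨Or.inl rfl, hb⟩))
    obtain ⟨l, hl, _, hlb, rfl⟩ := k2_sq (h.val h0) (h.isq Z hZ) hs he
    exact ⟨l, hl, hlb, hZ⟩
  obtain ⟨e, he, heb, hbe⟩ := par b hb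
  obtain ⟨l, hl, hlc, hcl⟩ := par c hc
  have hec : e ≠ c := by
    rintro rfl
    exact hD hbe
  have hlb : l ≠ b := by
    rintro rfl
    exact hD (by rw [swp]; exact hcl)
  have hbX : mi b → pl b := h.leaf_notX h0 hA hb hc hl bc hlb.symm hlc.symm hcl
  have hcX : mi c → pl c := h.leaf_notX h0 hA hc hb he bc.symm hec.symm heb.symm hbe
  have two : ∀ a d : ℕ, a ∈ L → d ∈ L → ({a, d} : Finset ℕ) ⊆ L := by
    intro a d ha hd w hw
    simp only [mem_insert, mem_singleton] at hw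
    rcases hw with rfl | rfl <;> assumption
  have cY : ∀ c ∈ L, pl c → mi c := by
    intro c hc
    obtain ⟨l, hl, _, hD'⟩ := par c hc
    refine h.notY h0 hA hD' (by rw [sq_tw]; exact tw_sub (two _ _ hc hl) (two _ _ hc hl)) (a := c) (b := u) ?_
    simp [TFC.sq, Sym2.eq_swap]
  -- replace the leaf `a` by the leaf `d`
  have rep : ∀ a d k : ℕ, a ∈ L → d ∈ L → k ∈ L → a ≠ d → a ≠ k → d ≠ k → TFC.sq u a v k ∈ D →
      TFC.sq u d v k ∉ D → 1 ≤ con (pl a) (mi a) (-2) + con (pl d) (mi d) 2 := by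
    intro a d k ha hd hk ad ak dk h1 h2
    have hK : TFC.sq u d v k ⊆ (Clu.k2 u v L).edges := by rw [sq_tw]; exact tw_sub (two _ _ hd hk) (two _ _ hd hk)
    have hZ : TFC.sq u a v k ⊆ (Clu.k2 u v L).edges := by rw [sq_tw]; exact tw_sub (two _ _ ha hk) (two _ _ ha hk)
    have ne : ∀ w ∈ L, u ≠ w ∧ v ≠ w := fun w hw => ⟨fun e => uL (e ▸ hw), fun e => vL (e ▸ hw)⟩
    have d4 : Dist4 u d v k := ⟨(ne d hd).1, uv, (ne k hk).1, (ne d hd).2.symm, dk, (ne k hk).2⟩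
    have d4' : Dist4 u a v k := ⟨(ne a ha).1, uv, (ne k hk).1, (ne a ha).2.symm, ak, (ne k hk).2⟩
    have h3 := h.repl h0 (fun c hc _ => hA c hc) h1 hZ hK (by
      rw [hA _ h0]
      refine ⟨M2.of_dv (h.nl (hK.trans (h.cW h0))) ?_, ?_⟩
      · intro w
        rw [dv_sq d4]
        obtain ⟨m1, m2, m3, m4, m5, m6⟩ := d4
        simp only [Pi.add_apply, ev_apply]
        split_ifs <;> simp_all
      · intro Z hZ' hs
        have h4 : Z = TFC.sq u d v k := eq_of_subset_of_card_le hs (by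
          rw [IsSq.card (h.isq Z hZ'), R4_card_sq d4])
        exact h2 (h4 ▸ hZ'))
    have e : dv (TFC.sq u d v k) - dv (TFC.sq u a v k) = Pi.single a (-2) + Pi.single d 2 := by
      rw [dv_sq d4, dv_sq d4']
      have e1 : (Pi.single a (-2) : ℕ → ℤ) = -ev a - ev a := by
        funext w
        simp only [Pi.sub_apply, Pi.neg_apply, ev_apply, Pi.single_apply]
        split_ifs <;> norm_num
      have e2 : (Pi.single d 2 : ℕ → ℤ) = ev d + ev d := by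
        funext w
        simp only [Pi.add_apply, ev_apply, Pi.single_apply]
        split_ifs <;> norm_num
      rw [e1, e2]
      abel
    have va : a ∈ X.V2 := h.v2 h0 (hZ (by simp [TFC.sq] : s(u, a) ∈ TFC.sq u a v k)) (by simp)
    have vd : d ∈ X.V2 := h.v2 h0 (hK (by simp [TFC.sq] : s(u, d) ∈ TFC.sq u d v k)) (by simp)
    rw [e, ph_two va vd ad] at h3
    exact h3
  -- values of the form
  have v1 : ∀ d, (pl d → mi d) → con (pl d) (mi d) 2 ≤ 0 := by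
    intro d hd
    unfold con
    split_ifs with p1 p2 p2
    · norm_num
    · exact absurd (hd p1) p2
    · norm_num
    · norm_num
  have v2 : ∀ d, 1 ≤ con (pl d) (mi d) (-2) → mi d ∧ ¬ pl d := by
    intro d hd
    unfold con at hd
    split_ifs at hd with p1 p2 p2
    · norm_num at hd
    · norm_num at hd
    · exact ⟨p2, p1⟩
    · norm_num at hd
  have hce : TFC.sq u c v e ∈ D := by
    by_contra hn
    have h1 := rep b c e hb hc he bc heb.symm hec.symm hbe hn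
    have h2 := v1 c (cY c hc)
    obtain ⟨h3, h4⟩ := v2 b (by omega)
    exact h4 (hbX h3)
  refine ⟨e, he, heb, hec, ?_, hbX, hcX⟩
  have h1 := rep e c b he hc hb hec heb bc.symm (by rw [swp]; exact hbe) (by rw [swp]; exact hD)
  have h2 := v1 c (cY c hc)
  exact v2 e (by omega)

end

end Pool.Agent.PF4.XT

end

section -- file PF4/XSh

/-!
The phi frame: `K4` clusters, shapes of the `K2` clusters, the elementary lemmas `L1` - `L5`.
-/

set_option autoImplicit false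

namespace Pool.Agent.PF4.XT

open Finset Pool.Agent.TFC Pool.Agent.PF4 Pool.Agent.PF4.LD Pool.Agent.PF4.XC Pool.Agent.PF4.XF

/-! ### contributions -/

theorem con_two_le (p m : Prop) : con p m 2 ≤ 2 := by
  unfold con; split_ifs <;> norm_num

theorem con_neg_two {p m : Prop} (h : 1 ≤ con p m (-2)) : m ∧ ¬ p := by
  unfold con at h
  split_ifs at h with h1 h2 h2
  · norm_num at h
  · norm_num at h
  · exact ⟨h2, h1⟩
  · norm_num at h

theorem con_two_pos {p m : Prop} (h : 1 ≤ con p m 2) : p ∧ ¬ m := by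
  unfold con at h
  split_ifs at h with h1 h2 h2
  · norm_num at h
  · exact ⟨h1, h2⟩
  · norm_num at h
  · norm_num at h

theorem con_one_X {p m : Prop} (h : 0 ≤ con p m 1) : ¬ (m ∧ ¬ p) := by
  rintro ⟨h1, h2⟩
  rw [con_X h2 h1] at h
  norm_num at h

theorem con_neg_one_Y {p m : Prop} (h : 0 ≤ con p m (-1)) : ¬ (p ∧ ¬ m) := by
  rintro ⟨h1, h2⟩
  rw [con_Y h1 h2] at h
  norm_num at h

theorem con_neg_one_free {p m : Prop} (h : ¬ m) : con p m (-1) ≤ 0 := by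
  by_contra hc
  exact h (con_neg_eq (p := p) (by omega))

/-! ### evaluation -/

/-- vertices of type X contribute linearly -/
theorem ph_addX {V Y : Finset ℕ} {pl mi : ℕ → Prop} (hY : Y ⊆ V) (hX : ∀ v ∈ Y, mi v ∧ ¬ pl v) {d1 d2 : ℕ → ℤ}
    (h1 : ∀ v, v ∉ Y → d1 v = 0) : ph V pl mi (d1 + d2) = ph V pl mi d2 - ∑ v ∈ Y, d1 v := by
  have h2 : ∑ v ∈ Y, d1 v = ∑ v ∈ V, d1 v := Finset.sum_subset hY fun v _ hv => h1 v hv
  rw [h2, ph, ph, ← Finset.sum_sub_distrib]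
  refine Finset.sum_congr rfl fun v _ => ?_
  by_cases hv : v ∈ Y
  · obtain ⟨h3, h4⟩ := hX v hv
    rw [con_X h4 h3, con_X h4 h3, Pi.add_apply]
    ring
  · rw [Pi.add_apply, h1 v hv, zero_add, sub_zero]

/-- the degrees of a part of a `K4` -/
theorem sum_dv_k4 {Y : Finset ℕ} {K : Finset (Sym2 ℕ)} (hK : K ⊆ (Clu.k4 Y).edges) : ∑ v ∈ Y, dv K v = 2 * #K := by
  induction K using Finset.induction_on with
  | empty => simp [dv, dg]
  | insert e K he ih =>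
    have h1 := ih fun f hf => hK (Finset.mem_insert_of_mem hf)
    have h2 := hK (Finset.mem_insert_self e K)
    induction e using Sym2.ind with
    | _ u v =>
    rw [mem_k4] at h2
    obtain ⟨hu, hv, huv⟩ := h2
    rw [dv_insert he, dv_pair huv, Finset.card_insert_of_notMem he]
    simp only [Pi.add_apply, Finset.sum_add_distrib, XU.sum_single, if_pos hu, if_pos hv, h1]
    push_cast
    ring

theorem dv_k4_off {Y : Finset ℕ} {K : Finset (Sym2 ℕ)} (hK : K ⊆ (Clu.k4 Y).edges) {v : ℕ} (hv : v ∉ Y) :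
    dv K v = 0 := by
  refine dv_off hK fun hc => hv ?_
  obtain ⟨e, he, hve⟩ := mem_vs.1 hc
  obtain ⟨w, rfl⟩ := hve
  exact (mem_k4.1 he).1

/-- one more edge removed -/
theorem ph_sub_edge {V : Finset ℕ} {pl mi : ℕ → Prop} {a b : ℕ} (ha : a ∈ V) (hb : b ∈ V) (hab : a ≠ b) :
    ph V pl mi (-dv {s(a, b)}) = con (pl a) (mi a) (-1) + con (pl b) (mi b) (-1) := by
  rw [dv_pair hab, neg_add, ← Pi.single_neg, ← Pi.single_neg, ph_two ha hb hab]

/-! ### replacing the part in one cluster -/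

section
variable {X : XD} {P : ℕ → Finset (Sym2 ℕ) → Prop} {D : Finset (Finset (Sym2 ℕ))} {j : ℕ} {S : Finset ℕ}
  {M : ℕ → Finset (Sym2 ℕ)} {A : Clu ℕ → Finset (Sym2 ℕ) → Prop} {CL U : List (Clu ℕ)} {PL : Finset (Sym2 ℕ)}
  {pl mi : ℕ → Prop}

theorem PW.cW' (_ : PW X P D j S M A CL U PL pl mi) {c : Clu ℕ} (hc : c ∈ U) : c.edges ⊆ Ucl U ∪ PL :=
  fun _ he => Finset.mem_union_left _ (mem_Ucl.2 ⟨c, hc, he⟩)

theorem PW.interW (h : PW X P D j S M A CL U PL pl mi) {c : Clu ℕ} (hc : c ∈ U) (L : Finset (Sym2 ℕ)) :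
    L ∩ (Ucl U ∪ PL) ∩ c.edges = L ∩ c.edges := by
  rw [Finset.inter_assoc]
  congr 1
  rw [Finset.inter_eq_right]
  exact h.cW' hc

theorem PW.val' (h : PW X P D j S M A CL U PL pl mi) {c : Clu ℕ} (hc : c ∈ U) : c.Valid :=
  h.cls.val c ((h.uc c).1 hc).1

theorem PW.eqc (h : PW X P D j S M A CL U PL pl mi) {c c' : Clu ℕ} (hc : c ∈ U) (hc' : c' ∈ U) {e : Sym2 ℕ}
    (he : e ∈ c.edges) (he' : e ∈ c'.edges) : c = c' :=
  h.cls.eq ((h.uc c).1 hc).1 ((h.uc c').1 hc').1 he he'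

theorem PW.v2' (h : PW X P D j S M A CL U PL pl mi) {e : Sym2 ℕ} (he : e ∈ Ucl U ∪ PL) {v : ℕ} (hv : v ∈ e) :
    v ∈ X.V2 := by
  by_contra hc
  have h1 := dg_off h.ok h.w2 hc
  rw [dg, Finset.card_eq_zero, Finset.filter_eq_empty_iff] at h1
  exact h1 he hv

/-- the cluster of a square of `D` in the region -/
theorem PW.clq (h : PW X P D j S M A CL U PL pl mi) {Z : Finset (Sym2 ℕ)} (hZ : Z ∈ D) (hZU : Z ⊆ Ucl U) :
    ∃ c ∈ U, Z ⊆ c.edges := by
  obtain ⟨a, b, x, y, _, hZe⟩ := h.isq Z hZ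
  have he : s(a, b) ∈ Z := by rw [hZe]; simp [TFC.sq]
  obtain ⟨c, hc, hec⟩ := mem_Ucl.1 (hZU he)
  refine ⟨c, hc, (h.cls.whole ((h.uc c).1 hc).1 hZ).resolve_right fun hd => ?_⟩
  exact Finset.disjoint_left.1 hd he hec

/-- replace the part in the cluster `c` by `F` -/
theorem PW.rep (h : PW X P D j S M A CL U PL pl mi) {c : Clu ℕ} (hc : c ∈ U) {K0 F : Finset (Sym2 ℕ)}
    (hK : K0 ⊆ Ucl U ∪ PL) (hA : ∀ c' ∈ U, c' ≠ c → A c' (K0 ∩ c'.edges)) (hF : F ⊆ c.edges) (hAF : A c F) :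
    AU A U PL ((K0 \ c.edges) ∪ F) ∧ dv ((K0 \ c.edges) ∪ F) = dv K0 - dv (K0 ∩ c.edges) + dv F := by
  have hd : Disjoint (K0 \ c.edges) F := Finset.disjoint_of_subset_right hF Finset.sdiff_disjoint
  refine ⟨⟨Finset.union_subset (Finset.sdiff_subset.trans hK) (hF.trans (h.cW' hc)), fun c' hc' => ?_⟩, ?_⟩
  · by_cases hcc : c' = c
    · subst hcc
      have e : (K0 \ c'.edges ∪ F) ∩ c'.edges = F := by
        rw [Finset.union_inter_distrib_right, Finset.inter_eq_left.2 hF,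
          Finset.disjoint_iff_inter_eq_empty.1 Finset.sdiff_disjoint, Finset.empty_union]
      rw [e]
      exact hAF
    · have hdc : Disjoint c.edges c'.edges := by
        rw [Finset.disjoint_left]
        intro e he he'
        exact hcc (h.eqc hc' hc he' he)
      have e : (K0 \ c.edges ∪ F) ∩ c'.edges = K0 ∩ c'.edges := by
        rw [Finset.union_inter_distrib_right, Finset.disjoint_iff_inter_eq_empty.1 (hdc.mono_left hF),
          Finset.union_empty]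
        ext e
        simp only [Finset.mem_inter, Finset.mem_sdiff]
        refine ⟨fun h1 => ⟨h1.1.1, h1.2⟩, fun h1 => ⟨⟨h1.1, fun h2 => ?_⟩, h1.2⟩⟩
        exact Finset.disjoint_left.1 hdc h2 h1.2
      rw [e]
      exact hA c' hc' hcc
  · rw [dv_union hd]
    congr 1
    have e : K0 \ c.edges = K0 \ (K0 ∩ c.edges) := by
      ext e
      simp only [Finset.mem_inter, Finset.mem_sdiff]
      tauto
    rw [e, dv_sdiff Finset.inter_subset_left]

/-- `L` is allowed outside of the cluster `c` -/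
def Out (A : Clu ℕ → Finset (Sym2 ℕ) → Prop) (U : List (Clu ℕ)) (c : Clu ℕ) (L : Finset (Sym2 ℕ)) : Prop :=
  ∀ c' ∈ U, c' ≠ c → A c' (L ∩ c'.edges)

/-- **near cover with the part in one cluster replaced** -/
theorem PW.nc_rep (h : PW X P D j S M A CL U PL pl mi) {w : ℕ} (hw : w ∈ S) (hT : w ∈ X.T) {c : Clu ℕ} (hc : c ∈ U)
    (hA : Out A U c (M w)) {F : Finset (Sym2 ℕ)} (hF : F ⊆ c.edges) (hAF : A c F) :
    1 ≤ ph X.V2 pl mi (dv F - dv (M w ∩ c.edges) - Pi.single w 1) := by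
  obtain ⟨h1, h2⟩ := h.rep hc (K0 := M w ∩ (Ucl U ∪ PL)) Finset.inter_subset_right
    (fun c' hc' hne => by rw [h.interW hc']; exact hA c' hc' hne) hF hAF
  have h3 := h.nc w hw hT _ h1
  rw [h2, h.interW hc] at h3
  have e : dv (M w ∩ (Ucl U ∪ PL)) - dv (M w ∩ c.edges) + dv F - dv (M w ∩ (Ucl U ∪ PL)) - Pi.single w 1 =
      dv F - dv (M w ∩ c.edges) - Pi.single w 1 := by abel
  rwa [e] at h3

/-- what a witness of `Z` is -/
structure Wt (X : XD) (P : ℕ → Finset (Sym2 ℕ) → Prop) (D : Finset (Finset (Sym2 ℕ))) (j : ℕ)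
    (Z L : Finset (Sym2 ℕ)) : Prop where
  mem : P j L
  cov : Cv X L
  m2 : M2 L
  sub : L ⊆ X.E
  sq : Z ⊆ L
  uni : ∀ Z' ∈ D, Z' ⊆ L → Z' = Z

theorem PW.wt (h : PW X P D j S M A CL U PL pl mi) {Z : Finset (Sym2 ℕ)} (hZ : Z ∈ D) : ∃ L, Wt X P D j Z L := by
  obtain ⟨L, h1, h2, h3, h4, h5, h6⟩ := h.witE Z hZ
  exact ⟨L, h1, h2, h3, h4, h5, h6⟩

/-- **witness with `R` removed and the part in one cluster replaced** -/
theorem PW.wit_rep (h : PW X P D j S M A CL U PL pl mi) {Z L : Finset (Sym2 ℕ)} (hZ : Z ∈ D) (hZU : Z ⊆ Ucl U)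
    (hL : Wt X P D j Z L) {c : Clu ℕ} (hc : c ∈ U) {R : Finset (Sym2 ℕ)} (hR : R ⊆ L) (hRW : R ⊆ Ucl U ∪ PL)
    (hA : Out A U c (L \ R)) {F : Finset (Sym2 ℕ)} (hF : F ⊆ c.edges) (hAF : A c F) :
    1 ≤ ph X.V2 pl mi (dv F - dv ((L \ R) ∩ c.edges) - dv R) := by
  have e0 : (L \ R) ∩ (Ucl U ∪ PL) = (L ∩ (Ucl U ∪ PL)) \ R := by
    ext e
    simp only [Finset.mem_inter, Finset.mem_sdiff]
    tauto
  obtain ⟨h1, h2⟩ := h.rep hc (K0 := (L \ R) ∩ (Ucl U ∪ PL)) Finset.inter_subset_right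
    (fun c' hc' hne => by rw [h.interW hc']; exact hA c' hc' hne) hF hAF
  have h3 := h.witA Z hZ hZU L hL.mem hL.cov hL.uni _ h1
  rw [h2, h.interW hc, e0, dv_sdiff (Finset.subset_inter hR hRW)] at h3
  have e : dv (L ∩ (Ucl U ∪ PL)) - dv R - dv ((L \ R) ∩ c.edges) + dv F - dv (L ∩ (Ucl U ∪ PL)) =
      dv F - dv ((L \ R) ∩ c.edges) - dv R := by abel
  rwa [e] at h3

/-- witness with the part in one cluster replaced -/
theorem PW.wit_rep0 (h : PW X P D j S M A CL U PL pl mi) {Z L : Finset (Sym2 ℕ)} (hZ : Z ∈ D) (hZU : Z ⊆ Ucl U)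
    (hL : Wt X P D j Z L) {c : Clu ℕ} (hc : c ∈ U) (hA : Out A U c L) {F : Finset (Sym2 ℕ)} (hF : F ⊆ c.edges)
    (hAF : A c F) : 1 ≤ ph X.V2 pl mi (dv F - dv (L ∩ c.edges)) := by
  have := h.wit_rep hZ hZU hL hc (R := ∅) (Finset.empty_subset _) (Finset.empty_subset _)
    (by rw [Finset.sdiff_empty]; exact hA) hF hAF
  rw [Finset.sdiff_empty, dv_empty, sub_zero] at this
  exact this

/-! ### allowed sets -/

/-- no square at all -/
def NSq (K : Finset (Sym2 ℕ)) : Prop := ∀ Z, IsSq Z → ¬ Z ⊆ K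

theorem NSq.mono {K K' : Finset (Sym2 ℕ)} (h : NSq K) (hK : K' ⊆ K) : NSq K' := fun Z hZ hs => h Z hZ (hs.trans hK)

theorem nsq_small {K : Finset (Sym2 ℕ)} (h : #K < 4) : NSq K := by
  rintro Z ⟨a, b, c, d, h4, rfl⟩ hs
  have := Finset.card_le_card hs
  rw [R4_card_sq h4] at this
  omega

theorem nsq_good {K : Finset (Sym2 ℕ)} (hK : NoLoop K) : NSq K ↔ Good none4 K := by
  constructor
  · intro h a b c d hs
    exact h _ ⟨a, b, c, d, hs.dist4 hK, rfl⟩ (R4_sq_sub hs)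
  · rintro h Z ⟨a, b, c, d, ⟨_, hac, _, _, hbd, _⟩, rfl⟩ hs
    exact h a b c d ⟨hac, hbd, hs (by simp [TFC.sq]), hs (by simp [TFC.sq]), hs (by simp [TFC.sq]),
      hs (by simp [TFC.sq])⟩

/-- all square-free 2-matchings of the cluster are allowed (true in every frame) -/
def AM2 (A : Clu ℕ → Finset (Sym2 ℕ) → Prop) (c : Clu ℕ) : Prop := ∀ K ⊆ c.edges, M2 K → NSq K → A c K

/-- capped frame at the cluster `c`: all 2-matchings without square of `D` are allowed -/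
def ACp (D : Finset (Finset (Sym2 ℕ))) (A : Clu ℕ → Finset (Sym2 ℕ) → Prop) (c : Clu ℕ) : Prop :=
  ∀ K ⊆ c.edges, Acap D K → A c K

/-- uncapped square-free frame at the cluster `c` -/
def ASf (A : Clu ℕ → Finset (Sym2 ℕ) → Prop) (c : Clu ℕ) : Prop := ∀ K ⊆ c.edges, NSq K → A c K

theorem ASf.am2 {A : Clu ℕ → Finset (Sym2 ℕ) → Prop} {c : Clu ℕ} (h : ASf A c) : AM2 A c :=
  fun K hK _ hs => h K hK hs

theorem ACp.am2 {A : Clu ℕ → Finset (Sym2 ℕ) → Prop} {c : Clu ℕ} (hD : ∀ Z ∈ D, IsSq Z) (h : ACp D A c) :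
    AM2 A c := fun K hK hm hs => h K hK ⟨hm, fun Z hZ => hs Z (hD Z hZ)⟩

/-! ### `K4` clusters -/

theorem k4_dv_sq {Y : Finset ℕ} (hY : #Y = 4) {K Z : Finset (Sym2 ℕ)} (hK : K ⊆ (Clu.k4 Y).edges) (hM : M2 K)
    (hZ : IsSq Z) (hs : Z ⊆ K) : dv K = R4_tx Y := by
  obtain ⟨a, b, c, d, ⟨_, hac, _, _, hbd, _⟩, rfl⟩ := hZ
  exact R4_dv_sq hY hK hM (a := a) (b := b) (c := c) (d := d) ⟨hac, hbd, hs (by simp [TFC.sq]),
    hs (by simp [TFC.sq]), hs (by simp [TFC.sq]), hs (by simp [TFC.sq])⟩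

/-- a part of a `K4` with a given pair of deficits -/
theorem k4_part {Y : Finset ℕ} (hY : #Y = 4) {i j : ℕ} (hi : i ∈ Y) (hj : j ∈ Y) :
    ∃ F ⊆ (Clu.k4 Y).edges, M2 F ∧ NSq F ∧ dv F = R4_tx Y - ev i - ev j := by
  obtain ⟨F, h1, h2, h3, h4⟩ := R4_JS hY hi hj
  exact ⟨F, h1, h2, (nsq_good h2.nl).2 h3, h4.symm⟩

theorem sum_tx {Y : Finset ℕ} (hY : #Y = 4) : ∑ v ∈ Y, R4_tx Y v = 8 := by
  have : ∀ v ∈ Y, R4_tx Y v = 2 := fun v hv => by rw [R4_tx, if_pos hv]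
  rw [Finset.sum_congr rfl this, Finset.sum_const, hY]
  norm_num

theorem ev_single (v : ℕ) : (ev v : ℕ → ℤ) = Pi.single v 1 := rfl

/-- **all squares of a `K4` cluster are in `D`** (capped frame at the cluster) -/
theorem PW.k4D (h : PW X P D j S M A CL U PL pl mi) {Y : Finset ℕ} (hY : Clu.k4 Y ∈ U) (hAK : ACp D A (Clu.k4 Y))
    {Z L : Finset (Sym2 ℕ)} (hZ : Z ∈ D) (hZY : Z ⊆ (Clu.k4 Y).edges) (hL : Wt X P D j Z L)
    (hA : Out A U (Clu.k4 Y) L) : ∀ Z', IsSq Z' → Z' ⊆ (Clu.k4 Y).edges → Z' ∈ D := by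
  intro Z' hq hZ'
  by_contra hn
  have h4 : #Y = 4 := h.val' hY
  have hZU : Z ⊆ Ucl U := fun e he => mem_Ucl.2 ⟨_, hY, hZY he⟩
  have hM : M2 Z' := by
    obtain ⟨a, b, c, d, h5, rfl⟩ := hq
    exact Unit_sq_M2 h5
  have hcap : Acap D Z' := by
    refine ⟨hM, fun Z'' h5 h6 => hn ?_⟩
    have h7 : Z'' = Z' := by
      refine Finset.eq_of_subset_of_card_le h6 ?_
      obtain ⟨a, b, c, d, h8, rfl⟩ := hq
      obtain ⟨a', b', c', d', h9, rfl⟩ := h.isq Z'' h5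
      rw [R4_card_sq h8, R4_card_sq h9]
    rw [← h7]
    exact h5
  have h1 := h.wit_rep0 hZ hZU hL hY hA hZ' (hAK Z' hZ' hcap)
  rw [k4_dv_sq h4 Finset.inter_subset_right (hL.m2.mono Finset.inter_subset_left) (h.isq Z hZ)
    (Finset.subset_inter hL.sq hZY), k4_dv_sq h4 hZ' hM hq le_rfl, sub_self, ph_zero] at h1
  norm_num at h1

/-- evaluation for `K4`: a set with fewer than three edges is replaced -/
theorem PW.k4_eval (h : PW X P D j S M A CL U PL pl mi) {Y : Finset ℕ} (hY : Clu.k4 Y ∈ U)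
    (hX : ∀ v ∈ Y, mi v ∧ ¬ pl v) {F K : Finset (Sym2 ℕ)} (hF : F ⊆ (Clu.k4 Y).edges) (hK : K ⊆ (Clu.k4 Y).edges)
    (d : ℕ → ℤ) : ph X.V2 pl mi (dv F - dv K + d) = ph X.V2 pl mi d - 2 * #F + 2 * #K := by
  have h4 : #Y = 4 := h.val' hY
  have hYV : Y ⊆ X.V2 := by
    intro v hv
    obtain ⟨w, hw, hne⟩ := Finset.exists_mem_ne (by omega : 1 < #Y) v
    have he : s(v, w) ∈ (Clu.k4 Y).edges := mem_k4.2 ⟨hv, hw, hne.symm⟩
    exact h.v2' (h.cW' hY he) (by simp)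
  rw [ph_addX hYV hX fun v hv => by rw [Pi.sub_apply, dv_k4_off hF hv, dv_k4_off hK hv, sub_zero]]
  simp only [Pi.sub_apply, Finset.sum_sub_distrib, sum_dv_k4 hF, sum_dv_k4 hK]
  ring

theorem k4_tri {Y : Finset ℕ} (hY : #Y = 4) : ∃ F ⊆ (Clu.k4 Y).edges, M2 F ∧ NSq F ∧ #F = 3 := by
  obtain ⟨i, hi⟩ : Y.Nonempty := by rw [← Finset.card_pos]; omega
  obtain ⟨F, h1, h2, h3, h4⟩ := k4_part hY hi hi
  refine ⟨F, h1, h2, h3, ?_⟩
  have h5 := sum_dv_k4 h1
  have h6 : ∑ v ∈ Y, dv F v = 6 := by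
    rw [h4]
    simp only [Pi.sub_apply, Finset.sum_sub_distrib, ev_single, XU.sum_single, if_pos hi, sum_tx hY]
    norm_num
  omega

theorem k4_le {Y : Finset ℕ} (hY : #Y = 4) (hD : ∀ Z', IsSq Z' → Z' ⊆ (Clu.k4 Y).edges → Z' ∈ D)
    {K : Finset (Sym2 ℕ)} (hK : K ⊆ (Clu.k4 Y).edges) (hc : Acap D K) : #K ≤ 3 := by
  refine R4_card_le hY hK hc.1 ((nsq_good hc.1.nl).1 fun Z hZ hs => ?_)
  exact hc.2 Z (hD Z hZ (hs.trans hK)) hs

/-- **a near cover has exactly three edges in every `K4` cluster** -/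
theorem PW.k4M (h : PW X P D j S M A CL U PL pl mi) {Y : Finset ℕ} (hY : Clu.k4 Y ∈ U) (hAK : AM2 A (Clu.k4 Y))
    (hX : ∀ v ∈ Y, mi v ∧ ¬ pl v) (hD : ∀ Z', IsSq Z' → Z' ⊆ (Clu.k4 Y).edges → Z' ∈ D) {w : ℕ} (hw : w ∈ S)
    (hT : w ∈ X.T) (hA : Out A U (Clu.k4 Y) (M w)) (hcap : Acap D (M w ∩ (Clu.k4 Y).edges)) :
    #(M w ∩ (Clu.k4 Y).edges) = 3 := by
  have h4 : #Y = 4 := h.val' hY
  have hle := k4_le h4 hD Finset.inter_subset_right hcap
  by_contra hne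
  obtain ⟨F, f1, f2, f3, f4⟩ := k4_tri h4
  have h1 := h.nc_rep hw hT hY hA f1 (hAK F f1 f2 f3)
  rw [sub_eq_add_neg (dv F - _) (Pi.single w 1), h.k4_eval hY hX f1 Finset.inter_subset_right, f4, ← Pi.single_neg,
    ph_one (h.sv w hw)] at h1
  have h2 := con_neg_one (pl w) (mi w)
  omega

end

end Pool.Agent.PF4.XT

end

section -- file PF4/XTg

/-!
# Toggling edges in the phi frame

`tg K e` = the symmetric difference of `K` and `{e}`. All modifications of the part of a near cover in a world are sequences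
of toggles; only the parity matters at a vertex of type Z, nothing matters at a vertex of type N.
-/

set_option autoImplicit false

namespace Pool.Agent.PF4.XTg

open Finset Pool.Agent.TFC Pool.Agent.PF4 Pool.Agent.PF4.LD Pool.Agent.PF4.XC Pool.Agent.PF4.XF Pool.Agent.PF4.XT

/-- toggle one edge -/
def tg (K : Finset (Sym2 ℕ)) (e : Sym2 ℕ) : Finset (Sym2 ℕ) := symmDiff K {e}

theorem mem_tg {K : Finset (Sym2 ℕ)} {e f : Sym2 ℕ} : f ∈ tg K e ↔ (f ∈ K ∧ f ≠ e) ∨ (f ∉ K ∧ f = e) := by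
  rw [tg, Finset.mem_symmDiff, Finset.mem_singleton]
  tauto

theorem mem_tg_ne {K : Finset (Sym2 ℕ)} {e f : Sym2 ℕ} (h : f ≠ e) : f ∈ tg K e ↔ f ∈ K := by
  rw [mem_tg]
  tauto

/-- the sign of a toggle -/
def sg (K : Finset (Sym2 ℕ)) (e : Sym2 ℕ) : ℤ := if e ∈ K then -1 else 1

theorem sg_or (K : Finset (Sym2 ℕ)) (e : Sym2 ℕ) : sg K e = 1 ∨ sg K e = -1 := by
  unfold sg
  split_ifs
  · exact Or.inr rfl
  · exact Or.inl rfl

theorem sg_mem {K : Finset (Sym2 ℕ)} {e : Sym2 ℕ} (h : e ∈ K) : sg K e = -1 := if_pos h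

theorem sg_not {K : Finset (Sym2 ℕ)} {e : Sym2 ℕ} (h : e ∉ K) : sg K e = 1 := if_neg h

theorem sg_tg {K : Finset (Sym2 ℕ)} {e f : Sym2 ℕ} (h : f ≠ e) : sg (tg K e) f = sg K f := by
  unfold sg
  simp only [mem_tg_ne h]

/-- incidence -/
def inc (e : Sym2 ℕ) (v : ℕ) : ℤ := if v ∈ e then 1 else 0

theorem inc_mk (a b v : ℕ) : inc s(a, b) v = if v = a ∨ v = b then 1 else 0 := by
  unfold inc
  simp only [Sym2.mem_iff]

theorem dv_tg (K : Finset (Sym2 ℕ)) (e : Sym2 ℕ) (v : ℕ) : dv (tg K e) v = dv K v + sg K e * inc e v := by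
  by_cases h : e ∈ K
  · have e1 : tg K e = K \ {e} := by
      ext f
      rw [mem_tg, Finset.mem_sdiff, Finset.mem_singleton]
      constructor
      · rintro (h1 | ⟨h1, rfl⟩)
        · exact h1
        · exact absurd h h1
      · exact Or.inl
    rw [e1, dv_sdiff (Finset.singleton_subset_iff.2 h), Pi.sub_apply, dv_single, sg_mem h]
    unfold inc
    ring
  · have e1 : tg K e = K ∪ {e} := by
      ext f
      rw [mem_tg, Finset.mem_union, Finset.mem_singleton]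
      constructor
      · rintro (h1 | h1)
        · exact Or.inl h1.1
        · exact Or.inr h1.2
      · rintro (h1 | rfl)
        · exact Or.inl ⟨h1, fun h2 => h (h2 ▸ h1)⟩
        · exact Or.inr ⟨h, rfl⟩
    rw [e1, dv_union (Finset.disjoint_singleton_right.2 h), Pi.add_apply, dv_single, sg_not h]
    unfold inc
    ring

/-- a sequence of toggles -/
def tgs (K : Finset (Sym2 ℕ)) : List (Sym2 ℕ) → Finset (Sym2 ℕ)
  | [] => K
  | e :: l => tgs (tg K e) l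

/-- the total change -/
def chg (K : Finset (Sym2 ℕ)) : List (Sym2 ℕ) → ℕ → ℤ
  | [], _ => 0
  | e :: l, v => sg K e * inc e v + chg K l v

theorem chg_tg {K : Finset (Sym2 ℕ)} {e : Sym2 ℕ} (v : ℕ) : ∀ {l : List (Sym2 ℕ)}, e ∉ l → chg (tg K e) l v = chg K l v
  | [], _ => rfl
  | f :: l, h => by
    rw [List.mem_cons, not_or] at h
    rw [chg, chg, sg_tg (Ne.symm h.1), chg_tg v h.2]

theorem dv_tgs (v : ℕ) : ∀ {l : List (Sym2 ℕ)} {K : Finset (Sym2 ℕ)}, l.Nodup → dv (tgs K l) v = dv K v + chg K l v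
  | [], K, _ => by rw [tgs, chg, add_zero]
  | e :: l, K, h => by
    rw [List.nodup_cons] at h
    rw [tgs, dv_tgs v h.2, dv_tg, chg_tg v h.1, chg]
    ring

theorem ph_le {V : Finset ℕ} {pl mi : ℕ → Prop} {d : ℕ → ℤ} (h : ∀ v ∈ V, con (pl v) (mi v) (d v) ≤ 0) :
    ph V pl mi d ≤ 0 := Finset.sum_nonpos h

theorem con_even {p m : Prop} {a : ℤ} (hp : p) (hm : m) (h : a % 2 = 0) : con p m a ≤ 0 := by
  rw [con_Z hp hm, h]

theorem con_free {p m : Prop} {a : ℤ} (hp : ¬ p) (hm : ¬ m) : con p m a ≤ 0 := by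
  rw [con_N hp hm]

theorem con_z {p m : Prop} {a : ℤ} (h : a = 0) : con p m a ≤ 0 := by
  rw [h, con_zero]

/-- a vertex which is not X, an even nonpositive value -/
theorem con_nX {p m : Prop} {a : ℤ} (h : m → p) (h0 : a ≤ 0) (h2 : a % 2 = 0) : con p m a ≤ 0 := by
  by_cases hp : p
  · by_cases hm : m
    · exact con_even hp hm h2
    · rw [con_Y hp hm]; exact h0
  · exact con_free hp fun hm => hp (h hm)

theorem con_X_nonneg {p m : Prop} {a : ℤ} (hp : ¬ p) (hm : m) (h : 0 ≤ a) : con p m a ≤ 0 := by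
  rw [con_X hp hm]
  omega

section
variable {X : XD} {P : ℕ → Finset (Sym2 ℕ) → Prop} {D : Finset (Finset (Sym2 ℕ))} {j : ℕ} {S : Finset ℕ}
  {M : ℕ → Finset (Sym2 ℕ)} {A : Clu ℕ → Finset (Sym2 ℕ) → Prop} {CL U : List (Clu ℕ)} {PL : Finset (Sym2 ℕ)}
  {pl mi : ℕ → Prop}

/-- change an allowed set inside one cluster -/
theorem pw_inC (h : PW X P D j S M A CL U PL pl mi) {K K' : Finset (Sym2 ℕ)} (hK : AU A U PL K) {c : Clu ℕ}
    (hc : c ∈ U) (hK' : ∀ e, e ∉ c.edges → (e ∈ K' ↔ e ∈ K)) (hA : A c (K' ∩ c.edges)) : AU A U PL K' := by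
  refine ⟨fun e he => ?_, fun c' hc' => ?_⟩
  · by_cases h1 : e ∈ c.edges
    · exact Finset.mem_union_left _ (mem_Ucl.2 ⟨c, hc, h1⟩)
    · exact hK.1 ((hK' e h1).1 he)
  · by_cases hcc : c' = c
    · subst hcc
      exact hA
    · have e1 : K' ∩ c'.edges = K ∩ c'.edges := by
        ext e
        simp only [Finset.mem_inter]
        constructor
        · rintro ⟨h1, h2⟩
          exact ⟨(hK' e fun h3 => hcc (h.cls.eq ((h.uc c').1 hc').1 ((h.uc c).1 hc).1 h2 h3)).1 h1, h2⟩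
        · rintro ⟨h1, h2⟩
          exact ⟨(hK' e fun h3 => hcc (h.cls.eq ((h.uc c').1 hc').1 ((h.uc c).1 hc).1 h2 h3)).2 h1, h2⟩
      rw [e1]
      exact hK.2 c' hc'

/-- toggle a plain edge -/
theorem pw_tgp (h : PW X P D j S M A CL U PL pl mi) {K : Finset (Sym2 ℕ)} (hK : AU A U PL K) {e : Sym2 ℕ}
    (he : e ∈ PL) : AU A U PL (tg K e) := by
  refine ⟨fun f hf => ?_, fun c hc => ?_⟩
  · rcases mem_tg.1 hf with h1 | h1
    · exact hK.1 h1.1
    · rw [h1.2]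
      exact Finset.mem_union_right _ he
  · have e1 : tg K e ∩ c.edges = K ∩ c.edges := by
      ext f
      simp only [Finset.mem_inter]
      constructor
      · rintro ⟨h1, h2⟩
        have h4 : f ≠ e := fun h3 => Finset.disjoint_left.1 (h.plain hc) he (by rw [← h3]; exact h2)
        exact ⟨(mem_tg_ne h4).1 h1, h2⟩
      · rintro ⟨h1, h2⟩
        have h4 : f ≠ e := fun h3 => Finset.disjoint_left.1 (h.plain hc) he (by rw [← h3]; exact h2)
        exact ⟨(mem_tg_ne h4).2 h1, h2⟩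
    rw [e1]
    exact hK.2 c hc

/-- the inequality for a modified near cover -/
theorem pw_tgs_w (h : PW X P D j S M A CL U PL pl mi) {w : ℕ} (hw : w ∈ S) (hT : w ∈ X.T) {l : List (Sym2 ℕ)}
    (hl : l.Nodup) (hA : AU A U PL (tgs (M w ∩ (Ucl U ∪ PL)) l)) :
    ∃ v ∈ X.V2, 0 < con (pl v) (mi v) (chg (M w ∩ (Ucl U ∪ PL)) l v - if v = w then 1 else 0) := by
  by_contra hcon
  push Not at hcon
  have h1 := h.nc w hw hT _ hA
  have h2 : ph X.V2 pl mi (dv (tgs (M w ∩ (Ucl U ∪ PL)) l) - dv (M w ∩ (Ucl U ∪ PL)) - Pi.single w 1) ≤ 0 := by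
    refine ph_le fun v hv => ?_
    have h3 := hcon v hv
    have e1 : (dv (tgs (M w ∩ (Ucl U ∪ PL)) l) - dv (M w ∩ (Ucl U ∪ PL)) - Pi.single w 1 : ℕ → ℤ) v =
        chg (M w ∩ (Ucl U ∪ PL)) l v - if v = w then (1 : ℤ) else 0 := by
      rw [Pi.sub_apply, Pi.sub_apply, dv_tgs v hl, sgl]
      ring
    rw [e1]
    exact h3
  omega

end

/-! ### squares of `K2` clusters -/

/-- a square-free set of edges of a `K2` cluster -/
theorem k2_sqFree {a b : ℕ} (hab : a ≠ b) {K : Finset (Sym2 ℕ)} (h : SqFree K)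
    {l l' : ℕ} (hl : l ≠ l') (h1 : s(a, l) ∈ K) (h2 : s(b, l) ∈ K) (h3 : s(a, l') ∈ K)
    (h4 : s(b, l') ∈ K) : False :=
  h a l b l' ⟨hab, hl, h1, by rwa [Sym2.eq_swap], h4, by rwa [Sym2.eq_swap]⟩

/-- adding an edge closes a square: a 3-path -/
theorem path3 {K : Finset (Sym2 ℕ)} (hK : SqFree K) (hn : ∀ e ∈ K, ¬ e.IsDiag) {u v : ℕ} (huv : u ≠ v)
    (h : ¬ SqFree (insert s(u, v) K)) :
    ∃ a b, s(u, a) ∈ K ∧ s(a, b) ∈ K ∧ s(b, v) ∈ K ∧ u ≠ b ∧ a ≠ v := by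
  unfold SqFree at h
  push Not at h
  obtain ⟨a, b, c, d, hs⟩ := h
  -- the four edges of the square; one of them is the new one
  have sw : ∀ s t : ℕ, s(s, t) = s(t, s) := fun s t => Sym2.eq_swap
  have hne : ¬ (s(a, b) ≠ s(u, v) ∧ s(b, c) ≠ s(u, v) ∧ s(c, d) ≠ s(u, v) ∧ s(d, a) ≠ s(u, v)) := by
    rintro ⟨h1, h2, h3, h4⟩
    exact hK a b c d ⟨hs.ac, hs.bd, Finset.mem_of_mem_insert_of_ne hs.ab h1,
      Finset.mem_of_mem_insert_of_ne hs.bc h2, Finset.mem_of_mem_insert_of_ne hs.cd h3,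
      Finset.mem_of_mem_insert_of_ne hs.da h4⟩
  -- general position
  have key : ∀ a b c d : ℕ, Sq (insert s(u, v) K) a b c d → s(a, b) = s(u, v) →
      ∃ a b, s(u, a) ∈ K ∧ s(a, b) ∈ K ∧ s(b, v) ∈ K ∧ u ≠ b ∧ a ≠ v := by
    intro a b c d hs he
    have n1 : s(b, c) ≠ s(a, b) := by
      intro h1
      rw [Sym2.eq_iff] at h1
      rcases h1 with ⟨h1, h2⟩ | ⟨_, h2⟩
      · exact hs.ac (by rw [h2, h1])
      · exact hs.ac h2.symm
    have n2 : s(c, d) ≠ s(a, b) := by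
      intro h1
      rw [Sym2.eq_iff] at h1
      rcases h1 with ⟨h1, _⟩ | ⟨h2, _⟩
      · exact hs.ac h1.symm
      · have h3 : s(b, c) ∈ K := Finset.mem_of_mem_insert_of_ne hs.bc (by rw [← he]; exact n1)
        exact hn _ h3 (by rw [h2]; simp)
    have n3 : s(d, a) ≠ s(a, b) := by
      intro h1
      rw [Sym2.eq_iff] at h1
      rcases h1 with ⟨h1, h2⟩ | ⟨h2, _⟩
      · exact hs.bd (by rw [h1, h2])
      · exact hs.bd h2.symm
    have e2 : s(b, c) ∈ K := Finset.mem_of_mem_insert_of_ne hs.bc (by rw [← he]; exact n1)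
    have e3 : s(c, d) ∈ K := Finset.mem_of_mem_insert_of_ne hs.cd (by rw [← he]; exact n2)
    have e4 : s(d, a) ∈ K := Finset.mem_of_mem_insert_of_ne hs.da (by rw [← he]; exact n3)
    rw [Sym2.eq_iff] at he
    rcases he with ⟨rfl, rfl⟩ | ⟨rfl, rfl⟩
    · exact ⟨d, c, by rwa [sw], by rwa [sw], by rwa [sw], hs.ac, hs.bd.symm⟩
    · exact ⟨c, d, e2, e3, e4, hs.bd, hs.ac.symm⟩
  by_cases h1 : s(a, b) = s(u, v)
  · exact key a b c d hs h1
  by_cases h2 : s(b, c) = s(u, v)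
  · exact key b c d a ⟨hs.bd, hs.ac.symm, hs.bc, hs.cd, hs.da, hs.ab⟩ h2
  by_cases h3 : s(c, d) = s(u, v)
  · exact key c d a b ⟨hs.ac.symm, hs.bd.symm, hs.cd, hs.da, hs.ab, hs.bc⟩ h3
  by_cases h4 : s(d, a) = s(u, v)
  · exact key d a b c ⟨hs.bd.symm, hs.ac, hs.da, hs.ab, hs.bc, hs.cd⟩ h4
  exact absurd ⟨h1, h2, h3, h4⟩ hne

end Pool.Agent.PF4.XTg

end

section -- file PF4/XS1

/-!
# STEP 1 of the case `x, y, r, s ∈ T`, `p` free: the near covers of `x`, `r`, `s` in world 1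
-/

set_option autoImplicit false

namespace Pool.Agent.PF4.XS1

open Finset Pool.Agent.TFC Pool.Agent.PF4 Pool.Agent.PF4.LD Pool.Agent.PF4.XC Pool.Agent.PF4.XF Pool.Agent.PF4.XT
  Pool.Agent.PF4.XTg

/-- `c` is a complete bipartite graph with hubs `a`, `b` and leaves `L` -/
structure K2c (c : Clu ℕ) (a b : ℕ) (L : Finset ℕ) : Prop where
  ab : a ≠ b
  aL : a ∉ L
  bL : b ∉ L
  mem : ∀ u v, s(u, v) ∈ c.edges ↔ ((u = a ∨ u = b) ∧ v ∈ L) ∨ ((v = a ∨ v = b) ∧ u ∈ L)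

theorem K2c.of {a b : ℕ} {L : Finset ℕ} (h : (Clu.k2 a b L).Valid) : K2c (Clu.k2 a b L) a b L := by
  obtain ⟨h1, h2, h3, _⟩ := h
  exact ⟨h1, h2, h3, fun u v => mem_k2⟩

theorem K2c.swap {c : Clu ℕ} {a b : ℕ} {L : Finset ℕ} (h : K2c c a b L) : K2c c b a L :=
  ⟨h.ab.symm, h.bL, h.aL, fun u v => by rw [h.mem]; tauto⟩

theorem K2c.nl {c : Clu ℕ} {a b : ℕ} {L : Finset ℕ} (h : K2c c a b L) : NoLoop c.edges := by
  intro e he
  induction e using Sym2.ind with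
  | _ u v =>
  intro hd
  have huv : u = v := by simpa using hd
  subst huv
  rcases (h.mem u u).1 he with ⟨rfl | rfl, h2⟩ | ⟨rfl | rfl, h2⟩
  · exact h.aL h2
  · exact h.bL h2
  · exact h.aL h2
  · exact h.bL h2

/-- no square in a subset -/
theorem K2c.sqFree {c : Clu ℕ} {a b : ℕ} {L : Finset ℕ} (hc : K2c c a b L) {K : Finset (Sym2 ℕ)}
    (hK : K ⊆ c.edges)
    (h : ∀ l ∈ L, ∀ l' ∈ L, l ≠ l' → s(a, l) ∈ K → s(b, l) ∈ K → s(a, l') ∈ K → s(b, l') ∈ K → False) :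
    SqFree K := by
  intro u v w z hs
  have hN : ∀ {s t : ℕ}, s(s, t) ∈ K → ((s = a ∨ s = b) ∧ t ∈ L) ∨ ((t = a ∨ t = b) ∧ s ∈ L) := fun h1 =>
    (hc.mem _ _).1 (hK h1)
  have hh : ∀ {t : ℕ}, t ∈ L → ¬ (t = a ∨ t = b) := by
    rintro t ht (rfl | rfl)
    · exact hc.aL ht
    · exact hc.bL ht
  have key : ∀ u v w z : ℕ, u ≠ w → v ≠ z → (u = a ∨ u = b) → v ∈ L → s(u, v) ∈ K → s(v, w) ∈ K → s(w, z) ∈ K →
      s(z, u) ∈ K → False := by
    intro u v w z uw vz hu hv e1 e2 e3 e4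
    have hw : w = a ∨ w = b := by
      rcases hN e2 with ⟨h1, _⟩ | ⟨h1, _⟩
      · exact absurd h1 (hh hv)
      · exact h1
    have hz : z ∈ L := by
      rcases hN e3 with ⟨_, h1⟩ | ⟨_, h1⟩
      · exact h1
      · exact absurd hw (hh h1)
    rcases hu with rfl | rfl
    · rcases hw with rfl | rfl
      · exact uw rfl
      · exact h v hv z hz vz e1 (by rwa [Sym2.eq_swap] at e2) (by rwa [Sym2.eq_swap] at e4) e3
    · rcases hw with rfl | rfl
      · exact h v hv z hz vz (by rwa [Sym2.eq_swap] at e2) e1 e3 (by rwa [Sym2.eq_swap] at e4)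
      · exact uw rfl
  rcases hN hs.ab with ⟨h1, h2⟩ | ⟨h1, h2⟩
  · exact key u v w z hs.ac hs.bd h1 h2 hs.ab hs.bc hs.cd hs.da
  · refine key v u z w hs.bd hs.ac h1 h2 (by rw [Sym2.eq_swap]; exact hs.ab) (by rw [Sym2.eq_swap]; exact hs.da)
      (by rw [Sym2.eq_swap]; exact hs.cd) (by rw [Sym2.eq_swap]; exact hs.bc)

/-- a 3-path `u a b v` of `K` in the cluster `c` -/
structure P3 (c : Clu ℕ) (K : Finset (Sym2 ℕ)) (u a b v : ℕ) : Prop where
  e1 : s(u, a) ∈ K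
  e2 : s(a, b) ∈ K
  e3 : s(b, v) ∈ K
  c1 : s(u, a) ∈ c.edges
  c2 : s(a, b) ∈ c.edges
  c3 : s(b, v) ∈ c.edges
  ub : u ≠ b
  av : a ≠ v

theorem P3.mono {c : Clu ℕ} {K K' : Finset (Sym2 ℕ)} {u a b v : ℕ} (h : P3 c K u a b v)
    (hK : ∀ e ∈ c.edges, e ∈ K → e ∈ K') : P3 c K' u a b v :=
  ⟨hK _ h.c1 h.e1, hK _ h.c2 h.e2, hK _ h.c3 h.e3, h.c1, h.c2, h.c3, h.ub, h.av⟩

theorem P3.rev {c : Clu ℕ} {K : Finset (Sym2 ℕ)} {u a b v : ℕ} (h : P3 c K u a b v) : P3 c K v b a u :=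
  ⟨by rw [Sym2.eq_swap]; exact h.e3, by rw [Sym2.eq_swap]; exact h.e2, by rw [Sym2.eq_swap]; exact h.e1,
    by rw [Sym2.eq_swap]; exact h.c3, by rw [Sym2.eq_swap]; exact h.c2, by rw [Sym2.eq_swap]; exact h.c1,
    h.av.symm, h.ub.symm⟩

theorem sqFree_mono {K K' : Finset (Sym2 ℕ)} (h : SqFree K) (hK : K' ⊆ K) : SqFree K' := fun a b c d hs =>
  h a b c d ⟨hs.ac, hs.bd, hK hs.ab, hK hs.bc, hK hs.cd, hK hs.da⟩

/-- three edges at one vertex -/
theorem three {K : Finset (Sym2 ℕ)} (hK : M2 K) {v a b c : ℕ} (ha : s(v, a) ∈ K) (hb : s(v, b) ∈ K)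
    (hc : s(v, c) ∈ K) (hab : a ≠ b) (hac : a ≠ c) (hbc : b ≠ c) : False := by
  have h1 := hK.le v
  have h2 : ({s(v, a), s(v, b), s(v, c)} : Finset (Sym2 ℕ)) ⊆ K.filter fun e => v ∈ e := by
    intro e he
    simp only [Finset.mem_insert, Finset.mem_singleton] at he
    rw [Finset.mem_filter]
    rcases he with rfl | rfl | rfl
    · exact ⟨ha, by simp⟩
    · exact ⟨hb, by simp⟩
    · exact ⟨hc, by simp⟩
  have h3 := Finset.card_le_card h2
  have h4 : #({s(v, a), s(v, b), s(v, c)} : Finset (Sym2 ℕ)) = 3 := by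
    have n1 : s(v, a) ≠ s(v, b) := fun h => hab (Sym2.congr_right.1 h)
    have n2 : s(v, a) ≠ s(v, c) := fun h => hac (Sym2.congr_right.1 h)
    have n3 : s(v, b) ≠ s(v, c) := fun h => hbc (Sym2.congr_right.1 h)
    rw [Finset.card_insert_of_notMem (by simp [n1, n2]), Finset.card_insert_of_notMem (by simp [n3]),
      Finset.card_singleton]
  rw [h4] at h3
  exact absurd (h3.trans h1) (by norm_num)

section
variable {X : XD} {P : ℕ → Finset (Sym2 ℕ) → Prop} {D : Finset (Finset (Sym2 ℕ))} {j : ℕ} {S : Finset ℕ}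
  {M : ℕ → Finset (Sym2 ℕ)} {A : Clu ℕ → Finset (Sym2 ℕ) → Prop} {CL U : List (Clu ℕ)} {PL : Finset (Sym2 ℕ)}
  {pl mi : ℕ → Prop}

/-- toggle an edge of a square-free cluster, or there is a 3-path -/
theorem pw_tgc (h : PW X P D j S M A CL U PL pl mi) {K : Finset (Sym2 ℕ)} (hK : AU A U PL K) {c : Clu ℕ}
    (hc : c ∈ U) (hA : ∀ K ⊆ c.edges, A c K ↔ SqFree K) {u v : ℕ} (he : s(u, v) ∈ c.edges)
    (hno : ¬ ∃ a b, P3 c K u a b v) : AU A U PL (tg K s(u, v)) := by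
  have hnl : NoLoop c.edges := fun e he => h.ok.nl e (by
    obtain ⟨Z, hZ, heZ⟩ := h.cls.edge.1 ⟨c, ((h.uc c).1 hc).1, he⟩
    exact h.dE Z hZ heZ)
  have huv : u ≠ v := by
    have := hnl _ he
    simpa using this
  refine pw_inC h hK hc ?_ ?_
  · intro e hec
    exact mem_tg_ne fun h1 => hec (by rw [h1]; exact he)
  · rw [hA _ Finset.inter_subset_right]
    have hS : SqFree (K ∩ c.edges) := (hA _ Finset.inter_subset_right).1 (hK.2 c hc)
    by_cases h1 : s(u, v) ∈ K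
    · refine sqFree_mono hS fun f hf => ?_
      rw [Finset.mem_inter] at hf ⊢
      rcases mem_tg.1 hf.1 with h2 | h2
      · exact ⟨h2.1, hf.2⟩
      · rw [h2.2] at h2
        exact absurd h1 h2.1
    · have e1 : tg K s(u, v) ∩ c.edges = insert s(u, v) (K ∩ c.edges) := by
        ext f
        rw [Finset.mem_inter, Finset.mem_insert, Finset.mem_inter, mem_tg]
        constructor
        · rintro ⟨h2 | h2, h3⟩
          · exact Or.inr ⟨h2.1, h3⟩
          · exact Or.inl h2.2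
        · rintro (rfl | h2)
          · exact ⟨Or.inr ⟨h1, rfl⟩, he⟩
          · exact ⟨Or.inl ⟨h2.1, fun h3 => h1 (h3 ▸ h2.1)⟩, h2.2⟩
      rw [e1]
      by_contra h2
      obtain ⟨a, b, h3, h4, h5, h6, h7⟩ := path3 hS (fun e he => hnl e (Finset.mem_inter.1 he).2) huv h2
      rw [Finset.mem_inter] at h3 h4 h5
      exact hno ⟨a, b, h3.1, h4.1, h5.1, h3.2, h4.2, h5.2, h6, h7⟩

end

/-- **the hypotheses of STEP 1** -/
structure S1 (X : XD) (P : ℕ → Finset (Sym2 ℕ) → Prop) (D : Finset (Finset (Sym2 ℕ))) (j : ℕ) (S : Finset ℕ)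
    (M : ℕ → Finset (Sym2 ℕ)) (A : Clu ℕ → Finset (Sym2 ℕ) → Prop) (CL U : List (Clu ℕ))
    (PL : Finset (Sym2 ℕ)) (pl mi : ℕ → Prop) (x y q p r s : ℕ) (c1 c2 : Clu ℕ) : Prop where
  pw : PW X P D j S M A CL U PL pl mi
  /-- distinct vertices -/
  xy : x ≠ y
  xq : x ≠ q
  xp : x ≠ p
  xr : x ≠ r
  xs : x ≠ s
  yq : y ≠ q
  yp : y ≠ p
  yr : y ≠ r
  ys : y ≠ s
  qp : q ≠ p
  qr : q ≠ r
  qs : q ≠ s
  pr : p ≠ r
  ps : p ≠ s
  rs : r ≠ s
  /-- near covers -/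
  S3 : ∀ w, w = x ∨ w = r ∨ w = s → w ∈ S ∧ w ∈ X.T
  m2 : ∀ w, w = x ∨ w = r ∨ w = s → M2 (M w)
  au : ∀ w, w = x ∨ w = r ∨ w = s → AU A U PL (M w ∩ (Ucl U ∪ PL))
  /-- the two clusters -/
  u1 : c1 ∈ U
  u2 : c2 ∈ U
  a1 : ∀ K ⊆ c1.edges, A c1 K ↔ SqFree K
  a2 : ∀ K ⊆ c2.edges, A c2 K ↔ SqFree K
  hub : (∃ L, K2c c1 y p L ∧ x ∈ L ∧ q ∈ L) ∨
    (∃ L, K2c c1 x q L ∧ y ∈ L ∧ p ∈ L ∧ (c1 = Clu.k2 x q L ∨ c1 = Clu.k2 q x L) ∧
      ∀ l ∈ L, l ≠ y → l ≠ p → mi l → pl l)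
  ers : s(r, s) ∈ c2.edges
  exr : s(x, r) ∈ PL
  eys : s(y, s) ∈ PL
  /-- types -/
  tx : pl x ∧ mi x
  ty : pl y ∧ mi y
  tr : pl r ∧ mi r
  ts : pl s ∧ mi s
  tp : ¬ pl p ∧ ¬ mi p
  tq : ¬ pl q ∧ mi q

section
variable {X : XD} {P : ℕ → Finset (Sym2 ℕ) → Prop} {D : Finset (Finset (Sym2 ℕ))} {j : ℕ} {S : Finset ℕ}
  {M : ℕ → Finset (Sym2 ℕ)} {A : Clu ℕ → Finset (Sym2 ℕ) → Prop} {CL U : List (Clu ℕ)} {PL : Finset (Sym2 ℕ)}
  {pl mi : ℕ → Prop} {x y q p r s : ℕ} {c1 c2 : Clu ℕ}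

namespace S1

theorem exp (h : S1 X P D j S M A CL U PL pl mi x y q p r s c1 c2) : s(x, p) ∈ c1.edges := by
  rcases h.hub with ⟨L, hL, h1, _⟩ | ⟨L, hL, _, h1, _⟩
  · exact (hL.mem _ _).2 (Or.inr ⟨Or.inr rfl, h1⟩)
  · exact (hL.mem _ _).2 (Or.inl ⟨Or.inl rfl, h1⟩)

theorem exy (h : S1 X P D j S M A CL U PL pl mi x y q p r s c1 c2) : s(x, y) ∈ c1.edges := by
  rcases h.hub with ⟨L, hL, h1, _⟩ | ⟨L, hL, h1, _, _⟩
  · exact (hL.mem _ _).2 (Or.inr ⟨Or.inl rfl, h1⟩)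
  · exact (hL.mem _ _).2 (Or.inl ⟨Or.inl rfl, h1⟩)

/-- a plain edge is in no cluster -/
theorem plc (h : S1 X P D j S M A CL U PL pl mi x y q p r s c1 c2) {e : Sym2 ℕ} (he : e ∈ PL) {c : Clu ℕ}
    (hc : c ∈ U) : e ∉ c.edges := fun h1 => Finset.disjoint_left.1 (h.pw.plain hc) he h1

/-- `r s` is not in the first cluster -/
theorem ers1 (h : S1 X P D j S M A CL U PL pl mi x y q p r s c1 c2) : s(r, s) ∉ c1.edges := by
  intro h1
  rcases h.hub with ⟨L, hL, _, _⟩ | ⟨L, hL, _, _, _⟩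
  · rcases (hL.mem _ _).1 h1 with ⟨h2 | h2, _⟩ | ⟨h2 | h2, _⟩
    · exact h.yr h2.symm
    · exact h.pr h2.symm
    · exact h.ys h2.symm
    · exact h.ps h2.symm
  · rcases (hL.mem _ _).1 h1 with ⟨h2 | h2, _⟩ | ⟨h2 | h2, _⟩
    · exact h.xr h2.symm
    · exact h.qr h2.symm
    · exact h.xs h2.symm
    · exact h.qs h2.symm

theorem cne (h : S1 X P D j S M A CL U PL pl mi x y q p r s c1 c2) : c1 ≠ c2 := fun h1 =>
  h.ers1 (h1 ▸ h.ers)

/-- the edges of `c1` are not in `c2` -/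
theorem dj (h : S1 X P D j S M A CL U PL pl mi x y q p r s c1 c2) {e : Sym2 ℕ} (he : e ∈ c1.edges) :
    e ∉ c2.edges := fun h1 =>
  h.cne (h.pw.cls.eq ((h.pw.uc c1).1 h.u1).1 ((h.pw.uc c2).1 h.u2).1 he h1)

/-- **(a)** -/
theorem sa (h : S1 X P D j S M A CL U PL pl mi x y q p r s c1 c2) :
    ∃ e f, P3 c1 (M x ∩ (Ucl U ∪ PL)) x e f p := by
  by_contra hno
  obtain ⟨hS, hT⟩ := h.S3 x (Or.inl rfl)
  obtain ⟨v, _, hv⟩ := pw_tgs_w h.pw hS hT (l := [s(x, p)]) (by simp)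
    (pw_tgc h.pw (h.au x (Or.inl rfl)) h.u1 h.a1 h.exp hno)
  refine absurd hv (not_lt.2 ?_)
  rcases sg_or (M x ∩ (Ucl U ∪ PL)) s(x, p) with hσ | hσ <;>
    simp only [chg, inc_mk, hσ] <;> by_cases v1 : v = x
  · subst v1
    refine con_even h.tx.1 h.tx.2 ?_
    simp
  · by_cases v2 : v = p
    · subst v2
      exact con_free h.tp.1 h.tp.2
    · refine con_z ?_
      simp [v1, v2]
  · subst v1
    refine con_even h.tx.1 h.tx.2 ?_
    simp
  · by_cases v2 : v = p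
    · subst v2
      exact con_free h.tp.1 h.tp.2
    · refine con_z ?_
      simp [v1, v2]


/-- **(b)** -/
theorem sb (h : S1 X P D j S M A CL U PL pl mi x y q p r s c1 c2) :
    ∃ e f, P3 c1 (M r ∩ (Ucl U ∪ PL)) x e f p := by
  by_contra hno
  obtain ⟨hS, hT⟩ := h.S3 r (Or.inr (Or.inl rfl))
  obtain ⟨v, _, hv⟩ := pw_tgs_w h.pw hS hT (l := [s(x, p), s(x, r)]) (by simp [h.pr, h.xr])
    (pw_tgp h.pw (pw_tgc h.pw (h.au r (Or.inr (Or.inl rfl))) h.u1 h.a1 h.exp hno) h.exr)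
  refine absurd hv (not_lt.2 ?_)
  have s1 := sg_or (M r ∩ (Ucl U ∪ PL)) s(x, p)
  have s2 := sg_or (M r ∩ (Ucl U ∪ PL)) s(x, r)
  simp only [chg, inc_mk]
  by_cases v1 : v = x
  · subst v1
    refine con_even h.tx.1 h.tx.2 ?_
    simp only [h.xy, h.xy.symm, h.xq, h.xq.symm, h.xp, h.xp.symm, h.xr, h.xr.symm,
      h.xs, h.xs.symm, h.yq, h.yq.symm, h.yp, h.yp.symm, h.yr, h.yr.symm, h.ys, h.ys.symm, h.qp, h.qp.symm, h.qr,
      h.qr.symm, h.qs, h.qs.symm, h.pr, h.pr.symm, h.ps, h.ps.symm, h.rs, h.rs.symm, or_self, or_false, or_true,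
      false_or, true_or, if_true, if_false, ne_eq, not_true, not_false_iff, mul_one, mul_zero, add_zero, zero_add]
    omega
  by_cases v2 : v = p
  · subst v2
    exact con_free h.tp.1 h.tp.2
  by_cases v3 : v = r
  · subst v3
    refine con_even h.tr.1 h.tr.2 ?_
    simp only [h.xy, h.xy.symm, h.xq, h.xq.symm, h.xp, h.xp.symm, h.xr, h.xr.symm,
      h.xs, h.xs.symm, h.yq, h.yq.symm, h.yp, h.yp.symm, h.yr, h.yr.symm, h.ys, h.ys.symm, h.qp, h.qp.symm, h.qr,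
      h.qr.symm, h.qs, h.qs.symm, h.pr, h.pr.symm, h.ps, h.ps.symm, h.rs, h.rs.symm, or_self, or_false, or_true,
      false_or, true_or, if_true, if_false, ne_eq, not_true, not_false_iff, mul_one, mul_zero, add_zero, zero_add]
    omega
  exact con_z (by simp only [v1, v2, v3, or_self, if_false, mul_zero, add_zero, sub_self])

/-- a 3-path from `x` to `p` in the first cluster -/
theorem path1 (h : S1 X P D j S M A CL U PL pl mi x y q p r s c1 c2) {K : Finset (Sym2 ℕ)} {e f : ℕ}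
    (hp : P3 c1 K x e f p) :
    (∃ L, K2c c1 y p L ∧ x ∈ L ∧ q ∈ L ∧ e = y ∧ f ∈ L) ∨
    (∃ L, K2c c1 x q L ∧ y ∈ L ∧ p ∈ L ∧ (c1 = Clu.k2 x q L ∨ c1 = Clu.k2 q x L) ∧
      (∀ l ∈ L, l ≠ y → l ≠ p → mi l → pl l) ∧ f = q ∧ e ∈ L) := by
  rcases h.hub with ⟨L, hL, h1, h2⟩ | ⟨L, hL, h1, h2, h30, h3⟩
  · left
    refine ⟨L, hL, h1, h2, ?_⟩
    rcases (hL.mem _ _).1 hp.c1 with ⟨h4 | h4, _⟩ | ⟨h4, _⟩
    · exact absurd h4 h.xy
    · exact absurd h4 h.xp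
    · rcases h4 with h4 | h4
      · refine ⟨h4, ?_⟩
        subst h4
        rcases (hL.mem _ _).1 hp.c2 with ⟨_, h5⟩ | ⟨_, h5⟩
        · exact h5
        · exact absurd h5 hL.aL
      · exact absurd h4 hp.av
  · right
    refine ⟨L, hL, h1, h2, h30, h3, ?_⟩
    have h4 : e ∈ L := by
      rcases (hL.mem _ _).1 hp.c1 with ⟨_, h5⟩ | ⟨_, h5⟩
      · exact h5
      · exact absurd h5 hL.aL
    refine ⟨?_, h4⟩
    rcases (hL.mem _ _).1 hp.c2 with ⟨h5 | h5, _⟩ | ⟨h5 | h5, _⟩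
    · exact absurd (h5 ▸ h4) hL.aL
    · exact absurd (h5 ▸ h4) hL.bL
    · exact absurd h5.symm hp.ub
    · exact h5

/-- the part of an allowed set in the first cluster contains no square -/
theorem sf (h : S1 X P D j S M A CL U PL pl mi x y q p r s c1 c2) {K : Finset (Sym2 ℕ)} (hK : AU A U PL K) :
    SqFree (K ∩ c1.edges) := (h.a1 _ Finset.inter_subset_right).1 (hK.2 _ h.u1)

/-- the path `x y f p` is replaced by `y f p x` -/
theorem mv1 (h : S1 X P D j S M A CL U PL pl mi x y q p r s c1 c2) {K : Finset (Sym2 ℕ)} (hK : AU A U PL K)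
    {N : Finset (Sym2 ℕ)} (hN : M2 N) (hKN : K ∩ c1.edges ⊆ N) {f : ℕ} (hp : P3 c1 K x y f p) :
    s(x, y) ∈ K ∧ s(x, p) ∉ K ∧ AU A U PL (tg (tg K s(x, y)) s(x, p)) := by
  have hS := h.sf hK
  have hxp : s(x, p) ∉ K := fun h1 => hS x y f p ⟨hp.ub, h.yp, Finset.mem_inter.2 ⟨hp.e1, hp.c1⟩,
    Finset.mem_inter.2 ⟨hp.e2, hp.c2⟩, Finset.mem_inter.2 ⟨hp.e3, hp.c3⟩,
    Finset.mem_inter.2 ⟨by rw [Sym2.eq_swap]; exact h1, by rw [Sym2.eq_swap]; exact h.exp⟩⟩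
  have hne : s(x, p) ≠ s(x, y) := fun h1 => h.yp (Sym2.congr_right.1 h1).symm
  refine ⟨hp.e1, hxp, pw_inC h.pw hK h.u1 ?_ ?_⟩
  · intro e he
    rw [mem_tg_ne (fun h1 : e = s(x, p) => he (by rw [h1]; exact h.exp)),
      mem_tg_ne (fun h1 : e = s(x, y) => he (by rw [h1]; exact h.exy))]
  · rw [h.a1 _ Finset.inter_subset_right]
    -- membership in the new set
    have hm : ∀ g : Sym2 ℕ, g ∈ tg (tg K s(x, y)) s(x, p) ∩ c1.edges → g ≠ s(x, p) →
        g ∈ K ∩ c1.edges ∧ g ≠ s(x, y) := by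
      intro g hg hgp
      rw [Finset.mem_inter, mem_tg_ne hgp] at hg
      rcases mem_tg.1 hg.1 with h1 | h1
      · exact ⟨Finset.mem_inter.2 ⟨h1.1, hg.2⟩, h1.2⟩
      · exact absurd hp.e1 (h1.2 ▸ h1.1)
    rcases h.path1 hp with ⟨L, hL, _, _, _, _⟩ | ⟨L, hL, hyL, hpL, _, _, hf, _⟩
    · refine hL.sqFree Finset.inter_subset_right fun l hl l' hl' hne' e1 e2 e3 e4 => ?_
      -- `x` is not a common leaf
      have hlx : ∀ l, s(y, l) ∈ tg (tg K s(x, y)) s(x, p) ∩ c1.edges → l ≠ x := by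
        rintro l hl rfl
        refine (hm _ hl ?_).2 Sym2.eq_swap
        intro h1
        rw [Sym2.eq_iff] at h1
        rcases h1 with ⟨h1, _⟩ | ⟨h1, _⟩
        · exact h.xy h1.symm
        · exact h.yp h1
      have k1 : ∀ l, l ≠ x → l ∈ L → s(y, l) ≠ s(x, p) := by
        intro l hl hlL h1
        rw [Sym2.eq_iff] at h1
        rcases h1 with ⟨h1, _⟩ | ⟨h1, _⟩
        · exact h.xy h1.symm
        · exact h.yp h1
      have k2 : ∀ l, l ≠ x → l ∈ L → s(p, l) ≠ s(x, p) := by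
        intro l hl hlL h1
        rw [Sym2.eq_iff] at h1
        rcases h1 with ⟨h1, _⟩ | ⟨_, h1⟩
        · exact h.xp h1.symm
        · exact hl h1
      have hl1 := hlx l e1
      have hl2 := hlx l' e3
      exact k2_sqFree h.yp hS hne' (hm _ e1 (k1 l hl1 hl)).1 (hm _ e2 (k2 l hl1 hl)).1
        (hm _ e3 (k1 l' hl2 hl')).1 (hm _ e4 (k2 l' hl2 hl')).1
    · subst hf
      refine hL.sqFree Finset.inter_subset_right fun l hl l' hl' hne' e1 e2 e3 e4 => ?_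
      -- a common leaf is `p`
      have hall : ∀ l ∈ L, s(x, l) ∈ tg (tg K s(x, y)) s(x, p) ∩ c1.edges →
          s(f, l) ∈ tg (tg K s(x, y)) s(x, p) ∩ c1.edges → l = p := by
        intro l hl g1 g2
        by_contra hlp
        have n1 : s(x, l) ≠ s(x, p) := fun h1 => hlp (Sym2.congr_right.1 h1)
        have n2 : s(f, l) ≠ s(x, p) := by
          intro h1
          rw [Sym2.eq_iff] at h1
          rcases h1 with ⟨h1, _⟩ | ⟨h1, _⟩
          · exact h.xq h1.symm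
          · exact h.qp h1
        have g3 := hm _ g1 n1
        have g4 := hm _ g2 n2
        have hly : l ≠ y := fun h1 => g3.2 (by rw [h1])
        exact three hN (v := f) (a := l) (b := y) (c := p) (hKN g4.1)
          (hKN (Finset.mem_inter.2 ⟨by rw [Sym2.eq_swap]; exact hp.e2, by rw [Sym2.eq_swap]; exact hp.c2⟩))
          (hKN (Finset.mem_inter.2 ⟨hp.e3, hp.c3⟩)) hly hlp h.yp
      exact hne' ((hall l hl e1 e2).trans (hall l' hl' e3 e4).symm)

/-- toggle `r s` after a change in the first cluster -/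
theorem tg_rs (h : S1 X P D j S M A CL U PL pl mi x y q p r s c1 c2) {K K' : Finset (Sym2 ℕ)}
    (hK : AU A U PL K') (hKK : ∀ e ∈ c2.edges, e ∈ K' → e ∈ K) (hno : ¬ ∃ u v, P3 c2 K r u v s) :
    AU A U PL (tg K' s(r, s)) :=
  pw_tgc h.pw hK h.u2 h.a2 h.ers fun ⟨u, v, hp⟩ => hno ⟨u, v, hp.mono hKK⟩

/-- **(c), first case** -/
theorem sc1 (h : S1 X P D j S M A CL U PL pl mi x y q p r s c1 c2) {f : ℕ}
    (hp : P3 c1 (M r ∩ (Ucl U ∪ PL)) x y f p) : ∃ u v, P3 c2 (M r ∩ (Ucl U ∪ PL)) r u v s := by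
  by_contra hno
  have hr := Or.inr (a := r = x) (Or.inl (b := r = s) (Eq.refl r))
  obtain ⟨hS, hT⟩ := h.S3 r hr
  obtain ⟨m1, m2, hA⟩ := h.mv1 (h.au r hr) (h.m2 r hr)
    (Finset.inter_subset_left.trans Finset.inter_subset_left) hp
  have hA2 := h.tg_rs hA (K := M r ∩ (Ucl U ∪ PL)) (fun e he h1 => by
    rwa [mem_tg_ne (fun h2 : e = s(x, p) => h.dj h.exp (h2 ▸ he)),
      mem_tg_ne (fun h2 : e = s(x, y) => h.dj h.exy (h2 ▸ he))] at h1) hno
  have hA3 := pw_tgp h.pw hA2 h.eys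
  obtain ⟨v, _, hv⟩ := pw_tgs_w h.pw hS hT (l := [s(x, y), s(x, p), s(r, s), s(y, s)])
    (by
      simp only [List.nodup_cons, List.mem_cons, List.not_mem_nil, or_false, not_or, Sym2.eq_iff, not_and,
        List.nodup_nil, and_true, not_false_iff]
      refine ⟨⟨⟨fun _ => h.yp, fun h1 => absurd h1 h.xp⟩, ⟨fun h1 => absurd h1 h.xr, fun h1 => absurd h1 h.xs⟩,
        ⟨fun h1 => absurd h1 h.xy, fun h1 => absurd h1 h.xs⟩⟩, ⟨⟨fun h1 => absurd h1 h.xr, fun h1 => absurd h1 h.xs⟩,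
        ⟨fun h1 => absurd h1 h.xy, fun h1 => absurd h1 h.xs⟩⟩, ⟨fun h1 => absurd h1 h.yr.symm,
        fun h1 => absurd h1 h.rs⟩⟩) hA3
  refine absurd hv (not_lt.2 ?_)
  have s1 := sg_or (M r ∩ (Ucl U ∪ PL)) s(r, s)
  have s2 := sg_or (M r ∩ (Ucl U ∪ PL)) s(y, s)
  simp only [chg, inc_mk, sg_mem m1, sg_not m2]
  by_cases v1 : v = x
  · subst v1
    refine con_even h.tx.1 h.tx.2 ?_
    simp only [h.xy, h.xy.symm, h.xq, h.xq.symm, h.xp, h.xp.symm, h.xr, h.xr.symm,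
      h.xs, h.xs.symm, h.yq, h.yq.symm, h.yp, h.yp.symm, h.yr, h.yr.symm, h.ys, h.ys.symm, h.qp, h.qp.symm, h.qr,
      h.qr.symm, h.qs, h.qs.symm, h.pr, h.pr.symm, h.ps, h.ps.symm, h.rs, h.rs.symm, or_self, or_false, or_true,
      false_or, true_or, if_true, if_false, ne_eq, not_true, not_false_iff, mul_one, mul_zero, add_zero, zero_add]
    omega
  by_cases v2 : v = p
  · subst v2
    exact con_free h.tp.1 h.tp.2
  by_cases v3 : v = r
  · subst v3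
    refine con_even h.tr.1 h.tr.2 ?_
    simp only [h.xy, h.xy.symm, h.xq, h.xq.symm, h.xp, h.xp.symm, h.xr, h.xr.symm,
      h.xs, h.xs.symm, h.yq, h.yq.symm, h.yp, h.yp.symm, h.yr, h.yr.symm, h.ys, h.ys.symm, h.qp, h.qp.symm, h.qr,
      h.qr.symm, h.qs, h.qs.symm, h.pr, h.pr.symm, h.ps, h.ps.symm, h.rs, h.rs.symm, or_self, or_false, or_true,
      false_or, true_or, if_true, if_false, ne_eq, not_true, not_false_iff, mul_one, mul_zero, add_zero, zero_add]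
    omega
  by_cases v4 : v = s
  · subst v4
    refine con_even h.ts.1 h.ts.2 ?_
    simp only [h.xy, h.xy.symm, h.xq, h.xq.symm, h.xp, h.xp.symm, h.xr, h.xr.symm,
      h.xs, h.xs.symm, h.yq, h.yq.symm, h.yp, h.yp.symm, h.yr, h.yr.symm, h.ys, h.ys.symm, h.qp, h.qp.symm, h.qr,
      h.qr.symm, h.qs, h.qs.symm, h.pr, h.pr.symm, h.ps, h.ps.symm, h.rs, h.rs.symm, or_self, or_false, or_true,
      false_or, true_or, if_true, if_false, ne_eq, not_true, not_false_iff, mul_one, mul_zero, add_zero, zero_add]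
    omega
  by_cases v5 : v = y
  · subst v5
    refine con_even h.ty.1 h.ty.2 ?_
    simp only [h.xy, h.xy.symm, h.xq, h.xq.symm, h.xp, h.xp.symm, h.xr, h.xr.symm,
      h.xs, h.xs.symm, h.yq, h.yq.symm, h.yp, h.yp.symm, h.yr, h.yr.symm, h.ys, h.ys.symm, h.qp, h.qp.symm, h.qr,
      h.qr.symm, h.qs, h.qs.symm, h.pr, h.pr.symm, h.ps, h.ps.symm, h.rs, h.rs.symm, or_self, or_false, or_true,
      false_or, true_or, if_true, if_false, ne_eq, not_true, not_false_iff, mul_one, mul_zero, add_zero, zero_add]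
    omega
  exact con_z (by simp only [v1, v2, v3, v4, v5, or_self, if_false, mul_zero, add_zero, sub_self])

/-- **(c), second case** -/
theorem sc2 (h : S1 X P D j S M A CL U PL pl mi x y q p r s c1 c2) {l : ℕ} (hly : l ≠ y)
    {L : Finset ℕ} (hL : K2c c1 x q L) (hyL : y ∈ L) (hpL : p ∈ L) (hX : ∀ l ∈ L, l ≠ y → l ≠ p → mi l → pl l)
    (hlL : l ∈ L) (hp : P3 c1 (M r ∩ (Ucl U ∪ PL)) x l q p) : ∃ u v, P3 c2 (M r ∩ (Ucl U ∪ PL)) r u v s := by
  by_contra hno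
  have hr := Or.inr (a := r = x) (Or.inl (b := r = s) (Eq.refl r))
  obtain ⟨hS, hT⟩ := h.S3 r hr
  have hM2 := h.m2 r hr
  have hKA := h.au r hr
  obtain ⟨K, hKdef⟩ : ∃ K, K = M r ∩ (Ucl U ∪ PL) := ⟨_, rfl⟩
  rw [← hKdef] at hp hno hKA
  have hKM : K ⊆ M r := by rw [hKdef]; exact Finset.inter_subset_left
  have hlp : l ≠ p := hp.av
  have hlx : l ≠ x := fun h1 => hL.aL (h1 ▸ hlL)
  have hlq : l ≠ q := fun h1 => hL.bL (h1 ▸ hlL)
  have hSF := h.sf hKA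
  -- edges at `q`
  have q1 : s(q, l) ∈ K := by rw [Sym2.eq_swap]; exact hp.e2
  have qe : ∀ t, s(q, t) ∈ K → t = l ∨ t = p := by
    intro t ht
    by_contra hcon
    rw [not_or] at hcon
    exact three hM2 (hKM ht) (hKM q1) (hKM hp.e3) hcon.1 hcon.2 hlp
  have hyq : s(y, q) ∉ K := by
    intro h1
    rcases qe y (by rw [Sym2.eq_swap]; exact h1) with h2 | h2
    · exact hly h2.symm
    · exact h.yp h2
  have eyq : s(y, q) ∈ c1.edges := (hL.mem _ _).2 (Or.inr ⟨Or.inr rfl, hyL⟩)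
  have exl : s(x, l) ∈ c1.edges := hp.c1
  have elq : s(l, q) ∈ c1.edges := hp.c2
  have hxp : s(x, p) ∉ K := fun h1 => hSF x l q p ⟨hp.ub, hp.av, Finset.mem_inter.2 ⟨hp.e1, hp.c1⟩,
    Finset.mem_inter.2 ⟨hp.e2, hp.c2⟩, Finset.mem_inter.2 ⟨hp.e3, hp.c3⟩,
    Finset.mem_inter.2 ⟨by rw [Sym2.eq_swap]; exact h1, by rw [Sym2.eq_swap]; exact h.exp⟩⟩
  -- `x y` is not in the near cover
  have hxy : s(x, y) ∉ K := by
    intro h1
    have hA : AU A U PL (tg (tg K s(x, y)) s(y, q)) := by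
      refine pw_inC h.pw hKA h.u1 ?_ ?_
      · intro e he
        rw [mem_tg_ne (fun h1 : e = s(y, q) => he (by rw [h1]; exact eyq)),
          mem_tg_ne (fun h1 : e = s(x, y) => he (by rw [h1]; exact h.exy))]
      · rw [h.a1 _ Finset.inter_subset_right]
        refine hL.sqFree Finset.inter_subset_right fun l1 hl1 l2 hl2 hne e1 e2 e3 e4 => ?_
        have hm : ∀ t ∈ L, s(x, t) ∈ tg (tg K s(x, y)) s(y, q) ∩ c1.edges → t ≠ y ∧ s(x, t) ∈ K ∩ c1.edges := by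
          intro t ht g1
          rw [Finset.mem_inter] at g1
          have n1 : s(x, t) ≠ s(y, q) := by
            intro h2
            rw [Sym2.eq_iff] at h2
            rcases h2 with ⟨h2, _⟩ | ⟨h2, _⟩
            · exact h.xy h2
            · exact h.xq h2
          rw [mem_tg_ne n1] at g1
          rcases mem_tg.1 g1.1 with h2 | h2
          · exact ⟨fun h3 => h2.2 (by rw [h3]), Finset.mem_inter.2 ⟨h2.1, g1.2⟩⟩
          · exact absurd h1 (h2.2 ▸ h2.1)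
        have hm2 : ∀ t ∈ L, t ≠ y → s(q, t) ∈ tg (tg K s(x, y)) s(y, q) ∩ c1.edges → s(q, t) ∈ K ∩ c1.edges := by
          intro t ht hty g1
          rw [Finset.mem_inter] at g1
          have n1 : s(q, t) ≠ s(y, q) := by
            intro h2
            rw [Sym2.eq_iff] at h2
            rcases h2 with ⟨h2, _⟩ | ⟨_, h2⟩
            · exact h.yq h2.symm
            · exact hty h2
          have n2 : s(q, t) ≠ s(x, y) := by
            intro h2
            rw [Sym2.eq_iff] at h2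
            rcases h2 with ⟨h2, _⟩ | ⟨h2, _⟩
            · exact h.xq h2.symm
            · exact h.yq h2.symm
          rw [mem_tg_ne n1, mem_tg_ne n2] at g1
          exact Finset.mem_inter.2 g1
        have g1 := hm l1 hl1 e1
        have g3 := hm l2 hl2 e3
        exact k2_sqFree h.xq hSF hne g1.2 (hm2 l1 hl1 g1.1 e2) g3.2 (hm2 l2 hl2 g3.1 e4)
    have hA2 := pw_tgp h.pw hA h.exr
    rw [hKdef] at hA2
    obtain ⟨v, _, hv⟩ := pw_tgs_w h.pw hS hT (l := [s(x, y), s(y, q), s(x, r)])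
      (by
        simp only [List.nodup_cons, List.mem_cons, List.not_mem_nil, or_false, not_or, Sym2.eq_iff, not_and,
          List.nodup_nil, and_true, not_false_iff]
        exact ⟨⟨⟨fun h1 => absurd h1 h.xy, fun h1 => absurd h1 h.xq⟩, ⟨fun _ => h.yr, fun h1 => absurd h1 h.xr⟩⟩,
          ⟨fun h1 => absurd h1 h.xy.symm, fun h1 => absurd h1 h.yr⟩⟩) hA2
    rw [← hKdef] at hv
    refine absurd hv (not_lt.2 ?_)
    have s1 := sg_or K s(x, r)
    simp only [chg, inc_mk, sg_mem h1, sg_not hyq]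
    by_cases v1 : v = x
    · subst v1
      refine con_even h.tx.1 h.tx.2 ?_
      simp only [h.xy, h.xy.symm, h.xq, h.xq.symm, h.xp, h.xp.symm, h.xr, h.xr.symm,
        h.xs, h.xs.symm, h.yq, h.yq.symm, h.yp, h.yp.symm, h.yr, h.yr.symm, h.ys, h.ys.symm, h.qp, h.qp.symm, h.qr,
        h.qr.symm, h.qs, h.qs.symm, h.pr, h.pr.symm, h.ps, h.ps.symm, h.rs, h.rs.symm, or_self, or_false, or_true,
        false_or, true_or, if_true, if_false, ne_eq, not_true, not_false_iff, mul_one, mul_zero, add_zero, zero_add]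
      omega
    by_cases v2 : v = q
    · subst v2
      refine con_X_nonneg h.tq.1 h.tq.2 ?_
      simp only [h.xy, h.xy.symm, h.xq, h.xq.symm, h.xp, h.xp.symm, h.xr, h.xr.symm,
        h.xs, h.xs.symm, h.yq, h.yq.symm, h.yp, h.yp.symm, h.yr, h.yr.symm, h.ys, h.ys.symm, h.qp, h.qp.symm, h.qr,
        h.qr.symm, h.qs, h.qs.symm, h.pr, h.pr.symm, h.ps, h.ps.symm, h.rs, h.rs.symm, or_self, or_false, or_true,
        false_or, true_or, if_true, if_false, ne_eq, not_true, not_false_iff, mul_one, mul_zero, add_zero, zero_add]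
      omega
    by_cases v3 : v = r
    · subst v3
      refine con_even h.tr.1 h.tr.2 ?_
      simp only [h.xy, h.xy.symm, h.xq, h.xq.symm, h.xp, h.xp.symm, h.xr, h.xr.symm,
        h.xs, h.xs.symm, h.yq, h.yq.symm, h.yp, h.yp.symm, h.yr, h.yr.symm, h.ys, h.ys.symm, h.qp, h.qp.symm, h.qr,
        h.qr.symm, h.qs, h.qs.symm, h.pr, h.pr.symm, h.ps, h.ps.symm, h.rs, h.rs.symm, or_self, or_false, or_true,
        false_or, true_or, if_true, if_false, ne_eq, not_true, not_false_iff, mul_one, mul_zero, add_zero, zero_add]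
      omega
    by_cases v5 : v = y
    · subst v5
      refine con_even h.ty.1 h.ty.2 ?_
      simp only [h.xy, h.xy.symm, h.xq, h.xq.symm, h.xp, h.xp.symm, h.xr, h.xr.symm,
        h.xs, h.xs.symm, h.yq, h.yq.symm, h.yp, h.yp.symm, h.yr, h.yr.symm, h.ys, h.ys.symm, h.qp, h.qp.symm, h.qr,
        h.qr.symm, h.qs, h.qs.symm, h.pr, h.pr.symm, h.ps, h.ps.symm, h.rs, h.rs.symm, or_self, or_false, or_true,
        false_or, true_or, if_true, if_false, ne_eq, not_true, not_false_iff, mul_one, mul_zero, add_zero, zero_add]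
      omega
    exact con_z (by simp only [v1, v2, v3, v5, or_self, if_false, mul_zero, add_zero, sub_self])
  -- the main move
  have hne1 : s(x, l) ≠ s(l, q) := by
    intro h2
    rw [Sym2.eq_iff] at h2
    rcases h2 with ⟨h2, _⟩ | ⟨h2, _⟩
    · exact hlx h2.symm
    · exact h.xq h2
  have hA : AU A U PL (tg (tg (tg (tg K s(x, l)) s(l, q)) s(x, p)) s(y, q)) := by
    refine pw_inC h.pw hKA h.u1 ?_ ?_
    · intro e he
      rw [mem_tg_ne (fun h1 : e = s(y, q) => he (by rw [h1]; exact eyq)),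
        mem_tg_ne (fun h1 : e = s(x, p) => he (by rw [h1]; exact h.exp)),
        mem_tg_ne (fun h1 : e = s(l, q) => he (by rw [h1]; exact elq)),
        mem_tg_ne (fun h1 : e = s(x, l) => he (by rw [h1]; exact exl))]
    · rw [h.a1 _ Finset.inter_subset_right]
      refine hL.sqFree Finset.inter_subset_right fun l1 hl1 l2 hl2 hne e1 e2 e3 e4 => ?_
      -- a common leaf is `p`
      have hall : ∀ t ∈ L, s(x, t) ∈ tg (tg (tg (tg K s(x, l)) s(l, q)) s(x, p)) s(y, q) ∩ c1.edges →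
          s(q, t) ∈ tg (tg (tg (tg K s(x, l)) s(l, q)) s(x, p)) s(y, q) ∩ c1.edges → t = p := by
        intro t ht g1 g2
        by_contra htp
        have htx : t ≠ x := fun h1 => hL.aL (h1 ▸ ht)
        have htq : t ≠ q := fun h1 => hL.bL (h1 ▸ ht)
        rw [Finset.mem_inter] at g1 g2
        have n1 : s(x, t) ≠ s(y, q) := by
          intro h2
          rw [Sym2.eq_iff] at h2
          rcases h2 with ⟨h2, _⟩ | ⟨h2, _⟩
          · exact h.xy h2
          · exact h.xq h2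
        have n2 : s(x, t) ≠ s(x, p) := fun h2 => htp (Sym2.congr_right.1 h2)
        have n3 : s(x, t) ≠ s(l, q) := by
          intro h2
          rw [Sym2.eq_iff] at h2
          rcases h2 with ⟨h2, _⟩ | ⟨h2, _⟩
          · exact hlx h2.symm
          · exact h.xq h2
        rw [mem_tg_ne n1, mem_tg_ne n2, mem_tg_ne n3, mem_tg] at g1
        -- `t` is neither `l` nor `y`
        have hty : t ≠ y := by
          rintro rfl
          rcases g1.1 with h2 | h2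
          · exact hxy h2.1
          · exact hly (Sym2.congr_right.1 h2.2).symm
        have htl : t ≠ l := by
          rintro rfl
          rcases g1.1 with h2 | h2
          · exact h2.2 rfl
          · exact h2.1 hp.e1
        have m1 : s(q, t) ≠ s(y, q) := by
          intro h2
          rw [Sym2.eq_iff] at h2
          rcases h2 with ⟨h2, _⟩ | ⟨_, h2⟩
          · exact h.yq h2.symm
          · exact hty h2
        have m2 : s(q, t) ≠ s(x, p) := by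
          intro h2
          rw [Sym2.eq_iff] at h2
          rcases h2 with ⟨h2, _⟩ | ⟨h2, _⟩
          · exact h.xq h2.symm
          · exact h.qp h2
        have m3 : s(q, t) ≠ s(l, q) := by
          intro h2
          rw [Sym2.eq_iff] at h2
          rcases h2 with ⟨h2, _⟩ | ⟨_, h2⟩
          · exact hlq h2.symm
          · exact htl h2
        have m4 : s(q, t) ≠ s(x, l) := by
          intro h2
          rw [Sym2.eq_iff] at h2
          rcases h2 with ⟨h2, _⟩ | ⟨h2, _⟩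
          · exact h.xq h2.symm
          · exact hlq h2.symm
        rw [mem_tg_ne m1, mem_tg_ne m2, mem_tg_ne m3, mem_tg_ne m4] at g2
        rcases qe t g2.1 with h2 | h2
        · exact htl h2
        · exact htp h2
      exact hne ((hall l1 hl1 e1 e2).trans (hall l2 hl2 e3 e4).symm)
  have hA2 := h.tg_rs hA (K := K) (fun e he h1 => by
    rwa [mem_tg_ne (fun h2 : e = s(y, q) => h.dj eyq (h2 ▸ he)),
      mem_tg_ne (fun h2 : e = s(x, p) => h.dj h.exp (h2 ▸ he)),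
      mem_tg_ne (fun h2 : e = s(l, q) => h.dj elq (h2 ▸ he)),
      mem_tg_ne (fun h2 : e = s(x, l) => h.dj exl (h2 ▸ he))] at h1) hno
  have hA3 := pw_tgp h.pw hA2 h.eys
  have hrs1 := h.ers1
  rw [hKdef] at hA3
  have k1 : s(r, s) ≠ s(x, l) := fun h1 => hrs1 (h1 ▸ exl)
  have k2 : s(r, s) ≠ s(l, q) := fun h1 => hrs1 (h1 ▸ elq)
  have k3 : s(r, s) ≠ s(x, p) := fun h1 => hrs1 (h1 ▸ h.exp)
  have k4 : s(r, s) ≠ s(y, q) := fun h1 => hrs1 (h1 ▸ eyq)
  have hys1 : s(y, s) ∉ c1.edges := h.plc h.eys h.u1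
  have k5 : s(y, s) ≠ s(x, l) := fun h1 => hys1 (h1 ▸ exl)
  have k6 : s(y, s) ≠ s(l, q) := fun h1 => hys1 (h1 ▸ elq)
  have k7 : s(y, s) ≠ s(x, p) := fun h1 => hys1 (h1 ▸ h.exp)
  have k8 : s(y, s) ≠ s(y, q) := fun h1 => hys1 (h1 ▸ eyq)
  have k9 : s(y, s) ≠ s(r, s) := fun h1 => h.plc h.eys h.u2 (h1 ▸ h.ers)
  have k10 : s(x, p) ≠ s(x, l) := fun h1 => hlp (Sym2.congr_right.1 h1).symm
  have k11 : s(x, p) ≠ s(l, q) := by
    intro h2
    rw [Sym2.eq_iff] at h2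
    rcases h2 with ⟨h2, _⟩ | ⟨h2, _⟩
    · exact hlx h2.symm
    · exact h.xq h2
  have k12 : s(y, q) ≠ s(x, l) := by
    intro h2
    rw [Sym2.eq_iff] at h2
    rcases h2 with ⟨h2, _⟩ | ⟨_, h2⟩
    · exact h.xy h2.symm
    · exact h.xq h2.symm
  have k13 : s(y, q) ≠ s(l, q) := by
    intro h2
    rw [Sym2.eq_iff] at h2
    rcases h2 with ⟨h2, _⟩ | ⟨h2, _⟩
    · exact hly h2.symm
    · exact h.yq h2
  have k14 : s(y, q) ≠ s(x, p) := by
    intro h2
    rw [Sym2.eq_iff] at h2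
    rcases h2 with ⟨h2, _⟩ | ⟨h2, _⟩
    · exact h.xy h2.symm
    · exact h.yp h2
  obtain ⟨v, _, hv⟩ := pw_tgs_w h.pw hS hT (l := [s(x, l), s(l, q), s(x, p), s(y, q), s(r, s), s(y, s)])
    (by
      simp only [List.nodup_cons, List.mem_cons, List.not_mem_nil, or_false, not_or, List.nodup_nil, and_true,
        not_false_iff]
      exact ⟨⟨hne1, k10.symm, k12.symm, k1.symm, k5.symm⟩, ⟨k11.symm, k13.symm, k2.symm, k6.symm⟩,
        ⟨k14.symm, k3.symm, k7.symm⟩, ⟨k4.symm, k8.symm⟩, k9.symm⟩) hA3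
  rw [← hKdef] at hv
  refine absurd hv (not_lt.2 ?_)
  have s1 := sg_or K s(r, s)
  have s2 := sg_or K s(y, s)
  have q2 : s(l, q) ∈ K := hp.e2
  simp only [chg, inc_mk, sg_mem hp.e1, sg_mem q2, sg_not hxp, sg_not hyq]
  have hlr : l ≠ r := by
    rintro rfl
    exact h.plc h.exr h.u1 exl
  by_cases v1 : v = x
  · subst v1
    refine con_even h.tx.1 h.tx.2 ?_
    simp only [hlx.symm]
    simp only [h.xy, h.xy.symm, h.xq, h.xq.symm, h.xp, h.xp.symm, h.xr, h.xr.symm,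
      h.xs, h.xs.symm, h.yq, h.yq.symm, h.yp, h.yp.symm, h.yr, h.yr.symm, h.ys, h.ys.symm, h.qp, h.qp.symm, h.qr,
      h.qr.symm, h.qs, h.qs.symm, h.pr, h.pr.symm, h.ps, h.ps.symm, h.rs, h.rs.symm, or_self, or_false, or_true,
      false_or, true_or, if_true, if_false, ne_eq, not_true, not_false_iff, mul_one, mul_zero, add_zero, zero_add]
    omega
  by_cases v2 : v = p
  · subst v2
    exact con_free h.tp.1 h.tp.2
  by_cases v3 : v = r
  · subst v3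
    refine con_even h.tr.1 h.tr.2 ?_
    simp only [hlr.symm]
    simp only [h.xy, h.xy.symm, h.xq, h.xq.symm, h.xp, h.xp.symm, h.xr, h.xr.symm,
      h.xs, h.xs.symm, h.yq, h.yq.symm, h.yp, h.yp.symm, h.yr, h.yr.symm, h.ys, h.ys.symm, h.qp, h.qp.symm, h.qr,
      h.qr.symm, h.qs, h.qs.symm, h.pr, h.pr.symm, h.ps, h.ps.symm, h.rs, h.rs.symm, or_self, or_false, or_true,
      false_or, true_or, if_true, if_false, ne_eq, not_true, not_false_iff, mul_one, mul_zero, add_zero, zero_add]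
    omega
  by_cases v4 : v = s
  · subst v4
    refine con_even h.ts.1 h.ts.2 ?_
    by_cases v5 : v = l
    · simp only [v5]
      rw [← v5]
      simp only [h.xy, h.xy.symm, h.xq, h.xq.symm, h.xp, h.xp.symm, h.xr, h.xr.symm,
        h.xs, h.xs.symm, h.yq, h.yq.symm, h.yp, h.yp.symm, h.yr, h.yr.symm, h.ys, h.ys.symm, h.qp, h.qp.symm, h.qr,
        h.qr.symm, h.qs, h.qs.symm, h.pr, h.pr.symm, h.ps, h.ps.symm, h.rs, h.rs.symm, or_self, or_false, or_true,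
        false_or, true_or, if_true, if_false, ne_eq, not_true, not_false_iff, mul_one, mul_zero, add_zero, zero_add]
      omega
    · simp only [v5]
      simp only [h.xy, h.xy.symm, h.xq, h.xq.symm, h.xp, h.xp.symm, h.xr, h.xr.symm,
        h.xs, h.xs.symm, h.yq, h.yq.symm, h.yp, h.yp.symm, h.yr, h.yr.symm, h.ys, h.ys.symm, h.qp, h.qp.symm, h.qr,
        h.qr.symm, h.qs, h.qs.symm, h.pr, h.pr.symm, h.ps, h.ps.symm, h.rs, h.rs.symm, or_self, or_false, or_true,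
        false_or, true_or, if_true, if_false, ne_eq, not_true, not_false_iff, mul_one, mul_zero, add_zero, zero_add]
      omega
  by_cases v5 : v = y
  · subst v5
    refine con_even h.ty.1 h.ty.2 ?_
    simp only [hly.symm]
    simp only [h.xy, h.xy.symm, h.xq, h.xq.symm, h.xp, h.xp.symm, h.xr, h.xr.symm,
      h.xs, h.xs.symm, h.yq, h.yq.symm, h.yp, h.yp.symm, h.yr, h.yr.symm, h.ys, h.ys.symm, h.qp, h.qp.symm, h.qr,
      h.qr.symm, h.qs, h.qs.symm, h.pr, h.pr.symm, h.ps, h.ps.symm, h.rs, h.rs.symm, or_self, or_false, or_true,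
      false_or, true_or, if_true, if_false, ne_eq, not_true, not_false_iff, mul_one, mul_zero, add_zero, zero_add]
    omega
  by_cases v6 : v = q
  · subst v6
    refine con_z ?_
    simp only [hlq.symm]
    simp only [h.xy, h.xy.symm, h.xq, h.xq.symm, h.xp, h.xp.symm, h.xr, h.xr.symm,
      h.xs, h.xs.symm, h.yq, h.yq.symm, h.yp, h.yp.symm, h.yr, h.yr.symm, h.ys, h.ys.symm, h.qp, h.qp.symm, h.qr,
      h.qr.symm, h.qs, h.qs.symm, h.pr, h.pr.symm, h.ps, h.ps.symm, h.rs, h.rs.symm, or_self, or_false, or_true,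
      false_or, true_or, if_true, if_false, ne_eq, not_true, not_false_iff, mul_one, mul_zero, add_zero, zero_add]
    omega
  by_cases v7 : v = l
  · subst v7
    refine con_nX (hX v hlL hly hlp) ?_ ?_
    · simp only [v1, v2, v3, v4, v5, v6, or_self, or_false, or_true, if_false, if_true]
      norm_num
    · simp only [v1, v2, v3, v4, v5, v6, or_self, or_false, or_true, if_false, if_true]
      norm_num
  exact con_z (by simp only [v1, v2, v3, v4, v5, v6, v7, or_self, if_false, mul_zero, add_zero, sub_self])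

/-- **(c)** -/
theorem sc (h : S1 X P D j S M A CL U PL pl mi x y q p r s c1 c2) :
    ∃ u v, P3 c2 (M r ∩ (Ucl U ∪ PL)) r u v s := by
  obtain ⟨e, f, hp⟩ := h.sb
  by_cases he : e = y
  · subst he
    exact h.sc1 hp
  · rcases h.path1 hp with ⟨_, _, _, _, h1, _⟩ | ⟨L, hL, h1, h2, _, h3, h4, h5⟩
    · exact absurd h1 he
    · subst h4
      exact h.sc2 he hL h1 h2 h3 h5 hp

/-- **(d)** -/
theorem sd (h : S1 X P D j S M A CL U PL pl mi x y q p r s c1 c2) (f : ℕ) :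
    ¬ P3 c1 (M s ∩ (Ucl U ∪ PL)) x y f p := by
  intro hp
  have hs := Or.inr (a := s = x) (Or.inr (a := s = r) (Eq.refl s))
  obtain ⟨hS, hT⟩ := h.S3 s hs
  obtain ⟨m1, m2, hA⟩ := h.mv1 (h.au s hs) (h.m2 s hs)
    (Finset.inter_subset_left.trans Finset.inter_subset_left) hp
  have hA3 := pw_tgp h.pw hA h.eys
  obtain ⟨v, _, hv⟩ := pw_tgs_w h.pw hS hT (l := [s(x, y), s(x, p), s(y, s)])
    (by
      simp only [List.nodup_cons, List.mem_cons, List.not_mem_nil, or_false, not_or, Sym2.eq_iff, not_and,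
        List.nodup_nil, and_true, not_false_iff]
      exact ⟨⟨⟨fun _ => h.yp, fun h1 => absurd h1 h.xp⟩,
        ⟨fun h1 => absurd h1 h.xy, fun h1 => absurd h1 h.xs⟩⟩,
        ⟨fun h1 => absurd h1 h.xy, fun h1 => absurd h1 h.xs⟩⟩) hA3
  refine absurd hv (not_lt.2 ?_)
  have s2 := sg_or (M s ∩ (Ucl U ∪ PL)) s(y, s)
  simp only [chg, inc_mk, sg_mem m1, sg_not m2]
  by_cases v1 : v = x
  · subst v1
    refine con_even h.tx.1 h.tx.2 ?_
    simp only [h.xy, h.xy.symm, h.xq, h.xq.symm, h.xp, h.xp.symm, h.xr, h.xr.symm,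
      h.xs, h.xs.symm, h.yq, h.yq.symm, h.yp, h.yp.symm, h.yr, h.yr.symm, h.ys, h.ys.symm, h.qp, h.qp.symm, h.qr,
      h.qr.symm, h.qs, h.qs.symm, h.pr, h.pr.symm, h.ps, h.ps.symm, h.rs, h.rs.symm, or_self, or_false, or_true,
      false_or, true_or, if_true, if_false, ne_eq, not_true, not_false_iff, mul_one, mul_zero, add_zero, zero_add]
    omega
  by_cases v2 : v = p
  · subst v2
    exact con_free h.tp.1 h.tp.2
  by_cases v4 : v = s
  · subst v4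
    refine con_even h.ts.1 h.ts.2 ?_
    simp only [h.xy, h.xy.symm, h.xq, h.xq.symm, h.xp, h.xp.symm, h.xr, h.xr.symm,
      h.xs, h.xs.symm, h.yq, h.yq.symm, h.yp, h.yp.symm, h.yr, h.yr.symm, h.ys, h.ys.symm, h.qp, h.qp.symm, h.qr,
      h.qr.symm, h.qs, h.qs.symm, h.pr, h.pr.symm, h.ps, h.ps.symm, h.rs, h.rs.symm, or_self, or_false, or_true,
      false_or, true_or, if_true, if_false, ne_eq, not_true, not_false_iff, mul_one, mul_zero, add_zero, zero_add]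
    omega
  by_cases v5 : v = y
  · subst v5
    refine con_even h.ty.1 h.ty.2 ?_
    simp only [h.xy, h.xy.symm, h.xq, h.xq.symm, h.xp, h.xp.symm, h.xr, h.xr.symm,
      h.xs, h.xs.symm, h.yq, h.yq.symm, h.yp, h.yp.symm, h.yr, h.yr.symm, h.ys, h.ys.symm, h.qp, h.qp.symm, h.qr,
      h.qr.symm, h.qs, h.qs.symm, h.pr, h.pr.symm, h.ps, h.ps.symm, h.rs, h.rs.symm, or_self, or_false, or_true,
      false_or, true_or, if_true, if_false, ne_eq, not_true, not_false_iff, mul_one, mul_zero, add_zero, zero_add]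
    omega
  exact con_z (by simp only [v1, v2, v4, v5, or_self, if_false, mul_zero, add_zero, sub_self])

/-- **(e), (f)** -/
theorem sef (h : S1 X P D j S M A CL U PL pl mi x y q p r s c1 c2) :
    (∃ u v, P3 c2 (M s ∩ (Ucl U ∪ PL)) s u v r) ∨
    ∃ L l, (c1 = Clu.k2 x q L ∨ c1 = Clu.k2 q x L) ∧ l ∈ L ∧ l ≠ y ∧
      P3 c1 (M s ∩ (Ucl U ∪ PL)) x l q p := by
  by_contra hcon
  rw [not_or] at hcon
  have hs := Or.inr (a := s = x) (Or.inr (a := s = r) (Eq.refl s))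
  obtain ⟨hS, hT⟩ := h.S3 s hs
  have hno1 : ¬ ∃ e f, P3 c1 (M s ∩ (Ucl U ∪ PL)) x e f p := by
    rintro ⟨e, f, hp⟩
    by_cases he : e = y
    · subst he
      exact h.sd f hp
    · rcases h.path1 hp with ⟨_, _, _, _, h1, _⟩ | ⟨L, hL, h1, h2, h30, _, h4, h5⟩
      · exact he h1
      · subst h4
        exact hcon.2 ⟨L, e, h30, h5, he, hp⟩
  have hno2 : ¬ ∃ u v, P3 c2 (M s ∩ (Ucl U ∪ PL)) r u v s := fun ⟨u, v, hp⟩ => hcon.1 ⟨v, u, hp.rev⟩
  have hA1 := pw_tgc h.pw (h.au s hs) h.u1 h.a1 h.exp hno1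
  have hA2 := h.tg_rs hA1 (K := M s ∩ (Ucl U ∪ PL)) (fun e he h1 => by
    rwa [mem_tg_ne (fun h2 : e = s(x, p) => h.dj h.exp (h2 ▸ he))] at h1) hno2
  have hA3 := pw_tgp h.pw hA2 h.exr
  obtain ⟨v, _, hv⟩ := pw_tgs_w h.pw hS hT (l := [s(x, p), s(r, s), s(x, r)])
    (by
      simp only [List.nodup_cons, List.mem_cons, List.not_mem_nil, or_false, not_or, Sym2.eq_iff, not_and,
        List.nodup_nil, and_true, not_false_iff]
      exact ⟨⟨⟨fun h1 => absurd h1 h.xr, fun h1 => absurd h1 h.xs⟩,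
        ⟨fun _ => h.pr, fun h1 => absurd h1 h.xr⟩⟩,
        ⟨fun h1 => absurd h1 h.xr.symm, fun _ => h.xs.symm⟩⟩) hA3
  refine absurd hv (not_lt.2 ?_)
  have s1 := sg_or (M s ∩ (Ucl U ∪ PL)) s(x, p)
  have s2 := sg_or (M s ∩ (Ucl U ∪ PL)) s(r, s)
  have s3 := sg_or (M s ∩ (Ucl U ∪ PL)) s(x, r)
  simp only [chg, inc_mk]
  by_cases v1 : v = x
  · subst v1
    refine con_even h.tx.1 h.tx.2 ?_
    simp only [h.xy, h.xy.symm, h.xq, h.xq.symm, h.xp, h.xp.symm, h.xr, h.xr.symm,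
      h.xs, h.xs.symm, h.yq, h.yq.symm, h.yp, h.yp.symm, h.yr, h.yr.symm, h.ys, h.ys.symm, h.qp, h.qp.symm, h.qr,
      h.qr.symm, h.qs, h.qs.symm, h.pr, h.pr.symm, h.ps, h.ps.symm, h.rs, h.rs.symm, or_self, or_false, or_true,
      false_or, true_or, if_true, if_false, ne_eq, not_true, not_false_iff, mul_one, mul_zero, add_zero, zero_add]
    omega
  by_cases v2 : v = p
  · subst v2
    exact con_free h.tp.1 h.tp.2
  by_cases v3 : v = r
  · subst v3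
    refine con_even h.tr.1 h.tr.2 ?_
    simp only [h.xy, h.xy.symm, h.xq, h.xq.symm, h.xp, h.xp.symm, h.xr, h.xr.symm,
      h.xs, h.xs.symm, h.yq, h.yq.symm, h.yp, h.yp.symm, h.yr, h.yr.symm, h.ys, h.ys.symm, h.qp, h.qp.symm, h.qr,
      h.qr.symm, h.qs, h.qs.symm, h.pr, h.pr.symm, h.ps, h.ps.symm, h.rs, h.rs.symm, or_self, or_false, or_true,
      false_or, true_or, if_true, if_false, ne_eq, not_true, not_false_iff, mul_one, mul_zero, add_zero, zero_add]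
    omega
  by_cases v4 : v = s
  · subst v4
    refine con_even h.ts.1 h.ts.2 ?_
    simp only [h.xy, h.xy.symm, h.xq, h.xq.symm, h.xp, h.xp.symm, h.xr, h.xr.symm,
      h.xs, h.xs.symm, h.yq, h.yq.symm, h.yp, h.yp.symm, h.yr, h.yr.symm, h.ys, h.ys.symm, h.qp, h.qp.symm, h.qr,
      h.qr.symm, h.qs, h.qs.symm, h.pr, h.pr.symm, h.ps, h.ps.symm, h.rs, h.rs.symm, or_self, or_false, or_true,
      false_or, true_or, if_true, if_false, ne_eq, not_true, not_false_iff, mul_one, mul_zero, add_zero, zero_add]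
    omega
  exact con_z (by simp only [v1, v2, v3, v4, or_self, if_false, mul_zero, add_zero, sub_self])

end S1

end

end Pool.Agent.PF4.XS1

end
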