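import Pool.Agent.PFM.M07
import Pool.Agent.PFM.M09

section -- file PF4/Asm

/-!
The final assembly: 2F({4}) is in P if there are functions `solver` and `xf` as in `SX`.
-/

set_option autoImplicit false

namespace Pool.Agent.PF4

open Finset Pool.Agent.TFC Pool.Agent.Lib.helper60 TF4

section
variable {n : ℕ}

theorem ncard_adj {F : SimpleGraph (Fin n)} {z : Finset (Sym2 ℕ)}
    (h : ∀ u v : Fin n, F.Adj u v ↔ s(u.val, v.val) ∈ z) (hz : ∀ e ∈ z, ∀ v ∈ e, v < n) (v : Fin n) :
    {u | F.Adj v u}.ncard = dg z v.val := by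
  have hinj : Function.Injective (fun u : Fin n => s(v.val, u.val)) := fun a b hab =>
    Fin.ext (Sym2.congr_right.mp hab)
  rw [← Set.ncard_image_of_injective _ hinj]
  have he : (fun u : Fin n => s(v.val, u.val)) '' {u | F.Adj v u} =
      ((z.filter (fun e => v.val ∈ e) : Finset (Sym2 ℕ)) : Set (Sym2 ℕ)) := by
    ext e
    simp only [Set.mem_image, Set.mem_ofPred_eq, coe_filter]
    constructor
    · rintro ⟨u, hu, rfl⟩
      exact ⟨(h v u).mp hu, Sym2.mem_mk_left _ _⟩
    · rintro ⟨he, hv⟩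
      obtain ⟨u, rfl⟩ := hv
      have hu : u < n := hz _ he u (Sym2.mem_mk_right _ _)
      exact ⟨⟨u, hu⟩, (h v ⟨u, hu⟩).mpr he, rfl⟩
  rw [he, Set.ncard_coe_finset]
  rfl

variable {G : SimpleGraph (Fin n)} {E : List (ℕ × ℕ)}

theorem insWF_of (hE : E.Nodup) (h1 : ∀ e ∈ E, e.1 < e.2 ∧ e.2 < n) : InsWF (n, E) := by
  refine ⟨?_, ?_, ?_⟩
  · show (E.map fe).Nodup
    refine hE.map_on ?_
    rintro ⟨a, b⟩ he ⟨a', b'⟩ hf h
    have k1 := h1 _ he
    have k2 := h1 _ hf
    simp only at k1 k2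
    unfold fe at h
    simp only [Sym2.eq_iff] at h
    rcases h with ⟨rfl, rfl⟩ | ⟨rfl, rfl⟩
    · rfl
    · omega
  · intro e he
    obtain ⟨f, hf, rfl⟩ := mem_fs.1 he
    have := h1 f hf
    unfold fe
    rw [Sym2.mk_isDiag_iff]
    omega
  · intro e he
    have := h1 e he
    exact ⟨by show e.1 < n; omega, this.2⟩

theorem mem_fs_E (h1 : ∀ e ∈ E, e.1 < e.2 ∧ e.2 < n)
    (h2 : ∀ u v : Fin n, u < v → (G.Adj u v ↔ (u.val, v.val) ∈ E)) (u v : Fin n) :
    s(u.val, v.val) ∈ fs E ↔ G.Adj u v := by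
  have key : ∀ u v : Fin n, u < v → (s(u.val, v.val) ∈ fs E ↔ G.Adj u v) := by
    intro u v huv
    rw [h2 u v huv, mem_fs]
    constructor
    · rintro ⟨⟨a, b⟩, he, h⟩
      have k := h1 _ he
      simp only at k
      unfold fe at h
      simp only [Sym2.eq_iff] at h
      have huv' : u.val < v.val := huv
      rcases h with ⟨rfl, rfl⟩ | ⟨rfl, rfl⟩
      · exact he
      · omega
    · intro h
      exact ⟨_, h, rfl⟩
  rcases lt_trichotomy u v with h | h | h
  · exact key u v h
  · subst h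
    constructor
    · intro h
      obtain ⟨f, hf, h⟩ := mem_fs.1 h
      have k := h1 f hf
      unfold fe at h
      simp only [Sym2.eq_iff] at h
      omega
    · intro h; exact absurd h (G.irrefl)
  · rw [Sym2.eq_swap, key v u h]
    exact ⟨fun h => h.symm, fun h => h.symm⟩

theorem fac_nat (hE : E.Nodup) (h1 : ∀ e ∈ E, e.1 < e.2 ∧ e.2 < n)
    (h2 : ∀ u v : Fin n, u < v → (G.Adj u v ↔ (u.val, v.val) ∈ E)) :
    (∃ L, VM (n, E) L ∧ ∀ u < n, 2 ≤ degL L u) ↔ ∃ F, IsFac G F := by
  have hx := insWF_of hE h1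
  constructor
  · rintro ⟨L, hL, hd⟩
    have hnl : NoLoop (fs L) := hL.1.m2.nl
    have hlt : ∀ e ∈ fs L, ∀ v ∈ e, v < n := fun e he v hv => hx.vlt (hL.1.sub he) hv
    let F : SimpleGraph (Fin n) :=
      { Adj := fun u v => s(u.val, v.val) ∈ fs L
        symm := ⟨fun u v h => msw h⟩
        loopless := ⟨fun u h => hnl _ h (by simp)⟩ }
    have hF : ∀ u v : Fin n, F.Adj u v ↔ s(u.val, v.val) ∈ fs L := fun _ _ => Iff.rfl
    refine ⟨F, ?_, ?_, ?_⟩
    · intro u v h
      exact (mem_fs_E h1 h2 u v).1 (hL.1.sub h)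
    · intro v
      rw [ncard_adj hF hlt v]
      have k1 := hd v.val v.2
      rw [degL_eq hL.1.wf] at k1
      exact le_antisymm (hL.1.m2.le _) k1
    · intro a b c d e1 e2 e3 e4
      by_contra hc
      push Not at hc
      have hs : Sq (fs L) a.val b.val c.val d.val :=
        ⟨fun h => hc.1 (Fin.ext h), fun h => hc.2 (Fin.ext h), e1, e2, e3, e4⟩
      obtain ⟨q, hq, e⟩ := sqG_full hx (hs.mono hL.1.sub)
      have k := hL.2 q hq
      have k2 : sqIn L q = true := by rw [sqIn_iff, e]; exact Sq.sub hs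
      rw [k] at k2; cases k2
  · rintro ⟨F, hF⟩
    classical
    let L : List Ed := E.filter fun e => decide (∃ (h : e.1 < n) (h' : e.2 < n), F.Adj ⟨e.1, h⟩ ⟨e.2, h'⟩)
    have hmem : ∀ u v : Fin n, F.Adj u v ↔ s(u.val, v.val) ∈ fs L := by
      intro u v
      constructor
      · intro h
        obtain ⟨e, he, h3⟩ := mem_fs.1 ((mem_fs_E h1 h2 u v).2 (hF.le h))
        refine mem_fs.2 ⟨e, ?_, h3⟩
        simp only [L, List.mem_filter, decide_eq_true_eq]
        refine ⟨he, ?_⟩
        obtain ⟨a, b⟩ := e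
        unfold fe at h3
        simp only [Sym2.eq_iff] at h3
        rcases h3 with ⟨rfl, rfl⟩ | ⟨rfl, rfl⟩
        · exact ⟨u.2, v.2, h⟩
        · exact ⟨v.2, u.2, h.symm⟩
      · intro h
        obtain ⟨e, he, h3⟩ := mem_fs.1 h
        simp only [L, List.mem_filter, decide_eq_true_eq] at he
        obtain ⟨_, k1, k2, k3⟩ := he
        obtain ⟨a, b⟩ := e
        unfold fe at h3
        simp only [Sym2.eq_iff] at h3
        rcases h3 with ⟨rfl, rfl⟩ | ⟨rfl, rfl⟩
        · exact k3
        · exact k3.symm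
    have hsub : fs L ⊆ fs E := by
      intro e he
      obtain ⟨f, hf, rfl⟩ := mem_fs.1 he
      exact fe_mem_fs (List.mem_filter.1 hf).1
    have hlt : ∀ e ∈ fs L, ∀ v ∈ e, v < n := fun e he v hv => hx.vlt (hsub he) hv
    have hwf : WF L := WF.filter hx.wf _
    have hdeg : ∀ v : Fin n, dg (fs L) v.val = 2 := by
      intro v
      rw [← ncard_adj hmem hlt v]
      exact hF.two v
    refine ⟨L, ⟨⟨hwf, ⟨fun e he => hx.nl e (hsub he), ?_⟩, hsub⟩, ?_⟩, ?_⟩
    · intro v
      by_cases hv : v < n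
      · exact (hdeg ⟨v, hv⟩).le
      · have : dg (fs L) v = 0 := by
          rw [dg, Finset.card_eq_zero, Finset.filter_eq_empty_iff]
          intro e he hv'
          exact hv (hlt e he v hv')
        omega
    · intro q hq
      cases hs : sqIn L q with
      | false => rfl
      | true =>
        exfalso
        rw [sqIn_iff] at hs
        have hok := sqG_ok q hq
        obtain ⟨a, b, c, d⟩ := q
        obtain ⟨⟨ha, hb, hc, hd⟩, _⟩ := mem_sqG.1 hq
        simp only at ha hb hc hd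
        have hs' : TFC.sq a b c d ⊆ fs L := hs
        have e1 : s(a, b) ∈ fs L := hs' (by simp [TFC.sq])
        have e2 : s(b, c) ∈ fs L := hs' (by simp [TFC.sq])
        have e3 : s(c, d) ∈ fs L := hs' (by simp [TFC.sq])
        have e4 : s(d, a) ∈ fs L := hs' (by simp [TFC.sq])
        rcases hF.free ⟨a, ha⟩ ⟨b, hb⟩ ⟨c, hc⟩ ⟨d, hd⟩ ((hmem _ _).2 e1) ((hmem _ _).2 e2)
          ((hmem _ _).2 e3) ((hmem _ _).2 e4) with h | h
        · exact hok.2.1 (Fin.mk.inj h)
        · exact hok.2.2.2.2.1 (Fin.mk.inj h)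
    · intro u hu
      rw [degL_eq hwf]
      exact (hdeg ⟨u, hu⟩).ge

end

end Pool.Agent.PF4

end

section -- file PF4/SX2

/-!
# 2F({4}) is in P, given `solver` and `xf1`

The interface `SX2` of the two missing functions (dead-list form), only for demands with the values `0` and `2`: a vertex `v` of
demand `1` is replaced by a vertex of demand `2` with a pendant edge.
-/

set_option autoImplicit false

namespace Pool.Agent.PF4

open Finset Pool.Agent.TFC Pool.Agent.Lib.helper60

/-- the demand is `0` or `2` everywhere -/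
def Ev (x : Ins) (g : List ℕ) : Prop := ∀ u < x.1, g.getD u 0 = 0 ∨ g.getD u 0 = 2

/-- the interface of the solver and of the function which removes a square from a clause -/
structure SX2 where
  /-- `solver (x, g, W, D)`: find a `g`-cover without square of `D` -/
  solver : Ins × List ℕ × List (ℕ × List Ed) × List Sq4 → Bool × List Ed
  /-- `xf1 (x, g, W, N, Q, R)`: find a `g`-cover whose clause is in the clause of `N` and does not contain `Q` -/
  xf1 : Ins × List ℕ × List (ℕ × List Ed) × List Ed × Sq4 × Sq4 → Bool × List Ed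
  pt_solver : PT solver
  pt_xf1 : PT xf1
  solver_spec : ∀ x g W v D, InsWF x → Da x g W v → Ev x g → D.Nodup →
    (∀ Q ∈ D, Q ∈ sqG x ∧ harm g Q = true) → (∀ Q ∈ D, ∀ R ∈ D, conf Q R = false) →
    ((solver (x, g, W, D)).1 = true →
      MG x (solver (x, g, W, D)).2 ∧ Cov x.1 g (degL (solver (x, g, W, D)).2) ∧
      ∀ Q ∈ D, sqIn (solver (x, g, W, D)).2 Q = false) ∧
    ((solver (x, g, W, D)).1 = false → ¬ ∃ L, VM x L ∧ Cov x.1 g (degL L))
  xf1_spec : ∀ x g W v N Q R, InsWF x → Da x g W v → Ev x g → MG x N → Cov x.1 g (degL N) →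
    Q ∈ clS x g N → R ∈ sqG x → harm g R = true → conf Q R = true →
    (xf1 (x, g, W, N, Q, R)).1 = true →
    MG x (xf1 (x, g, W, N, Q, R)).2 ∧ Cov x.1 g (degL (xf1 (x, g, W, N, Q, R)).2) ∧
      ∀ Z ∈ clS x g (xf1 (x, g, W, N, Q, R)).2, Z ∈ clS x g N ∧ Z ≠ Q
  xf1_alt : ∀ x g W v F N Q R, InsWF x → Da x g W v → Ev x g → MG x F → Cov x.1 g (degL F) →
    MG x N → Cov x.1 g (degL N) → Q ∈ clS x g F → R ∈ clS x g N → conf Q R = true →
    (xf1 (x, g, W, F, Q, R)).1 = true ∨ (xf1 (x, g, W, N, R, Q)).1 = true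

/-- the interface of the inner loop -/
def SX2.toIn (A : SX2) : In2Api Ins (List Ed) Sq4 where
  nv := fun x => x.1
  deg := fun _ M u => degL M u
  m2 := MG
  wf := InsWF
  sqs := sqG
  has := fun _ M q => sqIn M q
  opp := fun _ g q => harm g q
  conf := conf
  emp := []
  k0 := (0, 0, 0, 0)
  exch := exV
  solver := fun y => ((A.solver y).1, nrm y.1 (A.solver y).2)
  xf1 := fun y => ((A.xf1 y).1, nrm y.1 (A.xf1 y).2)
  brk := fun y => brk y.2.1 (sqG y.1) y.2.2
  B := fun x => tsize x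
  pt_nv := PT.fst
  pt_deg := pt_degL PT.snd.p1 PT.snd.p2
  pt_sqs := pt_sqG PT.id
  pt_has := pt_sqIn PT.snd.p1 PT.snd.p2
  pt_opp := pt_harm PT.snd.p1 PT.snd.p2
  pt_conf := pt_conf PT.fst PT.snd
  pt_eq := by
    have h : PT (fun y : Sq4 × Sq4 => decide (y.1.1 = y.2.1) && (decide (y.1.2.1 = y.2.2.1) &&
        (decide (y.1.2.2.1 = y.2.2.2.1) && decide (y.1.2.2.2 = y.2.2.2.2)))) :=
      PT.band (PT.neq PT.fst.p1 PT.snd.p1) (PT.band (PT.neq PT.fst.p2.p1 PT.snd.p2.p1)
        (PT.band (PT.neq PT.fst.p2.p2.p1 PT.snd.p2.p2.p1) (PT.neq PT.fst.p2.p2.p2 PT.snd.p2.p2.p2)))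
    refine h.congr ?_
    rintro ⟨⟨a, b, c, d⟩, ⟨a', b', c', d'⟩⟩
    simp only [Prod.mk.injEq, Bool.decide_and]
  pt_exch := pt_exV
  pt_solver := PT.pair (PT.p1 A.pt_solver) (pt_nrm PT.fst (PT.p2 A.pt_solver))
  pt_xf1 := PT.pair (PT.p1 A.pt_xf1) (pt_nrm PT.fst (PT.p2 A.pt_xf1))
  pt_brk := pt_brk PT.snd.p1 (pt_sqG PT.fst) PT.snd.p2
  pb := PB.tsize
  size_exch := fun y => tsize_nrm y.1 _
  size_solver := fun y => tsize_nrm y.1 _
  size_xf1 := fun y => tsize_nrm y.1 _
  sqs_nodup := fun x _ => sqG_nodup x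
  conf_self := by
    intro x Q _ hQ
    rw [← Bool.not_eq_true, PF4.conf_iff (sqG_ok Q hQ), Finset.inter_self, ← fs_sqE,
      card_fs (WF_sqE (sqG_ok Q hQ))]
    simp [sqE]
  conf_symm := fun _ _ _ _ hQ hR => PF4.conf_symm (sqG_ok _ hQ) (sqG_ok _ hR)
  emp_valid := by
    intro x _
    have h0 : ∀ v, dg (fs ([] : List Ed)) v = 0 := by intro v; rw [fs_nil]; rfl
    refine ⟨⟨WF.nil, ⟨?_, ?_⟩, ?_⟩, fun q _ => rfl⟩
    · intro e he; rw [fs_nil] at he; simp at he
    · intro v; rw [h0]; omega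
    · rw [fs_nil]; exact Finset.empty_subset _
  exch_spec := fun x M L v hx hM hL _ h => exV_spec hx hM hL h
  solver_spec := by
    intro x g W v D hx hd h01 hn hD hc
    obtain ⟨h1, h2⟩ := A.solver_spec x g W v D hx hd h01 hn hD hc
    refine ⟨fun h => ?_, h2⟩
    obtain ⟨k1, k2, k3⟩ := h1 h
    refine ⟨k1.nrm hx, cov_nrm k1 hx k2, ?_⟩
    intro q hq
    have := k3 q hq
    rw [← sqIn_nrm k1] at this
    exact this
  xf1_spec := by
    intro x g W v N Q R hx hd h01 hN hNc hQ hR1 hR2 hc ht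
    obtain ⟨k1, k2, k3⟩ := A.xf1_spec x g W v N Q R hx hd h01 hN hNc hQ hR1 hR2 hc ht
    refine ⟨k1.nrm hx, cov_nrm k1 hx k2, ?_⟩
    have e := clS_nrm k1 g
    unfold clS at e k3
    rw [e]
    exact k3
  xf1_alt := fun x g W v F N Q R hx hd h01 f1 f2 n1 n2 hQ hR hc =>
    A.xf1_alt x g W v F N Q R hx hd h01 f1 f2 n1 n2 hQ hR hc
  brk_spec := by
    intro x g N hx _ _ hN hc hcl
    obtain ⟨h1, h2, h3, h4⟩ := brk_spec g x.1 (sqG x) N sqG_ok (fun q hq hh hs => by
      have : q ∈ (sqG x).filter (fun Q => harm g Q && sqIn N Q) := by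
        rw [List.mem_filter, hh, (sqIn_iff N q).2 hs]
        exact ⟨hq, rfl⟩
      rw [hcl] at this
      cases this) hN.wf hc
    refine ⟨⟨⟨h1, hN.m2.mono h2, h2.trans hN.sub⟩, fun q hq => ?_⟩, h3⟩
    have := h4 q hq
    rwa [← sqIn_iff, Bool.not_eq_true] at this

/-! ### the pendant edge -/

/-- a valid 2-matching has no squares -/
theorem vm_iff {x : Ins} (hx : InsWF x) {M : List Ed} : VM x M ↔ MG x M ∧ SqFree (fs M) := by
  refine and_congr_right fun h => ?_
  constructor
  · intro h1 a b c d hs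
    obtain ⟨q, hq, he⟩ := sqG_full hx (hs.mono h.sub)
    have h2 := h1 q hq
    rw [← Bool.not_eq_true, sqIn_iff, he] at h2
    exact h2 (Sq.sub hs)
  · intro h1 q hq
    rw [← Bool.not_eq_true, sqIn_iff]
    intro h2
    have hd := sqG_ok q hq
    refine h1 q.1 q.2.1 q.2.2.1 q.2.2.2 ⟨hd.2.1, hd.2.2.2.2.1, ?_, ?_, ?_, ?_⟩
    all_goals
      apply h2
      simp [sqs, TFC.sq]

/-- the vertex of demand 1 (`n` if there is none) -/
def pv (n : ℕ) (g : List ℕ) : ℕ := ((List.range n).filter (fun u => decide (g.getD u 0 = 1))).headD n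

/-- the instance with a pendant edge at `v` -/
def padX (x : Ins) (v : ℕ) : Ins := (x.1 + 1, (v, x.1) :: x.2)

/-- the demand with the pendant edge at `v` -/
def padG (n : ℕ) (g : List ℕ) (v : ℕ) : List ℕ :=
  (List.range (n + 1)).map (fun u => if u = v then 2 else g.getD u 0)

/-- use the pendant edge if possible -/
def padM (v n : ℕ) (M : List Ed) : List Ed := if degL M v ≤ 1 then (v, n) :: M else M

/-- the table with the pendant edge -/
def padW (v n : ℕ) (W : List (ℕ × List Ed)) : List (ℕ × List Ed) := W.map (fun p => (p.1, padM v n p.2))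

theorem pv_none {n : ℕ} {g : List ℕ} (h : pv n g = n) : ∀ u < n, g.getD u 0 ≠ 1 := by
  intro u hu h1
  have hm : u ∈ (List.range n).filter (fun u => decide (g.getD u 0 = 1)) :=
    List.mem_filter.2 ⟨List.mem_range.2 hu, by simpa using h1⟩
  unfold pv at h
  cases hc : (List.range n).filter (fun u => decide (g.getD u 0 = 1)) with
  | nil => rw [hc] at hm; simp at hm
  | cons a l =>
    rw [hc] at h
    have ha : a ∈ (List.range n).filter (fun u => decide (g.getD u 0 = 1)) := by
      rw [hc]; exact List.mem_cons_self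
    have := List.mem_range.1 (List.mem_filter.1 ha).1
    simp only [List.headD_cons] at h
    omega

theorem pv_some {n : ℕ} {g : List ℕ} (h : pv n g ≠ n) : pv n g < n ∧ g.getD (pv n g) 0 = 1 := by
  unfold pv at h ⊢
  cases hc : (List.range n).filter (fun u => decide (g.getD u 0 = 1)) with
  | nil => rw [hc] at h; exact absurd rfl h
  | cons a l =>
    have ha : a ∈ (List.range n).filter (fun u => decide (g.getD u 0 = 1)) := by
      rw [hc]; exact List.mem_cons_self
    obtain ⟨h1, h2⟩ := List.mem_filter.1 ha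
    exact ⟨List.mem_range.1 h1, of_decide_eq_true h2⟩

section pend

variable {x : Ins} {v : ℕ}

theorem pend_notMem (hx : InsWF x) {M : List Ed} (hM : fs M ⊆ fs x.2) : s(v, x.1) ∉ fs M := by
  intro h
  exact absurd (hx.vlt (hM h) (Sym2.mem_mk_right _ _)) (lt_irrefl _)

theorem padX_wf (hx : InsWF x) (hv : v < x.1) : InsWF (padX x v) := by
  refine ⟨?_, ?_, ?_⟩
  · show (((v, x.1) :: x.2).map fe).Nodup
    rw [List.map_cons, List.nodup_cons]
    refine ⟨fun h => pend_notMem (v := v) hx (Finset.Subset.refl _) ?_, hx.wf⟩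
    rw [fs, List.mem_toFinset]
    exact h
  · show NoLoop (fs ((v, x.1) :: x.2))
    rw [fs_cons]
    exact hx.nl.insert (by omega)
  · intro e he
    rcases List.mem_cons.1 he with rfl | he
    · exact ⟨by show v < x.1 + 1; omega, by show x.1 < x.1 + 1; omega⟩
    · have := hx.lt e he
      exact ⟨by show e.1 < x.1 + 1; omega, by show e.2 < x.1 + 1; omega⟩

theorem fs_padX : fs (padX x v).2 = insert s(v, x.1) (fs x.2) := fs_cons _ _

theorem fs_padM (M : List Ed) : fs (padM v x.1 M) = if degL M v ≤ 1 then insert s(v, x.1) (fs M) else fs M := by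
  unfold padM
  split_ifs
  · rw [fs_cons]; rfl
  · rfl

theorem dg_out (hx : InsWF x) {M : List Ed} (hM : fs M ⊆ fs x.2) : dg (fs M) x.1 = 0 := by
  unfold dg
  rw [Finset.card_eq_zero, Finset.filter_eq_empty_iff]
  intro e he h
  exact absurd (hx.vlt (hM he) h) (lt_irrefl _)

theorem padM_wf (hx : InsWF x) {M : List Ed} (hM : MG x M) : WF (padM v x.1 M) := by
  unfold padM
  split_ifs
  · show (((v, x.1) :: M).map fe).Nodup
    rw [List.map_cons, List.nodup_cons]
    refine ⟨fun h => pend_notMem (v := v) hx hM.sub ?_, hM.wf⟩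
    rw [fs, List.mem_toFinset]
    exact h
  · exact hM.wf

theorem padM_dg (hx : InsWF x) {M : List Ed} (hM : MG x M) (u : ℕ) :
    dg (fs (padM v x.1 M)) u = dg (fs M) u + (if degL M v ≤ 1 then (if u ∈ s(v, x.1) then 1 else 0) else 0) := by
  rw [fs_padM]
  split_ifs with h1 h2
  · have := dg_insert (pend_notMem (v := v) hx hM.sub) u
    rw [if_pos h2] at this
    exact this
  · have := dg_insert (pend_notMem (v := v) hx hM.sub) u
    rw [if_neg h2] at this
    exact this
  · rfl

theorem padM_deg (hx : InsWF x) (hv : v < x.1) {M : List Ed} (hM : MG x M) :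
    (∀ u < x.1, u ≠ v → degL (padM v x.1 M) u = degL M u) ∧ 1 ≤ degL (padM v x.1 M) v ∧
      (1 ≤ degL M v → 2 ≤ degL (padM v x.1 M) v) := by
  have hd : ∀ u, degL (padM v x.1 M) u =
      degL M u + (if degL M v ≤ 1 then (if u ∈ s(v, x.1) then 1 else 0) else 0) := by
    intro u
    rw [degL_eq (padM_wf hx hM), padM_dg hx hM, ← degL_eq hM.wf]
  refine ⟨fun u hu huv => ?_, ?_, fun h => ?_⟩
  · rw [hd u, if_neg (c := u ∈ s(v, x.1))]
    · split_ifs <;> rfl
    · intro h
      rcases Sym2.mem_iff.1 h with h | h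
      · exact huv h
      · omega
  · rw [hd v, if_pos (c := v ∈ s(v, x.1)) (Sym2.mem_mk_left _ _)]
    split_ifs <;> omega
  · rw [hd v, if_pos (c := v ∈ s(v, x.1)) (Sym2.mem_mk_left _ _)]
    split_ifs <;> omega

theorem padM_mg (hx : InsWF x) (hv : v < x.1) {M : List Ed} (hM : MG x M) :
    MG (padX x v) (padM v x.1 M) := by
  refine ⟨padM_wf hx hM, ⟨?_, ?_⟩, ?_⟩
  · rw [fs_padM]
    split_ifs
    · exact hM.m2.nl.insert (by omega)
    · exact hM.m2.nl
  · intro u
    rw [padM_dg hx hM]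
    have h2 := hM.m2.le u
    split_ifs with h3 h4
    · rcases Sym2.mem_iff.1 h4 with rfl | rfl
      · rw [degL_eq hM.wf] at h3; omega
      · rw [dg_out hx hM.sub]; omega
    · omega
    · omega
  · rw [fs_padM]
    show _ ⊆ fs ((v, x.1) :: x.2)
    rw [fs_cons]
    split_ifs
    · exact Finset.insert_subset_insert _ hM.sub
    · exact hM.sub.trans (Finset.subset_insert _ _)

theorem sqFree_pend (hx : InsWF x) (hv : v < x.1) {z : Finset (Sym2 ℕ)} (hz : z ⊆ insert s(v, x.1) (fs x.2))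
    (h : SqFree (z.erase s(v, x.1))) : SqFree z := by
  intro a b c d hs
  have one : ∀ p q : ℕ, s(p, q) ∈ z → q = x.1 → p = v := by
    intro p q h1 hq
    subst hq
    rcases Finset.mem_insert.1 (hz h1) with h4 | h4
    · rcases Sym2.eq_iff.1 h4 with ⟨h5, _⟩ | ⟨h5, h6⟩
      · exact h5
      · omega
    · have := hx.vlt h4 (Sym2.mem_mk_right _ _)
      omega
  have key : ∀ p q r : ℕ, p ≠ r → s(p, q) ∈ z → s(r, q) ∈ z → q ≠ x.1 := by
    intro p q r hpr h1 h2 h3
    exact hpr ((one p q h1 h3).trans (one r q h2 h3).symm)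
  have ha : a ≠ x.1 := key b a d hs.bd (msw hs.ab) hs.da
  have hb : b ≠ x.1 := key a b c hs.ac hs.ab (msw hs.bc)
  have hc : c ≠ x.1 := key b c d hs.bd hs.bc (msw hs.cd)
  have hd : d ≠ x.1 := key c d a hs.ac.symm hs.cd (msw hs.da)
  have ne : ∀ p q : ℕ, p ≠ x.1 → q ≠ x.1 → s(p, q) ≠ s(v, x.1) := by
    intro p q h1 h2 h3
    rcases Sym2.eq_iff.1 h3 with ⟨_, h4⟩ | ⟨h4, _⟩
    · exact h2 h4
    · exact h1 h4
  exact h a b c d ⟨hs.ac, hs.bd, Finset.mem_erase.2 ⟨ne a b ha hb, hs.ab⟩,
    Finset.mem_erase.2 ⟨ne b c hb hc, hs.bc⟩, Finset.mem_erase.2 ⟨ne c d hc hd, hs.cd⟩,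
    Finset.mem_erase.2 ⟨ne d a hd ha, hs.da⟩⟩

theorem padM_vm (hx : InsWF x) (hv : v < x.1) {M : List Ed} (hM : VM x M) :
    VM (padX x v) (padM v x.1 M) := by
  have h1 := (vm_iff hx).1 hM
  refine (vm_iff (padX_wf hx hv)).2 ⟨padM_mg hx hv hM.1, ?_⟩
  have hsub : fs (padM v x.1 M) ⊆ insert s(v, x.1) (fs x.2) := by
    rw [← fs_padX]
    exact (padM_mg hx hv hM.1).sub
  refine sqFree_pend hx hv hsub ?_
  have e : (fs (padM v x.1 M)).erase s(v, x.1) = fs M := by
    rw [fs_padM]
    split_ifs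
    · rw [Finset.erase_insert (pend_notMem hx hM.1.sub)]
    · rw [Finset.erase_eq_of_notMem (pend_notMem hx hM.1.sub)]
  rw [e]
  exact h1.2

/-- back to the instance without the pendant edge -/
theorem back (hx : InsWF x) (hv : v < x.1) {L : List Ed} (hL : VM (padX x v) L) :
    VM x (nrm x L) ∧ ∀ u < x.1, degL L u ≤ degL (nrm x L) u + (if u = v then 1 else 0) := by
  have h1 := (vm_iff (padX_wf hx hv)).1 hL
  have e : fs (nrm x L) = fs x.2 ∩ fs L := fs_norm _ _
  have hsub : fs (nrm x L) ⊆ fs L := by rw [e]; exact Finset.inter_subset_right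
  have hwf : WF (nrm x L) := hx.wf.norm _
  refine ⟨(vm_iff hx).2 ⟨⟨hwf, h1.1.m2.mono hsub, by rw [e]; exact Finset.inter_subset_left⟩, ?_⟩, ?_⟩
  · intro a b c d hs
    exact h1.2 a b c d (hs.mono hsub)
  · intro u hu
    rw [degL_eq h1.1.wf, degL_eq hwf]
    have h2 : fs L ⊆ insert s(v, x.1) (fs (nrm x L)) := by
      intro f hf
      have hf' := h1.1.sub hf
      rw [fs_padX] at hf'
      rcases Finset.mem_insert.1 hf' with h3 | h3
      · rw [h3]; exact Finset.mem_insert_self _ _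
      · refine Finset.mem_insert_of_mem ?_
        rw [e, Finset.mem_inter]
        exact ⟨h3, hf⟩
    have h3 := dg_mono h2 u
    have h4 : s(v, x.1) ∉ fs (nrm x L) := pend_notMem hx (by rw [e]; exact Finset.inter_subset_left)
    have h5 := dg_insert h4 u
    by_cases huv : u = v
    · subst huv
      rw [if_pos (Sym2.mem_mk_left _ _)] at h5
      rw [if_pos rfl]
      omega
    · rw [if_neg (by
        intro h
        rcases Sym2.mem_iff.1 h with h | h
        · exact huv h
        · omega)] at h5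
      rw [if_neg huv]
      omega

theorem padG_getD (n : ℕ) (g : List ℕ) (v u : ℕ) (hu : u < n + 1) :
    (padG n g v).getD u 0 = if u = v then 2 else g.getD u 0 := by
  unfold padG
  rw [getD_map_range, if_pos hu]

theorem pad_dat (hx : InsWF x) {g : List ℕ} {W : List (ℕ × List Ed)} (hd : Da x g W v)
    (h1 : g.getD v 0 = 1) :
    Da (padX x v) (padG x.1 g v) (padW v x.1 W) v ∧ Ev (padX x v) (padG x.1 g v) := by
  have hv : v < x.1 := hd.lt
  have hn : g.getD x.1 0 = 0 := List.getD_eq_default _ _ hd.len.le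
  have key : ∀ u < x.1 + 1, u ≠ v → g.getD u 0 = 0 ∨ g.getD u 0 = 2 := by
    intro u hu huv
    by_cases h : u = x.1
    · rw [h, hn]; exact Or.inl rfl
    · exact hd.off u (by show u < x.1; omega) huv
  have hmap : (padW v x.1 W).map Prod.fst = W.map Prod.fst := by
    unfold padW
    rw [List.map_map]
    rfl
  refine ⟨⟨?_, ?_, ?_, ?_, ?_, ?_, ?_, ?_⟩, ?_⟩
  · show (padG x.1 g v).length = x.1 + 1
    simp [padG]
  · show v < x.1 + 1
    omega
  · rw [padG_getD _ _ _ _ (by omega), if_pos rfl]; omega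
  · rw [padG_getD _ _ _ _ (by omega), if_pos rfl]
  · intro u hu huv
    rw [padG_getD _ _ _ _ hu, if_neg huv]
    exact key u hu huv
  · intro p hp
    obtain ⟨q, hq, rfl⟩ := List.mem_map.1 hp
    obtain ⟨k1, k2, k3⟩ := hd.tab q hq
    have k1' : q.1 < x.1 := k1
    have hdeg := padM_deg (v := v) hx hv k2.1
    refine ⟨by show q.1 < x.1 + 1; omega, padM_vm hx hv k2, ?_⟩
    intro u hu
    rw [padG_getD _ _ _ _ hu]
    show _ ≤ degL (padM v x.1 q.2) u + (if u = q.1 then 1 else 0)
    by_cases huv : u = v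
    · subst huv
      rw [if_pos rfl]
      by_cases huq : u = q.1
      · rw [if_pos huq]
        have := hdeg.2.1
        omega
      · rw [if_neg huq]
        have k4 : g.getD u 0 ≤ degL q.2 u + (if u = q.1 then 1 else 0) := k3 u hv
        rw [if_neg huq, h1] at k4
        have := hdeg.2.2 (by omega)
        omega
    · rw [if_neg huv]
      by_cases h : u = x.1
      · rw [h, hn]; exact Nat.zero_le _
      · have hu' : u < x.1 := by
          have : u < x.1 + 1 := hu
          omega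
        have k4 : g.getD u 0 ≤ degL q.2 u + (if u = q.1 then 1 else 0) := k3 u hu'
        rw [hdeg.1 u hu' huv]
        exact k4
  · intro w hw
    rw [hmap, padG_getD _ _ _ _ hw]
    by_cases hwv : w = v
    · subst hwv
      rw [if_pos rfl]
      constructor
      · intro _
        exact (hd.sup w hv).1 (by rw [h1])
      · intro _
        omega
    · rw [if_neg hwv]
      by_cases h : w = x.1
      · rw [h, hn]
        constructor
        · intro h2; omega
        · intro h2
          obtain ⟨p, hp, h3⟩ := List.mem_map.1 h2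
          have : p.1 < x.1 := (hd.tab p hp).1
          omega
      · exact hd.sup w (by
          have : w < x.1 + 1 := hw
          show w < x.1
          omega)
  · rw [hmap]; exact hd.nod
  · intro u hu
    rw [padG_getD _ _ _ _ hu]
    split_ifs with huv
    · exact Or.inr rfl
    · exact key u hu huv

end pend

/-- the inner algorithm for all demands -/
def SX2.innerP (A : SX2) (y : Ins × List ℕ × List (ℕ × List Ed)) : Bool × List Ed :=
  if pv y.1.1 y.2.1 = y.1.1 then A.toIn.inner y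
  else
    ((A.toIn.inner (padX y.1 (pv y.1.1 y.2.1), padG y.1.1 y.2.1 (pv y.1.1 y.2.1),
      padW (pv y.1.1 y.2.1) y.1.1 y.2.2)).1,
    nrm y.1 (A.toIn.inner (padX y.1 (pv y.1.1 y.2.1), padG y.1.1 y.2.1 (pv y.1.1 y.2.1),
      padW (pv y.1.1 y.2.1) y.1.1 y.2.2)).2)

theorem SX2.innerP_spec (A : SX2) {x : Ins} {g : List ℕ} {W : List (ℕ × List Ed)} {v : ℕ}
    (hx : InsWF x) (hd : Da x g W v) :
    ((A.innerP (x, g, W)).1 = true → VM x (A.innerP (x, g, W)).2 ∧
      Cov x.1 g (degL (A.innerP (x, g, W)).2)) ∧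
    ((A.innerP (x, g, W)).1 = false → ¬ ∃ L, VM x L ∧ Cov x.1 g (degL L)) := by
  unfold SX2.innerP
  simp only
  by_cases h : pv x.1 g = x.1
  · rw [if_pos h]
    have h1 := pv_none h
    refine A.toIn.inner_spec (x := x) (g := g) (W := W) (v := v) hx hd ?_
    intro u hu
    by_cases huv : u = v
    · have k1 := hd.one
      have k2 := hd.two
      have k3 := h1 u hu
      subst huv
      omega
    · exact hd.off u hu huv
  · rw [if_neg h]
    obtain ⟨p1, p2⟩ := pv_some h
    have hpv : pv x.1 g = v := by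
      by_contra hne
      rcases hd.off _ p1 hne with h3 | h3 <;> omega
    rw [hpv] at p1 p2 ⊢
    obtain ⟨hd', hev⟩ := pad_dat hx hd p2
    obtain ⟨k1, k2⟩ := A.toIn.inner_spec (x := padX x v) (g := padG x.1 g v) (W := padW v x.1 W) (v := v)
      (padX_wf hx p1) hd' hev
    refine ⟨fun h3 => ?_, fun h3 => ?_⟩
    · obtain ⟨k3, k4⟩ := k1 h3
      have k3' : VM (padX x v) (A.toIn.inner (padX x v, padG x.1 g v, padW v x.1 W)).2 := k3
      obtain ⟨b1, b2⟩ := back hx p1 k3'
      refine ⟨b1, fun u hu => ?_⟩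
      have k5 : (padG x.1 g v).getD u 0 ≤
          degL (A.toIn.inner (padX x v, padG x.1 g v, padW v x.1 W)).2 u :=
        k4 u (by show u < x.1 + 1; omega)
      rw [padG_getD _ _ _ _ (by omega)] at k5
      have k6 := b2 u hu
      show _ ≤ degL (nrm x (A.toIn.inner (padX x v, padG x.1 g v, padW v x.1 W)).2) u
      by_cases huv : u = v
      · rw [if_pos huv] at k5 k6
        rw [huv, p2]
        rw [huv] at k5 k6
        omega
      · rw [if_neg huv] at k5 k6
        omega
    · rintro ⟨L, hL, hc⟩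
      refine k2 h3 ⟨padM v x.1 L, padM_vm hx p1 hL, fun u hu => ?_⟩
      have hdeg := padM_deg (v := v) hx p1 hL.1
      have hu' : u < x.1 + 1 := hu
      rw [padG_getD _ _ _ _ hu']
      show _ ≤ degL (padM v x.1 L) u
      by_cases huv : u = v
      · rw [if_pos huv, huv]
        have := hc v p1
        rw [p2] at this
        exact hdeg.2.2 this
      · rw [if_neg huv]
        by_cases h4 : u = x.1
        · rw [h4, List.getD_eq_default _ _ hd.len.le]; exact Nat.zero_le _
        · rw [hdeg.1 u (by omega) huv]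
          exact hc u (by omega)

theorem SX2.pt_innerP (A : SX2) : PT A.innerP := by
  unfold SX2.innerP
  have x : PT (fun y : Ins × List ℕ × List (ℕ × List Ed) => y.1) := PT.fst
  have n : PT (fun y : Ins × List ℕ × List (ℕ × List Ed) => y.1.1) := PT.fst.p1
  have g : PT (fun y : Ins × List ℕ × List (ℕ × List Ed) => y.2.1) := PT.snd.p1
  have W : PT (fun y : Ins × List ℕ × List (ℕ × List Ed) => y.2.2) := PT.snd.p2
  have v : PT (fun y : Ins × List ℕ × List (ℕ × List Ed) => pv y.1.1 y.2.1) := by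
    unfold pv
    exact PT.headD (PT.filter (p := fun z : (Ins × List ℕ × List (ℕ × List Ed)) × ℕ =>
      decide (z.1.2.1.getD z.2 0 = 1)) (PT.range n)
      (PT.neq (PT.getD (g.comp PT.fst) PT.snd (PT.const 0)) (PT.const 1))) n
  have r : PT (fun y : Ins × List ℕ × List (ℕ × List Ed) =>
      A.toIn.inner (padX y.1 (pv y.1.1 y.2.1), padG y.1.1 y.2.1 (pv y.1.1 y.2.1),
        padW (pv y.1.1 y.2.1) y.1.1 y.2.2)) := by
    refine A.toIn.pt_inner.comp (PT.pair ?_ (PT.pair ?_ ?_))
    · exact PT.pair (PT.nsucc n) (PT.cons (PT.pair v n) PT.fst.p2)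
    · unfold padG
      refine PT.map (g := fun z : (Ins × List ℕ × List (ℕ × List Ed)) × ℕ =>
        if z.2 = pv z.1.1.1 z.1.2.1 then 2 else z.1.2.1.getD z.2 0) (PT.range (PT.nsucc n)) ?_
      exact PT.ite (PT.neq PT.snd (v.comp PT.fst)) (PT.const 2)
        (PT.getD (g.comp PT.fst) PT.snd (PT.const 0))
    · unfold padW
      refine PT.map (g := fun z : (Ins × List ℕ × List (ℕ × List Ed)) × (ℕ × List Ed) =>
        (z.2.1, padM (pv z.1.1.1 z.1.2.1) z.1.1.1 z.2.2)) W ?_
      refine PT.pair PT.snd.p1 ?_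
      unfold padM
      exact PT.ite (PT.nle (pt_degL PT.snd.p2 (v.comp PT.fst)) (PT.const 1))
        (PT.cons (PT.pair (v.comp PT.fst) (n.comp PT.fst)) PT.snd.p2) PT.snd.p2
  exact PT.ite (PT.neq v n) A.toIn.pt_inner (PT.pair r.p1 (pt_nrm x r.p2))

/-- the interface of the outer loop -/
def SX2.toOut (A : SX2) : OutApi Ins (List Ed) where
  nv := fun x => x.1
  deg := fun _ M u => degL M u
  valid := VM
  wf := InsWF
  emp := []
  exch := exV
  inner := A.innerP
  B := fun x => tsize x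
  pt_nv := PT.fst
  pt_deg := pt_degL PT.snd.p1 PT.snd.p2
  pt_exch := pt_exV
  pt_inner := A.pt_innerP
  pb := PB.tsize
  size_exch := fun y => tsize_nrm y.1 _
  emp_valid := A.toIn.emp_valid
  exch_spec := fun x M L v hx hM hL _ h => exV_spec hx hM hL h
  inner_spec := fun x g W v hx hd => A.innerP_spec hx hd

/-- **2F({4}) is in P**, given `solver` and `xf1` for demands in `{0, 2}`. -/
theorem inP_of_SX2 (A : SX2) : InP TF4.TwoF4 := by
  refine inP_of (dec := fun n E => (A.toOut.alg (n, E)).1) (PT.p1 A.toOut.pt_alg) ?_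
  intro n G E hE g1 g2
  have hx : InsWF (n, E) := insWF_of hE g1
  rw [← fac_nat hE g1 g2]
  obtain ⟨k1, k2⟩ := A.toOut.alg_spec (x := (n, E)) hx
  constructor
  · intro h
    exact ⟨_, k1 h⟩
  · intro h
    cases h3 : (A.toOut.alg (n, E)).1 with
    | true => rfl
    | false => exact absurd h (k2 h3)

end Pool.Agent.PF4

end
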