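import Pool.Agent.PFM.M06
import Pool.Agent.PFM.M10
import Pool.Agent.PFM.M12
import Pool.Agent.PFM.M13

section -- file PF4/XB1

/-!
The constant-size part of the pool for `xf1`: the edges `EL` (the object, the near covers of the corners, the two squares), the
edges `EnL` near the corners (distance at most 4), the edges `E2L` at the ends of those, the vertices `V2L`; bounds for the lengths; all sublists
(`subl`) and all demand lists (`asg`) of a list of constant length, polynomial time.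
-/

set_option autoImplicit false

namespace Pool.Agent.PF4.XF

open Finset Pool.Agent.TFC Pool.Agent.Lib.helper60

/-! ### lists without duplicates -/

/-- remove duplicates -/
def nub (l : List ℕ) : List ℕ := l.foldl (fun s a => bif EDM.memN s a then s else a :: s) []

theorem nub_aux (l : List ℕ) : ∀ s : List ℕ, s.Nodup →
    (l.foldl (fun s a => bif EDM.memN s a then s else a :: s) s).Nodup ∧
    (∀ v, v ∈ l.foldl (fun s a => bif EDM.memN s a then s else a :: s) s ↔ v ∈ s ∨ v ∈ l) ∧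
    (l.foldl (fun s a => bif EDM.memN s a then s else a :: s) s).length ≤ s.length + l.length := by
  induction l with
  | nil => intro s hs; exact ⟨hs, by simp, by simp⟩
  | cons a l ih =>
    intro s hs
    rw [List.foldl_cons]
    cases h : EDM.memN s a with
    | true =>
      rw [EDM.memN_iff] at h
      rw [cond_true]
      obtain ⟨h1, h2, h3⟩ := ih s hs
      refine ⟨h1, ?_, ?_⟩
      · intro v
        rw [h2, List.mem_cons]
        constructor
        · rintro (h4 | h4)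
          · exact Or.inl h4
          · exact Or.inr (Or.inr h4)
        · rintro (h4 | h4 | h4)
          · exact Or.inl h4
          · rw [h4]; exact Or.inl h
          · exact Or.inr h4
      · rw [List.length_cons]; omega
    | false =>
      rw [EDM.memN_false] at h
      rw [cond_false]
      obtain ⟨h1, h2, h3⟩ := ih (a :: s) (List.nodup_cons.2 ⟨h, hs⟩)
      refine ⟨h1, ?_, ?_⟩
      · intro v
        rw [h2, List.mem_cons, List.mem_cons]
        tauto
      · rw [List.length_cons] at h3 ⊢; omega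

theorem nub_nodup (l : List ℕ) : (nub l).Nodup := (nub_aux l [] List.nodup_nil).1

theorem mem_nub {l : List ℕ} {v : ℕ} : v ∈ nub l ↔ v ∈ l := by
  have := (nub_aux l [] List.nodup_nil).2.1 v
  simpa [nub] using this

theorem nub_length (l : List ℕ) : (nub l).length ≤ l.length := by
  have := (nub_aux l [] List.nodup_nil).2.2
  simpa [nub] using this

/-! ### all sublists and all demand lists -/

/-- all sublists of a list of length at most `c` -/
def subl {α : Type} : ℕ → List α → List (List α)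
  | 0, _ => [[]]
  | _ + 1, [] => [[]]
  | c + 1, a :: l => subl c l ++ (subl c l).map fun s => a :: s

theorem mem_subl {α : Type} {c : ℕ} {l s : List α} (h : s ∈ subl c l) : s.Sublist l := by
  induction c generalizing l s with
  | zero =>
    simp only [subl, List.mem_singleton] at h
    subst h
    exact List.nil_sublist _
  | succ c ih =>
    cases l with
    | nil =>
      simp only [subl, List.mem_singleton] at h
      subst h
      exact List.Sublist.refl _
    | cons a l =>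
      simp only [subl, List.mem_append, List.mem_map] at h
      rcases h with h | ⟨t, ht, rfl⟩
      · exact (ih h).cons a
      · exact (ih ht).cons_cons a

theorem subl_mem {α : Type} {c : ℕ} {l s : List α} (hl : l.length ≤ c) (h : s.Sublist l) :
    s ∈ subl c l := by
  induction c generalizing l s with
  | zero =>
    have : l = [] := List.length_eq_zero_iff.1 (Nat.le_zero.1 hl)
    subst this
    rw [List.sublist_nil.1 h]
    exact List.mem_singleton.2 rfl
  | succ c ih =>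
    cases l with
    | nil =>
      rw [List.sublist_nil.1 h]
      exact List.mem_singleton.2 rfl
    | cons a l =>
      rw [List.length_cons] at hl
      simp only [subl, List.mem_append, List.mem_map]
      cases h with
      | cons _ h => exact Or.inl (ih (by omega) h)
      | cons_cons _ h => exact Or.inr ⟨_, ih (by omega) h, rfl⟩

/-- every set of edges of `l` is the set of a sublist without repetition -/
theorem exists_sub {l : List Ed} (H : Finset (Sym2 ℕ)) (hH : H ⊆ fs l) :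
    ∃ s : List Ed, s.Sublist l ∧ WF s ∧ fs s = H := by
  induction l generalizing H with
  | nil =>
    rw [fs_nil, Finset.subset_empty] at hH
    subst hH
    exact ⟨[], List.Sublist.refl _, WF.nil, rfl⟩
  | cons a l ih =>
    rw [fs_cons] at hH
    by_cases ha : fe a ∈ H
    · have h1 : H.erase (fe a) ⊆ fs l := by
        intro e he
        rw [Finset.mem_erase] at he
        exact (Finset.mem_insert.1 (hH he.2)).resolve_left he.1
      obtain ⟨s, h2, h3, h4⟩ := ih _ h1
      refine ⟨a :: s, h2.cons_cons a, ?_, ?_⟩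
      · show ((a :: s).map fe).Nodup
        rw [List.map_cons, List.nodup_cons]
        refine ⟨fun h => ?_, h3⟩
        have h5 : fe a ∈ fs s := by rw [fs, List.mem_toFinset]; exact h
        rw [h4] at h5
        simp at h5
      · rw [fs_cons, h4, Finset.insert_erase ha]
    · have h1 : H ⊆ fs l := by
        intro e he
        refine (Finset.mem_insert.1 (hH he)).resolve_left ?_
        rintro rfl
        exact ha he
      obtain ⟨s, h2, h3, h4⟩ := ih _ h1
      exact ⟨s, h2.cons a, h3, h4⟩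

/-- all sets of edges of a list of length at most `c` -/
theorem subl_full {c : ℕ} {l : List Ed} (hl : l.length ≤ c) (H : Finset (Sym2 ℕ)) (hH : H ⊆ fs l) :
    ∃ s ∈ subl c l, WF s ∧ fs s = H := by
  obtain ⟨s, h1, h2, h3⟩ := exists_sub H hH
  exact ⟨s, subl_mem hl h1, h2, h3⟩

theorem fs_subl {c : ℕ} {l s : List Ed} (h : s ∈ subl c l) : fs s ⊆ fs l := by
  intro e he
  obtain ⟨f, hf, rfl⟩ := mem_fs.1 he
  exact fe_mem_fs ((mem_subl h).subset hf)

/-- all lists with multiplicities 0, 1, 2 of the members of a list of length at most `c` -/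
def asg : ℕ → List ℕ → List (List ℕ)
  | 0, _ => [[]]
  | _ + 1, [] => [[]]
  | c + 1, a :: V => asg c V ++ (((asg c V).map fun s => a :: s) ++ ((asg c V).map fun s => a :: a :: s))

theorem mem_asg {c : ℕ} {V k : List ℕ} (hV : V.Nodup) (h : k ∈ asg c V) (v : ℕ) :
    k.count v ≤ 2 ∧ (v ∉ V → k.count v = 0) := by
  induction c generalizing V k with
  | zero =>
    simp only [asg, List.mem_singleton] at h
    subst h
    simp
  | succ c ih =>
    cases V with
    | nil =>
      simp only [asg, List.mem_singleton] at h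
      subst h
      simp
    | cons a V =>
      rw [List.nodup_cons] at hV
      simp only [asg, List.mem_append, List.mem_map] at h
      rcases h with h | ⟨s, hs, rfl⟩ | ⟨s, hs, rfl⟩
      · obtain ⟨h1, h2⟩ := ih hV.2 h
        exact ⟨h1, fun hv => h2 fun h3 => hv (List.mem_cons_of_mem _ h3)⟩
      · obtain ⟨h1, h2⟩ := ih hV.2 hs
        rw [List.count_cons]
        by_cases hav : a = v
        · subst hav
          have := h2 hV.1
          refine ⟨?_, fun hv => absurd List.mem_cons_self hv⟩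
          simp; omega
        · have e : (a == v) = false := by simpa using hav
          rw [e]
          refine ⟨by simpa using h1, fun hv => ?_⟩
          have := h2 fun h3 => hv (List.mem_cons_of_mem _ h3)
          simpa using this
      · obtain ⟨h1, h2⟩ := ih hV.2 hs
        rw [List.count_cons, List.count_cons]
        by_cases hav : a = v
        · subst hav
          have := h2 hV.1
          refine ⟨?_, fun hv => absurd List.mem_cons_self hv⟩
          simp; omega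
        · have e : (a == v) = false := by simpa using hav
          rw [e]
          refine ⟨by simpa using h1, fun hv => ?_⟩
          have := h2 fun h3 => hv (List.mem_cons_of_mem _ h3)
          simpa using this

/-- all demands with values 0, 1, 2 on `V` -/
theorem asg_full {c : ℕ} {V : List ℕ} (hV : V.Nodup) (hc : V.length ≤ c) (k : ℕ → ℕ)
    (hk : ∀ v ∈ V, k v ≤ 2) :
    ∃ s ∈ asg c V, (∀ v ∈ V, s.count v = k v) ∧ ∀ v, v ∉ V → s.count v = 0 := by
  induction c generalizing V with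
  | zero =>
    have : V = [] := List.length_eq_zero_iff.1 (Nat.le_zero.1 hc)
    subst this
    exact ⟨[], List.mem_singleton.2 rfl, by simp, by simp⟩
  | succ c ih =>
    cases V with
    | nil => exact ⟨[], List.mem_singleton.2 rfl, by simp, by simp⟩
    | cons a V =>
      rw [List.nodup_cons] at hV
      rw [List.length_cons] at hc
      obtain ⟨s, hs, h1, h2⟩ := ih hV.2 (by omega) fun v hv => hk v (List.mem_cons_of_mem _ hv)
      have ha := h2 a hV.1
      have hka := hk a List.mem_cons_self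
      have key : ∀ t : List ℕ, t ∈ asg (c + 1) (a :: V) → t.count a = k a →
          (∀ v, v ≠ a → t.count v = s.count v) →
          ∃ s ∈ asg (c + 1) (a :: V), (∀ v ∈ a :: V, s.count v = k v) ∧
            ∀ v, v ∉ a :: V → s.count v = 0 := by
        intro t ht h3 h4
        refine ⟨t, ht, ?_, ?_⟩
        · intro v hv
          by_cases hva : v = a
          · rw [hva]; exact h3
          · rw [h4 v hva]
            exact h1 v ((List.mem_cons.1 hv).resolve_left hva)
        · intro v hv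
          rw [List.mem_cons, not_or] at hv
          rw [h4 v hv.1]
          exact h2 v hv.2
      have hne : ∀ v, v ≠ a → (a == v) = false := fun v hv => by simpa using Ne.symm hv
      rcases Nat.lt_or_ge (k a) 1 with h | h
      · exact key s (List.mem_append_left _ hs) (by omega) fun v _ => rfl
      · rcases Nat.lt_or_ge (k a) 2 with h' | h'
        · refine key (a :: s) (List.mem_append_right _ (List.mem_append_left _
            (List.mem_map.2 ⟨s, hs, rfl⟩))) ?_ fun v hv => ?_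
          · rw [List.count_cons_self]; omega
          · rw [List.count_cons, hne v hv]; simp
        · refine key (a :: a :: s) (List.mem_append_right _ (List.mem_append_right _
            (List.mem_map.2 ⟨s, hs, rfl⟩))) ?_ fun v hv => ?_
          · rw [List.count_cons_self, List.count_cons_self]; omega
          · rw [List.count_cons, List.count_cons, hne v hv]; simp

/-! ### the edges -/

/-- the corners of the two squares and four further vertices -/
def cor (Q R B : Sq4) : List ℕ :=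
  [Q.1, Q.2.1, Q.2.2.1, Q.2.2.2, R.1, R.2.1, R.2.2.1, R.2.2.2, B.1, B.2.1, B.2.2.1, B.2.2.2]

/-- the object stored for `w` -/
def lookW (W : List (ℕ × List Ed)) (w : ℕ) : List Ed :=
  ((W.filter fun p => decide (p.1 = w)).map fun p => p.2).headD []

/-- the edges of the object, of the near covers of the corners, of the two squares, and the edges `B` of the graph -/
def EL (x : Ins) (F : List Ed) (W : List (ℕ × List Ed)) (Q R B : Sq4) : List Ed :=
  F ++ (((cor Q R B).flatMap fun w => lookW W w) ++ (sqE Q ++ (sqE R ++ norm (sqE B) x.2)))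

/-- the edges of `l` with an end in `S` -/
def touch (l : List Ed) (S : List ℕ) : List Ed := l.filter fun e => S.any fun v => inc v e

/-- the ends of a list of edges -/
def flat2 (l : List Ed) : List ℕ := l.flatMap fun e => [e.1, e.2]

/-- the vertices at distance at most `r` of the corners -/
def SL (x : Ins) (F : List Ed) (W : List (ℕ × List Ed)) (Q R B : Sq4) : ℕ → List ℕ
  | 0 => cor Q R B
  | r + 1 => SL x F W Q R B r ++ flat2 (touch (EL x F W Q R B) (SL x F W Q R B r))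

/-- the near edges: all edges with an end at distance at most 4 -/
def EnL (x : Ins) (F : List Ed) (W : List (ℕ × List Ed)) (Q R B : Sq4) : List Ed := touch (EL x F W Q R B) (SL x F W Q R B 4)

/-- the vertices at distance at most 5 -/
def S1L (x : Ins) (F : List Ed) (W : List (ℕ × List Ed)) (Q R B : Sq4) : List ℕ := SL x F W Q R B 5

/-- the edges at the ends of the near edges -/
def E2L (x : Ins) (F : List Ed) (W : List (ℕ × List Ed)) (Q R B : Sq4) : List Ed :=
  touch (EL x F W Q R B) (S1L x F W Q R B)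

/-- their ends -/
def V2L (x : Ins) (F : List Ed) (W : List (ℕ × List Ed)) (Q R B : Sq4) : List ℕ :=
  nub (cor Q R B ++ flat2 (E2L x F W Q R B))

/-- bounds for the lengths -/
def cS : ℕ → ℕ
  | 0 => 12
  | r + 1 => cS r + 2 * (38 * cS r)
def cEn : ℕ := 38 * cS 4
def cS1 : ℕ := cS 5
def cE2 : ℕ := 38 * cS1
def cV2 : ℕ := 12 + 2 * cE2

theorem inc_iff {v : ℕ} {e : Ed} : inc v e = true ↔ v ∈ fe e := by
  simp only [inc, fe, Bool.or_eq_true, decide_eq_true_eq, Sym2.mem_iff]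
  constructor
  · rintro (h | h)
    · exact Or.inl h.symm
    · exact Or.inr h.symm
  · rintro (h | h)
    · exact Or.inl h.symm
    · exact Or.inr h.symm

theorem mem_touch {l : List Ed} {S : List ℕ} {e : Sym2 ℕ} :
    e ∈ fs (touch l S) ↔ e ∈ fs l ∧ ∃ v ∈ S, v ∈ e := by
  rw [mem_fs, mem_fs]
  constructor
  · rintro ⟨f, hf, rfl⟩
    rw [touch, List.mem_filter, List.any_eq_true] at hf
    obtain ⟨h1, v, hv, h2⟩ := hf
    exact ⟨⟨f, h1, rfl⟩, v, hv, inc_iff.1 h2⟩
  · rintro ⟨⟨f, hf, rfl⟩, v, hv, h⟩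
    refine ⟨f, ?_, rfl⟩
    rw [touch, List.mem_filter, List.any_eq_true]
    exact ⟨hf, v, hv, inc_iff.2 h⟩

theorem touch_length (l : List Ed) (S : List ℕ) {d : ℕ} (hd : ∀ v, degL l v ≤ d) :
    (touch l S).length ≤ d * S.length := by
  induction S with
  | nil => simp [touch]
  | cons a S ih =>
    have h1 : (touch l (a :: S)).length ≤ degL l a + (touch l S).length := by
      unfold touch degL
      clear ih hd
      induction l with
      | nil => simp
      | cons e l ih =>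
        rw [List.filter_cons, List.filter_cons, List.filter_cons]
        simp only [List.any_cons, Bool.or_eq_true] at ih ⊢
        by_cases h1 : inc a e = true
        · rw [if_pos (Or.inl h1), if_pos h1, List.length_cons, List.length_cons]
          split_ifs
          · rw [List.length_cons]; omega
          · omega
        · by_cases h2 : (S.any fun v => inc v e) = true
          · rw [if_pos (Or.inr h2), if_neg h1, if_pos h2, List.length_cons, List.length_cons]
            omega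
          · rw [if_neg (by rintro (h | h); exacts [h1 h, h2 h]), if_neg h1, if_neg h2]
            exact ih
    have h2 := hd a
    rw [List.length_cons, Nat.mul_succ]
    omega

theorem degL_append (l m : List Ed) (v : ℕ) : degL (l ++ m) v = degL l v + degL m v := by
  simp [degL]

theorem degL_le_length (l : List Ed) (v : ℕ) : degL l v ≤ l.length := List.length_filter_le _ _

theorem degL_flatMap {α : Type} (L : List α) (F : α → List Ed) {d : ℕ} (v : ℕ)
    (h : ∀ a ∈ L, degL (F a) v ≤ d) : degL (L.flatMap F) v ≤ d * L.length := by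
  induction L with
  | nil => simp [degL]
  | cons a L ih =>
    rw [List.flatMap_cons, degL_append, List.length_cons, Nat.mul_succ]
    have h1 := ih fun b hb => h b (List.mem_cons_of_mem _ hb)
    have h2 := h a List.mem_cons_self
    omega

/-- validity of the input lists -/
structure B1 (x : Ins) (F : List Ed) (W : List (ℕ × List Ed)) (Q R B : Sq4) : Prop where
  wf : InsWF x
  f : MG x F
  w : ∀ p ∈ W, MG x p.2
  q : SqOK Q ∧ sqs Q ⊆ fs x.2
  r : SqOK R ∧ sqs R ⊆ fs x.2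
  b : B.1 < x.1 ∧ B.2.1 < x.1 ∧ B.2.2.1 < x.1 ∧ B.2.2.2 < x.1

theorem mg_nil {x : Ins} : MG x [] := by
  have h0 : ∀ v, dg (fs ([] : List Ed)) v = 0 := by intro v; rw [fs_nil]; rfl
  refine ⟨WF.nil, ⟨?_, ?_⟩, ?_⟩
  · intro e he; rw [fs_nil] at he; simp at he
  · intro v; rw [h0]; omega
  · rw [fs_nil]; exact Finset.empty_subset _

theorem lookW_mg {x : Ins} {W : List (ℕ × List Ed)} (h : ∀ p ∈ W, MG x p.2) (w : ℕ) :
    MG x (lookW W w) := by
  unfold lookW
  cases hc : (W.filter fun p => decide (p.1 = w)) with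
  | nil => exact mg_nil
  | cons p l =>
    have : p ∈ W.filter fun p => decide (p.1 = w) := by rw [hc]; exact List.mem_cons_self
    exact h p (List.mem_of_mem_filter this)

theorem mg_degL_le {x : Ins} {M : List Ed} (h : MG x M) (v : ℕ) : degL M v ≤ 2 := by
  rw [degL_eq h.wf]
  exact h.m2.le v

variable {x : Ins} {F : List Ed} {W : List (ℕ × List Ed)} {Q R B : Sq4}

theorem B1.deg (h : B1 x F W Q R B) (v : ℕ) : degL (EL x F W Q R B) v ≤ 38 := by
  unfold EL
  rw [degL_append, degL_append, degL_append, degL_append]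
  have h1 := mg_degL_le h.f v
  have h2 := degL_flatMap (cor Q R B) (fun w => lookW W w) (d := 2) v fun w _ =>
    mg_degL_le (lookW_mg h.w w) v
  have h3 := degL_le_length (sqE Q) v
  have h4 := degL_le_length (sqE R) v
  have h5 := degL_le_length (norm (sqE B) x.2) v
  have h6 : (norm (sqE B) x.2).length ≤ (sqE B).length := List.length_filter_le _ _
  have e1 : (cor Q R B).length = 12 := rfl
  have e2 : (sqE Q).length = 4 := rfl
  have e3 : (sqE R).length = 4 := rfl
  have e4 : (sqE B).length = 4 := rfl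
  omega

theorem flat2_length (l : List Ed) : (flat2 l).length = 2 * l.length := by
  induction l with
  | nil => rfl
  | cons e l ih =>
    unfold flat2 at ih ⊢
    rw [List.flatMap_cons, List.length_append, ih, List.length_cons]
    simp only [List.length_cons, List.length_nil]
    omega

theorem mem_flat2 {l : List Ed} {v : ℕ} : v ∈ flat2 l ↔ ∃ e ∈ fs l, v ∈ e := by
  unfold flat2
  rw [List.mem_flatMap]
  constructor
  · rintro ⟨e, he, hv⟩
    refine ⟨fe e, fe_mem_fs he, ?_⟩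
    simpa [fe] using hv
  · rintro ⟨e, he, hv⟩
    obtain ⟨f, hf, rfl⟩ := mem_fs.1 he
    exact ⟨f, hf, by simpa [fe] using hv⟩

theorem B1.lSL (h : B1 x F W Q R B) (r : ℕ) : (SL x F W Q R B r).length ≤ cS r := by
  induction r with
  | zero => exact le_refl 12
  | succ r ih =>
    have h1 := touch_length (EL x F W Q R B) (SL x F W Q R B r) h.deg
    have h2 : 38 * (SL x F W Q R B r).length ≤ 38 * cS r := Nat.mul_le_mul_left _ ih
    show (SL x F W Q R B r ++ flat2 (touch (EL x F W Q R B) (SL x F W Q R B r))).length ≤ cS r + 2 * (38 * cS r)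
    rw [List.length_append, flat2_length]
    omega

theorem B1.lS1 (h : B1 x F W Q R B) : (S1L x F W Q R B).length ≤ cS1 := h.lSL 5

theorem B1.lE2 (h : B1 x F W Q R B) : (E2L x F W Q R B).length ≤ cE2 := by
  refine (touch_length _ _ h.deg).trans ?_
  exact Nat.mul_le_mul_left _ h.lS1

theorem B1.lV2 (h : B1 x F W Q R B) : (V2L x F W Q R B).length ≤ cV2 := by
  unfold V2L
  refine (nub_length _).trans ?_
  rw [List.length_append, flat2_length]
  exact Nat.add_le_add (le_refl 12) (Nat.mul_le_mul_left _ h.lE2)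

/-- the data of one call -/
def xd (x : Ins) (g : List ℕ) (F : List Ed) (W : List (ℕ × List Ed)) (Q R B : Sq4) : XD where
  n := x.1
  E := fs (EL x F W Q R B)
  T := (Finset.range x.1).filter fun v => g.getD v 0 = 2
  En := fs (EnL x F W Q R B)
  E2 := fs (E2L x F W Q R B)
  V2 := (V2L x F W Q R B).toFinset

theorem mem_EL {e : Sym2 ℕ} : e ∈ fs (EL x F W Q R B) ↔
    e ∈ fs F ∨ (∃ w ∈ cor Q R B, e ∈ fs (lookW W w)) ∨ e ∈ sqs Q ∨ e ∈ sqs R ∨ (e ∈ sqs B ∧ e ∈ fs x.2) := by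
  unfold EL
  rw [fs_append, fs_append, fs_append, fs_append, Finset.mem_union, Finset.mem_union, Finset.mem_union,
    Finset.mem_union, fs_sqE, fs_sqE, fs_norm, Finset.mem_inter, fs_sqE]
  refine or_congr Iff.rfl (or_congr ?_ Iff.rfl)
  simp only [mem_fs, List.mem_flatMap]
  constructor
  · rintro ⟨f, ⟨w, hw, hf⟩, rfl⟩
    exact ⟨w, hw, f, hf, rfl⟩
  · rintro ⟨w, hw, f, hf, rfl⟩
    exact ⟨f, ⟨w, hw, hf⟩, rfl⟩

theorem B1.sub (h : B1 x F W Q R B) : fs (EL x F W Q R B) ⊆ fs x.2 := by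
  intro e he
  rcases mem_EL.1 he with he | ⟨w, _, he⟩ | he | he | he
  · exact h.f.sub he
  · exact (lookW_mg h.w w).sub he
  · exact h.q.2 he
  · exact h.r.2 he
  · exact he.2

theorem mem_SL_succ {v r : ℕ} : v ∈ SL x F W Q R B (r + 1) ↔
    v ∈ SL x F W Q R B r ∨ ∃ e ∈ fs (touch (EL x F W Q R B) (SL x F W Q R B r)), v ∈ e := by
  show v ∈ SL x F W Q R B r ++ flat2 (touch (EL x F W Q R B) (SL x F W Q R B r)) ↔ _
  rw [List.mem_append, mem_flat2]

theorem SL_mono {r s : ℕ} (h : r ≤ s) {v : ℕ} (hv : v ∈ SL x F W Q R B r) : v ∈ SL x F W Q R B s := by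
  induction s, h using Nat.le_induction with
  | base => exact hv
  | succ s _ ih => exact mem_SL_succ.2 (Or.inl ih)

theorem SL_step {r : ℕ} {v w : ℕ} (hv : v ∈ SL x F W Q R B r) (he : s(v, w) ∈ fs (EL x F W Q R B)) :
    w ∈ SL x F W Q R B (r + 1) :=
  mem_SL_succ.2 (Or.inr ⟨s(v, w), mem_touch.2 ⟨he, v, hv, Sym2.mem_mk_left _ _⟩, Sym2.mem_mk_right _ _⟩)

theorem mem_S1 {v : ℕ} : v ∈ S1L x F W Q R B ↔ v ∈ SL x F W Q R B 4 ∨ ∃ e ∈ fs (EnL x F W Q R B), v ∈ e :=
  mem_SL_succ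

theorem mem_En {e : Sym2 ℕ} : e ∈ fs (EnL x F W Q R B) ↔
    e ∈ fs (EL x F W Q R B) ∧ ∃ v ∈ SL x F W Q R B 4, v ∈ e := mem_touch

theorem mem_V2 {v : ℕ} : v ∈ V2L x F W Q R B ↔ v ∈ cor Q R B ∨ ∃ e ∈ fs (E2L x F W Q R B), v ∈ e := by
  unfold V2L
  rw [mem_nub, List.mem_append, mem_flat2]

/-- the corners are real vertices -/
theorem B1.cor_lt (h : B1 x F W Q R B) : ∀ v ∈ cor Q R B, v < x.1 := by
  intro v hv
  have key : ∀ (q : Sq4), sqs q ⊆ fs x.2 → q.1 < x.1 ∧ q.2.1 < x.1 ∧ q.2.2.1 < x.1 ∧ q.2.2.2 < x.1 := by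
    intro q hq
    have e1 : s(q.1, q.2.1) ∈ sqs q := by simp [sqs, TFC.sq]
    have e2 : s(q.2.2.1, q.2.2.2) ∈ sqs q := by simp [sqs, TFC.sq]
    exact ⟨h.wf.vlt (hq e1) (Sym2.mem_mk_left _ _), h.wf.vlt (hq e1) (Sym2.mem_mk_right _ _),
      h.wf.vlt (hq e2) (Sym2.mem_mk_left _ _), h.wf.vlt (hq e2) (Sym2.mem_mk_right _ _)⟩
  obtain ⟨q1, q2, q3, q4⟩ := key Q h.q.2
  obtain ⟨r1, r2, r3, r4⟩ := key R h.r.2
  obtain ⟨b1, b2, b3, b4⟩ := h.b
  simp only [cor, List.mem_cons, List.not_mem_nil, or_false] at hv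
  rcases hv with rfl | rfl | rfl | rfl | rfl | rfl | rfl | rfl | rfl | rfl | rfl | rfl <;> assumption

/-- the data are well-formed -/
theorem B1.ok (h : B1 x F W Q R B) (g : List ℕ) : (xd x g F W Q R B).OK where
  lt := fun e he v hv => h.wf.vlt (h.sub he) hv
  nl := h.wf.nl.mono h.sub
  e1 := by
    intro e he
    have he' : e ∈ fs (touch (EL x F W Q R B) (SL x F W Q R B 4)) := he
    rw [mem_touch] at he'
    show e ∈ fs (touch (EL x F W Q R B) (S1L x F W Q R B))
    rw [mem_touch]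
    obtain ⟨h1, v, hv, h2⟩ := he'
    exact ⟨h1, v, mem_S1.2 (Or.inl hv), h2⟩
  e2 := by
    intro e he
    have he' : e ∈ fs (touch (EL x F W Q R B) (S1L x F W Q R B)) := he
    rw [mem_touch] at he'
    exact he'.1
  tn := by
    intro v hv
    exact Finset.mem_range.1 (Finset.mem_filter.1 hv).1
  vn := by
    intro v hv
    have hv' : v ∈ (V2L x F W Q R B).toFinset := hv
    rw [List.mem_toFinset, mem_V2] at hv'
    rcases hv' with hv' | ⟨e, he, hv⟩
    · exact h.cor_lt v hv'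
    have he' : e ∈ fs (touch (EL x F W Q R B) (S1L x F W Q R B)) := he
    rw [mem_touch] at he'
    exact h.wf.vlt (h.sub he'.1) hv
  ev := by
    intro e he v hv
    show v ∈ (V2L x F W Q R B).toFinset
    rw [List.mem_toFinset, mem_V2]
    exact Or.inr ⟨e, he, hv⟩
  near := by
    rintro Z ⟨a, b, c, d, h4, rfl, _, _⟩ hZ ⟨e, he, heN⟩
    have hE : ∀ f ∈ TFC.sq a b c d, f ∈ fs (EL x F W Q R B) := fun f hf => hZ hf
    have hab : s(a, b) ∈ TFC.sq a b c d := by simp [TFC.sq]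
    have hbc : s(b, c) ∈ TFC.sq a b c d := by simp [TFC.sq]
    have hcd : s(c, d) ∈ TFC.sq a b c d := by simp [TFC.sq]
    have hda : s(d, a) ∈ TFC.sq a b c d := by simp [TFC.sq]
    have heN' : e ∈ fs (touch (EL x F W Q R B) (SL x F W Q R B 4)) := heN
    rw [mem_touch] at heN'
    obtain ⟨_, q, hq, hqe⟩ := heN'
    -- `q` is a vertex of the square
    have hv : q = a ∨ q = b ∨ q = c ∨ q = d := by
      simp only [TFC.sq, Finset.mem_insert, Finset.mem_singleton] at he
      rcases he with rfl | rfl | rfl | rfl <;> rw [Sym2.mem_iff] at hqe <;> tauto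
    have hn : ∀ f ∈ TFC.sq a b c d, q ∈ f → f ∈ fs (EnL x F W Q R B) := by
      intro f hf hqf
      show f ∈ fs (touch (EL x F W Q R B) (SL x F W Q R B 4))
      rw [mem_touch]
      exact ⟨hE f hf, q, hq, hqf⟩
    have h2 : ∀ f ∈ TFC.sq a b c d, ∀ v ∈ S1L x F W Q R B, v ∈ f → f ∈ fs (E2L x F W Q R B) := by
      intro f hf v hv hvf
      show f ∈ fs (touch (EL x F W Q R B) (S1L x F W Q R B))
      rw [mem_touch]
      exact ⟨hE f hf, v, hv, hvf⟩
    have s0 : q ∈ S1L x F W Q R B := mem_S1.2 (Or.inl hq)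
    have s1 : ∀ f ∈ TFC.sq a b c d, q ∈ f → ∀ v ∈ f, v ∈ S1L x F W Q R B := by
      intro f hf hqf v hv
      exact mem_S1.2 (Or.inr ⟨f, hn f hf hqf, hv⟩)
    intro f hf
    show f ∈ fs (E2L x F W Q R B)
    have hf' := hf
    simp only [TFC.sq, Finset.mem_insert, Finset.mem_singleton] at hf'
    rcases hv with rfl | rfl | rfl | rfl
    · -- `q = a`
      have sb := s1 _ hab (by simp) b (by simp)
      have sd := s1 _ hda (by simp) d (by simp)
      rcases hf' with rfl | rfl | rfl | rfl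
      · exact h2 _ hf _ s0 (by simp)
      · exact h2 _ hf _ sb (by simp)
      · exact h2 _ hf _ sd (by simp)
      · exact h2 _ hf _ s0 (by simp)
    · -- `q = b`
      have sa := s1 _ hab (by simp) a (by simp)
      have sc := s1 _ hbc (by simp) c (by simp)
      rcases hf' with rfl | rfl | rfl | rfl
      · exact h2 _ hf _ s0 (by simp)
      · exact h2 _ hf _ s0 (by simp)
      · exact h2 _ hf _ sc (by simp)
      · exact h2 _ hf _ sa (by simp)
    · -- `q = c`
      have sb := s1 _ hbc (by simp) b (by simp)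
      have sd := s1 _ hcd (by simp) d (by simp)
      rcases hf' with rfl | rfl | rfl | rfl
      · exact h2 _ hf _ sb (by simp)
      · exact h2 _ hf _ s0 (by simp)
      · exact h2 _ hf _ s0 (by simp)
      · exact h2 _ hf _ sd (by simp)
    · -- `q = d`
      have sc := s1 _ hcd (by simp) c (by simp)
      have sa := s1 _ hda (by simp) a (by simp)
      rcases hf' with rfl | rfl | rfl | rfl
      · exact h2 _ hf _ sa (by simp)
      · exact h2 _ hf _ sc (by simp)
      · exact h2 _ hf _ s0 (by simp)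
      · exact h2 _ hf _ s0 (by simp)

/-! ### polynomial time -/

section pt

variable {ι : Type} [DEnc ι]

theorem nub_tsize (l : List ℕ) : ∀ s : List ℕ,
    tsize (l.foldl (fun s a => bif EDM.memN s a then s else a :: s) s) ≤ tsize s + tsize l := by
  induction l with
  | nil => intro s; simp
  | cons a l ih =>
    intro s
    rw [List.foldl_cons, tsize_cons]
    refine (ih _).trans ?_
    cases EDM.memN s a with
    | true => rw [cond_true]; omega
    | false => rw [cond_false, tsize_cons]; omega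

theorem pt_nub {l : ι → List ℕ} (hl : PT l) : PT (fun x => nub (l x)) := by
  refine PT.foldl (init := fun _ => ([] : List ℕ))
    (g := fun y : ι × List ℕ × ℕ => bif EDM.memN y.2.1 y.2.2 then y.2.1 else y.2.2 :: y.2.1)
    hl (PT.const []) ?_ ⟨fun x => 1 + tsize (l x), (PB.const 1).add hl.size, ?_⟩
  · exact PT.cond (PT.any PT.snd.p1 (p := fun z : (ι × List ℕ × ℕ) × ℕ => decide (z.2 = z.1.2.2))
      (PT.neq PT.snd PT.fst.p2.p2)) PT.snd.p1 (PT.cons PT.snd.p2 PT.snd.p1)
  · intro x l₁ l₂ h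
    refine (nub_tsize l₁ []).trans ?_
    have := tsize_append l₁ l₂
    rw [h] at this
    have := tsize_pos l₂
    rw [tsize_nil]
    show _ ≤ 1 + tsize (l x)
    omega

theorem pt_subl {α : Type} [DEnc α] (c : ℕ) : ∀ {ι : Type} [DEnc ι] {l : ι → List α}, PT l →
    PT (fun x => subl c (l x)) := by
  induction c with
  | zero => intro ι _ l _; exact PT.const [[]]
  | succ c ih =>
    intro ι _ l hl
    have h1 : PT (fun y : ι × α × List α => subl c y.2.2 ++ (subl c y.2.2).map fun s => y.2.1 :: s) :=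
      PT.append (ih PT.snd.p2) (PT.map (ih PT.snd.p2)
        (g := fun z : (ι × α × List α) × List α => z.1.2.1 :: z.2) (PT.cons PT.fst.p2.p1 PT.snd))
    refine (PT.listCases hl (PT.const [[]]) h1).congr fun x => ?_
    cases l x <;> rfl

theorem pt_asg (c : ℕ) : ∀ {ι : Type} [DEnc ι] {l : ι → List ℕ}, PT l → PT (fun x => asg c (l x)) := by
  induction c with
  | zero => intro ι _ l _; exact PT.const [[]]
  | succ c ih =>
    intro ι _ l hl
    have h1 : PT (fun y : ι × ℕ × List ℕ => asg c y.2.2 ++ (((asg c y.2.2).map fun s => y.2.1 :: s) ++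
        ((asg c y.2.2).map fun s => y.2.1 :: y.2.1 :: s))) :=
      PT.append (ih PT.snd.p2) (PT.append (PT.map (ih PT.snd.p2)
        (g := fun z : (ι × ℕ × List ℕ) × List ℕ => z.1.2.1 :: z.2) (PT.cons PT.fst.p2.p1 PT.snd))
        (PT.map (ih PT.snd.p2)
        (g := fun z : (ι × ℕ × List ℕ) × List ℕ => z.1.2.1 :: z.1.2.1 :: z.2)
          (PT.cons PT.fst.p2.p1 (PT.cons PT.fst.p2.p1 PT.snd))))
    refine (PT.listCases hl (PT.const [[]]) h1).congr fun x => ?_
    cases l x <;> rfl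

theorem pt_cor {Q R B : ι → Sq4} (hQ : PT Q) (hR : PT R) (hB : PT B) :
    PT (fun x => cor (Q x) (R x) (B x)) :=
  PT.cons hQ.p1 (PT.cons hQ.p2.p1 (PT.cons hQ.p2.p2.p1 (PT.cons hQ.p2.p2.p2 (PT.cons hR.p1
    (PT.cons hR.p2.p1 (PT.cons hR.p2.p2.p1 (PT.cons hR.p2.p2.p2 (PT.cons hB.p1
    (PT.cons hB.p2.p1 (PT.cons hB.p2.p2.p1 (PT.cons hB.p2.p2.p2 (PT.const []))))))))))))

theorem pt_lookW {W : ι → List (ℕ × List Ed)} {w : ι → ℕ} (hW : PT W) (hw : PT w) :
    PT (fun x => lookW (W x) (w x)) :=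
  PT.headD (PT.map (PT.filter hW (p := fun y : ι × (ℕ × List Ed) => decide (y.2.1 = w y.1))
    (PT.neq PT.snd.p1 (hw.comp PT.fst))) (g := fun y : ι × (ℕ × List Ed) => y.2.2) PT.snd.p2)
    (PT.const [])

variable {G : ι → Ins} {F : ι → List Ed} {W : ι → List (ℕ × List Ed)} {Q R B : ι → Sq4}

theorem pt_EL (hG : PT G) (hF : PT F) (hW : PT W) (hQ : PT Q) (hR : PT R) (hB : PT B) :
    PT (fun x => EL (G x) (F x) (W x) (Q x) (R x) (B x)) :=
  PT.append hF (PT.append (PT.flatMap (pt_cor hQ hR hB) (g := fun y : ι × ℕ => lookW (W y.1) y.2)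
    (pt_lookW (hW.comp PT.fst) PT.snd)) (PT.append (pt_sqE hQ) (PT.append (pt_sqE hR)
      (pt_norm (pt_sqE hB) (PT.p2 hG)))))

theorem pt_inc {v : ι → ℕ} {e : ι → Ed} (hv : PT v) (he : PT e) : PT (fun x => inc (v x) (e x)) :=
  PT.bor (PT.neq he.p1 hv) (PT.neq he.p2 hv)

theorem pt_touch {l : ι → List Ed} {S : ι → List ℕ} (hl : PT l) (hS : PT S) :
    PT (fun x => touch (l x) (S x)) :=
  PT.filter hl (p := fun y : ι × Ed => (S y.1).any fun v => inc v y.2)
    (PT.any (hS.comp PT.fst) (p := fun z : (ι × Ed) × ℕ => inc z.2 z.1.2) (pt_inc PT.snd PT.fst.p2))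

theorem pt_flat2 {l : ι → List Ed} (hl : PT l) : PT (fun x => flat2 (l x)) :=
  PT.flatMap hl (g := fun y : ι × Ed => [y.2.1, y.2.2])
    (PT.cons PT.snd.p1 (PT.cons PT.snd.p2 (PT.const [])))

theorem pt_SL (hG : PT G) (hF : PT F) (hW : PT W) (hQ : PT Q) (hR : PT R) (hB : PT B) :
    ∀ r, PT (fun x => SL (G x) (F x) (W x) (Q x) (R x) (B x) r)
  | 0 => pt_cor hQ hR hB
  | r + 1 => PT.append (pt_SL hG hF hW hQ hR hB r) (pt_flat2 (pt_touch (pt_EL hG hF hW hQ hR hB) (pt_SL hG hF hW hQ hR hB r)))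

theorem pt_EnL (hG : PT G) (hF : PT F) (hW : PT W) (hQ : PT Q) (hR : PT R) (hB : PT B) :
    PT (fun x => EnL (G x) (F x) (W x) (Q x) (R x) (B x)) :=
  pt_touch (pt_EL hG hF hW hQ hR hB) (pt_SL hG hF hW hQ hR hB 4)

theorem pt_S1L (hG : PT G) (hF : PT F) (hW : PT W) (hQ : PT Q) (hR : PT R) (hB : PT B) :
    PT (fun x => S1L (G x) (F x) (W x) (Q x) (R x) (B x)) := pt_SL hG hF hW hQ hR hB 5

theorem pt_E2L (hG : PT G) (hF : PT F) (hW : PT W) (hQ : PT Q) (hR : PT R) (hB : PT B) :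
    PT (fun x => E2L (G x) (F x) (W x) (Q x) (R x) (B x)) :=
  pt_touch (pt_EL hG hF hW hQ hR hB) (pt_S1L hG hF hW hQ hR hB)

theorem pt_V2L (hG : PT G) (hF : PT F) (hW : PT W) (hQ : PT Q) (hR : PT R) (hB : PT B) :
    PT (fun x => V2L (G x) (F x) (W x) (Q x) (R x) (B x)) :=
  pt_nub (PT.append (pt_cor hQ hR hB) (pt_flat2 (pt_E2L hG hF hW hQ hR hB)))

end pt

attribute [irreducible] cS cEn cS1 cE2 cV2

end Pool.Agent.PF4.XF

end

section -- file PF4/XB2

/-!
The pool for `xf1`.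
-/

set_option autoImplicit false

namespace Pool.Agent.PF4.XF

open Finset Pool.Agent.TFC Pool.Agent.PF4 Pool.Agent.Lib.helper60

/-! ### demand lists -/

/-- the parity token of a demand list -/
def tkL (kk : List ℕ) : ℕ := bif decide (kk.length % 2 = 0) then 0 else 1

/-- coordinate `i` of a demand list -/
def vlL (n : ℕ) (kk : List ℕ) (i : ℕ) : ℕ :=
  bif decide (i < n) then cnt kk i else (bif decide (i = n) then tkL kk else 0)

/-- the vector of a demand list -/
def kvL (n : ℕ) (kk : List ℕ) : ℕ → ℤ := fun v => (vlL n kk v : ℤ)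

/-- the fit test -/
def fitB (n : ℕ) (g : List ℕ) (L : List Ed) (kk : List ℕ) : Bool :=
  (List.range n).all fun v =>
    bif frB g v then decide (cnt kk v + degL L v ≤ 2) else decide (cnt kk v + degL L v = 2)

/-- the direction test (`up`: the degree at `i` goes up, the demand goes down) -/
def dirB (n : ℕ) (kk kk' : List ℕ) (i : ℕ) (up : Bool) : Bool :=
  bif up then decide (vlL n kk' i < vlL n kk i) else decide (vlL n kk i < vlL n kk' i)

theorem tkL_eq (kk : List ℕ) : tkL kk = kk.length % 2 := by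
  unfold tkL
  rcases Nat.mod_two_eq_zero_or_one kk.length with h | h
  · rw [h]; rfl
  · rw [h]; rfl

theorem vlL_lt {n : ℕ} {kk : List ℕ} {i : ℕ} (h : i < n) : vlL n kk i = cnt kk i := by
  unfold vlL
  rw [decide_eq_true h, cond_true]

theorem vlL_n {n : ℕ} {kk : List ℕ} : vlL n kk n = kk.length % 2 := by
  unfold vlL
  rw [decide_eq_false (lt_irrefl n), cond_false, decide_eq_true rfl, cond_true, tkL_eq]

theorem vlL_gt {n : ℕ} {kk : List ℕ} {i : ℕ} (h : n < i) : vlL n kk i = 0 := by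
  unfold vlL
  rw [decide_eq_false (show ¬ i < n by omega), cond_false, decide_eq_false (show ¬ i = n by omega), cond_false]

theorem fitB_iff {n : ℕ} {g : List ℕ} {L : List Ed} {kk : List ℕ} : fitB n g L kk = true ↔
    (∀ v < n, frB g v = true → cnt kk v + degL L v ≤ 2) ∧
    (∀ v < n, frB g v = false → cnt kk v + degL L v = 2) := by
  unfold fitB
  rw [List.all_eq_true]
  constructor
  · intro h
    constructor
    · intro v hv hf
      have := h v (List.mem_range.2 hv)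
      rw [hf, cond_true, decide_eq_true_eq] at this
      exact this
    · intro v hv hf
      have := h v (List.mem_range.2 hv)
      rw [hf, cond_false, decide_eq_true_eq] at this
      exact this
  · rintro ⟨h1, h2⟩ v hv
    rw [List.mem_range] at hv
    cases hf : frB g v with
    | true => rw [cond_true, decide_eq_true_eq]; exact h1 v hv hf
    | false => rw [cond_false, decide_eq_true_eq]; exact h2 v hv hf

theorem dirB_iff {n : ℕ} {kk kk' : List ℕ} {i : ℕ} {up : Bool} : dirB n kk kk' i up = true ↔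
    0 < (- sgn up) * (kvL n kk' i - kvL n kk i) := by
  unfold dirB kvL sgn
  cases up with
  | true =>
    simp only [cond_true, decide_eq_true_eq]
    constructor <;> intro h <;> omega
  | false =>
    simp only [cond_false, decide_eq_true_eq]
    constructor <;> intro h <;> omega

section
variable {x : Ins} {g : List ℕ} {X : XD}

/-- a demand list which passes the test fits -/
theorem fit_of_fitB (hn : X.n = x.1) (hT : ∀ v < x.1, (v ∈ X.T ↔ frB g v = false)) (hTn : ∀ v ∈ X.T, v < X.n)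
    {c : ℕ} {V : List ℕ} (hV : V.Nodup) (hVX : V.toFinset = X.V2) (hVn : ∀ v ∈ X.V2, v < X.n) {L : List Ed}
    (hL : WF L) {kk : List ℕ} (hk : kk ∈ asg c V) (h : fitB x.1 g L kk = true) :
    FitK X (fs L) (kvL x.1 kk) := by
  rw [fitB_iff] at h
  obtain ⟨h1, h2⟩ := h
  have hoff : ∀ v, v ∉ X.V2 → cnt kk v = 0 := by
    intro v hv
    rw [cnt_eq]
    refine (mem_asg hV hk v).2 ?_
    rw [← List.mem_toFinset, hVX]
    exact hv
  have hin : ∀ v ∈ kk, v < x.1 := by
    intro v hv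
    by_contra hc
    have h3 : v ∉ X.V2 := fun h4 => hc (hn ▸ hVn v h4)
    have h5 := hoff v h3
    have h6 := cnt_pos.2 hv
    omega
  refine ⟨?_, ?_, ?_, ?_, ?_, ?_⟩
  · intro v hv
    have hvn : v < x.1 := hn ▸ hTn v hv
    have h3 := h2 v hvn ((hT v hvn).1 hv)
    unfold kvL
    rw [vlL_lt hvn, dv_apply, ← degL_eq hL]
    omega
  · intro v hv hv2
    rw [hn] at hv
    have hf : frB g v = true := by
      cases hf : frB g v with
      | true => rfl
      | false => exact absurd ((hT v hv).2 hf) hv2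
    have h3 := h1 v hv hf
    unfold kvL
    rw [vlL_lt hv, dv_apply, ← degL_eq hL]
    omega
  · intro v hv hv2
    rw [hn] at hv
    unfold kvL
    rw [vlL_lt hv, hoff v hv2]
    rfl
  · unfold kvL
    rw [hn, vlL_n]
    rcases Nat.mod_two_eq_zero_or_one kk.length with h | h <;> rw [h] <;> simp
  · rw [hn, Finset.sum_range_succ]
    have e1 : ∑ v ∈ Finset.range x.1, kvL x.1 kk v = (kk.length : ℤ) := by
      rw [length_eq_sum_cnt kk x.1 hin, Nat.cast_sum]
      refine Finset.sum_congr rfl fun v hv => ?_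
      unfold kvL
      rw [vlL_lt (Finset.mem_range.1 hv)]
    rw [e1]
    unfold kvL
    rw [vlL_n]
    exact ⟨(kk.length + kk.length % 2 : ℕ) / 2, by omega⟩
  · intro v hv
    rw [hn] at hv
    unfold kvL
    rw [vlL_gt hv]
    rfl

/-- every fitting vector comes from a demand list -/
theorem exists_asg (hn : X.n = x.1) (hT : ∀ v < x.1, (v ∈ X.T ↔ frB g v = false)) {c : ℕ} {V : List ℕ}
    (hV : V.Nodup) (hc : V.length ≤ c) (hVX : V.toFinset = X.V2) (hVn : ∀ v ∈ X.V2, v < X.n) {L : List Ed}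
    (hL : WF L) (hm : M2 (fs L)) {k : ℕ → ℤ} (hk : FitK X (fs L) k) :
    ∃ kk ∈ asg c V, kvL x.1 kk = k ∧ fitB x.1 g L kk = true ∧ ∀ v < x.1, (cnt kk v : ℤ) = k v := by
  have hpos : ∀ v < x.1, 0 ≤ k v ∧ k v ≤ 2 := by
    intro v hv
    have h3 := hm.le v
    by_cases hvT : v ∈ X.T
    · have h1 := hk.t v hvT
      rw [dv_apply] at h1
      omega
    · have h1 := hk.f v (by rw [hn]; exact hv) hvT
      rw [dv_apply] at h1
      omega
  have hVlt : ∀ v ∈ V, v < x.1 := fun v hv => by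
    rw [← hn]; exact hVn v (hVX ▸ List.mem_toFinset.2 hv)
  obtain ⟨kk, hkk, h1, h2⟩ := asg_full hV hc (fun v => (k v).toNat) (by
    intro v hv
    have := hpos v (hVlt v hv)
    omega)
  have hcnt : ∀ v < x.1, (cnt kk v : ℤ) = k v := by
    intro v hv
    rw [cnt_eq]
    have h3 := hpos v hv
    by_cases hvV : v ∈ V
    · rw [h1 v hvV]
      omega
    · rw [h2 v hvV]
      have : v ∉ X.V2 := fun h4 => hvV (List.mem_toFinset.1 (hVX ▸ h4))
      rw [hk.off v (by rw [hn]; exact hv) this]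
      rfl
  have hin : ∀ v ∈ kk, v < x.1 := by
    intro v hv
    by_contra hc
    have h3 : v ∉ V := fun h4 => hc (hVlt v h4)
    have h5 := h2 v h3
    have h6 := cnt_pos.2 hv
    rw [cnt_eq] at h6
    omega
  have hpar := hk.par
  rw [hn, Finset.sum_range_succ] at hpar
  have e1 : ∑ v ∈ Finset.range x.1, k v = (kk.length : ℤ) := by
    rw [length_eq_sum_cnt kk x.1 hin, Nat.cast_sum]
    exact Finset.sum_congr rfl fun v hv => (hcnt v (Finset.mem_range.1 hv)).symm
  rw [e1] at hpar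
  have htok := hk.tok
  rw [hn] at htok
  have en : ((kk.length % 2 : ℕ) : ℤ) = k x.1 := by
    obtain ⟨c, hc⟩ := hpar
    rcases htok with h | h <;> rw [h] at hc ⊢ <;> omega
  refine ⟨kk, hkk, ?_, ?_, hcnt⟩
  · funext v
    unfold kvL
    rcases lt_trichotomy v x.1 with h | h | h
    · rw [vlL_lt h]; exact hcnt v h
    · subst h
      rw [vlL_n]; exact en
    · rw [vlL_gt h, hk.up v (by rw [hn]; exact h)]
      rfl
  · rw [fitB_iff]
    constructor
    · intro v hv hf
      have hvT : v ∉ X.T := fun h => by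
        rw [hT v hv, hf] at h; cases h
      have h3 := (hk.f v (by rw [hn]; exact hv) hvT).2
      rw [dv_apply, ← degL_eq hL] at h3
      have h4 := hcnt v hv
      omega
    · intro v hv hf
      have h3 := hk.t v ((hT v hv).2 hf)
      rw [dv_apply, ← degL_eq hL] at h3
      have h4 := hcnt v hv
      omega

end

/-! ### one round -/

/-- the test for an exchange -/
def exB (n : ℕ) (g : List ℕ) (L : List Ed) (kk : List ℕ) (L' : List Ed) (kk' : List ℕ) (i : ℕ)
    (up : Bool) : Bool := fitB n g L kk && (fitB n g L' kk' && dirB n kk kk' i up)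

/-- all exchanges -/
def xL (x : Ins) (g : List ℕ) (I : List ℕ) (As : List (List ℕ)) (P : List (List Ed)) : List (List Ed) :=
  P.flatMap fun L => P.flatMap fun L' => As.flatMap fun kk => As.flatMap fun kk' => I.flatMap fun i =>
    [true, false].flatMap fun up =>
      bif exB x.1 g L kk L' kk' i up then [exW x g L kk L' kk' i up] else []

/-- all deletions -/
def dL (Sb P : List (List Ed)) : List (List Ed) := P.flatMap fun L => Sb.map fun H => rest L H

/-- the test for an addition -/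
def aOK (x : Ins) (g : List ℕ) (En L M : List Ed) : Bool :=
  ((List.range x.1).all fun v => decide (degL M v ≤ 2)) &&
    ((sqG x).all fun q => !(harm g q && sqIn M q) || (sqIn L q || (sqE q).any fun e => hasE En e))

/-- all additions -/
def aL (x : Ins) (g : List ℕ) (En : List Ed) (Sb P : List (List Ed)) : List (List Ed) :=
  P.flatMap fun L => Sb.flatMap fun K =>
    bif aOK x g En L (nrm x (L ++ K)) then [nrm x (L ++ K)] else []

/-- one round -/
def rX (x : Ins) (g : List ℕ) (En : List Ed) (I : List ℕ) (As : List (List ℕ)) (Sb P : List (List Ed)) :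
    List (List Ed) := P ++ (dL Sb P ++ (aL x g En Sb P ++ xL x g I As P))

/-- the start -/
def stX (F : List Ed) (W : List (ℕ × List Ed)) (Q R B : Sq4) : List (List Ed) :=
  F :: (cor Q R B).map fun w => lookW W w

/-- **the pool** -/
def poolX (x : Ins) (g : List ℕ) (F : List Ed) (W : List (ℕ × List Ed)) (Q R B : Sq4) : ℕ → List (List Ed)
  | 0 => stX F W Q R B
  | t + 1 => rX x g (EnL x F W Q R B) (x.1 :: V2L x F W Q R B) (asg cV2 (V2L x F W Q R B)) (subl cE2 (E2L x F W Q R B))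
      (poolX x g F W Q R B t)

theorem mem_cond {α : Type} {b : Bool} {a z : α} : z ∈ (bif b then [a] else []) ↔ b = true ∧ z = a := by
  cases b with
  | true => rw [cond_true, List.mem_singleton]; simp
  | false => rw [cond_false]; simp

theorem mem_xL {x : Ins} {g I : List ℕ} {As : List (List ℕ)} {P : List (List Ed)} {z : List Ed} :
    z ∈ xL x g I As P ↔ ∃ L ∈ P, ∃ L' ∈ P, ∃ kk ∈ As, ∃ kk' ∈ As, ∃ i ∈ I, ∃ up : Bool,
      exB x.1 g L kk L' kk' i up = true ∧ z = exW x g L kk L' kk' i up := by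
  unfold xL
  constructor
  · intro h
    obtain ⟨L, hL, h⟩ := List.mem_flatMap.1 h
    obtain ⟨L', hL', h⟩ := List.mem_flatMap.1 h
    obtain ⟨kk, hkk, h⟩ := List.mem_flatMap.1 h
    obtain ⟨kk', hkk', h⟩ := List.mem_flatMap.1 h
    obtain ⟨i, hi, h⟩ := List.mem_flatMap.1 h
    obtain ⟨up, hup, h⟩ := List.mem_flatMap.1 h
    exact ⟨L, hL, L', hL', kk, hkk, kk', hkk', i, hi, up, mem_cond.1 h⟩
  · rintro ⟨L, hL, L', hL', kk, hkk, kk', hkk', i, hi, up, h⟩
    refine List.mem_flatMap.2 ⟨L, hL, List.mem_flatMap.2 ⟨L', hL', List.mem_flatMap.2 ⟨kk, hkk,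
      List.mem_flatMap.2 ⟨kk', hkk', List.mem_flatMap.2 ⟨i, hi, List.mem_flatMap.2 ⟨up, ?_,
        mem_cond.2 h⟩⟩⟩⟩⟩⟩
    cases up <;> simp

theorem mem_dL {Sb P : List (List Ed)} {z : List Ed} : z ∈ dL Sb P ↔ ∃ L ∈ P, ∃ H ∈ Sb, z = rest L H := by
  unfold dL
  constructor
  · intro h
    obtain ⟨L, hL, h⟩ := List.mem_flatMap.1 h
    obtain ⟨H, hH, rfl⟩ := List.mem_map.1 h
    exact ⟨L, hL, H, hH, rfl⟩
  · rintro ⟨L, hL, H, hH, rfl⟩
    exact List.mem_flatMap.2 ⟨L, hL, List.mem_map.2 ⟨H, hH, rfl⟩⟩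

theorem mem_aL {x : Ins} {g : List ℕ} {En : List Ed} {Sb P : List (List Ed)} {z : List Ed} :
    z ∈ aL x g En Sb P ↔ ∃ L ∈ P, ∃ K ∈ Sb, aOK x g En L (nrm x (L ++ K)) = true ∧ z = nrm x (L ++ K) := by
  unfold aL
  constructor
  · intro h
    obtain ⟨L, hL, h⟩ := List.mem_flatMap.1 h
    obtain ⟨K, hK, h⟩ := List.mem_flatMap.1 h
    exact ⟨L, hL, K, hK, mem_cond.1 h⟩
  · rintro ⟨L, hL, K, hK, h⟩
    exact List.mem_flatMap.2 ⟨L, hL, List.mem_flatMap.2 ⟨K, hK, mem_cond.2 h⟩⟩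

theorem mem_rX {x : Ins} {g : List ℕ} {En : List Ed} {I : List ℕ} {As : List (List ℕ)}
    {Sb P : List (List Ed)} {z : List Ed} :
    z ∈ rX x g En I As Sb P ↔ z ∈ P ∨ z ∈ dL Sb P ∨ z ∈ aL x g En Sb P ∨ z ∈ xL x g I As P := by
  unfold rX
  rw [List.mem_append, List.mem_append, List.mem_append]

/-! ### squares -/

theorem opp_aux {a b c d p q r : ℕ} (h : Dist4 a b c d) (h' : Dist4 a p q r)
    (e : TFC.sq a p q r = TFC.sq a b c d) : q = c := by
  obtain ⟨h1, h2, h3, h4, h5, h6⟩ := h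
  obtain ⟨g1, g2, g3, g4, g5, g6⟩ := h'
  have e1 : s(a, p) ∈ TFC.sq a b c d := by rw [← e]; simp [TFC.sq]
  have e2 : s(p, q) ∈ TFC.sq a b c d := by rw [← e]; simp [TFC.sq]
  simp only [TFC.sq, Finset.mem_insert, Finset.mem_singleton, Sym2.eq_iff] at e1 e2
  omega

theorem opp_of {a b c d p q r s : ℕ} (h : Dist4 a b c d) (h' : Dist4 p q r s)
    (e : TFC.sq p q r s = TFC.sq a b c d) :
    (p = a ∧ r = c) ∨ (p = c ∧ r = a) ∨ (q = a ∧ s = c) ∨ (q = c ∧ s = a) := by
  have ha : a = p ∨ a = q ∨ a = r ∨ a = s := by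
    have e1 : s(a, b) ∈ TFC.sq p q r s := by rw [e]; simp [TFC.sq]
    simp only [TFC.sq, Finset.mem_insert, Finset.mem_singleton, Sym2.eq_iff] at e1
    omega
  have h0 := h'
  obtain ⟨g1, g2, g3, g4, g5, g6⟩ := h'
  rcases ha with rfl | rfl | rfl | rfl
  · have := opp_aux h h0 e
    exact Or.inl ⟨rfl, this⟩
  · rw [← sq_rot'] at e
    have := opp_aux h (show Dist4 a r s p from ⟨g4, g5, Ne.symm g1, g6, Ne.symm g2, Ne.symm g3⟩) e
    exact Or.inr (Or.inr (Or.inl ⟨rfl, this⟩))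
  · rw [← sq_rot', ← sq_rot'] at e
    have := opp_aux h (show Dist4 a s p q from ⟨g6, Ne.symm g2, Ne.symm g4, Ne.symm g3, Ne.symm g5, g1⟩) e
    exact Or.inr (Or.inl ⟨this, rfl⟩)
  · rw [← sq_rot', ← sq_rot', ← sq_rot'] at e
    have := opp_aux h (show Dist4 a p q r from ⟨Ne.symm g3, Ne.symm g5, Ne.symm g6, g1, g2, g4⟩) e
    exact Or.inr (Or.inr (Or.inr ⟨this, rfl⟩))

/-- the square `q` has two opposite corners in `T` -/
theorem Hs_iff {T : Finset ℕ} {q : Sq4} (h : SqOK q) :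
    Hs T (sqs q) ↔ (q.1 ∈ T ∧ q.2.2.1 ∈ T) ∨ (q.2.1 ∈ T ∧ q.2.2.2 ∈ T) := by
  obtain ⟨p, q, r, s⟩ := q
  have h0 : Dist4 p q r s := h
  constructor
  · rintro ⟨a, b, c, d, h1, h2, h3, h4⟩
    have e : TFC.sq p q r s = TFC.sq a b c d := h2
    rcases opp_of h1 h0 e with ⟨rfl, rfl⟩ | ⟨rfl, rfl⟩ | ⟨rfl, rfl⟩ | ⟨rfl, rfl⟩
    · exact Or.inl ⟨h3, h4⟩
    · exact Or.inl ⟨h4, h3⟩
    · exact Or.inr ⟨h3, h4⟩
    · exact Or.inr ⟨h4, h3⟩
  · rintro (⟨h3, h4⟩ | ⟨h3, h4⟩)
    · exact ⟨p, q, r, s, h0, rfl, h3, h4⟩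
    · obtain ⟨g1, g2, g3, g4, g5, g6⟩ := h0
      exact ⟨q, r, s, p, ⟨g4, g5, Ne.symm g1, g6, Ne.symm g2, Ne.symm g3⟩, (sq_rot' p q r s).symm, h3, h4⟩

section
variable {x : Ins} {g : List ℕ} {F : List Ed} {W : List (ℕ × List Ed)} {Q R B : Sq4}

theorem mem_xdT {v : ℕ} : v ∈ (xd x g F W Q R B).T ↔ v < x.1 ∧ g.getD v 0 = 2 := by
  show v ∈ (Finset.range x.1).filter (fun v => g.getD v 0 = 2) ↔ _
  rw [Finset.mem_filter, Finset.mem_range]

theorem xdT_fr (hg : ∀ u < x.1, g.getD u 0 = 0 ∨ g.getD u 0 = 2) {v : ℕ} (hv : v < x.1) :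
    v ∈ (xd x g F W Q R B).T ↔ frB g v = false := by
  rw [mem_xdT]
  unfold frB
  rw [decide_eq_false_iff_not]
  have := hg v hv
  constructor
  · rintro ⟨_, h⟩; omega
  · intro h; exact ⟨hv, by omega⟩

theorem harm_iff (hg : ∀ u < x.1, g.getD u 0 = 0 ∨ g.getD u 0 = 2) {q : Sq4} (hq : q ∈ sqG x) :
    harm g q = true ↔ Hs (xd x g F W Q R B).T (sqs q) := by
  rw [Hs_iff (sqG_ok q hq), mem_xdT, mem_xdT, mem_xdT, mem_xdT]
  obtain ⟨⟨h1, h2, h3, h4⟩, _⟩ := mem_sqG.1 hq
  have g1 := hg _ h1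
  have g2 := hg _ h2
  have g3 := hg _ h3
  have g4 := hg _ h4
  unfold harm
  rw [Bool.or_eq_true, Bool.and_eq_true, Bool.and_eq_true, decide_eq_true_eq, decide_eq_true_eq,
    decide_eq_true_eq, decide_eq_true_eq]
  constructor
  · rintro (⟨h5, h6⟩ | ⟨h5, h6⟩)
    · exact Or.inl ⟨⟨h1, by omega⟩, ⟨h3, by omega⟩⟩
    · exact Or.inr ⟨⟨h2, by omega⟩, ⟨h4, by omega⟩⟩
  · rintro (⟨h5, h6⟩ | ⟨h5, h6⟩)
    · exact Or.inl ⟨by omega, by omega⟩
    · exact Or.inr ⟨by omega, by omega⟩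

/-- a harmful square of the graph has a canonical form -/
theorem Hs_full (hx : InsWF x) (hg : ∀ u < x.1, g.getD u 0 = 0 ∨ g.getD u 0 = 2) {Z : Finset (Sym2 ℕ)}
    (h : Hs (xd x g F W Q R B).T Z) (hZ : Z ⊆ fs x.2) : ∃ q ∈ sqG x, sqs q = Z ∧ harm g q = true := by
  have h' := h
  obtain ⟨a, b, c, d, h1, rfl, h2, h3⟩ := h'
  have hs : Sq (fs x.2) a b c d := by
    refine ⟨h1.2.1, h1.2.2.2.2.1, ?_, ?_, ?_, ?_⟩
    all_goals
      apply hZ
      simp [TFC.sq]
  obtain ⟨q, hq, e⟩ := sqG_full hx hs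
  refine ⟨q, hq, e, ?_⟩
  rw [harm_iff (F := F) (W := W) (Q := Q) (R := R) hg hq, e]
  exact h

end

end Pool.Agent.PF4.XF

end

section -- file PF4/XB3

/-!
The pool for `xf1` is a staged pool.
-/

set_option autoImplicit false

namespace Pool.Agent.PF4.XF

open Finset Pool.Agent.TFC Pool.Agent.PF4 Pool.Agent.Lib.helper60

/-- a member of the pool -/
structure PM (X : XD) (l : List Ed) : Prop where
  wf : WF l
  m2 : M2 (fs l)
  sub : fs l ⊆ X.E

/-- demands 0 and 2 -/
def Ev2 (x : Ins) (g : List ℕ) : Prop := ∀ u < x.1, g.getD u 0 = 0 ∨ g.getD u 0 = 2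

section
variable {x : Ins} {g : List ℕ} {F : List Ed} {W : List (ℕ × List Ed)} {Q R B : Sq4}

theorem B1.rel (h : B1 x F W Q R B) (hg : Ev2 x g) : XRel x g (xd x g F W Q R B) where
  n := rfl
  e := h.sub
  t := fun _ hv => xdT_fr hg hv
  tl := fun _ hv => (mem_xdT.1 hv).1

theorem B1.v2 (_h : B1 x F W Q R B) : (V2L x F W Q R B).toFinset = (xd x g F W Q R B).V2 := rfl

theorem B1.v2n (_h : B1 x F W Q R B) : (V2L x F W Q R B).Nodup := nub_nodup _

theorem B1.e2 (_h : B1 x F W Q R B) : fs (E2L x F W Q R B) = (xd x g F W Q R B).E2 := rfl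

theorem B1.m2_of (h : B1 x F W Q R B) {M : List Ed} (hM : fs M ⊆ fs x.2) (hw : WF M)
    (hd : ∀ v < x.1, degL M v ≤ 2) : M2 (fs M) := by
  refine ⟨h.wf.nl.mono hM, ?_⟩
  intro v
  by_cases hv : v < x.1
  · rw [← degL_eq hw]; exact hd v hv
  · have : dg (fs M) v = 0 := by
      rw [dg, Finset.card_eq_zero, Finset.filter_eq_empty_iff]
      intro e he hve
      exact hv (h.wf.vlt (hM he) hve)
    omega

/-- what the test `aOK` says -/
theorem aOK_iff (_h : B1 x F W Q R B) {L M : List Ed} : aOK x g (EnL x F W Q R B) L M = true ↔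
    (∀ v < x.1, degL M v ≤ 2) ∧ ∀ q ∈ sqG x, harm g q = true → sqs q ⊆ fs M →
      sqs q ⊆ fs L ∨ ∃ e ∈ sqs q, e ∈ (xd x g F W Q R B).En := by
  unfold aOK
  rw [Bool.and_eq_true, List.all_eq_true, List.all_eq_true]
  refine and_congr ?_ ?_
  · constructor
    · intro h1 v hv
      have := h1 v (List.mem_range.2 hv)
      rw [decide_eq_true_eq] at this
      exact this
    · intro h1 v hv
      rw [decide_eq_true_eq]
      exact h1 v (List.mem_range.1 hv)
  · refine forall₂_congr fun q hq => ?_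
    rw [Bool.or_eq_true, Bool.or_eq_true, Bool.not_eq_true', Bool.and_eq_false_iff, List.any_eq_true,
      ← Bool.not_eq_true, ← Bool.not_eq_true, sqIn_iff, sqIn_iff]
    have e1 : (∃ e ∈ sqE q, hasE (EnL x F W Q R B) e = true) ↔ ∃ e ∈ sqs q, e ∈ (xd x g F W Q R B).En := by
      constructor
      · rintro ⟨e, he, h2⟩
        rw [hasE_iff] at h2
        refine ⟨fe e, ?_, h2⟩
        rw [← fs_sqE]
        exact fe_mem_fs he
      · rintro ⟨e, he, h2⟩
        rw [← fs_sqE] at he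
        obtain ⟨f, hf, rfl⟩ := mem_fs.1 he
        exact ⟨f, hf, by rw [hasE_iff]; exact h2⟩
    rw [e1]
    tauto

theorem PM.rest {X : XD} {l : List Ed} (h : PM X l) (H : List Ed) : PM X (rest l H) := by
  have : fs (PF4.rest l H) ⊆ fs l := by rw [fs_rest]; exact Finset.sdiff_subset
  exact ⟨h.wf.rest H, h.m2.mono this, this.trans h.sub⟩

theorem B1.add_sub (h : B1 x F W Q R B) {L K : List Ed} (hL : PM (xd x g F W Q R B) L)
    (hK : fs K ⊆ (xd x g F W Q R B).E2) : fs (nrm x (L ++ K)) = fs L ∪ fs K ∧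
      fs (nrm x (L ++ K)) ⊆ (xd x g F W Q R B).E ∧ WF (nrm x (L ++ K)) := by
  have h1 : fs (L ++ K) ⊆ (xd x g F W Q R B).E := by
    rw [fs_append]
    exact Finset.union_subset hL.sub (hK.trans (h.ok g).e2)
  have h2 : fs (nrm x (L ++ K)) = fs (L ++ K) := fs_nrm (h1.trans h.sub)
  refine ⟨by rw [h2, fs_append], by rw [h2]; exact h1, h.wf.wf.norm _⟩

theorem B1.pm_add (h : B1 x F W Q R B) {L K : List Ed} (hL : PM (xd x g F W Q R B) L)
    (hK : fs K ⊆ (xd x g F W Q R B).E2) (ha : aOK x g (EnL x F W Q R B) L (nrm x (L ++ K)) = true) :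
    PM (xd x g F W Q R B) (nrm x (L ++ K)) := by
  obtain ⟨h1, h2, h3⟩ := h.add_sub hL hK
  exact ⟨h3, h.m2_of (h2.trans h.sub) h3 ((aOK_iff h).1 ha).1, h2⟩

/-- the arguments of an exchange -/
theorem B1.pa (h : B1 x F W Q R B) (hg : Ev2 x g) {L : List Ed} (hL : PM (xd x g F W Q R B) L)
    {kk : List ℕ} (hk : kk ∈ asg cV2 (V2L x F W Q R B)) (hf : fitB x.1 g L kk = true) :
    PA x g (xd x g F W Q R B) L kk (kvL x.1 kk) where
  wf := hL.wf
  m2 := hL.m2
  sub := hL.sub
  fit := fit_of_fitB (X := xd x g F W Q R B) rfl (fun v hv => xdT_fr hg hv) (h.ok g).tn h.v2n h.v2 (h.ok g).vn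
    hL.wf hk hf
  kk := by
    intro v hv
    unfold kvL
    rw [vlL_lt hv]

theorem B1.i_le (h : B1 x F W Q R B) {i : ℕ} (hi : i ∈ x.1 :: V2L x F W Q R B) : i ≤ x.1 := by
  rcases List.mem_cons.1 hi with rfl | hi
  · exact le_rfl
  · have : i ∈ (xd x [] F W Q R B).V2 := List.mem_toFinset.2 hi
    exact le_of_lt ((h.ok []).vn i this)

/-- the result of an exchange -/
theorem B1.ex_res (h : B1 x F W Q R B) (hg : Ev2 x g) {L L' : List Ed} (hL : PM (xd x g F W Q R B) L)
    (hL' : PM (xd x g F W Q R B) L') {kk kk' : List ℕ} (hk : kk ∈ asg cV2 (V2L x F W Q R B))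
    (hk' : kk' ∈ asg cV2 (V2L x F W Q R B)) {i : ℕ} (hi : i ∈ x.1 :: V2L x F W Q R B) {up : Bool}
    (hb : exB x.1 g L kk L' kk' i up = true) :
    PM (xd x g F W Q R B) (exW x g L kk L' kk' i up) ∧ ∃ k'',
      FitK (xd x g F W Q R B) (fs (exW x g L kk L' kk' i up)) k'' ∧
      fs (exW x g L kk L' kk' i up) ⊆ fs L ∪ fs L' ∧
      (∀ Z, IsSq Z → Z ⊆ fs (exW x g L kk L' kk' i up) → Z ⊆ fs L ∨ Z ⊆ fs L') ∧
      Two (kvL x.1 kk) (kvL x.1 kk') k'' i (- sgn up) := by
  unfold exB at hb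
  rw [Bool.and_eq_true, Bool.and_eq_true] at hb
  obtain ⟨b1, b2, b3⟩ := hb
  obtain ⟨k'', h1, h2, h3, h4, h5⟩ := exW_spec h.wf (h.rel hg) (h.pa hg hL hk b1) (h.pa hg hL' hk' b2)
    (h.i_le hi) (dirB_iff.1 b3)
  exact ⟨⟨h1.1, h1.2, h3.trans (Finset.union_subset hL.sub hL'.sub)⟩, k'', h2, h3, h4, h5⟩

theorem B1.pm_start (h : B1 x F W Q R B) : ∀ l ∈ stX F W Q R B, PM (xd x g F W Q R B) l := by
  intro l hl
  rcases List.mem_cons.1 hl with rfl | hl
  · exact ⟨h.f.wf, h.f.m2, fun e he => mem_EL.2 (Or.inl he)⟩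
  · obtain ⟨w, hw, rfl⟩ := List.mem_map.1 hl
    have := lookW_mg h.w w
    exact ⟨this.wf, this.m2, fun e he => mem_EL.2 (Or.inr (Or.inl ⟨w, hw, he⟩))⟩

theorem B1.pm (h : B1 x F W Q R B) (hg : Ev2 x g) (t : ℕ) : ∀ l ∈ poolX x g F W Q R B t, PM (xd x g F W Q R B) l := by
  induction t with
  | zero => exact h.pm_start
  | succ t ih =>
    intro l hl
    rcases mem_rX.1 hl with hl | hl | hl | hl
    · exact ih l hl
    · obtain ⟨L, hL, H, _, rfl⟩ := mem_dL.1 hl
      exact (ih L hL).rest H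
    · obtain ⟨L, hL, K, hK, ha, rfl⟩ := mem_aL.1 hl
      exact h.pm_add (ih L hL) (fs_subl hK) ha
    · obtain ⟨L, hL, L', hL', kk, hkk, kk', hkk', i, hi, up, hb, rfl⟩ := mem_xL.1 hl
      exact (h.ex_res hg (ih L hL) (ih L' hL') hkk hkk' hi hb).1

/-- the pool as a family of finite sets -/
def PX (x : Ins) (g : List ℕ) (F : List Ed) (W : List (ℕ × List Ed)) (Q R B : Sq4) (t : ℕ)
    (L : Finset (Sym2 ℕ)) : Prop := ∃ l ∈ poolX x g F W Q R B t, fs l = L

/-- **the pool is a staged pool** -/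
theorem B1.xp (h : B1 x F W Q R B) (hg : Ev2 x g) : XP (xd x g F W Q R B) (PX x g F W Q R B) where
  mono := by
    rintro t _ ⟨l, hl, rfl⟩
    exact ⟨l, mem_rX.2 (Or.inl hl), rfl⟩
  m2 := by
    rintro t _ ⟨l, hl, rfl⟩
    exact ⟨(h.pm hg t l hl).m2, (h.pm hg t l hl).sub⟩
  del := by
    rintro t _ H ⟨l, hl, rfl⟩ hH
    obtain ⟨s, h1, _, h3⟩ := subl_full h.lE2 H hH
    exact ⟨rest l s, mem_rX.2 (Or.inr (Or.inl (mem_dL.2 ⟨l, hl, s, h1, rfl⟩))), by rw [fs_rest, h3]⟩
  add := by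
    rintro t _ K ⟨l, hl, rfl⟩ hK hm hq
    obtain ⟨s, h1, _, h3⟩ := subl_full h.lE2 K hK
    have hpm := h.pm hg t l hl
    obtain ⟨a1, a2, a3⟩ := h.add_sub hpm (K := s) (by rw [h3]; exact hK)
    rw [h3] at a1
    refine ⟨nrm x (l ++ s), mem_rX.2 (Or.inr (Or.inr (Or.inl (mem_aL.2 ⟨l, hl, s, h1, ?_, rfl⟩)))), a1⟩
    rw [aOK_iff h]
    constructor
    · intro v _
      rw [degL_eq a3, a1]
      exact hm.le v
    · intro q hqG hh hs
      rw [a1] at hs
      exact hq (sqs q) ((harm_iff hg hqG).1 hh) hs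
  ex := by
    rintro t _ _ k k' ⟨l, hl, rfl⟩ ⟨l', hl', rfl⟩ hk hk' i ε hi hε hd
    have hpm := h.pm hg t l hl
    have hpm' := h.pm hg t l' hl'
    obtain ⟨kk, a1, a2, a3, _⟩ := exists_asg (X := xd x g F W Q R B) (c := cV2) rfl (fun v hv => xdT_fr hg hv)
      h.v2n h.lV2 h.v2 (h.ok g).vn hpm.wf hpm.m2 hk
    obtain ⟨kk', b1, b2, b3, _⟩ := exists_asg (X := xd x g F W Q R B) (c := cV2) rfl (fun v hv => xdT_fr hg hv)
      h.v2n h.lV2 h.v2 (h.ok g).vn hpm'.wf hpm'.m2 hk'
    have hi' : i ∈ x.1 :: V2L x F W Q R B := by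
      rcases hi with hi | hi
      · exact List.mem_cons_of_mem _ (List.mem_toFinset.1 hi)
      · rw [hi]; exact List.mem_cons_self
    have key : ∀ up : Bool, - sgn up = ε → ∃ L'' k'', PX x g F W Q R B (t + 1) L'' ∧
        FitK (xd x g F W Q R B) L'' k'' ∧ L'' ⊆ fs l ∪ fs l' ∧
        (∀ Z, IsSq Z → Z ⊆ L'' → Z ⊆ fs l ∨ Z ⊆ fs l') ∧ Two k k' k'' i ε := by
      rintro up rfl
      have hb : exB x.1 g l kk l' kk' i up = true := by
        unfold exB
        rw [Bool.and_eq_true, Bool.and_eq_true, dirB_iff, a2, b2]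
        exact ⟨a3, b3, hd⟩
      obtain ⟨_, k'', c2, c3, c4, c5⟩ := h.ex_res hg hpm hpm' a1 b1 hi' hb
      rw [a2, b2] at c5
      exact ⟨_, k'', ⟨_, mem_rX.2 (Or.inr (Or.inr (Or.inr (mem_xL.2
        ⟨l, hl, l', hl', kk, a1, kk', b1, i, hi', up, hb, rfl⟩)))), rfl⟩, c2, c3, c4, c5⟩
    rcases hε with rfl | rfl
    · exact key false (by simp [sgn])
    · exact key true (by simp [sgn])

/-- **the harmful squares of the members of the pool** -/
theorem B1.inv (h : B1 x F W Q R B) (hg : Ev2 x g)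
    (hw : ∀ w ∈ cor Q R B, ∀ q ∈ sqG x, sqIn (lookW W w) q = false) (t : ℕ) (L Z : Finset (Sym2 ℕ))
    (hL : PX x g F W Q R B t L) (hZ : Hs (xd x g F W Q R B).T Z) (hs : Z ⊆ L) :
    (Z ⊆ fs F ∧ Z ≠ sqs Q) ∨ ∃ e ∈ Z, e ∈ (xd x g F W Q R B).En := by
  -- the edges of `Q` are near edges
  have hQn : ∃ e ∈ sqs Q, e ∈ (xd x g F W Q R B).En := by
    refine ⟨s(Q.1, Q.2.1), by simp [sqs, TFC.sq], ?_⟩
    refine mem_En.2 ⟨mem_EL.2 (Or.inr (Or.inr (Or.inl (by simp [sqs, TFC.sq])))), Q.1, ?_, by simp⟩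
    exact SL_mono (Nat.zero_le 4) (by show Q.1 ∈ cor Q R B; simp [cor])
  induction t generalizing L Z with
  | zero =>
    obtain ⟨l, hl, rfl⟩ := hL
    rcases List.mem_cons.1 hl with rfl | hl
    · by_cases hZQ : Z = sqs Q
      · right
        rw [hZQ]; exact hQn
      · exact Or.inl ⟨hs, hZQ⟩
    · obtain ⟨w, hw', rfl⟩ := List.mem_map.1 hl
      obtain ⟨q, hq, e, _⟩ := Hs_full h.wf hg hZ (hs.trans (lookW_mg h.w w).sub)
      have h1 := hw w hw' q hq
      rw [← Bool.not_eq_true, sqIn_iff, e] at h1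
      exact absurd hs h1
  | succ t ih =>
    obtain ⟨l, hl, rfl⟩ := hL
    rcases mem_rX.1 hl with hl | hl | hl | hl
    · exact ih _ Z ⟨l, hl, rfl⟩ hZ hs
    · obtain ⟨L, hL, H, _, rfl⟩ := mem_dL.1 hl
      refine ih _ Z ⟨L, hL, rfl⟩ hZ (hs.trans ?_)
      rw [fs_rest]; exact Finset.sdiff_subset
    · obtain ⟨L, hL, K, hK, ha, rfl⟩ := mem_aL.1 hl
      have hpm := h.pm (g := g) hg t L hL
      obtain ⟨a1, a2, _⟩ := h.add_sub hpm (K := K) (fs_subl hK)
      obtain ⟨q, hq, e, hh⟩ := Hs_full h.wf hg hZ (hs.trans (a2.trans h.sub))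
      rcases ((aOK_iff h).1 ha).2 q hq hh (by rw [e]; exact hs) with h1 | h1
      · rw [e] at h1
        exact ih _ Z ⟨L, hL, rfl⟩ hZ h1
      · rw [e] at h1
        exact Or.inr h1
    · obtain ⟨L, hL, L', hL', kk, hkk, kk', hkk', i, hi, up, hb, rfl⟩ := mem_xL.1 hl
      obtain ⟨_, k'', _, _, c4, _⟩ := h.ex_res hg (h.pm hg t L hL) (h.pm hg t L' hL') hkk hkk' hi hb
      rcases c4 Z hZ.isSq hs with h1 | h1
      · exact ih _ Z ⟨L, hL, rfl⟩ hZ h1
      · exact ih _ Z ⟨L', hL', rfl⟩ hZ h1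

/-- every edge with an end at distance at most 4 from the corners is a near edge -/
theorem B1.rch (_h : B1 x F W Q R B) (v : ℕ) (hv : Rch (xd x g F W Q R B).E (cr Q ∪ cr R ∪ cr B) 4 v) :
    ∀ e ∈ (xd x g F W Q R B).E, v ∈ e → e ∈ (xd x g F W Q R B).En := by
  have key : ∀ k v, Rch (xd x g F W Q R B).E (cr Q ∪ cr R ∪ cr B) k v → v ∈ SL x F W Q R B k := by
    intro k
    induction k with
    | zero =>
      intro v hv
      have hv' : v ∈ cr Q ∪ cr R ∪ cr B := hv
      show v ∈ cor Q R B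
      rw [Finset.mem_union, Finset.mem_union] at hv'
      simp only [cr, Finset.mem_insert, Finset.mem_singleton] at hv'
      simp only [cor, List.mem_cons, List.not_mem_nil, or_false]
      tauto
    | succ k ih =>
      rintro v (hv | ⟨u, hu, he⟩)
      · exact SL_mono (Nat.le_succ k) (ih v hv)
      · exact SL_step (ih u hu) he
  intro e he hve
  exact mem_En.2 ⟨he, v, key 4 v hv, hve⟩

theorem B1.sv (_h : B1 x F W Q R B) : ∀ v ∈ cr Q ∪ cr R ∪ cr B, v ∈ (xd x g F W Q R B).V2 := by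
  intro v hv
  have h1 : v ∈ cor Q R B := by
    rw [Finset.mem_union, Finset.mem_union] at hv
    simp only [cr, Finset.mem_insert, Finset.mem_singleton] at hv
    simp only [cor, List.mem_cons, List.not_mem_nil, or_false]
    tauto
  exact List.mem_toFinset.2 (mem_V2.2 (Or.inl h1))

end

end Pool.Agent.PF4.XF

end

section -- file PF4/XB4

/-!
The pool for `xf1` is computed in polynomial time.
-/

set_option autoImplicit false

namespace Pool.Agent.PF4.XF

open Finset Pool.Agent.TFC Pool.Agent.PF4 Pool.Agent.Lib.helper60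

section
variable {ι : Type} [DEnc ι]

theorem pt_tkL {kk : ι → List ℕ} (hk : PT kk) : PT (fun y => tkL (kk y)) :=
  PT.cond (pt_even (PT.length hk)) (PT.const 0) (PT.const 1)

theorem pt_vlL {n : ι → ℕ} {kk : ι → List ℕ} {i : ι → ℕ} (hn : PT n) (hk : PT kk) (hi : PT i) :
    PT (fun y => vlL (n y) (kk y) (i y)) :=
  PT.cond (PT.nlt hi hn) (pt_cnt' hk hi) (PT.cond (PT.neq hi hn) (pt_tkL hk) (PT.const 0))

theorem pt_fitB {n : ι → ℕ} {g : ι → List ℕ} {L : ι → List Ed} {kk : ι → List ℕ} (hn : PT n) (hg : PT g)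
    (hL : PT L) (hk : PT kk) : PT (fun y => fitB (n y) (g y) (L y) (kk y)) := by
  have h1 : PT (fun z : ι × ℕ => cnt (kk z.1) z.2 + degL (L z.1) z.2) :=
    PT.nadd (pt_cnt' (hk.comp PT.fst) PT.snd) (pt_degL (hL.comp PT.fst) PT.snd)
  exact PT.all (PT.range hn) (p := fun z : ι × ℕ => bif frB (g z.1) z.2 then
      decide (cnt (kk z.1) z.2 + degL (L z.1) z.2 ≤ 2) else decide (cnt (kk z.1) z.2 + degL (L z.1) z.2 = 2))
    (PT.cond (pt_frB (hg.comp PT.fst) PT.snd) (PT.nle h1 (PT.const 2)) (PT.neq h1 (PT.const 2)))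

theorem pt_dirB {n : ι → ℕ} {kk kk' : ι → List ℕ} {i : ι → ℕ} {up : ι → Bool} (hn : PT n) (hk : PT kk)
    (hk' : PT kk') (hi : PT i) (hu : PT up) : PT (fun y => dirB (n y) (kk y) (kk' y) (i y) (up y)) :=
  PT.cond hu (PT.nlt (pt_vlL hn hk' hi) (pt_vlL hn hk hi)) (PT.nlt (pt_vlL hn hk hi) (pt_vlL hn hk' hi))

/-- the arguments of one exchange -/
abbrev XArg := (Ins × List ℕ) × (List Ed × List Ed) × (List ℕ × List ℕ) × ℕ × Bool

/-- one exchange -/
def x1 (a : XArg) : List (List Ed) :=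
  bif exB a.1.1.1 a.1.2 a.2.1.1 a.2.2.1.1 a.2.1.2 a.2.2.1.2 a.2.2.2.1 a.2.2.2.2 then
    [exW a.1.1 a.1.2 a.2.1.1 a.2.2.1.1 a.2.1.2 a.2.2.1.2 a.2.2.2.1 a.2.2.2.2] else []

theorem pt_x1 : PT x1 := by
  have hx : PT (fun a : XArg => a.1.1) := PT.p1 PT.fst
  have hg : PT (fun a : XArg => a.1.2) := PT.p2 PT.fst
  have hL : PT (fun a : XArg => a.2.1.1) := PT.p1 (PT.p1 PT.snd)
  have hL' : PT (fun a : XArg => a.2.1.2) := PT.p2 (PT.p1 PT.snd)
  have hk : PT (fun a : XArg => a.2.2.1.1) := PT.p1 (PT.p1 (PT.p2 PT.snd))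
  have hk' : PT (fun a : XArg => a.2.2.1.2) := PT.p2 (PT.p1 (PT.p2 PT.snd))
  have hi : PT (fun a : XArg => a.2.2.2.1) := PT.p1 (PT.p2 (PT.p2 PT.snd))
  have hu : PT (fun a : XArg => a.2.2.2.2) := PT.p2 (PT.p2 (PT.p2 PT.snd))
  exact PT.cond (PT.band (pt_fitB (PT.p1 hx) hg hL hk) (PT.band (pt_fitB (PT.p1 hx) hg hL' hk')
      (pt_dirB (PT.p1 hx) hk hk' hi hu)))
    (PT.cons (pt_exW hx hg hL hk hL' hk' hi hu) (PT.const [])) (PT.const [])

theorem pt_xL {x : ι → Ins} {g I : ι → List ℕ} {As : ι → List (List ℕ)} {P : ι → List (List Ed)}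
    (hx : PT x) (hg : PT g) (hI : PT I) (hA : PT As) (hP : PT P) :
    PT (fun y => xL (x y) (g y) (I y) (As y) (P y)) := by
  -- the contexts
  have c6 : PT (fun z : (((((ι × List Ed) × List Ed) × List ℕ) × List ℕ) × ℕ) × Bool =>
      x1 ((x z.1.1.1.1.1.1, g z.1.1.1.1.1.1), (z.1.1.1.1.1.2, z.1.1.1.1.2), (z.1.1.1.2, z.1.1.2), z.1.2, z.2)) := by
    have p1 : PT (fun z : (((((ι × List Ed) × List Ed) × List ℕ) × List ℕ) × ℕ) × Bool => z.1) := PT.fst
    have p2 : PT (fun z : (((((ι × List Ed) × List Ed) × List ℕ) × List ℕ) × ℕ) × Bool => z.1.1) := PT.p1 p1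
    have p3 : PT (fun z : (((((ι × List Ed) × List Ed) × List ℕ) × List ℕ) × ℕ) × Bool => z.1.1.1) := PT.p1 p2
    have p4 : PT (fun z : (((((ι × List Ed) × List Ed) × List ℕ) × List ℕ) × ℕ) × Bool => z.1.1.1.1) := PT.p1 p3
    have p5 : PT (fun z : (((((ι × List Ed) × List Ed) × List ℕ) × List ℕ) × ℕ) × Bool => z.1.1.1.1.1) :=
      PT.p1 p4
    have p6 : PT (fun z : (((((ι × List Ed) × List Ed) × List ℕ) × List ℕ) × ℕ) × Bool => z.1.1.1.1.1.1) :=
      PT.p1 p5
    exact pt_x1.comp (PT.pair (PT.pair (hx.comp p6) (hg.comp p6)) (PT.pair (PT.pair (PT.p2 p5) (PT.p2 p4))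
      (PT.pair (PT.pair (PT.p2 p3) (PT.p2 p2)) (PT.pair (PT.p2 p1) PT.snd))))
  have c5 : PT (fun z : ((((ι × List Ed) × List Ed) × List ℕ) × List ℕ) × ℕ =>
      [true, false].flatMap fun up => x1 ((x z.1.1.1.1.1, g z.1.1.1.1.1),
        (z.1.1.1.1.2, z.1.1.1.2), (z.1.1.2, z.1.2), z.2, up)) :=
    PT.flatMap (PT.const [true, false]) c6
  have c4 : PT (fun z : (((ι × List Ed) × List Ed) × List ℕ) × List ℕ =>
      (I z.1.1.1.1).flatMap fun i => [true, false].flatMap fun up => x1 ((x z.1.1.1.1, g z.1.1.1.1),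
        (z.1.1.1.2, z.1.1.2), (z.1.2, z.2), i, up)) :=
    PT.flatMap (hI.comp (PT.p1 (PT.p1 (PT.p1 PT.fst)))) c5
  have c3 : PT (fun z : ((ι × List Ed) × List Ed) × List ℕ =>
      (As z.1.1.1).flatMap fun kk' => (I z.1.1.1).flatMap fun i => [true, false].flatMap fun up =>
        x1 ((x z.1.1.1, g z.1.1.1), (z.1.1.2, z.1.2), (z.2, kk'), i, up)) :=
    PT.flatMap (hA.comp (PT.p1 (PT.p1 PT.fst))) c4
  have c2 : PT (fun z : (ι × List Ed) × List Ed =>
      (As z.1.1).flatMap fun kk => (As z.1.1).flatMap fun kk' => (I z.1.1).flatMap fun i =>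
        [true, false].flatMap fun up =>
          x1 ((x z.1.1, g z.1.1), (z.1.2, z.2), (kk, kk'), i, up)) :=
    PT.flatMap (hA.comp (PT.p1 PT.fst)) c3
  have c1 : PT (fun z : ι × List Ed =>
      (P z.1).flatMap fun L' => (As z.1).flatMap fun kk => (As z.1).flatMap fun kk' =>
        (I z.1).flatMap fun i => [true, false].flatMap fun up =>
          x1 ((x z.1, g z.1), (z.2, L'), (kk, kk'), i, up)) :=
    PT.flatMap (hP.comp PT.fst) c2
  exact PT.flatMap hP c1

theorem pt_dL {Sb P : ι → List (List Ed)} (hS : PT Sb) (hP : PT P) : PT (fun y => dL (Sb y) (P y)) :=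
  PT.flatMap hP (g := fun z : ι × List Ed => (Sb z.1).map fun H => rest z.2 H)
    (PT.map (hS.comp PT.fst) (g := fun z : (ι × List Ed) × List Ed => rest z.1.2 z.2)
      (pt_rest (PT.snd.comp PT.fst) PT.snd))

theorem pt_aOK {x : ι → Ins} {g : ι → List ℕ} {En L M : ι → List Ed} (hx : PT x) (hg : PT g) (hE : PT En)
    (hL : PT L) (hM : PT M) : PT (fun y => aOK (x y) (g y) (En y) (L y) (M y)) := by
  have h1 : PT (fun y => (List.range (x y).1).all fun v => decide (degL (M y) v ≤ 2)) :=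
    PT.all (PT.range (PT.p1 hx)) (p := fun z : ι × ℕ => decide (degL (M z.1) z.2 ≤ 2))
      (PT.nle (pt_degL (hM.comp PT.fst) PT.snd) (PT.const 2))
  have h3 : PT (fun z : ι × Sq4 => (sqE z.2).any fun e => hasE (En z.1) e) :=
    PT.any (pt_sqE PT.snd) (p := fun w : (ι × Sq4) × Ed => hasE (En w.1.1) w.2)
      (pt_hasE (hE.comp (PT.p1 PT.fst)) PT.snd)
  have h2 : PT (fun y => (sqG (x y)).all fun q => !(harm (g y) q && sqIn (M y) q) ||
      (sqIn (L y) q || (sqE q).any fun e => hasE (En y) e)) :=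
    PT.all (pt_sqG hx) (p := fun z : ι × Sq4 => !(harm (g z.1) z.2 && sqIn (M z.1) z.2) ||
      (sqIn (L z.1) z.2 || (sqE z.2).any fun e => hasE (En z.1) e))
      (PT.bor (PT.bnot (PT.band (pt_harm (hg.comp PT.fst) PT.snd) (pt_sqIn (hM.comp PT.fst) PT.snd)))
        (PT.bor (pt_sqIn (hL.comp PT.fst) PT.snd) h3))
  exact PT.band h1 h2

theorem pt_aL {x : ι → Ins} {g : ι → List ℕ} {En : ι → List Ed} {Sb P : ι → List (List Ed)} (hx : PT x)
    (hg : PT g) (hE : PT En) (hS : PT Sb) (hP : PT P) :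
    PT (fun y => aL (x y) (g y) (En y) (Sb y) (P y)) := by
  have a0 : PT (fun z : (ι × List Ed) × List Ed => z.1.1) := PT.p1 PT.fst
  have a1 : PT (fun z : (ι × List Ed) × List Ed => z.1.2) := PT.p2 PT.fst
  have hM : PT (fun z : (ι × List Ed) × List Ed => nrm (x z.1.1) (z.1.2 ++ z.2)) :=
    pt_nrm (hx.comp a0) (PT.append a1 PT.snd)
  have h2 : PT (fun z : (ι × List Ed) × List Ed =>
      bif aOK (x z.1.1) (g z.1.1) (En z.1.1) z.1.2 (nrm (x z.1.1) (z.1.2 ++ z.2)) then
        [nrm (x z.1.1) (z.1.2 ++ z.2)] else []) :=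
    PT.cond (pt_aOK (hx.comp a0) (hg.comp a0) (hE.comp a0) a1 hM) (PT.cons hM (PT.const [])) (PT.const [])
  have h1 : PT (fun z : ι × List Ed => (Sb z.1).flatMap fun K =>
      bif aOK (x z.1) (g z.1) (En z.1) z.2 (nrm (x z.1) (z.2 ++ K)) then [nrm (x z.1) (z.2 ++ K)] else []) :=
    PT.flatMap (hS.comp PT.fst) h2
  exact PT.flatMap hP h1

theorem pt_rX {x : ι → Ins} {g : ι → List ℕ} {En : ι → List Ed} {I : ι → List ℕ} {As : ι → List (List ℕ)}
    {Sb P : ι → List (List Ed)} (hx : PT x) (hg : PT g) (hE : PT En) (hI : PT I) (hA : PT As) (hS : PT Sb)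
    (hP : PT P) : PT (fun y => rX (x y) (g y) (En y) (I y) (As y) (Sb y) (P y)) :=
  PT.append hP (PT.append (pt_dL hS hP) (PT.append (pt_aL hx hg hE hS hP) (pt_xL hx hg hI hA hP)))

theorem pt_stX {F : ι → List Ed} {W : ι → List (ℕ × List Ed)} {Q R B : ι → Sq4} (hF : PT F) (hW : PT W)
    (hQ : PT Q) (hR : PT R) (hB : PT B) : PT (fun y => stX (F y) (W y) (Q y) (R y) (B y)) :=
  PT.cons hF (PT.map (pt_cor hQ hR hB) (g := fun z : ι × ℕ => lookW (W z.1) z.2) (pt_lookW (hW.comp PT.fst) PT.snd))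

/-- **the pool is computed in polynomial time** -/
theorem pt_poolX {x : ι → Ins} {g : ι → List ℕ} {F : ι → List Ed} {W : ι → List (ℕ × List Ed)}
    {Q R B : ι → Sq4} (hx : PT x) (hg : PT g) (hF : PT F) (hW : PT W) (hQ : PT Q) (hR : PT R) (hB : PT B)
    (t : ℕ) : PT (fun y => poolX (x y) (g y) (F y) (W y) (Q y) (R y) (B y) t) := by
  induction t with
  | zero => exact pt_stX hF hW hQ hR hB
  | succ t ih =>
    exact pt_rX hx hg (pt_EnL hx hF hW hQ hR hB) (PT.cons (PT.p1 hx) (pt_V2L hx hF hW hQ hR hB))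
      (pt_asg cV2 (pt_V2L hx hF hW hQ hR hB)) (pt_subl cE2 (pt_E2L hx hF hW hQ hR hB)) ih

end

end Pool.Agent.PF4.XF

end

section -- file PF4/XS

/-!
The theorem on two conflicting squares, form with additional near covers: in each world there is, for every 4-tuple `B` of
vertices, a pool which also contains the near covers of the vertices of `B`, and the edges of the graph `G` on `B`.
-/

set_option autoImplicit false

namespace Pool.Agent.PF4.XF

open Finset Pool.Agent.TFC Pool.Agent.PF4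

/-- one world which contains `Q` in its blocking family, with near covers at `Q`, `R`, `B`, and with the edges of the square
`B` which are edges of the graph `G` -/
def WB (n : ℕ) (T : Finset ℕ) (G : Finset (Sym2 ℕ)) (M : ℕ → Finset (Sym2 ℕ)) (Q R B : Sq4) : Prop :=
  ∃ (X : XD) (P : ℕ → Finset (Sym2 ℕ) → Prop) (D : Finset (Finset (Sym2 ℕ))) (j m : ℕ),
    OW X P D j m (cr Q ∪ cr R ∪ cr B) M ∧ X.n = n ∧ X.T = T ∧ X.E ⊆ G ∧ sqs Q ∈ D ∧ sqs Q ⊆ X.E ∧
      sqs R ⊆ X.E ∧ sqs B ∩ G ⊆ X.E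

/-- **the theorem on two conflicting squares** (the blocking families may depend on `B`) -/
def XfStatement2 : Prop :=
  ∀ (n : ℕ) (T : Finset ℕ) (G : Finset (Sym2 ℕ)) (M : ℕ → Finset (Sym2 ℕ)) (Q R : Sq4), SqOK Q → SqOK R →
    #(sqs Q ∩ sqs R) = 1 → (∀ v ∈ cr Q ∪ cr R, v < n) →
    (∀ B : Sq4, (∀ v ∈ cr B, v < n) → WB n T G M Q R B) →
    (∀ B : Sq4, (∀ v ∈ cr B, v < n) → WB n T G M R Q B) → False

theorem cr_absorb (Q R : Sq4) : cr Q ∪ cr R ∪ cr Q = cr Q ∪ cr R := by
  ext v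
  simp only [Finset.mem_union]
  tauto

/-- the first form implies the second one -/
theorem XfStatement.two (h : XfStatement) : XfStatement2 := by
  intro n T G M Q R hQ hR hc hn h1 h2
  obtain ⟨X₁, P₁, D₁, j₁, m₁, w1, n1, t1, _, q1, _, r1, _⟩ := h1 Q fun v hv => hn v (Finset.mem_union_left _ hv)
  obtain ⟨X₂, P₂, D₂, j₂, m₂, w2, n2, t2, _, q2, _, r2, _⟩ := h2 R fun v hv => hn v (Finset.mem_union_right _ hv)
  rw [cr_absorb] at w1 w2
  rw [Finset.union_comm (cr R) (cr Q)] at w2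
  exact h X₁ X₂ P₁ P₂ D₁ D₂ j₁ m₁ j₂ m₂ M Q R hQ hR hc w1 w2 (n1.trans n2.symm) (t1.trans t2.symm) q1 q2 r1 r2

end Pool.Agent.PF4.XF

end

section -- file PF4/XH

/-!
`xf1` from the theorem on two conflicting squares.
-/

set_option autoImplicit false

namespace Pool.Agent.PF4.XF

open Finset Pool.Agent.TFC Pool.Agent.PF4 Pool.Agent.Lib.helper60

/-- the same tuple -/
def eqS (q r : Sq4) : Bool :=
  decide (q.1 = r.1) && (decide (q.2.1 = r.2.1) && (decide (q.2.2.1 = r.2.2.1) && decide (q.2.2.2 = r.2.2.2)))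

theorem eqS_iff {q r : Sq4} : eqS q r = true ↔ q = r := by
  obtain ⟨a, b, c, d⟩ := q
  obtain ⟨a', b', c', d'⟩ := r
  simp only [eqS, Bool.and_eq_true, decide_eq_true_eq, Prod.mk.injEq]

/-- the test: a cover all of whose harmful squares are in `F` and are not `Q` -/
def okX (x : Ins) (g : List ℕ) (F : List Ed) (Q : Sq4) (l : List Ed) : Bool :=
  ((List.range x.1).all fun v => decide (g.getD v 0 ≤ degL l v)) &&
    ((sqG x).all fun q => !(harm g q && sqIn l q) || (sqIn F q && !eqS q Q))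

theorem okX_iff {x : Ins} {g : List ℕ} {F : List Ed} {Q : Sq4} {l : List Ed} : okX x g F Q l = true ↔
    Cov x.1 g (degL l) ∧ ∀ q ∈ sqG x, harm g q = true → sqIn l q = true → sqIn F q = true ∧ q ≠ Q := by
  unfold okX Cov
  rw [Bool.and_eq_true, List.all_eq_true, List.all_eq_true]
  refine and_congr ?_ ?_
  · constructor
    · intro h v hv
      have := h v (List.mem_range.2 hv)
      rw [decide_eq_true_eq] at this
      exact this
    · intro h v hv
      rw [decide_eq_true_eq]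
      exact h v (List.mem_range.1 hv)
  · refine forall₂_congr fun q _ => ?_
    rw [Bool.or_eq_true, Bool.not_eq_true', Bool.and_eq_true, Bool.not_eq_true', Bool.and_eq_false_iff,
      ← Bool.not_eq_true, ← Bool.not_eq_true, ← Bool.not_eq_true, eqS_iff]
    tauto

/-- the arguments of `xf1` -/
abbrev XIn := Ins × List ℕ × List (ℕ × List Ed) × List Ed × Sq4 × Sq4

/-- the members of the pool which pass the test -/
def xfP (K : ℕ) (y : XIn × Sq4) : List (List Ed) :=
  (poolX y.1.1 y.1.2.1 y.1.2.2.2.1 y.1.2.2.1 y.1.2.2.2.2.1 y.1.2.2.2.2.2 y.2 K).filter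
    fun l => okX y.1.1 y.1.2.1 y.1.2.2.2.1 y.1.2.2.2.2.1 l

/-- all 4-tuples of vertices -/
def all4 (n : ℕ) : List Sq4 :=
  prodL (List.range n) (prodL (List.range n) (prodL (List.range n) (List.range n)))

/-- the members of all pools which pass the test -/
def xfA (K : ℕ) (y : XIn) : List (List Ed) := (all4 y.1.1).flatMap fun B => xfP K (y, B)

/-- **the function**: `K` = number of rounds -/
def xfK (K : ℕ) (y : XIn) : Bool × List Ed := (!decide ((xfA K y).length = 0), (xfA K y).headD [])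

theorem mem_all4 {n : ℕ} {B : Sq4} :
    B ∈ all4 n ↔ B.1 < n ∧ B.2.1 < n ∧ B.2.2.1 < n ∧ B.2.2.2 < n := by
  unfold all4
  rw [mem_prodL, mem_prodL, mem_prodL]
  simp only [List.mem_range]

theorem pt_eqS {ι : Type} [DEnc ι] {q r : ι → Sq4} (hq : PT q) (hr : PT r) : PT (fun y => eqS (q y) (r y)) :=
  PT.band (PT.neq hq.p1 hr.p1) (PT.band (PT.neq hq.p2.p1 hr.p2.p1)
    (PT.band (PT.neq hq.p2.p2.p1 hr.p2.p2.p1) (PT.neq hq.p2.p2.p2 hr.p2.p2.p2)))

theorem pt_okX {ι : Type} [DEnc ι] {x : ι → Ins} {g : ι → List ℕ} {F : ι → List Ed} {Q : ι → Sq4}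
    {l : ι → List Ed} (hx : PT x) (hg : PT g) (hF : PT F) (hQ : PT Q) (hl : PT l) :
    PT (fun y => okX (x y) (g y) (F y) (Q y) (l y)) := by
  have h1 : PT (fun y => (List.range (x y).1).all fun v => decide ((g y).getD v 0 ≤ degL (l y) v)) :=
    PT.all (PT.range (PT.p1 hx)) (p := fun z : ι × ℕ => decide ((g z.1).getD z.2 0 ≤ degL (l z.1) z.2))
      (PT.nle (PT.getD (hg.comp PT.fst) PT.snd (PT.const 0)) (pt_degL (hl.comp PT.fst) PT.snd))
  have h2 : PT (fun y => (sqG (x y)).all fun q => !(harm (g y) q && sqIn (l y) q) ||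
      (sqIn (F y) q && !eqS q (Q y))) :=
    PT.all (pt_sqG hx) (p := fun z : ι × Sq4 => !(harm (g z.1) z.2 && sqIn (l z.1) z.2) ||
      (sqIn (F z.1) z.2 && !eqS z.2 (Q z.1)))
      (PT.bor (PT.bnot (PT.band (pt_harm (hg.comp PT.fst) PT.snd) (pt_sqIn (hl.comp PT.fst) PT.snd)))
        (PT.band (pt_sqIn (hF.comp PT.fst) PT.snd) (PT.bnot (pt_eqS PT.snd (hQ.comp PT.fst)))))
  exact PT.band h1 h2

theorem pt_xfK (K : ℕ) : PT (xfK K) := by
  have hx : PT (fun y : XIn × Sq4 => y.1.1) := PT.p1 PT.fst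
  have hg : PT (fun y : XIn × Sq4 => y.1.2.1) := PT.p1 (PT.p2 PT.fst)
  have hW : PT (fun y : XIn × Sq4 => y.1.2.2.1) := PT.p1 (PT.p2 (PT.p2 PT.fst))
  have hF : PT (fun y : XIn × Sq4 => y.1.2.2.2.1) := PT.p1 (PT.p2 (PT.p2 (PT.p2 PT.fst)))
  have hQ : PT (fun y : XIn × Sq4 => y.1.2.2.2.2.1) := PT.p1 (PT.p2 (PT.p2 (PT.p2 (PT.p2 PT.fst))))
  have hR : PT (fun y : XIn × Sq4 => y.1.2.2.2.2.2) := PT.p2 (PT.p2 (PT.p2 (PT.p2 (PT.p2 PT.fst))))
  have hP : PT (xfP K) :=
    PT.filter (pt_poolX hx hg hF hW hQ hR PT.snd K)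
      (p := fun z : (XIn × Sq4) × List Ed =>
        okX z.1.1.1 z.1.1.2.1 z.1.1.2.2.2.1 z.1.1.2.2.2.2.1 z.2)
      (pt_okX (hx.comp PT.fst) (hg.comp PT.fst) (hF.comp PT.fst) (hQ.comp PT.fst) PT.snd)
  have hn : PT (fun y : XIn => List.range y.1.1) := PT.range (PT.p1 PT.fst)
  have h4 : PT (fun y : XIn => all4 y.1.1) := pt_prodL hn (pt_prodL hn (pt_prodL hn hn))
  have hA : PT (xfA K) := PT.flatMap h4 (g := fun z : XIn × Sq4 => xfP K (z.1, z.2))
    (hP.comp (PT.pair PT.fst PT.snd))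
  exact PT.pair (PT.bnot (PT.isZero (PT.length hA))) (PT.headD hA (PT.const []))

theorem xfK_true {K : ℕ} {y : XIn} (h : (xfK K y).1 = true) : ∃ B ∈ all4 y.1.1, (xfK K y).2 ∈ xfP K (y, B) := by
  have h1 : (xfK K y).2 ∈ xfA K y := by
    unfold xfK at h ⊢
    simp only [Bool.not_eq_true', decide_eq_false_iff_not] at h ⊢
    cases hc : xfA K y with
    | nil => rw [hc] at h; simp at h
    | cons a l => exact List.mem_cons_self
  exact List.mem_flatMap.1 h1

theorem xfK_false {K : ℕ} {y : XIn} (h : (xfK K y).1 = false) : ∀ B ∈ all4 y.1.1,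
    ∀ l ∈ poolX y.1 y.2.1 y.2.2.2.1 y.2.2.1 y.2.2.2.2.1 y.2.2.2.2.2 B K,
      okX y.1 y.2.1 y.2.2.2.1 y.2.2.2.2.1 l = false := by
  unfold xfK at h
  simp only [Bool.not_eq_false', decide_eq_true_eq] at h
  intro B hB l hl
  by_contra hc
  rw [Bool.not_eq_false] at hc
  have : l ∈ xfA K y := List.mem_flatMap.2 ⟨B, hB, List.mem_filter.2 ⟨hl, hc⟩⟩
  rw [List.length_eq_zero_iff.1 h] at this
  cases this

section
variable {x : Ins} {g : List ℕ} {W : List (ℕ × List Ed)} {v : ℕ} {F : List Ed} {Q R B : Sq4}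

theorem b1_of (hx : InsWF x) (hD : Da x g W v) (hF : MG x F) (hQ : Q ∈ sqG x) (hR : R ∈ sqG x)
    (hB : B ∈ all4 x.1) : B1 x F W Q R B where
  wf := hx
  f := hF
  w := fun p hp => (hD.tab p hp).2.1.1
  q := ⟨sqG_ok Q hQ, sqG_sub hQ⟩
  r := ⟨sqG_ok R hR, sqG_sub hR⟩
  b := mem_all4.1 hB

theorem mem_cor {w : ℕ} : w ∈ cr Q ∪ cr R ∪ cr B ↔ w ∈ cor Q R B := by
  rw [Finset.mem_union, Finset.mem_union]
  simp only [cr, Finset.mem_insert, Finset.mem_singleton]
  simp only [cor, List.mem_cons, List.not_mem_nil, or_false]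
  tauto

/-- the stored object of a vertex -/
theorem lookW_or (W : List (ℕ × List Ed)) (w : ℕ) : lookW W w = [] ∨ (w, lookW W w) ∈ W := by
  unfold lookW
  cases hc : (W.filter fun p => decide (p.1 = w)) with
  | nil => exact Or.inl rfl
  | cons p l =>
    right
    have h1 : p ∈ W.filter fun p => decide (p.1 = w) := by rw [hc]; exact List.mem_cons_self
    obtain ⟨h2, h3⟩ := List.mem_filter.1 h1
    rw [decide_eq_true_eq] at h3
    show (w, p.2) ∈ W
    rw [← h3]
    exact h2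

theorem lookW_mem {W : List (ℕ × List Ed)} {w : ℕ} (h : w ∈ W.map Prod.fst) : (w, lookW W w) ∈ W := by
  obtain ⟨p, hp, rfl⟩ := List.mem_map.1 h
  unfold lookW
  cases hc : (W.filter fun q => decide (q.1 = p.1)) with
  | nil =>
    exfalso
    have h1 : p ∈ W.filter fun q => decide (q.1 = p.1) := List.mem_filter.2 ⟨hp, by simp⟩
    rw [hc] at h1
    cases h1
  | cons q l =>
    have h1 : q ∈ W.filter fun q => decide (q.1 = p.1) := by rw [hc]; exact List.mem_cons_self
    obtain ⟨h2, h3⟩ := List.mem_filter.1 h1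
    rw [decide_eq_true_eq] at h3
    show (p.1, q.2) ∈ W
    rw [← h3]
    exact h2

/-- no square in the stored objects -/
theorem lookW_sq (hD : Da x g W v) (w : ℕ) : ∀ q ∈ sqG x, sqIn (lookW W w) q = false := by
  intro q hq
  rcases lookW_or W w with h | h
  · rw [h]
    rfl
  · exact (hD.tab _ h).2.1.2 q hq

theorem poolX_mono {s t : ℕ} (hst : s ≤ t) {l : List Ed} (hl : l ∈ poolX x g F W Q R B s) :
    l ∈ poolX x g F W Q R B t := by
  induction t, hst using Nat.le_induction with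
  | base => exact hl
  | succ t _ ih => exact mem_rX.2 (Or.inl ih)

theorem big_pow (c : ℕ) : ∃ m, ∀ a ≤ c, 3 ^ (a + 1) + 20 ≤ m :=
  ⟨3 ^ (c + 1) + 20, fun _ h =>
    Nat.add_le_add_right (Nat.pow_le_pow_right (by omega) (Nat.add_le_add_right h 1)) 20⟩

theorem big_choose (m c : ℕ) : ∃ K, ∀ a ≤ c, m * (a.choose 4 + 1) ≤ K :=
  ⟨m * (c.choose 4 + 1), fun _ h =>
    Nat.mul_le_mul_left _ (Nat.add_le_add_right (Nat.choose_le_choose 4 h) 1)⟩

/-- **the failure of `xf1` in one world** -/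
theorem fail_ow {K m : ℕ} (hx : InsWF x) (hD : Da x g W v) (hg : Ev x g) (hF : MG x F)
    (hc : Cov x.1 g (degL F)) (hQ : Q ∈ clS x g F) (hR : R ∈ sqG x) (hB4 : B ∈ all4 x.1) (hm : ∀ a ≤ cV2, 3 ^ (a + 1) + 20 ≤ m)
    (hK : ∀ a ≤ cE2, m * (a.choose 4 + 1) ≤ K) (h : (xfK K (x, g, W, F, Q, R)).1 = false) :
    ∃ (D : Finset (Finset (Sym2 ℕ))) (j : ℕ),
      OW (xd x g F W Q R B) (PX x g F W Q R B) D j m (cr Q ∪ cr R ∪ cr B) (fun w => fs (lookW W w)) ∧
        sqs Q ∈ D := by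
  have hQ' := List.mem_filter.1 hQ
  rw [Bool.and_eq_true] at hQ'
  obtain ⟨hQG, hQh, hQF⟩ := hQ'
  rw [sqIn_iff] at hQF
  have hB : B1 x F W Q R B := b1_of hx hD hF hQG hR hB4
  have hno := xfK_false h B hB4
  simp only at hno
  -- a member of the pool of stage at most `K` which is a cover contains a forbidden square
  have hbad : ∀ l ∈ poolX x g F W Q R B K, Cov x.1 g (degL l) →
      ∃ q ∈ sqG x, harm g q = true ∧ sqs q ⊆ fs l ∧ ¬ (sqs q ⊆ fs F ∧ sqs q ≠ sqs Q) := by
    intro l hl hcl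
    have h1 := hno l hl
    rw [← Bool.not_eq_true, okX_iff] at h1
    push Not at h1
    obtain ⟨q, hq, h2, h3, h4⟩ := h1 hcl
    refine ⟨q, hq, h2, (sqIn_iff _ _).1 h3, ?_⟩
    rintro ⟨h5, h6⟩
    exact h6 (by rw [h4 ((sqIn_iff _ _).2 h5)])
  have hCv : ∀ l : List Ed, WF l → M2 (fs l) → Cv (xd x g F W Q R B) (fs l) → Cov x.1 g (degL l) := by
    intro l hw _ hcl u hu
    rcases hg u hu with h1 | h1
    · rw [h1]; exact Nat.zero_le _
    · rw [h1, degL_eq hw, hcl u (mem_xdT.2 ⟨hu, h1⟩)]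
  -- the minimal blocking family
  have hE2 : #(xd x g F W Q R B).E2 ≤ cE2 := by
    show #(fs (E2L x F W Q R B)) ≤ cE2
    refine le_trans ?_ hB.lE2
    refine (List.toFinset_card_le _).trans ?_
    rw [List.length_map]
  have hV2 : #(xd x g F W Q R B).V2 ≤ cV2 := (List.toFinset_card_le _).trans hB.lV2
  obtain ⟨D, j, hjm, hblk, hDA⟩ := XP.exists_blk (hB.ok g) (hB.xp hg)
    (fun Z => Z ⊆ fs F ∧ Z ≠ sqs Q) (K := K) (m := m)
    (hK _ hE2)
    (hB.inv hg fun w _ => lookW_sq hD w)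
    (by
      rintro _ ⟨l, hl, rfl⟩ hcl
      have hpm := hB.pm hg K l hl
      obtain ⟨q, hq, h2, h3, h4⟩ := hbad l hl (hCv l hpm.wf hpm.m2 hcl)
      exact ⟨sqs q, (harm_iff hg hq).1 h2, h3, h4⟩)
  refine ⟨D, j, ⟨hB.ok g, hB.xp hg, hblk, ?_, hB.rch, hB.sv, ?_⟩, ?_⟩
  · exact hm _ hV2
  · -- the near covers
    intro w hw hwT
    obtain ⟨hwn, hw2⟩ := mem_xdT.1 hwT
    have hwW : (w, lookW W w) ∈ W := lookW_mem ((hD.sup w hwn).1 (by omega))
    obtain ⟨_, ⟨hMG, hsq⟩, hdeg⟩ := hD.tab _ hwW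
    have hst : lookW W w ∈ poolX x g F W Q R B 0 :=
      List.mem_cons_of_mem _ (List.mem_map.2 ⟨w, mem_cor.1 hw, rfl⟩)
    have hsqf : ∀ Z, Hs (xd x g F W Q R B).T Z → ¬ Z ⊆ fs (lookW W w) := by
      intro Z hZ hs
      obtain ⟨q, hq, e, _⟩ := Hs_full hx hg hZ (hs.trans hMG.sub)
      have h1 := hsq q hq
      rw [← Bool.not_eq_true, sqIn_iff, e] at h1
      exact h1 hs
    have hdg : ∀ u, degL (lookW W w) u = dg (fs (lookW W w)) u := fun u => degL_eq hMG.wf u
    have hle : ∀ u, dg (fs (lookW W w)) u ≤ 2 := hMG.m2.le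
    have htwo : ∀ u ∈ (xd x g F W Q R B).T, u ≠ w → dg (fs (lookW W w)) u = 2 := by
      intro u hu huw
      obtain ⟨hun, hu2⟩ := mem_xdT.1 hu
      have h1 := hdeg u hun
      rw [hu2, if_neg huw, hdg] at h1
      have h2 := hle u
      omega
    refine ⟨⟨hMG.m2, ?_, ?_, htwo⟩, ⟨_, poolX_mono (Nat.zero_le j) hst, rfl⟩, hsqf⟩
    · intro e he
      exact mem_EL.2 (Or.inr (Or.inl ⟨w, mem_cor.1 hw, he⟩))
    · have h1 := hdeg w hwn
      rw [hw2, if_pos rfl, hdg] at h1
      have h2 := hle w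
      by_contra hne
      have h3 : dg (fs (lookW W w)) w = 2 := by omega
      have hcov : Cov x.1 g (degL (lookW W w)) := by
        refine hCv _ hMG.wf hMG.m2 ?_
        intro u hu
        by_cases huw : u = w
        · rw [huw]; exact h3
        · exact htwo u hu huw
      obtain ⟨q, hq, _, h5, _⟩ := hbad _ (poolX_mono (Nat.zero_le K) hst) hcov
      have h6 := hsq q hq
      rw [← Bool.not_eq_true, sqIn_iff] at h6
      exact h6 h5
  · -- the square `Q`
    have hFP : PX x g F W Q R B 0 (fs F) := ⟨F, List.mem_cons_self, rfl⟩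
    have hFc : Cv (xd x g F W Q R B) (fs F) := by
      intro u hu
      obtain ⟨hun, hu2⟩ := mem_xdT.1 hu
      have h1 := hc u hun
      rw [hu2, degL_eq hF.wf] at h1
      have h2 := hF.m2.le u
      omega
    obtain ⟨Z, hZ, hs⟩ := hblk.blk 0 (Nat.zero_le _) _ hFP hFc
    have h1 := (hDA Z hZ).1
    have h2 : Z = sqs Q := by
      by_contra hne
      exact h1 ⟨hs, hne⟩
    rw [← h2]
    exact hZ

end

/-- all worlds of one call -/
theorem fail_wb {K m : ℕ} {x : Ins} {g : List ℕ} {W : List (ℕ × List Ed)} {v : ℕ} {F : List Ed} {Q R : Sq4}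
    (hx : InsWF x) (hD : Da x g W v) (hg : Ev x g) (hF : MG x F) (hc : Cov x.1 g (degL F))
    (hQ : Q ∈ clS x g F) (hR : R ∈ sqG x) (hm : ∀ a ≤ cV2, 3 ^ (a + 1) + 20 ≤ m)
    (hK : ∀ a ≤ cE2, m * (a.choose 4 + 1) ≤ K) (h : (xfK K (x, g, W, F, Q, R)).1 = false) (B : Sq4)
    (hB : ∀ v ∈ cr B, v < x.1) :
    WB x.1 ((Finset.range x.1).filter fun v => g.getD v 0 = 2) (fs x.2) (fun w => fs (lookW W w)) Q R B := by
  have hB4 : B ∈ all4 x.1 := mem_all4.2 ⟨hB _ (by simp [cr]), hB _ (by simp [cr]), hB _ (by simp [cr]),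
    hB _ (by simp [cr])⟩
  obtain ⟨D, j, w, q⟩ := fail_ow hx hD hg hF hc hQ hR hB4 hm hK h
  exact ⟨_, _, D, j, m, w, rfl, rfl, (b1_of hx hD hF (List.mem_of_mem_filter hQ) hR hB4).sub, q,
    fun e he => mem_EL.2 (Or.inr (Or.inr (Or.inl he))),
    fun e he => mem_EL.2 (Or.inr (Or.inr (Or.inr (Or.inl he)))), fun e he => mem_EL.2 (Or.inr (Or.inr (Or.inr (Or.inr
      (Finset.mem_inter.1 he)))))⟩

/-- **`xf1` exists, given the theorem on two conflicting squares** -/
theorem xf1_exists (hX : XfStatement2) : ∃ xf1 : XIn → Bool × List Ed, PT xf1 ∧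
    (∀ x g W v N Q R, InsWF x → Da x g W v → Ev x g → MG x N → Cov x.1 g (degL N) →
      Q ∈ clS x g N → R ∈ sqG x → harm g R = true → conf Q R = true →
      (xf1 (x, g, W, N, Q, R)).1 = true →
      MG x (xf1 (x, g, W, N, Q, R)).2 ∧ Cov x.1 g (degL (xf1 (x, g, W, N, Q, R)).2) ∧
        ∀ Z ∈ clS x g (xf1 (x, g, W, N, Q, R)).2, Z ∈ clS x g N ∧ Z ≠ Q) ∧
    (∀ x g W v F N Q R, InsWF x → Da x g W v → Ev x g → MG x F → Cov x.1 g (degL F) →
      MG x N → Cov x.1 g (degL N) → Q ∈ clS x g F → R ∈ clS x g N → conf Q R = true →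
      (xf1 (x, g, W, F, Q, R)).1 = true ∨ (xf1 (x, g, W, N, R, Q)).1 = true) := by
  obtain ⟨m, hm⟩ := big_pow cV2
  obtain ⟨K, hK⟩ := big_choose m cE2
  refine ⟨xfK K, pt_xfK K, ?_, ?_⟩
  · intro x g W v N Q R hx hD hg hN _ hQ hR _ _ h
    have hQG : Q ∈ sqG x := List.mem_of_mem_filter hQ
    obtain ⟨B, hB4, h0⟩ := xfK_true h
    have hB : B1 x N W Q R B := b1_of hx hD hN hQG hR hB4
    obtain ⟨h1, h2⟩ := List.mem_filter.1 h0
    rw [okX_iff] at h2
    have hpm := hB.pm (g := g) hg K _ h1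
    refine ⟨⟨hpm.wf, hpm.m2, hpm.sub.trans hB.sub⟩, h2.1, ?_⟩
    intro Z hZ
    obtain ⟨hZG, hZ2⟩ := List.mem_filter.1 hZ
    rw [Bool.and_eq_true] at hZ2
    obtain ⟨h3, h4⟩ := h2.2 Z hZG hZ2.1 hZ2.2
    exact ⟨List.mem_filter.2 ⟨hZG, by rw [Bool.and_eq_true]; exact ⟨hZ2.1, h3⟩⟩, h4⟩
  · intro x g W v F N Q R hx hD hg hF hFc hN hNc hQ hR hQR
    by_contra hcon
    rw [not_or, Bool.not_eq_true, Bool.not_eq_true] at hcon
    obtain ⟨c1, c2⟩ := hcon
    have hQG : Q ∈ sqG x := List.mem_of_mem_filter hQ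
    have hRG : R ∈ sqG x := List.mem_of_mem_filter hR
    refine hX x.1 _ (fs x.2) _ Q R (sqG_ok Q hQG) (sqG_ok R hRG) ((conf_iff (sqG_ok Q hQG)).1 hQR) ?_
      (fail_wb hx hD hg hF hFc hQ hRG hm hK c1) (fail_wb hx hD hg hN hNc hR hQG hm hK c2)
    intro u hu
    have key : ∀ q ∈ sqG x, ∀ u ∈ cr q, u < x.1 := by
      intro q hq u hu
      obtain ⟨⟨h1, h2, h3, h4⟩, _⟩ := mem_sqG.1 hq
      simp only [cr, Finset.mem_insert, Finset.mem_singleton] at hu
      rcases hu with rfl | rfl | rfl | rfl <;> assumption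
    rcases Finset.mem_union.1 hu with h | h
    · exact key Q hQG u h
    · exact key R hRG u h

end Pool.Agent.PF4.XF

end
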