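import Pool.Agent.PFM.M11
import Pool.Agent.PFM.M14

section -- file PF4/XSh2

/-!
The phi frame: the elementary lemmas `L1` - `L5` and the shapes of the `K2` clusters.
-/

set_option autoImplicit false

namespace Pool.Agent.PF4.XT

open Finset Pool.Agent.TFC Pool.Agent.PF4 Pool.Agent.PF4.LD Pool.Agent.PF4.XC Pool.Agent.PF4.XF Pool.Agent.PF4.XU

/-! ### adding an edge to a square-free set -/

/-- a square through the edge `uv` -/
theorem sq_edge {Z : Finset (Sym2 ℕ)} (hZ : IsSq Z) {u v : ℕ} (he : s(u, v) ∈ Z) :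
    ∃ a b, Dist4 u a b v ∧ Z = TFC.sq u a b v := by
  obtain ⟨a, b, c, ⟨n1, n2, n3, n4, n5, n6⟩, rfl⟩ := sq_at hZ he (v := u) (by simp)
  have hv : v = a ∨ v = c := by
    simp only [TFC.sq, mem_insert, mem_singleton, Sym2.eq_iff] at he
    rcases he with ⟨_, h⟩ | ⟨h, _⟩ | ⟨h, _⟩ | ⟨h, _⟩ | ⟨h, _⟩ | ⟨h, _⟩ | ⟨h, _⟩ | ⟨_, h⟩ <;> tauto
  rcases hv with rfl | rfl
  · exact ⟨c, b, ⟨n3, n2, n1, n6.symm, n5.symm, n4.symm⟩, by
      ext e
      simp only [TFC.sq, mem_insert, mem_singleton]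
      rw [Sym2.eq_swap (a := u) (b := v), Sym2.eq_swap (a := v) (b := b), Sym2.eq_swap (a := b) (b := c),
        Sym2.eq_swap (a := c) (b := u)]
      tauto⟩
  · exact ⟨a, b, ⟨n1, n2, n3, n4, n5, n6⟩, rfl⟩

/-- **an edge which cannot be added to a square-free set: there is a 3-path between its ends** -/
theorem nsq_insert {K : Finset (Sym2 ℕ)} (hK : NSq K) {u v : ℕ} (h : ¬ NSq (insert s(u, v) K)) :
    ∃ a b, Dist4 u a b v ∧ s(u, a) ∈ K ∧ s(a, b) ∈ K ∧ s(b, v) ∈ K := by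
  unfold NSq at h
  push Not at h
  obtain ⟨Z, h1, h2⟩ := h
  have h3 : s(u, v) ∈ Z := by
    by_contra hc
    refine hK Z h1 fun e he => ?_
    rcases Finset.mem_insert.1 (h2 he) with rfl | h4
    · exact absurd he hc
    · exact h4
  obtain ⟨a, b, ⟨n1, n2, n3, n4, n5, n6⟩, rfl⟩ := sq_edge h1 h3
  refine ⟨a, b, ⟨n1, n2, n3, n4, n5, n6⟩, ?_, ?_, ?_⟩
  · refine (Finset.mem_insert.1 (h2 (by simp [TFC.sq] : s(u, a) ∈ TFC.sq u a b v))).resolve_left ?_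
    rw [Sym2.eq_iff]
    rintro (⟨_, h⟩ | ⟨h, _⟩)
    · exact n5 h
    · exact n3 h
  · refine (Finset.mem_insert.1 (h2 (by simp [TFC.sq] : s(a, b) ∈ TFC.sq u a b v))).resolve_left ?_
    rw [Sym2.eq_iff]
    rintro (⟨h, _⟩ | ⟨_, h⟩)
    · exact n1 h.symm
    · exact n2 h.symm
  · refine (Finset.mem_insert.1 (h2 (by simp [TFC.sq] : s(b, v) ∈ TFC.sq u a b v))).resolve_left ?_
    rw [Sym2.eq_iff]
    rintro (⟨h, _⟩ | ⟨h, _⟩)
    · exact n2 h.symm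
    · exact n6 h

section
variable {X : XD} {P : ℕ → Finset (Sym2 ℕ) → Prop} {D : Finset (Finset (Sym2 ℕ))} {j : ℕ} {S : Finset ℕ}
  {M : ℕ → Finset (Sym2 ℕ)} {A : Clu ℕ → Finset (Sym2 ℕ) → Prop} {CL U : List (Clu ℕ)} {PL : Finset (Sym2 ℕ)}
  {pl mi : ℕ → Prop}

/-- the edge `e` can be added to `K` -/
def Addb (A : Clu ℕ → Finset (Sym2 ℕ) → Prop) (U : List (Clu ℕ)) (PL K : Finset (Sym2 ℕ)) (e : Sym2 ℕ) : Prop :=
  e ∈ PL ∨ ∃ c ∈ U, e ∈ c.edges ∧ A c (insert e (K ∩ c.edges))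

theorem PW.addb (h : PW X P D j S M A CL U PL pl mi) {K : Finset (Sym2 ℕ)} (hK : AU A U PL K) {e : Sym2 ℕ}
    (ha : Addb A U PL K e) : AU A U PL (insert e K) := by
  rcases ha with h1 | ⟨c, hc, h1, h2⟩
  · rw [Finset.insert_eq, Finset.union_comm]
    exact h.addp hK (Finset.singleton_subset_iff.2 h1)
  · exact h.addc hK hc h1 h2

theorem Addb.inter (h : PW X P D j S M A CL U PL pl mi) {K : Finset (Sym2 ℕ)} {e : Sym2 ℕ}
    (ha : Addb A U PL K e) : Addb A U PL (K ∩ (Ucl U ∪ PL)) e := by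
  rcases ha with h1 | ⟨c, hc, h1, h2⟩
  · exact Or.inl h1
  · exact Or.inr ⟨c, hc, h1, by rw [h.interW hc]; exact h2⟩

theorem Addb.mem {A : Clu ℕ → Finset (Sym2 ℕ) → Prop} {U : List (Clu ℕ)} {PL K : Finset (Sym2 ℕ)} {e : Sym2 ℕ}
    (ha : Addb A U PL K e) : e ∈ Ucl U ∪ PL := by
  rcases ha with h1 | ⟨c, hc, h1, _⟩
  · exact Finset.mem_union_right _ h1
  · exact Finset.mem_union_left _ (mem_Ucl.2 ⟨c, hc, h1⟩)

theorem PW.ne (h : PW X P D j S M A CL U PL pl mi) {a b : ℕ} (he : s(a, b) ∈ Ucl U ∪ PL) : a ≠ b := by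
  have := h.nl le_rfl _ he
  simpa using this

/-! ### L3, L4, L5: near covers -/

/-- **L3** general: an edge is added to a near cover -/
theorem PW.L3 (h : PW X P D j S M A CL U PL pl mi) {w : ℕ} (hw : w ∈ S) (hT : w ∈ X.T)
    (hM : AU A U PL (M w ∩ (Ucl U ∪ PL))) {e : Sym2 ℕ} (he : e ∉ M w) (ha : Addb A U PL (M w) e) :
    1 ≤ ph X.V2 pl mi (dv {e} - Pi.single w 1) := by
  have h1 := h.nc w hw hT _ (h.addb hM (ha.inter h))
  rw [XT.dv_insert (fun hc => he (Finset.mem_of_mem_inter_left hc))] at h1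
  have e1 : dv (M w ∩ (Ucl U ∪ PL)) + dv {e} - dv (M w ∩ (Ucl U ∪ PL)) - Pi.single w 1 = dv {e} - Pi.single w 1 := by
    abel
  rwa [e1] at h1

/-- **L3** at `w` -/
theorem PW.L3w (h : PW X P D j S M A CL U PL pl mi) {w z : ℕ} (hw : w ∈ S) (hT : w ∈ X.T)
    (hM : AU A U PL (M w ∩ (Ucl U ∪ PL))) (he : s(w, z) ∉ M w) (ha : Addb A U PL (M w) s(w, z)) :
    1 ≤ con (pl z) (mi z) 1 := by
  have h1 := h.L3 hw hT hM he ha
  have hz := h.v2' ha.mem (v := z) (by simp)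
  rw [dv_pair (h.ne ha.mem)] at h1
  have e : (Pi.single w 1 + Pi.single z 1 - Pi.single w 1 : ℕ → ℤ) = Pi.single z 1 := by abel
  rwa [e, ph_one hz] at h1

/-- **L3** at `w`: an addable edge leads to a vertex with `pl` -/
theorem PW.L3p (h : PW X P D j S M A CL U PL pl mi) {w z : ℕ} (hw : w ∈ S) (hT : w ∈ X.T)
    (hM : AU A U PL (M w ∩ (Ucl U ∪ PL))) (he : s(w, z) ∉ M w) (ha : Addb A U PL (M w) s(w, z)) : pl z :=
  con_one_eq (m := mi z) (by have := h.L3w hw hT hM he ha; omega)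

/-- three different vertices -/
theorem ph_three {V : Finset ℕ} {pl mi : ℕ → Prop} {u v w : ℕ} (hu : u ∈ V) (hv : v ∈ V) (hw : w ∈ V) (huv : u ≠ v)
    (huw : u ≠ w) (hvw : v ≠ w) (a b c : ℤ) : ph V pl mi (Pi.single u a + Pi.single v b + Pi.single w c) =
      con (pl u) (mi u) a + con (pl v) (mi v) b + con (pl w) (mi w) c := by
  rw [ph_add hw (by rw [Pi.add_apply, sgl, sgl, if_neg huw.symm, if_neg hvw.symm]; rfl), ph_two hu hv huv]

/-- the edge `e` lies only in clusters with the uncapped square-free family, in which `K` is square-free -/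
def Free (A : Clu ℕ → Finset (Sym2 ℕ) → Prop) (U : List (Clu ℕ)) (K : Finset (Sym2 ℕ)) (e : Sym2 ℕ) : Prop :=
  ∀ c ∈ U, e ∈ c.edges → ASf A c ∧ NSq (K ∩ c.edges)

/-- **the block lemma**: an edge of the region can be added to `K`, or there is a 3-path of `K` between its ends in its
cluster -/
theorem PW.block (_ : PW X P D j S M A CL U PL pl mi) {K : Finset (Sym2 ℕ)} {u v : ℕ} (he : s(u, v) ∈ Ucl U ∪ PL)
    (hf : Free A U K s(u, v)) : Addb A U PL K s(u, v) ∨ ∃ c ∈ U, s(u, v) ∈ c.edges ∧ ∃ a b, Dist4 u a b v ∧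
      s(u, a) ∈ K ∧ s(a, b) ∈ K ∧ s(b, v) ∈ K ∧ s(u, a) ∈ c.edges ∧ s(a, b) ∈ c.edges ∧ s(b, v) ∈ c.edges := by
  rcases Finset.mem_union.1 he with h1 | h1
  · obtain ⟨c, hc, hec⟩ := mem_Ucl.1 h1
    obtain ⟨hA, hs⟩ := hf c hc hec
    by_cases h2 : NSq (insert s(u, v) (K ∩ c.edges))
    · exact Or.inl (Or.inr ⟨c, hc, hec, hA _ (Finset.insert_subset hec Finset.inter_subset_right) h2⟩)
    · obtain ⟨a, b, h3, h4, h5, h6⟩ := nsq_insert hs h2
      rw [Finset.mem_inter] at h4 h5 h6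
      exact Or.inr ⟨c, hc, hec, a, b, h3, h4.1, h5.1, h6.1, h4.2, h5.2, h6.2⟩
  · exact Or.inl (Or.inl h1)

/-! ### witnesses: the part in the cluster of the square is replaced -/

theorem PW.wz_au (h : PW X P D j S M A CL U PL pl mi) {Z L : Finset (Sym2 ℕ)} (hZ : Z ∈ D) (hL : Wt X P D j Z L)
    {c : Clu ℕ} (hc : c ∈ U) (hZc : Z ⊆ c.edges) (hA : Out A U c L) {F : Finset (Sym2 ℕ)} (hF : F ⊆ c.edges)
    (hAF : A c F) : AU A U PL (((L ∩ (Ucl U ∪ PL)) \ c.edges) ∪ F) ∧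
      dv (((L ∩ (Ucl U ∪ PL)) \ c.edges) ∪ F) = dv (L ∩ (Ucl U ∪ PL)) - dv Z + dv F := by
  obtain ⟨h1, h2⟩ := h.rep hc (K0 := L ∩ (Ucl U ∪ PL)) Finset.inter_subset_right
    (fun c' hc' hne => by rw [h.interW hc']; exact hA c' hc' hne) hF hAF
  refine ⟨h1, ?_⟩
  rw [h2, h.interW hc, inter_eq (h.val' hc) (h.isq Z hZ) hZc hL.m2 hL.sq]

/-- **the part of the witness in the cluster of its square is replaced by `F`** -/
theorem PW.wz (h : PW X P D j S M A CL U PL pl mi) {Z L : Finset (Sym2 ℕ)} (hZ : Z ∈ D) (hL : Wt X P D j Z L)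
    {c : Clu ℕ} (hc : c ∈ U) (hZc : Z ⊆ c.edges) (hA : Out A U c L) {F : Finset (Sym2 ℕ)} (hF : F ⊆ c.edges)
    (hAF : A c F) : 1 ≤ ph X.V2 pl mi (dv F - dv Z) := by
  obtain ⟨h1, h2⟩ := h.wz_au hZ hL hc hZc hA hF hAF
  have h3 := h.witA Z hZ (fun e he => mem_Ucl.2 ⟨c, hc, hZc he⟩) L hL.mem hL.cov hL.uni _ h1
  rw [h2] at h3
  have e : dv (L ∩ (Ucl U ∪ PL)) - dv Z + dv F - dv (L ∩ (Ucl U ∪ PL)) = dv F - dv Z := by abel
  rwa [e] at h3

/-- **the part of the witness in the cluster of its square is replaced, and an edge outside of this cluster is added** -/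
theorem PW.wz_add (h : PW X P D j S M A CL U PL pl mi) {Z L : Finset (Sym2 ℕ)} (hZ : Z ∈ D) (hL : Wt X P D j Z L)
    {c : Clu ℕ} (hc : c ∈ U) (hZc : Z ⊆ c.edges) (hA : Out A U c L) {F : Finset (Sym2 ℕ)} (hF : F ⊆ c.edges)
    (hAF : A c F) {e : Sym2 ℕ} (hec : e ∉ c.edges) (heL : e ∉ L) (ha : Addb A U PL L e) :
    1 ≤ ph X.V2 pl mi (dv F - dv Z + dv {e}) := by
  obtain ⟨h1, h2⟩ := h.wz_au hZ hL hc hZc hA hF hAF
  have h4 : AU A U PL (insert e (((L ∩ (Ucl U ∪ PL)) \ c.edges) ∪ F)) := by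
    refine h.addb h1 ?_
    rcases ha with h5 | ⟨c2, hc2, h5, h6⟩
    · exact Or.inl h5
    · refine Or.inr ⟨c2, hc2, h5, ?_⟩
      have hne : Disjoint c.edges c2.edges := by
        rw [Finset.disjoint_left]
        intro f hf hf2
        rw [h.eqc hc hc2 hf hf2] at hec
        exact hec h5
      have e1 : ((L ∩ (Ucl U ∪ PL)) \ c.edges ∪ F) ∩ c2.edges = L ∩ c2.edges := by
        rw [Finset.union_inter_distrib_right, Finset.disjoint_iff_inter_eq_empty.1 (hne.mono_left hF),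
          Finset.union_empty, ← h.interW hc2 L]
        ext f
        simp only [Finset.mem_inter, Finset.mem_sdiff]
        refine ⟨fun h1 => ⟨h1.1.1, h1.2⟩, fun h1 => ⟨⟨h1.1, fun h2 => ?_⟩, h1.2⟩⟩
        exact Finset.disjoint_left.1 hne h2 h1.2
      rw [e1]
      exact h6
  have heF : e ∉ ((L ∩ (Ucl U ∪ PL)) \ c.edges) ∪ F := by
    rw [Finset.mem_union, not_or]
    exact ⟨fun hc => heL (Finset.mem_inter.1 (Finset.mem_sdiff.1 hc).1).1, fun hc => hec (hF hc)⟩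
  have h3 := h.witA Z hZ (fun e he => mem_Ucl.2 ⟨c, hc, hZc he⟩) L hL.mem hL.cov hL.uni _ h4
  rw [XT.dv_insert heF, h2] at h3
  have e : dv (L ∩ (Ucl U ∪ PL)) - dv Z + dv F + dv {e} - dv (L ∩ (Ucl U ∪ PL)) = dv F - dv Z + dv {e} := by abel
  rwa [e] at h3

/-- a proper part of a square is allowed -/
theorem am2_sub {A : Clu ℕ → Finset (Sym2 ℕ) → Prop} {c : Clu ℕ} (hAc : AM2 A c) {Z L : Finset (Sym2 ℕ)}
    (hZ : IsSq Z) (hZc : Z ⊆ c.edges) (hL : M2 L) (hZL : Z ⊆ L) {R : Finset (Sym2 ℕ)} (hR : R ⊆ Z)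
    (hne : R.Nonempty) : A c (Z \ R) := by
  refine hAc _ (Finset.sdiff_subset.trans hZc) (hL.mono (Finset.sdiff_subset.trans hZL)) (nsq_small ?_)
  have h1 := Finset.card_sdiff_add_card_eq_card hR
  have h2 := IsSq.card hZ
  have h3 := hne.card_pos
  omega

/-- removing a part of the square -/
theorem PW.wz_rem (h : PW X P D j S M A CL U PL pl mi) {Z L : Finset (Sym2 ℕ)} (hZ : Z ∈ D) (hL : Wt X P D j Z L)
    {c : Clu ℕ} (hc : c ∈ U) (hZc : Z ⊆ c.edges) (hAc : AM2 A c) (hA : Out A U c L) {R : Finset (Sym2 ℕ)}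
    (hR : R ⊆ Z) (hne : R.Nonempty) : 1 ≤ ph X.V2 pl mi (-dv R) := by
  have h1 := h.wz hZ hL hc hZc hA (F := Z \ R) (Finset.sdiff_subset.trans hZc)
    (am2_sub hAc (h.isq Z hZ) hZc hL.m2 hL.sq hR hne)
  rw [dv_sdiff hR] at h1
  have e : dv Z - dv R - dv Z = -dv R := by abel
  rwa [e] at h1

/-- **L1**: an edge of the square -/
theorem PW.L1e (h : PW X P D j S M A CL U PL pl mi) {Z L : Finset (Sym2 ℕ)} (hZ : Z ∈ D) (hL : Wt X P D j Z L)
    {c : Clu ℕ} (hc : c ∈ U) (hZc : Z ⊆ c.edges) (hAc : AM2 A c) (hA : Out A U c L) {a b : ℕ} (he : s(a, b) ∈ Z) :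
    1 ≤ con (pl a) (mi a) (-1) + con (pl b) (mi b) (-1) := by
  have hW := h.cW' hc (hZc he)
  have h1 := h.wz_rem hZ hL hc hZc hAc hA (R := {s(a, b)}) (Finset.singleton_subset_iff.2 he) (by simp)
  rwa [ph_sub_edge (h.v2' hW (by simp)) (h.v2' hW (by simp)) (h.ne hW)] at h1

/-- **L1**: corners are not of type Y -/
theorem PW.L1Y (h : PW X P D j S M A CL U PL pl mi) {Z L : Finset (Sym2 ℕ)} (hZ : Z ∈ D) (hL : Wt X P D j Z L)
    {c : Clu ℕ} (hc : c ∈ U) (hZc : Z ⊆ c.edges) (hAc : AM2 A c) (hA : Out A U c L) {a b : ℕ} (he : s(a, b) ∈ Z) :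
    ¬ (pl a ∧ ¬ mi a) := by
  have h1 := h.L1e hZ hL hc hZc hAc hA he
  have h2 := con_neg_one (pl b) (mi b)
  exact con_neg_one_Y (by omega)

/-- **L1**: some corner is of type X -/
theorem PW.L1x (h : PW X P D j S M A CL U PL pl mi) {Z L : Finset (Sym2 ℕ)} (hZ : Z ∈ D) (hL : Wt X P D j Z L)
    {c : Clu ℕ} (hc : c ∈ U) (hZc : Z ⊆ c.edges) (hAc : AM2 A c) (hA : Out A U c L) :
    ∃ v, (∃ e ∈ Z, v ∈ e) ∧ mi v ∧ ¬ pl v := by
  obtain ⟨x, y, q, p, h4, rfl⟩ := h.isq Z hZ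
  have hd := h4
  obtain ⟨n1, n2, n3, n4, n5, n6⟩ := hd
  have h1 := h.wz_rem hZ hL hc hZc hAc hA (R := TFC.sq x y q p) le_rfl ⟨s(x, y), by simp [TFC.sq]⟩
  have k : ∀ u v, s(u, v) ∈ TFC.sq x y q p → u ∈ X.V2 := fun u v he => h.v2' (h.cW' hc (hZc he)) (by simp)
  have vx := k x y (by simp [TFC.sq])
  have vy := k y q (by simp [TFC.sq])
  have vq := k q p (by simp [TFC.sq])
  have vp := k p x (by simp [TFC.sq])
  have e : (-dv (TFC.sq x y q p) : ℕ → ℤ) =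
      Pi.single x (-2) + Pi.single y (-2) + Pi.single q (-2) + Pi.single p (-2) := by
    rw [dv_sq h4]
    funext v
    simp only [Pi.neg_apply, Pi.add_apply, sgl, ev_apply]
    split_ifs <;> ring
  rw [e, ph_add vp (by simp only [Pi.add_apply, sgl, if_neg n3.symm, if_neg n5.symm, if_neg n6.symm]; rfl),
    ph_three vx vy vq n1 n2 n4] at h1
  by_contra hn
  push Not at hn
  have k2 : ∀ v, (∃ e ∈ TFC.sq x y q p, v ∈ e) → con (pl v) (mi v) (-2) ≤ 0 := by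
    intro v hv
    by_contra hc
    obtain ⟨h5, h6⟩ := con_neg_two (p := pl v) (m := mi v) (by omega)
    exact h6 (hn v hv h5)
  have := k2 x ⟨s(x, y), by simp [TFC.sq], by simp⟩
  have := k2 y ⟨s(x, y), by simp [TFC.sq], by simp⟩
  have := k2 q ⟨s(q, p), by simp [TFC.sq], by simp⟩
  have := k2 p ⟨s(q, p), by simp [TFC.sq], by simp⟩
  omega

/-- **L2** with a given addability -/
theorem PW.L2' (h : PW X P D j S M A CL U PL pl mi) {Z L : Finset (Sym2 ℕ)} (hZ : Z ∈ D) (hL : Wt X P D j Z L)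
    {c : Clu ℕ} (hc : c ∈ U) (hZc : Z ⊆ c.edges) (hAc : AM2 A c) (hA : Out A U c L) {v v' z : ℕ}
    (he : s(v, v') ∈ Z) (hzc : s(v, z) ∉ c.edges) (ha : Addb A U PL L s(v, z)) :
    1 ≤ con (pl v') (mi v') (-1) + con (pl z) (mi z) 1 := by
  have hW := h.cW' hc (hZc he)
  have hzL : s(v, z) ∉ L := fun hz =>
    hzc (hZc (sq_closed hL.m2 (h.isq Z hZ) hL.sq he (y := v) (by simp) hz (by simp)))
  have h1 := h.wz_add hZ hL hc hZc hA (F := Z \ {s(v, v')}) (Finset.sdiff_subset.trans hZc)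
    (am2_sub hAc (h.isq Z hZ) hZc hL.m2 hL.sq (Finset.singleton_subset_iff.2 he) (by simp)) hzc hzL ha
  have hne : v' ≠ z := by
    rintro rfl
    exact hzc (hZc he)
  rw [dv_sdiff (Finset.singleton_subset_iff.2 he), dv_pair (h.ne hW), dv_pair (h.ne ha.mem)] at h1
  have e : (dv Z - (Pi.single v 1 + Pi.single v' 1) - dv Z + (Pi.single v 1 + Pi.single z 1) : ℕ → ℤ) =
      Pi.single v' (-1) + Pi.single z 1 := by
    rw [Pi.single_neg]
    abel
  rwa [e, ph_two (h.v2' hW (by simp)) (h.v2' ha.mem (by simp)) hne] at h1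

/-- the edge `vz` can be added to the witness if its cluster is uncapped and square-free there -/
theorem PW.addL (h : PW X P D j S M A CL U PL pl mi) {Z L : Finset (Sym2 ℕ)} (hZ : Z ∈ D) (hL : Wt X P D j Z L)
    {c : Clu ℕ} (hc : c ∈ U) (hZc : Z ⊆ c.edges) {v v' z : ℕ} (he : s(v, v') ∈ Z) (hz : s(v, z) ∈ Ucl U ∪ PL)
    (hzc : s(v, z) ∉ c.edges) (hf : Free A U L s(v, z)) : Addb A U PL L s(v, z) := by
  rcases h.block hz hf with h1 | ⟨c2, hc2, h2, a, b, _, h4, _, _, h5, _⟩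
  · exact h1
  · exfalso
    have h6 := hZc (sq_closed hL.m2 (h.isq Z hZ) hL.sq he (y := v) (by simp) h4 (by simp))
    exact hzc (h.eqc hc hc2 h6 h5 ▸ h2)

/-- **L2**: `v` a corner of the square `Z` of `D` with neighbour `v'`, `vz` an edge outside of the cluster of `Z` -/
theorem PW.L2 (h : PW X P D j S M A CL U PL pl mi) {Z L : Finset (Sym2 ℕ)} (hZ : Z ∈ D) (hL : Wt X P D j Z L)
    {c : Clu ℕ} (hc : c ∈ U) (hZc : Z ⊆ c.edges) (hAc : AM2 A c) (hA : Out A U c L) {v v' z : ℕ}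
    (he : s(v, v') ∈ Z) (hz : s(v, z) ∈ Ucl U ∪ PL) (hzc : s(v, z) ∉ c.edges) (hf : Free A U L s(v, z)) :
    1 ≤ con (pl v') (mi v') (-1) + con (pl z) (mi z) 1 :=
  h.L2' hZ hL hc hZc hAc hA he hzc (h.addL hZ hL hc hZc he hz hzc hf)

/-- **L2**: `z` is not of type X -/
theorem PW.L2X (h : PW X P D j S M A CL U PL pl mi) {Z L : Finset (Sym2 ℕ)} (hZ : Z ∈ D) (hL : Wt X P D j Z L)
    {c : Clu ℕ} (hc : c ∈ U) (hZc : Z ⊆ c.edges) (hAc : AM2 A c) (hA : Out A U c L) {v v' z : ℕ}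
    (he : s(v, v') ∈ Z) (hz : s(v, z) ∈ Ucl U ∪ PL) (hzc : s(v, z) ∉ c.edges) (hf : Free A U L s(v, z)) :
    ¬ (mi z ∧ ¬ pl z) := by
  have h1 := h.L2 hZ hL hc hZc hAc hA he hz hzc hf
  have h2 := con_neg_one (pl v') (mi v')
  exact con_one_X (by omega)

/-! ### shapes of the `K2` clusters (capped frame) -/

/-- every leaf is in a square of the family -/
theorem PW.par (h : PW X P D j S M A CL U PL pl mi) {u v : ℕ} {L : Finset ℕ} (h0 : Clu.k2 u v L ∈ U) :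
    ∀ b ∈ L, ∃ l ∈ L, l ≠ b ∧ TFC.sq u b v l ∈ D := by
  intro b hb
  obtain ⟨Z, hZ, he, hs⟩ := h.cls.edge_sq ((h.uc _).1 h0).1 (f := s(u, b)) (mem_k2.2 (Or.inl ⟨Or.inl rfl, hb⟩))
  obtain ⟨l, hl, _, hlb, rfl⟩ := k2_sq (h.val' h0) (h.isq Z hZ) hs he
  exact ⟨l, hl, hlb, hZ⟩

theorem sq_swp (u v a d : ℕ) : TFC.sq u a v d = TFC.sq u d v a := by rw [sq_ref, sq_rot, sq_rot, sq_rot]

end

end Pool.Agent.PF4.XT

end

section -- file PF4/XP4

/-!
# All frames of one world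

`Fr D F`: the clusters in `F` (two centres) with the uncapped square-free family, the other clusters with the capped family.
`WA`: one world with all frames at once; the clusters `U` and the plain edges `PL` do not depend on the frame, the types do.

Letters: `Q = sq x y q p` (edges `xy, yq, qp, px`), `R = sq x y s r` (edges `xy, ys, sr, rx`), `Z = sq r s b a`
(edges `rs, sb, ba, ar`).
-/

set_option autoImplicit false

namespace Pool.Agent.PF4.XT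

open Finset Pool.Agent.TFC Pool.Agent.PF4 Pool.Agent.PF4.LD Pool.Agent.PF4.XC Pool.Agent.PF4.XF

/-- a cluster with two centres -/
def K2 (c : Clu ℕ) : Prop := ∃ a b L, c = Clu.k2 a b L

open Classical in
/-- the clusters in `F` uncapped and square-free, the others capped -/
noncomputable def Fr (D : Finset (Finset (Sym2 ℕ))) (F : Clu ℕ → Prop) (c : Clu ℕ) : Finset (Sym2 ℕ) → Prop :=
  if F c then TFC.SqFree else Acap D

theorem Fr_pos {D : Finset (Finset (Sym2 ℕ))} {F : Clu ℕ → Prop} {c : Clu ℕ} (h : F c) : Fr D F c = TFC.SqFree :=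
  if_pos h

theorem Fr_neg {D : Finset (Finset (Sym2 ℕ))} {F : Clu ℕ → Prop} {c : Clu ℕ} (h : ¬ F c) : Fr D F c = Acap D :=
  if_neg h

theorem Fr_of {D : Finset (Finset (Sym2 ℕ))} {F : Clu ℕ → Prop} {c : Clu ℕ} {K : Finset (Sym2 ℕ)}
    (h : F c → TFC.SqFree K) (h' : ¬ F c → Acap D K) : Fr D F c K := by
  by_cases hc : F c
  · rw [Fr_pos hc]; exact h hc
  · rw [Fr_neg hc]; exact h' hc

/-- **one world, all frames** -/
structure WA (X : XD) (P : ℕ → Finset (Sym2 ℕ) → Prop) (D : Finset (Finset (Sym2 ℕ))) (j m : ℕ) (S : Finset ℕ)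
    (M : ℕ → Finset (Sym2 ℕ)) (CL U : List (Clu ℕ)) (PL : Finset (Sym2 ℕ)) : Prop where
  ow : OW X P D j m S M
  cls : Cls D CL
  /-- every set `F` of clusters with two centres is a frame -/
  fr : ∀ F : Clu ℕ → Prop, (∀ c, F c → K2 c) →
    ∃ pl mi, PW X P D j S M (Fr D F) CL U PL pl mi ∧ ∀ w ∈ S, w ∈ X.T → mi w
  /-- near covers are square-free in a cluster with two centres -/
  msf : ∀ w ∈ S, w ∈ X.T → ∀ c ∈ CL, K2 c → TFC.SqFree (M w ∩ c.edges)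
  mcap : ∀ w ∈ S, w ∈ X.T → ∀ c ∈ CL, Acap D (M w ∩ c.edges)

/-- a path with three edges `u e f v` -/
def P3 (K : Finset (Sym2 ℕ)) (u e f v : ℕ) : Prop := Dist4 u e f v ∧ s(u, e) ∈ K ∧ s(e, f) ∈ K ∧ s(f, v) ∈ K

section
variable {X : XD} {P : ℕ → Finset (Sym2 ℕ) → Prop} {D : Finset (Finset (Sym2 ℕ))} {j m : ℕ} {S : Finset ℕ}
  {M : ℕ → Finset (Sym2 ℕ)} {CL U : List (Clu ℕ)} {PL : Finset (Sym2 ℕ)}

theorem hs_sq {T : Finset ℕ} {a b c d : ℕ} (h4 : Dist4 a b c d) :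
    Hs T (TFC.sq a b c d) ↔ (a ∈ T ∧ c ∈ T) ∨ (b ∈ T ∧ d ∈ T) := Hs_iff (q := (a, b, c, d)) h4

/-- every square of a cluster with two centres is harmful -/
theorem hs_k2 (h : OW X P D j m S M) (hc : Cls D CL) {c : Clu ℕ} (hcC : c ∈ CL) (h2 : K2 c)
    {Z : Finset (Sym2 ℕ)} (hZ : IsSq Z) (hs : Z ⊆ c.edges) : Hs X.T Z := by
  obtain ⟨u, v, L, rfl⟩ := h2
  have hv := hc.val _ hcC
  have hv0 := hv
  obtain ⟨huv, huL, hvL, _⟩ : u ≠ v ∧ u ∉ L ∧ v ∉ L ∧ 2 ≤ #L := hv0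
  have hleaf : ∀ l ∈ L, (u ∈ X.T ∧ v ∈ X.T) ∨ l ∈ X.T := by
    intro l hl
    have he : s(u, l) ∈ (Clu.k2 u v L).edges := mem_k2.2 (Or.inl ⟨Or.inl rfl, hl⟩)
    obtain ⟨Z', hZ', heZ', hsub⟩ := hc.edge_sq hcC he
    obtain ⟨b, hb, _, hlb, rfl⟩ := k2_sq hv (h.isq hZ') hsub heZ'
    have h4 : Dist4 u l v b := ⟨fun e => huL (e ▸ hl), huv, fun e => huL (e ▸ hb), fun e => hvL (e ▸ hl), hlb.symm,
      fun e => hvL (e ▸ hb)⟩
    rcases (hs_sq h4).1 (h.blk.hs _ hZ').1 with h1 | h1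
    · exact Or.inl h1
    · exact Or.inr h1.1
  obtain ⟨w, x, y, z, h4, rfl⟩ := hZ
  rcases shape hv h4 hs with h1 | ⟨L', h1, h2, h3, h5, h6⟩ | ⟨L', h1, h2, h3, h5, h6⟩
  · cases h1
  · have hL : L' = L := by rcases h1 with h1 | h1 <;> injection h1 with _ _ e <;> exact e.symm
    subst hL
    rw [hs_sq h4]
    rcases hleaf x h2 with h7 | h7
    · left
      rcases h1 with h1 | h1 <;> injection h1 with e1 e2 _
      · rw [← e1, ← e2]; exact h7
      · rw [← e1, ← e2]; exact h7.symm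
    · rcases hleaf z h3 with h8 | h8
      · left
        rcases h1 with h1 | h1 <;> injection h1 with e1 e2 _
        · rw [← e1, ← e2]; exact h8
        · rw [← e1, ← e2]; exact h8.symm
      · exact Or.inr ⟨h7, h8⟩
  · have hL : L' = L := by rcases h1 with h1 | h1 <;> injection h1 with _ _ e <;> exact e.symm
    subst hL
    rw [hs_sq h4]
    rcases hleaf w h2 with h7 | h7
    · right
      rcases h1 with h1 | h1 <;> injection h1 with e1 e2 _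
      · rw [← e1, ← e2]; exact h7
      · rw [← e1, ← e2]; exact h7.symm
    · rcases hleaf y h3 with h8 | h8
      · right
        rcases h1 with h1 | h1 <;> injection h1 with e1 e2 _
        · rw [← e1, ← e2]; exact h8
        · rw [← e1, ← e2]; exact h8.symm
      · exact Or.inl ⟨h7, h8⟩

/-- no loop, no square as a subset: square-free -/
theorem sqFree_of {K : Finset (Sym2 ℕ)} (hK : NoLoop K) (h : ∀ Z, IsSq Z → ¬ Z ⊆ K) : TFC.SqFree K :=
  (XU.sqFree_iff hK).2 h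

theorem AU_congr {A : Clu ℕ → Finset (Sym2 ℕ) → Prop} {U U' : List (Clu ℕ)} (hU : ∀ c, c ∈ U ↔ c ∈ U')
    {PL K : Finset (Sym2 ℕ)} : AU A U PL K ↔ AU A U' PL K := by
  have e : Ucl U = Ucl U' := by
    ext f
    rw [mem_Ucl, mem_Ucl]
    constructor
    · rintro ⟨c, hc, h⟩; exact ⟨c, (hU c).1 hc, h⟩
    · rintro ⟨c, hc, h⟩; exact ⟨c, (hU c).2 hc, h⟩
  unfold AU
  rw [e]
  constructor
  · rintro ⟨h1, h2⟩; exact ⟨h1, fun c hc => h2 c ((hU c).2 hc)⟩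
  · rintro ⟨h1, h2⟩; exact ⟨h1, fun c hc => h2 c ((hU c).1 hc)⟩

/-- the clusters and plain edges are determined -/
theorem PW.congr {A : Clu ℕ → Finset (Sym2 ℕ) → Prop} {pl mi : ℕ → Prop} {U' : List (Clu ℕ)}
    (h : PW X P D j S M A CL U PL pl mi) (hU : ∀ c, c ∈ U ↔ c ∈ U') : PW X P D j S M A CL U' PL pl mi := by
  have e : Ucl U' = Ucl U := by
    ext f
    rw [mem_Ucl, mem_Ucl]
    constructor
    · rintro ⟨c, hc, h⟩; exact ⟨c, (hU c).2 hc, h⟩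
    · rintro ⟨c, hc, h⟩; exact ⟨c, (hU c).1 hc, h⟩
  refine ⟨h.ok, h.sv, h.isq, h.dE, by rw [e]; exact h.w2, h.cls, fun c => by rw [← hU]; exact h.uc c, h.pm,
    fun v hv f hf hvf => by rw [e]; exact h.rch v hv f hf hvf, h.free, ?_, ?_, h.witE, ?_⟩
  · intro w hw hT K hK
    rw [e]
    exact h.nc w hw hT K ((AU_congr hU).2 hK)
  · intro w hw hT hK
    rw [e] at hK
    exact h.mi' w hw hT ((AU_congr hU).2 hK)
  · intro Z hZ hZU L h1 h2 h3 K hK
    rw [e] at hZU ⊢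
    exact h.witA Z hZ hZU L h1 h2 h3 K ((AU_congr hU).2 hK)

theorem msf_of (h : OW X P D j m S M) (hc : Cls D CL) {w : ℕ} (hw : w ∈ S) (hT : w ∈ X.T) {c : Clu ℕ} (hcC : c ∈ CL)
    (h2 : K2 c) : TFC.SqFree (M w ∩ c.edges) := by
  obtain ⟨h3, _, h5⟩ := h.nc w hw hT
  refine sqFree_of (fun e he => h3.m2.nl e (Finset.mem_inter.1 he).1) fun Z hZ hs => ?_
  exact h5 Z (hs_k2 h hc hcC h2 hZ (hs.trans Finset.inter_subset_right)) (hs.trans Finset.inter_subset_left)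

theorem mcap_of (h : OW X P D j m S M) {w : ℕ} (hw : w ∈ S) (hT : w ∈ X.T) (c : Clu ℕ) :
    Acap D (M w ∩ c.edges) := by
  obtain ⟨h3, _, h5⟩ := h.nc w hw hT
  refine ⟨⟨fun e he => h3.m2.nl e (Finset.mem_inter.1 he).1, fun v => ?_⟩, fun Z hZ hs => ?_⟩
  · exact le_trans (Finset.card_le_card (Finset.filter_subset_filter _ Finset.inter_subset_left)) (h3.m2.le v)
  · exact h5 Z (h.blk.hs Z hZ).1 (hs.trans Finset.inter_subset_left)

/-- every family of the frame is good -/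
theorem pca_fr (h : OW X P D j m S M) (hc : Cls D CL) {F : Clu ℕ → Prop} (hF : ∀ c, F c → K2 c) {c : Clu ℕ}
    (hcC : c ∈ CL) : PcA D (Fr D F c) c.edges := by
  by_cases hf : F c
  · rw [Fr_pos hf]
    obtain ⟨a, b, L, rfl⟩ := hF c hf
    exact XU.pca_sqFree (fun Z hZ => h.isq hZ) (hc.val _ hcC)
  · rw [Fr_neg hf]
    exact pca_cap (fun Z hZ => h.isq hZ) _

theorem fr_near (h : OW X P D j m S M) (hc : Cls D CL) {F : Clu ℕ → Prop} (hF : ∀ c, F c → K2 c) {w : ℕ} (hw : w ∈ S)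
    (hT : w ∈ X.T) {c : Clu ℕ} (hcC : c ∈ CL) : Fr D F c (M w ∩ c.edges) :=
  Fr_of (fun hf => msf_of h hc hw hT hcC (hF c hf)) fun _ => mcap_of h hw hT c

/-- **one world with all frames** -/
theorem wa_of (h : OW X P D j m S M) (hS : ∃ w ∈ S, w ∈ X.T) :
    ∃ CL U PL, WA X P D j m S M CL U PL := by
  obtain ⟨CL, hc⟩ := h.cls
  obtain ⟨w, hw, hT⟩ := hS
  have hall : ∀ F : Clu ℕ → Prop, (∀ c, F c → K2 c) → ∃ U PL pl mi, PW X P D j S M (Fr D F) CL U PL pl mi := by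
    intro F hF
    exact OW.pw h hc (fun c hcC _ => pca_fr h hc hF hcC) ⟨w, hw, hT, fun c hcC _ => fr_near h hc hF hw hT hcC⟩
  obtain ⟨U, PL, pl0, mi0, h0⟩ := hall (fun _ => False) fun _ h => h.elim
  refine ⟨CL, U, PL, h, hc, ?_, fun w hw hT c hcC h2 => msf_of h hc hw hT hcC h2, fun w hw hT c _ => mcap_of h hw hT c⟩
  intro F hF
  obtain ⟨U', PL', pl, mi, h1⟩ := hall F hF
  have hU : ∀ c, c ∈ U' ↔ c ∈ U := fun c => by rw [h1.uc, h0.uc]
  have hPL : PL' = PL := by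
    ext e
    rw [h1.pm, h0.pm]
  subst hPL
  have h2 := h1.congr hU
  refine ⟨pl, mi, h2, fun w hw hT => h2.mi' w hw hT ⟨Finset.inter_subset_right, fun c hcU => ?_⟩⟩
  have e : M w ∩ (Ucl U ∪ PL') ∩ c.edges = M w ∩ c.edges := by
    rw [Finset.inter_assoc]
    congr 1
    rw [Finset.inter_eq_right]
    exact h2.cW hcU
  rw [e]
  exact fr_near h hc hF hw hT ((h2.uc c).1 hcU).1

end

/-! ### the pieces of pattern p4 (statements) -/

/-- **Lemma P**, intrinsic form -/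
def LP (X : XD) (P : ℕ → Finset (Sym2 ℕ) → Prop) (D : Finset (Finset (Sym2 ℕ))) (j : ℕ) (S : Finset ℕ)
    (U : List (Clu ℕ)) : Prop :=
  ∀ x y q p r s : ℕ, [x, y, q, p, r, s].Nodup → x ∈ S → y ∈ S → r ∈ S → s ∈ S → x ∈ X.T → y ∈ X.T → r ∈ X.T →
    s ∈ X.T → TFC.sq x y q p ∈ D → s(x, r) ∈ X.E → s(r, s) ∈ X.E → s(y, s) ∈ X.E →
    ∃ c ∈ U, K2 c ∧ s(r, s) ∈ c.edges ∧ ∀ L, Wt X P D j (TFC.sq x y q p) L → s(r, s) ∉ L ∧
      ∃ a b, P3 (L ∩ c.edges) r a b s ∧ TFC.sq r s b a ∈ D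

/-- **the configuration in world 1** (`p` free), with Lemma P already used for `(Q, R)` and `(Z, R)` -/
structure V0 (X : XD) (P : ℕ → Finset (Sym2 ℕ) → Prop) (D : Finset (Finset (Sym2 ℕ))) (j m : ℕ) (S : Finset ℕ)
    (M : ℕ → Finset (Sym2 ℕ)) (CL U : List (Clu ℕ)) (PL : Finset (Sym2 ℕ)) (x y q p r s a b : ℕ)
    (c1 c2 : Clu ℕ) (L1 L2 : Finset (Sym2 ℕ)) : Prop where
  wa : WA X P D j m S M CL U PL
  nd : [x, y, q, p, r, s, a, b].Nodup
  xS : x ∈ S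
  yS : y ∈ S
  rS : r ∈ S
  sS : s ∈ S
  xT : x ∈ X.T
  yT : y ∈ X.T
  rT : r ∈ X.T
  sT : s ∈ X.T
  pT : p ∉ X.T
  hQ : TFC.sq x y q p ∈ D
  hZ : TFC.sq r s b a ∈ D
  xr : s(x, r) ∈ X.E
  ys : s(y, s) ∈ X.E
  c1U : c1 ∈ U
  c2U : c2 ∈ U
  k1 : K2 c1
  k2 : K2 c2
  q1 : TFC.sq x y q p ⊆ c1.edges
  z2 : TFC.sq r s b a ⊆ c2.edges
  /-- a witness of `Q`; it contains the path `r a b s` and not `rs` -/
  w1 : Wt X P D j (TFC.sq x y q p) L1
  rs1 : s(r, s) ∉ L1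
  p1 : P3 (L1 ∩ c2.edges) r a b s
  /-- a witness of `Z`; it contains a path of `c1` between `x` and `y` and not `xy` -/
  w2 : Wt X P D j (TFC.sq r s b a) L2
  xy2 : s(x, y) ∉ L2
  p2 : ∃ e f, P3 (L2 ∩ c1.edges) x e f y

/-- STEP 0: conclusion -/
def Step0 : Prop :=
  ∀ (X : XD) (P : ℕ → Finset (Sym2 ℕ) → Prop) (D : Finset (Finset (Sym2 ℕ))) (j m : ℕ) (S : Finset ℕ)
    (M : ℕ → Finset (Sym2 ℕ)) (CL U : List (Clu ℕ)) (PL : Finset (Sym2 ℕ)) (x y q p r s a b : ℕ)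
    (c1 c2 : Clu ℕ) (L1 L2 : Finset (Sym2 ℕ)),
    LP X P D j S U → V0 X P D j m S M CL U PL x y q p r s a b c1 c2 L1 L2 → s(x, r) ∈ PL ∧ s(y, s) ∈ PL

/-- STEP 1: conclusion (only paths in the near covers) -/
structure C1 (M : ℕ → Finset (Sym2 ℕ)) (c1 c2 : Clu ℕ) (x y q p r s : ℕ) : Prop where
  a : ∃ e f, P3 (M x ∩ c1.edges) x e f p
  c : ∃ u v, P3 (M r ∩ c2.edges) r u v s
  d : (∃ u v, P3 (M s ∩ c2.edges) s u v r) ∨
    ∃ l L, l ≠ y ∧ P3 (M s ∩ c1.edges) x l q p ∧ (c1 = Clu.k2 x q L ∨ c1 = Clu.k2 q x L)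

/-- STEP 1 -/
def Step1 : Prop :=
  ∀ (X : XD) (P : ℕ → Finset (Sym2 ℕ) → Prop) (D : Finset (Finset (Sym2 ℕ))) (j m : ℕ) (S : Finset ℕ)
    (M : ℕ → Finset (Sym2 ℕ)) (CL U : List (Clu ℕ)) (PL : Finset (Sym2 ℕ)) (x y q p r s a b : ℕ)
    (c1 c2 : Clu ℕ) (L1 L2 : Finset (Sym2 ℕ)),
    V0 X P D j m S M CL U PL x y q p r s a b c1 c2 L1 L2 → s(x, r) ∈ PL → s(y, s) ∈ PL →
    C1 M c1 c2 x y q p r s

/-- STEP 2 (world 2): `c1`, `c2` are two clusters (with two centres) of the other world; `xr`, `ys` are not in them -/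
def Step2 : Prop :=
  ∀ (X : XD) (P : ℕ → Finset (Sym2 ℕ) → Prop) (D : Finset (Finset (Sym2 ℕ))) (j m : ℕ) (S : Finset ℕ)
    (M : ℕ → Finset (Sym2 ℕ)) (CL U : List (Clu ℕ)) (PL : Finset (Sym2 ℕ)) (x y q p r s : ℕ)
    (c1 c2 : Clu ℕ), WA X P D j m S M CL U PL → [x, y, q, p, r, s].Nodup → x ∈ S → y ∈ S → r ∈ S → s ∈ S →
    x ∈ X.T → y ∈ X.T → r ∈ X.T → s ∈ X.T → p ∉ X.T → TFC.sq x y s r ∈ D → TFC.sq x y q p ⊆ X.E →
    c1.Valid → c2.Valid → K2 c1 → K2 c2 → TFC.sq x y q p ⊆ c1.edges → s(r, s) ∈ c2.edges →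
    s(x, r) ∉ c1.edges → s(x, r) ∉ c2.edges → s(y, s) ∉ c1.edges → s(y, s) ∉ c2.edges →
    C1 M c1 c2 x y q p r s → False

end Pool.Agent.PF4.XT

end

section -- file PF4/XV

/-!
# Tools for the frames `Fr D F`

`PW.base`: a witness without some edges of its square is allowed; `PW.ins`: an edge with an isolated end is added;
`PW.ev`: the evaluation.
-/

set_option autoImplicit false

namespace Pool.Agent.PF4.XT

open Finset Pool.Agent.TFC Pool.Agent.PF4 Pool.Agent.PF4.LD Pool.Agent.PF4.XC Pool.Agent.PF4.XF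

/-! ### one cluster -/

theorem fr_nsq {D : Finset (Finset (Sym2 ℕ))} (hD : ∀ Z ∈ D, IsSq Z) {F : Clu ℕ → Prop} {c : Clu ℕ}
    {K : Finset (Sym2 ℕ)} (hl : NoLoop K) (hs : NSq K) (hm : ¬ F c → M2 K) : Fr D F c K :=
  Fr_of (fun _ => sqFree_of hl hs) fun h => ⟨hm h, fun Z hZ => hs Z (hD Z hZ)⟩

/-- a new edge with an isolated end -/
theorem fr_ins {D : Finset (Finset (Sym2 ℕ))} (hD : ∀ Z ∈ D, IsSq Z) {F : Clu ℕ → Prop} {c : Clu ℕ}
    {K : Finset (Sym2 ℕ)} {u v : ℕ} (huv : u ≠ v) (hK : Fr D F c K) (hl : NoLoop K)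
    (hu : ∀ a, s(u, a) ∈ K → a = v) (hv : F c ∨ dg K v ≤ 1) : Fr D F c (insert s(u, v) K) := by
  by_cases he : s(u, v) ∈ K
  · rw [Finset.insert_eq_of_mem he]; exact hK
  have hl' : NoLoop (insert s(u, v) K) := by
    intro f hf
    rcases Finset.mem_insert.1 hf with rfl | hf
    · simpa using huv
    · exact hl f hf
  have hu0 : dg K u = 0 := by
    rw [dg, Finset.card_eq_zero, Finset.filter_eq_empty_iff]
    rintro f hf ⟨a, rfl⟩
    rw [hu a hf] at hf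
    exact he hf
  -- a square through the new edge has a second edge at `u`
  have key : ∀ Z, IsSq Z → Z ⊆ insert s(u, v) K → Z ⊆ K := by
    intro Z hZ hs
    by_cases h1 : s(u, v) ∈ Z
    · exfalso
      obtain ⟨a, b, c', ⟨n1, n2, n3, n4, n5, n6⟩, rfl⟩ := sq_at hZ h1 (v := u) (by simp)
      have g : ∀ w, s(u, w) ∈ TFC.sq u a b c' → w = v := by
        intro w hw
        rcases Finset.mem_insert.1 (hs hw) with h2 | h2
        · exact Sym2.congr_right.1 h2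
        · exact hu w h2
      have h2 := g a (by simp [TFC.sq])
      have h3 := g c' (by rw [TFC.sq, Sym2.eq_swap (a := u) (b := c')]; simp)
      exact n5 (h2.trans h3.symm)
    · intro f hf
      rcases Finset.mem_insert.1 (hs hf) with rfl | h2
      · exact absurd hf h1
      · exact h2
  refine Fr_of (fun hf => ?_) fun hf => ?_
  · rw [Fr_pos hf] at hK
    exact sqFree_of hl' fun Z hZ hs => (XU.sqFree_iff hl).1 hK Z hZ (key Z hZ hs)
  · rw [Fr_neg hf] at hK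
    obtain ⟨h1, h2⟩ := hK
    refine ⟨⟨hl', fun w => ?_⟩, fun Z hZ hs => h2 Z hZ (key Z (hD Z hZ) hs)⟩
    rw [dg_insert he]
    have h3 := h1.le w
    have h4 := hv.resolve_left hf
    by_cases hw : w ∈ s(u, v)
    · rw [if_pos hw]
      rcases Sym2.mem_iff.1 hw with rfl | rfl
      · omega
      · omega
    · rw [if_neg hw]; omega

/-- all edges but one at `v` -/
theorem dgLe1 {L C : Finset (Sym2 ℕ)} (hL : M2 L) {e : Sym2 ℕ} {v : ℕ} (he : e ∈ L) (hv : v ∈ e) (hC : e ∉ C) :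
    dg (L ∩ C) v ≤ 1 := by
  have h1 := dg_erase he v
  rw [if_pos hv] at h1
  have h2 := hL.le v
  have h3 : dg (L ∩ C) v ≤ dg (L.erase e) v := dg_mono (fun f hf => by
    rw [Finset.mem_inter] at hf
    rw [Finset.mem_erase]
    exact ⟨fun h => hC (h ▸ hf.2), hf.1⟩) v
  omega

theorem dgLe1' {L K C : Finset (Sym2 ℕ)} (hL : M2 L) (hK : K ⊆ L) {e : Sym2 ℕ} {v : ℕ} (he : e ∈ L) (hv : v ∈ e)
    (heK : e ∉ K) : dg (K ∩ C) v ≤ 1 := by
  have h1 := dg_erase he v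
  rw [if_pos hv] at h1
  have h2 := hL.le v
  have h3 : dg (K ∩ C) v ≤ dg (L.erase e) v := dg_mono (fun f hf => by
    rw [Finset.mem_inter] at hf
    rw [Finset.mem_erase]
    exact ⟨fun h => heK (h ▸ hf.1), hK hf.1⟩) v
  omega

theorem dgZero {K : Finset (Sym2 ℕ)} {v : ℕ} (h : ∀ e ∈ K, v ∉ e) : dg K v = 0 := by
  rw [dg, Finset.card_eq_zero, Finset.filter_eq_empty_iff]
  exact fun e he => h e he

section
variable {X : XD} {P : ℕ → Finset (Sym2 ℕ) → Prop} {D : Finset (Finset (Sym2 ℕ))} {j : ℕ} {S : Finset ℕ}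
  {M : ℕ → Finset (Sym2 ℕ)} {A : Clu ℕ → Finset (Sym2 ℕ) → Prop} {F : Clu ℕ → Prop} {CL U : List (Clu ℕ)}
  {PL : Finset (Sym2 ℕ)} {pl mi : ℕ → Prop}

/-- **evaluation of a changed witness** -/
theorem PW.ev (h : PW X P D j S M A CL U PL pl mi) {Z L : Finset (Sym2 ℕ)} (hZ : Z ∈ D) (hL : Wt X P D j Z L)
    {c : Clu ℕ} (hc : c ∈ U) (hZc : Z ⊆ c.edges) {K : Finset (Sym2 ℕ)} (hK : AU A U PL K) {d : ℕ → ℤ}
    (hd : dv K = dv (L ∩ (Ucl U ∪ PL)) + d) : 1 ≤ ph X.V2 pl mi d := by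
  have h1 := h.witA Z hZ (fun e he => mem_Ucl.2 ⟨c, hc, hZc he⟩) L hL.mem hL.cov hL.uni K hK
  rw [hd, add_sub_cancel_left] at h1
  exact h1

/-- **a witness without some edges of its square** -/
theorem PW.base (h : PW X P D j S M (Fr D F) CL U PL pl mi) {Z L : Finset (Sym2 ℕ)} (hZ : Z ∈ D)
    (hL : Wt X P D j Z L) {c : Clu ℕ} (hc : c ∈ U) (hZc : Z ⊆ c.edges)
    (hF : ∀ c' ∈ U, F c' → c' ≠ c → NSq (L ∩ c'.edges)) {R : Finset (Sym2 ℕ)} (hR : R ⊆ Z) (hne : R.Nonempty) :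
    AU (Fr D F) U PL ((L ∩ (Ucl U ∪ PL)) \ R) := by
  refine ⟨Finset.sdiff_subset.trans Finset.inter_subset_right, fun c' hc' => ?_⟩
  have e : (L ∩ (Ucl U ∪ PL)) \ R ∩ c'.edges = (L ∩ c'.edges) \ R := by
    rw [← h.interW hc' L]
    ext f
    simp only [Finset.mem_inter, Finset.mem_sdiff]
    tauto
  rw [e]
  have hl : NoLoop ((L ∩ c'.edges) \ R) := fun f hf =>
    hL.m2.nl f (Finset.mem_inter.1 (Finset.mem_sdiff.1 hf).1).1
  have hm : M2 ((L ∩ c'.edges) \ R) := hL.m2.mono (Finset.sdiff_subset.trans Finset.inter_subset_left)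
  by_cases hcc : c' = c
  · subst hcc
    refine fr_nsq h.isq hl ?_ fun _ => hm
    rw [inter_eq (h.val' hc) (h.isq Z hZ) hZc hL.m2 hL.sq]
    refine nsq_small ?_
    have h1 := Finset.card_sdiff_add_card_eq_card hR
    have h2 := IsSq.card (h.isq Z hZ)
    have h3 := hne.card_pos
    omega
  · refine Fr_of (fun hf => ?_) fun hf => ⟨hm, fun Z' hZ' hs => ?_⟩
    · exact sqFree_of hl ((hF c' hc' hf hcc).mono Finset.sdiff_subset)
    · have h1 := hs.trans (Finset.sdiff_subset.trans Finset.inter_subset_left)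
      have h2 := hs.trans (Finset.sdiff_subset.trans Finset.inter_subset_right)
      rw [hL.uni Z' hZ' h1] at h2
      obtain ⟨e, he⟩ := IsSq.ne (h.isq Z hZ)
      exact hcc (h.eqc hc' hc (h2 he) (hZc he))

/-- **an edge with an isolated end is added** (isolated in the cluster of the edge) -/
theorem PW.ins (h : PW X P D j S M (Fr D F) CL U PL pl mi) {K : Finset (Sym2 ℕ)} (hK : AU (Fr D F) U PL K) {u v : ℕ}
    (he : s(u, v) ∈ Ucl U ∪ PL)
    (hc : ∀ c ∈ U, s(u, v) ∈ c.edges →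
      ((∀ a, s(u, a) ∈ K → s(u, a) ∈ c.edges → a = v) ∧ (F c ∨ dg (K ∩ c.edges) v ≤ 1)) ∨
      ((∀ a, s(v, a) ∈ K → s(v, a) ∈ c.edges → a = u) ∧ (F c ∨ dg (K ∩ c.edges) u ≤ 1))) :
    AU (Fr D F) U PL (insert s(u, v) K) := by
  have huv := h.ne he
  rcases Finset.mem_union.1 he with h1 | h1
  · obtain ⟨c, hcU, hec⟩ := mem_Ucl.1 h1
    refine h.addc hK hcU hec ?_
    have hl : NoLoop (K ∩ c.edges) := h.nl (Finset.inter_subset_left.trans hK.1)
    rcases hc c hcU hec with ⟨h2, h3⟩ | ⟨h2, h3⟩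
    · refine fr_ins h.isq huv (hK.2 c hcU) hl (fun a ha => ?_) h3
      rw [Finset.mem_inter] at ha
      exact h2 a ha.1 ha.2
    · rw [Sym2.eq_swap]
      refine fr_ins h.isq huv.symm (hK.2 c hcU) hl (fun a ha => ?_) h3
      rw [Finset.mem_inter] at ha
      exact h2 a ha.1 ha.2
  · have := h.addp hK (Finset.singleton_subset_iff.2 h1)
    rwa [Finset.union_comm, ← Finset.insert_eq] at this

/-- the part of a changed set in a cluster -/
theorem PW.dgK (h : PW X P D j S M A CL U PL pl mi) {L R : Finset (Sym2 ℕ)} {c : Clu ℕ} (hc : c ∈ U) (v : ℕ) :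
    dg (((L ∩ (Ucl U ∪ PL)) \ R) ∩ c.edges) v ≤ dg (L ∩ c.edges) v := by
  refine dg_mono ?_ v
  rw [← h.interW hc L]
  exact Finset.inter_subset_inter_right Finset.sdiff_subset

theorem dg_ins_off {K : Finset (Sym2 ℕ)} {e : Sym2 ℕ} {C : Finset (Sym2 ℕ)} {v : ℕ} (hv : v ∉ e) :
    dg (insert e K ∩ C) v ≤ dg (K ∩ C) v := by
  unfold dg
  refine Finset.card_le_card fun f hf => ?_
  simp only [Finset.mem_filter, Finset.mem_inter, Finset.mem_insert] at hf ⊢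
  obtain ⟨⟨h1 | h1, h2⟩, h3⟩ := hf
  · rw [h1] at h3; exact absurd h3 hv
  · exact ⟨⟨h1, h2⟩, h3⟩

/-- edges of a witness at a corner of its square -/
theorem Wt.at (hL : ∀ Z ∈ D, IsSq Z) {Z L : Finset (Sym2 ℕ)} (hZ : Z ∈ D) (hW : Wt X P D j Z L) {e f : Sym2 ℕ} {v : ℕ}
    (he : e ∈ Z) (hv : v ∈ e) (hf : f ∈ L) (hvf : v ∈ f) : f ∈ Z :=
  sq_closed hW.m2 (hL Z hZ) hW.sq he hv hf hvf

theorem sq_vert {x y q p v : ℕ} {g : Sym2 ℕ} (hg : g ∈ TFC.sq x y q p) (hv : v ∈ g) :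
    v = x ∨ v = y ∨ v = q ∨ v = p := by
  simp only [TFC.sq, Finset.mem_insert, Finset.mem_singleton] at hg
  rcases hg with rfl | rfl | rfl | rfl
  · rcases Sym2.mem_iff.1 hv with h | h
    · exact Or.inl h
    · exact Or.inr (Or.inl h)
  · rcases Sym2.mem_iff.1 hv with h | h
    · exact Or.inr (Or.inl h)
    · exact Or.inr (Or.inr (Or.inl h))
  · rcases Sym2.mem_iff.1 hv with h | h
    · exact Or.inr (Or.inr (Or.inl h))
    · exact Or.inr (Or.inr (Or.inr h))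
  · rcases Sym2.mem_iff.1 hv with h | h
    · exact Or.inr (Or.inr (Or.inr h))
    · exact Or.inl h

theorem nd6 {x y q p r s : ℕ} (nd : [x, y, q, p, r, s].Nodup) :
    (x ≠ y ∧ x ≠ q ∧ x ≠ p ∧ x ≠ r ∧ x ≠ s) ∧ (y ≠ q ∧ y ≠ p ∧ y ≠ r ∧ y ≠ s) ∧ (q ≠ p ∧ q ≠ r ∧ q ≠ s) ∧
      (p ≠ r ∧ p ≠ s) ∧ r ≠ s := by
  simpa [List.nodup_cons] using nd

/-- **the evaluation of Lemma P for the types**: `L - xy + xr + ys` -/
theorem PW.e8 (h : PW X P D j S M (Fr D F) CL U PL pl mi) {x y q p r s e f : ℕ} (nd : [x, y, q, p, r, s].Nodup)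
    (hQ : TFC.sq x y q p ∈ D) {L : Finset (Sym2 ℕ)} (hL : Wt X P D j (TFC.sq x y q p) L) {c1 c2 : Clu ℕ}
    (hc1 : c1 ∈ U) (hQ1 : TFC.sq x y q p ⊆ c1.edges) (hc2 : c2 ∈ U) (hp : P3 (L ∩ c2.edges) r e f s)
    (hF : ∀ c ∈ U, F c → c ≠ c1 → NSq (L ∩ c.edges)) (hxr : s(x, r) ∈ Ucl U ∪ PL) (hys : s(y, s) ∈ Ucl U ∪ PL)
    (h1 : s(x, r) ∈ c2.edges → F c2) (h2 : s(y, s) ∈ c2.edges → F c2) :
    1 ≤ con (pl r) (mi r) 1 + con (pl s) (mi s) 1 := by
  obtain ⟨⟨xy, xq, xp, xr, xs⟩, ⟨yq, yp, yr, ys⟩, ⟨qp, qr, qs⟩, ⟨pr, ps⟩, rs⟩ := nd6 nd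
  have hxy : s(x, y) ∈ TFC.sq x y q p := by simp [TFC.sq]
  have K0 := h.base hQ hL hc1 hQ1 hF (R := {s(x, y)}) (Finset.singleton_subset_iff.2 hxy) (by simp)
  -- edges at `x`, `y` in `L` are edges of `Q`
  have hx : ∀ g ∈ L, x ∈ g → g ∈ TFC.sq x y q p := fun g hg hxg => hL.at h.isq hQ hxy (by simp) hg hxg
  have hy : ∀ g ∈ L, y ∈ g → g ∈ TFC.sq x y q p := fun g hg hyg => hL.at h.isq hQ hxy (by simp) hg hyg
  have hLc : L ∩ c1.edges = TFC.sq x y q p := inter_eq (h.val' hc1) (h.isq _ hQ) hQ1 hL.m2 hL.sq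
  obtain ⟨hd, p1, p2, p3⟩ := hp
  rw [Finset.mem_inter] at p1 p2 p3
  have hout : ∀ g ∈ L, g ∈ c1.edges → r ∉ g ∧ s ∉ g := by
    intro g hg hgc
    have hgQ : g ∈ TFC.sq x y q p := by rw [← hLc]; exact Finset.mem_inter.2 ⟨hg, hgc⟩
    constructor
    · intro hv
      rcases sq_vert hgQ hv with h3 | h3 | h3 | h3
      · exact xr h3.symm
      · exact yr h3.symm
      · exact qr h3.symm
      · exact pr h3.symm
    · intro hv
      rcases sq_vert hgQ hv with h3 | h3 | h3 | h3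
      · exact xs h3.symm
      · exact ys h3.symm
      · exact qs h3.symm
      · exact ps h3.symm
  have hne : c1 ≠ c2 := by
    rintro rfl
    exact (hout _ p1.1 p1.2).1 (by simp)
  have memK : ∀ {g : Sym2 ℕ}, g ∈ (L ∩ (Ucl U ∪ PL)) \ {s(x, y)} → g ∈ L ∧ g ≠ s(x, y) := by
    intro g hg
    rw [Finset.mem_sdiff, Finset.mem_inter, Finset.mem_singleton] at hg
    exact ⟨hg.1.1, hg.2⟩
  have hsub : (L ∩ (Ucl U ∪ PL)) \ {s(x, y)} ⊆ L := Finset.sdiff_subset.trans Finset.inter_subset_left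
  have hxyK : s(x, y) ∉ (L ∩ (Ucl U ∪ PL)) \ {s(x, y)} := by simp
  have K1 := h.ins K0 hxr (by
    intro c hc hec
    by_cases hcc : c = c1
    · subst hcc
      right
      refine ⟨fun a ha hac => ?_, Or.inr ?_⟩
      · exact absurd (by simp) (hout _ (memK ha).1 hac).1
      · exact dgLe1' hL.m2 hsub (hL.sq hxy) (by simp) hxyK
    · left
      refine ⟨fun a ha hac => ?_, ?_⟩
      · exact absurd (h.eqc hc hc1 hac (hQ1 (hx _ (memK ha).1 (by simp)))) hcc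
      · by_cases hc2' : c = c2
        · subst hc2'; exact Or.inl (h1 hec)
        · right
          exact (h.dgK hc r).trans (dgLe1 hL.m2 p1.1 (by simp) fun hc' => hc2' (h.eqc hc hc2 hc' p1.2)))
  have K2 := h.ins K1 hys (by
    intro c hc hec
    by_cases hcc : c = c1
    · subst hcc
      right
      refine ⟨fun a ha hac => ?_, Or.inr ?_⟩
      · rcases Finset.mem_insert.1 ha with ha | ha
        · exfalso
          have h3 : s ∈ s(x, r) := by rw [← ha]; simp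
          rcases Sym2.mem_iff.1 h3 with h3 | h3
          · exact xs h3.symm
          · exact rs h3.symm
        · exact absurd (by simp) (hout _ (memK ha).1 hac).2
      · refine (dg_ins_off ?_).trans (dgLe1' hL.m2 hsub (hL.sq hxy) (by simp) hxyK)
        rw [Sym2.mem_iff]
        rintro (h3 | h3)
        · exact xy h3.symm
        · exact yr h3
    · left
      refine ⟨fun a ha hac => ?_, ?_⟩
      · rcases Finset.mem_insert.1 ha with ha | ha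
        · exfalso
          have h3 : y ∈ s(x, r) := by rw [← ha]; simp
          rcases Sym2.mem_iff.1 h3 with h3 | h3
          · exact xy h3.symm
          · exact yr h3
        · exact absurd (h.eqc hc hc1 hac (hQ1 (hy _ (memK ha).1 (by simp)))) hcc
      · by_cases hc2' : c = c2
        · subst hc2'; exact Or.inl (h2 hec)
        · right
          refine (dg_ins_off ?_).trans ((h.dgK hc s).trans
            (dgLe1 hL.m2 p3.1 (by simp) fun hc' => hc2' (h.eqc hc hc2 hc' p3.2)))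
          rw [Sym2.mem_iff]
          rintro (h3 | h3)
          · exact xs h3.symm
          · exact rs h3.symm)
  -- the degrees
  have nxr : s(x, r) ∉ (L ∩ (Ucl U ∪ PL)) \ {s(x, y)} := fun hc => by
    rcases sq_vert (v := r) (hx _ (memK hc).1 (by simp)) (by simp) with h3 | h3 | h3 | h3
    · exact xr h3.symm
    · exact yr h3.symm
    · exact qr h3.symm
    · exact pr h3.symm
  have nys : s(y, s) ∉ insert s(x, r) ((L ∩ (Ucl U ∪ PL)) \ {s(x, y)}) := fun hc => by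
    rcases Finset.mem_insert.1 hc with hc | hc
    · have h3 : y ∈ s(x, r) := by rw [← hc]; simp
      rcases Sym2.mem_iff.1 h3 with h3 | h3
      · exact xy h3.symm
      · exact yr h3
    · rcases sq_vert (v := s) (hy _ (memK hc).1 (by simp)) (by simp) with h3 | h3 | h3 | h3
      · exact xs h3.symm
      · exact ys h3.symm
      · exact qs h3.symm
      · exact ps h3.symm
  have hxyW : s(x, y) ∈ L ∩ (Ucl U ∪ PL) := Finset.mem_inter.2 ⟨hL.sq hxy, h.cW' hc1 (hQ1 hxy)⟩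
  have h4 := h.ev hQ hL hc1 hQ1 K2 (d := Pi.single r 1 + Pi.single s 1) (by
    rw [XT.dv_insert nys, XT.dv_insert nxr, dv_sdiff (Finset.singleton_subset_iff.2 hxyW), dv_pair xy, dv_pair xr,
      dv_pair ys]
    abel)
  rwa [ph_two (h.v2' hxr (by simp)) (h.v2' hys (by simp)) rs] at h4

/-- only the clusters in `F` have to be checked -/
theorem PW.out (h : PW X P D j S M (Fr D F) CL U PL pl mi) {Z L : Finset (Sym2 ℕ)} (hZ : Z ∈ D)
    (hL : Wt X P D j Z L) {c : Clu ℕ} (hc : c ∈ U) (hZc : Z ⊆ c.edges)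
    (hF : ∀ c' ∈ U, F c' → c' ≠ c → NSq (L ∩ c'.edges)) : Out (Fr D F) U c L := by
  intro c' hc' hcc
  have hl : NoLoop (L ∩ c'.edges) := fun f hf => hL.m2.nl f (Finset.mem_inter.1 hf).1
  refine Fr_of (fun hf => sqFree_of hl (hF c' hc' hf hcc)) fun hf => ⟨hL.m2.mono Finset.inter_subset_left,
    fun Z' hZ' hs => ?_⟩
  have h1 := hs.trans Finset.inter_subset_left
  have h2 := hs.trans Finset.inter_subset_right
  rw [hL.uni Z' hZ' h1] at h2
  obtain ⟨e, he⟩ := IsSq.ne (h.isq Z hZ)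
  exact hcc (h.eqc hc' hc (h2 he) (hZc he))

theorem fr_am2 {D : Finset (Finset (Sym2 ℕ))} (hD : ∀ Z ∈ D, IsSq Z) (F : Clu ℕ → Prop) (c : Clu ℕ) :
    AM2 (Fr D F) c := fun _ _ hm hs => fr_nsq hD hm.nl hs fun _ => hm

theorem dg_ins_off' {K : Finset (Sym2 ℕ)} {e : Sym2 ℕ} {v : ℕ} (hv : v ∉ e) : dg (insert e K) v ≤ dg K v := by
  unfold dg
  refine Finset.card_le_card fun f hf => ?_
  simp only [Finset.mem_filter, Finset.mem_insert] at hf ⊢
  obtain ⟨h1 | h1, h3⟩ := hf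
  · rw [h1] at h3; exact absurd h3 hv
  · exact ⟨h1, h3⟩

theorem dg_ins_le {K : Finset (Sym2 ℕ)} {e : Sym2 ℕ} {v : ℕ} : dg (insert e K) v ≤ dg K v + 1 := by
  by_cases he : e ∈ K
  · rw [Finset.insert_eq_of_mem he]; omega
  · rw [dg_insert he]; split_ifs <;> omega

theorem dg_single_le {e : Sym2 ℕ} (v : ℕ) : dg ({e} : Finset (Sym2 ℕ)) v ≤ 1 :=
  (Finset.card_le_card (Finset.filter_subset _ _)).trans (by simp)

/-- **a path with four edges** -/
theorem pth4 {D : Finset (Finset (Sym2 ℕ))} (hD : ∀ Z ∈ D, IsSq Z) {F : Clu ℕ → Prop} {c : Clu ℕ}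
    {v u e w b : ℕ} (nd : [v, u, e, w, b].Nodup) :
    Fr D F c {s(v, u), s(u, e), s(e, w), s(w, b)} ∧ dv ({s(v, u), s(u, e), s(e, w), s(w, b)} : Finset (Sym2 ℕ)) =
      Pi.single v 1 + (Pi.single u 1 + Pi.single u 1) + (Pi.single e 1 + Pi.single e 1) +
        (Pi.single w 1 + Pi.single w 1) + Pi.single b 1 := by
  obtain ⟨⟨vu, ve, vw, vb⟩, ⟨ue, uw, ub⟩, ⟨ew, eb⟩, wb⟩ : (v ≠ u ∧ v ≠ e ∧ v ≠ w ∧ v ≠ b) ∧
      (u ≠ e ∧ u ≠ w ∧ u ≠ b) ∧ (e ≠ w ∧ e ≠ b) ∧ w ≠ b := by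
    simpa [List.nodup_cons] using nd
  have n1 : v ∉ s(u, e) := by simp [vu, ve]
  have n2 : v ∉ s(e, w) := by simp [ve, vw]
  have n3 : v ∉ s(w, b) := by simp [vw, vb]
  have n4 : u ∉ s(e, w) := by simp [ue, uw]
  have n5 : u ∉ s(w, b) := by simp [uw, ub]
  have n6 : e ∉ s(w, b) := by simp [ew, eb]
  have l1 : NoLoop ({s(w, b)} : Finset (Sym2 ℕ)) := by
    intro f hf; rw [Finset.mem_singleton.1 hf]; simpa using wb
  have l2 : NoLoop ({s(e, w), s(w, b)} : Finset (Sym2 ℕ)) := by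
    intro f hf
    rcases Finset.mem_insert.1 hf with rfl | hf
    · simpa using ew
    · exact l1 f hf
  have l3 : NoLoop ({s(u, e), s(e, w), s(w, b)} : Finset (Sym2 ℕ)) := by
    intro f hf
    rcases Finset.mem_insert.1 hf with rfl | hf
    · simpa using ue
    · exact l2 f hf
  have k1 : Fr D F c ({s(w, b)} : Finset (Sym2 ℕ)) := by
    refine fr_nsq hD l1 (nsq_small (by simp)) fun _ => ⟨l1, fun x => (dg_single_le x).trans (by norm_num)⟩
  have d0 : ∀ x, dg ({s(w, b)} : Finset (Sym2 ℕ)) x ≤ 1 := fun x => dg_single_le x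
  have z1 : dg ({s(w, b)} : Finset (Sym2 ℕ)) e = 0 := dgZero fun f hf => by rw [Finset.mem_singleton.1 hf]; exact n6
  have k2 : Fr D F c ({s(e, w), s(w, b)} : Finset (Sym2 ℕ)) := by
    refine fr_ins hD ew k1 l1 (fun a ha => ?_) (Or.inr (d0 w))
    exfalso
    rw [Finset.mem_singleton] at ha
    exact n6 (by rw [← ha]; simp)
  have z2 : dg ({s(e, w), s(w, b)} : Finset (Sym2 ℕ)) e ≤ 1 := by
    have h1 : dg ({s(e, w), s(w, b)} : Finset (Sym2 ℕ)) e ≤ dg ({s(w, b)} : Finset (Sym2 ℕ)) e + 1 := dg_ins_le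
    omega
  have k3 : Fr D F c ({s(u, e), s(e, w), s(w, b)} : Finset (Sym2 ℕ)) := by
    refine fr_ins hD ue k2 l2 (fun a ha => ?_) (Or.inr z2)
    exfalso
    rcases Finset.mem_insert.1 ha with ha | ha
    · exact n4 (by rw [← ha]; simp)
    · rw [Finset.mem_singleton] at ha
      exact n5 (by rw [← ha]; simp)
  have z3 : dg ({s(u, e), s(e, w), s(w, b)} : Finset (Sym2 ℕ)) u ≤ 1 := by
    have h1 : dg ({s(u, e), s(e, w), s(w, b)} : Finset (Sym2 ℕ)) u ≤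
      dg ({s(e, w), s(w, b)} : Finset (Sym2 ℕ)) u + 1 := dg_ins_le
    have h2 : dg ({s(e, w), s(w, b)} : Finset (Sym2 ℕ)) u ≤ dg ({s(w, b)} : Finset (Sym2 ℕ)) u := dg_ins_off' n4
    have h3 : dg ({s(w, b)} : Finset (Sym2 ℕ)) u = 0 := dgZero fun f hf => by
      rw [Finset.mem_singleton.1 hf]; exact n5
    omega
  have k4 : Fr D F c ({s(v, u), s(u, e), s(e, w), s(w, b)} : Finset (Sym2 ℕ)) := by
    refine fr_ins hD vu k3 l3 (fun a ha => ?_) (Or.inr z3)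
    exfalso
    rcases Finset.mem_insert.1 ha with ha | ha
    · exact n1 (by rw [← ha]; simp)
    · rcases Finset.mem_insert.1 ha with ha | ha
      · exact n2 (by rw [← ha]; simp)
      · rw [Finset.mem_singleton] at ha
        exact n3 (by rw [← ha]; simp)
  refine ⟨k4, ?_⟩
  have m3 : s(e, w) ∉ ({s(w, b)} : Finset (Sym2 ℕ)) := fun h => n6 (by rw [← Finset.mem_singleton.1 h]; simp)
  have m2 : s(u, e) ∉ ({s(e, w), s(w, b)} : Finset (Sym2 ℕ)) := fun h => by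
    rcases Finset.mem_insert.1 h with h | h
    · exact n4 (by rw [← h]; simp)
    · exact n5 (by rw [← Finset.mem_singleton.1 h]; simp)
  have m1 : s(v, u) ∉ ({s(u, e), s(e, w), s(w, b)} : Finset (Sym2 ℕ)) := fun h => by
    rcases Finset.mem_insert.1 h with h | h
    · exact n1 (by rw [← h]; simp)
    · rcases Finset.mem_insert.1 h with h | h
      · exact n2 (by rw [← h]; simp)
      · exact n3 (by rw [← Finset.mem_singleton.1 h]; simp)
  rw [XT.dv_insert m1, XT.dv_insert m2, XT.dv_insert m3, dv_pair vu, dv_pair ue, dv_pair ew, dv_pair wb]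
  abel

/-- four different vertices -/
theorem ph_four {V : Finset ℕ} {pl mi : ℕ → Prop} {u v w x : ℕ} (hu : u ∈ V) (hv : v ∈ V) (hw : w ∈ V) (hx : x ∈ V)
    (huv : u ≠ v) (huw : u ≠ w) (hux : u ≠ x) (hvw : v ≠ w) (hvx : v ≠ x) (hwx : w ≠ x) (a b c d : ℤ) :
    ph V pl mi (Pi.single u a + Pi.single v b + Pi.single w c + Pi.single x d) =
      con (pl u) (mi u) a + con (pl v) (mi v) b + con (pl w) (mi w) c + con (pl x) (mi x) d := by
  rw [ph_add hx (by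
    rw [Pi.add_apply, Pi.add_apply, sgl, sgl, sgl, if_neg hux.symm, if_neg hvx.symm, if_neg hwx.symm]; rfl),
    ph_three hu hv hw huv huw hvw]

end

end Pool.Agent.PF4.XT

end

section -- file PF4/XV0

/-!
# Pattern p4, STEP 0

`PW.lemE`: a witness is square-free in every other cluster (with two centres) at a corner which is not of type X.
-/

set_option autoImplicit false

namespace Pool.Agent.PF4.XT

open Finset Pool.Agent.TFC Pool.Agent.PF4 Pool.Agent.PF4.LD Pool.Agent.PF4.XC Pool.Agent.PF4.XF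

/-- a square in a cluster with two centres -/
theorem k2_form {u w : ℕ} {L : Finset ℕ} (hv : (Clu.k2 u w L).Valid) {Z : Finset (Sym2 ℕ)} (hZ : IsSq Z)
    (hs : Z ⊆ (Clu.k2 u w L).edges) : ∃ b c, b ∈ L ∧ c ∈ L ∧ b ≠ c ∧ Z = TFC.sq u b w c := by
  obtain ⟨a1, a2, a3, a4, h4, rfl⟩ := hZ
  have hd := h4
  obtain ⟨n1, n2, n3, n4, n5, n6⟩ := hd
  rcases shape hv h4 hs with h | ⟨L', h | h, h1, h2, h3, h5⟩ | ⟨L', h | h, h1, h2, h3, h5⟩
  · cases h
  · injection h with e0 e1 e2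
    subst e0 e1 e2
    exact ⟨a2, a4, h1, h2, n5, rfl⟩
  · injection h with e0 e1 e2
    subst e0 e1 e2
    exact ⟨a4, a2, h2, h1, n5.symm, by rw [sq_rot, sq_rot]⟩
  · injection h with e0 e1 e2
    subst e0 e1 e2
    exact ⟨a3, a1, h2, h1, n2.symm, by rw [sq_rot]⟩
  · injection h with e0 e1 e2
    subst e0 e1 e2
    exact ⟨a1, a3, h1, h2, n2, by rw [sq_rot, sq_rot, sq_rot]⟩

/-- two neighbours of a corner -/
theorem sq_other {Z : Finset (Sym2 ℕ)} (hZ : IsSq Z) {e0 : Sym2 ℕ} (he0 : e0 ∈ Z) {v : ℕ} (hv : v ∈ e0) (e : ℕ) :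
    ∃ v', v' ≠ e ∧ s(v, v') ∈ Z := by
  obtain ⟨a, b, c, ⟨n1, n2, n3, n4, n5, n6⟩, rfl⟩ := sq_at hZ he0 hv
  by_cases h : a = e
  · exact ⟨c, fun h' => n5 (h.trans h'.symm), by rw [TFC.sq, Sym2.eq_swap (a := v) (b := c)]; simp⟩
  · exact ⟨a, h, by simp [TFC.sq]⟩

section
variable {X : XD} {P : ℕ → Finset (Sym2 ℕ) → Prop} {D : Finset (Finset (Sym2 ℕ))} {j : ℕ} {S : Finset ℕ}
  {M : ℕ → Finset (Sym2 ℕ)} {F : Clu ℕ → Prop} {CL U : List (Clu ℕ)} {PL : Finset (Sym2 ℕ)} {pl mi : ℕ → Prop}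

/-- **Lemma E** (all clusters capped) -/
theorem PW.lemE (h : PW X P D j S M (Fr D fun _ => False) CL U PL pl mi) {Z L : Finset (Sym2 ℕ)} (hZ : Z ∈ D)
    (hL : Wt X P D j Z L) {c0 c' : Clu ℕ} (hc0 : c0 ∈ U) (hZc : Z ⊆ c0.edges) (hc' : c' ∈ U) (hne : c' ≠ c0)
    (hk : K2 c') {v t : ℕ} {e0 : Sym2 ℕ} (he0 : e0 ∈ Z) (hv : v ∈ e0) (hvt : s(v, t) ∈ c'.edges)
    (hX : ¬ (mi v ∧ ¬ pl v)) : NSq (L ∩ c'.edges) := by
  intro S' hS' hs
  have hsL : S' ⊆ L := hs.trans Finset.inter_subset_left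
  have hsc : S' ⊆ c'.edges := hs.trans Finset.inter_subset_right
  have hout : ∀ g ∈ S', ∀ z, z ∈ g → ∀ f ∈ Z, z ∉ f := by
    intro g hg z hz f hf hzf
    exact hne (h.eqc hc' hc0 (hsc hg) (hZc (hL.at h.isq hZ hf hzf (hsL hg) hz)))
  obtain ⟨u, w, Lf, rfl⟩ := hk
  have hval := h.val' hc'
  have hval0 := hval
  obtain ⟨uw, uL, wL, _⟩ : u ≠ w ∧ u ∉ Lf ∧ w ∉ Lf ∧ 2 ≤ #Lf := hval0
  have hi : L ∩ (Clu.k2 u w Lf).edges = S' := inter_eq hval hS' hsc hL.m2 hsL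
  obtain ⟨b, c, hb, hc, bc, rfl⟩ := k2_form hval hS' hsc
  have hA : ∀ c ∈ U, Fr D (fun _ => False) c = Acap D := fun c _ => Fr_neg fun h => h
  have hD : TFC.sq u b w c ∉ D := by
    intro hd
    have h1 := hL.uni _ hd hsL
    have h2 : s(u, b) ∈ TFC.sq u b w c := by simp [TFC.sq]
    exact hout _ h2 u (by simp) s(u, b) (by rw [← h1]; exact h2) (by simp)
  obtain ⟨e, he, eb, ec, ⟨e1, e2⟩, _, cX⟩ := h.star hc' hA hb hc bc hD
  -- `v` is a leaf
  have vu : v ≠ u := by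
    rintro rfl
    exact hout s(v, b) (by simp [TFC.sq]) v (by simp) e0 he0 hv
  have vw : v ≠ w := by
    rintro rfl
    exact hout s(b, v) (by simp [TFC.sq]) v (by simp) e0 he0 hv
  have vL : v ∈ Lf := by
    rcases mem_k2.1 hvt with ⟨h1, _⟩ | ⟨_, h1⟩
    · rcases h1 with h1 | h1
      · exact absurd h1 vu
      · exact absurd h1 vw
    · exact h1
  have ev : e ≠ v := by rintro rfl; exact hX ⟨e1, e2⟩
  have vb : v ≠ b := by
    rintro rfl
    exact hout s(u, v) (by simp [TFC.sq]) v (by simp) e0 he0 hv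
  obtain ⟨v', ve', hvv'⟩ := sq_other (h.isq Z hZ) he0 hv e
  have v'b : v' ≠ b := by
    rintro rfl
    exact hout s(u, v') (by simp [TFC.sq]) v' (by simp) _ hvv' (by simp)
  have v'c : v' ≠ c := by
    rintro rfl
    exact hout s(v', u) (by simp [TFC.sq]) v' (by simp) _ hvv' (by simp)
  have nL : ∀ l ∈ Lf, l ≠ u ∧ l ≠ w := fun l hl => ⟨fun h => uL (h ▸ hl), fun h => wL (h ▸ hl)⟩
  obtain ⟨p1, p2⟩ := pth4 (D := D) h.isq (F := fun _ => False) (c := Clu.k2 u w Lf) (v := v) (u := u) (e := e)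
    (w := w) (b := b) (by
      simp only [List.nodup_cons, List.mem_cons, List.not_mem_nil, or_false, not_or, List.nodup_nil, and_true,
        not_false_eq_true]
      exact ⟨⟨vu, ev.symm, vw, vb⟩, ⟨(nL e he).1.symm, uw, (nL b hb).1.symm⟩, ⟨(nL e he).2, eb⟩, (nL b hb).2.symm⟩)
  have K0 := h.base hZ hL hc0 hZc (fun _ _ hf => hf.elim) (R := {s(v, v')}) (Finset.singleton_subset_iff.2 hvv')
    (by simp)
  have hFs : ({s(v, u), s(u, e), s(e, w), s(w, b)} : Finset (Sym2 ℕ)) ⊆ (Clu.k2 u w Lf).edges := by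
    intro f hf
    simp only [Finset.mem_insert, Finset.mem_singleton] at hf
    rcases hf with rfl | rfl | rfl | rfl
    · exact mem_k2.2 (Or.inr ⟨Or.inl rfl, vL⟩)
    · exact mem_k2.2 (Or.inl ⟨Or.inl rfl, he⟩)
    · exact mem_k2.2 (Or.inr ⟨Or.inr rfl, he⟩)
    · exact mem_k2.2 (Or.inl ⟨Or.inr rfl, hb⟩)
  obtain ⟨K1, K2⟩ := h.rep hc' K0.1 (fun c'' h'' _ => K0.2 c'' h'') hFs p1
  have hKi : (L ∩ (Ucl U ∪ PL)) \ {s(v, v')} ∩ (Clu.k2 u w Lf).edges = TFC.sq u b w c := by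
    rw [← hi, ← h.interW hc' L]
    ext f
    simp only [Finset.mem_inter, Finset.mem_sdiff, Finset.mem_singleton]
    refine ⟨fun h1 => ⟨h1.1.1, h1.2⟩, fun h1 => ⟨⟨h1.1, ?_⟩, h1.2⟩⟩
    rintro rfl
    exact hne (h.eqc hc' hc0 h1.2 (hZc hvv'))
  have hvW : s(v, v') ∈ L ∩ (Ucl U ∪ PL) := Finset.mem_inter.2 ⟨hL.sq hvv', h.cW' hc0 (hZc hvv')⟩
  have vv' : v ≠ v' := h.ne (h.cW' hc0 (hZc hvv'))
  have hub : u ≠ b := (nL b hb).1.symm
  have d4 : Dist4 u b w c := ⟨hub, uw, (nL c hc).1.symm, (nL b hb).2, bc, (nL c hc).2.symm⟩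
  have dq := dv_sq d4
  simp only [ev_single] at dq
  have h4 := h.ev hZ hL hc0 hZc K1 (d := Pi.single e 2 + Pi.single b (-1) + Pi.single c (-2) + Pi.single v' (-1)) (by
    rw [K2, hKi, dv_sdiff (Finset.singleton_subset_iff.2 hvW), dv_pair vv', dq, p2]
    have t2 : ∀ z : ℕ, (Pi.single z 2 : ℕ → ℤ) = Pi.single z 1 + Pi.single z 1 := fun z => by
      rw [← Pi.single_add]; norm_num
    have t3 : ∀ z : ℕ, (Pi.single z (-2) : ℕ → ℤ) = -(Pi.single z 1 + Pi.single z 1) := fun z => by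
      rw [← Pi.single_add, ← Pi.single_neg]; norm_num
    have t4 : ∀ z : ℕ, (Pi.single z (-1) : ℕ → ℤ) = -Pi.single z 1 := fun z => by rw [← Pi.single_neg]
    rw [t2 e, t3 c, t4 b, t4 v']
    abel)
  have hV : ∀ {l : ℕ}, l ∈ Lf → l ∈ X.V2 := fun {l} hl =>
    h.v2' (h.cW' hc' (mem_k2.2 (Or.inl ⟨Or.inl rfl, hl⟩) : s(u, l) ∈ (Clu.k2 u w Lf).edges)) (by simp)
  rw [ph_four (hV he) (hV hb) (hV hc) (h.v2' (h.cW' hc0 (hZc hvv')) (by simp)) eb ec ve'.symm bc v'b.symm v'c.symm]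
    at h4
  have g1 : con (pl e) (mi e) 2 = -2 := con_X e2 e1 2
  have g2 := con_neg_one (pl b) (mi b)
  have g3 := con_neg_one (pl v') (mi v')
  have g4 : con (pl c) (mi c) (-2) ≤ 0 := by
    by_contra hcon
    obtain ⟨h5, h6⟩ := con_neg_two (p := pl c) (m := mi c) (by omega)
    exact h6 (cX h5)
  omega

theorem both_pl {p q m n : Prop} (h : 1 ≤ con p m 1 + con q n 1) (hm : m) (hn : n) : p ∧ q := by
  have h1 := con_one p m
  have h2 := con_one q n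
  constructor
  · by_contra hp
    have h3 : con p m 1 = -1 := con_X hp hm 1
    omega
  · by_contra hp
    have h3 : con q n 1 = -1 := con_X hp hn 1
    omega

theorem sq_nb {u a b v z : ℕ} (h4 : Dist4 u a b v) (h : s(u, z) ∈ TFC.sq u a b v) : z = a ∨ z = v := by
  obtain ⟨n1, n2, n3, n4, n5, n6⟩ := h4
  simp only [TFC.sq, Finset.mem_insert, Finset.mem_singleton, Sym2.eq_iff] at h
  rcases h with (⟨_, h⟩ | ⟨h, _⟩) | (⟨h, _⟩ | ⟨h, _⟩) | (⟨h, _⟩ | ⟨h, _⟩) | (⟨h, _⟩ | ⟨_, h⟩)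
  · exact Or.inl h
  · exact absurd h n1
  · exact absurd h n1
  · exact absurd h n2
  · exact absurd h n2
  · exact absurd h n3
  · exact absurd h n3
  · exact Or.inr h

/-- three edges of a square determine the fourth one -/
theorem sq_close {Z : Finset (Sym2 ℕ)} (hZ : IsSq Z) {r e f s : ℕ} (h4 : Dist4 r e f s) (h1 : s(r, e) ∈ Z)
    (h2 : s(e, f) ∈ Z) (h3 : s(f, s) ∈ Z) : s(r, s) ∈ Z := by
  obtain ⟨g1, g2, g3, g4, g5, g6⟩ := h4
  obtain ⟨a, b, ⟨n1, n2, n3, n4, n5, n6⟩, rfl⟩ := sq_edge hZ h2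
  have hr : r = a := by
    rcases sq_nb ⟨n1, n2, n3, n4, n5, n6⟩ (z := r) (by rw [Sym2.eq_swap]; exact h1) with h | h
    · exact h
    · exact absurd h g2
  have hs : s = b := by
    have h4 : s(f, s) ∈ TFC.sq f b a e := by
      rw [sq_ref e a b f] at h3
      exact h3
    rcases sq_nb ⟨n6.symm, n5.symm, n3.symm, n4.symm, n2.symm, n1.symm⟩ h4 with h | h
    · exact h
    · exact absurd h g5.symm
  subst hr hs
  simp [TFC.sq]

/-- a 2-matching which contains a path `r e f s` of a cluster with two centres, but not the edge `rs` of the cluster, has no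
square in the cluster -/
theorem nsq_path {L : Finset (Sym2 ℕ)} (hL : M2 L) {c : Clu ℕ} (hv : c.Valid) (hk : K2 c) {r e f s : ℕ}
    (hp : P3 (L ∩ c.edges) r e f s) (hrs : s(r, s) ∉ L) (hc : s(r, s) ∈ c.edges) : NSq (L ∩ c.edges) := by
  intro S' hS' hs
  have hsL : S' ⊆ L := hs.trans Finset.inter_subset_left
  have hsc : S' ⊆ c.edges := hs.trans Finset.inter_subset_right
  obtain ⟨h4, p1, p2, p3⟩ := hp
  have q1 := (Finset.mem_inter.1 p1).1
  have q2 := (Finset.mem_inter.1 p2).1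
  have q3 := (Finset.mem_inter.1 p3).1
  have cl : ∀ {g g' : Sym2 ℕ} {z : ℕ}, g ∈ S' → z ∈ g → g' ∈ L → z ∈ g' → g' ∈ S' := fun hg hz hg' hz' =>
    sq_closed hL hS' hsL hg hz hg' hz'
  have key : ∀ {g : Sym2 ℕ}, g ∈ S' → (r ∈ g ∨ s ∈ g) → False := by
    rintro g hg (hr | hs')
    · have e1 := cl hg hr q1 (by simp)
      have e2 := cl e1 (z := e) (by simp) q2 (by simp)
      have e3 := cl e2 (z := f) (by simp) q3 (by simp)
      exact hrs (hsL (sq_close hS' h4 e1 e2 e3))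
    · have e3 := cl hg hs' q3 (by simp)
      have e2 := cl e3 (z := f) (by simp) q2 (by simp)
      have e1 := cl e2 (z := e) (by simp) q1 (by simp)
      exact hrs (hsL (sq_close hS' h4 e1 e2 e3))
  obtain ⟨u, w, Lf, rfl⟩ := hk
  obtain ⟨b, c', hb, hc', bc, rfl⟩ := k2_form hv hS' hsc
  have k1 : s(u, b) ∈ TFC.sq u b w c' := by simp [TFC.sq]
  have k2 : s(b, w) ∈ TFC.sq u b w c' := by simp [TFC.sq]
  rcases mem_k2.1 hc with ⟨rfl | rfl, _⟩ | ⟨rfl | rfl, _⟩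
  · exact key k1 (Or.inl (by simp))
  · exact key k2 (Or.inl (by simp))
  · exact key k1 (Or.inr (by simp))
  · exact key k2 (Or.inr (by simp))

end

/-! ### the configuration `V0` -/

section
variable {X : XD} {P : ℕ → Finset (Sym2 ℕ) → Prop} {D : Finset (Finset (Sym2 ℕ))} {j m : ℕ} {S : Finset ℕ}
  {M : ℕ → Finset (Sym2 ℕ)} {CL U : List (Clu ℕ)} {PL : Finset (Sym2 ℕ)} {x y q p r s a b : ℕ}
  {c1 c2 : Clu ℕ} {L1 L2 : Finset (Sym2 ℕ)}

theorem nd8 {x y q p r s a b : ℕ} (nd : [x, y, q, p, r, s, a, b].Nodup) :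
    (x ≠ y ∧ x ≠ q ∧ x ≠ p ∧ x ≠ r ∧ x ≠ s ∧ x ≠ a ∧ x ≠ b) ∧ (y ≠ q ∧ y ≠ p ∧ y ≠ r ∧ y ≠ s ∧ y ≠ a ∧ y ≠ b) ∧
      (q ≠ p ∧ q ≠ r ∧ q ≠ s ∧ q ≠ a ∧ q ≠ b) ∧ (p ≠ r ∧ p ≠ s ∧ p ≠ a ∧ p ≠ b) ∧ (r ≠ s ∧ r ≠ a ∧ r ≠ b) ∧
      (s ≠ a ∧ s ≠ b) ∧ a ≠ b := by
  simpa [List.nodup_cons] using nd

/-- every edge of `X.E` at a vertex of `S` is in the region -/
theorem WA.reg (h : WA X P D j m S M CL U PL) {u : ℕ} (hu : u ∈ S) {e : Sym2 ℕ} (he : e ∈ X.E) (hue : u ∈ e) :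
    e ∈ Ucl U ∪ PL := by
  obtain ⟨pl, mi, h1, _⟩ := h.fr (fun _ => False) fun _ h => h.elim
  exact h1.rch u (Rch.mono (Nat.zero_le 3) hu) e he hue

/-- `c1` and `c2` are different -/
theorem V0.ne (v : V0 X P D j m S M CL U PL x y q p r s a b c1 c2 L1 L2) : c1 ≠ c2 := by
  rintro rfl
  obtain ⟨pl, mi, h, _⟩ := v.wa.fr (fun _ => False) fun _ h => h.elim
  obtain ⟨⟨xy, xq, xp, xr, xs, xa, xb⟩, ⟨yq, yp, yr, ys, ya, yb⟩, ⟨qp, qr, qs, qa, qb⟩, ⟨pr, ps, pa, pb⟩,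
    ⟨rs, ra, rb⟩, ⟨sa, sb⟩, ab⟩ := nd8 v.nd
  have h1 : s(r, a) ∈ L1 ∩ c1.edges := v.p1.2.1
  rw [inter_eq (h.val' v.c1U) (h.isq _ v.hQ) v.q1 v.w1.m2 v.w1.sq] at h1
  rcases sq_vert h1 (v := r) (by simp) with h2 | h2 | h2 | h2
  · exact xr h2.symm
  · exact yr h2.symm
  · exact qr h2.symm
  · exact pr h2.symm

theorem V0.n1 (v : V0 X P D j m S M CL U PL x y q p r s a b c1 c2 L1 L2) : NSq (L1 ∩ c2.edges) := by
  obtain ⟨pl, mi, h, _⟩ := v.wa.fr (fun _ => False) fun _ h => h.elim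
  exact nsq_path v.w1.m2 (h.val' v.c2U) v.k2 v.p1 v.rs1 (v.z2 (by simp [TFC.sq]))

theorem V0.n2 (v : V0 X P D j m S M CL U PL x y q p r s a b c1 c2 L1 L2) : NSq (L2 ∩ c1.edges) := by
  obtain ⟨pl, mi, h, _⟩ := v.wa.fr (fun _ => False) fun _ h => h.elim
  obtain ⟨e, f, hp⟩ := v.p2
  exact nsq_path v.w2.m2 (h.val' v.c1U) v.k1 hp v.xy2 (v.q1 (by simp [TFC.sq]))

theorem V0.nd1 (v : V0 X P D j m S M CL U PL x y q p r s a b c1 c2 L1 L2) : [x, y, q, p, r, s].Nodup := by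
  have h := v.nd
  have e : [x, y, q, p, r, s, a, b] = [x, y, q, p, r, s] ++ [a, b] := rfl
  rw [e, List.nodup_append] at h
  exact h.1

theorem V0.nd2 (v : V0 X P D j m S M CL U PL x y q p r s a b c1 c2 L1 L2) : [r, s, b, a, x, y].Nodup := by
  obtain ⟨⟨xy, xq, xp, xr, xs, xa, xb⟩, ⟨yq, yp, yr, ys, ya, yb⟩, ⟨qp, qr, qs, qa, qb⟩, ⟨pr, ps, pa, pb⟩,
    ⟨rs, ra, rb⟩, ⟨sa, sb⟩, ab⟩ := nd8 v.nd
  simp only [List.nodup_cons, List.mem_cons, List.not_mem_nil, or_false, not_or, List.nodup_nil, and_true,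
    not_false_eq_true]
  exact ⟨⟨rs, rb, ra, xr.symm, yr.symm⟩, ⟨sb, sa, xs.symm, ys.symm⟩, ⟨ab.symm, xb.symm, yb.symm⟩,
    ⟨xa.symm, ya.symm⟩, xy⟩

/-- **types of `r`, `s`**: frames in `{c1, c2}` -/
theorem V0.rsZ (v : V0 X P D j m S M CL U PL x y q p r s a b c1 c2 L1 L2) {F : Clu ℕ → Prop} {pl mi : ℕ → Prop}
    (h : PW X P D j S M (Fr D F) CL U PL pl mi) (hm : ∀ w ∈ S, w ∈ X.T → mi w) (hF : ∀ c, F c → c = c1 ∨ c = c2)
    (h1 : s(x, r) ∈ c2.edges → F c2) (h2 : s(y, s) ∈ c2.edges → F c2) : pl r ∧ pl s := by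
  refine both_pl ?_ (hm r v.rS v.rT) (hm s v.sS v.sT)
  refine h.e8 v.nd1 v.hQ v.w1 v.c1U v.q1 v.c2U v.p1 (fun c hc hf hne => ?_) (v.wa.reg v.xS v.xr (by simp))
    (v.wa.reg v.yS v.ys (by simp)) h1 h2
  rcases hF c hf with rfl | rfl
  · exact absurd rfl hne
  · exact v.n1

/-- **types of `x`, `y`**: frames in `{c1, c2}` -/
theorem V0.xyZ (v : V0 X P D j m S M CL U PL x y q p r s a b c1 c2 L1 L2) {F : Clu ℕ → Prop} {pl mi : ℕ → Prop}
    (h : PW X P D j S M (Fr D F) CL U PL pl mi) (hm : ∀ w ∈ S, w ∈ X.T → mi w) (hF : ∀ c, F c → c = c1 ∨ c = c2)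
    (h1 : s(x, r) ∈ c1.edges → F c1) (h2 : s(y, s) ∈ c1.edges → F c1) : pl x ∧ pl y := by
  refine both_pl ?_ (hm x v.xS v.xT) (hm y v.yS v.yT)
  obtain ⟨e, f, hp⟩ := v.p2
  refine h.e8 v.nd2 v.hZ v.w2 v.c2U v.z2 v.c1U hp (fun c hc hf hne => ?_) ?_ ?_ ?_ ?_
  · rcases hF c hf with rfl | rfl
    · exact v.n2
    · exact absurd rfl hne
  · rw [Sym2.eq_swap]; exact v.wa.reg v.xS v.xr (by simp)
  · rw [Sym2.eq_swap]; exact v.wa.reg v.yS v.ys (by simp)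
  · rw [Sym2.eq_swap]; exact h1
  · rw [Sym2.eq_swap]; exact h2

/-- **`q` is of type X** -/
theorem V0.qX (v : V0 X P D j m S M CL U PL x y q p r s a b c1 c2 L1 L2) {F : Clu ℕ → Prop} {pl mi : ℕ → Prop}
    (h : PW X P D j S M (Fr D F) CL U PL pl mi) (hF : ∀ c, F c → c = c1 ∨ c = c2) (hx : pl x) (hy : pl y) :
    mi q ∧ ¬ pl q := by
  have ho := h.out v.hQ v.w1 v.c1U v.q1 (fun c hc hf hne => by
    rcases hF c hf with rfl | rfl
    · exact absurd rfl hne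
    · exact v.n1)
  obtain ⟨z, ⟨e, he, hz⟩, z1, z2⟩ := h.L1x v.hQ v.w1 v.c1U v.q1 (fr_am2 h.isq F c1) ho
  rcases sq_vert he hz with rfl | rfl | rfl | rfl
  · exact absurd hx z2
  · exact absurd hy z2
  · exact ⟨z1, z2⟩
  · exact absurd z1 (h.free z (h.ok.vn z (h.v2' (h.cW' v.c1U (v.q1 he)) hz)) v.pT)

/-- **`a` or `b` is of type X** -/
theorem V0.abX (v : V0 X P D j m S M CL U PL x y q p r s a b c1 c2 L1 L2) {F : Clu ℕ → Prop} {pl mi : ℕ → Prop}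
    (h : PW X P D j S M (Fr D F) CL U PL pl mi) (hF : ∀ c, F c → c = c1 ∨ c = c2) (hr : pl r) (hs : pl s) :
    (mi a ∧ ¬ pl a) ∨ (mi b ∧ ¬ pl b) := by
  have ho := h.out v.hZ v.w2 v.c2U v.z2 (fun c hc hf hne => by
    rcases hF c hf with rfl | rfl
    · exact v.n2
    · exact absurd rfl hne)
  obtain ⟨z, ⟨e, he, hz⟩, z1, z2⟩ := h.L1x v.hZ v.w2 v.c2U v.z2 (fr_am2 h.isq F c2) ho
  rcases sq_vert he hz with rfl | rfl | rfl | rfl
  · exact absurd hr z2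
  · exact absurd hs z2
  · exact Or.inr ⟨z1, z2⟩
  · exact Or.inl ⟨z1, z2⟩

end

end Pool.Agent.PF4.XT

end

section -- file PF4/XLA

/-!
Lemma P, part 1: modified witnesses as states; moves at one site (a cluster or one plain edge).
-/

set_option autoImplicit false

namespace Pool.Agent.PF4.XT

open Finset Pool.Agent.TFC Pool.Agent.PF4 Pool.Agent.PF4.LD Pool.Agent.PF4.XC Pool.Agent.PF4.XF

/-- `F` is allowed at the site `E` -/
def Al (A : Clu ℕ → Finset (Sym2 ℕ) → Prop) (U : List (Clu ℕ)) (PL E F : Finset (Sym2 ℕ)) : Prop :=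
  F ⊆ E ∧ ((∃ c ∈ U, E = c.edges ∧ A c F) ∨ ∃ e ∈ PL, E = {e})

/-- an allowed modification `K` of `L`: total change `d`, changed only in `τ` -/
structure St (A : Clu ℕ → Finset (Sym2 ℕ) → Prop) (U : List (Clu ℕ)) (PL L : Finset (Sym2 ℕ)) (d : ℕ → ℤ)
    (τ K : Finset (Sym2 ℕ)) : Prop where
  au : AU A U PL K
  dv : dv K = dv (L ∩ (Ucl U ∪ PL)) + d
  eq : K \ τ = (L ∩ (Ucl U ∪ PL)) \ τ

/-- there is an allowed modification with total change `d`, changed only in `τ` -/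
def RS (A : Clu ℕ → Finset (Sym2 ℕ) → Prop) (U : List (Clu ℕ)) (PL L : Finset (Sym2 ℕ)) (d : ℕ → ℤ)
    (τ : Finset (Sym2 ℕ)) : Prop := ∃ K, St A U PL L d τ K

/-- a move at the site `E` with change `δ` -/
def Mv (A : Clu ℕ → Finset (Sym2 ℕ) → Prop) (U : List (Clu ℕ)) (PL L E : Finset (Sym2 ℕ)) (δ : ℕ → ℤ) : Prop :=
  ∃ F, Al A U PL E F ∧ dv F = dv (L ∩ E) + δ

/-- a correction: nonpositive even changes at vertices which are not of type X -/
def NP (pl mi : ℕ → Prop) (κ : ℕ → ℤ) : Prop := ∀ v, κ v ≤ 0 ∧ Even (κ v) ∧ (κ v ≠ 0 → ¬ (mi v ∧ ¬ pl v))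

theorem NP.add {pl mi : ℕ → Prop} {κ κ' : ℕ → ℤ} (h : NP pl mi κ) (h' : NP pl mi κ') : NP pl mi (κ + κ') := by
  intro v
  obtain ⟨h1, h2, h3⟩ := h v
  obtain ⟨h4, h5, h6⟩ := h' v
  rw [Pi.add_apply]
  refine ⟨by omega, h2.add h5, fun h7 => ?_⟩
  by_cases h8 : κ v = 0
  · exact h6 (by rw [h8, zero_add] at h7; exact h7)
  · exact h3 h8

theorem con_np {p m : Prop} {a : ℤ} (h1 : a ≤ 0) (h2 : Even a) (h3 : a ≠ 0 → ¬ (m ∧ ¬ p)) : con p m a ≤ 0 := by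
  by_cases h : a = 0
  · rw [h, con_zero]
  · have h4 := h3 h
    obtain ⟨b, hb⟩ := h2
    unfold con
    split_ifs with p1 p2 p2
    · omega
    · exact h1
    · exact absurd ⟨p2, p1⟩ h4
    · exact le_rfl

section
variable {X : XD} {P : ℕ → Finset (Sym2 ℕ) → Prop} {D : Finset (Finset (Sym2 ℕ))} {j : ℕ} {S : Finset ℕ}
  {M : ℕ → Finset (Sym2 ℕ)} {A : Clu ℕ → Finset (Sym2 ℕ) → Prop} {CL U : List (Clu ℕ)} {PL : Finset (Sym2 ℕ)}
  {pl mi : ℕ → Prop} {L : Finset (Sym2 ℕ)}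

/-- a site lies in the region -/
theorem Al.sub {E F : Finset (Sym2 ℕ)} (hF : Al A U PL E F) : E ⊆ Ucl U ∪ PL := by
  rcases hF.2 with ⟨c, hc, rfl, _⟩ | ⟨e, he, rfl⟩
  · exact fun e he => Finset.mem_union_left _ (mem_Ucl.2 ⟨c, hc, he⟩)
  · exact Finset.singleton_subset_iff.2 (Finset.mem_union_right _ he)

theorem St.inter {d : ℕ → ℤ} {τ K E : Finset (Sym2 ℕ)} (h : St A U PL L d τ K) (hE : E ⊆ Ucl U ∪ PL)
    (hd : Disjoint E τ) : K ∩ E = L ∩ E := by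
  ext e
  simp only [Finset.mem_inter]
  refine and_congr_left fun he => ?_
  have h1 : e ∉ τ := Finset.disjoint_left.1 hd he
  have h2 := Finset.ext_iff.1 h.eq e
  simp only [Finset.mem_sdiff, Finset.mem_inter] at h2
  constructor
  · intro h3
    exact (h2.1 ⟨h3, h1⟩).1.1
  · intro h3
    exact (h2.2 ⟨⟨h3, hE he⟩, h1⟩).1

/-- **one move** -/
theorem PW.step (h : PW X P D j S M A CL U PL pl mi) {d δ : ℕ → ℤ} {τ E : Finset (Sym2 ℕ)}
    (hR : RS A U PL L d τ) (hd : Disjoint E τ) (hM : Mv A U PL L E δ) : RS A U PL L (d + δ) (τ ∪ E) := by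
  obtain ⟨K, hK⟩ := hR
  obtain ⟨F, hF, hdv⟩ := hM
  have hE := hF.sub
  have hKE := hK.inter hE hd
  refine ⟨(K \ E) ∪ F, ?_, ?_, ?_⟩
  · rcases hF.2 with ⟨c, hc, rfl, hA⟩ | ⟨e, he, rfl⟩
    · exact AU_rep h hc hK.au.1 hF.1 hA fun c' hc' _ => hK.au.2 c' hc'
    · refine ⟨Finset.union_subset (Finset.sdiff_subset.trans hK.au.1) (hF.1.trans hE), fun c hc => ?_⟩
      have hec : e ∉ c.edges := fun h1 => Finset.disjoint_left.1 (h.plain hc) he h1
      have e1 : (K \ {e} ∪ F) ∩ c.edges = K ∩ c.edges := by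
        ext f
        simp only [Finset.mem_inter, Finset.mem_union, Finset.mem_sdiff, Finset.mem_singleton]
        constructor
        · rintro ⟨h1 | h1, h2⟩
          · exact ⟨h1.1, h2⟩
          · have h3 := Finset.mem_singleton.1 (hF.1 h1)
            rw [h3] at h2
            exact absurd h2 hec
        · rintro ⟨h1, h2⟩
          refine ⟨Or.inl ⟨h1, ?_⟩, h2⟩
          rintro rfl
          exact hec h2
      rw [e1]
      exact hK.au.2 c hc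
  · rw [dv_rep hF.1, hKE, hdv, hK.dv]
    abel
  · ext e
    have h2 := Finset.ext_iff.1 hK.eq e
    simp only [Finset.mem_sdiff, Finset.mem_inter, Finset.mem_union] at h2 ⊢
    have h3 : e ∈ F → e ∈ E := fun h => hF.1 h
    tauto

/-- the start: the part in the cluster of the square is replaced -/
theorem PW.start (h : PW X P D j S M A CL U PL pl mi) {c : Clu ℕ} (hc : c ∈ U) (hO : Out A U c L)
    {F : Finset (Sym2 ℕ)} (hF : F ⊆ c.edges) (hA : A c F) {δ : ℕ → ℤ} (hdv : dv F = dv (L ∩ c.edges) + δ) :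
    RS A U PL L δ c.edges := by
  refine ⟨((L ∩ (Ucl U ∪ PL)) \ c.edges) ∪ F, ?_, ?_, ?_⟩
  · exact AU_rep h hc Finset.inter_subset_right hF hA fun c' hc' hne => by
      rw [h.interW hc']
      exact hO c' hc' hne
  · rw [dv_rep hF, h.interW hc, hdv]
    abel
  · ext e
    simp only [Finset.mem_sdiff, Finset.mem_inter, Finset.mem_union]
    have h3 : e ∈ F → e ∈ c.edges := fun h => hF h
    tauto

/-- the inequality for a state -/
theorem PW.val1 (h : PW X P D j S M A CL U PL pl mi) {Z : Finset (Sym2 ℕ)} (hZ : Z ∈ D) (hZU : Z ⊆ Ucl U)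
    (hL : Wt X P D j Z L) {d : ℕ → ℤ} {τ : Finset (Sym2 ℕ)} (hR : RS A U PL L d τ) : 1 ≤ ph X.V2 pl mi d := by
  obtain ⟨K, hK⟩ := hR
  have h1 := h.witA Z hZ hZU L hL.mem hL.cov hL.uni K hK.au
  have e : dv K - dv (L ∩ (Ucl U ∪ PL)) = d := by rw [hK.dv, add_sub_cancel_left]
  rwa [e] at h1

/-- **the end**: even changes cost nothing -/
theorem PW.fin (h : PW X P D j S M A CL U PL pl mi) {Z : Finset (Sym2 ℕ)} (hZ : Z ∈ D) (hZU : Z ⊆ Ucl U)
    (hL : Wt X P D j Z L) {r s : ℕ} (hrs : r ≠ s) (hr : mi r) (hs : mi s) {α β : ℤ} (hα : α = 0 ∨ α = 2)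
    (hβ : β = 0 ∨ β = 2) {κ : ℕ → ℤ} (hκ : NP pl mi κ) {τ : Finset (Sym2 ℕ)}
    (hR : RS A U PL L (Pi.single r α + Pi.single s β + κ) τ) : False := by
  have h1 := h.val1 hZ hZU hL hR
  have h2 : ph X.V2 pl mi (Pi.single r α + Pi.single s β + κ) ≤ 0 := by
    unfold ph
    refine Finset.sum_nonpos fun v _ => ?_
    obtain ⟨k1, k2, k3⟩ := hκ v
    rw [Pi.add_apply, Pi.add_apply, sgl, sgl]
    have key : ∀ a : ℤ, a = 0 ∨ a = 2 → (a = 2 → mi v) → con (pl v) (mi v) (a + κ v) ≤ 0 := by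
      intro a ha hm
      rcases ha with rfl | rfl
      · rw [zero_add]
        exact con_np k1 k2 k3
      · have hv := hm rfl
        obtain ⟨b, hb⟩ := k2
        by_cases hk : κ v = 0
        · rw [hk]
          unfold con
          split_ifs
          · norm_num
          · norm_num
        · have h4 := k3 hk
          have hp : pl v := by
            by_contra hp
            exact h4 ⟨hv, hp⟩
          rw [con_Z hp hv]
          omega
    by_cases e1 : v = r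
    · subst e1
      rw [if_pos rfl, if_neg hrs, add_zero]
      exact key α hα fun _ => hr
    · by_cases e2 : v = s
      · subst e2
        rw [if_neg e1, if_pos rfl, zero_add]
        exact key β hβ fun _ => hs
      · rw [if_neg e1, if_neg e2, add_zero]
        exact key 0 (Or.inl rfl) fun h => by norm_num at h
  omega

end

end Pool.Agent.PF4.XT

end
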