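import Pool.Agent.PFM.M11

section -- file PF4/X5C

/-!
Near covers are allowed in every frame (capped family or square-free family).
-/

set_option autoImplicit false

namespace Pool.Agent.PF4.XT

open Finset Pool.Agent.TFC Pool.Agent.PF4 Pool.Agent.PF4.XF Pool.Agent.PF4.XU

/-- opposite corners of a square are not adjacent in it -/
theorem sq_diag {a b c d : ℕ} (h : Dist4 a b c d) : s(a, c) ∉ TFC.sq a b c d := by
  obtain ⟨ab, ac, ad, bc, bd, cd⟩ := h
  simp only [TFC.sq, mem_insert, mem_singleton, Sym2.eq_iff]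
  rintro ((⟨_, h⟩ | ⟨h, _⟩) | (⟨h, _⟩ | ⟨h, _⟩) | (⟨h, _⟩ | ⟨h, _⟩) | (⟨h, _⟩ | ⟨_, h⟩))
  · exact bc h.symm
  · exact ab h
  · exact ab h
  · exact ac h
  · exact ac h
  · exact ad h
  · exact ad h
  · exact cd h

/-- a harmful square has two opposite corners in `T` -/
theorem hs_pair {T : Finset ℕ} {x y q p : ℕ} (h : Hs T (TFC.sq x y q p)) :
    (x ∈ T ∧ q ∈ T) ∨ (y ∈ T ∧ p ∈ T) := by
  obtain ⟨a, b, c, d, h4, he, ha, hc⟩ := h
  have h5 := sq_diag h4
  rw [← he] at h5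
  have e1 : s(a, b) ∈ TFC.sq x y q p := by rw [he]; simp [TFC.sq]
  have e2 : s(c, d) ∈ TFC.sq x y q p := by rw [he]; simp [TFC.sq]
  have ka : a = x ∨ a = y ∨ a = q ∨ a = p := by
    simp only [TFC.sq, mem_insert, mem_singleton, Sym2.eq_iff] at e1
    tauto
  have kc : c = x ∨ c = y ∨ c = q ∨ c = p := by
    simp only [TFC.sq, mem_insert, mem_singleton, Sym2.eq_iff] at e2
    tauto
  have hac := h4.2.1
  have m : ∀ u v : ℕ, s(u, v) ∉ TFC.sq x y q p → s(v, u) ∉ TFC.sq x y q p := fun u v h => by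
    rwa [Sym2.eq_swap]
  rcases ka with rfl | rfl | rfl | rfl <;> rcases kc with rfl | rfl | rfl | rfl
  · exact absurd rfl hac
  · exact absurd (by simp [TFC.sq]) h5
  · exact Or.inl ⟨ha, hc⟩
  · exact absurd (by simp [TFC.sq]) (m _ _ h5)
  · exact absurd (by simp [TFC.sq]) (m _ _ h5)
  · exact absurd rfl hac
  · exact absurd (by simp [TFC.sq]) h5
  · exact Or.inr ⟨ha, hc⟩
  · exact Or.inl ⟨hc, ha⟩
  · exact absurd (by simp [TFC.sq]) (m _ _ h5)
  · exact absurd rfl hac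
  · exact absurd (by simp [TFC.sq]) h5
  · exact absurd (by simp [TFC.sq]) h5
  · exact Or.inr ⟨hc, ha⟩
  · exact absurd (by simp [TFC.sq]) (m _ _ h5)
  · exact absurd rfl hac

section
variable {X : XD} {P : ℕ → Finset (Sym2 ℕ) → Prop} {D : Finset (Finset (Sym2 ℕ))} {j m : ℕ} {S : Finset ℕ}
  {M : ℕ → Finset (Sym2 ℕ)} {CL : List (Clu ℕ)}

/-- every square in a `K2` cluster is harmful -/
theorem OW.k2_hs (h : OW X P D j m S M) (hc : Cls D CL) {u v : ℕ} {L : Finset ℕ} (h0 : Clu.k2 u v L ∈ CL)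
    {Z : Finset (Sym2 ℕ)} (hZ : IsSq Z) (hs : Z ⊆ (Clu.k2 u v L).edges) : Hs X.T Z := by
  have hval : (Clu.k2 u v L).Valid := hc.val _ h0
  obtain ⟨uv, uL, vL, _⟩ : u ≠ v ∧ u ∉ L ∧ v ∉ L ∧ 2 ≤ #L := hc.val _ h0
  -- an edge at `u`
  obtain ⟨a, b, c, d, h4, rfl⟩ := hZ
  have key : ∃ w ∈ L, s(u, w) ∈ TFC.sq a b c d := by
    have e1 : s(a, b) ∈ (Clu.k2 u v L).edges := hs (by simp [TFC.sq])
    have e2 : s(b, c) ∈ (Clu.k2 u v L).edges := hs (by simp [TFC.sq])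
    have e3 : s(c, d) ∈ (Clu.k2 u v L).edges := hs (by simp [TFC.sq])
    have e4 : s(d, a) ∈ (Clu.k2 u v L).edges := hs (by simp [TFC.sq])
    rw [mem_k2] at e1 e2 e3 e4
    obtain ⟨ab, ac, ad, bc, bd, cd⟩ := h4
    rcases e1 with ⟨rfl | rfl, h1⟩ | ⟨rfl | rfl, h1⟩
    · exact ⟨b, h1, by simp [TFC.sq]⟩
    · rcases e2 with ⟨rfl | rfl, h2⟩ | ⟨rfl | rfl, h2⟩
      · exact absurd h1 uL
      · exact absurd h1 vL
      · exact ⟨b, h1, msw (show s(b, c) ∈ TFC.sq a b c d by simp [TFC.sq])⟩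
      · exact absurd rfl ac
    · exact ⟨a, h1, msw (show s(a, b) ∈ TFC.sq a b c d by simp [TFC.sq])⟩
    · rcases e4 with ⟨rfl | rfl, h2⟩ | ⟨rfl | rfl, h2⟩
      · exact ⟨a, h1, by simp [TFC.sq]⟩
      · exact absurd rfl bd
      · exact absurd h1 uL
      · exact absurd h1 vL
  obtain ⟨b', _, hb'⟩ := key
  obtain ⟨l, hl, hbL, hlb, hZe⟩ := k2_sq hval (Z := TFC.sq a b c d) ⟨a, b, c, d, h4, rfl⟩ hs hb'
  rw [hZe]
  have ne : ∀ w ∈ L, u ≠ w ∧ v ≠ w := fun w hw => ⟨fun e => uL (e ▸ hw), fun e => vL (e ▸ hw)⟩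
  have d4 : Dist4 u b' v l := ⟨(ne b' hbL).1, uv, (ne l hl).1, (ne b' hbL).2.symm, hlb.symm, (ne l hl).2⟩
  by_cases hT : u ∈ X.T ∧ v ∈ X.T
  · exact ⟨u, b', v, l, d4, rfl, hT.1, hT.2⟩
  · have lf : ∀ w ∈ L, w ∈ X.T := by
      intro w hw
      obtain ⟨Z', hZ', he', hs'⟩ := hc.edge_sq h0 (f := s(u, w)) (mem_k2.2 (Or.inl ⟨Or.inl rfl, hw⟩))
      obtain ⟨l', hl', _, hlw, rfl⟩ := k2_sq hval (h.isq hZ') hs' he'
      rcases hs_pair (h.blk.hs _ hZ').1 with h1 | h1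
      · exact absurd h1 hT
      · exact h1.1
    obtain ⟨n1, n2, n3, n4, n5, n6⟩ := d4
    exact ⟨b', v, l, u, ⟨n4, n5, Ne.symm n1, n6, Ne.symm n2, Ne.symm n3⟩, sq_rot _ _ _ _, lf _ hbL, lf _ hl⟩

/-- **near covers are allowed**, capped family -/
theorem OW.mcap (h : OW X P D j m S M) {w : ℕ} (hw : w ∈ S) (hT : w ∈ X.T) (E : Finset (Sym2 ℕ)) :
    Acap D (M w ∩ E) := by
  obtain ⟨h1, _, h3⟩ := h.nc w hw hT
  exact ⟨h1.m2.mono inter_subset_left, fun Z hZ hs => h3 Z (h.blk.hs Z hZ).1 (hs.trans inter_subset_left)⟩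

/-- **near covers are allowed**, square-free family on a `K2` cluster -/
theorem OW.msf (h : OW X P D j m S M) (hc : Cls D CL) {u v : ℕ} {L : Finset ℕ} (h0 : Clu.k2 u v L ∈ CL) {w : ℕ}
    (hw : w ∈ S) (hT : w ∈ X.T) : TFC.SqFree (M w ∩ (Clu.k2 u v L).edges) := by
  obtain ⟨h1, _, h3⟩ := h.nc w hw hT
  rw [sqFree_iff fun e he => k2_nl (hc.val _ h0) e (mem_inter.1 he).2]
  intro Z hZ hs
  exact h3 Z (OW.k2_hs h hc h0 hZ (hs.trans inter_subset_right)) (hs.trans inter_subset_left)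

end

end Pool.Agent.PF4.XT

end

section -- file PF4/X5D

/-!
Two squares `x y q p`, `x y r q`: the combinatorics of the move `F - yq + yr + rq`.
-/

set_option autoImplicit false

namespace Pool.Agent.PF4.XT

open Finset Pool.Agent.TFC Pool.Agent.PF4 Pool.Agent.PF4.XF Pool.Agent.PF4.XU

/-- the changed witness -/
def Gx (L : Finset (Sym2 ℕ)) (y q r : ℕ) : Finset (Sym2 ℕ) := (L \ {s(y, q)}) ∪ {s(y, r), s(r, q)}

/-- the data -/
structure Five (D : Finset (Finset (Sym2 ℕ))) (CL : List (Clu ℕ)) (c1 : Clu ℕ) (L : Finset (Sym2 ℕ))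
    (x y q p r : ℕ) : Prop where
  m2 : M2 L
  cls : Cls D CL
  isq : ∀ Z ∈ D, IsSq Z
  d4 : Dist4 x y q p
  rx : r ≠ x
  ry : r ≠ y
  rq : r ≠ q
  rp : r ≠ p
  sL : TFC.sq x y q p ⊆ L
  un : ∀ Z' ∈ D, Z' ⊆ L → Z' = TFC.sq x y q p
  c1m : c1 ∈ CL
  sc : TFC.sq x y q p ⊆ c1.edges

section
variable {D : Finset (Finset (Sym2 ℕ))} {CL : List (Clu ℕ)} {c1 : Clu ℕ} {L : Finset (Sym2 ℕ)} {x y q p r : ℕ}

theorem mem_Gx {e : Sym2 ℕ} : e ∈ Gx L y q r ↔ (e ∈ L ∧ e ≠ s(y, q)) ∨ e = s(y, r) ∨ e = s(r, q) := by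
  simp only [Gx, mem_union, mem_sdiff, mem_singleton, mem_insert]

theorem Five.sq (F : Five D CL c1 L x y q p r) : IsSq (TFC.sq x y q p) := ⟨x, y, q, p, F.d4, rfl⟩

theorem Five.aty (F : Five D CL c1 L x y q p r) {e : Sym2 ℕ} (he : e ∈ L) (hy : y ∈ e) : e ∈ TFC.sq x y q p :=
  sq_closed F.m2 F.sq F.sL (e := s(x, y)) (by simp [TFC.sq]) (y := y) (by simp) he hy

theorem Five.atq (F : Five D CL c1 L x y q p r) {e : Sym2 ℕ} (he : e ∈ L) (hq : q ∈ e) : e ∈ TFC.sq x y q p :=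
  sq_closed F.m2 F.sq F.sL (e := s(y, q)) (by simp [TFC.sq]) (y := q) (by simp) he hq

theorem Five.nr (F : Five D CL c1 L x y q p r) {e : Sym2 ℕ} (he : e ∈ TFC.sq x y q p) : r ∉ e := by
  have h1 := F.rx
  have h2 := F.ry
  have h3 := F.rq
  have h4 := F.rp
  simp only [TFC.sq, mem_insert, mem_singleton] at he
  rcases he with rfl | rfl | rfl | rfl <;> rw [Sym2.mem_iff] <;> tauto

theorem Five.yr (F : Five D CL c1 L x y q p r) : s(y, r) ∉ L := fun h => F.nr (F.aty h (by simp)) (by simp)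

theorem Five.rql (F : Five D CL c1 L x y q p r) : s(r, q) ∉ L := fun h => F.nr (F.atq h (by simp)) (by simp)

theorem Five.yqL (F : Five D CL c1 L x y q p r) : s(y, q) ∈ L := F.sL (by simp [TFC.sq])

theorem Five.yq (F : Five D CL c1 L x y q p r) : y ≠ q := F.d4.2.2.2.1

theorem Five.nv (F : Five D CL c1 L x y q p r) : s(y, r) ≠ s(r, q) := by
  rw [ne_eq, Sym2.eq_iff]
  rintro (⟨h, _⟩ | ⟨h, _⟩)
  · exact F.ry h.symm
  · exact F.yq h

/-- in the other clusters there is no edge at `y` and at `q` -/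
theorem Five.ne (F : Five D CL c1 L x y q p r) {c : Clu ℕ} (hc : c ∈ CL) (hne : c ≠ c1) {e : Sym2 ℕ}
    (he : e ∈ L) (hec : e ∈ c.edges) : y ∉ e ∧ q ∉ e :=
  ⟨fun h => hne (F.cls.eq hc F.c1m hec (F.sc (F.aty he h))), fun h => hne (F.cls.eq hc F.c1m hec (F.sc (F.atq he h)))⟩

/-- at most one of the two new edges is in the cluster of the square -/
theorem Five.nb (F : Five D CL c1 L x y q p r) (h1 : s(y, r) ∈ c1.edges) (h2 : s(r, q) ∈ c1.edges) : False := by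
  obtain ⟨xy, xq, xp, yq, yp, qp⟩ := F.d4
  have r1 := F.rx
  have r2 := F.ry
  have r3 := F.rq
  have r4 := F.rp
  rcases shape (F.cls.val _ F.c1m) F.d4 F.sc with rfl | ⟨L', rfl | rfl, g1, g2, g3, g4⟩ |
    ⟨L', rfl | rfl, g1, g2, g3, g4⟩
  · rw [mem_k4] at h1
    simp only [mem_insert, mem_singleton] at h1
    tauto
  · rw [mem_k2] at h1
    rcases h1 with ⟨h | h, _⟩ | ⟨h | h, _⟩
    · exact xy h.symm
    · exact yq h
    · exact r1 h
    · exact r3 h
  · rw [mem_k2] at h1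
    rcases h1 with ⟨h | h, _⟩ | ⟨h | h, _⟩
    · exact yq h
    · exact xy h.symm
    · exact r3 h
    · exact r1 h
  · rw [mem_k2] at h2
    rcases h2 with ⟨h | h, _⟩ | ⟨h | h, _⟩
    · exact r2 h
    · exact r4 h
    · exact yq h.symm
    · exact qp h
  · rw [mem_k2] at h2
    rcases h2 with ⟨h | h, _⟩ | ⟨h | h, _⟩
    · exact r4 h
    · exact r2 h
    · exact qp h
    · exact yq h.symm

theorem Gx_eq (L : Finset (Sym2 ℕ)) (y q r : ℕ) :
    Gx L y q r = insert s(y, r) (insert s(r, q) (L.erase s(y, q))) := by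
  ext e
  rw [mem_Gx]
  simp only [mem_insert, mem_erase]
  tauto

theorem Five.dvG (F : Five D CL c1 L x y q p r) : dv (Gx L y q r) = dv L + ev r + ev r := by
  rw [Gx_eq, TFC.dv_insert (Ne.symm F.ry), TFC.dv_insert F.rq, TFC.dv_erase F.yq F.yqL]
  · abel
  · rw [mem_erase]; exact fun h => F.rql h.2
  · rw [mem_insert, mem_erase]
    rintro (h | h)
    · exact F.nv h
    · exact F.yr h.2

/-- new edges close no square -/
theorem Five.sqG (F : Five D CL c1 L x y q p r) {c : Clu ℕ} (hc : c ∈ CL) {Z : Finset (Sym2 ℕ)} (hZ : IsSq Z)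
    (hs : Z ⊆ Gx L y q r ∩ c.edges) : Z ⊆ L ∧ s(y, q) ∉ Z := by
  have hG : ∀ e ∈ Z, (e ∈ L ∧ e ≠ s(y, q)) ∨ e = s(y, r) ∨ e = s(r, q) := fun e he =>
    mem_Gx.1 (mem_inter.1 (hs he)).1
  have hcl : ∀ e ∈ Z, e ∈ c.edges := fun e he => (mem_inter.1 (hs he)).2
  -- two new edges in the cluster of the square
  have two : c = c1 → ∀ e ∈ Z, r ∈ e → False := by
    rintro rfl e he hr
    obtain ⟨f, hf, hfe, hrf⟩ := sq_two hZ he hr
    have k : ∀ g ∈ Z, r ∈ g → g = s(y, r) ∨ g = s(r, q) := by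
      intro g hg hrg
      rcases hG g hg with h | h
      · have h1 : L ∩ c.edges = TFC.sq x y q p := inter_eq (F.cls.val _ F.c1m) F.sq F.sc F.m2 F.sL
        have h2 : g ∈ L ∩ c.edges := mem_inter.2 ⟨h.1, hcl g hg⟩
        rw [h1] at h2
        exact absurd hrg (F.nr h2)
      · exact h
    rcases k e he hr with h | h <;> rcases k f hf hrf with h' | h'
    · exact hfe (h'.trans h.symm)
    · exact F.nb (h ▸ hcl e he) (h' ▸ hcl f hf)
    · exact F.nb (h' ▸ hcl f hf) (h ▸ hcl e he)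
    · exact hfe (h'.trans h.symm)
  have n1 : s(y, r) ∉ Z := by
    intro h
    obtain ⟨f, hf, hfe, hyf⟩ := sq_two hZ h (v := y) (by simp)
    rcases hG f hf with h1 | h1 | h1
    · by_cases hcc : c = c1
      · exact two hcc _ h (by simp)
      · exact (F.ne hc hcc h1.1 (hcl f hf)).1 hyf
    · exact hfe h1
    · rw [h1, Sym2.mem_iff] at hyf
      rcases hyf with h2 | h2
      · exact F.ry h2.symm
      · exact F.yq h2
  have n2 : s(r, q) ∉ Z := by
    intro h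
    obtain ⟨f, hf, hfe, hyf⟩ := sq_two hZ h (v := q) (by simp)
    rcases hG f hf with h1 | h1 | h1
    · by_cases hcc : c = c1
      · exact two hcc _ h (by simp)
      · exact (F.ne hc hcc h1.1 (hcl f hf)).2 hyf
    · rw [h1, Sym2.mem_iff] at hyf
      rcases hyf with h2 | h2
      · exact F.yq h2.symm
      · exact F.rq h2.symm
    · exact hfe h1
  constructor
  · intro e he
    rcases hG e he with h | h | h
    · exact h.1
    · exact absurd (h ▸ he) n1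
    · exact absurd (h ▸ he) n2
  · intro he
    rcases hG _ he with h | h | h
    · exact h.2 rfl
    · exact n1 (h ▸ he)
    · exact n2 (h ▸ he)

theorem Five.free (F : Five D CL c1 L x y q p r) {c : Clu ℕ} (hc : c ∈ CL) :
    ∀ Z ∈ D, ¬ Z ⊆ Gx L y q r ∩ c.edges := by
  intro Z hZ hs
  obtain ⟨h1, h2⟩ := F.sqG hc (F.isq Z hZ) hs
  rw [F.un Z hZ h1] at h2
  exact h2 (by simp [TFC.sq])

theorem Five.sf (F : Five D CL c1 L x y q p r) {c : Clu ℕ} (hc : c ∈ CL) (h : Sf (L ∩ c.edges)) :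
    Sf (Gx L y q r ∩ c.edges) := by
  intro Z hZ hs
  obtain ⟨h1, _⟩ := F.sqG hc hZ hs
  exact h Z hZ (subset_inter h1 (hs.trans inter_subset_right))

theorem Five.m2G (F : Five D CL c1 L x y q p r) {c : Clu ℕ} (hn : NoLoop c.edges)
    (h : dg (Gx L y q r ∩ c.edges) r ≤ 2) : M2 (Gx L y q r ∩ c.edges) := by
  refine ⟨hn.mono inter_subset_right, fun v => ?_⟩
  by_cases hv : v = r
  · rw [hv]; exact h
  · refine (dg_mono inter_subset_left v).trans ?_
    have h1 := congrFun F.dvG v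
    rw [Pi.add_apply, Pi.add_apply, ev_ne hv, dv_apply, dv_apply, add_zero, add_zero] at h1
    have h2 := F.m2.le v
    omega

theorem Five.cap (F : Five D CL c1 L x y q p r) {c : Clu ℕ} (hc : c ∈ CL) (hn : NoLoop c.edges)
    (h : dg (Gx L y q r ∩ c.edges) r ≤ 2) : Acap D (Gx L y q r ∩ c.edges) :=
  ⟨F.m2G hn h, F.free hc⟩

/-- at most one cluster is full -/
theorem Five.low (F : Five D CL c1 L x y q p r) {c c' : Clu ℕ} (hc : c ∈ CL) (hc' : c' ∈ CL) (hne : c' ≠ c)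
    (h : 3 ≤ dg (Gx L y q r ∩ c.edges) r) : dg (Gx L y q r ∩ c'.edges) r ≤ 1 := by
  have h1 : Disjoint (Gx L y q r ∩ c.edges) (Gx L y q r ∩ c'.edges) := by
    rw [Finset.disjoint_left]
    intro e he he'
    exact hne (F.cls.eq hc' hc (mem_inter.1 he').2 (mem_inter.1 he).2)
  have h2 := dg_union h1 r
  have h3 := dg_mono (union_subset (inter_subset_left (s₁ := Gx L y q r) (s₂ := c.edges))
    (inter_subset_left (s₁ := Gx L y q r) (s₂ := c'.edges))) r
  have h4 := congrFun F.dvG r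
  rw [Pi.add_apply, Pi.add_apply, ev_self, dv_apply, dv_apply] at h4
  have h5 := F.m2.le r
  omega

/-- the cluster of the square is not full -/
theorem Five.c1low (F : Five D CL c1 L x y q p r) : dg (Gx L y q r ∩ c1.edges) r ≤ 1 := by
  unfold dg
  rw [card_le_one]
  intro a ha b hb
  simp only [mem_filter, mem_inter] at ha hb
  have h1 : L ∩ c1.edges = TFC.sq x y q p := inter_eq (F.cls.val _ F.c1m) F.sq F.sc F.m2 F.sL
  have k : ∀ g, g ∈ Gx L y q r → g ∈ c1.edges → r ∈ g → g = s(y, r) ∨ g = s(r, q) := by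
    intro g hg hc hrg
    rcases mem_Gx.1 hg with h | h
    · have h2 : g ∈ L ∩ c1.edges := mem_inter.2 ⟨h.1, hc⟩
      rw [h1] at h2
      exact absurd hrg (F.nr h2)
    · exact h
  rcases k a ha.1.1 ha.1.2 ha.2 with h | h <;> rcases k b hb.1.1 hb.1.2 hb.2 with h' | h'
  · exact h.trans h'.symm
  · exact absurd (h' ▸ hb.1.2) fun h3 => F.nb (h ▸ ha.1.2) h3
  · exact absurd (h ▸ ha.1.2) fun h3 => F.nb (h' ▸ hb.1.2) h3
  · exact h.trans h'.symm

/-- a full cluster: two old edges or an old edge and both new ones -/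
theorem Five.full (F : Five D CL c1 L x y q p r) {c : Clu ℕ}
    (h : 3 ≤ dg (Gx L y q r ∩ c.edges) r) :
    (∃ b, s(r, b) ∈ L ∧ s(r, b) ∈ c.edges) ∧ (s(y, r) ∈ c.edges ∨ s(r, q) ∈ c.edges) := by
  constructor
  · by_contra hn
    push Not at hn
    have : {e ∈ Gx L y q r ∩ c.edges | r ∈ e} ⊆ {s(y, r), s(r, q)} := by
      intro e he
      simp only [mem_filter, mem_inter] at he
      rcases mem_Gx.1 he.1.1 with h1 | h1
      · obtain ⟨b, rfl⟩ := he.2
        exact absurd he.1.2 (hn b h1.1)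
      · simpa using h1
    have h2 := card_le_card this
    have h3 := card_le_two (a := s(y, r)) (b := s(r, q))
    unfold dg at h
    omega
  · by_contra hn
    push Not at hn
    have : {e ∈ Gx L y q r ∩ c.edges | r ∈ e} ⊆ {e ∈ L | r ∈ e} := by
      intro e he
      simp only [mem_filter, mem_inter] at he ⊢
      rcases mem_Gx.1 he.1.1 with h1 | h1 | h1
      · exact ⟨h1.1, he.2⟩
      · exact absurd (h1 ▸ he.1.2) hn.1
      · exact absurd (h1 ▸ he.1.2) hn.2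
    have h2 := card_le_card this
    have h3 := F.m2.le r
    unfold dg at h h3
    omega

end

end Pool.Agent.PF4.XT

end

section -- file PF4/X5E

/-!
Two squares `x y q p`, `x y r q`: the move in the phi frame.
-/

set_option autoImplicit false

namespace Pool.Agent.PF4.XT

open Finset Pool.Agent.TFC Pool.Agent.PF4 Pool.Agent.PF4.XF Pool.Agent.PF4.XU

theorem single_ev (v : ℕ) (c : ℤ) : (Pi.single v c : ℕ → ℤ) = c • ev v := by
  funext w
  rw [Pi.smul_apply, ev_apply, Pi.single_apply]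
  split_ifs <;> simp

/-- three vertices -/
theorem ph_thr5 {V : Finset ℕ} {pl mi : ℕ → Prop} {a b c : ℕ} (ha : a ∈ V) (hb : b ∈ V) (hc : c ∈ V)
    (ab : a ≠ b) (ac : a ≠ c) (bc : b ≠ c) (α β γ : ℤ) :
    ph V pl mi (Pi.single a α + Pi.single b β + Pi.single c γ) =
      con (pl a) (mi a) α + con (pl b) (mi b) β + con (pl c) (mi c) γ := by
  rw [ph_add hc, ph_two ha hb ab]
  rw [Pi.add_apply, Pi.single_apply, Pi.single_apply, if_neg (Ne.symm ac), if_neg (Ne.symm bc), add_zero]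

/-- four vertices -/
theorem ph_fou5 {V : Finset ℕ} {pl mi : ℕ → Prop} {a b c d : ℕ} (ha : a ∈ V) (hb : b ∈ V) (hc : c ∈ V)
    (hd : d ∈ V) (ab : a ≠ b) (ac : a ≠ c) (bc : b ≠ c) (ad : a ≠ d) (bd : b ≠ d) (cd : c ≠ d) (α β γ δ : ℤ) :
    ph V pl mi (Pi.single a α + Pi.single b β + Pi.single c γ + Pi.single d δ) =
      con (pl a) (mi a) α + con (pl b) (mi b) β + con (pl c) (mi c) γ + con (pl d) (mi d) δ := by
  rw [ph_add hd, ph_thr5 ha hb hc ab ac bc]
  rw [Pi.add_apply, Pi.add_apply, Pi.single_apply, Pi.single_apply, Pi.single_apply, if_neg (Ne.symm ad),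
    if_neg (Ne.symm bd), if_neg (Ne.symm cd), add_zero, add_zero]

section
variable {X : XD} {P : ℕ → Finset (Sym2 ℕ) → Prop} {D : Finset (Finset (Sym2 ℕ))} {j : ℕ} {S : Finset ℕ}
  {M : ℕ → Finset (Sym2 ℕ)} {A : Clu ℕ → Finset (Sym2 ℕ) → Prop} {CL U : List (Clu ℕ)} {PL : Finset (Sym2 ℕ)}
  {pl mi : ℕ → Prop} {c1 : Clu ℕ} {L : Finset (Sym2 ℕ)} {x y q p r : ℕ}

/-- no cluster is violated -/
theorem Five.all (F : Five D CL c1 L x y q p r) (h : PW X P D j S M A CL U PL pl mi) (hL : P j L) (hcv : Cv X L)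
    (hQ : TFC.sq x y q p ∈ D) (h1 : c1 ∈ U) (hyr : s(y, r) ∈ Ucl U ∪ PL) (hrq : s(r, q) ∈ Ucl U ∪ PL)
    (hA : ∀ c ∈ U, A c (Gx L y q r ∩ c.edges)) (hm : mi r) : False := by
  have hr : r ∈ X.V2 := h.ok.ev _ (h.w2 hyr) r (by simp)
  have hAU : AU A U PL (Gx L y q r ∩ (Ucl U ∪ PL)) := by
    refine ⟨inter_subset_right, fun c hc => ?_⟩
    rw [inter_assoc, inter_eq_right.2 (h.cW hc)]
    exact hA c hc
  have h2 := h.witA _ hQ (F.sc.trans (h.cU h1)) L hL hcv F.un _ hAU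
  have e : dv (Gx L y q r ∩ (Ucl U ∪ PL)) - dv (L ∩ (Ucl U ∪ PL)) = Pi.single r 2 := by
    have k1 := XT.dv_union (disjoint_sdiff_inter (Gx L y q r) (Ucl U ∪ PL))
    rw [Finset.sdiff_union_inter] at k1
    have k2 := XT.dv_union (disjoint_sdiff_inter L (Ucl U ∪ PL))
    rw [Finset.sdiff_union_inter] at k2
    have hyq : s(y, q) ∈ Ucl U ∪ PL := h.cW h1 (F.sc (by simp [TFC.sq]))
    have k3 : Gx L y q r \ (Ucl U ∪ PL) = L \ (Ucl U ∪ PL) := by
      ext e
      rw [mem_sdiff, mem_sdiff, mem_Gx]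
      constructor
      · rintro ⟨g1 | g1 | g1, g2⟩
        · exact ⟨g1.1, g2⟩
        · exact absurd (g1 ▸ hyr) g2
        · exact absurd (g1 ▸ hrq) g2
      · rintro ⟨g1, g2⟩
        exact ⟨Or.inl ⟨g1, fun h => g2 (h ▸ hyq)⟩, g2⟩
    rw [k3] at k1
    have k4 := F.dvG
    rw [single_ev]
    have k5 : dv (Gx L y q r ∩ (Ucl U ∪ PL)) = dv (Gx L y q r) - dv (L \ (Ucl U ∪ PL)) := by rw [k1]; abel
    have k6 : dv (L ∩ (Ucl U ∪ PL)) = dv L - dv (L \ (Ucl U ∪ PL)) := by rw [k2]; abel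
    rw [k5, k6, k4, two_smul]
    abel
  rw [e, ph_one hr] at h2
  unfold con at h2
  split_ifs at h2 <;> norm_num at h2

/-- **replace the part in the full cluster** -/
theorem Five.rep (F : Five D CL c1 L x y q p r) (h : PW X P D j S M A CL U PL pl mi) (hL : P j L) (hcv : Cv X L)
    (hQ : TFC.sq x y q p ∈ D) (h1 : c1 ∈ U) {c0 : Clu ℕ} (h0 : c0 ∈ U) (hA : ∀ c ∈ U, c ≠ c0 → A c = Acap D)
    (hf : 3 ≤ dg (Gx L y q r ∩ c0.edges) r) {B K0 : Finset (Sym2 ℕ)} (hB : B ⊆ {s(y, r), s(r, q)})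
    (hBW : B ⊆ Ucl U ∪ PL) (hBd : Disjoint B c0.edges) (hK0 : K0 ⊆ c0.edges) (hK0A : A c0 K0) :
    1 ≤ ph X.V2 pl mi (dv K0 - dv (L ∩ c0.edges) - ev y - ev q + dv B) := by
  have h01 : c0 ≠ c1 := by
    rintro rfl
    have := F.c1low
    omega
  have hyq1 : s(y, q) ∈ c1.edges := F.sc (by simp [TFC.sq])
  have hyq : s(y, q) ∈ Ucl U ∪ PL := h.cW h1 hyq1
  have hyq0 : s(y, q) ∉ c0.edges := fun h' => disjoint_left.1 (h.djc h0 h1 h01) h' hyq1
  have hBL : Disjoint B L := by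
    rw [disjoint_left]
    intro e he hl
    have := hB he
    simp only [mem_insert, mem_singleton] at this
    rcases this with rfl | rfl
    · exact F.yr hl
    · exact F.rql hl
  have hsub : ({s(y, q)} : Finset (Sym2 ℕ)) ⊆ L ∩ (Ucl U ∪ PL) := by
    rw [singleton_subset_iff]
    exact mem_inter.2 ⟨F.yqL, hyq⟩
  have hdv := dv_swap (L := L ∩ (Ucl U ∪ PL)) (A := {s(y, q)}) (B := B) hsub (hBL.mono_right inter_subset_left)
  set F0 : Finset (Sym2 ℕ) := ((L ∩ (Ucl U ∪ PL)) \ {s(y, q)}) ∪ B with hF0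
  have hF0W : F0 ⊆ Ucl U ∪ PL := union_subset (sdiff_subset.trans inter_subset_right) hBW
  have hF0G : F0 ⊆ Gx L y q r := by
    intro e he
    rw [mem_Gx]
    rcases mem_union.1 he with g | g
    · rw [mem_sdiff, mem_inter, mem_singleton] at g
      exact Or.inl ⟨g.1.1, g.2⟩
    · have := hB g
      simp only [mem_insert, mem_singleton] at this
      exact Or.inr this
  have hF0c : F0 ∩ c0.edges = L ∩ c0.edges := by
    ext e
    simp only [hF0, mem_inter, mem_union, mem_sdiff, mem_singleton]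
    constructor
    · rintro ⟨g | g, g2⟩
      · exact ⟨g.1.1, g2⟩
      · exact absurd g2 (disjoint_left.1 hBd g)
    · rintro ⟨g1, g2⟩
      have g3 := h.cW h0 g2
      rw [mem_union] at g3
      exact ⟨Or.inl ⟨⟨g1, g3⟩, fun h' => hyq0 (h' ▸ g2)⟩, g2⟩
  have hAU := AU_rep h h0 hF0W hK0 hK0A (by
    intro c hc hcc
    rw [hA c hc hcc]
    have hcap := F.cap ((h.uc c).1 hc).1 (h.nl (h.cW hc))
      ((F.low ((h.uc c0).1 h0).1 ((h.uc c).1 hc).1 hcc hf).trans (by norm_num))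
    have hsub : F0 ∩ c.edges ⊆ Gx L y q r ∩ c.edges := inter_subset_inter hF0G le_rfl
    exact ⟨hcap.1.mono hsub, fun Z hZ hs => hcap.2 Z hZ (hs.trans hsub)⟩)
  have h2 := h.witA _ hQ (F.sc.trans (h.cU h1)) L hL hcv F.un _ hAU
  rw [dv_rep hK0, hF0c, hdv, XT.dv_pair F.yq] at h2
  have e : dv (L ∩ (Ucl U ∪ PL)) - (Pi.single y 1 + Pi.single q 1) + dv B - dv (L ∩ c0.edges) + dv K0 -
      dv (L ∩ (Ucl U ∪ PL)) = dv K0 - dv (L ∩ c0.edges) - ev y - ev q + dv B := by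
    show dv (L ∩ (Ucl U ∪ PL)) - (ev y + ev q) + dv B - dv (L ∩ c0.edges) + dv K0 - dv (L ∩ (Ucl U ∪ PL)) = _
    abel
  rw [e] at h2
  exact h2

/-- the full cluster is a `K4` -/
theorem Five.k4 (F : Five D CL c1 L x y q p r) (h : PW X P D j S M (fun _ => Acap D) CL U PL pl mi) (hL : P j L)
    (hcv : Cv X L) (hQ : TFC.sq x y q p ∈ D) (h1 : c1 ∈ U) (hyr : s(y, r) ∈ Ucl U ∪ PL)
    (hrq : s(r, q) ∈ Ucl U ∪ PL) {Y : Finset ℕ} (h0 : Clu.k4 Y ∈ U)
    (hf : 3 ≤ dg (Gx L y q r ∩ (Clu.k4 Y).edges) r) : False := by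
  obtain ⟨⟨b, hbL, hbc⟩, _⟩ := F.full hf
  have h01 : Clu.k4 Y ≠ c1 := by
    intro e
    rw [e] at hf
    have := F.c1low
    omega
  have hyq1 : s(y, q) ∈ c1.edges := F.sc (by simp [TFC.sq])
  have hyq0 : s(y, q) ∉ (Clu.k4 Y).edges := fun h' => disjoint_left.1 (h.djc h0 h1 h01) h' hyq1
  have hrb : r ≠ b := F.m2.nl.ne hbL
  have hn : NoLoop (Clu.k4 Y).edges := h.nl (h.cW h0)
  have hrbG : s(r, b) ∈ Gx L y q r ∩ (Clu.k4 Y).edges := by
    refine mem_inter.2 ⟨mem_Gx.2 (Or.inl ⟨hbL, fun h' => hyq0 (h' ▸ hbc)⟩), hbc⟩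
  -- at most three edges
  have h3 : dg (Gx L y q r ∩ (Clu.k4 Y).edges) r ≤ 3 := by
    by_cases hy : s(y, r) ∈ (Clu.k4 Y).edges
    · have hq : s(r, q) ∉ (Clu.k4 Y).edges := by
        intro hq
        rw [mem_k4] at hy hq
        exact hyq0 (mem_k4.2 ⟨hy.1, hq.2.1, F.yq⟩)
      have : {e ∈ Gx L y q r ∩ (Clu.k4 Y).edges | r ∈ e} ⊆ insert s(y, r) {e ∈ L | r ∈ e} := by
        intro e he
        simp only [mem_filter, mem_inter, mem_insert] at he ⊢
        rcases mem_Gx.1 he.1.1 with g | g | g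
        · exact Or.inr ⟨g.1, he.2⟩
        · exact Or.inl g
        · exact absurd (g ▸ he.1.2) hq
      have h2 := (card_le_card this).trans (card_insert_le _ _)
      have h3 := F.m2.le r
      unfold dg at h3 ⊢
      omega
    · have : {e ∈ Gx L y q r ∩ (Clu.k4 Y).edges | r ∈ e} ⊆ insert s(r, q) {e ∈ L | r ∈ e} := by
        intro e he
        simp only [mem_filter, mem_inter, mem_insert] at he ⊢
        rcases mem_Gx.1 he.1.1 with g | g | g
        · exact Or.inr ⟨g.1, he.2⟩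
        · exact absurd (g ▸ he.1.2) hy
        · exact Or.inl g
      have h2 := (card_le_card this).trans (card_insert_le _ _)
      have h3 := F.m2.le r
      unfold dg at h3 ⊢
      omega
  have hdr := dg_erase hrbG r
  rw [if_pos (by simp)] at hdr
  have h5 := F.rep h hL hcv hQ h1 h0 (fun _ _ _ => rfl) hf
    (B := {s(y, r), s(r, q)} \ (Clu.k4 Y).edges) (K0 := (Gx L y q r ∩ (Clu.k4 Y).edges).erase s(r, b))
    sdiff_subset (by
      intro e he
      rw [mem_sdiff, mem_insert, mem_singleton] at he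
      rcases he.1 with rfl | rfl
      · exact hyr
      · exact hrq) disjoint_sdiff_self_left
    ((erase_subset _ _).trans inter_subset_right) (by
      refine ⟨⟨hn.mono ((erase_subset _ _).trans inter_subset_right), fun v => ?_⟩, fun Z hZ hs =>
        F.free ((h.uc _).1 h0).1 Z hZ (hs.trans (erase_subset _ _))⟩
      by_cases hv : v = r
      · rw [hv]; omega
      · refine (dg_mono ((erase_subset _ _).trans inter_subset_left) v).trans ?_
        have g1 := congrFun F.dvG v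
        rw [Pi.add_apply, Pi.add_apply, ev_ne hv, dv_apply, dv_apply, add_zero, add_zero] at g1
        have g2 := F.m2.le v
        omega)
  have e : dv ((Gx L y q r ∩ (Clu.k4 Y).edges).erase s(r, b)) - dv (L ∩ (Clu.k4 Y).edges) - ev y - ev q +
      dv ({s(y, r), s(r, q)} \ (Clu.k4 Y).edges) = Pi.single r 1 + Pi.single b (-1) := by
    have g1 : Gx L y q r ∩ (Clu.k4 Y).edges = (L ∩ (Clu.k4 Y).edges) ∪ ({s(y, r), s(r, q)} ∩ (Clu.k4 Y).edges) := by
      ext e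
      simp only [mem_inter, mem_Gx, mem_union, mem_insert, mem_singleton]
      constructor
      · rintro ⟨g | g, g2⟩
        · exact Or.inl ⟨g.1, g2⟩
        · exact Or.inr ⟨g, g2⟩
      · rintro (⟨g, g2⟩ | ⟨g, g2⟩)
        · exact ⟨Or.inl ⟨g, fun h' => hyq0 (h' ▸ g2)⟩, g2⟩
        · exact ⟨Or.inr g, g2⟩
    have g2 : Disjoint (L ∩ (Clu.k4 Y).edges) ({s(y, r), s(r, q)} ∩ (Clu.k4 Y).edges) := by
      rw [disjoint_left]
      intro e he he'
      simp only [mem_inter, mem_insert, mem_singleton] at he he'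
      rcases he'.1 with rfl | rfl
      · exact F.yr he.1
      · exact F.rql he.1
    have g3 := XT.dv_union (disjoint_sdiff_inter ({s(y, r), s(r, q)} : Finset (Sym2 ℕ)) (Clu.k4 Y).edges)
    rw [Finset.sdiff_union_inter] at g3
    have g4 : dv ({s(y, r), s(r, q)} : Finset (Sym2 ℕ)) = ev y + ev r + ev r + ev q := by
      rw [TFC.dv_insert (Ne.symm F.ry) (by rw [mem_singleton]; exact F.nv), XT.dv_pair F.rq]
      show ev r + ev q + ev y + ev r = _
      abel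
    rw [TFC.dv_erase hrb hrbG, g1, XT.dv_union g2, single_ev, single_ev]
    have g5 : dv ({s(y, r), s(r, q)} \ (Clu.k4 Y).edges) =
        ev y + ev r + ev r + ev q - dv ({s(y, r), s(r, q)} ∩ (Clu.k4 Y).edges) := by
      rw [← g4, g3]; abel
    rw [g5, one_smul, neg_one_smul]
    abel
  have hrY : r ∈ Y := (mem_k4.1 hbc).1
  have hX := h.k4X h0 (fun _ _ _ => rfl) rfl hrY
  rw [e, ph_two (h.v2 h0 hbc (by simp)) (h.v2 h0 hbc (by simp)) hrb, con_X hX.2 hX.1] at h5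
  have := con_neg_one (pl b) (mi b)
  omega

end

end Pool.Agent.PF4.XT

end
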