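import Pool.Agent.PFM.M15
import Pool.Agent.PFM.M16

section -- file PF4/X5F

/-!
Two squares `x y q p`, `x y r q`: the full cluster is a `K2` cluster in which the witness contains a square.
-/

set_option autoImplicit false

namespace Pool.Agent.PF4.XT

open Finset Pool.Agent.TFC Pool.Agent.PF4 Pool.Agent.PF4.XF Pool.Agent.PF4.XU

theorem k2_comm (u v : ℕ) (L : Finset ℕ) : (Clu.k2 u v L).edges = (Clu.k2 v u L).edges := by
  simp only [Clu.edges]
  exact union_comm _ _

/-- small sets of edges of a `K2` cluster -/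
theorem acap_tw {D : Finset (Finset (Sym2 ℕ))} (hD : ∀ Z ∈ D, IsSq Z) {u v : ℕ} {L P Q : Finset ℕ} (uv : u ≠ v)
    (uL : u ∉ L) (vL : v ∉ L) (hP : P ⊆ L) (hQ : Q ⊆ L) (cP : #P ≤ 2) (cQ : #Q ≤ 2) (cI : #(P ∩ Q) ≤ 1) :
    Acap D (tw u v P Q) := by
  refine ⟨M2.of_dv (tw_nl (fun h => uL (hP h)) (fun h => vL (hQ h))) ?_, fun Z hZ =>
    (tw_free uv uL vL hP hQ).2 cI Z (hD Z hZ)⟩
  intro w
  rw [dv_tw uv uL vL hP hQ]
  have c1 : (#P : ℤ) ≤ 2 := by exact_mod_cast cP
  have c2 : (#Q : ℤ) ≤ 2 := by exact_mod_cast cQ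
  by_cases e1 : w = u
  · subst e1
    rw [if_neg (fun h => uL (hP h)), if_neg (fun h => uL (hQ h)), if_pos rfl, if_neg uv]
    linarith
  · by_cases e2 : w = v
    · subst e2
      rw [if_neg (fun h => vL (hP h)), if_neg (fun h => vL (hQ h)), if_neg e1, if_pos rfl]
      linarith
    · rw [if_neg e1, if_neg e2]
      split_ifs <;> norm_num

theorem ind_pair {a b : ℕ} (h : a ≠ b) (v : ℕ) :
    (if v ∈ ({a, b} : Finset ℕ) then (1 : ℤ) else 0) = ev a v + ev b v := by
  rw [ev_apply, ev_apply]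
  by_cases h1 : v = a
  · subst h1
    simp [h]
  · by_cases h2 : v = b
    · subst h2
      simp [h1]
    · simp [h1, h2]

theorem ind_one {a : ℕ} (v : ℕ) : (if v ∈ ({a} : Finset ℕ) then (1 : ℤ) else 0) = ev a v := by
  rw [ev_apply]
  simp only [mem_singleton]

/-- two leaves at each hub -/
theorem dv_tw22 {u v : ℕ} {L : Finset ℕ} (uv : u ≠ v) (uL : u ∉ L) (vL : v ∉ L) {a b c d : ℕ} (ab : a ≠ b)
    (cd : c ≠ d) (h1 : ({a, b} : Finset ℕ) ⊆ L) (h2 : ({c, d} : Finset ℕ) ⊆ L) :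
    dv (tw u v {a, b} {c, d}) = ev a + ev b + (ev c + ev d) + ((2 : ℤ) • ev u + (2 : ℤ) • ev v) := by
  funext w
  rw [dv_tw uv uL vL h1 h2, ind_pair ab, ind_pair cd, card_pair ab, card_pair cd]
  simp only [Pi.add_apply, Pi.smul_apply, ev_apply, smul_eq_mul]
  congr 1
  split_ifs <;> norm_num

/-- one leaf at the first hub, two leaves at the second hub -/
theorem dv_tw12 {u v : ℕ} {L : Finset ℕ} (uv : u ≠ v) (uL : u ∉ L) (vL : v ∉ L) {a c d : ℕ}
    (cd : c ≠ d) (h1 : ({a} : Finset ℕ) ⊆ L) (h2 : ({c, d} : Finset ℕ) ⊆ L) :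
    dv (tw u v {a} {c, d}) = ev a + (ev c + ev d) + (ev u + (2 : ℤ) • ev v) := by
  funext w
  rw [dv_tw uv uL vL h1 h2, ind_one, ind_pair cd, card_singleton, card_pair cd]
  simp only [Pi.add_apply, Pi.smul_apply, ev_apply, smul_eq_mul]
  congr 1
  split_ifs <;> norm_num

theorem card_inter_le {a b c : ℕ} (ab : a ≠ b) (bc : b ≠ c) : #(({a, b} : Finset ℕ) ∩ {a, c}) ≤ 1 := by
  have : ({a, b} : Finset ℕ) ∩ {a, c} ⊆ {a} := by
    intro w hw
    simp only [mem_inter, mem_insert, mem_singleton] at hw ⊢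
    rcases hw with ⟨rfl | rfl, h | h⟩
    · rfl
    · rfl
    · exact h
    · exact absurd h bc
  exact (card_le_card this).trans (card_singleton a).le

/-- a vertex that is not of type X -/
theorem con_notX {p m : Prop} (h : m → p) : con p m (-2) ≤ 0 := by
  unfold con
  split_ifs with h1 h2 h2
  · norm_num
  · norm_num
  · exact absurd (h h2) h1
  · norm_num

section
variable {X : XD} {P : ℕ → Finset (Sym2 ℕ) → Prop} {D : Finset (Finset (Sym2 ℕ))} {j : ℕ} {S : Finset ℕ}
  {M : ℕ → Finset (Sym2 ℕ)} {CL U : List (Clu ℕ)} {PL : Finset (Sym2 ℕ)}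
  {pl mi : ℕ → Prop} {c1 : Clu ℕ} {L : Finset (Sym2 ℕ)} {x y q p r : ℕ}

/-- the full cluster is a `K2` cluster with hubs `r`, `h`, in which the witness contains a square -/
theorem Five.hub (F : Five D CL c1 L x y q p r) (W : PW X P D j S M (fun _ => Acap D) CL U PL pl mi) (hL : P j L)
    (hcv : Cv X L) (hQ : TFC.sq x y q p ∈ D) (h1 : c1 ∈ U) (hyr : s(y, r) ∈ Ucl U ∪ PL)
    (hrq : s(r, q) ∈ Ucl U ∪ PL) {h : ℕ} {L0 : Finset ℕ} {c0 : Clu ℕ} (h0 : c0 ∈ U)
    (hc0 : c0 = Clu.k2 r h L0 ∨ c0 = Clu.k2 h r L0) (hf : 3 ≤ dg (Gx L y q r ∩ c0.edges) r)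
    (hS : ¬ Sf (L ∩ c0.edges)) : False := by
  have h01 : c0 ≠ c1 := by
    rintro rfl
    have := F.c1low
    omega
  have hE : c0.edges = (Clu.k2 r h L0).edges := by
    rcases hc0 with e | e
    · rw [e]
    · rw [e]; exact k2_comm _ _ _
  have hval : (Clu.k2 r h L0).Valid := by
    have := W.val h0
    rcases hc0 with rfl | rfl
    · exact this
    · obtain ⟨g1, g2, g3, g4⟩ : h ≠ r ∧ h ∉ L0 ∧ r ∉ L0 ∧ 2 ≤ #L0 := this
      exact ⟨g1.symm, g3, g2, g4⟩
  have hval' := hval
  obtain ⟨rh, rL, hL0, _⟩ : r ≠ h ∧ r ∉ L0 ∧ h ∉ L0 ∧ 2 ≤ #L0 := hval'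
  -- the square in the witness
  have hS' : ∃ Z, IsSq Z ∧ Z ⊆ L ∩ c0.edges := by
    by_contra hn
    push Not at hn
    exact hS hn
  obtain ⟨Z, hZ, hZs⟩ := hS'
  have hZL : L ∩ c0.edges = Z := inter_eq (W.val h0) hZ (hZs.trans inter_subset_right) F.m2 (hZs.trans inter_subset_left)
  obtain ⟨⟨b, hbL, hbc⟩, hnew⟩ := F.full hf
  have hbZ : s(r, b) ∈ Z := by rw [← hZL]; exact mem_inter.2 ⟨hbL, hbc⟩
  obtain ⟨c, hc, hb, hcb, hZe⟩ := k2_sq hval hZ (by
    rw [← hE]; exact hZs.trans inter_subset_right) hbZ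
  have hZD : Z ∉ D := by
    intro hD
    have g1 := F.un Z hD (hZs.trans inter_subset_left)
    refine h01 (W.cls.eq ((W.uc c0).1 h0).1 F.c1m hbc (F.sc ?_))
    rw [← g1]; exact hbZ
  have hsw : TFC.sq h b r c = TFC.sq r b h c := by
    rw [sq_rot, sq_rot, sq_ref, sq_rot, sq_rot, sq_rot]
  obtain ⟨e, he, heb, hec, hX, hbX, _⟩ : ∃ e ∈ L0, e ≠ b ∧ e ≠ c ∧ (mi e ∧ ¬ pl e) ∧ (mi b → pl b) ∧ (mi c → pl c) := by
    rcases hc0 with e0 | e0
    · rw [e0] at h0
      exact W.star h0 (fun _ _ => rfl) hb hc hcb.symm (by rw [← hZe]; exact hZD)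
    · rw [e0] at h0
      exact W.star h0 (fun _ _ => rfl) hb hc hcb.symm (by rw [hsw, ← hZe]; exact hZD)
  have hcZ : s(r, c) ∈ Z := by rw [hZe]; simp [TFC.sq, Sym2.eq_swap]
  have hZin : ∀ f ∈ Z, f ∈ L ∧ f ∈ c0.edges := fun f hf => by
    rw [← hZL] at hf; exact mem_inter.1 hf
  have yb : y ≠ b := by
    rintro rfl
    exact (F.ne ((W.uc c0).1 h0).1 h01 (hZin _ hbZ).1 (hZin _ hbZ).2).1 (by simp)
  have qb : q ≠ b := by
    rintro rfl
    exact (F.ne ((W.uc c0).1 h0).1 h01 (hZin _ hbZ).1 (hZin _ hbZ).2).2 (by simp)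
  have yc : y ≠ c := by
    rintro rfl
    exact (F.ne ((W.uc c0).1 h0).1 h01 (hZin _ hcZ).1 (hZin _ hcZ).2).1 (by simp)
  have qc : q ≠ c := by
    rintro rfl
    exact (F.ne ((W.uc c0).1 h0).1 h01 (hZin _ hcZ).1 (hZin _ hcZ).2).2 (by simp)
  have lf : ∀ w, s(r, w) ∈ c0.edges → w ∈ L0 := by
    intro w hw
    rw [hE, mem_k2] at hw
    rcases hw with ⟨_, g⟩ | ⟨_, g⟩
    · exact g
    · exact absurd g rL
  have fl : ∀ w ∈ L0, s(r, w) ∈ c0.edges := by
    intro w hw
    rw [hE, mem_k2]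
    exact Or.inl ⟨Or.inl rfl, hw⟩
  have v2 : ∀ w ∈ L0, w ∈ X.V2 := fun w hw => W.v2 h0 (fl w hw) (by simp)
  have vr : r ∈ X.V2 := W.v2 h0 (fl b hb) (by simp)
  have ne : ∀ w ∈ L0, r ≠ w := fun w hw e => rL (e ▸ hw)
  have ne' : ∀ w ∈ L0, h ≠ w := fun w hw e => hL0 (e ▸ hw)
  -- the general step
  have step : ∀ (P' Q' : Finset ℕ) (B : Finset (Sym2 ℕ)), P' ⊆ L0 → Q' ⊆ L0 → #P' ≤ 2 → #Q' ≤ 2 → #(P' ∩ Q') ≤ 1 →
      B ⊆ {s(y, r), s(r, q)} → Disjoint B c0.edges →
      1 ≤ ph X.V2 pl mi (dv (tw r h P' Q') - dv (TFC.sq r b h c) - ev y - ev q + dv B) := by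
    intro P' Q' B g1 g2 g3 g4 g5 g6 g7
    have g8 := F.rep W hL hcv hQ h1 h0 (fun _ _ _ => rfl) hf g6 (fun f hf => by
      have := g6 hf
      rw [mem_insert, mem_singleton] at this
      rcases this with rfl | rfl
      · exact hyr
      · exact hrq) g7 (K0 := tw r h P' Q') (by rw [hE]; exact tw_sub g1 g2)
      (acap_tw W.isq rh rL hL0 g1 g2 g3 g4 g5)
    rw [hZL, hZe] at g8
    exact g8
  have d4 : Dist4 r b h c := ⟨ne b hb, rh, ne c hc, (ne' b hb).symm, hcb.symm, ne' c hc⟩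
  have dS := dv_sq d4
  have sub2 : ∀ a d : ℕ, a ∈ L0 → d ∈ L0 → ({a, d} : Finset ℕ) ⊆ L0 := by
    intro a d ha hd w hw
    simp only [mem_insert, mem_singleton] at hw
    rcases hw with rfl | rfl <;> assumption
  have sub1 : ∀ a : ℕ, a ∈ L0 → ({a} : Finset ℕ) ⊆ L0 := by
    intro a ha w hw
    rw [mem_singleton] at hw
    rw [hw]; exact ha
  have T1 := con_neg_one (pl c) (mi c)
  have T2 := con_notX hbX
  -- the key with a choice of the new leaf
  have key : ∀ t t' : ℕ, ((t = y ∧ t' = q) ∨ (t = q ∧ t' = y)) → s(r, t) ∈ c0.edges →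
      (e = t ∨ (e ≠ t ∧ e ≠ t')) → False := by
    intro t t' htt ht hcase
    have htL := lf t ht
    have httne : t ≠ t' := by
      rcases htt with ⟨rfl, rfl⟩ | ⟨rfl, rfl⟩
      · exact F.yq
      · exact F.yq.symm
    have tb : t ≠ b := by rcases htt with ⟨rfl, rfl⟩ | ⟨rfl, rfl⟩ <;> assumption
    have tc : t ≠ c := by rcases htt with ⟨rfl, rfl⟩ | ⟨rfl, rfl⟩ <;> assumption
    have t'b : t' ≠ b := by rcases htt with ⟨rfl, rfl⟩ | ⟨rfl, rfl⟩ <;> assumption
    have t'c : t' ≠ c := by rcases htt with ⟨rfl, rfl⟩ | ⟨rfl, rfl⟩ <;> assumption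
    have t'r : r ≠ t' := by
      rcases htt with ⟨_, rfl⟩ | ⟨_, rfl⟩
      · exact F.rq
      · exact F.ry
    have hev : ∀ f g : ℕ → ℤ, f - ev y - ev q + g = f - ev t - ev t' + g := by
      intro f g
      rcases htt with ⟨rfl, rfl⟩ | ⟨rfl, rfl⟩
      · rfl
      · abel
    have hB : ({s(r, t')} : Finset (Sym2 ℕ)) ⊆ {s(y, r), s(r, q)} := by
      rw [singleton_subset_iff, mem_insert, mem_singleton]
      rcases htt with ⟨_, rfl⟩ | ⟨_, rfl⟩
      · exact Or.inr rfl
      · exact Or.inl Sym2.eq_swap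
    rcases hcase with rfl | ⟨et, et'⟩
    · -- the centre is the new leaf
      have fin : Pi.single e 1 + Pi.single c (-1) + Pi.single b (-2) = (ev e - ev c - (2 : ℤ) • ev b : ℕ → ℤ) := by
        rw [single_ev, single_ev, single_ev]
        module
      by_cases hc0' : s(r, t') ∈ c0.edges
      · have ht'L := lf t' hc0'
        have g := step {e, t'} {e, c} ∅ (sub2 _ _ he ht'L) (sub2 _ _ he hc) card_le_two card_le_two
          (card_inter_le httne t'c) (by simp) (by simp)
        have e1 : dv (tw r h {e, t'} {e, c}) - dv (TFC.sq r b h c) - ev y - ev q + dv ∅ =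
            Pi.single e 1 + Pi.single c (-1) + Pi.single b (-2) := by
          rw [hev, dS, XT.dv_empty, fin, dv_tw22 rh rL hL0 httne hec (sub2 _ _ he ht'L) (sub2 _ _ he hc)]
          module
        rw [e1, ph_thr5 (v2 e he) (v2 c hc) (v2 b hb) hec heb hcb, con_X hX.2 hX.1] at g
        omega
      · have g := step {e} {e, c} {s(r, t')} (sub1 _ he) (sub2 _ _ he hc) (by simp) card_le_two
          (by refine (card_le_card inter_subset_left).trans (by simp)) hB (by
            rw [disjoint_singleton_left]; exact hc0')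
        have e1 : dv (tw r h {e} {e, c}) - dv (TFC.sq r b h c) - ev y - ev q + dv {s(r, t')} =
            Pi.single e 1 + Pi.single c (-1) + Pi.single b (-2) := by
          rw [hev, dS, XT.dv_pair t'r, fin, dv_tw12 rh rL hL0 hec (sub1 _ he) (sub2 _ _ he hc), single_ev, single_ev]
          module
        rw [e1, ph_thr5 (v2 e he) (v2 c hc) (v2 b hb) hec heb hcb, con_X hX.2 hX.1] at g
        omega
    · have T3 := con_one (pl r) (mi r)
      by_cases hc0' : s(r, t') ∈ c0.edges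
      · have ht'L := lf t' hc0'
        have g := step {e, t} {e, c} ∅ (sub2 _ _ he htL) (sub2 _ _ he hc) card_le_two card_le_two
          (card_inter_le et tc) (by simp) (by simp)
        have e1 : dv (tw r h {e, t} {e, c}) - dv (TFC.sq r b h c) - ev y - ev q + dv ∅ =
            Pi.single e 2 + Pi.single c (-1) + Pi.single b (-2) + Pi.single t' (-1) := by
          rw [hev, dS, XT.dv_empty, dv_tw22 rh rL hL0 et hec (sub2 _ _ he htL) (sub2 _ _ he hc), single_ev,
            single_ev, single_ev, single_ev]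
          module
        rw [e1, ph_fou5 (v2 e he) (v2 c hc) (v2 b hb) (v2 t' ht'L) hec heb hcb et' t'c.symm t'b.symm,
          con_X hX.2 hX.1] at g
        have T4 := con_neg_one (pl t') (mi t')
        omega
      · have g := step {e, t} {e, c} {s(r, t')} (sub2 _ _ he htL) (sub2 _ _ he hc) card_le_two card_le_two
          (card_inter_le et tc) hB (by rw [disjoint_singleton_left]; exact hc0')
        have e1 : dv (tw r h {e, t} {e, c}) - dv (TFC.sq r b h c) - ev y - ev q + dv {s(r, t')} =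
            Pi.single e 2 + Pi.single c (-1) + Pi.single b (-2) + Pi.single r 1 := by
          rw [hev, dS, XT.dv_pair t'r, dv_tw22 rh rL hL0 et hec (sub2 _ _ he htL) (sub2 _ _ he hc), single_ev,
            single_ev, single_ev, single_ev, single_ev]
          module
        rw [e1, ph_fou5 (v2 e he) (v2 c hc) (v2 b hb) vr hec heb hcb (ne e he).symm (ne c hc).symm (ne b hb).symm,
          con_X hX.2 hX.1] at g
        omega
  -- choice of the new leaf
  by_cases ey : e = y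
  · exact key y q (Or.inl ⟨rfl, rfl⟩) (ey ▸ fl e he) (Or.inl ey)
  · by_cases eq : e = q
    · exact key q y (Or.inr ⟨rfl, rfl⟩) (eq ▸ fl e he) (Or.inl eq)
    · rcases hnew with g | g
      · exact key y q (Or.inl ⟨rfl, rfl⟩) (by rw [Sym2.eq_swap]; exact g) (Or.inr ⟨ey, eq⟩)
      · exact key q y (Or.inr ⟨rfl, rfl⟩) g (Or.inr ⟨eq, ey⟩)

end

end Pool.Agent.PF4.XT

end

section -- file PF4/LM

/-!
# Local moves in one cluster
-/

set_option autoImplicit false

namespace Pool.Agent.PF4.LM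

open Finset Pool.Agent.TFC Pool.Agent.PF4 Pool.Agent.PF4.XF Pool.Agent.PF4.XU Pool.Agent.PF4.XT

/-! ### the form is subadditive -/

theorem con_add (p m : Prop) (a b : ℤ) : con p m (a + b) ≤ con p m a + con p m b := by
  unfold con
  split_ifs <;> omega

theorem ph_le (V : Finset ℕ) (pl mi : ℕ → Prop) (d e : ℕ → ℤ) :
    ph V pl mi (d + e) ≤ ph V pl mi d + ph V pl mi e := by
  unfold ph
  rw [← sum_add_distrib]
  exact sum_le_sum fun v _ => con_add _ _ _ _

/-- there is an allowed set in the cluster with the vector of `F` changed by `d`, up to a vector without cost -/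
def Mv (V : Finset ℕ) (pl mi : ℕ → Prop) (c : Clu ℕ) (Ac : Finset (Sym2 ℕ) → Prop) (F : Finset (Sym2 ℕ))
    (d : ℕ → ℤ) : Prop := ∃ K ⊆ c.edges, Ac K ∧ ∃ z, ph V pl mi z ≤ 0 ∧ dv K = dv F + d + z

/-- `c` has the hubs `r`, `h` and the leaves `L` -/
structure Hub (c : Clu ℕ) (r h : ℕ) (L : Finset ℕ) : Prop where
  val : (Clu.k2 r h L).Valid
  eq : c = Clu.k2 r h L ∨ c = Clu.k2 h r L

section
variable {c : Clu ℕ} {r h : ℕ} {L : Finset ℕ}

theorem Hub.edges (H : Hub c r h L) : c.edges = (Clu.k2 r h L).edges := by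
  rcases H.eq with e | e
  · rw [e]
  · rw [e]; exact k2_comm _ _ _

theorem Hub.rh (H : Hub c r h L) : r ≠ h := H.val.1
theorem Hub.rL (H : Hub c r h L) : r ∉ L := H.val.2.1
theorem Hub.hL (H : Hub c r h L) : h ∉ L := H.val.2.2.1

theorem Hub.symm (H : Hub c r h L) : Hub c h r L :=
  ⟨⟨H.rh.symm, H.hL, H.rL, H.val.2.2.2⟩, H.eq.symm⟩

theorem Hub.mem (H : Hub c r h L) {w : ℕ} : s(r, w) ∈ c.edges ↔ w ∈ L := by
  rw [H.edges, mem_k2]
  constructor
  · rintro (⟨_, g⟩ | ⟨_, g⟩)
    · exact g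
    · exact absurd g H.rL
  · exact fun g => Or.inl ⟨Or.inl rfl, g⟩

/-- an edge of a cluster with two hubs -/
theorem hub_edge (hc : c.Valid) (h2 : K2 c) {u v : ℕ} (he : s(u, v) ∈ c.edges) :
    (∃ h L, Hub c u h L ∧ v ∈ L) ∨ ∃ h L, Hub c v h L ∧ u ∈ L := by
  obtain ⟨a, b, L, rfl⟩ := h2
  have hv := hc
  obtain ⟨ab, aL, bL, hL⟩ : a ≠ b ∧ a ∉ L ∧ b ∉ L ∧ 2 ≤ #L := hv
  have hv' : (Clu.k2 b a L).Valid := ⟨ab.symm, bL, aL, hL⟩
  rcases mem_k2.1 he with ⟨rfl | rfl, g⟩ | ⟨rfl | rfl, g⟩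
  · exact Or.inl ⟨b, L, ⟨hc, Or.inl rfl⟩, g⟩
  · exact Or.inl ⟨a, L, ⟨hv', Or.inr rfl⟩, g⟩
  · exact Or.inr ⟨b, L, ⟨hc, Or.inl rfl⟩, g⟩
  · exact Or.inr ⟨a, L, ⟨hv', Or.inr rfl⟩, g⟩

/-- a 2-matching in the cluster which contains a square is this square -/
theorem Hub.sq (H : Hub c r h L) {F : Finset (Sym2 ℕ)} (hF : F ⊆ c.edges) (hM : M2 F) (hS : ¬ Sf F) :
    ∃ a b, a ∈ L ∧ b ∈ L ∧ a ≠ b ∧ F = TFC.sq r a h b := by
  have hS' : ∃ Z, IsSq Z ∧ Z ⊆ F := by
    by_contra hn
    push Not at hn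
    exact hS hn
  obtain ⟨Z, hZ, hZs⟩ := hS'
  have e1 : F = Z := by
    have := inter_eq H.val hZ (by rw [← H.edges]; exact hZs.trans hF) hM hZs
    rw [← this]
    symm
    rw [inter_eq_left, ← H.edges]
    exact hF
  -- an edge at `r`
  have key : ∃ a, s(r, a) ∈ Z := by
    have hZ2 := hZ
    obtain ⟨a, b, c', d, h4, rfl⟩ := hZ2
    have e1 : s(a, b) ∈ (Clu.k2 r h L).edges := by rw [← H.edges]; exact hF (hZs (by simp [TFC.sq]))
    have e2 : s(b, c') ∈ (Clu.k2 r h L).edges := by rw [← H.edges]; exact hF (hZs (by simp [TFC.sq]))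
    have e4 : s(d, a) ∈ (Clu.k2 r h L).edges := by rw [← H.edges]; exact hF (hZs (by simp [TFC.sq]))
    obtain ⟨ab, ac, ad, bc, bd, cd⟩ := h4
    rw [mem_k2] at e1 e2 e4
    rcases e1 with ⟨rfl | rfl, g1⟩ | ⟨rfl | rfl, g1⟩
    · exact ⟨b, by simp [TFC.sq]⟩
    · rcases e2 with ⟨rfl | rfl, g2⟩ | ⟨rfl | rfl, g2⟩
      · exact absurd g1 H.rL
      · exact absurd g1 H.hL
      · exact ⟨b, by simp [TFC.sq, Sym2.eq_swap]⟩
      · exact absurd rfl ac
    · exact ⟨a, by simp [TFC.sq, Sym2.eq_swap]⟩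
    · rcases e4 with ⟨rfl | rfl, g2⟩ | ⟨rfl | rfl, g2⟩
      · exact ⟨a, by simp [TFC.sq]⟩
      · exact absurd rfl bd
      · exact absurd g1 H.rL
      · exact absurd g1 H.hL
  obtain ⟨a, ha⟩ := key
  obtain ⟨b, hb, haL, hba, hZe⟩ := k2_sq H.val hZ (by rw [← H.edges]; exact hZs.trans hF) ha
  exact ⟨a, b, haL, hb, hba.symm, e1.trans hZe⟩

end

/-- the part `F` in the cluster `c` -/
structure Lo (D : Finset (Finset (Sym2 ℕ))) (c : Clu ℕ) (F : Finset (Sym2 ℕ)) (Ac : Finset (Sym2 ℕ) → Prop)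
    (V : Finset ℕ) : Prop where
  val : c.Valid
  isq : ∀ Z ∈ D, IsSq Z
  nl : NoLoop c.edges
  sub : F ⊆ c.edges
  m2 : M2 F
  fr : ∀ Z ∈ D, ¬ Z ⊆ F
  kd : ∀ Y, c = Clu.k4 Y → ∀ Z, IsSq Z → Z ⊆ c.edges → Z ∈ D
  a4 : ∀ Y, c = Clu.k4 Y → Ac = Acap D
  a2 : K2 c → Sf F → Ac = TFC.SqFree
  a2' : K2 c → ¬ Sf F → Ac = Acap D
  vV : ∀ e ∈ c.edges, ∀ v ∈ e, v ∈ V

/-- one of the two leaves is not of type X -/
def Vf (pl mi : ℕ → Prop) (c : Clu ℕ) (F : Finset (Sym2 ℕ)) (r : ℕ) : Prop :=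
  ∀ h L a b, Hub c r h L → a ∈ L → b ∈ L → a ≠ b → F = TFC.sq r a h b → (mi a → pl a) ∨ (mi b → pl b)

theorem dv_sq' {a b c d : ℕ} (h : Dist4 a b c d) :
    dv (TFC.sq a b c d) = (2 : ℤ) • ev a + (2 : ℤ) • ev b + (2 : ℤ) • ev c + (2 : ℤ) • ev d := by
  rw [dv_sq h]
  module

section
variable {D : Finset (Finset (Sym2 ℕ))} {c : Clu ℕ} {F : Finset (Sym2 ℕ)} {Ac : Finset (Sym2 ℕ) → Prop}
  {V : Finset ℕ} {pl mi : ℕ → Prop} {x y r s : ℕ}

/-- a pendant edge closes no square of the family -/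
theorem free_insert (hD : ∀ Z ∈ D, IsSq Z) {K : Finset (Sym2 ℕ)} (h : ∀ Z ∈ D, ¬ Z ⊆ K) {v : ℕ} {e : Sym2 ℕ}
    (hv : v ∈ e) (h0 : ∀ f ∈ K, v ∉ f) : ∀ Z ∈ D, ¬ Z ⊆ insert e K := by
  intro Z hZ hs
  by_cases he : e ∈ Z
  · obtain ⟨f, hf, hfe, hvf⟩ := sq_two (hD Z hZ) he hv
    rcases mem_insert.1 (hs hf) with h1 | h1
    · exact hfe h1
    · exact h0 f h1 hvf
  · exact h Z hZ ((subset_insert_iff_of_notMem he).1 hs)

theorem Lo.sqf (H : Lo D c F Ac V) {K : Finset (Sym2 ℕ)} (hK : K ⊆ c.edges) (h : Sf K) : TFC.SqFree K :=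
  (sqFree_iff (H.nl.mono hK)).2 h

/-- hubs have edges if `F` contains a square -/
theorem Lo.full (H : Lo D c F Ac V) {h : ℕ} {L : Finset ℕ} (hH : Hub c r h L) (hS : ¬ Sf F) : ∃ f ∈ F, r ∈ f := by
  obtain ⟨a, b, _, _, _, rfl⟩ := hH.sq H.sub H.m2 hS
  exact ⟨s(r, a), by simp [TFC.sq], by simp⟩

theorem dg_zero {K : Finset (Sym2 ℕ)} {v : ℕ} (h : ∀ f ∈ K, v ∉ f) : dg K v = 0 := by
  rw [dg, card_eq_zero, filter_eq_empty_iff]
  exact fun f hf hv => h f hf hv

theorem not_mem_of {K : Finset (Sym2 ℕ)} {u v : ℕ} (h : ∀ f ∈ K, u ∉ f) : s(u, v) ∉ K :=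
  fun hc => h _ hc (by simp)

/-- **(L1)** attach `x` to `r` -/
theorem Lo.L1 (H : Lo D c F Ac V) (hx : ∀ f ∈ F, x ∉ f) (he : s(x, r) ∈ c.edges) (hv : Vf pl mi c F r) :
    Mv V pl mi c Ac F (ev x + ev r) ∨ (Mv V pl mi c Ac F (ev x - ev r) ∧ dg F r = 2) := by
  have hxr : x ≠ r := H.nl.ne he
  have hni : s(x, r) ∉ F := not_mem_of hx
  have hins : insert s(x, r) F ⊆ c.edges := insert_subset he H.sub
  have hdv : dv (insert s(x, r) F) = dv F + (ev x + ev r) + 0 := by
    rw [TFC.dv_insert hxr hni]; module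
  have z0 : ph V pl mi 0 ≤ 0 := (ph_zero V pl mi).le
  cases hc : c with
  | k4 Y =>
    subst hc
    by_cases h1 : dg F r ≤ 1
    · left
      refine ⟨_, hins, ?_, 0, z0, hdv⟩
      rw [H.a4 Y rfl]
      refine ⟨M2.of_dv (H.nl.mono hins) ?_, free_insert H.isq H.fr (v := x) (by simp) hx⟩
      intro w
      rw [hdv]
      have g1 := H.m2.le w
      have g2 : dv F w = (dg F w : ℤ) := rfl
      simp only [Pi.add_apply, Pi.zero_apply, ev_apply]
      by_cases e1 : w = x
      · subst e1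
        rw [g2, dg_zero hx, if_pos rfl, if_neg hxr]
        norm_num
      · by_cases e2 : w = r
        · subst e2
          rw [g2, if_neg e1, if_pos rfl]
          have : (dg F w : ℤ) ≤ 1 := by exact_mod_cast h1
          linarith
        · rw [g2, if_neg e1, if_neg e2]
          have : (dg F w : ℤ) ≤ 2 := by exact_mod_cast g1
          linarith
    · right
      have h2 : dg F r = 2 := by have := H.m2.le r; omega
      refine ⟨?_, h2⟩
      obtain ⟨k, hk⟩ := exists_nbr (z := F) (v := r) (by omega)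
      have hrk : r ≠ k := H.m2.nl.ne hk
      have hxk : x ≠ k := by
        rintro rfl
        exact hx _ hk (by simp)
      have hke := H.sub hk
      have hxk' : s(x, k) ∈ (Clu.k4 Y).edges := mem_k4.2 ⟨(mem_k4.1 he).1, (mem_k4.1 hke).2.1, hxk⟩
      have hx' : ∀ f ∈ F.erase s(r, k), x ∉ f := fun f hf => hx f (mem_of_mem_erase hf)
      have hdv' : dv (insert s(x, k) (F.erase s(r, k))) = dv F + (ev x - ev r) + 0 := by
        rw [TFC.dv_insert hxk (not_mem_of hx'), TFC.dv_erase hrk hk]; module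
      have hK : insert s(x, k) (F.erase s(r, k)) ⊆ (Clu.k4 Y).edges :=
        insert_subset hxk' ((erase_subset _ _).trans H.sub)
      refine ⟨_, hK, ?_, 0, z0, hdv'⟩
      rw [H.a4 Y rfl]
      refine ⟨M2.of_dv (H.nl.mono hK) ?_, free_insert H.isq (fun Z hZ hs => H.fr Z hZ (hs.trans (erase_subset _ _)))
        (v := x) (by simp) hx'⟩
      intro w
      rw [hdv']
      have g1 := H.m2.le w
      have g2 : dv F w = (dg F w : ℤ) := rfl
      simp only [Pi.add_apply, Pi.sub_apply, Pi.zero_apply, ev_apply]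
      by_cases e1 : w = x
      · subst e1
        rw [g2, dg_zero hx, if_pos rfl, if_neg hxr]
        norm_num
      · rw [g2, if_neg e1]
        have : (dg F w : ℤ) ≤ 2 := by exact_mod_cast g1
        split_ifs <;> linarith
  | k2 u v L =>
    subst hc
    have hk2 : K2 (Clu.k2 u v L) := ⟨u, v, L, rfl⟩
    by_cases hS : Sf F
    · left
      refine ⟨_, hins, ?_, 0, z0, hdv⟩
      rw [H.a2 hk2 hS]
      exact H.sqf hins (hS.insert (v := x) (by simp) hx)
    · right
      rcases hub_edge H.val hk2 he with ⟨h, L', hH, hr⟩ | ⟨h, L', hH, hxL⟩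
      · obtain ⟨f, hf, hxf⟩ := H.full hH hS
        exact absurd hxf (hx f hf)
      · obtain ⟨a, b, ha, hb, hab, hF⟩ := hH.sq H.sub H.m2 hS
        have key : ∀ a b, a ∈ L' → b ∈ L' → a ≠ b → F = TFC.sq r a h b → (mi b → pl b) →
            Mv V pl mi (Clu.k2 u v L) Ac F (ev x - ev r) := by
          intro a b ha hb hab hF hnX
          have hxa : x ≠ a := by
            rintro rfl
            exact hx s(r, x) (by rw [hF]; simp [TFC.sq]) (by simp)
          have d4 : Dist4 r a h b := ⟨fun e => hH.rL (e ▸ ha), hH.rh, fun e => hH.rL (e ▸ hb),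
            fun e => hH.hL (e ▸ ha), hab, fun e => hH.hL (e ▸ hb)⟩
          have s1 : ({a} : Finset ℕ) ⊆ L' := singleton_subset_iff.2 ha
          have s2 : ({a, x} : Finset ℕ) ⊆ L' := insert_subset ha (singleton_subset_iff.2 hxL)
          refine ⟨tw r h {a} {a, x}, by rw [hH.edges]; exact tw_sub s1 s2, ?_, (-2 : ℤ) • ev b, ?_, ?_⟩
          · rw [H.a2' hk2 hS]
            refine acap_tw H.isq hH.rh hH.rL hH.hL s1 s2 (by simp) card_le_two ?_
            exact (card_le_card inter_subset_left).trans (by simp)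
          · rw [← single_ev, ph_one (H.vV s(r, b) (hH.mem.2 hb) b (by simp))]
            exact con_notX hnX
          · rw [dv_tw12 hH.rh hH.rL hH.hL hxa.symm s1 s2, hF, dv_sq' d4]
            module
        refine ⟨?_, ?_⟩
        · rcases hv h L' a b hH ha hb hab hF with g | g
          · refine key b a hb ha hab.symm ?_ g
            rw [hF, XT.sq_ref, XT.sq_rot, XT.sq_rot, XT.sq_rot]
          · exact key a b ha hb hab hF g
        · have g1 := H.m2.le r
          have g2 : 2 ≤ dg F r := dg_ge_two (a := a) (b := b) (by rw [hF]; simp [TFC.sq]) (by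
            rw [hF]; simp [TFC.sq, Sym2.eq_swap]) hab
          omega

end

end Pool.Agent.PF4.LM

end

section -- file PF4/LM2

/-!
# Local moves in one cluster: the link edge, two new edges
-/

set_option autoImplicit false

namespace Pool.Agent.PF4.LM

open Finset Pool.Agent.TFC Pool.Agent.PF4 Pool.Agent.PF4.XF Pool.Agent.PF4.XU Pool.Agent.PF4.XT

section
variable {D : Finset (Finset (Sym2 ℕ))} {c : Clu ℕ} {F : Finset (Sym2 ℕ)} {Ac : Finset (Sym2 ℕ) → Prop}
  {V : Finset ℕ} {pl mi : ℕ → Prop} {x y r s : ℕ}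

/-- the path that blocks `r s` -/
def Blk3 (c : Clu ℕ) (F : Finset (Sym2 ℕ)) (r s : ℕ) : Prop := K2 c ∧ Sf F ∧ ∃ a b, P3 F r a b s

theorem Lo.le (H : Lo D c F Ac V) (w : ℕ) : dv F w ≤ 2 := by
  rw [dv_apply]; exact_mod_cast H.m2.le w

theorem Lo.k4le (H : Lo D c F Ac V) {Y : Finset ℕ} (hc : c = Clu.k4 Y) : #F ≤ 3 := by
  have hv := H.val
  have hs := H.sub
  have hk := H.kd Y hc
  rw [hc] at hv hs
  exact k4_le hv (fun Z h1 h2 => hk Z h1 (by rw [hc]; exact h2)) hs ⟨H.m2, H.fr⟩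

theorem free_card' (hD : ∀ Z ∈ D, IsSq Z) {K : Finset (Sym2 ℕ)} (h : #K ≤ 3) : ∀ Z ∈ D, ¬ Z ⊆ K :=
  fun Z hZ => sf_of_card (by omega) Z (hD Z hZ)

/-- move one end of an edge: `a b` is replaced by `d b` -/
theorem swap_card {K : Finset (Sym2 ℕ)} {e f : Sym2 ℕ} (he : e ∈ K) : #(insert f (K.erase e)) ≤ #K := by
  refine (card_insert_le _ _).trans ?_
  rw [card_erase_of_mem he]
  have : 0 < #K := card_pos.2 ⟨e, he⟩
  omega

/-- **(L2)**, `K4`: `r` has two edges -/
theorem Lo.L2k (H : Lo D c F Ac V) {Y : Finset ℕ} (hc : c = Clu.k4 Y) (he : s(r, s) ∈ c.edges) (hn : s(r, s) ∉ F)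
    (hr : 2 ≤ dg F r) : Mv V pl mi c Ac F (ev s - ev r) := by
  have z0 : ph V pl mi 0 ≤ 0 := (ph_zero V pl mi).le
  have hrs : r ≠ s := H.nl.ne he
  have h3 := H.k4le hc
  subst hc
  obtain ⟨k, hk⟩ := exists_nbr (z := F) (v := r) (by omega)
  obtain ⟨k', hk'k, hk'⟩ := exists_nbr_ne hr k
  have hrk : r ≠ k := H.m2.nl.ne hk
  have hrk' : r ≠ k' := H.m2.nl.ne hk'
  have hsk : s ≠ k := by rintro rfl; exact hn hk
  have hsk' : s ≠ k' := by rintro rfl; exact hn hk'
  -- the general step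
  have key : ∀ k, s(r, k) ∈ F → s ≠ k → s(s, k) ∉ F → dg F s ≤ 1 → Mv V pl mi (Clu.k4 Y) Ac F (ev s - ev r) := by
    intro k hk hsk hnk hds
    have hrk : r ≠ k := H.m2.nl.ne hk
    have hke := H.sub hk
    have hske : s(s, k) ∈ (Clu.k4 Y).edges := mem_k4.2 ⟨(mem_k4.1 he).2.1, (mem_k4.1 hke).2.1, hsk⟩
    have hK : insert s(s, k) (F.erase s(r, k)) ⊆ (Clu.k4 Y).edges :=
      insert_subset hske ((erase_subset _ _).trans H.sub)
    have hdv' : dv (insert s(s, k) (F.erase s(r, k))) = dv F + (ev s - ev r) + 0 := by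
      rw [TFC.dv_insert hsk (fun h => hnk (mem_of_mem_erase h)), TFC.dv_erase hrk hk]; module
    refine ⟨_, hK, ?_, 0, z0, hdv'⟩
    rw [H.a4 Y rfl]
    refine ⟨M2.of_dv (H.nl.mono hK) ?_, free_card' H.isq ((swap_card hk).trans h3)⟩
    intro w
    rw [hdv']
    have g1 := H.le w
    simp only [Pi.add_apply, Pi.sub_apply, Pi.zero_apply, ev_apply]
    by_cases e1 : w = s
    · subst e1
      have : dv F w ≤ 1 := by rw [dv_apply]; exact_mod_cast hds
      rw [if_pos rfl, if_neg hrs.symm]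
      linarith
    · rw [if_neg e1]
      split_ifs <;> linarith
  by_cases h1 : s(s, k) ∈ F
  · have h2 : s(s, k') ∉ F := by
      intro h2
      -- four edges
      have : ({s(r, k), s(r, k'), s(s, k), s(s, k')} : Finset (Sym2 ℕ)) ⊆ F := by
        intro e he
        simp only [mem_insert, mem_singleton] at he
        rcases he with rfl | rfl | rfl | rfl <;> assumption
      have h5 := card_le_card this
      have h6 : #({s(r, k), s(r, k'), s(s, k), s(s, k')} : Finset (Sym2 ℕ)) = 4 := by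
        rw [card_insert_of_notMem, card_insert_of_notMem, card_insert_of_notMem, card_singleton]
        · rw [mem_singleton]
          intro h; exact hk'k (sym2_inj_left h).symm
        · simp only [mem_insert, mem_singleton, Sym2.eq_iff]
          rintro ((⟨g, _⟩ | ⟨g, _⟩) | (⟨g, _⟩ | ⟨g, _⟩))
          · exact hrs g
          · exact hrk g
          · exact hrs g
          · exact hrk' g
        · simp only [mem_insert, mem_singleton, Sym2.eq_iff]
          rintro ((⟨_, g⟩ | ⟨g, _⟩) | (⟨g, _⟩ | ⟨g, _⟩) | (⟨g, _⟩ | ⟨g, _⟩))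
          · exact hk'k g.symm
          · exact hrk' g
          · exact hrs g
          · exact hrk g
          · exact hrs g
          · exact hrk' g
      omega
    refine key k' hk' hsk' h2 ?_
    by_contra h4
    -- the edges at `s` are `sk` and `s w` with `w` the fourth vertex, which does not exist
    obtain ⟨w, hwk, hw⟩ := exists_nbr_ne (z := F) (v := s) (by omega) k
    have m1 := mem_k4.1 (H.sub hw)
    have m2 := mem_k4.1 (H.sub hk)
    have m3 := mem_k4.1 (H.sub hk')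
    have hwr : w ≠ r := by rintro rfl; exact hn (by rw [Sym2.eq_swap]; exact hw)
    have hwk' : w ≠ k' := by rintro rfl; exact h2 hw
    have h5 : ({s, w, r, k, k'} : Finset ℕ) ⊆ Y := by
      intro v hv
      simp only [mem_insert, mem_singleton] at hv
      rcases hv with rfl | rfl | rfl | rfl | rfl
      · exact m1.1
      · exact m1.2.1
      · exact m2.1
      · exact m2.2.1
      · exact m3.2.1
    have h6 := card_le_card h5
    have h7 : #({s, w, r, k, k'} : Finset ℕ) = 5 := by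
      rw [card_insert_of_notMem, card_insert_of_notMem, card_insert_of_notMem, card_insert_of_notMem, card_singleton]
      · rw [mem_singleton]; exact Ne.symm hk'k
      · simp only [mem_insert, mem_singleton, not_or]; exact ⟨hrk, hrk'⟩
      · simp only [mem_insert, mem_singleton, not_or]; exact ⟨hwr, hwk, hwk'⟩
      · simp only [mem_insert, mem_singleton, not_or]; exact ⟨m1.2.2, hrs.symm, hsk, hsk'⟩
    have h8 : #Y = 4 := H.val
    omega
  · refine key k hk hsk h1 ?_
    by_contra h4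
    obtain ⟨w, hwk, hw⟩ := exists_nbr_ne (z := F) (v := s) (by omega) k'
    have m1 := mem_k4.1 (H.sub hw)
    have m2 := mem_k4.1 (H.sub hk)
    have m3 := mem_k4.1 (H.sub hk')
    have hwr : w ≠ r := by rintro rfl; exact hn (by rw [Sym2.eq_swap]; exact hw)
    have hwk' : w ≠ k := by rintro rfl; exact h1 hw
    have h5 : ({s, w, r, k, k'} : Finset ℕ) ⊆ Y := by
      intro v hv
      simp only [mem_insert, mem_singleton] at hv
      rcases hv with rfl | rfl | rfl | rfl | rfl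
      · exact m1.1
      · exact m1.2.1
      · exact m2.1
      · exact m2.2.1
      · exact m3.2.1
    have h6 := card_le_card h5
    have h7 : #({s, w, r, k, k'} : Finset ℕ) = 5 := by
      rw [card_insert_of_notMem, card_insert_of_notMem, card_insert_of_notMem, card_insert_of_notMem, card_singleton]
      · rw [mem_singleton]; exact Ne.symm hk'k
      · simp only [mem_insert, mem_singleton, not_or]; exact ⟨hrk, hrk'⟩
      · simp only [mem_insert, mem_singleton, not_or]; exact ⟨hwr, hwk', hwk⟩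
      · simp only [mem_insert, mem_singleton, not_or]; exact ⟨m1.2.2, hrs.symm, hsk, hsk'⟩
    have h8 : #Y = 4 := H.val
    omega

/-- **(L2)** the link edge `r s` -/
theorem Lo.L2 (H : Lo D c F Ac V) (he : s(r, s) ∈ c.edges) (hn : s(r, s) ∉ F) (hvr : Vf pl mi c F r)
    (hvs : Vf pl mi c F s) :
    Mv V pl mi c Ac F (ev r + ev s) ∨ (Mv V pl mi c Ac F (ev r - ev s) ∧ 1 ≤ dg F s) ∨
      (Mv V pl mi c Ac F (ev s - ev r) ∧ 1 ≤ dg F r) ∨ Blk3 c F r s := by
  have hrs : r ≠ s := H.nl.ne he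
  have hins : insert s(r, s) F ⊆ c.edges := insert_subset he H.sub
  have hdv : dv (insert s(r, s) F) = dv F + (ev r + ev s) + 0 := by
    rw [TFC.dv_insert hrs hn]; module
  have z0 : ph V pl mi 0 ≤ 0 := (ph_zero V pl mi).le
  by_cases h4 : ∃ Y, c = Clu.k4 Y
  · obtain ⟨Y, hY⟩ := h4
    by_cases hr : 2 ≤ dg F r
    · exact Or.inr (Or.inr (Or.inl ⟨H.L2k hY he hn hr, by omega⟩))
    by_cases hs : 2 ≤ dg F s
    · exact Or.inr (Or.inl ⟨H.L2k hY (by rw [Sym2.eq_swap]; exact he) (by rw [Sym2.eq_swap]; exact hn) hs, by omega⟩)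
    have hcap : M2 (insert s(r, s) F) := by
      refine M2.of_dv (H.nl.mono hins) fun w => ?_
      rw [hdv]
      have g1 := H.le w
      simp only [Pi.add_apply, Pi.zero_apply, ev_apply]
      by_cases e1 : w = r
      · subst e1
        have : dv F w ≤ 1 := by rw [dv_apply]; exact_mod_cast (by omega : dg F w ≤ 1)
        rw [if_pos rfl, if_neg hrs]
        linarith
      · by_cases e2 : w = s
        · subst e2
          have : dv F w ≤ 1 := by rw [dv_apply]; exact_mod_cast (by omega : dg F w ≤ 1)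
          rw [if_neg e1, if_pos rfl]
          linarith
        · rw [if_neg e1, if_neg e2]
          linarith
    by_cases hf : ∀ Z ∈ D, ¬ Z ⊆ insert s(r, s) F
    · left
      refine ⟨_, hins, ?_, 0, z0, hdv⟩
      rw [H.a4 Y hY]
      exact ⟨hcap, hf⟩
    · right; left
      push Not at hf
      obtain ⟨Z, hZ, hZs⟩ := hf
      have hrZ : s(r, s) ∈ Z := by
        by_contra h'
        exact H.fr Z hZ ((subset_insert_iff_of_notMem h').1 hZs)
      obtain ⟨a, b, ⟨ra, rb, _, ab, as, bs⟩, hZe⟩ := sq_edge (H.isq Z hZ) hrZ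
      have hin : ∀ f ∈ Z, f ≠ s(r, s) → f ∈ F := fun f hf hne =>
        (mem_insert.1 (hZs hf)).resolve_left hne
      have f1 : s(r, a) ∈ F := hin _ (by rw [hZe]; simp [TFC.sq]) (fun h => as (sym2_inj_left h))
      have f2 : s(a, b) ∈ F := hin _ (by rw [hZe]; simp [TFC.sq]) (by
        rw [ne_eq, Sym2.eq_iff]
        rintro (⟨g, _⟩ | ⟨g, _⟩)
        · exact ra g.symm
        · exact as g)
      have f3 : s(s, b) ∈ F := hin _ (by rw [hZe]; simp [TFC.sq, Sym2.eq_swap]) (by
        rw [ne_eq, Sym2.eq_iff]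
        rintro (⟨g, _⟩ | ⟨_, g⟩)
        · exact hrs g.symm
        · exact rb g.symm)
      have h3 := H.k4le hY
      -- the triangle
      have hrb : s(r, b) ∉ F := fun h => hr (dg_ge_two f1 h ab)
      have hrbe : s(r, b) ∈ c.edges := by
        have e1 := H.sub f2
        have e2 := he
        rw [hY] at e1 e2 ⊢
        exact mem_k4.2 ⟨(mem_k4.1 e2).1, (mem_k4.1 e1).2.1, rb⟩
      have hK : insert s(r, b) (F.erase s(s, b)) ⊆ c.edges := insert_subset hrbe ((erase_subset _ _).trans H.sub)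
      have hdv' : dv (insert s(r, b) (F.erase s(s, b))) = dv F + (ev r - ev s) + 0 := by
        rw [TFC.dv_insert rb (fun h => hrb (mem_of_mem_erase h)), TFC.dv_erase bs.symm f3]; module
      refine ⟨⟨_, hK, ?_, 0, z0, hdv'⟩, dg_pos f3⟩
      rw [H.a4 Y hY]
      refine ⟨M2.of_dv (H.nl.mono hK) ?_, free_card' H.isq ((swap_card f3).trans h3)⟩
      intro w
      rw [hdv']
      have g1 := H.le w
      simp only [Pi.add_apply, Pi.sub_apply, Pi.zero_apply, ev_apply]
      by_cases e1 : w = r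
      · subst e1
        have : dv F w ≤ 1 := by rw [dv_apply]; exact_mod_cast (by omega : dg F w ≤ 1)
        rw [if_pos rfl, if_neg hrs]
        linarith
      · rw [if_neg e1]
        split_ifs <;> linarith
  · have hk2 : K2 c := by
      cases c with
      | k4 Y => exact absurd ⟨Y, rfl⟩ h4
      | k2 u v L => exact ⟨u, v, L, rfl⟩
    by_cases hS : Sf F
    · by_cases hS' : Sf (insert s(r, s) F)
      · left
        refine ⟨_, hins, ?_, 0, z0, hdv⟩
        rw [H.a2 hk2 hS]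
        exact H.sqf hins hS'
      · obtain ⟨a, b, g1, g2, g3, g4⟩ := nsq_insert hS hS'
        exact Or.inr (Or.inr (Or.inr ⟨hk2, hS, a, b, g1, g2, g3, g4⟩))
    · -- `F` is a square, `r` or `s` is a hub
      have key : ∀ r s h L', Hub c r h L' → s ∈ L' → s(r, s) ∉ F → Vf pl mi c F r → r ≠ s →
          Mv V pl mi c Ac F (ev s - ev r) ∧ 1 ≤ dg F r := by
        intro r s h L' hH hsL hn hvr hrs
        obtain ⟨a, b, ha, hb, hab, hF⟩ := hH.sq H.sub H.m2 hS
        have key : ∀ a b, a ∈ L' → b ∈ L' → a ≠ b → F = TFC.sq r a h b → (mi b → pl b) →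
            Mv V pl mi c Ac F (ev s - ev r) := by
          intro a b ha hb hab hF hnX
          have hsa : s ≠ a := by
            rintro rfl
            exact hn (by rw [hF]; simp [TFC.sq])
          have d4 : Dist4 r a h b := ⟨fun e => hH.rL (e ▸ ha), hH.rh, fun e => hH.rL (e ▸ hb),
            fun e => hH.hL (e ▸ ha), hab, fun e => hH.hL (e ▸ hb)⟩
          have s1 : ({a} : Finset ℕ) ⊆ L' := singleton_subset_iff.2 ha
          have s2 : ({a, s} : Finset ℕ) ⊆ L' := insert_subset ha (singleton_subset_iff.2 hsL)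
          refine ⟨tw r h {a} {a, s}, by rw [hH.edges]; exact tw_sub s1 s2, ?_, (-2 : ℤ) • ev b, ?_, ?_⟩
          · rw [H.a2' hk2 hS]
            refine acap_tw H.isq hH.rh hH.rL hH.hL s1 s2 (by simp) card_le_two ?_
            exact (card_le_card inter_subset_left).trans (by simp)
          · rw [← single_ev, ph_one (H.vV s(r, b) (hH.mem.2 hb) b (by simp))]
            exact con_notX hnX
          · rw [dv_tw12 hH.rh hH.rL hH.hL hsa.symm s1 s2, hF, dv_sq' d4]
            module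
        refine ⟨?_, ?_⟩
        · rcases hvr h L' a b hH ha hb hab hF with g | g
          · refine key b a hb ha hab.symm ?_ g
            rw [hF, XT.sq_ref, XT.sq_rot, XT.sq_rot, XT.sq_rot]
          · exact key a b ha hb hab hF g
        · exact dg_pos (a := a) (by rw [hF]; simp [TFC.sq])
      rcases hub_edge H.val hk2 he with ⟨h, L', hH, hsL⟩ | ⟨h, L', hH, hrL⟩
      · exact Or.inr (Or.inr (Or.inl (key r s h L' hH hsL hn hvr hrs)))
      · exact Or.inr (Or.inl (key s r h L' hH hrL (by rw [Sym2.eq_swap]; exact hn) hvs hrs.symm))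

/-- **(L3)** the edges `x r` and `r s` in one cluster -/
theorem Lo.L3 (H : Lo D c F Ac V) (hx : ∀ f ∈ F, x ∉ f) (he : s(x, r) ∈ c.edges) (he' : s(r, s) ∈ c.edges)
    (hn : s(r, s) ∉ F) (hxs : x ≠ s) (hvr : Vf pl mi c F r) :
    Mv V pl mi c Ac F (ev x + ev r + (ev r + ev s)) ∨ Mv V pl mi c Ac F (ev x + ev s) ∨ Blk3 c F r s := by
  have hrs : r ≠ s := H.nl.ne he'
  have hxr : x ≠ r := H.nl.ne he
  have z0 : ph V pl mi 0 ≤ 0 := (ph_zero V pl mi).le
  by_cases h4 : ∃ Y, c = Clu.k4 Y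
  · obtain ⟨Y, hY⟩ := h4
    right; left
    have hxse : s(x, s) ∈ c.edges := by
      rw [hY] at he he' ⊢
      exact mem_k4.2 ⟨(mem_k4.1 he).1, (mem_k4.1 he').2.1, hxs⟩
    have hni : s(x, s) ∉ F := not_mem_of hx
    have hins : insert s(x, s) F ⊆ c.edges := insert_subset hxse H.sub
    have hdv : dv (insert s(x, s) F) = dv F + (ev x + ev s) + 0 := by
      rw [TFC.dv_insert hxs hni]; module
    have hds : dg F s ≤ 1 := by
      by_contra hc
      obtain ⟨k, hk⟩ := exists_nbr (z := F) (v := s) (by omega)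
      obtain ⟨k', hk'k, hk'⟩ := exists_nbr_ne (z := F) (v := s) (by omega) k
      have m0 := he
      have m0' := he'
      have m1 := H.sub hk
      have m2 := H.sub hk'
      rw [hY] at m0 m0' m1 m2
      rw [mem_k4] at m0 m0' m1 m2
      have n1 : k ≠ x := by rintro rfl; exact hx _ hk (by simp)
      have n2 : k' ≠ x := by rintro rfl; exact hx _ hk' (by simp)
      have n3 : k ≠ r := by rintro rfl; exact hn (by rw [Sym2.eq_swap]; exact hk)
      have n4 : k' ≠ r := by rintro rfl; exact hn (by rw [Sym2.eq_swap]; exact hk')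
      have h5 : ({s, x, r, k, k'} : Finset ℕ) ⊆ Y := by
        intro v hv
        simp only [mem_insert, mem_singleton] at hv
        rcases hv with rfl | rfl | rfl | rfl | rfl
        · exact m1.1
        · exact m0.1
        · exact m0.2.1
        · exact m1.2.1
        · exact m2.2.1
      have h6 := card_le_card h5
      have h7 : #({s, x, r, k, k'} : Finset ℕ) = 5 := by
        rw [card_insert_of_notMem, card_insert_of_notMem, card_insert_of_notMem, card_insert_of_notMem, card_singleton]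
        · rw [mem_singleton]; exact Ne.symm hk'k
        · simp only [mem_insert, mem_singleton, not_or]; exact ⟨n3.symm, n4.symm⟩
        · simp only [mem_insert, mem_singleton, not_or]; exact ⟨hxr, n1.symm, n2.symm⟩
        · simp only [mem_insert, mem_singleton, not_or]; exact ⟨hxs.symm, hrs.symm, m1.2.2, m2.2.2⟩
      have h8 : #Y = 4 := by have := H.val; rw [hY] at this; exact this
      omega
    refine ⟨_, hins, ?_, 0, z0, hdv⟩
    rw [H.a4 Y hY]
    refine ⟨M2.of_dv (H.nl.mono hins) ?_, free_insert H.isq H.fr (v := x) (by simp) hx⟩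
    intro w
    rw [hdv]
    have g1 := H.le w
    simp only [Pi.add_apply, Pi.zero_apply, ev_apply]
    by_cases e1 : w = x
    · subst e1
      have : dv F w = 0 := by rw [dv_apply, dg_zero hx]; rfl
      rw [if_pos rfl, if_neg hxs]
      linarith
    · by_cases e2 : w = s
      · subst e2
        have : dv F w ≤ 1 := by rw [dv_apply]; exact_mod_cast hds
        rw [if_neg e1, if_pos rfl]
        linarith
      · rw [if_neg e1, if_neg e2]
        linarith
  · have hk2 : K2 c := by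
      cases c with
      | k4 Y => exact absurd ⟨Y, rfl⟩ h4
      | k2 u v L => exact ⟨u, v, L, rfl⟩
    by_cases hS : Sf F
    · by_cases hS' : Sf (insert s(r, s) F)
      · left
        have hx' : ∀ f ∈ insert s(r, s) F, x ∉ f := by
          intro f hf
          rcases mem_insert.1 hf with rfl | hf
          · rw [Sym2.mem_iff]; exact fun h => h.elim hxr hxs
          · exact hx f hf
        have hins : insert s(x, r) (insert s(r, s) F) ⊆ c.edges := insert_subset he (insert_subset he' H.sub)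
        refine ⟨_, hins, ?_, 0, z0, ?_⟩
        · rw [H.a2 hk2 hS]
          exact H.sqf hins (hS'.insert (v := x) (by simp) hx')
        · rw [TFC.dv_insert hxr (not_mem_of hx'), TFC.dv_insert hrs hn]; module
      · obtain ⟨a, b, g1, g2, g3, g4⟩ := nsq_insert hS hS'
        exact Or.inr (Or.inr ⟨hk2, hS, a, b, g1, g2, g3, g4⟩)
    · right; left
      rcases hub_edge H.val hk2 he with ⟨h, L', hH, hr⟩ | ⟨h, L', hH, hxL⟩
      · obtain ⟨f, hf, hxf⟩ := H.full hH hS
        exact absurd hxf (hx f hf)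
      · have hsL : s ∈ L' := hH.mem.1 he'
        obtain ⟨a, b, ha, hb, hab, hF⟩ := hH.sq H.sub H.m2 hS
        have key : ∀ a b, a ∈ L' → b ∈ L' → a ≠ b → F = TFC.sq r a h b → (mi b → pl b) →
            Mv V pl mi c Ac F (ev x + ev s) := by
          intro a b ha hb hab hF hnX
          have hxa : x ≠ a := by
            rintro rfl
            exact hx s(r, x) (by rw [hF]; simp [TFC.sq]) (by simp)
          have hsa : s ≠ a := by
            rintro rfl
            exact hn (by rw [hF]; simp [TFC.sq])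
          have d4 : Dist4 r a h b := ⟨fun e => hH.rL (e ▸ ha), hH.rh, fun e => hH.rL (e ▸ hb),
            fun e => hH.hL (e ▸ ha), hab, fun e => hH.hL (e ▸ hb)⟩
          have s1 : ({a, x} : Finset ℕ) ⊆ L' := insert_subset ha (singleton_subset_iff.2 hxL)
          have s2 : ({a, s} : Finset ℕ) ⊆ L' := insert_subset ha (singleton_subset_iff.2 hsL)
          refine ⟨tw r h {a, x} {a, s}, by rw [hH.edges]; exact tw_sub s1 s2, ?_, (-2 : ℤ) • ev b, ?_, ?_⟩
          · rw [H.a2' hk2 hS]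
            exact acap_tw H.isq hH.rh hH.rL hH.hL s1 s2 card_le_two card_le_two (card_inter_le hxa.symm hxs)
          · rw [← single_ev, ph_one (H.vV s(r, b) (hH.mem.2 hb) b (by simp))]
            exact con_notX hnX
          · rw [dv_tw22 hH.rh hH.rL hH.hL hxa.symm hsa.symm s1 s2, hF, dv_sq' d4]
            module
        rcases hvr h L' a b hH ha hb hab hF with g | g
        · refine key b a hb ha hab.symm ?_ g
          rw [hF, XT.sq_ref, XT.sq_rot, XT.sq_rot, XT.sq_rot]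
        · exact key a b ha hb hab hF g

/-- **(L5)** the edges `x r` and `y s` in one cluster which does not contain `x y` -/
theorem Lo.L5 (H : Lo D c F Ac V) (hx : ∀ f ∈ F, x ∉ f) (hy : ∀ f ∈ F, y ∉ f) (he : s(x, r) ∈ c.edges)
    (he' : s(y, s) ∈ c.edges) (hxy : s(x, y) ∉ c.edges) (nxy : x ≠ y) (hxs : x ≠ s) (hyr : y ≠ r) (nrs : r ≠ s)
    (hvr : Vf pl mi c F r) :
    Mv V pl mi c Ac F (ev x + ev r + (ev y + ev s)) ∨ Mv V pl mi c Ac F (ev x + ev y) := by
  have hxr : x ≠ r := H.nl.ne he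
  have hys : y ≠ s := H.nl.ne he'
  have z0 : ph V pl mi 0 ≤ 0 := (ph_zero V pl mi).le
  have hk2 : K2 c := by
    cases c with
    | k4 Y =>
      exact absurd (mem_k4.2 ⟨(mem_k4.1 he).1, (mem_k4.1 he').1, nxy⟩) hxy
    | k2 u v L => exact ⟨u, v, L, rfl⟩
  by_cases hS : Sf F
  · left
    have hx' : ∀ f ∈ insert s(y, s) F, x ∉ f := by
      intro f hf
      rcases mem_insert.1 hf with rfl | hf
      · rw [Sym2.mem_iff]; exact fun h => h.elim nxy hxs
      · exact hx f hf
    have hins : insert s(x, r) (insert s(y, s) F) ⊆ c.edges := insert_subset he (insert_subset he' H.sub)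
    refine ⟨_, hins, ?_, 0, z0, ?_⟩
    · rw [H.a2 hk2 hS]
      exact H.sqf hins ((hS.insert (v := y) (by simp) hy).insert (v := x) (by simp) hx')
    · rw [TFC.dv_insert hxr (not_mem_of hx'), TFC.dv_insert hys (not_mem_of hy)]; module
  · right
    rcases hub_edge H.val hk2 he with ⟨h, L', hH, hr⟩ | ⟨h, L', hH, hxL⟩
    · obtain ⟨f, hf, hxf⟩ := H.full hH hS
      exact absurd hxf (hx f hf)
    · -- `y` is a leaf, `s = h`
      have hyL : y ∈ L' ∧ s = h := by
        have h1 := he'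
        rw [hH.edges, mem_k2] at h1
        rcases h1 with ⟨g | g, _⟩ | ⟨g | g, g'⟩
        · exact absurd g hyr
        · obtain ⟨f, hf, hyf⟩ := H.full hH.symm hS
          rw [← g] at hyf
          exact absurd hyf (hy f hf)
        · exact absurd g nrs.symm
        · exact ⟨g', g⟩
      obtain ⟨hyL, rfl⟩ := hyL
      obtain ⟨a, b, ha, hb, hab, hF⟩ := hH.sq H.sub H.m2 hS
      have key : ∀ a b, a ∈ L' → b ∈ L' → a ≠ b → F = TFC.sq r a s b → (mi b → pl b) →
          Mv V pl mi c Ac F (ev x + ev y) := by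
        intro a b ha hb hab hF hnX
        have hxa : x ≠ a := by
          rintro rfl
          exact hx s(r, x) (by rw [hF]; simp [TFC.sq]) (by simp)
        have hya : y ≠ a := by
          rintro rfl
          exact hy s(r, y) (by rw [hF]; simp [TFC.sq]) (by simp)
        have d4 : Dist4 r a s b := ⟨fun e => hH.rL (e ▸ ha), hH.rh, fun e => hH.rL (e ▸ hb),
          fun e => hH.hL (e ▸ ha), hab, fun e => hH.hL (e ▸ hb)⟩
        have s1 : ({a, x} : Finset ℕ) ⊆ L' := insert_subset ha (singleton_subset_iff.2 hxL)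
        have s2 : ({a, y} : Finset ℕ) ⊆ L' := insert_subset ha (singleton_subset_iff.2 hyL)
        refine ⟨tw r s {a, x} {a, y}, by rw [hH.edges]; exact tw_sub s1 s2, ?_, (-2 : ℤ) • ev b, ?_, ?_⟩
        · rw [H.a2' hk2 hS]
          exact acap_tw H.isq hH.rh hH.rL hH.hL s1 s2 card_le_two card_le_two (card_inter_le hxa.symm nxy)
        · rw [← single_ev, ph_one (H.vV s(r, b) (hH.mem.2 hb) b (by simp))]
          exact con_notX hnX
        · rw [dv_tw22 hH.rh hH.rL hH.hL hxa.symm hya.symm s1 s2, hF, dv_sq' d4]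
          module
      rcases hvr s L' a b hH ha hb hab hF with g | g
      · refine key b a hb ha hab.symm ?_ g
        rw [hF, XT.sq_ref, XT.sq_rot, XT.sq_rot, XT.sq_rot]
      · exact key a b ha hb hab hF g

end

end Pool.Agent.PF4.LM

end
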