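import Pool.Agent.PFM.M10

section -- file PF4/KW0

/-!
One world at one cluster with two hubs `a`, `b` and leaves `L`: the abstract form of the data, and the rules for excluded vectors.
-/

set_option autoImplicit false
set_option linter.unusedSectionVars false
set_option linter.unusedVariables false
set_option linter.unusedSimpArgs false

namespace Pool.Agent.PF4.XF

open Finset Pool.Agent.TFC

/-- what the edge set `{a x | x ∈ A} ∪ {b x | x ∈ B}` supplies -/
def kv (a b : ℕ) (A B : List ℕ) : ℕ → ℤ :=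
  (A.length : ℤ) • ev a + (B.length : ℤ) • ev b + (A.map ev).sum + (B.map ev).sum

/-- admissible pair of lists of leaves: no pair of `D` is joined to both hubs -/
structure Gd (L : Finset ℕ) (D : ℕ → ℕ → Prop) (A B : List ℕ) : Prop where
  nA : A.Nodup
  nB : B.Nodup
  lA : ∀ x ∈ A, x ∈ L
  lB : ∀ x ∈ B, x ∈ L
  cA : A.length ≤ 2
  cB : B.length ≤ 2
  g : ∀ u w, D u w → u ∈ A → w ∈ A → u ∈ B → w ∈ B → False

/-- the abstract world at a cluster with hubs `a`, `b`, leaves `L`, free vertices `Fr`; `Rp y r`: an edge `y r` outside the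
cluster may be used for repairs; `D u w`: the square `a u b w` is in the family -/
structure KW (n a b : ℕ) (L : Finset ℕ) (Fr : ℕ → Prop) (Rp : ℕ → ℕ → Prop) (D : ℕ → ℕ → Prop) (J : (ℕ → ℤ) → Prop) : Prop where
  ex : ∀ k k' (i : ℕ) (ε : ℤ), J k → J k' → (i = a ∨ i = b ∨ i ∈ L) → (ε = 1 ∨ ε = -1) →
    0 < ε * (k' i - k i) → ∃ k'', J k'' ∧ Two k k' k'' i ε
  X : ∀ (A B : List ℕ) (z : ℕ → ℤ), Gd L D A B → (∀ v, v ≠ n → 0 ≤ z v) →
    (∀ v, v ≠ n → ¬ Fr v → z v = 0) → ¬ J (kv a b A B + z)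
  XR : ∀ (y r : ℕ) (A B : List ℕ) (τ : ℤ), Rp y r → Gd L D A B → kv a b A B y = 1 →
    ¬ J (kv a b A B + ev y + ev r + τ • ev n)
  ab : a ≠ b
  aL : a ∉ L
  bL : b ∉ L
  na : n ≠ a
  nb : n ≠ b
  nL : n ∉ L
  irr : ∀ u, ¬ D u u
  sym : ∀ u w, D u w → D w u
  DL : ∀ u w, D u w → u ∈ L

/-- the witnesses -/
def FDs (a b : ℕ) (D : ℕ → ℕ → Prop) (J : (ℕ → ℤ) → Prop) : Prop :=
  ∀ u w, D u w → J ((2 : ℤ) • ev a + (2 : ℤ) • ev b + (2 : ℤ) • ev u + (2 : ℤ) • ev w)

/-- a target vector -/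
structure Tg (n a b : ℕ) (L R : Finset ℕ) (M : ℕ → ℤ) : Prop where
  nn : ∀ v, v ≠ n → 0 ≤ M v
  le : ∀ v, v ≠ n → M v ≤ 2
  sup : ∀ v, v ≠ a → v ≠ b → v ∉ L → v ≠ n → v ∉ R → M v = 0

lemma ev_single (i : ℕ) (ε : ℤ) : (Pi.single i ε : ℕ → ℤ) = ε • ev i := by
  funext v
  simp [ev, Pi.single_apply]

section

variable {n a b : ℕ} {L R : Finset ℕ} {Fr : ℕ → Prop} {Rp : ℕ → ℕ → Prop} {D : ℕ → ℕ → Prop} {J : (ℕ → ℤ) → Prop}

namespace KW

/-- the exchange, with explicit second step -/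
lemma st (W : KW n a b L Fr Rp D J) {u M : ℕ → ℤ} (hu : J u) (hM : J M) (i : ℕ) (ε : ℤ)
    (hi : i = a ∨ i = b ∨ i ∈ L) (hε : ε = 1 ∨ ε = -1) (h : 0 < ε * (M i - u i)) :
    ∃ (j : ℕ) (δ : ℤ), (δ = 1 ∨ δ = -1) ∧ 0 < δ * (M j - (u j + ε * ev i j)) ∧
      J (u + ε • ev i + δ • ev j) := by
  obtain ⟨k'', h1, j, δ, h2, h3, rfl⟩ := W.ex u M i ε hu hM hi hε h
  refine ⟨j, δ, h2, ?_, ?_⟩
  · simpa [ev_single] using h3
  · simpa [ev_single] using h1

/-- one free vertex -/
lemma x (W : KW n a b L Fr Rp D J) {k : ℕ → ℤ} (h : J k) {y : ℕ} (hy : Fr y) (hyn : y ≠ n)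
    (A B : List ℕ) (c τ : ℤ) (e : k = kv a b A B + c • ev y + τ • ev n) (hc : 0 ≤ c) (g : Gd L D A B) : False := by
  refine W.X A B (c • ev y + τ • ev n) g ?_ ?_ (by rw [← add_assoc, ← e]; exact h)
  · intro v hv
    simp only [Pi.add_apply, Pi.smul_apply, ev_apply, if_neg hv, smul_eq_mul, mul_zero, add_zero]
    split_ifs <;> simp [hc]
  · intro v hv hf
    have : v ≠ y := fun hh => hf (hh ▸ hy)
    simp [ev_apply, hv, this]

/-- two free vertices -/
lemma x2 (W : KW n a b L Fr Rp D J) {k : ℕ → ℤ} (h : J k) {y y' : ℕ} (hy : Fr y) (hy' : Fr y')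
    (A B : List ℕ) (c c' τ : ℤ) (e : k = kv a b A B + c • ev y + c' • ev y' + τ • ev n) (hc : 0 ≤ c) (hc' : 0 ≤ c')
    (g : Gd L D A B) : False := by
  refine W.X A B (c • ev y + c' • ev y' + τ • ev n) g ?_ ?_
    (by rw [← add_assoc, ← add_assoc, ← e]; exact h)
  · intro v hv
    simp only [Pi.add_apply, Pi.smul_apply, ev_apply, if_neg hv, smul_eq_mul, mul_zero, add_zero]
    split_ifs <;> simp [hc, hc'] <;> omega
  · intro v hv hf
    have h1 : v ≠ y := fun hh => hf (hh ▸ hy)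
    have h2 : v ≠ y' := fun hh => hf (hh ▸ hy')
    simp [ev_apply, hv, h1, h2]

end KW

/-! admissible pairs -/

lemma gd_le1 (hirr : ∀ u, ¬ D u u) {A B : List ℕ} (nA : A.Nodup) (nB : B.Nodup) (lA : ∀ x ∈ A, x ∈ L) (lB : ∀ x ∈ B, x ∈ L)
    (cA : A.length ≤ 2) (cB : B.length ≤ 2) (x : ℕ) (h : ∀ u ∈ A, u ∈ B → u = x) : Gd L D A B :=
  ⟨nA, nB, lA, lB, cA, cB, fun u w hD h1 h2 h3 h4 => by
    have e1 := h u h1 h3
    have e2 := h w h2 h4
    rw [e1, e2] at hD
    exact hirr x hD⟩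


section shapes

variable (W : KW n a b L Fr Rp D J)
include W

lemma KW.g00 : Gd L D [] [] :=
  gd_le1 W.irr (by simp) (by simp) (by simp) (by simp) (by simp) (by simp) 0 (by simp)

lemma KW.g01 {x : ℕ} (hx : x ∈ L) : Gd L D [] [x] :=
  gd_le1 W.irr (by simp) (by simp) (by simp) (by simpa using hx) (by simp) (by simp) 0 (by simp)

lemma KW.g10 {x : ℕ} (hx : x ∈ L) : Gd L D [x] [] :=
  gd_le1 W.irr (by simp) (by simp) (by simpa using hx) (by simp) (by simp) (by simp) x (by simp)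

lemma KW.g11 {x z : ℕ} (hx : x ∈ L) (hz : z ∈ L) : Gd L D [x] [z] :=
  gd_le1 W.irr (by simp) (by simp) (by simpa using hx) (by simpa using hz) (by simp) (by simp) x (by simp)

lemma KW.g02 {x z : ℕ} (hx : x ∈ L) (hz : z ∈ L) (h : x ≠ z) : Gd L D [] [x, z] :=
  gd_le1 W.irr (by simp) (by simp [h]) (by simp) (by simp [hx, hz]) (by simp) (by simp) x (by simp)

lemma KW.g20 {x z : ℕ} (hx : x ∈ L) (hz : z ∈ L) (h : x ≠ z) : Gd L D [x, z] [] :=
  gd_le1 W.irr (by simp [h]) (by simp) (by simp [hx, hz]) (by simp) (by simp) (by simp) x (by simp)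

lemma KW.g12 {x z w : ℕ} (hx : x ∈ L) (hz : z ∈ L) (hw : w ∈ L) (h : z ≠ w) : Gd L D [x] [z, w] :=
  gd_le1 W.irr (by simp) (by simp [h]) (by simp [hx]) (by simp [hw, hz]) (by simp) (by simp) x (by simp)

lemma KW.g21 {x z w : ℕ} (hx : x ∈ L) (hz : z ∈ L) (hw : w ∈ L) (h : x ≠ z) : Gd L D [x, z] [w] :=
  gd_le1 W.irr (by simp [h]) (by simp) (by simp [hx, hz]) (by simp [hw]) (by simp) (by simp) w (by simp)

lemma KW.g22 {x z w : ℕ} (hx : x ∈ L) (hz : z ∈ L) (hw : w ∈ L) (h : x ≠ z) (h1 : x ≠ w) (h2 : z ≠ w) :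
    Gd L D [x, z] [x, w] :=
  gd_le1 W.irr (by simp [h]) (by simp [h1]) (by simp [hx, hz]) (by simp [hx, hw]) (by simp) (by simp) x (by
    intro u h3 h4
    simp only [List.mem_cons, List.not_mem_nil, or_false] at h3 h4
    rcases h3 with rfl | rfl
    · rfl
    · rcases h4 with h4 | h4
      · exact h4
      · exact absurd h4 h2)

lemma KW.g2e {x z : ℕ} (hx : x ∈ L) (hz : z ∈ L) (h : x ≠ z) (hD : ¬ D x z) : Gd L D [x, z] [x, z] :=
  ⟨by simp [h], by simp [h], by simp [hx, hz], by simp [hx, hz], by simp, by simp, by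
    intro u w hD' h3 h4 _ _
    simp only [List.mem_cons, List.not_mem_nil, or_false] at h3 h4
    rcases h3 with rfl | rfl
    · rcases h4 with rfl | rfl
      · exact W.irr _ hD'
      · exact hD hD'
    · rcases h4 with rfl | rfl
      · exact hD (W.sym _ _ hD')
      · exact W.irr _ hD'⟩

lemma KW.DL' {u w : ℕ} (h : D u w) : u ∈ L ∧ w ∈ L ∧ u ≠ w ∧ u ≠ a ∧ u ≠ b ∧ u ≠ n ∧ w ≠ a ∧ w ≠ b ∧ w ≠ n := by
  have h1 := W.DL _ _ h
  have h2 := W.DL _ _ (W.sym _ _ h)
  refine ⟨h1, h2, ?_, ?_, ?_, ?_, ?_, ?_, ?_⟩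
  · rintro rfl; exact W.irr _ h
  · rintro rfl; exact W.aL h1
  · rintro rfl; exact W.bL h1
  · rintro rfl; exact W.nL h1
  · rintro rfl; exact W.aL h2
  · rintro rfl; exact W.bL h2
  · rintro rfl; exact W.nL h2

lemma KW.L' {u : ℕ} (h : u ∈ L) : u ≠ a ∧ u ≠ b ∧ u ≠ n := by
  refine ⟨?_, ?_, ?_⟩
  · rintro rfl; exact W.aL h
  · rintro rfl; exact W.bL h
  · rintro rfl; exact W.nL h

end shapes

/-! rules by shape -/

section rules

variable (W : KW n a b L Fr Rp D J)
include W

lemma KW.x00 {k : ℕ → ℤ} (h : J k) {y : ℕ} (hy : Fr y) (hyn : y ≠ n)   (c τ : ℤ)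
    (hc : 0 ≤ c) (e : k = (0 : ℤ) • ev a + (0 : ℤ) • ev b + c • ev y + τ • ev n) : False := by
  refine W.x h hy hyn [] [] c τ ?_ hc (W.g00 )
  rw [e]
  simp only [kv, List.length_cons, List.length_nil, List.map_cons, List.map_nil, List.sum_cons, List.sum_nil]
  push_cast
  module

lemma KW.x01 {k : ℕ → ℤ} (h : J k) {y : ℕ} (hy : Fr y) (hyn : y ≠ n) {x : ℕ} (hx : x ∈ L)  (c τ : ℤ)
    (hc : 0 ≤ c) (e : k = (0 : ℤ) • ev a + (1 : ℤ) • ev b + ev x + c • ev y + τ • ev n) : False := by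
  refine W.x h hy hyn [] [x] c τ ?_ hc (W.g01 hx)
  rw [e]
  simp only [kv, List.length_cons, List.length_nil, List.map_cons, List.map_nil, List.sum_cons, List.sum_nil]
  push_cast
  module

lemma KW.r01 {k : ℕ → ℤ} (h : J k) {y r : ℕ} (hr : Rp y r) {x : ℕ} (hx : x ∈ L)  (τ : ℤ)
    (hy : ((0 : ℤ) • ev a + (1 : ℤ) • ev b + ev x : ℕ → ℤ) y = 1)
    (e : k = (0 : ℤ) • ev a + (1 : ℤ) • ev b + ev x + ev y + ev r + τ • ev n) : False := by
  refine W.XR y r [] [x] τ hr (W.g01 hx) ?_ ?_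
  · rw [← hy]
    simp only [kv, List.length_cons, List.length_nil, List.map_cons, List.map_nil, List.sum_cons, List.sum_nil, Pi.add_apply,
      Pi.smul_apply, smul_eq_mul, Pi.zero_apply]
    push_cast
    ring
  · convert h using 1
    rw [e]
    simp only [kv, List.length_cons, List.length_nil, List.map_cons, List.map_nil, List.sum_cons, List.sum_nil]
    push_cast
    module

lemma KW.x10 {k : ℕ → ℤ} (h : J k) {y : ℕ} (hy : Fr y) (hyn : y ≠ n) {x : ℕ} (hx : x ∈ L)  (c τ : ℤ)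
    (hc : 0 ≤ c) (e : k = (1 : ℤ) • ev a + (0 : ℤ) • ev b + ev x + c • ev y + τ • ev n) : False := by
  refine W.x h hy hyn [x] [] c τ ?_ hc (W.g10 hx)
  rw [e]
  simp only [kv, List.length_cons, List.length_nil, List.map_cons, List.map_nil, List.sum_cons, List.sum_nil]
  push_cast
  module

lemma KW.r10 {k : ℕ → ℤ} (h : J k) {y r : ℕ} (hr : Rp y r) {x : ℕ} (hx : x ∈ L)  (τ : ℤ)
    (hy : ((1 : ℤ) • ev a + (0 : ℤ) • ev b + ev x : ℕ → ℤ) y = 1)
    (e : k = (1 : ℤ) • ev a + (0 : ℤ) • ev b + ev x + ev y + ev r + τ • ev n) : False := by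
  refine W.XR y r [x] [] τ hr (W.g10 hx) ?_ ?_
  · rw [← hy]
    simp only [kv, List.length_cons, List.length_nil, List.map_cons, List.map_nil, List.sum_cons, List.sum_nil, Pi.add_apply,
      Pi.smul_apply, smul_eq_mul, Pi.zero_apply]
    push_cast
    ring
  · convert h using 1
    rw [e]
    simp only [kv, List.length_cons, List.length_nil, List.map_cons, List.map_nil, List.sum_cons, List.sum_nil]
    push_cast
    module

lemma KW.x11 {k : ℕ → ℤ} (h : J k) {y : ℕ} (hy : Fr y) (hyn : y ≠ n) {x z : ℕ} (hx : x ∈ L) (hz : z ∈ L)  (c τ : ℤ)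
    (hc : 0 ≤ c) (e : k = (1 : ℤ) • ev a + (1 : ℤ) • ev b + ev x + ev z + c • ev y + τ • ev n) : False := by
  refine W.x h hy hyn [x] [z] c τ ?_ hc (W.g11 hx hz)
  rw [e]
  simp only [kv, List.length_cons, List.length_nil, List.map_cons, List.map_nil, List.sum_cons, List.sum_nil]
  push_cast
  module

lemma KW.r11 {k : ℕ → ℤ} (h : J k) {y r : ℕ} (hr : Rp y r) {x z : ℕ} (hx : x ∈ L) (hz : z ∈ L)  (τ : ℤ)
    (hy : ((1 : ℤ) • ev a + (1 : ℤ) • ev b + ev x + ev z : ℕ → ℤ) y = 1)
    (e : k = (1 : ℤ) • ev a + (1 : ℤ) • ev b + ev x + ev z + ev y + ev r + τ • ev n) : False := by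
  refine W.XR y r [x] [z] τ hr (W.g11 hx hz) ?_ ?_
  · rw [← hy]
    simp only [kv, List.length_cons, List.length_nil, List.map_cons, List.map_nil, List.sum_cons, List.sum_nil, Pi.add_apply,
      Pi.smul_apply, smul_eq_mul, Pi.zero_apply]
    push_cast
    ring
  · convert h using 1
    rw [e]
    simp only [kv, List.length_cons, List.length_nil, List.map_cons, List.map_nil, List.sum_cons, List.sum_nil]
    push_cast
    module

lemma KW.x02 {k : ℕ → ℤ} (h : J k) {y : ℕ} (hy : Fr y) (hyn : y ≠ n) {x z : ℕ} (hx : x ∈ L) (hz : z ∈ L) (h0 : x ≠ z) (c τ : ℤ)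
    (hc : 0 ≤ c) (e : k = (0 : ℤ) • ev a + (2 : ℤ) • ev b + ev x + ev z + c • ev y + τ • ev n) : False := by
  refine W.x h hy hyn [] [x, z] c τ ?_ hc (W.g02 hx hz h0)
  rw [e]
  simp only [kv, List.length_cons, List.length_nil, List.map_cons, List.map_nil, List.sum_cons, List.sum_nil]
  push_cast
  module

lemma KW.r02 {k : ℕ → ℤ} (h : J k) {y r : ℕ} (hr : Rp y r) {x z : ℕ} (hx : x ∈ L) (hz : z ∈ L) (h0 : x ≠ z) (τ : ℤ)
    (hy : ((0 : ℤ) • ev a + (2 : ℤ) • ev b + ev x + ev z : ℕ → ℤ) y = 1)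
    (e : k = (0 : ℤ) • ev a + (2 : ℤ) • ev b + ev x + ev z + ev y + ev r + τ • ev n) : False := by
  refine W.XR y r [] [x, z] τ hr (W.g02 hx hz h0) ?_ ?_
  · rw [← hy]
    simp only [kv, List.length_cons, List.length_nil, List.map_cons, List.map_nil, List.sum_cons, List.sum_nil, Pi.add_apply,
      Pi.smul_apply, smul_eq_mul, Pi.zero_apply]
    push_cast
    ring
  · convert h using 1
    rw [e]
    simp only [kv, List.length_cons, List.length_nil, List.map_cons, List.map_nil, List.sum_cons, List.sum_nil]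
    push_cast
    module

lemma KW.x20 {k : ℕ → ℤ} (h : J k) {y : ℕ} (hy : Fr y) (hyn : y ≠ n) {x z : ℕ} (hx : x ∈ L) (hz : z ∈ L) (h0 : x ≠ z) (c τ : ℤ)
    (hc : 0 ≤ c) (e : k = (2 : ℤ) • ev a + (0 : ℤ) • ev b + ev x + ev z + c • ev y + τ • ev n) : False := by
  refine W.x h hy hyn [x, z] [] c τ ?_ hc (W.g20 hx hz h0)
  rw [e]
  simp only [kv, List.length_cons, List.length_nil, List.map_cons, List.map_nil, List.sum_cons, List.sum_nil]
  push_cast
  module

lemma KW.r20 {k : ℕ → ℤ} (h : J k) {y r : ℕ} (hr : Rp y r) {x z : ℕ} (hx : x ∈ L) (hz : z ∈ L) (h0 : x ≠ z) (τ : ℤ)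
    (hy : ((2 : ℤ) • ev a + (0 : ℤ) • ev b + ev x + ev z : ℕ → ℤ) y = 1)
    (e : k = (2 : ℤ) • ev a + (0 : ℤ) • ev b + ev x + ev z + ev y + ev r + τ • ev n) : False := by
  refine W.XR y r [x, z] [] τ hr (W.g20 hx hz h0) ?_ ?_
  · rw [← hy]
    simp only [kv, List.length_cons, List.length_nil, List.map_cons, List.map_nil, List.sum_cons, List.sum_nil, Pi.add_apply,
      Pi.smul_apply, smul_eq_mul, Pi.zero_apply]
    push_cast
    ring
  · convert h using 1
    rw [e]
    simp only [kv, List.length_cons, List.length_nil, List.map_cons, List.map_nil, List.sum_cons, List.sum_nil]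
    push_cast
    module

lemma KW.x12 {k : ℕ → ℤ} (h : J k) {y : ℕ} (hy : Fr y) (hyn : y ≠ n) {x z w : ℕ} (hx : x ∈ L) (hz : z ∈ L) (hw : w ∈ L) (h0 : z ≠ w) (c τ : ℤ)
    (hc : 0 ≤ c) (e : k = (1 : ℤ) • ev a + (2 : ℤ) • ev b + ev x + ev z + ev w + c • ev y + τ • ev n) : False := by
  refine W.x h hy hyn [x] [z, w] c τ ?_ hc (W.g12 hx hz hw h0)
  rw [e]
  simp only [kv, List.length_cons, List.length_nil, List.map_cons, List.map_nil, List.sum_cons, List.sum_nil]
  push_cast
  module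

lemma KW.r12 {k : ℕ → ℤ} (h : J k) {y r : ℕ} (hr : Rp y r) {x z w : ℕ} (hx : x ∈ L) (hz : z ∈ L) (hw : w ∈ L) (h0 : z ≠ w) (τ : ℤ)
    (hy : ((1 : ℤ) • ev a + (2 : ℤ) • ev b + ev x + ev z + ev w : ℕ → ℤ) y = 1)
    (e : k = (1 : ℤ) • ev a + (2 : ℤ) • ev b + ev x + ev z + ev w + ev y + ev r + τ • ev n) : False := by
  refine W.XR y r [x] [z, w] τ hr (W.g12 hx hz hw h0) ?_ ?_
  · rw [← hy]
    simp only [kv, List.length_cons, List.length_nil, List.map_cons, List.map_nil, List.sum_cons, List.sum_nil, Pi.add_apply,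
      Pi.smul_apply, smul_eq_mul, Pi.zero_apply]
    push_cast
    ring
  · convert h using 1
    rw [e]
    simp only [kv, List.length_cons, List.length_nil, List.map_cons, List.map_nil, List.sum_cons, List.sum_nil]
    push_cast
    module

lemma KW.x21 {k : ℕ → ℤ} (h : J k) {y : ℕ} (hy : Fr y) (hyn : y ≠ n) {x z w : ℕ} (hx : x ∈ L) (hz : z ∈ L) (hw : w ∈ L) (h0 : x ≠ z) (c τ : ℤ)
    (hc : 0 ≤ c) (e : k = (2 : ℤ) • ev a + (1 : ℤ) • ev b + ev x + ev z + ev w + c • ev y + τ • ev n) : False := by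
  refine W.x h hy hyn [x, z] [w] c τ ?_ hc (W.g21 hx hz hw h0)
  rw [e]
  simp only [kv, List.length_cons, List.length_nil, List.map_cons, List.map_nil, List.sum_cons, List.sum_nil]
  push_cast
  module

lemma KW.r21 {k : ℕ → ℤ} (h : J k) {y r : ℕ} (hr : Rp y r) {x z w : ℕ} (hx : x ∈ L) (hz : z ∈ L) (hw : w ∈ L) (h0 : x ≠ z) (τ : ℤ)
    (hy : ((2 : ℤ) • ev a + (1 : ℤ) • ev b + ev x + ev z + ev w : ℕ → ℤ) y = 1)
    (e : k = (2 : ℤ) • ev a + (1 : ℤ) • ev b + ev x + ev z + ev w + ev y + ev r + τ • ev n) : False := by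
  refine W.XR y r [x, z] [w] τ hr (W.g21 hx hz hw h0) ?_ ?_
  · rw [← hy]
    simp only [kv, List.length_cons, List.length_nil, List.map_cons, List.map_nil, List.sum_cons, List.sum_nil, Pi.add_apply,
      Pi.smul_apply, smul_eq_mul, Pi.zero_apply]
    push_cast
    ring
  · convert h using 1
    rw [e]
    simp only [kv, List.length_cons, List.length_nil, List.map_cons, List.map_nil, List.sum_cons, List.sum_nil]
    push_cast
    module

lemma KW.x22 {k : ℕ → ℤ} (h : J k) {y : ℕ} (hy : Fr y) (hyn : y ≠ n) {x z w : ℕ} (hx : x ∈ L) (hz : z ∈ L) (hw : w ∈ L) (h0 : x ≠ z) (h1 : x ≠ w) (h2 : z ≠ w) (c τ : ℤ)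
    (hc : 0 ≤ c) (e : k = (2 : ℤ) • ev a + (2 : ℤ) • ev b + ev x + ev z + ev x + ev w + c • ev y + τ • ev n) : False := by
  refine W.x h hy hyn [x, z] [x, w] c τ ?_ hc (W.g22 hx hz hw h0 h1 h2)
  rw [e]
  simp only [kv, List.length_cons, List.length_nil, List.map_cons, List.map_nil, List.sum_cons, List.sum_nil]
  push_cast
  module

lemma KW.r22 {k : ℕ → ℤ} (h : J k) {y r : ℕ} (hr : Rp y r) {x z w : ℕ} (hx : x ∈ L) (hz : z ∈ L) (hw : w ∈ L) (h0 : x ≠ z) (h1 : x ≠ w) (h2 : z ≠ w) (τ : ℤ)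
    (hy : ((2 : ℤ) • ev a + (2 : ℤ) • ev b + ev x + ev z + ev x + ev w : ℕ → ℤ) y = 1)
    (e : k = (2 : ℤ) • ev a + (2 : ℤ) • ev b + ev x + ev z + ev x + ev w + ev y + ev r + τ • ev n) : False := by
  refine W.XR y r [x, z] [x, w] τ hr (W.g22 hx hz hw h0 h1 h2) ?_ ?_
  · rw [← hy]
    simp only [kv, List.length_cons, List.length_nil, List.map_cons, List.map_nil, List.sum_cons, List.sum_nil, Pi.add_apply,
      Pi.smul_apply, smul_eq_mul, Pi.zero_apply]
    push_cast
    ring
  · convert h using 1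
    rw [e]
    simp only [kv, List.length_cons, List.length_nil, List.map_cons, List.map_nil, List.sum_cons, List.sum_nil]
    push_cast
    module

lemma KW.x2e {k : ℕ → ℤ} (h : J k) {y : ℕ} (hy : Fr y) (hyn : y ≠ n) {x z : ℕ} (hx : x ∈ L) (hz : z ∈ L) (h0 : x ≠ z) (hD : ¬ D x z) (c τ : ℤ)
    (hc : 0 ≤ c) (e : k = (2 : ℤ) • ev a + (2 : ℤ) • ev b + ev x + ev z + ev x + ev z + c • ev y + τ • ev n) : False := by
  refine W.x h hy hyn [x, z] [x, z] c τ ?_ hc (W.g2e hx hz h0 hD)
  rw [e]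
  simp only [kv, List.length_cons, List.length_nil, List.map_cons, List.map_nil, List.sum_cons, List.sum_nil]
  push_cast
  module

end rules

end

end Pool.Agent.PF4.XF

end

section -- file PF4/KWB

/-!
Clusters with one free hub (`b`): the four steps.
-/

set_option autoImplicit false
set_option linter.unusedSectionVars false
set_option linter.unusedVariables false
set_option linter.unusedSimpArgs false

namespace Pool.Agent.PF4.XF

open Finset Pool.Agent.TFC

variable {n a b : ℕ} {L R : Finset ℕ} {Fr : ℕ → Prop} {Rp : ℕ → ℕ → Prop} {D : ℕ → ℕ → Prop} {J : (ℕ → ℤ) → Prop}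
variable (W : KW n a b L Fr Rp D J) (hFr : Fr b) (hR : ∀ r ∈ R, Rp b r)
include W hFr hR

/-- step `p` down from the witness of the pair `p l` -/
theorem KW.B1 {p l : ℕ} (hD : D p l) {M : ℕ → ℤ} (T : Tg n a b L R M)
    (hM : J M) (h : M p ≤ 1) (hF : J ((2 : ℤ) • ev a + (2 : ℤ) • ev b + (2 : ℤ) • ev p + (2 : ℤ) • ev l)) :
    M p = 0 ∧ J ((2 : ℤ) • ev a + (2 : ℤ) • ev b + (2 : ℤ) • ev l) := by
  have ab := W.ab
  have na := W.na
  have nb := W.nb
  obtain ⟨pL, lL, pl, pa, pb, pn, la, lb, ln⟩ := W.DL' hD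
  obtain ⟨j, δ, hδ, hlt, hk⟩ := W.st hF hM p (-1) (Or.inr (Or.inr pL)) (Or.inr rfl) (by
    simp only [Pi.add_apply, Pi.smul_apply, Pi.zero_apply, ev_apply, smul_eq_mul, if_true, if_neg pa, if_neg pb, if_neg pl]; omega)
  simp only [Pi.add_apply, Pi.smul_apply, Pi.zero_apply, ev_apply, smul_eq_mul] at hlt
  have hc : j = n ∨ j = a ∨ j = b ∨ j = p ∨ j = l ∨ (j ≠ n ∧ j ≠ a ∧ j ≠ b ∧ j ≠ p ∧ j ≠ l) := by omega
  rcases hc with h1 | h1 | h1 | h1 | h1 | ⟨jn, ja, jb, jp, jl⟩
  · rw [h1] at hk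
    exact (W.x21 hk hFr nb.symm pL lL lL pl (1) (δ) (by norm_num) (by module)).elim
  · rw [h1] at hlt hk
    have hle := T.le a na.symm
    have hnn := T.nn a na.symm
    simp only [if_true, if_neg ab, if_neg pa.symm, if_neg la.symm] at hlt
    rcases hδ with h2 | h2 <;> rw [h2] at hlt hk
    · omega
    · exact (W.x12 hk hFr nb.symm lL pL lL pl (0) (0) (by norm_num) (by module)).elim
  · rw [h1] at hlt hk
    have hle := T.le b nb.symm
    have hnn := T.nn b nb.symm
    simp only [if_true, if_neg ab.symm, if_neg pb.symm, if_neg lb.symm] at hlt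
    rcases hδ with h2 | h2 <;> rw [h2] at hlt hk
    · omega
    · exact (W.x21 hk hFr nb.symm pL lL lL pl (0) (0) (by norm_num) (by module)).elim
  · rw [h1] at hlt hk
    have hle := T.le p pn
    have hnn := T.nn p pn
    simp only [if_true, if_neg pa, if_neg pb, if_neg pl] at hlt
    rcases hδ with h2 | h2 <;> rw [h2] at hlt hk
    · omega
    · refine ⟨by omega, ?_⟩
      convert hk using 1
      module
  · rw [h1] at hlt hk
    have hle := T.le l ln
    have hnn := T.nn l ln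
    simp only [if_true, if_neg la, if_neg lb, if_neg pl.symm] at hlt
    rcases hδ with h2 | h2 <;> rw [h2] at hlt hk
    · omega
    · exact (W.x20 hk hFr nb.symm pL lL pl (2) (0) (by norm_num) (by module)).elim
  · have hnn := T.nn j jn
    simp only [if_neg ja, if_neg jb, if_neg jp, if_neg jl] at hlt
    rcases hδ with h2 | h2 <;> rw [h2] at hlt hk
    · by_cases jL : j ∈ L
      · exact (W.x22 hk hFr nb.symm lL pL jL pl.symm jl.symm jp.symm (0) (0) (by norm_num) (by module)).elim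
      · by_cases jR : j ∈ R
        · exact (W.r21 hk (hR j jR) pL lL lL pl 0 (by
          simp [ev_apply, ab.symm, lb.symm, pb.symm]) (by module)).elim
        · have := T.sup j ja jb jL jn jR
          omega
    · omega

/-- step `a` down from the single vector of `l` -/
theorem KW.B2 {l : ℕ} (lL : l ∈ L) {M : ℕ → ℤ} (T : Tg n a b L R M)
    (hM : J M) (h : M a ≤ 1) (hF : J ((2 : ℤ) • ev a + (2 : ℤ) • ev b + (2 : ℤ) • ev l)) :
    M a = 0 ∧ J ((2 : ℤ) • ev b + (2 : ℤ) • ev l) := by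
  have ab := W.ab
  have na := W.na
  have nb := W.nb
  obtain ⟨la, lb, ln⟩ := W.L' lL
  obtain ⟨j, δ, hδ, hlt, hk⟩ := W.st hF hM a (-1) (Or.inl rfl) (Or.inr rfl) (by
    simp only [Pi.add_apply, Pi.smul_apply, Pi.zero_apply, ev_apply, smul_eq_mul, if_true, if_neg ab, if_neg la.symm]; omega)
  simp only [Pi.add_apply, Pi.smul_apply, Pi.zero_apply, ev_apply, smul_eq_mul] at hlt
  have hc : j = n ∨ j = a ∨ j = b ∨ j = l ∨ (j ≠ n ∧ j ≠ a ∧ j ≠ b ∧ j ≠ l) := by omega
  rcases hc with h1 | h1 | h1 | h1 | ⟨jn, ja, jb, jl⟩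
  · rw [h1] at hk
    exact (W.x11 hk hFr nb.symm lL lL (1) (δ) (by norm_num) (by module)).elim
  · rw [h1] at hlt hk
    have hle := T.le a na.symm
    have hnn := T.nn a na.symm
    simp only [if_true, if_neg ab, if_neg la.symm] at hlt
    rcases hδ with h2 | h2 <;> rw [h2] at hlt hk
    · omega
    · refine ⟨by omega, ?_⟩
      convert hk using 1
      module
  · rw [h1] at hlt hk
    have hle := T.le b nb.symm
    have hnn := T.nn b nb.symm
    simp only [if_true, if_neg ab.symm, if_neg lb.symm] at hlt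
    rcases hδ with h2 | h2 <;> rw [h2] at hlt hk
    · omega
    · exact (W.x11 hk hFr nb.symm lL lL (0) (0) (by norm_num) (by module)).elim
  · rw [h1] at hlt hk
    have hle := T.le l ln
    have hnn := T.nn l ln
    simp only [if_true, if_neg la, if_neg lb] at hlt
    rcases hδ with h2 | h2 <;> rw [h2] at hlt hk
    · omega
    · exact (W.x10 hk hFr nb.symm lL (2) (0) (by norm_num) (by module)).elim
  · have hnn := T.nn j jn
    simp only [if_neg ja, if_neg jb, if_neg jl] at hlt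
    rcases hδ with h2 | h2 <;> rw [h2] at hlt hk
    · by_cases jL : j ∈ L
      · exact (W.x12 hk hFr nb.symm lL lL jL jl.symm (0) (0) (by norm_num) (by module)).elim
      · by_cases jR : j ∈ R
        · exact (W.r11 hk (hR j jR) lL lL 0 (by
          simp [ev_apply, ab.symm, lb.symm]) (by module)).elim
        · have := T.sup j ja jb jL jn jR
          omega
    · omega

/-- step `l` down from `(0|2;2l)` -/
theorem KW.B3 {l : ℕ} (lL : l ∈ L) {M : ℕ → ℤ} (T : Tg n a b L R M)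
    (hM : J M) (h : M l ≤ 1) (hF : J ((2 : ℤ) • ev b + (2 : ℤ) • ev l)) :
    False := by
  have ab := W.ab
  have na := W.na
  have nb := W.nb
  obtain ⟨la, lb, ln⟩ := W.L' lL
  obtain ⟨j, δ, hδ, hlt, hk⟩ := W.st hF hM l (-1) (Or.inr (Or.inr lL)) (Or.inr rfl) (by
    simp only [Pi.add_apply, Pi.smul_apply, Pi.zero_apply, ev_apply, smul_eq_mul, if_true, if_neg lb]; omega)
  simp only [Pi.add_apply, Pi.smul_apply, Pi.zero_apply, ev_apply, smul_eq_mul] at hlt
  have hc : j = n ∨ j = a ∨ j = b ∨ j = l ∨ (j ≠ n ∧ j ≠ a ∧ j ≠ b ∧ j ≠ l) := by omega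
  rcases hc with h1 | h1 | h1 | h1 | ⟨jn, ja, jb, jl⟩
  · rw [h1] at hk
    exact (W.x01 hk hFr nb.symm lL (1) (δ) (by norm_num) (by module)).elim
  · rw [h1] at hlt hk
    have hle := T.le a na.symm
    have hnn := T.nn a na.symm
    simp only [if_true, if_neg ab, if_neg la.symm] at hlt
    rcases hδ with h2 | h2 <;> rw [h2] at hlt hk
    · exact (W.x10 hk hFr nb.symm lL (2) (0) (by norm_num) (by module)).elim
    · omega
  · rw [h1] at hlt hk
    have hle := T.le b nb.symm
    have hnn := T.nn b nb.symm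
    simp only [if_true, if_neg lb.symm] at hlt
    rcases hδ with h2 | h2 <;> rw [h2] at hlt hk
    · omega
    · exact (W.x01 hk hFr nb.symm lL (0) (0) (by norm_num) (by module)).elim
  · rw [h1] at hlt hk
    have hle := T.le l ln
    have hnn := T.nn l ln
    simp only [if_true, if_neg lb] at hlt
    rcases hδ with h2 | h2 <;> rw [h2] at hlt hk
    · omega
    · exact (W.x00 hk hFr nb.symm  (2) (0) (by norm_num) (by module)).elim
  · have hnn := T.nn j jn
    simp only [if_neg jb, if_neg jl] at hlt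
    rcases hδ with h2 | h2 <;> rw [h2] at hlt hk
    · by_cases jL : j ∈ L
      · exact (W.x02 hk hFr nb.symm lL jL jl.symm (0) (0) (by norm_num) (by module)).elim
      · by_cases jR : j ∈ R
        · exact (W.r01 hk (hR j jR) lL 0 (by
          simp [ev_apply, ab.symm, lb.symm]) (by module)).elim
        · have := T.sup j ja jb jL jn jR
          omega
    · omega

/-- step `z` up from the single vector of `l` -/
theorem KW.B4 {l z : ℕ} (lL : l ∈ L) (zL : z ∈ L) (lz : l ≠ z) {M : ℕ → ℤ} (T : Tg n a b L R M)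
    (hM : J M) (h : 1 ≤ M z) (hF : J ((2 : ℤ) • ev a + (2 : ℤ) • ev b + (2 : ℤ) • ev l)) :
    M z = 2 ∧ D l z ∧ J ((2 : ℤ) • ev a + (2 : ℤ) • ev b + (2 : ℤ) • ev l + (2 : ℤ) • ev z) := by
  have ab := W.ab
  have na := W.na
  have nb := W.nb
  obtain ⟨la, lb, ln⟩ := W.L' lL
  obtain ⟨za, zb, zn⟩ := W.L' zL
  obtain ⟨j, δ, hδ, hlt, hk⟩ := W.st hF hM z (1) (Or.inr (Or.inr zL)) (Or.inl rfl) (by
    simp only [Pi.add_apply, Pi.smul_apply, Pi.zero_apply, ev_apply, smul_eq_mul, if_true, if_neg za, if_neg zb, if_neg lz.symm]; omega)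
  simp only [Pi.add_apply, Pi.smul_apply, Pi.zero_apply, ev_apply, smul_eq_mul] at hlt
  have hc : j = n ∨ j = a ∨ j = b ∨ j = l ∨ j = z ∨ (j ≠ n ∧ j ≠ a ∧ j ≠ b ∧ j ≠ l ∧ j ≠ z) := by omega
  rcases hc with h1 | h1 | h1 | h1 | h1 | ⟨jn, ja, jb, jl, jz⟩
  · rw [h1] at hk
    exact (W.x21 hk hFr nb.symm lL zL lL lz (1) (δ) (by norm_num) (by module)).elim
  · rw [h1] at hlt hk
    have hle := T.le a na.symm
    have hnn := T.nn a na.symm
    simp only [if_true, if_neg ab, if_neg la.symm, if_neg za.symm] at hlt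
    rcases hδ with h2 | h2 <;> rw [h2] at hlt hk
    · omega
    · exact (W.x12 hk hFr nb.symm lL lL zL lz (0) (0) (by norm_num) (by module)).elim
  · rw [h1] at hlt hk
    have hle := T.le b nb.symm
    have hnn := T.nn b nb.symm
    simp only [if_true, if_neg ab.symm, if_neg lb.symm, if_neg zb.symm] at hlt
    rcases hδ with h2 | h2 <;> rw [h2] at hlt hk
    · omega
    · exact (W.x21 hk hFr nb.symm lL zL lL lz (0) (0) (by norm_num) (by module)).elim
  · rw [h1] at hlt hk
    have hle := T.le l ln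
    have hnn := T.nn l ln
    simp only [if_true, if_neg la, if_neg lb, if_neg lz] at hlt
    rcases hδ with h2 | h2 <;> rw [h2] at hlt hk
    · omega
    · exact (W.x20 hk hFr nb.symm lL zL lz (2) (0) (by norm_num) (by module)).elim
  · rw [h1] at hlt hk
    have hle := T.le z zn
    have hnn := T.nn z zn
    simp only [if_true, if_neg za, if_neg zb, if_neg lz.symm] at hlt
    rcases hδ with h2 | h2 <;> rw [h2] at hlt hk
    · by_cases hD : D l z
      · refine ⟨by omega, hD, ?_⟩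
        convert hk using 1
        module
      · exact (W.x2e hk hFr nb.symm lL zL lz hD 0 0 (by norm_num) (by module)).elim
    · omega
  · have hnn := T.nn j jn
    simp only [if_neg ja, if_neg jb, if_neg jl, if_neg jz] at hlt
    rcases hδ with h2 | h2 <;> rw [h2] at hlt hk
    · by_cases jL : j ∈ L
      · exact (W.x22 hk hFr nb.symm lL zL jL lz jl.symm jz.symm (0) (0) (by norm_num) (by module)).elim
      · by_cases jR : j ∈ R
        · exact (W.r21 hk (hR j jR) lL zL lL lz 0 (by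
          simp [ev_apply, ab.symm, lb.symm, zb.symm]) (by module)).elim
        · have := T.sup j ja jb jL jn jR
          omega
    · omega

end Pool.Agent.PF4.XF

end

section -- file PF4/KWA

/-!
Clusters with both hubs in `T` and one free leaf `y`: the steps.
-/

set_option autoImplicit false
set_option linter.unusedSectionVars false
set_option linter.unusedVariables false
set_option linter.unusedSimpArgs false

namespace Pool.Agent.PF4.XF

open Finset Pool.Agent.TFC

variable {n a b : ℕ} {L R : Finset ℕ} {Fr : ℕ → Prop} {Rp : ℕ → ℕ → Prop} {D : ℕ → ℕ → Prop} {J : (ℕ → ℤ) → Prop}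
variable (W : KW n a b L Fr Rp D J)
include W

/-- step `a` down from the witness of the pair `p y` -/
theorem KW.A1 {p y : ℕ} (hFr : Fr y) (yL : y ∈ L) (hR : ∀ r ∈ R, Rp y r) (pL : p ∈ L) (py : p ≠ y) {M : ℕ → ℤ} (T : Tg n a b L R M)
    (hM : J M) (h : M a ≤ 1) (hF : J ((2 : ℤ) • ev a + (2 : ℤ) • ev b + (2 : ℤ) • ev p + (2 : ℤ) • ev y)) :
    M a = 0 ∧ J ((2 : ℤ) • ev b + (2 : ℤ) • ev p + (2 : ℤ) • ev y) := by
  have ab := W.ab
  have na := W.na
  have nb := W.nb
  obtain ⟨pa, pb, pn⟩ := W.L' pL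
  obtain ⟨ya, yb, yn⟩ := W.L' yL
  obtain ⟨j, δ, hδ, hlt, hk⟩ := W.st hF hM a (-1) (Or.inl rfl) (Or.inr rfl) (by
    simp only [Pi.add_apply, Pi.smul_apply, Pi.zero_apply, ev_apply, smul_eq_mul, if_true, if_neg ab, if_neg pa.symm, if_neg ya.symm]; omega)
  simp only [Pi.add_apply, Pi.smul_apply, Pi.zero_apply, ev_apply, smul_eq_mul] at hlt
  have hc : j = n ∨ j = a ∨ j = b ∨ j = p ∨ j = y ∨ (j ≠ n ∧ j ≠ a ∧ j ≠ b ∧ j ≠ p ∧ j ≠ y) := by omega
  rcases hc with h1 | h1 | h1 | h1 | h1 | ⟨jn, ja, jb, jp, jy⟩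
  · rw [h1] at hk
    exact (W.x12 hk hFr yn pL pL yL py (1) (δ) (by norm_num) (by module)).elim
  · rw [h1] at hlt hk
    have hle := T.le a na.symm
    have hnn := T.nn a na.symm
    simp only [if_true, if_neg ab, if_neg pa.symm, if_neg ya.symm] at hlt
    rcases hδ with h2 | h2 <;> rw [h2] at hlt hk
    · omega
    · refine ⟨by omega, ?_⟩
      convert hk using 1
      module
  · rw [h1] at hlt hk
    have hle := T.le b nb.symm
    have hnn := T.nn b nb.symm
    simp only [if_true, if_neg ab.symm, if_neg pb.symm, if_neg yb.symm] at hlt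
    rcases hδ with h2 | h2 <;> rw [h2] at hlt hk
    · omega
    · exact (W.x11 hk hFr yn pL pL (2) (0) (by norm_num) (by module)).elim
  · rw [h1] at hlt hk
    have hle := T.le p pn
    have hnn := T.nn p pn
    simp only [if_true, if_neg pa, if_neg pb, if_neg py] at hlt
    rcases hδ with h2 | h2 <;> rw [h2] at hlt hk
    · omega
    · exact (W.x12 hk hFr yn yL pL yL py (0) (0) (by norm_num) (by module)).elim
  · rw [h1] at hlt hk
    have hle := T.le y yn
    have hnn := T.nn y yn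
    simp only [if_true, if_neg ya, if_neg yb, if_neg py.symm] at hlt
    rcases hδ with h2 | h2 <;> rw [h2] at hlt hk
    · omega
    · exact (W.x12 hk hFr yn pL pL yL py (0) (0) (by norm_num) (by module)).elim
  · have hnn := T.nn j jn
    simp only [if_neg ja, if_neg jb, if_neg jp, if_neg jy] at hlt
    rcases hδ with h2 | h2 <;> rw [h2] at hlt hk
    · by_cases jL : j ∈ L
      · exact (W.x12 hk hFr yn pL pL jL jp.symm (2) (0) (by norm_num) (by module)).elim
      · by_cases jR : j ∈ R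
        · exact (W.r12 hk (hR j jR) pL pL yL py 0 (by
          simp [ev_apply, ya, yb, py.symm]) (by module)).elim
        · have := T.sup j ja jb jL jn jR
          omega
    · omega

theorem KW.A2 {p y : ℕ} (hFr : Fr y) (yL : y ∈ L) (hR : ∀ r ∈ R, Rp y r) (pL : p ∈ L) (py : p ≠ y) {M : ℕ → ℤ} (T : Tg n a b L R M)
    (hM : J M) (h : M p ≤ 1) (hF : J ((2 : ℤ) • ev b + (2 : ℤ) • ev p + (2 : ℤ) • ev y)) :
    M p = 0 ∧ J ((2 : ℤ) • ev b + (2 : ℤ) • ev y) := by
  have ab := W.ab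
  have na := W.na
  have nb := W.nb
  obtain ⟨pa, pb, pn⟩ := W.L' pL
  obtain ⟨ya, yb, yn⟩ := W.L' yL
  obtain ⟨j, δ, hδ, hlt, hk⟩ := W.st hF hM p (-1) (Or.inr (Or.inr pL)) (Or.inr rfl) (by
    simp only [Pi.add_apply, Pi.smul_apply, Pi.zero_apply, ev_apply, smul_eq_mul, if_true, if_neg pb, if_neg py]; omega)
  simp only [Pi.add_apply, Pi.smul_apply, Pi.zero_apply, ev_apply, smul_eq_mul] at hlt
  have hc : j = n ∨ j = a ∨ j = b ∨ j = p ∨ j = y ∨ (j ≠ n ∧ j ≠ a ∧ j ≠ b ∧ j ≠ p ∧ j ≠ y) := by omega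
  rcases hc with h1 | h1 | h1 | h1 | h1 | ⟨jn, ja, jb, jp, jy⟩
  · rw [h1] at hk
    exact (W.x02 hk hFr yn pL yL py (1) (δ) (by norm_num) (by module)).elim
  · rw [h1] at hlt hk
    have hle := T.le a na.symm
    have hnn := T.nn a na.symm
    simp only [if_true, if_neg ab, if_neg pa.symm, if_neg ya.symm] at hlt
    rcases hδ with h2 | h2 <;> rw [h2] at hlt hk
    · exact (W.x12 hk hFr yn yL pL yL py (0) (0) (by norm_num) (by module)).elim
    · omega
  · rw [h1] at hlt hk
    have hle := T.le b nb.symm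
    have hnn := T.nn b nb.symm
    simp only [if_true, if_neg pb.symm, if_neg yb.symm] at hlt
    rcases hδ with h2 | h2 <;> rw [h2] at hlt hk
    · omega
    · exact (W.x01 hk hFr yn pL (2) (0) (by norm_num) (by module)).elim
  · rw [h1] at hlt hk
    have hle := T.le p pn
    have hnn := T.nn p pn
    simp only [if_true, if_neg pb, if_neg py] at hlt
    rcases hδ with h2 | h2 <;> rw [h2] at hlt hk
    · omega
    · refine ⟨by omega, ?_⟩
      convert hk using 1
      module
  · rw [h1] at hlt hk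
    have hle := T.le y yn
    have hnn := T.nn y yn
    simp only [if_true, if_neg yb, if_neg py.symm] at hlt
    rcases hδ with h2 | h2 <;> rw [h2] at hlt hk
    · omega
    · exact (W.x02 hk hFr yn pL yL py (0) (0) (by norm_num) (by module)).elim
  · have hnn := T.nn j jn
    simp only [if_neg jb, if_neg jp, if_neg jy] at hlt
    rcases hδ with h2 | h2 <;> rw [h2] at hlt hk
    · by_cases jL : j ∈ L
      · exact (W.x02 hk hFr yn pL jL jp.symm (2) (0) (by norm_num) (by module)).elim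
      · by_cases jR : j ∈ R
        · exact (W.r02 hk (hR j jR) pL yL py 0 (by
          simp [ev_apply, ya, yb, py.symm]) (by module)).elim
        · have := T.sup j ja jb jL jn jR
          omega
    · omega

theorem KW.A3 {y : ℕ} (hFr : Fr y) (yL : y ∈ L) (hR : ∀ r ∈ R, Rp y r) {M : ℕ → ℤ} (T : Tg n a b L R M)
    (hM : J M) (h : M b ≤ 1) (hF : J ((2 : ℤ) • ev b + (2 : ℤ) • ev y)) :
    False := by
  have ab := W.ab
  have na := W.na
  have nb := W.nb
  obtain ⟨ya, yb, yn⟩ := W.L' yL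
  obtain ⟨j, δ, hδ, hlt, hk⟩ := W.st hF hM b (-1) (Or.inr (Or.inl rfl)) (Or.inr rfl) (by
    simp only [Pi.add_apply, Pi.smul_apply, Pi.zero_apply, ev_apply, smul_eq_mul, if_true, if_neg yb.symm]; omega)
  simp only [Pi.add_apply, Pi.smul_apply, Pi.zero_apply, ev_apply, smul_eq_mul] at hlt
  have hc : j = n ∨ j = a ∨ j = b ∨ j = y ∨ (j ≠ n ∧ j ≠ a ∧ j ≠ b ∧ j ≠ y) := by omega
  rcases hc with h1 | h1 | h1 | h1 | ⟨jn, ja, jb, jy⟩
  · rw [h1] at hk
    exact (W.x01 hk hFr yn yL (1) (δ) (by norm_num) (by module)).elim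
  · rw [h1] at hlt hk
    have hle := T.le a na.symm
    have hnn := T.nn a na.symm
    simp only [if_true, if_neg ab, if_neg ya.symm] at hlt
    rcases hδ with h2 | h2 <;> rw [h2] at hlt hk
    · exact (W.x11 hk hFr yn yL yL (0) (0) (by norm_num) (by module)).elim
    · omega
  · rw [h1] at hlt hk
    have hle := T.le b nb.symm
    have hnn := T.nn b nb.symm
    simp only [if_true, if_neg yb.symm] at hlt
    rcases hδ with h2 | h2 <;> rw [h2] at hlt hk
    · omega
    · exact (W.x00 hk hFr yn  (2) (0) (by norm_num) (by module)).elim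
  · rw [h1] at hlt hk
    have hle := T.le y yn
    have hnn := T.nn y yn
    simp only [if_true, if_neg yb] at hlt
    rcases hδ with h2 | h2 <;> rw [h2] at hlt hk
    · omega
    · exact (W.x01 hk hFr yn yL (0) (0) (by norm_num) (by module)).elim
  · have hnn := T.nn j jn
    simp only [if_neg jb, if_neg jy] at hlt
    rcases hδ with h2 | h2 <;> rw [h2] at hlt hk
    · by_cases jL : j ∈ L
      · exact (W.x01 hk hFr yn jL (2) (0) (by norm_num) (by module)).elim
      · by_cases jR : j ∈ R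
        · exact (W.r01 hk (hR j jR) yL 0 (by
          simp [ev_apply, ya, yb]) (by module)).elim
        · have := T.sup j ja jb jL jn jR
          omega
    · omega

/-- step `b` down from the witness of the pair `p y` -/
theorem KW.A1b {p y : ℕ} (hFr : Fr y) (yL : y ∈ L) (hR : ∀ r ∈ R, Rp y r) (pL : p ∈ L) (py : p ≠ y) {M : ℕ → ℤ} (T : Tg n a b L R M)
    (hM : J M) (h : M b ≤ 1) (hF : J ((2 : ℤ) • ev a + (2 : ℤ) • ev b + (2 : ℤ) • ev p + (2 : ℤ) • ev y)) :
    M b = 0 ∧ J ((2 : ℤ) • ev a + (2 : ℤ) • ev p + (2 : ℤ) • ev y) := by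
  have ab := W.ab
  have na := W.na
  have nb := W.nb
  obtain ⟨pa, pb, pn⟩ := W.L' pL
  obtain ⟨ya, yb, yn⟩ := W.L' yL
  obtain ⟨j, δ, hδ, hlt, hk⟩ := W.st hF hM b (-1) (Or.inr (Or.inl rfl)) (Or.inr rfl) (by
    simp only [Pi.add_apply, Pi.smul_apply, Pi.zero_apply, ev_apply, smul_eq_mul, if_true, if_neg ab.symm, if_neg pb.symm, if_neg yb.symm]; omega)
  simp only [Pi.add_apply, Pi.smul_apply, Pi.zero_apply, ev_apply, smul_eq_mul] at hlt
  have hc : j = n ∨ j = a ∨ j = b ∨ j = p ∨ j = y ∨ (j ≠ n ∧ j ≠ a ∧ j ≠ b ∧ j ≠ p ∧ j ≠ y) := by omega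
  rcases hc with h1 | h1 | h1 | h1 | h1 | ⟨jn, ja, jb, jp, jy⟩
  · rw [h1] at hk
    exact (W.x21 hk hFr yn pL yL pL py (1) (δ) (by norm_num) (by module)).elim
  · rw [h1] at hlt hk
    have hle := T.le a na.symm
    have hnn := T.nn a na.symm
    simp only [if_true, if_neg ab, if_neg pa.symm, if_neg ya.symm] at hlt
    rcases hδ with h2 | h2 <;> rw [h2] at hlt hk
    · omega
    · exact (W.x11 hk hFr yn pL pL (2) (0) (by norm_num) (by module)).elim
  · rw [h1] at hlt hk
    have hle := T.le b nb.symm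
    have hnn := T.nn b nb.symm
    simp only [if_true, if_neg ab.symm, if_neg pb.symm, if_neg yb.symm] at hlt
    rcases hδ with h2 | h2 <;> rw [h2] at hlt hk
    · omega
    · refine ⟨by omega, ?_⟩
      convert hk using 1
      module
  · rw [h1] at hlt hk
    have hle := T.le p pn
    have hnn := T.nn p pn
    simp only [if_true, if_neg pa, if_neg pb, if_neg py] at hlt
    rcases hδ with h2 | h2 <;> rw [h2] at hlt hk
    · omega
    · exact (W.x21 hk hFr yn pL yL yL py (0) (0) (by norm_num) (by module)).elim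
  · rw [h1] at hlt hk
    have hle := T.le y yn
    have hnn := T.nn y yn
    simp only [if_true, if_neg ya, if_neg yb, if_neg py.symm] at hlt
    rcases hδ with h2 | h2 <;> rw [h2] at hlt hk
    · omega
    · exact (W.x21 hk hFr yn pL yL pL py (0) (0) (by norm_num) (by module)).elim
  · have hnn := T.nn j jn
    simp only [if_neg ja, if_neg jb, if_neg jp, if_neg jy] at hlt
    rcases hδ with h2 | h2 <;> rw [h2] at hlt hk
    · by_cases jL : j ∈ L
      · exact (W.x21 hk hFr yn pL jL pL jp.symm (2) (0) (by norm_num) (by module)).elim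
      · by_cases jR : j ∈ R
        · exact (W.r21 hk (hR j jR) pL yL pL py 0 (by
          simp [ev_apply, ya, yb, py.symm]) (by module)).elim
        · have := T.sup j ja jb jL jn jR
          omega
    · omega

theorem KW.A2b {p y : ℕ} (hFr : Fr y) (yL : y ∈ L) (hR : ∀ r ∈ R, Rp y r) (pL : p ∈ L) (py : p ≠ y) {M : ℕ → ℤ} (T : Tg n a b L R M)
    (hM : J M) (h : M p ≤ 1) (hF : J ((2 : ℤ) • ev a + (2 : ℤ) • ev p + (2 : ℤ) • ev y)) :
    M p = 0 ∧ J ((2 : ℤ) • ev a + (2 : ℤ) • ev y) := by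
  have ab := W.ab
  have na := W.na
  have nb := W.nb
  obtain ⟨pa, pb, pn⟩ := W.L' pL
  obtain ⟨ya, yb, yn⟩ := W.L' yL
  obtain ⟨j, δ, hδ, hlt, hk⟩ := W.st hF hM p (-1) (Or.inr (Or.inr pL)) (Or.inr rfl) (by
    simp only [Pi.add_apply, Pi.smul_apply, Pi.zero_apply, ev_apply, smul_eq_mul, if_true, if_neg pa, if_neg py]; omega)
  simp only [Pi.add_apply, Pi.smul_apply, Pi.zero_apply, ev_apply, smul_eq_mul] at hlt
  have hc : j = n ∨ j = a ∨ j = b ∨ j = p ∨ j = y ∨ (j ≠ n ∧ j ≠ a ∧ j ≠ b ∧ j ≠ p ∧ j ≠ y) := by omega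
  rcases hc with h1 | h1 | h1 | h1 | h1 | ⟨jn, ja, jb, jp, jy⟩
  · rw [h1] at hk
    exact (W.x20 hk hFr yn pL yL py (1) (δ) (by norm_num) (by module)).elim
  · rw [h1] at hlt hk
    have hle := T.le a na.symm
    have hnn := T.nn a na.symm
    simp only [if_true, if_neg pa.symm, if_neg ya.symm] at hlt
    rcases hδ with h2 | h2 <;> rw [h2] at hlt hk
    · omega
    · exact (W.x10 hk hFr yn pL (2) (0) (by norm_num) (by module)).elim
  · rw [h1] at hlt hk
    have hle := T.le b nb.symm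
    have hnn := T.nn b nb.symm
    simp only [if_true, if_neg ab.symm, if_neg pb.symm, if_neg yb.symm] at hlt
    rcases hδ with h2 | h2 <;> rw [h2] at hlt hk
    · exact (W.x21 hk hFr yn pL yL yL py (0) (0) (by norm_num) (by module)).elim
    · omega
  · rw [h1] at hlt hk
    have hle := T.le p pn
    have hnn := T.nn p pn
    simp only [if_true, if_neg pa, if_neg py] at hlt
    rcases hδ with h2 | h2 <;> rw [h2] at hlt hk
    · omega
    · refine ⟨by omega, ?_⟩
      convert hk using 1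
      module
  · rw [h1] at hlt hk
    have hle := T.le y yn
    have hnn := T.nn y yn
    simp only [if_true, if_neg ya, if_neg py.symm] at hlt
    rcases hδ with h2 | h2 <;> rw [h2] at hlt hk
    · omega
    · exact (W.x20 hk hFr yn pL yL py (0) (0) (by norm_num) (by module)).elim
  · have hnn := T.nn j jn
    simp only [if_neg ja, if_neg jp, if_neg jy] at hlt
    rcases hδ with h2 | h2 <;> rw [h2] at hlt hk
    · by_cases jL : j ∈ L
      · exact (W.x20 hk hFr yn pL jL jp.symm (2) (0) (by norm_num) (by module)).elim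
      · by_cases jR : j ∈ R
        · exact (W.r20 hk (hR j jR) pL yL py 0 (by
          simp [ev_apply, ya, yb, py.symm]) (by module)).elim
        · have := T.sup j ja jb jL jn jR
          omega
    · omega

theorem KW.A3b {y : ℕ} (hFr : Fr y) (yL : y ∈ L) (hR : ∀ r ∈ R, Rp y r) {M : ℕ → ℤ} (T : Tg n a b L R M)
    (hM : J M) (h : M a ≤ 1) (hF : J ((2 : ℤ) • ev a + (2 : ℤ) • ev y)) :
    False := by
  have ab := W.ab
  have na := W.na
  have nb := W.nb
  obtain ⟨ya, yb, yn⟩ := W.L' yL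
  obtain ⟨j, δ, hδ, hlt, hk⟩ := W.st hF hM a (-1) (Or.inl rfl) (Or.inr rfl) (by
    simp only [Pi.add_apply, Pi.smul_apply, Pi.zero_apply, ev_apply, smul_eq_mul, if_true, if_neg ya.symm]; omega)
  simp only [Pi.add_apply, Pi.smul_apply, Pi.zero_apply, ev_apply, smul_eq_mul] at hlt
  have hc : j = n ∨ j = a ∨ j = b ∨ j = y ∨ (j ≠ n ∧ j ≠ a ∧ j ≠ b ∧ j ≠ y) := by omega
  rcases hc with h1 | h1 | h1 | h1 | ⟨jn, ja, jb, jy⟩
  · rw [h1] at hk
    exact (W.x10 hk hFr yn yL (1) (δ) (by norm_num) (by module)).elim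
  · rw [h1] at hlt hk
    have hle := T.le a na.symm
    have hnn := T.nn a na.symm
    simp only [if_true, if_neg ya.symm] at hlt
    rcases hδ with h2 | h2 <;> rw [h2] at hlt hk
    · omega
    · exact (W.x00 hk hFr yn  (2) (0) (by norm_num) (by module)).elim
  · rw [h1] at hlt hk
    have hle := T.le b nb.symm
    have hnn := T.nn b nb.symm
    simp only [if_true, if_neg ab.symm, if_neg yb.symm] at hlt
    rcases hδ with h2 | h2 <;> rw [h2] at hlt hk
    · exact (W.x11 hk hFr yn yL yL (0) (0) (by norm_num) (by module)).elim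
    · omega
  · rw [h1] at hlt hk
    have hle := T.le y yn
    have hnn := T.nn y yn
    simp only [if_true, if_neg ya] at hlt
    rcases hδ with h2 | h2 <;> rw [h2] at hlt hk
    · omega
    · exact (W.x10 hk hFr yn yL (0) (0) (by norm_num) (by module)).elim
  · have hnn := T.nn j jn
    simp only [if_neg ja, if_neg jy] at hlt
    rcases hδ with h2 | h2 <;> rw [h2] at hlt hk
    · by_cases jL : j ∈ L
      · exact (W.x10 hk hFr yn jL (2) (0) (by norm_num) (by module)).elim
      · by_cases jR : j ∈ R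
        · exact (W.r10 hk (hR j jR) yL 0 (by
          simp [ev_apply, ya, yb]) (by module)).elim
        · have := T.sup j ja jb jL jn jR
          omega
    · omega

/-- step `l` up from the witness of the pair `p y` -/
theorem KW.A5 {p l y : ℕ} (hFr : Fr y) (yL : y ∈ L) (hR : ∀ r ∈ R, Rp y r) (pL : p ∈ L) (py : p ≠ y) (lL : l ∈ L) (pl : p ≠ l) (ly : l ≠ y) {M : ℕ → ℤ} (T : Tg n a b L R M)
    (hM : J M) (h : 1 ≤ M l) (hF : J ((2 : ℤ) • ev a + (2 : ℤ) • ev b + (2 : ℤ) • ev p + (2 : ℤ) • ev y)) :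
    M l = 2 ∧ D p l ∧ J ((2 : ℤ) • ev a + (2 : ℤ) • ev b + (2 : ℤ) • ev p + (2 : ℤ) • ev l + (2 : ℤ) • ev y) := by
  have ab := W.ab
  have na := W.na
  have nb := W.nb
  obtain ⟨pa, pb, pn⟩ := W.L' pL
  obtain ⟨ya, yb, yn⟩ := W.L' yL
  obtain ⟨la, lb, ln⟩ := W.L' lL
  obtain ⟨j, δ, hδ, hlt, hk⟩ := W.st hF hM l (1) (Or.inr (Or.inr lL)) (Or.inl rfl) (by
    simp only [Pi.add_apply, Pi.smul_apply, Pi.zero_apply, ev_apply, smul_eq_mul, if_true, if_neg la, if_neg lb, if_neg pl.symm, if_neg ly]; omega)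
  simp only [Pi.add_apply, Pi.smul_apply, Pi.zero_apply, ev_apply, smul_eq_mul] at hlt
  have hc : j = n ∨ j = a ∨ j = b ∨ j = p ∨ j = l ∨ j = y ∨ (j ≠ n ∧ j ≠ a ∧ j ≠ b ∧ j ≠ p ∧ j ≠ l ∧ j ≠ y) := by omega
  rcases hc with h1 | h1 | h1 | h1 | h1 | h1 | ⟨jn, ja, jb, jp, jl, jy⟩
  · rw [h1] at hk
    exact (W.x22 hk hFr yn pL lL yL pl py ly (1) (δ) (by norm_num) (by module)).elim
  · rw [h1] at hlt hk
    have hle := T.le a na.symm
    have hnn := T.nn a na.symm
    simp only [if_true, if_neg ab, if_neg pa.symm, if_neg la.symm, if_neg ya.symm] at hlt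
    rcases hδ with h2 | h2 <;> rw [h2] at hlt hk
    · omega
    · exact (W.x12 hk hFr yn pL pL lL pl (2) (0) (by norm_num) (by module)).elim
  · rw [h1] at hlt hk
    have hle := T.le b nb.symm
    have hnn := T.nn b nb.symm
    simp only [if_true, if_neg ab.symm, if_neg pb.symm, if_neg lb.symm, if_neg yb.symm] at hlt
    rcases hδ with h2 | h2 <;> rw [h2] at hlt hk
    · omega
    · exact (W.x21 hk hFr yn pL lL pL pl (2) (0) (by norm_num) (by module)).elim
  · rw [h1] at hlt hk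
    have hle := T.le p pn
    have hnn := T.nn p pn
    simp only [if_true, if_neg pa, if_neg pb, if_neg pl, if_neg py] at hlt
    rcases hδ with h2 | h2 <;> rw [h2] at hlt hk
    · omega
    · exact (W.x22 hk hFr yn yL pL lL py.symm ly.symm pl (0) (0) (by norm_num) (by module)).elim
  · rw [h1] at hlt hk
    have hle := T.le l ln
    have hnn := T.nn l ln
    simp only [if_true, if_neg la, if_neg lb, if_neg pl.symm, if_neg ly] at hlt
    rcases hδ with h2 | h2 <;> rw [h2] at hlt hk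
    · by_cases hD : D p l
      · refine ⟨by omega, hD, ?_⟩
        convert hk using 1
        module
      · exact (W.x2e hk hFr yn pL lL pl hD 2 0 (by norm_num) (by module)).elim
    · omega
  · rw [h1] at hlt hk
    have hle := T.le y yn
    have hnn := T.nn y yn
    simp only [if_true, if_neg ya, if_neg yb, if_neg py.symm, if_neg ly.symm] at hlt
    rcases hδ with h2 | h2 <;> rw [h2] at hlt hk
    · omega
    · exact (W.x22 hk hFr yn pL lL yL pl py ly (0) (0) (by norm_num) (by module)).elim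
  · have hnn := T.nn j jn
    simp only [if_neg ja, if_neg jb, if_neg jp, if_neg jl, if_neg jy] at hlt
    rcases hδ with h2 | h2 <;> rw [h2] at hlt hk
    · by_cases jL : j ∈ L
      · exact (W.x22 hk hFr yn pL lL jL pl jp.symm jl.symm (2) (0) (by norm_num) (by module)).elim
      · by_cases jR : j ∈ R
        · exact (W.r22 hk (hR j jR) pL lL yL pl py ly 0 (by
          simp [ev_apply, ya, yb, ly.symm, py.symm]) (by module)).elim
        · have := T.sup j ja jb jL jn jR
          omega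
    · omega

theorem KW.A6 {p l y : ℕ} (hFr : Fr y) (yL : y ∈ L) (hR : ∀ r ∈ R, Rp y r) (pL : p ∈ L) (py : p ≠ y) (lL : l ∈ L) (pl : p ≠ l) (ly : l ≠ y) {M : ℕ → ℤ} (T : Tg n a b L R M)
    (hM : J M) (h : M p ≤ 1) (hF : J ((2 : ℤ) • ev a + (2 : ℤ) • ev b + (2 : ℤ) • ev p + (2 : ℤ) • ev l + (2 : ℤ) • ev y)) :
    M p = 0 ∧ D l y ∧ J ((2 : ℤ) • ev a + (2 : ℤ) • ev b + (2 : ℤ) • ev l + (2 : ℤ) • ev y) := by
  have ab := W.ab
  have na := W.na
  have nb := W.nb
  obtain ⟨pa, pb, pn⟩ := W.L' pL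
  obtain ⟨ya, yb, yn⟩ := W.L' yL
  obtain ⟨la, lb, ln⟩ := W.L' lL
  obtain ⟨j, δ, hδ, hlt, hk⟩ := W.st hF hM p (-1) (Or.inr (Or.inr pL)) (Or.inr rfl) (by
    simp only [Pi.add_apply, Pi.smul_apply, Pi.zero_apply, ev_apply, smul_eq_mul, if_true, if_neg pa, if_neg pb, if_neg pl, if_neg py]; omega)
  simp only [Pi.add_apply, Pi.smul_apply, Pi.zero_apply, ev_apply, smul_eq_mul] at hlt
  have hc : j = n ∨ j = a ∨ j = b ∨ j = p ∨ j = l ∨ j = y ∨ (j ≠ n ∧ j ≠ a ∧ j ≠ b ∧ j ≠ p ∧ j ≠ l ∧ j ≠ y) := by omega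
  rcases hc with h1 | h1 | h1 | h1 | h1 | h1 | ⟨jn, ja, jb, jp, jl, jy⟩
  · rw [h1] at hk
    exact (W.x22 hk hFr yn lL pL yL pl.symm ly py (1) (δ) (by norm_num) (by module)).elim
  · rw [h1] at hlt hk
    have hle := T.le a na.symm
    have hnn := T.nn a na.symm
    simp only [if_true, if_neg ab, if_neg pa.symm, if_neg la.symm, if_neg ya.symm] at hlt
    rcases hδ with h2 | h2 <;> rw [h2] at hlt hk
    · omega
    · exact (W.x12 hk hFr yn lL pL lL pl (2) (0) (by norm_num) (by module)).elim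
  · rw [h1] at hlt hk
    have hle := T.le b nb.symm
    have hnn := T.nn b nb.symm
    simp only [if_true, if_neg ab.symm, if_neg pb.symm, if_neg lb.symm, if_neg yb.symm] at hlt
    rcases hδ with h2 | h2 <;> rw [h2] at hlt hk
    · omega
    · exact (W.x21 hk hFr yn pL lL lL pl (2) (0) (by norm_num) (by module)).elim
  · rw [h1] at hlt hk
    have hle := T.le p pn
    have hnn := T.nn p pn
    simp only [if_true, if_neg pa, if_neg pb, if_neg pl, if_neg py] at hlt
    rcases hδ with h2 | h2 <;> rw [h2] at hlt hk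
    · omega
    · by_cases hD : D l y
      · refine ⟨by omega, hD, ?_⟩
        convert hk using 1
        module
      · exact (W.x2e hk hFr yn lL yL ly hD 0 0 (by norm_num) (by module)).elim
  · rw [h1] at hlt hk
    have hle := T.le l ln
    have hnn := T.nn l ln
    simp only [if_true, if_neg la, if_neg lb, if_neg pl.symm, if_neg ly] at hlt
    rcases hδ with h2 | h2 <;> rw [h2] at hlt hk
    · omega
    · exact (W.x22 hk hFr yn yL pL lL py.symm ly.symm pl (0) (0) (by norm_num) (by module)).elim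
  · rw [h1] at hlt hk
    have hle := T.le y yn
    have hnn := T.nn y yn
    simp only [if_true, if_neg ya, if_neg yb, if_neg py.symm, if_neg ly.symm] at hlt
    rcases hδ with h2 | h2 <;> rw [h2] at hlt hk
    · omega
    · exact (W.x22 hk hFr yn lL pL yL pl.symm ly py (0) (0) (by norm_num) (by module)).elim
  · have hnn := T.nn j jn
    simp only [if_neg ja, if_neg jb, if_neg jp, if_neg jl, if_neg jy] at hlt
    rcases hδ with h2 | h2 <;> rw [h2] at hlt hk
    · by_cases jL : j ∈ L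
      · exact (W.x22 hk hFr yn lL pL jL pl.symm jl.symm jp.symm (2) (0) (by norm_num) (by module)).elim
      · by_cases jR : j ∈ R
        · exact (W.r22 hk (hR j jR) lL pL yL pl.symm ly py 0 (by
          simp [ev_apply, ya, yb, ly.symm, py.symm]) (by module)).elim
        · have := T.sup j ja jb jL jn jR
          omega
    · omega

/-- the free vertex `y` has no further edge to a leaf -/
theorem KW.A8 {p l y : ℕ} (hFr : Fr y) (yL : y ∈ L) (hR : ∀ r ∈ R, Rp y r) (pL : p ∈ L) (py : p ≠ y) (lL : l ∈ L) (pl : p ≠ l) (ly : l ≠ y) (hyl : Rp y l) {M : ℕ → ℤ} (T : Tg n a b L R M)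
    (hM : J M) (h : 1 ≤ M l) (hF : J ((2 : ℤ) • ev a + (2 : ℤ) • ev b + (2 : ℤ) • ev p + (2 : ℤ) • ev y)) :
    False := by
  have ab := W.ab
  have na := W.na
  have nb := W.nb
  obtain ⟨pa, pb, pn⟩ := W.L' pL
  obtain ⟨ya, yb, yn⟩ := W.L' yL
  obtain ⟨la, lb, ln⟩ := W.L' lL
  obtain ⟨j, δ, hδ, hlt, hk⟩ := W.st hF hM l (1) (Or.inr (Or.inr lL)) (Or.inl rfl) (by
    simp only [Pi.add_apply, Pi.smul_apply, Pi.zero_apply, ev_apply, smul_eq_mul, if_true, if_neg la, if_neg lb, if_neg pl.symm, if_neg ly]; omega)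
  simp only [Pi.add_apply, Pi.smul_apply, Pi.zero_apply, ev_apply, smul_eq_mul] at hlt
  have hc : j = n ∨ j = a ∨ j = b ∨ j = p ∨ j = l ∨ j = y ∨ (j ≠ n ∧ j ≠ a ∧ j ≠ b ∧ j ≠ p ∧ j ≠ l ∧ j ≠ y) := by omega
  rcases hc with h1 | h1 | h1 | h1 | h1 | h1 | ⟨jn, ja, jb, jp, jl, jy⟩
  · rw [h1] at hk
    exact (W.x22 hk hFr yn pL lL yL pl py ly (1) (δ) (by norm_num) (by module)).elim
  · rw [h1] at hlt hk
    have hle := T.le a na.symm
    have hnn := T.nn a na.symm
    simp only [if_true, if_neg ab, if_neg pa.symm, if_neg la.symm, if_neg ya.symm] at hlt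
    rcases hδ with h2 | h2 <;> rw [h2] at hlt hk
    · omega
    · exact (W.x12 hk hFr yn pL pL lL pl (2) (0) (by norm_num) (by module)).elim
  · rw [h1] at hlt hk
    have hle := T.le b nb.symm
    have hnn := T.nn b nb.symm
    simp only [if_true, if_neg ab.symm, if_neg pb.symm, if_neg lb.symm, if_neg yb.symm] at hlt
    rcases hδ with h2 | h2 <;> rw [h2] at hlt hk
    · omega
    · exact (W.x21 hk hFr yn pL lL pL pl (2) (0) (by norm_num) (by module)).elim
  · rw [h1] at hlt hk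
    have hle := T.le p pn
    have hnn := T.nn p pn
    simp only [if_true, if_neg pa, if_neg pb, if_neg pl, if_neg py] at hlt
    rcases hδ with h2 | h2 <;> rw [h2] at hlt hk
    · omega
    · exact (W.x22 hk hFr yn yL pL lL py.symm ly.symm pl (0) (0) (by norm_num) (by module)).elim
  · rw [h1] at hlt hk
    have hle := T.le l ln
    have hnn := T.nn l ln
    simp only [if_true, if_neg la, if_neg lb, if_neg pl.symm, if_neg ly] at hlt
    rcases hδ with h2 | h2 <;> rw [h2] at hlt hk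
    · exact W.r22 hk hyl pL lL yL pl py ly 0 (by simp [ev_apply, ya, yb, py.symm, ly.symm]) (by module)
    · omega
  · rw [h1] at hlt hk
    have hle := T.le y yn
    have hnn := T.nn y yn
    simp only [if_true, if_neg ya, if_neg yb, if_neg py.symm, if_neg ly.symm] at hlt
    rcases hδ with h2 | h2 <;> rw [h2] at hlt hk
    · omega
    · exact (W.x22 hk hFr yn pL lL yL pl py ly (0) (0) (by norm_num) (by module)).elim
  · have hnn := T.nn j jn
    simp only [if_neg ja, if_neg jb, if_neg jp, if_neg jl, if_neg jy] at hlt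
    rcases hδ with h2 | h2 <;> rw [h2] at hlt hk
    · by_cases jL : j ∈ L
      · exact (W.x22 hk hFr yn pL lL jL pl jp.symm jl.symm (2) (0) (by norm_num) (by module)).elim
      · by_cases jR : j ∈ R
        · exact (W.r22 hk (hR j jR) pL lL yL pl py ly 0 (by
          simp [ev_apply, ya, yb, ly.symm, py.symm]) (by module)).elim
        · have := T.sup j ja jb jL jn jR
          omega
    · omega

end Pool.Agent.PF4.XF

end

section -- file PF4/KWL

/-!
The one-world lemmas for clusters with one free vertex: the position of the near covers, the free corner lemma.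
-/

set_option autoImplicit false
set_option linter.unusedSectionVars false
set_option linter.unusedVariables false
set_option linter.unusedSimpArgs false

namespace Pool.Agent.PF4.XF

open Finset Pool.Agent.TFC

lemma sum_ev {A : List ℕ} (h : A.Nodup) (v : ℕ) : ((A.map ev).sum : ℕ → ℤ) v = if v ∈ A then 1 else 0 := by
  induction A with
  | nil => simp
  | cons x A ih =>
    obtain ⟨h1, h2⟩ := List.nodup_cons.1 h
    rw [List.map_cons, List.sum_cons, Pi.add_apply, ih h2, ev_apply]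
    by_cases hx : v = x
    · subst hx
      simp [h1]
    · simp [hx]

variable {n a b : ℕ} {L R : Finset ℕ} {Fr : ℕ → Prop} {Rp : ℕ → ℕ → Prop} {D : ℕ → ℕ → Prop}
  {J : (ℕ → ℤ) → Prop} {A B : List ℕ}

lemma Gd.kv_apply (g : Gd L D A B) (v : ℕ) :
    kv a b A B v = (A.length : ℤ) * (if v = a then 1 else 0) + (B.length : ℤ) * (if v = b then 1 else 0) +
      (if v ∈ A then 1 else 0) + (if v ∈ B then 1 else 0) := by
  simp only [kv, Pi.add_apply, Pi.smul_apply, ev_apply, smul_eq_mul, sum_ev g.nA, sum_ev g.nB]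

lemma KW.kv_a (W : KW n a b L Fr Rp D J) (g : Gd L D A B) : kv a b A B a = A.length := by
  rw [g.kv_apply, if_pos rfl, if_neg W.ab, if_neg (fun h => W.aL (g.lA _ h)), if_neg (fun h => W.aL (g.lB _ h))]
  ring

lemma KW.kv_b (W : KW n a b L Fr Rp D J) (g : Gd L D A B) : kv a b A B b = B.length := by
  rw [g.kv_apply, if_pos rfl, if_neg W.ab.symm, if_neg (fun h => W.bL (g.lA _ h)), if_neg (fun h => W.bL (g.lB _ h))]
  ring

lemma KW.kv_l (W : KW n a b L Fr Rp D J) (g : Gd L D A B) {v : ℕ} (hv : v ∈ L) :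
    kv a b A B v = (if v ∈ A then 1 else 0) + (if v ∈ B then 1 else 0) := by
  obtain ⟨h1, h2, h3⟩ := W.L' hv
  rw [g.kv_apply, if_neg h1, if_neg h2]
  ring

lemma KW.kv_o (W : KW n a b L Fr Rp D J) (g : Gd L D A B) {v : ℕ} (ha : v ≠ a) (hb : v ≠ b) (hv : v ∉ L) :
    kv a b A B v = 0 := by
  rw [g.kv_apply, if_neg ha, if_neg hb, if_neg (fun h => hv (g.lA _ h)), if_neg (fun h => hv (g.lB _ h))]
  ring

lemma KW.kv_nn (W : KW n a b L Fr Rp D J) (g : Gd L D A B) (v : ℕ) : 0 ≤ kv a b A B v := by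
  rw [g.kv_apply]
  have h1 : (0 : ℤ) ≤ A.length := by positivity
  have h2 : (0 : ℤ) ≤ B.length := by positivity
  split_ifs <;> omega

lemma KW.kv_le (W : KW n a b L Fr Rp D J) (g : Gd L D A B) (v : ℕ) : kv a b A B v ≤ 2 := by
  by_cases ha : v = a
  · have := g.cA
    rw [ha, W.kv_a g]; omega
  by_cases hb : v = b
  · have := g.cB
    rw [hb, W.kv_b g]; omega
  by_cases hv : v ∈ L
  · rw [W.kv_l g hv]; split_ifs <;> omega
  · rw [W.kv_o g ha hb hv]; omega

/-- the demand vector of a near cover -/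
def nv (n a b w : ℕ) (A B : List ℕ) : ℕ → ℤ := kv a b A B + ev w + ev n

lemma nv_apply {w v : ℕ} (hv : v ≠ n) : nv n a b w A B v = kv a b A B v + if v = w then 1 else 0 := by
  simp [nv, ev_apply, hv]

lemma KW.tg (W : KW n a b L Fr Rp D J) (g : Gd L D A B) {w : ℕ} (hw : w = a ∨ w = b ∨ w ∈ L)
    (h1 : kv a b A B w ≤ 1) : Tg n a b L ∅ (nv n a b w A B) := by
  refine ⟨?_, ?_, ?_⟩
  · intro v hv
    rw [nv_apply hv]
    have := W.kv_nn g v
    split_ifs <;> omega
  · intro v hv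
    rw [nv_apply hv]
    have := W.kv_le g v
    split_ifs with h
    · rw [h]; omega
    · omega
  · intro v ha hb hL hn _
    rw [nv_apply hn, W.kv_o g ha hb hL, if_neg]
    · ring
    · rintro rfl
      rcases hw with h | h | h
      · exact ha h
      · exact hb h
      · exact hL h

/-- the demand vector of a witness as a target -/
lemma KW.tgF (W : KW n a b L Fr Rp D J) {u w : ℕ} (hD : D u w) :
    Tg n a b L R ((2 : ℤ) • ev a + (2 : ℤ) • ev b + (2 : ℤ) • ev u + (2 : ℤ) • ev w) := by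
  obtain ⟨uL, wL, uw, ua, ub, un, wa, wb, wn⟩ := W.DL' hD
  have ab := W.ab
  refine ⟨?_, ?_, ?_⟩
  · intro v hv
    simp only [Pi.add_apply, Pi.smul_apply, ev_apply, smul_eq_mul]
    split_ifs <;> omega
  · intro v hv
    simp only [Pi.add_apply, Pi.smul_apply, ev_apply, smul_eq_mul]
    split_ifs <;> omega
  · intro v ha hb hL hn _
    have h1 : v ≠ u := by rintro rfl; exact hL uL
    have h2 : v ≠ w := by rintro rfl; exact hL wL
    simp [ev_apply, ha, hb, h1, h2]

lemma two_of_len {A : List ℕ} (h : A.Nodup) (h2 : 2 ≤ A.length) {x : ℕ} (hx : x ∈ A) : ∃ z ∈ A, z ≠ x := by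
  match A, h, h2 with
  | [], _, h2 => simp at h2
  | [y], _, h2 => simp at h2
  | y :: z :: A', h, _ =>
    by_cases hy : y = x
    · refine ⟨z, by simp, ?_⟩
      rintro rfl
      rw [hy] at h
      simp at h
    · exact ⟨y, by simp, hy⟩

lemma mem_of_len2 {A : List ℕ} (h2 : A.length ≤ 2) (hn : A.Nodup) {x z v : ℕ} (hx : x ∈ A) (hz : z ∈ A) (hxz : x ≠ z)
    (hv : v ∈ A) : v = x ∨ v = z := by
  match A, hn, h2 with
  | [], _, h2 => simp at hx
  | [y], _, h2 =>
    simp only [List.mem_singleton] at hx hz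
    exact absurd (hx.trans hz.symm) hxz
  | [y, y'], h, _ =>
    simp only [List.mem_cons, List.not_mem_nil, or_false] at hx hz hv
    rcases hx with rfl | rfl <;> rcases hz with rfl | rfl <;> rcases hv with rfl | rfl <;> simp_all
  | y :: y' :: y'' :: A', _, h2 => simp at h2

section typeB

variable (W : KW n a b L Fr Rp D J) (FD : FDs a b D J) (hFr : Fr b)
include W FD hFr

/-- P-lemma, free hub -/
theorem KW.PB {p q : ℕ} (hpq : D p q) (hcov : ∀ l ∈ L, ∃ v, D l v) (g : Gd L D A B) (hA : A.length ≤ 1)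
    (hM : J (nv n a b a A B)) : ∃ l ∈ L, A = [l] ∧ B = [l] := by
  have T := W.tg g (w := a) (Or.inl rfl) (by rw [W.kv_a g]; omega)
  have R0 : ∀ r ∈ (∅ : Finset ℕ), Rp b r := by simp
  have val : ∀ v ∈ L, nv n a b a A B v = (if v ∈ A then 1 else 0) + (if v ∈ B then 1 else 0) := by
    intro v hv
    obtain ⟨h1, h2, h3⟩ := W.L' hv
    rw [nv_apply h3, W.kv_l g hv, if_neg h1, add_zero]
  have key : ∀ v ∈ L, (v ∈ A ↔ v ∈ B) ∧ (v ∉ A → ∀ u, D v u → J ((2 : ℤ) • ev a + (2 : ℤ) • ev b + (2 : ℤ) • ev u)) := by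
    intro v hv
    obtain ⟨u0, hu0⟩ := hcov v hv
    have h0 := val v hv
    refine ⟨?_, ?_⟩
    · by_cases h1 : v ∈ A <;> by_cases h2 : v ∈ B <;> simp only [h1, h2, if_true, if_false] at h0 ⊢
      · have := (W.B1 hFr R0 hu0 T hM (by omega) (FD _ _ hu0)).1
        omega
      · have := (W.B1 hFr R0 hu0 T hM (by omega) (FD _ _ hu0)).1
        omega
    · intro h1 u hu
      refine (W.B1 hFr R0 hu T hM ?_ (FD _ _ hu)).2
      rw [if_neg h1] at h0
      split_ifs at h0 <;> omega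
  match A, B, g, hA, hM, T, val, key with
  | [], B, g, _, hM, T, val, key =>
    exfalso
    have hB : B = [] := by
      rw [List.eq_nil_iff_forall_not_mem]
      intro x hx
      have := (key x (g.lB x hx)).1.2 hx
      simp at this
    subst hB
    have h1 := (key p (W.DL _ _ hpq)).2 (by simp) q hpq
    have h2 := (W.B2 hFr R0 (W.DL _ _ (W.sym _ _ hpq)) T hM (by
      rw [nv_apply W.na.symm, W.kv_a g]; simp) h1).1
    rw [nv_apply W.na.symm, W.kv_a g] at h2
    simp at h2
  | [l], B, g, _, hM, T, val, key =>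
    have hl : l ∈ L := g.lA l (by simp)
    refine ⟨l, hl, rfl, ?_⟩
    have h1 : l ∈ B := (key l hl).1.1 (by simp)
    have h2 : ∀ x ∈ B, x = l := by
      intro x hx
      have := (key x (g.lB x hx)).1.2 hx
      simpa using this
    match B, g.nB, h1, h2 with
    | [x], _, h1, h2 => rw [h2 x (by simp)]
    | x :: x' :: B', h3, _, h2 =>
      exfalso
      have e1 := h2 x (by simp)
      have e2 := h2 x' (by simp)
      rw [e1, e2] at h3
      simp at h3
  | _ :: _ :: _, _, _, hA, _, _, _, _ => simp at hA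

/-- E-lemma, free hub -/
theorem KW.EB {l v : ℕ} (hD : D l v) (g : Gd L D A B) (hl : ¬ (l ∈ A ∧ l ∈ B)) (hM : J (nv n a b l A B)) :
    l ∈ B ∨ (l ∈ A ∧ ∃ z ∈ A, z ≠ l ∧ z ∈ B) := by
  obtain ⟨lL, vL, lv, la, lb, ln, va, vb, vn⟩ := W.DL' hD
  have T := W.tg g (w := l) (Or.inr (Or.inr lL)) (by rw [W.kv_l g lL]; split_ifs <;> simp_all)
  have R0 : ∀ r ∈ (∅ : Finset ℕ), Rp b r := by simp
  have h0 : nv n a b l A B l = (if l ∈ A then 1 else 0) + (if l ∈ B then 1 else 0) + 1 := by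
    rw [nv_apply ln, W.kv_l g lL, if_pos rfl]
  by_cases hB : l ∈ B
  · exact Or.inl hB
  have hA : l ∈ A := by
    by_contra hA
    rw [if_neg hA, if_neg hB] at h0
    have := (W.B1 hFr R0 hD T hM (by omega) (FD _ _ hD)).1
    omega
  refine Or.inr ⟨hA, ?_⟩
  have hv : nv n a b l A B v = (if v ∈ A then 1 else 0) + (if v ∈ B then 1 else 0) := by
    rw [nv_apply vn, W.kv_l g vL, if_neg lv.symm, add_zero]
  by_cases hv2 : v ∈ A ∧ v ∈ B
  · exact ⟨v, hv2.1, lv.symm, hv2.2⟩
  have solo : J ((2 : ℤ) • ev a + (2 : ℤ) • ev b + (2 : ℤ) • ev l) := by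
    refine (W.B1 hFr R0 (W.sym _ _ hD) T hM ?_ (FD _ _ (W.sym _ _ hD))).2
    rw [hv]
    by_cases h1 : v ∈ A <;> by_cases h2 : v ∈ B <;> simp_all
  have ha : nv n a b l A B a = A.length := by
    rw [nv_apply W.na.symm, W.kv_a g, if_neg la.symm, add_zero]
  have hlen : 2 ≤ A.length := by
    by_contra hc
    have h1 := (W.B2 hFr R0 lL T hM (by rw [ha]; omega) solo).1
    rw [ha] at h1
    have : A = [] := by simpa using h1
    rw [this] at hA
    simp at hA
  obtain ⟨z, hz, hzl⟩ := two_of_len g.nA hlen hA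
  refine ⟨z, hz, hzl, ?_⟩
  have zL := g.lA z hz
  obtain ⟨za, zb, zn⟩ := W.L' zL
  have hzv : nv n a b l A B z = 1 + (if z ∈ B then 1 else 0) := by
    rw [nv_apply zn, W.kv_l g zL, if_neg hzl, add_zero, if_pos hz]
  have h1 := (W.B4 hFr R0 lL zL hzl.symm T hM (by rw [hzv]; split_ifs <;> omega) solo).1
  by_contra hzB
  rw [hzv, if_neg hzB] at h1
  omega

/-- Lemma B', free hub: the near cover at a leaf `l` which is no star centre uses the edge `a l` -/
theorem KW.Bp {l v u w : ℕ} (hD : D l v) (hE : D u w) (hu : u ≠ l) (hw : w ≠ l) (g : Gd L D A B)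
    (hl : ¬ (l ∈ A ∧ l ∈ B)) (hM : J (nv n a b l A B)) : l ∈ A := by
  obtain ⟨lL, vL, lv, la, lb, ln, va, vb, vn⟩ := W.DL' hD
  obtain ⟨uL, wL, uw, ua, ub, un, wa, wb, wn⟩ := W.DL' hE
  by_contra hA
  have hB : l ∈ B := by
    rcases W.EB FD hFr hD g hl hM with h | ⟨h, _⟩
    · exact h
    · exact absurd h hA
  have T := W.tg g (w := l) (Or.inr (Or.inr lL)) (by rw [W.kv_l g lL]; split_ifs <;> simp_all)
  have R0 : ∀ r ∈ (∅ : Finset ℕ), Rp b r := by simp
  have ha : nv n a b l A B a = A.length := by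
    rw [nv_apply W.na.symm, W.kv_a g, if_neg la.symm, add_zero]
  have hx : ∀ x ∈ L, x ≠ l → nv n a b l A B x = (if x ∈ A then 1 else 0) + (if x ∈ B then 1 else 0) := by
    intro x xL xl
    obtain ⟨xa, xb, xn⟩ := W.L' xL
    rw [nv_apply xn, W.kv_l g xL, if_neg xl, add_zero]
  -- the single vector of `l` is impossible
  have nosolo : ¬ J ((2 : ℤ) • ev a + (2 : ℤ) • ev b + (2 : ℤ) • ev l) := by
    intro solo
    by_cases hlen : A.length ≤ 1
    · obtain ⟨h1, h2⟩ := W.B2 hFr R0 lL T hM (by rw [ha]; omega) solo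
      refine W.B3 hFr R0 lL (W.tgF (R := ∅) hE) (FD _ _ hE) ?_ h2
      simp [ev_apply, la, lb, hu.symm, hw.symm]
    · have hlen2 := g.cA
      obtain ⟨z, hz⟩ : ∃ z, z ∈ A := by
        match A, hlen with
        | [], h => simp at h
        | z :: _, _ => exact ⟨z, by simp⟩
      obtain ⟨z', hz', hne⟩ := two_of_len g.nA (by omega) hz
      have inB : ∀ x ∈ A, x ∈ B := by
        intro x hxA
        have xL := g.lA x hxA
        have xl : x ≠ l := by rintro rfl; exact hA hxA
        have h0 := hx x xL xl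
        rw [if_pos hxA] at h0
        have h1 := (W.B4 hFr R0 lL xL xl.symm T hM (by rw [h0]; split_ifs <;> omega) solo).1
        by_contra hc
        rw [h0, if_neg hc] at h1
        omega
      rcases mem_of_len2 g.cB g.nB (inB z hz) (inB z' hz') hne.symm hB with h | h
      · exact hA (h ▸ hz)
      · exact hA (h ▸ hz')
  have nb : ∀ x, D l x → x ∈ A ∧ x ∈ B := by
    intro x hlx
    obtain ⟨_, xL, lx, _, _, _, xa, xb, xn⟩ := W.DL' hlx
    by_contra hc
    apply nosolo
    refine (W.B1 hFr R0 (W.sym _ _ hlx) T hM ?_ (FD _ _ (W.sym _ _ hlx))).2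
    rw [hx x xL lx.symm]
    by_cases h1 : x ∈ A <;> by_cases h2 : x ∈ B <;> simp_all
  obtain ⟨hvA, hvB⟩ := nb v hD
  -- the general step for an edge `x z` avoiding `l` with `x ≠ v`
  have fin : ∀ x z, D x z → x ≠ l → z ≠ l → x ≠ v → False := by
    intro x z hxz xl zl xv
    obtain ⟨xL, zL, _, xa, xb, xn, za, zb, zn⟩ := W.DL' hxz
    have hxB : x ∉ B := by
      intro h
      rcases mem_of_len2 g.cB g.nB hB hvB lv h with h | h
      · exact xl h
      · exact xv h
    have hz2 := (W.B1 hFr R0 hxz T hM (by rw [hx x xL xl, if_neg hxB]; split_ifs <;> omega) (FD _ _ hxz)).2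
    by_cases hzv : z = v
    · subst hzv
      by_cases hlen : A.length ≤ 1
      · have h1 := (W.B2 hFr R0 zL T hM (by rw [ha]; omega) hz2).1
        rw [ha] at h1
        have : A = [] := by simpa using h1
        rw [this] at hvA
        simp at hvA
      · obtain ⟨z', hz', hne⟩ := two_of_len g.nA (by omega) hvA
        have zL' := g.lA z' hz'
        have zl' : z' ≠ l := by rintro rfl; exact hA hz'
        have h0 := hx z' zL' zl'
        rw [if_pos hz'] at h0
        have h1 := (W.B4 hFr R0 zL zL' hne.symm T hM (by rw [h0]; split_ifs <;> omega) hz2).1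
        have hzB : z' ∈ B := by
          by_contra hc
          rw [h0, if_neg hc] at h1
          omega
        rcases mem_of_len2 g.cB g.nB hB hvB lv hzB with h | h
        · exact zl' h
        · exact hne h
    · have h1 := (W.B4 hFr R0 zL lL zl (W.tgF (R := ∅) hD) (FD _ _ hD) (by
        simp [ev_apply, la, lb, lv]) hz2).2.1
      obtain ⟨hzA, hzB⟩ := nb z (W.sym _ _ h1)
      rcases mem_of_len2 g.cB g.nB hB hvB lv hzB with h | h
      · exact zl h
      · exact hzv h
  by_cases huv : u = v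
  · exact fin w u (W.sym _ _ hE) hw hu (by rw [← huv]; exact uw.symm)
  · exact fin u w hE hu hw huv

end typeB

/-! the free corner lemma -/

/-- target of a near cover whose deficient vertex `r` is outside the cluster -/
def rv (n a b r : ℕ) (c τ : ℤ) (A B : List ℕ) : ℕ → ℤ := kv a b A B + c • ev r + τ • ev n

lemma rv_apply {r v : ℕ} {c τ : ℤ} (hv : v ≠ n) (hr : v ≠ r) : rv n a b r c τ A B v = kv a b A B v := by
  simp [rv, ev_apply, hv, hr]

lemma KW.tgr (W : KW n a b L Fr Rp D J) (g : Gd L D A B) {r : ℕ} (hra : r ≠ a) (hrb : r ≠ b) (hrL : r ∉ L) (hrn : r ≠ n)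
    {c τ : ℤ} (hc : 0 ≤ c) (hc2 : c ≤ 2) : Tg n a b L {r} (rv n a b r c τ A B) := by
  have hr : rv n a b r c τ A B r = c := by
    have := W.kv_o g hra hrb hrL
    simp [rv, ev_apply, hrn, this]
  refine ⟨?_, ?_, ?_⟩
  · intro v hv
    by_cases h : v = r
    · rw [h, hr]; exact hc
    · rw [rv_apply hv h]; exact W.kv_nn g v
  · intro v hv
    by_cases h : v = r
    · rw [h, hr]; exact hc2
    · rw [rv_apply hv h]; exact W.kv_le g v
  · intro v ha hb hL hn hR
    rw [rv_apply hn (by simpa using hR), W.kv_o g ha hb hL]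

/-- free corner lemma, free hub -/
theorem KW.bB (W : KW n a b L Fr Rp D J) (FD : FDs a b D J) (hFr : Fr b) {p l r : ℕ} (hD : D p l) (hr : Rp b r) (hra : r ≠ a) (hrb : r ≠ b)
    (hrL : r ∉ L) (hrn : r ≠ n) {c τ : ℤ} (hc : 0 ≤ c) (hc2 : c ≤ 2) (g : Gd L D A B)
    (hM : J (rv n a b r c τ A B)) : False := by
  have T := W.tgr g hra hrb hrL hrn (τ := τ) hc hc2
  have R0 : ∀ x ∈ ({r} : Finset ℕ), Rp b x := by
    intro x hx
    rw [Finset.mem_singleton.1 hx]
    exact hr
  have hx : ∀ x ∈ L, rv n a b r c τ A B x = (if x ∈ A then 1 else 0) + (if x ∈ B then 1 else 0) := by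
    intro x xL
    obtain ⟨xa, xb, xn⟩ := W.L' xL
    rw [rv_apply xn (by rintro rfl; exact hrL xL), W.kv_l g xL]
  have ha : rv n a b r c τ A B a = A.length := by
    rw [rv_apply W.na.symm hra.symm, W.kv_a g]
  -- one of `p`, `l` has demand 0
  have main : ∀ p l, D p l → ¬ (p ∈ A ∧ p ∈ B) → False := by
    intro p l hD hp
    obtain ⟨pL, lL, pl, pa, pb, pn, la, lb, ln⟩ := W.DL' hD
    obtain ⟨p0, S⟩ := W.B1 hFr R0 hD T hM (by
      rw [hx p pL]; by_cases h1 : p ∈ A <;> by_cases h2 : p ∈ B <;> simp_all) (FD _ _ hD)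
    have pA : p ∉ A ∧ p ∉ B := by
      rw [hx p pL] at p0
      by_cases h1 : p ∈ A <;> by_cases h2 : p ∈ B <;> simp_all
    -- demand of `l` is 0 or 2
    have hl01 : l ∉ A → l ∉ B := by
      intro hlA hlB
      have h0 := hx l lL
      rw [if_neg hlA, if_pos hlB] at h0
      have := (W.B1 hFr R0 (W.sym _ _ hD) T hM (by omega) (FD _ _ (W.sym _ _ hD))).1
      omega
    have hl10 : l ∈ A → l ∈ B := by
      intro hlA
      by_contra hlB
      have h0 := hx l lL
      rw [if_neg hlB, if_pos hlA] at h0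
      have := (W.B1 hFr R0 (W.sym _ _ hD) T hM (by omega) (FD _ _ (W.sym _ _ hD))).1
      omega
    by_cases hlen : A.length ≤ 1
    · obtain ⟨a0, Z0⟩ := W.B2 hFr R0 lL T hM (by rw [ha]; omega) S
      have hA : A = [] := by
        rw [ha] at a0
        simpa using a0
      have hlA : l ∉ A := by rw [hA]; simp
      exact W.B3 hFr R0 lL T hM (by rw [hx l lL, if_neg hlA, if_neg (hl01 hlA)]; norm_num) Z0
    · have hlen2 := g.cA
      obtain ⟨z, hz⟩ : ∃ z, z ∈ A := by
        match A, hlen with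
        | [], h => simp at h
        | z :: _, _ => exact ⟨z, by simp⟩
      obtain ⟨z', hz', hne⟩ := two_of_len g.nA (by omega) hz
      -- every other neighbour of `a` is a neighbour of `b` and a partner of `l`
      have B4' : ∀ x ∈ A, x ≠ l → x ∈ B ∧ D l x ∧
          J ((2 : ℤ) • ev a + (2 : ℤ) • ev b + (2 : ℤ) • ev l + (2 : ℤ) • ev x) := by
        intro x hxA xl
        have xL := g.lA x hxA
        have h0 := hx x xL
        rw [if_pos hxA] at h0
        obtain ⟨h1, h2, h3⟩ := W.B4 hFr R0 lL xL xl.symm T hM (by rw [h0]; split_ifs <;> omega) S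
        refine ⟨?_, h2, h3⟩
        by_contra hc
        rw [h0, if_neg hc] at h1
        omega
      by_cases hlA : l ∈ A
      · obtain ⟨x, hxA, xl⟩ := two_of_len g.nA (by omega) hlA
        obtain ⟨h1, h2, _⟩ := B4' x hxA xl
        exact g.g l x h2 hlA hxA (hl10 hlA) h1
      · have zl : z ≠ l := by rintro rfl; exact hlA hz
        have zl' : z' ≠ l := by rintro rfl; exact hlA hz'
        obtain ⟨zB, hlz, U⟩ := B4' z hz zl
        obtain ⟨zB', _, _⟩ := B4' z' hz' zl'
        have zL := g.lA z hz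
        have zL' := g.lA z' hz'
        obtain ⟨_, S'⟩ := W.B1 hFr R0 hlz T hM (by
          rw [hx l lL, if_neg hlA, if_neg (hl01 hlA)]; norm_num) (FD _ _ hlz)
        have h0 := hx z' zL'
        rw [if_pos hz', if_pos zB'] at h0
        have h2 := (W.B4 hFr R0 zL zL' hne.symm T hM (by omega) S').2.1
        exact g.g z z' h2 hz hz' zB zB'
  by_cases hp : p ∈ A ∧ p ∈ B
  · by_cases hl : l ∈ A ∧ l ∈ B
    · exact g.g p l hD hp.1 hl.1 hp.2 hl.2
    · exact main l p (W.sym _ _ hD) hl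
  · exact main p l hD hp

/-! both hubs in `T`, one free leaf `y` -/

section typeA

variable (W : KW n a b L Fr Rp D J) {y : ℕ} (hFr : Fr y) (yL : y ∈ L)
include W hFr yL

/-- free corner lemma, free leaf, the other end outside the cluster -/
theorem KW.bA {p r : ℕ} (hD : D p y) (F : J ((2 : ℤ) • ev a + (2 : ℤ) • ev b + (2 : ℤ) • ev p + (2 : ℤ) • ev y)) (hr : Rp y r) (hra : r ≠ a) (hrb : r ≠ b)
    (hrL : r ∉ L) (hrn : r ≠ n) {c τ : ℤ} (hc : 0 ≤ c) (hc2 : c ≤ 2) (g : Gd L D A B)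
    (hM : J (rv n a b r c τ A B)) : False := by
  have T := W.tgr g hra hrb hrL hrn (τ := τ) hc hc2
  have R0 : ∀ x ∈ ({r} : Finset ℕ), Rp y x := by
    intro x hx
    rw [Finset.mem_singleton.1 hx]
    exact hr
  obtain ⟨pL, _, py, pa, pb, pn, ya, yb, yn⟩ := W.DL' hD
  have hx : ∀ x ∈ L, rv n a b r c τ A B x = (if x ∈ A then 1 else 0) + (if x ∈ B then 1 else 0) := by
    intro x xL
    obtain ⟨xa, xb, xn⟩ := W.L' xL
    rw [rv_apply xn (by rintro rfl; exact hrL xL), W.kv_l g xL]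
  have ha : rv n a b r c τ A B a = A.length := by
    rw [rv_apply W.na.symm hra.symm, W.kv_a g]
  have hb : rv n a b r c τ A B b = B.length := by
    rw [rv_apply W.nb.symm hrb.symm, W.kv_b g]
  -- the other leaves
  have A5' : ∀ x ∈ L, x ≠ p → x ≠ y → (x ∈ A ∨ x ∈ B) → x ∈ A ∧ x ∈ B ∧ D p x ∧
      J ((2 : ℤ) • ev a + (2 : ℤ) • ev b + (2 : ℤ) • ev p + (2 : ℤ) • ev x + (2 : ℤ) • ev y) := by
    intro x xL xp xy hAB
    have h0 := hx x xL
    obtain ⟨h1, h2, h3⟩ := W.A5 hFr yL R0 pL py xL xp.symm xy T hM (by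
      rw [h0]; rcases hAB with h | h <;> rw [if_pos h] <;> split_ifs <;> omega) F
    rw [h0] at h1
    refine ⟨?_, ?_, h2, h3⟩
    · by_contra hc
      rw [if_neg hc] at h1
      split_ifs at h1 <;> omega
    · by_contra hc
      rw [if_neg hc] at h1
      split_ifs at h1 <;> omega
  by_cases hA1 : A.length ≤ 1
  · obtain ⟨a0, U0⟩ := W.A1 hFr yL R0 pL py T hM (by rw [ha]; omega) F
    have hA : A = [] := by
      rw [ha] at a0
      simpa using a0
    have hpA : p ∉ A := by rw [hA]; simp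
    obtain ⟨p0, U00⟩ := W.A2 hFr yL R0 pL py T hM (by rw [hx p pL, if_neg hpA]; split_ifs <;> omega) U0
    have hpB : p ∉ B := by
      intro h
      rw [hx p pL, if_pos h, if_neg hpA] at p0
      omega
    refine W.A3 hFr yL R0 T hM ?_ U00
    rw [hb]
    by_contra hlen
    obtain ⟨z, hz⟩ : ∃ z, z ∈ B := by
      match B, hlen with
      | [], h => simp at h
      | z :: _, _ => exact ⟨z, by simp⟩
    have key : ∀ x ∈ B, x = y := by
      intro x hxB
      by_contra hxy
      have := (A5' x (g.lB x hxB) (by rintro rfl; exact hpB hxB) hxy (Or.inr hxB)).1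
      rw [hA] at this
      simp at this
    obtain ⟨z', hz', hne⟩ := two_of_len g.nB (by omega) hz
    exact hne ((key z' hz').trans (key z hz).symm)
  by_cases hB1 : B.length ≤ 1
  · obtain ⟨b0, U0⟩ := W.A1b hFr yL R0 pL py T hM (by rw [hb]; omega) F
    have hB : B = [] := by
      rw [hb] at b0
      simpa using b0
    have hpB : p ∉ B := by rw [hB]; simp
    obtain ⟨p0, U00⟩ := W.A2b hFr yL R0 pL py T hM (by rw [hx p pL, if_neg hpB]; split_ifs <;> omega) U0
    have hpA : p ∉ A := by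
      intro h
      rw [hx p pL, if_pos h, if_neg hpB] at p0
      omega
    refine W.A3b hFr yL R0 T hM ?_ U00
    rw [ha]
    by_contra hlen
    obtain ⟨z, hz⟩ : ∃ z, z ∈ A := by
      match A, hlen with
      | [], h => simp at h
      | z :: _, _ => exact ⟨z, by simp⟩
    have key : ∀ x ∈ A, x = y := by
      intro x hxA
      by_contra hxy
      have := (A5' x (g.lA x hxA) (by rintro rfl; exact hpA hxA) hxy (Or.inl hxA)).2.1
      rw [hB] at this
      simp at this
    obtain ⟨z', hz', hne⟩ := two_of_len g.nA (by omega) hz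
    exact hne ((key z' hz').trans (key z hz).symm)
  have cA := g.cA
  have cB := g.cB
  by_cases hpA : p ∈ A
  · obtain ⟨z, hz, zp⟩ := two_of_len g.nA (by omega) hpA
    by_cases hzy : z = y
    · subst hzy
      -- `A = {p, y}`
      have hB : ∀ x ∈ B, x = p ∨ x = z := by
        intro x hxB
        by_cases hxp : x = p
        · exact Or.inl hxp
        by_cases hxy : x = z
        · exact Or.inr hxy
        exact mem_of_len2 g.cA g.nA hpA hz py (A5' x (g.lB x hxB) hxp hxy (Or.inr hxB)).1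
      obtain ⟨u, hu⟩ : ∃ u, u ∈ B := by
        match B, hB1 with
        | [], h => simp at h
        | u :: _, _ => exact ⟨u, by simp⟩
      obtain ⟨u', hu', hne⟩ := two_of_len g.nB (by omega) hu
      have hpB : p ∈ B := by
        rcases hB u hu with h | h
        · exact h ▸ hu
        · rcases hB u' hu' with h' | h'
          · exact h' ▸ hu'
          · exact absurd (h'.trans h.symm) hne
      have hzB : z ∈ B := by
        rcases hB u hu with h | h
        · rcases hB u' hu' with h' | h'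
          · exact absurd (h'.trans h.symm) hne
          · exact h' ▸ hu'
        · exact h ▸ hu
      exact g.g p z hD hpA hz hpB hzB
    · have zL := g.lA z hz
      obtain ⟨_, zB, hpz, U1⟩ := A5' z zL zp hzy (Or.inl hz)
      by_cases hpB : p ∈ B
      · exact g.g p z hpz hpA hz hpB zB
      · have := (W.A6 hFr yL R0 pL py zL zp.symm hzy T hM (by
          rw [hx p pL, if_pos hpA, if_neg hpB]; norm_num) U1).1
        rw [hx p pL, if_pos hpA, if_neg hpB] at this
        omega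
  · obtain ⟨z, hz⟩ : ∃ z, z ∈ A := by
      match A, hA1 with
      | [], h => simp at h
      | z :: _, _ => exact ⟨z, by simp⟩
    obtain ⟨z', hz', hne⟩ := two_of_len g.nA (by omega) hz
    -- a leaf `x ≠ y` of `A` gives: `p` not in `B`, pair `x y`, the vector `(2,2;2x|2)`
    have key : ∀ x ∈ A, x ≠ y → x ∈ B ∧ p ∉ B ∧ D x y ∧
        J ((2 : ℤ) • ev a + (2 : ℤ) • ev b + (2 : ℤ) • ev x + (2 : ℤ) • ev y) := by
      intro x hxA hxy
      have xL := g.lA x hxA
      have xp : x ≠ p := by rintro rfl; exact hpA hxA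
      obtain ⟨_, xB, hpx, U1⟩ := A5' x xL xp hxy (Or.inl hxA)
      obtain ⟨h1, h2, h3⟩ := W.A6 hFr yL R0 pL py xL xp.symm hxy T hM (by
          rw [hx p pL, if_neg hpA]; split_ifs <;> omega) U1
      refine ⟨xB, ?_, h2, h3⟩
      intro h
      rw [hx p pL, if_pos h, if_neg hpA] at h1
      omega
    -- two leaves `≠ y`
    have two : ∀ x x', x ∈ A → x' ∈ A → x ≠ x' → x ≠ y → x' ≠ y → False := by
      intro x x' hxA hxA' hne hxy hxy'
      obtain ⟨xB, _, hDx, U2⟩ := key x hxA hxy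
      obtain ⟨xB', _, _, _⟩ := key x' hxA' hxy'
      have xL := g.lA x hxA
      have xL' := g.lA x' hxA'
      have h0 := hx x' xL'
      rw [if_pos hxA', if_pos xB'] at h0
      have h2 := (W.A5 hFr yL R0 xL hxy xL' hne hxy' T hM (by omega) U2).2.1
      exact g.g x x' h2 hxA hxA' xB xB'
    have one : ∀ x, x ∈ A → x ≠ y → y ∈ A → False := by
      intro x hxA hxy hyA
      obtain ⟨xB, hpB, hDx, U2⟩ := key x hxA hxy
      obtain ⟨u, hu, hux⟩ := two_of_len g.nB (by omega) xB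
      by_cases huy : u = y
      · exact g.g x y hDx hxA hyA xB (huy ▸ hu)
      · have uA := (A5' u (g.lB u hu) (by rintro rfl; exact hpB hu) huy (Or.inr hu)).1
        rcases mem_of_len2 g.cA g.nA hxA hyA hxy uA with h | h
        · exact hux h
        · exact huy h
    by_cases hzy : z = y
    · exact one z' hz' (by rw [← hzy]; exact hne) (hzy ▸ hz)
    · by_cases hzy' : z' = y
      · exact one z hz hzy (hzy' ▸ hz')
      · exact two z z' hz hz' hne.symm hzy hzy'

/-- free corner lemma, free leaf, the other end is a leaf -/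
theorem KW.bA' {p r : ℕ} (hD : D p y) (F : J ((2 : ℤ) • ev a + (2 : ℤ) • ev b + (2 : ℤ) • ev p + (2 : ℤ) • ev y)) (hr : Rp y r) (hrL : r ∈ L) (hrp : r ≠ p) (hry : r ≠ y) {M : ℕ → ℤ}
    (T : Tg n a b L ∅ M) (hM : J M) (h : 1 ≤ M r) : False := by
  obtain ⟨pL, _, py, _⟩ := W.DL' hD
  exact W.A8 hFr yL (by simp) pL py hrL hrp.symm hry hr T hM h F

/-- P-lemma, free leaf -/
theorem KW.PA {l : ℕ} (hD : D l y) (F : J ((2 : ℤ) • ev a + (2 : ℤ) • ev b + (2 : ℤ) • ev l + (2 : ℤ) • ev y)) (g : Gd L D A B) (hl : ¬ (l ∈ A ∧ l ∈ B)) (hM : J (nv n a b l A B)) :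
    (l ∈ A ∧ (y ∈ A ∨ ∃ v ∈ A, v ∈ B ∧ v ≠ l ∧ v ≠ y)) ∨ (l ∈ B ∧ (y ∈ B ∨ ∃ v ∈ B, v ∈ A ∧ v ≠ l ∧ v ≠ y)) := by
  obtain ⟨lL, _, ly, la, lb, ln, ya, yb, yn⟩ := W.DL' hD
  have T := W.tg g (w := l) (Or.inr (Or.inr lL)) (by rw [W.kv_l g lL]; split_ifs <;> simp_all)
  have R0 : ∀ r ∈ (∅ : Finset ℕ), Rp y r := by simp
  have hl0 : nv n a b l A B l = (if l ∈ A then 1 else 0) + (if l ∈ B then 1 else 0) + 1 := by
    rw [nv_apply ln, W.kv_l g lL, if_pos rfl]
  have hx : ∀ x ∈ L, x ≠ l → nv n a b l A B x = (if x ∈ A then 1 else 0) + (if x ∈ B then 1 else 0) := by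
    intro x xL xl
    obtain ⟨xa, xb, xn⟩ := W.L' xL
    rw [nv_apply xn, W.kv_l g xL, if_neg xl, add_zero]
  have ha : nv n a b l A B a = A.length := by
    rw [nv_apply W.na.symm, W.kv_a g, if_neg la.symm, add_zero]
  have hb : nv n a b l A B b = B.length := by
    rw [nv_apply W.nb.symm, W.kv_b g, if_neg lb.symm, add_zero]
  have A5' : ∀ x ∈ L, x ≠ l → x ≠ y → (x ∈ A ∨ x ∈ B) → x ∈ A ∧ x ∈ B ∧
      J ((2 : ℤ) • ev a + (2 : ℤ) • ev b + (2 : ℤ) • ev l + (2 : ℤ) • ev x + (2 : ℤ) • ev y) := by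
    intro x xL xl xy hAB
    have h0 := hx x xL xl
    obtain ⟨h1, h2, h3⟩ := W.A5 hFr yL R0 lL ly xL xl.symm xy T hM (by
      rw [h0]; rcases hAB with h | h <;> rw [if_pos h] <;> split_ifs <;> omega) F
    rw [h0] at h1
    refine ⟨?_, ?_, h3⟩
    · by_contra hc
      rw [if_neg hc] at h1
      split_ifs at h1 <;> omega
    · by_contra hc
      rw [if_neg hc] at h1
      split_ifs at h1 <;> omega
  -- demand 1 at `l` is impossible if a common leaf exists
  have A6' : ∀ x ∈ L, x ≠ l → x ≠ y → (x ∈ A ∨ x ∈ B) → l ∈ A ∨ l ∈ B := by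
    intro x xL xl xy hAB
    by_contra hc
    rw [not_or] at hc
    have := (W.A6 hFr yL R0 lL ly xL xl.symm xy T hM (by rw [hl0, if_neg hc.1, if_neg hc.2]; norm_num)
      (A5' x xL xl xy hAB).2.2).1
    rw [hl0, if_neg hc.1, if_neg hc.2] at this
    omega
  have nonempty : ∀ A : List ℕ, A ≠ [] → ∃ z, z ∈ A := by
    intro A h
    match A, h with
    | [], h => exact absurd rfl h
    | z :: _, _ => exact ⟨z, by simp⟩
  by_cases hA : A = []
  · -- then `B` has two elements
    have hnA : ∀ x, x ∉ A := by rw [hA]; simp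
    have hlA : A.length = 0 := by rw [hA]; rfl
    have sub : ∀ x ∈ B, x = l ∨ x = y := by
      intro x hxB
      by_contra hc
      rw [not_or] at hc
      exact hnA x (A5' x (g.lB x hxB) hc.1 hc.2 (Or.inr hxB)).1
    by_cases hB : B = []
    · exfalso
      have U0 := (W.A1 hFr yL R0 lL ly T hM (by rw [ha, hlA]; norm_num) F).2
      have hnB : ∀ x, x ∉ B := by rw [hB]; simp
      have := (W.A2 hFr yL R0 lL ly T hM (by rw [hl0, if_neg (hnA l), if_neg (hnB l)]; norm_num) U0).1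
      rw [hl0, if_neg (hnA l), if_neg (hnB l)] at this
      omega
    · obtain ⟨z, hz⟩ := nonempty B hB
      have hlen : 2 ≤ B.length := by
        by_contra hc
        have := (W.A1b hFr yL R0 lL ly T hM (by rw [hb]; omega) F).1
        rw [hb] at this
        exact hB (by simpa using this)
      obtain ⟨z', hz', hne⟩ := two_of_len g.nB hlen hz
      right
      rcases sub z hz with h | h
      · rcases sub z' hz' with h' | h'
        · exact absurd (h'.trans h.symm) hne
        · exact ⟨h ▸ hz, Or.inl (h' ▸ hz')⟩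
      · rcases sub z' hz' with h' | h'
        · exact ⟨h' ▸ hz', Or.inl (h ▸ hz)⟩
        · exact absurd (h'.trans h.symm) hne
  by_cases hB : B = []
  · have hnB : ∀ x, x ∉ B := by rw [hB]; simp
    have sub : ∀ x ∈ A, x = l ∨ x = y := by
      intro x hxA
      by_contra hc
      rw [not_or] at hc
      exact hnB x (A5' x (g.lA x hxA) hc.1 hc.2 (Or.inl hxA)).2.1
    obtain ⟨z, hz⟩ := nonempty A hA
    have hlen : 2 ≤ A.length := by
      by_contra hc
      have := (W.A1 hFr yL R0 lL ly T hM (by rw [ha]; omega) F).1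
      rw [ha] at this
      exact hA (by simpa using this)
    obtain ⟨z', hz', hne⟩ := two_of_len g.nA hlen hz
    left
    rcases sub z hz with h | h
    · rcases sub z' hz' with h' | h'
      · exact absurd (h'.trans h.symm) hne
      · exact ⟨h ▸ hz, Or.inl (h' ▸ hz')⟩
    · rcases sub z' hz' with h' | h'
      · exact ⟨h' ▸ hz', Or.inl (h ▸ hz)⟩
      · exact absurd (h'.trans h.symm) hne
  -- both of length two
  have lenA : 2 ≤ A.length := by
    by_contra hc
    have := (W.A1 hFr yL R0 lL ly T hM (by rw [ha]; omega) F).1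
    rw [ha] at this
    exact hA (by simpa using this)
  have lenB : 2 ≤ B.length := by
    by_contra hc
    have := (W.A1b hFr yL R0 lL ly T hM (by rw [hb]; omega) F).1
    rw [hb] at this
    exact hB (by simpa using this)
  have hlAB : l ∈ A ∨ l ∈ B := by
    obtain ⟨z, hz⟩ := nonempty A hA
    obtain ⟨z', hz', hne⟩ := two_of_len g.nA lenA hz
    by_contra hc
    have hc' := hc
    rw [not_or] at hc'
    have h1 : ∀ x ∈ A, x = y := by
      intro x hxA
      by_contra hxy
      exact hc (A6' x (g.lA x hxA) (by rintro rfl; exact hc'.1 hxA) hxy (Or.inl hxA))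
    exact hne ((h1 z' hz').trans (h1 z hz).symm)
  rcases hlAB with h | h
  · left
    refine ⟨h, ?_⟩
    obtain ⟨z, hz, hzl⟩ := two_of_len g.nA lenA h
    by_cases hzy : z = y
    · exact Or.inl (hzy ▸ hz)
    · exact Or.inr ⟨z, hz, (A5' z (g.lA z hz) hzl hzy (Or.inl hz)).2.1, hzl, hzy⟩
  · right
    refine ⟨h, ?_⟩
    obtain ⟨z, hz, hzl⟩ := two_of_len g.nB lenB h
    by_cases hzy : z = y
    · exact Or.inl (hzy ▸ hz)
    · exact Or.inr ⟨z, hz, (A5' z (g.lB z hz) hzl hzy (Or.inr hz)).1, hzl, hzy⟩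

/-- E-lemma, free leaf, at the hub `a` -/
theorem KW.EA {l : ℕ} (hD : D l y) (F : J ((2 : ℤ) • ev a + (2 : ℤ) • ev b + (2 : ℤ) • ev l + (2 : ℤ) • ev y)) (g : Gd L D A B) (hA : A.length ≤ 1) (hM : J (nv n a b a A B)) :
    y ∈ A ∨ ∃ v ∈ A, v ≠ y ∧ v ∈ B ∧ y ∈ B := by
  obtain ⟨lL, _, ly, la, lb, ln, ya, yb, yn⟩ := W.DL' hD
  have T := W.tg g (w := a) (Or.inl rfl) (by rw [W.kv_a g]; omega)
  have R0 : ∀ r ∈ (∅ : Finset ℕ), Rp y r := by simp
  have hx : ∀ x ∈ L, nv n a b a A B x = (if x ∈ A then 1 else 0) + (if x ∈ B then 1 else 0) := by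
    intro x xL
    obtain ⟨xa, xb, xn⟩ := W.L' xL
    rw [nv_apply xn, W.kv_l g xL, if_neg xa, add_zero]
  have ha : nv n a b a A B a = A.length + 1 := by
    rw [nv_apply W.na.symm, W.kv_a g, if_pos rfl]
  have hb : nv n a b a A B b = B.length := by
    rw [nv_apply W.nb.symm, W.kv_b g, if_neg W.ab.symm, add_zero]
  have A5' : ∀ x ∈ L, x ≠ l → x ≠ y → (x ∈ A ∨ x ∈ B) → x ∈ A ∧ x ∈ B ∧
      J ((2 : ℤ) • ev a + (2 : ℤ) • ev b + (2 : ℤ) • ev l + (2 : ℤ) • ev x + (2 : ℤ) • ev y) := by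
    intro x xL xl xy hAB
    have h0 := hx x xL
    obtain ⟨h1, h2, h3⟩ := W.A5 hFr yL R0 lL ly xL xl.symm xy T hM (by
      rw [h0]; rcases hAB with h | h <;> rw [if_pos h] <;> split_ifs <;> omega) F
    rw [h0] at h1
    refine ⟨?_, ?_, h3⟩
    · by_contra hc
      rw [if_neg hc] at h1
      split_ifs at h1 <;> omega
    · by_contra hc
      rw [if_neg hc] at h1
      split_ifs at h1 <;> omega
  -- `A` has exactly one element `z`
  obtain ⟨z, hAz⟩ : ∃ z, A = [z] := by
    match A, hA, ha with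
    | [], _, ha =>
      exfalso
      have := (W.A1 hFr yL R0 lL ly T hM (by rw [ha]; simp) F).1
      rw [ha] at this
      simp at this
    | [z], _, _ => exact ⟨z, rfl⟩
    | _ :: _ :: _, h, _ => simp at h
  have hz : z ∈ A := by rw [hAz]; simp
  have onlyz : ∀ x ∈ A, x = z := by
    intro x hx
    rw [hAz] at hx
    simpa using hx
  have zL := g.lA z hz
  by_cases hzy : z = y
  · exact Or.inl (hzy ▸ hz)
  refine Or.inr ⟨z, hz, hzy, ?_⟩
  by_cases hB : B.length ≤ 1
  · exfalso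
    obtain ⟨b0, U0⟩ := W.A1b hFr yL R0 lL ly T hM (by rw [hb]; omega) F
    have hB0 : B = [] := by
      rw [hb] at b0
      simpa using b0
    by_cases hzl : z = l
    · subst hzl
      have := (W.A2b hFr yL R0 lL ly T hM (by rw [hx z zL, if_pos hz, hB0]; simp) U0).1
      rw [hx z zL, if_pos hz, hB0] at this
      simp at this
    · have := (A5' z zL hzl hzy (Or.inl hz)).2.1
      rw [hB0] at this
      simp at this
  · -- every leaf of `B` other than `l`, `y` is `z`
    have sub : ∀ x ∈ B, x = l ∨ x = y ∨ x = z := by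
      intro x hxB
      by_cases h1 : x = l
      · exact Or.inl h1
      by_cases h2 : x = y
      · exact Or.inr (Or.inl h2)
      exact Or.inr (Or.inr (onlyz x (A5' x (g.lB x hxB) h1 h2 (Or.inr hxB)).1))
    have hlz : l ∈ B → l ≠ z → False := by
      intro h1 h2
      -- then `z ∈ B` and the demand of `l` is one
      have h3 := A5' z zL h2.symm hzy (Or.inl hz)
      have hlA : l ∉ A := fun h => h2 (onlyz l h)
      have := (W.A6 hFr yL R0 lL ly zL h2 hzy T hM (by rw [hx l lL, if_pos h1, if_neg hlA]; norm_num) h3.2.2).1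
      rw [hx l lL, if_pos h1, if_neg hlA] at this
      omega
    obtain ⟨u, hu⟩ : ∃ u, u ∈ B := by
      match B, hB with
      | [], h => simp at h
      | u :: _, _ => exact ⟨u, by simp⟩
    obtain ⟨u', hu', hne⟩ := two_of_len g.nB (by omega) hu
    have sub2 : ∀ x ∈ B, x = z ∨ x = y := by
      intro x hxB
      rcases sub x hxB with h | h | h
      · by_cases hlz' : l = z
        · exact Or.inl (h.trans hlz')
        · exact (hlz (h ▸ hxB) hlz').elim
      · exact Or.inr h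
      · exact Or.inl h
    rcases sub2 u hu with h | h
    · rcases sub2 u' hu' with h' | h'
      · exact absurd (h'.trans h.symm) hne
      · exact ⟨h ▸ hu, h' ▸ hu'⟩
    · rcases sub2 u' hu' with h' | h'
      · exact ⟨h' ▸ hu', h ▸ hu⟩
      · exact absurd (h'.trans h.symm) hne

end typeA

end Pool.Agent.PF4.XF

end

section -- file PF4/KWF

/-!
Clusters with two free vertices: the steps.
-/

set_option autoImplicit false
set_option linter.unusedSectionVars false
set_option linter.unusedVariables false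
set_option linter.unusedSimpArgs false

namespace Pool.Agent.PF4.XF

open Finset Pool.Agent.TFC

variable {n a b : ℕ} {L R : Finset ℕ} {Fr : ℕ → Prop} {Rp : ℕ → ℕ → Prop} {D : ℕ → ℕ → Prop}
  {J : (ℕ → ℤ) → Prop} {A B : List ℕ}
variable (W : KW n a b L Fr Rp D J)
include W

/-- two free leaves `y`, `z` which are a pair, and a third leaf `l` -/
theorem KW.C1 {y z l : ℕ} (hFr : Fr y) (hFr2 : Fr z) (hR : ∀ r ∈ R, False) (yL : y ∈ L) (zL : z ∈ L) (lL : l ∈ L) (yz : y ≠ z) (yl : y ≠ l) (zl : z ≠ l) {M : ℕ → ℤ} (T : Tg n a b L R M)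
    (hM : J M) (h : 1 ≤ M l) (hF : J ((2 : ℤ) • ev a + (2 : ℤ) • ev b + (2 : ℤ) • ev y + (2 : ℤ) • ev z)) :
    False := by
  have ab := W.ab
  have na := W.na
  have nb := W.nb
  obtain ⟨ya, yb, yn⟩ := W.L' yL
  obtain ⟨za, zb, zn⟩ := W.L' zL
  obtain ⟨la, lb, ln⟩ := W.L' lL
  obtain ⟨j, δ, hδ, hlt, hk⟩ := W.st hF hM l (1) (Or.inr (Or.inr lL)) (Or.inl rfl) (by
    simp only [Pi.add_apply, Pi.smul_apply, Pi.zero_apply, ev_apply, smul_eq_mul, if_true, if_neg la, if_neg lb, if_neg yl.symm, if_neg zl.symm]; omega)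
  simp only [Pi.add_apply, Pi.smul_apply, Pi.zero_apply, ev_apply, smul_eq_mul] at hlt
  have hc : j = n ∨ j = a ∨ j = b ∨ j = y ∨ j = z ∨ j = l ∨ (j ≠ n ∧ j ≠ a ∧ j ≠ b ∧ j ≠ y ∧ j ≠ z ∧ j ≠ l) := by omega
  rcases hc with h1 | h1 | h1 | h1 | h1 | h1 | ⟨jn, ja, jb, jy, jz, jl⟩
  · rw [h1] at hk
    exact (W.x2 hk hFr hFr2 [y, z] [y, l] (0) (1) (δ) (by
      simp only [kv, List.length_cons, List.length_nil, List.map_cons, List.map_nil, List.sum_cons, List.sum_nil]
      push_cast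
      module) (by norm_num) (by norm_num) (W.g22 yL zL lL yz yl zl)).elim
  · rw [h1] at hlt hk
    have hle := T.le a na.symm
    have hnn := T.nn a na.symm
    simp only [if_true, if_neg ab, if_neg ya.symm, if_neg za.symm, if_neg la.symm] at hlt
    rcases hδ with h2 | h2 <;> rw [h2] at hlt hk
    · omega
    · exact (W.x2 hk hFr hFr2 [y] [y, l] (0) (2) (0) (by
      simp only [kv, List.length_cons, List.length_nil, List.map_cons, List.map_nil, List.sum_cons, List.sum_nil]
      push_cast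
      module) (by norm_num) (by norm_num) (W.g12 yL yL lL yl)).elim
  · rw [h1] at hlt hk
    have hle := T.le b nb.symm
    have hnn := T.nn b nb.symm
    simp only [if_true, if_neg ab.symm, if_neg yb.symm, if_neg zb.symm, if_neg lb.symm] at hlt
    rcases hδ with h2 | h2 <;> rw [h2] at hlt hk
    · omega
    · exact (W.x2 hk hFr hFr2 [y, z] [l] (1) (1) (0) (by
      simp only [kv, List.length_cons, List.length_nil, List.map_cons, List.map_nil, List.sum_cons, List.sum_nil]
      push_cast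
      module) (by norm_num) (by norm_num) (W.g21 yL zL lL yz)).elim
  · rw [h1] at hlt hk
    have hle := T.le y yn
    have hnn := T.nn y yn
    simp only [if_true, if_neg ya, if_neg yb, if_neg yz, if_neg yl] at hlt
    rcases hδ with h2 | h2 <;> rw [h2] at hlt hk
    · omega
    · exact (W.x2 hk hFr hFr2 [z, y] [z, l] (0) (0) (0) (by
      simp only [kv, List.length_cons, List.length_nil, List.map_cons, List.map_nil, List.sum_cons, List.sum_nil]
      push_cast
      module) (by norm_num) (by norm_num) (W.g22 zL yL lL yz.symm zl yl)).elim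
  · rw [h1] at hlt hk
    have hle := T.le z zn
    have hnn := T.nn z zn
    simp only [if_true, if_neg za, if_neg zb, if_neg yz.symm, if_neg zl] at hlt
    rcases hδ with h2 | h2 <;> rw [h2] at hlt hk
    · omega
    · exact (W.x2 hk hFr hFr2 [y, z] [y, l] (0) (0) (0) (by
      simp only [kv, List.length_cons, List.length_nil, List.map_cons, List.map_nil, List.sum_cons, List.sum_nil]
      push_cast
      module) (by norm_num) (by norm_num) (W.g22 yL zL lL yz yl zl)).elim
  · rw [h1] at hlt hk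
    have hle := T.le l ln
    have hnn := T.nn l ln
    simp only [if_true, if_neg la, if_neg lb, if_neg yl.symm, if_neg zl.symm] at hlt
    rcases hδ with h2 | h2 <;> rw [h2] at hlt hk
    · exact (W.x2 hk hFr hFr2 [l, y] [l, z] (1) (1) (0) (by
      simp only [kv, List.length_cons, List.length_nil, List.map_cons, List.map_nil, List.sum_cons, List.sum_nil]
      push_cast
      module) (by norm_num) (by norm_num) (W.g22 lL yL zL yl.symm zl.symm yz)).elim
    · omega
  · have hnn := T.nn j jn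
    simp only [if_neg ja, if_neg jb, if_neg jy, if_neg jz, if_neg jl] at hlt
    rcases hδ with h2 | h2 <;> rw [h2] at hlt hk
    · by_cases jL : j ∈ L
      · exact (W.x2 hk hFr hFr2 [y, l] [y, j] (0) (2) (0) (by
      simp only [kv, List.length_cons, List.length_nil, List.map_cons, List.map_nil, List.sum_cons, List.sum_nil]
      push_cast
      module) (by norm_num) (by norm_num) (W.g22 yL lL jL yl jy.symm jl.symm)).elim
      · by_cases jR : j ∈ R
        · exact (hR j jR).elim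
        · have := T.sup j ja jb jL jn jR
          omega
    · omega

/-- two free leaves `y`, `z`, a pair `l y` -/
theorem KW.C2 {y z l : ℕ} (hFr : Fr y) (hFr2 : Fr z) (hR : ∀ r ∈ R, False) (yL : y ∈ L) (zL : z ∈ L) (lL : l ∈ L) (yz : y ≠ z) (yl : y ≠ l) (zl : z ≠ l) {M : ℕ → ℤ} (T : Tg n a b L R M)
    (hM : J M) (h : 1 ≤ M z) (hF : J ((2 : ℤ) • ev a + (2 : ℤ) • ev b + (2 : ℤ) • ev y + (2 : ℤ) • ev l)) :
    False := by
  have ab := W.ab
  have na := W.na
  have nb := W.nb
  obtain ⟨ya, yb, yn⟩ := W.L' yL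
  obtain ⟨za, zb, zn⟩ := W.L' zL
  obtain ⟨la, lb, ln⟩ := W.L' lL
  obtain ⟨j, δ, hδ, hlt, hk⟩ := W.st hF hM z (1) (Or.inr (Or.inr zL)) (Or.inl rfl) (by
    simp only [Pi.add_apply, Pi.smul_apply, Pi.zero_apply, ev_apply, smul_eq_mul, if_true, if_neg za, if_neg zb, if_neg yz.symm, if_neg zl]; omega)
  simp only [Pi.add_apply, Pi.smul_apply, Pi.zero_apply, ev_apply, smul_eq_mul] at hlt
  have hc : j = n ∨ j = a ∨ j = b ∨ j = y ∨ j = z ∨ j = l ∨ (j ≠ n ∧ j ≠ a ∧ j ≠ b ∧ j ≠ y ∧ j ≠ z ∧ j ≠ l) := by omega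
  rcases hc with h1 | h1 | h1 | h1 | h1 | h1 | ⟨jn, ja, jb, jy, jz, jl⟩
  · rw [h1] at hk
    exact (W.x2 hk hFr hFr2 [l, y] [l, z] (1) (0) (δ) (by
      simp only [kv, List.length_cons, List.length_nil, List.map_cons, List.map_nil, List.sum_cons, List.sum_nil]
      push_cast
      module) (by norm_num) (by norm_num) (W.g22 lL yL zL yl.symm zl.symm yz)).elim
  · rw [h1] at hlt hk
    have hle := T.le a na.symm
    have hnn := T.nn a na.symm
    simp only [if_true, if_neg ab, if_neg ya.symm, if_neg za.symm, if_neg la.symm] at hlt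
    rcases hδ with h2 | h2 <;> rw [h2] at hlt hk
    · omega
    · exact (W.x2 hk hFr hFr2 [l] [y, l] (1) (1) (0) (by
      simp only [kv, List.length_cons, List.length_nil, List.map_cons, List.map_nil, List.sum_cons, List.sum_nil]
      push_cast
      module) (by norm_num) (by norm_num) (W.g12 lL yL lL yl)).elim
  · rw [h1] at hlt hk
    have hle := T.le b nb.symm
    have hnn := T.nn b nb.symm
    simp only [if_true, if_neg ab.symm, if_neg yb.symm, if_neg zb.symm, if_neg lb.symm] at hlt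
    rcases hδ with h2 | h2 <;> rw [h2] at hlt hk
    · omega
    · exact (W.x2 hk hFr hFr2 [y, l] [l] (1) (1) (0) (by
      simp only [kv, List.length_cons, List.length_nil, List.map_cons, List.map_nil, List.sum_cons, List.sum_nil]
      push_cast
      module) (by norm_num) (by norm_num) (W.g21 yL lL lL yl)).elim
  · rw [h1] at hlt hk
    have hle := T.le y yn
    have hnn := T.nn y yn
    simp only [if_true, if_neg ya, if_neg yb, if_neg yz, if_neg yl] at hlt
    rcases hδ with h2 | h2 <;> rw [h2] at hlt hk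
    · omega
    · exact (W.x2 hk hFr hFr2 [l, y] [l, z] (0) (0) (0) (by
      simp only [kv, List.length_cons, List.length_nil, List.map_cons, List.map_nil, List.sum_cons, List.sum_nil]
      push_cast
      module) (by norm_num) (by norm_num) (W.g22 lL yL zL yl.symm zl.symm yz)).elim
  · rw [h1] at hlt hk
    have hle := T.le z zn
    have hnn := T.nn z zn
    simp only [if_true, if_neg za, if_neg zb, if_neg yz.symm, if_neg zl] at hlt
    rcases hδ with h2 | h2 <;> rw [h2] at hlt hk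
    · exact (W.x2 hk hFr hFr2 [l, y] [l, z] (1) (1) (0) (by
      simp only [kv, List.length_cons, List.length_nil, List.map_cons, List.map_nil, List.sum_cons, List.sum_nil]
      push_cast
      module) (by norm_num) (by norm_num) (W.g22 lL yL zL yl.symm zl.symm yz)).elim
    · omega
  · rw [h1] at hlt hk
    have hle := T.le l ln
    have hnn := T.nn l ln
    simp only [if_true, if_neg la, if_neg lb, if_neg yl.symm, if_neg zl.symm] at hlt
    rcases hδ with h2 | h2 <;> rw [h2] at hlt hk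
    · omega
    · exact (W.x2 hk hFr hFr2 [y, z] [y, l] (0) (0) (0) (by
      simp only [kv, List.length_cons, List.length_nil, List.map_cons, List.map_nil, List.sum_cons, List.sum_nil]
      push_cast
      module) (by norm_num) (by norm_num) (W.g22 yL zL lL yz yl zl)).elim
  · have hnn := T.nn j jn
    simp only [if_neg ja, if_neg jb, if_neg jy, if_neg jz, if_neg jl] at hlt
    rcases hδ with h2 | h2 <;> rw [h2] at hlt hk
    · by_cases jL : j ∈ L
      · exact (W.x2 hk hFr hFr2 [l, y] [l, j] (1) (1) (0) (by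
      simp only [kv, List.length_cons, List.length_nil, List.map_cons, List.map_nil, List.sum_cons, List.sum_nil]
      push_cast
      module) (by norm_num) (by norm_num) (W.g22 lL yL jL yl.symm jl.symm jy.symm)).elim
      · by_cases jR : j ∈ R
        · exact (hR j jR).elim
        · have := T.sup j ja jb jL jn jR
          omega
    · omega

theorem KW.S1 {y p : ℕ} (hFr : Fr y) (hFr2 : Fr p) (hR : ∀ r ∈ R, Rp y r) (yL : y ∈ L) (pL : p ∈ L) (yp : y ≠ p) {M : ℕ → ℤ} (T : Tg n a b L R M)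
    (hM : J M) (h : M a ≤ 1) (hF : J ((2 : ℤ) • ev a + (2 : ℤ) • ev b + (2 : ℤ) • ev y + (2 : ℤ) • ev p)) :
    False := by
  have ab := W.ab
  have na := W.na
  have nb := W.nb
  obtain ⟨ya, yb, yn⟩ := W.L' yL
  obtain ⟨pa, pb, pn⟩ := W.L' pL
  obtain ⟨j, δ, hδ, hlt, hk⟩ := W.st hF hM a (-1) (Or.inl rfl) (Or.inr rfl) (by
    simp only [Pi.add_apply, Pi.smul_apply, Pi.zero_apply, ev_apply, smul_eq_mul, if_true, if_neg ab, if_neg ya.symm, if_neg pa.symm]; omega)
  simp only [Pi.add_apply, Pi.smul_apply, Pi.zero_apply, ev_apply, smul_eq_mul] at hlt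
  have hc : j = n ∨ j = a ∨ j = b ∨ j = y ∨ j = p ∨ (j ≠ n ∧ j ≠ a ∧ j ≠ b ∧ j ≠ y ∧ j ≠ p) := by omega
  rcases hc with h1 | h1 | h1 | h1 | h1 | ⟨jn, ja, jb, jy, jp⟩
  · rw [h1] at hk
    exact (W.x2 hk hFr hFr2 [y] [y, p] (0) (1) (δ) (by
      simp only [kv, List.length_cons, List.length_nil, List.map_cons, List.map_nil, List.sum_cons, List.sum_nil]
      push_cast
      module) (by norm_num) (by norm_num) (W.g12 yL yL pL yp)).elim
  · rw [h1] at hlt hk
    have hle := T.le a na.symm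
    have hnn := T.nn a na.symm
    simp only [if_true, if_neg ab, if_neg ya.symm, if_neg pa.symm] at hlt
    rcases hδ with h2 | h2 <;> rw [h2] at hlt hk
    · omega
    · exact (W.x2 hk hFr hFr2 [] [y, p] (1) (1) (0) (by
      simp only [kv, List.length_cons, List.length_nil, List.map_cons, List.map_nil, List.sum_cons, List.sum_nil]
      push_cast
      module) (by norm_num) (by norm_num) (W.g02 yL pL yp)).elim
  · rw [h1] at hlt hk
    have hle := T.le b nb.symm
    have hnn := T.nn b nb.symm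
    simp only [if_true, if_neg ab.symm, if_neg yb.symm, if_neg pb.symm] at hlt
    rcases hδ with h2 | h2 <;> rw [h2] at hlt hk
    · omega
    · exact (W.x2 hk hFr hFr2 [y] [y] (0) (2) (0) (by
      simp only [kv, List.length_cons, List.length_nil, List.map_cons, List.map_nil, List.sum_cons, List.sum_nil]
      push_cast
      module) (by norm_num) (by norm_num) (W.g11 yL yL)).elim
  · rw [h1] at hlt hk
    have hle := T.le y yn
    have hnn := T.nn y yn
    simp only [if_true, if_neg ya, if_neg yb, if_neg yp] at hlt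
    rcases hδ with h2 | h2 <;> rw [h2] at hlt hk
    · omega
    · exact (W.x2 hk hFr hFr2 [p] [y, p] (0) (0) (0) (by
      simp only [kv, List.length_cons, List.length_nil, List.map_cons, List.map_nil, List.sum_cons, List.sum_nil]
      push_cast
      module) (by norm_num) (by norm_num) (W.g12 pL yL pL yp)).elim
  · rw [h1] at hlt hk
    have hle := T.le p pn
    have hnn := T.nn p pn
    simp only [if_true, if_neg pa, if_neg pb, if_neg yp.symm] at hlt
    rcases hδ with h2 | h2 <;> rw [h2] at hlt hk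
    · omega
    · exact (W.x2 hk hFr hFr2 [y] [y, p] (0) (0) (0) (by
      simp only [kv, List.length_cons, List.length_nil, List.map_cons, List.map_nil, List.sum_cons, List.sum_nil]
      push_cast
      module) (by norm_num) (by norm_num) (W.g12 yL yL pL yp)).elim
  · have hnn := T.nn j jn
    simp only [if_neg ja, if_neg jb, if_neg jy, if_neg jp] at hlt
    rcases hδ with h2 | h2 <;> rw [h2] at hlt hk
    · by_cases jL : j ∈ L
      · exact (W.x2 hk hFr hFr2 [y] [y, j] (0) (2) (0) (by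
      simp only [kv, List.length_cons, List.length_nil, List.map_cons, List.map_nil, List.sum_cons, List.sum_nil]
      push_cast
      module) (by norm_num) (by norm_num) (W.g12 yL yL jL jy.symm)).elim
      · by_cases jR : j ∈ R
        · exact (W.r12 hk (hR j jR) pL yL pL yp 0 (by
          simp [ev_apply, ya, yb, yp]) (by module)).elim
        · have := T.sup j ja jb jL jn jR
          omega
    · omega

theorem KW.S1b {y p : ℕ} (hFr : Fr y) (hFr2 : Fr p) (hR : ∀ r ∈ R, Rp y r) (yL : y ∈ L) (pL : p ∈ L) (yp : y ≠ p) {M : ℕ → ℤ} (T : Tg n a b L R M)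
    (hM : J M) (h : M b ≤ 1) (hF : J ((2 : ℤ) • ev a + (2 : ℤ) • ev b + (2 : ℤ) • ev y + (2 : ℤ) • ev p)) :
    False := by
  have ab := W.ab
  have na := W.na
  have nb := W.nb
  obtain ⟨ya, yb, yn⟩ := W.L' yL
  obtain ⟨pa, pb, pn⟩ := W.L' pL
  obtain ⟨j, δ, hδ, hlt, hk⟩ := W.st hF hM b (-1) (Or.inr (Or.inl rfl)) (Or.inr rfl) (by
    simp only [Pi.add_apply, Pi.smul_apply, Pi.zero_apply, ev_apply, smul_eq_mul, if_true, if_neg ab.symm, if_neg yb.symm, if_neg pb.symm]; omega)
  simp only [Pi.add_apply, Pi.smul_apply, Pi.zero_apply, ev_apply, smul_eq_mul] at hlt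
  have hc : j = n ∨ j = a ∨ j = b ∨ j = y ∨ j = p ∨ (j ≠ n ∧ j ≠ a ∧ j ≠ b ∧ j ≠ y ∧ j ≠ p) := by omega
  rcases hc with h1 | h1 | h1 | h1 | h1 | ⟨jn, ja, jb, jy, jp⟩
  · rw [h1] at hk
    exact (W.x2 hk hFr hFr2 [y, p] [y] (0) (1) (δ) (by
      simp only [kv, List.length_cons, List.length_nil, List.map_cons, List.map_nil, List.sum_cons, List.sum_nil]
      push_cast
      module) (by norm_num) (by norm_num) (W.g21 yL pL yL yp)).elim
  · rw [h1] at hlt hk
    have hle := T.le a na.symm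
    have hnn := T.nn a na.symm
    simp only [if_true, if_neg ab, if_neg ya.symm, if_neg pa.symm] at hlt
    rcases hδ with h2 | h2 <;> rw [h2] at hlt hk
    · omega
    · exact (W.x2 hk hFr hFr2 [y] [y] (0) (2) (0) (by
      simp only [kv, List.length_cons, List.length_nil, List.map_cons, List.map_nil, List.sum_cons, List.sum_nil]
      push_cast
      module) (by norm_num) (by norm_num) (W.g11 yL yL)).elim
  · rw [h1] at hlt hk
    have hle := T.le b nb.symm
    have hnn := T.nn b nb.symm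
    simp only [if_true, if_neg ab.symm, if_neg yb.symm, if_neg pb.symm] at hlt
    rcases hδ with h2 | h2 <;> rw [h2] at hlt hk
    · omega
    · exact (W.x2 hk hFr hFr2 [y, p] [] (1) (1) (0) (by
      simp only [kv, List.length_cons, List.length_nil, List.map_cons, List.map_nil, List.sum_cons, List.sum_nil]
      push_cast
      module) (by norm_num) (by norm_num) (W.g20 yL pL yp)).elim
  · rw [h1] at hlt hk
    have hle := T.le y yn
    have hnn := T.nn y yn
    simp only [if_true, if_neg ya, if_neg yb, if_neg yp] at hlt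
    rcases hδ with h2 | h2 <;> rw [h2] at hlt hk
    · omega
    · exact (W.x2 hk hFr hFr2 [y, p] [p] (0) (0) (0) (by
      simp only [kv, List.length_cons, List.length_nil, List.map_cons, List.map_nil, List.sum_cons, List.sum_nil]
      push_cast
      module) (by norm_num) (by norm_num) (W.g21 yL pL pL yp)).elim
  · rw [h1] at hlt hk
    have hle := T.le p pn
    have hnn := T.nn p pn
    simp only [if_true, if_neg pa, if_neg pb, if_neg yp.symm] at hlt
    rcases hδ with h2 | h2 <;> rw [h2] at hlt hk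
    · omega
    · exact (W.x2 hk hFr hFr2 [y, p] [y] (0) (0) (0) (by
      simp only [kv, List.length_cons, List.length_nil, List.map_cons, List.map_nil, List.sum_cons, List.sum_nil]
      push_cast
      module) (by norm_num) (by norm_num) (W.g21 yL pL yL yp)).elim
  · have hnn := T.nn j jn
    simp only [if_neg ja, if_neg jb, if_neg jy, if_neg jp] at hlt
    rcases hδ with h2 | h2 <;> rw [h2] at hlt hk
    · by_cases jL : j ∈ L
      · exact (W.x2 hk hFr hFr2 [y, p] [j] (1) (1) (0) (by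
      simp only [kv, List.length_cons, List.length_nil, List.map_cons, List.map_nil, List.sum_cons, List.sum_nil]
      push_cast
      module) (by norm_num) (by norm_num) (W.g21 yL pL jL yp)).elim
      · by_cases jR : j ∈ R
        · exact (W.r21 hk (hR j jR) yL pL pL yp 0 (by
          simp [ev_apply, ya, yb, yp]) (by module)).elim
        · have := T.sup j ja jb jL jn jR
          omega
    · omega

/-- two free leaves: there is no third leaf -/
theorem KW.twoleaf (FD : FDs a b D J) (hcov : ∀ l ∈ L, ∃ v, D l v) {y z l : ℕ} (hy : Fr y) (hz : Fr z) (yL : y ∈ L) (zL : z ∈ L)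
    (lL : l ∈ L) (yz : y ≠ z) (yl : y ≠ l) (zl : z ≠ l) : False := by
  by_cases h : D y z
  · obtain ⟨v, hv⟩ := hcov l lL
    obtain ⟨_, _, lv, la, lb, _⟩ := W.DL' hv
    refine W.C1 hy hz (R := ∅) (by simp) yL zL lL yz yl zl (W.tgF hv) (FD _ _ hv) ?_ (FD _ _ h)
    simp [ev_apply, la, lb, lv]
  · obtain ⟨u, hu⟩ := hcov y yL
    obtain ⟨v, hv⟩ := hcov z zL
    obtain ⟨_, uL, yu, _⟩ := W.DL' hu
    obtain ⟨_, _, zv, za, zb, _⟩ := W.DL' hv
    have hzu : z ≠ u := by rintro rfl; exact h hu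
    refine W.C2 hy hz (R := ∅) (by simp) yL zL uL yz yu hzu (W.tgF hv) (FD _ _ hv) ?_ (FD _ _ hu)
    simp [ev_apply, za, zb, zv]

/-- no free hub next to a free leaf -/
theorem KW.hubleaf {l v : ℕ} (hD : D l v) (F : J ((2 : ℤ) • ev a + (2 : ℤ) • ev b + (2 : ℤ) • ev l + (2 : ℤ) • ev v))
    (hl : Fr l) (h : Fr a ∨ Fr b) : False := by
  obtain ⟨lL, vL, lv, la, lb, ln, va, vb, vn⟩ := W.DL' hD
  rcases h with h | h
  · exact W.x2 F h hl [v] [v, l] 1 1 0 (by
      simp only [kv, List.length_cons, List.length_nil, List.map_cons, List.map_nil, List.sum_cons, List.sum_nil]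
      push_cast
      module) (by norm_num) (by norm_num) (W.g12 vL vL lL lv.symm)
  · exact W.x2 F h hl [v, l] [v] 1 1 0 (by
      simp only [kv, List.length_cons, List.length_nil, List.map_cons, List.map_nil, List.sum_cons, List.sum_nil]
      push_cast
      module) (by norm_num) (by norm_num) (W.g21 vL lL vL lv.symm)

/-- free corner lemma for a square with two opposite free corners -/
theorem KW.bS {y p r : ℕ} (hy : Fr y) (hp : Fr p) (hD : D y p)
    (F : J ((2 : ℤ) • ev a + (2 : ℤ) • ev b + (2 : ℤ) • ev y + (2 : ℤ) • ev p)) (hL : ∀ x ∈ L, x = y ∨ x = p)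
    (hr : Rp y r) (hra : r ≠ a) (hrb : r ≠ b) (hrL : r ∉ L) (hrn : r ≠ n) {c τ : ℤ} (hc : 0 ≤ c) (hc2 : c ≤ 2)
    (g : Gd L D A B) (hM : J (rv n a b r c τ A B)) : False := by
  obtain ⟨yL, pL, yp, ya, yb, yn, pa, pb, pn⟩ := W.DL' hD
  have T := W.tgr g hra hrb hrL hrn (τ := τ) hc hc2
  have R0 : ∀ x ∈ ({r} : Finset ℕ), Rp y x := by
    intro x hx
    rw [Finset.mem_singleton.1 hx]
    exact hr
  have ha : rv n a b r c τ A B a = A.length := by
    rw [rv_apply W.na.symm hra.symm, W.kv_a g]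
  have hb : rv n a b r c τ A B b = B.length := by
    rw [rv_apply W.nb.symm hrb.symm, W.kv_b g]
  by_cases hA : A.length ≤ 1
  · exact W.S1 hy hp R0 yL pL yp T hM (by rw [ha]; omega) F
  by_cases hB : B.length ≤ 1
  · exact W.S1b hy hp R0 yL pL yp T hM (by rw [hb]; omega) F
  have both : ∀ A : List ℕ, A.Nodup → 2 ≤ A.length → (∀ x ∈ A, x ∈ L) → y ∈ A ∧ p ∈ A := by
    intro A nA h2 lA
    obtain ⟨u, hu⟩ : ∃ u, u ∈ A := by
      match A, h2 with
      | [], h => simp at h
      | u :: _, _ => exact ⟨u, by simp⟩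
    obtain ⟨u', hu', hne⟩ := two_of_len nA h2 hu
    rcases hL u (lA u hu) with h | h
    · rcases hL u' (lA u' hu') with h' | h'
      · exact absurd (h'.trans h.symm) hne
      · exact ⟨h ▸ hu, h' ▸ hu'⟩
    · rcases hL u' (lA u' hu') with h' | h'
      · exact ⟨h' ▸ hu', h ▸ hu⟩
      · exact absurd (h'.trans h.symm) hne
  have h1 := both A g.nA (by omega) g.lA
  have h2 := both B g.nB (by omega) g.lB
  exact g.g y p hD h1.1 h1.2 h2.1 h2.2

end Pool.Agent.PF4.XF

end

section -- file PF4/KWM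

/-!
From a world at a cluster with two hubs to the abstract form `KW`.
-/

set_option autoImplicit false
set_option linter.unusedSectionVars false
set_option linter.unusedVariables false
set_option linter.unusedSimpArgs false

namespace Pool.Agent.PF4.XF

open Finset Pool.Agent.TFC

/-- add the edges from `a` to the members of the list -/
def star (a : ℕ) (A : List ℕ) (s0 : Finset (Sym2 ℕ)) : Finset (Sym2 ℕ) :=
  A.foldr (fun x s => insert s(a, x) s) s0

lemma mem_star {a : ℕ} {A : List ℕ} {s0 : Finset (Sym2 ℕ)} {e : Sym2 ℕ} :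
    e ∈ star a A s0 ↔ (∃ x ∈ A, e = s(a, x)) ∨ e ∈ s0 := by
  induction A with
  | nil => simp [star]
  | cons y A ih =>
    rw [star, List.foldr_cons, ← star, Finset.mem_insert, ih]
    simp only [List.mem_cons, exists_eq_or_imp]
    rw [or_assoc]

lemma dv_star {a : ℕ} {A : List ℕ} {s0 : Finset (Sym2 ℕ)} (hn : A.Nodup) (ha : a ∉ A)
    (h0 : ∀ x ∈ A, s(a, x) ∉ s0) : dv (star a A s0) = (A.length : ℤ) • ev a + (A.map ev).sum + dv s0 := by
  induction A with
  | nil => simp [star]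
  | cons y A ih =>
    obtain ⟨h1, h2⟩ := List.nodup_cons.1 hn
    have hay : a ≠ y := fun h => ha (by simp [h])
    have haA : a ∉ A := fun h => ha (by simp [h])
    have hni : s(a, y) ∉ star a A s0 := by
      rw [mem_star]
      rintro (⟨x, hx, h⟩ | h)
      · exact h1 (sym2_inj_left h ▸ hx)
      · exact h0 y (by simp) h
    rw [star, List.foldr_cons, ← star, dv_insert hay hni, ih h2 haA (fun x hx => h0 x (by simp [hx])),
      List.length_cons, List.map_cons, List.sum_cons]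
    push_cast
    module

/-- the edge set of a pair of lists -/
def ks (a b : ℕ) (A B : List ℕ) : Finset (Sym2 ℕ) := star a A (star b B ∅)

lemma mem_ks {a b : ℕ} {A B : List ℕ} {e : Sym2 ℕ} :
    e ∈ ks a b A B ↔ (∃ x ∈ A, e = s(a, x)) ∨ ∃ x ∈ B, e = s(b, x) := by
  rw [ks, mem_star, mem_star]
  simp

lemma dv_ks {a b : ℕ} {A B : List ℕ} (hab : a ≠ b) (nA : A.Nodup) (nB : B.Nodup) (aA : a ∉ A) (aB : a ∉ B)
    (bA : b ∉ A) (bB : b ∉ B) : dv (ks a b A B) = kv a b A B := by
  have h0 : dv (∅ : Finset (Sym2 ℕ)) = 0 := by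
    funext v
    simp [dv, dg]
  rw [ks, dv_star nA aA, dv_star nB bB (by simp), h0, kv]
  · module
  · intro x hx h
    rw [mem_star] at h
    rcases h with ⟨y, hy, h⟩ | h
    · rcases Sym2.eq_iff.1 h with ⟨h1, _⟩ | ⟨h1, _⟩
      · exact hab h1
      · exact aB (h1 ▸ hy)
    · simp at h

/-- the cluster with hubs `a`, `b` and leaves `L`: its edges `C`, the squares `DC` of the family in it -/
structure K2At (n : ℕ) (C : Finset (Sym2 ℕ)) (DC : Finset (Finset (Sym2 ℕ))) (a b : ℕ) (L : Finset ℕ) : Prop where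
  C : C = (Clu.k2 a b L).edges
  ab : a ≠ b
  aL : a ∉ L
  bL : b ∉ L
  an : a < n
  bn : b < n
  Ln : ∀ v ∈ L, v < n
  sqs : ∀ Z ∈ DC, ∃ u w, u ∈ L ∧ w ∈ L ∧ u ≠ w ∧ Z = TFC.sq a u b w

/-- the pairs of leaves which belong to the family -/
def Dp (DC : Finset (Finset (Sym2 ℕ))) (a b : ℕ) (L : Finset ℕ) (u w : ℕ) : Prop :=
  u ∈ L ∧ w ∈ L ∧ u ≠ w ∧ TFC.sq a u b w ∈ DC

section

variable {n a b : ℕ} {T V2 L : Finset ℕ} {C ER PL : Finset (Sym2 ℕ)} {DC : Finset (Finset (Sym2 ℕ))}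
  {J : (ℕ → ℤ) → Prop}

lemma K2At.mem (K : K2At n C DC a b L) {e : Sym2 ℕ} : e ∈ C ↔ ∃ l ∈ L, e = s(a, l) ∨ e = s(b, l) := by
  rw [K.C]
  simp only [Clu.edges, Finset.mem_union, Finset.mem_image]
  constructor
  · rintro (⟨l, h1, h2⟩ | ⟨l, h1, h2⟩)
    · exact ⟨l, h1, Or.inl h2.symm⟩
    · exact ⟨l, h1, Or.inr h2.symm⟩
  · rintro ⟨l, h1, h2 | h2⟩
    · exact Or.inl ⟨l, h1, h2.symm⟩
    · exact Or.inr ⟨l, h1, h2.symm⟩

lemma K2At.ks_sub (K : K2At n C DC a b L) {D : ℕ → ℕ → Prop} {A B : List ℕ} (g : Gd L D A B) : ks a b A B ⊆ C := by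
  intro e he
  rw [mem_ks] at he
  rw [K.mem]
  rcases he with ⟨x, hx, h⟩ | ⟨x, hx, h⟩
  · exact ⟨x, g.lA x hx, Or.inl h⟩
  · exact ⟨x, g.lB x hx, Or.inr h⟩

lemma K2At.nl (K : K2At n C DC a b L) : NoLoop C := by
  intro e he hd
  rw [K.mem] at he
  obtain ⟨l, hl, rfl | rfl⟩ := he
  · rw [Sym2.mk_isDiag_iff] at hd
    exact K.aL (hd ▸ hl)
  · rw [Sym2.mk_isDiag_iff] at hd
    exact K.bL (hd ▸ hl)

lemma K2At.lt (K : K2At n C DC a b L) : ∀ e ∈ C, ∀ v ∈ e, v < n := by
  intro e he v hv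
  rw [K.mem] at he
  obtain ⟨l, hl, rfl | rfl⟩ := he
  · rcases Sym2.mem_iff.1 hv with rfl | rfl
    · exact K.an
    · exact K.Ln _ hl
  · rcases Sym2.mem_iff.1 hv with rfl | rfl
    · exact K.bn
    · exact K.Ln _ hl

lemma K2At.dv_ks (K : K2At n C DC a b L) {D : ℕ → ℕ → Prop} {A B : List ℕ} (g : Gd L D A B) :
    dv (ks a b A B) = kv a b A B :=
  XF.dv_ks K.ab g.nA g.nB (fun h => K.aL (g.lA _ h)) (fun h => K.aL (g.lB _ h)) (fun h => K.bL (g.lA _ h))
    (fun h => K.bL (g.lB _ h))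

lemma K2At.good (K : K2At n C DC a b L) {A B : List ℕ} (g : Gd L (Dp DC a b L) A B) :
    ∀ Z ∈ DC, ¬ Z ⊆ ks a b A B := by
  intro Z hZ hs
  obtain ⟨u, w, hu, hw, huw, rfl⟩ := K.sqs Z hZ
  have au : ∀ x ∈ L, a ≠ x := by rintro x hx rfl; exact K.aL hx
  have bu : ∀ x ∈ L, b ≠ x := by rintro x hx rfl; exact K.bL hx
  have mA : ∀ x ∈ L, s(a, x) ∈ ks a b A B → x ∈ A := by
    intro x hx h
    rw [mem_ks] at h
    rcases h with ⟨y, hy, h⟩ | ⟨y, hy, h⟩
    · exact sym2_inj_left h ▸ hy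
    · rcases Sym2.eq_iff.1 h with ⟨h1, _⟩ | ⟨h1, _⟩
      · exact absurd h1 K.ab
      · exact absurd h1 (au y (g.lB y hy))
  have mB : ∀ x ∈ L, s(b, x) ∈ ks a b A B → x ∈ B := by
    intro x hx h
    rw [mem_ks] at h
    rcases h with ⟨y, hy, h⟩ | ⟨y, hy, h⟩
    · rcases Sym2.eq_iff.1 h with ⟨h1, _⟩ | ⟨h1, _⟩
      · exact absurd h1.symm K.ab
      · exact absurd h1 (bu y (g.lA y hy))
    · exact sym2_inj_left h ▸ hy
  refine g.g u w ⟨hu, hw, huw, hZ⟩ ?_ ?_ ?_ ?_
  · exact mA u hu (hs (by simp [TFC.sq]))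
  · exact mA w hw (hs (by simp [TFC.sq, Sym2.eq_swap]))
  · exact mB u hu (hs (by simp [TFC.sq, Sym2.eq_swap]))
  · exact mB w hw (hs (by simp [TFC.sq]))

lemma kv_off' {a b : ℕ} {A B : List ℕ} {D : ℕ → ℕ → Prop} (g : Gd L D A B) {v : ℕ} (ha : v ≠ a) (hb : v ≠ b) (hv : v ∉ L) :
    kv a b A B v = 0 := by
  rw [g.kv_apply, if_neg ha, if_neg hb, if_neg (fun h => hv (g.lA _ h)), if_neg (fun h => hv (g.lB _ h))]
  ring

lemma kv_nn' {a b : ℕ} {A B : List ℕ} {D : ℕ → ℕ → Prop} (g : Gd L D A B) (v : ℕ) : 0 ≤ kv a b A B v := by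
  rw [g.kv_apply]
  have h1 : (0 : ℤ) ≤ A.length := by positivity
  have h2 : (0 : ℤ) ≤ B.length := by positivity
  split_ifs <;> omega

/-- **the bridge** -/
theorem KW.of_WJ (W : WJ n T V2 C ER PL DC J) (K : K2At n C DC a b L) :
    KW n a b L (fun v => v ∉ T ∧ v < n) (fun y r => s(y, r) ∈ ER ∧ s(y, r) ∉ C ∧ y ≠ r ∧ y < n ∧ r < n)
      (Dp DC a b L) J := by
  have au : ∀ x ∈ L, a ≠ x := by rintro x hx rfl; exact K.aL hx
  have bu : ∀ x ∈ L, b ≠ x := by rintro x hx rfl; exact K.bL hx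
  have kvn : ∀ {A B : List ℕ}, Gd L (Dp DC a b L) A B → ∀ v, n ≤ v → kv a b A B v = 0 := by
    intro A B g v hv
    refine kv_off' g ?_ ?_ ?_
    · have := K.an; omega
    · have := K.bn; omega
    · intro h
      have := K.Ln v h
      omega
  refine ⟨?_, ?_, ?_, K.ab, K.aL, K.bL, ?_, ?_, ?_, ?_, ?_, ?_⟩
  · intro k k' i ε h1 h2 _ h3 h4
    exact W.jb k k' i ε h1 h2 h3 h4
  · intro A B z g hz hz2 hJ
    have hsub := K.ks_sub g
    have e := K.dv_ks g
    have hJ' : J (kv a b A B) := by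
      refine W.dn _ _ hJ ?_ ?_ (Or.inl (kvn g n le_rfl)) ?_ ?_
      · intro v hv hT
        have := hz2 v hv.ne (fun h => h.1 hT)
        simp [this]
      · intro v hv hT
        have := hz v hv.ne
        exact ⟨kv_nn' g v, by rw [Pi.add_apply]; omega⟩
      · rw [← e, sum_dv (K.nl.mono hsub) (fun f hf v hv => K.lt f (hsub hf) v hv)]
        exact ⟨_, two_mul _⟩
      · intro v hv
        exact kvn g v (by omega)
    refine W.blk _ hJ' (ks a b A B) (hsub.trans Finset.subset_union_left) ?_ (K.good g) ?_ e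
    · refine M2.of_dv (K.nl.mono hsub) ?_
      intro v
      rw [e]
      by_cases hv : v < n
      · exact (W.rg _ hJ' v hv).2
      · rw [kvn g v (by omega)]; omega
    · intro f hf hfC
      exact absurd (hsub hf) hfC
  · rintro y r A B τ ⟨h1, h2, h3, h4, h5⟩ g hy hJ
    have hsub := K.ks_sub g
    have e := K.dv_ks g
    have hni : s(y, r) ∉ ks a b A B := fun h => h2 (hsub h)
    have yn : n ≠ y := by omega
    have rn : n ≠ r := by omega
    have hτ : τ = 0 := by
      have h6 := W.tok _ hJ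
      have h7 := W.par _ hJ
      have h8 : (kv a b A B + ev y + ev r + τ • ev n : ℕ → ℤ) n = τ := by
        simp [ev_apply, kvn g n le_rfl, yn, rn]
      rw [h8] at h6
      have h9 : ∑ v ∈ Finset.range (n + 1), (kv a b A B + ev y + ev r + τ • ev n : ℕ → ℤ) v =
          2 * (#(ks a b A B) : ℤ) + 1 + 1 + τ := by
        simp only [Pi.add_apply, Pi.smul_apply, smul_eq_mul, Finset.sum_add_distrib]
        rw [← e, sum_dv (K.nl.mono hsub) (fun f hf v hv => K.lt f (hsub hf) v hv)]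
        simp only [ev_apply, mul_ite, mul_one, mul_zero]
        rw [Finset.sum_ite_eq', Finset.sum_ite_eq', Finset.sum_ite_eq', if_pos (Finset.mem_range.2 (by omega)),
          if_pos (Finset.mem_range.2 (by omega)), if_pos (Finset.mem_range.2 (by omega))]
      rw [h9] at h7
      rcases h6 with h | h
      · exact h
      · rw [h] at h7
        obtain ⟨q, hq⟩ := h7
        omega
    have e2 : dv (insert s(y, r) (ks a b A B)) = kv a b A B + ev y + ev r + τ • ev n := by
      rw [dv_insert h3 hni, e, hτ]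
      module
    refine W.blk _ hJ (insert s(y, r) (ks a b A B)) ?_ ?_ ?_ ?_ e2
    · intro f hf
      rcases Finset.mem_insert.1 hf with rfl | hf
      · exact Finset.mem_union_right _ h1
      · exact Finset.mem_union_left _ (hsub hf)
    · refine M2.of_dv ((K.nl.mono hsub).insert h3) ?_
      intro v
      rw [e2]
      rcases Nat.lt_trichotomy v n with hv | hv | hv
      · exact (W.rg _ hJ v hv).2
      · rw [hv]
        rcases W.tok _ hJ with h | h <;> rw [h] <;> norm_num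
      · rw [W.up _ hJ v hv]; norm_num
    · intro Z hZ hs
      apply K.good g Z hZ
      intro f hf
      rcases Finset.mem_insert.1 (hs hf) with h | h
      · exfalso
        apply h2
        rw [← h]
        obtain ⟨u, w, hu, hw, huw, rfl⟩ := K.sqs Z hZ
        rw [K.mem]
        simp only [TFC.sq, Finset.mem_insert, Finset.mem_singleton] at hf
        rcases hf with rfl | rfl | rfl | rfl
        · exact ⟨u, hu, Or.inl rfl⟩
        · exact ⟨u, hu, Or.inr Sym2.eq_swap⟩
        · exact ⟨w, hw, Or.inr rfl⟩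
        · exact ⟨w, hw, Or.inl Sym2.eq_swap⟩
      · exact h
    · intro f hf hfC
      rcases Finset.mem_insert.1 hf with rfl | hf
      · right
        refine ⟨y, Sym2.mem_mk_left _ _, ?_⟩
        have h6 : dg (ks a b A B) y = 1 := by
          have := congrFun e y
          rw [dv_apply, hy] at this
          exact_mod_cast this
        rw [← h6]
        exact dg_mono (Finset.subset_inter (Finset.subset_insert _ _) hsub) y
      · exact absurd (hsub hf) hfC
  · have := K.an; omega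
  · have := K.bn; omega
  · intro h
    have := K.Ln n h
    omega
  · rintro u ⟨_, _, h, _⟩
    exact h rfl
  · rintro u w ⟨h1, h2, h3, h4⟩
    refine ⟨h2, h1, h3.symm, ?_⟩
    have h5 : Dist4 a u b w := ⟨au u h1, K.ab, au w h2, (bu u h1).symm, h3, bu w h2⟩
    rw [← (Clus_sq_leaf h5).2]
    exact h4
  · rintro u w ⟨h1, _⟩
    exact h1

/-- the witnesses -/
theorem K2At.fds (K : K2At n C DC a b L) (hF : ∀ Z ∈ DC, J (dv Z)) : FDs a b (Dp DC a b L) J := by
  have au : ∀ x ∈ L, a ≠ x := by rintro x hx rfl; exact K.aL hx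
  have bu : ∀ x ∈ L, b ≠ x := by rintro x hx rfl; exact K.bL hx
  rintro u w ⟨h1, h2, h3, h4⟩
  have h5 : Dist4 a u b w := ⟨au u h1, K.ab, au w h2, (bu u h1).symm, h3, bu w h2⟩
  have h6 : dv (TFC.sq a u b w) = (2 : ℤ) • ev a + (2 : ℤ) • ev b + (2 : ℤ) • ev u + (2 : ℤ) • ev w := by
    funext v
    rw [CE.dv_sq h5]
    simp only [Pi.add_apply, Pi.smul_apply, smul_eq_mul]
    ring
  rw [← h6]
  exact hF _ h4

end

end Pool.Agent.PF4.XF

end

section -- file PF4/KWO

/-!
The one-world lemmas in terms of the data `OW` of one world.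
-/

set_option autoImplicit false
set_option linter.unusedSectionVars false
set_option linter.unusedVariables false
set_option linter.unusedSimpArgs false

namespace Pool.Agent.PF4.XF

open Finset Pool.Agent.TFC

/-- the cluster `c` of the square `Q` of the family -/
structure CD (X : XD) (D : Finset (Finset (Sym2 ℕ))) (Q : Finset (Sym2 ℕ)) (c : Clu ℕ) : Prop where
  val : c.Valid
  mem : Q ∈ D
  sub : Q ⊆ c.edges
  near : c.edges ⊆ X.En
  sep : ∀ Z ∈ D, Z ⊆ c.edges ∨ Disjoint Z c.edges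
  cov : ∀ e ∈ c.edges, ∃ Z ∈ D, e ∈ Z ∧ Z ⊆ c.edges

lemma k2_mem {a b : ℕ} {L : Finset ℕ} {e : Sym2 ℕ} :
    e ∈ (Clu.k2 a b L).edges ↔ ∃ l ∈ L, e = s(a, l) ∨ e = s(b, l) := by
  simp only [Clu.edges, Finset.mem_union, Finset.mem_image]
  constructor
  · rintro (⟨l, h1, h2⟩ | ⟨l, h1, h2⟩)
    · exact ⟨l, h1, Or.inl h2.symm⟩
    · exact ⟨l, h1, Or.inr h2.symm⟩
  · rintro ⟨l, h1, h2 | h2⟩
    · exact Or.inl ⟨l, h1, h2.symm⟩
    · exact Or.inr ⟨l, h1, h2.symm⟩

lemma k2_mem2 {a b : ℕ} {L : Finset ℕ} {u v : ℕ} :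
    s(u, v) ∈ (Clu.k2 a b L).edges ↔ ((u = a ∨ u = b) ∧ v ∈ L) ∨ ((v = a ∨ v = b) ∧ u ∈ L) := by
  rw [k2_mem]
  constructor
  · rintro ⟨l, hl, h | h⟩
    · rcases Sym2.eq_iff.1 h with ⟨rfl, rfl⟩ | ⟨rfl, rfl⟩
      · exact Or.inl ⟨Or.inl rfl, hl⟩
      · exact Or.inr ⟨Or.inl rfl, hl⟩
    · rcases Sym2.eq_iff.1 h with ⟨rfl, rfl⟩ | ⟨rfl, rfl⟩
      · exact Or.inl ⟨Or.inr rfl, hl⟩
      · exact Or.inr ⟨Or.inr rfl, hl⟩
  · rintro (⟨rfl | rfl, h⟩ | ⟨rfl | rfl, h⟩)
    · exact ⟨v, h, Or.inl rfl⟩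
    · exact ⟨v, h, Or.inr rfl⟩
    · exact ⟨u, h, Or.inl Sym2.eq_swap⟩
    · exact ⟨u, h, Or.inr Sym2.eq_swap⟩

lemma k2_swap (a b : ℕ) (L : Finset ℕ) : (Clu.k2 b a L).edges = (Clu.k2 a b L).edges := by
  simp only [Clu.edges, Finset.union_comm]

/-- the three shapes of a square in a cluster -/
lemma shapeK {x y q p : ℕ} (hd : Dist4 x y q p) {c : Clu ℕ} (hv : c.Valid) (hs : TFC.sq x y q p ⊆ c.edges) :
    (∃ V, c = Clu.k4 V ∧ x ∈ V ∧ y ∈ V ∧ q ∈ V ∧ p ∈ V) ∨
    (∃ L, c.edges = (Clu.k2 x q L).edges ∧ (Clu.k2 x q L).Valid ∧ y ∈ L ∧ p ∈ L) ∨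
    (∃ L, c.edges = (Clu.k2 y p L).edges ∧ (Clu.k2 y p L).Valid ∧ x ∈ L ∧ q ∈ L) := by
  obtain ⟨h1, h2, h3, h4, h5, h6⟩ := hd
  cases c with
  | k4 V =>
    left
    have m1 : s(x, y) ∈ (Clu.k4 V).edges := hs (by simp [TFC.sq])
    have m2 : s(q, p) ∈ (Clu.k4 V).edges := hs (by simp [TFC.sq])
    simp only [Clu.edges, Finset.mem_filter, Finset.mk_mem_sym2_iff] at m1 m2
    exact ⟨V, rfl, m1.1.1, m1.1.2, m2.1.1, m2.1.2⟩
  | k2 a b L =>
    right
    obtain ⟨hab, haL, hbL, hc⟩ := hv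
    have m1 := k2_mem2.1 (hs (show s(x, y) ∈ TFC.sq x y q p by simp [TFC.sq]))
    have m2 := k2_mem2.1 (hs (show s(y, q) ∈ TFC.sq x y q p by simp [TFC.sq]))
    have m3 := k2_mem2.1 (hs (show s(q, p) ∈ TFC.sq x y q p by simp [TFC.sq]))
    have hub : ∀ v, v = a ∨ v = b → v ∉ L := by
      rintro v (rfl | rfl)
      · exact haL
      · exact hbL
    -- `x` is a hub or a leaf
    rcases m1 with ⟨hx, hy⟩ | ⟨hy, hx⟩
    · left
      have hq : q = a ∨ q = b := by
        rcases m2 with ⟨h, _⟩ | ⟨h, _⟩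
        · exact absurd hy (hub y h)
        · exact h
      have hp : p ∈ L := by
        rcases m3 with ⟨_, h⟩ | ⟨_, h⟩
        · exact h
        · exact absurd h (hub q hq)
      rcases hx with rfl | rfl
      · rcases hq with rfl | rfl
        · exact absurd rfl h2
        · exact ⟨L, rfl, ⟨hab, haL, hbL, hc⟩, hy, hp⟩
      · rcases hq with rfl | rfl
        · exact ⟨L, k2_swap _ _ _, ⟨hab.symm, hbL, haL, hc⟩, hy, hp⟩
        · exact absurd rfl h2
    · right
      have hq : q ∈ L := by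
        rcases m2 with ⟨_, h⟩ | ⟨_, h⟩
        · exact h
        · exact absurd h (hub y hy)
      have hp : p = a ∨ p = b := by
        rcases m3 with ⟨h, _⟩ | ⟨h, _⟩
        · exact absurd hq (hub q h)
        · exact h
      rcases hy with rfl | rfl
      · rcases hp with rfl | rfl
        · exact absurd rfl h5
        · exact ⟨L, rfl, ⟨hab, haL, hbL, hc⟩, hx, hq⟩
      · rcases hp with rfl | rfl
        · exact ⟨L, k2_swap _ _ _, ⟨hab.symm, hbL, haL, hc⟩, hx, hq⟩
        · exact absurd rfl h5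

/-- a square in a cluster with two hubs -/
lemma sq_in_k2 {a b : ℕ} {L : Finset ℕ} {Z : Finset (Sym2 ℕ)} (hv : (Clu.k2 a b L).Valid) (hZ : IsSq Z)
    (hs : Z ⊆ (Clu.k2 a b L).edges) : ∃ u w, u ∈ L ∧ w ∈ L ∧ u ≠ w ∧ Z = TFC.sq a u b w := by
  obtain ⟨x, y, q, p, hd, rfl⟩ := hZ
  obtain ⟨hab, haL, hbL, hc⟩ := hv
  obtain ⟨h1, h2, h3, h4, h5, h6⟩ := id hd
  have m1 := k2_mem2.1 (hs (show s(x, y) ∈ TFC.sq x y q p by simp [TFC.sq]))
  have m2 := k2_mem2.1 (hs (show s(y, q) ∈ TFC.sq x y q p by simp [TFC.sq]))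
  have m3 := k2_mem2.1 (hs (show s(q, p) ∈ TFC.sq x y q p by simp [TFC.sq]))
  have hub : ∀ v, v = a ∨ v = b → v ∉ L := by
    rintro v (rfl | rfl)
    · exact haL
    · exact hbL
  rcases m1 with ⟨hx, hy⟩ | ⟨hy, hx⟩
  · have hq : q = a ∨ q = b := by
      rcases m2 with ⟨h, _⟩ | ⟨h, _⟩
      · exact absurd hy (hub y h)
      · exact h
    have hp : p ∈ L := by
      rcases m3 with ⟨_, h⟩ | ⟨_, h⟩
      · exact h
      · exact absurd h (hub q hq)
    rcases hx with rfl | rfl
    · rcases hq with rfl | rfl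
      · exact absurd rfl h2
      · exact ⟨y, p, hy, hp, h5, rfl⟩
    · rcases hq with rfl | rfl
      · refine ⟨y, p, hy, hp, h5, (Clus_sq_cen hd).2⟩
      · exact absurd rfl h2
  · have hq : q ∈ L := by
      rcases m2 with ⟨_, h⟩ | ⟨_, h⟩
      · exact h
      · exact absurd h (hub y hy)
    have hp : p = a ∨ p = b := by
      rcases m3 with ⟨h, _⟩ | ⟨h, _⟩
      · exact absurd hq (hub q h)
      · exact h
    have hd' : Dist4 y q p x := ⟨h4, h5, h1.symm, h6, h2.symm, h3.symm⟩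
    have e1 : TFC.sq x y q p = TFC.sq y q p x :=
      (Clus_rot (show Clus_F (TFC.sq x y q p) {x, y, q, p} x y q p from ⟨hd, rfl, rfl⟩)).2.1
    rw [e1]
    rcases hy with rfl | rfl
    · rcases hp with rfl | rfl
      · exact absurd rfl h5
      · exact ⟨q, x, hq, hx, h2.symm, rfl⟩
    · rcases hp with rfl | rfl
      · exact ⟨q, x, hq, hx, h2.symm, (Clus_sq_cen hd').2⟩
      · exact absurd rfl h5

section

variable {X : XD} {P : ℕ → Finset (Sym2 ℕ) → Prop} {D : Finset (Finset (Sym2 ℕ))} {j m : ℕ} {S : Finset ℕ}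
  {M : ℕ → Finset (Sym2 ℕ)} {Q : Finset (Sym2 ℕ)} {a b : ℕ} {L : Finset ℕ}

/-- the pairs of leaves -/
def Dq (D : Finset (Finset (Sym2 ℕ))) (a b : ℕ) (L : Finset ℕ) (u w : ℕ) : Prop :=
  u ∈ L ∧ w ∈ L ∧ u ≠ w ∧ TFC.sq a u b w ∈ D

lemma sq_sub_k2 {u w : ℕ} (hu : u ∈ L) (hw : w ∈ L) : TFC.sq a u b w ⊆ (Clu.k2 a b L).edges := by
  intro e he
  rw [k2_mem]
  simp only [TFC.sq, Finset.mem_insert, Finset.mem_singleton] at he
  rcases he with rfl | rfl | rfl | rfl
  · exact ⟨u, hu, Or.inl rfl⟩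
  · exact ⟨u, hu, Or.inr Sym2.eq_swap⟩
  · exact ⟨w, hw, Or.inr rfl⟩
  · exact ⟨w, hw, Or.inl Sym2.eq_swap⟩

lemma Dp_iff {u w : ℕ} : Dp (D.filter fun Z => Z ⊆ (Clu.k2 a b L).edges) a b L u w ↔ Dq D a b L u w := by
  unfold Dp Dq
  simp only [Finset.mem_filter]
  constructor
  · rintro ⟨h1, h2, h3, h4, _⟩
    exact ⟨h1, h2, h3, h4⟩
  · rintro ⟨h1, h2, h3, h4⟩
    exact ⟨h1, h2, h3, h4, sq_sub_k2 h1 h2⟩

lemma OW.vlt (h : OW X P D j m S M) {e : Sym2 ℕ} (he : e ∈ X.En) {v : ℕ} (hv : v ∈ e) : v < X.n :=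
  h.ok.lt e (h.ok.e2 (h.ok.e1 he)) v hv

lemma CD.k2At (h : OW X P D j m S M) (hc : CD X D Q (Clu.k2 a b L)) :
    K2At X.n (Clu.k2 a b L).edges (D.filter fun Z => Z ⊆ (Clu.k2 a b L).edges) a b L := by
  obtain ⟨hab, haL, hbL, hcard⟩ := hc.val
  have hL : ∃ l, l ∈ L := by
    rcases Finset.eq_empty_or_nonempty L with h | h
    · rw [h] at hcard
      simp at hcard
    · exact h
  obtain ⟨l0, hl0⟩ := hL
  refine ⟨rfl, hab, haL, hbL, ?_, ?_, ?_, ?_⟩
  · exact h.vlt (hc.near (k2_mem.2 ⟨l0, hl0, Or.inl rfl⟩)) (Sym2.mem_mk_left _ _)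
  · exact h.vlt (hc.near (k2_mem.2 ⟨l0, hl0, Or.inr rfl⟩)) (Sym2.mem_mk_left _ _)
  · intro v hv
    exact h.vlt (hc.near (k2_mem.2 ⟨v, hv, Or.inl rfl⟩)) (Sym2.mem_mk_right _ _)
  · intro Z hZ
    obtain ⟨h1, h2⟩ := Finset.mem_filter.1 hZ
    exact sq_in_k2 hc.val (h.blk.hs Z h1).1.isSq h2

/-- every leaf has a partner -/
lemma CD.cov' (h : OW X P D j m S M) (hc : CD X D Q (Clu.k2 a b L)) : ∀ l ∈ L, ∃ v, Dq D a b L l v := by
  intro l hl
  obtain ⟨hab, haL, hbL, hcard⟩ := hc.val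
  obtain ⟨Z, hZ, he, hs⟩ := hc.cov s(a, l) (k2_mem.2 ⟨l, hl, Or.inl rfl⟩)
  obtain ⟨u, w, hu, hw, huw, rfl⟩ := sq_in_k2 hc.val (h.blk.hs Z hZ).1.isSq hs
  simp only [TFC.sq, Finset.mem_insert, Finset.mem_singleton, Sym2.eq_iff] at he
  have au : a ≠ u := by rintro rfl; exact haL hu
  have aw : a ≠ w := by rintro rfl; exact haL hw
  have al : a ≠ l := by rintro rfl; exact haL hl
  have hd : Dist4 a u b w := ⟨au, hab, aw, by rintro rfl; exact hbL hu, huw, by rintro rfl; exact hbL hw⟩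
  have key : l = u ∨ l = w := by
    rcases he with (⟨_, h1⟩ | ⟨h1, _⟩) | (⟨h1, _⟩ | ⟨h1, _⟩) | (⟨h1, _⟩ | ⟨h1, _⟩) | (⟨h1, _⟩ | ⟨_, h1⟩)
    · exact Or.inl h1
    · exact absurd h1 au
    · exact absurd h1 au
    · exact absurd h1 hab
    · exact absurd h1 hab
    · exact absurd h1 aw
    · exact absurd h1 aw
    · exact Or.inr h1
  rcases key with rfl | rfl
  · exact ⟨w, hu, hw, huw, hZ⟩
  · refine ⟨u, hw, hu, huw.symm, ?_⟩
    rw [← (Clus_sq_leaf hd).2]
    exact hZ

/-- the lists of neighbours of the hubs in `M` -/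
noncomputable def nA (L : Finset ℕ) (a : ℕ) (M : Finset (Sym2 ℕ)) : List ℕ := (L.filter fun l => s(a, l) ∈ M).toList

lemma mem_nA {L : Finset ℕ} {a l : ℕ} {M : Finset (Sym2 ℕ)} : l ∈ nA L a M ↔ l ∈ L ∧ s(a, l) ∈ M := by
  simp [nA]

lemma len_nA {L : Finset ℕ} {a : ℕ} {M : Finset (Sym2 ℕ)} : (nA L a M).length ≤ dg M a := by
  rw [nA, Finset.length_toList, dg]
  refine Finset.card_le_card_of_injOn (fun l => s(a, l)) ?_ ?_
  · intro l hl
    obtain ⟨h1, h2⟩ := Finset.mem_filter.1 (Finset.mem_coe.1 hl)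
    exact Finset.mem_coe.2 (Finset.mem_filter.2 ⟨h2, Sym2.mem_mk_left _ _⟩)
  · intro l _ l' _ h
    exact sym2_inj_left h

lemma ks_nA (L : Finset ℕ) (a b : ℕ) (M : Finset (Sym2 ℕ)) :
    ks a b (nA L a M) (nA L b M) = M ∩ (Clu.k2 a b L).edges := by
  ext e
  rw [mem_ks, Finset.mem_inter, k2_mem]
  constructor
  · rintro (⟨x, hx, rfl⟩ | ⟨x, hx, rfl⟩)
    · exact ⟨(mem_nA.1 hx).2, x, (mem_nA.1 hx).1, Or.inl rfl⟩
    · exact ⟨(mem_nA.1 hx).2, x, (mem_nA.1 hx).1, Or.inr rfl⟩
  · rintro ⟨h1, l, hl, rfl | rfl⟩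
    · exact Or.inl ⟨l, mem_nA.2 ⟨hl, h1⟩, rfl⟩
    · exact Or.inr ⟨l, mem_nA.2 ⟨hl, h1⟩, rfl⟩

lemma gd_nA (h : OW X P D j m S M) {N : Finset (Sym2 ℕ)} (hN : M2 N) (hs : ∀ Z, Hs X.T Z → ¬ Z ⊆ N) :
    Gd L (Dq D a b L) (nA L a N) (nA L b N) := by
  refine ⟨Finset.nodup_toList _, Finset.nodup_toList _, fun x hx => (mem_nA.1 hx).1, fun x hx => (mem_nA.1 hx).1,
    len_nA.trans (hN.le a), len_nA.trans (hN.le b), ?_⟩
  rintro u w ⟨_, _, _, h4⟩ h5 h6 h7 h8
  apply hs _ (h.blk.hs _ h4).1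
  intro e he
  simp only [TFC.sq, Finset.mem_insert, Finset.mem_singleton] at he
  rcases he with rfl | rfl | rfl | rfl
  · exact (mem_nA.1 h5).2
  · exact msw (mem_nA.1 h7).2
  · exact (mem_nA.1 h8).2
  · exact msw (mem_nA.1 h6).2

lemma wit_inter {F : Finset (Sym2 ℕ)} {u w : ℕ} (hF : M2 F) (hZ : IsSq (TFC.sq a u b w)) (hu : u ∈ L) (hw : w ∈ L)
    (hs : TFC.sq a u b w ⊆ F) : F ∩ (Clu.k2 a b L).edges = TFC.sq a u b w := by
  apply Finset.Subset.antisymm
  · intro f hf
    obtain ⟨h1, h2⟩ := Finset.mem_inter.1 hf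
    rw [k2_mem] at h2
    obtain ⟨l, hl, rfl | rfl⟩ := h2
    · exact sq_closed hF hZ hs (show s(a, u) ∈ TFC.sq a u b w by simp [TFC.sq]) (Sym2.mem_mk_left _ _) h1
        (Sym2.mem_mk_left _ _)
    · exact sq_closed hF hZ hs (show s(u, b) ∈ TFC.sq a u b w by simp [TFC.sq]) (Sym2.mem_mk_right _ _) h1
        (Sym2.mem_mk_left _ _)
  · exact Finset.subset_inter hs (sq_sub_k2 hu hw)

/-- free vertices of the world -/
def Fre (X : XD) : ℕ → Prop := fun v => v ∉ X.T ∧ v < X.n

/-- **the world at a cluster with two hubs** -/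
theorem OW.kw (h : OW X P D j m S M) (hc : CD X D Q (Clu.k2 a b L)) :
    ∃ J : (ℕ → ℤ) → Prop, KW X.n a b L (Fre X) (fun _ _ => False) (Dq D a b L) J ∧ FDs a b (Dq D a b L) J ∧
      (∀ w ∈ S, w ∈ X.T → J (nv X.n a b w (nA L a (M w)) (nA L b (M w)))) := by
  obtain ⟨J, W, hF, hN⟩ := h.world (C := (Clu.k2 a b L).edges) (ER := ∅) (PL := ∅) hc.sep hc.near (by simp) (by simp)
  rw [Finset.union_empty] at hF hN
  have K := hc.k2At h
  have e : Dp (D.filter fun Z => Z ⊆ (Clu.k2 a b L).edges) a b L = Dq D a b L := by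
    funext u w
    exact propext Dp_iff
  have W1 := KW.of_WJ W K
  rw [e] at W1
  refine ⟨J, ?_, ?_, ?_⟩
  · refine { W1 with XR := ?_ }
    intro y r A B τ hh
    exact hh.elim
  · have hfd := K.fds (J := J) (by
      intro Z hZ
      obtain ⟨h1, h2⟩ := Finset.mem_filter.1 hZ
      obtain ⟨F, g1, g2, g3, g4⟩ := h.blk.wit Z h1
      obtain ⟨u, w, hu, hw, huw, rfl⟩ := K.sqs Z hZ
      have h3 := hF F g1 g2 (by
        intro Z' hZ' hs'
        rw [g4 Z' hZ' hs']
        intro hd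
        have : s(a, u) ∈ TFC.sq a u b w := by simp [TFC.sq]
        exact Finset.disjoint_left.1 hd this (h2 this))
      rw [wit_inter (h.xp.m2 _ _ g1).1 (h.blk.hs _ h1).1.isSq hu hw g3] at h3
      exact h3)
    rw [e] at hfd
    exact hfd
  · intro w hw hT
    obtain ⟨h1, h2, h3⟩ := h.nc w hw hT
    have h4 := hN w hw hT
    have g := gd_nA (L := L) (a := a) (b := b) h h1.m2 h3
    rw [← ks_nA, K.dv_ks g] at h4
    exact h4

/-- **the world at a cluster with two hubs, with an extra edge `y r`** -/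
theorem OW.kwr (h : OW X P D j m S M) (hc : CD X D Q (Clu.k2 a b L)) {y r : ℕ} (hy : y ∉ X.T) (hr : r ∈ X.T) (hrS : r ∈ S)
    (he : s(y, r) ∈ X.En) (hni : s(y, r) ∉ (Clu.k2 a b L).edges) :
    ∃ J : (ℕ → ℤ) → Prop, KW X.n a b L (Fre X) (fun y' r' => y' = y ∧ r' = r) (Dq D a b L) J ∧
      (∀ u w, Dq D a b L u w → (y = a ∨ y = b ∨ y = u ∨ y = w) →
        J ((2 : ℤ) • ev a + (2 : ℤ) • ev b + (2 : ℤ) • ev u + (2 : ℤ) • ev w)) ∧
      (∀ k, J k → ∀ v, v ≠ X.n → 0 ≤ k v ∧ k v ≤ 2) ∧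
      (∃ c τ : ℤ, 1 ≤ c ∧ c ≤ 2 ∧ J (rv X.n a b r c τ (nA L a (M r)) (nA L b (M r)))) := by
  obtain ⟨J, W, hF, hN⟩ := h.world (C := (Clu.k2 a b L).edges) (ER := {s(y, r)}) (PL := ∅) hc.sep hc.near
    (by simpa using he) (by simp)
  have yr : y ≠ r := by rintro rfl; exact hy hr
  have yn : y < X.n := h.vlt he (Sym2.mem_mk_left _ _)
  have rn : r < X.n := h.vlt he (Sym2.mem_mk_right _ _)
  have K := hc.k2At h
  have e : Dp (D.filter fun Z => Z ⊆ (Clu.k2 a b L).edges) a b L = Dq D a b L := by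
    funext u w
    exact propext Dp_iff
  have W1 := KW.of_WJ W K
  rw [e] at W1
  refine ⟨J, ?_, ?_, ?_, ?_⟩
  · refine { W1 with XR := ?_ }
    rintro y' r' A B τ ⟨rfl, rfl⟩
    exact W1.XR y' r' A B τ ⟨by simp, hni, yr, yn, rn⟩
  · rintro u w ⟨hu, hw, huw, hZ⟩ hyZ
    have sub := sq_sub_k2 (a := a) (b := b) hu hw
    have hsq := (h.blk.hs _ hZ).1.isSq
    obtain ⟨F, g1, g2, g3, g4⟩ := h.blk.wit _ hZ
    have h3 := hF F g1 g2 (by
        intro Z' hZ' hs'
        rw [g4 Z' hZ' hs']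
        intro hd
        have : s(a, u) ∈ TFC.sq a u b w := by simp [TFC.sq]
        exact Finset.disjoint_left.1 hd this (Finset.mem_union_left _ (sub this)))
    have h4 : F ∩ ((Clu.k2 a b L).edges ∪ {s(y, r)}) = TFC.sq a u b w := by
      rw [Finset.inter_union_distrib_left, wit_inter (h.xp.m2 _ _ g1).1 hsq hu hw g3, Finset.union_eq_left]
      intro f hf
      obtain ⟨f1, f2⟩ := Finset.mem_inter.1 hf
      rw [Finset.mem_singleton] at f2
      subst f2
      exfalso
      apply hni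
      apply sub
      rcases hyZ with rfl | rfl | rfl | rfl
      · exact sq_closed (h.xp.m2 _ _ g1).1 hsq g3 (show s(y, u) ∈ TFC.sq y u b w by simp [TFC.sq])
          (Sym2.mem_mk_left _ _) f1 (Sym2.mem_mk_left _ _)
      · exact sq_closed (h.xp.m2 _ _ g1).1 hsq g3 (show s(u, y) ∈ TFC.sq a u y w by simp [TFC.sq])
          (Sym2.mem_mk_right _ _) f1 (Sym2.mem_mk_left _ _)
      · exact sq_closed (h.xp.m2 _ _ g1).1 hsq g3 (show s(a, y) ∈ TFC.sq a y b w by simp [TFC.sq])
          (Sym2.mem_mk_right _ _) f1 (Sym2.mem_mk_left _ _)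
      · exact sq_closed (h.xp.m2 _ _ g1).1 hsq g3 (show s(b, y) ∈ TFC.sq a u b y by simp [TFC.sq])
          (Sym2.mem_mk_right _ _) f1 (Sym2.mem_mk_left _ _)
    rw [h4] at h3
    have := K.ab
    have au : a ≠ u := by rintro rfl; exact K.aL hu
    have aw : a ≠ w := by rintro rfl; exact K.aL hw
    have bu : b ≠ u := by rintro rfl; exact K.bL hu
    have bw : b ≠ w := by rintro rfl; exact K.bL hw
    have h5 : Dist4 a u b w := ⟨au, K.ab, aw, bu.symm, huw, bw⟩
    have h6 : dv (TFC.sq a u b w) = (2 : ℤ) • ev a + (2 : ℤ) • ev b + (2 : ℤ) • ev u + (2 : ℤ) • ev w := by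
      funext v
      rw [CE.dv_sq h5]
      simp only [Pi.add_apply, Pi.smul_apply, smul_eq_mul]
      ring
    rw [← h6]
    exact h3
  · intro k hk v hv
    rcases Nat.lt_or_gt_of_ne hv with h1 | h1
    · exact W.rg k hk v h1
    · rw [W.up k hk v h1]
      norm_num
  · obtain ⟨h1, h2, h3⟩ := h.nc r hrS hr
    have h4 := hN r hrS hr
    have g := gd_nA (L := L) (a := a) (b := b) h h1.m2 h3
    by_cases hm : s(y, r) ∈ M r
    · -- the edge is in the near cover
      have e1 : M r ∩ ((Clu.k2 a b L).edges ∪ {s(y, r)}) = insert s(y, r) (ks a b (nA L a (M r)) (nA L b (M r))) := by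
        rw [ks_nA, Finset.inter_union_distrib_left, Finset.inter_singleton_of_mem hm, Finset.union_comm]
        rfl
      have hni2 : s(y, r) ∉ ks a b (nA L a (M r)) (nA L b (M r)) := by
        rw [ks_nA]
        intro hh
        exact hni (Finset.mem_inter.1 hh).2
      rw [e1, dv_insert yr hni2, K.dv_ks g] at h4
      refine ⟨2, 0, by norm_num, le_rfl, ?_⟩
      have vn : X.n ≠ y := by omega
      have vr : X.n ≠ r := by omega
      have kn : kv a b (nA L a (M r)) (nA L b (M r)) X.n = 0 := by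
        refine kv_off' g ?_ ?_ ?_
        · have := K.an; omega
        · have := K.bn; omega
        · intro hh
          have := K.Ln _ hh
          omega
      refine W.dn _ _ h4 ?_ ?_ ?_ ?_ ?_
      · intro v hv hT
        have v1 : v ≠ y := by rintro rfl; exact hy hT
        have v2 : v ≠ X.n := by omega
        simp only [rv, Pi.add_apply, Pi.smul_apply, smul_eq_mul, ev_apply, if_neg v1, if_neg v2]
        split_ifs <;> ring
      · intro v hv hT
        have v1 : v ≠ r := by rintro rfl; exact hT hr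
        have v2 : v ≠ X.n := by omega
        have := kv_nn' g v (a := a) (b := b)
        simp only [rv, Pi.add_apply, Pi.smul_apply, smul_eq_mul, ev_apply, if_neg v1, if_neg v2]
        split_ifs <;> constructor <;> omega
      · left
        simp [rv, ev_apply, vr, kn]
      · have h7 := W.par _ h4
        have sub : ks a b (nA L a (M r)) (nA L b (M r)) ⊆ (Clu.k2 a b L).edges := by
          rw [ks_nA]; exact Finset.inter_subset_right
        have h8 : ∑ v ∈ Finset.range (X.n + 1), rv X.n a b r 2 0 (nA L a (M r)) (nA L b (M r)) v =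
            2 * (#(ks a b (nA L a (M r)) (nA L b (M r))) : ℤ) + 2 := by
          simp only [rv, Pi.add_apply, Pi.smul_apply, smul_eq_mul, Finset.sum_add_distrib]
          rw [← K.dv_ks g, sum_dv (K.nl.mono sub) (fun f hf v hv => K.lt f (sub hf) v hv)]
          simp only [ev_apply, mul_ite, mul_one, mul_zero, zero_mul]
          rw [Finset.sum_ite_eq', if_pos (Finset.mem_range.2 (by omega))]
          simp
        rw [h8]
        exact ⟨#(ks a b (nA L a (M r)) (nA L b (M r))) + 1, by ring⟩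
      · intro v hv
        have v1 : v ≠ r := by omega
        have v2 : v ≠ X.n := by omega
        have : kv a b (nA L a (M r)) (nA L b (M r)) v = 0 := by
          refine kv_off' g ?_ ?_ ?_
          · have := K.an; omega
          · have := K.bn; omega
          · intro hh
            have := K.Ln _ hh
            omega
        simp [rv, ev_apply, v1, v2, this]
    · have e1 : M r ∩ ((Clu.k2 a b L).edges ∪ {s(y, r)}) = ks a b (nA L a (M r)) (nA L b (M r)) := by
        rw [ks_nA, Finset.inter_union_distrib_left, Finset.inter_singleton_of_notMem hm, Finset.union_empty]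
      rw [e1, K.dv_ks g] at h4
      refine ⟨1, 1, le_rfl, by norm_num, ?_⟩
      convert h4 using 1
      simp [rv]

end

end Pool.Agent.PF4.XF

end
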