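import Pool.Agent.PFM.M11
import Pool.Agent.PFM.M14
import Pool.Agent.PFM.M18

section -- file PF4/KWP

/-!
The patterns with a free vertex in two conflicting squares (except those with all corners of one of the squares in `T`).
-/

set_option autoImplicit false
set_option linter.unusedSectionVars false
set_option linter.unusedVariables false
set_option linter.unusedSimpArgs false

namespace Pool.Agent.PF4.XF

open Finset Pool.Agent.TFC

lemma sqk_rot {x y q p : ℕ} : TFC.sq x y q p = TFC.sq y q p x := by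
  ext e
  simp only [TFC.sq, Finset.mem_insert, Finset.mem_singleton]
  constructor
  · rintro (h | h | h | h)
    · exact Or.inr (Or.inr (Or.inr h))
    · exact Or.inl h
    · exact Or.inr (Or.inl h)
    · exact Or.inr (Or.inr (Or.inl h))
  · rintro (h | h | h | h)
    · exact Or.inr (Or.inl h)
    · exact Or.inr (Or.inr (Or.inl h))
    · exact Or.inr (Or.inr (Or.inr h))
    · exact Or.inl h

lemma sqk_rev {x y q p : ℕ} : TFC.sq x y q p = TFC.sq y x p q := by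
  ext e
  have e1 : s(y, x) = s(x, y) := Sym2.eq_swap
  have e2 : s(x, p) = s(p, x) := Sym2.eq_swap
  have e3 : s(p, q) = s(q, p) := Sym2.eq_swap
  have e4 : s(q, y) = s(y, q) := Sym2.eq_swap
  simp only [TFC.sq, Finset.mem_insert, Finset.mem_singleton, e1, e2, e3, e4]
  constructor
  · rintro (h | h | h | h)
    · exact Or.inl h
    · exact Or.inr (Or.inr (Or.inr h))
    · exact Or.inr (Or.inr (Or.inl h))
    · exact Or.inr (Or.inl h)
  · rintro (h | h | h | h)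
    · exact Or.inl h
    · exact Or.inr (Or.inr (Or.inr h))
    · exact Or.inr (Or.inr (Or.inl h))
    · exact Or.inr (Or.inl h)

lemma d4k_rot {x y q p : ℕ} (h : Dist4 x y q p) : Dist4 y q p x :=
  ⟨h.2.2.2.1, h.2.2.2.2.1, h.1.symm, h.2.2.2.2.2, h.2.1.symm, h.2.2.1.symm⟩

lemma d4k_rev {x y q p : ℕ} (h : Dist4 x y q p) : Dist4 y x p q :=
  ⟨h.1.symm, h.2.2.2.2.1, h.2.2.2.1, h.2.2.1, h.2.1, h.2.2.2.2.2.symm⟩

section

variable {X : XD} {P : ℕ → Finset (Sym2 ℕ) → Prop} {D : Finset (Finset (Sym2 ℕ))} {j m : ℕ} {S : Finset ℕ}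
  {M : ℕ → Finset (Sym2 ℕ)}

lemma OW.cd (h : OW X P D j m S M) {x y q p : ℕ} (hQ : TFC.sq x y q p ∈ D) (hx : x ∈ S) :
    ∃ c, CD X D (TFC.sq x y q p) c := by
  obtain ⟨c, h1, h2, h3, h4, h5⟩ := h.clq hQ (e := s(x, y)) (by simp [TFC.sq]) (Sym2.mem_mk_left _ _) hx
  exact ⟨c, h1, hQ, h2, h3, h4, h5⟩

lemma CD.congr {Q Q' : Finset (Sym2 ℕ)} {c c' : Clu ℕ} (h : CD X D Q c) (hv : c'.Valid) (he : c.edges = c'.edges)
    (hQ : Q = Q') : CD X D Q' c' := by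
  refine ⟨hv, hQ ▸ h.mem, ?_, ?_, ?_, ?_⟩
  · rw [← he, ← hQ]; exact h.sub
  · rw [← he]; exact h.near
  · rw [← he]; exact h.sep
  · rw [← he]; exact h.cov

/-- **replacement of a square**: there is no 2-matching `K` with three edges which can replace the square -/
theorem OW.repl (h : OW X P D j m S M) {x y q p : ℕ} (hd : Dist4 x y q p) (hQ : TFC.sq x y q p ∈ D) (hx : x ∈ S)
    {K ER : Finset (Sym2 ℕ)} (hER : ER ⊆ X.En) (hE2 : ∀ e ∈ ER, e ∉ TFC.sq x y q p ∧ (x ∈ e ∨ y ∈ e ∨ q ∈ e ∨ p ∈ e))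
    (hK : K ⊆ TFC.sq x y q p ∪ ER) (hK3 : #K < 4) (hKm : M2 K)
    (hT : ∀ v ∈ X.T, dv K v = dv (TFC.sq x y q p) v) (hle : ∀ v, dv K v ≤ dv (TFC.sq x y q p) v)
    (hat : ∀ e ∈ K, e ∉ TFC.sq x y q p → ∃ y' ∈ e, 1 ≤ dg (K ∩ TFC.sq x y q p) y') : False := by
  obtain ⟨c, hc⟩ := h.cd hQ hx
  obtain ⟨J, W, hF, hN⟩ := h.world (C := c.edges) (ER := ER) (PL := ∅) hc.sep hc.near hER (by simp)
  obtain ⟨F, g1, g2, g3, g4⟩ := h.blk.wit _ hQ
  have hFm := (h.xp.m2 _ _ g1).1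
  have hsq := h.isq hQ
  have h3 := hF F g1 g2 (by
    intro Z' hZ' hs'
    rw [g4 Z' hZ' hs']
    intro hdj
    have : s(x, y) ∈ TFC.sq x y q p := by simp [TFC.sq]
    exact Finset.disjoint_left.1 hdj this (Finset.mem_union_left _ (hc.sub this)))
  -- edges of `F` at a corner of the square
  have hcor : ∀ e ∈ F, (x ∈ e ∨ y ∈ e ∨ q ∈ e ∨ p ∈ e) → e ∈ TFC.sq x y q p := by
    intro e he hor
    rcases hor with h1 | h1 | h1 | h1
    · exact sq_closed hFm hsq g3 (show s(x, y) ∈ TFC.sq x y q p by simp [TFC.sq]) (Sym2.mem_mk_left _ _) he h1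
    · exact sq_closed hFm hsq g3 (show s(x, y) ∈ TFC.sq x y q p by simp [TFC.sq]) (Sym2.mem_mk_right _ _) he h1
    · exact sq_closed hFm hsq g3 (show s(q, p) ∈ TFC.sq x y q p by simp [TFC.sq]) (Sym2.mem_mk_left _ _) he h1
    · exact sq_closed hFm hsq g3 (show s(q, p) ∈ TFC.sq x y q p by simp [TFC.sq]) (Sym2.mem_mk_right _ _) he h1
  have e1 : F ∩ (c.edges ∪ ER) = TFC.sq x y q p := by
    apply Finset.Subset.antisymm
    · intro e he
      obtain ⟨he1, he2⟩ := Finset.mem_inter.1 he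
      apply hcor e he1
      rcases Finset.mem_union.1 he2 with h5 | h5
      · induction e using Sym2.ind with
        | _ u v =>
        rcases shape hc.val hd hc.sub with rfl | ⟨L, rfl | rfl, _⟩ | ⟨L, rfl | rfl, _⟩
        · rw [mem_k4] at h5
          have := h5.1
          simp only [Finset.mem_insert, Finset.mem_singleton] at this
          rcases this with rfl | rfl | rfl | rfl <;> simp
        · rcases mem_k2.1 h5 with ⟨rfl | rfl, _⟩ | ⟨rfl | rfl, _⟩ <;> simp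
        · rcases mem_k2.1 h5 with ⟨rfl | rfl, _⟩ | ⟨rfl | rfl, _⟩ <;> simp
        · rcases mem_k2.1 h5 with ⟨rfl | rfl, _⟩ | ⟨rfl | rfl, _⟩ <;> simp
        · rcases mem_k2.1 h5 with ⟨rfl | rfl, _⟩ | ⟨rfl | rfl, _⟩ <;> simp
      · exact (hE2 e h5).2
    · intro e he
      exact Finset.mem_inter.2 ⟨g3 he, Finset.mem_union_left _ (hc.sub he)⟩
  rw [e1] at h3
  have hKE : ∀ e ∈ K, ∀ v ∈ e, v < X.n := by
    intro e he v hv
    rcases Finset.mem_union.1 (hK he) with h5 | h5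
    · exact h.vlt (hc.near (hc.sub h5)) hv
    · exact h.vlt (hER h5) hv
  have hKn : ∀ v, X.n ≤ v → dv K v = 0 := by
    intro v hv
    rw [dv_apply, dg, Finset.card_eq_zero.2, Nat.cast_zero]
    rw [Finset.filter_eq_empty_iff]
    intro e he hve
    have := hKE e he v hve
    omega
  have h4 : J (dv K) := by
    refine W.dn _ _ h3 ?_ ?_ ?_ ?_ ?_
    · intro v _ hv
      exact hT v hv
    · intro v _ _
      refine ⟨?_, hle v⟩
      rw [dv_apply]; positivity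
    · exact Or.inl (hKn _ le_rfl)
    · rw [sum_dv hKm.nl hKE]
      exact ⟨_, two_mul _⟩
    · intro v hv
      exact hKn v (by omega)
  refine W.blk _ h4 K ?_ hKm ?_ ?_ rfl
  · intro e he
    rcases Finset.mem_union.1 (hK he) with h5 | h5
    · exact Finset.mem_union_left _ (hc.sub h5)
    · exact Finset.mem_union_right _ h5
  · intro Z hZ hs
    have h5 := h.isq (Finset.mem_filter.1 hZ).1
    obtain ⟨a, b, c', d, hd', rfl⟩ := h5
    have h6 := Finset.card_le_card hs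
    have h7 : #(TFC.sq a b c' d) = 4 := by
      obtain ⟨h1, h2, h3, h4, h5, h6⟩ := hd'
      rw [TFC.sq, Finset.card_insert_of_notMem, Finset.card_insert_of_notMem, Finset.card_insert_of_notMem,
        Finset.card_singleton]
      · simp only [Finset.mem_singleton, Sym2.eq_iff]; tauto
      · simp only [Finset.mem_insert, Finset.mem_singleton, Sym2.eq_iff]; tauto
      · simp only [Finset.mem_insert, Finset.mem_singleton, Sym2.eq_iff]; tauto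
    omega
  · intro e he hec
    right
    obtain ⟨y', h5, h6⟩ := hat e he (fun hh => hec (hc.sub hh))
    exact ⟨y', h5, h6.trans (dg_mono (Finset.inter_subset_inter_left hc.sub) y')⟩

/-! three edges -/

lemma dv_three {a1 b1 a2 b2 a3 b3 : ℕ} (h1 : a1 ≠ b1) (h2 : a2 ≠ b2) (h3 : a3 ≠ b3) (h12 : s(a1, b1) ≠ s(a2, b2))
    (h13 : s(a1, b1) ≠ s(a3, b3)) (h23 : s(a2, b2) ≠ s(a3, b3)) :
    dv ({s(a1, b1), s(a2, b2), s(a3, b3)} : Finset (Sym2 ℕ)) = ev a1 + ev b1 + ev a2 + ev b2 + ev a3 + ev b3 := by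
  have e0 : dv (∅ : Finset (Sym2 ℕ)) = 0 := by
    funext v
    simp [dv, dg]
  have e : ({s(a1, b1), s(a2, b2), s(a3, b3)} : Finset (Sym2 ℕ)) =
      insert s(a1, b1) (insert s(a2, b2) (insert s(a3, b3) ∅)) := rfl
  rw [e, dv_insert h1 (by simp [h12, h13]), dv_insert h2 (by simp [h23]), dv_insert h3 (by simp), e0]
  module

lemma nl_three {a1 b1 a2 b2 a3 b3 : ℕ} (h1 : a1 ≠ b1) (h2 : a2 ≠ b2) (h3 : a3 ≠ b3) :
    NoLoop ({s(a1, b1), s(a2, b2), s(a3, b3)} : Finset (Sym2 ℕ)) := by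
  intro e he
  simp only [Finset.mem_insert, Finset.mem_singleton] at he
  rcases he with rfl | rfl | rfl
  · rwa [Sym2.mk_isDiag_iff]
  · rwa [Sym2.mk_isDiag_iff]
  · rwa [Sym2.mk_isDiag_iff]

/-- no two adjacent free corners -/
theorem OW.T1 (h : OW X P D j m S M) {x y q p : ℕ} (hd : Dist4 x y q p) (hQ : TFC.sq x y q p ∈ D) (hx : x ∈ S)
    (hxT : x ∉ X.T) (hyT : y ∉ X.T) : False := by
  obtain ⟨h1, h2, h3, h4, h5, h6⟩ := id hd
  have e1 : s(y, q) ≠ s(q, p) := by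
    intro hh
    rcases Sym2.eq_iff.1 hh with ⟨g1, _⟩ | ⟨g1, _⟩
    · exact h4 g1
    · exact h5 g1
  have e2 : s(y, q) ≠ s(p, x) := by
    intro hh
    rcases Sym2.eq_iff.1 hh with ⟨g1, _⟩ | ⟨g1, _⟩
    · exact h5 g1
    · exact h1 g1.symm
  have e3 : s(q, p) ≠ s(p, x) := by
    intro hh
    rcases Sym2.eq_iff.1 hh with ⟨g1, _⟩ | ⟨g1, _⟩
    · exact h6 g1
    · exact h2 g1.symm
  have hdv := dv_three h4 h6 h3.symm e1 e2 e3
  have hle : ∀ v, dv ({s(y, q), s(q, p), s(p, x)} : Finset (Sym2 ℕ)) v ≤ dv (TFC.sq x y q p) v := by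
    intro v
    rw [hdv, CE.dv_sq hd]
    simp only [Pi.add_apply, ev_apply]
    split_ifs <;> omega
  refine h.repl hd hQ hx (K := {s(y, q), s(q, p), s(p, x)}) (ER := ∅) (by simp) (by simp) ?_ ?_ ?_ ?_ hle ?_
  · intro e he
    apply Finset.mem_union_left
    simp only [Finset.mem_insert, Finset.mem_singleton] at he
    simp only [TFC.sq, Finset.mem_insert, Finset.mem_singleton]
    tauto
  · exact lt_of_le_of_lt Finset.card_le_three (by norm_num)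
  · refine M2.of_dv (nl_three h4 h6 h3.symm) ?_
    intro v
    refine (hle v).trans ?_
    rw [CE.dv_sq hd]
    simp only [ev_apply]
    split_ifs <;> omega
  · intro v hv
    have v1 : v ≠ x := by rintro rfl; exact hxT hv
    have v2 : v ≠ y := by rintro rfl; exact hyT hv
    rw [hdv, CE.dv_sq hd]
    simp only [Pi.add_apply, ev_apply, if_neg v1, if_neg v2]
    ring
  · intro e he hne
    exfalso
    apply hne
    simp only [Finset.mem_insert, Finset.mem_singleton] at he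
    simp only [TFC.sq, Finset.mem_insert, Finset.mem_singleton]
    tauto

/-- the two neighbours of a free corner are not adjacent -/
theorem OW.T2 (h : OW X P D j m S M) {x y q p : ℕ} (hd : Dist4 x y q p) (hQ : TFC.sq x y q p ∈ D) (hx : x ∈ S)
    (hyT : y ∉ X.T) (he : s(x, q) ∈ X.E) : False := by
  obtain ⟨h1, h2, h3, h4, h5, h6⟩ := id hd
  have e1 : s(x, q) ≠ s(q, p) := by
    intro hh
    rcases Sym2.eq_iff.1 hh with ⟨g1, _⟩ | ⟨g1, _⟩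
    · exact h2 g1
    · exact h3 g1
  have e2 : s(x, q) ≠ s(p, x) := by
    intro hh
    rcases Sym2.eq_iff.1 hh with ⟨g1, _⟩ | ⟨_, g1⟩
    · exact h3 g1
    · exact h6 g1
  have e3 : s(q, p) ≠ s(p, x) := by
    intro hh
    rcases Sym2.eq_iff.1 hh with ⟨g1, _⟩ | ⟨g1, _⟩
    · exact h6 g1
    · exact h2 g1.symm
  have hdv := dv_three h2 h6 h3.symm e1 e2 e3
  have hle : ∀ v, dv ({s(x, q), s(q, p), s(p, x)} : Finset (Sym2 ℕ)) v ≤ dv (TFC.sq x y q p) v := by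
    intro v
    rw [hdv, CE.dv_sq hd]
    simp only [Pi.add_apply, ev_apply]
    split_ifs <;> omega
  refine h.repl hd hQ hx (K := {s(x, q), s(q, p), s(p, x)}) (ER := {s(x, q)}) ?_ ?_ ?_ ?_ ?_ ?_ hle ?_
  · intro e he'
    rw [Finset.mem_singleton] at he'
    subst he'
    exact h.edgeS he (Sym2.mem_mk_left _ _) hx
  · intro e he'
    rw [Finset.mem_singleton] at he'
    subst he'
    refine ⟨?_, Or.inl (Sym2.mem_mk_left _ _)⟩
    simp only [TFC.sq, Finset.mem_insert, Finset.mem_singleton, Sym2.eq_iff]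
    rintro ((⟨_, g⟩ | ⟨g, _⟩) | (⟨g, _⟩ | ⟨g, _⟩) | (⟨g, _⟩ | ⟨g, _⟩) | (⟨g, _⟩ | ⟨_, g⟩))
    · exact h4 g.symm
    · exact h1 g
    · exact h1 g
    · exact h2 g
    · exact h2 g
    · exact h3 g
    · exact h3 g
    · exact h6 g
  · intro e he'
    simp only [Finset.mem_insert, Finset.mem_singleton] at he'
    simp only [TFC.sq, Finset.mem_insert, Finset.mem_singleton, Finset.mem_union]
    tauto
  · exact lt_of_le_of_lt Finset.card_le_three (by norm_num)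
  · refine M2.of_dv (nl_three h2 h6 h3.symm) ?_
    intro v
    refine (hle v).trans ?_
    rw [CE.dv_sq hd]
    simp only [ev_apply]
    split_ifs <;> omega
  · intro v hv
    have v2 : v ≠ y := by rintro rfl; exact hyT hv
    rw [hdv, CE.dv_sq hd]
    simp only [Pi.add_apply, ev_apply, if_neg v2]
    ring
  · intro e he' hne
    simp only [Finset.mem_insert, Finset.mem_singleton] at he'
    rcases he' with rfl | rfl | rfl
    · refine ⟨x, Sym2.mem_mk_left _ _, ?_⟩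
      have : s(x, p) ∈ ({s(x, q), s(q, p), s(p, x)} : Finset (Sym2 ℕ)) ∩ TFC.sq x y q p := by
        rw [show s(x, p) = s(p, x) from Sym2.eq_swap]
        simp [TFC.sq]
      exact dg_pos this
    · exact absurd (by simp [TFC.sq]) hne
    · exact absurd (by simp [TFC.sq]) hne

/-- in particular `K4` clusters have no free corner -/
theorem OW.nok4 (h : OW X P D j m S M) {x y q p : ℕ} (hd : Dist4 x y q p) (hQ : TFC.sq x y q p ∈ D) (hx : x ∈ S)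
    (hyT : y ∉ X.T) {V : Finset ℕ} (hV : CD X D (TFC.sq x y q p) (Clu.k4 V)) (hxV : x ∈ V) (hqV : q ∈ V) : False := by
  refine h.T2 hd hQ hx hyT ?_
  exact h.ok.e2 (h.ok.e1 (hV.near (mem_k4.2 ⟨hxV, hqV, hd.2.1⟩)))

/-- a square of the family with all corners in `S` -/
structure QS (D : Finset (Finset (Sym2 ℕ))) (S : Finset ℕ) (x y q p : ℕ) : Prop where
  d : Dist4 x y q p
  Q : TFC.sq x y q p ∈ D
  hx : x ∈ S
  hy : y ∈ S
  hq : q ∈ S
  hp : p ∈ S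

lemma QS.rot {x y q p : ℕ} (h : QS D S x y q p) : QS D S y q p x :=
  ⟨d4k_rot h.d, sqk_rot ▸ h.Q, h.hy, h.hq, h.hp, h.hx⟩

lemma QS.rev {x y q p : ℕ} (h : QS D S x y q p) : QS D S y x p q :=
  ⟨d4k_rev h.d, sqk_rev ▸ h.Q, h.hy, h.hx, h.hp, h.hq⟩

/-- both neighbours of a free corner are in `T` -/
lemma OW.T1' (h : OW X P D j m S M) {x y q p : ℕ} (hQ : QS D S x y q p) (hy : y ∉ X.T) : x ∈ X.T ∧ q ∈ X.T := by
  constructor
  · by_contra hx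
    exact h.T1 hQ.d hQ.Q hQ.hx hx hy
  · by_contra hq
    exact h.T1 hQ.rot.d hQ.rot.Q hQ.rot.hx hy hq

/-- the square is in a cluster with two hubs, one pair of opposite corners being the hubs -/
theorem OW.k2c (h : OW X P D j m S M) {x y q p : ℕ} (hQ : QS D S x y q p) (hyT : y ∉ X.T) :
    (∃ L, CD X D (TFC.sq x y q p) (Clu.k2 x q L) ∧ y ∈ L ∧ p ∈ L) ∨
    (∃ L, CD X D (TFC.sq x y q p) (Clu.k2 p y L) ∧ x ∈ L ∧ q ∈ L) := by
  obtain ⟨c, hc⟩ := h.cd hQ.Q hQ.hx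
  rcases shapeK hQ.d hc.val hc.sub with ⟨V, rfl, h1, _, h2, _⟩ | ⟨L, h1, h2, h3, h4⟩ | ⟨L, h1, h2, h3, h4⟩
  · exact (h.nok4 hQ.d hQ.Q hQ.hx hyT hc h1 h2).elim
  · exact Or.inl ⟨L, hc.congr h2 h1 rfl, h3, h4⟩
  · refine Or.inr ⟨L, hc.congr ?_ (h1.trans (k2_swap _ _ _)) rfl, h3, h4⟩
    obtain ⟨g1, g2, g3, g4⟩ := h2
    exact ⟨g1.symm, g3, g2, g4⟩

/-- leaves next to a free hub are in `T` -/
lemma OW.leafT (h : OW X P D j m S M) {Q : Finset (Sym2 ℕ)} {a b : ℕ} {L : Finset ℕ} (hc : CD X D Q (Clu.k2 a b L))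
    (hb : b ∉ X.T) : ∀ l ∈ L, l ∈ X.T := by
  intro l hl
  by_contra hlT
  obtain ⟨J, W, FD, _⟩ := h.kw hc
  have K := hc.k2At h
  obtain ⟨v, hv⟩ := hc.cov' h l hl
  exact W.hubleaf hv (FD _ _ hv) ⟨hlT, K.Ln l hl⟩ (Or.inr ⟨hb, K.bn⟩)

/-- a cluster with three leaves has at most one free leaf -/
lemma OW.leaf1 (h : OW X P D j m S M) {Q : Finset (Sym2 ℕ)} {a b : ℕ} {L : Finset ℕ} (hc : CD X D Q (Clu.k2 a b L))
    {y z l : ℕ} (hy : y ∉ X.T) (hz : z ∉ X.T) (yL : y ∈ L) (zL : z ∈ L) (lL : l ∈ L) (yz : y ≠ z) (yl : y ≠ l)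
    (zl : z ≠ l) : False := by
  obtain ⟨J, W, FD, _⟩ := h.kw hc
  have K := hc.k2At h
  exact W.twoleaf FD (hc.cov' h) ⟨hy, K.Ln y yL⟩ ⟨hz, K.Ln z zL⟩ yL zL lL yz yl zl

/-- **the free corner lemma** with Lemma B' -/
theorem OW.F8 (h : OW X P D j m S M) {x y q p r : ℕ} (hQ : QS D S x y q p) (hr : r ∈ S) (hyT : y ∉ X.T) (hrT : r ∈ X.T)
    (hrx : r ≠ x) (hry : r ≠ y) (hrq : r ≠ q) (hrp : r ≠ p) (he : s(y, r) ∈ X.E) :
    s(p, r) ∈ M r ∧ (s(p, q) ∈ M q ∨ s(p, x) ∈ M x) := by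
  obtain ⟨h1, h2, h3, h4, h5, h6⟩ := id hQ.d
  have heN : s(y, r) ∈ X.En := h.edgeS he (Sym2.mem_mk_right _ _) hr
  have hrn : r < X.n := h.ok.tn r hrT
  have hyn : y < X.n := h.vlt heN (Sym2.mem_mk_left _ _)
  obtain ⟨hxT, hqT⟩ := h.T1' hQ hyT
  obtain ⟨nr1, _, nr3⟩ := h.nc r hr hrT
  rcases h.k2c hQ hyT with ⟨L, hc, yL, pL⟩ | ⟨L, hc, xL, qL⟩
  · -- `y` is a leaf: impossible
    exfalso
    have K := hc.k2At h
    have hni : s(y, r) ∉ (Clu.k2 x q L).edges := by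
      rw [k2_mem2]
      rintro (⟨g1 | g1, _⟩ | ⟨g1 | g1, _⟩)
      · exact h1 g1.symm
      · exact h4 g1
      · exact hrx g1
      · exact hrq g1
    obtain ⟨J, W, FD, rg, c, τ, hc1, hc2, hM⟩ := h.kwr hc hyT hrT hr heN hni
    have g := gd_nA (L := L) (a := x) (b := q) h nr1.m2 nr3
    have hD : Dq D x q L p y := ⟨pL, yL, h5.symm, by
      have := hQ.rev.rot.Q
      rw [show TFC.sq x p q y = TFC.sq x p q y from rfl]
      exact this⟩
    have F := FD p y hD (Or.inr (Or.inr (Or.inr rfl)))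
    have hFr : Fre X y := ⟨hyT, hyn⟩
    by_cases hrL : r ∈ L
    · refine W.bA' hFr yL hD F ⟨rfl, rfl⟩ hrL hrp hry (M := rv X.n x q r c τ (nA L x (M r)) (nA L q (M r)))
        ⟨fun v hv => (rg _ hM v hv).1, fun v hv => (rg _ hM v hv).2, ?_⟩ hM ?_
      · intro v ha hb hL hn _
        rw [rv_apply hn (by rintro rfl; exact hL hrL), W.kv_o g ha hb hL]
      · have := kv_nn' g r (a := x) (b := q)
        have hrn' : r ≠ X.n := by omega
        simp [rv, ev_apply, hrn']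
        omega
    · by_cases hpT : p ∈ X.T
      · exact W.bA hFr yL hD F ⟨rfl, rfl⟩ hrx hrq hrL (by omega) (by omega) hc2 g hM
      · have hL2 : ∀ z ∈ L, z = y ∨ z = p := by
          intro z hz
          by_contra hcon
          rw [not_or] at hcon
          exact h.leaf1 hc hyT hpT yL pL hz h5 (Ne.symm hcon.1) (Ne.symm hcon.2)
        exact W.bS hFr ⟨hpT, K.Ln p pL⟩ (W.sym _ _ hD) (FD y p (W.sym _ _ hD) (Or.inr (Or.inr (Or.inl rfl)))) hL2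
          ⟨rfl, rfl⟩ hrx hrq hrL (by omega) (by omega) hc2 g hM
  · -- `y` is a free hub
    have K := hc.k2At h
    have hD : Dq D p y L x q := ⟨xL, qL, h2, by
      have := hQ.rot.rot.rot.Q
      exact this⟩
    have hFr : Fre X y := ⟨hyT, hyn⟩
    have hrL : r ∈ L := by
      by_contra hrL
      have hni : s(y, r) ∉ (Clu.k2 p y L).edges := by
        rw [k2_mem2]
        rintro (⟨_, g1⟩ | ⟨g1 | g1, _⟩)
        · exact hrL g1
        · exact hrp g1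
        · exact hry g1
      obtain ⟨J, W, FD, rg, c, τ, hc1, hc2, hM⟩ := h.kwr hc hyT hrT hr heN hni
      have g := gd_nA (L := L) (a := p) (b := y) h nr1.m2 nr3
      exact W.bB (fun u w hD => FD u w hD (Or.inr (Or.inl rfl))) hFr hD ⟨rfl, rfl⟩ hrp hry hrL (by omega) (by omega)
        hc2 g hM
    obtain ⟨J, W, FD, hN⟩ := h.kw hc
    have useB : ∀ l v u w, l ∈ S → l ∈ X.T → l ∈ L → Dq D p y L l v → Dq D p y L u w → u ≠ l → w ≠ l →
        s(p, l) ∈ M l := by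
      intro l v u w lS lT lL hlv huw hul hwl
      obtain ⟨n1, _, n3⟩ := h.nc l lS lT
      have g := gd_nA (L := L) (a := p) (b := y) h n1.m2 n3
      have := W.Bp FD hFr hlv huw hul hwl g (by
        rintro ⟨g1, g2⟩
        have g3 := (mem_nA.1 g1).2
        have g4 := (mem_nA.1 g2).2
        have := dg_ge_two (msw g3) (msw g4) h5.symm
        rw [n1.one] at this
        omega) (hN l lS lT)
      exact (mem_nA.1 this).2
    obtain ⟨t, ht⟩ := hc.cov' h r hrL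
    refine ⟨useB r t x q hr hrT hrL ht hD hrx.symm hrq.symm, ?_⟩
    by_cases htq : t = q
    · subst htq
      right
      exact useB x t r t hQ.hx hxT xL hD ht hrx h2.symm
    · left
      exact useB q x r t hQ.hq hqT qL (W.sym _ _ hD) ht hrq htq

/-- **the P-lemma**: `w` is opposite to the free corner `z` -/
theorem OW.PP (h : OW X P D j m S M) {w c1 z c2 : ℕ} (hQ : QS D S w c1 z c2) (hz : z ∉ X.T) (hw : w ∈ X.T) :
    ∃ u t, s(w, u) ∈ M w ∧ u ∈ X.T ∧ s(u, t) ∈ M w ∧ t ≠ w ∧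
      (t = z ∨ (t ∈ X.T ∧ s(c1, t) ∈ M w ∧ s(c2, t) ∈ M w)) := by
  obtain ⟨h1, h2, h3, h4, h5, h6⟩ := id hQ.d
  obtain ⟨hc1T, hc2T⟩ := h.T1' hQ.rot hz
  obtain ⟨n1, _, n3⟩ := h.nc w hQ.hx hw
  rcases h.k2c hQ.rot hz with ⟨L, hc, zL, wL⟩ | ⟨L, hc, c1L, c2L⟩
  · -- hubs `c1`, `c2`, free leaf `z`
    have K := hc.k2At h
    obtain ⟨J, W, FD, hN⟩ := h.kw hc
    have g := gd_nA (L := L) (a := c1) (b := c2) h n1.m2 n3
    have hD : Dq D c1 c2 L w z := ⟨wL, zL, h2, by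
      have := hQ.rev.Q
      exact this⟩
    have hFr : Fre X z := ⟨hz, K.Ln z zL⟩
    have key := W.PA hFr zL hD (FD _ _ hD) g (by
        rintro ⟨g1, g2⟩
        have g3 := (mem_nA.1 g1).2
        have g4 := (mem_nA.1 g2).2
        have := dg_ge_two (msw g3) (msw g4) h5
        rw [n1.one] at this
        omega) (hN w hQ.hx hw)
    have common : ∀ v, v ∈ nA L c1 (M w) → v ∈ nA L c2 (M w) → v ≠ w → v ≠ z → v ∈ X.T := by
      intro v v1 v2 vw vz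
      by_contra hv
      exact h.leaf1 hc hv hz (mem_nA.1 v1).1 zL wL vz vw h2.symm
    rcases key with ⟨k1, k2 | ⟨v, v1, v2, v3, v4⟩⟩ | ⟨k1, k2 | ⟨v, v1, v2, v3, v4⟩⟩
    · exact ⟨c1, z, msw (mem_nA.1 k1).2, hc1T, (mem_nA.1 k2).2, h2.symm, Or.inl rfl⟩
    · exact ⟨c1, v, msw (mem_nA.1 k1).2, hc1T, (mem_nA.1 v1).2, v3,
        Or.inr ⟨common v v1 v2 v3 v4, (mem_nA.1 v1).2, (mem_nA.1 v2).2⟩⟩
    · exact ⟨c2, z, msw (mem_nA.1 k1).2, hc2T, (mem_nA.1 k2).2, h2.symm, Or.inl rfl⟩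
    · exact ⟨c2, v, msw (mem_nA.1 k1).2, hc2T, (mem_nA.1 v1).2, v3,
        Or.inr ⟨common v v2 v1 v3 v4, (mem_nA.1 v2).2, (mem_nA.1 v1).2⟩⟩
  · -- hubs `w`, `z`
    have K := hc.k2At h
    obtain ⟨J, W, FD, hN⟩ := h.kw hc
    have g := gd_nA (L := L) (a := w) (b := z) h n1.m2 n3
    have hD : Dq D w z L c1 c2 := ⟨c1L, c2L, h5, by
      have := hQ.Q
      exact this⟩
    have hFr : Fre X z := ⟨hz, K.bn⟩
    obtain ⟨l, hl, hA, hB⟩ := W.PB FD hFr hD (hc.cov' h) g (by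
      have := len_nA (L := L) (a := w) (M := M w)
      rw [n1.one] at this
      exact this) (hN w hQ.hx hw)
    have l1 : l ∈ nA L w (M w) := by rw [hA]; simp
    have l2 : l ∈ nA L z (M w) := by rw [hB]; simp
    exact ⟨l, z, (mem_nA.1 l1).2, h.leafT hc hz l hl, msw (mem_nA.1 l2).2, h2.symm, Or.inl rfl⟩

/-- **the E-lemma**: `w` is adjacent to the free corner `z`, `c` is opposite to `z` -/
theorem OW.EE (h : OW X P D j m S M) {z w c d : ℕ} (hQ : QS D S z w c d) (hz : z ∉ X.T) (hc' : c ∈ X.T) :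
    s(w, z) ∈ M w ∨ ∃ k t, k ∈ X.T ∧ t ∈ X.T ∧ s(w, k) ∈ M w ∧ s(k, t) ∈ M w ∧ s(t, z) ∈ M w ∧ t ≠ w := by
  obtain ⟨h1, h2, h3, h4, h5, h6⟩ := id hQ.d
  obtain ⟨hdT, hwT⟩ := h.T1' hQ.rot.rot.rot hz
  obtain ⟨n1, _, n3⟩ := h.nc w hQ.hy hwT
  rcases h.k2c hQ.rot.rot.rot hz with ⟨L, hc, zL, cL⟩ | ⟨L, hc, dL, wL⟩
  · -- hubs `d`, `w`, free leaf `z`
    have hc2 : CD X D (TFC.sq d z w c) (Clu.k2 w d L) := by
      refine hc.congr ?_ (k2_swap _ _ _) rfl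
      obtain ⟨g1, g2, g3, g4⟩ := hc.val
      exact ⟨g1.symm, g3, g2, g4⟩
    have K := hc2.k2At h
    obtain ⟨J, W, FD, hN⟩ := h.kw hc2
    have g := gd_nA (L := L) (a := w) (b := d) h n1.m2 n3
    have hD : Dq D w d L c z := ⟨cL, zL, h2.symm, by
      have := hQ.rot.Q
      exact this⟩
    have hFr : Fre X z := ⟨hz, K.Ln z zL⟩
    rcases W.EA hFr zL hD (FD _ _ hD) g (by
      have := len_nA (L := L) (a := w) (M := M w)
      rw [n1.one] at this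
      exact this) (hN w hQ.hy hwT) with k | ⟨v, v1, v2, v3, v4⟩
    · exact Or.inl (mem_nA.1 k).2
    · right
      have hvT : v ∈ X.T := by
        by_cases hvc : v = c
        · rw [hvc]; exact hc'
        · by_contra hv
          exact h.leaf1 hc2 hv hz (mem_nA.1 v1).1 zL cL v2 hvc h2
      exact ⟨v, d, hvT, hdT, (mem_nA.1 v1).2, msw (mem_nA.1 v3).2, (mem_nA.1 v4).2, h5.symm⟩
  · -- hubs `c`, `z`
    have K := hc.k2At h
    obtain ⟨J, W, FD, hN⟩ := h.kw hc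
    have g := gd_nA (L := L) (a := c) (b := z) h n1.m2 n3
    have hD : Dq D c z L w d := ⟨wL, dL, h5, by
      have := hQ.rot.rev.Q
      exact this⟩
    have hFr : Fre X z := ⟨hz, K.bn⟩
    rcases W.EB FD hFr hD g (by
        rintro ⟨g1, g2⟩
        have g3 := (mem_nA.1 g1).2
        have g4 := (mem_nA.1 g2).2
        have := dg_ge_two (msw g3) (msw g4) h2.symm
        rw [n1.one] at this
        omega) (hN w hQ.hy hwT) with k | ⟨k, v, v1, v2, v3⟩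
    · exact Or.inl (msw (mem_nA.1 k).2)
    · right
      exact ⟨c, v, hc', h.leafT hc hz v (mem_nA.1 v1).1, msw (mem_nA.1 k).2, (mem_nA.1 v1).2, msw (mem_nA.1 v3).2, v2⟩

end

/-! two worlds -/

section

variable {X₁ X₂ : XD} {P₁ P₂ : ℕ → Finset (Sym2 ℕ) → Prop} {D₁ D₂ : Finset (Finset (Sym2 ℕ))} {j₁ m₁ j₂ m₂ : ℕ}
  {S : Finset ℕ} {M : ℕ → Finset (Sym2 ℕ)}

/-- the common end of the path `w - u - t` of the P-lemma is unique -/
lemma path_unique {N : Finset (Sym2 ℕ)} {w u t u' t' : ℕ} (hN : M2 N) (h1 : dg N w = 1) (hu : s(w, u) ∈ N)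
    (hu' : s(w, u') ∈ N) (ht : s(u, t) ∈ N) (ht' : s(u', t') ∈ N) (tw : t ≠ w) (tw' : t' ≠ w) : u = u' ∧ t = t' := by
  have e1 : u = u' := nbr_unique (by omega) hu hu'
  subst e1
  refine ⟨rfl, ?_⟩
  rcases nbr_two (hN.le u) (msw hu) ht (Ne.symm tw) ht' with h | h
  · exact absurd h tw'
  · exact h.symm

lemma no_three {N : Finset (Sym2 ℕ)} (hN : M2 N) {t a b c : ℕ} (ha : s(a, t) ∈ N) (hb : s(b, t) ∈ N) (hc : s(c, t) ∈ N)
    (ab : a ≠ b) (ac : a ≠ c) (bc : b ≠ c) : False := by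
  rcases nbr_two (hN.le t) (msw ha) (msw hb) ab (msw hc) with h | h
  · exact ac h.symm
  · exact bc h.symm

/-- **pattern 8.1**: the common vertex `y` is free -/
theorem pat81 (h₁ : OW X₁ P₁ D₁ j₁ m₁ S M) (h₂ : OW X₂ P₂ D₂ j₂ m₂ S M) (hT : X₁.T = X₂.T) {x y q p r s : ℕ}
    (hQ : QS D₁ S x y q p) (hR : QS D₂ S x y r s) (qr : q ≠ r) (qs : q ≠ s) (pr : p ≠ r) (ps : p ≠ s)
    (hQE : TFC.sq x y q p ⊆ X₂.E) (hRE : TFC.sq x y r s ⊆ X₁.E) (hy : y ∉ X₁.T) : False := by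
  have hy2 : y ∉ X₂.T := hT ▸ hy
  obtain ⟨hxT, hqT⟩ := h₁.T1' hQ hy
  obtain ⟨_, hrT⟩ := h₂.T1' hR hy2
  obtain ⟨a1, a2, a3, a4, a5, a6⟩ := hQ.d
  obtain ⟨b1, b2, b3, b4, b5, b6⟩ := hR.d
  have hrT1 : r ∈ X₁.T := hT ▸ hrT
  have hqT2 : q ∈ X₂.T := hT ▸ hqT
  obtain ⟨c1, c2⟩ := h₁.F8 hQ hR.hq hy hrT1 b2.symm b4.symm qr.symm pr.symm (hRE (by simp [TFC.sq]))
  obtain ⟨d1, d2⟩ := h₂.F8 hR hQ.hq hy2 hqT2 a2.symm a4.symm qr qs (hQE (by simp [TFC.sq]))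
  have one : ∀ v, v ∈ S → v ∈ X₁.T → s(p, v) ∈ M v → s(s, v) ∈ M v → False := by
    intro v hv hvT g1 g2
    exact ps (nbr_unique (by rw [(h₁.nc v hv hvT).1.one]) (msw g1) (msw g2))
  rcases c2 with c2 | c2
  · exact one q hQ.hq hqT c2 d1
  · rcases d2 with d2 | d2
    · exact one r hR.hq hrT1 c1 d2
    · exact one x hQ.hx hxT c2 d2

/-- **pattern 8.2**: `p`, `s` are free, `y` is not -/
theorem pat82 (h₁ : OW X₁ P₁ D₁ j₁ m₁ S M) (h₂ : OW X₂ P₂ D₂ j₂ m₂ S M) (hT : X₁.T = X₂.T) {x y q p r s : ℕ}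
    (hQ : QS D₁ S x y q p) (hR : QS D₂ S x y r s) (qr : q ≠ r) (ps : p ≠ s) (hy : y ∈ X₁.T) (hp : p ∉ X₁.T)
    (hs : s ∉ X₁.T) : False := by
  obtain ⟨a1, a2, a3, a4, a5, a6⟩ := hQ.d
  obtain ⟨b1, b2, b3, b4, b5, b6⟩ := hR.d
  have hy2 : y ∈ X₂.T := hT ▸ hy
  have hs2 : s ∉ X₂.T := hT ▸ hs
  have n1 := (h₁.nc y hQ.hy hy).1
  obtain ⟨u, t, u1, u2, u3, u4, u5⟩ := h₁.PP hQ.rot hp hy
  obtain ⟨u', t', v1, v2, v3, v4, v5⟩ := h₂.PP hR.rot hs2 hy2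
  obtain ⟨rfl, rfl⟩ := path_unique n1.m2 n1.one u1 v1 u3 v3 u4 v4
  rcases u5 with rfl | ⟨w1, w2, w3⟩
  · rcases v5 with h | ⟨w1, _⟩
    · exact ps h
    · exact hp (hT ▸ w1)
  · rcases v5 with rfl | ⟨_, z2, z3⟩
    · exact hs w1
    · exact no_three n1.m2 w2 w3 z2 a2.symm qr b2

/-- **pattern 8.3**: `p`, `r` are free, `y` is not -/
theorem pat83 (h₁ : OW X₁ P₁ D₁ j₁ m₁ S M) (h₂ : OW X₂ P₂ D₂ j₂ m₂ S M) (hT : X₁.T = X₂.T) {x y q p r s : ℕ}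
    (hQ : QS D₁ S x y q p) (hR : QS D₂ S x y r s) (qr : q ≠ r) (hy : y ∈ X₁.T) (hp : p ∉ X₁.T)
    (hr : r ∉ X₁.T) : False := by
  obtain ⟨a1, a2, a3, a4, a5, a6⟩ := hQ.d
  obtain ⟨b1, b2, b3, b4, b5, b6⟩ := hR.d
  have hr2 : r ∉ X₂.T := hT ▸ hr
  have n1 := (h₁.nc y hQ.hy hy).1
  have hxT : x ∈ X₁.T := (h₁.T1' hQ.rot.rot hp).2
  obtain ⟨u, t, u1, u2, u3, u4, u5⟩ := h₁.PP hQ.rot hp hy
  rcases h₂.EE hR.rev.rot.rot.rot hr2 (hT ▸ hxT) with h | ⟨k, t', k1, k2, k3, k4, k5, k6⟩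
  · have : u = r := nbr_unique (by rw [n1.one]) u1 h
    exact hr (this ▸ u2)
  · obtain ⟨rfl, rfl⟩ := path_unique n1.m2 n1.one u1 k3 u3 k4 u4 k6
    rcases u5 with rfl | ⟨w1, w2, w3⟩
    · exact hp (hT ▸ k2)
    · exact no_three n1.m2 w2 w3 (msw k5) a2.symm qr b2

end

end Pool.Agent.PF4.XF

end

section -- file PF4/XG

/-!
The theorem on two conflicting squares: the statements of the pattern theorems (`Pat`) and the case split
`Pat → XfStatement`.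

NOTATION (six vertices): the common edge is `x y`; `Q = sq x y q p` (edges `xy, yq, qp, px`) is in `D₁`,
`R = sq x y r s` (edges `xy, yr, rs, sx`) is in `D₂`. So `y` is adjacent to `q` (in `Q`) and to `r` (in `R`),
`x` is adjacent to `p` (in `Q`) and to `s` (in `R`).
Five vertices: `Q = sq x y q p` (edges `xy, yq, qp, px`), `R = sq x y r q` (edges `xy, yr, rq, qx`).
-/

set_option autoImplicit false

namespace Pool.Agent.PF4.XF

open Finset Pool.Agent.TFC Pool.Agent.PF4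

/-- a pattern theorem for six vertices; `c T x y q p r s` is the assumption on the demands -/
def Pt6 (c : Finset ℕ → ℕ → ℕ → ℕ → ℕ → ℕ → ℕ → Prop) : Prop :=
  ∀ (X₁ X₂ : XD) (P₁ P₂ : ℕ → Finset (Sym2 ℕ) → Prop) (D₁ D₂ : Finset (Finset (Sym2 ℕ))) (j₁ m₁ j₂ m₂ : ℕ)
    (S : Finset ℕ) (M : ℕ → Finset (Sym2 ℕ)),
    OW X₁ P₁ D₁ j₁ m₁ S M → OW X₂ P₂ D₂ j₂ m₂ S M → X₁.n = X₂.n → X₁.T = X₂.T →
    ∀ x y q p r s : ℕ, [x, y, q, p, r, s].Nodup → x ∈ S → y ∈ S → q ∈ S → p ∈ S → r ∈ S → s ∈ S →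
      sq x y q p ∈ D₁ → sq x y r s ∈ D₂ → sq x y r s ⊆ X₁.E → sq x y q p ⊆ X₂.E →
      c X₁.T x y q p r s → False

/-- the pattern theorem for five vertices -/
def Pt5 : Prop :=
  ∀ (X₁ X₂ : XD) (P₁ P₂ : ℕ → Finset (Sym2 ℕ) → Prop) (D₁ D₂ : Finset (Finset (Sym2 ℕ))) (j₁ m₁ j₂ m₂ : ℕ)
    (S : Finset ℕ) (M : ℕ → Finset (Sym2 ℕ)),
    OW X₁ P₁ D₁ j₁ m₁ S M → OW X₂ P₂ D₂ j₂ m₂ S M → X₁.n = X₂.n → X₁.T = X₂.T →
    ∀ x y q p r : ℕ, [x, y, q, p, r].Nodup → x ∈ S → y ∈ S → q ∈ S → p ∈ S → r ∈ S →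
      sq x y q p ∈ D₁ → sq x y r q ∈ D₂ → sq x y r q ⊆ X₁.E → sq x y q p ⊆ X₂.E → False

/-- the pattern theorems -/
structure Pat : Prop where
  /-- (8.1) a free common vertex -/
  p1 : Pt6 fun T _ y _ _ _ _ => y ∉ T
  /-- (8.2) two free corners, both adjacent to `x` -/
  p2 : Pt6 fun T x y q p r s => x ∈ T ∧ y ∈ T ∧ q ∈ T ∧ r ∈ T ∧ p ∉ T ∧ s ∉ T
  /-- (8.3) two free corners, `p` adjacent to `x`, `r` adjacent to `y` -/
  p3 : Pt6 fun T x y q p r s => x ∈ T ∧ y ∈ T ∧ q ∈ T ∧ s ∈ T ∧ p ∉ T ∧ r ∉ T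
  /-- all corners of `R` have demand 2 -/
  p4 : Pt6 fun T x y _ _ r s => x ∈ T ∧ y ∈ T ∧ r ∈ T ∧ s ∈ T
  /-- five vertices -/
  p5 : Pt5

theorem sq_ref (x y q p : ℕ) : sq x y q p = sq y x p q := by
  ext e; simp only [TFC.sq, mem_insert, mem_singleton]
  rw [Sym2.eq_swap (a := y) (b := x), Sym2.eq_swap (a := x) (b := p), Sym2.eq_swap (a := p) (b := q),
    Sym2.eq_swap (a := q) (b := y)]
  tauto

theorem sq_rot (x y q p : ℕ) : sq x y q p = sq y q p x := by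
  ext e; simp only [TFC.sq, mem_insert, mem_singleton]; tauto

theorem d4rot {x y q p : ℕ} (h : Dist4 x y q p) : Dist4 y q p x := by
  obtain ⟨h1, h2, h3, h4, h5, h6⟩ := h
  exact ⟨h4, h5, h1.symm, h6, h2.symm, h3.symm⟩

theorem d4ref {x y q p : ℕ} (h : Dist4 x y q p) : Dist4 y x p q := by
  obtain ⟨h1, h2, h3, h4, h5, h6⟩ := h
  exact ⟨h1.symm, h5, h4, h3, h2, h6.symm⟩

theorem fs_rot (a b c d : ℕ) : ({a, b, c, d} : Finset ℕ) = {b, c, d, a} := by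
  ext v; simp only [mem_insert, mem_singleton]; tauto

theorem fs_ref (a b c d : ℕ) : ({a, b, c, d} : Finset ℕ) = {b, a, d, c} := by
  ext v; simp only [mem_insert, mem_singleton]; tauto

/-- a square, read from one of its edges -/
theorem sq_at {a b c d : ℕ} (h : Dist4 a b c d) {e : Sym2 ℕ} (he : e ∈ sq a b c d) :
    ∃ x y q p, Dist4 x y q p ∧ e = s(x, y) ∧ sq a b c d = sq x y q p ∧
      ({a, b, c, d} : Finset ℕ) = {x, y, q, p} := by
  simp only [TFC.sq, mem_insert, mem_singleton] at he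
  rcases he with rfl | rfl | rfl | rfl
  · exact ⟨a, b, c, d, h, rfl, rfl, rfl⟩
  · exact ⟨b, c, d, a, d4rot h, rfl, sq_rot .., fs_rot ..⟩
  · exact ⟨c, d, a, b, d4rot (d4rot h), rfl, by rw [sq_rot, sq_rot], by rw [fs_rot, fs_rot]⟩
  · exact ⟨d, a, b, c, d4rot (d4rot (d4rot h)), rfl, by rw [sq_rot, sq_rot, sq_rot],
      by rw [fs_rot, fs_rot, fs_rot]⟩

theorem sq_at' {a b c d : ℕ} (h : Dist4 a b c d) {x y : ℕ} (he : s(x, y) ∈ sq a b c d) :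
    ∃ r s, Dist4 x y r s ∧ sq a b c d = sq x y r s ∧ ({a, b, c, d} : Finset ℕ) = {x, y, r, s} := by
  obtain ⟨x', y', q, p, h1, h2, h3, h4⟩ := sq_at h he
  rw [Sym2.eq_iff] at h2
  rcases h2 with ⟨rfl, rfl⟩ | ⟨rfl, rfl⟩
  · exact ⟨q, p, h1, h3, h4⟩
  · exact ⟨p, q, d4ref h1, by rw [h3, sq_ref], by rw [h4, fs_ref]⟩

/-- **normal form** of two squares with exactly one common edge -/
theorem normal_form {Q R : Sq4} (hQ : SqOK Q) (hR : SqOK R) (h : #(sqs Q ∩ sqs R) = 1) :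
    (∃ x y q p r s, [x, y, q, p, r, s].Nodup ∧ sqs Q = sq x y q p ∧ sqs R = sq x y r s ∧
      cr Q = {x, y, q, p} ∧ cr R = {x, y, r, s}) ∨
    (∃ x y q p r, [x, y, q, p, r].Nodup ∧ sqs Q = sq x y q p ∧ sqs R = sq x y r q ∧
      cr Q = {x, y, q, p} ∧ cr R = {x, y, r, q}) := by
  obtain ⟨e, he⟩ := card_eq_one.1 h
  have hu : ∀ f, f ∈ sqs Q → f ∈ sqs R → f = e := fun f h1 h2 => by
    have : f ∈ sqs Q ∩ sqs R := mem_inter.2 ⟨h1, h2⟩
    rw [he] at this; exact mem_singleton.1 this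
  have hm : e ∈ sqs Q ∩ sqs R := by rw [he]; exact mem_singleton_self e
  obtain ⟨hm1, hm2⟩ := mem_inter.1 hm
  obtain ⟨x, y, q, p, d1, rfl, e1, c1⟩ := sq_at hQ hm1
  obtain ⟨r, s, d2, e2, c2⟩ := sq_at' hR hm2
  have e1' : sqs Q = sq x y q p := e1
  have e2' : sqs R = sq x y r s := e2
  rw [e1', e2'] at hu
  obtain ⟨a1, a2, a3, a4, a5, a6⟩ := d1
  obtain ⟨-, b2, b3, b4, b5, b6⟩ := d2
  have hqr : q ≠ r := by
    rintro rfl
    have := hu s(y, q) (by simp [TFC.sq]) (by simp [TFC.sq])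
    rw [Sym2.eq_iff] at this
    rcases this with ⟨h1, h2⟩ | ⟨h1, h2⟩
    · exact a1 h1.symm
    · exact a2 h2.symm
  have hps : p ≠ s := by
    rintro rfl
    have := hu s(p, x) (by simp [TFC.sq]) (by simp [TFC.sq])
    rw [Sym2.eq_iff] at this
    rcases this with ⟨h1, h2⟩ | ⟨h1, h2⟩
    · exact a3 h1.symm
    · exact a5 h1.symm
  by_cases hqs : q = s
  · right
    subst hqs
    have hpr : p ≠ r := by
      rintro rfl
      have := hu s(q, p) (by simp [TFC.sq]) (by simp [TFC.sq])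
      rw [Sym2.eq_iff] at this
      rcases this with ⟨h1, h2⟩ | ⟨h1, h2⟩
      · exact a2 h1.symm
      · exact a4 h1.symm
    refine ⟨x, y, q, p, r, ?_, e1', e2', c1, c2⟩
    simp only [List.nodup_cons, List.mem_cons, List.not_mem_nil, or_false, not_or, List.nodup_nil, and_true,
      not_false_eq_true]
    exact ⟨⟨a1, a2, a3, b2⟩, ⟨a4, a5, b4⟩, ⟨a6, hqr⟩, hpr⟩
  · by_cases hpr : p = r
    · right
      subst hpr
      refine ⟨y, x, p, q, s, ?_, by rw [e1', sq_ref], by rw [e2', sq_ref], ?_, ?_⟩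
      · simp only [List.nodup_cons, List.mem_cons, List.not_mem_nil, or_false, not_or, List.nodup_nil, and_true,
          not_false_eq_true]
        exact ⟨⟨a1.symm, a5, a4, b5⟩, ⟨a3, a2, b3⟩, ⟨a6.symm, hps⟩, hqs⟩
      · rw [show cr Q = _ from c1, fs_ref]
      · rw [show cr R = _ from c2, fs_ref]
    · left
      refine ⟨x, y, q, p, r, s, ?_, e1', e2', c1, c2⟩
      simp only [List.nodup_cons, List.mem_cons, List.not_mem_nil, or_false, not_or, List.nodup_nil, and_true,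
        not_false_eq_true]
      exact ⟨⟨a1, a2, a3, b2, b3⟩, ⟨a4, a5, b4, b5⟩, ⟨a6, hqr, hqs⟩, ⟨hpr, hps⟩, b6⟩

/-- opposite corners of a square -/
theorem opp_eq {x y q p c d : ℕ} (hd : Dist4 x y q p) (h4 : Dist4 x y c d) (he : sq x y q p = sq x y c d) :
    c = q ∧ d = p := by
  obtain ⟨d1, d2, d3, d4, d5, d6⟩ := hd
  obtain ⟨g1, g2, g3, g4, g5, g6⟩ := h4
  have h1 : s(y, c) ∈ sq x y q p := by rw [he]; simp [TFC.sq]
  have h2 : s(d, x) ∈ sq x y q p := by rw [he]; simp [TFC.sq]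
  simp only [TFC.sq, mem_insert, mem_singleton, Sym2.eq_iff] at h1 h2
  constructor
  · omega
  · omega

/-- harmful squares: a pair of opposite corners in `T` -/
theorem hs_opp {T : Finset ℕ} {x y q p : ℕ} (hd : Dist4 x y q p) (h : Hs T (sq x y q p)) :
    (x ∈ T ∧ q ∈ T) ∨ (y ∈ T ∧ p ∈ T) := by
  obtain ⟨a, b, c, d, h4, he, ha, hc⟩ := h
  have hab : s(a, b) ∈ sq x y q p := by rw [he]; simp [TFC.sq]
  simp only [TFC.sq, mem_insert, mem_singleton, Sym2.eq_iff] at hab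
  rcases hab with (⟨rfl, rfl⟩ | ⟨rfl, rfl⟩) | (⟨rfl, rfl⟩ | ⟨rfl, rfl⟩) | (⟨rfl, rfl⟩ | ⟨rfl, rfl⟩) |
      (⟨rfl, rfl⟩ | ⟨rfl, rfl⟩)
  · obtain ⟨rfl, rfl⟩ := opp_eq hd h4 he
    exact Or.inl ⟨ha, hc⟩
  · rw [sq_ref] at he
    obtain ⟨rfl, rfl⟩ := opp_eq (d4ref hd) h4 he
    exact Or.inr ⟨ha, hc⟩
  · rw [sq_rot] at he
    obtain ⟨rfl, rfl⟩ := opp_eq (d4rot hd) h4 he
    exact Or.inr ⟨ha, hc⟩
  · rw [sq_rot, sq_ref] at he
    obtain ⟨rfl, rfl⟩ := opp_eq (d4ref (d4rot hd)) h4 he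
    exact Or.inl ⟨hc, ha⟩
  · rw [sq_rot, sq_rot] at he
    obtain ⟨rfl, rfl⟩ := opp_eq (d4rot (d4rot hd)) h4 he
    exact Or.inl ⟨hc, ha⟩
  · rw [sq_rot, sq_rot, sq_ref] at he
    obtain ⟨rfl, rfl⟩ := opp_eq (d4ref (d4rot (d4rot hd))) h4 he
    exact Or.inr ⟨hc, ha⟩
  · rw [sq_rot, sq_rot, sq_rot] at he
    obtain ⟨rfl, rfl⟩ := opp_eq (d4rot (d4rot (d4rot hd))) h4 he
    exact Or.inr ⟨hc, ha⟩
  · rw [sq_rot, sq_rot, sq_rot, sq_ref] at he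
    obtain ⟨rfl, rfl⟩ := opp_eq (d4ref (d4rot (d4rot (d4rot hd)))) h4 he
    exact Or.inl ⟨ha, hc⟩

theorem sq_mem {x y q p : ℕ} {Q R : Sq4} (h : cr Q = {x, y, q, p}) : x ∈ cr Q ∪ cr R ∧ y ∈ cr Q ∪ cr R ∧
    q ∈ cr Q ∪ cr R ∧ p ∈ cr Q ∪ cr R := by
  rw [h]; simp

theorem sq_mem' {x y q p : ℕ} {Q R : Sq4} (h : cr R = {x, y, q, p}) : x ∈ cr Q ∪ cr R ∧ y ∈ cr Q ∪ cr R ∧
    q ∈ cr Q ∪ cr R ∧ p ∈ cr Q ∪ cr R := by
  rw [h]; simp

theorem nodup6 {x y q p r s : ℕ} : [x, y, q, p, r, s].Nodup ↔ (x ≠ y ∧ x ≠ q ∧ x ≠ p ∧ x ≠ r ∧ x ≠ s) ∧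
    (y ≠ q ∧ y ≠ p ∧ y ≠ r ∧ y ≠ s) ∧ (q ≠ p ∧ q ≠ r ∧ q ≠ s) ∧ (p ≠ r ∧ p ≠ s) ∧ r ≠ s := by
  simp only [List.nodup_cons, List.mem_cons, List.not_mem_nil, or_false, not_or, List.nodup_nil, and_true,
    not_false_eq_true, ne_eq]

/-- exchange of the two sides -/
theorem nd_side {x y q p r s : ℕ} (h : [x, y, q, p, r, s].Nodup) : [y, x, p, q, s, r].Nodup := by
  rw [nodup6] at h ⊢
  obtain ⟨⟨a1, a2, a3, a4, a5⟩, ⟨b1, b2, b3, b4⟩, ⟨c1, c2, c3⟩, ⟨d1, d2⟩, e1⟩ := h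
  exact ⟨⟨a1.symm, b2, b1, b4, b3⟩, ⟨a3, a2, a5, a4⟩, ⟨c1.symm, d2, d1⟩, ⟨c3, c2⟩, e1.symm⟩

/-- exchange of the two worlds -/
theorem nd_world {x y q p r s : ℕ} (h : [x, y, q, p, r, s].Nodup) : [x, y, r, s, q, p].Nodup := by
  rw [nodup6] at h ⊢
  obtain ⟨⟨a1, a2, a3, a4, a5⟩, ⟨b1, b2, b3, b4⟩, ⟨c1, c2, c3⟩, ⟨d1, d2⟩, e1⟩ := h
  exact ⟨⟨a1, a4, a5, a2, a3⟩, ⟨b3, b4, b1, b2⟩, ⟨e1, c2.symm, d1.symm⟩, ⟨c3.symm, d2.symm⟩, c1⟩

end Pool.Agent.PF4.XF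

end

section -- file PF4/KWX

/-!
The fields `p1`, `p2`, `p3` of `Pat`.
-/

set_option autoImplicit false

namespace Pool.Agent.PF4.XF

open Finset Pool.Agent.TFC Pool.Agent.PF4

theorem nd6 {x y q p r s : ℕ} (h : [x, y, q, p, r, s].Nodup) :
    Dist4 x y q p ∧ Dist4 x y r s ∧ q ≠ r ∧ q ≠ s ∧ p ≠ r ∧ p ≠ s := by
  simp only [List.nodup_cons, List.mem_cons, List.not_mem_nil, or_false, not_or, List.nodup_nil, and_true,
    not_false_eq_true] at h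
  obtain ⟨⟨a1, a2, a3, a4, a5⟩, ⟨b1, b2, b3, b4⟩, ⟨c1, c2, c3⟩, ⟨d1, d2⟩, e1⟩ := h
  exact ⟨⟨a1, a2, a3, b1, b2, c1⟩, ⟨a1, a4, a5, b3, b4, e1⟩, c2, c3, d1, d2⟩

theorem pt_p1 : Pt6 fun T _ y _ _ _ _ => y ∉ T := by
  intro X₁ X₂ P₁ P₂ D₁ D₂ j₁ m₁ j₂ m₂ S M h₁ h₂ _ hT x y q p r s hn hx hy hq hp hr hs hQ hR hR1 hQ2 hc
  obtain ⟨d1, d2, d3, d4, d5, d6⟩ := nd6 hn
  exact pat81 h₁ h₂ hT ⟨d1, hQ, hx, hy, hq, hp⟩ ⟨d2, hR, hx, hy, hr, hs⟩ d3 d4 d5 d6 hQ2 hR1 hc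

theorem pt_p2 : Pt6 fun T x y q p r s => x ∈ T ∧ y ∈ T ∧ q ∈ T ∧ r ∈ T ∧ p ∉ T ∧ s ∉ T := by
  intro X₁ X₂ P₁ P₂ D₁ D₂ j₁ m₁ j₂ m₂ S M h₁ h₂ _ hT x y q p r s hn hx hy hq hp hr hs hQ hR hR1 hQ2 hc
  obtain ⟨d1, d2, d3, d4, d5, d6⟩ := nd6 hn
  exact pat82 h₁ h₂ hT ⟨d1, hQ, hx, hy, hq, hp⟩ ⟨d2, hR, hx, hy, hr, hs⟩ d3 d6 hc.2.1 hc.2.2.2.2.1 hc.2.2.2.2.2

theorem pt_p3 : Pt6 fun T x y q p r s => x ∈ T ∧ y ∈ T ∧ q ∈ T ∧ s ∈ T ∧ p ∉ T ∧ r ∉ T := by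
  intro X₁ X₂ P₁ P₂ D₁ D₂ j₁ m₁ j₂ m₂ S M h₁ h₂ _ hT x y q p r s hn hx hy hq hp hr hs hQ hR hR1 hQ2 hc
  obtain ⟨d1, d2, d3, d4, d5, d6⟩ := nd6 hn
  exact pat83 h₁ h₂ hT ⟨d1, hQ, hx, hy, hq, hp⟩ ⟨d2, hR, hx, hy, hr, hs⟩ d3 hc.2.1 hc.2.2.2.2.1 hc.2.2.2.2.2

end Pool.Agent.PF4.XF

end

section -- file PF4/XG2

/-!
The case split for `XfStatement2` (near covers at the corners of any third square in each world).
Notation as in `XG`: `Q = sq x y q p`, `R = sq x y r s`.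
-/

set_option autoImplicit false

namespace Pool.Agent.PF4.XF

open Finset Pool.Agent.TFC Pool.Agent.PF4

/-- both worlds, with near covers at the corners of any third square -/
structure BW (n : ℕ) (T : Finset ℕ) (G : Finset (Sym2 ℕ)) (M : ℕ → Finset (Sym2 ℕ)) (x y q p r s : ℕ) : Prop where
  nd : [x, y, q, p, r, s].Nodup
  lt : ∀ v ∈ [x, y, q, p, r, s], v < n
  w1 : ∀ B : Sq4, (∀ v ∈ cr B, v < n) → WB n T G M (x, y, q, p) (x, y, r, s) B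
  w2 : ∀ B : Sq4, (∀ v ∈ cr B, v < n) → WB n T G M (x, y, r, s) (x, y, q, p) B

/-- a pattern theorem for six vertices, form with a third square; `c T x y q p r s` is the assumption on the demands -/
def Pt6B (c : Finset ℕ → ℕ → ℕ → ℕ → ℕ → ℕ → ℕ → Prop) : Prop :=
  ∀ (n : ℕ) (T : Finset ℕ) (G : Finset (Sym2 ℕ)) (M : ℕ → Finset (Sym2 ℕ)) (x y q p r s : ℕ),
    BW n T G M x y q p r s → c T x y q p r s → False

/-- one world, in plain form -/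
theorem WB.ow {n : ℕ} {T : Finset ℕ} {G : Finset (Sym2 ℕ)} {M : ℕ → Finset (Sym2 ℕ)} {x y q p r s a b c d : ℕ}
    (h : WB n T G M (x, y, q, p) (x, y, r, s) (a, b, c, d)) :
    ∃ (X : XD) (P : ℕ → Finset (Sym2 ℕ) → Prop) (D : Finset (Finset (Sym2 ℕ))) (j m : ℕ) (S : Finset ℕ),
      OW X P D j m S M ∧ (∀ v ∈ [x, y, q, p, r, s, a, b, c, d], v ∈ S) ∧ X.n = n ∧ X.T = T ∧ X.E ⊆ G ∧
      sq x y q p ∈ D ∧ sq x y q p ⊆ X.E ∧ sq x y r s ⊆ X.E ∧ sq a b c d ∩ G ⊆ X.E := by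
  obtain ⟨X, P, D, j, m, h1, h2, h3, h4, h5, h6, h7, h8⟩ := h
  refine ⟨X, P, D, j, m, _, h1, ?_, h2, h3, h4, h5, h6, h7, h8⟩
  intro v hv
  simp only [List.mem_cons, List.not_mem_nil, or_false] at hv
  simp only [cr, mem_union, mem_insert, mem_singleton]
  tauto

section
variable {n : ℕ} {T : Finset ℕ} {G : Finset (Sym2 ℕ)} {M : ℕ → Finset (Sym2 ℕ)} {x y q p r s : ℕ}

theorem BW.world (h : BW n T G M x y q p r s) : BW n T G M x y r s q p :=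
  ⟨nd_world h.nd, fun v hv => h.lt v (by simp only [List.mem_cons, List.not_mem_nil, or_false] at hv ⊢; tauto),
    h.w2, h.w1⟩

theorem wb_congr {Q Q' R R' B : Sq4} (h1 : sqs Q = sqs Q') (h2 : cr Q = cr Q') (h3 : sqs R = sqs R')
    (h4 : cr R = cr R') (h : WB n T G M Q R B) : WB n T G M Q' R' B := by
  unfold WB at h ⊢
  rwa [h1, h2, h3, h4] at h

theorem sqs_side (a b c d : ℕ) : sqs (a, b, c, d) = sqs (b, a, d, c) := sq_ref a b c d

theorem cr_side (a b c d : ℕ) : cr (a, b, c, d) = cr (b, a, d, c) := fs_ref a b c d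

theorem BW.side (h : BW n T G M x y q p r s) : BW n T G M y x p q s r :=
  ⟨nd_side h.nd, fun v hv => h.lt v (by simp only [List.mem_cons, List.not_mem_nil, or_false] at hv ⊢; tauto),
    fun B hB => wb_congr (sqs_side ..) (cr_side ..) (sqs_side ..) (cr_side ..) (h.w1 B hB),
    fun B hB => wb_congr (sqs_side ..) (cr_side ..) (sqs_side ..) (cr_side ..) (h.w2 B hB)⟩

theorem BW.hs1 (h : BW n T G M x y q p r s) : Hs T (sq x y q p) := by
  obtain ⟨X, P, D, j, m, h1, h2, h3, h4, h5, h6, h7, h8⟩ := h.w1 (x, x, x, x)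
    (fun v hv => by simp only [cr, mem_insert, mem_singleton, or_self] at hv; exact hv ▸ h.lt x (by simp))
  rw [← h3]
  exact (h1.blk.hs _ h5).1

/-- the form with two worlds implies the form with a third square -/
theorem Pt6.toB {c : Finset ℕ → ℕ → ℕ → ℕ → ℕ → ℕ → ℕ → Prop} (hc : Pt6 c) : Pt6B c := by
  intro n T G M x y q p r s h hcT
  have lx : ∀ v ∈ cr (x, x, x, x), v < n := fun v hv => by
    simp only [cr, mem_insert, mem_singleton, or_self] at hv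
    exact hv ▸ h.lt x (by simp)
  obtain ⟨X₁, P₁, D₁, j₁, m₁, w1, n1, t1, _, q1, _, r1, _⟩ := h.w1 _ lx
  obtain ⟨X₂, P₂, D₂, j₂, m₂, w2, n2, t2, _, q2, _, r2, _⟩ := h.w2 _ lx
  have hm : ∀ v ∈ [x, y, q, p, r, s], v ∈ cr (x, y, q, p) ∪ cr (x, y, r, s) ∪ cr (x, x, x, x) := by
    intro v hv
    simp only [List.mem_cons, List.not_mem_nil, or_false] at hv
    simp only [cr, mem_union, mem_insert, mem_singleton]
    tauto
  rw [union_comm (cr (x, y, r, s))] at w2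
  exact hc X₁ X₂ P₁ P₂ D₁ D₂ j₁ m₁ j₂ m₂ _ M w1 w2 (n1.trans n2.symm) (t1.trans t2.symm) x y q p r s h.nd
    (hm _ (by simp)) (hm _ (by simp)) (hm _ (by simp)) (hm _ (by simp)) (hm _ (by simp)) (hm _ (by simp))
    q1 q2 r1 r2 (by rw [t1]; exact hcT)

end

/-- the pattern theorems, form with a third square -/
structure Pat2 : Prop where
  /-- (8.1) a free common vertex -/
  p1 : Pt6 fun T _ y _ _ _ _ => y ∉ T
  /-- (8.2) two free corners, both adjacent to `x` -/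
  p2 : Pt6 fun T x y q p r s => x ∈ T ∧ y ∈ T ∧ q ∈ T ∧ r ∈ T ∧ p ∉ T ∧ s ∉ T
  /-- (8.3) two free corners, `p` adjacent to `x`, `r` adjacent to `y` -/
  p3 : Pt6 fun T x y q p r s => x ∈ T ∧ y ∈ T ∧ q ∈ T ∧ s ∈ T ∧ p ∉ T ∧ r ∉ T
  /-- all corners of `R` have demand 2, `p` is free (then `q` has demand 2) -/
  p4a : Pt6B fun T x y q p r s => x ∈ T ∧ y ∈ T ∧ r ∈ T ∧ s ∈ T ∧ q ∈ T ∧ p ∉ T
  /-- all six corners have demand 2 -/
  p4b : Pt6B fun T x y q p r s => x ∈ T ∧ y ∈ T ∧ r ∈ T ∧ s ∈ T ∧ q ∈ T ∧ p ∈ T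
  /-- five vertices -/
  p5 : Pt5

/-- **the theorem on two conflicting squares, from the pattern theorems** (form with a third square) -/
theorem xf2_of_pat (hP : Pat2) : XfStatement2 := by
  intro n T G M Q R hQ hR h1 hlt w₁ w₂
  obtain ⟨x, y, q, p, r, s, hd, eQ, eR, cQ, cR⟩ | ⟨x, y, q, p, r, hd, eQ, eR, cQ, cR⟩ := normal_form hQ hR h1
  · have hb : BW n T G M x y q p r s := by
      refine ⟨hd, ?_, fun B hB => wb_congr (Q' := (x, y, q, p)) (R' := (x, y, r, s)) eQ cQ eR cR (w₁ B hB),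
        fun B hB => wb_congr (Q' := (x, y, r, s)) (R' := (x, y, q, p)) eR cR eQ cQ (w₂ B hB)⟩
      intro v hv
      refine hlt v ?_
      rw [cQ, cR]
      simp only [List.mem_cons, List.not_mem_nil, or_false] at hv
      simp only [mem_union, mem_insert, mem_singleton]
      tauto
    obtain ⟨⟨a1, a2, a3, a4, a5⟩, ⟨b1, b2, b3, b4⟩, ⟨c1, c2, c3⟩, ⟨d1, d2⟩, f1⟩ := nodup6.1 hd
    have o1 := hs_opp (⟨a1, a2, a3, b1, b2, c1⟩ : Dist4 x y q p) hb.hs1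
    have o2 := hs_opp (⟨a1, a4, a5, b3, b4, f1⟩ : Dist4 x y r s) hb.world.hs1
    by_cases hy : y ∈ T
    swap
    · exact hP.p1.toB _ _ _ _ _ _ _ _ _ _ hb hy
    by_cases hx : x ∈ T
    swap
    · exact hP.p1.toB _ _ _ _ _ _ _ _ _ _ hb.side hx
    -- all corners of the second square have demand 2
    have key : ∀ x y q p r s : ℕ, BW n T G M x y q p r s → x ∈ T → y ∈ T → (q ∈ T ∨ p ∈ T) → r ∈ T → s ∈ T →
        False := by
      intro x y q p r s hb hx hy hqp hr hs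
      by_cases hp : p ∈ T
      · by_cases hq : q ∈ T
        · exact hP.p4b _ _ _ _ _ _ _ _ _ _ hb ⟨hx, hy, hr, hs, hq, hp⟩
        · exact hP.p4a _ _ _ _ _ _ _ _ _ _ hb.side ⟨hy, hx, hs, hr, hp, hq⟩
      · exact hP.p4a _ _ _ _ _ _ _ _ _ _ hb ⟨hx, hy, hr, hs, hqp.resolve_right hp, hp⟩
    have hqp : q ∈ T ∨ p ∈ T := by
      rcases o1 with h | h
      · exact Or.inl h.2
      · exact Or.inr h.2
    have hrs : r ∈ T ∨ s ∈ T := by
      rcases o2 with h | h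
      · exact Or.inl h.2
      · exact Or.inr h.2
    by_cases hR2 : r ∈ T ∧ s ∈ T
    · exact key _ _ _ _ _ _ hb hx hy hqp hR2.1 hR2.2
    by_cases hQ2 : q ∈ T ∧ p ∈ T
    · exact key _ _ _ _ _ _ hb.world hx hy hrs hQ2.1 hQ2.2
    by_cases hq : q ∈ T
    · have hp : p ∉ T := fun h => hQ2 ⟨hq, h⟩
      by_cases hr : r ∈ T
      · exact hP.p2.toB _ _ _ _ _ _ _ _ _ _ hb ⟨hx, hy, hq, hr, hp, fun h => hR2 ⟨hr, h⟩⟩
      · exact hP.p3.toB _ _ _ _ _ _ _ _ _ _ hb ⟨hx, hy, hq, hrs.resolve_left hr, hp, hr⟩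
    · have hp : p ∈ T := hqp.resolve_left hq
      by_cases hs : s ∈ T
      · exact hP.p2.toB _ _ _ _ _ _ _ _ _ _ hb.side ⟨hy, hx, hp, hs, hq, fun h => hR2 ⟨h, hs⟩⟩
      · exact hP.p3.toB _ _ _ _ _ _ _ _ _ _ hb.side ⟨hy, hx, hp, hrs.resolve_right hs, hq, hs⟩
  · obtain ⟨X₁, P₁, D₁, j₁, m₁, v1, n1, t1, _, q1, _, r1, _⟩ := w₁ Q fun v hv => hlt v (mem_union_left _ hv)
    obtain ⟨X₂, P₂, D₂, j₂, m₂, v2, n2, t2, _, q2, _, r2, _⟩ := w₂ R fun v hv => hlt v (mem_union_right _ hv)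
    rw [cr_absorb] at v1 v2
    rw [union_comm (cr R) (cr Q)] at v2
    obtain ⟨mx, my, mq, mp⟩ := sq_mem (R := R) cQ
    obtain ⟨-, -, mr, -⟩ := sq_mem' (Q := Q) cR
    rw [eQ] at q1 r2
    rw [eR] at q2 r1
    exact hP.p5 X₁ X₂ P₁ P₂ D₁ D₂ j₁ m₁ j₂ m₂ _ M v1 v2 (n1.trans n2.symm) (t1.trans t2.symm) x y q p r hd mx my mq
      mp mr q1 q2 r1 r2

end Pool.Agent.PF4.XF

end
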