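import Pool.Agent.PFM.M12
import Pool.Agent.PFM.M13

section -- file PF4/Pc

/-!
# Pieces and clusters as data

A piece is `(z, E, X)`: its vectors are the members of `X` and (if `z`) the degree vectors of the square-free 2-matchings
inside `E`. `pmem` is a polynomial time membership test (for pieces where these have at most four edges). Clusters:
`(true, x, y, L)` is `K2(x,y;L)`, `(false, _, _, L)` is the complete graph on the four vertices of `L`.
-/

set_option autoImplicit false

namespace Pool.Agent.PF4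

open Finset Pool.Agent.TFC Pool.Agent.Lib.helper60

/-- piece -/
abbrev Pc : Type := Bool × List Ed × List (List ℕ)

/-- the list `k` (vertices with multiplicity) as a vector -/
def kvec (k : List ℕ) : ℕ → ℤ := fun v => (k.count v : ℤ)

/-- the vectors of the piece -/
def pcS (p : Pc) : Set (ℕ → ℤ) :=
  {x | (∃ k ∈ p.2.2, x = kvec k) ∨ (p.1 = true ∧ x ∈ JS (fs p.2.1) none4)}

/-- the same multiset -/
def eqK (k l : List ℕ) : Bool := (k ++ l).all fun v => decide (k.count v = l.count v)

/-- the ends of the edges, with multiplicity -/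
def ends2 (S : List Ed) : List ℕ := S.flatMap fun e => [e.1, e.2]

/-- no edge twice -/
def wfB (S : List Ed) : Bool := S.all fun e => decide ((S.filter fun f => eqE e f).length ≤ 1)

/-- no loop -/
def nlB (S : List Ed) : Bool := S.all fun e => !decide (e.1 = e.2)

/-- all degrees at most 2 -/
def dgB (S : List Ed) : Bool := (ends2 S).all fun v => decide (degL S v ≤ 2)

/-- all pairs -/
def prd {α β : Type} (l : List α) (m : List β) : List (α × β) := l.flatMap fun a => m.map fun b => (a, b)

/-- no square -/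
def sfB (S : List Ed) : Bool :=
  (prd (ends2 S) (prd (ends2 S) (prd (ends2 S) (ends2 S)))).all fun q =>
    decide (q.1 = q.2.2.1) || (decide (q.2.1 = q.2.2.2) || !sqIn S q)

/-- square-free 2-matching -/
def okS (S : List Ed) : Bool := wfB S && (nlB S && (dgB S && sfB S))

/-- all lists of at most `k` members of `E` -/
def subs (E : List Ed) : ℕ → List (List Ed)
  | 0 => [[]]
  | k + 1 => subs E k ++ (subs E k).flatMap fun S => E.map fun e => e :: S

/-- membership test -/
def pmem (p : Pc) (k : List ℕ) : Bool :=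
  (p.2.2.any fun l => eqK k l) || (p.1 && ((subs p.2.1 4).any fun S => okS S && eqK k (ends2 S)))

/-- the square-free 2-matchings in the piece have at most four edges -/
def Card4 (p : Pc) : Prop := p.1 = true → ∀ z ⊆ fs p.2.1, M2 z → Good none4 z → #z ≤ 4

theorem eqK_iff (k l : List ℕ) : eqK k l = true ↔ kvec k = kvec l := by
  simp only [eqK, List.all_eq_true, decide_eq_true_eq, List.mem_append]
  constructor
  · intro h
    funext v
    unfold kvec
    by_cases hv : v ∈ k ∨ v ∈ l
    · rw [h v hv]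
    · push Not at hv
      rw [List.count_eq_zero_of_not_mem hv.1, List.count_eq_zero_of_not_mem hv.2]
  · intro h v _
    have := congrFun h v
    unfold kvec at this
    exact_mod_cast this

theorem mem_prd {α β : Type} {l : List α} {m : List β} {p : α × β} : p ∈ prd l m ↔ p.1 ∈ l ∧ p.2 ∈ m := by
  obtain ⟨a, b⟩ := p
  simp only [prd, List.mem_flatMap, List.mem_map, Prod.mk.injEq]
  constructor
  · rintro ⟨x, hx, y, hy, rfl, rfl⟩
    exact ⟨hx, hy⟩
  · rintro ⟨h1, h2⟩
    exact ⟨a, h1, b, h2, rfl, rfl⟩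

theorem wfB_iff (S : List Ed) : wfB S = true ↔ WF S := by
  unfold wfB WF
  rw [List.all_eq_true, List.nodup_iff_count_le_one]
  constructor
  · intro h x
    by_cases hx : x ∈ S.map fe
    · obtain ⟨e, he, rfl⟩ := List.mem_map.1 hx
      have h1 := h e he
      rw [decide_eq_true_eq] at h1
      rw [List.count_eq_length_filter, List.filter_map, List.length_map]
      refine le_trans (le_of_eq ?_) h1
      congr 1
      refine List.filter_congr ?_
      intro f _
      simp only [Function.comp]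
      rw [Bool.eq_iff_iff, beq_iff_eq, eqE_iff]
      exact eq_comm
    · rw [List.count_eq_zero_of_not_mem hx]
      exact Nat.zero_le _
  · intro h e _
    rw [decide_eq_true_eq]
    have h1 := h (fe e)
    rw [List.count_eq_length_filter, List.filter_map, List.length_map] at h1
    refine le_trans (le_of_eq ?_) h1
    congr 1
    refine List.filter_congr ?_
    intro f _
    simp only [Function.comp]
    rw [Bool.eq_iff_iff, beq_iff_eq, eqE_iff]
    exact eq_comm

theorem nlB_iff (S : List Ed) : nlB S = true ↔ NoLoop (fs S) := by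
  unfold nlB NoLoop
  rw [List.all_eq_true]
  constructor
  · intro h x hx
    obtain ⟨e, he, rfl⟩ := mem_fs.1 hx
    have := h e he
    simp only [Bool.not_eq_true', decide_eq_false_iff_not] at this
    simpa [fe] using this
  · intro h e he
    have := h _ (fe_mem_fs he)
    simp only [Bool.not_eq_true', decide_eq_false_iff_not]
    simpa [fe] using this

theorem mem_ends2 {S : List Ed} {v : ℕ} : v ∈ ends2 S ↔ ∃ x ∈ fs S, v ∈ x := by
  simp only [ends2, List.mem_flatMap, List.mem_cons, List.not_mem_nil, or_false]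
  constructor
  · rintro ⟨e, he, h | h⟩
    · exact ⟨fe e, fe_mem_fs he, by rw [h]; exact Sym2.mem_mk_left _ _⟩
    · exact ⟨fe e, fe_mem_fs he, by rw [h]; exact Sym2.mem_mk_right _ _⟩
  · rintro ⟨x, hx, hv⟩
    obtain ⟨e, he, rfl⟩ := mem_fs.1 hx
    exact ⟨e, he, by simpa [fe] using hv⟩

theorem count_ends2 {S : List Ed} (hn : NoLoop (fs S)) (v : ℕ) : (ends2 S).count v = degL S v := by
  unfold ends2 degL
  have h0 : ∀ e ∈ S, e.1 ≠ e.2 := by
    intro e he h
    refine hn _ (fe_mem_fs he) ?_
    rw [fe, h]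
    exact Sym2.mk_isDiag_iff.2 rfl
  clear hn
  induction S with
  | nil => rfl
  | cons e S ih =>
    have h1 := ih fun f hf => h0 f (List.mem_cons_of_mem _ hf)
    have h2 := h0 e List.mem_cons_self
    rw [List.flatMap_cons, List.count_append, h1, List.filter_cons]
    by_cases ha : e.1 = v
    · have hb : e.2 ≠ v := fun h => h2 (ha.trans h.symm)
      simp [inc, ha, hb]
      omega
    · by_cases hb : e.2 = v
      · simp [inc, ha, hb]
        omega
      · simp [inc, ha, hb]

theorem kvec_ends2 {S : List Ed} (hw : WF S) (hn : NoLoop (fs S)) : kvec (ends2 S) = dv (fs S) := by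
  funext v
  rw [kvec, count_ends2 hn, degL_eq hw, dv]

theorem dgB_iff {S : List Ed} (hw : WF S) : dgB S = true ↔ ∀ v, dg (fs S) v ≤ 2 := by
  unfold dgB
  simp only [List.all_eq_true, decide_eq_true_eq]
  constructor
  · intro h v
    by_cases hv : v ∈ ends2 S
    · rw [← degL_eq hw]
      exact h v hv
    · have : dg (fs S) v = 0 := by
        rw [dg, Finset.card_eq_zero, Finset.filter_eq_empty_iff]
        intro x hx h'
        exact hv (mem_ends2.2 ⟨x, hx, h'⟩)
      omega
  · intro h v _
    rw [degL_eq hw]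
    exact h v

theorem sfB_iff {S : List Ed} : sfB S = true ↔ Good none4 (fs S) := by
  unfold sfB Good none4
  rw [List.all_eq_true]
  constructor
  · intro h a b c d hs
    have hm : (a, b, c, d) ∈ prd (ends2 S) (prd (ends2 S) (prd (ends2 S) (ends2 S))) := by
      refine mem_prd.2 ⟨mem_ends2.2 ⟨_, hs.ab, Sym2.mem_mk_left _ _⟩, mem_prd.2
        ⟨mem_ends2.2 ⟨_, hs.ab, Sym2.mem_mk_right _ _⟩, mem_prd.2
        ⟨mem_ends2.2 ⟨_, hs.bc, Sym2.mem_mk_right _ _⟩, mem_ends2.2 ⟨_, hs.cd, Sym2.mem_mk_right _ _⟩⟩⟩⟩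
    have h1 := h _ hm
    simp only [Bool.or_eq_true, decide_eq_true_eq, Bool.not_eq_true', hs.ac, hs.bd, false_or] at h1
    have h2 : sqIn S (a, b, c, d) = true := by
      simp only [sqIn, Bool.and_eq_true, hasE_iff, fe]
      exact ⟨hs.ab, hs.bc, hs.cd, hs.da⟩
    rw [h1] at h2
    cases h2
  · rintro h ⟨a, b, c, d⟩ _
    simp only [Bool.or_eq_true, decide_eq_true_eq, Bool.not_eq_true']
    by_cases h1 : a = c
    · exact Or.inl h1
    · by_cases h2 : b = d
      · exact Or.inr (Or.inl h2)
      · refine Or.inr (Or.inr ?_)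
        rw [← Bool.not_eq_true]
        intro h3
        simp only [sqIn, Bool.and_eq_true, hasE_iff, fe] at h3
        exact h a b c d ⟨h1, h2, h3.1, h3.2.1, h3.2.2.1, h3.2.2.2⟩

theorem okS_iff (S : List Ed) : okS S = true ↔ WF S ∧ M2 (fs S) ∧ Good none4 (fs S) := by
  unfold okS
  rw [Bool.and_eq_true, Bool.and_eq_true, Bool.and_eq_true, wfB_iff, nlB_iff, sfB_iff]
  constructor
  · rintro ⟨h1, h2, h3, h4⟩
    exact ⟨h1, ⟨h2, (dgB_iff h1).1 h3⟩, h4⟩
  · rintro ⟨h1, h2, h4⟩
    exact ⟨h1, h2.nl, (dgB_iff h1).2 h2.le, h4⟩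

theorem mem_subs {E : List Ed} {k : ℕ} {S : List Ed} : S ∈ subs E k ↔ S.length ≤ k ∧ ∀ e ∈ S, e ∈ E := by
  induction k generalizing S with
  | zero =>
    simp only [subs, List.mem_singleton]
    constructor
    · rintro rfl; simp
    · rintro ⟨h, _⟩; exact List.length_eq_zero_iff.1 (Nat.le_zero.1 h)
  | succ k ih =>
    simp only [subs, List.mem_append, ih, List.mem_flatMap, List.mem_map]
    constructor
    · rintro (⟨h1, h2⟩ | ⟨T, ⟨h1, h2⟩, e, he, rfl⟩)
      · exact ⟨by omega, h2⟩
      · refine ⟨by simpa using h1, ?_⟩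
        intro f hf
        rcases List.mem_cons.1 hf with rfl | hf
        · exact he
        · exact h2 f hf
    · rintro ⟨h1, h2⟩
      cases S with
      | nil => exact Or.inl ⟨Nat.zero_le _, h2⟩
      | cons e S =>
        right
        exact ⟨S, ⟨by simpa using h1, fun f hf => h2 f (List.mem_cons_of_mem _ hf)⟩, e, h2 e List.mem_cons_self, rfl⟩

/-- representatives of a subset -/
theorem exists_rep {E : List Ed} (z : Finset (Sym2 ℕ)) (hz : z ⊆ fs E) :
    ∃ S : List Ed, (∀ e ∈ S, e ∈ E) ∧ WF S ∧ fs S = z ∧ S.length = #z := by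
  induction z using Finset.induction_on with
  | empty => exact ⟨[], by simp, WF.nil, rfl, rfl⟩
  | insert x z hx ih =>
    obtain ⟨S, h1, h2, h3, h4⟩ := ih fun y hy => hz (Finset.mem_insert_of_mem hy)
    obtain ⟨e, he, rfl⟩ := mem_fs.1 (hz (Finset.mem_insert_self _ _))
    refine ⟨e :: S, ?_, ?_, ?_, ?_⟩
    · intro f hf
      rcases List.mem_cons.1 hf with rfl | hf
      · exact he
      · exact h1 f hf
    · show ((e :: S).map fe).Nodup
      rw [List.map_cons, List.nodup_cons]
      refine ⟨fun h => hx ?_, h2⟩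
      rw [← h3, fs, List.mem_toFinset]
      exact h
    · rw [fs_cons, h3]
    · rw [List.length_cons, h4, Finset.card_insert_of_notMem hx]

theorem pmem_sound {p : Pc} {k : List ℕ} (h : pmem p k = true) : kvec k ∈ pcS p := by
  unfold pmem at h
  rw [Bool.or_eq_true, Bool.and_eq_true, List.any_eq_true, List.any_eq_true] at h
  rcases h with ⟨l, hl, h1⟩ | ⟨h0, S, hS, h1⟩
  · exact Or.inl ⟨l, hl, (eqK_iff _ _).1 h1⟩
  · rw [Bool.and_eq_true, okS_iff] at h1
    refine Or.inr ⟨h0, fs S, ?_, h1.1.2.1, h1.1.2.2, ?_⟩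
    · intro x hx
      obtain ⟨e, he, rfl⟩ := mem_fs.1 hx
      exact fe_mem_fs ((mem_subs.1 hS).2 e he)
    · rw [(eqK_iff _ _).1 h1.2, kvec_ends2 h1.1.1 h1.1.2.1.nl]

theorem pmem_complete {p : Pc} (hc : Card4 p) {k : List ℕ} (h : kvec k ∈ pcS p) : pmem p k = true := by
  unfold pmem
  rw [Bool.or_eq_true, Bool.and_eq_true, List.any_eq_true, List.any_eq_true]
  rcases h with ⟨l, hl, h1⟩ | ⟨h0, z, hz, h1, h2, h3⟩
  · exact Or.inl ⟨l, hl, (eqK_iff _ _).2 h1⟩
  · obtain ⟨S, k1, k2, k3, k4⟩ := exists_rep z hz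
    refine Or.inr ⟨h0, S, mem_subs.2 ⟨by rw [k4]; exact hc h0 z hz h1 h2, k1⟩, ?_⟩
    rw [Bool.and_eq_true, okS_iff, eqK_iff, h3, ← k3]
    rw [← k3] at h1 h2
    exact ⟨⟨k2, h1, h2⟩, (kvec_ends2 k2 h1.nl).symm⟩

theorem pmem_iff {p : Pc} (hc : Card4 p) (k : List ℕ) : pmem p k = true ↔ kvec k ∈ pcS p :=
  ⟨pmem_sound, pmem_complete hc⟩

/-! ### clusters -/

/-- cluster: `(true, x, y, L)` is `K2(x,y;L)`, `(false, _, _, L)` is the complete graph on `L` -/
abbrev Cl : Type := Bool × ℕ × ℕ × List ℕ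

/-- the pairs `i < j` in the list -/
def prs (L : List ℕ) : List Ed := (prd L L).filter fun e => decide (e.1 < e.2)

/-- the edges of the cluster -/
def clE (c : Cl) : List Ed :=
  bif c.1 then (c.2.2.2.map fun l => (c.2.1, l)) ++ (c.2.2.2.map fun l => (c.2.2.1, l)) else prs c.2.2.2

/-- non-degenerate cluster -/
structure ClOK (c : Cl) : Prop where
  nd : c.2.2.2.Nodup
  k2 : c.1 = true → c.2.1 ≠ c.2.2.1 ∧ c.2.1 ∉ c.2.2.2 ∧ c.2.2.1 ∉ c.2.2.2 ∧ 2 ≤ c.2.2.2.length
  k4 : c.1 = false → c.2.2.2.length = 4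

/-- the cluster as in TFC -/
def cluF (c : Cl) : Clu ℕ := bif c.1 then .k2 c.2.1 c.2.2.1 c.2.2.2.toFinset else .k4 c.2.2.2.toFinset

theorem cluF_valid {c : Cl} (h : ClOK c) : (cluF c).Valid := by
  obtain ⟨b, x, y, L⟩ := c
  cases b with
  | true =>
    obtain ⟨h1, h2, h3, h4⟩ := h.k2 rfl
    have := h.nd
    simp only at h1 h2 h3 h4 this
    refine ⟨h1, by simpa using h2, by simpa using h3, ?_⟩
    rw [List.toFinset_card_of_nodup this]
    exact h4
  | false =>
    have h4 := h.k4 rfl
    have := h.nd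
    simp only at h4 this
    show #(L.toFinset) = 4
    rw [List.toFinset_card_of_nodup this, h4]

theorem fs_clE (c : Cl) : fs (clE c) = (cluF c).edges := by
  obtain ⟨b, x, y, L⟩ := c
  cases b with
  | true =>
    ext e
    simp only [clE, cluF, cond_true, Clu.edges, mem_fs, List.mem_append, List.mem_map, Finset.mem_union,
      Finset.mem_image, List.mem_toFinset]
    constructor
    · rintro ⟨f, ⟨l, hl, rfl⟩ | ⟨l, hl, rfl⟩, rfl⟩
      · exact Or.inl ⟨l, hl, rfl⟩
      · exact Or.inr ⟨l, hl, rfl⟩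
    · rintro (⟨l, hl, rfl⟩ | ⟨l, hl, rfl⟩)
      · exact ⟨_, Or.inl ⟨l, hl, rfl⟩, rfl⟩
      · exact ⟨_, Or.inr ⟨l, hl, rfl⟩, rfl⟩
  | false =>
    ext e
    induction e using Sym2.ind with
    | _ u v =>
      simp only [clE, cluF, cond_false, Clu.edges, mem_fs, prs, List.mem_filter, mem_prd, decide_eq_true_eq,
        Finset.mem_filter, Finset.mk_mem_sym2_iff, List.mem_toFinset, Sym2.mk_isDiag_iff, fe, Sym2.eq_iff]
      constructor
      · rintro ⟨⟨a, b⟩, ⟨⟨h1, h2⟩, h3⟩, ⟨h4, h5⟩ | ⟨h4, h5⟩⟩
        · simp only at h1 h2 h3 h4 h5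
          subst h4 h5
          exact ⟨⟨h1, h2⟩, by omega⟩
        · simp only at h1 h2 h3 h4 h5
          subst h4 h5
          exact ⟨⟨h2, h1⟩, by omega⟩
      · rintro ⟨⟨h1, h2⟩, h3⟩
        rcases lt_or_gt_of_ne h3 with h | h
        · exact ⟨(u, v), ⟨⟨h1, h2⟩, h⟩, Or.inl ⟨rfl, rfl⟩⟩
        · exact ⟨(v, u), ⟨⟨h2, h1⟩, h⟩, Or.inr ⟨rfl, rfl⟩⟩

theorem wf_clE {c : Cl} (h : ClOK c) : WF (clE c) := by
  obtain ⟨b, x, y, L⟩ := c
  have hn := h.nd
  cases b with
  | true =>
    obtain ⟨h1, h2, h3, h4⟩ := h.k2 rfl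
    simp only at h1 h2 h3 h4 hn
    simp only [clE, cond_true, WF, List.map_append, List.map_map]
    rw [List.nodup_append']
    refine ⟨hn.map_on ?_, hn.map_on ?_, ?_⟩
    · intro a ha b hb hab
      simp only [Function.comp, fe, Sym2.eq_iff] at hab
      rcases hab with ⟨_, h⟩ | ⟨h, h'⟩
      · exact h
      · rw [h', h]
    · intro a ha b hb hab
      simp only [Function.comp, fe, Sym2.eq_iff] at hab
      rcases hab with ⟨_, h⟩ | ⟨h, h'⟩
      · exact h
      · rw [h', h]
    · intro e he he'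
      obtain ⟨a, ha, rfl⟩ := List.mem_map.1 he
      obtain ⟨b, hb, hab⟩ := List.mem_map.1 he'
      simp only [Function.comp, fe, Sym2.eq_iff] at hab
      rcases hab with ⟨h, _⟩ | ⟨h, h'⟩
      · exact h1 h.symm
      · exact h3 (by rw [h]; exact ha)
  | false =>
    simp only at hn
    simp only [clE, cond_false, WF]
    have hp : (prd L L).Nodup := by
      have : prd L L = L.product L := rfl
      rw [this]
      exact hn.product hn
    refine (hp.filter _).map_on ?_
    intro e he f hf hef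
    rw [List.mem_filter, decide_eq_true_eq] at he hf
    obtain ⟨a, b⟩ := e
    obtain ⟨a', b'⟩ := f
    simp only [fe, Sym2.eq_iff] at hef
    have h1 := he.2
    have h2 := hf.2
    simp only at h1 h2
    rcases hef with ⟨rfl, rfl⟩ | ⟨rfl, rfl⟩
    · rfl
    · omega

/-- the exact piece of a cluster -/
def exP (c : Cl) : Pc := (true, clE c, [])

/-- the additional vectors of the relaxed piece; choice `(w, c)` for `K2`, `(0, _)` or `(1, _)` for `K4` -/
def digs (c : Cl) (ch : ℕ × ℕ) : List (List ℕ) :=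
  bif c.1 then (c.2.2.2.filter fun l => !decide (l = ch.2)).map fun l => [ch.1, ch.1, l, l]
  else bif decide (ch.1 = 0) then (c.2.2.2.map fun i => [i, i]) ++ ((prs c.2.2.2).map fun e => [e.1, e.1, e.2, e.2])
  else [c.2.2.2.flatMap fun i => [i, i]]

/-- the relaxed piece of a cluster -/
def rxP (c : Cl) (ch : ℕ × ℕ) : Pc := (true, clE c, digs c ch)

/-- the units of the relaxed piece -/
def rxU (c : Cl) (ch : ℕ × ℕ) : List (List ℕ × List ℕ) :=
  bif c.1 then ((c.2.2.2.filter fun l => !decide (l = ch.2)).map fun l => ([l], [c.2.1, c.2.2.1])) ++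
    [([ch.1], c.2.2.2), ([if ch.1 = c.2.1 then c.2.2.1 else c.2.1], [ch.2])]
  else bif decide (ch.1 = 0) then [(c.2.2.2, c.2.2.2), (c.2.2.2, c.2.2.2), (c.2.2.2, c.2.2.2)]
  else (prs c.2.2.2).map fun e => ([e.1], [e.2])

/-- a legal choice -/
def ChOK (c : Cl) (ch : ℕ × ℕ) : Prop := c.1 = true → (ch.1 = c.2.1 ∨ ch.1 = c.2.2.1) ∧ ch.2 ∈ c.2.2.2

/-! ### polynomial time -/

section pt

variable {ι : Type} [DEnc ι]

theorem pt_count {k : ι → List ℕ} {v : ι → ℕ} (hk : PT k) (hv : PT v) : PT (fun x => (k x).count (v x)) := by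
  have h := PT.length (PT.filter hk (p := fun y : ι × ℕ => decide (y.2 = v y.1)) (PT.neq PT.snd (hv.comp PT.fst)))
  refine h.congr fun x => ?_
  rw [List.count_eq_length_filter]
  congr 1

theorem pt_eqK {k l : ι → List ℕ} (hk : PT k) (hl : PT l) : PT (fun x => eqK (k x) (l x)) := by
  unfold eqK
  exact PT.all (PT.append hk hl) (p := fun y : ι × ℕ => decide ((k y.1).count y.2 = (l y.1).count y.2))
    (PT.neq (pt_count (hk.comp PT.fst) PT.snd) (pt_count (hl.comp PT.fst) PT.snd))

theorem pt_ends2 {S : ι → List Ed} (hS : PT S) : PT (fun x => ends2 (S x)) :=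
  PT.flatMap hS (g := fun y : ι × Ed => [y.2.1, y.2.2]) (PT.cons PT.snd.p1 (PT.cons PT.snd.p2 (PT.const [])))

theorem pt_prd {α β : Type} [DEnc α] [DEnc β] {l : ι → List α} {m : ι → List β} (hl : PT l) (hm : PT m) :
    PT (fun x => prd (l x) (m x)) :=
  PT.flatMap hl (g := fun y : ι × α => (m y.1).map fun b => (y.2, b))
    (PT.map (hm.comp PT.fst) (g := fun z : (ι × α) × β => (z.1.2, z.2)) (PT.pair PT.fst.p2 PT.snd))

theorem pt_okS {S : ι → List Ed} (hS : PT S) : PT (fun x => okS (S x)) := by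
  have he := pt_ends2 hS
  unfold okS
  refine PT.band ?_ (PT.band ?_ (PT.band ?_ ?_))
  · exact PT.all hS (p := fun y : ι × Ed => decide (((S y.1).filter fun f => eqE y.2 f).length ≤ 1))
      (PT.nle (PT.length (PT.filter (hS.comp PT.fst) (p := fun z : (ι × Ed) × Ed => eqE z.1.2 z.2)
        (pt_eqE PT.fst.p2 PT.snd))) (PT.const 1))
  · exact PT.all hS (p := fun y : ι × Ed => !decide (y.2.1 = y.2.2)) (PT.bnot (PT.neq PT.snd.p1 PT.snd.p2))
  · exact PT.all he (p := fun y : ι × ℕ => decide (degL (S y.1) y.2 ≤ 2))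
      (PT.nle (pt_degL (hS.comp PT.fst) PT.snd) (PT.const 2))
  · exact PT.all (pt_prd he (pt_prd he (pt_prd he he)))
      (p := fun y : ι × Sq4 => decide (y.2.1 = y.2.2.2.1) || (decide (y.2.2.1 = y.2.2.2.2) || !sqIn (S y.1) y.2))
      (PT.bor (PT.neq PT.snd.p1 PT.snd.p2.p2.p1) (PT.bor (PT.neq PT.snd.p2.p1 PT.snd.p2.p2.p2)
        (PT.bnot (pt_sqIn (hS.comp PT.fst) PT.snd))))

theorem pt_subs {E : ι → List Ed} (hE : PT E) (k : ℕ) : PT (fun x => subs (E x) k) := by
  induction k with
  | zero => exact PT.const [[]]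
  | succ k ih =>
    exact PT.append ih (PT.flatMap ih (g := fun y : ι × List Ed => (E y.1).map fun e => e :: y.2)
      (PT.map (hE.comp PT.fst) (g := fun z : (ι × List Ed) × Ed => z.2 :: z.1.2) (PT.cons PT.snd PT.fst.p2)))

theorem pt_pmem {p : ι → Pc} {k : ι → List ℕ} (hp : PT p) (hk : PT k) : PT (fun x => pmem (p x) (k x)) := by
  unfold pmem
  refine PT.bor ?_ (PT.band (PT.p1 hp) ?_)
  · exact PT.any (PT.p2 (PT.p2 hp)) (p := fun y : ι × List ℕ => eqK (k y.1) y.2)
      (pt_eqK (hk.comp PT.fst) PT.snd)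
  · exact PT.any (pt_subs (PT.p1 (PT.p2 hp)) 4)
      (p := fun y : ι × List Ed => okS y.2 && eqK (k y.1) (ends2 y.2))
      (PT.band (pt_okS PT.snd) (pt_eqK (hk.comp PT.fst) (pt_ends2 PT.snd)))

theorem pt_prs {L : ι → List ℕ} (hL : PT L) : PT (fun x => prs (L x)) :=
  PT.filter (pt_prd hL hL) (p := fun y : ι × Ed => decide (y.2.1 < y.2.2)) (PT.nlt PT.snd.p1 PT.snd.p2)

theorem pt_clE {c : ι → Cl} (hc : PT c) : PT (fun x => clE (c x)) := by
  have hL := PT.p2 (PT.p2 (PT.p2 hc))
  have hx := PT.p1 (PT.p2 hc)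
  have hy := PT.p1 (PT.p2 (PT.p2 hc))
  unfold clE
  exact PT.cond (PT.p1 hc) (PT.append
    (PT.map hL (g := fun y : ι × ℕ => ((c y.1).2.1, y.2)) (PT.pair (hx.comp PT.fst) PT.snd))
    (PT.map hL (g := fun y : ι × ℕ => ((c y.1).2.2.1, y.2)) (PT.pair (hy.comp PT.fst) PT.snd))) (pt_prs hL)

theorem pt_exP {c : ι → Cl} (hc : PT c) : PT (fun x => exP (c x)) :=
  PT.pair (PT.const true) (PT.pair (pt_clE hc) (PT.const []))

theorem pt_digs {c : ι → Cl} {ch : ι → ℕ × ℕ} (hc : PT c) (hh : PT ch) : PT (fun x => digs (c x) (ch x)) := by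
  have hL := PT.p2 (PT.p2 (PT.p2 hc))
  have h1 := PT.p1 hh
  have h2 := PT.p2 hh
  unfold digs
  refine PT.cond (PT.p1 hc) ?_ (PT.cond (PT.neq h1 (PT.const 0)) (PT.append ?_ ?_) ?_)
  · have hf := PT.filter hL (p := fun y : ι × ℕ => !decide (y.2 = (ch y.1).2))
      (PT.bnot (PT.neq PT.snd (h2.comp PT.fst)))
    exact PT.map hf (g := fun y : ι × ℕ => [(ch y.1).1, (ch y.1).1, y.2, y.2])
      (PT.cons (h1.comp PT.fst) (PT.cons (h1.comp PT.fst) (PT.cons PT.snd (PT.cons PT.snd (PT.const [])))))
  · exact PT.map hL (g := fun y : ι × ℕ => [y.2, y.2]) (PT.cons PT.snd (PT.cons PT.snd (PT.const [])))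
  · exact PT.map (pt_prs hL) (g := fun y : ι × Ed => [y.2.1, y.2.1, y.2.2, y.2.2])
      (PT.cons PT.snd.p1 (PT.cons PT.snd.p1 (PT.cons PT.snd.p2 (PT.cons PT.snd.p2 (PT.const [])))))
  · exact PT.cons (PT.flatMap hL (g := fun y : ι × ℕ => [y.2, y.2])
      (PT.cons PT.snd (PT.cons PT.snd (PT.const [])))) (PT.const [])

theorem pt_rxP {c : ι → Cl} {ch : ι → ℕ × ℕ} (hc : PT c) (hh : PT ch) : PT (fun x => rxP (c x) (ch x)) :=
  PT.pair (PT.const true) (PT.pair (pt_clE hc) (pt_digs hc hh))

theorem pt_rxU {c : ι → Cl} {ch : ι → ℕ × ℕ} (hc : PT c) (hh : PT ch) : PT (fun x => rxU (c x) (ch x)) := by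
  have hL := PT.p2 (PT.p2 (PT.p2 hc))
  have hx := PT.p1 (PT.p2 hc)
  have hy := PT.p1 (PT.p2 (PT.p2 hc))
  have h1 := PT.p1 hh
  have h2 := PT.p2 hh
  have c0 : ∀ (α : Type) [DEnc α] (a : α), PT (fun _ : ι => a) := fun α _ a => PT.const a
  unfold rxU
  refine PT.cond (PT.p1 hc) (PT.append ?_ ?_) (PT.cond (PT.neq h1 (PT.const 0)) ?_ ?_)
  · have hf := PT.filter hL (p := fun y : ι × ℕ => !decide (y.2 = (ch y.1).2))
      (PT.bnot (PT.neq PT.snd (h2.comp PT.fst)))
    exact PT.map hf (g := fun y : ι × ℕ => ([y.2], [(c y.1).2.1, (c y.1).2.2.1]))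
      (PT.pair (PT.cons PT.snd (PT.const []))
        (PT.cons (hx.comp PT.fst) (PT.cons (hy.comp PT.fst) (PT.const []))))
  · exact PT.cons (PT.pair (PT.cons h1 (PT.const [])) hL) (PT.cons (PT.pair
      (PT.cons (PT.ite (PT.neq h1 hx) hy hx) (PT.const [])) (PT.cons h2 (PT.const []))) (PT.const []))
  · exact PT.cons (PT.pair hL hL) (PT.cons (PT.pair hL hL) (PT.cons (PT.pair hL hL) (PT.const [])))
  · exact PT.map (pt_prs hL) (g := fun y : ι × Ed => ([y.2.1], [y.2.2]))
      (PT.pair (PT.cons PT.snd.p1 (PT.const [])) (PT.cons PT.snd.p2 (PT.const [])))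

end pt

end Pool.Agent.PF4

end

section -- file PF4/Cfg

/-!
# Covers and configurations

The pieces of the solver for a list `C` of edge-disjoint clusters: the clusters, the plain edges, the slack units `{v, n}`
(`2 - g v` for each vertex `v < n`) and `n` loops at the slack vertex `n`. `cfgM` turns a 2-matching into a list of vectors,
one for each piece; `decM` turns a list of vectors of the exact pieces into a 2-matching.
-/

set_option autoImplicit false

namespace Pool.Agent.PF4

open Finset Pool.Agent.TFC Pool.Agent.Lib.helper60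

/-! ### the pieces -/

/-- the plain edges -/
def plE (x : Ins) (C : List Cl) : List Ed := rest x.2 (C.flatMap clE)

/-- piece of a plain edge -/
def edP (e : Ed) : Pc := (true, [e], [])

/-- the piece `{0, e_u + e_v}` -/
def unP (u v : ℕ) : Pc := (true, [], [[u, v]])

/-- the slack units -/
def slJ (n : ℕ) (g : List ℕ) : List (ℕ × ℕ) :=
  (List.range n).flatMap fun v => (List.range (2 - g.getD v 0)).map fun j => (v, j)

/-- all pieces; `φ` gives the pieces of the clusters -/
def pcs (φ : Cl → Pc) (x : Ins) (g : List ℕ) (C : List Cl) : List Pc :=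
  (C.map φ ++ (plE x C).map edP) ++ ((slJ x.1 g).map (fun p => unP p.1 x.1) ++
    (List.range x.1).map fun _ => unP x.1 x.1)

/-- the total -/
def ttl (ks : List (List ℕ)) (v : ℕ) : ℕ := (ks.map fun k => k.count v).sum

/-- number of the slack units used by `M` -/
def hsl (x : Ins) (g : List ℕ) (M : List Ed) : ℕ :=
  ((slJ x.1 g).filter fun p => decide (p.2 < 2 - degL M p.1)).length

/-- the configuration of the 2-matching `M` -/
def cfgM (x : Ins) (g : List ℕ) (C : List Cl) (M : List Ed) (ρ : ℕ) : List (List ℕ) :=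
  (C.map (fun c => ends2 (norm (clE c) M)) ++
    (plE x C).map (fun e => ends2 (bif hasE M e then [e] else []))) ++
  ((slJ x.1 g).map (fun p => bif decide (p.2 < 2 - degL M p.1) then [p.1, x.1] else []) ++
    (List.range x.1).map fun j => bif decide (hsl x g M + 2 * j + 2 + ρ ≤ 2 * x.1) then [x.1, x.1] else [])

/-- a 2-matching inside the piece with the vector `k` -/
def rlz (p : Pc) (k : List ℕ) : List Ed :=
  findD (fun S => okS S && eqK k (ends2 S)) (subs p.2.1 4) []

/-- the 2-matching of a configuration -/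
def decM (x : Ins) (C : List Cl) (ks : List (List ℕ)) : List Ed :=
  (List.range (C.map exP ++ (plE x C).map edP).length).flatMap fun i =>
    rlz ((C.map exP ++ (plE x C).map edP).getD i (false, [], [])) (ks.getD i [])

/-- the clusters -/
structure ClsOK (x : Ins) (C : List Cl) : Prop where
  ok : ∀ c ∈ C, ClOK c
  dj : C.Pairwise fun c c' => Disjoint (fs (clE c)) (fs (clE c'))
  sub : ∀ c ∈ C, fs (clE c) ⊆ fs x.2
  c4 : ∀ c ∈ C, Card4 (exP c)

/-! ### totals -/

theorem ttl_append (k l : List (List ℕ)) (v : ℕ) : ttl (k ++ l) v = ttl k v + ttl l v := by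
  simp [ttl]

theorem ttl_cons (k : List ℕ) (l : List (List ℕ)) (v : ℕ) : ttl (k :: l) v = k.count v + ttl l v := by
  simp [ttl]

theorem norm_append (S T M : List Ed) : norm (S ++ T) M = norm S M ++ norm T M := by
  simp [norm]

theorem NoLoop.mono {z w : Finset (Sym2 ℕ)} (h : NoLoop w) (hz : z ⊆ w) : NoLoop z := fun e he => h e (hz he)

theorem fs_norm_sub (U M : List Ed) : fs (norm U M) ⊆ fs M := by
  rw [fs_norm]; exact Finset.inter_subset_right

theorem ttl_norm {M : List Ed} (hM : NoLoop (fs M)) (C : List Cl) (v : ℕ) :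
    ttl (C.map fun c => ends2 (norm (clE c) M)) v = degL (norm (C.flatMap clE) M) v := by
  induction C with
  | nil => rfl
  | cons c C ih =>
    rw [List.map_cons, ttl_cons, ih, List.flatMap_cons, norm_append, degL_append,
      count_ends2 (hM.mono (fs_norm_sub _ _))]

theorem ttl_plain {M : List Ed} (hM : NoLoop (fs M)) (l : List Ed) (v : ℕ) :
    ttl (l.map fun e => ends2 (bif hasE M e then [e] else [])) v = degL (norm l M) v := by
  induction l with
  | nil => rfl
  | cons e l ih =>
    rw [List.map_cons, ttl_cons, ih]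
    cases h : hasE M e with
    | true =>
      have h1 : norm (e :: l) M = [e] ++ norm l M := by simp [norm, h]
      rw [h1, degL_append, cond_true, count_ends2]
      refine hM.mono ?_
      intro y hy
      rw [mem_fs] at hy
      obtain ⟨f, hf, rfl⟩ := hy
      rw [List.mem_singleton] at hf
      subst hf
      exact (hasE_iff _ _).1 h
    | false =>
      have h1 : norm (e :: l) M = norm l M := by simp [norm, h]
      rw [h1, cond_false]
      simp [ends2]

theorem fs_flat (x : Ins) (C : List Cl) (hC : ∀ c ∈ C, fs (clE c) ⊆ fs x.2) :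
    fs (C.flatMap clE ++ plE x C) = fs x.2 := by
  have h : fs (C.flatMap clE) ⊆ fs x.2 := by
    intro y hy
    rw [mem_fs] at hy
    obtain ⟨e, he, rfl⟩ := hy
    obtain ⟨c, hc, he⟩ := List.mem_flatMap.1 he
    exact hC c hc (fe_mem_fs he)
  rw [plE, fs_append, fs_rest, Finset.union_sdiff_of_subset h]

theorem wf_flat {x : Ins} {C : List Cl} (hx : WF x.2) (hC : ∀ c ∈ C, ClOK c)
    (hd : C.Pairwise fun c c' => Disjoint (fs (clE c)) (fs (clE c'))) : WF (C.flatMap clE ++ plE x C) := by
  have h1 : WF (C.flatMap clE) := by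
    clear hx
    induction C with
    | nil => exact WF.nil
    | cons c C ih =>
      rw [List.pairwise_cons] at hd
      rw [List.flatMap_cons]
      show ((clE c ++ C.flatMap clE).map fe).Nodup
      rw [List.map_append, List.nodup_append']
      refine ⟨wf_clE (hC c List.mem_cons_self), ih (fun c hc => hC c (List.mem_cons_of_mem _ hc)) hd.2, ?_⟩
      intro y h1 h2
      obtain ⟨f, hf, hfy⟩ := List.mem_map.1 h2
      obtain ⟨c', hc', hf'⟩ := List.mem_flatMap.1 hf
      have h3 := hd.1 c' hc'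
      rw [Finset.disjoint_left] at h3
      refine h3 (a := y) ?_ ?_
      · rw [fs, List.mem_toFinset]; exact h1
      · rw [← hfy]; exact fe_mem_fs hf'
  exact h1.uni hx

/-- the edges of `M` are split between the clusters and the plain edges -/
theorem ttl_edges {x : Ins} (hx : InsWF x) {C : List Cl} (hC : ClsOK x C) {M : List Ed} (hM : MG x M) (v : ℕ) :
    ttl (C.map (fun c => ends2 (norm (clE c) M)) ++
      (plE x C).map (fun e => ends2 (bif hasE M e then [e] else []))) v = degL M v := by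
  rw [ttl_append, ttl_norm hM.m2.nl, ttl_plain hM.m2.nl, ← degL_append, ← norm_append]
  have h1 := fs_flat x C hC.sub
  have h2 := wf_flat hx.wf hC.ok hC.dj
  rw [degL_eq (h2.norm M), degL_eq hM.wf, fs_norm, h1, Finset.inter_eq_right.2 hM.sub]

theorem degL_out {x : Ins} (hx : InsWF x) {M : List Ed} (hM : MG x M) {v : ℕ} (hv : x.1 ≤ v) : degL M v = 0 := by
  rw [degL_eq hM.wf, dg, Finset.card_eq_zero, Finset.filter_eq_empty_iff]
  intro e he h
  have he := hM.sub he
  have := hx.vlt he h
  omega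

theorem sumL (n : ℕ) (f : ℕ → ℕ) : ((List.range n).map f).sum = ∑ i ∈ Finset.range n, f i := rfl

theorem sum_count {n : ℕ} (l : List ℕ) (h : ∀ a ∈ l, a < n) :
    ((List.range n).map fun v => l.count v).sum = l.length := by
  rw [sumL]
  induction l with
  | nil => simp
  | cons a l ih =>
    have h1 := ih fun b hb => h b (List.mem_cons_of_mem _ hb)
    simp only [List.count_cons, Finset.sum_add_distrib, h1, List.length_cons]
    congr 1
    have h2 : ∀ i, (if (a == i) = true then 1 else 0) = if a = i then 1 else 0 := by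
      intro i; simp
    simp only [h2]
    rw [Finset.sum_ite_eq, if_pos (Finset.mem_range.2 (h a List.mem_cons_self))]

theorem len_ends2 (M : List Ed) : (ends2 M).length = 2 * M.length := by
  induction M with
  | nil => rfl
  | cons e M ih =>
    have h : ends2 (e :: M) = [e.1, e.2] ++ ends2 M := rfl
    rw [h, List.length_append, ih, List.length_cons]
    simp
    omega

theorem hand {x : Ins} (hx : InsWF x) {M : List Ed} (hM : MG x M) :
    ((List.range x.1).map fun v => degL M v).sum = 2 * M.length := by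
  rw [← len_ends2, ← sum_count (n := x.1) (ends2 M)]
  · congr 1
    refine List.map_congr_left ?_
    intro v _
    exact (count_ends2 hM.m2.nl v).symm
  · intro a ha
    obtain ⟨e, he, hae⟩ := mem_ends2.1 ha
    exact hx.vlt (hM.sub he) hae

/-! ### slack units -/

theorem mem_slJ {n : ℕ} {g : List ℕ} {p : ℕ × ℕ} : p ∈ slJ n g ↔ p.1 < n ∧ p.2 < 2 - g.getD p.1 0 := by
  obtain ⟨a, b⟩ := p
  simp only [slJ, List.mem_flatMap, List.mem_range, List.mem_map, Prod.mk.injEq]
  constructor
  · rintro ⟨v, hv, j, hj, rfl, rfl⟩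
    exact ⟨hv, hj⟩
  · rintro ⟨h1, h2⟩
    exact ⟨a, h1, b, h2, rfl, rfl⟩

/-- a sum over the slack units -/
theorem sum_slJ (n : ℕ) (g : List ℕ) (f : ℕ × ℕ → ℕ) :
    ((slJ n g).map f).sum = ∑ v ∈ Finset.range n, ∑ j ∈ Finset.range (2 - g.getD v 0), f (v, j) := by
  rw [slJ, List.map_flatMap, List.flatMap_def, List.sum_flatten, List.map_map, sumL]
  refine Finset.sum_congr rfl fun v _ => ?_
  simp only [Function.comp, List.map_map]
  rfl

theorem card_lt (a b : ℕ) : (∑ j ∈ Finset.range a, if j < b then 1 else 0) = min a b := by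
  induction a with
  | zero => simp
  | succ a ih =>
    rw [Finset.sum_range_succ, ih]
    split_ifs with h
    · omega
    · omega

theorem length_filter_sum {α : Type} (l : List α) (p : α → Bool) :
    (l.filter p).length = (l.map fun a => if p a = true then 1 else 0).sum := by
  induction l with
  | nil => rfl
  | cons a l ih =>
    rw [List.filter_cons, List.map_cons, List.sum_cons, ← ih]
    split_ifs
    · rw [List.length_cons]; omega
    · omega

theorem hsl_eq (x : Ins) (g : List ℕ) (M : List Ed) :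
    hsl x g M = ∑ v ∈ Finset.range x.1, min (2 - g.getD v 0) (2 - degL M v) := by
  rw [hsl, length_filter_sum, sum_slJ]
  refine Finset.sum_congr rfl fun v _ => ?_
  rw [← card_lt]
  simp

theorem ttl_slack (x : Ins) (g : List ℕ) (M : List Ed) (v : ℕ) :
    ttl ((slJ x.1 g).map fun p => bif decide (p.2 < 2 - degL M p.1) then [p.1, x.1] else []) v =
      if v < x.1 then min (2 - g.getD v 0) (2 - degL M v) else if v = x.1 then hsl x g M else 0 := by
  rw [ttl, List.map_map, sum_slJ]
  have h1 : ∀ u ∈ Finset.range x.1, (∑ j ∈ Finset.range (2 - g.getD u 0),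
      ((fun k => k.count v) ∘ fun p : ℕ × ℕ => bif decide (p.2 < 2 - degL M p.1) then [p.1, x.1] else []) (u, j)) =
      (if u = v then min (2 - g.getD u 0) (2 - degL M u) else 0) +
        (if v = x.1 then min (2 - g.getD u 0) (2 - degL M u) else 0) := by
    intro u hu
    rw [Finset.mem_range] at hu
    rw [← card_lt]
    have h2 : ∀ j, ((fun k => k.count v) ∘ fun p : ℕ × ℕ => bif decide (p.2 < 2 - degL M p.1) then [p.1, x.1]
        else []) (u, j) = (if u = v then (if j < 2 - degL M u then 1 else 0) else 0) +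
        (if v = x.1 then (if j < 2 - degL M u then 1 else 0) else 0) := by
      intro j
      simp only [Function.comp]
      by_cases h3 : j < 2 - degL M u
      · simp only [h3, decide_true, cond_true, List.count_cons, List.count_nil, beq_iff_eq, if_true]
        by_cases h4 : u = v
        · have h5 : x.1 ≠ v := by omega
          simp [h4, h5, Ne.symm h5]
        · by_cases h5 : x.1 = v
          · simp [h4, h5]
          · simp [h4, h5, Ne.symm h5]
      · simp only [h3, decide_false, cond_false, List.count_nil, if_false, ite_self]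
    simp only [h2, Finset.sum_add_distrib]
    congr 1
    · split_ifs
      · rfl
      · simp
    · split_ifs
      · rfl
      · simp
  rw [Finset.sum_congr rfl h1, Finset.sum_add_distrib, Finset.sum_ite_eq', hsl_eq]
  by_cases h3 : v < x.1
  · have h4 : v ≠ x.1 := by omega
    rw [if_pos (Finset.mem_range.2 h3), if_pos h3]
    simp [h4]
  · rw [if_neg (by simpa using h3), if_neg h3, zero_add]
    by_cases h4 : v = x.1
    · simp [h4]
    · simp [h4]

theorem ttl_loops (n h ρ v : ℕ) :
    ttl ((List.range n).map fun j => bif decide (h + 2 * j + 2 + ρ ≤ 2 * n) then [n, n] else []) v =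
      if v = n then 2 * min n ((2 * n - ρ - h) / 2) else 0 := by
  rw [ttl, List.map_map, sumL]
  have h1 : ∀ j, ((fun k => k.count v) ∘ fun j => bif decide (h + 2 * j + 2 + ρ ≤ 2 * n) then [n, n] else []) j =
      if v = n then (if j < (2 * n - ρ - h) / 2 then 1 else 0) * 2 else 0 := by
    intro j
    simp only [Function.comp]
    by_cases h2 : h + 2 * j + 2 + ρ ≤ 2 * n
    · have h3 : j < (2 * n - ρ - h) / 2 := by omega
      simp only [h2, decide_true, cond_true, h3, if_true, List.count_cons, List.count_nil, beq_iff_eq]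
      by_cases h4 : v = n
      · simp [h4]
      · simp [h4, Ne.symm h4]
    · have h3 : ¬ j < (2 * n - ρ - h) / 2 := by omega
      simp only [h2, decide_false, cond_false, h3, if_false, List.count_nil, zero_mul, ite_self]
  simp only [h1]
  split_ifs
  · rw [← Finset.sum_mul, card_lt, mul_comm]
  · simp

theorem deg_le {x : Ins} {M : List Ed} (hM : MG x M) (v : ℕ) : degL M v ≤ 2 := by
  rw [degL_eq hM.wf]; exact hM.m2.le v

theorem par_cover {x : Ins} (hx : InsWF x) {g : List ℕ} {M : List Ed} (hM : MG x M)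
    (hc : Cov x.1 g (degL M)) : hsl x g M + 2 * M.length = 2 * x.1 := by
  rw [hsl_eq, ← hand hx hM, sumL, ← Finset.sum_add_distrib]
  have h1 : ∀ v ∈ Finset.range x.1, min (2 - g.getD v 0) (2 - degL M v) + degL M v = 2 := by
    intro v hv
    have h2 := hc v (Finset.mem_range.1 hv)
    have h3 := deg_le hM v
    omega
  rw [Finset.sum_congr rfl h1, Finset.sum_const, Finset.card_range, smul_eq_mul, mul_comm]

theorem par_near {x : Ins} (hx : InsWF x) {g : List ℕ} {M : List Ed} (hM : MG x M) {w : ℕ} (hw : w < x.1)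
    (hg : g.getD w 0 ≤ 2)
    (hc : ∀ u < x.1, g.getD u 0 ≤ degL M u + (if u = w then 1 else 0)) (hd : degL M w + 1 = g.getD w 0) :
    hsl x g M + 2 * M.length + 1 = 2 * x.1 := by
  have h1 : ∀ v ∈ Finset.range x.1, min (2 - g.getD v 0) (2 - degL M v) + degL M v + (if v = w then 1 else 0) = 2 := by
    intro v hv
    have h2 := hc v (Finset.mem_range.1 hv)
    have h3 := deg_le hM v
    split_ifs at h2 ⊢ with h
    · subst h; omega
    · omega
  have h2 := Finset.sum_congr rfl h1
  rw [Finset.sum_add_distrib, Finset.sum_add_distrib, Finset.sum_const, Finset.card_range, smul_eq_mul,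
    Finset.sum_ite_eq', if_pos (Finset.mem_range.2 hw), ← hsl_eq, ← sumL, hand hx hM] at h2
  omega

/-! ### the configuration of a 2-matching -/

/-- the target: `2` at the vertices, `2 n - ρ` at the slack vertex -/
def tgt (n ρ v : ℕ) : ℕ := if v < n then 2 else if v = n then 2 * n - ρ else 0

theorem totR (x : Ins) (g : List ℕ) (C : List Cl) (M : List Ed) (ρ v : ℕ) :
    ttl (cfgM x g C M ρ) v =
      ttl (C.map (fun c => ends2 (norm (clE c) M)) ++
        (plE x C).map (fun e => ends2 (bif hasE M e then [e] else []))) v +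
      ((if v < x.1 then min (2 - g.getD v 0) (2 - degL M v) else if v = x.1 then hsl x g M else 0) +
       (if v = x.1 then 2 * min x.1 ((2 * x.1 - ρ - hsl x g M) / 2) else 0)) := by
  rw [cfgM, ttl_append]
  congr 1
  rw [ttl_append, ttl_slack, ttl_loops]

/-- a cover gives a configuration with the target total -/
theorem ttl_cover {x : Ins} (hx : InsWF x) {C : List Cl} (hC : ClsOK x C) {g : List ℕ} {M : List Ed}
    (hM : MG x M) (hc : Cov x.1 g (degL M)) (v : ℕ) : ttl (cfgM x g C M 0) v = tgt x.1 0 v := by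
  rw [totR, ttl_edges hx hC hM, tgt]
  have h1 := par_cover hx hM hc
  have h2 := deg_le hM v
  by_cases hv : v < x.1
  · have h3 := hc v hv
    have h4 : v ≠ x.1 := by omega
    rw [if_pos hv, if_pos hv, if_neg h4]
    omega
  · rw [if_neg hv, if_neg hv, degL_out hx hM (by omega)]
    by_cases h4 : v = x.1
    · rw [if_pos h4, if_pos h4, if_pos h4]
      omega
    · rw [if_neg h4, if_neg h4, if_neg h4]

/-- a near cover gives a configuration whose total is the near target minus a unit vector -/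
theorem ttl_near {x : Ins} (hx : InsWF x) {C : List Cl} (hC : ClsOK x C) {g : List ℕ} {M : List Ed}
    (hM : MG x M) {w : ℕ} (hw : w < x.1) (hg : g.getD w 0 ≤ 2)
    (hc : ∀ u < x.1, g.getD u 0 ≤ degL M u + (if u = w then 1 else 0)) (hd : degL M w + 1 = g.getD w 0) (v : ℕ) :
    ttl (cfgM x g C M 1) v + (if v = w then 1 else 0) = tgt x.1 1 v := by
  rw [totR, ttl_edges hx hC hM, tgt]
  have h1 := par_near hx hM hw hg hc hd
  have h2 := deg_le hM v
  by_cases hv : v < x.1
  · have h3 := hc v hv
    have h4 : v ≠ x.1 := by omega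
    rw [if_pos hv, if_pos hv, if_neg h4]
    by_cases h5 : v = w
    · subst h5
      rw [if_pos rfl] at h3 ⊢
      omega
    · rw [if_neg h5] at h3 ⊢
      omega
  · have h5 : v ≠ w := by omega
    rw [if_neg hv, if_neg hv, degL_out hx hM (by omega), if_neg h5]
    by_cases h4 : v = x.1
    · rw [if_pos h4, if_pos h4, if_pos h4]
      omega
    · rw [if_neg h4, if_neg h4, if_neg h4]

theorem pmem_unP {u v : ℕ} {k : List ℕ} (h : pmem (unP u v) k = true) : kvec k = kvec [] ∨ kvec k = kvec [u, v] := by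
  rcases pmem_sound h with ⟨l, hl, e⟩ | ⟨_, z, hz, _, _, e⟩
  · rw [unP, List.mem_singleton] at hl
    rw [hl] at e
    exact Or.inr e
  · have : z = ∅ := Finset.subset_empty.1 hz
    left
    rw [e, this]
    funext v
    simp [dv, dg, kvec]

theorem pmem_unP_nil (u v : ℕ) : pmem (unP u v) [] = true := by
  unfold pmem
  rw [Bool.or_eq_true, Bool.and_eq_true, List.any_eq_true]
  refine Or.inr ⟨rfl, ?_⟩
  rw [List.any_eq_true]
  exact ⟨[], mem_subs.2 ⟨by simp, by simp⟩, by decide⟩

theorem pmem_unP_one (u v : ℕ) : pmem (unP u v) [u, v] = true := by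
  unfold pmem
  rw [Bool.or_eq_true, List.any_eq_true]
  exact Or.inl ⟨[u, v], List.mem_singleton.2 rfl, (eqK_iff _ _).2 rfl⟩

theorem forall2_map {α β γ : Type} {R : β → γ → Prop} {f : α → β} {h : α → γ} (l : List α)
    (hl : ∀ a ∈ l, R (f a) (h a)) : List.Forall₂ R (l.map f) (l.map h) := by
  induction l with
  | nil => exact List.Forall₂.nil
  | cons a l ih =>
    exact List.Forall₂.cons (hl a List.mem_cons_self) (ih fun b hb => hl b (List.mem_cons_of_mem _ hb))

theorem forall2_append {β γ : Type} {R : β → γ → Prop} {a a' : List β} {b b' : List γ}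
    (h : List.Forall₂ R a b) (h' : List.Forall₂ R a' b') : List.Forall₂ R (a ++ a') (b ++ b') := by
  induction h with
  | nil => exact h'
  | cons h1 _ ih => exact List.Forall₂.cons h1 ih

theorem MG.squareFree {x : Ins} {M : List Ed} (hx : InsWF x) (h : VM x M) : Good none4 (fs M) := by
  intro a b c d hs
  obtain ⟨q, hq, e⟩ := sqG_full hx (hs.mono h.1.sub)
  have k := h.2 q hq
  have k2 : sqIn M q = true := by rw [sqIn_iff, e]; exact Sq.sub hs
  rw [k] at k2
  cases k2

theorem Good.mono {z w : Finset (Sym2 ℕ)} (h : Good none4 w) (hz : z ⊆ w) : Good none4 z :=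
  fun a b c d hs => h a b c d (hs.mono hz)

/-- the configuration of a square-free 2-matching is exact -/
theorem cfgM_exact {x : Ins} (hx : InsWF x) {C : List Cl} (hC : ClsOK x C) (g : List ℕ) {M : List Ed}
    (hM : VM x M) (ρ : ℕ) :
    List.Forall₂ (fun p k => pmem p k = true) (pcs exP x g C) (cfgM x g C M ρ) := by
  have hg := MG.squareFree hx hM
  refine forall2_append (forall2_append ?_ ?_) (forall2_append ?_ ?_)
  · refine forall2_map C fun c hc => pmem_complete (hC.c4 c hc) (Or.inr ⟨rfl, fs (norm (clE c) M), ?_, ?_, ?_, ?_⟩)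
    · rw [fs_norm]; exact Finset.inter_subset_left
    · exact hM.1.m2.mono (fs_norm_sub _ _)
    · exact hg.mono (fs_norm_sub _ _)
    · exact kvec_ends2 ((wf_clE (hC.ok c hc)).norm M) (hM.1.m2.nl.mono (fs_norm_sub _ _))
  · refine forall2_map (plE x C) fun e he => ?_
    have hne : e.1 ≠ e.2 := by
      intro h
      have h1 : fe e ∈ fs (plE x C) := fe_mem_fs he
      rw [plE, fs_rest, Finset.mem_sdiff] at h1
      refine hx.nl _ h1.1 ?_
      rw [fe, h]
      exact Sym2.mk_isDiag_iff.2 rfl
    unfold pmem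
    rw [Bool.or_eq_true, Bool.and_eq_true, List.any_eq_true]
    refine Or.inr ⟨rfl, ?_⟩
    rw [List.any_eq_true]
    refine ⟨bif hasE M e then [e] else [], mem_subs.2 ⟨?_, ?_⟩, ?_⟩
    · cases hasE M e <;> simp
    · cases hasE M e <;> simp [edP]
    · rw [Bool.and_eq_true, okS_iff]
      refine ⟨⟨?_, ?_, ?_⟩, (eqK_iff _ _).2 rfl⟩
      · cases hasE M e
        · exact WF.nil
        · exact WF.single e
      · refine hM.1.m2.mono ?_
        cases h : hasE M e
        · simp [fs_nil]
        · intro y hy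
          obtain ⟨f, hf, rfl⟩ := mem_fs.1 hy
          rw [cond_true, List.mem_singleton] at hf
          subst hf
          exact (hasE_iff _ _).1 h
      · refine hg.mono ?_
        cases h : hasE M e
        · simp [fs_nil]
        · intro y hy
          obtain ⟨f, hf, rfl⟩ := mem_fs.1 hy
          rw [cond_true, List.mem_singleton] at hf
          subst hf
          exact (hasE_iff _ _).1 h
  · refine forall2_map (slJ x.1 g) fun p _ => ?_
    cases decide (p.2 < 2 - degL M p.1)
    · exact pmem_unP_nil _ _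
    · exact pmem_unP_one _ _
  · refine forall2_map (List.range x.1) fun j _ => ?_
    cases decide (hsl x g M + 2 * j + 2 + ρ ≤ 2 * x.1)
    · exact pmem_unP_nil _ _
    · exact pmem_unP_one _ _

/-! ### the 2-matching of a configuration -/

theorem rlz_spec {p : Pc} {k : List ℕ} (hX : p.2.2 = []) (h : pmem p k = true) :
    WF (rlz p k) ∧ M2 (fs (rlz p k)) ∧ Good none4 (fs (rlz p k)) ∧ fs (rlz p k) ⊆ fs p.2.1 ∧
      ∀ v, degL (rlz p k) v = k.count v := by
  unfold pmem at h
  rw [hX, List.any_nil, Bool.false_or, Bool.and_eq_true, List.any_eq_true] at h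
  obtain ⟨h1, h2⟩ := findD_spec (fun S => okS S && eqK k (ends2 S)) (subs p.2.1 4) [] h.2
  change rlz p k ∈ subs p.2.1 4 at h1
  change (okS (rlz p k) && eqK k (ends2 (rlz p k))) = true at h2
  rw [Bool.and_eq_true, okS_iff, eqK_iff] at h2
  refine ⟨h2.1.1, h2.1.2.1, h2.1.2.2, ?_, ?_⟩
  · intro y hy
    obtain ⟨e, he, rfl⟩ := mem_fs.1 hy
    exact fe_mem_fs ((mem_subs.1 h1).2 e he)
  · intro v
    rw [← count_ends2 h2.1.2.1.nl]
    have := congrFun h2.2 v
    unfold kvec at this
    exact_mod_cast this.symm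

/-- gluing -/
theorem glue {α : Type} (A : α → Finset (Sym2 ℕ)) (F : α → List ℕ → List Ed) {l : List α} {ks : List (List ℕ)}
    (h : List.Forall₂ (fun a k => WF (F a k) ∧ Good none4 (fs (F a k)) ∧ fs (F a k) ⊆ A a ∧
      ∀ v, degL (F a k) v = k.count v) l ks)
    (hd : l.Pairwise fun a b => Disjoint (A a) (A b)) :
    WF (List.zipWith F l ks).flatten ∧ (∀ y ∈ fs (List.zipWith F l ks).flatten, ∃ a ∈ l, y ∈ A a) ∧
      (∀ v, degL (List.zipWith F l ks).flatten v = ttl ks v) ∧
      ∀ a ∈ l, Good none4 (fs (List.zipWith F l ks).flatten ∩ A a) := by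
  induction h with
  | nil => exact ⟨WF.nil, by simp [fs_nil], fun v => rfl, by simp⟩
  | @cons a k l ks h1 h2 ih =>
    rw [List.pairwise_cons] at hd
    obtain ⟨i1, i2, i3, i4⟩ := ih hd.2
    have e : (List.zipWith F (a :: l) (k :: ks)).flatten = F a k ++ (List.zipWith F l ks).flatten := rfl
    have hdis : Disjoint (fs (F a k)) (fs (List.zipWith F l ks).flatten) := by
      rw [Finset.disjoint_left]
      intro y hy hy'
      obtain ⟨b, hb, hyb⟩ := i2 y hy'
      exact Finset.disjoint_left.1 (hd.1 b hb) (h1.2.2.1 hy) hyb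
    rw [e]
    refine ⟨?_, ?_, ?_, ?_⟩
    · show ((F a k ++ (List.zipWith F l ks).flatten).map fe).Nodup
      rw [List.map_append, List.nodup_append']
      refine ⟨h1.1, i1, ?_⟩
      intro y h3 h4
      have h5 := Finset.disjoint_left.1 hdis
      refine h5 (a := y) ?_ ?_
      · rw [fs, List.mem_toFinset]; exact h3
      · rw [fs, List.mem_toFinset]; exact h4
    · intro y hy
      rw [fs_append, Finset.mem_union] at hy
      rcases hy with hy | hy
      · exact ⟨a, List.mem_cons_self, h1.2.2.1 hy⟩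
      · obtain ⟨b, hb, hyb⟩ := i2 y hy
        exact ⟨b, List.mem_cons_of_mem _ hb, hyb⟩
    · intro v
      rw [degL_append, h1.2.2.2 v, i3 v, ttl_cons]
    · intro b hb
      rcases List.mem_cons.1 hb with rfl | hb
      · have h5 : fs (F b k ++ (List.zipWith F l ks).flatten) ∩ A b = fs (F b k) := by
          rw [fs_append, Finset.union_inter_distrib_right, Finset.inter_eq_left.2 h1.2.2.1]
          have h6 : fs (List.zipWith F l ks).flatten ∩ A b = ∅ := by
            rw [← Finset.disjoint_iff_inter_eq_empty, Finset.disjoint_left]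
            intro y hy hyb
            obtain ⟨c, hc, hyc⟩ := i2 y hy
            exact Finset.disjoint_left.1 (hd.1 c hc) hyb hyc
          rw [h6, Finset.union_empty]
        rw [h5]
        exact h1.2.1
      · have h5 : fs (F a k ++ (List.zipWith F l ks).flatten) ∩ A b = fs (List.zipWith F l ks).flatten ∩ A b := by
          rw [fs_append, Finset.union_inter_distrib_right]
          have h6 : fs (F a k) ∩ A b = ∅ := by
            rw [← Finset.disjoint_iff_inter_eq_empty]
            exact (hd.1 b hb).mono_left h1.2.2.1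
          rw [h6, Finset.empty_union]
        rw [h5]
        exact i4 b hb

theorem range_zip {α : Type} (d : α) (F : α → List ℕ → List Ed) {R : α → List ℕ → Prop} {l : List α}
    {ks : List (List ℕ)} (h : List.Forall₂ R l ks) (r : List (List ℕ)) :
    ((List.range l.length).flatMap fun i => F (l.getD i d) ((ks ++ r).getD i [])) =
      (List.zipWith F l ks).flatten := by
  induction h with
  | nil => rfl
  | @cons a k l ks h1 h2 ih =>
    rw [List.length_cons, List.range_succ_eq_map, List.flatMap_cons, List.flatMap_map]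
    have e : (List.zipWith F (a :: l) (k :: ks)).flatten = F a k ++ (List.zipWith F l ks).flatten := rfl
    rw [e, ← ih]
    rfl

/-- the edge pieces -/
def eps (x : Ins) (C : List Cl) : List Pc := C.map exP ++ (plE x C).map edP

theorem eps_pure {x : Ins} {C : List Cl} {p : Pc} (hp : p ∈ eps x C) : p.2.2 = [] ∧ p.1 = true := by
  rcases List.mem_append.1 hp with h | h
  · obtain ⟨c, _, rfl⟩ := List.mem_map.1 h
    exact ⟨rfl, rfl⟩
  · obtain ⟨c, _, rfl⟩ := List.mem_map.1 h
    exact ⟨rfl, rfl⟩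

theorem eps_disj {x : Ins} (hx : InsWF x) {C : List Cl} (hC : ClsOK x C) :
    (eps x C).Pairwise fun a b => Disjoint (fs a.2.1) (fs b.2.1) := by
  rw [eps, List.pairwise_append]
  refine ⟨?_, ?_, ?_⟩
  · rw [List.pairwise_map]
    exact hC.dj
  · rw [List.pairwise_map]
    have h : WF (plE x C) := hx.wf.rest _
    have h2 : (plE x C).Pairwise fun a b => fe a ≠ fe b := by
      have h3 : ((plE x C).map fe).Pairwise (· ≠ ·) := h
      rwa [List.pairwise_map] at h3
    refine h2.imp ?_
    intro a b hab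
    show Disjoint (fs [a]) (fs [b])
    rw [fs_cons, fs_cons, fs_nil]
    simpa using hab
  · intro p hp q hq
    obtain ⟨c, hc, rfl⟩ := List.mem_map.1 hp
    obtain ⟨e, he, rfl⟩ := List.mem_map.1 hq
    show Disjoint (fs (clE c)) (fs [e])
    rw [fs_cons, fs_nil]
    rw [Finset.disjoint_left]
    intro y hy hy'
    have hy2 : y = fe e := by simpa using hy'
    subst hy2
    have h1 : fe e ∈ fs (plE x C) := fe_mem_fs he
    rw [plE, fs_rest, Finset.mem_sdiff] at h1
    apply h1.2
    obtain ⟨f, hf, hfe⟩ := mem_fs.1 hy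
    exact mem_fs.2 ⟨f, List.mem_flatMap.2 ⟨c, hc, hf⟩, hfe⟩

theorem forall2_split {α β : Type} {R : α → β → Prop} {a b : List α} {ks : List β}
    (h : List.Forall₂ R (a ++ b) ks) : ∃ k1 k2, ks = k1 ++ k2 ∧ List.Forall₂ R a k1 ∧ List.Forall₂ R b k2 := by
  induction a generalizing ks with
  | nil => exact ⟨[], ks, rfl, List.Forall₂.nil, h⟩
  | cons x a ih =>
    cases h with
    | cons h1 h2 =>
      obtain ⟨k1, k2, rfl, h3, h4⟩ := ih h2
      exact ⟨_ :: k1, k2, rfl, List.Forall₂.cons h1 h3, h4⟩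

/-- the slack pieces contribute at most `2 - g v` at `v` -/
theorem ttl_un_le {n : ℕ} {g : List ℕ} {v : ℕ} (hv : v < n) {k2 : List (List ℕ)}
    (h : List.Forall₂ (fun p k => pmem p k = true) ((slJ n g).map (fun p => unP p.1 n) ++
      (List.range n).map fun _ => unP n n) k2) : ttl k2 v ≤ 2 - g.getD v 0 := by
  obtain ⟨k3, k4, rfl, h3, h4⟩ := forall2_split h
  have h5 : ttl k4 v = 0 := by
    clear h3 h
    rw [List.forall₂_map_left_iff] at h4
    generalize List.range n = l at h4
    induction h4 with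
    | nil => rfl
    | cons h1 _ ih =>
      rw [ttl_cons, ih]
      have h6 : ∀ k : List ℕ, pmem (unP n n) k = true → k.count v = 0 := by
        intro k hk
        rcases pmem_unP hk with e | e
        · have := congrFun e v
          unfold kvec at this
          simpa using this
        · have := congrFun e v
          unfold kvec at this
          have hne : n ≠ v := by omega
          simpa [hne] using this
      rw [h6 _ h1]
  have h6 : ∀ (l : List (ℕ × ℕ)) (ks : List (List ℕ)),
      List.Forall₂ (fun p k => pmem p k = true) (l.map (fun p => unP p.1 n)) ks →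
      ttl ks v ≤ (l.map fun p => if p.1 = v then 1 else 0).sum := by
    intro l
    induction l with
    | nil =>
      intro ks hks
      cases hks
      exact Nat.zero_le _
    | cons p l ih =>
      intro ks hks
      cases hks with
      | @cons _ kk _ _ h7 h8 =>
        rw [ttl_cons, List.map_cons, List.sum_cons]
        refine Nat.add_le_add ?_ (ih _ h8)
        rcases pmem_unP h7 with e | e
        · have := congrFun e v
          unfold kvec at this
          simp only [List.count_nil, Nat.cast_zero] at this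
          have h9 : List.count v kk = 0 := by exact_mod_cast this
          rw [h9]
          exact Nat.zero_le _
        · have := congrFun e v
          unfold kvec at this
          have hne : n ≠ v := by omega
          have h9 : List.count v kk = List.count v [p.1, n] := by exact_mod_cast this
          rw [h9]
          by_cases h10 : p.1 = v
          · simp [h10, hne]
          · simp [h10, hne]
  rw [ttl_append, h5, add_zero]
  refine (h6 _ _ h3).trans (le_of_eq ?_)
  rw [sum_slJ]
  have h7 : ∀ u ∈ Finset.range n, (∑ j ∈ Finset.range (2 - g.getD u 0),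
      (fun p : ℕ × ℕ => if p.1 = v then 1 else 0) (u, j)) = if u = v then 2 - g.getD u 0 else 0 := by
    intro u _
    simp only
    split_ifs <;> simp
  rw [Finset.sum_congr rfl h7, Finset.sum_ite_eq', if_pos (Finset.mem_range.2 hv)]

/-- **An exact configuration gives a cover.** -/
theorem decM_spec {x : Ins} (hx : InsWF x) {C : List Cl} (hC : ClsOK x C) {g : List ℕ}
    (hg : ∀ v, g.getD v 0 ≤ 2) {ks : List (List ℕ)}
    (h : List.Forall₂ (fun p k => pmem p k = true) (pcs exP x g C) ks) (ht : ∀ v < x.1, ttl ks v = 2) :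
    MG x (decM x C ks) ∧ Cov x.1 g (degL (decM x C ks)) ∧
      ∀ q : Sq4, SqOK q → (∃ c ∈ C, sqs q ⊆ fs (clE c)) → sqIn (decM x C ks) q = false := by
  obtain ⟨k1, k2, rfl, h1, h2⟩ := forall2_split h
  have e : decM x C (k1 ++ k2) = (List.zipWith rlz (eps x C) k1).flatten := range_zip _ rlz h1 k2
  have h3 : List.Forall₂ (fun (a : Pc) k => WF (rlz a k) ∧ Good none4 (fs (rlz a k)) ∧ fs (rlz a k) ⊆ fs a.2.1 ∧
      ∀ v, degL (rlz a k) v = k.count v) (eps x C) k1 := by
    have h4 : ∀ (l : List Pc) (ks : List (List ℕ)), (∀ p ∈ l, p.2.2 = []) →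
        List.Forall₂ (fun p k => pmem p k = true) l ks →
        List.Forall₂ (fun (a : Pc) k => WF (rlz a k) ∧ Good none4 (fs (rlz a k)) ∧ fs (rlz a k) ⊆ fs a.2.1 ∧
          ∀ v, degL (rlz a k) v = k.count v) l ks := by
      intro l ks hl hks
      induction hks with
      | nil => exact List.Forall₂.nil
      | cons h5 _ ih =>
        obtain ⟨i1, _, i3, i4, i5⟩ := rlz_spec (hl _ List.mem_cons_self) h5
        exact List.Forall₂.cons ⟨i1, i3, i4, i5⟩ (ih fun p hp => hl p (List.mem_cons_of_mem _ hp))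
    exact h4 _ _ (fun p hp => (eps_pure hp).1) h1
  obtain ⟨g1, g2, g3, g4⟩ := glue (fun p : Pc => fs p.2.1) rlz h3 (eps_disj hx hC)
  rw [e]
  set M := (List.zipWith rlz (eps x C) k1).flatten with hM
  have hsub : fs M ⊆ fs x.2 := by
    intro y hy
    obtain ⟨p, hp, hyp⟩ := g2 y hy
    rcases List.mem_append.1 hp with hp | hp
    · obtain ⟨c, hc, rfl⟩ := List.mem_map.1 hp
      exact hC.sub c hc hyp
    · obtain ⟨f, hf, rfl⟩ := List.mem_map.1 hp
      have h5 : fe f ∈ fs (plE x C) := fe_mem_fs hf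
      rw [plE, fs_rest, Finset.mem_sdiff] at h5
      have h6 : y ∈ fs [f] := hyp
      rw [fs_cons, fs_nil] at h6
      have h7 : y = fe f := by simpa using h6
      rw [h7]
      exact h5.1
  have hdeg : ∀ v < x.1, degL M v ≤ 2 ∧ g.getD v 0 ≤ degL M v := by
    intro v hv
    have h5 := ht v hv
    rw [ttl_append, ← g3 v] at h5
    have h6 := ttl_un_le hv h2
    have h7 := hg v
    omega
  have hMG : MG x M := by
    refine ⟨g1, ⟨hx.nl.mono hsub, fun v => ?_⟩, hsub⟩
    by_cases hv : v < x.1
    · rw [← degL_eq g1]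
      exact (hdeg v hv).1
    · have : dg (fs M) v = 0 := by
        rw [dg, Finset.card_eq_zero, Finset.filter_eq_empty_iff]
        intro y hy hvy
        exact hv (hx.vlt (hsub hy) hvy)
      omega
  refine ⟨hMG, fun v hv => (hdeg v hv).2, ?_⟩
  rintro q hq ⟨c, hc, hqc⟩
  rw [← Bool.not_eq_true, sqIn_iff]
  intro hs
  have hp : exP c ∈ eps x C := List.mem_append_left _ (List.mem_map_of_mem hc)
  have h5 := g4 _ hp
  have h6 : sqs q ⊆ fs M ∩ fs (clE c) := Finset.subset_inter hs hqc
  obtain ⟨a, b, c', d⟩ := q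
  obtain ⟨hab, hac, had, hbc, hbd, hcd⟩ := hq
  refine h5 a b c' d ⟨hac, hbd, h6 ?_, h6 ?_, h6 ?_, h6 ?_⟩ <;> simp [sqs, TFC.sq]

end Pool.Agent.PF4

end

section -- file PF4/PcA

/-!
# Pieces of clusters: at most four edges, the vectors used by the digon lemma, the choice rule

`psi P c` is the choice of relaxation of the cluster `c` when `P v` says that the deficit port of `v` is known and the
surplus port of `v` is unknown. `psi_moves`: every additional vector of the relaxed piece falls under one of the three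
cases of the digon lemma, with exact vectors from the list `mvs`.
-/

set_option autoImplicit false

namespace Pool.Agent.PF4

open Finset Pool.Agent.TFC Pool.Agent.Lib.helper60 Pool.Agent.PF4.LD

/-! ### at most four edges -/

theorem card4_k2 {x y : ℕ} {L : Finset ℕ} {z : Finset (Sym2 ℕ)} (hz : z ⊆ (Clu.k2 x y L).edges) (hM : M2 z) :
    #z ≤ 4 := by
  have h : z ⊆ z.filter (fun e => x ∈ e) ∪ z.filter (fun e => y ∈ e) := by
    intro e he
    have h1 := hz he
    simp only [Clu.edges, Finset.mem_union, Finset.mem_image] at h1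
    rw [Finset.mem_union, Finset.mem_filter, Finset.mem_filter]
    rcases h1 with ⟨l, _, rfl⟩ | ⟨l, _, rfl⟩
    · exact Or.inl ⟨he, Sym2.mem_mk_left _ _⟩
    · exact Or.inr ⟨he, Sym2.mem_mk_left _ _⟩
  have h1 := Finset.card_le_card h
  have h2 := Finset.card_union_le (z.filter (fun e => x ∈ e)) (z.filter (fun e => y ∈ e))
  have h3 := hM.le x
  have h4 := hM.le y
  unfold dg at h3 h4
  omega

theorem card4_clu {c : Cl} (h : ClOK c) {z : Finset (Sym2 ℕ)} (hz : z ⊆ fs (clE c)) (hM : M2 z)
    (hG : Good none4 z) : #z ≤ 4 := by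
  rw [fs_clE] at hz
  have hv := cluF_valid h
  obtain ⟨b, x, y, L⟩ := c
  cases b with
  | true => exact card4_k2 hz hM
  | false => exact (R4_card_le hv hz hM hG).trans (by norm_num)

theorem card4_exP {c : Cl} (h : ClOK c) : Card4 (exP c) := fun _ _ hz hM hG => card4_clu h hz hM hG

theorem card4_rxP {c : Cl} (h : ClOK c) (ch : ℕ × ℕ) : Card4 (rxP c ch) := fun _ _ hz hM hG => card4_clu h hz hM hG

/-! ### exact and relaxed pieces -/

theorem pcS_exP (c : Cl) : pcS (exP c) = JS (fs (clE c)) none4 := by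
  ext x
  simp [pcS, exP]

theorem pcS_rxP (c : Cl) (ch : ℕ × ℕ) (x : ℕ → ℤ) :
    x ∈ pcS (rxP c ch) ↔ x ∈ pcS (exP c) ∨ ∃ d ∈ digs c ch, x = kvec d := by
  rw [pcS_exP]
  simp only [pcS, rxP, Set.mem_ofPred_eq, true_and]
  exact or_comm

theorem exP_sub_rxP (c : Cl) (ch : ℕ × ℕ) : pcS (exP c) ⊆ pcS (rxP c ch) :=
  fun _ hx => (pcS_rxP c ch _).2 (Or.inl hx)

/-- a vector of the relaxed piece that is not exact is one of the additional vectors -/
theorem pmem_digs {c : Cl} (h : ClOK c) {ch : ℕ × ℕ} {k : List ℕ} (hk : pmem (rxP c ch) k = true)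
    (hk' : pmem (exP c) k = false) : ∃ d ∈ digs c ch, kvec k = kvec d := by
  rcases (pcS_rxP c ch _).1 (pmem_sound hk) with h1 | h1
  · rw [pmem_complete (card4_exP h) h1] at hk'
    cases hk'
  · exact h1

/-! ### small exact vectors -/

theorem JS_small {E z : Finset (Sym2 ℕ)} (hz : z ⊆ E) (hn : NoLoop z) (h2 : ∀ v, dv z v ≤ 2) (h4 : #z < 4) :
    dv z ∈ JS E none4 := by
  refine ⟨z, hz, ⟨hn, fun v => ?_⟩, Unit_good hn h4, rfl⟩
  have := h2 v
  rw [dv_apply] at this
  exact_mod_cast this

theorem jc_zero (c : Cl) : (0 : ℕ → ℤ) ∈ pcS (exP c) := by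
  rw [pcS_exP]
  have h := JS_small (E := fs (clE c)) (z := ∅) (Finset.empty_subset _) (by intro e he; simp at he)
    (by intro v; rw [Unit_dv0]; simp) (by simp)
  rwa [Unit_dv0] at h

theorem jc_edge {c : Cl} {u v : ℕ} (huv : u ≠ v) (h : s(u, v) ∈ fs (clE c)) : ev u + ev v ∈ pcS (exP c) := by
  rw [pcS_exP]
  have h1 := JS_small (E := fs (clE c)) (z := {s(u, v)}) (Finset.singleton_subset_iff.2 h)
    (by intro e he; rw [Finset.mem_singleton] at he; subst he; simpa using huv)
    (by
      intro w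
      rw [Unit_dv1 huv]
      simp only [Pi.add_apply, TFC.ev_apply]
      split_ifs <;> norm_num) (by simp)
  rwa [Unit_dv1 huv] at h1

theorem jc_path {c : Cl} {u v w : ℕ} (huv : u ≠ v) (hvw : v ≠ w) (huw : u ≠ w) (h : s(u, v) ∈ fs (clE c))
    (h' : s(v, w) ∈ fs (clE c)) : ev u + (2 : ℤ) • ev v + ev w ∈ pcS (exP c) := by
  rw [pcS_exP]
  have hne : s(u, v) ≠ s(v, w) := by
    rw [Ne, Sym2.eq_iff]
    rintro (⟨h1, _⟩ | ⟨h1, _⟩)
    · exact huv h1
    · exact huw h1
  have hd := Unit_dv2 huv hvw hne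
  have e : ev u + ev v + (ev v + ev w) = (ev u + (2 : ℤ) • ev v + ev w : ℕ → ℤ) := by
    rw [two_smul]; abel
  have h1 := JS_small (E := fs (clE c)) (z := {s(u, v), s(v, w)})
    (by
      intro e he
      rw [Finset.mem_insert, Finset.mem_singleton] at he
      rcases he with rfl | rfl
      · exact h
      · exact h')
    (by
      intro e he
      rw [Finset.mem_insert, Finset.mem_singleton] at he
      rcases he with rfl | rfl
      · simpa using huv
      · simpa using hvw)
    (by
      intro t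
      rw [hd]
      simp only [Pi.add_apply, TFC.ev_apply]
      split_ifs <;> first | (exfalso; omega) | norm_num)
    (lt_of_le_of_lt Finset.card_le_two (by norm_num))
  rwa [hd, e] at h1

theorem kv_nil : kvec [] = 0 := by
  funext v
  simp [kvec]

theorem kv_cons (a : ℕ) (k : List ℕ) : kvec (a :: k) = ev a + kvec k := by
  funext v
  simp only [kvec, List.count_cons, Pi.add_apply, TFC.ev_apply]
  by_cases h : a = v
  · subst h
    simp
    ring
  · simp [h, Ne.symm h]

theorem kv_append (k l : List ℕ) : kvec (k ++ l) = kvec k + kvec l := by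
  funext v
  simp [kvec, List.count_append]

theorem kv_flat2 (L : List ℕ) : kvec (L.flatMap fun i => [i, i]) = (2 : ℤ) • kvec L := by
  induction L with
  | nil => simp [kv_nil]
  | cons a L ih =>
    rw [List.flatMap_cons, kv_append, ih, kv_cons, kv_cons, kv_cons, kv_nil]
    module

/-! ### the choice rule -/

/-- the vertices of the cluster -/
def clV (c : Cl) : List ℕ := bif c.1 then c.2.1 :: c.2.2.1 :: c.2.2.2 else c.2.2.2

/-- the choice of the relaxation; `P v`: the deficit port of `v` is known, the surplus port is unknown -/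
def psi (P : ℕ → Bool) (c : Cl) : ℕ × ℕ :=
  bif c.1 then
    (bif P c.2.2.1 then (c.2.1, c.2.2.2.headD 0)
     else bif P c.2.1 then (c.2.2.1, c.2.2.2.headD 0)
     else (c.2.1, (c.2.2.2.filter P).headD (c.2.2.2.headD 0)))
  else bif c.2.2.2.all P then (0, 0) else (1, 0)

/-- remove `a` once -/
def delK (a : ℕ) (k : List ℕ) : List ℕ :=
  (k.filter fun v => !decide (v = a)) ++ (k.filter fun v => decide (v = a)).tail

/-- the exact vectors needed to replace the additional vector `d` -/
def mvs (c : Cl) (d : List ℕ) : List (List ℕ) :=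
  ((clV c).flatMap fun a => (clV c).flatMap fun b =>
    [b :: delK a d, delK b (delK a d), delK b (delK a (delK b (delK a d)))]).filter fun k => pmem (exP c) k

theorem headD_memK {L : List ℕ} (h : L ≠ []) (a : ℕ) : L.headD a ∈ L := by
  cases L with
  | nil => exact absurd rfl h
  | cons b L => simp

theorem psi_ok (P : ℕ → Bool) {c : Cl} (h : ClOK c) : ChOK c (psi P c) := by
  obtain ⟨b, x, y, L⟩ := c
  intro hb
  simp only at hb
  subst hb
  obtain ⟨-, -, -, h4⟩ := h.k2 rfl
  simp only at h4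
  have hne : L ≠ [] := by rintro rfl; simp at h4
  have h0 := headD_memK hne 0
  simp only [psi, cond_true]
  cases hy : P y with
  | true => exact ⟨Or.inl rfl, h0⟩
  | false =>
    cases hx : P x with
    | true => exact ⟨Or.inr rfl, h0⟩
    | false =>
      refine ⟨Or.inl rfl, ?_⟩
      show (L.filter P).headD (L.headD 0) ∈ L
      by_cases hf : L.filter P = []
      · rw [hf]
        exact h0
      · exact List.mem_of_mem_filter (headD_memK hf _)

/-- edges of `K2` -/
theorem k2_edge {x y w l : ℕ} {L : List ℕ} (hw : w = x ∨ w = y) (hl : l ∈ L) :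
    s(w, l) ∈ fs (clE (true, x, y, L)) := by
  rw [mem_fs]
  rcases hw with rfl | rfl
  · exact ⟨(w, l), by simp [clE, hl], rfl⟩
  · exact ⟨(w, l), by simp [clE, hl], rfl⟩

/-- edges of `K4` -/
theorem k4_edge {x y u v : ℕ} {L : List ℕ} (hu : u ∈ L) (hv : v ∈ L) (h : u ≠ v) :
    s(u, v) ∈ fs (clE (false, x, y, L)) := by
  rw [fs_clE]
  show s(u, v) ∈ (Clu.k4 L.toFinset).edges
  rw [R4_mem_edges]
  exact ⟨by simpa using hu, by simpa using hv, h⟩

/-- the three cases of the digon lemma -/
inductive Mv (P : ℕ → Bool) (c : Cl) (d : List ℕ) : Prop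
  | plus (a b : ℕ) (ha : a ∈ clV c) (hb : b ∈ clV c) (hab : a ≠ b) (hP : P b = true) (k : List ℕ) (hk : k ∈ mvs c d)
      (e : kvec k = kvec d - ev a + ev b) : Mv P c d
  | digon (a b : ℕ) (ha : a ∈ clV c) (hb : b ∈ clV c) (hab : a ≠ b) (hPa : P a = false) (hPb : P b = false)
      (k k' : List ℕ) (hk : k ∈ mvs c d) (hk' : k' ∈ mvs c d) (e : kvec k = kvec d - ev a - ev b)
      (e' : kvec k' = kvec d - (2 : ℤ) • ev a - (2 : ℤ) • ev b) : Mv P c d
  | sq (b : ℕ) (hb : b ∈ clV c) (hP : P b = false) (k : List ℕ) (hk : k ∈ mvs c d)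
      (e : kvec k = kvec d - (2 : ℤ) • ev b) : Mv P c d

theorem count_delK (a v : ℕ) (k : List ℕ) : (delK a k).count v = k.count v - if v = a then 1 else 0 := by
  unfold delK
  rw [List.count_append]
  by_cases hv : v = a
  · subst hv
    rw [if_pos rfl, List.count_eq_zero_of_not_mem (by simp), zero_add]
    have h1 : (k.filter fun u => decide (u = v)) = List.replicate (k.count v) v := by
      rw [List.eq_replicate_iff]
      refine ⟨?_, ?_⟩
      · rw [List.count_eq_length_filter]
        congr 1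
      · intro u hu
        simpa using (List.mem_filter.1 hu).2
    rw [h1, List.tail_replicate, List.count_replicate_self]
  · rw [if_neg hv, Nat.sub_zero]
    have h1 : (k.filter fun u => !decide (u = a)).count v = k.count v := by
      rw [List.count_filter (by simpa using hv)]
    have h2 : ((k.filter fun u => decide (u = a)).tail).count v = 0 := by
      refine List.count_eq_zero_of_not_mem fun h => ?_
      have := (List.mem_filter.1 (List.mem_of_mem_tail h)).2
      exact hv (by simpa using this)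
    rw [h1, h2, add_zero]

theorem kv_del {a : ℕ} {k : List ℕ} (h : a ∈ k) : kvec (delK a k) = kvec k - ev a := by
  funext v
  simp only [kvec, Pi.sub_apply, TFC.ev_apply, count_delK]
  by_cases hv : v = a
  · subst hv
    have := List.count_pos_iff.2 h
    simp only [if_true]
    omega
  · simp [hv]

theorem mem_delK {a b : ℕ} {k : List ℕ} (h : b ∈ k) (hab : b ≠ a ∨ 2 ≤ k.count b) : b ∈ delK a k := by
  rw [← List.count_pos_iff, count_delK]
  have := List.count_pos_iff.2 h
  split_ifs with h1
  · rcases hab with h2 | h2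
    · exact absurd h1 h2
    · omega
  · omega

theorem mem_mvs {c : Cl} (h : ClOK c) {d k : List ℕ} {a b : ℕ} (ha : a ∈ clV c) (hb : b ∈ clV c)
    (hk : k = b :: delK a d ∨ k = delK b (delK a d) ∨ k = delK b (delK a (delK b (delK a d))))
    (hm : kvec k ∈ pcS (exP c)) : k ∈ mvs c d := by
  unfold mvs
  rw [List.mem_filter]
  refine ⟨List.mem_flatMap.2 ⟨a, ha, List.mem_flatMap.2 ⟨b, hb, ?_⟩⟩, pmem_complete (card4_exP h) hm⟩
  simp only [List.mem_cons, List.not_mem_nil, or_false]
  exact hk

theorem mvs_sound {c : Cl} {d k : List ℕ} (hk : k ∈ mvs c d) : kvec k ∈ pcS (exP c) := by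
  unfold mvs at hk
  exact pmem_sound (List.mem_filter.1 hk).2

theorem Mv.mkPlus {P : ℕ → Bool} {c : Cl} (h : ClOK c) {d : List ℕ} {a b : ℕ} (ha : a ∈ clV c) (hb : b ∈ clV c)
    (hab : a ≠ b) (hP : P b = true) (had : a ∈ d) (hm : kvec d - ev a + ev b ∈ pcS (exP c)) : Mv P c d := by
  have e : kvec (b :: delK a d) = kvec d - ev a + ev b := by
    rw [kv_cons, kv_del had]
    abel
  exact Mv.plus a b ha hb hab hP _ (mem_mvs h ha hb (Or.inl rfl) (by rw [e]; exact hm)) e

theorem Mv.mkDigon {P : ℕ → Bool} {c : Cl} (h : ClOK c) {d : List ℕ} {a b : ℕ} (ha : a ∈ clV c) (hb : b ∈ clV c)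
    (hab : a ≠ b) (hPa : P a = false) (hPb : P b = false) (had : d = [a, a, b, b])
    (he : s(a, b) ∈ fs (clE c)) : Mv P c d := by
  subst had
  have ve : kvec [a, a, b, b] = (2 : ℤ) • ev a + (2 : ℤ) • ev b := by
    rw [kv_cons, kv_cons, kv_cons, kv_cons, kv_nil]
    module
  have m1 : b ∈ delK a [a, a, b, b] := mem_delK (by simp) (Or.inl hab.symm)
  have e1 : kvec (delK b (delK a [a, a, b, b])) = kvec [a, a, b, b] - ev a - ev b := by
    rw [kv_del m1, kv_del (by simp)]
  have m2 : a ∈ delK b (delK a [a, a, b, b]) := by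
    refine mem_delK (mem_delK (by simp) (Or.inr ?_)) (Or.inl hab)
    simp [hab.symm]
  have m3 : b ∈ delK a (delK b (delK a [a, a, b, b])) := by
    refine mem_delK (mem_delK m1 (Or.inr ?_)) (Or.inl hab.symm)
    rw [count_delK, if_neg hab.symm]
    simp [hab]
  have e2 : kvec (delK b (delK a (delK b (delK a [a, a, b, b])))) =
      kvec [a, a, b, b] - (2 : ℤ) • ev a - (2 : ℤ) • ev b := by
    rw [kv_del m3, kv_del m2, e1]
    module
  refine Mv.digon a b ha hb hab hPa hPb _ _ (mem_mvs h ha hb (Or.inr (Or.inl rfl)) ?_)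
    (mem_mvs h ha hb (Or.inr (Or.inr rfl)) ?_) e1 e2
  · rw [e1, ve]
    have := jc_edge hab he
    convert this using 1
    module
  · rw [e2, ve]
    have := jc_zero c
    convert this using 1
    module

theorem kv4 (a b : ℕ) : kvec [a, a, b, b] = (2 : ℤ) • ev a + (2 : ℤ) • ev b := by
  rw [kv_cons, kv_cons, kv_cons, kv_cons, kv_nil]
  module

theorem kv2 (a : ℕ) : kvec [a, a] = (2 : ℤ) • ev a := by
  rw [kv_cons, kv_cons, kv_nil]
  module

/-- the full square of `K4` minus twice a corner -/
theorem k4_tri {x y b : ℕ} {L : List ℕ} (h : ClOK (false, x, y, L)) (hb : b ∈ L) :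
    kvec (L.flatMap fun i => [i, i]) - (2 : ℤ) • ev b ∈ pcS (exP (false, x, y, L)) := by
  have hn := h.nd
  have h4 := h.k4 rfl
  simp only at hn h4
  have hc : #L.toFinset = 4 := by rw [List.toFinset_card_of_nodup hn, h4]
  have hv : kvec (L.flatMap fun i => [i, i]) = R4_tx L.toFinset := by
    rw [kv_flat2]
    funext v
    simp only [Pi.smul_apply, kvec, R4_tx, List.mem_toFinset, smul_eq_mul]
    by_cases hv : v ∈ L
    · rw [List.count_eq_one_of_mem hn hv, if_pos hv]
      norm_num
    · rw [List.count_eq_zero_of_not_mem hv, if_neg hv]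
      norm_num
  have h5 := R4_JS hc (i := b) (j := b) (by simpa using hb) (by simpa using hb)
  have e5 : R4_tx L.toFinset - ev b - ev b = R4_tx L.toFinset - (2 : ℤ) • ev b := by module
  rw [e5] at h5
  rw [pcS_exP, fs_clE, hv]
  exact h5

/-- some vertex of a list of 4 outside two given ones -/
theorem exists_third {L : List ℕ} (hn : L.Nodup) (h4 : L.length = 4) (a b : ℕ) : ∃ c ∈ L, c ≠ a ∧ c ≠ b := by
  by_contra hcon
  push Not at hcon
  have h1 : L.toFinset ⊆ {a, b} := by
    intro c hc
    rw [Finset.mem_insert, Finset.mem_singleton]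
    by_cases h : c = a
    · exact Or.inl h
    · exact Or.inr (hcon c (by simpa using hc) h)
  have h2 := (Finset.card_le_card h1).trans Finset.card_le_two
  rw [List.toFinset_card_of_nodup hn, h4] at h2
  omega

/-- **Every additional vector falls under one of the three cases of the digon lemma** -/
theorem psi_moves (P : ℕ → Bool) {c : Cl} (h : ClOK c) {d : List ℕ} (hd : d ∈ digs c (psi P c)) : Mv P c d := by
  obtain ⟨b, x, y, L⟩ := c
  cases b with
  | true =>
    obtain ⟨hxy, hxL, hyL, h2⟩ := h.k2 rfl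
    simp only at hxy hxL hyL h2
    simp only [digs, cond_true, List.mem_map, List.mem_filter, Bool.not_eq_true', decide_eq_false_iff_not] at hd
    obtain ⟨l, ⟨hl, hlc⟩, rfl⟩ := hd
    have hlx : l ≠ x := fun e => hxL (e ▸ hl)
    have hly : l ≠ y := fun e => hyL (e ▸ hl)
    have mx : x ∈ clV (true, x, y, L) := by simp [clV]
    have my : y ∈ clV (true, x, y, L) := by simp [clV]
    have mL : ∀ m ∈ L, m ∈ clV (true, x, y, L) := fun m hm => by simp [clV, hm]
    -- the path `w l w'`
    have hpath : ∀ w w' : ℕ, (w = x ∨ w = y) → (w' = x ∨ w' = y) → w ≠ w' → l ≠ w → l ≠ w' → P w' = true →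
        w ∈ clV (true, x, y, L) → w' ∈ clV (true, x, y, L) → Mv P (true, x, y, L) [w, w, l, l] := by
      intro w w' hw hw' hww hlw hlw' hP m1 m2
      refine Mv.mkPlus h m1 m2 hww hP (by simp) ?_
      rw [kv4]
      have := jc_path (c := (true, x, y, L)) (u := w) (v := l) (w := w') hlw.symm hlw' hww (k2_edge hw hl)
        (by rw [Sym2.eq_swap]; exact k2_edge hw' hl)
      convert this using 1
      module
    cases hy : P y with
    | true =>
      have e : psi P (true, x, y, L) = (x, L.headD 0) := by simp [psi, hy]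
      rw [e]
      exact hpath x y (Or.inl rfl) (Or.inr rfl) hxy hlx hly hy mx my
    | false =>
      cases hx : P x with
      | true =>
        have e : psi P (true, x, y, L) = (y, L.headD 0) := by simp [psi, hy, hx]
        rw [e]
        exact hpath y x (Or.inr rfl) (Or.inl rfl) hxy.symm hly hlx hx my mx
      | false =>
        have e : psi P (true, x, y, L) = (x, (L.filter P).headD (L.headD 0)) := by simp [psi, hy, hx]
        rw [e] at hlc ⊢
        simp only at hlc ⊢
        by_cases hf : L.filter P = []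
        · -- no leaf is `PLUS`
          have hPl : P l = false := by
            by_contra hh
            rw [Bool.not_eq_false] at hh
            have : l ∈ L.filter P := List.mem_filter.2 ⟨hl, hh⟩
            rw [hf] at this
            simp at this
          exact Mv.mkDigon h mx (mL l hl) hlx.symm hx hPl rfl (k2_edge (Or.inl rfl) hl)
        · have hm := headD_memK hf (L.headD 0)
          set m := (L.filter P).headD (L.headD 0) with hm'
          rw [List.mem_filter] at hm
          have hmx : m ≠ x := fun e => hxL (e ▸ hm.1)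
          refine Mv.mkPlus h (mL l hl) (mL m hm.1) hlc hm.2 (by simp) ?_
          rw [kv4]
          have := jc_path (c := (true, x, y, L)) (u := l) (v := x) (w := m) hlx hmx.symm hlc
            (by rw [Sym2.eq_swap]; exact k2_edge (Or.inl rfl) hl) (k2_edge (Or.inl rfl) hm.1)
          convert this using 1
          module
  | false =>
    have hn := h.nd
    have h4 := h.k4 rfl
    simp only at hn h4
    have mL : ∀ m ∈ L, m ∈ clV (false, x, y, L) := fun m hm => by simpa [clV] using hm
    cases hall : L.all P with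
    | true =>
      have e : psi P (false, x, y, L) = (0, 0) := by simp [psi, hall]
      have hP : ∀ v ∈ L, P v = true := List.all_eq_true.1 hall
      rw [e] at hd
      simp only [digs, cond_false, decide_true, cond_true, List.mem_append, List.mem_map] at hd
      rcases hd with ⟨i, hi, rfl⟩ | ⟨⟨i, j⟩, hij, rfl⟩
      · obtain ⟨b, hb, hbi, -⟩ := exists_third hn h4 i i
        refine Mv.mkPlus h (mL i hi) (mL b hb) hbi.symm (hP b hb) (by simp) ?_
        rw [kv2]
        have := jc_edge (c := (false, x, y, L)) hbi.symm (k4_edge hi hb hbi.symm)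
        convert this using 1
        module
      · simp only [prs, List.mem_filter, mem_prd, decide_eq_true_eq] at hij
        obtain ⟨⟨hi, hj⟩, hlt⟩ := hij
        obtain ⟨b, hb, hbi, hbj⟩ := exists_third hn h4 i j
        refine Mv.mkPlus h (mL i hi) (mL b hb) hbi.symm (hP b hb) (by simp) ?_
        rw [kv4]
        have := jc_path (c := (false, x, y, L)) (u := i) (v := j) (w := b) (ne_of_lt hlt) hbj.symm hbi.symm
          (k4_edge hi hj (ne_of_lt hlt)) (k4_edge hj hb hbj.symm)
        convert this using 1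
        module
    | false =>
      have e : psi P (false, x, y, L) = (1, 0) := by simp [psi, hall]
      rw [e] at hd
      simp only [digs, cond_false, one_ne_zero, decide_false, List.mem_singleton] at hd
      subst hd
      obtain ⟨b, hb, hPb⟩ := List.all_eq_false.1 hall
      have hPb' : P b = false := by simpa using hPb
      have hm := k4_tri h hb
      have hbd : b ∈ (L.flatMap fun i => [i, i]) := List.mem_flatMap.2 ⟨b, hb, by simp⟩
      have e1 : kvec (delK b (delK b (L.flatMap fun i => [i, i]))) =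
          kvec (L.flatMap fun i => [i, i]) - (2 : ℤ) • ev b := by
        have hc : 2 ≤ (L.flatMap fun i => [i, i]).count b := by
          have h1 := congrFun (kv_flat2 L) b
          simp only [kvec, Pi.smul_apply, smul_eq_mul] at h1
          rw [List.count_eq_one_of_mem hn hb] at h1
          have : ((L.flatMap fun i => [i, i]).count b : ℤ) = 2 := by simpa using h1
          have h2 : (L.flatMap fun i => [i, i]).count b = 2 := by exact_mod_cast this
          omega
        rw [kv_del (mem_delK hbd (Or.inr hc)), kv_del hbd]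
        module
      exact Mv.sq b (mL b hb) hPb' _ (mem_mvs h (mL b hb) (mL b hb) (Or.inr (Or.inl rfl)) (by rw [e1]; exact hm)) e1

/-- **The digon lemma for the choice rule** -/
theorem psi_lemD {I : ℕ → Prop} {H : ℕ → (ℕ → ℤ) → Prop} {o : ℕ → ℤ} {t k : ℕ} {Fm Fp : ℕ → Prop}
    (F : Facts I H o t k Fm Fp) {P : ℕ → Bool} (hP : ∀ v, P v = true ↔ Fm v ∧ ¬ Fp v) {c : Cl} (h : ClOK c)
    (hI : ∀ v ∈ clV c, I v ∧ v ≠ t) {d : List ℕ} (hd : d ∈ digs c (psi P c))
    (hk : ∀ m ∈ mvs c d, H k (o - kvec d + kvec m)) : ∃ z, Gv o t Fm Fp z ∧ H (k + 3) z := by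
  have hP0 : ∀ v, P v = false → Fm v → Fp v := by
    intro v hv hm
    by_contra hp
    rw [(hP v).2 ⟨hm, hp⟩] at hv
    cases hv
  rcases psi_moves P h hd with ⟨a, b, ha, hb, hab, hPb, m, hm, e⟩ |
    ⟨a, b, ha, hb, hab, hPa, hPb, m, m', hm, hm', e, e'⟩ | ⟨b, hb, hPb, m, hm, e⟩
  · have h1 := hk m hm
    rw [e] at h1
    have e2 : o - kvec d + (kvec d - ev a + ev b) = o - ev a + ev b := by abel
    rw [e2] at h1
    exact lemD_plus F ((hP b).1 hPb).1 ((hP b).1 hPb).2 (hI a ha).1 (hI a ha).2 hab h1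
  · have h1 := hk m hm
    have h2 := hk m' hm'
    rw [e] at h1
    rw [e'] at h2
    have e2 : o - kvec d + (kvec d - ev a - ev b) = o - ev a - ev b := by abel
    have e3 : o - kvec d + (kvec d - (2 : ℤ) • ev a - (2 : ℤ) • ev b) = o - (2 : ℤ) • ev a - (2 : ℤ) • ev b := by
      abel
    rw [e2] at h1
    rw [e3] at h2
    exact lemD_digon F (hI a ha).1 (hI b hb).1 (hI a ha).2 (hI b hb).2 hab (hP0 a hPa) (hP0 b hPb) h1 h2
  · have h1 := hk m hm
    rw [e] at h1
    have e2 : o - kvec d + (kvec d - (2 : ℤ) • ev b) = o - (2 : ℤ) • ev b := by abel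
    rw [e2] at h1
    exact lemD_sq F (hI b hb).2 (hP0 b hPb) h1

/-! ### polynomial time -/

section pt

variable {ι : Type} [DEnc ι]

theorem pt_clV {c : ι → Cl} (hc : PT c) : PT (fun x => clV (c x)) := by
  have hL := PT.p2 (PT.p2 (PT.p2 hc))
  have hx := PT.p1 (PT.p2 hc)
  have hy := PT.p1 (PT.p2 (PT.p2 hc))
  unfold clV
  exact PT.cond (PT.p1 hc) (PT.cons hx (PT.cons hy hL)) hL

theorem pt_delK {a : ι → ℕ} {k : ι → List ℕ} (ha : PT a) (hk : PT k) : PT (fun x => delK (a x) (k x)) := by
  unfold delK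
  exact PT.append
    (PT.filter hk (p := fun y : ι × ℕ => !decide (y.2 = a y.1)) (PT.bnot (PT.neq PT.snd (ha.comp PT.fst))))
    (PT.tail (PT.filter hk (p := fun y : ι × ℕ => decide (y.2 = a y.1)) (PT.neq PT.snd (ha.comp PT.fst))))

theorem pt_mvs {c : ι → Cl} {d : ι → List ℕ} (hc : PT c) (hd : PT d) : PT (fun x => mvs (c x) (d x)) := by
  have hV := pt_clV hc
  unfold mvs
  refine PT.filter (p := fun y : ι × List ℕ => pmem (exP (c y.1)) y.2) ?_
    (pt_pmem (pt_exP (hc.comp PT.fst)) PT.snd)
  refine PT.flatMap hV (g := fun y : ι × ℕ => (clV (c y.1)).flatMap fun b =>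
    [b :: delK y.2 (d y.1), delK b (delK y.2 (d y.1)), delK b (delK y.2 (delK b (delK y.2 (d y.1))))]) ?_
  refine PT.flatMap (hV.comp PT.fst) (g := fun z : (ι × ℕ) × ℕ =>
    [z.2 :: delK z.1.2 (d z.1.1), delK z.2 (delK z.1.2 (d z.1.1)),
      delK z.2 (delK z.1.2 (delK z.2 (delK z.1.2 (d z.1.1))))]) ?_
  have h1 : PT (fun z : (ι × ℕ) × ℕ => delK z.1.2 (d z.1.1)) := pt_delK PT.fst.p2 (hd.comp PT.fst.p1)
  have h2 : PT (fun z : (ι × ℕ) × ℕ => delK z.2 (delK z.1.2 (d z.1.1))) := pt_delK PT.snd h1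
  have h3 : PT (fun z : (ι × ℕ) × ℕ => delK z.1.2 (delK z.2 (delK z.1.2 (d z.1.1)))) := pt_delK PT.fst.p2 h2
  exact PT.cons (PT.cons PT.snd h1) (PT.cons h2 (PT.cons (pt_delK PT.snd h3) (PT.const [])))

theorem pt_psi {P : ι × ℕ → Bool} {c : ι → Cl} (hP : PT P) (hc : PT c) :
    PT (fun x => psi (fun v => P (x, v)) (c x)) := by
  have hL := PT.p2 (PT.p2 (PT.p2 hc))
  have hx := PT.p1 (PT.p2 hc)
  have hy := PT.p1 (PT.p2 (PT.p2 hc))
  have h0 := PT.headD hL (PT.const 0)
  unfold psi
  exact PT.cond (PT.p1 hc)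
    (PT.cond (hP.comp (PT.pair PT.id hy)) (PT.pair hx h0)
      (PT.cond (hP.comp (PT.pair PT.id hx)) (PT.pair hy h0) (PT.pair hx (PT.headD (PT.filter hL hP) h0))))
    (PT.cond (PT.all hL hP) (PT.const (0, 0)) (PT.const (1, 0)))

end pt

end Pool.Agent.PF4

end

section -- file PF4/PcJ

/-!
Jump sets of vectors on `ℕ`: sums of units, and the cut at 2.
-/

set_option autoImplicit false

namespace Pool.Agent.PF4

open Finset Pool.Agent.TFC
open scoped Pointwise

/-- the part of a jump set below 2 is a jump set -/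
theorem jump_box {V : Type*} [DecidableEq V] {J : Set (V → ℤ)} (hJ : Jump J) :
    Jump {x | x ∈ J ∧ ∀ v, x v ≤ 2} := by
  rintro x ⟨hx, hx2⟩ y ⟨hy, hy2⟩ i ε hε hpos
  obtain ⟨j, δ, hδ, hpos2, hmem⟩ := hJ x hx y hy i ε hε hpos
  refine ⟨j, δ, hδ, hpos2, hmem, ?_⟩
  intro v
  have h1 : (x + Pi.single i ε : V → ℤ) v ≤ 2 := by
    rw [Pi.add_apply, Pi.single_apply]
    split_ifs with h
    · subst h
      have := hx2 v
      have := hy2 v
      rcases hε with rfl | rfl <;> omega
    · have := hx2 v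
      omega
  have h2 : (x + Pi.single i ε + Pi.single j δ : V → ℤ) v =
      (x + Pi.single i ε : V → ℤ) v + (Pi.single j δ : V → ℤ) v := rfl
  rw [h2, Pi.single_apply (i := j)]
  split_ifs with h
  · subst h
    have := hy2 v
    rcases hδ with rfl | rfl <;> omega
  · omega

/-- restriction to the numbers below `N` -/
def resN (N : ℕ) (x : ℕ → ℤ) : Fin N → ℤ := fun v => x v

theorem resN_single {N : ℕ} (i : Fin N) (ε : ℤ) : resN N (Pi.single (i : ℕ) ε) = Pi.single i ε := by
  funext v
  simp only [resN, Pi.single_apply, Fin.ext_iff]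

theorem resN_add {N : ℕ} (x y : ℕ → ℤ) : resN N (x + y) = resN N x + resN N y := rfl

/-- all vectors of `J` vanish from `N` on -/
def Supp (N : ℕ) (J : Set (ℕ → ℤ)) : Prop := ∀ x ∈ J, ∀ v, N ≤ v → x v = 0

theorem jump_res {N : ℕ} {J : Set (ℕ → ℤ)} (hs : Supp N J) (hJ : Jump J) : Jump (resN N '' J) := by
  rintro _ ⟨x, hx, rfl⟩ _ ⟨y, hy, rfl⟩ i ε hε hpos
  obtain ⟨j, δ, hδ, hpos2, hmem⟩ := hJ x hx y hy i ε hε hpos
  have hj : j < N := by
    by_contra h
    rw [not_lt] at h
    rw [Pi.add_apply, hs y hy j h, hs x hx j h, Pi.single_eq_of_ne (by have := i.2; omega)] at hpos2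
    simp at hpos2
  refine ⟨⟨j, hj⟩, δ, hδ, ?_, ⟨_, hmem, ?_⟩⟩
  · rw [← resN_single, ← resN_add]
    exact hpos2
  · rw [resN_add, resN_add, resN_single]
    congr 1
    exact resN_single (⟨j, hj⟩ : Fin N) δ

theorem jump_of_res {N : ℕ} {J : Set (ℕ → ℤ)} (hs : Supp N J) (hJ : Jump (resN N '' J)) : Jump J := by
  intro x hx y hy i ε hε hpos
  have hi : i < N := by
    by_contra h
    rw [not_lt] at h
    rw [hs y hy i h, hs x hx i h] at hpos
    simp at hpos
  obtain ⟨j, δ, hδ, hpos2, z, hz, hz2⟩ := hJ _ ⟨x, hx, rfl⟩ _ ⟨y, hy, rfl⟩ ⟨i, hi⟩ ε hε hpos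
  have e1 := resN_single (⟨i, hi⟩ : Fin N) ε
  have e2 := resN_single j δ
  refine ⟨j, δ, hδ, ?_, ?_⟩
  · rw [← e1, ← resN_add] at hpos2
    exact hpos2
  · have : z = x + Pi.single i ε + Pi.single (j : ℕ) δ := by
      funext v
      by_cases hv : v < N
      · have := congrFun hz2 ⟨v, hv⟩
        rw [← e1, ← e2, ← resN_add, ← resN_add] at this
        exact this
      · rw [not_lt] at hv
        rw [hs z hz v hv, Pi.add_apply, Pi.add_apply, hs x hx v hv,
          Pi.single_eq_of_ne (by omega), Pi.single_eq_of_ne (by have := j.2; omega)]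
        simp
    rw [← this]
    exact hz

theorem Supp.add {N : ℕ} {J₁ J₂ : Set (ℕ → ℤ)} (h₁ : Supp N J₁) (h₂ : Supp N J₂) :
    Supp N (J₁ + J₂) := by
  rintro _ ⟨x, hx, y, hy, rfl⟩ v hv
  show x v + y v = 0
  rw [h₁ x hx v hv, h₂ y hy v hv, add_zero]

theorem Supp.mono {N M : ℕ} {J : Set (ℕ → ℤ)} (h : Supp N J) (hNM : N ≤ M) : Supp M J :=
  fun x hx v hv => h x hx v (hNM.trans hv)

theorem jump_add_nat {N : ℕ} {J₁ J₂ : Set (ℕ → ℤ)} (h₁ : Jump J₁) (h₂ : Jump J₂) (s₁ : Supp N J₁)
    (s₂ : Supp N J₂) : Jump (J₁ + J₂) := by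
  refine jump_of_res (s₁.add s₂) ?_
  have e : resN N '' (J₁ + J₂) = resN N '' J₁ + resN N '' J₂ := by
    ext z
    constructor
    · rintro ⟨_, ⟨x, hx, y, hy, rfl⟩, rfl⟩
      exact ⟨_, ⟨x, hx, rfl⟩, _, ⟨y, hy, rfl⟩, rfl⟩
    · rintro ⟨_, ⟨x, hx, rfl⟩, _, ⟨y, hy, rfl⟩, rfl⟩
      exact ⟨_, ⟨x, hx, y, hy, rfl⟩, rfl⟩
  rw [e]
  exact (jump_res s₁ h₁).add (jump_res s₂ h₂)

theorem supp_Un (S T : Finset ℕ) : ∃ N, Supp N (Un S T) := by
  refine ⟨(S ∪ T).sup id + 1, ?_⟩
  rintro _ (rfl | ⟨s, hs, t, ht, rfl⟩) v hv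
  · rfl
  · have h1 : s ≤ (S ∪ T).sup id := Finset.le_sup (f := id) (Finset.mem_union_left _ hs)
    have h2 : t ≤ (S ∪ T).sup id := Finset.le_sup (f := id) (Finset.mem_union_right _ ht)
    rw [Pi.add_apply, ev, ev, Pi.single_eq_of_ne (by omega), Pi.single_eq_of_ne (by omega)]
    rfl

theorem supp_sumU (us : List (Finset ℕ × Finset ℕ)) : ∃ N, Supp N (sumU us) := by
  induction us with
  | nil =>
    refine ⟨0, ?_⟩
    rintro x hx v _
    rw [show x = 0 from hx]
    rfl
  | cons u us ih =>
    obtain ⟨N, hN⟩ := ih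
    obtain ⟨M, hM⟩ := supp_Un u.1 u.2
    exact ⟨max M N, (hM.mono (le_max_left _ _)).add (hN.mono (le_max_right _ _))⟩

/-- sums of units on `ℕ` are jump sets -/
theorem jump_sumU_nat (us : List (Finset ℕ × Finset ℕ)) : Jump (sumU us) := by
  induction us with
  | nil => exact jump_zero
  | cons u us ih =>
    obtain ⟨N, hN⟩ := supp_sumU us
    obtain ⟨M, hM⟩ := supp_Un u.1 u.2
    exact jump_add_nat (jump_Un u.1 u.2) ih (hM.mono (le_max_left _ _)) (hN.mono (le_max_right _ _))

/-- sums of units cut at 2 -/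
theorem jump_sumU_box (us : List (Finset ℕ × Finset ℕ)) : Jump {x | x ∈ sumU us ∧ ∀ v, x v ≤ 2} :=
  jump_box (jump_sumU_nat us)

end Pool.Agent.PF4

end

section -- file PF4/GadT

/-!
2-factors without 4-cycles in polynomial time: the matching gadget with degree intervals in terms of the sums
of units `sumU`.
-/

set_option autoImplicit false

namespace Pool.Agent.PF4.Gd

open Finset Pool.Agent.TFC
open scoped Pointwise

/-- the unit of a pair of lists -/
def tf (u : List ℕ × List ℕ) : Finset ℕ × Finset ℕ := (u.1.toFinset, u.2.toFinset)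

theorem ev_apply (s v : ℕ) : (ev s : ℕ → ℤ) v = if s = v then 1 else 0 := by
  simp only [ev, Pi.single_apply, eq_comm]

theorem chU_Un {n : ℕ} {u : List ℕ × List ℕ} {c : List (ℕ × ℕ)} (h : ChU n u c) :
    (fun v => (useU c v : ℤ)) ∈ Un (tf u).1 (tf u).2 := by
  rcases h with rfl | ⟨s, hs, t, ht, _, _, rfl⟩
  · left
    funext v
    simp [useU_nil]
  · right
    refine ⟨s, by simpa [tf] using hs, t, by simpa [tf] using ht, ?_⟩
    funext v
    rw [useU_single, Pi.add_apply, ev_apply, ev_apply]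
    push_cast
    rfl

/-- the degree vector of a choice list is a sum of units -/
theorem ch_sumU {n : ℕ} {us : List (List ℕ × List ℕ)} {C : List (List (ℕ × ℕ))}
    (h : List.Forall₂ (ChU n) us C) : (fun v => (use C v : ℤ)) ∈ sumU (us.map tf) := by
  induction h with
  | nil =>
    simp only [List.map_nil, sumU, Set.mem_singleton_iff]
    funext v
    simp [use_nil]
  | @cons u c us C h1 _ ih =>
    rw [List.map_cons, sumU, Set.mem_add]
    refine ⟨_, chU_Un h1, _, ih, ?_⟩
    funext v
    rw [Pi.add_apply, use_cons]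
    push_cast
    rfl

/-- every sum of units is the degree vector of a choice list -/
theorem sumU_ch {n : ℕ} {us : List (List ℕ × List ℕ)}
    (hn : ∀ u ∈ us, (∀ s ∈ u.1, s < n) ∧ ∀ t ∈ u.2, t < n) {x : ℕ → ℤ} (hx : x ∈ sumU (us.map tf)) :
    ∃ C, List.Forall₂ (ChU n) us C ∧ ∀ v, x v = use C v := by
  induction us generalizing x with
  | nil =>
    simp only [List.map_nil, sumU, Set.mem_singleton_iff] at hx
    subst hx
    exact ⟨[], List.Forall₂.nil, fun v => by simp [use_nil]⟩
  | cons u us ih =>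
    rw [List.map_cons, sumU, Set.mem_add] at hx
    obtain ⟨a, ha, b, hb, rfl⟩ := hx
    obtain ⟨C, hC, hb'⟩ := ih (fun w hw => hn w (List.mem_cons_of_mem _ hw)) hb
    have hu := hn u List.mem_cons_self
    rcases ha with rfl | ⟨s, hs, t, ht, rfl⟩
    · refine ⟨[] :: C, List.Forall₂.cons (Or.inl rfl) hC, fun v => ?_⟩
      rw [use_cons, useU_nil, Pi.add_apply, hb']
      simp
    · have hs' : s ∈ u.1 := by simpa [tf] using hs
      have ht' : t ∈ u.2 := by simpa [tf] using ht
      refine ⟨[(s, t)] :: C,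
        List.Forall₂.cons (Or.inr ⟨s, hs', t, ht', hu.1 s hs', hu.2 t ht', rfl⟩) hC, fun v => ?_⟩
      rw [use_cons, useU_single, Pi.add_apply, Pi.add_apply, ev_apply, ev_apply, hb']
      push_cast
      rfl

end Pool.Agent.PF4.Gd

end

section -- file PF4/PcK2

/-!
# Pieces: jump sets, the units of the relaxed `K2`, and the pieces of the solver as `PcOK`
-/

set_option autoImplicit false

namespace Pool.Agent.PF4

open Finset Pool.Agent.TFC Pool.Agent.Lib.helper60
open scoped Pointwise

/-! ### sums of units -/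

theorem sumU_perm {us vs : List (Finset ℕ × Finset ℕ)} (h : us.Perm vs) : sumU us = sumU vs := by
  induction h with
  | nil => rfl
  | cons u _ ih =>
    show Un u.1 u.2 + sumU _ = Un u.1 u.2 + sumU _
    rw [ih]
  | swap u v l =>
    show Un v.1 v.2 + (Un u.1 u.2 + sumU l) = Un u.1 u.2 + (Un v.1 v.2 + sumU l)
    exact add_left_comm _ _ _
  | trans _ _ ih1 ih2 => rw [ih1, ih2]

theorem zero_mem_sumU (us : List (Finset ℕ × Finset ℕ)) : (0 : ℕ → ℤ) ∈ sumU us := by
  induction us with
  | nil => rfl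
  | cons u us ih =>
    have := Set.add_mem_add (show (0 : ℕ → ℤ) ∈ Un u.1 u.2 from Or.inl rfl) ih
    rwa [add_zero] at this

/-! ### the relaxed `K2` is the sum of its units, cut at 2 -/

/-! ### jump sets -/

theorem none4_sym : AlSym (none4 : ℕ → ℕ → ℕ → ℕ → Prop) := ⟨fun _ _ _ _ h => h, fun _ _ _ _ h => h⟩

theorem pcS_plain (E : List Ed) : pcS (true, E, []) = JS (fs E) none4 := by
  ext x
  simp [pcS]

theorem jump_plain (E : List Ed) : Jump (pcS (true, E, [])) := by
  rw [pcS_plain]
  exact jump_JS none4_sym _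

theorem jump_exP (c : Cl) : Jump (pcS (exP c)) := jump_plain (clE c)

theorem pcS_pair (u v : ℕ) : pcS (true, [], [[u, v]]) = Un {u} {v} := by
  ext x
  simp only [pcS, List.mem_singleton, exists_eq_left, true_and, Set.mem_ofPred_eq]
  constructor
  · rintro (rfl | ⟨z, hz, _, _, rfl⟩)
    · right
      refine ⟨u, Finset.mem_singleton_self _, v, Finset.mem_singleton_self _, ?_⟩
      rw [kv_cons, kv_cons, kv_nil, add_zero]
    · left
      have : z = ∅ := by
        rw [fs_nil] at hz
        exact Finset.subset_empty.1 hz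
      rw [this, Unit_dv0]
  · rintro (rfl | ⟨s, hs, t, ht, rfl⟩)
    · right
      refine ⟨∅, Finset.empty_subset _, ⟨by intro e he; simp at he, fun w => by simp [dg]⟩, ?_, Unit_dv0.symm⟩
      intro a b c d h
      have := h.ab
      simp at this
    · left
      rw [Finset.mem_singleton] at hs ht
      subst hs ht
      rw [kv_cons, kv_cons, kv_nil, add_zero]

theorem jump_pair (u v : ℕ) : Jump (pcS (true, [], [[u, v]])) := by
  rw [pcS_pair]
  exact jump_Un _ _

theorem pcS_alt (u v : ℕ) : pcS (false, [], [[u], [v]]) = {ev u, ev v} := by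
  ext x
  simp only [pcS, List.mem_cons, List.not_mem_nil, or_false, exists_eq_or_imp, exists_eq_left, Bool.false_eq_true,
    false_and, Set.mem_ofPred_eq, Set.mem_insert_iff, Set.mem_singleton_iff, kv_cons, kv_nil, add_zero]

theorem jump_alt (u v : ℕ) : Jump (pcS (false, [], [[u], [v]])) := by
  rw [pcS_alt]
  have key : ∀ a b : ℕ, ∀ (i : ℕ) (ε : ℤ), (ε = 1 ∨ ε = -1) → 0 < ε * ((ev b : ℕ → ℤ) i - (ev a : ℕ → ℤ) i) →
      ∃ (j : ℕ) (δ : ℤ), (δ = 1 ∨ δ = -1) ∧ 0 < δ * ((ev b : ℕ → ℤ) j - (ev a + Pi.single i ε : ℕ → ℤ) j) ∧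
        ev a + Pi.single i ε + Pi.single j δ = (ev b : ℕ → ℤ) := by
    intro a b i ε hε hpos
    have hab : a ≠ b := by
      rintro rfl
      simp at hpos
    simp only [TFC.ev_apply] at hpos
    by_cases hib : i = b
    · subst hib
      have hε1 : ε = 1 := by
        rcases hε with rfl | rfl
        · rfl
        · rw [if_pos rfl, if_neg hab.symm] at hpos
          norm_num at hpos
      subst hε1
      refine ⟨a, -1, Or.inr rfl, ?_, ?_⟩
      · rw [Pi.add_apply, TFC.ev_apply, TFC.ev_apply, if_neg hab, if_pos rfl, Pi.single_eq_of_ne hab]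
        norm_num
      · rw [single_neg_one, single_one]
        abel
    · rw [if_neg hib] at hpos
      have hia : i = a := by
        by_contra hia
        rw [if_neg hia] at hpos
        simp at hpos
      subst hia
      have hε1 : ε = -1 := by
        rcases hε with rfl | rfl
        · rw [if_pos rfl] at hpos
          norm_num at hpos
        · rfl
      subst hε1
      refine ⟨b, 1, Or.inl rfl, ?_, ?_⟩
      · rw [Pi.add_apply, TFC.ev_apply, TFC.ev_apply, if_pos rfl, if_neg hab.symm, Pi.single_eq_of_ne hab.symm]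
        norm_num
      · rw [single_neg_one, single_one]
        abel
  rintro x (rfl | rfl) y (rfl | rfl) i ε hε hpos
  · simp at hpos
  · obtain ⟨j, δ, h1, h2, h3⟩ := key _ _ i ε hε hpos
    exact ⟨j, δ, h1, h2, by rw [h3]; exact Or.inr rfl⟩
  · obtain ⟨j, δ, h1, h2, h3⟩ := key _ _ i ε hε hpos
    exact ⟨j, δ, h1, h2, by rw [h3]; exact Or.inl rfl⟩
  · simp at hpos

/-! ### the pieces as `PcOK` -/

theorem vec_kvec (k : List ℕ) : vec k = kvec k := by
  funext v
  rw [vec, kvec, cnt_eq]

theorem eqK_perm {k l : List ℕ} (h : eqK k l = true) : k.Perm l := by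
  rw [eqK_iff] at h
  rw [List.perm_iff_count]
  intro v
  have := congrFun h v
  unfold kvec at this
  exact_mod_cast this

theorem length_ends2 (S : List Ed) : (ends2 S).length = 2 * S.length := by
  induction S with
  | nil => rfl
  | cons e S ih =>
    have : ends2 (e :: S) = [e.1, e.2] ++ ends2 S := rfl
    rw [this, List.length_append, ih, List.length_cons]
    simp only [List.length_cons, List.length_nil]
    omega

/-- bounds for the additional vectors and the edges -/
structure PcB (m : ℕ) (p : Pc) : Prop where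
  len : ∀ l ∈ p.2.2, l.length ≤ 8
  ent : ∀ l ∈ p.2.2, ∀ v ∈ l, v ≤ m
  edg : ∀ e ∈ p.2.1, e.1 ≤ m ∧ e.2 ≤ m

theorem pcok {m : ℕ} {p : Pc} (hb : PcB m p) (hc : Card4 p) (hJ : Jump (pcS p)) : PcOK pmem m p := by
  have key : ∀ k, pmem p k = true → ∃ l, k.Perm l ∧ l.length ≤ 8 ∧ ∀ v ∈ l, v ≤ m := by
    intro k hk
    unfold pmem at hk
    rw [Bool.or_eq_true, Bool.and_eq_true, List.any_eq_true, List.any_eq_true] at hk
    rcases hk with ⟨l, hl, h1⟩ | ⟨_, S, hS, h1⟩
    · exact ⟨l, eqK_perm h1, hb.len l hl, hb.ent l hl⟩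
    · rw [Bool.and_eq_true] at h1
      obtain ⟨h2, h3⟩ := mem_subs.1 hS
      refine ⟨ends2 S, eqK_perm h1.2, by rw [length_ends2]; omega, ?_⟩
      intro v hv
      simp only [ends2, List.mem_flatMap, List.mem_cons, List.not_mem_nil, or_false] at hv
      obtain ⟨e, he, rfl | rfl⟩ := hv
      · exact (hb.edg e (h3 e he)).1
      · exact (hb.edg e (h3 e he)).2
  refine PcOK.of hJ (fun k => ?_) ?_ ?_
  · rw [vec_kvec]
    exact pmem_iff hc k
  · intro k hk
    obtain ⟨l, h1, h2, _⟩ := key k hk
    rw [h1.length_eq]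
    exact h2
  · intro k hk v hv
    obtain ⟨l, h1, _, h2⟩ := key k hk
    exact h2 v (h1.mem_iff.1 hv)

/-- all entries of the cluster are at most `m` -/
def ClB (m : ℕ) (c : Cl) : Prop := (∀ l ∈ c.2.2.2, l ≤ m) ∧ (c.1 = true → c.2.1 ≤ m ∧ c.2.2.1 ≤ m)

theorem clE_le {m : ℕ} {c : Cl} (h : ClB m c) : ∀ e ∈ clE c, e.1 ≤ m ∧ e.2 ≤ m := by
  obtain ⟨b, x, y, L⟩ := c
  obtain ⟨h1, h2⟩ := h
  simp only at h1 h2
  intro e he
  cases b with
  | true =>
    simp only [clE, cond_true, List.mem_append, List.mem_map] at he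
    rcases he with ⟨l, hl, rfl⟩ | ⟨l, hl, rfl⟩
    · exact ⟨(h2 rfl).1, h1 l hl⟩
    · exact ⟨(h2 rfl).2, h1 l hl⟩
  | false =>
    simp only [clE, cond_false, prs, List.mem_filter, mem_prd] at he
    exact ⟨h1 _ he.1.1, h1 _ he.1.2⟩

theorem pcb_exP {m : ℕ} {c : Cl} (h : ClB m c) : PcB m (exP c) :=
  ⟨by simp [exP], by simp [exP], clE_le h⟩

theorem pcb_rxP {m : ℕ} {c : Cl} (h : ClB m c) (ho : ClOK c) {ch : ℕ × ℕ} (hc : ChOK c ch) : PcB m (rxP c ch) := by
  have key : ∀ d ∈ digs c ch, d.length ≤ 8 ∧ ∀ v ∈ d, v ≤ m := by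
    obtain ⟨b, x, y, L⟩ := c
    obtain ⟨w, r⟩ := ch
    obtain ⟨h1, h2⟩ := h
    simp only at h1 h2
    intro d hd
    cases b with
    | true =>
      have hw : w ≤ m := by
        rcases (hc rfl).1 with e | e
        · simp only at e
          rw [e]; exact (h2 rfl).1
        · simp only at e
          rw [e]; exact (h2 rfl).2
      simp only [digs, cond_true, List.mem_map, List.mem_filter] at hd
      obtain ⟨l, hl, rfl⟩ := hd
      refine ⟨by simp, ?_⟩
      intro v hv
      simp only [List.mem_cons, List.not_mem_nil, or_false] at hv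
      rcases hv with rfl | rfl | rfl | rfl
      · exact hw
      · exact hw
      · exact h1 _ hl.1
      · exact h1 _ hl.1
    | false =>
      have h4 := ho.k4 rfl
      simp only at h4
      by_cases hw : w = 0
      · simp only [digs, cond_false, hw, decide_true, cond_true, List.mem_append, List.mem_map] at hd
        rcases hd with ⟨i, hi, rfl⟩ | ⟨e, he, rfl⟩
        · refine ⟨by simp, ?_⟩
          intro v hv
          simp only [List.mem_cons, List.not_mem_nil, or_false, or_self] at hv
          rw [hv]; exact h1 _ hi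
        · simp only [prs, List.mem_filter, mem_prd] at he
          refine ⟨by simp, ?_⟩
          intro v hv
          simp only [List.mem_cons, List.not_mem_nil, or_false] at hv
          rcases hv with rfl | rfl | rfl | rfl
          · exact h1 _ he.1.1
          · exact h1 _ he.1.1
          · exact h1 _ he.1.2
          · exact h1 _ he.1.2
      · simp only [digs, cond_false, hw, decide_false, List.mem_singleton] at hd
        subst hd
        have hl : ∀ M : List ℕ, (M.flatMap fun i => [i, i]).length = 2 * M.length := by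
          intro M
          induction M with
          | nil => rfl
          | cons a M ih =>
            rw [List.flatMap_cons, List.length_append, ih, List.length_cons]
            simp only [List.length_cons, List.length_nil]
            omega
        refine ⟨by rw [hl, h4], ?_⟩
        intro v hv
        simp only [List.mem_flatMap, List.mem_cons, List.not_mem_nil, or_false, or_self] at hv
        obtain ⟨i, hi, rfl⟩ := hv
        exact h1 _ hi
  exact ⟨fun l hl => (key l hl).1, fun l hl => (key l hl).2, clE_le h⟩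

theorem pcok_exP {m : ℕ} {c : Cl} (h : ClB m c) (ho : ClOK c) : PcOK pmem m (exP c) :=
  pcok (pcb_exP h) (card4_exP ho) (jump_exP c)

theorem pcok_rxP {m : ℕ} {c : Cl} (h : ClB m c) (ho : ClOK c) {ch : ℕ × ℕ} (hc : ChOK c ch)
    (hJ : Jump (pcS (rxP c ch))) : PcOK pmem m (rxP c ch) :=
  pcok (pcb_rxP h ho hc) (card4_rxP ho ch) hJ

theorem card4_nil (X : List (List ℕ)) : Card4 (true, [], X) := by
  intro _ z hz _ _
  have : z = ∅ := Finset.subset_empty.1 hz
  rw [this]
  simp

theorem card4_edge (e : Ed) (X : List (List ℕ)) : Card4 (true, [e], X) := by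
  intro _ z hz _ _
  have h1 := Finset.card_le_card hz
  have h2 : #(fs [e]) ≤ 1 := by
    rw [fs_cons, fs_nil]
    exact (Finset.card_insert_le _ _).trans (by simp)
  simp only at h1
  omega

theorem pcok_edge {m : ℕ} {e : Ed} (h1 : e.1 ≤ m) (h2 : e.2 ≤ m) : PcOK pmem m (true, [e], []) :=
  pcok ⟨by simp, by simp, by simpa using ⟨h1, h2⟩⟩ (card4_edge e []) (jump_plain [e])

theorem pcok_pair {m u v : ℕ} (h1 : u ≤ m) (h2 : v ≤ m) : PcOK pmem m (true, [], [[u, v]]) :=
  pcok ⟨by simp, by simpa using ⟨h1, h2⟩, by simp⟩ (card4_nil _) (jump_pair u v)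

theorem pcok_alt {m u v : ℕ} (h1 : u ≤ m) (h2 : v ≤ m) : PcOK pmem m (false, [], [[u], [v]]) :=
  pcok ⟨by simp, by simpa using ⟨h1, h2⟩, by simp⟩ (fun h => by cases h) (jump_alt u v)

end Pool.Agent.PF4

end

section -- file PF4/Cap

/-!
2-factors without 4-cycles in polynomial time: the round gadget. `ps` is a list of pieces, a piece is a list
of units; the vector of a piece (a list of vertices with multiplicity) is at most 2 at each vertex. The sum
of the vectors is `τ - e_v` with `v` in `Um` or `τ + e_v` with `v` in `Up`.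
-/

set_option autoImplicit false

namespace Pool.Agent.PF4.Gd

open Finset Pool.Agent.Lib.helper60

/-! ### definitions -/

/-- shift a unit -/
def shU (n o : ℕ) (u : List ℕ × List ℕ) : List ℕ × List ℕ :=
  ((u.1.filter fun s => decide (s < n)).map fun s => o + s,
    (u.2.filter fun s => decide (s < n)).map fun s => o + s)

/-- the units of the pieces, for each piece its own copy of the vertices -/
def pcU (n o : ℕ) (ps : List (List (List ℕ × List ℕ))) : List (List ℕ × List ℕ) :=
  (List.range ps.length).flatMap fun j => (ps.getD j []).map fun u => shU n (o + n * j) u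

/-- units which join two numbers -/
def sU (m : ℕ) (f g : ℕ → ℕ) : List (List ℕ × List ℕ) := (List.range m).map fun i => ([f i], [g i])

/-- remainder -/
def md (n y : ℕ) : ℕ := y - n * quo n y

/-- the first number of the slots -/
def c0 (n : ℕ) : ℕ := 2 * n + 1

/-- the ends of the token -/
def tok (n : ℕ) (Um Up : List ℕ) : List ℕ × List ℕ :=
  ((Um.filter fun s => decide (s < n)) ++ ((Up.filter fun s => decide (s < n)).map fun s => n + s),
    [2 * n])

/-- the units of the round gadget -/
def capU (n : ℕ) (ps : List (List (List ℕ × List ℕ))) (Um Up : List ℕ) : List (List ℕ × List ℕ) :=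
  pcU n (c0 n) ps ++
  (sU (n * ps.length) (fun y => c0 n + y) (fun y => c0 n + n * ps.length + y) ++
  (sU (n * ps.length) (fun y => c0 n + y) (fun y => c0 n + n * ps.length + y) ++
  (sU (n * ps.length) (fun y => c0 n + n * ps.length + y) (fun y => md n y) ++
  (sU (n * ps.length) (fun y => c0 n + n * ps.length + y) (fun y => md n y) ++
  (sU n (fun v => v) (fun v => n + v) ++ [tok n Um Up])))))

/-- the number of the vertices of the round gadget -/
def capN (n J : ℕ) : ℕ := c0 n + n * J + n * J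

/-- the bounds of the round gadget -/
def capB (n : ℕ) (τ : List ℕ) (J : ℕ) : List ℕ := (List.range (capN n J)).map fun x =>
  bif decide (x < n) then τ.getD x 0 + 1 else bif decide (x < c0 n) then 1 else 2

/-- is there a configuration? -/
def capF (n : ℕ) (τ : List ℕ) (ps : List (List (List ℕ × List ℕ))) (Um Up : List ℕ) : Bool :=
  feas (capN n ps.length) (capU n ps Um Up) (capB n τ ps.length) (capB n τ ps.length)

/-- the choice -/
def capC (n : ℕ) (τ : List ℕ) (ps : List (List (List ℕ × List ℕ))) (Um Up : List ℕ) :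
    List (List (ℕ × ℕ)) :=
  sel (capN n ps.length) (capU n ps Um Up) (capB n τ ps.length) (capB n τ ps.length)

/-- the reversed choice, without the part which is not about the pieces -/
def capD (n : ℕ) (τ : List ℕ) (ps : List (List (List ℕ × List ℕ))) (Um Up : List ℕ) :
    List (List (ℕ × ℕ)) :=
  (capC n τ ps Um Up).reverse.drop (n * ps.length + (n * ps.length + (n * ps.length +
    (n * ps.length + (n + 1)))))

/-- the end points of a choice -/
def vec (C : List (List (ℕ × ℕ))) : List ℕ := C.flatten.flatMap fun e => [e.1, e.2]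

/-- the part of a vector in a block -/
def blk (n o : ℕ) (l : List ℕ) : List ℕ :=
  (l.filter fun x => decide (o ≤ x) && decide (x < o + n)).map fun x => x - o

/-- the vectors of the pieces -/
def capS (n : ℕ) (τ : List ℕ) (ps : List (List (List ℕ × List ℕ))) (Um Up : List ℕ) :
    List (List ℕ) :=
  (List.range ps.length).map fun j => blk n (c0 n + n * j) (vec (capD n τ ps Um Up))

/-- the port (`s`: `τ - e_s`; `n + v`: `τ + e_v`) -/
def capP (n : ℕ) (τ : List ℕ) (ps : List (List (List ℕ × List ℕ))) (Um Up : List ℕ) : ℕ :=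
  (vec [(capC n τ ps Um Up).reverse.headD []]).headD 0

/-- `k` is a vector of the piece `p`, at most 2 everywhere -/
def PV (n : ℕ) (p : List (List ℕ × List ℕ)) (k : List ℕ) : Prop :=
  ∃ C, List.Forall₂ (ChU n) p C ∧ ∀ v, k.count v = use C v ∧ k.count v ≤ 2

/-- `ks` are vectors of the pieces; their sum is at the port `s` -/
structure Cfg (n : ℕ) (τ : List ℕ) (ps : List (List (List ℕ × List ℕ))) (Um Up : List ℕ)
    (ks : List (List ℕ)) (s : ℕ) : Prop where
  pv : List.Forall₂ (PV n) ps ks
  port : (s ∈ Um ∧ s < n ∧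
      ∀ v < n, (ks.map fun k => k.count v).sum + (if s = v then 1 else 0) = τ.getD v 0) ∨
    (∃ v₀ ∈ Up, v₀ < n ∧ s = n + v₀ ∧
      ∀ v < n, (ks.map fun k => k.count v).sum = τ.getD v 0 + (if v₀ = v then 1 else 0))

/-! ### polynomial time -/

variable {ι : Type} [DEnc ι]

theorem pt_shU {n o : ι → ℕ} {u : ι → List ℕ × List ℕ} (hn : PT n) (ho : PT o) (hu : PT u) :
    PT (fun x => shU (n x) (o x) (u x)) := by
  have h : ∀ {l : ι → List ℕ}, PT l →
      PT (fun x => ((l x).filter fun s => decide (s < n x)).map fun s => o x + s) := fun hl =>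
    PT.map (PT.filter hl (p := fun y : ι × ℕ => decide (y.2 < n y.1)) (PT.nlt PT.snd (hn.comp PT.fst)))
      (g := fun y : ι × ℕ => o y.1 + y.2) (PT.nadd (ho.comp PT.fst) PT.snd)
  exact PT.pair (h (PT.p1 hu)) (h (PT.p2 hu))

theorem pt_pcU {n o : ι → ℕ} {ps : ι → List (List (List ℕ × List ℕ))} (hn : PT n) (ho : PT o)
    (hp : PT ps) : PT (fun x => pcU (n x) (o x) (ps x)) := by
  refine PT.flatMap (PT.range (PT.length hp)) (g := fun y : ι × ℕ =>
    ((ps y.1).getD y.2 []).map fun u => shU (n y.1) (o y.1 + n y.1 * y.2) u) ?_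
  refine PT.map (PT.getD (hp.comp PT.fst) PT.snd (PT.const [])) (g := fun z : (ι × ℕ) × (List ℕ × List ℕ) =>
    shU (n z.1.1) (o z.1.1 + n z.1.1 * z.1.2) z.2) ?_
  exact pt_shU (hn.comp (PT.p1 PT.fst)) (PT.nadd (ho.comp (PT.p1 PT.fst))
    (PT.nmul (hn.comp (PT.p1 PT.fst)) (PT.p2 PT.fst))) PT.snd

theorem pt_sU {m : ι → ℕ} {f g : ι × ℕ → ℕ} (hm : PT m) (hf : PT f) (hg : PT g) :
    PT (fun x => sU (m x) (fun y => f (x, y)) (fun y => g (x, y))) :=
  PT.map (PT.range hm) (g := fun y : ι × ℕ => ([f y], [g y]))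
    (PT.pair (PT.cons hf (PT.const [])) (PT.cons hg (PT.const [])))

theorem pt_md {n y : ι → ℕ} (hn : PT n) (hy : PT y) : PT (fun x => md (n x) (y x)) :=
  PT.nsub hy (PT.nmul hn (pt_quo hn hy))

theorem pt_c0 {n : ι → ℕ} (hn : PT n) : PT (fun x => c0 (n x)) :=
  PT.nsucc (PT.nmul (PT.const 2) hn)

theorem pt_tok {n : ι → ℕ} {Um Up : ι → List ℕ} (hn : PT n) (hm : PT Um) (hp : PT Up) :
    PT (fun x => tok (n x) (Um x) (Up x)) := by
  have h : ∀ {l : ι → List ℕ}, PT l → PT (fun x => (l x).filter fun s => decide (s < n x)) := fun hl =>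
    PT.filter hl (p := fun y : ι × ℕ => decide (y.2 < n y.1)) (PT.nlt PT.snd (hn.comp PT.fst))
  exact PT.pair (PT.append (h hm) (PT.map (h hp) (g := fun y : ι × ℕ => n y.1 + y.2)
    (PT.nadd (hn.comp PT.fst) PT.snd))) (PT.cons (PT.nmul (PT.const 2) hn) (PT.const []))

theorem pt_capU {n : ι → ℕ} {ps : ι → List (List (List ℕ × List ℕ))} {Um Up : ι → List ℕ} (hn : PT n)
    (hps : PT ps) (hm : PT Um) (hp : PT Up) : PT (fun x => capU (n x) (ps x) (Um x) (Up x)) := by
  have hJ : PT (fun x => n x * (ps x).length) := PT.nmul hn (PT.length hps)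
  have h1 : PT (fun y : ι × ℕ => c0 (n y.1) + y.2) := PT.nadd (pt_c0 (hn.comp PT.fst)) PT.snd
  have h2 : PT (fun y : ι × ℕ => c0 (n y.1) + n y.1 * (ps y.1).length + y.2) :=
    PT.nadd (PT.nadd (pt_c0 (hn.comp PT.fst)) (hJ.comp PT.fst)) PT.snd
  have h3 : PT (fun y : ι × ℕ => md (n y.1) y.2) := pt_md (hn.comp PT.fst) PT.snd
  have s1 := pt_sU hJ h1 h2
  have s2 := pt_sU hJ h2 h3
  have s3 := pt_sU (f := fun y : ι × ℕ => y.2) (g := fun y : ι × ℕ => n y.1 + y.2) hn PT.snd
    (PT.nadd (hn.comp PT.fst) PT.snd)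
  exact PT.append (pt_pcU hn (pt_c0 hn) hps) (PT.append s1 (PT.append s1 (PT.append s2 (PT.append s2
    (PT.append s3 (PT.cons (pt_tok hn hm hp) (PT.const [])))))))

theorem pt_capN {n J : ι → ℕ} (hn : PT n) (hJ : PT J) : PT (fun x => capN (n x) (J x)) :=
  PT.nadd (PT.nadd (pt_c0 hn) (PT.nmul hn hJ)) (PT.nmul hn hJ)

theorem pt_capB {n J : ι → ℕ} {τ : ι → List ℕ} (hn : PT n) (hτ : PT τ) (hJ : PT J) :
    PT (fun x => capB (n x) (τ x) (J x)) := by
  refine PT.map (PT.range (pt_capN hn hJ)) (g := fun y : ι × ℕ =>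
    bif decide (y.2 < n y.1) then (τ y.1).getD y.2 0 + 1 else
      bif decide (y.2 < c0 (n y.1)) then 1 else 2) ?_
  exact PT.cond (PT.nlt PT.snd (hn.comp PT.fst))
    (PT.nsucc (PT.getD (hτ.comp PT.fst) PT.snd (PT.const 0)))
    (PT.cond (PT.nlt PT.snd (pt_c0 (hn.comp PT.fst))) (PT.const 1) (PT.const 2))

theorem pt_capF {n : ι → ℕ} {τ : ι → List ℕ} {ps : ι → List (List (List ℕ × List ℕ))}
    {Um Up : ι → List ℕ} (hn : PT n) (hτ : PT τ) (hps : PT ps) (hm : PT Um) (hp : PT Up) :
    PT (fun x => capF (n x) (τ x) (ps x) (Um x) (Up x)) :=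
  pt_feas (pt_capN hn (PT.length hps)) (pt_capU hn hps hm hp) (pt_capB hn hτ (PT.length hps))
    (pt_capB hn hτ (PT.length hps))

theorem pt_capC {n : ι → ℕ} {τ : ι → List ℕ} {ps : ι → List (List (List ℕ × List ℕ))}
    {Um Up : ι → List ℕ} (hn : PT n) (hτ : PT τ) (hps : PT ps) (hm : PT Um) (hp : PT Up) :
    PT (fun x => capC (n x) (τ x) (ps x) (Um x) (Up x)) :=
  pt_sel (pt_capN hn (PT.length hps)) (pt_capU hn hps hm hp) (pt_capB hn hτ (PT.length hps))
    (pt_capB hn hτ (PT.length hps))

theorem pt_capD {n : ι → ℕ} {τ : ι → List ℕ} {ps : ι → List (List (List ℕ × List ℕ))}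
    {Um Up : ι → List ℕ} (hn : PT n) (hτ : PT τ) (hps : PT ps) (hm : PT Um) (hp : PT Up) :
    PT (fun x => capD (n x) (τ x) (ps x) (Um x) (Up x)) := by
  have hJ : PT (fun x => n x * (ps x).length) := PT.nmul hn (PT.length hps)
  exact PT.drop (PT.nadd hJ (PT.nadd hJ (PT.nadd hJ (PT.nadd hJ (PT.nsucc hn)))))
    (PT.reverse (pt_capC hn hτ hps hm hp))

theorem pt_vec {C : ι → List (List (ℕ × ℕ))} (hC : PT C) : PT (fun x => vec (C x)) :=
  PT.flatMap (PT.flatten hC) (g := fun y : ι × (ℕ × ℕ) => [y.2.1, y.2.2])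
    (PT.cons (PT.p1 PT.snd) (PT.cons (PT.p2 PT.snd) (PT.const [])))

theorem pt_blk {n o : ι → ℕ} {l : ι → List ℕ} (hn : PT n) (ho : PT o) (hl : PT l) :
    PT (fun x => blk (n x) (o x) (l x)) :=
  PT.map (PT.filter hl (p := fun y : ι × ℕ => decide (o y.1 ≤ y.2) && decide (y.2 < o y.1 + n y.1))
    (PT.band (PT.nle (ho.comp PT.fst) PT.snd)
      (PT.nlt PT.snd (PT.nadd (ho.comp PT.fst) (hn.comp PT.fst)))))
    (g := fun y : ι × ℕ => y.2 - o y.1) (PT.nsub PT.snd (ho.comp PT.fst))

theorem pt_capS {n : ι → ℕ} {τ : ι → List ℕ} {ps : ι → List (List (List ℕ × List ℕ))}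
    {Um Up : ι → List ℕ} (hn : PT n) (hτ : PT τ) (hps : PT ps) (hm : PT Um) (hp : PT Up) :
    PT (fun x => capS (n x) (τ x) (ps x) (Um x) (Up x)) := by
  have hV := pt_vec (pt_capD hn hτ hps hm hp)
  have h := PT.map (ι := ι × List ℕ) (l := fun x => List.range (ps x.1).length)
    (g := fun y : (ι × List ℕ) × ℕ => blk (n y.1.1) (c0 (n y.1.1) + n y.1.1 * y.2) y.1.2)
    (PT.range (PT.length (hps.comp PT.fst)))
    (pt_blk (hn.comp (PT.p1 PT.fst)) (PT.nadd (pt_c0 (hn.comp (PT.p1 PT.fst)))
      (PT.nmul (hn.comp (PT.p1 PT.fst)) PT.snd)) (PT.p2 PT.fst))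
  exact h.comp (f := fun x => (x, vec (capD (n x) (τ x) (ps x) (Um x) (Up x)))) (PT.pair PT.id hV)

theorem pt_capP {n : ι → ℕ} {τ : ι → List ℕ} {ps : ι → List (List (List ℕ × List ℕ))}
    {Um Up : ι → List ℕ} (hn : PT n) (hτ : PT τ) (hps : PT ps) (hm : PT Um) (hp : PT Up) :
    PT (fun x => capP (n x) (τ x) (ps x) (Um x) (Up x)) :=
  PT.headD (pt_vec (PT.cons (PT.headD (PT.reverse (pt_capC hn hτ hps hm hp)) (PT.const []))
    (PT.const []))) (PT.const 0)

end Pool.Agent.PF4.Gd

end

section -- file PF4/CapC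

/-!
2-factors without 4-cycles in polynomial time: correctness of the round gadget, the parts.
-/

set_option autoImplicit false

namespace Pool.Agent.PF4.Gd

open Finset

/-! ### lists -/

theorem f2_split {α β : Type*} {R : α → β → Prop} {l₁ l₂ : List α} {l : List β}
    (h : List.Forall₂ R (l₁ ++ l₂) l) :
    ∃ a b, l = a ++ b ∧ List.Forall₂ R l₁ a ∧ List.Forall₂ R l₂ b := by
  induction l₁ generalizing l with
  | nil => exact ⟨[], l, rfl, List.Forall₂.nil, h⟩
  | cons x l₁ ih =>
    cases h with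
    | cons h1 h2 =>
      obtain ⟨a, b, rfl, h3, h4⟩ := ih h2
      exact ⟨_ :: a, b, rfl, List.Forall₂.cons h1 h3, h4⟩

theorem use_reverse (C : List (List (ℕ × ℕ))) (v : ℕ) : use C.reverse v = use C v := by
  simp [use, List.map_reverse, List.sum_reverse]

theorem use_zero {n : ℕ} {us : List (List ℕ × List ℕ)} {C : List (List (ℕ × ℕ))}
    (h : List.Forall₂ (ChU n) us C) {v : ℕ} (hv : n ≤ v) : use C v = 0 := by
  induction h with
  | nil => rfl
  | cons h1 _ ih =>
    rw [use_cons, ih]
    rcases h1 with rfl | ⟨s, _, t, _, h1, h2, rfl⟩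
    · rfl
    · rw [useU_single, if_neg (by omega), if_neg (by omega)]

theorem count_vec (C : List (List (ℕ × ℕ))) (v : ℕ) : (vec C).count v = use C v := by
  have h1 : ∀ c : List (ℕ × ℕ), (c.flatMap fun e => [e.1, e.2]).count v = useU c v := by
    intro c
    induction c with
    | nil => rfl
    | cons e c ih =>
      rw [List.flatMap_cons, List.count_append, ih]
      unfold useU
      rw [List.filter_cons, List.filter_cons]
      simp only [List.count_cons, List.count_nil, beq_iff_eq, decide_eq_true_eq]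
      split_ifs <;> simp <;> omega
  induction C with
  | nil => rfl
  | cons c C ih =>
    rw [use_cons, ← ih, ← h1]
    unfold vec
    rw [List.flatten_cons, List.flatMap_append, List.count_append]

theorem count_blk (n o : ℕ) (l : List ℕ) (v : ℕ) :
    (blk n o l).count v = if v < n then l.count (o + v) else 0 := by
  unfold blk
  induction l with
  | nil => simp
  | cons x l ih =>
    rw [List.filter_cons]
    by_cases h : o ≤ x ∧ x < o + n
    · rw [if_pos (by simpa using h), List.map_cons, List.count_cons, ih, List.count_cons]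
      by_cases hv : v < n
      · have : (x - o == v) = (x == o + v) := by
          rw [Bool.eq_iff_iff, beq_iff_eq, beq_iff_eq]; omega
        simp only [hv, if_true, this]
      · have : (x - o == v) = false := by
          rw [beq_eq_false_iff_ne]; omega
        simp [hv, this]
    · rw [if_neg (by simpa using h), ih, List.count_cons]
      by_cases hv : v < n
      · have : (x == o + v) = false := by
          rw [beq_eq_false_iff_ne]; omega
        simp [hv, this]
      · simp [hv]

theorem list_sum_range (m : ℕ) (F : ℕ → ℕ) : ((List.range m).map F).sum = ∑ i ∈ range m, F i := by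
  induction m with
  | zero => rfl
  | succ m ih => rw [List.range_succ, List.map_append, List.sum_append, ih, Finset.sum_range_succ]; simp

/-! ### simple units -/

/-- the number of uses by simple units -/
def sX (m : ℕ) (f g : ℕ → ℕ) (χ : ℕ → ℕ) (x : ℕ) : ℕ :=
  ∑ i ∈ range m, χ i * ((if f i = x then 1 else 0) + (if g i = x then 1 else 0))

theorem sU_length (m : ℕ) (f g : ℕ → ℕ) : (sU m f g).length = m := by simp [sU]

theorem sU_use {N m : ℕ} {f g : ℕ → ℕ} {C : List (List (ℕ × ℕ))}
    (h : List.Forall₂ (ChU N) (sU m f g) C) :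
    ∃ χ : ℕ → ℕ, (∀ i < m, χ i ≤ 1) ∧ ∀ x, use C x = sX m f g χ x := by
  have hl : C.length = m := by rw [← h.length_eq, sU_length]
  have h1 : ∀ i < m, C.getD i [] = [] ∨ C.getD i [] = [(f i, g i)] := by
    intro i hi
    have h2 := (List.forall₂_iff_get.1 h).2 i (by rwa [sU_length]) (by rwa [hl])
    rw [List.getD_eq_getElem _ _ (by rwa [hl])]
    simp only [List.get_eq_getElem, sU, List.getElem_map, List.getElem_range] at h2
    rcases h2 with h2 | ⟨s, hs, t, ht, _, _, h2⟩
    · exact Or.inl h2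
    · right
      rw [h2]
      simp only [List.mem_singleton] at hs ht
      rw [hs, ht]
  refine ⟨fun i => (C.getD i []).length, ?_, ?_⟩
  · intro i hi
    dsimp only
    rcases h1 i hi with h2 | h2
    · rw [h2]; simp
    · rw [h2]; simp
  · intro x
    unfold use sX
    rw [← sum_getD (fun c => useU c x) [],
      ← Finset.sum_range (n := C.length) (f := fun i => useU (C.getD i []) x), hl]
    refine Finset.sum_congr rfl fun i hi => ?_
    dsimp only
    rcases h1 i (Finset.mem_range.1 hi) with h2 | h2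
    · rw [h2, useU_nil, List.length_nil, zero_mul]
    · rw [h2, useU_single, List.length_singleton, one_mul]

theorem sU_mk {N m : ℕ} {f g : ℕ → ℕ} (hf : ∀ i < m, f i < N) (hg : ∀ i < m, g i < N) (χ : ℕ → ℕ)
    (hχ : ∀ i < m, χ i ≤ 1) :
    ∃ C, List.Forall₂ (ChU N) (sU m f g) C ∧ ∀ x, use C x = sX m f g χ x := by
  refine ⟨(List.range m).map fun i => if χ i = 0 then [] else [(f i, g i)], ?_, ?_⟩
  · unfold sU
    rw [List.forall₂_map_left_iff, List.forall₂_map_right_iff, List.forall₂_same]
    intro i hi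
    rw [List.mem_range] at hi
    by_cases h : χ i = 0
    · rw [if_pos h]; exact Or.inl rfl
    · rw [if_neg h]
      exact Or.inr ⟨f i, List.mem_singleton.2 rfl, g i, List.mem_singleton.2 rfl, hf i hi, hg i hi, rfl⟩
  · intro x
    unfold use sX
    rw [List.map_map, list_sum_range]
    refine Finset.sum_congr rfl fun i hi => ?_
    rw [Function.comp_apply]
    have h1 := hχ i (Finset.mem_range.1 hi)
    by_cases h : χ i = 0
    · rw [if_pos h, useU_nil, h, zero_mul]
    · rw [if_neg h, useU_single, show χ i = 1 by omega, one_mul]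

/-! ### the pieces -/

theorem mem_shU1 {n o : ℕ} {u : List ℕ × List ℕ} {x : ℕ} :
    x ∈ (shU n o u).1 ↔ ∃ s ∈ u.1, s < n ∧ o + s = x := by
  simp only [shU, List.mem_map, List.mem_filter, decide_eq_true_eq, and_assoc]

theorem mem_shU2 {n o : ℕ} {u : List ℕ × List ℕ} {x : ℕ} :
    x ∈ (shU n o u).2 ↔ ∃ s ∈ u.2, s < n ∧ o + s = x := by
  simp only [shU, List.mem_map, List.mem_filter, decide_eq_true_eq, and_assoc]

theorem shU_fwd {N n o : ℕ} {p : List (List ℕ × List ℕ)} {C : List (List (ℕ × ℕ))}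
    (h : List.Forall₂ (ChU N) (p.map fun u => shU n o u) C) :
    ∃ D, List.Forall₂ (ChU n) p D ∧ (∀ v < n, use C (o + v) = use D v) ∧
      ∀ x, (x < o ∨ o + n ≤ x) → use C x = 0 := by
  induction p generalizing C with
  | nil =>
    cases h
    exact ⟨[], List.Forall₂.nil, fun _ _ => rfl, fun _ _ => rfl⟩
  | cons u p ih =>
    rw [List.map_cons] at h
    cases h with
    | @cons _ c _ C h1 h2 =>
      obtain ⟨D, hD, h3, h4⟩ := ih h2
      rcases h1 with rfl | ⟨s, hs, t, ht, _, _, rfl⟩
      · refine ⟨[] :: D, List.Forall₂.cons (Or.inl rfl) hD, ?_, ?_⟩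
        · intro v hv; rw [use_cons, use_cons, h3 v hv]; rfl
        · intro x hx; rw [use_cons, h4 x hx]; rfl
      · obtain ⟨s', hs', hs1, rfl⟩ := mem_shU1.1 hs
        obtain ⟨t', ht', ht1, rfl⟩ := mem_shU2.1 ht
        refine ⟨[(s', t')] :: D,
          List.Forall₂.cons (Or.inr ⟨s', hs', t', ht', hs1, ht1, rfl⟩) hD, ?_, ?_⟩
        · intro v hv
          rw [use_cons, use_cons, h3 v hv, useU_single, useU_single]
          simp only [Nat.add_left_cancel_iff]
        · intro x hx
          rw [use_cons, h4 x hx, useU_single, if_neg (by omega), if_neg (by omega)]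

theorem shU_bwd {N n o : ℕ} (hN : o + n ≤ N) {p : List (List ℕ × List ℕ)} {D : List (List (ℕ × ℕ))}
    (h : List.Forall₂ (ChU n) p D) :
    ∃ C, List.Forall₂ (ChU N) (p.map fun u => shU n o u) C ∧ (∀ v < n, use C (o + v) = use D v) ∧
      ∀ x, (x < o ∨ o + n ≤ x) → use C x = 0 := by
  induction h with
  | nil => exact ⟨[], List.Forall₂.nil, fun _ _ => rfl, fun _ _ => rfl⟩
  | @cons u c p D h1 _ ih =>
    obtain ⟨C, hC, h3, h4⟩ := ih
    rcases h1 with rfl | ⟨s, hs, t, ht, hs1, ht1, rfl⟩
    · refine ⟨[] :: C, List.Forall₂.cons (Or.inl rfl) hC, ?_, ?_⟩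
      · intro v hv; rw [use_cons, use_cons, h3 v hv]; rfl
      · intro x hx; rw [use_cons, h4 x hx]; rfl
    · refine ⟨[(o + s, o + t)] :: C, List.Forall₂.cons (Or.inr ⟨o + s, mem_shU1.2 ⟨s, hs, hs1, rfl⟩,
        o + t, mem_shU2.2 ⟨t, ht, ht1, rfl⟩, by omega, by omega, rfl⟩) hC, ?_, ?_⟩
      · intro v hv
        rw [use_cons, use_cons, h3 v hv, useU_single, useU_single]
        simp only [Nat.add_left_cancel_iff]
      · intro x hx
        rw [use_cons, h4 x hx, useU_single, if_neg (by omega), if_neg (by omega)]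

theorem pcU_nil (n o : ℕ) : pcU n o [] = [] := rfl

theorem pcU_cons (n o : ℕ) (p : List (List ℕ × List ℕ)) (ps : List (List (List ℕ × List ℕ))) :
    pcU n o (p :: ps) = (p.map fun u => shU n o u) ++ pcU n (o + n) ps := by
  unfold pcU
  rw [List.length_cons, List.range_succ_eq_map, List.flatMap_cons, List.flatMap_map]
  congr 1
  refine List.flatMap_congr fun j _ => ?_
  rw [List.getD_cons_succ]
  have e : o + n * (j + 1) = o + n + n * j := by ring
  rw [e]

theorem pcU_fwd {N n o : ℕ} {ps : List (List (List ℕ × List ℕ))} {C : List (List (ℕ × ℕ))}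
    (h : List.Forall₂ (ChU N) (pcU n o ps) C) :
    ∃ D : List (List (List (ℕ × ℕ))), List.Forall₂ (List.Forall₂ (ChU n)) ps D ∧
      (∀ j < ps.length, ∀ v < n, use C (o + n * j + v) = use (D.getD j []) v) ∧
      ∀ x, (x < o ∨ o + n * ps.length ≤ x) → use C x = 0 := by
  induction ps generalizing o C with
  | nil =>
    rw [pcU_nil] at h
    cases h
    exact ⟨[], List.Forall₂.nil, fun j hj => absurd hj (by simp), fun _ _ => rfl⟩
  | cons p ps ih =>
    rw [pcU_cons] at h
    obtain ⟨A, B, rfl, h1, h2⟩ := f2_split h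
    obtain ⟨D1, hD1, a1, a2⟩ := shU_fwd h1
    obtain ⟨D, hD, b1, b2⟩ := ih h2
    refine ⟨D1 :: D, List.Forall₂.cons hD1 hD, ?_, ?_⟩
    · intro j hj v hv
      rcases j with _ | j
      · rw [use_append, List.getD_cons_zero]
        have e : o + n * 0 + v = o + v := by ring
        rw [e, a1 v hv, b2 _ (Or.inl (by omega)), add_zero]
      · rw [List.getD_cons_succ, use_append]
        have hj' : j < ps.length := by simpa using hj
        have e : o + n * (j + 1) + v = o + n + n * j + v := by ring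
        rw [e, b1 j hj' v hv, a2 _ (Or.inr (by omega)), zero_add]
    · intro x hx
      rw [List.length_cons] at hx
      have e : n * (ps.length + 1) = n * ps.length + n := by ring
      rw [e] at hx
      rw [use_append, a2 x (by omega), b2 x (by omega)]

theorem pcU_bwd {N n o : ℕ} {ps : List (List (List ℕ × List ℕ))} (hN : o + n * ps.length ≤ N)
    {D : List (List (List (ℕ × ℕ)))} (h : List.Forall₂ (List.Forall₂ (ChU n)) ps D) :
    ∃ C, List.Forall₂ (ChU N) (pcU n o ps) C ∧
      (∀ j < ps.length, ∀ v < n, use C (o + n * j + v) = use (D.getD j []) v) ∧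
      ∀ x, (x < o ∨ o + n * ps.length ≤ x) → use C x = 0 := by
  induction h generalizing o with
  | nil =>
    exact ⟨[], by rw [pcU_nil]; exact List.Forall₂.nil, fun j hj => absurd hj (by simp), fun _ _ => rfl⟩
  | @cons p D1 ps D h1 _ ih =>
    rw [List.length_cons] at hN
    have e : n * (ps.length + 1) = n * ps.length + n := by ring
    rw [e] at hN
    obtain ⟨A, hA, a1, a2⟩ := shU_bwd (N := N) (o := o) (by omega) h1
    obtain ⟨B, hB, b1, b2⟩ := ih (o := o + n) (by omega)
    refine ⟨A ++ B, by rw [pcU_cons]; exact List.rel_append hA hB, ?_, ?_⟩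
    · intro j hj v hv
      rcases j with _ | j
      · rw [use_append, List.getD_cons_zero]
        have e : o + n * 0 + v = o + v := by ring
        rw [e, a1 v hv, b2 _ (Or.inl (by omega)), add_zero]
      · rw [List.getD_cons_succ, use_append]
        have hj' : j < ps.length := by simpa using hj
        have e : o + n * (j + 1) + v = o + n + n * j + v := by ring
        rw [e, b1 j hj' v hv, a2 _ (Or.inr (by omega)), zero_add]
    · intro x hx
      rw [List.length_cons, e] at hx
      rw [use_append, a2 x (by omega), b2 x (by omega)]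

/-! ### the sums -/

theorem md_eq {n : ℕ} (hn : 0 < n) (y : ℕ) : md n y = y % n := by
  unfold md
  rw [quo_eq hn]
  have := Nat.div_add_mod y n
  omega

theorem sum_blocks (n J v : ℕ) (hv : v < n) (F : ℕ → ℕ) :
    ∑ i ∈ range (n * J), F i * (if md n i = v then 1 else 0) = ∑ j ∈ range J, F (n * j + v) := by
  have hn : 0 < n := by omega
  induction J with
  | zero => simp
  | succ J ih =>
    rw [Nat.mul_succ, Finset.sum_range_add, ih, Finset.sum_range_succ]
    congr 1
    rw [Finset.sum_eq_single v]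
    · rw [md_eq hn, Nat.mul_add_mod, Nat.mod_eq_of_lt hv, if_pos rfl, mul_one]
    · intro b hb hbv
      rw [md_eq hn, Nat.mul_add_mod, Nat.mod_eq_of_lt (Finset.mem_range.1 hb), if_neg hbv, mul_zero]
    · intro h
      exact absurd (Finset.mem_range.2 hv) h

/-- the uses of `x` by simple units when `f` and `g` do not take the value `x` -/
theorem sX_zero {m : ℕ} {f g χ : ℕ → ℕ} {x : ℕ} (h : ∀ i < m, f i ≠ x ∧ g i ≠ x) :
    sX m f g χ x = 0 := by
  unfold sX
  refine Finset.sum_eq_zero fun i hi => ?_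
  obtain ⟨h1, h2⟩ := h i (Finset.mem_range.1 hi)
  rw [if_neg h1, if_neg h2]
  ring

/-- when only `f y = x` -/
theorem sX_one {m : ℕ} {f g χ : ℕ → ℕ} {x y : ℕ} (hy : y < m) (h1 : ∀ i < m, f i = x ↔ i = y)
    (h2 : ∀ i < m, g i ≠ x) : sX m f g χ x = χ y := by
  unfold sX
  rw [Finset.sum_eq_single y]
  · rw [if_pos ((h1 y hy).2 rfl), if_neg (h2 y hy)]; ring
  · intro b hb hby
    have hb := Finset.mem_range.1 hb
    rw [if_neg (fun h => hby ((h1 b hb).1 h)), if_neg (h2 b hb)]
    ring
  · intro h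
    exact absurd (Finset.mem_range.2 hy) h

/-- when only `g y = x` -/
theorem sX_two {m : ℕ} {f g χ : ℕ → ℕ} {x y : ℕ} (hy : y < m) (h1 : ∀ i < m, g i = x ↔ i = y)
    (h2 : ∀ i < m, f i ≠ x) : sX m f g χ x = χ y := by
  unfold sX
  rw [Finset.sum_eq_single y]
  · rw [if_pos ((h1 y hy).2 rfl), if_neg (h2 y hy)]; ring
  · intro b hb hby
    have hb := Finset.mem_range.1 hb
    rw [if_neg (fun h => hby ((h1 b hb).1 h)), if_neg (h2 b hb)]
    ring
  · intro h
    exact absurd (Finset.mem_range.2 hy) h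

/-- when `f` does not take the value `x` -/
theorem sX_g {m : ℕ} {f g χ : ℕ → ℕ} {x : ℕ} (h : ∀ i < m, f i ≠ x) :
    sX m f g χ x = ∑ i ∈ range m, χ i * (if g i = x then 1 else 0) := by
  unfold sX
  refine Finset.sum_congr rfl fun i hi => ?_
  rw [if_neg (h i (Finset.mem_range.1 hi)), zero_add]

end Pool.Agent.PF4.Gd

end

section -- file PF4/CapD

/-!
2-factors without 4-cycles in polynomial time: correctness of the round gadget.
-/

set_option autoImplicit false

namespace Pool.Agent.PF4.Gd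

open Finset

theorem capB_get {n J : ℕ} (τ : List ℕ) {x : ℕ} (hx : x < capN n J) :
    (capB n τ J).getD x 0 = if x < n then τ.getD x 0 + 1 else if x < c0 n then 1 else 2 := by
  unfold capB
  rw [List.getD_eq_getElem _ _ (by simpa using hx)]
  rw [List.getElem_map, List.getElem_range]
  by_cases h1 : x < n
  · rw [if_pos h1, decide_eq_true h1, cond_true]
  · rw [if_neg h1, decide_eq_false h1, cond_false]
    by_cases h2 : x < c0 n
    · rw [if_pos h2, decide_eq_true h2, cond_true]
    · rw [if_neg h2, decide_eq_false h2, cond_false]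

theorem md_lt {n y : ℕ} (hn : 0 < n) : md n y < n := by
  rw [md_eq hn]; exact Nat.mod_lt _ hn

/-- the token -/
theorem tok_ch {N n : ℕ} {Um Up : List ℕ} {c : List (ℕ × ℕ)} (h : ChU N (tok n Um Up) c)
    (h2 : useU c (2 * n) = 1) : ∃ s, c = [(s, 2 * n)] ∧ ((s ∈ Um ∧ s < n) ∨
      ∃ v₀ ∈ Up, v₀ < n ∧ s = n + v₀) := by
  rcases h with rfl | ⟨s, hs, t, ht, _, _, rfl⟩
  · simp [useU_nil] at h2
  · simp only [tok, List.mem_singleton, List.mem_append, List.mem_filter, List.mem_map,
      decide_eq_true_eq] at hs ht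
    subst ht
    refine ⟨s, rfl, ?_⟩
    rcases hs with hs | ⟨v, ⟨hv, hv'⟩, rfl⟩
    · exact Or.inl hs
    · exact Or.inr ⟨v, hv, hv', rfl⟩

/-- what a choice of the round gadget looks like -/
theorem cap_fwd {n : ℕ} {τ : List ℕ} {ps : List (List (List ℕ × List ℕ))} {Um Up : List ℕ}
    {C : List (List (ℕ × ℕ))}
    (h : Ch (capN n ps.length) (capU n ps Um Up) (capB n τ ps.length) (capB n τ ps.length) C) :
    ∃ (C0 R : List (List (ℕ × ℕ))) (s : ℕ) (D : List (List (List (ℕ × ℕ)))) (φ : ℕ → ℕ),
      C = C0 ++ (R ++ [[(s, 2 * n)]]) ∧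
      (R ++ [[(s, 2 * n)]]).length = n * ps.length + (n * ps.length + (n * ps.length +
        (n * ps.length + (n + 1)))) ∧
      List.Forall₂ (List.Forall₂ (ChU n)) ps D ∧
      (∀ j < ps.length, ∀ v < n, use C0 (c0 n + n * j + v) = use (D.getD j []) v ∧
        use (D.getD j []) v ≤ 2) ∧
      ((s ∈ Um ∧ s < n) ∨ ∃ v₀ ∈ Up, v₀ < n ∧ s = n + v₀) ∧
      (∀ v < n, φ v + (if s = n + v then 1 else 0) = 1) ∧
      ∀ v < n, ∑ j ∈ range ps.length, use (D.getD j []) v + φ v + (if s = v then 1 else 0) =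
        τ.getD v 0 + 1 := by
  have hb : ∀ x < capN n ps.length, use C x =
      if x < n then τ.getD x 0 + 1 else if x < c0 n then 1 else 2 := by
    intro x hx
    rw [← capB_get τ hx]
    exact le_antisymm (h.hi x hx) (h.lo x hx)
  have hN : capN n ps.length = c0 n + n * ps.length + n * ps.length := rfl
  have hc0 : c0 n = 2 * n + 1 := rfl
  rw [hN] at hb
  obtain ⟨C0, T0, e0, g0, r0⟩ := f2_split h.ch
  obtain ⟨C1, T1, e1, g1, r1⟩ := f2_split r0
  obtain ⟨C2, T2, e2, g2, r2⟩ := f2_split r1
  obtain ⟨C3, T3, e3, g3, r3⟩ := f2_split r2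
  obtain ⟨C4, T4, e4, g4, r4⟩ := f2_split r3
  obtain ⟨C5, C6, e5, g5, g6⟩ := f2_split r4
  obtain ⟨D, hD, u0, z0⟩ := pcU_fwd g0
  obtain ⟨χ1, k1, u1⟩ := sU_use g1
  obtain ⟨χ2, k2, u2⟩ := sU_use g2
  obtain ⟨ψ1, k3, u3⟩ := sU_use g3
  obtain ⟨ψ2, k4, u4⟩ := sU_use g4
  obtain ⟨φ, k5, u5⟩ := sU_use g5
  obtain ⟨c6, e6, g7⟩ : ∃ c6, C6 = [c6] ∧ ChU (capN n ps.length) (tok n Um Up) c6 := by
    cases g6 with
    | cons a b =>
      cases b
      exact ⟨_, rfl, a⟩
  have hu : ∀ x, use C x = use C0 x +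
      (sX (n * ps.length) (fun y => c0 n + y) (fun y => c0 n + n * ps.length + y) χ1 x +
      (sX (n * ps.length) (fun y => c0 n + y) (fun y => c0 n + n * ps.length + y) χ2 x +
      (sX (n * ps.length) (fun y => c0 n + n * ps.length + y) (fun y => md n y) ψ1 x +
      (sX (n * ps.length) (fun y => c0 n + n * ps.length + y) (fun y => md n y) ψ2 x +
      (sX n (fun v => v) (fun v => n + v) φ x + useU c6 x))))) := by
    intro x
    rw [e0, e1, e2, e3, e4, e5, e6, use_append, use_append, use_append, use_append, use_append,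
      use_append, u1, u2, u3, u4, u5, use_cons, use_nil]
    rfl
  generalize hM : n * ps.length = M at *
  -- the value at `2 * n`
  have q0 := hb (2 * n) (by omega)
  rw [if_neg (by omega), if_pos (by omega), hu, z0 _ (Or.inl (by omega)),
    sX_zero (fun i _ => ⟨by omega, by omega⟩), sX_zero (fun i _ => ⟨by omega, by omega⟩),
    sX_zero (fun i hi => ⟨by omega, by
      have hn : 0 < n := by
        rcases Nat.eq_zero_or_pos n with h0 | h0
        · rw [h0, zero_mul] at hM; omega
        · exact h0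
      have := md_lt (y := i) hn
      omega⟩),
    sX_zero (fun i hi => ⟨by omega, by
      have hn : 0 < n := by
        rcases Nat.eq_zero_or_pos n with h0 | h0
        · rw [h0, zero_mul] at hM; omega
        · exact h0
      have := md_lt (y := i) hn
      omega⟩),
    sX_zero (fun i hi => ⟨by omega, by omega⟩)] at q0
  obtain ⟨s, rfl, hs⟩ := tok_ch g7 (by omega)
  have hs2 : s < 2 * n := by
    rcases hs with hs | ⟨v₀, _, hv, rfl⟩ <;> omega
  -- the values at the slots
  have q1 : ∀ y < M, use C0 (c0 n + y) + χ1 y + χ2 y = 2 := by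
    intro y hy
    have hn : 0 < n := by
      rcases Nat.eq_zero_or_pos n with h0 | h0
      · rw [h0, zero_mul] at hM; omega
      · exact h0
    have q := hb (c0 n + y) (by omega)
    rw [if_neg (by omega), if_neg (by omega), hu,
      sX_one (y := y) hy (fun i _ => by omega) (fun i _ => by omega),
      sX_one (y := y) hy (fun i _ => by omega) (fun i _ => by omega),
      sX_zero (fun i _ => ⟨by omega, by have := md_lt (y := i) hn; omega⟩),
      sX_zero (fun i _ => ⟨by omega, by have := md_lt (y := i) hn; omega⟩),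
      sX_zero (fun i _ => ⟨by omega, by omega⟩),
      useU_single, if_neg (by omega), if_neg (by omega)] at q
    omega
  have q2 : ∀ y < M, χ1 y + χ2 y + ψ1 y + ψ2 y = 2 := by
    intro y hy
    have hn : 0 < n := by
      rcases Nat.eq_zero_or_pos n with h0 | h0
      · rw [h0, zero_mul] at hM; omega
      · exact h0
    have q := hb (c0 n + M + y) (by omega)
    rw [if_neg (by omega), if_neg (by omega), hu, z0 _ (Or.inr (by omega)),
      sX_two (y := y) hy (fun i _ => by omega) (fun i _ => by omega),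
      sX_two (y := y) hy (fun i _ => by omega) (fun i _ => by omega),
      sX_one (y := y) hy (fun i _ => by omega) (fun i _ => by have := md_lt (y := i) hn; omega),
      sX_one (y := y) hy (fun i _ => by omega) (fun i _ => by have := md_lt (y := i) hn; omega),
      sX_zero (fun i _ => ⟨by omega, by omega⟩),
      useU_single, if_neg (by omega), if_neg (by omega)] at q
    omega
  have q3 : ∀ y < M, use C0 (c0 n + y) = ψ1 y + ψ2 y := by
    intro y hy
    have a1 := q1 y hy
    have a2 := q2 y hy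
    omega
  have q4 : ∀ j < ps.length, ∀ v < n, n * j + v < M := by
    intro j hj v hv
    rw [← hM]
    exact lin_lt_swap hv hj
  refine ⟨C0, C1 ++ (C2 ++ (C3 ++ (C4 ++ C5))), s, D, φ, ?_, ?_, hD, ?_, hs, ?_, ?_⟩
  · rw [e0, e1, e2, e3, e4, e5, e6]
    simp only [List.append_assoc]
  · have l1 := g1.length_eq
    have l2 := g2.length_eq
    have l3 := g3.length_eq
    have l4 := g4.length_eq
    have l5 := g5.length_eq
    rw [sU_length] at l1 l2 l3 l4 l5
    simp only [List.length_append, List.length_singleton]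
    omega
  · intro j hj v hv
    have a1 := u0 j hj v hv
    refine ⟨a1, ?_⟩
    have hy := q4 j hj v hv
    have a2 := q3 (n * j + v) hy
    rw [← add_assoc] at a2
    rw [← a1, a2]
    have := k3 _ hy
    have := k4 _ hy
    omega
  · intro v hv
    have q := hb (n + v) (by omega)
    rw [if_neg (by omega), if_pos (by omega), hu, z0 _ (Or.inl (by omega)),
      sX_zero (fun i _ => ⟨by omega, by omega⟩), sX_zero (fun i _ => ⟨by omega, by omega⟩),
      sX_zero (fun i _ => ⟨by omega, by have := md_lt (n := n) (y := i) (by omega); omega⟩),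
      sX_zero (fun i _ => ⟨by omega, by have := md_lt (n := n) (y := i) (by omega); omega⟩),
      sX_two (y := v) hv (fun i _ => by omega) (fun i _ => by omega),
      useU_single, if_neg (show ¬ 2 * n = n + v by omega)] at q
    omega
  · intro v hv
    have q := hb v (by omega)
    rw [if_pos hv, hu, z0 _ (Or.inl (by omega)),
      sX_zero (fun i _ => ⟨by omega, by omega⟩), sX_zero (fun i _ => ⟨by omega, by omega⟩),
      sX_g (fun i _ => by omega), sX_g (fun i _ => by omega),
      sX_one (y := v) hv (fun i _ => by omega) (fun i _ => by omega),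
      useU_single, if_neg (show ¬ 2 * n = v by omega)] at q
    rw [← hM, sum_blocks n _ v hv, sum_blocks n _ v hv] at q
    have e : ∑ j ∈ range ps.length, use (D.getD j []) v =
        ∑ j ∈ range ps.length, ψ1 (n * j + v) + ∑ j ∈ range ps.length, ψ2 (n * j + v) := by
      rw [← Finset.sum_add_distrib]
      refine Finset.sum_congr rfl fun j hj => ?_
      have hj := Finset.mem_range.1 hj
      rw [← u0 j hj v hv, add_assoc, q3 _ (q4 j hj v hv)]
    rw [e]
    omega

theorem range_sum_getD {β : Type*} (F : β → ℕ) (d : β) (l : List β) {J : ℕ} (hJ : l.length = J) :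
    (l.map F).sum = ∑ j ∈ range J, F (l.getD j d) := by
  subst hJ
  rw [← sum_getD F d l, Finset.sum_range]

/-- the output of the round gadget is a configuration at an unknown port -/
theorem cap_ok {n : ℕ} {τ : List ℕ} {ps : List (List (List ℕ × List ℕ))} {Um Up : List ℕ}
    (h : capF n τ ps Um Up = true) :
    Cfg n τ ps Um Up (capS n τ ps Um Up) (capP n τ ps Um Up) := by
  have h1 := sel_ok h
  change Ch _ _ _ _ (capC n τ ps Um Up) at h1
  obtain ⟨C0, R, s, D, φ, e1, e2, hD, hu, hs, hφ, hv⟩ := cap_fwd h1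
  have eD : capD n τ ps Um Up = C0.reverse := by
    unfold capD
    rw [e1, List.reverse_append, List.drop_left' (by rw [List.length_reverse, e2])]
  have eP : capP n τ ps Um Up = s := by
    unfold capP
    rw [e1, ← List.append_assoc, List.reverse_append]
    rfl
  have hDl : D.length = ps.length := hD.length_eq.symm
  have hcnt : ∀ j < ps.length, ∀ v,
      (blk n (c0 n + n * j) (vec (capD n τ ps Um Up))).count v = use (D.getD j []) v ∧
        use (D.getD j []) v ≤ 2 := by
    intro j hj v
    rw [count_blk, eD, count_vec, use_reverse]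
    by_cases hv : v < n
    · rw [if_pos hv]; exact hu j hj v hv
    · rw [if_neg hv]
      have h2 := (List.forall₂_iff_get.1 hD).2 j hj (by rwa [hDl])
      rw [List.getD_eq_getElem _ _ (by rwa [hDl])]
      simp only [List.get_eq_getElem] at h2
      have := use_zero h2 (not_lt.1 hv)
      omega
  have hsum : ∀ v, ((capS n τ ps Um Up).map fun k => k.count v).sum =
      ∑ j ∈ range ps.length, use (D.getD j []) v := by
    intro v
    unfold capS
    rw [List.map_map, list_sum_range]
    refine Finset.sum_congr rfl fun j hj => ?_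
    exact (hcnt j (Finset.mem_range.1 hj) v).1
  refine ⟨?_, ?_⟩
  · rw [List.forall₂_iff_get]
    refine ⟨by simp [capS], ?_⟩
    intro j hj hj'
    have h2 := (List.forall₂_iff_get.1 hD).2 j hj (by rwa [hDl])
    refine ⟨D.getD j [], ?_, ?_⟩
    · rw [List.getD_eq_getElem _ _ (by rwa [hDl])]
      simpa using h2
    · intro v
      have h3 := hcnt j hj v
      simp only [capS, List.get_eq_getElem, List.getElem_map, List.getElem_range]
      exact ⟨h3.1, by rw [h3.1]; exact h3.2⟩
  · rw [eP]
    rcases hs with ⟨hs, hs'⟩ | ⟨v₀, hv₀, hv₀', rfl⟩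
    · left
      refine ⟨hs, hs', ?_⟩
      intro v hv'
      have a1 := hφ v hv'
      have a2 := hv v hv'
      rw [hsum]
      rw [if_neg (by omega)] at a1
      omega
    · right
      refine ⟨v₀, hv₀, hv₀', rfl, ?_⟩
      intro v hv'
      have a1 := hφ v hv'
      have a2 := hv v hv'
      rw [hsum]
      rw [if_neg (by omega)] at a2
      have e : (n + v₀ = n + v) ↔ v₀ = v := by omega
      simp only [e] at a1
      omega

/-- choices for the pieces -/
theorem pv_choices {n : ℕ} {ps : List (List (List ℕ × List ℕ))} {ks : List (List ℕ)}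
    (h : List.Forall₂ (PV n) ps ks) :
    ∃ D : List (List (List (ℕ × ℕ))), List.Forall₂ (List.Forall₂ (ChU n)) ps D ∧
      (∀ j < ps.length, ∀ v, use (D.getD j []) v ≤ 2) ∧
      ∀ v, (ks.map fun k => k.count v).sum = ∑ j ∈ range ps.length, use (D.getD j []) v := by
  have h1 : ∃ D : List (List (List (ℕ × ℕ))), List.Forall₂ (List.Forall₂ (ChU n)) ps D ∧
      List.Forall₂ (fun (k : List ℕ) d => ∀ v, k.count v = use d v ∧ k.count v ≤ 2) ks D := by
    induction h with
    | nil => exact ⟨[], List.Forall₂.nil, List.Forall₂.nil⟩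
    | cons a _ ih =>
      obtain ⟨D, h1, h2⟩ := ih
      obtain ⟨d, h3, h4⟩ := a
      exact ⟨d :: D, List.Forall₂.cons h3 h1, List.Forall₂.cons h4 h2⟩
  obtain ⟨D, h1, h2⟩ := h1
  have hDl : D.length = ps.length := h1.length_eq.symm
  refine ⟨D, h1, ?_, ?_⟩
  · intro j hj v
    have h3 := (List.forall₂_iff_get.1 h2).2 j (by rw [h2.length_eq, hDl]; exact hj) (by rwa [hDl]) v
    rw [List.getD_eq_getElem _ _ (by rwa [hDl])]
    simp only [List.get_eq_getElem] at h3
    omega
  · intro v
    rw [← range_sum_getD (fun d => use d v) [] D hDl]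
    have h3 : ∀ {ks : List (List ℕ)} {D : List (List (List (ℕ × ℕ)))},
        List.Forall₂ (fun (k : List ℕ) d => ∀ v, k.count v = use d v ∧ k.count v ≤ 2) ks D →
        (ks.map fun k => k.count v).sum = (D.map fun d => use d v).sum := by
      intro ks D h
      induction h with
      | nil => rfl
      | cons a _ ih => rw [List.map_cons, List.map_cons, List.sum_cons, List.sum_cons, ih, (a v).1]
    exact h3 h2

/-- if there is a configuration at an unknown port, the round gadget is feasible -/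
theorem cap_of {n : ℕ} {τ : List ℕ} {ps : List (List (List ℕ × List ℕ))} {Um Up : List ℕ}
    {ks : List (List ℕ)} {s : ℕ} (h : Cfg n τ ps Um Up ks s) : capF n τ ps Um Up = true := by
  obtain ⟨D, hD, hD2, hsum⟩ := pv_choices h.pv
  have hN : capN n ps.length = c0 n + n * ps.length + n * ps.length := rfl
  have hc0 : c0 n = 2 * n + 1 := rfl
  -- the values of the port
  obtain ⟨hs, hs2, φ, hφ1, hφ2, hφ⟩ : ((s ∈ Um ∧ s < n) ∨ ∃ v₀ ∈ Up, v₀ < n ∧ s = n + v₀) ∧
      s < 2 * n ∧ ∃ φ : ℕ → ℕ, (∀ v, φ v ≤ 1) ∧ (∀ v < n, φ v + (if s = n + v then 1 else 0) = 1) ∧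
      ∀ v < n, ∑ j ∈ range ps.length, use (D.getD j []) v + φ v + (if s = v then 1 else 0) =
        τ.getD v 0 + 1 := by
    rcases h.port with ⟨h1, h2, h3⟩ | ⟨v₀, h1, h2, rfl, h3⟩
    · refine ⟨Or.inl ⟨h1, h2⟩, by omega, fun _ => 1, fun _ => le_rfl, ?_, ?_⟩
      · intro v hv
        rw [if_neg (by omega)]
      · intro v hv
        have := h3 v hv
        rw [hsum] at this
        dsimp only
        omega
    · refine ⟨Or.inr ⟨v₀, h1, h2, rfl⟩, by omega, fun v => if v₀ = v then 0 else 1, ?_, ?_, ?_⟩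
      · intro v; dsimp only; split_ifs <;> omega
      · intro v hv
        have e : (n + v₀ = n + v) ↔ v₀ = v := by omega
        simp only [e]
        split_ifs <;> rfl
      · intro v hv
        have := h3 v hv
        rw [hsum] at this
        rw [if_neg (show ¬ n + v₀ = v by omega), this]
        dsimp only
        split_ifs <;> omega
  -- the slots
  set κ : ℕ → ℕ := fun y => use (D.getD (y / n) []) (y % n) with hκ
  have hκ2 : ∀ y < n * ps.length, κ y ≤ 2 := by
    intro y hy
    exact hD2 _ (Nat.div_lt_of_lt_mul hy) _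
  obtain ⟨C0, g0, u0, z0⟩ := pcU_bwd (N := capN n ps.length) (o := c0 n) (by rw [hN]; omega) hD
  obtain ⟨C1, g1, u1⟩ := sU_mk (N := capN n ps.length) (m := n * ps.length)
    (f := fun y => c0 n + y) (g := fun y => c0 n + n * ps.length + y)
    (fun i hi => by rw [hN]; omega) (fun i hi => by rw [hN]; omega)
    (fun y => if κ y ≤ 1 then 1 else 0) (fun i _ => by split_ifs <;> omega)
  obtain ⟨C2, g2, u2⟩ := sU_mk (N := capN n ps.length) (m := n * ps.length)
    (f := fun y => c0 n + y) (g := fun y => c0 n + n * ps.length + y)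
    (fun i hi => by rw [hN]; omega) (fun i hi => by rw [hN]; omega)
    (fun y => if κ y = 0 then 1 else 0) (fun i _ => by split_ifs <;> omega)
  have hmd : ∀ i < n * ps.length, md n i < n := by
    intro i hi
    refine md_lt ?_
    rcases Nat.eq_zero_or_pos n with h0 | h0
    · rw [h0, zero_mul] at hi; omega
    · exact h0
  obtain ⟨C3, g3, u3⟩ := sU_mk (N := capN n ps.length) (m := n * ps.length)
    (f := fun y => c0 n + n * ps.length + y) (g := fun y => md n y)
    (fun i hi => by rw [hN]; omega) (fun i hi => by have := hmd i hi; rw [hN]; omega)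
    (fun y => if 1 ≤ κ y then 1 else 0) (fun i _ => by split_ifs <;> omega)
  obtain ⟨C4, g4, u4⟩ := sU_mk (N := capN n ps.length) (m := n * ps.length)
    (f := fun y => c0 n + n * ps.length + y) (g := fun y => md n y)
    (fun i hi => by rw [hN]; omega) (fun i hi => by have := hmd i hi; rw [hN]; omega)
    (fun y => if 2 ≤ κ y then 1 else 0) (fun i _ => by split_ifs <;> omega)
  obtain ⟨C5, g5, u5⟩ := sU_mk (N := capN n ps.length) (m := n) (f := fun v => v) (g := fun v => n + v)
    (fun i hi => by rw [hN]; omega) (fun i hi => by rw [hN]; omega) φ (fun i _ => hφ1 i)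
  have g6 : ChU (capN n ps.length) (tok n Um Up) [(s, 2 * n)] := by
    refine Or.inr ⟨s, ?_, 2 * n, by simp [tok], by rw [hN]; omega, by rw [hN]; omega, rfl⟩
    simp only [tok, List.mem_append, List.mem_filter, List.mem_map, decide_eq_true_eq]
    rcases hs with hs | ⟨v₀, h1, h2, rfl⟩
    · exact Or.inl hs
    · exact Or.inr ⟨v₀, ⟨h1, h2⟩, rfl⟩
  unfold capF
  rw [feas_iff]
  refine ⟨C0 ++ (C1 ++ (C2 ++ (C3 ++ (C4 ++ (C5 ++ [[(s, 2 * n)]]))))), ?_⟩
  have hu : ∀ x < capN n ps.length, use (C0 ++ (C1 ++ (C2 ++ (C3 ++ (C4 ++ (C5 ++ [[(s, 2 * n)]])))))) x =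
      if x < n then τ.getD x 0 + 1 else if x < c0 n then 1 else 2 := by
    intro x hx
    rw [use_append, use_append, use_append, use_append, use_append, use_append, u1, u2, u3, u4, u5,
      use_cons, use_nil, useU_single]
    rw [hN] at hx
    by_cases hx1 : x < n
    · rw [if_pos hx1, z0 _ (Or.inl (by omega)),
        sX_zero (fun i _ => ⟨by omega, by omega⟩), sX_zero (fun i _ => ⟨by omega, by omega⟩),
        sX_g (fun i _ => by omega), sX_g (fun i _ => by omega),
        sX_one (y := x) hx1 (fun i _ => by omega) (fun i _ => by omega),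
        if_neg (show ¬ 2 * n = x by omega), sum_blocks n _ x hx1, sum_blocks n _ x hx1]
      have e : ∑ j ∈ range ps.length, use (D.getD j []) x =
          ∑ j ∈ range ps.length, (if 1 ≤ κ (n * j + x) then 1 else 0) +
          ∑ j ∈ range ps.length, (if 2 ≤ κ (n * j + x) then 1 else 0) := by
        rw [← Finset.sum_add_distrib]
        refine Finset.sum_congr rfl fun j hj => ?_
        have hn : 0 < n := by omega
        have e1 : (n * j + x) / n = j := by rw [Nat.mul_add_div hn, Nat.div_eq_of_lt hx1, add_zero]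
        have e2 : (n * j + x) % n = x := by rw [Nat.mul_add_mod, Nat.mod_eq_of_lt hx1]
        have h2 := hD2 j (Finset.mem_range.1 hj) x
        have e3 : κ (n * j + x) = use (D.getD j []) x := by rw [hκ]; dsimp only; rw [e1, e2]
        rw [e3]
        split_ifs <;> omega
      have := hφ x hx1
      rw [e] at this
      omega
    · rw [if_neg hx1]
      by_cases hx2 : x < 2 * n
      · obtain ⟨v, rfl⟩ : ∃ v, x = n + v := ⟨x - n, by omega⟩
        rw [if_pos (show n + v < c0 n by omega), z0 _ (Or.inl (by omega)),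
          sX_zero (fun i _ => ⟨by omega, by omega⟩), sX_zero (fun i _ => ⟨by omega, by omega⟩),
          sX_zero (fun i hi => ⟨by omega, by have := hmd i hi; omega⟩),
          sX_zero (fun i hi => ⟨by omega, by have := hmd i hi; omega⟩),
          sX_two (y := v) (by omega) (fun i _ => by omega) (fun i _ => by omega),
          if_neg (show ¬ 2 * n = n + v by omega)]
        have := hφ2 v (by omega)
        omega
      · by_cases hx3 : x = 2 * n
        · rw [if_pos (show x < c0 n by omega), z0 _ (Or.inl (by omega)),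
            sX_zero (fun i _ => ⟨by omega, by omega⟩), sX_zero (fun i _ => ⟨by omega, by omega⟩),
            sX_zero (fun i hi => ⟨by omega, by have := hmd i hi; omega⟩),
            sX_zero (fun i hi => ⟨by omega, by have := hmd i hi; omega⟩),
            sX_zero (fun i _ => ⟨by omega, by omega⟩), if_neg (show ¬ s = x by omega),
            if_pos (show 2 * n = x by omega)]
        · rw [if_neg (show ¬ x < c0 n by omega), if_neg (show ¬ s = x by omega),
            if_neg (show ¬ 2 * n = x by omega)]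
          by_cases hx4 : x < c0 n + n * ps.length
          · obtain ⟨y, rfl⟩ : ∃ y, x = c0 n + y := ⟨x - c0 n, by omega⟩
            have hy : y < n * ps.length := by omega
            have hn : 0 < n := lt_of_le_of_lt (Nat.zero_le _) (hmd y hy)
            have a1 : use C0 (c0 n + y) = κ y := by
              have := u0 (y / n) (Nat.div_lt_of_lt_mul hy) (y % n) (Nat.mod_lt _ hn)
              rw [add_assoc, Nat.div_add_mod] at this
              exact this
            rw [a1, sX_one (y := y) hy (fun i _ => by omega) (fun i _ => by omega),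
              sX_one (y := y) hy (fun i _ => by omega) (fun i _ => by omega),
              sX_zero (fun i hi => ⟨by omega, by have := hmd i hi; omega⟩),
              sX_zero (fun i hi => ⟨by omega, by have := hmd i hi; omega⟩),
              sX_zero (fun i _ => ⟨by omega, by omega⟩)]
            have := hκ2 y hy
            split_ifs <;> omega
          · obtain ⟨y, rfl⟩ : ∃ y, x = c0 n + n * ps.length + y :=
              ⟨x - (c0 n + n * ps.length), by omega⟩
            have hy : y < n * ps.length := by omega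
            rw [z0 _ (Or.inr (by omega)),
              sX_two (y := y) hy (fun i _ => by omega) (fun i _ => by omega),
              sX_two (y := y) hy (fun i _ => by omega) (fun i _ => by omega),
              sX_one (y := y) hy (fun i _ => by omega) (fun i hi => by have := hmd i hi; omega),
              sX_one (y := y) hy (fun i _ => by omega) (fun i hi => by have := hmd i hi; omega),
              sX_zero (fun i _ => ⟨by omega, by omega⟩)]
            have := hκ2 y hy
            split_ifs <;> omega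
  refine ⟨?_, ?_, ?_⟩
  · exact List.rel_append g0 (List.rel_append g1 (List.rel_append g2 (List.rel_append g3
      (List.rel_append g4 (List.rel_append g5 (List.Forall₂.cons g6 List.Forall₂.nil))))))
  · intro x hx
    rw [hu x hx, capB_get τ hx]
  · intro x hx
    rw [hu x hx, capB_get τ hx]

end Pool.Agent.PF4.Gd

end

section -- file PF4/PcB

/-!
Pieces: the bridge between the vectors of a list of units (`PV`) and the sums of units cut at 2.
-/

set_option autoImplicit false

namespace Pool.Agent.PF4.Gd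

open Finset Pool.Agent.TFC

/-- all entries of the units are below `n` -/
def UB (n : ℕ) (us : List (List ℕ × List ℕ)) : Prop :=
  ∀ u ∈ us, (∀ s ∈ u.1, s < n) ∧ ∀ t ∈ u.2, t < n

theorem pv_sumU {n : ℕ} {us : List (List ℕ × List ℕ)} (h : UB n us) (k : List ℕ) :
    PV n us k ↔ kvec k ∈ sumU (us.map tf) ∧ ∀ v, kvec k v ≤ 2 := by
  constructor
  · rintro ⟨C, hC, hk⟩
    have e : kvec k = fun v => (use C v : ℤ) := by
      funext v
      rw [kvec, (hk v).1]
    refine ⟨?_, ?_⟩
    · rw [e]; exact ch_sumU hC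
    · intro v
      have := (hk v).2
      rw [kvec]
      exact_mod_cast this
  · rintro ⟨h1, h2⟩
    obtain ⟨C, hC, hk⟩ := sumU_ch h h1
    refine ⟨C, hC, fun v => ⟨?_, ?_⟩⟩
    · have := hk v
      rw [kvec] at this
      exact_mod_cast this
    · have := h2 v
      rw [kvec] at this
      exact_mod_cast this

theorem kvec_nil : kvec [] = 0 := by
  funext v; simp [kvec]

theorem kvec_cons (a : ℕ) (l : List ℕ) : kvec (a :: l) = ev a + kvec l := by
  funext v
  simp only [kvec, List.count_cons, Pi.add_apply, ev, Pi.single_apply, beq_iff_eq]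
  by_cases h : a = v
  · subst h; simp; ring
  · rw [if_neg h, if_neg (fun e => h e.symm)]; simp

theorem kvec_append (k l : List ℕ) : kvec (k ++ l) = kvec k + kvec l := by
  funext v
  simp only [kvec, List.count_append, Pi.add_apply]
  push_cast
  rfl

end Pool.Agent.PF4.Gd

end

section -- file PF4/PcK4

/-!
Pieces: the complete graphs on four vertices.
-/

set_option autoImplicit false
set_option linter.unusedSimpArgs false

namespace Pool.Agent.PF4.Gd

open Finset Pool.Agent.TFC
open scoped Pointwise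

/-! ### sums of single edges -/

theorem Un_pair (a b : ℕ) : Un ({a} : Finset ℕ) {b} = Ue s(a, b) := by
  ext x
  rw [Plain_Ue]
  simp only [Un, Set.mem_ofPred_eq, Finset.mem_singleton]
  constructor
  · rintro (h | ⟨s, rfl, t, rfl, h⟩)
    · exact Or.inl h
    · exact Or.inr h
  · rintro (h | h)
    · exact Or.inl h
    · exact Or.inr ⟨a, rfl, b, rfl, h⟩

theorem sumU_edges {S : List Ed} (h : WF S) :
    sumU ((S.map fun e => (([e.1], [e.2]) : List ℕ × List ℕ)).map tf) = ∑ x ∈ fs S, Ue x := by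
  induction S with
  | nil => rw [fs_nil, Finset.sum_empty]; rfl
  | cons e S ih =>
    have h1 : fe e ∉ fs S ∧ WF S := by
      unfold WF at h
      rw [List.map_cons, List.nodup_cons] at h
      refine ⟨fun h' => h.1 ?_, h.2⟩
      rwa [fs, List.mem_toFinset] at h'
    rw [fs_cons, Finset.sum_insert h1.1, ← ih h1.2]
    show Un ([e.1] : List ℕ).toFinset ([e.2] : List ℕ).toFinset + _ = _
    have e1 : ([e.1] : List ℕ).toFinset = {e.1} := by simp
    have e2 : ([e.2] : List ℕ).toFinset = {e.2} := by simp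
    rw [e1, e2, Un_pair]
    rfl

/-! ### six edges -/

theorem k4_six {X : Finset ℕ} (hX : #X = 4) (x : ℕ → ℤ) :
    (x ∈ ∑ e ∈ (Clu.k4 X).edges, Ue e ∧ ∀ v, x v ≤ 2) ↔
      x ∈ JS (Clu.k4 X).edges none4 ∨ x = R4_tx X := by
  constructor
  · rintro ⟨hk, hk2⟩
    obtain ⟨z, hz, rfl⟩ := (mem_sum_Ue _ (R4_noLoop X) x).mp hk
    have hM : M2 z := M2.of_dv ((R4_noLoop X).mono hz) hk2
    by_cases hs : ∃ a b c d, Sq z a b c d
    · obtain ⟨a, b, c, d, hs⟩ := hs
      exact Or.inr (R4_dv_sq hX hz hM hs)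
    · push Not at hs
      exact Or.inl ⟨z, hz, hM, fun a b c d hsq => hs a b c d hsq, rfl⟩
  · rintro (⟨z, hz, hM, _, rfl⟩ | rfl)
    · refine ⟨(mem_sum_Ue _ (R4_noLoop X) _).mpr ⟨z, hz, rfl⟩, ?_⟩
      intro v
      rw [dv_apply]
      exact_mod_cast hM.le v
    · refine ⟨?_, ?_⟩
      · obtain ⟨a, b, c, d, hab, hac, had, hbc, hbd, hcd, rfl⟩ := card_eq_four.mp hX
        have h4 : Dist4 a b c d := ⟨hab, hac, had, hbc, hbd, hcd⟩
        have hsub : sq a b c d ⊆ (Clu.k4 {a, b, c, d}).edges := by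
          intro e he
          simp only [TFC.sq, mem_insert, mem_singleton] at he
          rcases he with rfl | rfl | rfl | rfl <;> rw [R4_mem_edges] <;>
            simp [hab, hbc, hcd, had.symm]
        rw [mem_sum_Ue _ (R4_noLoop _)]
        refine ⟨sq a b c d, hsub, ?_⟩
        exact (R4_dv_sq hX hsub (Unit_sq_M2 h4) (a := a) (b := b) (c := c) (d := d)
          ⟨hac, hbd, by simp [TFC.sq], by simp [TFC.sq], by simp [TFC.sq], by simp [TFC.sq]⟩).symm
      · intro v
        unfold R4_tx
        split_ifs <;> norm_num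

/-! ### three units -/

theorem k4_three_sum {X : Finset ℕ} (n : ℕ) : ∀ {x : ℕ → ℤ}, x ∈ sumU (List.replicate n (X, X)) →
    (∀ v, v ∉ X → x v = 0) ∧ (∀ v, 0 ≤ x v) ∧ ∃ m : ℕ, m ≤ n ∧ ∑ v ∈ X, x v = 2 * m := by
  induction n with
  | zero =>
    intro x hx
    have : x = 0 := hx
    subst this
    exact ⟨fun _ _ => rfl, fun _ => le_rfl, 0, le_rfl, by simp⟩
  | succ n ih =>
    intro x hx
    rw [List.replicate_succ] at hx
    obtain ⟨p, hp, q, hq, rfl⟩ := Set.mem_add.mp (show x ∈ Un X X + sumU (List.replicate n (X, X)) from hx)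
    obtain ⟨q1, q2, m, hm, q3⟩ := ih hq
    rcases hp with rfl | ⟨s, hs, t, ht, rfl⟩
    · rw [zero_add]
      exact ⟨q1, q2, m, by omega, q3⟩
    · refine ⟨?_, ?_, m + 1, by omega, ?_⟩
      · intro v hv
        have h1 : v ≠ s := fun e => hv (e ▸ hs)
        have h2 : v ≠ t := fun e => hv (e ▸ ht)
        rw [Pi.add_apply, Pi.add_apply, ev_ne h1, ev_ne h2, q1 v hv]
        rfl
      · intro v
        rw [Pi.add_apply, Pi.add_apply, TFC.ev_apply, TFC.ev_apply]
        have := q2 v
        split_ifs <;> omega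
      · simp only [Pi.add_apply, sum_add_distrib, TFC.ev_apply, sum_ite_eq', hs, ht, if_true, q3]
        push_cast
        ring

/-- small vectors on four corners -/
theorem k4_dec : ∀ p q r s : Fin 3, ((p : ℕ) + q + r + s) % 2 = 0 → (p : ℕ) + q + r + s ≤ 6 →
    (∃ f1 f2 f3 f4 f5 f6 : Fin 2, (p : ℕ) = f1 + f2 + f3 ∧ (q : ℕ) = f1 + f4 + f5 ∧
      (r : ℕ) = f2 + f4 + f6 ∧ (s : ℕ) = f3 + f5 + f6) ∨
    (p, q, r, s) ∈ ([(2, 0, 0, 0), (0, 2, 0, 0), (0, 0, 2, 0), (0, 0, 0, 2), (2, 2, 0, 0),
      (2, 0, 2, 0), (2, 0, 0, 2), (0, 2, 2, 0), (0, 2, 0, 2), (0, 0, 2, 2)] :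
      List (Fin 3 × Fin 3 × Fin 3 × Fin 3)) := by
  decide

theorem k4_edges {a b c d : ℕ} (h : Dist4 a b c d) : (Clu.k4 ({a, b, c, d} : Finset ℕ)).edges =
    {s(a, b), s(a, c), s(a, d), s(b, c), s(b, d), s(c, d)} := by
  obtain ⟨hab, hac, had, hbc, hbd, hcd⟩ := h
  ext e
  induction e using Sym2.ind with
  | _ u v =>
    rw [R4_mem_edges]
    simp only [mem_insert, mem_singleton]
    constructor
    · rintro ⟨hu, hv, huv⟩
      rcases hu with rfl | rfl | rfl | rfl <;> rcases hv with rfl | rfl | rfl | rfl <;>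
        simp_all [Sym2.eq_swap]
    · rintro (h | h | h | h | h | h) <;> rw [Sym2.eq_iff] at h <;>
        rcases h with ⟨rfl, rfl⟩ | ⟨rfl, rfl⟩ <;>
        simp [hab, hac, had, hbc, hbd, hcd, hab.symm, hac.symm, had.symm, hbc.symm, hbd.symm, hcd.symm]

theorem mem_Ue_smul (a b : ℕ) (f : Fin 2) : ((f : ℕ) : ℤ) • (ev a + ev b) ∈ Ue s(a, b) := by
  rw [Plain_Ue]
  fin_cases f
  · left; simp
  · right; simp

theorem k4_flags {a b c d : ℕ} (h : Dist4 a b c d) (f1 f2 f3 f4 f5 f6 : Fin 2) :
    ((f1 : ℕ) : ℤ) • (ev a + ev b) + (((f2 : ℕ) : ℤ) • (ev a + ev c) + (((f3 : ℕ) : ℤ) • (ev a + ev d) +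
      (((f4 : ℕ) : ℤ) • (ev b + ev c) + (((f5 : ℕ) : ℤ) • (ev b + ev d) +
        ((f6 : ℕ) : ℤ) • (ev c + ev d))))) ∈
      ∑ e ∈ (Clu.k4 ({a, b, c, d} : Finset ℕ)).edges, Ue e := by
  rw [k4_edges h]
  obtain ⟨hab, hac, had, hbc, hbd, hcd⟩ := h
  rw [Finset.sum_insert (by simp [hab, hac, had, hbc, hbd, hcd, hab.symm, hac.symm, had.symm, hbc.symm,
      hbd.symm, hcd.symm]),
    Finset.sum_insert (by simp [hab, hac, had, hbc, hbd, hcd, hab.symm, hac.symm, had.symm, hbc.symm,
      hbd.symm, hcd.symm]),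
    Finset.sum_insert (by simp [hab, hac, had, hbc, hbd, hcd, hab.symm, hac.symm, had.symm, hbc.symm,
      hbd.symm, hcd.symm]),
    Finset.sum_insert (by simp [hab, hac, had, hbc, hbd, hcd, hab.symm, hac.symm, had.symm, hbc.symm,
      hbd.symm, hcd.symm]),
    Finset.sum_insert (by simp [hab, hac, had, hbc, hbd, hcd, hab.symm, hac.symm, had.symm, hbc.symm,
      hbd.symm, hcd.symm]),
    Finset.sum_singleton]
  exact Set.add_mem_add (mem_Ue_smul _ _ _) (Set.add_mem_add (mem_Ue_smul _ _ _)
    (Set.add_mem_add (mem_Ue_smul _ _ _) (Set.add_mem_add (mem_Ue_smul _ _ _)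
      (Set.add_mem_add (mem_Ue_smul _ _ _) (mem_Ue_smul _ _ _)))))

/-- digons -/
def DigK4 (X : Finset ℕ) (x : ℕ → ℤ) : Prop :=
  (∃ i ∈ X, x = 2 • ev i) ∨ ∃ i ∈ X, ∃ j ∈ X, i ≠ j ∧ x = 2 • ev i + 2 • ev j

theorem k4_core {a b c d : ℕ} (h : Dist4 a b c d) {x : ℕ → ℤ}
    (hx : ∀ v, v ∉ ({a, b, c, d} : Finset ℕ) → x v = 0) (h0 : ∀ v, 0 ≤ x v) (h2 : ∀ v, x v ≤ 2)
    {m : ℕ} (hm : m ≤ 3) (hs : ∑ v ∈ ({a, b, c, d} : Finset ℕ), x v = 2 * m) :
    x ∈ JS (Clu.k4 ({a, b, c, d} : Finset ℕ)).edges none4 ∨ DigK4 {a, b, c, d} x := by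
  have h' := h
  obtain ⟨hab, hac, had, hbc, hbd, hcd⟩ := h
  have hX : #({a, b, c, d} : Finset ℕ) = 4 := by
    rw [card_insert_of_notMem (by simp [hab, hac, had]),
      card_insert_of_notMem (by simp [hbc, hbd]), card_insert_of_notMem (by simp [hcd]),
      card_singleton]
  rw [sum_insert (by simp [hab, hac, had]), sum_insert (by simp [hbc, hbd]),
    sum_insert (by simp [hcd]), sum_singleton] at hs
  obtain ⟨p, hp⟩ : ∃ p : Fin 3, x a = ((p : ℕ) : ℤ) :=
    ⟨⟨(x a).toNat, by have := h0 a; have := h2 a; omega⟩, by have := h0 a; simp; omega⟩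
  obtain ⟨q, hq⟩ : ∃ p : Fin 3, x b = ((p : ℕ) : ℤ) :=
    ⟨⟨(x b).toNat, by have := h0 b; have := h2 b; omega⟩, by have := h0 b; simp; omega⟩
  obtain ⟨r, hr⟩ : ∃ p : Fin 3, x c = ((p : ℕ) : ℤ) :=
    ⟨⟨(x c).toNat, by have := h0 c; have := h2 c; omega⟩, by have := h0 c; simp; omega⟩
  obtain ⟨s, hs'⟩ : ∃ p : Fin 3, x d = ((p : ℕ) : ℤ) :=
    ⟨⟨(x d).toNat, by have := h0 d; have := h2 d; omega⟩, by have := h0 d; simp; omega⟩
  have hxe : x = ((p : ℕ) : ℤ) • ev a + (((q : ℕ) : ℤ) • ev b + (((r : ℕ) : ℤ) • ev c +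
      ((s : ℕ) : ℤ) • ev d)) := by
    funext v
    simp only [Pi.add_apply, Pi.smul_apply, TFC.ev_apply, smul_eq_mul]
    by_cases h1 : v = a
    · subst h1; rw [hp]; simp [hab, hac, had]
    by_cases h2 : v = b
    · subst h2; rw [hq]; simp [h1, hbc, hbd]
    by_cases h3 : v = c
    · subst h3; rw [hr]; simp [h1, h2, hcd]
    by_cases h4 : v = d
    · subst h4; rw [hs']; simp [h1, h2, h3]
    · rw [hx v (by simp [h1, h2, h3, h4])]; simp [h1, h2, h3, h4]
  rw [hp, hq, hr, hs'] at hs
  rcases k4_dec p q r s (by omega) (by omega) with ⟨f1, f2, f3, f4, f5, f6, e1, e2, e3, e4⟩ | hd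
  · left
    have hmem := k4_flags h' f1 f2 f3 f4 f5 f6
    have hx2 : x = ((f1 : ℕ) : ℤ) • (ev a + ev b) + (((f2 : ℕ) : ℤ) • (ev a + ev c) +
        (((f3 : ℕ) : ℤ) • (ev a + ev d) + (((f4 : ℕ) : ℤ) • (ev b + ev c) +
        (((f5 : ℕ) : ℤ) • (ev b + ev d) + ((f6 : ℕ) : ℤ) • (ev c + ev d))))) := by
      rw [hxe, e1, e2, e3, e4]
      push_cast
      module
    rw [← hx2] at hmem
    rcases (k4_six hX x).1 ⟨hmem, h2⟩ with h5 | h5
    · exact h5
    · exfalso
      have g1 : x a = 2 := by rw [h5]; simp [R4_tx]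
      have g2 : x b = 2 := by rw [h5]; simp [R4_tx]
      have g3 : x c = 2 := by rw [h5]; simp [R4_tx]
      have g4 : x d = 2 := by rw [h5]; simp [R4_tx]
      omega
  · right
    have hz : ∀ v : ℕ, (0 : ℤ) • (ev v : ℕ → ℤ) = 0 := fun v => zero_smul _ _
    simp only [List.mem_cons, Prod.mk.injEq, List.not_mem_nil, or_false] at hd
    rcases hd with ⟨rfl, rfl, rfl, rfl⟩ | ⟨rfl, rfl, rfl, rfl⟩ | ⟨rfl, rfl, rfl, rfl⟩ |
      ⟨rfl, rfl, rfl, rfl⟩ | ⟨rfl, rfl, rfl, rfl⟩ | ⟨rfl, rfl, rfl, rfl⟩ | ⟨rfl, rfl, rfl, rfl⟩ |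
      ⟨rfl, rfl, rfl, rfl⟩ | ⟨rfl, rfl, rfl, rfl⟩ | ⟨rfl, rfl, rfl, rfl⟩
    · exact Or.inl ⟨a, by simp, by rw [hxe]; simp⟩
    · exact Or.inl ⟨b, by simp, by rw [hxe]; simp⟩
    · exact Or.inl ⟨c, by simp, by rw [hxe]; simp⟩
    · exact Or.inl ⟨d, by simp, by rw [hxe]; simp⟩
    · exact Or.inr ⟨a, by simp, b, by simp, hab, by rw [hxe]; simp⟩
    · exact Or.inr ⟨a, by simp, c, by simp, hac, by rw [hxe]; simp⟩
    · exact Or.inr ⟨a, by simp, d, by simp, had, by rw [hxe]; simp⟩
    · exact Or.inr ⟨b, by simp, c, by simp, hbc, by rw [hxe]; simp⟩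
    · exact Or.inr ⟨b, by simp, d, by simp, hbd, by rw [hxe]; simp⟩
    · exact Or.inr ⟨c, by simp, d, by simp, hcd, by rw [hxe]; simp⟩

theorem k4_three {X : Finset ℕ} (hX : #X = 4) (x : ℕ → ℤ) :
    (x ∈ sumU (List.replicate 3 (X, X)) ∧ ∀ v, x v ≤ 2) ↔
      x ∈ JS (Clu.k4 X).edges none4 ∨ DigK4 X x := by
  constructor
  · rintro ⟨h1, h2⟩
    obtain ⟨a, b, c, d, hab, hac, had, hbc, hbd, hcd, rfl⟩ := card_eq_four.mp hX
    obtain ⟨h3, h4, m, hm, h5⟩ := k4_three_sum 3 h1
    exact k4_core ⟨hab, hac, had, hbc, hbd, hcd⟩ h3 h4 h2 hm h5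
  · rintro (h | h)
    · refine ⟨JS_subset_units_k4 hX h, ?_⟩
      obtain ⟨z, hz, hM, _, rfl⟩ := h
      intro v
      rw [dv_apply]
      exact_mod_cast hM.le v
    · have hu : ∀ i ∈ X, (2 • ev i : ℕ → ℤ) ∈ Un X X := fun i hi =>
        Or.inr ⟨i, hi, i, hi, two_smul _ _⟩
      rcases h with ⟨i, hi, rfl⟩ | ⟨i, hi, j, hj, hij, rfl⟩
      · refine ⟨?_, ?_⟩
        · show _ ∈ Un X X + (Un X X + (Un X X + {0}))
          refine ⟨_, hu i hi, 0, ⟨0, Or.inl rfl, 0, ⟨0, Or.inl rfl, 0, rfl, ?_⟩, ?_⟩, ?_⟩ <;>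
            simp
        · intro v
          rw [Pi.smul_apply, TFC.ev_apply]
          split_ifs <;> simp
      · refine ⟨?_, ?_⟩
        · show _ ∈ Un X X + (Un X X + (Un X X + {0}))
          refine ⟨_, hu i hi, _, ⟨_, hu j hj, 0, ⟨0, Or.inl rfl, 0, rfl, ?_⟩, rfl⟩, ?_⟩ <;> simp
        · intro v
          rw [Pi.add_apply, Pi.smul_apply, Pi.smul_apply, TFC.ev_apply, TFC.ev_apply]
          by_cases h1 : v = i
          · subst h1; simp [hij]
          · rw [if_neg h1]; split_ifs <;> simp

/-! ### the cluster as data -/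

theorem k4_X {c : Cl} (hc : ClOK c) (h1 : c.1 = false) : #c.2.2.2.toFinset = 4 := by
  rw [List.toFinset_card_of_nodup hc.nd, hc.k4 h1]

theorem k4_clE {c : Cl} (h1 : c.1 = false) : fs (clE c) = (Clu.k4 c.2.2.2.toFinset).edges := by
  rw [fs_clE]
  unfold cluF
  rw [h1, cond_false]

theorem mem_prs {L : List ℕ} {e : Ed} : e ∈ prs L ↔ e.1 ∈ L ∧ e.2 ∈ L ∧ e.1 < e.2 := by
  unfold prs
  rw [List.mem_filter, mem_prd, decide_eq_true_eq, and_assoc]

theorem k4_digs0 {L : List ℕ} (x : ℕ → ℤ) :
    (∃ k ∈ (L.map fun i => [i, i]) ++ ((prs L).map fun e => [e.1, e.1, e.2, e.2]), x = kvec k) ↔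
      DigK4 L.toFinset x := by
  have v2 : ∀ i : ℕ, kvec [i, i] = 2 • ev i := by
    intro i
    rw [kvec_cons, kvec_cons, kvec_nil, add_zero, two_smul]
  have v4 : ∀ i j : ℕ, kvec [i, i, j, j] = 2 • ev i + 2 • ev j := by
    intro i j
    rw [kvec_cons, kvec_cons, v2, two_smul ℕ (ev i), add_assoc]
  constructor
  · rintro ⟨k, hk, rfl⟩
    rw [List.mem_append, List.mem_map, List.mem_map] at hk
    rcases hk with ⟨i, hi, rfl⟩ | ⟨e, he, rfl⟩
    · exact Or.inl ⟨i, by simpa using hi, v2 i⟩
    · obtain ⟨h1, h2, h3⟩ := mem_prs.1 he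
      exact Or.inr ⟨e.1, by simpa using h1, e.2, by simpa using h2, by omega, v4 _ _⟩
  · rintro (⟨i, hi, rfl⟩ | ⟨i, hi, j, hj, hij, rfl⟩)
    · exact ⟨[i, i], List.mem_append_left _ (List.mem_map.2 ⟨i, by simpa using hi, rfl⟩), (v2 i).symm⟩
    · rcases lt_or_gt_of_ne hij with h | h
      · exact ⟨[i, i, j, j], List.mem_append_right _ (List.mem_map.2 ⟨(i, j), mem_prs.2
          ⟨by simpa using hi, by simpa using hj, h⟩, rfl⟩), (v4 i j).symm⟩
      · refine ⟨[j, j, i, i], List.mem_append_right _ (List.mem_map.2 ⟨(j, i), mem_prs.2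
          ⟨by simpa using hj, by simpa using hi, h⟩, rfl⟩), ?_⟩
        rw [v4, add_comm]

theorem kvec_double {L : List ℕ} (h : L.Nodup) : kvec (L.flatMap fun i => [i, i]) = R4_tx L.toFinset := by
  induction L with
  | nil => funext v; simp [kvec, R4_tx]
  | cons a L ih =>
    rw [List.nodup_cons] at h
    rw [List.flatMap_cons, kvec_append, ih h.2, kvec_cons, kvec_cons, kvec_nil]
    funext v
    simp only [Pi.add_apply, Pi.zero_apply, R4_tx, TFC.ev_apply, List.mem_toFinset, List.mem_cons]
    by_cases h1 : v = a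
    · subst h1
      simp [h.1]
    · simp [h1]

/-- the vectors of the relaxed piece are the sums of its units, cut at 2 -/
theorem k4_pcS {c : Cl} (hc : ClOK c) (h1 : c.1 = false) (ch : ℕ × ℕ) :
    pcS (rxP c ch) = {x | x ∈ sumU ((rxU c ch).map tf) ∧ ∀ v, x v ≤ 2} := by
  have hX := k4_X hc h1
  ext x
  have e0 : x ∈ pcS (rxP c ch) ↔ (∃ k ∈ digs c ch, x = kvec k) ∨
      x ∈ JS (Clu.k4 c.2.2.2.toFinset).edges none4 := by
    rw [← k4_clE h1]
    show ((∃ k ∈ digs c ch, x = kvec k) ∨ (true = true ∧ x ∈ JS (fs (clE c)) none4)) ↔ _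
    simp
  rw [e0]
  show _ ↔ x ∈ sumU ((rxU c ch).map tf) ∧ ∀ v, x v ≤ 2
  unfold digs rxU
  rw [h1, cond_false, cond_false]
  by_cases h0 : ch.1 = 0
  · rw [decide_eq_true h0, cond_true, cond_true, k4_digs0]
    have := k4_three hX x
    rw [or_comm]
    exact this.symm
  · rw [decide_eq_false h0, cond_false, cond_false]
    have hw : WF (prs c.2.2.2) := by
      have := wf_clE hc
      unfold clE at this
      rwa [h1, cond_false] at this
    have hf : fs (prs c.2.2.2) = (Clu.k4 c.2.2.2.toFinset).edges := by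
      have := k4_clE h1
      unfold clE at this
      rwa [h1, cond_false] at this
    rw [sumU_edges hw, hf, k4_six hX x, or_comm]
    refine or_congr Iff.rfl ?_
    constructor
    · rintro ⟨k, hk, rfl⟩
      rw [List.mem_singleton] at hk
      rw [hk, kvec_double hc.nd]
    · rintro rfl
      exact ⟨_, List.mem_singleton.2 rfl, (kvec_double hc.nd).symm⟩

theorem k4_UB {c : Cl} (h1 : c.1 = false) {n : ℕ} (hn : ∀ v ∈ c.2.2.2, v < n) (ch : ℕ × ℕ) :
    UB n (rxU c ch) := by
  unfold rxU
  rw [h1, cond_false]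
  by_cases h0 : ch.1 = 0
  · rw [decide_eq_true h0, cond_true]
    intro u hu
    simp only [List.mem_cons, List.not_mem_nil, or_false, or_self] at hu
    subst hu
    exact ⟨hn, hn⟩
  · rw [decide_eq_false h0, cond_false]
    intro u hu
    obtain ⟨e, he, rfl⟩ := List.mem_map.1 hu
    obtain ⟨h2, h3, _⟩ := mem_prs.1 he
    refine ⟨?_, ?_⟩
    · intro s hs; rw [List.mem_singleton.1 hs]; exact hn _ h2
    · intro s hs; rw [List.mem_singleton.1 hs]; exact hn _ h3

/-! ### the moves inside the exact piece -/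

end Pool.Agent.PF4.Gd

end

section -- file PF4/PcR

/-!
Pieces: the clusters with two centres, the simple pieces, and the summary for all clusters.
-/

set_option autoImplicit false
set_option linter.unusedSimpArgs false

namespace Pool.Agent.PF4.Gd

open Finset Pool.Agent.TFC
open scoped Pointwise

/-! ### sums of units -/

theorem sumU_list (us : List (Finset ℕ × Finset ℕ)) : sumU us = (us.map fun u => Un u.1 u.2).sum := by
  induction us with
  | nil => rfl
  | cons u us ih => rw [List.map_cons, List.sum_cons, ← ih]; rfl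

theorem sumU_perm {us vs : List (Finset ℕ × Finset ℕ)} (h : us.Perm vs) : sumU us = sumU vs := by
  rw [sumU_list, sumU_list]
  exact (h.map _).sum_eq

theorem zero_mem_sumU (us : List (Finset ℕ × Finset ℕ)) : (0 : ℕ → ℤ) ∈ sumU us := by
  induction us with
  | nil => rfl
  | cons u us ih => exact ⟨0, Or.inl rfl, 0, ih, add_zero _⟩

theorem mem_sumU_of {us : List (Finset ℕ × Finset ℕ)} {u : Finset ℕ × Finset ℕ} (hu : u ∈ us)
    {x : ℕ → ℤ} (hx : x ∈ Un u.1 u.2) : x ∈ sumU us := by
  induction us with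
  | nil => cases hu
  | cons w us ih =>
    rcases List.mem_cons.1 hu with rfl | h
    · exact ⟨x, hx, 0, zero_mem_sumU us, add_zero _⟩
    · exact ⟨0, Or.inl rfl, x, ih h, zero_add _⟩

/-! ### two centres -/

theorem k2_edges_comm (x y : ℕ) (L : Finset ℕ) : (Clu.k2 x y L).edges = (Clu.k2 y x L).edges :=
  Finset.union_comm _ _

/-- the set form of the relaxed piece -/
theorem k2_set {w w' c : ℕ} {L : Finset ℕ} (hv : (CC.k2 w w' c L).Valid) (x : ℕ → ℤ) :
    (x ∈ sumU (CC.k2 w w' c L).units ∧ ∀ v, x v ≤ 2) ↔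
      x ∈ JS (Clu.k2 w w' L).edges none4 ∨ ∃ l ∈ L, l ≠ c ∧ x = 2 • ev w + 2 • ev l := by
  constructor
  · rintro ⟨h1, h2⟩
    exact units_k2_le hv h1 h2
  · rintro (h | ⟨l, hl, hlc, rfl⟩)
    · refine ⟨JS_subset_units_k2 hv h, ?_⟩
      obtain ⟨z, _, hM, _, rfl⟩ := h
      intro v
      rw [dv_apply]
      exact_mod_cast hM.le v
    · obtain ⟨h1, h2, h3, -, hc⟩ := hv
      have hwl : w ≠ l := fun e => h2 (e ▸ hl)
      refine ⟨?_, ?_⟩
      · show _ ∈ sumU ((L.erase c).toList.map (fun l => (({l} : Finset ℕ), ({w, w'} : Finset ℕ))) ++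
          [({w}, L), ({w'}, {c})])
        rw [sumU_append]
        refine ⟨ev l + ev w, ?_, ev w + ev l, ?_, ?_⟩
        · refine mem_sumU_of (u := ({l}, {w, w'})) ?_ (Or.inr ⟨l, by simp, w, by simp, rfl⟩)
          rw [List.mem_map]
          exact ⟨l, by simp [hl, hlc], rfl⟩
        · exact mem_sumU_of (u := ({w}, L)) (by simp) (Or.inr ⟨w, by simp, l, hl, rfl⟩)
        · rw [two_smul, two_smul]
          show ev l + ev w + (ev w + ev l) = _
          abel
      · intro v
        rw [Pi.add_apply, Pi.smul_apply, Pi.smul_apply, TFC.ev_apply, TFC.ev_apply]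
        by_cases h1 : v = w
        · subst h1; simp [hwl]
        · rw [if_neg h1]; split_ifs <;> simp

theorem k2_units {w w' c : ℕ} {L : List ℕ} (hL : L.Nodup) :
    sumU (((L.filter fun l => !decide (l = c)).map (fun l => tf ([l], [w, w']))) ++
      [tf ([w], L), tf ([w'], [c])]) = sumU (CC.k2 w w' c L.toFinset).units := by
  have e1 : (L.filter fun l => !decide (l = c)).Perm (L.toFinset.erase c).toList := by
    refine List.perm_of_nodup_nodup_toFinset_eq (hL.filter _) (Finset.nodup_toList _) ?_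
    rw [Finset.toList_toFinset]
    ext v
    simp only [List.mem_toFinset, List.mem_filter, Finset.mem_erase, Bool.not_eq_true',
      decide_eq_false_iff_not]
    tauto
  have e2 : ∀ l, tf ([l], [w, w']) = (({l} : Finset ℕ), ({w, w'} : Finset ℕ)) := by
    intro l; simp [tf]
  have e3 : tf ([w], L) = (({w} : Finset ℕ), L.toFinset) := by simp [tf]
  have e4 : tf ([w'], [c]) = (({w'} : Finset ℕ), ({c} : Finset ℕ)) := by simp [tf]
  simp only [e2, e3, e4]
  exact sumU_perm ((e1.map _).append_right _)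

theorem k2_clE {c : Cl} (h1 : c.1 = true) :
    fs (clE c) = (Clu.k2 c.2.1 c.2.2.1 c.2.2.2.toFinset).edges := by
  rw [fs_clE]
  unfold cluF
  rw [h1, cond_true]

/-- the other centre -/
def oth (c : Cl) (w : ℕ) : ℕ := if w = c.2.1 then c.2.2.1 else c.2.1

theorem k2_valid {c : Cl} (hc : ClOK c) (h1 : c.1 = true) {ch : ℕ × ℕ} (hch : ChOK c ch) :
    (CC.k2 ch.1 (oth c ch.1) ch.2 c.2.2.2.toFinset).Valid := by
  obtain ⟨a1, a2, a3, a4⟩ := hc.k2 h1
  obtain ⟨b1, b2⟩ := hch h1
  have hcard : 2 ≤ #c.2.2.2.toFinset := by rw [List.toFinset_card_of_nodup hc.nd]; exact a4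
  unfold oth
  rcases b1 with b1 | b1
  · rw [if_pos b1, b1]
    exact ⟨a1, by simpa using a2, by simpa using a3, hcard, by simpa using b2⟩
  · rw [if_neg (by rw [b1]; exact a1.symm), b1]
    exact ⟨a1.symm, by simpa using a3, by simpa using a2, hcard, by simpa using b2⟩

theorem k2_edges {c : Cl} (hc : ClOK c) (h1 : c.1 = true) {ch : ℕ × ℕ} (hch : ChOK c ch) :
    fs (clE c) = (Clu.k2 ch.1 (oth c ch.1) c.2.2.2.toFinset).edges := by
  obtain ⟨a1, a2, a3, a4⟩ := hc.k2 h1
  obtain ⟨b1, b2⟩ := hch h1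
  rw [k2_clE h1]
  unfold oth
  rcases b1 with b1 | b1
  · rw [if_pos b1, b1]
  · rw [if_neg (by rw [b1]; exact a1.symm), b1, k2_edges_comm]

theorem k2_rxU {c : Cl} (hc : ClOK c) (h1 : c.1 = true) {ch : ℕ × ℕ} (hch : ChOK c ch) :
    sumU ((rxU c ch).map tf) = sumU (CC.k2 ch.1 (oth c ch.1) ch.2 c.2.2.2.toFinset).units := by
  obtain ⟨a1, a2, a3, a4⟩ := hc.k2 h1
  obtain ⟨b1, b2⟩ := hch h1
  rw [← k2_units hc.nd]
  unfold rxU
  rw [h1, cond_true, List.map_append, List.map_map]
  have e : ∀ l : ℕ, tf ([l], [c.2.1, c.2.2.1]) = tf ([l], [ch.1, oth c ch.1]) := by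
    intro l
    unfold oth tf
    rcases b1 with b1 | b1
    · rw [if_pos b1, b1]
    · rw [if_neg (by rw [b1]; exact a1.symm), b1]
      simp [Finset.pair_comm]
  have e' : (tf ∘ fun l : ℕ => (([l], [c.2.1, c.2.2.1]) : List ℕ × List ℕ)) =
      fun l => tf ([l], [ch.1, oth c ch.1]) := funext e
  rw [e']
  rfl

theorem kvec4 (w l : ℕ) : kvec [w, w, l, l] = 2 • ev w + 2 • ev l := by
  rw [kvec_cons, kvec_cons, kvec_cons, kvec_cons, kvec_nil, two_smul, two_smul]
  abel

theorem k2_pcS {c : Cl} (hc : ClOK c) (h1 : c.1 = true) {ch : ℕ × ℕ} (hch : ChOK c ch) :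
    pcS (rxP c ch) = {x | x ∈ sumU ((rxU c ch).map tf) ∧ ∀ v, x v ≤ 2} := by
  ext x
  have e0 : x ∈ pcS (rxP c ch) ↔ (∃ k ∈ digs c ch, x = kvec k) ∨
      x ∈ JS (Clu.k2 ch.1 (oth c ch.1) c.2.2.2.toFinset).edges none4 := by
    rw [← k2_edges hc h1 hch]
    show ((∃ k ∈ digs c ch, x = kvec k) ∨ (true = true ∧ x ∈ JS (fs (clE c)) none4)) ↔ _
    simp
  rw [e0]
  show _ ↔ x ∈ sumU ((rxU c ch).map tf) ∧ ∀ v, x v ≤ 2
  rw [k2_rxU hc h1 hch, k2_set (k2_valid hc h1 hch), or_comm]
  refine or_congr Iff.rfl ?_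
  unfold digs
  rw [h1, cond_true]
  constructor
  · rintro ⟨k, hk, rfl⟩
    obtain ⟨l, hl, rfl⟩ := List.mem_map.1 hk
    rw [List.mem_filter] at hl
    exact ⟨l, by simpa using hl.1, by simpa using hl.2, kvec4 _ _⟩
  · rintro ⟨l, hl, hlc, rfl⟩
    exact ⟨_, List.mem_map.2 ⟨l, List.mem_filter.2 ⟨by simpa using hl, by simpa using hlc⟩, rfl⟩,
      (kvec4 _ _).symm⟩

/-! ### all clusters -/

/-- the vectors of the relaxed piece are the sums of its units, cut at 2 -/
theorem rx_pcS {c : Cl} (hc : ClOK c) {ch : ℕ × ℕ} (hch : ChOK c ch) :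
    pcS (rxP c ch) = {x | x ∈ sumU ((rxU c ch).map tf) ∧ ∀ v, x v ≤ 2} := by
  cases h1 : c.1 with
  | true => exact k2_pcS hc h1 hch
  | false => exact k4_pcS hc h1 ch

theorem rx_jump {c : Cl} (hc : ClOK c) {ch : ℕ × ℕ} (hch : ChOK c ch) : Jump (pcS (rxP c ch)) := by
  rw [rx_pcS hc hch]
  exact jump_sumU_box _

/-- all vertices of the cluster are below `n` -/
def ClB (n : ℕ) (c : Cl) : Prop :=
  (∀ v ∈ c.2.2.2, v < n) ∧ (c.1 = true → c.2.1 < n ∧ c.2.2.1 < n)

theorem rx_UB {n : ℕ} {c : Cl} (hn : ClB n c) {ch : ℕ × ℕ} (hch : ChOK c ch) : UB n (rxU c ch) := by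
  cases h1 : c.1 with
  | false => exact k4_UB h1 hn.1 ch
  | true =>
    obtain ⟨b1, b2⟩ := hch h1
    obtain ⟨n1, n2⟩ := hn.2 h1
    unfold rxU
    rw [h1, cond_true]
    intro u hu
    rcases List.mem_append.1 hu with hu | hu
    · obtain ⟨l, hl, rfl⟩ := List.mem_map.1 hu
      have hl := hn.1 l (List.mem_of_mem_filter hl)
      refine ⟨?_, ?_⟩
      · intro s hs; rw [List.mem_singleton.1 hs]; exact hl
      · intro s hs
        simp only [List.mem_cons, List.not_mem_nil, or_false] at hs
        rcases hs with rfl | rfl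
        · exact n1
        · exact n2
    · simp only [List.mem_cons, List.not_mem_nil, or_false] at hu
      have hw : ch.1 < n := by rcases b1 with b1 | b1 <;> rw [b1] <;> assumption
      rcases hu with rfl | rfl
      · refine ⟨?_, hn.1⟩
        intro s hs; rw [List.mem_singleton.1 hs]; exact hw
      · refine ⟨?_, ?_⟩
        · intro s hs
          rw [List.mem_singleton.1 hs]
          split_ifs
          · exact n2
          · exact n1
        · intro s hs; rw [List.mem_singleton.1 hs]; exact hn.1 _ b2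

/-- a vector is legal for the relaxed piece iff it is a vector of the units -/
theorem rx_pv {n : ℕ} {c : Cl} (hc : ClOK c) (hn : ClB n c) {ch : ℕ × ℕ} (hch : ChOK c ch)
    (k : List ℕ) : PV n (rxU c ch) k ↔ kvec k ∈ pcS (rxP c ch) := by
  rw [pv_sumU (rx_UB hn hch), rx_pcS hc hch]
  rfl

/-! ### the simple pieces -/

theorem none4_sym : AlSym (none4 : ℕ → ℕ → ℕ → ℕ → Prop) := ⟨fun _ _ _ _ h => h, fun _ _ _ _ h => h⟩

theorem JS_empty (x : ℕ → ℤ) : x ∈ JS (∅ : Finset (Sym2 ℕ)) none4 ↔ x = 0 := by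
  constructor
  · rintro ⟨z, hz, _, _, rfl⟩
    rw [Finset.subset_empty.1 hz, Plain_dv_empty]
  · rintro rfl
    refine ⟨∅, le_rfl, ⟨fun e he => by simp at he, fun v => by simp [dg]⟩,
      fun a b c d h => by simpa using h.ab, Plain_dv_empty.symm⟩

/-- slack, loop, minus token: nothing or `[u, v]` -/
theorem pcS_two (u v : ℕ) : pcS (true, [], [[u, v]]) = Un ({u} : Finset ℕ) {v} := by
  ext x
  show ((∃ k ∈ [[u, v]], x = kvec k) ∨ (true = true ∧ x ∈ JS (fs []) none4)) ↔ _
  rw [fs_nil, JS_empty]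
  have e : kvec [u, v] = ev u + ev v := by rw [kvec_cons, kvec_cons, kvec_nil, add_zero]
  constructor
  · rintro (⟨k, hk, rfl⟩ | ⟨_, rfl⟩)
    · rw [List.mem_singleton] at hk
      subst hk
      exact Or.inr ⟨u, by simp, v, by simp, e⟩
    · exact Or.inl rfl
  · rintro (rfl | ⟨s, hs, t, ht, rfl⟩)
    · exact Or.inr ⟨rfl, rfl⟩
    · rw [Finset.mem_singleton] at hs ht
      subst hs ht
      exact Or.inl ⟨_, List.mem_singleton.2 rfl, e.symm⟩

theorem jump_pair (a b : ℕ) {i : ℕ} {ε : ℤ} (hε : ε = 1 ∨ ε = -1)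
    (hpos : 0 < ε * ((ev b : ℕ → ℤ) i - ev a i)) :
    ∃ (j : ℕ) (δ : ℤ), (δ = 1 ∨ δ = -1) ∧
      0 < δ * ((ev b : ℕ → ℤ) j - (ev a + Pi.single i ε : ℕ → ℤ) j) ∧
      ev a + Pi.single i ε + Pi.single j δ = (ev b : ℕ → ℤ) := by
  have hab : a ≠ b := by
    rintro rfl; simp at hpos
  have e1 : ∀ w : ℕ, (Pi.single w (1 : ℤ) : ℕ → ℤ) = ev w := fun w => rfl
  have e2 : ∀ w : ℕ, (Pi.single w (-1 : ℤ) : ℕ → ℤ) = - ev w := fun w => single_neg_one w
  have hi : (ε = 1 ∧ i = b) ∨ (ε = -1 ∧ i = a) := by
    rw [TFC.ev_apply, TFC.ev_apply] at hpos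
    by_cases h1 : i = b
    · by_cases h2 : i = a
      · exact absurd (h2.symm.trans h1) hab
      · rw [if_pos h1, if_neg h2] at hpos
        left
        rcases hε with rfl | rfl
        · exact ⟨rfl, h1⟩
        · norm_num at hpos
    · by_cases h2 : i = a
      · rw [if_neg h1, if_pos h2] at hpos
        right
        rcases hε with rfl | rfl
        · norm_num at hpos
        · exact ⟨rfl, h2⟩
      · rw [if_neg h1, if_neg h2] at hpos
        simp at hpos
  rcases hi with ⟨rfl, rfl⟩ | ⟨rfl, rfl⟩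
  · refine ⟨a, -1, Or.inr rfl, ?_, ?_⟩
    · rw [e1, Pi.add_apply, TFC.ev_apply, TFC.ev_apply, if_neg hab, if_pos rfl]
      norm_num
    · rw [e1, e2]; abel
  · refine ⟨b, 1, Or.inl rfl, ?_, ?_⟩
    · rw [e2, Pi.add_apply, Pi.neg_apply, TFC.ev_apply, TFC.ev_apply, if_neg hab.symm, if_pos rfl]
      norm_num
    · rw [e1, e2]; abel

end Pool.Agent.PF4.Gd

end

section -- file PF4/SolD

/-!
# The functions of the solver for conflict-free families

Instance `(x, g, W, C)`: graph, demand, near covers, clusters. `n = x.1` is the slack vertex, `n + 1` the token coordinate.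
Ports: `s = v ≤ n` (total = target minus `e_v`), `s = n + 1 + v` (total = target plus `e_v`); the goal is `n + 1 + n`.
-/

set_option autoImplicit false

namespace Pool.Agent.PF4.SV

open Finset Pool.Agent.TFC Pool.Agent.Lib.helper60

/-- instance of the solver -/
abbrev SI : Type := Ins × List ℕ × List (ℕ × List Ed) × List Cl

/-- the port is known -/
def kno (F : Fct (List (List ℕ))) (s : ℕ) : Bool := F.any fun p => decide (p.1 = s)

/-- the unknown minus ports -/
def uMi (n : ℕ) (F : Fct (List (List ℕ))) : List ℕ := (List.range (n + 1)).filter fun v => !kno F v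

/-- the vertices of the unknown plus ports -/
def uPl (n : ℕ) (F : Fct (List (List ℕ))) : List ℕ := (List.range (n + 1)).filter fun v => !kno F (n + 1 + v)

/-- the minus port is known, the plus port is unknown -/
def plu (n : ℕ) (F : Fct (List (List ℕ))) (v : ℕ) : Bool := kno F v && !kno F (n + 1 + v)

/-- the target -/
def tgL (n : ℕ) : List ℕ := (List.range (n + 1)).map fun v => if v < n then 2 else 2 * n - 1

/-- the units of the relaxed pieces -/
def rlU (y : SI) (F : Fct (List (List ℕ))) : List (List (List ℕ × List ℕ)) :=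
  ((y.2.2.2.map fun c => rxU c (psi (plu y.1.1 F) c)) ++ (plE y.1 y.2.2.2).map fun e => [([e.1], [e.2])]) ++
  (((slJ y.1.1 y.2.1).map fun p => [([p.1], [y.1.1])]) ++ (List.range y.1.1).map fun _ => [([y.1.1], [y.1.1])])

/-- one matching call -/
def relaxS (w : SI × Fct (List (List ℕ))) : Bool × ℕ × List (List ℕ) :=
  (Gd.capF (w.1.1.1 + 1) (tgL w.1.1.1) (rlU w.1 w.2) (uMi w.1.1.1 w.2) (uPl w.1.1.1 w.2),
    Gd.capP (w.1.1.1 + 1) (tgL w.1.1.1) (rlU w.1 w.2) (uMi w.1.1.1 w.2) (uPl w.1.1.1 w.2),
    Gd.capS (w.1.1.1 + 1) (tgL w.1.1.1) (rlU w.1 w.2) (uMi w.1.1.1 w.2) (uPl w.1.1.1 w.2))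

/-- the total of `ks` is at the port `s` -/
def AtP (n : ℕ) (ks : List (List ℕ)) (s : ℕ) : Prop :=
  ∀ v < n + 1, ttl ks v + (if s = v then 1 else 0) = tgt n 1 v + (if s = n + 1 + v then 1 else 0)

/-- the relaxed pieces, relative to the facts -/
def rlP (y : SI) (F : Fct (List (List ℕ))) : List Pc :=
  pcs (fun c => rxP c (psi (plu y.1.1 F) c)) y.1 y.2.1 y.2.2.2

/-- the exact pieces -/
def xcP (y : SI) : List Pc := pcs exP y.1 y.2.1 y.2.2.2

/-- relaxed configuration at an unknown port -/
structure GoodS (y : SI) (F : Fct (List (List ℕ))) (r : ℕ × List (List ℕ)) : Prop where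
  lt : r.1 < 2 * (y.1.1 + 1)
  unk : kno F r.1 = false
  mem : List.Forall₂ (fun p k => pmem p k = true) (rlP y F) r.2
  at_ : AtP y.1.1 r.2 r.1

/-- exact configuration at a port different from the goal -/
structure FactS (y : SI) (s : ℕ) (ks : List (List ℕ)) : Prop where
  lt : s < 2 * y.1.1 + 1
  mem : List.Forall₂ (fun p k => pmem p k = true) (xcP y) ks
  at_ : AtP y.1.1 ks s

/-- exact configuration with the full target -/
structure SolS (y : SI) (ks : List (List ℕ)) : Prop where
  mem : List.Forall₂ (fun p k => pmem p k = true) (xcP y) ks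
  at_ : ∀ v < y.1.1 + 1, ttl ks v = tgt y.1.1 0 v

/-- well-formed instance -/
structure WfS (y : SI) : Prop where
  x : InsWF y.1
  c : ClsOK y.1 y.2.2.2
  g : ∀ v, y.2.1.getD v 0 ≤ 2
  w : ∀ p ∈ y.2.2.1, p.1 < y.1.1 ∧ VM y.1 p.2 ∧
    (∀ u < y.1.1, y.2.1.getD u 0 ≤ degL p.2 u + (if u = p.1 then 1 else 0)) ∧ degL p.2 p.1 + 1 = y.2.1.getD p.1 0
  nod : (y.2.2.1.map Prod.fst).Nodup
  ne : y.2.2.1 ≠ []

/-- the vector of the `j`-th cluster is not exact -/
def nx (C : List Cl) (ks : List (List ℕ)) (j : ℕ) : Bool :=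
  !pmem (exP (C.getD j (false, 0, 0, []))) (ks.getD j [])

/-- number of the violated clusters -/
def muS (C : List Cl) (ks : List (List ℕ)) : ℕ := ((List.range C.length).filter fun j => nx C ks j).length

/-- the first violated cluster -/
def fstV (C : List Cl) (ks : List (List ℕ)) : ℕ := ((List.range C.length).filter fun j => nx C ks j).headD 0

/-- the pieces of the clusters in the world of the reduction step: cluster `i` becomes exact, violated clusters stay relaxed -/
def wcl (P : ℕ → Bool) (C : List Cl) (ks : List (List ℕ)) (i : ℕ) : List Pc :=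
  (List.range C.length).map fun j =>
    bif !decide (j = i) && nx C ks j then
      rxP (C.getD j (false, 0, 0, [])) (psi P (C.getD j (false, 0, 0, [])))
    else exP (C.getD j (false, 0, 0, []))

/-- the token pieces -/
def tkP (n : ℕ) (F : Fct (List (List ℕ))) : List Pc :=
  ((uMi n F).map fun v => unP v (n + 1)) ++ (uPl n F).map fun v => (false, [], [[v], [n + 1]])

/-- the token vectors for the port `s`; `s = 2 * (n + 1)` for no port -/
def tkS (n : ℕ) (F : Fct (List (List ℕ))) (s : ℕ) : List (List ℕ) :=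
  ((uMi n F).map fun v => bif decide (v = s) then [v, n + 1] else []) ++
    (uPl n F).map fun v => bif decide (n + 1 + v = s) then [n + 1] else [v]

/-- the pieces of the world -/
def wPc (y : SI) (F : Fct (List (List ℕ))) (ks : List (List ℕ)) : List Pc :=
  ((wcl (plu y.1.1 F) y.2.2.2 ks (fstV y.2.2.2 ks) ++ (plE y.1 y.2.2.2).map edP) ++
    ((slJ y.1.1 y.2.1).map (fun p => unP p.1 y.1.1) ++ (List.range y.1.1).map fun _ => unP y.1.1 y.1.1)) ++
  tkP y.1.1 F

/-- the additional vector of the first violated cluster -/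
def dgV (y : SI) (F : Fct (List (List ℕ))) (ks : List (List ℕ)) : List ℕ :=
  findD (fun d => eqK (ks.getD (fstV y.2.2.2 ks) []) d)
    (digs (y.2.2.2.getD (fstV y.2.2.2 ks) (false, 0, 0, []))
      (psi (plu y.1.1 F) (y.2.2.2.getD (fstV y.2.2.2 ks) (false, 0, 0, [])))) []

/-- the states at the start of the pool -/
def stS (y : SI) (F : Fct (List (List ℕ))) (r : ℕ × List (List ℕ)) : List (List (List ℕ)) :=
  ((mvs (y.2.2.2.getD (fstV y.2.2.2 r.2) (false, 0, 0, [])) (dgV y F r.2)).map fun m =>
    setL r.2 (fstV y.2.2.2 r.2) m ++ tkS y.1.1 F r.1) ++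
  F.map fun p => p.2 ++ tkS y.1.1 F (2 * (y.1.1 + 1))

/-- the pool -/
def poS (y : SI) (F : Fct (List (List ℕ))) (r : ℕ × List (List ℕ)) : List (List (List ℕ)) :=
  poolS pmem (false, [], []) (wPc y F r.2) (y.1.1 + 1) (List.range (y.1.1 + 2)) (stS y F r) 3

/-- forget the token pieces -/
def realS (m : ℕ) (z : List (List ℕ)) : List (List ℕ) := (List.range m).map fun q => z.getD q []

/-- the total is at the port -/
def tstS (n : ℕ) (q : ℕ × List (List ℕ)) : Bool :=
  (List.range (n + 1)).all fun v =>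
    decide (cT q.2 v + (if q.1 = v then 1 else 0) = (tgL n).getD v 0 + (if q.1 = n + 1 + v then 1 else 0))

/-- the unknown ports -/
def uPo (n : ℕ) (F : Fct (List (List ℕ))) : List ℕ := uMi n F ++ (uPl n F).map fun v => n + 1 + v

/-- the reduction step -/
def redS (w : SI × Fct (List (List ℕ)) × ℕ × List (List ℕ)) : ℕ × List (List ℕ) :=
  findD (tstS w.1.1.1) ((poS w.1 w.2.1 w.2.2).flatMap fun z => (uPo w.1.1.1 w.2.1).map fun s =>
    (s, realS w.2.2.2.length z)) (0, [])

/-- the facts at the start -/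
def initS (y : SI) : Fct (List (List ℕ)) := y.2.2.1.map fun p => (p.1, cfgM y.1 y.2.1 y.2.2.2 p.2 1)

end Pool.Agent.PF4.SV

end

section -- file PF4/Red

/-!
# The reduction step of the solver

An instance is `(n, Cs, Ot, tau)`: clusters `Cs`, other pieces `Ot`, all on the vertices `0, ..., n`, and a target `tau`.
A state is a list of vectors, one for each piece of `Cs ++ Ot`. Ports are pairs `(v, b)`, `v ≤ n`: the total of the state is
`tau - e_v` (`b = false`) or `tau + e_v` (`b = true`). A fact is an exact state at a port. A relaxed object is a state at an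
unknown port whose parts at the clusters are legal for the relaxed pieces. `red` lowers the number of the clusters with a part
that is not exact: a pool of states with one token piece for each unknown port.
-/

set_option autoImplicit false

namespace Pool.Agent.PF4.Rd

open Finset Pool.Agent.TFC Pool.Agent.Lib.helper60 Pool.Agent.PF4.LD

/-- state -/
abbrev St : Type := List (List ℕ)

/-- instance -/
abbrev Dt : Type := ℕ × List Cl × List Pc × List ℕ

/-- default cluster -/
def c0 : Cl := (false, 0, 0, [])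

/-- default piece -/
def d0 : Pc := (true, [], [])

/-! ### states -/

section
variable {P : Type} {mem : P → List ℕ → Bool} {d : P}

theorem leg_nil : Leg mem d [] [] := ⟨rfl, fun _ hq => absurd hq (Nat.not_lt_zero _)⟩

theorem leg_cons {p : P} {Ps : List P} {k : List ℕ} {s : St} (h : mem p k = true) (hs : Leg mem d Ps s) :
    Leg mem d (p :: Ps) (k :: s) := by
  refine ⟨by simp [hs.len], ?_⟩
  intro q hq
  cases q with
  | zero => simpa using h
  | succ q =>
    rw [List.getD_cons_succ, List.getD_cons_succ]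
    exact hs.mem q (by simpa using hq)

theorem leg_uncons {p : P} {Ps : List P} {s : St} (h : Leg mem d (p :: Ps) s) :
    ∃ k s', s = k :: s' ∧ mem p k = true ∧ Leg mem d Ps s' := by
  cases s with
  | nil => have := h.len; simp at this
  | cons k s =>
    refine ⟨k, s, rfl, ?_, ?_⟩
    · have := h.mem 0 (by simp)
      simpa using this
    · refine ⟨by simpa using h.len, ?_⟩
      intro q hq
      have := h.mem (q + 1) (by simpa using hq)
      rwa [List.getD_cons_succ, List.getD_cons_succ] at this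

theorem leg_append {Ps Qs : List P} {s t : St} (h : Leg mem d Ps s) (h' : Leg mem d Qs t) :
    Leg mem d (Ps ++ Qs) (s ++ t) := by
  induction Ps generalizing s with
  | nil =>
    have : s = [] := List.length_eq_zero_iff.1 h.len
    subst this
    simpa using h'
  | cons p Ps ih =>
    obtain ⟨k, s', rfl, h1, h2⟩ := leg_uncons h
    exact leg_cons h1 (ih h2)

theorem leg_split {Ps Qs : List P} {s : St} (h : Leg mem d (Ps ++ Qs) s) :
    ∃ a b, s = a ++ b ∧ Leg mem d Ps a ∧ Leg mem d Qs b := by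
  induction Ps generalizing s with
  | nil => exact ⟨[], s, rfl, leg_nil, by simpa using h⟩
  | cons p Ps ih =>
    obtain ⟨k, s', rfl, h1, h2⟩ := leg_uncons h
    obtain ⟨a, b, rfl, h3, h4⟩ := ih h2
    exact ⟨k :: a, b, rfl, leg_cons h1 h3, h4⟩

theorem leg_map {α : Type} {U : List α} {f : α → P} {g : α → List ℕ} (h : ∀ u ∈ U, mem (f u) (g u) = true) :
    Leg mem d (U.map f) (U.map g) := by
  induction U with
  | nil => exact leg_nil
  | cons u U ih =>
    exact leg_cons (h u List.mem_cons_self) (ih fun v hv => h v (List.mem_cons_of_mem _ hv))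

end

theorem totS_append (a b : St) : totS (a ++ b) = totS a + totS b := by
  funext v
  unfold totS vec
  rw [List.flatten_append, cnt_append]
  push_cast
  rfl

theorem totS_cons (k : List ℕ) (s : St) : totS (k :: s) = kvec k + totS s := by
  have h := totS_append [k] s
  rw [List.singleton_append] at h
  rw [h]
  congr 1
  funext v
  unfold totS
  rw [← vec_kvec]
  simp

/-- the first `N` entries -/
def tk (N : ℕ) (s : St) : St := (List.range N).map fun i => s.getD i []

theorem tk_append {a b : St} : tk a.length (a ++ b) = a := by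
  refine List.ext_getElem (by simp [tk]) ?_
  intro i h1 h2
  simp only [tk, List.getElem_map, List.getElem_range]
  rw [List.getD_append _ _ _ _ h2, List.getD_eq_getElem _ _ h2]

/-- entries of a legal state -/
theorem totS_zero {m : ℕ} {d : Pc} {Ps : List Pc} {s : St} (hs : Leg pmem d Ps s) (hP : ∀ p ∈ Ps, PcOK pmem m p)
    {v : ℕ} (hv : m < v) : totS s v = 0 := by
  induction Ps generalizing s with
  | nil =>
    have : s = [] := List.length_eq_zero_iff.1 hs.len
    subst this
    rfl
  | cons p Ps ih =>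
    obtain ⟨k, s', rfl, h1, h2⟩ := leg_uncons hs
    rw [totS_cons, Pi.add_apply, ih h2 fun q hq => hP q (List.mem_cons_of_mem _ hq), add_zero]
    have h3 : v ∉ k := fun h => by
      have := (hP p List.mem_cons_self).le k h1 v h
      omega
    unfold kvec
    rw [List.count_eq_zero_of_not_mem h3]
    rfl

theorem PcOK.mono {p : Pc} {m m' : ℕ} (h : PcOK pmem m p) (hm : m ≤ m') : PcOK pmem m' p :=
  ⟨h.len, fun k hk v hv => (h.le k hk v hv).trans hm, h.jump⟩

/-! ### ports and tokens -/

/-- code of a port -/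
def code (u : ℕ × Bool) : ℕ := 2 * u.1 + bif u.2 then 1 else 0

theorem code_inj {u w : ℕ × Bool} (h : code u = code w) : u = w := by
  obtain ⟨u, a⟩ := u
  obtain ⟨w, b⟩ := w
  unfold code at h
  cases a <;> cases b <;> simp only [cond_true, cond_false] at h
  · have : u = w := by omega
    rw [this]
  · omega
  · omega
  · have : u = w := by omega
    rw [this]

/-- the vector of a port -/
def pv (u : ℕ × Bool) : ℕ → ℤ := bif u.2 then ev u.1 else - ev u.1

/-- token piece -/
def tkP (t : ℕ) (u : ℕ × Bool) : Pc := bif u.2 then (false, [], [[u.1], [t]]) else (true, [], [[u.1, t]])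

/-- token not used -/
def un (u : ℕ × Bool) : List ℕ := bif u.2 then [u.1] else []

/-- token used -/
def us (t : ℕ) (u : ℕ × Bool) : List ℕ := bif u.2 then [t] else [u.1, t]

theorem eqK_refl (k : List ℕ) : eqK k k = true := (eqK_iff k k).2 rfl

theorem pmem_nil (E : List Ed) (X : List (List ℕ)) : pmem (true, E, X) [] = true := by
  unfold pmem
  rw [Bool.or_eq_true]
  right
  rw [Bool.and_eq_true]
  refine ⟨rfl, ?_⟩
  rw [List.any_eq_true]
  exact ⟨[], mem_subs.2 ⟨Nat.zero_le _, by simp⟩, by decide⟩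

theorem pmem_ext {z : Bool} {E : List Ed} {X : List (List ℕ)} {k : List ℕ} (h : k ∈ X) :
    pmem (z, E, X) k = true := by
  unfold pmem
  rw [Bool.or_eq_true]
  left
  rw [List.any_eq_true]
  exact ⟨k, h, eqK_refl k⟩

theorem pmem_un (t : ℕ) (u : ℕ × Bool) : pmem (tkP t u) (un u) = true := by
  obtain ⟨u, b⟩ := u
  cases b with
  | true => exact pmem_ext (by simp [un])
  | false => exact pmem_nil _ _

theorem pmem_us (t : ℕ) (u : ℕ × Bool) : pmem (tkP t u) (us t u) = true := by
  obtain ⟨u, b⟩ := u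
  cases b with
  | true => exact pmem_ext (by simp [us])
  | false => exact pmem_ext (by simp [us])

theorem kvec_us (t : ℕ) (u : ℕ × Bool) : kvec (us t u) = kvec (un u) + ev t - pv u := by
  obtain ⟨u, b⟩ := u
  cases b with
  | true =>
    simp only [us, un, pv, cond_true]
    rw [kv_cons, kv_cons, kv_nil]
    abel
  | false =>
    simp only [us, un, pv, cond_false]
    rw [kv_cons, kv_cons, kv_nil]
    abel

theorem tkP_cases {t : ℕ} {u : ℕ × Bool} {k : List ℕ} (h : pmem (tkP t u) k = true) :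
    kvec k = kvec (un u) ∨ kvec k = kvec (us t u) := by
  have h1 := pmem_sound h
  obtain ⟨u, b⟩ := u
  cases b with
  | true =>
    simp only [tkP, cond_true, pcS_alt, Set.mem_insert_iff, Set.mem_singleton_iff] at h1
    simp only [us, un, cond_true]
    rw [kv_cons, kv_nil, kv_cons, kv_nil, add_zero, add_zero]
    exact h1
  | false =>
    simp only [tkP, cond_false, pcS_pair] at h1
    simp only [us, un, cond_false]
    rw [kv_nil, kv_cons, kv_cons, kv_nil, add_zero]
    rcases h1 with h1 | ⟨s, hs, w, hw, h1⟩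
    · exact Or.inl h1
    · rw [Finset.mem_singleton] at hs hw
      subst hs hw
      exact Or.inr h1

theorem pcok_tkP {n : ℕ} {u : ℕ × Bool} (h : u.1 ≤ n) : PcOK pmem (n + 1) (tkP (n + 1) u) := by
  obtain ⟨u, b⟩ := u
  simp only at h
  cases b with
  | true => exact pcok_alt (by omega) (le_refl _)
  | false => exact pcok_pair (by omega) (le_refl _)

/-- the total of the tokens, none used -/
def base (U : List (ℕ × Bool)) : ℕ → ℤ := totS (U.map un)

theorem base_cons (u : ℕ × Bool) (U : List (ℕ × Bool)) : base (u :: U) = kvec (un u) + base U := by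
  unfold base
  rw [List.map_cons, totS_cons]

theorem un_top {n : ℕ} {u : ℕ × Bool} (h : u.1 ≤ n) : kvec (un u) (n + 1) = 0 := by
  obtain ⟨u, b⟩ := u
  simp only at h
  cases b with
  | true =>
    simp only [un, cond_true]
    rw [kv_cons, kv_nil, add_zero, TFC.ev_apply, if_neg (by omega)]
  | false =>
    simp only [un, cond_false]
    rw [kv_nil]
    rfl

theorem pv_top {n : ℕ} {u : ℕ × Bool} (h : u.1 ≤ n) : pv u (n + 1) = 0 := by
  obtain ⟨u, b⟩ := u
  simp only at h
  cases b with
  | true =>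
    simp only [pv, cond_true]
    rw [TFC.ev_apply, if_neg (by omega)]
  | false =>
    simp only [pv, cond_false]
    rw [Pi.neg_apply, TFC.ev_apply, if_neg (by omega), neg_zero]

theorem base_top {n : ℕ} {U : List (ℕ × Bool)} (h : ∀ u ∈ U, u.1 ≤ n) : base U (n + 1) = 0 := by
  induction U with
  | nil => rfl
  | cons u U ih =>
    rw [base_cons, Pi.add_apply, un_top (h u List.mem_cons_self), ih fun w hw => h w (List.mem_cons_of_mem _ hw),
      add_zero]

/-- the tokens of a legal state -/
theorem tok_cases {n : ℕ} {d : Pc} {U : List (ℕ × Bool)} (hU : ∀ u ∈ U, u.1 ≤ n) {s : St}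
    (hs : Leg pmem d (U.map (tkP (n + 1))) s) :
    totS s = base U ∨ (∃ u ∈ U, totS s = base U + ev (n + 1) - pv u) ∨ 2 ≤ totS s (n + 1) := by
  induction U generalizing s with
  | nil =>
    have : s = [] := List.length_eq_zero_iff.1 hs.len
    subst this
    exact Or.inl rfl
  | cons u U ih =>
    rw [List.map_cons] at hs
    obtain ⟨k, s', rfl, h1, h2⟩ := leg_uncons hs
    have hu := hU u List.mem_cons_self
    have hU' : ∀ w ∈ U, w.1 ≤ n := fun w hw => hU w (List.mem_cons_of_mem _ hw)
    have e0 := un_top hu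
    have e1 := pv_top hu
    have e2 := base_top hU'
    have e3 : (ev (n + 1) : ℕ → ℤ) (n + 1) = 1 := by rw [TFC.ev_apply, if_pos rfl]
    have e4 := congrFun (kvec_us (n + 1) u) (n + 1)
    rw [Pi.sub_apply, Pi.add_apply, e0, e1, e3] at e4
    rw [totS_cons, base_cons]
    rcases ih hU' h2 with h3 | ⟨w, hw, h3⟩ | h3 <;> rcases tkP_cases h1 with h4 | h4
    · left
      rw [h3, h4]
    · right; left
      refine ⟨u, List.mem_cons_self, ?_⟩
      rw [h3, h4, kvec_us]
      abel
    · right; left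
      refine ⟨w, List.mem_cons_of_mem _ hw, ?_⟩
      rw [h3, h4]
      abel
    · right; right
      have e5 := pv_top (hU' w hw)
      rw [Pi.add_apply, h3, h4, e4, Pi.sub_apply, Pi.add_apply, e2, e3, e5]
      norm_num
    · right; right
      rw [Pi.add_apply, h4, e0]
      omega
    · right; right
      rw [Pi.add_apply, h4, e4]
      omega

/-- the total with one token used -/
theorem tot_one {n : ℕ} {U : List (ℕ × Bool)} (hn : U.Nodup) {w : ℕ × Bool} (hw : w ∈ U) :
    totS (U.map fun u => bif decide (code u = code w) then us (n + 1) u else un u) = base U + ev (n + 1) - pv w := by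
  induction U with
  | nil => cases hw
  | cons u U ih =>
    rw [List.nodup_cons] at hn
    rw [List.map_cons, totS_cons, base_cons]
    rcases List.mem_cons.1 hw with rfl | hw
    · have h1 : (U.map fun u => bif decide (code u = code w) then us (n + 1) u else un u) = U.map un := by
        refine List.map_congr_left ?_
        intro u hu
        have : code u ≠ code w := fun h => hn.1 (by rw [← code_inj h]; exact hu)
        rw [decide_eq_false this, cond_false]
      rw [h1, decide_eq_true rfl, cond_true, kvec_us]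
      show _ + base U = _
      abel
    · have : code u ≠ code w := fun h => hn.1 (by rw [code_inj h]; exact hw)
      rw [decide_eq_false this, cond_false, ih hn.2 hw]
      abel

/-! ### the reduction step -/

/-- the port is known -/
def kn (F : Fct St) (p : ℕ) : Bool := F.any fun f => decide (f.1 = p)

/-- the port `2 v` is known and the port `2 v + 1` is unknown -/
def PLb (F : Fct St) (v : ℕ) : Bool := kn F (2 * v) && !kn F (2 * v + 1)

/-- unknown ports -/
def unk (n : ℕ) (F : Fct St) : List (ℕ × Bool) :=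
  ((List.range (n + 1)).flatMap fun v => [(v, false), (v, true)]).filter fun u => !kn F (code u)

/-- the relaxed piece -/
def rx (F : Fct St) (c : Cl) : Pc := rxP c (psi (PLb F) c)

/-- exact at the cluster `i` -/
def exa (Cs : List Cl) (ks : St) (i : ℕ) : Bool := pmem (exP (Cs.getD i c0)) (ks.getD i [])

/-- the piece of the cluster `i` in the pool -/
def wpi (F : Fct St) (Cs : List Cl) (ks : St) (q i : ℕ) : Pc :=
  bif exa Cs ks i || decide (i = q) then exP (Cs.getD i c0) else rx F (Cs.getD i c0)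

/-- the pieces of the pool -/
def wld (n : ℕ) (Cs : List Cl) (Ot : List Pc) (F : Fct St) (ks : St) (q : ℕ) : List Pc :=
  (List.range Cs.length).map (wpi F Cs ks q) ++ Ot ++ (unk n F).map (tkP (n + 1))

/-- the additional vector used -/
def dig (F : Fct St) (c : Cl) (k : List ℕ) : List ℕ := findD (fun d => eqK k d) (digs c (psi (PLb F) c)) []

/-- the start of the pool -/
def strt (n : ℕ) (Cs : List Cl) (F : Fct St) (ks : St) (p q : ℕ) : List St :=
  ((mvs (Cs.getD q c0) (dig F (Cs.getD q c0) (ks.getD q []))).map fun m =>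
    setL ks q m ++ ((unk n F).map fun u => bif decide (code u = p) then us (n + 1) u else un u)) ++
  F.map fun f => f.2 ++ (unk n F).map un

/-- the pool after `k` rounds -/
def plk (n : ℕ) (Cs : List Cl) (Ot : List Pc) (F : Fct St) (ks : St) (p q k : ℕ) : List St :=
  poolS pmem d0 (wld n Cs Ot F ks q) (n + 1) (List.range (n + 2)) (strt n Cs F ks p q) k

/-- the total of the state is at the port -/
def atP (n : ℕ) (tau : List ℕ) (s : St) (u : ℕ × Bool) : Bool :=
  (List.range (n + 2)).all fun v =>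
    decide (cT s v + (bif u.2 then 0 else bif decide (v = u.1) then 1 else 0) =
      tau.getD v 0 + (bif u.2 then bif decide (v = u.1) then 1 else 0 else 0))

/-- the first cluster that is not exact -/
def fstq (Cs : List Cl) (ks : St) : ℕ := findD (fun i => !exa Cs ks i) (List.range Cs.length) 0

/-- the state found in the pool -/
def pck (n : ℕ) (Cs : List Cl) (Ot : List Pc) (tau : List ℕ) (F : Fct St) (ks : St) (p q : ℕ) : St × ℕ × Bool :=
  findD (fun c => atP n tau (tk (Cs.length + Ot.length) c.1) c.2) (prd (plk n Cs Ot F ks p q 3) (unk n F))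
    ([], 0, false)

/-- **the reduction step** -/
def red (y : Dt × Fct St × (St × ℕ)) : St × ℕ :=
  (tk (y.1.2.1.length + y.1.2.2.1.length)
    (pck y.1.1 y.1.2.1 y.1.2.2.1 y.1.2.2.2 y.2.1 y.2.2.1 y.2.2.2 (fstq y.1.2.1 y.2.2.1)).1,
  code (pck y.1.1 y.1.2.1 y.1.2.2.1 y.1.2.2.2 y.2.1 y.2.2.1 y.2.2.2 (fstq y.1.2.1 y.2.2.1)).2)

/-- the number of the clusters that are not exact -/
def mu (x : Dt) (r : St × ℕ) : ℕ := ((List.range x.2.1.length).filter fun i => !exa x.2.1 r.1 i).length

/-- the target as a vector -/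
def tv (tau : List ℕ) : ℕ → ℤ := fun v => (tau.getD v 0 : ℤ)

/-- well-formed instances -/
structure WfD (x : Dt) : Prop where
  cl : ∀ c ∈ x.2.1, ClOK c ∧ ClB x.1 c
  ot : ∀ p ∈ x.2.2.1, PcOK pmem x.1 p
  tl : x.2.2.2.length ≤ x.1 + 1

/-- exact state at a port -/
def IsFact (x : Dt) (p : ℕ) (s : St) : Prop :=
  ∃ u : ℕ × Bool, p = code u ∧ u.1 ≤ x.1 ∧ Leg pmem d0 (x.2.1.map exP ++ x.2.2.1) s ∧ totS s = tv x.2.2.2 + pv u

/-- relaxed state at an unknown port -/
def Good (x : Dt) (F : Fct St) (r : St × ℕ) : Prop :=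
  ∃ u : ℕ × Bool, r.2 = code u ∧ u.1 ≤ x.1 ∧ kn F r.2 = false ∧
    Leg pmem d0 (x.2.1.map (rx F) ++ x.2.2.1) r.1 ∧ totS r.1 = tv x.2.2.2 + pv u

theorem map_getD {α : Type} (f : Cl → α) (Cs : List Cl) :
    Cs.map f = (List.range Cs.length).map fun i => f (Cs.getD i c0) := by
  refine List.ext_getElem (by simp) ?_
  intro i h1 h2
  simp only [List.getElem_map, List.getElem_range]
  rw [List.getD_eq_getElem _ _ (by simpa using h1)]

theorem pmem_exP_rxP {c : Cl} {ch : ℕ × ℕ} {k : List ℕ} (h : pmem (exP c) k = true) : pmem (rxP c ch) k = true := by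
  unfold pmem exP at h
  unfold pmem rxP
  rw [Bool.or_eq_true] at h ⊢
  rcases h with h | h
  · simp at h
  · exact Or.inr h

/-! ### the specification -/

section spec
variable {x : Dt} {F : Fct St} {ks : St} {q : ℕ}

theorem getD_memCl {Cs : List Cl} {i : ℕ} (hi : i < Cs.length) : Cs.getD i c0 ∈ Cs := by
  rw [List.getD_eq_getElem _ _ hi]
  exact List.getElem_mem hi

theorem length_filter_lt {α : Type} {p p' : α → Bool} {l : List α} (h : ∀ a ∈ l, p' a = true → p a = true)
    {b : α} (hb : b ∈ l) (h1 : p b = true) (h2 : p' b = false) : (l.filter p').length < (l.filter p).length := by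
  have e : l.filter p' = (l.filter p).filter p' := by
    rw [List.filter_filter]
    refine List.filter_congr ?_
    intro a ha
    cases ha' : p' a with
    | true => rw [h a ha ha']; rfl
    | false => rfl
  rw [e, List.length_filter_lt_length_iff_exists]
  exact ⟨b, List.mem_filter.2 ⟨hb, h1⟩, by rw [h2]; simp⟩

theorem totS_set {s : St} (hq : q < s.length) (k : List ℕ) :
    totS (setL s q k) = totS s + (kvec k - kvec (s.getD q [])) := by
  funext v
  rw [totS_setL hq, ← vec_kvec, ← vec_kvec]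
  rfl

theorem pv_zero {u : ℕ × Bool} {n v : ℕ} (h : u.1 ≤ n) (hv : n < v) : pv u v = 0 := by
  obtain ⟨u, b⟩ := u
  simp only at h
  cases b with
  | true =>
    simp only [pv, cond_true]
    rw [TFC.ev_apply, if_neg (by omega)]
  | false =>
    simp only [pv, cond_false]
    rw [Pi.neg_apply, TFC.ev_apply, if_neg (by omega), neg_zero]

end spec

/-! ### polynomial time -/

section pt
variable {ι : Type} [DEnc ι]

theorem pt_tk {N : ι → ℕ} {s : ι → St} (hN : PT N) (hs : PT s) : PT (fun x => tk (N x) (s x)) :=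
  PT.map (PT.range hN) (g := fun y : ι × ℕ => (s y.1).getD y.2 [])
    (PT.getD (hs.comp PT.fst) PT.snd (PT.const []))

section
variable {n : ι → ℕ} {Cs : ι → List Cl} {Ot : ι → List Pc} {tau : ι → List ℕ} {F : ι → Fct St} {ks : ι → St}
  {p q : ι → ℕ}

end

end pt

end Pool.Agent.PF4.Rd

end
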