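import Pool.Agent.PFM.M14
import Pool.Agent.PFM.M21

section -- file PF4/SolI

/-!
# The solver: facts at the start, sizes, polynomial time
-/

set_option autoImplicit false

namespace Pool.Agent.PF4.SV

open Finset Pool.Agent.TFC Pool.Agent.Lib.helper60

/-! ### the facts at the start -/

theorem init_fact {y : SI} (hy : WfS y) {p : ℕ × List (List ℕ)} (hp : p ∈ initS y) : FactS y p.1 p.2 := by
  obtain ⟨q, hq, rfl⟩ := List.mem_map.1 hp
  obtain ⟨h1, h2, h3, h4⟩ := hy.w q hq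
  refine ⟨by simp only; omega, cfgM_exact hy.x hy.c _ h2 1, ?_⟩
  intro v _
  have h5 := ttl_near hy.x hy.c h2.1 h1 (hy.g q.1) h3 h4 v
  have h6 : q.1 ≠ y.1.1 + 1 + v := by omega
  simp only at h5 ⊢
  rw [if_neg h6, add_zero, ← h5]
  congr 1
  by_cases h7 : v = q.1
  · rw [if_pos h7, if_pos h7.symm]
  · rw [if_neg h7, if_neg fun h => h7 h.symm]

theorem init_nodup {y : SI} (hy : WfS y) : ((initS y).map Prod.fst).Nodup := by
  have : (initS y).map Prod.fst = y.2.2.1.map Prod.fst := by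
    rw [initS, List.map_map]
    rfl
  rw [this]
  exact hy.nod

theorem init_ne {y : SI} (hy : WfS y) : initS y ≠ [] := by
  intro h
  exact hy.ne (List.map_eq_nil_iff.1 h)

/-! ### the last step -/

/-- an exact configuration at an unknown port is a solution or a new fact -/
def finS (w : SI × Fct (List (List ℕ)) × ℕ × List (List ℕ)) : Bool × ℕ × List (List ℕ) :=
  (decide (w.2.2.1 = 2 * w.1.1.1 + 1), w.2.2.1, w.2.2.2)

theorem mu_zero {C : List Cl} {ks : List (List ℕ)} (h : muS C ks = 0) {j : ℕ} (hj : j < C.length) :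
    pmem (exP (C.getD j (false, 0, 0, []))) (ks.getD j []) = true := by
  unfold muS at h
  rw [List.length_eq_zero_iff, List.filter_eq_nil_iff] at h
  have := h j (List.mem_range.2 hj)
  unfold nx at this
  simpa using this

theorem forall2_getD {α β : Type} {R : α → β → Prop} {l : List α} {m : List β} (h : List.Forall₂ R l m)
    {j : ℕ} (hj : j < l.length) (a : α) (b : β) : R (l.getD j a) (m.getD j b) := by
  induction h generalizing j with
  | nil => simp at hj
  | cons h1 _ ih =>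
    cases j with
    | zero => exact h1
    | succ j => exact ih (by simpa using hj)

/-- exchange the pieces of the clusters -/
theorem forall2_clusters {R : Pc → List ℕ → Prop} {φ ψ : Cl → Pc} {C : List Cl} {E : List Pc} {ks : List (List ℕ)}
    (h : List.Forall₂ R (C.map φ ++ E) ks) (c0 : Cl)
    (h2 : ∀ j < C.length, R (ψ (C.getD j c0)) (ks.getD j [])) : List.Forall₂ R (C.map ψ ++ E) ks := by
  induction C generalizing ks with
  | nil => exact h
  | cons c C ih =>
    cases h with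
    | cons h3 h4 =>
      refine List.Forall₂.cons (h2 0 (by simp)) (ih h4 ?_)
      intro j hj
      exact h2 (j + 1) (by simpa using hj)

theorem exact_of_mu {y : SI} {F : Fct (List (List ℕ))} {ks : List (List ℕ)}
    (h : List.Forall₂ (fun p k => pmem p k = true) (rlP y F) ks) (hm : muS y.2.2.2 ks = 0) :
    List.Forall₂ (fun p k => pmem p k = true) (xcP y) ks := by
  unfold rlP pcs at h
  unfold xcP pcs
  rw [List.append_assoc] at h ⊢
  exact forall2_clusters h (false, 0, 0, []) fun j hj => mu_zero hm hj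

theorem fin_true {y : SI} (hy : WfS y) {F : Fct (List (List ℕ))} {r : ℕ × List (List ℕ)} (hr : GoodS y F r)
    (hm : muS y.2.2.2 r.2 = 0) (h : (finS (y, F, r)).1 = true) : SolS y (finS (y, F, r)).2.2 := by
  have h1 : r.1 = 2 * y.1.1 + 1 := by simpa [finS] using h
  refine ⟨exact_of_mu hr.mem hm, ?_⟩
  intro v hv
  have h2 := hr.at_ v hv
  have hn : 0 < y.1.1 := by
    obtain ⟨p, hp⟩ := List.exists_mem_of_ne_nil _ hy.ne
    have := (hy.w p hp).1
    omega
  rw [h1, if_neg (by omega)] at h2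
  simp only [finS]
  unfold tgt at h2 ⊢
  by_cases h4 : v < y.1.1
  · rw [if_pos h4] at h2 ⊢
    rw [if_neg (by omega)] at h2
    omega
  · have h5 : v = y.1.1 := by omega
    rw [if_neg h4, if_pos h5] at h2 ⊢
    rw [if_pos (by omega)] at h2
    omega

theorem kno_iff {F : Fct (List (List ℕ))} {s : ℕ} : kno F s = true ↔ s ∈ F.map Prod.fst := by
  simp [kno, List.any_eq_true]

theorem fin_false {y : SI} {F : Fct (List (List ℕ))} {r : ℕ × List (List ℕ)} (hr : GoodS y F r)
    (hm : muS y.2.2.2 r.2 = 0) (h : (finS (y, F, r)).1 = false) :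
    (finS (y, F, r)).2.1 < 2 * y.1.1 + 2 ∧ FactS y (finS (y, F, r)).2.1 (finS (y, F, r)).2.2 ∧
      (finS (y, F, r)).2.1 ∉ F.map Prod.fst := by
  have h1 : r.1 ≠ 2 * y.1.1 + 1 := by simpa [finS] using h
  have h2 := hr.lt
  refine ⟨by simp only [finS]; omega, ⟨by simp only [finS]; omega, exact_of_mu hr.mem hm, hr.at_⟩, ?_⟩
  intro h3
  have h4 := hr.unk
  have h5 : kno F r.1 = true := kno_iff.2 h3
  rw [h5] at h4
  cases h4

/-! ### sizes -/

theorem leg_of {P : List Pc} {ks : List (List ℕ)} (h : List.Forall₂ (fun p k => pmem p k = true) P ks) :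
    Leg pmem (false, [], []) P ks :=
  ⟨h.length_eq.symm, fun _ hq => forall2_getD h hq _ _⟩

/-- the pieces are good for the exchange -/
theorem pcs_ok {y : SI} (hy : WfS y) {φ : Cl → Pc} (hφ : ∀ c ∈ y.2.2.2, PcOK pmem (y.1.1 + 1) (φ c)) :
    ∀ p ∈ pcs φ y.1 y.2.1 y.2.2.2, PcOK pmem (y.1.1 + 1) p := by
  intro p hp
  rcases List.mem_append.1 hp with hp | hp
  · rcases List.mem_append.1 hp with hp | hp
    · obtain ⟨c, hc, rfl⟩ := List.mem_map.1 hp
      exact hφ c hc
    · obtain ⟨e, he, rfl⟩ := List.mem_map.1 hp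
      have h1 : fe e ∈ fs (plE y.1 y.2.2.2) := fe_mem_fs he
      rw [plE, fs_rest, Finset.mem_sdiff] at h1
      have h2 := hy.x.vlt h1.1 (v := e.1) (by rw [fe]; exact Sym2.mem_mk_left _ _)
      have h3 := hy.x.vlt h1.1 (v := e.2) (by rw [fe]; exact Sym2.mem_mk_right _ _)
      exact pcok_edge (by omega) (by omega)
  · rcases List.mem_append.1 hp with hp | hp
    · obtain ⟨q, hq, rfl⟩ := List.mem_map.1 hp
      have := (mem_slJ.1 hq).1
      exact pcok_pair (by omega) (by omega)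
    · obtain ⟨q, hq, rfl⟩ := List.mem_map.1 hp
      exact pcok_pair (by omega) (by omega)

theorem clV_lt {y : SI} (hy : WfS y) {c : Cl} (hc : c ∈ y.2.2.2) : Gd.ClB y.1.1 c := by
  have ho := hy.c.ok c hc
  have hs := hy.c.sub c hc
  have key : ∀ a b, (a, b) ∈ clE c ∨ (b, a) ∈ clE c → a < y.1.1 := by
    intro a b h
    rcases h with h | h
    · exact hy.x.vlt (hs (fe_mem_fs h)) (by rw [fe]; exact Sym2.mem_mk_left _ _)
    · exact hy.x.vlt (hs (fe_mem_fs h)) (by rw [fe]; exact Sym2.mem_mk_right _ _)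
  obtain ⟨b, x, z, L⟩ := c
  cases b with
  | true =>
    obtain ⟨-, -, -, h4⟩ := ho.k2 rfl
    have hE : clE (true, x, z, L) = L.map (fun l => (x, l)) ++ L.map (fun l => (z, l)) := rfl
    simp only at h4
    obtain ⟨l0, hl0⟩ : ∃ l, l ∈ L := by
      cases L with
      | nil => simp at h4
      | cons a L => exact ⟨a, List.mem_cons_self⟩
    refine ⟨fun v hv => key v x (Or.inr ?_), fun _ => ⟨key x l0 (Or.inl ?_), key z l0 (Or.inl ?_)⟩⟩
    · rw [hE]; exact List.mem_append_left _ (List.mem_map.2 ⟨v, hv, rfl⟩)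
    · rw [hE]; exact List.mem_append_left _ (List.mem_map.2 ⟨l0, hl0, rfl⟩)
    · rw [hE]; exact List.mem_append_right _ (List.mem_map.2 ⟨l0, hl0, rfl⟩)
  | false =>
    have h4 := ho.k4 rfl
    have hn := ho.nd
    simp only at h4 hn
    refine ⟨fun v hv => ?_, fun h => by cases h⟩
    simp only at hv
    obtain ⟨u, hu, huv⟩ : ∃ u ∈ L, u ≠ v := by
      by_contra hcon
      push Not at hcon
      have h5 : L.toFinset ⊆ {v} := by
        intro u hu
        rw [Finset.mem_singleton]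
        exact hcon u (List.mem_toFinset.1 hu)
      have h6 := Finset.card_le_card h5
      rw [List.toFinset_card_of_nodup hn, Finset.card_singleton] at h6
      omega
    have hE : clE (false, x, z, L) = prs L := rfl
    rcases lt_or_gt_of_ne huv with h | h
    · refine key v u (Or.inr ?_)
      rw [hE, prs, List.mem_filter, mem_prd, decide_eq_true_eq]
      exact ⟨⟨hu, hv⟩, h⟩
    · refine key v u (Or.inl ?_)
      rw [hE, prs, List.mem_filter, mem_prd, decide_eq_true_eq]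
      exact ⟨⟨hv, hu⟩, h⟩

theorem clB' {n : ℕ} {c : Cl} (h : Gd.ClB n c) : ClB (n + 1) c :=
  ⟨fun v hv => (h.1 v hv).le.trans (Nat.le_succ n), fun hb => ⟨(h.2 hb).1.le.trans (Nat.le_succ n),
    (h.2 hb).2.le.trans (Nat.le_succ n)⟩⟩

theorem xc_ok {y : SI} (hy : WfS y) : ∀ p ∈ xcP y, PcOK pmem (y.1.1 + 1) p :=
  pcs_ok hy fun c hc => pcok_exP (clB' (clV_lt hy hc)) (hy.c.ok c hc)

theorem rl_ok {y : SI} (hy : WfS y) (F : Fct (List (List ℕ))) : ∀ p ∈ rlP y F, PcOK pmem (y.1.1 + 1) p :=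
  pcs_ok hy fun c hc => pcok_rxP (clB' (clV_lt hy hc)) (hy.c.ok c hc) (psi_ok _ (hy.c.ok c hc))
    (Gd.rx_jump (hy.c.ok c hc) (psi_ok _ (hy.c.ok c hc)))

theorem getD_mem {α : Type} {l : List α} {q : ℕ} (hq : q < l.length) (d : α) : l.getD q d ∈ l := by
  rw [List.getD_eq_getElem?_getD, List.getElem?_eq_getElem hq]
  exact List.getElem_mem hq

/-- number of pieces -/
def npc (y : SI) : ℕ := (xcP y).length

theorem len_pcs (φ : Cl → Pc) (y : SI) : (pcs φ y.1 y.2.1 y.2.2.2).length = npc y := by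
  simp [pcs, npc, xcP]

/-- size bound -/
def BS (y : SI) : ℕ := npc y * (16 * (y.1.1 + 1) + 18) + 1 + (4 * y.1.1 + 10)

theorem size_conf {y : SI} {P : List Pc} (hP : ∀ p ∈ P, PcOK pmem (y.1.1 + 1) p) (hl : P.length = npc y)
    {ks : List (List ℕ)} (h : List.Forall₂ (fun p k => pmem p k = true) P ks) :
    tsize ks ≤ npc y * (16 * (y.1.1 + 1) + 18) + 1 := by
  have h1 := tsize_leg (mem := pmem) (m := y.1.1 + 1) (d := (false, [], [])) (P := P)
    (fun q hq => hP _ (getD_mem hq _)) (leg_of h)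
  rw [hl] at h1
  exact h1

theorem size_fact {y : SI} (hy : WfS y) {s : ℕ} {ks : List (List ℕ)} (h : FactS y s ks) : tsize ks ≤ BS y :=
  (size_conf (xc_ok hy) rfl h.mem).trans (Nat.le_add_right _ _)

theorem size_sol {y : SI} (hy : WfS y) {ks : List (List ℕ)} (h : SolS y ks) : tsize ks ≤ BS y :=
  (size_conf (xc_ok hy) rfl h.mem).trans (Nat.le_add_right _ _)

theorem size_good {y : SI} (hy : WfS y) {F : Fct (List (List ℕ))} {r : ℕ × List (List ℕ)} (h : GoodS y F r) :
    tsize r ≤ BS y := by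
  have h1 := size_conf (rl_ok hy F) (len_pcs _ y) h.mem
  have h2 := h.lt
  obtain ⟨s, ks⟩ := r
  simp only at h1 h2
  rw [tsize_pair, tsize_nat, BS]
  omega

theorem mu_le (C : List Cl) (ks : List (List ℕ)) : muS C ks ≤ C.length := by
  unfold muS
  refine (List.length_filter_le _ _).trans ?_
  rw [List.length_range]

/-! ### polynomial time -/

section pt

variable {ι : Type} [DEnc ι]

theorem pt_plE {x : ι → Ins} {C : ι → List Cl} (hx : PT x) (hC : PT C) : PT (fun i => plE (x i) (C i)) :=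
  pt_rest (PT.p2 hx) (PT.flatMap hC (g := fun y : ι × Cl => clE y.2) (pt_clE PT.snd))

theorem pt_slJ {n : ι → ℕ} {g : ι → List ℕ} (hn : PT n) (hg : PT g) : PT (fun i => slJ (n i) (g i)) :=
  PT.flatMap (PT.range hn) (g := fun y : ι × ℕ => (List.range (2 - (g y.1).getD y.2 0)).map fun j => (y.2, j))
    (PT.map (PT.range (PT.nsub (PT.const 2) (PT.getD (hg.comp PT.fst) PT.snd (PT.const 0))))
      (g := fun z : (ι × ℕ) × ℕ => (z.1.2, z.2)) (PT.pair PT.fst.p2 PT.snd))

theorem pt_unP {u v : ι → ℕ} (hu : PT u) (hv : PT v) : PT (fun i => unP (u i) (v i)) :=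
  PT.pair (PT.const true) (PT.pair (PT.const []) (PT.cons (PT.cons hu (PT.cons hv (PT.const []))) (PT.const [])))

theorem pt_edP {e : ι → Ed} (he : PT e) : PT (fun i => edP (e i)) :=
  PT.pair (PT.const true) (PT.pair (PT.cons he (PT.const [])) (PT.const []))

theorem pt_pcs {φ : ι × Cl → Pc} {x : ι → Ins} {g : ι → List ℕ} {C : ι → List Cl} (hφ : PT φ) (hx : PT x)
    (hg : PT g) (hC : PT C) : PT (fun i => pcs (fun c => φ (i, c)) (x i) (g i) (C i)) := by
  have hn := PT.p1 hx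
  refine PT.append (PT.append (PT.map hC hφ) ?_) (PT.append ?_ ?_)
  · exact PT.map (pt_plE hx hC) (g := fun y : ι × Ed => edP y.2) (pt_edP PT.snd)
  · exact PT.map (pt_slJ hn hg) (g := fun y : ι × (ℕ × ℕ) => unP y.2.1 (x y.1).1)
      (pt_unP PT.snd.p1 (hn.comp PT.fst))
  · exact PT.map (PT.range hn) (g := fun y : ι × ℕ => unP (x y.1).1 (x y.1).1)
      (pt_unP (hn.comp PT.fst) (hn.comp PT.fst))

theorem pt_hsl {x : ι → Ins} {g : ι → List ℕ} {M : ι → List Ed} (hx : PT x) (hg : PT g) (hM : PT M) :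
    PT (fun i => hsl (x i) (g i) (M i)) :=
  PT.length (PT.filter (pt_slJ (PT.p1 hx) hg) (p := fun y : ι × (ℕ × ℕ) => decide (y.2.2 < 2 - degL (M y.1) y.2.1))
    (PT.nlt PT.snd.p2 (PT.nsub (PT.const 2) (pt_degL (hM.comp PT.fst) PT.snd.p1))))

theorem pt_cfgM {x : ι → Ins} {g : ι → List ℕ} {C : ι → List Cl} {M : ι → List Ed} {ρ : ι → ℕ} (hx : PT x)
    (hg : PT g) (hC : PT C) (hM : PT M) (hρ : PT ρ) : PT (fun i => cfgM (x i) (g i) (C i) (M i) (ρ i)) := by
  have hn := PT.p1 hx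
  have hh := pt_hsl hx hg hM
  refine PT.append (PT.append ?_ ?_) (PT.append ?_ ?_)
  · exact PT.map hC (g := fun y : ι × Cl => ends2 (norm (clE y.2) (M y.1)))
      (pt_ends2 (pt_norm (pt_clE PT.snd) (hM.comp PT.fst)))
  · exact PT.map (pt_plE hx hC) (g := fun y : ι × Ed => ends2 (bif hasE (M y.1) y.2 then [y.2] else []))
      (pt_ends2 (PT.cond (pt_hasE (hM.comp PT.fst) PT.snd) (PT.cons PT.snd (PT.const [])) (PT.const [])))
  · exact PT.map (pt_slJ hn hg) (g := fun y : ι × (ℕ × ℕ) =>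
      bif decide (y.2.2 < 2 - degL (M y.1) y.2.1) then [y.2.1, (x y.1).1] else [])
      (PT.cond (PT.nlt PT.snd.p2 (PT.nsub (PT.const 2) (pt_degL (hM.comp PT.fst) PT.snd.p1)))
        (PT.cons PT.snd.p1 (PT.cons (hn.comp PT.fst) (PT.const []))) (PT.const []))
  · exact PT.map (PT.range hn) (g := fun y : ι × ℕ =>
      bif decide (hsl (x y.1) (g y.1) (M y.1) + 2 * y.2 + 2 + ρ y.1 ≤ 2 * (x y.1).1) then
        [(x y.1).1, (x y.1).1] else [])
      (PT.cond (PT.nle (PT.nadd (PT.nadd (PT.nadd (hh.comp PT.fst) (PT.nmul (PT.const 2) PT.snd)) (PT.const 2))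
        (hρ.comp PT.fst)) (PT.nmul (PT.const 2) (hn.comp PT.fst)))
        (PT.cons (hn.comp PT.fst) (PT.cons (hn.comp PT.fst) (PT.const []))) (PT.const []))

theorem pt_rlz {p : ι → Pc} {k : ι → List ℕ} (hp : PT p) (hk : PT k) : PT (fun i => rlz (p i) (k i)) :=
  pt_findD (p := fun y : ι × List Ed => okS y.2 && eqK (k y.1) (ends2 y.2))
    (PT.band (pt_okS PT.snd) (pt_eqK (hk.comp PT.fst) (pt_ends2 PT.snd))) (pt_subs (PT.p1 (PT.p2 hp)) 4) (PT.const [])

theorem pt_eps {x : ι → Ins} {C : ι → List Cl} (hx : PT x) (hC : PT C) :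
    PT (fun i => (C i).map exP ++ (plE (x i) (C i)).map edP) :=
  PT.append (PT.map hC (g := fun y : ι × Cl => exP y.2) (pt_exP PT.snd))
    (PT.map (pt_plE hx hC) (g := fun y : ι × Ed => edP y.2) (pt_edP PT.snd))

theorem pt_decM {x : ι → Ins} {C : ι → List Cl} {ks : ι → List (List ℕ)} (hx : PT x) (hC : PT C) (hk : PT ks) :
    PT (fun i => decM (x i) (C i) (ks i)) := by
  have he := pt_eps hx hC
  exact PT.flatMap (PT.range (PT.length he))
    (g := fun y : ι × ℕ => rlz (((C y.1).map exP ++ (plE (x y.1) (C y.1)).map edP).getD y.2 (false, [], []))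
      ((ks y.1).getD y.2 []))
    (pt_rlz (PT.getD (he.comp PT.fst) PT.snd (PT.const (false, [], [])))
      (PT.getD (hk.comp PT.fst) PT.snd (PT.const [])))

theorem pt_nx {C : ι → List Cl} {ks : ι → List (List ℕ)} {j : ι → ℕ} (hC : PT C) (hk : PT ks) (hj : PT j) :
    PT (fun i => nx (C i) (ks i) (j i)) :=
  PT.bnot (pt_pmem (pt_exP (PT.getD hC hj (PT.const (false, 0, 0, [])))) (PT.getD hk hj (PT.const [])))

theorem pt_muS {C : ι → List Cl} {ks : ι → List (List ℕ)} (hC : PT C) (hk : PT ks) :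
    PT (fun i => muS (C i) (ks i)) :=
  PT.length (PT.filter (PT.range (PT.length hC)) (p := fun y : ι × ℕ => nx (C y.1) (ks y.1) y.2)
    (pt_nx (hC.comp PT.fst) (hk.comp PT.fst) PT.snd))

theorem pt_initS : PT initS :=
  PT.map (l := fun y : SI => y.2.2.1) PT.snd.p2.p1
    (g := fun z : SI × (ℕ × List Ed) => (z.2.1, cfgM z.1.1 z.1.2.1 z.1.2.2.2 z.2.2 1))
    (PT.pair PT.snd.p1 (pt_cfgM PT.fst.p1 PT.fst.p2.p1 PT.fst.p2.p2.p2 PT.snd.p2 (PT.const 1)))

theorem pt_finS : PT finS :=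
  PT.pair (PT.neq PT.snd.p2.p1 (PT.nadd (PT.nmul (PT.const 2) PT.fst.p1.p1) (PT.const 1)))
    (PT.pair PT.snd.p2.p1 PT.snd.p2.p2)

theorem pt_npc : PT npc :=
  PT.length (pt_pcs (φ := fun z : SI × Cl => exP z.2) (x := fun y : SI => y.1) (g := fun y : SI => y.2.1)
    (C := fun y : SI => y.2.2.2) (pt_exP PT.snd) PT.fst PT.snd.p1 PT.snd.p2.p2)

theorem pt_BS : PT BS :=
  PT.nadd (PT.nadd (PT.nmul pt_npc (PT.nadd (PT.nmul (PT.const 16) (PT.nadd PT.fst.p1 (PT.const 1))) (PT.const 18)))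
    (PT.const 1)) (PT.nadd (PT.nmul (PT.const 4) PT.fst.p1) (PT.const 10))

end pt

end Pool.Agent.PF4.SV

end

section -- file PF4/SolZ

/-!
# The solver for conflict-free families of squares
-/

set_option autoImplicit false

namespace Pool.Agent.PF4.SV

open Finset Pool.Agent.TFC Pool.Agent.Lib.helper60

/-- the two steps of the solver -/
structure Rows : Prop where
  relax_good : ∀ (y : SI) (F : Fct (List (List ℕ))), WfS y → (∀ p ∈ F, FactS y p.1 p.2) → F ≠ [] →
    (relaxS (y, F)).1 = true → GoodS y F (relaxS (y, F)).2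
  relax_none : ∀ (y : SI) (F : Fct (List (List ℕ))), WfS y → (∀ p ∈ F, FactS y p.1 p.2) → F ≠ [] →
    (relaxS (y, F)).1 = false → ¬ ∃ ks, SolS y ks
  pt_relaxS : PT relaxS
  red_spec : ∀ (y : SI) (F : Fct (List (List ℕ))) (r : ℕ × List (List ℕ)), WfS y →
    (∀ p ∈ F, FactS y p.1 p.2) → (F.map Prod.fst).Nodup → F ≠ [] → GoodS y F r → 0 < muS y.2.2.2 r.2 →
    GoodS y F (redS (y, F, r)) ∧ muS y.2.2.2 (redS (y, F, r)).2 < muS y.2.2.2 r.2
  pt_redS : PT redS

theorem facts_ne {y : SI} (hy : WfS y) {F : Fct (List (List ℕ))} (h : ∀ p ∈ initS y, p ∈ F) : F ≠ [] := by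
  obtain ⟨p, hp⟩ := List.exists_mem_of_ne_nil _ (init_ne hy)
  exact List.ne_nil_of_mem (h p hp)

/-- the instance -/
def api (Z : Rows) : SolApi SI (List (List ℕ)) (ℕ × List (List ℕ)) where
  np := fun y => 2 * y.1.1 + 2
  mub := fun y => y.2.2.2.length
  B := BS
  wf := WfS
  fact := FactS
  sol := SolS
  good := GoodS
  mu := fun y r => muS y.2.2.2 r.2
  init := initS
  s0 := []
  r0 := (0, [])
  relax := relaxS
  red := fun w => (true, redS w, 0, [])
  fin := finS
  pt_np := PT.nadd (PT.nmul (PT.const 2) PT.fst.p1) (PT.const 2)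
  pt_mub := PT.length PT.snd.p2.p2
  pt_B := pt_BS
  pt_mu := pt_muS PT.fst.p2.p2.p2 PT.snd.p2
  pt_init := pt_initS
  pt_relax := Z.pt_relaxS
  pt_red := PT.pair (PT.const true) (PT.pair Z.pt_redS (PT.const (0, [])))
  pt_fin := pt_finS
  size_fact := fun _ _ _ hy h => size_fact hy h
  size_sol := fun _ _ hy h => size_sol hy h
  size_good := fun _ _ _ hy h => size_good hy h
  mu_le := fun y _ r _ _ => mu_le y.2.2.2 r.2
  init_spec := fun y hy => ⟨fun p hp => by
    have h := init_fact hy hp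
    exact ⟨by have := h.lt; omega, h⟩, init_nodup hy⟩
  relax_spec := fun y F hy hF _ hi => by
    have hF' : ∀ p ∈ F, FactS y p.1 p.2 := fun p hp => (hF p hp).2
    exact ⟨Z.relax_good y F hy hF' (facts_ne hy hi), Z.relax_none y F hy hF' (facts_ne hy hi)⟩
  red_spec := fun y F r hy hF hn hi hr hm => by
    have hF' : ∀ p ∈ F, FactS y p.1 p.2 := fun p hp => (hF p hp).2
    exact ⟨fun _ => Z.red_spec y F r hy hF' hn (facts_ne hy hi) hr hm, fun h => by cases h⟩
  fin_spec := fun y F r hy _ _ _ hr hm => ⟨fin_true hy hr hm, fin_false hr hm⟩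

/-- **the solver for lists of clusters** -/
theorem solve_cl (Z : Rows) {y : SI} (hy : WfS y) :
    (((api Z).solve y).1 = true → MG y.1 (decM y.1 y.2.2.2 ((api Z).solve y).2) ∧
      Cov y.1.1 y.2.1 (degL (decM y.1 y.2.2.2 ((api Z).solve y).2)) ∧
      ∀ q : Sq4, SqOK q → (∃ c ∈ y.2.2.2, sqs q ⊆ fs (clE c)) →
        sqIn (decM y.1 y.2.2.2 ((api Z).solve y).2) q = false) ∧
    (((api Z).solve y).1 = false → ¬ ∃ L, VM y.1 L ∧ Cov y.1.1 y.2.1 (degL L)) := by
  obtain ⟨h1, h2⟩ := (api Z).solve_spec (x := y) hy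
  constructor
  · intro h
    have h3 : SolS y ((api Z).solve y).2 := h1 h
    refine decM_spec hy.x hy.c hy.g h3.mem ?_
    intro v hv
    rw [h3.at_ v (by omega), tgt, if_pos hv]
  · rintro h ⟨L, hL, hc⟩
    exact h2 h ⟨cfgM y.1 y.2.1 y.2.2.2 L 0, cfgM_exact hy.x hy.c _ hL 0, fun v _ => ttl_cover hy.x hy.c hL.1 hc v⟩

/-- the near cover at `p.1` is a cover -/
def cvB (x : Ins) (g : List ℕ) (p : ℕ × List Ed) : Bool :=
  (List.range x.1).all fun u => decide (g.getD u 0 ≤ degL p.2 u)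

/-- the solver; `cls` computes the clusters -/
def slv (Z : Rows) (cls : List Sq4 → List Cl) (w : Ins × List ℕ × List (ℕ × List Ed) × List Sq4) :
    Bool × List Ed :=
  bif w.2.2.1.any (fun p => cvB w.1 w.2.1 p) then (true, (findD (fun p => cvB w.1 w.2.1 p) w.2.2.1 (0, [])).2)
  else (((api Z).solve (w.1, w.2.1, w.2.2.1, cls w.2.2.2)).1,
    decM w.1 (cls w.2.2.2) ((api Z).solve (w.1, w.2.1, w.2.2.1, cls w.2.2.2)).2)

theorem pt_slv (Z : Rows) {cls : List Sq4 → List Cl} (hc : PT cls) : PT (slv Z cls) := by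
  have hx : PT (fun w : Ins × List ℕ × List (ℕ × List Ed) × List Sq4 => w.1) := PT.fst
  have hg : PT (fun w : Ins × List ℕ × List (ℕ × List Ed) × List Sq4 => w.2.1) := PT.snd.p1
  have hW : PT (fun w : Ins × List ℕ × List (ℕ × List Ed) × List Sq4 => w.2.2.1) := PT.snd.p2.p1
  have hD : PT (fun w : Ins × List ℕ × List (ℕ × List Ed) × List Sq4 => w.2.2.2) := PT.snd.p2.p2
  have hC : PT (fun w : Ins × List ℕ × List (ℕ × List Ed) × List Sq4 => cls w.2.2.2) := hc.comp hD
  have hcv : PT (fun z : (Ins × List ℕ × List (ℕ × List Ed) × List Sq4) × (ℕ × List Ed) =>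
      cvB z.1.1 z.1.2.1 z.2) :=
    PT.all (PT.range (PT.p1 (hx.comp PT.fst)))
      (p := fun t : ((Ins × List ℕ × List (ℕ × List Ed) × List Sq4) × (ℕ × List Ed)) × ℕ =>
        decide (t.1.1.2.1.getD t.2 0 ≤ degL t.1.2.2 t.2))
      (PT.nle (PT.getD (hg.comp PT.fst.p1) PT.snd (PT.const 0)) (pt_degL PT.fst.p2.p2 PT.snd))
  have hs : PT (fun w : Ins × List ℕ × List (ℕ × List Ed) × List Sq4 =>
      (api Z).solve (w.1, w.2.1, w.2.2.1, cls w.2.2.2)) :=
    (api Z).pt_solve.comp (PT.pair hx (PT.pair hg (PT.pair hW hC)))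
  exact PT.cond (PT.any hW hcv) (PT.pair (PT.const true) (PT.p2 (pt_findD hcv hW (PT.const (0, [])))))
    (PT.pair (PT.p1 hs) (pt_decM hx hC (PT.p2 hs)))

/-- the interface of the clusters -/
structure ClsFn (cls : List Sq4 → List Cl) : Prop where
  ok : ∀ (x : Ins) (D : List Sq4), InsWF x → D.Nodup → (∀ Q ∈ D, Q ∈ sqG x) →
    (∀ Q ∈ D, ∀ R ∈ D, conf Q R = false) → ClsOK x (cls D) ∧ ∀ q ∈ D, ∃ c ∈ cls D, sqs q ⊆ fs (clE c)

/-- **The solver is correct.** -/
theorem slv_spec (Z : Rows) {cls : List Sq4 → List Cl} (hcl : ClsFn cls) (x : Ins) (g : List ℕ)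
    (W : List (ℕ × List Ed)) (v : ℕ) (D : List Sq4) (hx : InsWF x) (hd : Da x g W v)
    (hg2 : ∀ u < x.1, g.getD u 0 ≤ 2) (hD : D.Nodup)
    (h1 : ∀ Q ∈ D, Q ∈ sqG x) (h2 : ∀ Q ∈ D, ∀ R ∈ D, conf Q R = false) :
    ((slv Z cls (x, g, W, D)).1 = true →
      MG x (slv Z cls (x, g, W, D)).2 ∧ Cov x.1 g (degL (slv Z cls (x, g, W, D)).2) ∧
      ∀ Q ∈ D, sqIn (slv Z cls (x, g, W, D)).2 Q = false) ∧
    ((slv Z cls (x, g, W, D)).1 = false → ¬ ∃ L, VM x L ∧ Cov x.1 g (degL L)) := by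
  have hg : ∀ u, g.getD u 0 ≤ 2 := by
    intro u
    by_cases hu : u < x.1
    · exact hg2 u hu
    · have : g.getD u 0 = 0 := by
        rw [List.getD_eq_getElem?_getD, List.getElem?_eq_none (by rw [hd.len]; omega)]
        rfl
      omega
  unfold slv
  simp only
  by_cases hc : W.any (fun p => cvB x g p) = true
  · rw [hc, cond_true]
    refine ⟨fun _ => ?_, fun h => by simp at h⟩
    rw [List.any_eq_true] at hc
    obtain ⟨h3, h4⟩ := findD_spec (fun p => cvB x g p) W (0, []) hc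
    obtain ⟨-, h5, -⟩ := hd.tab _ h3
    refine ⟨h5.1, ?_, fun Q hQ => h5.2 Q (h1 Q hQ)⟩
    intro u hu
    change (List.range x.1).all (fun u => decide (g.getD u 0 ≤ degL (findD (fun p => cvB x g p) W (0, [])).2 u)) = true
      at h4
    rw [List.all_eq_true] at h4
    exact of_decide_eq_true (h4 u (List.mem_range.2 hu))
  · have hc' : W.any (fun p => cvB x g p) = false := by simpa using hc
    rw [hc', cond_false]
    obtain ⟨h3, h4⟩ := hcl.ok x D hx hD h1 h2
    have hne : W ≠ [] := by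
      intro h
      have := (hd.sup v hd.lt).1 hd.one
      rw [h] at this
      simp at this
    have hwf : WfS (x, g, W, cls D) := by
      refine ⟨hx, h3, hg, ?_, hd.nod, hne⟩
      intro p hp
      obtain ⟨k1, k2, k3⟩ := hd.tab p hp
      refine ⟨k1, k2, k3, ?_⟩
      simp only at k1 k3 ⊢
      have k4 := k3 p.1 k1
      rw [if_pos rfl] at k4
      by_contra hcon
      apply hc
      rw [List.any_eq_true]
      refine ⟨p, hp, ?_⟩
      unfold cvB
      rw [List.all_eq_true]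
      intro u hu
      rw [List.mem_range] at hu
      rw [decide_eq_true_eq]
      have k5 := k3 u hu
      by_cases hup : u = p.1
      · subst hup
        omega
      · rw [if_neg hup] at k5
        exact k5
    obtain ⟨h5, h6⟩ := solve_cl Z hwf
    refine ⟨fun h => ?_, h6⟩
    obtain ⟨k1, k2, k3⟩ := h5 h
    exact ⟨k1, k2, fun Q hQ => k3 Q (sqG_ok Q (h1 Q hQ)) (h4 Q hQ)⟩

end Pool.Agent.PF4.SV

end

section -- file PF4/SolR

/-!
# The relaxation of the solver for conflict-free families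
-/

set_option autoImplicit false

namespace Pool.Agent.PF4.SV

open Finset Pool.Agent.TFC Pool.Agent.Lib.helper60
open scoped Pointwise

/-! ### vertices of clusters -/

theorem clB_of {x : Ins} (hx : InsWF x) {C : List Cl} (hC : ClsOK x C) {c : Cl} (hc : c ∈ C) :
    (∀ v ∈ c.2.2.2, v < x.1) ∧ (c.1 = true → c.2.1 < x.1 ∧ c.2.2.1 < x.1) := by
  have ho := hC.ok c hc
  have hs := hC.sub c hc
  obtain ⟨b, p, q, L⟩ := c
  cases b with
  | true =>
    obtain ⟨_, _, _, h4⟩ := ho.k2 rfl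
    simp only at h4
    have h : ∀ w l, (w = p ∨ w = q) → l ∈ L → w < x.1 ∧ l < x.1 := by
      intro w l hw hl
      have h1 := hs (k2_edge hw hl)
      exact ⟨hx.vlt h1 (Sym2.mem_mk_left _ _), hx.vlt h1 (Sym2.mem_mk_right _ _)⟩
    refine ⟨fun v hv => (h p v (Or.inl rfl) hv).2, fun _ => ?_⟩
    have hne : L ≠ [] := by rintro rfl; simp at h4
    obtain ⟨l, hl⟩ := List.exists_mem_of_ne_nil L hne
    exact ⟨(h p l (Or.inl rfl) hl).1, (h q l (Or.inr rfl) hl).1⟩
  | false =>
    have h4 := ho.k4 rfl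
    have hn := ho.nd
    simp only at h4 hn
    refine ⟨fun v hv => ?_, fun h => by cases h⟩
    obtain ⟨w, hw, h1, _⟩ := exists_third hn h4 v v
    have h2 := hs (k4_edge (x := p) (y := q) hv hw (Ne.symm h1))
    exact hx.vlt h2 (Sym2.mem_mk_left _ _)

/-! ### pieces and units -/

/-- the vectors of the units are the vectors of the piece -/
def Br (n : ℕ) (u : List (List ℕ × List ℕ)) (p : Pc) : Prop := ∀ k, Gd.PV n u k ↔ pmem p k = true

theorem br_rx {n : ℕ} {c : Cl} (ho : ClOK c) (hb : (∀ v ∈ c.2.2.2, v < n) ∧ (c.1 = true → c.2.1 < n ∧ c.2.2.1 < n))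
    {ch : ℕ × ℕ} (hc : ChOK c ch) : Br n (rxU c ch) (rxP c ch) := by
  intro k
  rw [pmem_iff (card4_rxP ho ch), Gd.rx_pv ho hb hc]

theorem UB_one {n u v : ℕ} (hu : u < n) (hv : v < n) : Gd.UB n [([u], [v])] := by
  intro w hw
  rw [List.mem_singleton] at hw
  subst hw
  refine ⟨fun s hs => ?_, fun s hs => ?_⟩
  · rw [List.mem_singleton.1 hs]; exact hu
  · rw [List.mem_singleton.1 hs]; exact hv

theorem sumU_one (u v : ℕ) (x : ℕ → ℤ) :
    x ∈ sumU (([([u], [v])] : List (List ℕ × List ℕ)).map Gd.tf) ↔ x = 0 ∨ x = ev u + ev v := by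
  have e : sumU (([([u], [v])] : List (List ℕ × List ℕ)).map Gd.tf) = Un ({u} : Finset ℕ) {v} := by
    rw [Gd.sumU_list]
    simp only [Gd.tf, List.map_cons, List.map_nil, List.sum_cons, List.sum_nil, add_zero, List.toFinset_cons,
      List.toFinset_nil, insert_empty_eq]
  rw [e]
  constructor
  · rintro (h | ⟨s, hs, t, ht, h⟩)
    · exact Or.inl h
    · rw [Finset.mem_singleton] at hs ht
      subst hs ht
      exact Or.inr h
  · rintro (h | h)
    · exact Or.inl h
    · exact Or.inr ⟨u, by simp, v, by simp, h⟩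

theorem kvec_two_le (u v : ℕ) {k : List ℕ} (h : kvec k = 0 ∨ kvec k = ev u + ev v) (w : ℕ) : kvec k w ≤ 2 := by
  rcases h with h | h <;> rw [h]
  · simp
  · rw [Pi.add_apply, TFC.ev_apply, TFC.ev_apply]
    split_ifs <;> norm_num

theorem br_un {n u v : ℕ} (hu : u < n) (hv : v < n) : Br n [([u], [v])] (unP u v) := by
  intro k
  rw [Gd.pv_sumU (UB_one hu hv), sumU_one]
  have e : pmem (unP u v) k = true ↔ kvec k = 0 ∨ kvec k = ev u + ev v := by
    show pmem (true, [], [[u, v]]) k = true ↔ _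
    rw [pmem_iff (card4_nil [[u, v]])]
    rw [Gd.pcS_two]
    constructor
    · rintro (h | ⟨s, hs, t, ht, h⟩)
      · exact Or.inl h
      · rw [Finset.mem_singleton] at hs ht
        subst hs ht
        exact Or.inr h
    · rintro (h | h)
      · exact Or.inl h
      · exact Or.inr ⟨u, by simp, v, by simp, h⟩
  rw [e]
  exact ⟨fun h => h.1, fun h => ⟨h, kvec_two_le u v h⟩⟩

theorem JS_one {e : Ed} (he : e.1 ≠ e.2) (x : ℕ → ℤ) :
    x ∈ JS (fs [e]) none4 ↔ x = 0 ∨ x = ev e.1 + ev e.2 := by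
  have e1 : dv ({fe e} : Finset (Sym2 ℕ)) = ev e.1 + ev e.2 := Unit_dv1 he
  have hnl : ∀ f ∈ ({fe e} : Finset (Sym2 ℕ)), ¬ f.IsDiag := by
    intro f hf
    rw [Finset.mem_singleton] at hf
    subst hf
    simpa [fe] using he
  constructor
  · rintro ⟨z, hz, _, _, rfl⟩
    rw [fs_cons, fs_nil] at hz
    have hz' : z ⊆ {fe e} := by simpa using hz
    rcases Finset.subset_singleton_iff.1 hz' with h | h
    · left
      rw [h, Plain_dv_empty]
    · right
      rw [h, e1]
  · rintro (rfl | rfl)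
    · refine ⟨∅, Finset.empty_subset _, ⟨fun f hf => by simp at hf, fun v => by simp [dg]⟩,
        fun a b c d h => by simpa using h.ab, Plain_dv_empty.symm⟩
    · refine ⟨{fe e}, by rw [fs_cons]; simp, M2.of_dv hnl ?_, R4_good hnl (by rw [card_singleton]; norm_num), e1.symm⟩
      intro v
      rw [e1, Pi.add_apply, TFC.ev_apply, TFC.ev_apply]
      split_ifs <;> norm_num

theorem br_ed {n : ℕ} {e : Ed} (he : e.1 ≠ e.2) (hu : e.1 < n) (hv : e.2 < n) : Br n [([e.1], [e.2])] (edP e) := by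
  intro k
  rw [Gd.pv_sumU (UB_one hu hv), sumU_one]
  have h1 : pmem (edP e) k = true ↔ kvec k = 0 ∨ kvec k = ev e.1 + ev e.2 := by
    show pmem (true, [e], []) k = true ↔ _
    rw [pmem_iff (card4_edge e []), pcS_plain, JS_one he]
  rw [h1]
  exact ⟨fun h => h.1, fun h => ⟨h, kvec_two_le e.1 e.2 h⟩⟩

theorem plE_mem {x : Ins} (hx : InsWF x) {C : List Cl} {e : Ed} (he : e ∈ plE x C) :
    e.1 ≠ e.2 ∧ e.1 < x.1 ∧ e.2 < x.1 := by
  have h1 : fe e ∈ fs (plE x C) := fe_mem_fs he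
  rw [plE, fs_rest, Finset.mem_sdiff] at h1
  refine ⟨?_, hx.vlt h1.1 (Sym2.mem_mk_left _ _), hx.vlt h1.1 (Sym2.mem_mk_right _ _)⟩
  intro h
  refine hx.nl _ h1.1 ?_
  rw [fe, h]
  exact Sym2.mk_isDiag_iff.2 rfl

/-- the units of the relaxed pieces give the relaxed pieces -/
theorem br_all {y : SI} (hy : WfS y) (F : Fct (List (List ℕ))) :
    List.Forall₂ (Br (y.1.1 + 1)) (rlU y F) (rlP y F) := by
  refine forall2_append (forall2_append ?_ ?_) (forall2_append ?_ ?_)
  · refine forall2_map y.2.2.2 fun c hc => ?_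
    obtain ⟨h1, h2⟩ := clB_of hy.x hy.c hc
    refine br_rx (hy.c.ok c hc) ⟨fun v hv => (h1 v hv).trans (Nat.lt_succ_self _), fun h => ?_⟩
      (psi_ok _ (hy.c.ok c hc))
    exact ⟨(h2 h).1.trans (Nat.lt_succ_self _), (h2 h).2.trans (Nat.lt_succ_self _)⟩
  · refine forall2_map (plE y.1 y.2.2.2) fun e he => ?_
    obtain ⟨h1, h2, h3⟩ := plE_mem hy.x he
    exact br_ed h1 (h2.trans (Nat.lt_succ_self _)) (h3.trans (Nat.lt_succ_self _))
  · refine forall2_map (slJ y.1.1 y.2.1) fun p hp => ?_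
    exact br_un ((mem_slJ.1 hp).1.trans (Nat.lt_succ_self _)) (Nat.lt_succ_self _)
  · refine forall2_map (List.range y.1.1) fun j _ => ?_
    exact br_un (Nat.lt_succ_self _) (Nat.lt_succ_self _)

theorem forall2_br {n : ℕ} {us : List (List (List ℕ × List ℕ))} {ps : List Pc} (h : List.Forall₂ (Br n) us ps)
    (ks : List (List ℕ)) : List.Forall₂ (Gd.PV n) us ks ↔ List.Forall₂ (fun p k => pmem p k = true) ps ks := by
  induction h generalizing ks with
  | nil => simp
  | cons h1 _ ih =>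
    cases ks with
    | nil => simp
    | cons k ks => rw [List.forall₂_cons, List.forall₂_cons, ih, h1 k]

/-- relaxed configurations, in terms of units -/
theorem pv_rl {y : SI} (hy : WfS y) (F : Fct (List (List ℕ))) (ks : List (List ℕ)) :
    List.Forall₂ (Gd.PV (y.1.1 + 1)) (rlU y F) ks ↔
      List.Forall₂ (fun p k => pmem p k = true) (rlP y F) ks := forall2_br (br_all hy F) ks

/-- exact configurations are relaxed configurations -/
theorem xc_rl {y : SI} (hy : WfS y) (F : Fct (List (List ℕ))) {ks : List (List ℕ)}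
    (h : List.Forall₂ (fun p k => pmem p k = true) (xcP y) ks) :
    List.Forall₂ (fun p k => pmem p k = true) (rlP y F) ks := by
  obtain ⟨k1, k2, rfl, h1, h2⟩ := forall2_split h
  obtain ⟨k3, k4, rfl, h3, h4⟩ := forall2_split h1
  refine forall2_append (forall2_append ?_ h4) h2
  clear h h1 h2 h4
  have hok : ∀ c ∈ y.2.2.2, ClOK c := hy.c.ok
  revert h3 hok
  generalize y.2.2.2 = C
  intro h3 hok
  rw [List.forall₂_map_left_iff] at h3 ⊢
  induction h3 with
  | nil => exact List.Forall₂.nil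
  | @cons c k C ks h5 _ ih =>
    refine List.Forall₂.cons ?_ (ih fun c hc => hok c (List.mem_cons_of_mem _ hc))
    exact pmem_complete (card4_rxP (hok c List.mem_cons_self) _) (exP_sub_rxP _ _ (pmem_sound h5))

/-! ### coordinates above the slack vertex -/

/-! ### ports -/

theorem mem_uMi {n : ℕ} {F : Fct (List (List ℕ))} {v : ℕ} : v ∈ uMi n F ↔ v < n + 1 ∧ kno F v = false := by
  rw [uMi, List.mem_filter, List.mem_range, Bool.not_eq_true']

theorem mem_uPl {n : ℕ} {F : Fct (List (List ℕ))} {v : ℕ} :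
    v ∈ uPl n F ↔ v < n + 1 ∧ kno F (n + 1 + v) = false := by
  rw [uPl, List.mem_filter, List.mem_range, Bool.not_eq_true']

theorem tgL_getD {n v : ℕ} (hv : v < n + 1) : (tgL n).getD v 0 = tgt n 1 v := by
  have h : (tgL n).getD v 0 = if v < n then 2 else 2 * n - 1 := by
    rw [tgL, List.getD_eq_getElem?_getD, List.getElem?_map, List.getElem?_range hv]
    rfl
  rw [h, tgt]
  by_cases h1 : v < n
  · rw [if_pos h1, if_pos h1]
  · have h2 : v = n := by omega
    rw [if_neg h1, if_neg h1, if_pos h2]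

/-- the configurations of the round gadget are the relaxed configurations at an unknown port -/
theorem cfg_iff {y : SI} (hy : WfS y) (F : Fct (List (List ℕ))) (ks : List (List ℕ)) (s : ℕ) :
    Gd.Cfg (y.1.1 + 1) (tgL y.1.1) (rlU y F) (uMi y.1.1 F) (uPl y.1.1 F) ks s ↔ GoodS y F (s, ks) := by
  have hs : ∀ v, (ks.map fun k => k.count v).sum = ttl ks v := fun _ => rfl
  constructor
  · rintro ⟨h1, h2⟩
    have h3 := (pv_rl hy F ks).1 h1
    rcases h2 with ⟨m1, m2, m3⟩ | ⟨v₀, m1, m2, m4, m3⟩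
    · refine ⟨?_, (mem_uMi.1 m1).2, h3, ?_⟩
      · show s < 2 * (y.1.1 + 1)
        omega
      · intro v hv
        have h4 := m3 v hv
        rw [hs, tgL_getD hv] at h4
        show ttl ks v + (if s = v then 1 else 0) = tgt y.1.1 1 v + (if s = y.1.1 + 1 + v then 1 else 0)
        rw [h4, if_neg (by omega : ¬ s = y.1.1 + 1 + v), add_zero]
    · refine ⟨?_, ?_, h3, ?_⟩
      · show s < 2 * (y.1.1 + 1)
        omega
      · show kno F s = false
        rw [m4]
        exact (mem_uPl.1 m1).2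
      · intro v hv
        have h4 := m3 v hv
        rw [hs, tgL_getD hv] at h4
        show ttl ks v + (if s = v then 1 else 0) = tgt y.1.1 1 v + (if s = y.1.1 + 1 + v then 1 else 0)
        rw [h4, if_neg (by omega : ¬ s = v), m4]
        have h5 : (y.1.1 + 1 + v₀ = y.1.1 + 1 + v) ↔ v₀ = v := by omega
        simp only [h5, add_zero]
  · rintro ⟨h1, h2, h3, h4⟩
    change s < 2 * (y.1.1 + 1) at h1
    change kno F s = false at h2
    refine ⟨(pv_rl hy F ks).2 h3, ?_⟩
    by_cases hlt : s < y.1.1 + 1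
    · left
      refine ⟨mem_uMi.2 ⟨hlt, h2⟩, hlt, fun v hv => ?_⟩
      have h5 := h4 v hv
      change ttl ks v + (if s = v then 1 else 0) = tgt y.1.1 1 v + (if s = y.1.1 + 1 + v then 1 else 0) at h5
      rw [hs, tgL_getD hv, h5, if_neg (by omega : ¬ s = y.1.1 + 1 + v), add_zero]
    · right
      refine ⟨s - (y.1.1 + 1), mem_uPl.2 ⟨by omega, ?_⟩, by omega, by omega, fun v hv => ?_⟩
      · rw [show y.1.1 + 1 + (s - (y.1.1 + 1)) = s by omega]
        exact h2
      · have h5 := h4 v hv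
        change ttl ks v + (if s = v then 1 else 0) = tgt y.1.1 1 v + (if s = y.1.1 + 1 + v then 1 else 0) at h5
        rw [if_neg (by omega : ¬ s = v)] at h5
        have h6 : (s - (y.1.1 + 1) = v) ↔ s = y.1.1 + 1 + v := by omega
        rw [hs, tgL_getD hv]
        simp only [h6]
        omega

theorem relax_good {y : SI} {F : Fct (List (List ℕ))} (hy : WfS y) (h : (relaxS (y, F)).1 = true) :
    GoodS y F (relaxS (y, F)).2 :=
  (cfg_iff hy F _ _).1 (Gd.cap_ok h)

theorem relax_none' {y : SI} {F : Fct (List (List ℕ))} (hy : WfS y) (h : (relaxS (y, F)).1 = false)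
    (r : ℕ × List (List ℕ)) : ¬ GoodS y F r := by
  intro hr
  have h1 := Gd.cap_of ((cfg_iff hy F r.2 r.1).2 hr)
  have h2 : (relaxS (y, F)).1 = true := h1
  rw [h] at h2
  cases h2

/-- the goal is a relaxed configuration at an unknown port -/
theorem sol_good {y : SI} {F : Fct (List (List ℕ))} (hy : WfS y) (hF : ∀ p ∈ F, FactS y p.1 p.2)
    {ks : List (List ℕ)} (h : SolS y ks) (hn : 0 < y.1.1) : GoodS y F (2 * y.1.1 + 1, ks) := by
  refine ⟨?_, ?_, xc_rl hy F h.mem, ?_⟩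
  · show 2 * y.1.1 + 1 < 2 * (y.1.1 + 1)
    omega
  · show kno F (2 * y.1.1 + 1) = false
    rw [← Bool.not_eq_true, kno_iff]
    intro h1
    obtain ⟨p, hp, e⟩ := List.mem_map.1 h1
    have := (hF p hp).lt
    omega
  · intro v hv
    show ttl ks v + (if 2 * y.1.1 + 1 = v then 1 else 0) =
      tgt y.1.1 1 v + (if 2 * y.1.1 + 1 = y.1.1 + 1 + v then 1 else 0)
    rw [h.at_ v hv, if_neg (by omega : ¬ 2 * y.1.1 + 1 = v), tgt, tgt]
    by_cases h1 : v < y.1.1
    · rw [if_pos h1, if_pos h1, if_neg (by omega)]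
    · have h2 : v = y.1.1 := by omega
      rw [if_neg h1, if_neg h1, if_pos h2, if_pos h2, if_pos (by omega)]
      omega

theorem wf_pos {y : SI} (hy : WfS y) : 0 < y.1.1 := by
  obtain ⟨p, hp⟩ := List.exists_mem_of_ne_nil _ hy.ne
  have := (hy.w p hp).1
  omega

theorem relax_none {y : SI} {F : Fct (List (List ℕ))} (hy : WfS y) (hF : ∀ p ∈ F, FactS y p.1 p.2)
    (h : (relaxS (y, F)).1 = false) : ¬ ∃ ks, SolS y ks := by
  rintro ⟨ks, hk⟩
  exact relax_none' hy h _ (sol_good hy hF hk (wf_pos hy))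

/-! ### polynomial time -/

section pt

variable {ι : Type} [DEnc ι]

theorem pt_kno {F : ι → Fct (List (List ℕ))} {s : ι → ℕ} (hF : PT F) (hs : PT s) : PT (fun x => kno (F x) (s x)) :=
  PT.any hF (p := fun y : ι × (ℕ × List (List ℕ)) => decide (y.2.1 = s y.1)) (PT.neq PT.snd.p1 (hs.comp PT.fst))

theorem pt_uMi {n : ι → ℕ} {F : ι → Fct (List (List ℕ))} (hn : PT n) (hF : PT F) :
    PT (fun x => uMi (n x) (F x)) :=
  PT.filter (PT.range (PT.nsucc hn)) (p := fun y : ι × ℕ => !kno (F y.1) y.2)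
    (PT.bnot (pt_kno (hF.comp PT.fst) PT.snd))

theorem pt_uPl {n : ι → ℕ} {F : ι → Fct (List (List ℕ))} (hn : PT n) (hF : PT F) :
    PT (fun x => uPl (n x) (F x)) :=
  PT.filter (PT.range (PT.nsucc hn)) (p := fun y : ι × ℕ => !kno (F y.1) (n y.1 + 1 + y.2))
    (PT.bnot (pt_kno (hF.comp PT.fst) (PT.nadd (PT.nsucc (hn.comp PT.fst)) PT.snd)))

theorem pt_plu {n v : ι → ℕ} {F : ι → Fct (List (List ℕ))} (hn : PT n) (hF : PT F) (hv : PT v) :
    PT (fun x => plu (n x) (F x) (v x)) :=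
  PT.band (pt_kno hF hv) (PT.bnot (pt_kno hF (PT.nadd (PT.nsucc hn) hv)))

theorem pt_tgL {n : ι → ℕ} (hn : PT n) : PT (fun x => tgL (n x)) := by
  have h : ∀ x : ι, tgL (n x) =
      (List.range (n x + 1)).map fun v => bif decide (v < n x) then 2 else 2 * n x - 1 := by
    intro x
    unfold tgL
    refine List.map_congr_left fun v _ => ?_
    by_cases h1 : v < n x
    · simp [h1]
    · simp [h1]
  refine PT.congr (PT.map (PT.range (PT.nsucc hn))
    (g := fun y : ι × ℕ => bif decide (y.2 < n y.1) then 2 else 2 * n y.1 - 1)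
    (PT.cond (PT.nlt PT.snd (hn.comp PT.fst)) (PT.const 2)
      (PT.nsub (PT.nmul (PT.const 2) (hn.comp PT.fst)) (PT.const 1)))) fun x => (h x).symm

theorem pt_psiF {c : ι → Cl} {n : ι → ℕ} {F : ι → Fct (List (List ℕ))} (hc : PT c) (hn : PT n) (hF : PT F) :
    PT (fun x => psi (plu (n x) (F x)) (c x)) :=
  pt_psi (P := fun z : ι × ℕ => plu (n z.1) (F z.1) z.2)
    (pt_plu (hn.comp PT.fst) (hF.comp PT.fst) PT.snd) hc

theorem pt_rlU : PT (fun w : SI × Fct (List (List ℕ)) => rlU w.1 w.2) := by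
  have h1 : PT (fun w : SI × Fct (List (List ℕ)) => w.1.1) := PT.p1 PT.fst
  have hn : PT (fun w : SI × Fct (List (List ℕ)) => w.1.1.1) := PT.p1 h1
  have hg : PT (fun w : SI × Fct (List (List ℕ)) => w.1.2.1) := PT.p1 (PT.p2 PT.fst)
  have hC : PT (fun w : SI × Fct (List (List ℕ)) => w.1.2.2.2) := PT.p2 (PT.p2 (PT.p2 PT.fst))
  have hF : PT (fun w : SI × Fct (List (List ℕ)) => w.2) := PT.snd
  refine PT.append (PT.append ?_ ?_) (PT.append ?_ ?_)
  · exact PT.map hC (g := fun z : (SI × Fct (List (List ℕ))) × Cl => rxU z.2 (psi (plu z.1.1.1.1 z.1.2) z.2))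
      (pt_rxU PT.snd (pt_psiF PT.snd (hn.comp PT.fst) (hF.comp PT.fst)))
  · exact PT.map (pt_plE h1 hC) (g := fun z : (SI × Fct (List (List ℕ))) × Ed => [([z.2.1], [z.2.2])])
      (PT.cons (PT.pair (PT.cons PT.snd.p1 (PT.const [])) (PT.cons PT.snd.p2 (PT.const []))) (PT.const []))
  · exact PT.map (pt_slJ hn hg) (g := fun z : (SI × Fct (List (List ℕ))) × (ℕ × ℕ) => [([z.2.1], [z.1.1.1.1])])
      (PT.cons (PT.pair (PT.cons PT.snd.p1 (PT.const [])) (PT.cons (hn.comp PT.fst) (PT.const []))) (PT.const []))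
  · exact PT.map (PT.range hn) (g := fun z : (SI × Fct (List (List ℕ))) × ℕ => [([z.1.1.1.1], [z.1.1.1.1])])
      (PT.cons (PT.pair (PT.cons (hn.comp PT.fst) (PT.const [])) (PT.cons (hn.comp PT.fst) (PT.const [])))
        (PT.const []))

theorem pt_relaxS : PT relaxS := by
  have h1 : PT (fun w : SI × Fct (List (List ℕ)) => w.1.1) := PT.p1 PT.fst
  have hn : PT (fun w : SI × Fct (List (List ℕ)) => w.1.1.1) := PT.p1 h1
  have hF : PT (fun w : SI × Fct (List (List ℕ)) => w.2) := PT.snd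
  have ht := pt_tgL hn
  have hm := pt_uMi hn hF
  have hp := pt_uPl hn hF
  exact PT.pair (Gd.pt_capF (PT.nsucc hn) ht pt_rlU hm hp)
    (PT.pair (Gd.pt_capP (PT.nsucc hn) ht pt_rlU hm hp) (Gd.pt_capS (PT.nsucc hn) ht pt_rlU hm hp))

end pt

/-- the relaxation part of the solver -/
theorem rows_of (h1 : ∀ (y : SI) (F : Fct (List (List ℕ))) (r : ℕ × List (List ℕ)), WfS y →
      (∀ p ∈ F, FactS y p.1 p.2) → (F.map Prod.fst).Nodup → F ≠ [] → GoodS y F r → 0 < muS y.2.2.2 r.2 →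
      GoodS y F (redS (y, F, r)) ∧ muS y.2.2.2 (redS (y, F, r)).2 < muS y.2.2.2 r.2)
    (h2 : PT redS) : Rows where
  relax_good := fun _ _ hy _ _ h => relax_good hy h
  relax_none := fun _ _ hy hF _ h => relax_none hy hF h
  pt_relaxS := pt_relaxS
  red_spec := h1
  pt_redS := h2

end Pool.Agent.PF4.SV

end

section -- file PF4/SolRd

/-!
# The reduction step of the solver for conflict-free families: specification and polynomial time of `redS`
-/

set_option autoImplicit false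

namespace Pool.Agent.PF4.SVR

open Finset Pool.Agent.TFC Pool.Agent.Lib.helper60 Pool.Agent.PF4.LD Pool.Agent.PF4.SV

/-- state -/
abbrev St : Type := List (List ℕ)

/-- default piece -/
abbrev dP : Pc := (false, [], [])

/-- default cluster -/
abbrev dC : Cl := (false, 0, 0, [])

/-! ### generalities -/

theorem fa_iff {P : List Pc} {ks : St} : List.Forall₂ (fun p k => pmem p k = true) P ks ↔ Leg pmem dP P ks := by
  constructor
  · exact leg_of
  · intro h
    induction P generalizing ks with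
    | nil =>
      have : ks = [] := List.length_eq_zero_iff.1 h.len
      subst this
      exact List.Forall₂.nil
    | cons p P ih =>
      obtain ⟨k, s', rfl, h1, h2⟩ := Rd.leg_uncons h
      exact List.Forall₂.cons h1 (ih h2)

theorem leg_iff {g : ℕ → Pc} {N : ℕ} {Ot : List Pc} {s : St} :
    Leg pmem dP ((List.range N).map g ++ Ot) s ↔ s.length = N + Ot.length ∧
      (∀ i < N, pmem (g i) (s.getD i []) = true) ∧
        ∀ j < Ot.length, pmem (Ot.getD j dP) (s.getD (N + j) []) = true := by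
  constructor
  · intro h
    refine ⟨by rw [h.len]; simp, ?_, ?_⟩
    · intro i hi
      have h1 := h.mem i (by simp; omega)
      rwa [List.getD_append _ _ _ _ (by simpa using hi), List.getD_eq_getElem _ _ (by simpa using hi),
        List.getElem_map, List.getElem_range] at h1
    · intro j hj
      have h1 := h.mem (N + j) (by simp; omega)
      rwa [List.getD_append_right _ _ _ _ (by simp), List.length_map, List.length_range,
        Nat.add_sub_cancel_left] at h1
  · rintro ⟨h1, h2, h3⟩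
    refine ⟨by rw [h1]; simp, ?_⟩
    intro q hq
    rw [List.length_append, List.length_map, List.length_range] at hq
    by_cases hN : q < N
    · rw [List.getD_append _ _ _ _ (by simpa using hN), List.getD_eq_getElem _ _ (by simpa using hN),
        List.getElem_map, List.getElem_range]
      exact h2 q hN
    · rw [List.getD_append_right _ _ _ _ (by simpa using hN), List.length_map, List.length_range]
      have h4 := h3 (q - N) (by omega)
      rwa [show N + (q - N) = q by omega] at h4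

theorem ttl_cT (ks : St) (v : ℕ) : cT ks v = ttl ks v := by
  induction ks with
  | nil => rfl
  | cons k ks ih =>
    rw [ttl_cons, ← ih]
    unfold cT
    rw [List.flatten_cons, cnt_append, cnt_eq]

/-! ### the world -/

/-- the pieces that are not clusters -/
def Ot (y : SV.SI) : List Pc :=
  (plE y.1 y.2.2.2).map edP ++
    ((slJ y.1.1 y.2.1).map (fun p => unP p.1 y.1.1) ++ (List.range y.1.1).map fun _ => unP y.1.1 y.1.1)

/-- relaxed cluster -/
def gr (y : SV.SI) (F : Fct St) (j : ℕ) : Pc := rxP (y.2.2.2.getD j dC) (psi (plu y.1.1 F) (y.2.2.2.getD j dC))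

/-- exact cluster -/
def gx (y : SV.SI) (j : ℕ) : Pc := exP (y.2.2.2.getD j dC)

/-- cluster in the world -/
def gw (y : SV.SI) (F : Fct St) (ks : St) (q j : ℕ) : Pc :=
  bif !decide (j = q) && nx y.2.2.2 ks j then gr y F j else gx y j

theorem rlP_eq (y : SV.SI) (F : Fct St) : rlP y F = (List.range y.2.2.2.length).map (gr y F) ++ Ot y := by
  unfold rlP pcs Ot
  rw [List.append_assoc, Rd.map_getD]
  rfl

theorem xcP_eq (y : SV.SI) : xcP y = (List.range y.2.2.2.length).map (gx y) ++ Ot y := by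
  unfold xcP pcs Ot
  rw [List.append_assoc, Rd.map_getD]
  rfl

theorem wPc_eq (y : SV.SI) (F : Fct St) (ks : St) :
    wPc y F ks = ((List.range y.2.2.2.length).map (gw y F ks (fstV y.2.2.2 ks)) ++ Ot y) ++ tkP y.1.1 F := by
  unfold wPc Ot
  rw [List.append_assoc ((List.range y.2.2.2.length).map (gw y F ks (fstV y.2.2.2 ks)))]
  rw [← List.append_assoc ((List.range y.2.2.2.length).map (gw y F ks (fstV y.2.2.2 ks))),
    ← List.append_assoc ((List.range y.2.2.2.length).map (gw y F ks (fstV y.2.2.2 ks)))]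
  rfl

/-- unknown ports -/
def unk (n : ℕ) (F : Fct St) : List (ℕ × Bool) := (uMi n F).map (fun v => (v, false)) ++ (uPl n F).map fun v => (v, true)

/-- code of a port -/
def cd (n : ℕ) (u : ℕ × Bool) : ℕ := bif u.2 then n + 1 + u.1 else u.1

theorem cd_inj {n : ℕ} {u w : ℕ × Bool} (hu : u.1 ≤ n) (hw : w.1 ≤ n) (h : cd n u = cd n w) : u = w := by
  obtain ⟨u, a⟩ := u
  obtain ⟨w, b⟩ := w
  simp only at hu hw
  unfold cd at h
  cases a <;> cases b <;> simp only [cond_true, cond_false] at h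
  · rw [h]
  · omega
  · omega
  · have : u = w := by omega
    rw [this]

theorem mem_unk {n : ℕ} {F : Fct St} {u : ℕ × Bool} : u ∈ unk n F ↔ u.1 ≤ n ∧ kno F (cd n u) = false := by
  obtain ⟨u, b⟩ := u
  simp only [unk, List.mem_append, List.mem_map, Prod.mk.injEq]
  cases b with
  | true =>
    simp only [cd, cond_true, and_false, Bool.false_eq_true, exists_false, and_true, exists_eq_right, false_or,
      uPl, List.mem_filter, List.mem_range, Bool.not_eq_true']
    rw [Nat.lt_succ_iff]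
  | false =>
    simp only [cd, cond_false, and_true, exists_eq_right, Bool.true_eq_false, and_false, exists_false, or_false,
      uMi, List.mem_filter, List.mem_range, Bool.not_eq_true']
    rw [Nat.lt_succ_iff]

theorem nodup_unk (n : ℕ) (F : Fct St) : (unk n F).Nodup := by
  unfold unk
  rw [List.nodup_append']
  refine ⟨?_, ?_, ?_⟩
  · refine List.Nodup.map ?_ (List.nodup_range.filter _)
    intro a b h
    simpa using h
  · refine List.Nodup.map ?_ (List.nodup_range.filter _)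
    intro a b h
    simpa using h
  · rw [List.disjoint_left]
    intro u h h'
    obtain ⟨a, _, rfl⟩ := List.mem_map.1 h
    obtain ⟨b, _, h⟩ := List.mem_map.1 h'
    simp at h

theorem tkP_eq (n : ℕ) (F : Fct St) : tkP n F = (unk n F).map (Rd.tkP (n + 1)) := by
  unfold tkP unk
  rw [List.map_append, List.map_map, List.map_map]
  rfl

theorem tkS_eq (n : ℕ) (F : Fct St) (s : ℕ) :
    tkS n F s = (unk n F).map fun u => bif decide (cd n u = s) then Rd.us (n + 1) u else Rd.un u := by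
  unfold tkS unk
  rw [List.map_append, List.map_map, List.map_map]
  rfl

theorem cd_lt {n : ℕ} {u : ℕ × Bool} (h : u.1 ≤ n) : cd n u < 2 * (n + 1) := by
  obtain ⟨u, b⟩ := u
  simp only at h
  unfold cd
  cases b <;> simp <;> omega

/-- every port has a code -/
theorem cd_surj {n s : ℕ} (h : s < 2 * (n + 1)) : ∃ u : ℕ × Bool, u.1 ≤ n ∧ cd n u = s := by
  by_cases hs : s ≤ n
  · exact ⟨(s, false), hs, rfl⟩
  · refine ⟨(s - (n + 1), true), by simp only; omega, ?_⟩
    unfold cd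
    simp only [cond_true]
    omega

theorem tkS_none (n : ℕ) (F : Fct St) : tkS n F (2 * (n + 1)) = (unk n F).map Rd.un := by
  rw [tkS_eq]
  refine List.map_congr_left ?_
  intro u hu
  have h1 := cd_lt (mem_unk.1 hu).1
  rw [decide_eq_false (by omega), cond_false]

theorem tot_tok {n : ℕ} {F : Fct St} {w : ℕ × Bool} (hw : w ∈ unk n F) :
    totS (tkS n F (cd n w)) = Rd.base (unk n F) + ev (n + 1) - Rd.pv w := by
  rw [tkS_eq, ← Rd.tot_one (nodup_unk n F) hw]
  congr 1
  refine List.map_congr_left ?_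
  intro u hu
  by_cases h : u = w
  · subst h
    rw [decide_eq_true rfl, decide_eq_true rfl]
  · rw [decide_eq_false fun h' => h (cd_inj (mem_unk.1 hu).1 (mem_unk.1 hw).1 h'),
      decide_eq_false fun h' => h (Rd.code_inj h')]

/-- the target as a vector -/
def T (n : ℕ) : ℕ → ℤ := fun v => (tgt n 1 v : ℤ)

theorem T_zero {n v : ℕ} (h : n < v) : T n v = 0 := by
  unfold T tgt
  rw [if_neg (by omega), if_neg (by omega)]
  rfl

theorem at_iff {n : ℕ} {s : St} {u : ℕ × Bool} (hu : u.1 ≤ n) (hs : ∀ v, n < v → totS s v = 0) :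
    AtP n s (cd n u) ↔ totS s = T n + Rd.pv u := by
  have key : ∀ v, v < n + 1 → ((ttl s v + (if cd n u = v then 1 else 0) =
      tgt n 1 v + (if cd n u = n + 1 + v then 1 else 0)) ↔ totS s v = T n v + Rd.pv u v) := by
    intro v hv
    rw [totS_apply, ttl_cT]
    unfold T Rd.pv cd
    obtain ⟨u, b⟩ := u
    simp only at hu
    cases b with
    | true =>
      simp only [cond_true]
      rw [if_neg (by omega), TFC.ev_apply]
      by_cases h : v = u
      · subst h
        rw [if_pos rfl, if_pos rfl]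
        omega
      · rw [if_neg (by omega), if_neg h]
        omega
    | false =>
      simp only [cond_false, Pi.neg_apply]
      rw [if_neg (by omega : ¬ u = n + 1 + v), TFC.ev_apply]
      by_cases h : v = u
      · subst h
        rw [if_pos rfl, if_pos rfl]
        omega
      · rw [if_neg (Ne.symm h), if_neg h]
        omega
  constructor
  · intro h
    funext v
    by_cases hv : v < n + 1
    · exact (key v hv).1 (h v hv)
    · rw [hs v (by omega), Pi.add_apply, T_zero (by omega), Rd.pv_zero hu (by omega)]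
      rfl
  · intro h v hv
    exact (key v hv).2 (congrFun h v)

theorem tgL_at {n v : ℕ} (hv : v < n + 1) : (tgL n).getD v 0 = tgt n 1 v := by
  have h : (tgL n).getD v 0 = if v < n then 2 else 2 * n - 1 := by
    rw [tgL, List.getD_eq_getElem?_getD, List.getElem?_map, List.getElem?_range hv]
    rfl
  rw [h, tgt]
  by_cases h1 : v < n
  · rw [if_pos h1, if_pos h1]
  · have h2 : v = n := by omega
    rw [if_neg h1, if_neg h1, if_pos h2]

theorem tst_iff {n s : ℕ} {ks : St} : tstS n (s, ks) = true ↔ AtP n ks s := by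
  unfold tstS AtP
  rw [List.all_eq_true]
  constructor
  · intro h v hv
    have h1 := h v (List.mem_range.2 hv)
    rw [decide_eq_true_eq, tgL_at hv, ttl_cT] at h1
    exact h1
  · intro h v hv
    rw [List.mem_range] at hv
    rw [decide_eq_true_eq, tgL_at hv, ttl_cT]
    exact h v hv

/-- the choice depends on the vertices of the cluster only -/
theorem psi_congr {P Q : ℕ → Bool} {c : Cl} (h : ∀ v ∈ clV c, P v = Q v) : psi P c = psi Q c := by
  unfold psi
  unfold clV at h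
  cases hc : c.1 with
  | true =>
    rw [hc, cond_true] at h
    have h1 := h c.2.1 (by simp)
    have h2 := h c.2.2.1 (by simp)
    have h3 : c.2.2.2.filter P = c.2.2.2.filter Q :=
      List.filter_congr fun v hv => h v (List.mem_cons_of_mem _ (List.mem_cons_of_mem _ hv))
    rw [cond_true, cond_true, h1, h2, h3]
  | false =>
    rw [hc, cond_false] at h
    have h3 : c.2.2.2.all P = c.2.2.2.all Q := by
      rw [Bool.eq_iff_iff, List.all_eq_true, List.all_eq_true]
      constructor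
      · intro g v hv
        rw [← h v hv]
        exact g v hv
      · intro g v hv
        rw [h v hv]
        exact g v hv
    rw [cond_false, cond_false, h3]

/-! ### legality -/

section
variable {y : SV.SI} {F : Fct St}

theorem clB_n (hy : WfS y) {c : Cl} (hc : c ∈ y.2.2.2) : ClB y.1.1 c := by
  have h := clV_lt hy hc
  exact ⟨fun v hv => (h.1 v hv).le, fun hb => ⟨(h.2 hb).1.le, (h.2 hb).2.le⟩⟩

theorem ok_Ot (hy : WfS y) : ∀ p ∈ Ot y, PcOK pmem y.1.1 p := by
  intro p hp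
  rcases List.mem_append.1 hp with hp | hp
  · obtain ⟨e, he, rfl⟩ := List.mem_map.1 hp
    have h1 : fe e ∈ fs (plE y.1 y.2.2.2) := fe_mem_fs he
    rw [plE, fs_rest, Finset.mem_sdiff] at h1
    have h2 := hy.x.vlt h1.1 (v := e.1) (by rw [fe]; exact Sym2.mem_mk_left _ _)
    have h3 := hy.x.vlt h1.1 (v := e.2) (by rw [fe]; exact Sym2.mem_mk_right _ _)
    exact pcok_edge (by omega) (by omega)
  · rcases List.mem_append.1 hp with hp | hp
    · obtain ⟨q, hq, rfl⟩ := List.mem_map.1 hp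
      have := (mem_slJ.1 hq).1
      exact pcok_pair (by omega) (by omega)
    · obtain ⟨q, hq, rfl⟩ := List.mem_map.1 hp
      exact pcok_pair (by omega) (by omega)

theorem ok_gx (hy : WfS y) {j : ℕ} (hj : j < y.2.2.2.length) : PcOK pmem y.1.1 (gx y j) :=
  pcok_exP (clB_n hy (Rd.getD_memCl hj)) (hy.c.ok _ (Rd.getD_memCl hj))

theorem ok_gr (hy : WfS y) {j : ℕ} (hj : j < y.2.2.2.length) : PcOK pmem y.1.1 (gr y F j) :=
  pcok_rxP (clB_n hy (Rd.getD_memCl hj)) (hy.c.ok _ (Rd.getD_memCl hj))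
    (psi_ok _ (hy.c.ok _ (Rd.getD_memCl hj)))
    (Gd.rx_jump (hy.c.ok _ (Rd.getD_memCl hj)) (psi_ok _ (hy.c.ok _ (Rd.getD_memCl hj))))

theorem ok_real (hy : WfS y) (ks : St) (q : ℕ) :
    ∀ p ∈ (List.range y.2.2.2.length).map (gw y F ks q) ++ Ot y, PcOK pmem y.1.1 p := by
  intro p hp
  rw [List.mem_append, List.mem_map] at hp
  rcases hp with ⟨j, hj, rfl⟩ | hp
  · unfold gw
    cases !decide (j = q) && nx y.2.2.2 ks j with
    | true => exact ok_gr hy (List.mem_range.1 hj)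
    | false => exact ok_gx hy (List.mem_range.1 hj)
  · exact ok_Ot hy p hp

theorem ok_world (hy : WfS y) (ks : St) :
    ∀ i < (wPc y F ks).length, PcOK pmem (y.1.1 + 1) ((wPc y F ks).getD i dP) := by
  intro i hi
  rw [List.getD_eq_getElem _ _ hi]
  have hp := List.getElem_mem hi
  generalize (wPc y F ks)[i] = p at hp
  rw [wPc_eq, tkP_eq] at hp
  rcases List.mem_append.1 hp with hp | hp
  · exact Rd.PcOK.mono (ok_real hy ks _ p hp) (Nat.le_succ _)
  · obtain ⟨u, hu, rfl⟩ := List.mem_map.1 hp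
    exact Rd.pcok_tkP (mem_unk.1 hu).1

theorem gx_of_nx {ks : St} {j : ℕ} (h : nx y.2.2.2 ks j = false) : pmem (gx y j) (ks.getD j []) = true := by
  unfold nx at h
  rw [Bool.not_eq_false'] at h
  exact h

theorem nx_of_gx {ks : St} {j : ℕ} (h : pmem (gx y j) (ks.getD j []) = true) : nx y.2.2.2 ks j = false := by
  unfold nx
  rw [Bool.not_eq_false']
  exact h

theorem leg_set {ks : St} {q : ℕ} (h : Leg pmem dP (rlP y F) ks) (hq : q < y.2.2.2.length) {m : List ℕ}
    (hm : pmem (gx y q) m = true) :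
    Leg pmem dP ((List.range y.2.2.2.length).map (gw y F ks q) ++ Ot y) (setL ks q m) := by
  rw [rlP_eq] at h
  obtain ⟨h1, h2, h3⟩ := leg_iff.1 h
  refine leg_iff.2 ⟨by rw [setL_length]; exact h1, ?_, ?_⟩
  · intro i hi
    rw [setL_getD _ _ _ (by omega)]
    unfold gw
    by_cases hiq : i = q
    · subst hiq
      rw [if_pos rfl, decide_eq_true rfl, Bool.not_true, Bool.false_and, cond_false]
      exact hm
    · rw [if_neg hiq, decide_eq_false hiq, Bool.not_false, Bool.true_and]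
      cases he : nx y.2.2.2 ks i with
      | true => exact h2 i hi
      | false => exact gx_of_nx he
  · intro j hj
    rw [setL_getD _ _ _ (by omega), if_neg (by omega)]
    exact h3 j hj

theorem leg_ex {ks ks' : St} {q : ℕ} (h : Leg pmem dP (xcP y) ks) :
    Leg pmem dP ((List.range y.2.2.2.length).map (gw y F ks' q) ++ Ot y) ks := by
  rw [xcP_eq] at h
  obtain ⟨h1, h2, h3⟩ := leg_iff.1 h
  refine leg_iff.2 ⟨h1, ?_, h3⟩
  intro i hi
  have h4 := h2 i hi
  unfold gw
  cases !decide (i = q) && nx y.2.2.2 ks' i with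
  | true => exact Rd.pmem_exP_rxP h4
  | false => exact h4

theorem leg_back {ks a : St} {q : ℕ}
    (h : Leg pmem dP ((List.range y.2.2.2.length).map (gw y F ks q) ++ Ot y) a) : Leg pmem dP (rlP y F) a := by
  rw [rlP_eq]
  obtain ⟨h1, h2, h3⟩ := leg_iff.1 h
  refine leg_iff.2 ⟨h1, ?_, h3⟩
  intro i hi
  have h4 := h2 i hi
  unfold gw at h4
  cases he : !decide (i = q) && nx y.2.2.2 ks i with
  | true => rw [he] at h4; exact h4
  | false => rw [he] at h4; exact Rd.pmem_exP_rxP h4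

theorem mu_lt {ks a : St} {q : ℕ} (hq : q < y.2.2.2.length) (hq' : nx y.2.2.2 ks q = true)
    (h : Leg pmem dP ((List.range y.2.2.2.length).map (gw y F ks q) ++ Ot y) a) :
    muS y.2.2.2 a < muS y.2.2.2 ks := by
  obtain ⟨h1, h2, h3⟩ := leg_iff.1 h
  refine Rd.length_filter_lt ?_ (List.mem_range.2 hq) hq' ?_
  · intro i hi hi'
    have h4 := h2 i (List.mem_range.1 hi)
    unfold gw at h4
    cases he : nx y.2.2.2 ks i with
    | true => rfl
    | false =>
      rw [he, Bool.and_false, cond_false] at h4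
      rw [nx_of_gx h4] at hi'
      cases hi'
  · have h4 := h2 q hq
    unfold gw at h4
    rw [decide_eq_true rfl, Bool.not_true, Bool.false_and, cond_false] at h4
    exact nx_of_gx h4

/-- the states at the start of the pool are legal -/
theorem st_leg (hy : WfS y) (hF : ∀ p ∈ F, FactS y p.1 p.2) {r : ℕ × St} (hr : GoodS y F r)
    (hq : fstV y.2.2.2 r.2 < y.2.2.2.length) : ∀ s ∈ stS y F r, Leg pmem dP (wPc y F r.2) s := by
  intro s hs
  rw [wPc_eq, tkP_eq]
  unfold stS at hs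
  have hT : ∀ t, Leg pmem dP ((unk y.1.1 F).map (Rd.tkP (y.1.1 + 1))) (tkS y.1.1 F t) := by
    intro t
    rw [tkS_eq]
    refine Rd.leg_map ?_
    intro u _
    cases decide (cd y.1.1 u = t) with
    | true => exact Rd.pmem_us _ _
    | false => exact Rd.pmem_un _ _
  rcases List.mem_append.1 hs with hs | hs
  · obtain ⟨m, hm, rfl⟩ := List.mem_map.1 hs
    refine Rd.leg_append (leg_set (fa_iff.1 hr.mem) hq ?_) (hT _)
    exact pmem_complete (card4_exP (hy.c.ok _ (Rd.getD_memCl hq))) (mvs_sound hm)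
  · obtain ⟨f, hf, rfl⟩ := List.mem_map.1 hs
    exact Rd.leg_append (leg_ex (fa_iff.1 (hF f hf).mem)) (hT _)

/-- **the pool contains a state at an unknown port** -/
theorem pool_good (hy : WfS y) (hF : ∀ p ∈ F, FactS y p.1 p.2) (hne : F ≠ []) {r : ℕ × St} (hr : GoodS y F r)
    (hq : fstV y.2.2.2 r.2 < y.2.2.2.length) (hq' : nx y.2.2.2 r.2 (fstV y.2.2.2 r.2) = true) :
    ∃ a b, a ++ b ∈ poS y F r ∧ a.length = r.2.length ∧ ∃ u ∈ unk y.1.1 F, totS a = T y.1.1 + Rd.pv u := by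
  have hW := ok_world hy (F := F) r.2
  have hS := st_leg hy hF hr hq
  have hrleg := fa_iff.1 hr.mem
  have hrlen : r.2.length = y.2.2.2.length + (Ot y).length := by
    have := hrleg
    rw [rlP_eq] at this
    exact (leg_iff.1 this).1
  obtain ⟨n, hn⟩ : ∃ n, n = y.1.1 := ⟨_, rfl⟩
  obtain ⟨u0, hu0, hcd0⟩ := cd_surj hr.lt
  rw [← hn] at hu0 hcd0
  obtain ⟨U, hU⟩ : ∃ U, U = unk n F := ⟨_, rfl⟩
  have hUn : ∀ u ∈ U, u.1 ≤ n := fun u hu => by rw [hU] at hu; exact (mem_unk.1 hu).1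
  have hu0U : u0 ∈ unk n F := mem_unk.2 ⟨hu0, by rw [hcd0]; exact hr.unk⟩
  obtain ⟨q, hqe⟩ : ∃ q, q = fstV y.2.2.2 r.2 := ⟨_, rfl⟩
  rw [← hqe] at hq hq'
  have hqC := Rd.getD_memCl hq
  obtain ⟨c, hc⟩ : ∃ c, c = y.2.2.2.getD q dC := ⟨_, rfl⟩
  have hcC : c ∈ y.2.2.2 := by rw [hc]; exact hqC
  have hcok := hy.c.ok c hcC
  have hcb := clB_n hy hcC
  -- the totals of the real parts
  have z_real : ∀ a, Leg pmem dP ((List.range y.2.2.2.length).map (gw y F r.2 q) ++ Ot y) a →
      ∀ v, n < v → totS a v = 0 := fun a ha v hv => Rd.totS_zero ha (ok_real hy r.2 q) (by rw [← hn]; exact hv)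
  have z_rl : ∀ a, Leg pmem dP (rlP y F) a → ∀ v, n < v → totS a v = 0 := by
    intro a ha v hv
    rw [rlP_eq] at ha
    refine Rd.totS_zero (m := y.1.1) ha ?_ (by rw [← hn]; exact hv)
    intro p hp
    rw [List.mem_append, List.mem_map] at hp
    rcases hp with ⟨j, hj, rfl⟩ | hp
    · exact ok_gr hy (List.mem_range.1 hj)
    · exact ok_Ot hy p hp
  have z_xc : ∀ a, Leg pmem dP (xcP y) a → ∀ v, n < v → totS a v = 0 := fun a ha v hv =>
    z_real a (leg_ex ha) v hv
  have htot : totS r.2 = T n + Rd.pv u0 := by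
    refine (at_iff hu0 (z_rl _ hrleg)).1 ?_
    rw [hcd0, hn]
    exact hr.at_
  obtain ⟨o, ho⟩ : ∃ o, o = T n + Rd.base U + ev (n + 1) := ⟨_, rfl⟩
  -- the additional vector
  have hkq : pmem (rxP c (psi (plu n F) c)) (r.2.getD q []) = true := by
    have := hrleg
    rw [rlP_eq] at this
    have h2 := (leg_iff.1 this).2.1 q hq
    unfold gr at h2
    rw [← hc, ← hn] at h2
    exact h2
  have hkq' : pmem (exP c) (r.2.getD q []) = false := by
    unfold nx at hq'
    rw [Bool.not_eq_true'] at hq'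
    rw [hc]
    exact hq'
  obtain ⟨d, hd, hdk⟩ := pmem_digs hcok hkq hkq'
  have hfd := findD_spec (fun d => eqK (r.2.getD q []) d) (digs c (psi (plu n F) c)) [] ⟨d, hd, (eqK_iff _ _).2 hdk⟩
  have hdv : dgV y F r.2 = findD (fun d => eqK (r.2.getD q []) d) (digs c (psi (plu n F) c)) [] := by
    unfold dgV
    rw [← hqe, ← hc, ← hn]
  rw [← hdv] at hfd
  have hdk : kvec (r.2.getD q []) = kvec (dgV y F r.2) := (eqK_iff _ _).1 hfd.2
  -- the graded family
  obtain ⟨H, hH⟩ : ∃ H : ℕ → (ℕ → ℤ) → Prop, H = fun k z =>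
    ∃ s ∈ poolS pmem dP (wPc y F r.2) (y.1.1 + 1) (List.range (y.1.1 + 2)) (stS y F r) k, totS s = z := ⟨_, rfl⟩
  have gr' : Gr (fun v => v ∈ List.range (n + 2)) H := by
    rw [hH, hn]
    refine ⟨?_, ?_⟩
    · rintro k z ⟨s, hs, rfl⟩
      exact ⟨s, poolS_mono (Nat.le_succ k) s hs, rfl⟩
    · rintro k z w i ε hi ⟨s, hs, rfl⟩ ⟨s', hs', rfl⟩ hε hpos
      obtain ⟨s'', h4, h5⟩ := poolS_jump hW hS hs hs' hi hε hpos
      exact ⟨totS s'', ⟨s'', h4, rfl⟩, h5⟩
  have hfact : ∀ f ∈ F, ∃ u : ℕ × Bool, u.1 ≤ n ∧ f.1 = cd n u ∧ H 0 (o - ev (n + 1) + Rd.pv u) := by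
    intro f hf
    have hff := hF f hf
    obtain ⟨u, g1, g2⟩ := cd_surj (n := n) (s := f.1) (by rw [hn]; have := hff.lt; omega)
    refine ⟨u, g1, g2.symm, ?_⟩
    rw [hH]
    refine ⟨f.2 ++ tkS y.1.1 F (2 * (y.1.1 + 1)), ?_, ?_⟩
    · show _ ∈ stS y F r
      exact List.mem_append_right _ (List.mem_map.2 ⟨f, hf, rfl⟩)
    · have hfl := fa_iff.1 hff.mem
      have e1 : totS f.2 = T n + Rd.pv u := by
        refine (at_iff g1 (z_xc _ hfl)).1 ?_
        rw [g2, hn]
        exact hff.at_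
      rw [Rd.totS_append, tkS_none, e1, ho, ← hn, ← hU]
      show T n + Rd.pv u + Rd.base U = _
      abel
  have FA : Facts (fun v => v ∈ List.range (n + 2)) H o (n + 1) 0 (fun v => v ≤ n ∧ kno F v = true)
      (fun v => v ≤ n ∧ kno F (n + 1 + v) = true) := by
    have kk : ∀ s, kno F s = true → ∃ f ∈ F, f.1 = s := by
      intro s hs
      simpa [kno, List.any_eq_true] using hs
    refine ⟨gr', List.mem_range.2 (by omega), ?_, ?_, ?_⟩
    · rintro v ⟨hv, hk⟩
      obtain ⟨f, hf, hfv⟩ := kk v hk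
      obtain ⟨u, g1, g2, g3⟩ := hfact f hf
      have e : u = (v, false) := cd_inj g1 hv (by rw [← g2, hfv]; rfl)
      subst e
      refine ⟨by omega, List.mem_range.2 (by omega), ?_⟩
      have e1 : o - ev (n + 1) + Rd.pv (v, false) = o - ev (n + 1) - ev v := by
        simp only [Rd.pv, cond_false]
        abel
      rwa [e1] at g3
    · rintro v ⟨hv, hk⟩
      obtain ⟨f, hf, hfv⟩ := kk _ hk
      obtain ⟨u, g1, g2, g3⟩ := hfact f hf
      have e : u = (v, true) := cd_inj g1 hv (by rw [← g2, hfv]; rfl)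
      subst e
      exact ⟨by omega, List.mem_range.2 (by omega), g3⟩
    · obtain ⟨f, hf⟩ := List.exists_mem_of_ne_nil F hne
      obtain ⟨⟨v, b⟩, g1, g2, _⟩ := hfact f hf
      have kf : kno F f.1 = true := by
        simp only [kno, List.any_eq_true, decide_eq_true_eq]
        exact ⟨f, hf, rfl⟩
      cases b with
      | true => exact Or.inr ⟨v, g1, by rw [g2] at kf; exact kf⟩
      | false => exact Or.inl ⟨v, g1, by rw [g2] at kf; exact kf⟩
  -- the rule for the vertices of the cluster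
  have hkn : ∀ v, plu n F v = true ↔ kno F v = true ∧ ¬ kno F (n + 1 + v) = true := by
    intro v
    simp [plu]
  have hVn : ∀ v ∈ clV c, v ≤ n := by
    intro v hv
    rw [hn]
    unfold clV at hv
    cases hc1 : c.1 with
    | true =>
      rw [hc1, cond_true, List.mem_cons, List.mem_cons] at hv
      obtain ⟨b1, b2⟩ := hcb.2 hc1
      rcases hv with rfl | rfl | hv
      · exact b1
      · exact b2
      · exact hcb.1 v hv
    | false =>
      rw [hc1, cond_false] at hv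
      exact hcb.1 v hv
  have hpsi : psi (plu n F) c = psi (fun v => decide (v ≤ n) && plu n F v) c := psi_congr fun v hv => by
    rw [decide_eq_true (hVn v hv), Bool.true_and]
  have hP : ∀ v, (decide (v ≤ n) && plu n F v) = true ↔ (v ≤ n ∧ kno F v = true) ∧ ¬ (v ≤ n ∧ kno F (n + 1 + v) = true) := by
    intro v
    rw [Bool.and_eq_true, decide_eq_true_eq, hkn]
    tauto
  have hI : ∀ v ∈ clV c, v ∈ List.range (n + 2) ∧ v ≠ n + 1 := by
    intro v hv
    have := hVn v hv
    exact ⟨List.mem_range.2 (by omega), by omega⟩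
  have hqs : q < r.2.length := by omega
  have hk : ∀ m ∈ mvs c (dgV y F r.2), H 0 (o - kvec (dgV y F r.2) + kvec m) := by
    intro m hm
    rw [hH]
    refine ⟨setL r.2 (fstV y.2.2.2 r.2) m ++ tkS y.1.1 F r.1, ?_, ?_⟩
    · show _ ∈ stS y F r
      refine List.mem_append_left _ (List.mem_map.2 ⟨m, ?_, rfl⟩)
      rw [← hqe, ← hc]
      exact hm
    · rw [Rd.totS_append, ← hqe, Rd.totS_set hqs, ← hn, ← hcd0, tot_tok hu0U, htot, hdk, ho, ← hU]
      abel
  have hd' := hfd.1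
  rw [hpsi] at hd'
  obtain ⟨z, hz, hz3⟩ := psi_lemD FA hP hcok hI hd' hk
  rw [hH] at hz3
  obtain ⟨s, hs, hsz⟩ := hz3
  have hleg' := poolS_leg hW hS _ s hs
  rw [wPc_eq, tkP_eq, ← hqe, ← hn, ← hU] at hleg'
  obtain ⟨a, b, rfl, ha, hb⟩ := Rd.leg_split hleg'
  have hlen : a.length = r.2.length := by rw [ha.len, hrlen]; simp
  have ha0 := z_real a ha
  refine ⟨a, b, hs, hlen, ?_⟩
  rw [← hn, ← hU]
  rw [Rd.totS_append] at hsz
  have t0 := ha0 (n + 1) (by omega)
  have t1 : (ev (n + 1) : ℕ → ℤ) (n + 1) = 1 := by rw [TFC.ev_apply, if_pos rfl]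
  have t2 : T n (n + 1) = 0 := T_zero (by omega)
  have t3 := Rd.base_top hUn
  have t4 : o (n + 1) = 1 := by
    rw [ho, Pi.add_apply, Pi.add_apply, t1, t2, t3]
    rfl
  have tb := congrFun hsz (n + 1)
  rw [Pi.add_apply, t0, zero_add] at tb
  have unkI : ∀ w : ℕ × Bool, w.1 ≤ n → kno F (cd n w) = false → w ∈ U := fun w h1 h2 => by
    rw [hU]
    exact mem_unk.2 ⟨h1, h2⟩
  rcases hz with rfl | ⟨v, hv, hvF, rfl⟩ | ⟨v, hv, hvF, rfl⟩
  · rw [t4] at tb
    rcases Rd.tok_cases hUn hb with h4 | ⟨u, hu, h4⟩ | h4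
    · rw [h4, t3] at tb
      omega
    · refine ⟨u, hu, ?_⟩
      rw [h4, ho] at hsz
      have e : totS a = totS a + (Rd.base U + ev (n + 1) - Rd.pv u) - (Rd.base U + ev (n + 1) - Rd.pv u) := by abel
      rw [e, hsz]
      abel
    · omega
  · have e1 : (ev v : ℕ → ℤ) (n + 1) = 0 := by rw [TFC.ev_apply, if_neg (Ne.symm hv)]
    rw [Pi.sub_apply, Pi.sub_apply, t4, t1, e1] at tb
    rcases Rd.tok_cases hUn hb with h4 | ⟨u, hu, h4⟩ | h4
    · have e : totS a = T n + Rd.pv (v, false) := by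
        have e2 : totS a = totS a + Rd.base U - Rd.base U := by abel
        rw [e2, ← h4, hsz, ho, h4]
        simp only [Rd.pv, cond_false]
        abel
      have hvn : v ≤ n := by
        by_contra hh
        have e3 := congrFun e v
        have e4 := vec_nonneg a.flatten v
        rw [Pi.add_apply, T_zero (by omega)] at e3
        simp only [Rd.pv, cond_false, Pi.neg_apply] at e3
        rw [TFC.ev_apply, if_pos rfl] at e3
        unfold totS at e3
        omega
      refine ⟨(v, false), unkI _ hvn ?_, e⟩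
      rw [← Bool.not_eq_true]
      exact fun h => hvF ⟨hvn, h⟩
    · rw [h4, Pi.sub_apply, Pi.add_apply, t3, t1, Rd.pv_top (hUn u hu)] at tb
      omega
    · omega
  · have e1 : (ev v : ℕ → ℤ) (n + 1) = 0 := by rw [TFC.ev_apply, if_neg (Ne.symm hv)]
    rw [Pi.add_apply, Pi.sub_apply, t4, t1, e1] at tb
    rcases Rd.tok_cases hUn hb with h4 | ⟨u, hu, h4⟩ | h4
    · have e : totS a = T n + Rd.pv (v, true) := by
        have e2 : totS a = totS a + Rd.base U - Rd.base U := by abel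
        rw [e2, ← h4, hsz, ho, h4]
        simp only [Rd.pv, cond_true]
        abel
      have hvn : v ≤ n := by
        by_contra hh
        have e3 := congrFun e v
        rw [Pi.add_apply, T_zero (by omega), ha0 v (by omega)] at e3
        simp only [Rd.pv, cond_true] at e3
        rw [TFC.ev_apply, if_pos rfl] at e3
        omega
      refine ⟨(v, true), unkI _ hvn ?_, e⟩
      rw [← Bool.not_eq_true]
      exact fun h => hvF ⟨hvn, h⟩
    · rw [h4, Pi.sub_apply, Pi.add_apply, t3, t1, Rd.pv_top (hUn u hu)] at tb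
      omega
    · omega

theorem real_append {a b : St} : realS a.length (a ++ b) = a := Rd.tk_append

theorem mem_uPo {n s : ℕ} : s ∈ uPo n F ↔ ∃ u ∈ unk n F, cd n u = s := by
  simp only [uPo, List.mem_append, List.mem_map, unk]
  constructor
  · rintro (h | ⟨v, hv, rfl⟩)
    · exact ⟨(s, false), Or.inl ⟨s, h, rfl⟩, rfl⟩
    · exact ⟨(v, true), Or.inr ⟨v, hv, rfl⟩, rfl⟩
  · rintro ⟨u, ⟨v, hv, rfl⟩ | ⟨v, hv, rfl⟩, h⟩
    · left
      rw [← h]
      exact hv
    · right
      exact ⟨v, hv, h⟩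

/-- **specification of the reduction step** -/
theorem red_spec (hy : WfS y) (hF : ∀ p ∈ F, FactS y p.1 p.2) (hne : F ≠ []) {r : ℕ × St} (hr : GoodS y F r)
    (hm : 0 < muS y.2.2.2 r.2) :
    GoodS y F (redS (y, F, r)) ∧ muS y.2.2.2 (redS (y, F, r)).2 < muS y.2.2.2 r.2 := by
  obtain ⟨q, hqe⟩ : ∃ q, q = fstV y.2.2.2 r.2 := ⟨_, rfl⟩
  have hqm : q ∈ (List.range y.2.2.2.length).filter fun j => nx y.2.2.2 r.2 j := by
    unfold muS at hm
    rw [hqe]
    unfold fstV
    cases hl : (List.range y.2.2.2.length).filter fun j => nx y.2.2.2 r.2 j with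
    | nil => rw [hl] at hm; simp at hm
    | cons b t => simp
  obtain ⟨hq, hq'⟩ := List.mem_filter.1 hqm
  rw [List.mem_range] at hq
  rw [hqe] at hq hq'
  obtain ⟨a, b, hab, hlen, u, hu, htot⟩ := pool_good hy hF hne hr hq hq'
  have hW := ok_world hy (F := F) r.2
  have hS := st_leg hy hF hr hq
  have hrlen : r.2.length = y.2.2.2.length + (Ot y).length := by
    have := fa_iff.1 hr.mem
    rw [rlP_eq] at this
    exact (leg_iff.1 this).1
  have real : ∀ s ∈ poS y F r, Leg pmem dP ((List.range y.2.2.2.length).map (gw y F r.2 (fstV y.2.2.2 r.2)) ++ Ot y)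
      (realS r.2.length s) := by
    intro s hs
    have hleg' := poolS_leg hW hS _ s hs
    rw [wPc_eq] at hleg'
    obtain ⟨a, b, rfl, ha, hb⟩ := Rd.leg_split hleg'
    have h1 : r.2.length = a.length := by rw [ha.len, hrlen]; simp
    rw [h1, real_append]
    exact ha
  have zero : ∀ s ∈ poS y F r, ∀ v, y.1.1 < v → totS (realS r.2.length s) v = 0 := fun s hs v hv =>
    Rd.totS_zero (real s hs) (ok_real hy r.2 _) hv
  have h1 : ∃ c ∈ (poS y F r).flatMap fun z => (uPo y.1.1 F).map fun s => (s, realS r.2.length z),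
      tstS y.1.1 c = true := by
    refine ⟨(cd y.1.1 u, realS r.2.length (a ++ b)), ?_, ?_⟩
    · rw [List.mem_flatMap]
      exact ⟨a ++ b, hab, List.mem_map.2 ⟨cd y.1.1 u, mem_uPo.2 ⟨u, hu, rfl⟩, rfl⟩⟩
    · rw [tst_iff, at_iff (mem_unk.1 hu).1 (zero _ hab), ← hlen, real_append]
      exact htot
  obtain ⟨h2, h3⟩ := findD_spec _ _ ((0, []) : ℕ × St) h1
  have hred : findD (tstS y.1.1) ((poS y F r).flatMap fun z => (uPo y.1.1 F).map fun s => (s, realS r.2.length z))
      (0, []) = redS (y, F, r) := rfl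
  rw [hred] at h2 h3
  generalize redS (y, F, r) = c at h2 h3
  obtain ⟨z, hz, hc⟩ := List.mem_flatMap.1 h2
  obtain ⟨s, hs, rfl⟩ := List.mem_map.1 hc
  obtain ⟨w, hw, rfl⟩ := mem_uPo.1 hs
  obtain ⟨hw1, hw2⟩ := mem_unk.1 hw
  refine ⟨⟨cd_lt hw1, hw2, fa_iff.2 (leg_back (real z hz)), tst_iff.1 h3⟩, ?_⟩
  exact mu_lt hq hq' (real z hz)

end

/-! ### polynomial time -/

section pt
variable {ι : Type} [DEnc ι]

theorem pt_kn {F : ι → Fct St} {s : ι → ℕ} (hF : PT F) (hs : PT s) : PT (fun x => kno (F x) (s x)) :=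
  PT.any hF (p := fun y : ι × (ℕ × St) => decide (y.2.1 = s y.1)) (PT.neq PT.snd.p1 (hs.comp PT.fst))

theorem pt_mi {n : ι → ℕ} {F : ι → Fct St} (hn : PT n) (hF : PT F) : PT (fun x => uMi (n x) (F x)) :=
  PT.filter (PT.range (PT.nsucc hn)) (p := fun y : ι × ℕ => !kno (F y.1) y.2)
    (PT.bnot (pt_kn (hF.comp PT.fst) PT.snd))

theorem pt_pl {n : ι → ℕ} {F : ι → Fct St} (hn : PT n) (hF : PT F) : PT (fun x => uPl (n x) (F x)) :=
  PT.filter (PT.range (PT.nsucc hn)) (p := fun y : ι × ℕ => !kno (F y.1) (n y.1 + 1 + y.2))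
    (PT.bnot (pt_kn (hF.comp PT.fst) (PT.nadd (PT.nsucc (hn.comp PT.fst)) PT.snd)))

theorem pt_plv {n v : ι → ℕ} {F : ι → Fct St} (hn : PT n) (hF : PT F) (hv : PT v) :
    PT (fun x => plu (n x) (F x) (v x)) :=
  PT.band (pt_kn hF hv) (PT.bnot (pt_kn hF (PT.nadd (PT.nsucc hn) hv)))

theorem pt_tgt {n : ι → ℕ} (hn : PT n) : PT (fun x => tgL (n x)) := by
  have h : ∀ x : ι, tgL (n x) =
      (List.range (n x + 1)).map fun v => bif decide (v < n x) then 2 else 2 * n x - 1 := by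
    intro x
    unfold tgL
    refine List.map_congr_left fun v _ => ?_
    by_cases h1 : v < n x
    · simp [h1]
    · simp [h1]
  refine PT.congr (PT.map (PT.range (PT.nsucc hn))
    (g := fun y : ι × ℕ => bif decide (y.2 < n y.1) then 2 else 2 * n y.1 - 1)
    (PT.cond (PT.nlt PT.snd (hn.comp PT.fst)) (PT.const 2)
      (PT.nsub (PT.nmul (PT.const 2) (hn.comp PT.fst)) (PT.const 1)))) fun x => (h x).symm

theorem pt_psiv {c : ι → Cl} {n : ι → ℕ} {F : ι → Fct St} (hc : PT c) (hn : PT n) (hF : PT F) :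
    PT (fun x => psi (plu (n x) (F x)) (c x)) :=
  pt_psi (P := fun z : ι × ℕ => plu (n z.1) (F z.1) z.2) (pt_plv (hn.comp PT.fst) (hF.comp PT.fst) PT.snd) hc

theorem pt_fst {C : ι → List Cl} {ks : ι → St} (hC : PT C) (hk : PT ks) : PT (fun x => fstV (C x) (ks x)) :=
  PT.headD (PT.filter (PT.range (PT.length hC)) (p := fun y : ι × ℕ => nx (C y.1) (ks y.1) y.2)
    (pt_nx (hC.comp PT.fst) (hk.comp PT.fst) PT.snd)) (PT.const 0)

theorem pt_tkv {n : ι → ℕ} {F : ι → Fct St} (hn : PT n) (hF : PT F) : PT (fun x => tkP (n x) (F x)) := by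
  refine PT.append ?_ ?_
  · exact PT.map (pt_mi hn hF) (g := fun y : ι × ℕ => unP y.2 (n y.1 + 1))
      (pt_unP PT.snd (PT.nsucc (hn.comp PT.fst)))
  · refine PT.map (pt_pl hn hF) (g := fun y : ι × ℕ => ((false, [], [[y.2], [n y.1 + 1]]) : Pc)) ?_
    exact PT.pair (PT.const false) (PT.pair (PT.const []) (PT.cons (PT.cons PT.snd (PT.const []))
      (PT.cons (PT.cons (PT.nsucc (hn.comp PT.fst)) (PT.const [])) (PT.const []))))

theorem pt_tks {n s : ι → ℕ} {F : ι → Fct St} (hn : PT n) (hF : PT F) (hs : PT s) :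
    PT (fun x => tkS (n x) (F x) (s x)) := by
  refine PT.append ?_ ?_
  · exact PT.map (pt_mi hn hF) (g := fun y : ι × ℕ => bif decide (y.2 = s y.1) then [y.2, n y.1 + 1] else [])
      (PT.cond (PT.neq PT.snd (hs.comp PT.fst)) (PT.cons PT.snd (PT.cons (PT.nsucc (hn.comp PT.fst)) (PT.const [])))
        (PT.const []))
  · exact PT.map (pt_pl hn hF) (g := fun y : ι × ℕ =>
        bif decide (n y.1 + 1 + y.2 = s y.1) then [n y.1 + 1] else [y.2])
      (PT.cond (PT.neq (PT.nadd (PT.nsucc (hn.comp PT.fst)) PT.snd) (hs.comp PT.fst))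
        (PT.cons (PT.nsucc (hn.comp PT.fst)) (PT.const [])) (PT.cons PT.snd (PT.const [])))

section
variable {y : ι → SV.SI} {F : ι → Fct St} {ks : ι → St}

theorem pt_wcl (hy : PT y) (hF : PT F) (hk : PT ks) :
    PT (fun x => wcl (plu (y x).1.1 (F x)) (y x).2.2.2 (ks x) (fstV (y x).2.2.2 (ks x))) := by
  have hn : PT (fun x => (y x).1.1) := PT.p1 (PT.p1 hy)
  have hC : PT (fun x => (y x).2.2.2) := PT.p2 (PT.p2 (PT.p2 hy))
  have hf := pt_fst hC hk
  refine PT.map (PT.range (PT.length hC)) (g := fun z : ι × ℕ =>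
    bif !decide (z.2 = fstV (y z.1).2.2.2 (ks z.1)) && nx (y z.1).2.2.2 (ks z.1) z.2 then
      rxP ((y z.1).2.2.2.getD z.2 (false, 0, 0, []))
        (psi (plu (y z.1).1.1 (F z.1)) ((y z.1).2.2.2.getD z.2 (false, 0, 0, [])))
    else exP ((y z.1).2.2.2.getD z.2 (false, 0, 0, []))) ?_
  have hc : PT (fun z : ι × ℕ => (y z.1).2.2.2.getD z.2 (false, 0, 0, [])) :=
    PT.getD (hC.comp PT.fst) PT.snd (PT.const (false, 0, 0, []))
  exact PT.cond (PT.band (PT.bnot (PT.neq PT.snd (hf.comp PT.fst))) (pt_nx (hC.comp PT.fst) (hk.comp PT.fst) PT.snd))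
    (pt_rxP hc (pt_psiv hc (hn.comp PT.fst) (hF.comp PT.fst))) (pt_exP hc)

theorem pt_wPc (hy : PT y) (hF : PT F) (hk : PT ks) : PT (fun x => wPc (y x) (F x) (ks x)) := by
  have hx : PT (fun x => (y x).1) := PT.p1 hy
  have hn : PT (fun x => (y x).1.1) := PT.p1 hx
  have hg : PT (fun x => (y x).2.1) := PT.p1 (PT.p2 hy)
  have hC : PT (fun x => (y x).2.2.2) := PT.p2 (PT.p2 (PT.p2 hy))
  refine PT.append (PT.append (PT.append (pt_wcl hy hF hk) ?_) (PT.append ?_ ?_)) (pt_tkv hn hF)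
  · exact PT.map (pt_plE hx hC) (g := fun z : ι × Ed => edP z.2) (pt_edP PT.snd)
  · exact PT.map (pt_slJ hn hg) (g := fun z : ι × (ℕ × ℕ) => unP z.2.1 (y z.1).1.1)
      (pt_unP PT.snd.p1 (hn.comp PT.fst))
  · exact PT.map (PT.range hn) (g := fun z : ι × ℕ => unP (y z.1).1.1 (y z.1).1.1)
      (pt_unP (hn.comp PT.fst) (hn.comp PT.fst))

theorem pt_dgV (hy : PT y) (hF : PT F) (hk : PT ks) : PT (fun x => dgV (y x) (F x) (ks x)) := by
  have hn : PT (fun x => (y x).1.1) := PT.p1 (PT.p1 hy)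
  have hC : PT (fun x => (y x).2.2.2) := PT.p2 (PT.p2 (PT.p2 hy))
  have hf := pt_fst hC hk
  have hc : PT (fun x => (y x).2.2.2.getD (fstV (y x).2.2.2 (ks x)) (false, 0, 0, [])) :=
    PT.getD hC hf (PT.const (false, 0, 0, []))
  have hkq : PT (fun x => (ks x).getD (fstV (y x).2.2.2 (ks x)) []) := PT.getD hk hf (PT.const [])
  exact pt_findD (p := fun z : ι × List ℕ => eqK ((ks z.1).getD (fstV (y z.1).2.2.2 (ks z.1)) []) z.2)
    (pt_eqK (hkq.comp PT.fst) PT.snd) (pt_digs hc (pt_psiv hc hn hF)) (PT.const [])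

variable {r : ι → ℕ × St}

theorem pt_stS (hy : PT y) (hF : PT F) (hr : PT r) : PT (fun x => stS (y x) (F x) (r x)) := by
  have hn : PT (fun x => (y x).1.1) := PT.p1 (PT.p1 hy)
  have hC : PT (fun x => (y x).2.2.2) := PT.p2 (PT.p2 (PT.p2 hy))
  have hk : PT (fun x => (r x).2) := PT.p2 hr
  have hf := pt_fst hC hk
  have hc : PT (fun x => (y x).2.2.2.getD (fstV (y x).2.2.2 (r x).2) (false, 0, 0, [])) :=
    PT.getD hC hf (PT.const (false, 0, 0, []))
  refine PT.append ?_ ?_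
  · refine PT.map (pt_mvs hc (pt_dgV hy hF hk)) (g := fun z : ι × List ℕ =>
      setL (r z.1).2 (fstV (y z.1).2.2.2 (r z.1).2) z.2 ++ tkS (y z.1).1.1 (F z.1) (r z.1).1) ?_
    exact PT.append (pt_setL (hk.comp PT.fst) (hf.comp PT.fst) PT.snd)
      (pt_tks (hn.comp PT.fst) (hF.comp PT.fst) (PT.p1 (hr.comp PT.fst)))
  · refine PT.map hF (g := fun z : ι × (ℕ × St) => z.2.2 ++ tkS (y z.1).1.1 (F z.1) (2 * ((y z.1).1.1 + 1))) ?_
    exact PT.append PT.snd.p2 (pt_tks (hn.comp PT.fst) (hF.comp PT.fst)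
      (PT.nmul (PT.const 2) (PT.nsucc (hn.comp PT.fst))))

theorem pt_poS (hy : PT y) (hF : PT F) (hr : PT r) : PT (fun x => poS (y x) (F x) (r x)) := by
  have hn : PT (fun x => (y x).1.1) := PT.p1 (PT.p1 hy)
  exact pt_poolS (mem := pmem) (pt_pmem PT.fst PT.snd) (false, [], []) (pt_wPc hy hF (PT.p2 hr)) (PT.nsucc hn)
    (PT.range (PT.nadd hn (PT.const 2))) (pt_stS hy hF hr) 3

end

theorem pt_one' {v w : ι → ℕ} (hv : PT v) (hw : PT w) : PT (fun x => if v x = w x then 1 else 0) := by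
  refine PT.congr (PT.cond (PT.neq hv hw) (PT.const 1) (PT.const 0)) fun x => ?_
  by_cases h : v x = w x <;> simp [h]

theorem pt_tst {n : ι → ℕ} {q : ι → ℕ × St} (hn : PT n) (hq : PT q) : PT (fun x => tstS (n x) (q x)) := by
  refine PT.all (PT.range (PT.nsucc hn)) (p := fun z : ι × ℕ =>
    decide (cT (q z.1).2 z.2 + (if (q z.1).1 = z.2 then 1 else 0) =
      (tgL (n z.1)).getD z.2 0 + (if (q z.1).1 = n z.1 + 1 + z.2 then 1 else 0))) ?_
  have h1 : PT (fun z : ι × ℕ => (q z.1).1) := PT.p1 (hq.comp PT.fst)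
  have h2 : PT (fun z : ι × ℕ => (q z.1).2) := PT.p2 (hq.comp PT.fst)
  have h3 : PT (fun z : ι × ℕ => n z.1) := hn.comp PT.fst
  exact PT.neq (PT.nadd (pt_cT h2 PT.snd) (pt_one' h1 PT.snd))
    (PT.nadd (PT.getD (pt_tgt h3) PT.snd (PT.const 0)) (pt_one' h1 (PT.nadd (PT.nsucc h3) PT.snd)))

theorem pt_uPo {n : ι → ℕ} {F : ι → Fct St} (hn : PT n) (hF : PT F) : PT (fun x => uPo (n x) (F x)) :=
  PT.append (pt_mi hn hF) (PT.map (pt_pl hn hF) (g := fun z : ι × ℕ => n z.1 + 1 + z.2)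
    (PT.nadd (PT.nsucc (hn.comp PT.fst)) PT.snd))

theorem pt_redS : PT redS := by
  have hy : PT (fun w : SV.SI × Fct St × ℕ × St => w.1) := PT.fst
  have hF : PT (fun w : SV.SI × Fct St × ℕ × St => w.2.1) := PT.snd.p1
  have hr : PT (fun w : SV.SI × Fct St × ℕ × St => w.2.2) := PT.snd.p2
  have hn : PT (fun w : SV.SI × Fct St × ℕ × St => w.1.1.1) := PT.p1 (PT.p1 hy)
  have hk : PT (fun w : SV.SI × Fct St × ℕ × St => w.2.2.2) := PT.p2 hr
  refine pt_findD (p := fun z : (SV.SI × Fct St × ℕ × St) × (ℕ × St) => tstS z.1.1.1.1 z.2)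
    (pt_tst (hn.comp PT.fst) PT.snd) ?_ (PT.const (0, []))
  refine PT.flatMap (pt_poS hy hF hr) (g := fun z : (SV.SI × Fct St × ℕ × St) × St =>
    (uPo z.1.1.1.1 z.1.2.1).map fun s => (s, realS z.1.2.2.2.length z.2)) ?_
  refine PT.map (pt_uPo (hn.comp PT.fst) (hF.comp PT.fst)) (g := fun z : ((SV.SI × Fct St × ℕ × St) × St) × ℕ =>
    (z.2, realS z.1.1.2.2.2.length z.1.2)) ?_
  have e0 : PT (fun z : ((SV.SI × Fct St × ℕ × St) × St) × ℕ => z.1.1) := PT.fst.comp PT.fst
  have e1 : PT (fun z : ((SV.SI × Fct St × ℕ × St) × St) × ℕ => z.1.1.2.2.2.length) := PT.length (hk.comp e0)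
  exact PT.pair PT.snd (Rd.pt_tk e1 PT.fst.p2)

end pt

end Pool.Agent.PF4.SVR

end

section -- file PF4/Clu

/-!
The clusters of a conflict-free list of squares as a polynomial-time function `clus` (cluster data `Cl` as in `Pc`).
-/

set_option autoImplicit false
set_option linter.unusedSimpArgs false
set_option linter.unusedVariables false

namespace Pool.Agent.PF4

open Finset Pool.Agent.TFC Pool.Agent.Lib.helper60

/-! ### one cluster -/

/-- the same square -/
def eqS (S R : Sq4) : Bool := sqIn (sqE R) S && sqIn (sqE S) R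

theorem eqS_iff {S R : Sq4} : eqS S R = true ↔ sqs S = sqs R := by
  unfold eqS
  rw [Bool.and_eq_true, sqIn_iff, sqIn_iff, fs_sqE, fs_sqE]
  exact ⟨fun h => Finset.Subset.antisymm h.1 h.2, fun h => ⟨h.subset, h.superset⟩⟩

/-- the corners -/
def crn (Q : Sq4) : List ℕ := [Q.1, Q.2.1, Q.2.2.1, Q.2.2.2]

/-- all corners of `R` are corners of `Q` -/
def sameV (Q R : Sq4) : Bool := (crn R).all fun v => (crn Q).any fun u => decide (u = v)

/-- the leaves of the square `S`, if `x`, `y` are opposite corners -/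
def lf (x y : ℕ) (S : Sq4) : List ℕ :=
  bif (decide (S.1 = x) && decide (S.2.2.1 = y)) || (decide (S.1 = y) && decide (S.2.2.1 = x)) then
    [S.2.1, S.2.2.2]
  else bif (decide (S.2.1 = x) && decide (S.2.2.2 = y)) || (decide (S.2.1 = y) && decide (S.2.2.2 = x)) then
    [S.1, S.2.2.1]
  else []

/-- `S` has a partner with respect to the centres `x`, `y` -/
def ptn (D : List Sq4) (x y : ℕ) (S : Sq4) : Bool :=
  D.any fun R => (!eqS S R) && ((lf x y S).any fun l => (lf x y R).any fun m => decide (l = m))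

/-- the leaves with respect to the centres -/
def lvs (n : ℕ) (D : List Sq4) (x y : ℕ) : List ℕ :=
  (List.range n).filter fun v => (D.filter fun S => ptn D x y S).any fun S => (lf x y S).any fun m => decide (m = v)

/-- the cluster of `Q` -/
def clOf (n : ℕ) (D : List Sq4) (Q : Sq4) : Cl :=
  bif D.any (fun R => sameV Q R && !eqS Q R) then (false, 0, 0, crn Q)
  else bif ptn D Q.1 Q.2.2.1 Q then (true, Q.1, Q.2.2.1, lvs n D Q.1 Q.2.2.1)
  else bif ptn D Q.2.1 Q.2.2.2 Q then (true, Q.2.1, Q.2.2.2, lvs n D Q.2.1 Q.2.2.2)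
  else (true, Q.1, Q.2.2.1, [Q.2.1, Q.2.2.2])

theorem lf_aux {a b c d x l y : ℕ} (h : Dist4 a b c d) (g2 : x ≠ y)
    (e1 : s(x, l) ∈ TFC.sq a b c d) (e2 : s(l, y) ∈ TFC.sq a b c d) :
    (((a = x ∧ c = y) ∨ (a = y ∧ c = x)) ∧ (l = b ∨ l = d)) ∨
      (((b = x ∧ d = y) ∨ (b = y ∧ d = x)) ∧ (l = a ∨ l = c)) := by
  obtain ⟨h1, h2, h3, h4, h5, h6⟩ := h
  simp only [TFC.sq, Finset.mem_insert, Finset.mem_singleton, Sym2.eq_iff] at e1
  rcases e1 with (⟨rfl, rfl⟩ | ⟨rfl, rfl⟩) | (⟨rfl, rfl⟩ | ⟨rfl, rfl⟩) | (⟨rfl, rfl⟩ | ⟨rfl, rfl⟩) |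
      (⟨rfl, rfl⟩ | ⟨rfl, rfl⟩) <;>
    simp only [TFC.sq, Finset.mem_insert, Finset.mem_singleton, Sym2.eq_iff, h1, h2, h3, h4, h5, h6,
      h1.symm, h2.symm, h3.symm, h4.symm, h5.symm, h6.symm, false_and, false_or, or_false, true_and,
      and_true, g2, g2.symm, true_or, or_true] at e2 <;>
    first
    | (exact absurd e2.symm g2)
    | (subst e2; simp)

theorem mem_lf {x y l : ℕ} {S : Sq4} (h : SqOK S) :
    l ∈ lf x y S ↔ ∃ l', Dist4 x l y l' ∧ sqs S = TFC.sq x l y l' := by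
  obtain ⟨a, b, c, d⟩ := S
  obtain ⟨h1, h2, h3, h4, h5, h6⟩ := id h
  simp only at h1 h2 h3 h4 h5 h6
  have k : l ∈ lf x y (a, b, c, d) ↔
      (((a = x ∧ c = y) ∨ (a = y ∧ c = x)) ∧ (l = b ∨ l = d)) ∨
      (((b = x ∧ d = y) ∨ (b = y ∧ d = x)) ∧ (l = a ∨ l = c)) := by
    unfold lf
    simp only
    by_cases c1 : (a = x ∧ c = y) ∨ (a = y ∧ c = x)
    · have e : ((decide (a = x) && decide (c = y)) || (decide (a = y) && decide (c = x))) = true := by
        simpa using c1
      rw [e]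
      simp only [cond_true, List.mem_cons, List.not_mem_nil, or_false]
      constructor
      · intro h; exact Or.inl ⟨c1, h⟩
      · rintro (⟨_, h⟩ | ⟨h, h'⟩)
        · exact h
        · omega
    · have e : ((decide (a = x) && decide (c = y)) || (decide (a = y) && decide (c = x))) = false := by
        rw [← Bool.not_eq_true]
        simpa using c1
      rw [e]
      simp only [cond_false]
      by_cases c2 : (b = x ∧ d = y) ∨ (b = y ∧ d = x)
      · have e : ((decide (b = x) && decide (d = y)) || (decide (b = y) && decide (d = x))) = true := by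
          simpa using c2
        rw [e]
        simp only [cond_true, List.mem_cons, List.not_mem_nil, or_false]
        constructor
        · intro h; exact Or.inr ⟨c2, h⟩
        · rintro (⟨h, _⟩ | ⟨_, h⟩)
          · exact absurd h c1
          · exact h
      · have e : ((decide (b = x) && decide (d = y)) || (decide (b = y) && decide (d = x))) = false := by
          rw [← Bool.not_eq_true]
          simpa using c2
        rw [e]
        simp only [cond_false, List.not_mem_nil, false_iff]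
        rintro (⟨h, _⟩ | ⟨h, _⟩)
        · exact c1 h
        · exact c2 h
  rw [k]
  have F : Clus_F (TFC.sq a b c d) {a, b, c, d} a b c d := ⟨h, rfl, rfl⟩
  have r1 := Clus_rot F
  have r2 := Clus_rot r1
  have r3 := Clus_rot r2
  have s0 := Clus_ref F
  have s1 := Clus_rot s0
  have s2 := Clus_rot s1
  have s3 := Clus_rot s2
  constructor
  · rintro (⟨⟨rfl, rfl⟩ | ⟨rfl, rfl⟩, rfl | rfl⟩ | ⟨⟨rfl, rfl⟩ | ⟨rfl, rfl⟩, rfl | rfl⟩)
    · exact ⟨_, F.1, F.2.1⟩
    · exact ⟨_, s3.1, s3.2.1⟩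
    · exact ⟨_, s1.1, s1.2.1⟩
    · exact ⟨_, r2.1, r2.2.1⟩
    · exact ⟨_, s2.1, s2.2.1⟩
    · exact ⟨_, r1.1, r1.2.1⟩
    · exact ⟨_, r3.1, r3.2.1⟩
    · exact ⟨_, s0.1, s0.2.1⟩
  · rintro ⟨l', ⟨g1, g2, g3, g4, g5, g6⟩, e⟩
    have e1 : s(x, l) ∈ TFC.sq a b c d := by
      have : s(x, l) ∈ TFC.sq x l y l' := by simp [TFC.sq]
      rw [← e] at this; exact this
    have e2 : s(l, y) ∈ TFC.sq a b c d := by
      have : s(l, y) ∈ TFC.sq x l y l' := by simp [TFC.sq]
      rw [← e] at this; exact this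
    exact lf_aux h g2 e1 e2

theorem sameV_iff {Q R : Sq4} : sameV Q R = true ↔ ∀ v ∈ crn R, v ∈ crn Q := by
  simp [sameV]

theorem lf_symm (x y : ℕ) (S : Sq4) : lf x y S = lf y x S := by
  unfold lf
  rw [Bool.or_comm (decide (S.1 = x) && decide (S.2.2.1 = y)),
    Bool.or_comm (decide (S.2.1 = x) && decide (S.2.2.2 = y))]

theorem lf_pos {x y v : ℕ} {S : Sq4} (h : v ∈ lf x y S) :
    ((S.1 = x ∧ S.2.2.1 = y) ∨ (S.1 = y ∧ S.2.2.1 = x)) ∨ ((S.2.1 = x ∧ S.2.2.2 = y) ∨ (S.2.1 = y ∧ S.2.2.2 = x)) := by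
  unfold lf at h
  by_contra hcon
  rw [not_or] at hcon
  obtain ⟨c1, c2⟩ := hcon
  have e1 : ((decide (S.1 = x) && decide (S.2.2.1 = y)) || (decide (S.1 = y) && decide (S.2.2.1 = x))) = false := by
    rw [← Bool.not_eq_true]
    simpa using c1
  have e2 : ((decide (S.2.1 = x) && decide (S.2.2.2 = y)) || (decide (S.2.1 = y) && decide (S.2.2.2 = x))) =
      false := by
    rw [← Bool.not_eq_true]
    simpa using c2
  rw [e1, e2] at h
  simp at h

theorem ptn_symm (D : List Sq4) (x y : ℕ) (S : Sq4) : ptn D x y S = ptn D y x S := by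
  unfold ptn
  simp only [lf_symm x y]

theorem ptn_iff {D : List Sq4} {x y : ℕ} {S : Sq4} :
    ptn D x y S = true ↔ ∃ R ∈ D, sqs S ≠ sqs R ∧ ∃ l, l ∈ lf x y S ∧ l ∈ lf x y R := by
  unfold ptn
  simp only [List.any_eq_true, Bool.and_eq_true, Bool.not_eq_true', decide_eq_true_eq, ← Bool.not_eq_true,
    eqS_iff]
  constructor
  · rintro ⟨R, h1, h2, l, h3, m, h4, rfl⟩
    exact ⟨R, h1, h2, l, h3, h4⟩
  · rintro ⟨R, h1, h2, l, h3, h4⟩
    exact ⟨R, h1, h2, l, h3, l, h4, rfl⟩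

theorem mem_lvs {n : ℕ} {D : List Sq4} {x y v : ℕ} :
    v ∈ lvs n D x y ↔ v < n ∧ ∃ S ∈ D, ptn D x y S = true ∧ v ∈ lf x y S := by
  unfold lvs
  simp only [List.mem_filter, List.mem_range, List.any_eq_true, decide_eq_true_eq]
  constructor
  · rintro ⟨h1, S, ⟨h2, h3⟩, m, h4, rfl⟩
    exact ⟨h1, S, h2, h3, h4⟩
  · rintro ⟨h1, S, h2, h3, h4⟩
    exact ⟨h1, S, ⟨h2, h3⟩, v, h4, rfl⟩

theorem lvs_nodup (n : ℕ) (D : List Sq4) (x y : ℕ) : (lvs n D x y).Nodup := List.nodup_range.filter _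

/-- the set of the squares of the list -/
def SF (D : List Sq4) : Finset (Finset (Sym2 ℕ)) := (D.map sqs).toFinset

theorem mem_SF {D : List Sq4} {S : Finset (Sym2 ℕ)} : S ∈ SF D ↔ ∃ q ∈ D, sqs q = S := by
  simp [SF]

theorem SF_isSq {D : List Sq4} (hD : ∀ q ∈ D, SqOK q) : ∀ S ∈ SF D, IsSq S := by
  intro S hS
  obtain ⟨q, hq, rfl⟩ := mem_SF.1 hS
  exact ⟨q.1, q.2.1, q.2.2.1, q.2.2.2, hD q hq, rfl⟩

theorem SF_conf {D : List Sq4} (hD : ∀ q ∈ D, SqOK q) (hc : ∀ Q ∈ D, ∀ R ∈ D, conf Q R = false) :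
    ∀ Q ∈ SF D, ∀ R ∈ SF D, Q ≠ R → #(Q ∩ R) ≠ 1 := by
  intro S hS R hR _ h
  obtain ⟨q, hq, rfl⟩ := mem_SF.1 hS
  obtain ⟨r, hr, rfl⟩ := mem_SF.1 hR
  have := (conf_iff (hD q hq)).2 h
  rw [hc q hq r hr] at this
  cases this

theorem mem_crn {q : Sq4} {e : Sym2 ℕ} {v : ℕ} (he : e ∈ sqs q) (hv : v ∈ e) : v ∈ crn q := by
  simp only [sqs, TFC.sq, Finset.mem_insert, Finset.mem_singleton] at he
  unfold crn
  simp only [List.mem_cons, List.not_mem_nil, or_false]
  rcases he with rfl | rfl | rfl | rfl <;> rw [Sym2.mem_iff] at hv <;> tauto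

theorem leaf_of {x l y l' v : ℕ} {e : Sym2 ℕ} (he : e ∈ TFC.sq x l y l') (hv : v ∈ e) (hx : v ≠ x)
    (hy : v ≠ y) : v = l ∨ v = l' := by
  simp only [TFC.sq, Finset.mem_insert, Finset.mem_singleton] at he
  rcases he with rfl | rfl | rfl | rfl <;> rw [Sym2.mem_iff] at hv <;> tauto

theorem swap_set (a b c d : ℕ) : ({a, b, c, d} : Finset ℕ) = {a, b, d, c} := by
  ext z
  simp only [mem_insert, mem_singleton]
  tauto

theorem sq_partner {x l y l' l'' : ℕ} (h1 : Dist4 x l y l') (h2 : Dist4 x l y l'') (hne : l' ≠ l'') :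
    TFC.sq x l y l' ≠ TFC.sq x l y l'' := by
  intro e
  have h3 : s(l', x) ∈ TFC.sq x l y l'' := by rw [← e]; simp [TFC.sq]
  obtain ⟨a1, a2, a3, a4, a5, a6⟩ := h1
  obtain ⟨b1, b2, b3, b4, b5, b6⟩ := h2
  simp only [TFC.sq, Finset.mem_insert, Finset.mem_singleton, Sym2.eq_iff] at h3
  omega

section
variable {n : ℕ} {D : List Sq4} (hD : ∀ q ∈ D, SqOK q) (hn : ∀ q ∈ D, ∀ v ∈ crn q, v < n)
  (hc : ∀ Q ∈ D, ∀ R ∈ D, conf Q R = false)
include hD hn hc

theorem caseB {Q : Sq4} (hQ : Q ∈ D) {x y : ℕ} (h : ptn D x y Q = true) :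
    ClOK (true, x, y, lvs n D x y) ∧ StepY (SF D) (sqs Q) (cluF (true, x, y, lvs n D x y)) := by
  have hPP : ∀ S ∈ D, ptn D x y S = true ↔ ∃ l l' l'', Dist4 x l y l' ∧ Dist4 x l y l'' ∧ l' ≠ l'' ∧
      sqs S = TFC.sq x l y l' ∧ TFC.sq x l y l'' ∈ SF D := by
    intro S hS
    rw [ptn_iff]
    constructor
    · rintro ⟨R, hR, hne, l, h1, h2⟩
      obtain ⟨l', d1, e1⟩ := (mem_lf (hD S hS)).1 h1
      obtain ⟨l'', d2, e2⟩ := (mem_lf (hD R hR)).1 h2
      refine ⟨l, l', l'', d1, d2, ?_, e1, mem_SF.2 ⟨R, hR, e2⟩⟩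
      rintro rfl
      exact hne (e1.trans e2.symm)
    · rintro ⟨l, l', l'', d1, d2, hne, e1, h2⟩
      obtain ⟨R, hR, e2⟩ := mem_SF.1 h2
      refine ⟨R, hR, ?_, l, (mem_lf (hD S hS)).2 ⟨l', d1, e1⟩, (mem_lf (hD R hR)).2 ⟨l'', d2, e2⟩⟩
      rw [e1, e2]
      exact sq_partner d1 d2 hne
  obtain ⟨a, b, c, dQ, dR, hbc, eQ, hR⟩ := (hPP Q hQ).1 h
  have hQ' : TFC.sq x a y b ∈ SF D := mem_SF.2 ⟨Q, hQ, eQ⟩
  have st := case2Y (SF_isSq hD) (SF_conf hD hc) hQ' hR dQ dR hbc
    (fun S => ∃ l l' l'', Dist4 x l y l' ∧ Dist4 x l y l'' ∧ l' ≠ l'' ∧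
      S = TFC.sq x l y l' ∧ TFC.sq x l y l'' ∈ SF D) (fun _ => Iff.rfl) (lvs n D x y).toFinset (by
      intro v
      rw [List.mem_toFinset, mem_lvs]
      constructor
      · rintro ⟨_, S, hS, h1, h2⟩
        obtain ⟨l', ⟨g1, g2, g3, g4, g5, g6⟩, e1⟩ := (mem_lf (hD S hS)).1 h2
        refine ⟨⟨sqs S, mem_SF.2 ⟨S, hS, rfl⟩, (hPP S hS).1 h1, s(x, v), ?_, Sym2.mem_mk_right _ _⟩, g1.symm, g4⟩
        rw [e1]; simp [TFC.sq]
      · rintro ⟨⟨S', hS', h1, e, he, hv⟩, hvx, hvy⟩
        obtain ⟨S, hS, rfl⟩ := mem_SF.1 hS'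
        refine ⟨hn S hS v (mem_crn he hv), S, hS, (hPP S hS).2 h1, ?_⟩
        obtain ⟨l, l', l'', d1, d2, hne, e1, h2⟩ := h1
        rw [mem_lf (hD S hS)]
        rw [e1] at he
        have hvl : v = l ∨ v = l' := leaf_of he hv hvx hvy
        rcases hvl with rfl | rfl
        · exact ⟨l', d1, e1⟩
        · obtain ⟨d3, e3⟩ := Clus_sq_leaf d1
          exact ⟨l, d3, e1.trans e3⟩)
  have st' : StepY (SF D) (sqs Q) (cluF (true, x, y, lvs n D x y)) := by
    rw [eQ]; exact st
  refine ⟨⟨lvs_nodup _ _ _ _, fun _ => ⟨dQ.2.1, ?_, ?_, ?_⟩, by simp⟩, st'⟩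
  · intro hx
    obtain ⟨_, S, hS, _, h2⟩ := mem_lvs.1 hx
    obtain ⟨l', g, _⟩ := (mem_lf (hD S hS)).1 h2
    exact g.1 rfl
  · intro hx
    obtain ⟨_, S, hS, _, h2⟩ := mem_lvs.1 hx
    obtain ⟨l', g, _⟩ := (mem_lf (hD S hS)).1 h2
    exact g.2.2.2.1 rfl
  · obtain ⟨_, _, _, hv, _⟩ := st'
    have h4 : 2 ≤ #(lvs n D x y).toFinset := hv.2.2.2
    rwa [List.toFinset_card_of_nodup (lvs_nodup _ _ _ _)] at h4

theorem clOf_step {Q : Sq4} (hQ : Q ∈ D) :
    ClOK (clOf n D Q) ∧ StepY (SF D) (sqs Q) (cluF (clOf n D Q)) := by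
  have hsq := SF_isSq hD
  have hcf := SF_conf hD hc
  have dQ := hD Q hQ
  have oQ : Clus_On (sqs Q) {Q.1, Q.2.1, Q.2.2.1, Q.2.2.2} := ⟨_, _, _, _, dQ, rfl, rfl⟩
  obtain ⟨h1, h2, h3, h4, h5, h6⟩ := id dQ
  unfold clOf
  cases hA : D.any (fun R => sameV Q R && !eqS Q R) with
  | true =>
    simp only [cond_true]
    rw [List.any_eq_true] at hA
    obtain ⟨R, hR, hA⟩ := hA
    rw [Bool.and_eq_true, sameV_iff, Bool.not_eq_true', ← Bool.not_eq_true, eqS_iff] at hA
    obtain ⟨g1, g2⟩ := hA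
    have oR' : Clus_On (sqs R) {R.1, R.2.1, R.2.2.1, R.2.2.2} := ⟨_, _, _, _, hD R hR, rfl, rfl⟩
    have eX : ({R.1, R.2.1, R.2.2.1, R.2.2.2} : Finset ℕ) = {Q.1, Q.2.1, Q.2.2.1, Q.2.2.2} := by
      apply Finset.eq_of_subset_of_card_le
      · intro v hv
        have := g1 v (by simpa [crn] using hv)
        simpa [crn] using this
      · rw [Clus_card oR', Clus_card oQ]
    have oR : Clus_On (sqs R) {Q.1, Q.2.1, Q.2.2.1, Q.2.2.2} := by rw [← eX]; exact oR'
    have st := case1Y hsq hcf (mem_SF.2 ⟨Q, hQ, rfl⟩) (mem_SF.2 ⟨R, hR, rfl⟩) g2 oQ oR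
    refine ⟨⟨?_, by simp, fun _ => rfl⟩, ?_⟩
    · simp [crn, h1, h2, h3, h4, h5, h6]
    · have e : cluF (false, 0, 0, crn Q) = Clu.k4 {Q.1, Q.2.1, Q.2.2.1, Q.2.2.2} := by
        simp [cluF, crn]
      rw [e]; exact st
  | false =>
    simp only [cond_false]
    cases hB : ptn D Q.1 Q.2.2.1 Q with
    | true => exact caseB hD hn hc hQ hB
    | false =>
      simp only [cond_false]
      cases hB' : ptn D Q.2.1 Q.2.2.2 Q with
      | true => exact caseB hD hn hc hQ hB'
      | false =>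
        simp only [cond_false]
        have st := case3Y (D := SF D) dQ (mem_SF.2 ⟨Q, hQ, rfl⟩) (by
          intro S hS hne e he heQ
          obtain ⟨R, hR, rfl⟩ := mem_SF.1 hS
          have heQ' : e ∈ sqs Q := heQ
          have hne' : sqs R ≠ sqs Q := hne
          -- adjacent common edges
          have adj : ∀ u v w, u ≠ w → s(u, v) ∈ sqs Q → s(v, w) ∈ sqs Q → s(u, v) ∈ sqs R →
              s(v, w) ∈ sqs R → False := by
            intro u v w huw q1 q2 r1 r2
            have oR : Clus_On (sqs R) {R.1, R.2.1, R.2.2.1, R.2.2.2} := ⟨_, _, _, _, hD R hR, rfl, rfl⟩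
            obtain ⟨t, d1, e1, -⟩ := Clus_adj2 oQ q1 q2 huw
            obtain ⟨t', d2, e2, -⟩ := Clus_adj2 oR r1 r2 huw
            have hp : ptn D u w Q = true := ptn_iff.2 ⟨R, hR, fun h => hne' h.symm, v,
              (mem_lf (hD Q hQ)).2 ⟨t, d1, e1⟩, (mem_lf (hD R hR)).2 ⟨t', d2, e2⟩⟩
            have hm : v ∈ lf u w Q := (mem_lf (hD Q hQ)).2 ⟨t, d1, e1⟩
            rcases lf_pos hm with (⟨rfl, rfl⟩ | ⟨rfl, rfl⟩) | (⟨rfl, rfl⟩ | ⟨rfl, rfl⟩)
            · rw [hB] at hp; cases hp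
            · rw [ptn_symm, hB] at hp; cases hp
            · rw [hB'] at hp; cases hp
            · rw [ptn_symm, hB'] at hp; cases hp
          have oR : Clus_On (sqs R) {R.1, R.2.1, R.2.2.1, R.2.2.2} := ⟨_, _, _, _, hD R hR, rfl, rfl⟩
          obtain ⟨e', he1, he2, he3⟩ := Clus_second (hcf _ (mem_SF.2 ⟨Q, hQ, rfl⟩) _ (mem_SF.2 ⟨R, hR, rfl⟩)
            (fun h => hne' h.symm)) heQ' he
          induction e using Sym2.ind with
          | _ u v =>
            obtain ⟨w, t, hF⟩ := Clus_adj oQ heQ'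
            obtain ⟨⟨k1, k2, k3, k4, k5, k6⟩, eQ, eX⟩ := id hF
            rw [eQ] at he1
            simp only [TFC.sq, mem_insert, mem_singleton] at he1
            rcases he1 with rfl | rfl | rfl | rfl
            · exact absurd rfl he3
            · exact adj u v w k2 heQ' (by rw [eQ]; simp [TFC.sq]) he he2
            · obtain ⟨c, d, ⟨g1, g2, g3, g4, g5, g6⟩, eR, eX'⟩ := Clus_adj oR he
              have he2' := he2
              rw [eR] at he2'
              simp only [TFC.sq, mem_insert, mem_singleton, Sym2.eq_iff] at he2'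
              have hcd : (w = c ∧ t = d) ∨ (w = d ∧ t = c) := by
                clear hD hn hc hsq hcf h1 h2 h3 h4 h5 h6 g1 g2 g3 g4 g5 g6
                rcases he2' with (⟨e1, e2⟩ | ⟨e1, e2⟩) | (⟨e1, e2⟩ | ⟨e1, e2⟩) | (⟨e1, e2⟩ | ⟨e1, e2⟩) |
                  (⟨e1, e2⟩ | ⟨e1, e2⟩)
                · exact absurd e1.symm k2
                · exact absurd e1.symm k4
                · exact absurd e1.symm k4
                · exact absurd e2.symm k5
                · exact Or.inl ⟨e1, e2⟩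
                · exact Or.inr ⟨e1, e2⟩
                · exact absurd e2.symm k3
                · exact absurd e1.symm k2
              have hXX : ({R.1, R.2.1, R.2.2.1, R.2.2.2} : Finset ℕ) = {Q.1, Q.2.1, Q.2.2.1, Q.2.2.2} := by
                rw [eX, eX']
                rcases hcd with ⟨rfl, rfl⟩ | ⟨rfl, rfl⟩
                · rfl
                · exact swap_set _ _ _ _
              have hsV : sameV Q R = true := by
                rw [sameV_iff]
                intro z hz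
                have hz' : z ∈ ({R.1, R.2.1, R.2.2.1, R.2.2.2} : Finset ℕ) := by simpa [crn] using hz
                rw [hXX] at hz'
                simpa [crn] using hz'
              have hA' : D.any (fun R => sameV Q R && !eqS Q R) = true := by
                rw [List.any_eq_true]
                refine ⟨R, hR, ?_⟩
                rw [Bool.and_eq_true, Bool.not_eq_true', ← Bool.not_eq_true, eqS_iff]
                exact ⟨hsV, fun h => hne' h.symm⟩
              rw [hA] at hA'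
              cases hA'
            · exact adj t u v k5.symm (by rw [eQ]; simp [TFC.sq]) heQ' he2 he)
        refine ⟨⟨?_, fun _ => ⟨h2, ?_, ?_, le_rfl⟩, by simp⟩, ?_⟩
        · simp [h5]
        · simp [h1, h3]
        · simp [h4.symm, h6]
        · have e : cluF (true, Q.1, Q.2.2.1, [Q.2.1, Q.2.2.2]) = Clu.k2 Q.1 Q.2.2.1 {Q.2.1, Q.2.2.2} := by
            simp [cluF]
          rw [e]; exact st

end

/-! ### all clusters -/

/-- the squares which are in no cluster of `out` -/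
def remD (D : List Sq4) (out : List Cl) : List Sq4 :=
  D.filter fun S => !out.any fun c => sqIn (clE c) S

/-- one step -/
def cstep (n : ℕ) (D : List Sq4) (out : List Cl) (Q : Sq4) : List Cl :=
  bif out.any (fun c => sqIn (clE c) Q) then out else clOf n (remD D out) Q :: out

/-- the clusters of the list `D` of squares with corners less than `n` -/
def clus (n : ℕ) (D : List Sq4) : List Cl := D.foldl (cstep n D) []

theorem mem_remD {D : List Sq4} {out : List Cl} {S : Sq4} :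
    S ∈ remD D out ↔ S ∈ D ∧ ∀ c ∈ out, ¬ sqs S ⊆ fs (clE c) := by
  unfold remD
  rw [List.mem_filter, Bool.not_eq_true', ← Bool.not_eq_true, List.any_eq_true]
  simp only [sqIn_iff, not_exists, not_and]

/-- the invariant of the loop: the squares of `D1` are treated -/
structure CInv (D D1 : List Sq4) (out : List Cl) : Prop where
  ok : ∀ c ∈ out, ClOK c
  pw : out.Pairwise fun c c' => Disjoint (fs (clE c)) (fs (clE c'))
  sub : ∀ c ∈ out, ∀ e ∈ fs (clE c), ∃ Q ∈ D, e ∈ sqs Q ∧ sqs Q ⊆ fs (clE c)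
  cov : ∀ Q ∈ D1, ∃ c ∈ out, sqs Q ⊆ fs (clE c)
  dis : ∀ Q ∈ D, ∀ c ∈ out, sqs Q ⊆ fs (clE c) ∨ Disjoint (sqs Q) (fs (clE c))

theorem cstep_inv {n : ℕ} {D D1 : List Sq4} (hD : ∀ q ∈ D, SqOK q) (hn : ∀ q ∈ D, ∀ v ∈ crn q, v < n)
    (hc : ∀ Q ∈ D, ∀ R ∈ D, conf Q R = false) {out : List Cl} (h : CInv D D1 out) {Q : Sq4} (hQ : Q ∈ D) :
    CInv D (Q :: D1) (cstep n D out Q) := by
  unfold cstep
  cases h1 : out.any (fun c => sqIn (clE c) Q) with
  | true =>
    simp only [cond_true]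
    refine ⟨h.ok, h.pw, h.sub, ?_, h.dis⟩
    intro R hR
    rcases List.mem_cons.1 hR with rfl | hR
    · obtain ⟨c, hc, h2⟩ := List.any_eq_true.1 h1
      exact ⟨c, hc, (sqIn_iff _ _).1 h2⟩
    · exact h.cov R hR
  | false =>
    simp only [cond_false]
    have hQr : Q ∈ remD D out := by
      rw [remD, List.mem_filter, h1]
      exact ⟨hQ, rfl⟩
    have hs : ∀ q ∈ remD D out, q ∈ D := fun q hq => (mem_remD.1 hq).1
    obtain ⟨k1, D', k2, k3, k4, k5, k6, k7⟩ := clOf_step (n := n) (D := remD D out)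
      (fun q hq => hD q (hs q hq)) (fun q hq => hn q (hs q hq))
      (fun q hq r hr => hc q (hs q hq) r (hs r hr)) hQr
    rw [← fs_clE] at k5 k6 k7
    set c := clOf n (remD D out) Q with hcdef
    -- every edge of `c` is in a remaining square
    have k8 : ∀ e ∈ fs (clE c), ∃ R ∈ remD D out, e ∈ sqs R ∧ sqs R ⊆ fs (clE c) := by
      intro e he
      obtain ⟨S, hS, h2⟩ := mem_biUnion.1 (k6 he)
      obtain ⟨R, hR, rfl⟩ := mem_SF.1 (k2 hS)
      exact ⟨R, hR, h2, k5 _ hS⟩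
    -- the remaining squares are disjoint from the old clusters
    have k9 : ∀ R ∈ remD D out, ∀ c' ∈ out, Disjoint (sqs R) (fs (clE c')) := by
      intro R hR c' hc'
      obtain ⟨h2, h3⟩ := mem_remD.1 hR
      rcases h.dis R h2 c' hc' with h4 | h4
      · exact absurd h4 (h3 c' hc')
      · exact h4
    have k10 : ∀ c' ∈ out, Disjoint (fs (clE c)) (fs (clE c')) := by
      intro c' hc'
      rw [disjoint_left]
      intro e he he'
      obtain ⟨R, hR, h2, _⟩ := k8 e he
      exact disjoint_left.1 (k9 R hR c' hc') h2 he'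
    refine ⟨?_, ?_, ?_, ?_, ?_⟩
    · intro c' hc'
      rcases List.mem_cons.1 hc' with rfl | hc'
      · exact k1
      · exact h.ok c' hc'
    · exact List.pairwise_cons.2 ⟨k10, h.pw⟩
    · intro c' hc'
      rcases List.mem_cons.1 hc' with rfl | hc'
      · intro e he
        obtain ⟨R, hR, h2, h3⟩ := k8 e he
        exact ⟨R, hs R hR, h2, h3⟩
      · exact h.sub c' hc'
    · intro R hR
      rcases List.mem_cons.1 hR with rfl | hR
      · exact ⟨c, List.mem_cons_self, k5 _ k3⟩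
      · obtain ⟨c', hc', h2⟩ := h.cov R hR
        exact ⟨c', List.mem_cons_of_mem _ hc', h2⟩
    · intro R hR c' hc'
      rcases List.mem_cons.1 hc' with rfl | hc'
      · by_cases h2 : R ∈ remD D out
        · by_cases h3 : sqs R ∈ D'
          · exact Or.inl (k5 _ h3)
          · refine Or.inr ?_
            rw [disjoint_left]
            exact k7 _ (mem_SF.2 ⟨R, h2, rfl⟩) h3
        · -- in an old cluster
          have h3 : ∃ c' ∈ out, sqs R ⊆ fs (clE c') := by
            by_contra hcon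
            push Not at hcon
            exact h2 (mem_remD.2 ⟨hR, hcon⟩)
          obtain ⟨c', hc', h4⟩ := h3
          exact Or.inr ((k10 c' hc').symm.mono_left h4)
      · exact h.dis R hR c' hc'

theorem clus_inv {n : ℕ} {D : List Sq4} (hD : ∀ q ∈ D, SqOK q) (hn : ∀ q ∈ D, ∀ v ∈ crn q, v < n)
    (hc : ∀ Q ∈ D, ∀ R ∈ D, conf Q R = false) : ∀ (l D1 : List Sq4) (out : List Cl), CInv D D1 out →
    (∀ q ∈ l, q ∈ D) → CInv D (l.reverse ++ D1) (l.foldl (cstep n D) out) := by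
  intro l
  induction l with
  | nil => intro D1 out h _; exact h
  | cons q l ih =>
    intro D1 out h hl
    have h1 := ih (q :: D1) (cstep n D out q) (cstep_inv hD hn hc h (hl q List.mem_cons_self))
      (fun r hr => hl r (List.mem_cons_of_mem _ hr))
    rw [List.foldl_cons, List.reverse_cons, List.append_assoc]
    exact h1

/-- **Specification of `clus`.** -/
theorem clus_spec {n : ℕ} {D : List Sq4} (hD : ∀ q ∈ D, SqOK q) (hn : ∀ q ∈ D, ∀ v ∈ crn q, v < n)
    (hc : ∀ Q ∈ D, ∀ R ∈ D, conf Q R = false) :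
    (∀ c ∈ clus n D, ClOK c) ∧
    ((clus n D).Pairwise fun c c' => Disjoint (fs (clE c)) (fs (clE c'))) ∧
    (∀ c ∈ clus n D, ∀ e ∈ fs (clE c), ∃ Q ∈ D, e ∈ sqs Q ∧ sqs Q ⊆ fs (clE c)) ∧
    (∀ Q ∈ D, ∃ c ∈ clus n D, sqs Q ⊆ fs (clE c)) ∧
    (∀ Q ∈ D, ∀ c ∈ clus n D, sqs Q ⊆ fs (clE c) ∨ Disjoint (sqs Q) (fs (clE c))) := by
  have h := clus_inv hD hn hc D [] [] ⟨by simp, List.Pairwise.nil, by simp, by simp, by simp⟩
    (fun _ h => h)
  refine ⟨h.ok, h.pw, h.sub, ?_, h.dis⟩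
  intro Q hQ
  exact h.cov Q (by simpa using hQ)

/-- a bound for the corners -/
def bnd (D : List Sq4) : ℕ := (D.flatMap crn).foldl (fun s b => s + b) 0 + 1

theorem foldl_add_eq (l : List ℕ) (a : ℕ) : l.foldl (fun s b => s + b) a = a + l.sum := by
  induction l generalizing a with
  | nil => simp
  | cons b l ih => rw [List.foldl_cons, ih, List.sum_cons]; omega

theorem lt_bnd {D : List Sq4} {q : Sq4} (hq : q ∈ D) {v : ℕ} (hv : v ∈ crn q) : v < bnd D := by
  unfold bnd
  rw [foldl_add_eq]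
  have h1 : v ∈ D.flatMap crn := List.mem_flatMap.2 ⟨q, hq, hv⟩
  have h2 := List.single_le_sum (l := D.flatMap crn) (fun _ _ => Nat.zero_le _) v h1
  omega

/-- **The clusters of a list of squares.** -/
def clusters (D : List Sq4) : List Cl := clus (bnd D) D

/-- **Specification of `clusters`.** -/
theorem clusters_spec {D : List Sq4} (hD : ∀ q ∈ D, SqOK q) (hc : ∀ Q ∈ D, ∀ R ∈ D, conf Q R = false) :
    (∀ c ∈ clusters D, ClOK c) ∧
    ((clusters D).Pairwise fun c c' => Disjoint (fs (clE c)) (fs (clE c'))) ∧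
    (∀ c ∈ clusters D, ∀ e ∈ fs (clE c), ∃ Q ∈ D, e ∈ sqs Q ∧ sqs Q ⊆ fs (clE c)) ∧
    (∀ Q ∈ D, ∃ c ∈ clusters D, sqs Q ⊆ fs (clE c)) ∧
    (∀ Q ∈ D, ∀ c ∈ clusters D, sqs Q ⊆ fs (clE c) ∨ Disjoint (sqs Q) (fs (clE c))) :=
  clus_spec hD (fun _ hq _ hv => lt_bnd hq hv) hc

/-! ### polynomial time -/

section
variable {ι : Type} [DEnc ι]

theorem pt_eqS {S R : ι → Sq4} (hS : PT S) (hR : PT R) : PT (fun x => eqS (S x) (R x)) :=
  PT.band (pt_sqIn (pt_sqE hR) hS) (pt_sqIn (pt_sqE hS) hR)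

theorem pt_crn {Q : ι → Sq4} (hq : PT Q) : PT (fun x => crn (Q x)) := by
  have h1 := PT.p1 hq
  have h2 := PT.p1 (PT.p2 hq)
  have h3 := PT.p1 (PT.p2 (PT.p2 hq))
  have h4 := PT.p2 (PT.p2 (PT.p2 hq))
  exact PT.cons h1 (PT.cons h2 (PT.cons h3 (PT.cons h4 (PT.const []))))

theorem pt_sameV {Q R : ι → Sq4} (hQ : PT Q) (hR : PT R) : PT (fun x => sameV (Q x) (R x)) :=
  PT.all (pt_crn hR) (p := fun y : ι × ℕ => (crn (Q y.1)).any fun u => decide (u = y.2))
    (PT.any (pt_crn (hQ.comp PT.fst)) (p := fun z : (ι × ℕ) × ℕ => decide (z.2 = z.1.2))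
      (PT.neq PT.snd (PT.snd.comp PT.fst)))

theorem pt_lf {a b : ι → ℕ} {S : ι → Sq4} (ha : PT a) (hb : PT b) (hS : PT S) :
    PT (fun x => lf (a x) (b x) (S x)) := by
  have h1 := PT.p1 hS
  have h2 := PT.p1 (PT.p2 hS)
  have h3 := PT.p1 (PT.p2 (PT.p2 hS))
  have h4 := PT.p2 (PT.p2 (PT.p2 hS))
  exact PT.cond (PT.bor (PT.band (PT.neq h1 ha) (PT.neq h3 hb)) (PT.band (PT.neq h1 hb) (PT.neq h3 ha)))
    (PT.cons h2 (PT.cons h4 (PT.const [])))
    (PT.cond (PT.bor (PT.band (PT.neq h2 ha) (PT.neq h4 hb)) (PT.band (PT.neq h2 hb) (PT.neq h4 ha)))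
      (PT.cons h1 (PT.cons h3 (PT.const []))) (PT.const []))

theorem pt_ptn {D : ι → List Sq4} {a b : ι → ℕ} {S : ι → Sq4} (hD : PT D) (ha : PT a) (hb : PT b)
    (hS : PT S) : PT (fun x => ptn (D x) (a x) (b x) (S x)) :=
  PT.any hD (p := fun y : ι × Sq4 => (!eqS (S y.1) y.2) &&
      ((lf (a y.1) (b y.1) (S y.1)).any fun l => (lf (a y.1) (b y.1) y.2).any fun m => decide (l = m)))
    (PT.band (PT.bnot (pt_eqS (hS.comp PT.fst) PT.snd))
      (PT.any (pt_lf (ha.comp PT.fst) (hb.comp PT.fst) (hS.comp PT.fst))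
        (p := fun z : (ι × Sq4) × ℕ => (lf (a z.1.1) (b z.1.1) z.1.2).any fun m => decide (z.2 = m))
        (PT.any (pt_lf (ha.comp (PT.fst.comp PT.fst)) (hb.comp (PT.fst.comp PT.fst)) (PT.snd.comp PT.fst))
          (p := fun w : ((ι × Sq4) × ℕ) × ℕ => decide (w.1.2 = w.2))
          (PT.neq (PT.snd.comp PT.fst) PT.snd))))

theorem pt_lvs {n : ι → ℕ} {D : ι → List Sq4} {a b : ι → ℕ} (hn : PT n) (hD : PT D) (ha : PT a)
    (hb : PT b) : PT (fun x => lvs (n x) (D x) (a x) (b x)) :=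
  PT.filter (PT.range hn)
    (p := fun y : ι × ℕ => ((D y.1).filter fun S => ptn (D y.1) (a y.1) (b y.1) S).any
      fun S => (lf (a y.1) (b y.1) S).any fun m => decide (m = y.2))
    (PT.any
      (PT.filter (hD.comp PT.fst) (p := fun z : (ι × ℕ) × Sq4 => ptn (D z.1.1) (a z.1.1) (b z.1.1) z.2)
        (pt_ptn (hD.comp (PT.fst.comp PT.fst)) (ha.comp (PT.fst.comp PT.fst)) (hb.comp (PT.fst.comp PT.fst))
          PT.snd))
      (p := fun z : (ι × ℕ) × Sq4 => (lf (a z.1.1) (b z.1.1) z.2).any fun m => decide (m = z.1.2))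
      (PT.any (pt_lf (ha.comp (PT.fst.comp PT.fst)) (hb.comp (PT.fst.comp PT.fst)) PT.snd)
        (p := fun w : ((ι × ℕ) × Sq4) × ℕ => decide (w.2 = w.1.1.2))
        (PT.neq PT.snd (PT.snd.comp (PT.fst.comp PT.fst)))))

theorem pt_clOf {n : ι → ℕ} {D : ι → List Sq4} {Q : ι → Sq4} (hn : PT n) (hD : PT D) (hQ : PT Q) :
    PT (fun x => clOf (n x) (D x) (Q x)) := by
  have h1 := PT.p1 hQ
  have h2 := PT.p1 (PT.p2 hQ)
  have h3 := PT.p1 (PT.p2 (PT.p2 hQ))
  have h4 := PT.p2 (PT.p2 (PT.p2 hQ))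
  refine PT.cond ?_ (PT.pair (PT.const false) (PT.pair (PT.const 0) (PT.pair (PT.const 0) (pt_crn hQ))))
    (PT.cond (pt_ptn hD h1 h3 hQ) (PT.pair (PT.const true) (PT.pair h1 (PT.pair h3 (pt_lvs hn hD h1 h3))))
      (PT.cond (pt_ptn hD h2 h4 hQ) (PT.pair (PT.const true) (PT.pair h2 (PT.pair h4 (pt_lvs hn hD h2 h4))))
        (PT.pair (PT.const true) (PT.pair h1 (PT.pair h3 (PT.cons h2 (PT.cons h4 (PT.const []))))))))
  exact PT.any hD (p := fun y : ι × Sq4 => sameV (Q y.1) y.2 && !eqS (Q y.1) y.2)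
    (PT.band (pt_sameV (hQ.comp PT.fst) PT.snd) (PT.bnot (pt_eqS (hQ.comp PT.fst) PT.snd)))

theorem pt_remD {D : ι → List Sq4} {out : ι → List Cl} (hD : PT D) (ho : PT out) :
    PT (fun x => remD (D x) (out x)) :=
  PT.filter hD (p := fun y : ι × Sq4 => !(out y.1).any fun c => sqIn (clE c) y.2)
    (PT.bnot (PT.any (ho.comp PT.fst) (p := fun z : (ι × Sq4) × Cl => sqIn (clE z.2) z.1.2)
      (pt_sqIn (pt_clE PT.snd) (PT.snd.comp PT.fst))))

theorem pt_cstep {n : ι → ℕ} {D : ι → List Sq4} {out : ι → List Cl} {Q : ι → Sq4} (hn : PT n)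
    (hD : PT D) (ho : PT out) (hQ : PT Q) : PT (fun x => cstep (n x) (D x) (out x) (Q x)) :=
  PT.cond (PT.any ho (p := fun z : ι × Cl => sqIn (clE z.2) (Q z.1)) (pt_sqIn (pt_clE PT.snd) (hQ.comp PT.fst)))
    ho (PT.cons (pt_clOf hn (pt_remD hD ho) hQ) ho)

theorem pt_clus {n : ι → ℕ} {D : ι → List Sq4} (hn : PT n) (hD : PT D) :
    PT (fun x => clus (n x) (D x)) := by
  -- size of one cluster
  have hcl : PT (fun y : ℕ × List Sq4 × Sq4 => clOf y.1 y.2.1 y.2.2) :=
    pt_clOf PT.fst PT.snd.p1 PT.snd.p2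
  obtain ⟨P, hP⟩ := hcl.size
  let K : ι → ℕ := fun x => P.eval (tsize (n x) + (tsize (D x) + tsize (D x) + 1) + 1)
  have hK : PB K := by
    have h1 : PB (fun x => tsize (n x) + (tsize (D x) + tsize (D x) + 1) + 1) :=
      ((hn.size.add ((hD.size.add hD.size).add (PB.const 1))).add (PB.const 1))
    obtain ⟨Q, hQ⟩ := h1
    exact ⟨P.comp Q, fun a => by rw [Polynomial.eval_comp]; exact evalMono P (hQ a)⟩
  have hsz : ∀ (x : ι) (out : List Cl) (l : List Sq4), (∀ q ∈ l, q ∈ D x) →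
      tsize (l.foldl (cstep (n x) (D x)) out) ≤ tsize out + l.length * (K x + 1) := by
    intro x out l
    induction l generalizing out with
    | nil => intro _; simp
    | cons q l ih =>
      intro hl
      have h1 := ih (cstep (n x) (D x) out q) (fun r hr => hl r (List.mem_cons_of_mem _ hr))
      have h2 : tsize (cstep (n x) (D x) out q) ≤ tsize out + (K x + 1) := by
        unfold cstep
        cases out.any (fun c => sqIn (clE c) q) with
        | true => simp only [cond_true]; omega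
        | false =>
          simp only [cond_false, tsize_cons]
          have h3 := hP (n x, remD (D x) out, q)
          have h4 : tsize (n x, remD (D x) out, q) ≤ tsize (n x) + (tsize (D x) + tsize (D x) + 1) + 1 := by
            have h5 := tsize_filter_le (D x) fun S => !out.any fun c => sqIn (clE c) S
            have h6 := tsize_mem_lt (hl q List.mem_cons_self)
            have h7 : tsize (remD (D x) out) ≤ tsize (D x) := h5
            simp only [tsize_pair]
            omega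
          have h5 := h3.trans (evalMono P h4)
          have h6 : tsize (clOf (n x) (remD (D x) out) q) ≤ K x := h5
          omega
      have e : (q :: l).length * (K x + 1) = l.length * (K x + 1) + (K x + 1) := by
        rw [List.length_cons]; ring
      rw [List.foldl_cons, e]
      omega
  refine PT.foldl (g := fun z : ι × List Cl × Sq4 => cstep (n z.1) (D z.1) z.2.1 z.2.2) hD (PT.const [])
    (pt_cstep (hn.comp PT.fst) (hD.comp PT.fst) PT.snd.p1 PT.snd.p2)
    ⟨fun x => tsize ([] : List Cl) + tsize (D x) * (K x + 1),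
      (PB.const _).add (hD.size.mul (hK.add (PB.const 1))), ?_⟩
  intro x l₁ l₂ h
  have h1 := hsz x [] l₁ (fun q hq => by rw [← h]; exact List.mem_append_left _ hq)
  refine h1.trans ?_
  have h2 : l₁.length ≤ tsize (D x) := by
    have := length_lt_tsize (D x)
    rw [← h] at this ⊢
    simp at this
    omega
  have := Nat.mul_le_mul_right (K x + 1) h2
  beta_reduce
  omega

theorem pt_bnd {D : ι → List Sq4} (hD : PT D) : PT (fun x => bnd (D x)) := by
  have hl : PT (fun x => (D x).flatMap crn) := PT.flatMap hD (g := fun y : ι × Sq4 => crn y.2) (pt_crn PT.snd)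
  refine PT.nadd ?_ (PT.const 1)
  refine PT.foldl (g := fun z : ι × ℕ × ℕ => z.2.1 + z.2.2) hl (PT.const 0) (PT.nadd PT.snd.p1 PT.snd.p2)
    ⟨fun x => tsize ((D x).flatMap crn), hl.size, ?_⟩
  intro x l₁ l₂ h
  have h1 : ∀ (l : List ℕ), tsize l.sum ≤ tsize l := by
    intro l
    induction l with
    | nil => simp
    | cons b l ih =>
      simp only [List.sum_cons, tsize_cons, tsize_nat] at ih ⊢
      omega
  have h2 : tsize l₁ ≤ tsize ((D x).flatMap crn) := by
    rw [← h]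
    have := tsize_append l₁ l₂
    have := tsize_pos l₂
    omega
  have h3 : l₁.foldl (fun s b => s + b) 0 = l₁.sum := by rw [foldl_add_eq]; omega
  beta_reduce
  rw [h3]
  exact (h1 l₁).trans h2

theorem pt_clusters {D : ι → List Sq4} (hD : PT D) : PT (fun x => clusters (D x)) := pt_clus (pt_bnd hD) hD

end

end Pool.Agent.PF4

end

section -- file PF4/CluF

/-! The cluster function fulfils the interface of the solver. -/

set_option autoImplicit false

namespace Pool.Agent.PF4.SV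

open Finset Pool.Agent.TFC Pool.Agent.Lib.helper60

theorem clsFn_clusters : ClsFn clusters := by
  refine ⟨?_⟩
  intro x D hx _ hD hc
  obtain ⟨h1, h2, h3, h4, _⟩ := clusters_spec (D := D) (fun q hq => sqG_ok q (hD q hq)) hc
  refine ⟨⟨h1, h2, ?_, fun c hc => card4_exP (h1 c hc)⟩, h4⟩
  intro c hc e he
  obtain ⟨Q, hQ, he', _⟩ := h3 c hc e he
  exact sqG_sub (hD Q hQ) he'

end Pool.Agent.PF4.SV

end

section -- file PF4/XZ

/-!
2F({4}) is in P, given the theorem on two conflicting squares.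
-/

set_option autoImplicit false

namespace Pool.Agent.PF4

open Finset Pool.Agent.TFC Pool.Agent.Lib.helper60

theorem rowsZ : SV.Rows :=
  SV.rows_of (fun _ _ _ hy hF _ hne hr hm => SVR.red_spec hy hF hne hr hm) SVR.pt_redS

/-- the solver -/
def solZ : Ins × List ℕ × List (ℕ × List Ed) × List Sq4 → Bool × List Ed := SV.slv rowsZ clusters

theorem pt_solZ : PT solZ := SV.pt_slv rowsZ (pt_clusters PT.id)

theorem solZ_spec (x : Ins) (g : List ℕ) (W : List (ℕ × List Ed)) (v : ℕ) (D : List Sq4) (hx : InsWF x)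
    (hd : Da x g W v) (hg : Ev x g) (hD : D.Nodup) (h1 : ∀ Q ∈ D, Q ∈ sqG x ∧ harm g Q = true)
    (h2 : ∀ Q ∈ D, ∀ R ∈ D, conf Q R = false) :
    ((solZ (x, g, W, D)).1 = true →
      MG x (solZ (x, g, W, D)).2 ∧ Cov x.1 g (degL (solZ (x, g, W, D)).2) ∧
      ∀ Q ∈ D, sqIn (solZ (x, g, W, D)).2 Q = false) ∧
    ((solZ (x, g, W, D)).1 = false → ¬ ∃ L, VM x L ∧ Cov x.1 g (degL L)) :=
  SV.slv_spec rowsZ SV.clsFn_clusters x g W v D hx hd
    (fun u hu => by rcases hg u hu with h | h <;> omega) hD (fun Q hQ => (h1 Q hQ).1) h2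

/-- **2F({4}) is in P, given the theorem on two conflicting squares** -/
theorem inP_of_Xf2 (hX : XF.XfStatement2) : InP TF4.TwoF4 := by
  obtain ⟨xf1, h1, h2, h3⟩ := XF.xf1_exists hX
  exact inP_of_SX2 ⟨solZ, xf1, pt_solZ, h1, solZ_spec, h2, h3⟩

end Pool.Agent.PF4

end
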