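import Pool.Agent.PFM.M17
import Pool.Agent.PFM.M19
import Pool.Agent.PFM.M22

section -- file PF4/X5

/-!
# Two conflicting squares with five vertices
-/

set_option autoImplicit false

namespace Pool.Agent.PF4.XT

open Finset Pool.Agent.TFC Pool.Agent.PF4 Pool.Agent.PF4.XF Pool.Agent.PF4.XU

section
variable {X : XD} {P : ℕ → Finset (Sym2 ℕ) → Prop} {D : Finset (Finset (Sym2 ℕ))} {j m : ℕ} {S : Finset ℕ}
  {M : ℕ → Finset (Sym2 ℕ)}

open Classical in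
/-- **the five-cycle move**: a square `x y q p` of the family and a vertex `r` adjacent to `y` and `q` -/
theorem five_T (h : OW X P D j m S M) {x y q p r : ℕ} (hd : Dist4 x y q p) (rx : r ≠ x) (ry : r ≠ y) (rq : r ≠ q)
    (rp : r ≠ p) (hy : y ∈ S) (hr : r ∈ S) (hQ : TFC.sq x y q p ∈ D) (hyr : s(y, r) ∈ X.E)
    (hrq : s(r, q) ∈ X.E) (hT : r ∈ X.T) : False := by
  obtain ⟨CL, hc⟩ := h.cls
  obtain ⟨L, hL, hcv, hM, _, hs, hu⟩ := h.wit hQ
  obtain ⟨c1, hc1, hsc⟩ := hc.cov _ hQ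
  have hisq : ∀ Z ∈ D, IsSq Z := fun Z hZ => h.isq hZ
  have F : Five D CL c1 L x y q p r := ⟨hM, hc, hisq, hd, rx, ry, rq, rp, hs, hu, hc1, hsc⟩
  have h1n : c1.edges ⊆ X.En := h.near hc hc1 (e := s(x, y)) (hsc (by simp [TFC.sq])) (a := y) (by simp)
    (Rch.mono (r := 0) (Nat.zero_le 3) hy)
  -- the capped frame
  obtain ⟨U, PL, pl, mi, hp⟩ := OW.pw h hc (A := fun _ => Acap D) (fun c _ _ => pca_cap hisq _)
    ⟨r, hr, hT, fun c _ _ => OW.mcap h hr hT _⟩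
  have h1U : c1 ∈ U := (hp.uc c1).2 ⟨hc1, h1n⟩
  have wyr : s(y, r) ∈ Ucl U ∪ PL := hp.rch y (Rch.mono (r := 0) (Nat.zero_le 3) hy) _ hyr (by simp)
  have wrq : s(r, q) ∈ Ucl U ∪ PL := hp.rch r (Rch.mono (r := 0) (Nat.zero_le 3) hr) _ hrq (by simp)
  by_cases hcap : ∀ c ∈ U, dg (Gx L y q r ∩ c.edges) r ≤ 2
  · refine F.all hp hL hcv hQ h1U wyr wrq (fun c hcU => F.cap ((hp.uc c).1 hcU).1 (hp.nl (hp.cW hcU)) (hcap c hcU)) ?_
    exact hp.mi' r hr hT ⟨inter_subset_right, fun c hcU => by rw [inter_assoc]; exact OW.mcap h hr hT _⟩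
  push Not at hcap
  obtain ⟨c0, h0, hf⟩ := hcap
  have hf' : 3 ≤ dg (Gx L y q r ∩ c0.edges) r := hf
  have h0C := ((hp.uc c0).1 h0).1
  cases c0 with
  | k4 Y => exact F.k4 hp hL hcv hQ h1U wyr wrq h0 hf'
  | k2 u v L0 =>
    by_cases hsf : Sf (L ∩ (Clu.k2 u v L0).edges)
    · -- the square-free family at the full cluster
      have hne : (Clu.k2 u v L0) ≠ c1 := by
        intro e
        rw [e] at hf'
        have := F.c1low
        omega
      obtain ⟨U', PL', pl', mi', hp'⟩ := OW.pw h hc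
        (A := fun c => if c = Clu.k2 u v L0 then TFC.SqFree else Acap D) (by
          intro c hcC _
          by_cases e : c = Clu.k2 u v L0
          · rw [e, if_pos rfl]
            exact pca_sqFree hisq (hc.val _ h0C)
          · rw [if_neg e]
            exact pca_cap hisq _)
        ⟨r, hr, hT, fun c hcC _ => by
          by_cases e : c = Clu.k2 u v L0
          · rw [e, if_pos rfl]
            exact OW.msf h hc h0C hr hT
          · rw [if_neg e]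
            exact OW.mcap h hr hT _⟩
      have h1U' : c1 ∈ U' := (hp'.uc c1).2 ⟨hc1, h1n⟩
      have wyr' : s(y, r) ∈ Ucl U' ∪ PL' := hp'.rch y (Rch.mono (r := 0) (Nat.zero_le 3) hy) _ hyr (by simp)
      have wrq' : s(r, q) ∈ Ucl U' ∪ PL' := hp'.rch r (Rch.mono (r := 0) (Nat.zero_le 3) hr) _ hrq (by simp)
      refine F.all hp' hL hcv hQ h1U' wyr' wrq' (fun c hcU => ?_) ?_
      · by_cases e : c = Clu.k2 u v L0
        · rw [e, if_pos rfl]
          rw [sqFree_iff fun e he => k2_nl (hc.val _ h0C) e (mem_inter.1 he).2]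
          exact F.sf h0C hsf
        · rw [if_neg e]
          exact F.cap ((hp'.uc c).1 hcU).1 (hp'.nl (hp'.cW hcU))
            ((F.low h0C ((hp'.uc c).1 hcU).1 e hf').trans (by norm_num))
      · refine hp'.mi' r hr hT ⟨inter_subset_right, fun c hcU => ?_⟩
        show (if c = Clu.k2 u v L0 then TFC.SqFree else Acap D) (M r ∩ (Ucl U' ∪ PL') ∩ c.edges)
        by_cases e : c = Clu.k2 u v L0
        · rw [e] at hcU ⊢
          rw [if_pos rfl, inter_assoc, inter_eq_right.2 (hp'.cW hcU)]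
          exact OW.msf h hc h0C hr hT
        · rw [if_neg e, inter_assoc]
          exact OW.mcap h hr hT _
    · -- the full cluster contains a square of the witness
      obtain ⟨⟨b, hbL, hbc⟩, _⟩ := F.full hf'
      obtain ⟨uv, uL, vL, _⟩ : u ≠ v ∧ u ∉ L0 ∧ v ∉ L0 ∧ 2 ≤ #L0 := hc.val _ h0C
      rcases mem_k2.1 hbc with ⟨g | g, _⟩ | ⟨_, g⟩
      · subst g
        exact F.hub hp hL hcv hQ h1U wyr wrq h0 (Or.inl rfl) hf' hsf
      · subst g
        exact F.hub hp hL hcv hQ h1U wyr wrq h0 (Or.inr rfl) hf' hsf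
      · -- `r` is a leaf: at most two edges
        have : {e ∈ Gx L y q r ∩ (Clu.k2 u v L0).edges | r ∈ e} ⊆ {s(u, r), s(v, r)} := by
          intro e he
          simp only [mem_filter, mem_inter] at he
          obtain ⟨w, rfl⟩ := he.2
          have h2 := he.1.2
          rw [mem_k2] at h2
          simp only [mem_insert, mem_singleton]
          rcases h2 with ⟨h3 | h3, _⟩ | ⟨h3 | h3, _⟩
          · exact absurd g (h3 ▸ uL)
          · exact absurd g (h3 ▸ vL)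
          · rw [h3]; exact Or.inl Sym2.eq_swap
          · rw [h3]; exact Or.inr Sym2.eq_swap
        have h2 := card_le_card this
        have h3 := card_le_two (a := s(u, r)) (b := s(v, r))
        unfold dg at hf'
        omega

end

/-- **two conflicting squares with five vertices** -/
theorem pt5 (X₁ X₂ : XD) (P₁ P₂ : ℕ → Finset (Sym2 ℕ) → Prop) (D₁ D₂ : Finset (Finset (Sym2 ℕ)))
    (j₁ m₁ j₂ m₂ : ℕ) (S : Finset ℕ) (M : ℕ → Finset (Sym2 ℕ)) (h1 : OW X₁ P₁ D₁ j₁ m₁ S M)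
    (h2 : OW X₂ P₂ D₂ j₂ m₂ S M) (_ : X₁.n = X₂.n) (hT : X₁.T = X₂.T) (x y q p r : ℕ)
    (hn : [x, y, q, p, r].Nodup) (hx : x ∈ S) (hy : y ∈ S) (hq : q ∈ S) (hp : p ∈ S) (hr : r ∈ S)
    (hQ : TFC.sq x y q p ∈ D₁) (hR : TFC.sq x y r q ∈ D₂) (hRE : TFC.sq x y r q ⊆ X₁.E)
    (hQE : TFC.sq x y q p ⊆ X₂.E) : False := by
  simp only [List.nodup_cons, List.mem_cons, List.not_mem_nil, or_false, not_or, List.nodup_nil, and_true,
    not_false_eq_true] at hn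
  obtain ⟨⟨xy, xq, xp, xr⟩, ⟨yq, yp, yr⟩, ⟨qp, qr⟩, pr⟩ := hn
  by_cases hrT : r ∈ X₁.T
  · exact five_T h1 ⟨xy, xq, xp, yq, yp, qp⟩ (Ne.symm xr) (Ne.symm yr) (Ne.symm qr) (Ne.symm pr) hy hr hQ
      (hRE (by simp [TFC.sq])) (hRE (by simp [TFC.sq])) hrT
  · by_cases hpT : p ∈ X₁.T
    · -- world 2: `R = r q x y`, the vertex `p` is adjacent to `q` and `x`
      have e : TFC.sq x y r q = TFC.sq r q x y := by rw [XT.sq_rot, XT.sq_rot]
      rw [e] at hR
      exact five_T h2 (x := r) (y := q) (q := x) (p := y) (r := p) ⟨Ne.symm qr, Ne.symm xr, Ne.symm yr,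
        Ne.symm xq, Ne.symm yq, xy⟩ pr (Ne.symm qp) (Ne.symm xp) (Ne.symm yp) hq hp hR
        (hQE (by simp [TFC.sq])) (hQE (by simp [TFC.sq])) (hT ▸ hpT)
    · exact hpT (h1.tri ⟨xy, xq, xp, yq, yp, qp⟩ hx hQ (hRE (by simp [TFC.sq, Sym2.eq_swap])))

end Pool.Agent.PF4.XT

end

section -- file PF4/XV1

/-!
# Pattern p4, STEP 0

`xr` and `ys` lie in no square of `D`.
-/

set_option autoImplicit false

namespace Pool.Agent.PF4.XT

open Finset Pool.Agent.TFC Pool.Agent.PF4 Pool.Agent.PF4.LD Pool.Agent.PF4.XC Pool.Agent.PF4.XF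

/-- `u`, `w` are the centres, `L` the leaves -/
structure KH (c : Clu ℕ) (u w : ℕ) (L : Finset ℕ) : Prop where
  eq : c = Clu.k2 u w L ∨ c = Clu.k2 w u L
  uw : u ≠ w
  uL : u ∉ L
  wL : w ∉ L

theorem KH.mem {c : Clu ℕ} {u w : ℕ} {L : Finset ℕ} (h : KH c u w L) {a b : ℕ} :
    s(a, b) ∈ c.edges ↔ ((a = u ∨ a = w) ∧ b ∈ L) ∨ ((b = u ∨ b = w) ∧ a ∈ L) := by
  rcases h.eq with rfl | rfl
  · exact mem_k2
  · rw [mem_k2, or_comm (a := a = w), or_comm (a := b = w)]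

theorem KH.swap {c : Clu ℕ} {u w : ℕ} {L : Finset ℕ} (h : KH c u w L) : KH c w u L :=
  ⟨h.eq.symm, h.uw.symm, h.wL, h.uL⟩

/-- the centres of a cluster with a square -/
theorem k2Hubs {c : Clu ℕ} (hv : c.Valid) (hk : K2 c) {x y q p : ℕ} (h4 : Dist4 x y q p)
    (hs : TFC.sq x y q p ⊆ c.edges) :
    (∃ L, KH c x q L ∧ y ∈ L ∧ p ∈ L) ∨ (∃ L, KH c y p L ∧ x ∈ L ∧ q ∈ L) := by
  obtain ⟨n1, n2, n3, n4, n5, n6⟩ := h4
  rcases shape hv ⟨n1, n2, n3, n4, n5, n6⟩ hs with h | ⟨L, h, h1, h2, h3, h5⟩ | ⟨L, h, h1, h2, h3, h5⟩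
  · obtain ⟨a, b, L, rfl⟩ := hk
    cases h
  · exact Or.inl ⟨L, ⟨h, n2, h3, h5⟩, h1, h2⟩
  · exact Or.inr ⟨L, ⟨h, n5, h3, h5⟩, h1, h2⟩

/-- a leaf of a square is adjacent to the centre in the square -/
theorem KH.leaf_edge {c : Clu ℕ} {u w : ℕ} {L : Finset ℕ} (h : KH c u w L) (hv : c.Valid) {Z : Finset (Sym2 ℕ)}
    (hZ : IsSq Z) (hs : Z ⊆ c.edges) {l : ℕ} (hl : l ∈ L) {g : Sym2 ℕ} (hg : g ∈ Z) (hlg : l ∈ g) :
    s(u, l) ∈ Z := by
  have key : ∀ u w : ℕ, (Clu.k2 u w L).Valid → Z ⊆ (Clu.k2 u w L).edges → u ∉ L → w ∉ L →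
      s(u, l) ∈ Z ∧ s(w, l) ∈ Z := by
    intro u w hv hs hu hw
    obtain ⟨b, c, hb, hc, bc, rfl⟩ := k2_form hv hZ hs
    rcases sq_vert hg hlg with h1 | h1 | h1 | h1
    · exact absurd (h1 ▸ hl) hu
    · subst h1
      exact ⟨by simp [TFC.sq], by rw [Sym2.eq_swap]; simp [TFC.sq]⟩
    · exact absurd (h1 ▸ hl) hw
    · subst h1
      exact ⟨by rw [Sym2.eq_swap]; simp [TFC.sq], by simp [TFC.sq]⟩
  rcases h.eq with rfl | rfl
  · exact (key u w hv hs h.uL h.wL).1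
  · exact (key w u hv hs h.wL h.uL).2

section
variable {X : XD} {P : ℕ → Finset (Sym2 ℕ) → Prop} {D : Finset (Finset (Sym2 ℕ))} {j : ℕ} {S : Finset ℕ}
  {M : ℕ → Finset (Sym2 ℕ)} {F : Clu ℕ → Prop} {CL U : List (Clu ℕ)} {PL : Finset (Sym2 ℕ)} {pl mi : ℕ → Prop}

/-- the leaf lemma in a frame in which only the cluster itself may be uncapped -/
theorem PW.leafK (h : PW X P D j S M (Fr D F) CL U PL pl mi) {c : Clu ℕ} (hcU : c ∈ U) {u w : ℕ} {Lf : Finset ℕ}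
    (hK : KH c u w Lf) (hF : ∀ c', F c' → c' = c) {b' c' l : ℕ} (hb : b' ∈ Lf) (hc : c' ∈ Lf) (hl : l ∈ Lf)
    (bc : b' ≠ c') (bl : b' ≠ l) (cl : c' ≠ l) (hD : TFC.sq u c' w l ∈ D) :
    1 ≤ con (pl c') (mi c') (-1) + con (pl b') (mi b') 1 := by
  obtain ⟨L, hL⟩ := h.wt hD
  have nL : ∀ l ∈ Lf, l ≠ u ∧ l ≠ w := fun l hl => ⟨fun h => hK.uL (h ▸ hl), fun h => hK.wL (h ▸ hl)⟩
  have huw := hK.uw
  have hZc : TFC.sq u c' w l ⊆ c.edges := by
    intro f hf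
    simp only [TFC.sq, Finset.mem_insert, Finset.mem_singleton] at hf
    rcases hf with rfl | rfl | rfl | rfl
    · exact hK.mem.2 (Or.inl ⟨Or.inl rfl, hc⟩)
    · exact hK.mem.2 (Or.inr ⟨Or.inr rfl, hc⟩)
    · exact hK.mem.2 (Or.inl ⟨Or.inr rfl, hl⟩)
    · exact hK.mem.2 (Or.inr ⟨Or.inl rfl, hl⟩)
  obtain ⟨p1, p2⟩ := pth4 (D := D) h.isq (F := F) (c := c) (v := b') (u := u) (e := l) (w := w) (b := c') (by
    simp only [List.nodup_cons, List.mem_cons, List.not_mem_nil, or_false, not_or, List.nodup_nil, and_true,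
      not_false_eq_true]
    exact ⟨⟨(nL b' hb).1, bl, (nL b' hb).2, bc⟩, ⟨(nL l hl).1.symm, huw, (nL c' hc).1.symm⟩,
      ⟨(nL l hl).2, cl.symm⟩, (nL c' hc).2.symm⟩)
  have hFs : ({s(b', u), s(u, l), s(l, w), s(w, c')} : Finset (Sym2 ℕ)) ⊆ c.edges := by
    intro f hf
    simp only [Finset.mem_insert, Finset.mem_singleton] at hf
    rcases hf with rfl | rfl | rfl | rfl
    · exact hK.mem.2 (Or.inr ⟨Or.inl rfl, hb⟩)
    · exact hK.mem.2 (Or.inl ⟨Or.inl rfl, hl⟩)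
    · exact hK.mem.2 (Or.inr ⟨Or.inr rfl, hl⟩)
    · exact hK.mem.2 (Or.inl ⟨Or.inr rfl, hc⟩)
  have ho := h.out hD hL hcU hZc (fun c'' _ hf hne => absurd (hF c'' hf) hne)
  have h1 := h.wz hD hL hcU hZc ho hFs p1
  have d4 : Dist4 u c' w l := ⟨(nL c' hc).1.symm, huw, (nL l hl).1.symm, (nL c' hc).2, cl, (nL l hl).2.symm⟩
  have dq := dv_sq d4
  simp only [ev_single] at dq
  have e : dv ({s(b', u), s(u, l), s(l, w), s(w, c')} : Finset (Sym2 ℕ)) - dv (TFC.sq u c' w l) =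
      Pi.single c' (-1) + Pi.single b' 1 := by
    have t4 : (Pi.single c' (-1) : ℕ → ℤ) = -Pi.single c' 1 := by rw [← Pi.single_neg]
    rw [p2, dq, t4]
    abel
  rw [e, ph_two (h.v2' (h.cW' hcU (hK.mem.2 (Or.inl ⟨Or.inl rfl, hc⟩) : s(u, c') ∈ c.edges)) (by simp))
    (h.v2' (h.cW' hcU (hK.mem.2 (Or.inl ⟨Or.inl rfl, hb⟩) : s(u, b') ∈ c.edges)) (by simp)) bc.symm] at h1
  exact h1

/-- partners -/
theorem PW.parK (h : PW X P D j S M (Fr D F) CL U PL pl mi) {c : Clu ℕ} (hcU : c ∈ U) {u w : ℕ} {Lf : Finset ℕ}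
    (hK : KH c u w Lf) {l : ℕ} (hl : l ∈ Lf) : ∃ l' ∈ Lf, l' ≠ l ∧ TFC.sq u l w l' ∈ D := by
  rcases hK.eq with rfl | rfl
  · exact h.par hcU l hl
  · obtain ⟨l', h1, h2, h3⟩ := h.par hcU l hl
    refine ⟨l', h1, h2, ?_⟩
    have e : TFC.sq u l w l' = TFC.sq w l u l' := by rw [sq_rot, sq_rot, sq_swp]
    rw [e]; exact h3

theorem con_two_mi {p m : Prop} (h : m) : con p m 2 ≤ 0 := by
  by_contra hc
  exact (con_two_pos (p := p) (m := m) (by omega)).2 h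

theorem PW.asf (h : PW X P D j S M (Fr D F) CL U PL pl mi) {c : Clu ℕ} (hc : c ∈ U) (hF : F c) :
    ASf (Fr D F) c := fun K hK hs => by
  rw [Fr_pos hF]
  exact sqFree_of (h.nl (hK.trans (h.cW' hc))) hs

theorem PW.freeF (h : PW X P D j S M (Fr D F) CL U PL pl mi) {K : Finset (Sym2 ℕ)} {e : Sym2 ℕ} {c : Clu ℕ}
    (hc : c ∈ U) (hF : F c) (he : e ∈ c.edges) (hs : NSq (K ∩ c.edges)) : Free (Fr D F) U K e := by
  intro c' hc' he'
  have := h.eqc hc hc' he he'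
  subst this
  exact ⟨h.asf hc hF, hs⟩

theorem Fr_mono {D : Finset (Finset (Sym2 ℕ))} (F : Clu ℕ → Prop) : Dwn (Fr D F) := by
  intro c K K' hs hK
  by_cases hf : F c
  · rw [Fr_pos hf] at hK ⊢
    intro a b c' d hsq
    exact hK a b c' d ⟨hsq.ac, hsq.bd, hs hsq.ab, hs hsq.bc, hs hsq.cd, hs hsq.da⟩
  · rw [Fr_neg hf] at hK ⊢
    exact ⟨hK.1.mono hs, fun Z hZ h => hK.2 Z hZ (h.trans hs)⟩

end

section
variable {X : XD} {P : ℕ → Finset (Sym2 ℕ) → Prop} {D : Finset (Finset (Sym2 ℕ))} {j m : ℕ} {S : Finset ℕ}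
  {M : ℕ → Finset (Sym2 ℕ)} {CL U : List (Clu ℕ)} {PL : Finset (Sym2 ℕ)} {x y q p r s a b : ℕ}
  {c1 c2 : Clu ℕ} {L1 L2 : Finset (Sym2 ℕ)}

theorem V0.dQ (v : V0 X P D j m S M CL U PL x y q p r s a b c1 c2 L1 L2) : Dist4 x y q p := by
  obtain ⟨⟨xy, xq, xp, xr, xs, xa, xb⟩, ⟨yq, yp, yr, ys, ya, yb⟩, ⟨qp, qr, qs, qa, qb⟩, ⟨pr, ps, pa, pb⟩,
    ⟨rs, ra, rb⟩, ⟨sa, sb⟩, ab⟩ := nd8 v.nd
  exact ⟨xy, xq, xp, yq, yp, qp⟩

theorem V0.dZ (v : V0 X P D j m S M CL U PL x y q p r s a b c1 c2 L1 L2) : Dist4 r s b a := by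
  obtain ⟨⟨xy, xq, xp, xr, xs, xa, xb⟩, ⟨yq, yp, yr, ys, ya, yb⟩, ⟨qp, qr, qs, qa, qb⟩, ⟨pr, ps, pa, pb⟩,
    ⟨rs, ra, rb⟩, ⟨sa, sb⟩, ab⟩ := nd8 v.nd
  exact ⟨rs, rb, ra, sb, sa, ab.symm⟩

/-- edges of `L2` at a corner of `Z` are in `c2` -/
theorem V0.at2 (v : V0 X P D j m S M CL U PL x y q p r s a b c1 c2 L1 L2) {pl mi : ℕ → Prop} {A : Clu ℕ → Finset (Sym2 ℕ) → Prop}
    (h : PW X P D j S M A CL U PL pl mi) {g : Sym2 ℕ} (hg : g ∈ L2) {z : ℕ} (hz : z ∈ g) {e : Sym2 ℕ}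
    (he : e ∈ TFC.sq r s b a) (hze : z ∈ e) {c : Clu ℕ} (hc : c ∈ U) (hgc : g ∈ c.edges) : c = c2 :=
  h.eqc hc v.c2U hgc (v.z2 (v.w2.at h.isq v.hZ he hze hg hz))

/-- edges of `L1` at a corner of `Q` are in `c1` -/
theorem V0.at1 (v : V0 X P D j m S M CL U PL x y q p r s a b c1 c2 L1 L2) {pl mi : ℕ → Prop} {A : Clu ℕ → Finset (Sym2 ℕ) → Prop}
    (h : PW X P D j S M A CL U PL pl mi) {g : Sym2 ℕ} (hg : g ∈ L1) {z : ℕ} (hz : z ∈ g) {e : Sym2 ℕ}
    (he : e ∈ TFC.sq x y q p) (hze : z ∈ e) {c : Clu ℕ} (hc : c ∈ U) (hgc : g ∈ c.edges) : c = c1 :=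
  h.eqc hc v.c1U hgc (v.q1 (v.w1.at h.isq v.hQ he hze hg hz))

/-- **(i)** `xr` is not in `c1` -/
theorem V0.xr1 (v : V0 X P D j m S M CL U PL x y q p r s a b c1 c2 L1 L2) : s(x, r) ∉ c1.edges := by
  intro hxr
  obtain ⟨⟨xy, xq, xp, xr, xs, xa, xb⟩, ⟨yq, yp, yr, ys, ya, yb⟩, ⟨qp, qr, qs, qa, qb⟩, ⟨pr, ps, pa, pb⟩,
    ⟨rs, ra, rb⟩, ⟨sa, sb⟩, ab⟩ := nd8 v.nd
  obtain ⟨pl, mi, h, hm⟩ := v.wa.fr (fun c => c = c1) fun c hc => hc ▸ v.k1
  have hF : ∀ c, c = c1 → c = c1 ∨ c = c2 := fun c hc => Or.inl hc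
  obtain ⟨px, py⟩ := v.xyZ h hm hF (fun _ => rfl) fun _ => rfl
  obtain ⟨q1, q2⟩ := v.qX h hF px py
  rcases k2Hubs (h.val' v.c1U) v.k1 v.dQ v.q1 with ⟨L', hK, hy, hp⟩ | ⟨L', hK, hx, hq⟩
  swap
  · rcases hK.mem.1 hxr with ⟨h1 | h1, _⟩ | ⟨h1 | h1, _⟩
    · exact xy h1
    · exact xp h1
    · exact yr h1.symm
    · exact pr h1.symm
  have hr : r ∈ L' := by
    rcases hK.mem.1 hxr with ⟨_, h1⟩ | ⟨_, h1⟩
    · exact h1
    · exact absurd h1 hK.uL
  have hrq : s(r, q) ∈ c1.edges := hK.mem.2 (Or.inr ⟨Or.inr rfl, hr⟩)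
  have hrsZ : s(r, s) ∈ TFC.sq r s b a := by simp [TFC.sq]
  have K0 := h.base v.hZ v.w2 v.c2U v.z2 (fun c' _ hf _ => by rw [show c' = c1 from hf]; exact v.n2)
    (R := {s(r, s)}) (Finset.singleton_subset_iff.2 hrsZ) (by simp)
  have hsub : (L2 ∩ (Ucl U ∪ PL)) \ {s(r, s)} ⊆ L2 := Finset.sdiff_subset.trans Finset.inter_subset_left
  have hrsK : s(r, s) ∉ (L2 ∩ (Ucl U ∪ PL)) \ {s(r, s)} := by simp
  have K1 := h.ins K0 (h.cW' v.c1U hrq) (by
    intro c hc hec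
    have hcc : c = c1 := h.eqc hc v.c1U hec hrq
    left
    refine ⟨fun z hz hzc => ?_, Or.inl hcc⟩
    exact absurd (hcc.symm.trans (v.at2 h (hsub hz) (z := r) (by simp) hrsZ (by simp) hc hzc)) v.ne)
  obtain ⟨e, f, h4, p1, p2, p3⟩ := v.p2
  have hysW := v.wa.reg v.yS v.ys (by simp)
  have K2 := h.ins K1 hysW (by
    intro c hc hec
    have hcc : c ≠ c1 := by
      rintro rfl
      rcases hK.mem.1 hec with ⟨h1 | h1, _⟩ | ⟨h1 | h1, _⟩
      · exact xy h1.symm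
      · exact yq h1
      · exact xs h1.symm
      · exact qs h1.symm
    by_cases hc2 : c = c2
    · left
      refine ⟨fun z hz hzc => ?_, Or.inr ?_⟩
      · exfalso
        rcases Finset.mem_insert.1 hz with hz | hz
        · have h3 : y ∈ s(r, q) := by rw [← hz]; simp
          rcases Sym2.mem_iff.1 h3 with h3 | h3
          · exact yr h3
          · exact yq h3
        · have h5 : s(y, z) ∈ L2 ∩ c2.edges := Finset.mem_inter.2 ⟨hsub hz, hc2 ▸ hzc⟩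
          rw [inter_eq (h.val' v.c2U) (h.isq _ v.hZ) v.z2 v.w2.m2 v.w2.sq] at h5
          rcases sq_vert h5 (v := y) (by simp) with h3 | h3 | h3 | h3
          · exact yr h3
          · exact ys h3
          · exact yb h3
          · exact ya h3
      · refine (dg_ins_off ?_).trans (dgLe1' v.w2.m2 hsub (v.w2.sq hrsZ) (by simp) hrsK)
        rw [Sym2.mem_iff]
        rintro (h3 | h3)
        · exact rs h3.symm
        · exact qs h3.symm
    · right
      refine ⟨fun z hz hzc => ?_, Or.inr ?_⟩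
      · exfalso
        rcases Finset.mem_insert.1 hz with hz | hz
        · have h3 : s ∈ s(r, q) := by rw [← hz]; simp
          rcases Sym2.mem_iff.1 h3 with h3 | h3
          · exact rs h3.symm
          · exact qs h3.symm
        · exact hc2 (v.at2 h (hsub hz) (z := s) (by simp) hrsZ (by simp) hc hzc)
      · refine (dg_ins_off ?_).trans ((h.dgK hc y).trans (dgLe1 v.w2.m2 (Finset.mem_inter.1 p3).1 (by simp)
          fun hc' => hcc (h.eqc hc v.c1U hc' (Finset.mem_inter.1 p3).2)))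
        rw [Sym2.mem_iff]
        rintro (h3 | h3)
        · exact yr h3
        · exact yq h3)
  have n1 : s(r, q) ∉ (L2 ∩ (Ucl U ∪ PL)) \ {s(r, s)} := fun hc => by
    rcases sq_vert (v := q) (v.w2.at h.isq v.hZ hrsZ (v := r) (by simp) (hsub hc) (by simp)) (by simp) with
      h3 | h3 | h3 | h3
    · exact qr h3
    · exact qs h3
    · exact qb h3
    · exact qa h3
  have n2 : s(y, s) ∉ insert s(r, q) ((L2 ∩ (Ucl U ∪ PL)) \ {s(r, s)}) := fun hc => by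
    rcases Finset.mem_insert.1 hc with hc | hc
    · have h3 : y ∈ s(r, q) := by rw [← hc]; simp
      rcases Sym2.mem_iff.1 h3 with h3 | h3
      · exact yr h3
      · exact yq h3
    · rcases sq_vert (v := y) (v.w2.at h.isq v.hZ hrsZ (v := s) (by simp) (hsub hc) (by simp)) (by simp) with
        h3 | h3 | h3 | h3
      · exact yr h3
      · exact ys h3
      · exact yb h3
      · exact ya h3
  have hW : s(r, s) ∈ L2 ∩ (Ucl U ∪ PL) := Finset.mem_inter.2 ⟨v.w2.sq hrsZ, h.cW' v.c2U (v.z2 hrsZ)⟩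
  have h5 := h.ev v.hZ v.w2 v.c2U v.z2 K2 (d := Pi.single q 1 + Pi.single y 1) (by
    rw [XT.dv_insert n2, XT.dv_insert n1, dv_sdiff (Finset.singleton_subset_iff.2 hW), dv_pair rs, dv_pair qr.symm,
      dv_pair ys]
    abel)
  rw [ph_two (h.v2' (h.cW' v.c1U hrq) (by simp)) (h.v2' hysW (by simp)) yq.symm, con_X q2 q1] at h5
  have h6 := con_one (pl y) (mi y)
  omega

/-- **(ii)** `ys` is in no other cluster -/
theorem V0.ys4 (v : V0 X P D j m S M CL U PL x y q p r s a b c1 c2 L1 L2) {c4 : Clu ℕ} (hc4 : c4 ∈ U)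
    (hec : s(y, s) ∈ c4.edges) : c4 = c1 := by
  by_contra hne
  obtain ⟨pl0, mi0, h0, hm0⟩ := v.wa.fr (fun _ => False) fun c hc => hc.elim
  obtain ⟨p0x, p0y⟩ := v.xyZ h0 hm0 (fun _ h => h.elim) (fun hc => v.xr1 hc)
    fun hc => hne (h0.eqc hc4 v.c1U hec hc)
  obtain ⟨Z4, hZ4, hyZ, hZ4c⟩ := h0.cls.edge_sq ((h0.uc c4).1 hc4).1 hec
  obtain ⟨L4, hL4⟩ := h0.wt hZ4
  have hyq : s(y, q) ∈ c1.edges := v.q1 (by simp [TFC.sq])
  have hN : NSq (L4 ∩ c1.edges) := h0.lemE hZ4 hL4 hc4 hZ4c v.c1U (Ne.symm hne) v.k1 hyZ (v := y) (by simp) hyq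
    fun h1 => h1.2 p0y
  obtain ⟨pl, mi, h, hm⟩ := v.wa.fr (fun c => c = c1) fun c hc => hc ▸ v.k1
  have hF : ∀ c, c = c1 → c = c1 ∨ c = c2 := fun c hc => Or.inl hc
  obtain ⟨px, py⟩ := v.xyZ h hm hF (fun _ => rfl) fun _ => rfl
  have hq := v.qX h hF px py
  refine h.L2X hZ4 hL4 hc4 hZ4c (fr_am2 h.isq _ _) (h.out hZ4 hL4 hc4 hZ4c fun c' _ hf _ => ?_) hyZ
    (h.cW' v.c1U hyq) (fun hc => hne (h.eqc hc4 v.c1U hc hyq)) (h.freeF v.c1U rfl hyq hN) hq
  rw [show c' = c1 from hf]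
  exact hN

/-- **(iii)** `ys` is not in `c1` -/
theorem V0.ys1 (v : V0 X P D j m S M CL U PL x y q p r s a b c1 c2 L1 L2) : s(y, s) ∉ c1.edges := by
  intro hys
  obtain ⟨⟨xy, xq, xp, xr, xs, xa, xb⟩, ⟨yq, yp, yr, ys, ya, yb⟩, ⟨qp, qr, qs, qa, qb⟩, ⟨pr, ps, pa, pb⟩,
    ⟨rs, ra, rb⟩, ⟨sa, sb⟩, ab⟩ := nd8 v.nd
  obtain ⟨pl, mi, h, hm⟩ := v.wa.fr (fun c => c = c1) fun c hc => hc ▸ v.k1
  have hF : ∀ c, c = c1 → c = c1 ∨ c = c2 := fun c hc => Or.inl hc
  obtain ⟨px, py⟩ := v.xyZ h hm hF (fun _ => rfl) fun _ => rfl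
  obtain ⟨q1, q2⟩ := v.qX h hF px py
  -- the centres of `c1` are `y`, `p`
  rcases k2Hubs (h.val' v.c1U) v.k1 v.dQ v.q1 with ⟨L', hK, hy, hp⟩ | ⟨L', hK, hx, hq⟩
  · rcases hK.mem.1 hys with ⟨h1 | h1, _⟩ | ⟨h1 | h1, _⟩
    · exact xy h1.symm
    · exact yq h1
    · exact xs h1.symm
    · exact qs h1.symm
  have hs : s ∈ L' := by
    rcases hK.mem.1 hys with ⟨_, h1⟩ | ⟨_, h1⟩
    · exact h1
    · exact absurd h1 hK.uL
  -- `y s p q` is a square of the family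
  have hZ3 : TFC.sq y s p q ∈ D := by
    obtain ⟨l, hl, hls, hlD⟩ := h.parK v.c1U hK hs
    by_cases hlq : l = q
    · rw [hlq] at hlD; exact hlD
    · exfalso
      have h1 := h.leafK v.c1U hK (fun c' hc => hc) hq hs hl qs (Ne.symm hlq) hls.symm hlD
      rw [con_X q2 q1] at h1
      have h2 := con_neg_one (pl s) (mi s)
      omega
  have hZ3c : TFC.sq y s p q ⊆ c1.edges := by
    intro f hf
    simp only [TFC.sq, Finset.mem_insert, Finset.mem_singleton] at hf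
    rcases hf with rfl | rfl | rfl | rfl
    · exact hK.mem.2 (Or.inl ⟨Or.inl rfl, hs⟩)
    · exact hK.mem.2 (Or.inr ⟨Or.inr rfl, hs⟩)
    · exact hK.mem.2 (Or.inl ⟨Or.inr rfl, hq⟩)
    · exact hK.mem.2 (Or.inr ⟨Or.inl rfl, hq⟩)
  have hys3 : s(y, s) ∈ TFC.sq y s p q := by simp [TFC.sq]
  obtain ⟨L3, hL3⟩ := h.wt hZ3
  -- all clusters capped: `r`, `s` are not of type X unless `xr` is in `c2`
  obtain ⟨pl0, mi0, h0, hm0⟩ := v.wa.fr (fun _ => False) fun c hc => hc.elim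
  have hys2 : s(y, s) ∉ c2.edges := fun hc => v.ne (h.eqc v.c1U v.c2U hys hc)
  have hrsZ : s(r, s) ∈ TFC.sq r s b a := by simp [TFC.sq]
  have hrs2 : s(r, s) ∈ c2.edges := v.z2 hrsZ
  have hsb2 : s(s, b) ∈ c2.edges := v.z2 (by simp [TFC.sq])
  have hra2 : s(r, a) ∈ c2.edges := v.z2 (by rw [TFC.sq, Sym2.eq_swap (a := r) (b := a)]; simp)
  have hxrW := v.wa.reg v.xS v.xr (by simp)
  have hyx : s(y, x) ∈ c1.edges := hK.mem.2 (Or.inl ⟨Or.inl rfl, hx⟩)
  by_cases hxr2 : s(x, r) ∈ c2.edges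
  · -- the zero vector
    have hxb : s(b, x) ∈ c2.edges := by
      rcases k2Hubs (h.val' v.c2U) v.k2 v.dZ v.z2 with ⟨L'', hK2, hs', ha'⟩ | ⟨L'', hK2, hr', hb'⟩
      · have hx'' : x ∈ L'' := by
          rcases hK2.mem.1 hxr2 with ⟨h1 | h1, _⟩ | ⟨_, h1⟩
          · exact absurd h1 xr
          · exact absurd h1 xb
          · exact h1
        exact hK2.mem.2 (Or.inl ⟨Or.inr rfl, hx''⟩)
      · exfalso
        rcases hK2.mem.1 hxr2 with ⟨h1 | h1, _⟩ | ⟨h1 | h1, _⟩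
        · exact xs h1
        · exact xa h1
        · exact rs h1
        · exact ra h1
    have hps : s(p, s) ∈ c1.edges := hK.mem.2 (Or.inl ⟨Or.inr rfl, hs⟩)
    have hpx : s(p, x) ∈ TFC.sq x y q p := by simp [TFC.sq]
    have K0 := h0.base v.hQ v.w1 v.c1U v.q1 (fun c' _ hf _ => hf.elim) (R := {s(p, x)})
      (Finset.singleton_subset_iff.2 hpx) (by simp)
    obtain ⟨hd4, g1, g2, g3⟩ := v.p1
    rw [Finset.mem_inter] at g1 g2 g3
    have hsbL : s(s, b) ∈ L1 := by rw [Sym2.eq_swap]; exact g3.1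
    have hsub0 : (L1 ∩ (Ucl U ∪ PL)) \ {s(p, x)} ⊆ L1 := Finset.sdiff_subset.trans Finset.inter_subset_left
    obtain ⟨K, hKdef⟩ : ∃ K, K = ((L1 ∩ (Ucl U ∪ PL)) \ {s(p, x)}) \ {s(s, b)} := ⟨_, rfl⟩
    have K0' : AU (Fr D fun _ => False) U PL K := by
      rw [hKdef]; exact K0.mono (Fr_mono _) Finset.sdiff_subset
    have hsub : K ⊆ L1 := by rw [hKdef]; exact Finset.sdiff_subset.trans hsub0
    have hn1 : s(p, x) ∉ K := by rw [hKdef]; simp
    have hn2 : s(s, b) ∉ K := by rw [hKdef]; simp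
    have K1 := h0.ins K0' (h0.cW' v.c1U hps) (by
      intro c hc hec
      have hcc : c = c1 := h0.eqc hc v.c1U hec hps
      subst hcc
      right
      refine ⟨fun z hz hzc => ?_, Or.inr (dgLe1' v.w1.m2 hsub (v.w1.sq hpx) (by simp) hn1)⟩
      exfalso
      have h5 : s(s, z) ∈ L1 ∩ c.edges := Finset.mem_inter.2 ⟨hsub hz, hzc⟩
      rw [inter_eq (h.val' v.c1U) (h.isq _ v.hQ) v.q1 v.w1.m2 v.w1.sq] at h5
      rcases sq_vert h5 (v := s) (by simp) with h3 | h3 | h3 | h3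
      · exact xs h3.symm
      · exact ys h3.symm
      · exact qs h3.symm
      · exact ps h3.symm)
    have K2 := h0.ins K1 (h0.cW' v.c2U hxb) (by
      intro c hc hec
      have hcc : c = c2 := h0.eqc hc v.c2U hec hxb
      subst hcc
      right
      refine ⟨fun z hz hzc => ?_, Or.inr ?_⟩
      · exfalso
        rcases Finset.mem_insert.1 hz with hz | hz
        · have h3 : x ∈ s(p, s) := by rw [← hz]; simp
          rcases Sym2.mem_iff.1 h3 with h3 | h3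
          · exact xp h3
          · exact xs h3
        · exact v.ne (v.at1 h0 (hsub hz) (z := x) (by simp) hpx (by simp) hc hzc).symm
      · refine (dg_ins_off ?_).trans (dgLe1' v.w1.m2 hsub hsbL (by simp) hn2)
        rw [Sym2.mem_iff]
        rintro (h3 | h3)
        · exact pb h3.symm
        · exact sb h3.symm)
    have n1 : s(p, s) ∉ K := fun hc => by
      rcases sq_vert (v := s) (v.w1.at h.isq v.hQ hpx (v := p) (by simp) (hsub hc) (by simp)) (by simp) with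
        h3 | h3 | h3 | h3
      · exact xs h3.symm
      · exact ys h3.symm
      · exact qs h3.symm
      · exact ps h3.symm
    have n2 : s(b, x) ∉ insert s(p, s) K := fun hc => by
      rcases Finset.mem_insert.1 hc with hc | hc
      · have h3 : x ∈ s(p, s) := by rw [← hc]; simp
        rcases Sym2.mem_iff.1 h3 with h3 | h3
        · exact xp h3
        · exact xs h3
      · rcases sq_vert (v := b) (v.w1.at h.isq v.hQ hpx (v := x) (by simp) (hsub hc) (by simp)) (by simp) with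
          h3 | h3 | h3 | h3
        · exact xb h3.symm
        · exact yb h3.symm
        · exact qb h3.symm
        · exact pb h3.symm
    have w1 : s(p, x) ∈ L1 ∩ (Ucl U ∪ PL) := Finset.mem_inter.2 ⟨v.w1.sq hpx, h0.cW' v.c1U (v.q1 hpx)⟩
    have w2 : s(s, b) ∈ (L1 ∩ (Ucl U ∪ PL)) \ {s(p, x)} := by
      rw [Finset.mem_sdiff, Finset.mem_inter, Finset.mem_singleton]
      refine ⟨⟨hsbL, h0.cW' v.c2U hsb2⟩, fun hc => ?_⟩
      have h3 : s ∈ s(p, x) := by rw [← hc]; simp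
      rcases Sym2.mem_iff.1 h3 with h3 | h3
      · exact ps h3.symm
      · exact xs h3.symm
    have h5 := h0.ev v.hQ v.w1 v.c1U v.q1 K2 (d := 0) (by
      rw [XT.dv_insert n2, XT.dv_insert n1, hKdef, dv_sdiff (Finset.singleton_subset_iff.2 w2),
        dv_sdiff (Finset.singleton_subset_iff.2 w1), dv_pair xp.symm, dv_pair sb, dv_pair ps, dv_pair xb.symm]
      abel)
    rw [ph_zero] at h5
    omega
  -- now `r`, `s` are not of type X in the capped frame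
  obtain ⟨p0r, p0s⟩ := v.rsZ h0 hm0 (fun _ h => h.elim) (fun hc => hxr2 hc) (fun hc => hys2 hc)
  have hN3 : NSq (L3 ∩ c2.edges) := h0.lemE hZ3 hL3 v.c1U hZ3c v.c2U (Ne.symm v.ne) v.k2 hys3 (v := s) (by simp)
    (t := b) hsb2 fun h1 => h1.2 p0s
  obtain ⟨pl2, mi2, h2, hm2⟩ := v.wa.fr (fun c => c = c2) fun c hc => hc ▸ v.k2
  have hF2 : ∀ c, c = c2 → c = c1 ∨ c = c2 := fun c hc => Or.inr hc
  by_cases hxrP : ∃ c5 ∈ U, s(x, r) ∈ c5.edges
  · obtain ⟨c5, hc5, hx5⟩ := hxrP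
    have h52 : c5 ≠ c2 := by rintro rfl; exact hxr2 hx5
    obtain ⟨Z5, hZ5, hxZ5, hZ5c⟩ := h.cls.edge_sq ((h.uc c5).1 hc5).1 hx5
    obtain ⟨L5, hL5⟩ := h.wt hZ5
    have hN5 : NSq (L5 ∩ c2.edges) := h0.lemE hZ5 hL5 hc5 hZ5c v.c2U (Ne.symm h52) v.k2 hxZ5 (v := r) (by simp)
      (t := a) hra2 fun h1 => h1.2 p0r
    obtain ⟨p2r, p2s⟩ := v.rsZ h2 hm2 hF2 (fun _ => rfl) fun _ => rfl
    rcases v.abX h2 hF2 p2r p2s with ha | hb
    · refine h2.L2X hZ5 hL5 hc5 hZ5c (fr_am2 h.isq _ _) (h2.out hZ5 hL5 hc5 hZ5c fun c' _ hf _ => ?_)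
        (v := r) (v' := x) (by rw [Sym2.eq_swap]; exact hxZ5) (h2.cW' v.c2U hra2)
        (fun hc => h52 (h.eqc hc5 v.c2U hc hra2)) (h2.freeF v.c2U rfl hra2 hN5) ha
      rw [show c' = c2 from hf]
      exact hN5
    · refine h2.L2X hZ3 hL3 v.c1U hZ3c (fr_am2 h.isq _ _) (h2.out hZ3 hL3 v.c1U hZ3c fun c' _ hf _ => ?_)
        (v := s) (v' := y) (by rw [Sym2.eq_swap]; exact hys3) (h2.cW' v.c2U hsb2)
        (fun hc => v.ne (h.eqc v.c1U v.c2U hc hsb2)) (h2.freeF v.c2U rfl hsb2 hN3) hb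
      rw [show c' = c2 from hf]
      exact hN3
  · -- `xr` plain: `L3 - ys + yx + rs + xr`
    have K0 := h2.base hZ3 hL3 v.c1U hZ3c (fun c' _ hf _ => by rw [show c' = c2 from hf]; exact hN3)
      (R := {s(y, s)}) (Finset.singleton_subset_iff.2 hys3) (by simp)
    have hsub : (L3 ∩ (Ucl U ∪ PL)) \ {s(y, s)} ⊆ L3 := Finset.sdiff_subset.trans Finset.inter_subset_left
    have hnK : s(y, s) ∉ (L3 ∩ (Ucl U ∪ PL)) \ {s(y, s)} := by simp
    have hL3c : L3 ∩ c1.edges = TFC.sq y s p q := inter_eq (h.val' v.c1U) (h.isq _ hZ3) hZ3c hL3.m2 hL3.sq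
    have hat3 : ∀ {g : Sym2 ℕ} {z : ℕ}, g ∈ L3 → z ∈ g → (∃ e ∈ TFC.sq y s p q, z ∈ e) → ∀ {c : Clu ℕ}, c ∈ U →
        g ∈ c.edges → c = c1 := by
      rintro g z hg hz ⟨e, he, hze⟩ c hc hgc
      exact h.eqc hc v.c1U hgc (hZ3c (hL3.at h.isq hZ3 he hze hg hz))
    have K1 := h2.ins K0 (h2.cW' v.c1U hyx) (by
      intro c hc hec
      have hcc : c = c1 := h.eqc hc v.c1U hec hyx
      subst hcc
      right
      refine ⟨fun z hz hzc => ?_, Or.inr (dgLe1' hL3.m2 hsub (hL3.sq hys3) (by simp) hnK)⟩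
      exfalso
      have h5 : s(x, z) ∈ L3 ∩ c.edges := Finset.mem_inter.2 ⟨hsub hz, hzc⟩
      rw [hL3c] at h5
      rcases sq_vert h5 (v := x) (by simp) with h3 | h3 | h3 | h3
      · exact xy h3
      · exact xs h3
      · exact xp h3
      · exact xq h3)
    have K2 := h2.ins K1 (h2.cW' v.c2U hrs2) (by
      intro c hc hec
      have hcc : c = c2 := h.eqc hc v.c2U hec hrs2
      right
      refine ⟨fun z hz hzc => ?_, Or.inl hcc⟩
      exfalso
      rcases Finset.mem_insert.1 hz with hz | hz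
      · have h3 : s ∈ s(y, x) := by rw [← hz]; simp
        rcases Sym2.mem_iff.1 h3 with h3 | h3
        · exact ys h3.symm
        · exact xs h3.symm
      · have := hat3 (hsub hz) (z := s) (by simp) ⟨_, hys3, by simp⟩ hc hzc
        exact v.ne (this.symm.trans hcc))
    have n1 : s(y, x) ∉ (L3 ∩ (Ucl U ∪ PL)) \ {s(y, s)} := fun hc => by
      rcases sq_vert (v := x) (hL3.at h.isq hZ3 hys3 (v := y) (by simp) (hsub hc) (by simp)) (by simp) with
        h3 | h3 | h3 | h3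
      · exact xy h3
      · exact xs h3
      · exact xp h3
      · exact xq h3
    have n2 : s(r, s) ∉ insert s(y, x) ((L3 ∩ (Ucl U ∪ PL)) \ {s(y, s)}) := fun hc => by
      rcases Finset.mem_insert.1 hc with hc | hc
      · have h3 : s ∈ s(y, x) := by rw [← hc]; simp
        rcases Sym2.mem_iff.1 h3 with h3 | h3
        · exact ys h3.symm
        · exact xs h3.symm
      · rcases sq_vert (v := r) (hL3.at h.isq hZ3 hys3 (v := s) (by simp) (hsub hc) (by simp)) (by simp) with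
          h3 | h3 | h3 | h3
        · exact yr h3.symm
        · exact rs h3
        · exact pr h3.symm
        · exact qr h3.symm
    have hW : s(y, s) ∈ L3 ∩ (Ucl U ∪ PL) := Finset.mem_inter.2 ⟨hL3.sq hys3, h.cW' v.c1U hys⟩
    by_cases hxL : s(x, r) ∈ L3
    · have hxK0 : s(x, r) ∈ (L3 ∩ (Ucl U ∪ PL)) \ {s(y, s)} := by
        rw [Finset.mem_sdiff, Finset.mem_inter, Finset.mem_singleton]
        refine ⟨⟨hxL, hxrW⟩, fun hc => ?_⟩
        have h3 : x ∈ s(y, s) := by rw [← hc]; simp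
        rcases Sym2.mem_iff.1 h3 with h3 | h3
        · exact xy h3
        · exact xs h3
      have hxK : s(x, r) ∈ insert s(r, s) (insert s(y, x) ((L3 ∩ (Ucl U ∪ PL)) \ {s(y, s)})) :=
        Finset.mem_insert_of_mem (Finset.mem_insert_of_mem hxK0)
      have K3 := K2.mono (Fr_mono _) (Finset.sdiff_subset (s := insert s(r, s) (insert s(y, x)
        ((L3 ∩ (Ucl U ∪ PL)) \ {s(y, s)}))) (t := {s(x, r)}))
      have h5 := h2.ev hZ3 hL3 v.c1U hZ3c K3 (d := 0) (by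
        rw [dv_sdiff (Finset.singleton_subset_iff.2 hxK), XT.dv_insert n2, XT.dv_insert n1,
          dv_sdiff (Finset.singleton_subset_iff.2 hW), dv_pair ys, dv_pair xy.symm, dv_pair rs, dv_pair xr]
        abel)
      rw [ph_zero] at h5
      omega
    have K3 := h2.ins K2 hxrW (fun c hc hec => absurd ⟨c, hc, hec⟩ hxrP)
    have n3 : s(x, r) ∉ insert s(r, s) (insert s(y, x) ((L3 ∩ (Ucl U ∪ PL)) \ {s(y, s)})) := fun hc => by
      rcases Finset.mem_insert.1 hc with hc | hc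
      · have h3 : x ∈ s(r, s) := by rw [← hc]; simp
        rcases Sym2.mem_iff.1 h3 with h3 | h3
        · exact xr h3
        · exact xs h3
      · rcases Finset.mem_insert.1 hc with hc | hc
        · have h3 : r ∈ s(y, x) := by rw [← hc]; simp
          rcases Sym2.mem_iff.1 h3 with h3 | h3
          · exact yr h3.symm
          · exact xr h3.symm
        · exact hxL (hsub hc)
    have h5 := h2.ev hZ3 hL3 v.c1U hZ3c K3 (d := Pi.single x 2 + Pi.single r 2) (by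
      rw [XT.dv_insert n3, XT.dv_insert n2, XT.dv_insert n1, dv_sdiff (Finset.singleton_subset_iff.2 hW),
        dv_pair ys, dv_pair xy.symm, dv_pair rs, dv_pair xr]
      have t2 : ∀ z : ℕ, (Pi.single z 2 : ℕ → ℤ) = Pi.single z 1 + Pi.single z 1 := fun z => by
        rw [← Pi.single_add]; norm_num
      rw [t2, t2]
      abel)
    rw [ph_two (h.v2' hxrW (by simp)) (h.v2' hxrW (by simp)) xr] at h5
    have h6 := con_two_mi (p := pl2 x) (hm2 x v.xS v.xT)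
    have h7 := con_two_mi (p := pl2 r) (hm2 r v.rS v.rT)
    omega

/-- the centres of `c2` if `xr` is in `c2` -/
theorem V0.hub2 (v : V0 X P D j m S M CL U PL x y q p r s a b c1 c2 L1 L2) (hxr : s(x, r) ∈ c2.edges) :
    ∃ L, KH c2 r b L ∧ s ∈ L ∧ a ∈ L ∧ x ∈ L := by
  obtain ⟨⟨xy, xq, xp, xr, xs, xa, xb⟩, ⟨yq, yp, yr, ys, ya, yb⟩, ⟨qp, qr, qs, qa, qb⟩, ⟨pr, ps, pa, pb⟩,
    ⟨rs, ra, rb⟩, ⟨sa, sb⟩, ab⟩ := nd8 v.nd
  obtain ⟨pl, mi, h, hm⟩ := v.wa.fr (fun _ => False) fun c hc => hc.elim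
  rcases k2Hubs (h.val' v.c2U) v.k2 v.dZ v.z2 with ⟨L'', hK2, hs', ha'⟩ | ⟨L'', hK2, hr', hb'⟩
  · refine ⟨L'', hK2, hs', ha', ?_⟩
    rcases hK2.mem.1 hxr with ⟨h1 | h1, _⟩ | ⟨_, h1⟩
    · exact absurd h1 xr
    · exact absurd h1 xb
    · exact h1
  · exfalso
    rcases hK2.mem.1 hxr with ⟨h1 | h1, _⟩ | ⟨h1 | h1, _⟩
    · exact xs h1
    · exact xa h1
    · exact rs h1
    · exact ra h1

/-- `ys` is plain -/
theorem V0.ysP (v : V0 X P D j m S M CL U PL x y q p r s a b c1 c2 L1 L2) : s(y, s) ∈ PL := by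
  rcases Finset.mem_union.1 (v.wa.reg v.yS v.ys (by simp)) with h1 | h1
  · obtain ⟨c, hc, hec⟩ := mem_Ucl.1 h1
    have := v.ys4 hc hec
    subst this
    exact absurd hec v.ys1
  · exact h1

/-- **(iv)** `xr` is plain -/
theorem V0.xrP (v : V0 X P D j m S M CL U PL x y q p r s a b c1 c2 L1 L2) : s(x, r) ∈ PL := by
  obtain ⟨⟨xy, xq, xp, xr, xs, xa, xb⟩, ⟨yq, yp, yr, ys, ya, yb⟩, ⟨qp, qr, qs, qa, qb⟩, ⟨pr, ps, pa, pb⟩,
    ⟨rs, ra, rb⟩, ⟨sa, sb⟩, ab⟩ := nd8 v.nd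
  have hxrW := v.wa.reg v.xS v.xr (by simp)
  rcases Finset.mem_union.1 hxrW with h1 | h1
  swap
  · exact h1
  exfalso
  obtain ⟨c, hc, hxr⟩ := mem_Ucl.1 h1
  have hcc1 : c ≠ c1 := by rintro rfl; exact v.xr1 hxr
  obtain ⟨pl0, mi0, h0, hm0⟩ := v.wa.fr (fun _ => False) fun c hc => hc.elim
  have hysP := v.ysP
  have hysc : ∀ c ∈ U, s(y, s) ∉ c.edges := fun c hc hec => Finset.disjoint_left.1 (h0.plain hc) hysP hec
  obtain ⟨p0x, p0y⟩ := v.xyZ h0 hm0 (fun _ h => h.elim) (fun hc => v.xr1 hc) (fun hc => v.ys1 hc)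
  have hrsZ : s(r, s) ∈ TFC.sq r s b a := by simp [TFC.sq]
  have hrs2 : s(r, s) ∈ c2.edges := v.z2 hrsZ
  have hxy1 : s(x, y) ∈ c1.edges := v.q1 (by simp [TFC.sq])
  by_cases hA : ∃ Z3 ∈ D, s(x, r) ∈ Z3 ∧ s(r, s) ∉ Z3
  · obtain ⟨Z3, hZ3, hx3, hr3⟩ := hA
    have hZ3c : Z3 ⊆ c.edges := (h0.cls.whole ((h0.uc c).1 hc).1 hZ3).resolve_right fun hd =>
      Finset.disjoint_left.1 hd hx3 hxr
    obtain ⟨L3, hL3⟩ := h0.wt hZ3
    have hN1 : NSq (L3 ∩ c1.edges) := h0.lemE hZ3 hL3 hc hZ3c v.c1U (Ne.symm hcc1) v.k1 hx3 (v := x) (by simp)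
      hxy1 fun h1 => h1.2 p0x
    have hN2 : c ≠ c2 → NSq (L3 ∩ c2.edges) := by
      intro hcc2
      obtain ⟨p0r, p0s⟩ := v.rsZ h0 hm0 (fun _ h => h.elim) (fun hc' => hcc2 (h0.eqc hc v.c2U hxr hc'))
        (fun hc' => hysc _ v.c2U hc')
      exact h0.lemE hZ3 hL3 hc hZ3c v.c2U (Ne.symm hcc2) v.k2 hx3 (v := r) (by simp) hrs2 fun h1 => h1.2 p0r
    obtain ⟨pl, mi, h, hm⟩ := v.wa.fr (fun c => c = c1 ∨ c = c2) (fun c hc => by
      rcases hc with rfl | rfl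
      · exact v.k1
      · exact v.k2)
    have hat3 : ∀ {g : Sym2 ℕ} {z : ℕ}, g ∈ L3 → z ∈ g → z ∈ s(x, r) → ∀ {c' : Clu ℕ}, c' ∈ U →
        g ∈ c'.edges → c' = c := by
      intro g z hg hz hz' c' hc' hgc
      exact h.eqc hc' hc hgc (hZ3c (hL3.at h.isq hZ3 hx3 hz' hg hz))
    have K0 := h.base hZ3 hL3 hc hZ3c (fun c' _ hf hne => by
      rcases hf with rfl | rfl
      · exact hN1
      · exact hN2 hne.symm) (R := {s(x, r)}) (Finset.singleton_subset_iff.2 hx3) (by simp)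
    have hsub : (L3 ∩ (Ucl U ∪ PL)) \ {s(x, r)} ⊆ L3 := Finset.sdiff_subset.trans Finset.inter_subset_left
    have K1 := h.ins K0 (h.cW' v.c1U hxy1) (by
      intro c' hc' hec
      have hcc : c' = c1 := h.eqc hc' v.c1U hec hxy1
      left
      refine ⟨fun z hz hzc => ?_, Or.inl (Or.inl hcc)⟩
      exact absurd ((hat3 (hsub hz) (z := x) (by simp) (by simp) hc' hzc).symm.trans hcc) hcc1)
    have hL3c : L3 ∩ c.edges = Z3 := inter_eq (h.val' hc) (h.isq _ hZ3) hZ3c hL3.m2 hL3.sq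
    have K2 := h.ins K1 (h.cW' v.c2U hrs2) (by
      intro c' hc' hec
      have hcc : c' = c2 := h.eqc hc' v.c2U hec hrs2
      by_cases hcc2 : c = c2
      · right
        refine ⟨fun z hz hzc => ?_, Or.inl (Or.inr hcc)⟩
        exfalso
        rcases Finset.mem_insert.1 hz with hz | hz
        · have h3 : s ∈ s(x, y) := by rw [← hz]; simp
          rcases Sym2.mem_iff.1 h3 with h3 | h3
          · exact xs h3.symm
          · exact ys h3.symm
        · have h5 : s(s, z) ∈ L3 ∩ c.edges := Finset.mem_inter.2 ⟨hsub hz, by rw [hcc2, ← hcc]; exact hzc⟩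
          rw [hL3c] at h5
          subst hcc2
          obtain ⟨Lf, hK, hs, _, _⟩ := v.hub2 hxr
          exact hr3 (hK.leaf_edge (h.val' hc) (h.isq _ hZ3) hZ3c hs h5 (by simp))
      · left
        refine ⟨fun z hz hzc => ?_, Or.inl (Or.inr hcc)⟩
        exfalso
        rcases Finset.mem_insert.1 hz with hz | hz
        · have h3 : r ∈ s(x, y) := by rw [← hz]; simp
          rcases Sym2.mem_iff.1 h3 with h3 | h3
          · exact xr h3.symm
          · exact yr h3.symm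
        · exact hcc2 ((hat3 (hsub hz) (z := r) (by simp) (by simp) hc' hzc).symm.trans hcc))
    have n1 : s(x, y) ∉ (L3 ∩ (Ucl U ∪ PL)) \ {s(x, r)} := fun hc' =>
      hcc1 (hat3 (hsub hc') (z := x) (by simp) (by simp) v.c1U hxy1).symm
    have n2 : s(r, s) ∉ insert s(x, y) ((L3 ∩ (Ucl U ∪ PL)) \ {s(x, r)}) := fun hc' => by
      rcases Finset.mem_insert.1 hc' with hc' | hc'
      · have h3 : s ∈ s(x, y) := by rw [← hc']; simp
        rcases Sym2.mem_iff.1 h3 with h3 | h3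
        · exact xs h3.symm
        · exact ys h3.symm
      · exact hr3 (hL3.at h.isq hZ3 hx3 (v := r) (by simp) (hsub hc') (by simp))
    have hW : s(x, r) ∈ L3 ∩ (Ucl U ∪ PL) := Finset.mem_inter.2 ⟨hL3.sq hx3, hxrW⟩
    have hysW : s(y, s) ∈ Ucl U ∪ PL := Finset.mem_union_right _ hysP
    by_cases hyL : s(y, s) ∈ L3
    · have hyK0 : s(y, s) ∈ (L3 ∩ (Ucl U ∪ PL)) \ {s(x, r)} := by
        rw [Finset.mem_sdiff, Finset.mem_inter, Finset.mem_singleton]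
        refine ⟨⟨hyL, hysW⟩, fun hc => ?_⟩
        have h3 : y ∈ s(x, r) := by rw [← hc]; simp
        rcases Sym2.mem_iff.1 h3 with h3 | h3
        · exact xy h3.symm
        · exact yr h3
      have hyK : s(y, s) ∈ insert s(r, s) (insert s(x, y) ((L3 ∩ (Ucl U ∪ PL)) \ {s(x, r)})) :=
        Finset.mem_insert_of_mem (Finset.mem_insert_of_mem hyK0)
      have K3 := K2.mono (Fr_mono _) (Finset.sdiff_subset (s := insert s(r, s) (insert s(x, y)
        ((L3 ∩ (Ucl U ∪ PL)) \ {s(x, r)}))) (t := {s(y, s)}))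
      have h5 := h.ev hZ3 hL3 hc hZ3c K3 (d := 0) (by
        rw [dv_sdiff (Finset.singleton_subset_iff.2 hyK), XT.dv_insert n2, XT.dv_insert n1,
          dv_sdiff (Finset.singleton_subset_iff.2 hW), dv_pair ys, dv_pair xy, dv_pair rs, dv_pair xr]
        abel)
      rw [ph_zero] at h5
      omega
    have K3 := h.ins K2 hysW (fun c hc hec => absurd hec (hysc c hc))
    have n3 : s(y, s) ∉ insert s(r, s) (insert s(x, y) ((L3 ∩ (Ucl U ∪ PL)) \ {s(x, r)})) := fun hc => by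
      rcases Finset.mem_insert.1 hc with hc | hc
      · have h3 : y ∈ s(r, s) := by rw [← hc]; simp
        rcases Sym2.mem_iff.1 h3 with h3 | h3
        · exact yr h3
        · exact ys h3
      · rcases Finset.mem_insert.1 hc with hc | hc
        · have h3 : s ∈ s(x, y) := by rw [← hc]; simp
          rcases Sym2.mem_iff.1 h3 with h3 | h3
          · exact xs h3.symm
          · exact ys h3.symm
        · exact hyL (hsub hc)
    have h5 := h.ev hZ3 hL3 hc hZ3c K3 (d := Pi.single y 2 + Pi.single s 2) (by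
      rw [XT.dv_insert n3, XT.dv_insert n2, XT.dv_insert n1, dv_sdiff (Finset.singleton_subset_iff.2 hW),
        dv_pair ys, dv_pair xy, dv_pair rs, dv_pair xr]
      have t2 : ∀ z : ℕ, (Pi.single z 2 : ℕ → ℤ) = Pi.single z 1 + Pi.single z 1 := fun z => by
        rw [← Pi.single_add]; norm_num
      rw [t2, t2]
      abel)
    rw [ph_two (h.v2' hysW (by simp)) (h.v2' hysW (by simp)) ys] at h5
    have h6 := con_two_mi (p := pl y) (hm y v.yS v.yT)
    have h7 := con_two_mi (p := pl s) (hm s v.sS v.sT)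
    omega
  -- all squares through `xr` contain `rs`
  push Not at hA
  obtain ⟨Z3, hZ3, hx3, hZ3c⟩ := h0.cls.edge_sq ((h0.uc c).1 hc).1 hxr
  have hcc2 : c = c2 := h0.eqc hc v.c2U (hZ3c (hA Z3 hZ3 hx3)) hrs2
  subst hcc2
  obtain ⟨Lf, hK, hs, ha, hx⟩ := v.hub2 hxr
  obtain ⟨pl, mi, h, hm⟩ := v.wa.fr (fun c' => c' = c) fun c' hc => hc ▸ v.k2
  have hF : ∀ c', c' = c → c' = c1 ∨ c' = c := fun c' hc => Or.inr hc
  obtain ⟨pr', ps'⟩ := v.rsZ h hm hF (fun _ => rfl) fun _ => rfl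
  have hxb : s(x, b) ∈ c.edges := hK.mem.2 (Or.inr ⟨Or.inr rfl, hx⟩)
  have hb := h.L2X v.hQ v.w1 v.c1U v.q1 (fr_am2 h.isq _ _) (h.out v.hQ v.w1 v.c1U v.q1 fun c' _ hf _ => by
    rw [show c' = c from hf]; exact v.n1) (v := x) (v' := y) (by simp [TFC.sq]) (h.cW' v.c2U hxb)
    (fun hc' => v.ne (h.eqc v.c1U v.c2U hc' hxb)) (h.freeF v.c2U rfl hxb v.n1)
  rcases v.abX h hF pr' ps' with h3 | h3
  · obtain ⟨l, hl, hlx, hlD⟩ := h.parK v.c2U hK hx
    have hsl : s = l := by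
      have h4 := hA _ hlD (by rw [Sym2.eq_swap]; simp [TFC.sq])
      rcases sq_vert h4 (v := s) (by simp) with h5 | h5 | h5 | h5
      · exact absurd h5 rs.symm
      · exact absurd h5 xs.symm
      · exact absurd h5 sb
      · exact h5
    subst hsl
    have h4 := h.leafK v.c2U hK (fun c' hc => hc) ha hx hs xa.symm sa.symm xs hlD
    rw [con_X h3.2 h3.1] at h4
    have h5 := con_neg_one (pl x) (mi x)
    omega
  · exact hb h3

end

end Pool.Agent.PF4.XT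

end

section -- file PF4/XS1b

/-!
# STEP 1: the statement `Step1`
-/

set_option autoImplicit false

namespace Pool.Agent.PF4.XS1

open Finset Pool.Agent.TFC Pool.Agent.PF4 Pool.Agent.PF4.LD Pool.Agent.PF4.XC Pool.Agent.PF4.XF Pool.Agent.PF4.XT
  Pool.Agent.PF4.XTg

/-- a path with three edges whose ends are not joined: no square -/
theorem sf_path {c : Clu ℕ} {a b : ℕ} {L : Finset ℕ} (hc : K2c c a b L) {K N : Finset (Sym2 ℕ)} (hK : K ⊆ c.edges)
    (hN : M2 N) (hKN : K ⊆ N) {u e f v : ℕ} (hp : XT.P3 K u e f v) (huv : s(u, v) ∉ K) : SqFree K := by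
  obtain ⟨⟨n1, n2, n3, n4, n5, n6⟩, e1, e2, e3⟩ := hp
  have key : ∀ a b : ℕ, K2c c a b L → (u = a ∨ e = a) → SqFree K := by
    intro a b hc ha
    rcases ha with rfl | rfl
    · -- `u` is a hub
      have heL : e ∈ L := by
        rcases (hc.mem _ _).1 (hK e1) with ⟨_, h1⟩ | ⟨_, h1⟩
        · exact h1
        · exact absurd h1 hc.aL
      have hf : f = b := by
        rcases (hc.mem _ _).1 (hK e2) with ⟨h1 | h1, _⟩ | ⟨h1 | h1, _⟩
        · exact absurd (h1 ▸ heL) hc.aL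
        · exact absurd (h1 ▸ heL) hc.bL
        · exact absurd h1.symm n2
        · exact h1
      subst hf
      refine hc.sqFree hK fun l _ l' _ hne g1 g2 g3 g4 => ?_
      have h1 : ∀ t, s(f, t) ∈ K → t = e ∨ t = v := by
        intro t ht
        by_contra hcon
        rw [not_or] at hcon
        exact three hN (hKN ht) (hKN (by rw [Sym2.eq_swap]; exact e2)) (hKN e3) hcon.1 hcon.2 n5
      rcases h1 l g2 with rfl | rfl
      · rcases h1 l' g4 with rfl | rfl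
        · exact hne rfl
        · exact huv g3
      · exact huv g1
    · -- `e` is a hub
      have huL : u ∈ L := by
        rcases (hc.mem _ _).1 (hK e1) with ⟨_, h1⟩ | ⟨_, h1⟩
        · exact absurd h1 hc.aL
        · exact h1
      have hfL : f ∈ L := by
        rcases (hc.mem _ _).1 (hK e2) with ⟨_, h1⟩ | ⟨_, h1⟩
        · exact h1
        · exact absurd h1 hc.aL
      have hv : v = b := by
        rcases (hc.mem _ _).1 (hK e3) with ⟨h1 | h1, _⟩ | ⟨h1 | h1, _⟩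
        · exact absurd (h1 ▸ hfL) hc.aL
        · exact absurd (h1 ▸ hfL) hc.bL
        · exact absurd h1.symm n5
        · exact h1
      subst hv
      refine hc.sqFree hK fun l _ l' _ hne g1 g2 g3 g4 => ?_
      have h1 : ∀ t, s(e, t) ∈ K → t = u ∨ t = f := by
        intro t ht
        by_contra hcon
        rw [not_or] at hcon
        exact three hN (hKN ht) (hKN (by rw [Sym2.eq_swap]; exact e1)) (hKN e2) hcon.1 hcon.2 n2
      rcases h1 l g1 with rfl | rfl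
      · exact huv (by rw [Sym2.eq_swap]; exact g2)
      · rcases h1 l' g3 with rfl | rfl
        · exact huv (by rw [Sym2.eq_swap]; exact g4)
        · exact hne rfl
  rcases (hc.mem _ _).1 (hK e1) with ⟨h1 | h1, _⟩ | ⟨h1 | h1, _⟩
  · exact key a b hc (Or.inl h1)
  · exact key b a hc.swap (Or.inl h1)
  · exact key a b hc (Or.inr h1)
  · exact key b a hc.swap (Or.inr h1)

theorem k2c_of {c : Clu ℕ} (hv : c.Valid) (h2 : K2 c) : ∃ a b L, K2c c a b L := by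
  obtain ⟨a, b, L, rfl⟩ := h2
  exact ⟨a, b, L, K2c.of hv⟩

section
variable {X : XD} {P : ℕ → Finset (Sym2 ℕ) → Prop} {D : Finset (Finset (Sym2 ℕ))} {j : ℕ} {S : Finset ℕ}
  {M : ℕ → Finset (Sym2 ℕ)} {CL U : List (Clu ℕ)} {PL : Finset (Sym2 ℕ)}
  {pl mi : ℕ → Prop}

/-- a witness is allowed outside of the cluster of its square, if it is square-free in the uncapped clusters -/
theorem out_of {A : Clu ℕ → Finset (Sym2 ℕ) → Prop} {F : Clu ℕ → Prop} (hA : A = Fr D F)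
    (h : PW X P D j S M A CL U PL pl mi) {Z L : Finset (Sym2 ℕ)} (hZ : Z ∈ D) (hL : Wt X P D j Z L) {c : Clu ℕ}
    (hc : c ∈ U) (hZc : Z ⊆ c.edges) (hF : ∀ c' ∈ U, c' ≠ c → F c' → SqFree (L ∩ c'.edges)) : Out A U c L := by
  intro c' hc' hne
  rw [hA]
  refine Fr_of (fun hf => hF c' hc' hne hf) fun _ => ⟨hL.m2.mono Finset.inter_subset_left, fun Z' hZ' hs => ?_⟩
  have h1 := hL.uni Z' hZ' (hs.trans Finset.inter_subset_left)
  subst h1
  obtain ⟨a, b, d, e, _, hZe⟩ := h.isq Z' hZ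
  have he : s(a, b) ∈ Z' := by rw [hZe]; simp [TFC.sq]
  exact hne (h.eqc hc' hc (Finset.mem_inter.1 (hs he)).2 (hZc he))

/-- the witness with an edge `xy` of its square replaced by two plain edges `xr`, `ys` -/
theorem two_add {A : Clu ℕ → Finset (Sym2 ℕ) → Prop} (h : PW X P D j S M A CL U PL pl mi) {Z L : Finset (Sym2 ℕ)}
    (hZ : Z ∈ D) (hL : Wt X P D j Z L) {c : Clu ℕ} (hc : c ∈ U) (hZc : Z ⊆ c.edges) (hAc : AM2 A c)
    (hA : Out A U c L) {x y r s : ℕ} (he : s(x, y) ∈ Z) (hxr : s(x, r) ∈ PL) (hys : s(y, s) ∈ PL) (hrs : r ≠ s)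
    (hxs : x ≠ s) : 1 ≤ con (pl r) (mi r) 1 + con (pl s) (mi s) 1 := by
  have hec := hZc he
  have hxy : x ≠ y := h.ne (h.cW' hc hec)
  have hpl : ∀ e ∈ PL, e ∉ c.edges := fun e he h1 => Finset.disjoint_left.1 (h.plain hc) he h1
  have hxrL : s(x, r) ∉ L := fun hz =>
    hpl _ hxr (hZc (sq_closed hL.m2 (h.isq Z hZ) hL.sq he (y := x) (by simp) hz (by simp)))
  have hysL : s(y, s) ∉ L := fun hz =>
    hpl _ hys (hZc (sq_closed hL.m2 (h.isq Z hZ) hL.sq he (y := y) (by simp) hz (by simp)))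
  obtain ⟨h1, h2⟩ := h.wz_au hZ hL hc hZc hA (F := Z \ {s(x, y)}) (Finset.sdiff_subset.trans hZc)
    (am2_sub hAc (h.isq Z hZ) hZc hL.m2 hL.sq (Finset.singleton_subset_iff.2 he) (by simp))
  have hB : ({s(x, r), s(y, s)} : Finset (Sym2 ℕ)) ⊆ PL := by
    intro e he
    rw [Finset.mem_insert, Finset.mem_singleton] at he
    rcases he with rfl | rfl
    · exact hxr
    · exact hys
  have h3 := h.addp h1 hB
  have hd : Disjoint (((L ∩ (Ucl U ∪ PL)) \ c.edges) ∪ (Z \ {s(x, y)})) ({s(x, r), s(y, s)} : Finset (Sym2 ℕ)) := by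
    rw [Finset.disjoint_right]
    intro e he
    rw [Finset.mem_union, not_or]
    refine ⟨fun h5 => ?_, fun h5 => hpl e (hB he) (hZc (Finset.mem_sdiff.1 h5).1)⟩
    have h6 := (Finset.mem_inter.1 (Finset.mem_sdiff.1 h5).1).1
    rw [Finset.mem_insert, Finset.mem_singleton] at he
    rcases he with rfl | rfl
    · exact hxrL h6
    · exact hysL h6
  have h4 := h.witA Z hZ (fun e he => mem_Ucl.2 ⟨c, hc, hZc he⟩) L hL.mem hL.cov hL.uni _ h3
  have hne : s(x, r) ∉ ({s(y, s)} : Finset (Sym2 ℕ)) := by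
    rw [Finset.mem_singleton, Sym2.eq_iff]
    rintro (⟨h5, _⟩ | ⟨h5, _⟩)
    · exact hxy h5
    · exact hxs h5
  rw [XT.dv_union hd, h2, XT.dv_insert hne, dv_sdiff (Finset.singleton_subset_iff.2 he), dv_pair hxy,
    dv_pair (h.ne (Finset.mem_union_right _ hxr)), dv_pair (h.ne (Finset.mem_union_right _ hys))] at h4
  have e : (dv (L ∩ (Ucl U ∪ PL)) - dv Z + (dv Z - (Pi.single x 1 + Pi.single y 1)) +
      (Pi.single y 1 + Pi.single s 1 + (Pi.single x 1 + Pi.single r 1)) - dv (L ∩ (Ucl U ∪ PL)) : ℕ → ℤ) =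
      Pi.single r 1 + Pi.single s 1 := by abel
  rwa [e, ph_two (h.v2' (Finset.mem_union_right _ hxr) (by simp)) (h.v2' (Finset.mem_union_right _ hys) (by simp))
    hrs] at h4

/-- both vertices have `pl` -/
theorem pl_two {r s : ℕ} (hr : mi r) (hs : mi s) (h : 1 ≤ con (pl r) (mi r) 1 + con (pl s) (mi s) 1) :
    pl r ∧ pl s := by
  have h1 := con_one (pl r) (mi r)
  have h2 := con_one (pl s) (mi s)
  constructor
  · by_contra hc
    rw [con_X hc hr] at h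
    omega
  · by_contra hc
    rw [con_X hc hs] at h
    omega

/-- another leaf of the cluster of a square with free corner is not of type X -/
theorem leaf_nX {A : Clu ℕ → Finset (Sym2 ℕ) → Prop} (h : PW X P D j S M A CL U PL pl mi) {x y q p : ℕ}
    {L : Finset (Sym2 ℕ)} (h4 : Dist4 x y q p) (hZ : TFC.sq x y q p ∈ D) (hL : Wt X P D j (TFC.sq x y q p) L)
    {c : Clu ℕ} (hc : c ∈ U) (hA : ∀ K ⊆ c.edges, A c K ↔ SqFree K) (hO : Out A U c L) {Lv : Finset ℕ}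
    (hK : K2c c x q Lv) (hy : y ∈ Lv) (hp : p ∈ Lv) (fp : ¬ mi p) {l : ℕ} (hl : l ∈ Lv) (hly : l ≠ y)
    (hlp : l ≠ p) (hm : mi l) : pl l := by
  by_contra hpl
  obtain ⟨xy, xq, xp, yq, yp, qp⟩ := h4
  have hlx : l ≠ x := fun e => hK.aL (e ▸ hl)
  have hlq : l ≠ q := fun e => hK.bL (e ▸ hl)
  have exy : s(x, y) ∈ c.edges := (hK.mem _ _).2 (Or.inl ⟨Or.inl rfl, hy⟩)
  have exl : s(x, l) ∈ c.edges := (hK.mem _ _).2 (Or.inl ⟨Or.inl rfl, hl⟩)
  have elq : s(l, q) ∈ c.edges := (hK.mem _ _).2 (Or.inr ⟨Or.inr rfl, hl⟩)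
  have eqp : s(q, p) ∈ c.edges := (hK.mem _ _).2 (Or.inl ⟨Or.inr rfl, hp⟩)
  have eyq : s(y, q) ∈ c.edges := (hK.mem _ _).2 (Or.inr ⟨Or.inr rfl, hy⟩)
  have epx : s(p, x) ∈ c.edges := (hK.mem _ _).2 (Or.inr ⟨Or.inl rfl, hp⟩)
  have hZc : TFC.sq x y q p ⊆ c.edges := by
    intro e he
    simp only [TFC.sq, Finset.mem_insert, Finset.mem_singleton] at he
    rcases he with rfl | rfl | rfl | rfl
    · exact exy
    · exact eyq
    · exact eqp
    · exact epx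
  have hF : ({s(x, y), s(x, l), s(l, q), s(q, p)} : Finset (Sym2 ℕ)) ⊆ c.edges := by
    intro e he
    simp only [Finset.mem_insert, Finset.mem_singleton] at he
    rcases he with rfl | rfl | rfl | rfl
    · exact exy
    · exact exl
    · exact elq
    · exact eqp
  have hSF : SqFree ({s(x, y), s(x, l), s(l, q), s(q, p)} : Finset (Sym2 ℕ)) := by
    refine hK.sqFree hF fun a ha b hb hab g1 g2 g3 g4 => ?_
    have hh : ∀ t ∈ Lv, s(x, t) ∈ ({s(x, y), s(x, l), s(l, q), s(q, p)} : Finset (Sym2 ℕ)) →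
        s(q, t) ∈ ({s(x, y), s(x, l), s(l, q), s(q, p)} : Finset (Sym2 ℕ)) → t = l := by
      intro t ht k1 k2
      have htx : t ≠ x := fun e => hK.aL (e ▸ ht)
      have htq : t ≠ q := fun e => hK.bL (e ▸ ht)
      simp only [Finset.mem_insert, Finset.mem_singleton, Sym2.eq_iff] at k1 k2
      have k3 : t = y ∨ t = l := by
        rcases k1 with (⟨_, k⟩ | ⟨_, k⟩) | (⟨_, k⟩ | ⟨_, k⟩) | (⟨k, _⟩ | ⟨k, _⟩) | (⟨k, _⟩ | ⟨k, _⟩)
        · exact Or.inl k
        · exact absurd k htx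
        · exact Or.inr k
        · exact absurd k htx
        · exact absurd k hlx.symm
        · exact absurd k xq
        · exact absurd k xq
        · exact absurd k xp
      have k4 : t = l ∨ t = p := by
        rcases k2 with (⟨k, _⟩ | ⟨k, _⟩) | (⟨k, _⟩ | ⟨k, _⟩) | (⟨k, _⟩ | ⟨_, k⟩) | (⟨_, k⟩ | ⟨k, _⟩)
        · exact absurd k xq.symm
        · exact absurd k yq.symm
        · exact absurd k xq.symm
        · exact absurd k hlq.symm
        · exact absurd k hlq.symm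
        · exact Or.inl k
        · exact Or.inr k
        · exact absurd k qp
      rcases k3 with rfl | k3
      · rcases k4 with k4 | k4
        · exact k4
        · exact absurd k4 yp
      · exact k3
    exact hab ((hh a ha g1 g2).trans (hh b hb g3 g4).symm)
  have h1 := h.wz hZ hL hc hZc hO hF ((hA _ hF).2 hSF)
  have vl : l ∈ X.V2 := h.v2' (h.cW' hc exl) (by simp)
  have vy : y ∈ X.V2 := h.v2' (h.cW' hc exy) (by simp)
  have vp : p ∈ X.V2 := h.v2' (h.cW' hc eqp) (by simp)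
  have n1 : s(x, y) ∉ ({s(x, l), s(l, q), s(q, p)} : Finset (Sym2 ℕ)) := by
    simp only [Finset.mem_insert, Finset.mem_singleton, Sym2.eq_iff, not_or, not_and]
    exact ⟨⟨fun _ => hly.symm, fun k => absurd k hlx.symm⟩, ⟨fun k => absurd k hlx.symm, fun k => absurd k xq⟩,
      ⟨fun k => absurd k xq, fun k => absurd k xp⟩⟩
  have n2 : s(x, l) ∉ ({s(l, q), s(q, p)} : Finset (Sym2 ℕ)) := by
    simp only [Finset.mem_insert, Finset.mem_singleton, Sym2.eq_iff, not_or, not_and]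
    exact ⟨⟨fun k => absurd k hlx.symm, fun k => absurd k xq⟩, ⟨fun k => absurd k xq, fun k => absurd k xp⟩⟩
  have n3 : s(l, q) ∉ ({s(q, p)} : Finset (Sym2 ℕ)) := by
    simp only [Finset.mem_singleton, Sym2.eq_iff, not_or, not_and]
    exact ⟨fun k => absurd k hlq, fun k => absurd k hlp⟩
  rw [XT.dv_insert n1, XT.dv_insert n2, XT.dv_insert n3, dv_pair xy, dv_pair hlx.symm, dv_pair hlq, dv_pair qp,
    dv_sq ⟨xy, xq, xp, yq, yp, qp⟩] at h1
  have e : (Pi.single q 1 + Pi.single p 1 + (Pi.single l 1 + Pi.single q 1) + (Pi.single x 1 + Pi.single l 1) +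
      (Pi.single x 1 + Pi.single y 1) - (ev x + ev x + ev y + ev y + ev q + ev q + ev p + ev p) : ℕ → ℤ) =
      Pi.single l 2 + Pi.single y (-1) + Pi.single p (-1) := by
    funext v
    simp only [Pi.sub_apply, Pi.add_apply, sgl, ev_apply]
    split_ifs <;> ring
  rw [e, ph_three vl vy vp hly hlp yp, con_X hpl hm] at h1
  have h2 := con_neg_one (pl y) (mi y)
  have h3 := con_neg_one_free (p := pl p) fp
  omega

/-- a path of the cluster in the other form -/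
theorem p3_to {c : Clu ℕ} (hn : NoLoop c.edges) {M W : Finset (Sym2 ℕ)} {u a b v : ℕ} (h : P3 c (M ∩ W) u a b v)
    (huv : u ≠ v) : XT.P3 (M ∩ c.edges) u a b v := by
  have nl : ∀ {s t : ℕ}, s(s, t) ∈ c.edges → s ≠ t := fun he => by
    have := hn _ he
    simpa using this
  exact ⟨⟨nl h.c1, h.ub, huv, nl h.c2, h.av, nl h.c3⟩,
    Finset.mem_inter.2 ⟨(Finset.mem_inter.1 h.e1).1, h.c1⟩, Finset.mem_inter.2 ⟨(Finset.mem_inter.1 h.e2).1, h.c2⟩,
    Finset.mem_inter.2 ⟨(Finset.mem_inter.1 h.e3).1, h.c3⟩⟩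

end

/-- **STEP 1** -/
theorem step1 : Step1 := by
  intro X P D j m S M CL U PL x y q p r s a b c1 c2 L1 L2 v hxr hys
  have hnd := v.nd
  simp only [List.nodup_cons, List.mem_cons, List.not_mem_nil, or_false, not_or, List.nodup_nil, and_true,
    not_false_iff] at hnd
  obtain ⟨⟨xy, xq, xp, xr, xs, xa, xb⟩, ⟨yq, yp, yr, ys, ya, yb⟩, ⟨qp, qr, qs, qa, qb⟩, ⟨pr, ps, pa, pb⟩,
    ⟨rs, ra, rb⟩, ⟨sa, sb⟩, ab⟩ := hnd
  -- the frame
  obtain ⟨pl, mi, h, hmi⟩ := v.wa.fr (fun c => c = c1 ∨ c = c2) (by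
    rintro c (rfl | rfl)
    · exact v.k1
    · exact v.k2)
  have A1 : Fr D (fun c => c = c1 ∨ c = c2) c1 = SqFree := Fr_pos (Or.inl rfl)
  have A2 : Fr D (fun c => c = c1 ∨ c = c2) c2 = SqFree := Fr_pos (Or.inr rfl)
  have a1 : ∀ K ⊆ c1.edges, Fr D (fun c => c = c1 ∨ c = c2) c1 K ↔ SqFree K := fun K _ => by rw [A1]
  have a2 : ∀ K ⊆ c2.edges, Fr D (fun c => c = c1 ∨ c = c2) c2 K ↔ SqFree K := fun K _ => by rw [A2]
  have v1 : c1.Valid := h.val' v.c1U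
  have v2 : c2.Valid := h.val' v.c2U
  obtain ⟨g1, g2, G, hG⟩ := k2c_of v1 v.k1
  obtain ⟨g3, g4, G', hG'⟩ := k2c_of v2 v.k2
  have am1 : AM2 (Fr D (fun c => c = c1 ∨ c = c2)) c1 := fun K hK _ hs => by
    rw [A1]
    exact (XU.sqFree_iff fun e he => hG.nl e (hK he)).2 hs
  have am2 : AM2 (Fr D (fun c => c = c1 ∨ c = c2)) c2 := fun K hK _ hs => by
    rw [A2]
    exact (XU.sqFree_iff fun e he => hG'.nl e (hK he)).2 hs
  have ers : s(r, s) ∈ c2.edges := v.z2 (by simp [TFC.sq])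
  have exy : s(x, y) ∈ c1.edges := v.q1 (by simp [TFC.sq])
  have eba : s(b, a) ∈ c2.edges := v.z2 (by simp [TFC.sq])
  -- the witnesses outside of the cluster of their square
  have sf1 : SqFree (L1 ∩ c2.edges) := sf_path hG' Finset.inter_subset_right v.w1.m2 Finset.inter_subset_left v.p1
    fun h1 => v.rs1 (Finset.mem_inter.1 h1).1
  have sf2 : SqFree (L2 ∩ c1.edges) := by
    obtain ⟨e, f, hp⟩ := v.p2
    exact sf_path hG Finset.inter_subset_right v.w2.m2 Finset.inter_subset_left hp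
      fun h1 => v.xy2 (Finset.mem_inter.1 h1).1
  have o1 : Out (Fr D (fun c => c = c1 ∨ c = c2)) U c1 L1 := out_of rfl h v.hQ v.w1 v.c1U v.q1 (by
    rintro c' _ hne (rfl | rfl)
    · exact absurd rfl hne
    · exact sf1)
  have o2 : Out (Fr D (fun c => c = c1 ∨ c = c2)) U c2 L2 := out_of rfl h v.hZ v.w2 v.c2U v.z2 (by
    rintro c' _ hne (rfl | rfl)
    · exact sf2
    · exact absurd rfl hne)
  -- types
  obtain ⟨plr, pls⟩ := pl_two (hmi r v.rS v.rT) (hmi s v.sS v.sT)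
    (two_add h v.hQ v.w1 v.c1U v.q1 am1 o1 (x := x) (y := y) (by simp [TFC.sq]) hxr hys rs xs)
  obtain ⟨plx, ply⟩ := pl_two (hmi x v.xS v.xT) (hmi y v.yS v.yT)
    (two_add h v.hZ v.w2 v.c2U v.z2 am2 o2 (x := r) (y := s) (by simp [TFC.sq])
      (by rw [Sym2.eq_swap]; exact hxr) (by rw [Sym2.eq_swap]; exact hys) xy (Ne.symm yr))
  have hpn : p < X.n := h.ok.vn p (h.v2' (h.cW' v.c1U (v.q1 (show s(q, p) ∈ TFC.sq x y q p by simp [TFC.sq])))
    (by simp))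
  have mip : ¬ mi p := h.free p hpn v.pT
  have plp : ¬ pl p := fun h1 => h.L1Y v.hQ v.w1 v.c1U v.q1 am1 o1 (a := p) (b := x) (by simp [TFC.sq]) ⟨h1, mip⟩
  have tq : ¬ pl q ∧ mi q := by
    obtain ⟨w, ⟨e, he, hwe⟩, h1, h2⟩ := h.L1x v.hQ v.w1 v.c1U v.q1 am1 o1
    have hw : w = x ∨ w = y ∨ w = q ∨ w = p := by
      simp only [TFC.sq, Finset.mem_insert, Finset.mem_singleton] at he
      rcases he with rfl | rfl | rfl | rfl <;> rw [Sym2.mem_iff] at hwe <;> tauto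
    rcases hw with rfl | rfl | rfl | rfl
    · exact absurd plx h2
    · exact absurd ply h2
    · exact ⟨h2, h1⟩
    · exact absurd h1 mip
  -- the shape of the first cluster
  have hub : (∃ L, K2c c1 y p L ∧ x ∈ L ∧ q ∈ L) ∨
      (∃ L, K2c c1 x q L ∧ y ∈ L ∧ p ∈ L ∧ (c1 = Clu.k2 x q L ∨ c1 = Clu.k2 q x L) ∧
        ∀ l ∈ L, l ≠ y → l ≠ p → mi l → pl l) := by
    rcases XF.shape v1 ⟨xy, xq, xp, yq, yp, qp⟩ v.q1 with h1 | ⟨L, h1, h2, h3, _, _⟩ | ⟨L, h1, h2, h3, _, _⟩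
    · obtain ⟨a', b', L', h2⟩ := v.k1
      rw [h1] at h2
      cases h2
    · right
      have hK : K2c c1 x q L := by
        rcases h1 with h1 | h1
        · have := v1
          rw [h1] at this ⊢
          exact K2c.of this
        · have := v1
          rw [h1] at this ⊢
          exact (K2c.of this).swap
      exact ⟨L, hK, h2, h3, h1, fun l hl hly hlp hm =>
        leaf_nX h ⟨xy, xq, xp, yq, yp, qp⟩ v.hQ v.w1 v.c1U a1 o1 hK h2 h3 mip hl hly hlp hm⟩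
    · left
      have hK : K2c c1 y p L := by
        rcases h1 with h1 | h1
        · have := v1
          rw [h1] at this ⊢
          exact K2c.of this
        · have := v1
          rw [h1] at this ⊢
          exact (K2c.of this).swap
      exact ⟨L, hK, h2, h3⟩
  have hS3 : ∀ w, w = x ∨ w = r ∨ w = s → w ∈ S ∧ w ∈ X.T := by
    rintro w (rfl | rfl | rfl)
    · exact ⟨v.xS, v.xT⟩
    · exact ⟨v.rS, v.rT⟩
    · exact ⟨v.sS, v.sT⟩
  have H : S1 X P D j S M (Fr D fun c => c = c1 ∨ c = c2) CL U PL pl mi x y q p r s c1 c2 :=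
    { pw := h
      xy := xy
      xq := xq
      xp := xp
      xr := xr
      xs := xs
      yq := yq
      yp := yp
      yr := yr
      ys := ys
      qp := qp
      qr := qr
      qs := qs
      pr := pr
      ps := ps
      rs := rs
      S3 := hS3
      m2 := fun w hw => (v.wa.ow.nc w (hS3 w hw).1 (hS3 w hw).2).1.m2
      au := fun w hw => ⟨Finset.inter_subset_right, fun c hc => by
        rw [h.interW hc]
        have hcC := ((h.uc c).1 hc).1
        refine Fr_of (fun hf => ?_) fun _ => v.wa.mcap w (hS3 w hw).1 (hS3 w hw).2 c hcC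
        refine v.wa.msf w (hS3 w hw).1 (hS3 w hw).2 c hcC ?_
        rcases hf with rfl | rfl
        · exact v.k1
        · exact v.k2⟩
      u1 := v.c1U
      u2 := v.c2U
      a1 := a1
      a2 := a2
      hub := hub
      ers := ers
      exr := hxr
      eys := hys
      tx := ⟨plx, hmi x v.xS v.xT⟩
      ty := ⟨ply, hmi y v.yS v.yT⟩
      tr := ⟨plr, hmi r v.rS v.rT⟩
      ts := ⟨pls, hmi s v.sS v.sT⟩
      tp := ⟨plp, mip⟩
      tq := tq }
  refine ⟨?_, ?_, ?_⟩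
  · obtain ⟨e, f, hp⟩ := H.sa
    exact ⟨e, f, p3_to hG.nl hp xp⟩
  · obtain ⟨e, f, hp⟩ := H.sc
    exact ⟨e, f, p3_to hG'.nl hp rs⟩
  · rcases H.sef with ⟨e, f, hp⟩ | ⟨L, l, h1, _, h2, hp⟩
    · exact Or.inl ⟨e, f, p3_to hG'.nl hp (Ne.symm rs)⟩
    · exact Or.inr ⟨l, L, h2, p3_to hG.nl hp xp, h1⟩

end Pool.Agent.PF4.XS1

end

section -- file PF4/P4S2

/-!
Two conflicting squares, a free corner `p` of the first square, all corners of the second square in `T`: the last step,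
in the second world.
-/

set_option autoImplicit false
set_option linter.unusedSectionVars false
set_option linter.unusedVariables false

namespace Pool.Agent.PF4.XT

open Finset Pool.Agent.TFC Pool.Agent.PF4 Pool.Agent.PF4.LD Pool.Agent.PF4.XC Pool.Agent.PF4.XF

/-- degrees in a set of three edges of a `K4` -/
theorem s2_k4deg {Y : Finset ℕ} (hY : #Y = 4) {K : Finset (Sym2 ℕ)} (hK : K ⊆ (Clu.k4 Y).edges)
    (h2 : ∀ v, dg K v ≤ 2) (h3 : #K = 3) {y q l : ℕ} (hy : y ∈ Y) (hq : q ∈ Y) (hqy : q ≠ y)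
    (h : dg K q = 0 ∨ (dg K q ≤ 1 ∧ l ∈ Y ∧ l ≠ y ∧ l ≠ q ∧ dg K l ≤ 1)) : dg K y = 2 := by
  have hs := sum_dv_k4 hK
  rw [← Finset.add_sum_erase Y _ hy, h3] at hs
  have hc : #(Y.erase y) = 3 := by rw [card_erase_of_mem hy, hY]
  have hq' : q ∈ Y.erase y := mem_erase.2 ⟨hqy, hq⟩
  have key : ∑ v ∈ Y.erase y, dv K v ≤ 4 := by
    rcases h with h | ⟨h4, h5, h6, h7, h8⟩
    · have h1 : ∑ v ∈ Y.erase y, dv K v ≤ ∑ v ∈ Y.erase y, ((2 : ℤ) - if v = q then 2 else 0) := by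
        refine Finset.sum_le_sum fun v _ => ?_
        rw [dv_apply]
        by_cases hv : v = q
        · rw [if_pos hv, hv, h]; norm_num
        · rw [if_neg hv]
          have := h2 v
          omega
      rw [Finset.sum_sub_distrib, Finset.sum_const, hc, Finset.sum_ite_eq' (Y.erase y) q fun _ => (2 : ℤ),
        if_pos hq'] at h1
      norm_num at h1
      exact h1
    · have hl' : l ∈ Y.erase y := mem_erase.2 ⟨h6, h5⟩
      have h1 : ∑ v ∈ Y.erase y, dv K v ≤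
          ∑ v ∈ Y.erase y, ((2 : ℤ) - (if v = q then 1 else 0) - if v = l then 1 else 0) := by
        refine Finset.sum_le_sum fun v _ => ?_
        rw [dv_apply]
        by_cases hv : v = q
        · have : ¬ v = l := fun e => h7 (e.symm.trans hv)
          rw [if_pos hv, if_neg this, hv]
          omega
        · rw [if_neg hv]
          by_cases hv' : v = l
          · rw [if_pos hv', hv']
            omega
          · rw [if_neg hv']
            have := h2 v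
            omega
      rw [Finset.sum_sub_distrib, Finset.sum_sub_distrib, Finset.sum_const, hc,
        Finset.sum_ite_eq' (Y.erase y) q fun _ => (1 : ℤ), Finset.sum_ite_eq' (Y.erase y) l fun _ => (1 : ℤ),
        if_pos hq', if_pos hl'] at h1
      norm_num at h1
      exact h1
  have := h2 y
  rw [dv_apply] at hs
  push_cast at hs
  omega

/-- all neighbours are equal -/
theorem s2_dg1 {K : Finset (Sym2 ℕ)} {v a : ℕ} (h : ∀ b, s(v, b) ∈ K → b = a) : dg K v ≤ 1 := by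
  by_contra hc
  obtain ⟨b, hb, hbK⟩ := exists_nbr_ne (z := K) (v := v) (by omega) a
  exact hb (h b hbK)

/-- all edges at a vertex are in the subset -/
theorem s2_full {K M : Finset (Sym2 ℕ)} (hK : K ⊆ M) {v : ℕ} (h1 : dg K v = 2) (h2 : dg M v ≤ 2) {e : Sym2 ℕ}
    (he : e ∈ M) (hv : v ∈ e) : e ∈ K := by
  have h3 : K.filter (fun e => v ∈ e) = M.filter (fun e => v ∈ e) := by
    refine Finset.eq_of_subset_of_card_le (Finset.filter_subset_filter _ hK) ?_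
    unfold dg at h1 h2
    rw [h1]
    exact h2
  have h4 : e ∈ M.filter (fun e => v ∈ e) := mem_filter.2 ⟨he, hv⟩
  rw [← h3] at h4
  exact (mem_filter.1 h4).1

section
variable {X : XD} {P : ℕ → Finset (Sym2 ℕ) → Prop} {D : Finset (Finset (Sym2 ℕ))} {j m : ℕ} {S : Finset ℕ}
  {M : ℕ → Finset (Sym2 ℕ)} {CL U : List (Clu ℕ)} {PL : Finset (Sym2 ℕ)} {F : Clu ℕ → Prop} {pl mi : ℕ → Prop}

theorem PW.reg_s {A : Clu ℕ → Finset (Sym2 ℕ) → Prop} (h : PW X P D j S M A CL U PL pl mi) {v : ℕ} (hv : v ∈ S)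
    {e : Sym2 ℕ} (he : e ∈ X.E) (hve : v ∈ e) : e ∈ Ucl U ∪ PL :=
  h.rch v (Rch.mono (r := 0) (Nat.zero_le 3) hv) e he hve

theorem PW.reg_s1 {A : Clu ℕ → Finset (Sym2 ℕ) → Prop} (h : PW X P D j S M A CL U PL pl mi) {u v : ℕ} (hu : u ∈ S)
    (huv : s(u, v) ∈ X.E) {e : Sym2 ℕ} (he : e ∈ X.E) (hve : v ∈ e) : e ∈ Ucl U ∪ PL :=
  h.rch v (Rch.mono (r := 1) (by norm_num) (Or.inr ⟨u, hu, huv⟩)) e he hve

theorem PW.clz_s {A : Clu ℕ → Finset (Sym2 ℕ) → Prop} (h : PW X P D j S M A CL U PL pl mi) {Z : Finset (Sym2 ℕ)}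
    (hZ : Z ∈ D) {e : Sym2 ℕ} (he : e ∈ Z) (hW : e ∈ Ucl U ∪ PL) : ∃ c ∈ U, Z ⊆ c.edges := by
  rcases mem_union.1 hW with h1 | h1
  · obtain ⟨c, hc, hec⟩ := mem_Ucl.1 h1
    exact ⟨c, hc, (h.cls.whole ((h.uc c).1 hc).1 hZ).resolve_right fun hd => disjoint_left.1 hd he hec⟩
  · exact absurd he (((h.pm e).1 h1).2 Z hZ)

/-- near covers are allowed -/
theorem WA.au_s (h : WA X P D j m S M CL U PL) (hF : ∀ c, F c → K2 c)
    (g : PW X P D j S M (Fr D F) CL U PL pl mi) {w : ℕ} (hw : w ∈ S) (hT : w ∈ X.T) :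
    AU (Fr D F) U PL (M w ∩ (Ucl U ∪ PL)) := by
  refine ⟨inter_subset_right, fun c hcU => ?_⟩
  rw [g.interW hcU]
  exact fr_near h.ow h.cls hF hw hT ((g.uc c).1 hcU).1

theorem fr_dwn_s : Dwn (Fr D F) := by
  intro c K K' hK hA
  by_cases hf : F c
  · rw [Fr_pos hf] at hA ⊢
    exact Good.mono hA hK
  · rw [Fr_neg hf] at hA ⊢
    exact ⟨hA.1.mono hK, fun Z hZ hs => hA.2 Z hZ (hs.trans hK)⟩

/-- the frame at an uncapped cluster -/
theorem fr_asf_s (g : PW X P D j S M (Fr D F) CL U PL pl mi) {c : Clu ℕ} (hc : c ∈ U) (hf : F c) :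
    ASf (Fr D F) c := by
  intro K hK hs
  rw [Fr_pos hf]
  exact sqFree_of ((g.nl (g.cW hc)).mono hK) hs

theorem WA.nsq_s (h : WA X P D j m S M CL U PL) (g : PW X P D j S M (Fr D F) CL U PL pl mi) {c : Clu ℕ} (hc : c ∈ U)
    (h2 : K2 c) {w : ℕ} (hw : w ∈ S) (hT : w ∈ X.T) : NSq (M w ∩ c.edges) :=
  (XU.sqFree_iff ((g.nl (g.cW hc)).mono inter_subset_right)).1 (h.msf w hw hT c ((g.uc c).1 hc).1 h2)

/-- a near cover at an edge of an uncapped cluster -/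
theorem WA.free_s (h : WA X P D j m S M CL U PL) (hF : ∀ c, F c → K2 c) (g : PW X P D j S M (Fr D F) CL U PL pl mi)
    {c : Clu ℕ} (hc : c ∈ U) (hf : F c) {e : Sym2 ℕ} (he : e ∈ c.edges) {w : ℕ} (hw : w ∈ S) (hT : w ∈ X.T) :
    Free (Fr D F) U (M w) e := by
  intro c' hc' he'
  have := g.eqc hc hc' he he'
  subst this
  exact ⟨fr_asf_s g hc hf, h.nsq_s g hc (hF c hf) hw hT⟩

/-- `K4` clusters: near covers have three edges, all vertices are in `T` -/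
theorem WA.k4_s (h : WA X P D j m S M CL U PL) {Y : Finset ℕ} (hU : Clu.k4 Y ∈ U) {w : ℕ} (hw : w ∈ S) (hT : w ∈ X.T) :
    #(M w ∩ (Clu.k4 Y).edges) = 3 ∧ ∀ v ∈ Y, v ∈ X.T := by
  obtain ⟨pl, mi, g, _⟩ := h.fr (fun _ => False) fun _ h => h.elim
  have hA : ∀ c, Fr D (fun _ => False) c = Acap D := fun c => Fr_neg (fun h => h)
  obtain ⟨f, hf⟩ := valid_nonempty (g.val hU)
  obtain ⟨Z, hZ, hfZ, hZs⟩ := h.cls.edge_sq ((g.uc _).1 hU).1 hf
  obtain ⟨L, hL⟩ := g.wt hZ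
  have hX : ∀ v ∈ Y, mi v ∧ ¬ pl v := fun v hv => g.k4X hU (fun c _ _ => hA c) (hA _) hv
  have hO : Out (Fr D fun _ => False) U (Clu.k4 Y) L := by
    intro c hcU hne
    rw [hA]
    refine ⟨hL.m2.mono inter_subset_left, fun Z' hZ' hs => ?_⟩
    have := hL.uni Z' hZ' (hs.trans inter_subset_left)
    subst this
    exact hne (g.eqc hcU hU (mem_inter.1 (hs hfZ)).2 hf)
  have hcap : ∀ c ∈ U, Acap D (M w ∩ c.edges) := fun c hc => h.mcap w hw hT c ((g.uc c).1 hc).1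
  have hACp : ACp D (Fr D fun _ => False) (Clu.k4 Y) := fun K _ hK => by rw [hA]; exact hK
  have hDD := g.k4D hU hACp hZ hZs hL hO
  refine ⟨g.k4M hU (ACp.am2 g.isq hACp) hX hDD hw hT (fun c hc _ => by rw [hA]; exact hcap c hc) (hcap _ hU),
    fun v hv => ?_⟩
  by_contra hvT
  have hv2 : v ∈ X.V2 := by
    have h4 : #Y = 4 := g.val hU
    obtain ⟨a, ha⟩ : (Y.erase v).Nonempty := by
      rw [← card_pos, card_erase_of_mem hv, h4]; norm_num
    simp only [mem_erase] at ha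
    exact g.v2 hU (mem_k4.2 ⟨hv, ha.2, Ne.symm ha.1⟩) (Sym2.mem_mk_left _ _)
  exact g.free v (g.ok.vn v hv2) hvT (hX v hv).1

/-- the square is not in a `K4` cluster -/
theorem s2_k4 (h : WA X P D j m S M CL U PL) {x y s r u v : ℕ} (h4 : Dist4 x y s r)
    (hU : Clu.k4 {x, y, s, r} ∈ U) (hr : r ∈ S) (hT : r ∈ X.T) {C : Finset (Sym2 ℕ)} (hp : P3 (M r ∩ C) r u v s)
    (n1 : s(x, r) ∉ C) (n2 : s(y, s) ∉ C) (n3 : s(x, y) ∉ C) : False := by
  obtain ⟨xy, xs, xr, ys, yr, sr⟩ := h4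
  obtain ⟨⟨ru, rv, _, uv, us, vs⟩, p1, p2, p3⟩ := hp
  rw [mem_inter] at p1 p2 p3
  obtain ⟨nc, _, _⟩ := h.ow.nc r hr hT
  obtain ⟨h3, _⟩ := h.k4_s hU hr hT
  have hY : #({x, y, s, r} : Finset ℕ) = 4 := (h.cls.val _ (((h.fr (fun _ => False) fun _ h => h.elim).choose_spec.choose_spec.1.uc _).1 hU).1)
  have hK : M r ∩ (Clu.k4 {x, y, s, r}).edges ⊆ (Clu.k4 {x, y, s, r}).edges := inter_subset_right
  have hd : ∀ v, dg (M r ∩ (Clu.k4 {x, y, s, r}).edges) v ≤ 2 := fun v =>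
    (dg_mono inter_subset_left v).trans (nc.m2.le v)
  have one : ∀ a, s(r, a) ∈ M r → a = u := fun a ha => nbr_unique (by rw [nc.one]) ha p1.1
  have mem : ∀ a b, s(a, b) ∈ (Clu.k4 {x, y, s, r}).edges →
      (a = x ∨ a = y ∨ a = s ∨ a = r) ∧ (b = x ∨ b = y ∨ b = s ∨ b = r) := by
    intro a b hab
    rw [mem_k4] at hab
    obtain ⟨h1, h2, _⟩ := hab
    simp only [mem_insert, mem_singleton] at h1 h2
    exact ⟨h1, h2⟩
  have ux : u ≠ x := fun e => n1 (msw (e ▸ p1.2))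
  have mx : x ∈ ({x, y, s, r} : Finset ℕ) := by simp
  have my : y ∈ ({x, y, s, r} : Finset ℕ) := by simp
  have ms : s ∈ ({x, y, s, r} : Finset ℕ) := by simp
  have mr : r ∈ ({x, y, s, r} : Finset ℕ) := by simp
  by_cases uy : u = y
  · subst uy
    have vx : v ≠ x := fun e => n3 (msw (e ▸ p2.2))
    have nb : ∀ a, s(u, a) ∈ M r → a = r ∨ a = v := fun a ha =>
      nbr_two (nc.m2.le u) (msw p1.1) p2.1 rv ha
    have d1 : dg (M r ∩ (Clu.k4 {x, u, s, r}).edges) r ≤ 1 :=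
      (dg_mono inter_subset_left r).trans (by rw [nc.one])
    have d2 : dg (M r ∩ (Clu.k4 {x, u, s, r}).edges) u ≤ 1 := by
      refine s2_dg1 (a := r) fun b hb => ?_
      obtain ⟨hb1, hb2⟩ := mem_inter.1 hb
      rcases nb b hb1 with h1 | h1
      · exact h1
      · exfalso
        subst h1
        rcases (mem _ _ hb2).2 with h5 | h5 | h5 | h5
        · exact vx h5
        · exact uv h5.symm
        · exact vs h5
        · exact rv h5.symm
    have d3 : dg (M r ∩ (Clu.k4 {x, u, s, r}).edges) x ≤ 1 := by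
      refine s2_dg1 (a := s) fun b hb => ?_
      obtain ⟨hb1, hb2⟩ := mem_inter.1 hb
      rcases (mem _ _ hb2).2 with h5 | h5 | h5 | h5
      · exfalso
        rw [mem_k4] at hb2
        exact hb2.2.2 h5.symm
      · exfalso
        subst h5
        rcases nb x (msw hb1) with h6 | h6
        · exact xr h6
        · exact vx h6.symm
      · exact h5
      · exfalso
        subst h5
        exact ux (one x (msw hb1)).symm
    have := s2_k4deg hY hK hd h3 (y := x) (q := r) (l := u) mx mr xr.symm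
      (Or.inr ⟨d1, my, xy.symm, ru.symm, d2⟩)
    omega
  · have ur : u ≠ r := ru.symm
    have d0 : dg (M r ∩ (Clu.k4 {x, y, s, r}).edges) r = 0 := by
      by_contra hc
      obtain ⟨b, hb⟩ := exists_nbr (z := M r ∩ (Clu.k4 {x, y, s, r}).edges) (v := r) (by omega)
      obtain ⟨hb1, hb2⟩ := mem_inter.1 hb
      have := one b hb1
      subst this
      rcases (mem _ _ hb2).2 with h5 | h5 | h5 | h5
      · exact ux h5
      · exact uy h5
      · exact us h5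
      · exact ur h5
    have ds := s2_k4deg hY hK hd h3 (y := s) (q := r) (l := r) ms mr sr.symm (Or.inl d0)
    have dx := s2_k4deg hY hK hd h3 (y := x) (q := r) (l := r) mx mr xr.symm (Or.inl d0)
    have hv := s2_full inter_subset_left ds (nc.m2.le s) p3.1 (Sym2.mem_mk_right _ _)
    rcases (mem _ _ (mem_inter.1 hv).2).1 with h5 | h5 | h5 | h5
    · -- `v = x`
      subst h5
      have hu := s2_full inter_subset_left dx (nc.m2.le v) p2.1 (Sym2.mem_mk_right _ _)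
      rcases (mem _ _ (mem_inter.1 hu).2).1 with h5 | h5 | h5 | h5
      · exact ux h5
      · exact uy h5
      · exact us h5
      · exact ur h5
    · subst h5
      exact n2 p3.2
    · exact vs h5
    · exact rv h5.symm

/-- two different descriptions of a cluster with two centres -/
theorem s2_hubs {u v u' v' : ℕ} {L L' : Finset ℕ} (h : Clu.k2 u v L = Clu.k2 u' v' L') : u = u' ∧ v = v' ∧ L = L' := by
  injection h with h1 h2 h3
  exact ⟨h1, h2, h3⟩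

/-- a cluster with two centres and a square: two opposite corners are the centres -/
theorem s2_shape {c : Clu ℕ} (hc : c.Valid) (h2 : K2 c) {x y q p : ℕ} (h4 : Dist4 x y q p)
    (hs : TFC.sq x y q p ⊆ c.edges) :
    (∃ L, (c = Clu.k2 x q L ∨ c = Clu.k2 q x L) ∧ y ∈ L ∧ p ∈ L ∧ x ∉ L ∧ q ∉ L) ∨
    (∃ L, (c = Clu.k2 y p L ∨ c = Clu.k2 p y L) ∧ x ∈ L ∧ q ∈ L ∧ y ∉ L ∧ p ∉ L) := by
  rcases shape hc h4 hs with h | h
  · obtain ⟨a, b, L, rfl⟩ := h2
    cases h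
  · exact h

/-- a square meets both centres -/
theorem s2_centre {u v : ℕ} {L : Finset ℕ} (hc : (Clu.k2 u v L).Valid) {Z : Finset (Sym2 ℕ)} (hZ : IsSq Z)
    (hs : Z ⊆ (Clu.k2 u v L).edges) : (∃ b, s(u, b) ∈ Z) ∧ ∃ b, s(v, b) ∈ Z := by
  obtain ⟨a', b', c', d', h5, rfl⟩ := hZ
  rcases s2_shape hc ⟨_, _, _, rfl⟩ h5 hs with ⟨L2, h6 | h6, _⟩ | ⟨L2, h6 | h6, _⟩
  · obtain ⟨rfl, rfl, _⟩ := s2_hubs h6
    exact ⟨⟨b', by simp [TFC.sq]⟩, ⟨d', by simp [TFC.sq]⟩⟩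
  · obtain ⟨rfl, rfl, _⟩ := s2_hubs h6
    exact ⟨⟨d', by simp [TFC.sq]⟩, ⟨b', by simp [TFC.sq]⟩⟩
  · obtain ⟨rfl, rfl, _⟩ := s2_hubs h6
    exact ⟨⟨c', by simp [TFC.sq]⟩, ⟨a', by simp [TFC.sq]⟩⟩
  · obtain ⟨rfl, rfl, _⟩ := s2_hubs h6
    exact ⟨⟨a', by simp [TFC.sq]⟩, ⟨c', by simp [TFC.sq]⟩⟩

/-- the last move: `M_s - qp + yq` -/
theorem s2_last (h : WA X P D j m S M CL U PL) (hF : ∀ c, F c → K2 c) (g : PW X P D j S M (Fr D F) CL U PL pl mi)
    {x y q p r s l : ℕ} {c1 cR : Clu ℕ}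
    (hFd : F = fun c => K2 c ∧ (TFC.sq x y s r ⊆ c.edges ∨ ∃ v L, c = Clu.k2 y v L ∨ c = Clu.k2 v y L))
    (hM : ∀ w ∈ S, w ∈ X.T → AU (Fr D F) U PL (M w ∩ (Ucl U ∪ PL))) (cU : cR ∈ U) (hcR : TFC.sq x y s r ⊆ cR.edges)
    (k2R : K2 cR) (fR : F cR) (d4 : Dist4 x y s r) (xq : x ≠ q) (xp : x ≠ p) (yq : y ≠ q) (yp : y ≠ p) (qp : q ≠ p)
    (qr : q ≠ r) (qs : q ≠ s) (pr : p ≠ r) (ps : p ≠ s) (xS : x ∈ S) (yS : y ∈ S) (sS : s ∈ S) (xT : x ∈ X.T)
    (yT : y ∈ X.T) (sT : s ∈ X.T) (pT : p ∉ X.T) (hQ : TFC.sq x y q p ⊆ X.E) (xr1 : s(x, r) ∉ c1.edges)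
    (ncs : NC X s (M s)) (hyp : ¬ pl y) (hly : l ≠ y) (hd : P3 (M s ∩ c1.edges) x l q p)
    (blk : ∀ w z, w ∈ S → w ∈ X.T → s(w, z) ∈ cR.edges → s(w, z) ∉ M w →
      (∀ a b, Dist4 w a b z → s(w, a) ∈ M w → s(a, b) ∈ M w → s(b, z) ∈ M w → s(w, a) ∈ cR.edges →
        s(a, b) ∈ cR.edges → s(b, z) ∈ cR.edges → False) → pl z) : False := by
  obtain ⟨xy, xs, xr, ys, yr, sr⟩ := d4
  obtain ⟨⟨n1, n2, n3, n4, n5, n6⟩, p1, p2, p3⟩ := hd
  rw [mem_inter] at p1 p2 p3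
  have shR := s2_shape (g.val cU) k2R ⟨xy, xs, xr, ys, yr, sr⟩ hcR
  have lr : l ≠ r := fun h' => xr1 (h' ▸ p1.2)
  -- neighbours in `M s`
  have nq : ∀ b, s(q, b) ∈ M s → b = l ∨ b = p := fun b hb => nbr_two (ncs.m2.le q) (msw p2.1) p3.1 n5 hb
  have nl : ∀ b, s(l, b) ∈ M s → b = x ∨ b = q := fun b hb => nbr_two (ncs.m2.le l) (msw p1.1) p2.1 n2 hb
  have hyq : s(y, q) ∉ M s := by
    intro h'
    rcases nq y (msw h') with h1 | h1
    · exact hly h1.symm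
    · exact yp h1
  have hyqW : s(y, q) ∈ Ucl U ∪ PL := g.reg_s yS (hQ (by simp [TFC.sq])) (Sym2.mem_mk_left _ _)
  have hqpW : s(q, p) ∈ Ucl U ∪ PL :=
    g.reg_s1 yS (v := q) (hQ (by simp [TFC.sq])) (hQ (by simp [TFC.sq])) (Sym2.mem_mk_left _ _)
  have hxyR : s(x, y) ∈ cR.edges := hcR (by simp [TFC.sq])
  have hysR : s(s, y) ∈ cR.edges := hcR (by simp [TFC.sq, Sym2.eq_swap])
  have notK4 : ∀ {Y : Finset ℕ}, Clu.k4 Y ∈ U → ∀ {e : Sym2 ℕ}, e ∈ cR.edges → e ∉ (Clu.k4 Y).edges := by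
    intro Y hY e he he'
    have := g.eqc cU hY he he'
    obtain ⟨a, b, L, h1⟩ := k2R
    rw [h1] at this
    cases this
  -- the modified near cover
  obtain ⟨K0, hK0⟩ : ∃ K0, K0 = (M s ∩ (Ucl U ∪ PL)) \ {s(q, p)} := ⟨_, rfl⟩
  have hK0M : K0 ⊆ M s := by
    rw [hK0]
    exact sdiff_subset.trans inter_subset_left
  have hK0q : s(q, p) ∉ K0 := by
    rw [hK0]
    simp
  have hA0 : AU (Fr D F) U PL K0 := by
    rw [hK0]
    exact (hM s sS sT).mono fr_dwn_s sdiff_subset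
  have nq0 : ∀ b, s(q, b) ∈ K0 → b = l := by
    intro b hb
    rcases nq b (hK0M hb) with h1 | h1
    · exact h1
    · exact absurd (h1 ▸ hb) hK0q
  have hadd : Addb (Fr D F) U PL K0 s(y, q) := by
    rcases mem_union.1 hyqW with h1 | h1
    swap
    · exact Or.inl h1
    obtain ⟨c, hcU, hec⟩ := mem_Ucl.1 h1
    refine Or.inr ⟨c, hcU, hec, ?_⟩
    by_cases k2c : K2 c
    · -- two centres
      have hns : NSq (insert s(y, q) (K0 ∩ c.edges)) := by
        by_contra hn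
        obtain ⟨a, b, ⟨m1, m2, m3, m4, m5, m6⟩, h2, h3, h4⟩ :=
          nsq_insert (NSq.mono (h.nsq_s g hcU k2c sS sT) (inter_subset_inter hK0M le_rfl)) hn
        rw [mem_inter] at h2 h3 h4
        have hb : b = l := nq0 b (msw h4.1)
        subst hb
        rcases nl a (msw (hK0M h3.1)) with h5 | h5
        · subst h5
          have hcc := g.eqc hcU cU h2.2 (msw hxyR)
          subst hcc
          have h6 := s2_shape (g.val hcU) k2c (x := y) (y := a) (q := b) (p := q) ⟨m1, m2, m3, m4, m5, m6⟩ (by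
            intro e he
            simp only [TFC.sq, mem_insert, mem_singleton] at he
            rcases he with rfl | rfl | rfl | rfl
            · exact h2.2
            · exact h3.2
            · exact h4.2
            · exact msw hec)
          rcases h6 with ⟨L, h7, _, _, h8, _⟩ | ⟨L, h7, _, _, h8, _⟩ <;>
            rcases shR with ⟨L', h9, h10, h11, h12, _⟩ | ⟨L', h9, h10, h11, h12, _⟩ <;>
            rcases h7 with h7 | h7 <;> rcases h9 with h9 | h9 <;> rw [h7] at h9 <;>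
            obtain ⟨e1, e2, e3⟩ := s2_hubs h9
          · exact xy e1.symm
          · exact ys e1
          · exact ys e2
          · exact xy e2.symm
          · exact lr e2
          · exact yr e1
          · exact yr e2
          · exact lr e1
          · exact qs e2
          · exact xs e1
          · exact xs e2
          · exact qs e1
          · exact xy e1
          · exact xr e1
          · exact xr e2
          · exact xy e2
        · exact m5 h5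
      refine Fr_of (fun _ => ?_) fun hnf => ?_
      · exact sqFree_of ((g.nl (g.cW hcU)).mono (insert_subset hec inter_subset_right)) hns
      · refine ⟨?_, fun Z hZ => hns Z (g.isq Z hZ)⟩
        -- a 2-matching
        refine ⟨(g.nl (g.cW hcU)).mono (insert_subset hec inter_subset_right), fun v => ?_⟩
        have hn0 : s(y, q) ∉ K0 ∩ c.edges := fun h' => hyq (hK0M (mem_inter.1 h').1)
        rw [dg_insert hn0]
        by_cases hv : v ∈ s(y, q)
        · rw [if_pos hv]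
          rw [Sym2.mem_iff] at hv
          have : dg (K0 ∩ c.edges) v ≤ 1 := by
            rcases hv with rfl | rfl
            · -- `y` is a leaf of `c`
              obtain ⟨a, b, L, rfl⟩ := k2c
              have hya : v ≠ a := by
                rintro rfl
                exact hnf (by rw [hFd]; exact ⟨⟨_, _, _, rfl⟩, Or.inr ⟨_, _, Or.inl rfl⟩⟩)
              have hyb : v ≠ b := by
                rintro rfl
                exact hnf (by rw [hFd]; exact ⟨⟨_, _, _, rfl⟩, Or.inr ⟨_, _, Or.inr rfl⟩⟩)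
              have hq' : q = a ∨ q = b := by
                rw [mem_k2] at hec
                rcases hec with ⟨h2 | h2, _⟩ | ⟨h2, _⟩
                · exact absurd h2 hya
                · exact absurd h2 hyb
                · exact h2
              have hnb : ∀ w, s(v, w) ∈ K0 ∩ (Clu.k2 a b L).edges → (w = a ∨ w = b) ∧ w ≠ q := by
                intro w hw
                obtain ⟨hw1, hw2⟩ := mem_inter.1 hw
                refine ⟨?_, fun h' => hyq (hK0M (h' ▸ hw1))⟩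
                rw [mem_k2] at hw2
                rcases hw2 with ⟨h2 | h2, _⟩ | ⟨h2, _⟩
                · exact absurd h2 hya
                · exact absurd h2 hyb
                · exact h2
              rcases hq' with h5 | h5
              · refine s2_dg1 (a := b) fun w hw => ?_
                obtain ⟨h6 | h6, h7⟩ := hnb w hw
                · exact absurd (h6.trans h5.symm) h7
                · exact h6
              · refine s2_dg1 (a := a) fun w hw => ?_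
                obtain ⟨h6 | h6, h7⟩ := hnb w hw
                · exact h6
                · exact absurd (h6.trans h5.symm) h7
            · exact s2_dg1 (a := l) fun w hw => nq0 w (mem_inter.1 hw).1
          omega
        · rw [if_neg hv]
          exact (dg_mono (inter_subset_left.trans hK0M) v).trans (ncs.m2.le v)
    · -- a `K4`
      exfalso
      obtain ⟨Y, rfl⟩ : ∃ Y, c = Clu.k4 Y := by
        cases c with
        | k4 Y => exact ⟨Y, rfl⟩
        | k2 a b L => exact absurd ⟨_, _, _, rfl⟩ k2c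
      obtain ⟨h3, hYT⟩ := h.k4_s hcU sS sT
      have hY4 : #Y = 4 := g.val hcU
      obtain ⟨hy, hq, _⟩ := mem_k4.1 hec
      have hdy : dg (M s ∩ (Clu.k4 Y).edges) y = 2 := by
        have dq1 : dg (M s ∩ (Clu.k4 Y).edges) q ≤ 1 := by
          refine s2_dg1 (a := l) fun b hb => ?_
          obtain ⟨hb1, hb2⟩ := mem_inter.1 hb
          rcases nq b hb1 with h5 | h5
          · exact h5
          · exact absurd (hYT p (h5 ▸ (mem_k4.1 hb2).2.1)) pT
        by_cases hl : l ∈ Y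
        · refine s2_k4deg hY4 inter_subset_right (fun v => (dg_mono inter_subset_left v).trans (ncs.m2.le v)) h3 hy hq
            (l := l) yq.symm (Or.inr ⟨dq1, hl, hly, n4, s2_dg1 (a := q) fun b hb => ?_⟩)
          obtain ⟨hb1, hb2⟩ := mem_inter.1 hb
          rcases nl b hb1 with h5 | h5
          · subst h5
            exact absurd (mem_k4.2 ⟨(mem_k4.1 hb2).2.1, hy, xy⟩) (notK4 hcU hxyR)
          · exact h5
        · refine s2_k4deg hY4 inter_subset_right (fun v => (dg_mono inter_subset_left v).trans (ncs.m2.le v)) h3 hy hq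
            (l := l) yq.symm (Or.inl ?_)
          by_contra hc
          obtain ⟨b, hb⟩ := exists_nbr (z := M s ∩ (Clu.k4 Y).edges) (v := q) (by omega)
          obtain ⟨hb1, hb2⟩ := mem_inter.1 hb
          rcases nq b hb1 with h5 | h5
          · exact hl (h5 ▸ (mem_k4.1 hb2).2.1)
          · exact pT (hYT p (h5 ▸ (mem_k4.1 hb2).2.1))
      refine hyp (blk s y sS sT hysR (fun h' => ?_) ?_)
      · exact notK4 hcU hysR (mem_inter.1 (s2_full inter_subset_left hdy (ncs.m2.le y) h' (Sym2.mem_mk_right _ _))).2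
      · intro a b _ _ _ h7 _ _ h8
        exact notK4 hcU h8 (mem_inter.1 (s2_full inter_subset_left hdy (ncs.m2.le y) h7 (Sym2.mem_mk_right _ _))).2
  have hins : AU (Fr D F) U PL (((M s ∩ (Ucl U ∪ PL)) \ {s(q, p)}) ∪ {s(y, q)}) := by
    have h1 := g.addb hA0 hadd
    rw [hK0, insert_eq, union_comm] at h1
    exact h1
  have h1 := g.nc_swap sS sT (R := {s(q, p)}) (B := {s(y, q)}) (singleton_subset_iff.2 p3.1)
    (singleton_subset_iff.2 hqpW) (disjoint_singleton_left.2 fun h' => hyq (mem_inter.1 h').1) hins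
  rw [dv_pair yq, dv_pair qp] at h1
  have vy : y ∈ X.V2 := g.v2' hyqW (Sym2.mem_mk_left _ _)
  have vp : p ∈ X.V2 := g.v2' hqpW (Sym2.mem_mk_right _ _)
  have e : (Pi.single y 1 + Pi.single q 1 - (Pi.single q 1 + Pi.single p 1) - Pi.single s 1 : ℕ → ℤ) =
      Pi.single y 1 + Pi.single p (-1) + Pi.single s (-1) := by
    rw [Pi.single_neg, Pi.single_neg]
    abel
  rw [e, ph_three vy vp (g.sv s sS) yp ys ps] at h1
  have my : mi y := g.mi' y yS yT (hM y yS yT)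
  rw [con_X hyp my] at h1
  have h2 := con_neg_one_free (p := pl p) (g.free p (g.ok.vn p vp) pT)
  have h3 := con_neg_one (pl s) (mi s)
  omega

/-- **STEP 2** (second world) -/
theorem step2' (h : WA X P D j m S M CL U PL) {x y q p r s : ℕ} {c1 c2 : Clu ℕ} (nd : [x, y, q, p, r, s].Nodup)
    (xS : x ∈ S) (yS : y ∈ S) (rS : r ∈ S) (sS : s ∈ S) (xT : x ∈ X.T) (yT : y ∈ X.T) (rT : r ∈ X.T) (sT : s ∈ X.T)
    (pT : p ∉ X.T) (hR : TFC.sq x y s r ∈ D) (hQ : TFC.sq x y q p ⊆ X.E) (xr1 : s(x, r) ∉ c1.edges)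
    (xr2 : s(x, r) ∉ c2.edges) (ys2 : s(y, s) ∉ c2.edges) (xy2 : s(x, y) ∉ c2.edges)
    (hC : C1 M c1 c2 x y q p r s) : False := by
  simp only [List.nodup_cons, List.mem_cons, List.not_mem_nil, or_false, not_or, List.nodup_nil, and_true,
    not_false_eq_true] at nd
  obtain ⟨⟨xy, xq, xp, xr, xs⟩, ⟨yq, yp, yr, ys⟩, ⟨qp, qr, qs⟩, ⟨pr, ps⟩, rs⟩ := nd
  have d4 : Dist4 x y s r := ⟨xy, xs, xr, ys, yr, Ne.symm rs⟩
  -- the frame
  obtain ⟨F, hFd⟩ : ∃ F : Clu ℕ → Prop, F = fun c => K2 c ∧ (TFC.sq x y s r ⊆ c.edges ∨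
    ∃ v L, c = Clu.k2 y v L ∨ c = Clu.k2 v y L) := ⟨_, rfl⟩
  have hF : ∀ c, F c → K2 c := by
    intro c hc
    rw [hFd] at hc
    exact hc.1
  obtain ⟨pl, mi, g, gmi⟩ := h.fr F hF
  have hM : ∀ w ∈ S, w ∈ X.T → AU (Fr D F) U PL (M w ∩ (Ucl U ∪ PL)) := fun w hw hT => h.au_s hF g hw hT
  have hRE : TFC.sq x y s r ⊆ X.E := g.dE _ hR
  -- the cluster of `R`
  obtain ⟨cR, cU, hcR⟩ := g.clz_s hR (e := s(x, y)) (by simp [TFC.sq])
    (g.reg_s xS (hRE (by simp [TFC.sq])) (Sym2.mem_mk_left _ _))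
  have cv := g.val cU
  obtain ⟨pa, pc, pd⟩ := hC
  obtain ⟨u, v, hc⟩ := pc
  obtain ⟨e, f, ha⟩ := pa
  -- it has two centres
  have k2R : K2 cR := by
    rcases shape cv d4 hcR with h1 | ⟨L, h1 | h1, _⟩ | ⟨L, h1 | h1, _⟩
    · exfalso
      rw [h1] at cU
      exact s2_k4 h d4 cU rS rT hc xr2 ys2 xy2
    · exact ⟨_, _, _, h1⟩
    · exact ⟨_, _, _, h1⟩
    · exact ⟨_, _, _, h1⟩
    · exact ⟨_, _, _, h1⟩
  have fR : F cR := by
    rw [hFd]
    exact ⟨k2R, Or.inl hcR⟩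
  have shR := s2_shape cv k2R d4 hcR
  have eqR : ∀ {c : Clu ℕ} {e : Sym2 ℕ}, c ∈ U → e ∈ c.edges → e ∈ TFC.sq x y s r → c = cR :=
    fun hc he he' => g.eqc hc cU he (hcR he')
  obtain ⟨ncx, _, _⟩ := h.ow.nc x xS xT
  obtain ⟨ncr, _, _⟩ := h.ow.nc r rS rT
  obtain ⟨ncs, _, _⟩ := h.ow.nc s sS sT
  -- the block lemma for `w z` in `cR`
  have blk : ∀ w z, w ∈ S → w ∈ X.T → s(w, z) ∈ cR.edges → s(w, z) ∉ M w →
      (∀ a b, Dist4 w a b z → s(w, a) ∈ M w → s(a, b) ∈ M w → s(b, z) ∈ M w → s(w, a) ∈ cR.edges →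
        s(a, b) ∈ cR.edges → s(b, z) ∈ cR.edges → False) → pl z := by
    intro w z hw hT he hn hb
    rcases g.block (K := M w) (g.cW cU he) (h.free_s hF g cU fR he hw hT) with h1 | ⟨c, hc, h1, a, b, h2, h3, h4, h5, h6, h7, h8⟩
    · exact g.L3p hw hT (hM w hw hT) hn h1
    · have := g.eqc hc cU h1 he
      subst this
      exact (hb a b h2 h3 h4 h5 h6 h7 h8).elim
  -- `r`
  have plr : pl r := by
    obtain ⟨⟨n1, n2, n3, n4, n5, n6⟩, p1, p2, p3⟩ := ha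
    rw [mem_inter] at p1 p2 p3
    have er : e ≠ r := fun h' => xr1 (h' ▸ p1.2)
    refine blk x r xS xT (hcR (by simp [TFC.sq, Sym2.eq_swap])) (fun h' => er ?_) ?_
    · exact nbr_unique (by rw [ncx.one]) p1.1 h'
    · rintro a b ⟨m1, m2, m3, m4, m5, m6⟩ h1 h2 h3 _ _ _
      have ea : a = e := nbr_unique (by rw [ncx.one]) h1 p1.1
      subst ea
      rcases nbr_two (ncx.m2.le a) (msw p1.1) p2.1 n2 h2 with h5 | h5
      · exact m2 h5.symm
      · subst h5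
        rcases nbr_two (ncx.m2.le b) (msw p2.1) p3.1 n5 h3 with h6 | h6
        · exact er h6.symm
        · exact pr h6.symm
  -- `x`
  have plx : pl x := by
    obtain ⟨⟨n1, n2, n3, n4, n5, n6⟩, p1, p2, p3⟩ := hc
    rw [mem_inter] at p1 p2 p3
    have ux : u ≠ x := fun h' => xr2 (msw (h' ▸ p1.2))
    refine blk r x rS rT (hcR (by simp [TFC.sq])) (fun h' => ux ?_) ?_
    · exact nbr_unique (by rw [ncr.one]) p1.1 h'
    · rintro a b ⟨m1, m2, m3, m4, m5, m6⟩ h1 h2 h3 _ _ _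
      have ea : a = u := nbr_unique (by rw [ncr.one]) h1 p1.1
      subst ea
      rcases nbr_two (ncr.m2.le a) (msw p1.1) p2.1 n2 h2 with h5 | h5
      · exact m2 h5.symm
      · subst h5
        rcases nbr_two (ncr.m2.le b) (msw p2.1) p3.1 n5 h3 with h6 | h6
        · exact ux h6.symm
        · exact xs h6
  -- `s`
  have pls : pl s := by
    obtain ⟨⟨n1, n2, n3, n4, n5, n6⟩, p1, p2, p3⟩ := hc
    rw [mem_inter] at p1 p2 p3
    have ux : u ≠ x := fun h' => xr2 (msw (h' ▸ p1.2))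
    have vy : v ≠ y := fun h' => ys2 (h' ▸ p3.2)
    refine blk r s rS rT (hcR (by simp [TFC.sq, Sym2.eq_swap])) (fun h' => n5 ?_) ?_
    · exact nbr_unique (by rw [ncr.one]) p1.1 h'
    · rintro a b ⟨m1, m2, m3, m4, m5, m6⟩ h1 h2 h3 h4 h5 h6
      have ea : a = u := nbr_unique (by rw [ncr.one]) h1 p1.1
      subst ea
      have eb : b = v := by
        rcases nbr_two (ncr.m2.le a) (msw p1.1) p2.1 n2 h2 with h7 | h7
        · exact absurd h7.symm m2
        · exact h7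
      subst eb
      rcases shR with ⟨L, h7, h8, h9, h10, h11⟩ | ⟨L, h7, h8, h9, h10, h11⟩
      · -- centres `x`, `s`
        have h12 : a = x ∨ a = s := by
          rcases h7 with h7 | h7 <;> rw [h7, mem_k2] at h4
          · rcases h4 with ⟨h4 | h4, _⟩ | ⟨h4, _⟩
            · exact absurd h4.symm xr
            · exact absurd h4 rs
            · exact h4
          · rcases h4 with ⟨h4 | h4, _⟩ | ⟨h4, _⟩
            · exact absurd h4 rs
            · exact absurd h4.symm xr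
            · exact h4.symm
        rcases h12 with h12 | h12
        · exact ux h12
        · exact n5 h12
      · have h12 : b = y ∨ b = r := by
          rcases h7 with h7 | h7 <;> rw [h7, mem_k2] at h6
          · rcases h6 with ⟨h6, _⟩ | ⟨h6 | h6, _⟩
            · exact h6
            · exact absurd h6.symm ys
            · exact absurd h6.symm rs
          · rcases h6 with ⟨h6, _⟩ | ⟨h6 | h6, _⟩
            · exact h6.symm
            · exact absurd h6.symm rs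
            · exact absurd h6.symm ys
        rcases h12 with h12 | h12
        · exact vy h12
        · exact m2 h12.symm
  -- a witness of `R` is allowed outside of `cR`
  obtain ⟨L, hL⟩ := g.wt hR
  have hO : Out (Fr D F) U cR L := by
    intro c hcU hne
    refine Fr_of (fun hf => ?_) fun _ => ?_
    · refine sqFree_of (hL.m2.nl.mono inter_subset_left) fun Z hZ hs => ?_
      rw [hFd] at hf
      obtain ⟨_, hf | ⟨v', L', hf⟩⟩ := hf
      · exact hne (eqR hcU (hf (show s(x, y) ∈ _ by simp [TFC.sq])) (by simp [TFC.sq]))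
      · -- an edge of `Z` at the centre `y`
        have hy : ∃ b, s(y, b) ∈ Z := by
          have hcv := g.val hcU
          have hs' := hs.trans inter_subset_right
          rcases hf with hf | hf
          · rw [hf] at hcv hs'
            exact (s2_centre hcv hZ hs').1
          · rw [hf] at hcv hs'
            exact (s2_centre hcv hZ hs').2
        obtain ⟨b, hb⟩ := hy
        obtain ⟨h5, h6⟩ := mem_inter.1 (hs hb)
        have h7 := sq_closed hL.m2 (g.isq _ hR) hL.sq (e := s(x, y)) (f := s(y, b)) (y := y) (by simp [TFC.sq])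
          (Sym2.mem_mk_right _ _) h5 (Sym2.mem_mk_left _ _)
        exact hne (eqR hcU h6 h7)
    · refine ⟨hL.m2.mono inter_subset_left, fun Z' hZ' hs => ?_⟩
      have h5 := hL.uni Z' hZ' (hs.trans inter_subset_left)
      subst h5
      exact hne (eqR hcU (mem_inter.1 (hs (show s(x, y) ∈ _ by simp [TFC.sq]))).2 (by simp [TFC.sq]))
  obtain ⟨w, ⟨e', he', hwe⟩, _, hwp⟩ := g.L1x hR hL cU hcR (fr_asf_s g cU fR).am2 hO
  have hwy : w = y := by
    have h5 : w = x ∨ w = y ∨ w = s ∨ w = r := by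
      simp only [TFC.sq, mem_insert, mem_singleton] at he'
      rcases he' with rfl | rfl | rfl | rfl <;> rw [Sym2.mem_iff] at hwe <;> rcases hwe with h5 | h5
      · exact Or.inl h5
      · exact Or.inr (Or.inl h5)
      · exact Or.inr (Or.inl h5)
      · exact Or.inr (Or.inr (Or.inl h5))
      · exact Or.inr (Or.inr (Or.inl h5))
      · exact Or.inr (Or.inr (Or.inr h5))
      · exact Or.inr (Or.inr (Or.inr h5))
      · exact Or.inl h5
    rcases h5 with rfl | rfl | rfl | rfl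
    · exact absurd plx hwp
    · rfl
    · exact absurd pls hwp
    · exact absurd plr hwp
  subst hwy
  rcases pd with ⟨u', v', hd⟩ | ⟨l, Ll, hly, hd, _⟩
  · -- a path `s u' v' r` of `c2`
    obtain ⟨⟨n1, n2, n3, n4, n5, n6⟩, p1, p2, p3⟩ := hd
    rw [mem_inter] at p1 p2 p3
    have uy : u' ≠ w := fun h' => ys2 (msw (h' ▸ p1.2))
    refine hwp (blk s w sS sT (hcR (by simp [TFC.sq, Sym2.eq_swap])) (fun h' => uy ?_) ?_)
    · exact nbr_unique (by rw [ncs.one]) p1.1 h'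
    · rintro a b ⟨m1, m2, m3, m4, m5, m6⟩ h1 h2 h3 _ _ _
      have ea : a = u' := nbr_unique (by rw [ncs.one]) h1 p1.1
      subst ea
      rcases nbr_two (ncs.m2.le a) (msw p1.1) p2.1 n2 h2 with h5 | h5
      · exact m2 h5.symm
      · subst h5
        rcases nbr_two (ncs.m2.le b) (msw p2.1) p3.1 n5 h3 with h6 | h6
        · exact uy h6.symm
        · exact yr h6
  · exact s2_last h hF g hFd hM cU hcR k2R fR d4 xq xp yq yp qp qr qs pr ps xS yS sS xT yT sT pT hQ xr1 ncs hwp hly hd blk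

end

end Pool.Agent.PF4.XT

end

section -- file PF4/XP4a

/-!
# Pattern p4 with a free corner (Theorem 220222)

`LPall`: Lemma P in all worlds. `V0.of`: the configuration of world 1. `t220222`: a contradiction from two worlds.
-/

set_option autoImplicit false

namespace Pool.Agent.PF4.XT

open Finset Pool.Agent.TFC Pool.Agent.PF4 Pool.Agent.PF4.LD Pool.Agent.PF4.XC Pool.Agent.PF4.XF

/-- Lemma P holds in all worlds -/
def LPall : Prop :=
  ∀ (X : XD) (P : ℕ → Finset (Sym2 ℕ) → Prop) (D : Finset (Finset (Sym2 ℕ))) (j m : ℕ) (S : Finset ℕ)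
    (M : ℕ → Finset (Sym2 ℕ)) (CL U : List (Clu ℕ)) (PL : Finset (Sym2 ℕ)),
    WA X P D j m S M CL U PL → LP X P D j S U

section
variable {X : XD} {P : ℕ → Finset (Sym2 ℕ) → Prop} {D : Finset (Finset (Sym2 ℕ))} {j m : ℕ} {S : Finset ℕ}
  {M : ℕ → Finset (Sym2 ℕ)} {CL U : List (Clu ℕ)} {PL : Finset (Sym2 ℕ)}

/-- the cluster of a square with a corner in `S` -/
theorem WA.clq (h : WA X P D j m S M CL U PL) {Z : Finset (Sym2 ℕ)} (hZ : Z ∈ D) {u : ℕ} (hu : u ∈ S) {e : Sym2 ℕ}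
    (he : e ∈ Z) (hue : u ∈ e) : ∃ c ∈ U, Z ⊆ c.edges := by
  obtain ⟨pl, mi, h1, _⟩ := h.fr (fun _ => False) fun _ h => h.elim
  have hW := h.reg hu (h1.dE Z hZ he) hue
  rcases Finset.mem_union.1 hW with h2 | h2
  · obtain ⟨c, hc, hec⟩ := mem_Ucl.1 h2
    refine ⟨c, hc, (h1.cls.whole ((h1.uc c).1 hc).1 hZ).resolve_right fun hd => ?_⟩
    exact Finset.disjoint_left.1 hd he hec
  · exact absurd he (((h1.pm e).1 h2).2 Z hZ)

theorem WA.wt (h : WA X P D j m S M CL U PL) {Z : Finset (Sym2 ℕ)} (hZ : Z ∈ D) : ∃ L, Wt X P D j Z L := by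
  obtain ⟨pl, mi, h1, _⟩ := h.fr (fun _ => False) fun _ h => h.elim
  exact h1.wt hZ

/-- **the square `r s b a` of Lemma P** -/
theorem WA.sqP (hw : WA X P D j m S M CL U PL) (hLP : LP X P D j S U) {x y q p r s : ℕ}
    (nd : [x, y, q, p, r, s].Nodup) (xS : x ∈ S) (yS : y ∈ S) (rS : r ∈ S) (sS : s ∈ S) (xT : x ∈ X.T)
    (yT : y ∈ X.T) (rT : r ∈ X.T) (sT : s ∈ X.T) (hQ : TFC.sq x y q p ∈ D) (hxr : s(x, r) ∈ X.E)
    (hrs : s(r, s) ∈ X.E) (hys : s(y, s) ∈ X.E) :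
    ∃ a b, [x, y, q, p, r, s, a, b].Nodup ∧ TFC.sq r s b a ∈ D ∧ ∃ c ∈ U, K2 c ∧ s(r, s) ∈ c.edges ∧
      ∃ L, Wt X P D j (TFC.sq x y q p) L ∧ s(r, s) ∉ L ∧ P3 (L ∩ c.edges) r a b s := by
  obtain ⟨c, hc, hk, hrc, hall⟩ := hLP x y q p r s nd xS yS rS sS xT yT rT sT hQ hxr hrs hys
  obtain ⟨L, hL⟩ := hw.wt hQ
  obtain ⟨h1, a, b, h2, h3⟩ := hall L hL
  obtain ⟨pl, mi, h, _⟩ := hw.fr (fun _ => False) fun _ h => h.elim
  refine ⟨a, b, ?_, h3, c, hc, hk, hrc, L, hL, h1, h2⟩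
  obtain ⟨⟨xy, xq, xp, xr, xs⟩, ⟨yq, yp, yr, ys⟩, ⟨qp, qr, qs⟩, ⟨pr, ps⟩, rs⟩ := nd6 nd
  obtain ⟨⟨g1, g2, g3, g4, g5, g6⟩, e1, e2, e3⟩ := h2
  have e1' := (Finset.mem_inter.1 e1).1
  have e3' := (Finset.mem_inter.1 e3).1
  have key : ∀ z w : ℕ, s(w, z) ∈ L → (∃ e ∈ TFC.sq x y q p, z ∈ e) → (w = r ∨ w = s) → False := by
    rintro z w hz ⟨e, he, hze⟩ hw'
    have h4 := hL.at h.isq hQ he hze hz (by simp)
    rcases hw' with rfl | rfl
    · rcases sq_vert h4 (v := w) (by simp) with h5 | h5 | h5 | h5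
      · exact xr h5.symm
      · exact yr h5.symm
      · exact qr h5.symm
      · exact pr h5.symm
    · rcases sq_vert h4 (v := w) (by simp) with h5 | h5 | h5 | h5
      · exact xs h5.symm
      · exact ys h5.symm
      · exact qs h5.symm
      · exact ps h5.symm
  have vx : ∃ e ∈ TFC.sq x y q p, x ∈ e := ⟨s(x, y), by simp [TFC.sq], by simp⟩
  have vy : ∃ e ∈ TFC.sq x y q p, y ∈ e := ⟨s(x, y), by simp [TFC.sq], by simp⟩
  have vq : ∃ e ∈ TFC.sq x y q p, q ∈ e := ⟨s(y, q), by simp [TFC.sq], by simp⟩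
  have vp : ∃ e ∈ TFC.sq x y q p, p ∈ e := ⟨s(p, x), by simp [TFC.sq], by simp⟩
  have e3'' : s(s, b) ∈ L := by rw [Sym2.eq_swap]; exact e3'
  have xa : x ≠ a := by rintro rfl; exact key x r e1' vx (Or.inl rfl)
  have ya : y ≠ a := by rintro rfl; exact key y r e1' vy (Or.inl rfl)
  have qa : q ≠ a := by rintro rfl; exact key q r e1' vq (Or.inl rfl)
  have pa : p ≠ a := by rintro rfl; exact key p r e1' vp (Or.inl rfl)
  have xb : x ≠ b := by rintro rfl; exact key x s e3'' vx (Or.inr rfl)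
  have yb : y ≠ b := by rintro rfl; exact key y s e3'' vy (Or.inr rfl)
  have qb : q ≠ b := by rintro rfl; exact key q s e3'' vq (Or.inr rfl)
  have pb : p ≠ b := by rintro rfl; exact key p s e3'' vp (Or.inr rfl)
  simp only [List.nodup_cons, List.mem_cons, List.not_mem_nil, or_false, not_or, List.nodup_nil, and_true,
    not_false_eq_true]
  exact ⟨⟨xy, xq, xp, xr, xs, xa, xb⟩, ⟨yq, yp, yr, ys, ya, yb⟩, ⟨qp, qr, qs, qa, qb⟩, ⟨pr, ps, pa, pb⟩,
    ⟨rs, g1, g2⟩, ⟨g5.symm, g6.symm⟩, g4⟩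

end

section
variable {X₁ X₂ : XD} {P₁ P₂ : ℕ → Finset (Sym2 ℕ) → Prop} {D₁ D₂ : Finset (Finset (Sym2 ℕ))}
  {j₁ m₁ j₂ m₂ : ℕ} {S₁ S₂ : Finset ℕ} {M : ℕ → Finset (Sym2 ℕ)}

/-- **Theorem 220222**: `p` free, all other corners of the two squares have demand 2 -/
theorem t220222 (lp : LPall) (h₁ : OW X₁ P₁ D₁ j₁ m₁ S₁ M) (h₂ : OW X₂ P₂ D₂ j₂ m₂ S₂ M) (hT : X₁.T = X₂.T)
    {x y q p r s : ℕ} (nd : [x, y, q, p, r, s].Nodup) (xS : x ∈ S₁) (yS : y ∈ S₁) (rS : r ∈ S₁) (sS : s ∈ S₁)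
    (xS₂ : x ∈ S₂) (yS₂ : y ∈ S₂) (rS₂ : r ∈ S₂) (sS₂ : s ∈ S₂) (xT : x ∈ X₁.T) (yT : y ∈ X₁.T) (rT : r ∈ X₁.T)
    (sT : s ∈ X₁.T) (pT : p ∉ X₁.T) (hQ : TFC.sq x y q p ∈ D₁) (hR : TFC.sq x y s r ∈ D₂)
    (hR₁ : TFC.sq x y s r ⊆ X₁.E) (hQ₂ : TFC.sq x y q p ⊆ X₂.E) : False := by
  obtain ⟨CL, U, PL, wa⟩ := wa_of h₁ ⟨x, xS, xT⟩
  obtain ⟨CL₂, U₂, PL₂, wa₂⟩ := wa_of h₂ ⟨x, xS₂, hT ▸ xT⟩
  have LP₁ := lp _ _ _ _ _ _ _ _ _ _ wa
  have exr : s(x, r) ∈ X₁.E := hR₁ (by rw [TFC.sq, Sym2.eq_swap (a := x) (b := r)]; simp)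
  have ers : s(r, s) ∈ X₁.E := hR₁ (by rw [Sym2.eq_swap]; simp [TFC.sq])
  have eys : s(y, s) ∈ X₁.E := hR₁ (by simp [TFC.sq])
  have exy : s(x, y) ∈ X₁.E := hR₁ (by simp [TFC.sq])
  obtain ⟨a, b, nd', hZ, c2, hc2, k2, hrs2, L1, hL1, hrs, hP1⟩ :=
    wa.sqP LP₁ nd xS yS rS sS xT yT rT sT hQ exr ers eys
  obtain ⟨⟨xy, xq, xp, xr, xs, xa, xb⟩, ⟨yq, yp, yr, ys, ya, yb⟩, ⟨qp, qr, qs, qa, qb⟩, ⟨pr, ps, pa, pb⟩,
    ⟨rs, ra, rb⟩, ⟨sa, sb⟩, ab⟩ := nd8 nd'
  obtain ⟨pl, mi, h, _⟩ := wa.fr (fun _ => False) fun _ h => h.elim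
  have nd2 : [r, s, b, a, x, y].Nodup := by
    simp only [List.nodup_cons, List.mem_cons, List.not_mem_nil, or_false, not_or, List.nodup_nil, and_true,
      not_false_eq_true]
    exact ⟨⟨rs, rb, ra, xr.symm, yr.symm⟩, ⟨sb, sa, xs.symm, ys.symm⟩, ⟨ab.symm, xb.symm, yb.symm⟩,
      ⟨xa.symm, ya.symm⟩, xy⟩
  obtain ⟨c1, hc1, k1, hxy1, hall⟩ := LP₁ r s b a x y nd2 rS sS xS yS rT sT xT yT hZ
    (by rw [Sym2.eq_swap]; exact exr) exy (by rw [Sym2.eq_swap]; exact eys)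
  obtain ⟨L2, hL2⟩ := wa.wt hZ
  obtain ⟨hxy2, e, f, hP2, _⟩ := hall L2 hL2
  have hq1 : TFC.sq x y q p ⊆ c1.edges := (h.cls.whole ((h.uc c1).1 hc1).1 hQ).resolve_right fun hd =>
    Finset.disjoint_left.1 hd (by simp [TFC.sq] : s(x, y) ∈ TFC.sq x y q p) hxy1
  have hz2 : TFC.sq r s b a ⊆ c2.edges := (h.cls.whole ((h.uc c2).1 hc2).1 hZ).resolve_right fun hd =>
    Finset.disjoint_left.1 hd (by simp [TFC.sq] : s(r, s) ∈ TFC.sq r s b a) hrs2
  have v : V0 X₁ P₁ D₁ j₁ m₁ S₁ M CL U PL x y q p r s a b c1 c2 L1 L2 :=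
    ⟨wa, nd', xS, yS, rS, sS, xT, yT, rT, sT, pT, hQ, hZ, exr, eys, hc1, hc2, k1, k2, hq1, hz2, hL1, hrs, hP1,
      hL2, hxy2, e, f, hP2⟩
  have hxrP := v.xrP
  have hysP := v.ysP
  have hC := XS1.step1 _ _ _ _ _ _ _ _ _ _ _ _ _ _ _ _ _ _ _ _ _ _ v hxrP hysP
  have n : ∀ {g : Sym2 ℕ}, g ∈ PL → ∀ {c : Clu ℕ}, c ∈ U → g ∉ c.edges := fun hg _ hc hgc =>
    Finset.disjoint_left.1 (h.plain hc) hg hgc
  exact step2' wa₂ nd xS₂ yS₂ rS₂ sS₂ (hT ▸ xT) (hT ▸ yT) (hT ▸ rT) (hT ▸ sT) (hT ▸ pT) hR hQ₂ (n hxrP hc1)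
    (n hxrP hc2) (n hysP hc2) (fun hc => v.ne (h.eqc hc1 hc2 hxy1 hc)) hC

end

end Pool.Agent.PF4.XT

end

section -- file PF4/XCor

/-!
# The corollary: no free corner

One world, all eight corners have demand 2 and near covers. The frame is uncapped only at the cluster of `R`.
-/

set_option autoImplicit false

namespace Pool.Agent.PF4.XT

open Finset Pool.Agent.TFC Pool.Agent.PF4 Pool.Agent.PF4.LD Pool.Agent.PF4.XC Pool.Agent.PF4.XF

/-- edges of a 2-matching at the corners of one of its squares -/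
theorem cor_sat {L : Finset (Sym2 ℕ)} (hL : M2 L) {x y q p : ℕ} (hd : Dist4 x y q p) (hs : TFC.sq x y q p ⊆ L)
    {u v : ℕ} (hu : u = x ∨ u = y ∨ u = q ∨ u = p) (he : s(u, v) ∈ L) : v = x ∨ v = y ∨ v = q ∨ v = p := by
  have hq : IsSq (TFC.sq x y q p) := ⟨x, y, q, p, hd, rfl⟩
  refine sq_vert (g := s(u, v)) ?_ (Sym2.mem_mk_right u v)
  rcases hu with rfl | rfl | rfl | rfl
  · exact sq_closed hL hq hs (e := s(u, y)) (by simp [TFC.sq]) (Sym2.mem_mk_left u y) he (Sym2.mem_mk_left u v)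
  · exact sq_closed hL hq hs (e := s(u, q)) (by simp [TFC.sq]) (Sym2.mem_mk_left u q) he (Sym2.mem_mk_left u v)
  · exact sq_closed hL hq hs (e := s(u, p)) (by simp [TFC.sq]) (Sym2.mem_mk_left u p) he (Sym2.mem_mk_left u v)
  · exact sq_closed hL hq hs (e := s(u, x)) (by simp [TFC.sq]) (Sym2.mem_mk_left u x) he (Sym2.mem_mk_left u v)

section
variable {X : XD} {P : ℕ → Finset (Sym2 ℕ) → Prop} {D : Finset (Finset (Sym2 ℕ))} {j m : ℕ} {S : Finset ℕ}
  {M : ℕ → Finset (Sym2 ℕ)} {CL U : List (Clu ℕ)} {PL : Finset (Sym2 ℕ)}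

/-- **the ends of the common edge**, in the frame which is uncapped only at the cluster `c1` of `Q` -/
theorem WA.corT (wa : WA X P D j m S M CL U PL) (lp : LP X P D j S U) {x y q p r s : ℕ}
    (hnd : [x, y, q, p, r, s].Nodup) (hx : x ∈ S) (hy : y ∈ S) (hr : r ∈ S) (hs : s ∈ S) (tx : x ∈ X.T)
    (ty : y ∈ X.T) (tr : r ∈ X.T) (ts : s ∈ X.T) (hQ : TFC.sq x y q p ∈ D) (e1 : s(x, r) ∈ X.E)
    (e2 : s(r, s) ∈ X.E) (e3 : s(y, s) ∈ X.E) :
    ∃ c1 ∈ U, K2 c1 ∧ TFC.sq x y q p ⊆ c1.edges ∧ ∀ pl mi : ℕ → Prop,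
      PW X P D j S M (Fr D fun c => c = c1) CL U PL pl mi → (∀ w ∈ S, w ∈ X.T → mi w) → pl x ∧ pl y := by
  obtain ⟨pl0, mi0, h0, -⟩ := wa.fr (fun _ => False) fun _ h => h.elim
  obtain ⟨⟨xy, xq, xp, xr, xs⟩, ⟨yq, yp, yr, ys⟩, ⟨qp, qr, qs⟩, ⟨pr, ps⟩, rs⟩ := nd6 hnd
  have hdQ : Dist4 x y q p := ⟨xy, xq, xp, yq, yp, qp⟩
  obtain ⟨c, hc, -, hrs, hL⟩ := lp x y q p r s hnd hx hy hr hs tx ty tr ts hQ e1 e2 e3
  obtain ⟨L, wL⟩ := h0.wt hQ
  obtain ⟨nrs, a, b, ⟨⟨ra, rb, -, ab, as, bs⟩, p1, p2, p3⟩, hZ⟩ := hL L wL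
  rw [Finset.mem_inter] at p1 p2 p3
  have ha : ¬ (a = x ∨ a = y ∨ a = q ∨ a = p) := by
    intro h1
    rcases cor_sat wL.m2 hdQ wL.sq h1 (v := r) (by rw [Sym2.eq_swap]; exact p1.1) with h2 | h2 | h2 | h2
    · exact xr h2.symm
    · exact yr h2.symm
    · exact qr h2.symm
    · exact pr h2.symm
  have hb : ¬ (b = x ∨ b = y ∨ b = q ∨ b = p) := by
    intro h1
    rcases cor_sat wL.m2 hdQ wL.sq h1 (v := s) p3.1 with h2 | h2 | h2 | h2
    · exact xs h2.symm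
    · exact ys h2.symm
    · exact qs h2.symm
    · exact ps h2.symm
  push Not at ha hb
  have hnd' : [r, s, b, a, x, y].Nodup := by
    simp only [List.nodup_cons, List.mem_cons, List.not_mem_nil, or_false, not_or, List.nodup_nil, and_true,
      not_false_eq_true]
    exact ⟨⟨rs, rb, ra, xr.symm, yr.symm⟩, ⟨bs.symm, as.symm, xs.symm, ys.symm⟩, ⟨ab.symm, hb.1, hb.2.1⟩,
      ⟨ha.1, ha.2.1⟩, xy⟩
  have exy : s(x, y) ∈ TFC.sq x y q p := by simp [TFC.sq]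
  have ers : s(r, s) ∈ TFC.sq r s b a := by simp [TFC.sq]
  obtain ⟨c1, hc1, hk, hxy, hL2⟩ := lp r s b a x y hnd' hr hs hx hy tr ts tx ty hZ (by rw [Sym2.eq_swap]; exact e1)
    (h0.dE _ hQ exy) (by rw [Sym2.eq_swap]; exact e3)
  have hZc : TFC.sq r s b a ⊆ c.edges :=
    (h0.cls.whole ((h0.uc c).1 hc).1 hZ).resolve_right fun hd => Finset.disjoint_left.1 hd ers hrs
  have hQc : TFC.sq x y q p ⊆ c1.edges :=
    (h0.cls.whole ((h0.uc c1).1 hc1).1 hQ).resolve_right fun hd => Finset.disjoint_left.1 hd exy hxy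
  refine ⟨c1, hc1, hk, hQc, fun pl mi h hm => ?_⟩
  obtain ⟨L', wL'⟩ := h.wt hZ
  obtain ⟨nxy, a2, b2, hp, -⟩ := hL2 L' wL'
  refine both_pl ?_ (hm x hx tx) (hm y hy ty)
  refine h.e8 hnd' hZ wL' hc hZc hc1 hp (fun c' hc' hf _ => ?_) ?_ ?_ (fun _ => rfl) (fun _ => rfl)
  · rw [hf]
    exact nsq_path wL'.m2 (h.val' hc1) hk hp nxy hxy
  · rw [Sym2.eq_swap]; exact wa.reg hx e1 (by simp)
  · rw [Sym2.eq_swap]; exact wa.reg hy e3 (by simp)

/-- **the corollary** (letters: `R = sq x y s r ∈ D`, `Q = sq x y q p`, `Z = sq r s b a` in the graph) -/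
theorem cor_of (hL : ∀ (X : XD) (P : ℕ → Finset (Sym2 ℕ) → Prop) (D : Finset (Finset (Sym2 ℕ))) (j m : ℕ) (S : Finset ℕ)
      (M : ℕ → Finset (Sym2 ℕ)) (CL U : List (Clu ℕ)) (PL : Finset (Sym2 ℕ)), WA X P D j m S M CL U PL →
      LP X P D j S U) :
    ∀ (X : XD) (P : ℕ → Finset (Sym2 ℕ) → Prop) (D : Finset (Finset (Sym2 ℕ))) (j m : ℕ) (S : Finset ℕ)
      (M : ℕ → Finset (Sym2 ℕ)), OW X P D j m S M → ∀ x y q p r s a b : ℕ, [x, y, q, p, r, s, a, b].Nodup →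
      (∀ v ∈ [x, y, q, p, r, s, a, b], v ∈ S ∧ v ∈ X.T) → TFC.sq x y s r ∈ D → TFC.sq x y q p ⊆ X.E →
      TFC.sq r s b a ⊆ X.E → False := by
  intro X P D j m S M ow x y q p r s a b hnd hv hR hQE hZE
  obtain ⟨⟨xy, xq, xp, xr, xs, xa, xb⟩, ⟨yq, yp, yr, ys, ya, yb⟩, ⟨qp, qr, qs, qa, qb⟩, ⟨pr, ps, pa, pb⟩,
    ⟨rs, ra, rb⟩, ⟨sa, sb⟩, ab⟩ := nd8 hnd
  obtain ⟨xS, xT⟩ := hv x (by simp)
  obtain ⟨yS, yT⟩ := hv y (by simp)
  obtain ⟨qS, qT⟩ := hv q (by simp)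
  obtain ⟨pS, pT⟩ := hv p (by simp)
  obtain ⟨rS, rT⟩ := hv r (by simp)
  obtain ⟨sS, sT⟩ := hv s (by simp)
  obtain ⟨aS, aT⟩ := hv a (by simp)
  obtain ⟨bS, bT⟩ := hv b (by simp)
  obtain ⟨CL, U, PL, wa⟩ := wa_of ow ⟨x, xS, xT⟩
  have lp := hL X P D j m S M CL U PL wa
  have n1 : [x, y, s, r, p, q].Nodup := by
    simp only [List.nodup_cons, List.mem_cons, List.not_mem_nil, or_false, not_or, List.nodup_nil, and_true,
      not_false_eq_true]
    exact ⟨⟨xy, xs, xr, xp, xq⟩, ⟨ys, yr, yp, yq⟩, ⟨rs.symm, ps.symm, qs.symm⟩, ⟨pr.symm, qr.symm⟩, qp.symm⟩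
  have n2 : [r, s, y, x, a, b].Nodup := by
    simp only [List.nodup_cons, List.mem_cons, List.not_mem_nil, or_false, not_or, List.nodup_nil, and_true,
      not_false_eq_true]
    exact ⟨⟨rs, yr.symm, xr.symm, ra, rb⟩, ⟨ys.symm, xs.symm, sa, sb⟩, ⟨xy.symm, ya, yb⟩, ⟨xa, xb⟩, ab⟩
  have hR' : TFC.sq r s y x ∈ D := by
    have e : TFC.sq r s y x = TFC.sq x y s r := by
      rw [TFC.sq, TFC.sq]
      ext e
      simp only [mem_insert, mem_singleton]
      rw [Sym2.eq_swap (a := r) (b := s), Sym2.eq_swap (a := s) (b := y), Sym2.eq_swap (a := y) (b := x),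
        Sym2.eq_swap (a := x) (b := r)]
      tauto
    rw [e]; exact hR
  obtain ⟨c1, hc1, hk1, hs1, h1⟩ := wa.corT lp n1 xS yS pS qS xT yT pT qT hR
    (hQE (by rw [TFC.sq, Sym2.eq_swap (a := p) (b := x)]; simp))
    (hQE (by rw [TFC.sq, Sym2.eq_swap (a := q) (b := p)]; simp)) (hQE (by simp [TFC.sq]))
  obtain ⟨c2, hc2, -, hs2, h2⟩ := wa.corT lp n2 rS sS aS bS rT sT aT bT hR'
    (hZE (by rw [TFC.sq, Sym2.eq_swap (a := a) (b := r)]; simp))
    (hZE (by rw [TFC.sq, Sym2.eq_swap (a := b) (b := a)]; simp)) (hZE (by simp [TFC.sq]))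
  obtain ⟨pl, mi, h, hm⟩ := wa.fr (fun c => c = c1) fun c hc => by rw [hc]; exact hk1
  have hcc : c2 = c1 := h.eqc hc2 hc1 (e := s(r, s)) (hs2 (by simp [TFC.sq]))
    (hs1 (by rw [TFC.sq, Sym2.eq_swap (a := s) (b := r)]; simp))
  subst hcc
  obtain ⟨px, py⟩ := h1 pl mi h hm
  obtain ⟨pr', ps'⟩ := h2 pl mi h hm
  obtain ⟨L, wL⟩ := h.wt hR
  have ho := h.out hR wL hc1 hs1 (fun c hc hf hne => absurd hf hne)
  obtain ⟨z, ⟨e, he, hz⟩, -, z2⟩ := h.L1x hR wL hc1 hs1 (fr_am2 h.isq _ c2) ho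
  rcases sq_vert he hz with rfl | rfl | rfl | rfl
  · exact z2 px
  · exact z2 py
  · exact z2 ps'
  · exact z2 pr'

end

end Pool.Agent.PF4.XT

end

section -- file PF4/XP4b

/-!
# Pattern p4

The two fields `p4a`, `p4b` of `Pat2`, from Lemma P. In the letters of `XG` the second square is `sq x y r s`; here `r` and
`s` are exchanged.
-/

set_option autoImplicit false

namespace Pool.Agent.PF4.XT

open Finset Pool.Agent.TFC Pool.Agent.PF4 Pool.Agent.PF4.LD Pool.Agent.PF4.XC Pool.Agent.PF4.XF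

/-- **pattern p4a** -/
theorem p4a (lp : LPall) : Pt6B fun T x y q p r s => x ∈ T ∧ y ∈ T ∧ r ∈ T ∧ s ∈ T ∧ q ∈ T ∧ p ∉ T := by
  refine Pt6.toB ?_
  intro X₁ X₂ P₁ P₂ D₁ D₂ j₁ m₁ j₂ m₂ S M h₁ h₂ _ hT x y q p r s nd xS yS qS pS rS sS hQ hR hR₁ hQ₂ hc
  obtain ⟨xT, yT, rT, sT, qT, pT⟩ := hc
  have nd' : [x, y, q, p, s, r].Nodup := by
    obtain ⟨⟨xy, xq, xp, xr, xs⟩, ⟨yq, yp, yr, ys⟩, ⟨qp, qr, qs⟩, ⟨pr, ps⟩, rs⟩ := nd6 nd
    simp only [List.nodup_cons, List.mem_cons, List.not_mem_nil, or_false, not_or, List.nodup_nil, and_true,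
      not_false_eq_true]
    exact ⟨⟨xy, xq, xp, xs, xr⟩, ⟨yq, yp, ys, yr⟩, ⟨qp, qs, qr⟩, ⟨ps, pr⟩, rs.symm⟩
  exact t220222 lp h₁ h₂ hT nd' xS yS sS rS xS yS sS rS xT yT sT rT pT hQ hR hR₁ hQ₂

theorem sq_two' (x y r s : ℕ) : TFC.sq s r y x = TFC.sq x y r s := by
  rw [sq_ref]

/-- **pattern p4b** -/
theorem p4b (lp : LPall) : Pt6B fun T x y q p r s => x ∈ T ∧ y ∈ T ∧ r ∈ T ∧ s ∈ T ∧ q ∈ T ∧ p ∈ T := by
  intro n T G M x y q p r s h hc
  obtain ⟨xT, yT, rT, sT, qT, pT⟩ := hc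
  have nd := h.nd
  obtain ⟨⟨xy, xq, xp, xr, xs⟩, ⟨yq, yp, yr, ys⟩, ⟨qp, qr, qs⟩, ⟨pr, ps⟩, rs⟩ := nd6 nd
  have nd' : [x, y, q, p, s, r].Nodup := by
    simp only [List.nodup_cons, List.mem_cons, List.not_mem_nil, or_false, not_or, List.nodup_nil, and_true,
      not_false_eq_true]
    exact ⟨⟨xy, xq, xp, xs, xr⟩, ⟨yq, yp, ys, yr⟩, ⟨qp, qs, qr⟩, ⟨ps, pr⟩, rs.symm⟩
  have lx : ∀ v ∈ cr (x, x, x, x), v < n := fun v hv => by
    simp only [cr, mem_insert, mem_singleton, or_self] at hv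
    exact hv ▸ h.lt x (by simp)
  -- world 1 and the square of Lemma P
  obtain ⟨X₁, P₁, D₁, j₁, m₁, S₁, w1, hS1, n1, t1, g1, q1, _, r1, _⟩ := (h.w1 _ lx).ow
  subst t1
  have xS := hS1 x (by simp)
  have yS := hS1 y (by simp)
  have rS := hS1 r (by simp)
  have sS := hS1 s (by simp)
  obtain ⟨CL, U, PL, wa⟩ := wa_of w1 ⟨x, xS, xT⟩
  obtain ⟨a, b, nd8', hZ, -⟩ := wa.sqP (lp _ _ _ _ _ _ _ _ _ _ wa) nd' xS yS sS rS xT yT sT rT q1
    (r1 (by rw [TFC.sq, Sym2.eq_swap (a := x) (b := s)]; simp))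
    (r1 (by rw [Sym2.eq_swap]; simp [TFC.sq])) (r1 (by simp [TFC.sq]))
  obtain ⟨⟨_, _, _, _, _, xa, xb⟩, ⟨_, _, _, _, ya, yb⟩, ⟨_, _, _, qa, qb⟩, ⟨_, _, pa, pb⟩,
    ⟨_, sa, sb⟩, ⟨ra, rb⟩, ab⟩ := nd8 nd8'
  have hZE : TFC.sq s r b a ⊆ X₁.E := w1.sqE hZ
  have hlt : ∀ v ∈ cr (s, r, b, a), v < n := by
    intro v hv
    have key : ∃ e ∈ TFC.sq s r b a, v ∈ e := by
      simp only [cr, mem_insert, mem_singleton] at hv
      rcases hv with rfl | rfl | rfl | rfl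
      · exact ⟨s(v, r), by simp [TFC.sq], by simp⟩
      · exact ⟨s(s, v), by simp [TFC.sq], by simp⟩
      · exact ⟨s(r, v), by simp [TFC.sq], by simp⟩
      · exact ⟨s(v, s), by simp [TFC.sq], by simp⟩
    obtain ⟨e, he, hve⟩ := key
    rw [← n1]
    exact w1.ok.lt e (hZE he) v hve
  -- world 2 with near covers at the corners of the third square
  obtain ⟨X₂, P₂, D₂, j₂, m₂, S₂, w2, hS2, n2, t2, g2, q2, _, r2, z2⟩ := (h.w2 _ hlt).ow
  have hZ2 : TFC.sq s r b a ⊆ X₂.E := fun e he => z2 (mem_inter.2 ⟨he, g1 (hZE he)⟩)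
  have xS2 := hS2 x (by simp)
  have yS2 := hS2 y (by simp)
  have rS2 := hS2 r (by simp)
  have sS2 := hS2 s (by simp)
  by_cases aT : a ∈ X₁.T
  swap
  · have nd2 : [s, r, b, a, x, y].Nodup := by
      simp only [List.nodup_cons, List.mem_cons, List.not_mem_nil, or_false, not_or, List.nodup_nil, and_true,
        not_false_eq_true]
      exact ⟨⟨rs.symm, sb, sa, xs.symm, ys.symm⟩, ⟨rb, ra, xr.symm, yr.symm⟩, ⟨ab.symm, xb.symm, yb.symm⟩,
        ⟨xa.symm, ya.symm⟩, xy⟩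
    exact t220222 lp w1 w2 t2.symm nd2 sS rS xS yS sS2 rS2 xS2 yS2 sT rT xT yT aT hZ
      (by rw [sq_two']; exact q2) (by rw [sq_two']; exact r1) hZ2
  by_cases bT : b ∈ X₁.T
  swap
  · have nd2 : [r, s, a, b, y, x].Nodup := by
      simp only [List.nodup_cons, List.mem_cons, List.not_mem_nil, or_false, not_or, List.nodup_nil, and_true,
        not_false_eq_true]
      exact ⟨⟨rs, ra, rb, yr.symm, xr.symm⟩, ⟨sa, sb, ys.symm, xs.symm⟩, ⟨ab, ya.symm, xa.symm⟩,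
        ⟨yb.symm, xb.symm⟩, xy.symm⟩
    have e1 : TFC.sq r s a b = TFC.sq s r b a := by rw [sq_ref, sq_rot, sq_rot]
    have e2 : TFC.sq r s x y = TFC.sq x y r s := by rw [sq_rot, sq_rot]
    exact t220222 lp w1 w2 t2.symm nd2 rS sS yS xS rS2 sS2 yS2 xS2 rT sT yT xT bT (by rw [e1]; exact hZ)
      (by rw [e2]; exact q2) (by rw [e2]; exact r1) (by rw [e1]; exact hZ2)
  refine cor_of lp X₂ P₂ D₂ j₂ m₂ S₂ M w2 x y q p s r a b nd8' ?_ q2 r2 hZ2
  intro v hv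
  rw [t2]
  simp only [List.mem_cons, List.not_mem_nil, or_false] at hv
  rcases hv with rfl | rfl | rfl | rfl | rfl | rfl | rfl | rfl
  · exact ⟨xS2, xT⟩
  · exact ⟨yS2, yT⟩
  · exact ⟨hS2 v (by simp), qT⟩
  · exact ⟨hS2 v (by simp), pT⟩
  · exact ⟨sS2, sT⟩
  · exact ⟨rS2, rT⟩
  · exact ⟨hS2 v (by simp), aT⟩
  · exact ⟨hS2 v (by simp), bT⟩

end Pool.Agent.PF4.XT

end

section -- file PF4/XFin

/-!
2F({4}) is in P, given Lemma P.
-/

set_option autoImplicit false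

namespace Pool.Agent.PF4

open Pool.Agent.Lib.helper60

/-- the pattern theorems, given Lemma P -/
theorem pat2_of_LP (lp : XT.LPall) : XF.Pat2 :=
  ⟨XF.pt_p1, XF.pt_p2, XF.pt_p3, XT.p4a lp, XT.p4b lp, XT.pt5⟩

/-- **2F({4}) is in P, given Lemma P** -/
theorem inP_of_LP (lp : XT.LPall) : InP TF4.TwoF4 := inP_of_Xf2 (XF.xf2_of_pat (pat2_of_LP lp))

end Pool.Agent.PF4

end
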