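import Pool.Agent.PFM.M17
import Pool.Agent.PFM.M20

section -- file PF4/XSh3

/-!
Adapters: the lemmas of `XSh`, `XSh2` in the frames `Fr D F` of one world `WA`.
-/

set_option autoImplicit false

namespace Pool.Agent.PF4.XT

open Finset Pool.Agent.TFC Pool.Agent.PF4 Pool.Agent.PF4.LD Pool.Agent.PF4.XC Pool.Agent.PF4.XF Pool.Agent.PF4.XU

section
variable {X : XD} {P : ℕ → Finset (Sym2 ℕ) → Prop} {D : Finset (Finset (Sym2 ℕ))} {j m : ℕ} {S : Finset ℕ}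
  {M : ℕ → Finset (Sym2 ℕ)} {F : Clu ℕ → Prop} {CL U : List (Clu ℕ)} {PL : Finset (Sym2 ℕ)}
  {pl mi : ℕ → Prop}

theorem fr_acp {c : Clu ℕ} (hF : ¬ F c) : ACp D (Fr D F) c := by
  intro K _ hs
  rw [Fr_neg hF]
  exact hs

/-- a 2-matching all of whose squares of `D` are `Z`, outside of the cluster of `Z`: allowed if it is square-free in the
uncapped clusters -/
theorem PW.fr_out (h : PW X P D j S M (Fr D F) CL U PL pl mi) {Z L : Finset (Sym2 ℕ)} (hZ : Z ∈ D)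
    (hL : Wt X P D j Z L) {c : Clu ℕ} (hc : c ∈ U) (hZc : Z ⊆ c.edges)
    (hs : ∀ c' ∈ U, c' ≠ c → F c' → TFC.SqFree (L ∩ c'.edges)) : Out (Fr D F) U c L := by
  intro c' hc' hne
  by_cases hF : F c'
  · rw [Fr_pos hF]
    exact hs c' hc' hne hF
  · rw [Fr_neg hF]
    refine ⟨hL.m2.mono Finset.inter_subset_left, fun Z' h1 h2 => hne ?_⟩
    have h3 := hL.uni Z' h1 (h2.trans Finset.inter_subset_left)
    subst h3
    obtain ⟨e, he⟩ := IsSq.ne (h.isq Z' hZ)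
    exact h.eqc hc' hc (Finset.mem_inter.1 (h2 he)).2 (hZc he)

/-- near covers are allowed in all frames -/
theorem WA.fr_M (w0 : WA X P D j m S M CL U PL) (h : PW X P D j S M (Fr D F) CL U PL pl mi) (hF : ∀ c, F c → K2 c)
    {w : ℕ} (hw : w ∈ S) (hT : w ∈ X.T) : AU (Fr D F) U PL (M w ∩ (Ucl U ∪ PL)) := by
  refine ⟨Finset.inter_subset_right, fun c hc => ?_⟩
  rw [h.interW hc]
  have hcC := ((h.uc c).1 hc).1
  exact Fr_of (fun hf => w0.msf w hw hT c hcC (hF c hf)) fun _ => w0.mcap w hw hT c hcC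

theorem WA.fr_Mc (w0 : WA X P D j m S M CL U PL) (h : PW X P D j S M (Fr D F) CL U PL pl mi)
    (hF : ∀ c, F c → K2 c) {w : ℕ} (hw : w ∈ S) (hT : w ∈ X.T) (c : Clu ℕ) : Out (Fr D F) U c (M w) := by
  intro c' hc' _
  have h1 := (w0.fr_M h hF hw hT).2 c' hc'
  rwa [h.interW hc'] at h1

/-- a square of `D` in a cluster of the region -/
theorem PW.k4sq (h : PW X P D j S M (Fr D F) CL U PL pl mi) {c : Clu ℕ} (hc : c ∈ U) :
    ∃ Z ∈ D, Z ⊆ c.edges := by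
  obtain ⟨e, he⟩ := valid_nonempty (h.val' hc)
  obtain ⟨Z, hZ, _, hs⟩ := h.cls.edge_sq ((h.uc c).1 hc).1 he
  exact ⟨Z, hZ, hs⟩

/-- **all squares of a `K4` cluster are in `D`** -/
theorem WA.k4D (w0 : WA X P D j m S M CL U PL) {Y : Finset ℕ} (hY : Clu.k4 Y ∈ U) :
    ∀ Z', IsSq Z' → Z' ⊆ (Clu.k4 Y).edges → Z' ∈ D := by
  obtain ⟨pl, mi, h, _⟩ := w0.fr (fun _ => False) fun _ h => h.elim
  obtain ⟨Z, hZ, hZY⟩ := h.k4sq hY
  obtain ⟨L, hL⟩ := h.wt hZ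
  exact h.k4D hY (fr_acp fun h => h) hZ hZY hL (h.fr_out hZ hL hY hZY fun _ _ _ hf => hf.elim)

end

end Pool.Agent.PF4.XT

end

section -- file PF4/XVX

/-!
Lemma (V): a star with the capped family, hub `r` with a near cover: the other two corners of a square outside `D` are not
both of type X.
-/

set_option autoImplicit false

namespace Pool.Agent.PF4.XT

open Finset Pool.Agent.TFC Pool.Agent.PF4 Pool.Agent.PF4.LD Pool.Agent.PF4.XC Pool.Agent.PF4.XF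

theorem con_neg_le (p m : Prop) {k : ℤ} (h : 0 ≤ k) : con p m (-k) ≤ k := by
  unfold con; split_ifs <;> omega

section
variable {X : XD} {P : ℕ → Finset (Sym2 ℕ) → Prop} {D : Finset (Finset (Sym2 ℕ))} {j : ℕ} {S : Finset ℕ}
  {M : ℕ → Finset (Sym2 ℕ)} {A : Clu ℕ → Finset (Sym2 ℕ) → Prop} {CL U : List (Clu ℕ)} {PL : Finset (Sym2 ℕ)}
  {pl mi : ℕ → Prop}

/-- both versions at once: `w` is one of the two hubs -/
theorem PW.vx_gen (h : PW X P D j S M A CL U PL pl mi) {u v : ℕ} {Lf : Finset ℕ} (hc : Clu.k2 u v Lf ∈ U)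
    (hA : ACp D A (Clu.k2 u v Lf)) {w : ℕ} (hw : w = u ∨ w = v) (hO : Out A U (Clu.k2 u v Lf) (M w)) (hr : w ∈ S)
    (hT : w ∈ X.T) (hM : M2 (M w)) (h1 : dg (M w) w = 1) {a b : ℕ} (ha : a ∈ Lf) (hb : b ∈ Lf) (hab : a ≠ b)
    (hD : TFC.sq u a v b ∉ D) : ¬ ((mi a ∧ ¬ pl a) ∧ (mi b ∧ ¬ pl b)) := by
  rintro ⟨⟨ma, pa⟩, ⟨mb, pb⟩⟩
  obtain ⟨uv, uL, vL, _⟩ : u ≠ v ∧ u ∉ Lf ∧ v ∉ Lf ∧ 2 ≤ #Lf := h.val' hc
  have hP : ({a, b} : Finset ℕ) ⊆ Lf := by
    intro x hx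
    rw [Finset.mem_insert, Finset.mem_singleton] at hx
    rcases hx with rfl | rfl
    · exact ha
    · exact hb
  -- the square
  obtain ⟨F, hF⟩ : ∃ F, F = TFC.sq u a v b := ⟨_, rfl⟩
  have hFt : F = XU.tw u v {a, b} {a, b} := by rw [hF, sq_tw]
  have hFc : F ⊆ (Clu.k2 u v Lf).edges := by rw [hFt]; exact XU.tw_sub hP hP
  have h4 : Dist4 u a v b := ⟨fun e => uL (e ▸ ha), uv, fun e => uL (e ▸ hb), fun e => vL (e ▸ ha), hab,
    fun e => vL (e ▸ hb)⟩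
  have hFs : IsSq F := ⟨u, a, v, b, h4, hF⟩
  have hcard : #({a, b} : Finset ℕ) = 2 := by
    rw [Finset.card_insert_of_notMem (by rw [Finset.mem_singleton]; exact hab), Finset.card_singleton]
  have hdF : ∀ x, dv F x = 2 * (if x ∈ ({a, b} : Finset ℕ) then 1 else 0) +
      ((if x = u then 2 else 0) + if x = v then 2 else 0) := by
    intro x
    rw [hFt, XU.dv_tw uv uL vL hP hP, hcard]
    push_cast
    ring
  have hFm : M2 F := by
    refine ⟨fun e he => ?_, fun x => ?_⟩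
    · exact h.nl (hFc.trans (h.cW' hc)) e he
    · have h2 := hdF x
      have h3 : (dg F x : ℤ) ≤ 2 := by
        rw [show (dg F x : ℤ) = dv F x from rfl, h2]
        by_cases h5 : x ∈ ({a, b} : Finset ℕ)
        · have h6 : x ≠ u := fun e => uL (e ▸ hP h5)
          have h7 : x ≠ v := fun e => vL (e ▸ hP h5)
          rw [if_pos h5, if_neg h6, if_neg h7]
          norm_num
        · rw [if_neg h5]
          by_cases h6 : x = u
          · have h7 : ¬ x = v := fun e => uv (h6.symm.trans e)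
            rw [if_pos h6, if_neg h7]
            norm_num
          · rw [if_neg h6]
            split_ifs <;> norm_num
      exact_mod_cast h3
  have hFa : Acap D F := by
    refine ⟨hFm, fun Z hZ hs => hD ?_⟩
    have : Z = F := by
      refine Finset.eq_of_subset_of_card_le hs ?_
      rw [IsSq.card hFs, IsSq.card (h.isq Z hZ)]
    rw [← hF, ← this]
    exact hZ
  have key := h.nc_rep hr hT hc hO hFc (hA F hFc hFa)
  -- the part of the near cover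
  obtain ⟨K, hK⟩ : ∃ K, K = M w ∩ (Clu.k2 u v Lf).edges := ⟨_, rfl⟩
  rw [← hK] at key
  have hKc : K ⊆ (Clu.k2 u v Lf).edges := by rw [hK]; exact Finset.inter_subset_right
  have hKM : K ⊆ M w := by rw [hK]; exact Finset.inter_subset_left
  have hK2 : ∀ x, 0 ≤ dv K x ∧ dv K x ≤ 2 := by
    intro x
    refine ⟨Nat.cast_nonneg _, ?_⟩
    have h5 : dg K x ≤ 2 := (Finset.card_le_card (Finset.filter_subset_filter _ hKM)).trans (hM.2 x)
    show ((dg K x : ℕ) : ℤ) ≤ 2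
    exact_mod_cast h5
  have hKw : dv K w ≤ 1 := by
    have h5 : dg K w ≤ 1 := h1 ▸ Finset.card_le_card (Finset.filter_subset_filter _ hKM)
    show ((dg K w : ℕ) : ℤ) ≤ 1
    exact_mod_cast h5
  have hKsum : ∑ l ∈ Lf, dv K l = dv K u + dv K v := by
    have e := XU.tw_of hKc uv uL vL
    obtain ⟨P', hP'⟩ : ∃ P', P' = Lf.filter fun l => s(u, l) ∈ K := ⟨_, rfl⟩
    obtain ⟨Q', hQ'⟩ : ∃ Q', Q' = Lf.filter fun l => s(v, l) ∈ K := ⟨_, rfl⟩
    rw [← hP', ← hQ'] at e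
    have hP1 : P' ⊆ Lf := by rw [hP']; exact Finset.filter_subset _ _
    have hQ1 : Q' ⊆ Lf := by rw [hQ']; exact Finset.filter_subset _ _
    rw [e]
    simp only [XU.dv_tw uv uL vL hP1 hQ1, Finset.sum_add_distrib]
    rw [XU.ind_sum hP1, XU.ind_sum hQ1, if_neg (fun e => uL (hP1 e)), if_neg (fun e => uL (hQ1 e)),
      if_neg (fun e => vL (hP1 e)), if_neg (fun e => vL (hQ1 e)), if_neg uv, if_neg uv.symm,
      Finset.sum_ite_eq' Lf u, Finset.sum_ite_eq' Lf v, if_neg uL, if_neg vL]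
    simp
  -- support
  obtain ⟨d, hd⟩ : ∃ d, d = dv F - dv K - Pi.single w 1 := ⟨_, rfl⟩
  rw [← hd] at key
  have hdv : ∀ x, d x = dv F x - dv K x - (if x = w then 1 else 0) := by
    intro x
    rw [hd, Pi.sub_apply, Pi.sub_apply, sgl]
  have hSV : insert u (insert v Lf) ⊆ X.V2 := by
    intro x hx
    rw [Finset.mem_insert, Finset.mem_insert] at hx
    have e1 : s(u, a) ∈ (Clu.k2 u v Lf).edges := mem_k2.2 (Or.inl ⟨Or.inl rfl, ha⟩)
    have e2 : s(v, a) ∈ (Clu.k2 u v Lf).edges := mem_k2.2 (Or.inl ⟨Or.inr rfl, ha⟩)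
    rcases hx with rfl | rfl | hx
    · exact h.v2' (h.cW' hc e1) (by simp)
    · exact h.v2' (h.cW' hc e2) (by simp)
    · have e3 : s(u, x) ∈ (Clu.k2 u v Lf).edges := mem_k2.2 (Or.inl ⟨Or.inl rfl, hx⟩)
      exact h.v2' (h.cW' hc e3) (by simp)
  have hoff : ∀ x ∈ X.V2, x ∉ insert u (insert v Lf) → d x = 0 := by
    intro x _ hx
    rw [Finset.mem_insert, Finset.mem_insert, not_or, not_or] at hx
    obtain ⟨x1, x2, x3⟩ := hx
    have hxw : x ≠ w := by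
      rcases hw with rfl | rfl
      · exact x1
      · exact x2
    have hvs : x ∉ vs (Clu.k2 u v Lf).edges := by
      intro hm
      obtain ⟨e, he, hxe⟩ := mem_vs.1 hm
      obtain ⟨y, rfl⟩ := hxe
      rcases mem_k2.1 he with ⟨h5 | h5, _⟩ | ⟨_, h5⟩
      · exact x1 h5
      · exact x2 h5
      · exact x3 h5
    rw [hdv, dv_off hFc hvs, dv_off hKc hvs, if_neg hxw]
    ring
  rw [ph_supp hSV hoff, Finset.sum_insert (by rw [Finset.mem_insert, not_or]; exact ⟨uv, uL⟩),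
    Finset.sum_insert vL] at key
  -- leaves
  have hleaf : ∑ l ∈ Lf, con (pl l) (mi l) (d l) ≤ ∑ l ∈ Lf, (dv K l - 2 * (if l ∈ ({a, b} : Finset ℕ) then 1 else 0)) := by
    refine Finset.sum_le_sum fun l hl => ?_
    have l1 : l ≠ u := fun e => uL (e ▸ hl)
    have l2 : l ≠ v := fun e => vL (e ▸ hl)
    have l3 : l ≠ w := by
      rcases hw with rfl | rfl
      · exact l1
      · exact l2
    rw [hdv, hdF, if_neg l1, if_neg l2, if_neg l3]
    by_cases h5 : l ∈ ({a, b} : Finset ℕ)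
    · rw [if_pos h5]
      have h6 : mi l ∧ ¬ pl l := by
        rw [Finset.mem_insert, Finset.mem_singleton] at h5
        rcases h5 with rfl | rfl
        · exact ⟨ma, pa⟩
        · exact ⟨mb, pb⟩
      rw [con_X h6.2 h6.1]
      omega
    · rw [if_neg h5]
      have h7 := con_neg_le (pl l) (mi l) (hK2 l).1
      rw [show 2 * (0 : ℤ) + (0 + 0) - dv K l - 0 = -dv K l by ring]
      omega
  rw [Finset.sum_sub_distrib, hKsum, ← Finset.mul_sum, XU.ind_sum hP, hcard] at hleaf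
  -- hubs
  have hub : ∀ x, x = u ∨ x = v → x = w → con (pl x) (mi x) (d x) ≤ 1 - dv K x := by
    intro x hx hxw
    have hFx : dv F x = 2 := by
      rw [hdF]
      rcases hx with rfl | rfl
      · rw [if_neg (fun e => uL (hP e)), if_pos rfl, if_neg uv]; ring
      · rw [if_neg (fun e => vL (hP e)), if_neg uv.symm, if_pos rfl]; ring
    rw [hdv, hFx, if_pos hxw]
    have h5 : dv K x ≤ 1 := by rw [hxw]; exact hKw
    have h6 := (hK2 x).1
    rcases (show dv K x = 0 ∨ dv K x = 1 by omega) with h7 | h7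
    · rw [h7]
      have := con_one (pl x) (mi x)
      norm_num
      exact this
    · rw [h7]
      norm_num
      rw [con_zero]
  have hub2 : ∀ x, x = u ∨ x = v → x ≠ w → con (pl x) (mi x) (d x) ≤ 2 - dv K x := by
    intro x hx hxw
    have hFx : dv F x = 2 := by
      rw [hdF]
      rcases hx with rfl | rfl
      · rw [if_neg (fun e => uL (hP e)), if_pos rfl, if_neg uv]; ring
      · rw [if_neg (fun e => vL (hP e)), if_neg uv.symm, if_pos rfl]; ring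
    rw [hdv, hFx, if_neg hxw]
    obtain ⟨h5, h6⟩ := hK2 x
    rcases (show dv K x = 0 ∨ dv K x = 1 ∨ dv K x = 2 by omega) with h7 | h7 | h7
    · rw [h7]
      have := con_two_le (pl x) (mi x)
      norm_num
      exact this
    · rw [h7]
      have := con_one (pl x) (mi x)
      norm_num
      exact this
    · rw [h7]
      norm_num
      rw [con_zero]
  rcases hw with hw | hw
  · have h5 := hub u (Or.inl rfl) hw.symm
    have h6 := hub2 v (Or.inr rfl) (fun e => uv (hw.symm.trans e.symm))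
    push_cast at hleaf
    omega
  · have h5 := hub v (Or.inr rfl) hw.symm
    have h6 := hub2 u (Or.inl rfl) (fun e => uv (e.trans hw))
    push_cast at hleaf
    omega

/-- **(V)**, the hub is the first one -/
theorem PW.vx (h : PW X P D j S M A CL U PL pl mi) {r g : ℕ} {Lf : Finset ℕ} (hc : Clu.k2 r g Lf ∈ U)
    (hA : ACp D A (Clu.k2 r g Lf)) (hO : Out A U (Clu.k2 r g Lf) (M r)) (hr : r ∈ S) (hT : r ∈ X.T)
    (hM : M2 (M r)) (h1 : dg (M r) r = 1) {a b : ℕ} (ha : a ∈ Lf) (hb : b ∈ Lf) (hab : a ≠ b)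
    (hD : TFC.sq r a g b ∉ D) : ¬ ((mi a ∧ ¬ pl a) ∧ (mi b ∧ ¬ pl b)) :=
  h.vx_gen hc hA (Or.inl rfl) hO hr hT hM h1 ha hb hab hD

/-- **(V)**, the hub is the second one -/
theorem PW.vx' (h : PW X P D j S M A CL U PL pl mi) {r g : ℕ} {Lf : Finset ℕ} (hc : Clu.k2 g r Lf ∈ U)
    (hA : ACp D A (Clu.k2 g r Lf)) (hO : Out A U (Clu.k2 g r Lf) (M r)) (hr : r ∈ S) (hT : r ∈ X.T)
    (hM : M2 (M r)) (h1 : dg (M r) r = 1) {a b : ℕ} (ha : a ∈ Lf) (hb : b ∈ Lf) (hab : a ≠ b)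
    (hD : TFC.sq r a g b ∉ D) : ¬ ((mi a ∧ ¬ pl a) ∧ (mi b ∧ ¬ pl b)) := by
  refine h.vx_gen hc hA (Or.inr rfl) hO hr hT hM h1 ha hb hab ?_
  have e : TFC.sq g a r b = TFC.sq r a g b := by
    rw [sq_rot g a r b, sq_rot a r b g, sq_ref r b g a, sq_rot a g b r, sq_rot g b r a, sq_rot b r a g]
  rw [e]
  exact hD

end

end Pool.Agent.PF4.XT

end

section -- file PF4/XLQ

/-!
Lemma P from the block statement.
-/

set_option autoImplicit false

namespace Pool.Agent.PF4.XLP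

open Finset Pool.Agent.TFC Pool.Agent.PF4 Pool.Agent.PF4.LD Pool.Agent.PF4.XC Pool.Agent.PF4.XF Pool.Agent.PF4.XT

/-- the cluster of a square of the family at a vertex of `S` -/
theorem clq {X : XD} {P : ℕ → Finset (Sym2 ℕ) → Prop} {D : Finset (Finset (Sym2 ℕ))} {j m : ℕ} {S : Finset ℕ}
    {M : ℕ → Finset (Sym2 ℕ)} {CL U : List (Clu ℕ)} {PL : Finset (Sym2 ℕ)} (h : WA X P D j m S M CL U PL)
    {Z : Finset (Sym2 ℕ)} (hZ : Z ∈ D) {e : Sym2 ℕ} (he : e ∈ Z) {v : ℕ} (hv : v ∈ S) (hve : v ∈ e) :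
    ∃ c ∈ U, Z ⊆ c.edges := by
  obtain ⟨pl, mi, hw, -⟩ := h.fr (fun _ => False) fun _ h => h.elim
  have h1 := h.reg hv (hw.dE Z hZ he) hve
  rcases mem_union.1 h1 with h2 | h2
  · obtain ⟨c, hc, hec⟩ := mem_Ucl.1 h2
    refine ⟨c, hc, (h.cls.whole ((hw.uc c).1 hc).1 hZ).resolve_right fun hd => ?_⟩
    exact Finset.disjoint_left.1 hd he hec
  · exact absurd he (((hw.pm e).1 h2).2 Z hZ)

/-- the block statement (helper15) -/
def Block (X : XD) (P : ℕ → Finset (Sym2 ℕ) → Prop) (D : Finset (Finset (Sym2 ℕ))) (j : ℕ) (S : Finset ℕ)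
    (U : List (Clu ℕ)) : Prop :=
  ∀ x y q p r s : ℕ, [x, y, q, p, r, s].Nodup → x ∈ S → y ∈ S → r ∈ S → s ∈ S → x ∈ X.T → y ∈ X.T → r ∈ X.T →
    s ∈ X.T → TFC.sq x y q p ∈ D → s(x, r) ∈ X.E → s(r, s) ∈ X.E → s(y, s) ∈ X.E →
    ∀ L, Wt X P D j (TFC.sq x y q p) L → s(r, s) ∉ L ∧
      ∃ c ∈ U, K2 c ∧ s(r, s) ∈ c.edges ∧ ∃ a b, P3 (L ∩ c.edges) r a b s

theorem lp_of {X : XD} {P : ℕ → Finset (Sym2 ℕ) → Prop} {D : Finset (Finset (Sym2 ℕ))} {j m : ℕ} {S : Finset ℕ}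
    {M : ℕ → Finset (Sym2 ℕ)} {CL U : List (Clu ℕ)} {PL : Finset (Sym2 ℕ)} (h : WA X P D j m S M CL U PL)
    (hB : Block X P D j S U) : LP X P D j S U := by
  intro x y q p r s nd xS yS rS sS xT yT rT sT hQ xr rs ys
  obtain ⟨pl, mi, hw, -⟩ := h.fr (fun _ => False) fun _ h => h.elim
  obtain ⟨L0, hL0⟩ := hw.wt hQ
  obtain ⟨-, c, hc, hk, hrs, -⟩ := hB x y q p r s nd xS yS rS sS xT yT rT sT hQ xr rs ys L0 hL0
  refine ⟨c, hc, hk, hrs, fun L hL => ?_⟩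
  obtain ⟨h1, c', hc', hk', hrs', a, b, hp⟩ := hB x y q p r s nd xS yS rS sS xT yT rT sT hQ xr rs ys L hL
  have e : c' = c := hw.eqc hc' hc hrs' hrs
  subst e
  obtain ⟨c1, hc1, hq1⟩ := clq h hQ (e := s(x, y)) (by simp [TFC.sq]) xS (by simp)
  exact ⟨h1, a, b, hp, (Bk.mem ⟨h, nd, xS, yS, rS, sS, rT, sT, hQ, xr, ys, hL, hc1, hq1, hc', hk', hrs', hp, h1⟩ :
    TFC.sq r s b a ∈ D)⟩

end Pool.Agent.PF4.XLP

end

section -- file PF4/XLR

/-!
Lemma P: the block, assembled from the local moves.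
-/

set_option autoImplicit false

namespace Pool.Agent.PF4.XLR

open Finset Pool.Agent.TFC Pool.Agent.PF4 Pool.Agent.PF4.LD Pool.Agent.PF4.XC Pool.Agent.PF4.XF Pool.Agent.PF4.XT
  Pool.Agent.PF4.XLP

/-- the frame of a witness: uncapped where the witness is square-free -/
def FL (L : Finset (Sym2 ℕ)) (c : Clu ℕ) : Prop := K2 c ∧ Sf (L ∩ c.edges)

/-- data -/
structure BD (X : XD) (P : ℕ → Finset (Sym2 ℕ) → Prop) (D : Finset (Finset (Sym2 ℕ))) (j m : ℕ) (S : Finset ℕ)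
    (M : ℕ → Finset (Sym2 ℕ)) (CL U : List (Clu ℕ)) (PL : Finset (Sym2 ℕ)) (x y q p r s : ℕ)
    (c1 : Clu ℕ) (L : Finset (Sym2 ℕ)) (pl mi : ℕ → Prop) : Prop where
  wa : WA X P D j m S M CL U PL
  nd : [x, y, q, p, r, s].Nodup
  xS : x ∈ S
  yS : y ∈ S
  rS : r ∈ S
  sS : s ∈ S
  rT : r ∈ X.T
  sT : s ∈ X.T
  hQ : TFC.sq x y q p ∈ D
  xr : s(x, r) ∈ X.E
  rs : s(r, s) ∈ X.E
  ys : s(y, s) ∈ X.E
  w : Wt X P D j (TFC.sq x y q p) L
  c1U : c1 ∈ U
  q1 : TFC.sq x y q p ⊆ c1.edges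
  rsL : s(r, s) ∉ L
  pw : PW X P D j S M (Fr D (FL L)) CL U PL pl mi
  mi : ∀ w ∈ S, w ∈ X.T → mi w

section
variable {X : XD} {P : ℕ → Finset (Sym2 ℕ) → Prop} {D : Finset (Finset (Sym2 ℕ))} {j m : ℕ} {S : Finset ℕ}
  {M : ℕ → Finset (Sym2 ℕ)} {CL U : List (Clu ℕ)} {PL : Finset (Sym2 ℕ)} {x y q p r s : ℕ} {c1 : Clu ℕ}
  {L : Finset (Sym2 ℕ)} {pl mi : ℕ → Prop}

theorem BD.symm (h : BD X P D j m S M CL U PL x y q p r s c1 L pl mi) :
    BD X P D j m S M CL U PL y x p q s r c1 L pl mi where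
  wa := h.wa
  nd := by
    obtain ⟨⟨xy, xq, xp, xr, xs⟩, ⟨yq, yp, yr, ys⟩, ⟨qp, qr, qs⟩, ⟨pr, ps⟩, rs⟩ := XT.nd6 h.nd
    simp only [List.nodup_cons, List.mem_cons, List.not_mem_nil, or_false, not_or, List.nodup_nil, and_true,
      not_false_eq_true]
    exact ⟨⟨xy.symm, yp, yq, ys, yr⟩, ⟨xp, xq, xs, xr⟩, ⟨qp.symm, ps, pr⟩, ⟨qs, qr⟩, rs.symm⟩
  xS := h.yS
  yS := h.xS
  rS := h.sS
  sS := h.rS
  rT := h.sT
  sT := h.rT
  hQ := by rw [sq_mir]; exact h.hQ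
  xr := h.ys
  rs := by rw [Sym2.eq_swap]; exact h.rs
  ys := h.xr
  w := by rw [sq_mir]; exact h.w
  c1U := h.c1U
  q1 := by rw [sq_mir]; exact h.q1
  rsL := by rw [Sym2.eq_swap]; exact h.rsL
  pw := h.pw
  mi := h.mi

/-- edges of the witness at a vertex of the square -/
theorem BD.atQ (h : BD X P D j m S M CL U PL x y q p r s c1 L pl mi) {v : ℕ}
    (hv : v = x ∨ v = y ∨ v = q ∨ v = p) {g : Sym2 ℕ} (hg : g ∈ L) (hvg : v ∈ g) : g ∈ TFC.sq x y q p := by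
  rcases hv with rfl | rfl | rfl | rfl
  · exact h.w.at h.pw.isq h.hQ (e := s(v, y)) (by simp [TFC.sq]) (by simp) hg hvg
  · exact h.w.at h.pw.isq h.hQ (e := s(v, q)) (by simp [TFC.sq]) (by simp) hg hvg
  · exact h.w.at h.pw.isq h.hQ (e := s(v, p)) (by simp [TFC.sq]) (by simp) hg hvg
  · exact h.w.at h.pw.isq h.hQ (e := s(v, x)) (by simp [TFC.sq]) (by simp) hg hvg

theorem BD.notQ (h : BD X P D j m S M CL U PL x y q p r s c1 L pl mi) {g : Sym2 ℕ}
    (hg : g ∈ TFC.sq x y q p) : r ∉ g ∧ s ∉ g := by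
  obtain ⟨⟨xy, xq, xp, xr, xs⟩, ⟨yq, yp, yr, ys⟩, ⟨qp, qr, qs⟩, ⟨pr, ps⟩, rs⟩ := XT.nd6 h.nd
  constructor
  · intro hv
    rcases sq_vert hg hv with h3 | h3 | h3 | h3
    · exact xr h3.symm
    · exact yr h3.symm
    · exact qr h3.symm
    · exact pr h3.symm
  · intro hv
    rcases sq_vert hg hv with h3 | h3 | h3 | h3
    · exact xs h3.symm
    · exact ys h3.symm
    · exact qs h3.symm
    · exact ps h3.symm

theorem BD.hLc (h : BD X P D j m S M CL U PL x y q p r s c1 L pl mi) : L ∩ c1.edges = TFC.sq x y q p :=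
  inter_eq (h.pw.val' h.c1U) (h.pw.isq _ h.hQ) h.q1 h.w.m2 h.w.sq

/-- the part of the witness in another cluster -/
theorem BD.cap (h : BD X P D j m S M CL U PL x y q p r s c1 L pl mi) {c : Clu ℕ} (hc : c ∈ U) (hne : c ≠ c1) :
    Acap D (L ∩ c.edges) := by
  refine ⟨h.w.m2.mono Finset.inter_subset_left, fun Z' hZ' hs => ?_⟩
  have h1 := h.w.uni Z' hZ' (hs.trans Finset.inter_subset_left)
  subst h1
  have h3 : s(x, y) ∈ TFC.sq x y q p := by simp [TFC.sq]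
  exact hne (h.pw.eqc hc h.c1U (Finset.mem_inter.1 (hs h3)).2 (h.q1 h3))

theorem BD.out (h : BD X P D j m S M CL U PL x y q p r s c1 L pl mi) : Out (Fr D (FL L)) U c1 L := by
  intro c hc hne
  refine Fr_of (fun hf => sqFree_of (h.w.m2.nl.mono inter_subset_left) hf.2) fun _ => h.cap hc hne

/-- `x` has no edge of the witness in another cluster -/
theorem BD.nox (h : BD X P D j m S M CL U PL x y q p r s c1 L pl mi) {c : Clu ℕ} (hc : c ∈ U) (hne : c ≠ c1) :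
    ∀ f ∈ L ∩ c.edges, x ∉ f := by
  intro f hf hxf
  obtain ⟨h1, h2⟩ := mem_inter.1 hf
  exact hne (h.pw.eqc hc h.c1U h2 (h.q1 (h.atQ (Or.inl rfl) h1 hxf)))

/-- the local data -/
theorem BD.lo (h : BD X P D j m S M CL U PL x y q p r s c1 L pl mi) {c : Clu ℕ} (hc : c ∈ U) (hne : c ≠ c1) :
    LM.Lo D c (L ∩ c.edges) (Fr D (FL L) c) X.V2 where
  val := h.pw.val' hc
  isq := h.pw.isq
  nl := h.pw.nl (h.pw.cW' hc)
  sub := inter_subset_right
  m2 := (h.cap hc hne).1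
  fr := (h.cap hc hne).2
  kd := by
    rintro Y rfl
    exact h.wa.k4D hc
  a4 := by
    rintro Y rfl
    refine Fr_neg ?_
    rintro ⟨⟨a, b, l, hk⟩, _⟩
    cases hk
  a2 := fun hk hs => Fr_pos ⟨hk, hs⟩
  a2' := fun hk hs => Fr_neg fun hf => hs hf.2
  vV := fun e he v hv => h.pw.v2 hc he hv

/-- (V) -/
theorem BD.vf (h : BD X P D j m S M CL U PL x y q p r s c1 L pl mi) {c : Clu ℕ} (hc : c ∈ U) (hne : c ≠ c1) :
    LM.Vf pl mi c (L ∩ c.edges) r := by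
  intro g Λ a b hH ha hb hab hF
  have hFK : ∀ c, FL L c → K2 c := fun c hf => hf.1
  have hsq : IsSq (TFC.sq r a g b) := by
    refine ⟨r, a, g, b, ⟨?_, hH.rh, ?_, ?_, hab, ?_⟩, rfl⟩
    · rintro rfl; exact hH.rL ha
    · rintro rfl; exact hH.rL hb
    · rintro rfl; exact hH.hL ha
    · rintro rfl; exact hH.hL hb
  have hns : ¬ FL L c := fun hf => hf.2 _ hsq hF.ge
  have hD : TFC.sq r a g b ∉ D := fun hD => (h.cap hc hne).2 _ hD hF.ge
  obtain ⟨n1, _, _⟩ := h.wa.ow.nc r h.rS h.rT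
  have key : ¬ ((mi a ∧ ¬ pl a) ∧ (mi b ∧ ¬ pl b)) := by
    rcases hH.eq with rfl | rfl
    · exact h.pw.vx hc (fr_acp hns) (h.wa.fr_Mc h.pw hFK h.rS h.rT _) h.rS h.rT n1.m2 n1.one ha hb hab hD
    · exact h.pw.vx' hc (fr_acp hns) (h.wa.fr_Mc h.pw hFK h.rS h.rT _) h.rS h.rT n1.m2 n1.one ha hb hab hD
  by_contra hcon
  push Not at hcon
  exact key ⟨hcon.1, hcon.2⟩

/-! ### states with cost -/

/-- a state up to a vector without cost -/
def RC (V : Finset ℕ) (pl mi : ℕ → Prop) (A : Clu ℕ → Finset (Sym2 ℕ) → Prop) (U : List (Clu ℕ))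
    (PL L : Finset (Sym2 ℕ)) (d : ℕ → ℤ) (τ : Finset (Sym2 ℕ)) : Prop :=
  ∃ z, ph V pl mi z ≤ 0 ∧ RS A U PL L (d + z) τ

/-- a move at a site up to a vector without cost -/
def GM (V : Finset ℕ) (pl mi : ℕ → Prop) (A : Clu ℕ → Finset (Sym2 ℕ) → Prop) (U : List (Clu ℕ))
    (PL L E : Finset (Sym2 ℕ)) (δ : ℕ → ℤ) : Prop := ∃ z, ph V pl mi z ≤ 0 ∧ XT.Mv A U PL L E (δ + z)

/-- another site -/
def Site (U : List (Clu ℕ)) (PL : Finset (Sym2 ℕ)) (c1 : Clu ℕ) (E : Finset (Sym2 ℕ)) : Prop :=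
  (∃ c ∈ U, c ≠ c1 ∧ E = c.edges) ∨ ∃ e ∈ PL, E = {e}

theorem gm_of {V : Finset ℕ} {A : Clu ℕ → Finset (Sym2 ℕ) → Prop} {c : Clu ℕ} (hc : c ∈ U) {δ : ℕ → ℤ}
    (h : LM.Mv V pl mi c (A c) (L ∩ c.edges) δ) : GM V pl mi A U PL L c.edges δ := by
  obtain ⟨K, h1, h2, z, h3, h4⟩ := h
  exact ⟨z, h3, K, ⟨h1, Or.inl ⟨c, hc, rfl, h2⟩⟩, by rw [h4, add_assoc]⟩

theorem gm_plain {V : Finset ℕ} {A : Clu ℕ → Finset (Sym2 ℕ) → Prop} {u t : ℕ} (hut : u ≠ t) (he : s(u, t) ∈ PL)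
    (hL : s(u, t) ∉ L) : GM V pl mi A U PL L {s(u, t)} (ev u + ev t) := by
  refine ⟨0, (ph_zero _ _ _).le, {s(u, t)}, ⟨le_rfl, Or.inr ⟨_, he, rfl⟩⟩, ?_⟩
  have e : L ∩ {s(u, t)} = ∅ := by
    rw [Finset.inter_singleton_of_notMem hL]
  rw [e, dv_empty, dv_pair hut, zero_add, add_zero]
  rfl

theorem BD.site_disj (h : BD X P D j m S M CL U PL x y q p r s c1 L pl mi) {E E' : Finset (Sym2 ℕ)}
    (hE : Site U PL c1 E) (hE' : Site U PL c1 E') (hne : E ≠ E') : Disjoint E E' := by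
  rw [Finset.disjoint_left]
  intro e he he'
  apply hne
  rcases hE with ⟨c, hc, hc1, rfl⟩ | ⟨f, hf, rfl⟩
  · rcases hE' with ⟨c', hc', _, rfl⟩ | ⟨f, hf, rfl⟩
    · rw [h.pw.eqc hc hc' he he']
    · rw [mem_singleton] at he'
      subst he'
      exact absurd he (Finset.disjoint_left.1 (h.pw.plain hc) hf)
  · rw [mem_singleton] at he
    subst he
    rcases hE' with ⟨c', hc', _, rfl⟩ | ⟨f', hf', rfl⟩
    · exact absurd he' (Finset.disjoint_left.1 (h.pw.plain hc') hf)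
    · rw [mem_singleton] at he'
      rw [he']

theorem BD.site_c1 (h : BD X P D j m S M CL U PL x y q p r s c1 L pl mi) {E : Finset (Sym2 ℕ)}
    (hE : Site U PL c1 E) : Disjoint E c1.edges := by
  rcases hE with ⟨c, hc, hc1, rfl⟩ | ⟨f, hf, rfl⟩
  · rw [Finset.disjoint_left]
    intro e he he'
    exact hc1 (h.pw.eqc hc h.c1U he he')
  · rw [Finset.disjoint_singleton_left]
    exact Finset.disjoint_left.1 (h.pw.plain h.c1U) hf

theorem BD.step (h : BD X P D j m S M CL U PL x y q p r s c1 L pl mi) {d δ : ℕ → ℤ} {τ E : Finset (Sym2 ℕ)}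
    (hR : RC X.V2 pl mi (Fr D (FL L)) U PL L d τ) (hd : Disjoint E τ)
    (hM : GM X.V2 pl mi (Fr D (FL L)) U PL L E δ) : RC X.V2 pl mi (Fr D (FL L)) U PL L (d + δ) (τ ∪ E) := by
  obtain ⟨z, h1, h2⟩ := hR
  obtain ⟨z', h3, h4⟩ := hM
  refine ⟨z + z', (LM.ph_le _ _ _ _ _).trans (by omega), ?_⟩
  have h5 := h.pw.step h2 hd h4
  have e : d + z + (δ + z') = d + δ + (z + z') := by abel
  rwa [e] at h5

/-- the end -/
theorem BD.fin (h : BD X P D j m S M CL U PL x y q p r s c1 L pl mi) {d : ℕ → ℤ} {τ : Finset (Sym2 ℕ)}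
    (hR : RC X.V2 pl mi (Fr D (FL L)) U PL L d τ) {α β : ℤ} (hα : α = 0 ∨ α = 2) (hβ : β = 0 ∨ β = 2)
    (hd : d = α • ev r + β • ev s) : False := by
  obtain ⟨z, h1, h2⟩ := hR
  have hZU : TFC.sq x y q p ⊆ Ucl U := fun e he => mem_Ucl.2 ⟨c1, h.c1U, h.q1 he⟩
  have h3 := h.pw.val1 h.hQ hZU h.w h2
  have h4 := LM.ph_le X.V2 pl mi d z
  have rs : r ≠ s := by
    obtain ⟨_, _, _, _, rs⟩ := XT.nd6 h.nd
    exact rs
  have e : d = Pi.single r α + Pi.single s β := by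
    rw [hd]
    funext v
    simp only [Pi.add_apply, Pi.smul_apply, XT.ev_single, sgl, smul_eq_mul]
    split_ifs <;> simp
  have hV : ∀ v ∈ S, v ∈ X.V2 := h.pw.sv
  rw [e, ph_two (hV r h.rS) (hV s h.sS) rs] at h4
  have key : ∀ v, mi v → ∀ a : ℤ, a = 0 ∨ a = 2 → con (pl v) (mi v) a ≤ 0 := by
    intro v hv a ha
    rcases ha with rfl | rfl
    · exact (con_zero _ _).le
    · unfold con
      rw [if_pos hv, if_pos hv]
      split_ifs <;> norm_num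
  have h5 := key r (h.mi r h.rS h.rT) α hα
  have h6 := key s (h.mi s h.sS h.sT) β hβ
  rw [e] at h3
  have h7 := LM.ph_le X.V2 pl mi (Pi.single r α + Pi.single s β) z
  rw [ph_two (hV r h.rS) (hV s h.sS) rs] at h7
  omega

/-! ### moves at sites -/

/-- the block at a site -/
def BlkS (U : List (Clu ℕ)) (L E : Finset (Sym2 ℕ)) (r s : ℕ) : Prop :=
  ∃ c ∈ U, E = c.edges ∧ K2 c ∧ ∃ a b, P3 (L ∩ c.edges) r a b s

theorem BD.siteOf (h : BD X P D j m S M CL U PL x y q p r s c1 L pl mi) {e : Sym2 ℕ} (he : e ∈ Ucl U ∪ PL)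
    (h1 : e ∉ c1.edges) : ∃ E, Site U PL c1 E ∧ e ∈ E := by
  rcases mem_union.1 he with h2 | h2
  · obtain ⟨c, hc, hec⟩ := mem_Ucl.1 h2
    exact ⟨c.edges, Or.inl ⟨c, hc, by rintro rfl; exact h1 hec, rfl⟩, hec⟩
  · exact ⟨{e}, Or.inr ⟨e, h2, rfl⟩, mem_singleton_self e⟩

theorem BD.xrL (h : BD X P D j m S M CL U PL x y q p r s c1 L pl mi) : s(x, r) ∉ L := fun hc =>
  (h.notQ (h.atQ (Or.inl rfl) hc (by simp))).1 (by simp)

/-- attach `x` to `r` -/
theorem BD.A1 (h : BD X P D j m S M CL U PL x y q p r s c1 L pl mi) {E : Finset (Sym2 ℕ)} (hE : Site U PL c1 E)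
    (he : s(x, r) ∈ E) : GM X.V2 pl mi (Fr D (FL L)) U PL L E (ev x + ev r) ∨
      (GM X.V2 pl mi (Fr D (FL L)) U PL L E (ev x - ev r) ∧ dg (L ∩ E) r = 2) := by
  obtain ⟨⟨xy, xq, xp, xr, xs⟩, -, -, -, rs⟩ := XT.nd6 h.nd
  rcases hE with ⟨c, hc, hc1, rfl⟩ | ⟨f, hf, rfl⟩
  · rcases (h.lo hc hc1).L1 (h.nox hc hc1) he (h.vf hc hc1) with h1 | ⟨h1, h2⟩
    · exact Or.inl (gm_of hc h1)
    · exact Or.inr ⟨gm_of hc h1, h2⟩
  · rw [mem_singleton] at he
    subst he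
    exact Or.inl (gm_plain xr hf h.xrL)

/-- link `r` and `s` -/
theorem BD.A2 (h : BD X P D j m S M CL U PL x y q p r s c1 L pl mi) {E : Finset (Sym2 ℕ)} (hE : Site U PL c1 E)
    (he : s(r, s) ∈ E) : GM X.V2 pl mi (Fr D (FL L)) U PL L E (ev r + ev s) ∨
      (GM X.V2 pl mi (Fr D (FL L)) U PL L E (ev r - ev s) ∧ 1 ≤ dg (L ∩ E) s) ∨
      (GM X.V2 pl mi (Fr D (FL L)) U PL L E (ev s - ev r) ∧ 1 ≤ dg (L ∩ E) r) ∨ BlkS U L E r s := by
  obtain ⟨-, -, -, -, rs⟩ := XT.nd6 h.nd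
  rcases hE with ⟨c, hc, hc1, rfl⟩ | ⟨f, hf, rfl⟩
  · rcases (h.lo hc hc1).L2 he (fun h1 => h.rsL (mem_inter.1 h1).1) (h.vf hc hc1) (h.symm.vf hc hc1) with
      h1 | ⟨h1, h2⟩ | ⟨h1, h2⟩ | h1
    · exact Or.inl (gm_of hc h1)
    · exact Or.inr (Or.inl ⟨gm_of hc h1, h2⟩)
    · exact Or.inr (Or.inr (Or.inl ⟨gm_of hc h1, h2⟩))
    · exact Or.inr (Or.inr (Or.inr ⟨c, hc, rfl, h1.1, h1.2.2⟩))
  · rw [mem_singleton] at he
    subst he
    exact Or.inl (gm_plain rs hf h.rsL)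

/-- both `xr` and `rs` at the same site -/
theorem BD.A3 (h : BD X P D j m S M CL U PL x y q p r s c1 L pl mi) {E : Finset (Sym2 ℕ)} (hE : Site U PL c1 E)
    (he : s(x, r) ∈ E) (he' : s(r, s) ∈ E) :
    GM X.V2 pl mi (Fr D (FL L)) U PL L E (ev x + ev r + (ev r + ev s)) ∨
      GM X.V2 pl mi (Fr D (FL L)) U PL L E (ev x + ev s) ∨ BlkS U L E r s := by
  obtain ⟨⟨xy, xq, xp, xr, xs⟩, -, -, -, rs⟩ := XT.nd6 h.nd
  rcases hE with ⟨c, hc, hc1, rfl⟩ | ⟨f, hf, rfl⟩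
  · rcases (h.lo hc hc1).L3 (h.nox hc hc1) he he' (fun h1 => h.rsL (mem_inter.1 h1).1) xs (h.vf hc hc1) with
      h1 | h1 | h1
    · exact Or.inl (gm_of hc h1)
    · exact Or.inr (Or.inl (gm_of hc h1))
    · exact Or.inr (Or.inr ⟨c, hc, rfl, h1.1, h1.2.2⟩)
  · exfalso
    rw [mem_singleton] at he he'
    rw [← he, Sym2.eq_iff] at he'
    rcases he' with ⟨h1, _⟩ | ⟨_, h1⟩
    · exact xr h1.symm
    · exact xs h1.symm

/-- both `xr` and `ys` at the same site -/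
theorem BD.A5 (h : BD X P D j m S M CL U PL x y q p r s c1 L pl mi) {E : Finset (Sym2 ℕ)} (hE : Site U PL c1 E)
    (he : s(x, r) ∈ E) (he' : s(y, s) ∈ E) :
    GM X.V2 pl mi (Fr D (FL L)) U PL L E (ev x + ev r + (ev y + ev s)) ∨
      GM X.V2 pl mi (Fr D (FL L)) U PL L E (ev x + ev y) := by
  obtain ⟨⟨xy, xq, xp, xr, xs⟩, ⟨yq, yp, yr, ys⟩, ⟨qp, qr, qs⟩, ⟨pr, ps⟩, rs⟩ := XT.nd6 h.nd
  rcases hE with ⟨c, hc, hc1, rfl⟩ | ⟨f, hf, rfl⟩
  · have hxy : s(x, y) ∉ c.edges := fun h1 =>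
      hc1 (h.pw.eqc hc h.c1U h1 (h.q1 (by simp [TFC.sq])))
    rcases (h.lo hc hc1).L5 (h.nox hc hc1) (h.symm.nox hc hc1) he he' hxy xy xs yr rs (h.vf hc hc1) with
      h1 | h1
    · exact Or.inl (gm_of hc h1)
    · exact Or.inr (gm_of hc h1)
  · exfalso
    rw [mem_singleton] at he he'
    rw [← he, Sym2.eq_iff] at he'
    rcases he' with ⟨h1, _⟩ | ⟨h1, _⟩
    · exact xy h1.symm
    · exact yr h1

/-! ### the start -/

theorem BD.acE (h : BD X P D j m S M CL U PL x y q p r s c1 L pl mi) : Acap D ((L ∩ c1.edges).erase s(x, y)) := by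
  have h1 := h.hLc
  refine ⟨h.w.m2.mono ((erase_subset _ _).trans inter_subset_left), fun Z hZ hs => ?_⟩
  have h2 := h.w.uni Z hZ (hs.trans ((erase_subset _ _).trans inter_subset_left))
  subst h2
  exact notMem_erase _ _ (hs (by simp [TFC.sq] : s(x, y) ∈ TFC.sq x y q p))

theorem BD.a1 (h : BD X P D j m S M CL U PL x y q p r s c1 L pl mi) {F : Finset (Sym2 ℕ)} (hF : Acap D F) :
    Fr D (FL L) c1 F := by
  refine Fr_of (fun hf => ?_) fun _ => hF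
  exact absurd (h.hLc.ge) (hf.2 _ (h.pw.isq _ h.hQ))

theorem BD.xyL (h : BD X P D j m S M CL U PL x y q p r s c1 L pl mi) : s(x, y) ∈ L ∩ c1.edges := by
  rw [h.hLc]; simp [TFC.sq]

theorem BD.b0 (h : BD X P D j m S M CL U PL x y q p r s c1 L pl mi) :
    RC X.V2 pl mi (Fr D (FL L)) U PL L (-ev x - ev y) c1.edges := by
  obtain ⟨⟨xy, xq, xp, xr, xs⟩, ⟨yq, yp, yr, ys⟩, ⟨qp, qr, qs⟩, ⟨pr, ps⟩, rs⟩ := XT.nd6 h.nd
  refine ⟨0, (ph_zero _ _ _).le, ?_⟩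
  refine h.pw.start h.c1U h.out ((erase_subset s(x, y) _).trans inter_subset_right) (h.a1 h.acE) ?_
  rw [TFC.dv_erase xy h.xyL]
  abel

theorem BD.nr (h : BD X P D j m S M CL U PL x y q p r s c1 L pl mi) (w : ℕ) :
    s(r, w) ∉ (L ∩ c1.edges).erase s(x, y) := by
  intro hc
  have h1 := mem_of_mem_erase hc
  rw [h.hLc] at h1
  exact (h.notQ h1).1 (by simp)

theorem BD.dx (h : BD X P D j m S M CL U PL x y q p r s c1 L pl mi) :
    dg ((L ∩ c1.edges).erase s(x, y)) x ≤ 1 := by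
  have h1 := dg_erase h.xyL x
  rw [if_pos (by simp)] at h1
  have h2 := h.w.m2.le x
  have h3 : dg (L ∩ c1.edges) x ≤ dg L x := dg_mono inter_subset_left x
  omega

theorem BD.dy (h : BD X P D j m S M CL U PL x y q p r s c1 L pl mi) :
    dg ((L ∩ c1.edges).erase s(x, y)) y ≤ 1 := by
  have h1 := dg_erase h.xyL y
  rw [if_pos (by simp)] at h1
  have h2 := h.w.m2.le y
  have h3 : dg (L ∩ c1.edges) y ≤ dg L y := dg_mono inter_subset_left y
  omega

theorem BD.bx (h : BD X P D j m S M CL U PL x y q p r s c1 L pl mi) (he : s(x, r) ∈ c1.edges) :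
    RC X.V2 pl mi (Fr D (FL L)) U PL L (-ev x - ev y + (ev x + ev r)) c1.edges := by
  obtain ⟨⟨xy, xq, xp, xr, xs⟩, ⟨yq, yp, yr, ys⟩, ⟨qp, qr, qs⟩, ⟨pr, ps⟩, rs⟩ := XT.nd6 h.nd
  refine ⟨0, (ph_zero _ _ _).le, ?_⟩
  have hA := acap_ins h.pw.isq h.acE xr.symm h.nr h.dx
  refine h.pw.start h.c1U h.out (F := insert s(r, x) ((L ∩ c1.edges).erase s(x, y)))
    (insert_subset (by rw [Sym2.eq_swap]; exact he) ((erase_subset s(x, y) _).trans inter_subset_right))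
    (h.a1 hA) ?_
  rw [TFC.dv_insert xr.symm (h.nr x), TFC.dv_erase xy h.xyL]
  abel

theorem BD.bxy (h : BD X P D j m S M CL U PL x y q p r s c1 L pl mi) (he : s(x, r) ∈ c1.edges)
    (he' : s(y, s) ∈ c1.edges) :
    RC X.V2 pl mi (Fr D (FL L)) U PL L (-ev x - ev y + (ev x + ev r) + (ev y + ev s)) c1.edges := by
  obtain ⟨⟨xy, xq, xp, xr, xs⟩, ⟨yq, yp, yr, ys⟩, ⟨qp, qr, qs⟩, ⟨pr, ps⟩, rs⟩ := XT.nd6 h.nd
  refine ⟨0, (ph_zero _ _ _).le, ?_⟩
  have hA := acap_ins h.pw.isq h.acE xr.symm h.nr h.dx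
  have hns : ∀ w, s(s, w) ∉ insert s(r, x) ((L ∩ c1.edges).erase s(x, y)) := by
    intro w hc
    rcases mem_insert.1 hc with h1 | h1
    · have h2 : s ∈ s(r, x) := by rw [← h1]; simp
      rcases Sym2.mem_iff.1 h2 with h2 | h2
      · exact rs h2.symm
      · exact xs h2.symm
    · have h2 := mem_of_mem_erase h1
      rw [h.hLc] at h2
      exact (h.notQ h2).2 (by simp)
  have hdy : dg (insert s(r, x) ((L ∩ c1.edges).erase s(x, y))) y ≤ 1 := by
    refine (dg_ins_off' ?_).trans h.dy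
    rw [Sym2.mem_iff]
    rintro (h1 | h1)
    · exact yr h1
    · exact xy h1.symm
  have hA2 := acap_ins h.pw.isq hA ys.symm hns hdy
  refine h.pw.start h.c1U h.out (F := insert s(s, y) (insert s(r, x) ((L ∩ c1.edges).erase s(x, y))))
    (insert_subset (by rw [Sym2.eq_swap]; exact he')
      (insert_subset (by rw [Sym2.eq_swap]; exact he) ((erase_subset s(x, y) _).trans inter_subset_right)))
    (h.a1 hA2) ?_
  rw [TFC.dv_insert ys.symm (hns y), TFC.dv_insert xr.symm (h.nr x), TFC.dv_erase xy h.xyL]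
  abel

/-! ### the assembly -/

theorem BD.deg (h : BD X P D j m S M CL U PL x y q p r s c1 L pl mi) {E E' : Finset (Sym2 ℕ)}
    (hd : Disjoint E E') (v : ℕ) : dg (L ∩ E) v + dg (L ∩ E') v ≤ 2 := by
  have h1 : Disjoint (L ∩ E) (L ∩ E') := hd.mono inter_subset_right inter_subset_right
  rw [← dg_union h1]
  exact (dg_mono (union_subset inter_subset_left inter_subset_left) v).trans (h.w.m2.le v)

/-- the base is `r + s` and the site of `rs` is new -/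
theorem BD.endA (h : BD X P D j m S M CL U PL x y q p r s c1 L pl mi) {τ E : Finset (Sym2 ℕ)}
    (hR : RC X.V2 pl mi (Fr D (FL L)) U PL L (ev r + ev s) τ) (hE : Site U PL c1 E) (he : s(r, s) ∈ E)
    (hd : Disjoint E τ) : BlkS U L E r s := by
  rcases h.A2 hE he with h1 | ⟨h1, -⟩ | ⟨h1, -⟩ | h1
  · exact (h.fin (h.step hR hd h1) (α := 2) (β := 2) (Or.inr rfl) (Or.inr rfl) (by module)).elim
  · exact (h.fin (h.step hR hd h1) (α := 2) (β := 0) (Or.inr rfl) (Or.inl rfl) (by module)).elim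
  · exact (h.fin (h.step hR hd h1) (α := 0) (β := 2) (Or.inl rfl) (Or.inr rfl) (by module)).elim
  · exact h1

/-- the base is `r + s` or `r - s` with both edges at `s` used; the site of `rs` is new -/
theorem BD.endB (h : BD X P D j m S M CL U PL x y q p r s c1 L pl mi) {τ E : Finset (Sym2 ℕ)}
    (hR : RC X.V2 pl mi (Fr D (FL L)) U PL L (ev r - ev s) τ) (hE : Site U PL c1 E) (he : s(r, s) ∈ E)
    (hd : Disjoint E τ) (hs : dg (L ∩ E) s = 0) : BlkS U L E r s := by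
  rcases h.A2 hE he with h1 | ⟨h1, h2⟩ | ⟨h1, -⟩ | h1
  · exact (h.fin (h.step hR hd h1) (α := 2) (β := 0) (Or.inr rfl) (Or.inl rfl) (by module)).elim
  · omega
  · exact (h.fin (h.step hR hd h1) (α := 0) (β := 0) (Or.inl rfl) (Or.inl rfl) (by module)).elim
  · exact h1

theorem BlkS.flip {E : Finset (Sym2 ℕ)} (h : BlkS U L E s r) : BlkS U L E r s := by
  obtain ⟨c, hc, hE, hk, a, b, ⟨n1, n2, n3, n4, n5, n6⟩, h1, h2, h3⟩ := h
  refine ⟨c, hc, hE, hk, b, a, ⟨n6.symm, n5.symm, n3.symm, n4.symm, n2.symm, n1.symm⟩, ?_, ?_, ?_⟩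
  · rw [Sym2.eq_swap]; exact h3
  · rw [Sym2.eq_swap]; exact h2
  · rw [Sym2.eq_swap]; exact h1

/-- both signs negative -/
theorem BD.endC (h : BD X P D j m S M CL U PL x y q p r s c1 L pl mi) {τ E : Finset (Sym2 ℕ)}
    (hR : RC X.V2 pl mi (Fr D (FL L)) U PL L (-ev r - ev s) τ) (hE : Site U PL c1 E) (he : s(r, s) ∈ E)
    (hd : Disjoint E τ) (hr : dg (L ∩ E) r = 0) (hs : dg (L ∩ E) s = 0) : BlkS U L E r s := by
  rcases h.A2 hE he with h1 | ⟨h1, h2⟩ | ⟨h1, h2⟩ | h1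
  · exact (h.fin (h.step hR hd h1) (α := 0) (β := 0) (Or.inl rfl) (Or.inl rfl) (by module)).elim
  · omega
  · omega
  · exact h1

/-- `x` done, `y` and the link at different sites -/
theorem BD.endY (h : BD X P D j m S M CL U PL x y q p r s c1 L pl mi) {τ E2 E3 : Finset (Sym2 ℕ)}
    (hR : RC X.V2 pl mi (Fr D (FL L)) U PL L (ev r - ev y) τ) (hE2 : Site U PL c1 E2) (he2 : s(y, s) ∈ E2)
    (hE3 : Site U PL c1 E3) (he3 : s(r, s) ∈ E3) (hne : E2 ≠ E3) (hd2 : Disjoint E2 τ) (hd3 : Disjoint E3 τ) :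
    BlkS U L E3 r s := by
  have hd23 := h.site_disj hE2 hE3 hne
  have hd : Disjoint E3 (τ ∪ E2) := Finset.disjoint_union_right.2 ⟨hd3, hd23.symm⟩
  have hdeg := h.deg hd23 s
  rcases h.symm.A1 hE2 he2 with h1 | ⟨h1, h2⟩
  · have h3 := h.step hR hd2 h1
    have e : ev r - ev y + (ev y + ev s) = ev r + ev s := by module
    rw [e] at h3
    exact h.endA h3 hE3 he3 hd
  · have h3 := h.step hR hd2 h1
    have e : ev r - ev y + (ev y - ev s) = ev r - ev s := by module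
    rw [e] at h3
    exact h.endB h3 hE3 he3 hd (by omega)

/-- `xr` in the cluster of `Q`, `ys` not -/
theorem BD.caseA (h : BD X P D j m S M CL U PL x y q p r s c1 L pl mi) (h1 : s(x, r) ∈ c1.edges)
    (h2 : s(y, s) ∉ c1.edges) {E3 : Finset (Sym2 ℕ)} (hE3 : Site U PL c1 E3) (he3 : s(r, s) ∈ E3) :
    BlkS U L E3 r s := by
  obtain ⟨E2, hE2, he2⟩ := h.siteOf (h.wa.reg h.yS h.ys (by simp)) h2
  have hb := h.bx h1
  have e : -ev x - ev y + (ev x + ev r) = ev r - ev y := by module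
  rw [e] at hb
  by_cases h3 : E2 = E3
  · subst h3
    rcases h.symm.A3 hE2 he2 (by rw [Sym2.eq_swap]; exact he3) with h4 | h4 | h4
    · exact (h.fin (h.step hb (h.site_c1 hE2) h4) (α := 2) (β := 2) (Or.inr rfl) (Or.inr rfl) (by module)).elim
    · exact (h.fin (h.step hb (h.site_c1 hE2) h4) (α := 2) (β := 0) (Or.inr rfl) (Or.inl rfl) (by module)).elim
    · exact h4.flip
  · exact h.endY hb hE2 he2 hE3 he3 h3 (h.site_c1 hE2) (h.site_c1 hE3)

/-- the three edges are not in one other cluster -/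
theorem BD.three (h : BD X P D j m S M CL U PL x y q p r s c1 L pl mi) {E : Finset (Sym2 ℕ)}
    (hE : Site U PL c1 E) (h1 : s(x, r) ∈ E) (h2 : s(y, s) ∈ E) (h3 : s(r, s) ∈ E) : False := by
  obtain ⟨⟨xy, xq, xp, xr, xs⟩, ⟨yq, yp, yr, ys⟩, ⟨qp, qr, qs⟩, ⟨pr, ps⟩, rs⟩ := XT.nd6 h.nd
  rcases hE with ⟨c, hc, hc1, rfl⟩ | ⟨f, hf, rfl⟩
  · have hxy : s(x, y) ∉ c.edges := fun h1 =>
      hc1 (h.pw.eqc hc h.c1U h1 (h.q1 (by simp [TFC.sq])))
    apply hxy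
    cases c with
    | k4 Y =>
      rw [mem_k4] at h1 h2 h3 ⊢
      exact ⟨h1.1, h2.1, xy⟩
    | k2 a b Λ =>
      have hv := h.pw.val' hc
      obtain ⟨hab, ha, hb, _⟩ : a ≠ b ∧ a ∉ Λ ∧ b ∉ Λ ∧ 2 ≤ #Λ := hv
      have cl : ∀ v, (v = a ∨ v = b) → v ∉ Λ := by
        rintro v (rfl | rfl)
        · exact ha
        · exact hb
      rw [mem_k2] at h1 h2 h3 ⊢
      rcases h1 with ⟨g1, g2⟩ | ⟨g1, g2⟩
      · rcases h3 with ⟨g3, g4⟩ | ⟨g3, g4⟩
        · exact absurd g2 (cl r g3)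
        · rcases h2 with ⟨g5, g6⟩ | ⟨g5, g6⟩
          · exact absurd g6 (cl s g3)
          · exact Or.inl ⟨g1, g6⟩
      · rcases h3 with ⟨g3, g4⟩ | ⟨g3, g4⟩
        · rcases h2 with ⟨g5, g6⟩ | ⟨g5, g6⟩
          · exact Or.inr ⟨g5, g2⟩
          · exact absurd g4 (cl s g5)
        · exact absurd g4 (cl r g1)
  · rw [mem_singleton] at h1 h3
    rw [← h1, Sym2.eq_iff] at h3
    rcases h3 with ⟨h3, _⟩ | ⟨_, h3⟩
    · exact xr h3.symm
    · exact xs h3.symm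

/-- `xr` and `rs` at one site, `ys` at another -/
theorem BD.caseB (h : BD X P D j m S M CL U PL x y q p r s c1 L pl mi) {E1 E2 : Finset (Sym2 ℕ)}
    (hE1 : Site U PL c1 E1) (he1 : s(x, r) ∈ E1) (hE2 : Site U PL c1 E2) (he2 : s(y, s) ∈ E2)
    (he3 : s(r, s) ∈ E1) (hne : E1 ≠ E2) : BlkS U L E1 r s := by
  have hd := h.site_disj hE1 hE2 hne
  have hb := h.b0
  have hd2 : Disjoint E2 (c1.edges ∪ E1) := Finset.disjoint_union_right.2 ⟨h.site_c1 hE2, hd.symm⟩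
  rcases h.A3 hE1 he1 he3 with h4 | h4 | h4
  · have h5 := h.step hb (h.site_c1 hE1) h4
    rcases h.symm.A1 hE2 he2 with h6 | ⟨h6, -⟩
    · exact (h.fin (h.step h5 hd2 h6) (α := 2) (β := 2) (Or.inr rfl) (Or.inr rfl) (by module)).elim
    · exact (h.fin (h.step h5 hd2 h6) (α := 2) (β := 0) (Or.inr rfl) (Or.inl rfl) (by module)).elim
  · have h5 := h.step hb (h.site_c1 hE1) h4
    rcases h.symm.A1 hE2 he2 with h6 | ⟨h6, -⟩
    · exact (h.fin (h.step h5 hd2 h6) (α := 0) (β := 2) (Or.inl rfl) (Or.inr rfl) (by module)).elim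
    · exact (h.fin (h.step h5 hd2 h6) (α := 0) (β := 0) (Or.inl rfl) (Or.inl rfl) (by module)).elim
  · exact h4

/-- neither `xr` nor `ys` in the cluster of `Q` -/
theorem BD.caseN (h : BD X P D j m S M CL U PL x y q p r s c1 L pl mi) (h1 : s(x, r) ∉ c1.edges)
    (h2 : s(y, s) ∉ c1.edges) {E3 : Finset (Sym2 ℕ)} (hE3 : Site U PL c1 E3) (he3 : s(r, s) ∈ E3) :
    BlkS U L E3 r s := by
  obtain ⟨E1, hE1, he1⟩ := h.siteOf (h.wa.reg h.xS h.xr (by simp)) h1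
  obtain ⟨E2, hE2, he2⟩ := h.siteOf (h.wa.reg h.yS h.ys (by simp)) h2
  have hb := h.b0
  have hc1 := h.site_c1 hE1
  have hc2 := h.site_c1 hE2
  have hc3 := h.site_c1 hE3
  by_cases h12 : E1 = E2
  · subst h12
    have h13 : E1 ≠ E3 := by
      rintro rfl
      exact h.three hE1 he1 he2 he3
    have hd : Disjoint E3 (c1.edges ∪ E1) :=
      Finset.disjoint_union_right.2 ⟨hc3, (h.site_disj hE1 hE3 h13).symm⟩
    rcases h.A5 hE1 he1 he2 with h4 | h4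
    · have h5 := h.step hb hc1 h4
      have e : -ev x - ev y + (ev x + ev r + (ev y + ev s)) = ev r + ev s := by module
      rw [e] at h5
      exact h.endA h5 hE3 he3 hd
    · exact (h.fin (h.step hb hc1 h4) (α := 0) (β := 0) (Or.inl rfl) (Or.inl rfl) (by module)).elim
  · by_cases h13 : E1 = E3
    · subst h13
      exact h.caseB hE1 he1 hE2 he2 he3 h12
    · by_cases h23 : E2 = E3
      · subst h23
        exact (h.symm.caseB hE2 he2 hE1 he1 (by rw [Sym2.eq_swap]; exact he3) (Ne.symm h12)).flip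
      · have d12 := h.site_disj hE1 hE2 h12
        have d13 := h.site_disj hE1 hE3 h13
        have d23 := h.site_disj hE2 hE3 h23
        have hd2 : Disjoint E2 (c1.edges ∪ E1) := Finset.disjoint_union_right.2 ⟨hc2, d12.symm⟩
        have hd3 : Disjoint E3 (c1.edges ∪ E1) := Finset.disjoint_union_right.2 ⟨hc3, d13.symm⟩
        rcases h.A1 hE1 he1 with h4 | ⟨h4, g4⟩
        · have h5 := h.step hb hc1 h4
          have e : -ev x - ev y + (ev x + ev r) = ev r - ev y := by module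
          rw [e] at h5
          exact h.endY h5 hE2 he2 hE3 he3 h23 hd2 hd3
        · have h5 := h.step hb hc1 h4
          have hdr := h.deg d13 r
          have hds := h.deg d23 s
          have hd : Disjoint E3 (c1.edges ∪ E1 ∪ E2) := Finset.disjoint_union_right.2 ⟨hd3, d23.symm⟩
          rcases h.symm.A1 hE2 he2 with h6 | ⟨h6, g6⟩
          · have h7 := h.step h5 hd2 h6
            have e : -ev x - ev y + (ev x - ev r) + (ev y + ev s) = ev s - ev r := by module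
            rw [e] at h7
            exact (h.symm.endB h7 hE3 (by rw [Sym2.eq_swap]; exact he3) hd (by omega)).flip
          · have h7 := h.step h5 hd2 h6
            have e : -ev x - ev y + (ev x - ev r) + (ev y - ev s) = -ev r - ev s := by module
            rw [e] at h7
            exact h.endC h7 hE3 he3 hd (by omega) (by omega)

/-- **the block** at the site of `rs` -/
theorem BD.blk (h : BD X P D j m S M CL U PL x y q p r s c1 L pl mi) : ∃ E, s(r, s) ∈ E ∧ BlkS U L E r s := by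
  have hrs1 : s(r, s) ∉ c1.edges := by
    intro hc
    obtain ⟨f, hf, v, hv, hvf⟩ := cl_touch (h.pw.val' h.c1U) (h.pw.isq _ h.hQ) h.q1 hc
    obtain ⟨n1, n2⟩ := h.notQ hf
    rcases Sym2.mem_iff.1 hv with rfl | rfl
    · exact n1 hvf
    · exact n2 hvf
  obtain ⟨E3, hE3, he3⟩ := h.siteOf (h.wa.reg h.rS h.rs (by simp)) hrs1
  refine ⟨E3, he3, ?_⟩
  by_cases a : s(x, r) ∈ c1.edges
  · by_cases b : s(y, s) ∈ c1.edges
    · have hb := h.bxy a b
      have e : -ev x - ev y + (ev x + ev r) + (ev y + ev s) = ev r + ev s := by module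
      rw [e] at hb
      exact h.endA hb hE3 he3 (h.site_c1 hE3)
    · exact h.caseA a b hE3 he3
  · by_cases b : s(y, s) ∈ c1.edges
    · exact (h.symm.caseA b a hE3 (by rw [Sym2.eq_swap]; exact he3)).flip
    · exact h.caseN a b hE3 he3

end

/-! ### `rs` is not in the witness -/

/-- no square through `xr` -/
theorem nosq {K Z : Finset (Sym2 ℕ)} {x y q p r : ℕ} (hx : ∀ w, s(x, w) ∈ K → w = r ∨ w = p)
    (hp : ∀ w, s(p, w) ∈ K → w = x ∨ w = q) (hq : ∀ w, s(q, w) ∈ K → w = p ∨ w = y) (rp : r ≠ p) (ry : r ≠ y)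
    (hZ : IsSq Z) (hs : Z ⊆ K) : s(x, r) ∉ Z := by
  intro he
  obtain ⟨a, b, ⟨n1, n2, n3, n4, n5, n6⟩, rfl⟩ := sq_edge hZ he
  have h1 := hx a (hs (by simp [TFC.sq]))
  have ha : a = p := h1.resolve_left n5
  subst ha
  have h2 := hp b (hs (by simp [TFC.sq]))
  have hb : b = q := h2.resolve_left n2.symm
  subst hb
  rcases hq r (hs (by simp [TFC.sq])) with h3 | h3
  · exact rp h3
  · exact ry h3

/-- edges at the corners of the square -/
theorem corner {X : XD} {P : ℕ → Finset (Sym2 ℕ) → Prop} {D : Finset (Finset (Sym2 ℕ))} {j : ℕ}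
    (hD : ∀ Z ∈ D, IsSq Z) {x y q p r s : ℕ} (nd : [x, y, q, p, r, s].Nodup) (hQ : TFC.sq x y q p ∈ D)
    {L K : Finset (Sym2 ℕ)} (hL : Wt X P D j (TFC.sq x y q p) L)
    (hK : ∀ g ∈ K, g ∈ L ∨ g = s(x, r) ∨ g = s(y, s)) (hxy : s(x, y) ∉ K) :
    (∀ w, s(x, w) ∈ K → w = r ∨ w = p) ∧ (∀ w, s(p, w) ∈ K → w = x ∨ w = q) ∧
      (∀ w, s(q, w) ∈ K → w = p ∨ w = y) := by
  obtain ⟨⟨xy, xq, xp, xr, xs⟩, ⟨yq, yp, yr, ys⟩, ⟨qp, qr, qs⟩, ⟨pr, ps⟩, rs⟩ := XT.nd6 nd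
  have hm : s(x, y) ∈ TFC.sq x y q p := by simp [TFC.sq]
  have hm2 : s(q, p) ∈ TFC.sq x y q p := by simp [TFC.sq]
  refine ⟨fun w hw => ?_, fun w hw => ?_, fun w hw => ?_⟩
  · rcases hK _ hw with h1 | h1 | h1
    · have h2 := hL.at hD hQ hm (by simp : x ∈ s(x, y)) h1 (by simp)
      rcases sq_nb ⟨xy, xq, xp, yq, yp, qp⟩ h2 with h3 | h3
      · rw [h3] at hw
        exact absurd hw hxy
      · exact Or.inr h3
    · exact Or.inl (Sym2.congr_right.1 h1)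
    · exfalso
      have h2 : x ∈ s(y, s) := by rw [← h1]; simp
      rcases Sym2.mem_iff.1 h2 with h2 | h2
      · exact xy h2
      · exact xs h2
  · rcases hK _ hw with h1 | h1 | h1
    · have h2 := hL.at hD hQ hm2 (by simp : p ∈ s(q, p)) h1 (by simp)
      rw [XT.sq_rot, XT.sq_rot, XT.sq_rot] at h2
      exact sq_nb ⟨xp.symm, yp.symm, qp.symm, xy, xq, yq⟩ h2
    · exfalso
      have h2 : p ∈ s(x, r) := by rw [← h1]; simp
      rcases Sym2.mem_iff.1 h2 with h2 | h2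
      · exact xp h2.symm
      · exact pr h2
    · exfalso
      have h2 : p ∈ s(y, s) := by rw [← h1]; simp
      rcases Sym2.mem_iff.1 h2 with h2 | h2
      · exact yp h2.symm
      · exact ps h2
  · rcases hK _ hw with h1 | h1 | h1
    · have h2 := hL.at hD hQ hm2 (by simp : q ∈ s(q, p)) h1 (by simp)
      rw [XT.sq_rot, XT.sq_rot] at h2
      exact sq_nb ⟨qp, xq.symm, yq.symm, xp.symm, yp.symm, xy⟩ h2
    · exfalso
      have h2 : q ∈ s(x, r) := by rw [← h1]; simp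
      rcases Sym2.mem_iff.1 h2 with h2 | h2
      · exact xq h2.symm
      · exact qr h2
    · exfalso
      have h2 : q ∈ s(y, s) := by rw [← h1]; simp
      rcases Sym2.mem_iff.1 h2 with h2 | h2
      · exact yq h2.symm
      · exact qs h2

/-- **`rs` is not in the witness** -/
theorem rs_notin {X : XD} {P : ℕ → Finset (Sym2 ℕ) → Prop} {D : Finset (Finset (Sym2 ℕ))} {j m : ℕ} {S : Finset ℕ}
    {M : ℕ → Finset (Sym2 ℕ)} {CL U : List (Clu ℕ)} {PL : Finset (Sym2 ℕ)} (wa : WA X P D j m S M CL U PL)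
    {x y q p r s : ℕ} (nd : [x, y, q, p, r, s].Nodup) (xS : x ∈ S) (yS : y ∈ S) (rS : r ∈ S)
    (hQ : TFC.sq x y q p ∈ D) (hxr : s(x, r) ∈ X.E) (hrs : s(r, s) ∈ X.E) (hys : s(y, s) ∈ X.E)
    {L : Finset (Sym2 ℕ)} (hL : Wt X P D j (TFC.sq x y q p) L) {c1 : Clu ℕ} (c1U : c1 ∈ U)
    (q1 : TFC.sq x y q p ⊆ c1.edges) : s(r, s) ∉ L := by
  intro hrsL
  obtain ⟨pl, mi, hw, -⟩ := wa.fr (fun _ => False) fun _ h => h.elim
  have nd0 := nd
  obtain ⟨⟨xy, xq, xp, xr, xs⟩, ⟨yq, yp, yr, ys⟩, ⟨qp, qr, qs⟩, ⟨pr, ps⟩, rs⟩ := XT.nd6 nd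
  have hxrW := wa.reg xS hxr (by simp)
  have hysW := wa.reg yS hys (by simp)
  have hrsW := wa.reg rS hrs (by simp)
  have hxyQ : s(x, y) ∈ TFC.sq x y q p := by simp [TFC.sq]
  have hxyW : s(x, y) ∈ Ucl U ∪ PL := hw.cW' c1U (q1 hxyQ)
  set K0 : Finset (Sym2 ℕ) := ((L ∩ (Ucl U ∪ PL)).erase s(x, y)).erase s(r, s) with hK0
  set K : Finset (Sym2 ℕ) := insert s(y, s) (insert s(x, r) K0) with hKd
  have K0L : K0 ⊆ L := (erase_subset _ _).trans ((erase_subset _ _).trans inter_subset_left)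
  have K0W : K0 ⊆ Ucl U ∪ PL := (erase_subset _ _).trans ((erase_subset _ _).trans inter_subset_right)
  have hKW : K ⊆ Ucl U ∪ PL := insert_subset hysW (insert_subset hxrW K0W)
  have hK : ∀ g ∈ K, g ∈ L ∨ g = s(x, r) ∨ g = s(y, s) := by
    intro g hg
    rcases mem_insert.1 hg with h1 | h1
    · exact Or.inr (Or.inr h1)
    · rcases mem_insert.1 h1 with h2 | h2
      · exact Or.inr (Or.inl h2)
      · exact Or.inl (K0L h2)
  have notQ : ∀ {g : Sym2 ℕ}, g ∈ TFC.sq x y q p → r ∉ g ∧ s ∉ g := by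
    intro g hg
    constructor
    · intro hv
      rcases sq_vert hg hv with h3 | h3 | h3 | h3
      · exact xr h3.symm
      · exact yr h3.symm
      · exact qr h3.symm
      · exact pr h3.symm
    · intro hv
      rcases sq_vert hg hv with h3 | h3 | h3 | h3
      · exact xs h3.symm
      · exact ys h3.symm
      · exact qs h3.symm
      · exact ps h3.symm
  have nxr : s(x, r) ∉ L := fun hc =>
    (notQ (hL.at hw.isq hQ hxyQ (by simp : x ∈ s(x, y)) hc (by simp))).1 (by simp)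
  have nys : s(y, s) ∉ L := fun hc =>
    (notQ (hL.at hw.isq hQ hxyQ (by simp : y ∈ s(x, y)) hc (by simp))).2 (by simp)
  have nys' : s(y, s) ∉ insert s(x, r) K0 := by
    intro hc
    rcases mem_insert.1 hc with h1 | h1
    · have h2 : y ∈ s(x, r) := by rw [← h1]; simp
      rcases Sym2.mem_iff.1 h2 with h2 | h2
      · exact xy h2.symm
      · exact yr h2
    · exact nys (K0L h1)
  have hxyK : s(x, y) ∉ K := by
    intro hc
    rcases mem_insert.1 hc with h1 | h1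
    · rw [Sym2.eq_iff] at h1
      rcases h1 with ⟨h1, _⟩ | ⟨h1, _⟩
      · exact xy h1
      · exact xs h1
    · rcases mem_insert.1 h1 with h2 | h2
      · exact yr (Sym2.congr_right.1 h2)
      · exact (mem_erase.1 (mem_erase.1 h2).2).1 rfl
  have hxyL : s(x, y) ∈ L ∩ (Ucl U ∪ PL) := mem_inter.2 ⟨hL.sq hxyQ, hxyW⟩
  have hrsL' : s(r, s) ∈ (L ∩ (Ucl U ∪ PL)).erase s(x, y) := by
    refine mem_erase.2 ⟨?_, mem_inter.2 ⟨hrsL, hrsW⟩⟩
    rw [ne_eq, Sym2.eq_iff]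
    rintro (⟨h1, _⟩ | ⟨h1, _⟩)
    · exact xr h1.symm
    · exact yr h1.symm
  have hdv : dv K = dv (L ∩ (Ucl U ∪ PL)) + 0 := by
    rw [hKd, TFC.dv_insert ys nys', TFC.dv_insert xr fun hc => nxr (K0L hc), hK0, TFC.dv_erase rs hrsL',
      TFC.dv_erase xy hxyL]
    abel
  have hM : M2 K := by
    refine M2.of_dv (hw.nl hKW) fun v => ?_
    rw [hdv, add_zero]
    have := (hL.m2.mono (inter_subset_left : L ∩ (Ucl U ∪ PL) ⊆ L)).le v
    show (dg (L ∩ (Ucl U ∪ PL)) v : ℤ) ≤ 2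
    exact_mod_cast this
  have hfree : ∀ Z ∈ D, ¬ Z ⊆ K := by
    intro Z hZ hs
    obtain ⟨a1, a2, a3⟩ := corner hw.isq nd hQ hL hK hxyK
    have nd' : [y, x, p, q, s, r].Nodup := by
      simp only [List.nodup_cons, List.mem_cons, List.not_mem_nil, or_false, not_or, List.nodup_nil, and_true,
        not_false_eq_true]
      exact ⟨⟨xy.symm, yp, yq, ys, yr⟩, ⟨xp, xq, xs, xr⟩, ⟨qp.symm, ps, pr⟩, ⟨qs, qr⟩, rs.symm⟩
    obtain ⟨b1, b2, b3⟩ := corner hw.isq nd' (by rw [sq_mir]; exact hQ) (by rw [sq_mir]; exact hL)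
      (fun g hg => by rcases hK g hg with h | h | h <;> tauto) (by rw [Sym2.eq_swap]; exact hxyK)
    have c1' := nosq a1 a2 a3 pr.symm yr.symm (hw.isq Z hZ) hs
    have c2' := nosq b1 b2 b3 qs.symm xs.symm (hw.isq Z hZ) hs
    have h1 : Z ⊆ L := by
      intro g hg
      rcases hK g (hs hg) with h | h | h
      · exact h
      · rw [h] at hg; exact absurd hg c1'
      · rw [h] at hg; exact absurd hg c2'
    have h2 := hL.uni Z hZ h1
    rw [h2] at hs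
    exact hxyK (hs hxyQ)
  have hAU : AU (Fr D fun _ => False) U PL K := by
    refine ⟨hKW, fun c hc => ?_⟩
    rw [Fr_neg fun h => h]
    exact ⟨hM.mono inter_subset_left, fun Z hZ hs => hfree Z hZ (hs.trans inter_subset_left)⟩
  have h5 := hw.ev hQ hL c1U q1 hAU hdv
  rw [ph_zero] at h5
  omega

/-- **Lemma P, first part** -/
theorem block {X : XD} {P : ℕ → Finset (Sym2 ℕ) → Prop} {D : Finset (Finset (Sym2 ℕ))} {j m : ℕ} {S : Finset ℕ}
    {M : ℕ → Finset (Sym2 ℕ)} {CL U : List (Clu ℕ)} {PL : Finset (Sym2 ℕ)} (wa : WA X P D j m S M CL U PL) :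
    Block X P D j S U := by
  intro x y q p r s nd xS yS rS sS xT yT rT sT hQ hxr hrs hys L hL
  obtain ⟨c1, c1U, q1⟩ := clq wa hQ (e := s(x, y)) (by simp [TFC.sq]) xS (by simp)
  have hrsL := rs_notin wa nd xS yS rS hQ hxr hrs hys hL c1U q1
  refine ⟨hrsL, ?_⟩
  obtain ⟨pl, mi, hw, hmi⟩ := wa.fr (FL L) fun c hc => hc.1
  obtain ⟨E, hE, c, hc, rfl, hk, hb⟩ := (BD.blk ⟨wa, nd, xS, yS, rS, sS, rT, sT, hQ, hxr, hrs, hys, hL, c1U, q1,
    hrsL, hw, hmi⟩ : ∃ E, s(r, s) ∈ E ∧ BlkS U L E r s)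
  exact ⟨c, hc, hk, hE, hb⟩

/-- **Lemma P** -/
theorem lp {X : XD} {P : ℕ → Finset (Sym2 ℕ) → Prop} {D : Finset (Finset (Sym2 ℕ))} {j m : ℕ} {S : Finset ℕ}
    {M : ℕ → Finset (Sym2 ℕ)} {CL U : List (Clu ℕ)} {PL : Finset (Sym2 ℕ)} (wa : WA X P D j m S M CL U PL) :
    LP X P D j S U := lp_of wa (block wa)

end Pool.Agent.PF4.XLR

end
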