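import Pool.Agent.PFM.Step
import Pool.Agent.PFV.Res

/-! The marked theorem. -/

set_option autoImplicit false

namespace Pool.Agent.PFM

variable {ι G : Type} [Group G]

/-- a finite set is separated by one member of a descending family of subgroups with trivial
intersection -/
theorem separate {G : Type} [Group G] (K : ℕ → Subgroup G) (hK : Antitone K) (hres : ⨅ n, K n = ⊥) (S : Finset G) :
    ∃ n, ∀ a ∈ S, ∀ b ∈ S, a⁻¹ * b ∈ K n → a = b := by
  classical
  have h1 : ∀ p : G × G, ∃ n, p.1 ≠ p.2 → p.1⁻¹ * p.2 ∉ K n := by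
    intro p
    by_cases h : p.1 = p.2
    · exact ⟨0, fun h' => absurd h h'⟩
    · have h2 : p.1⁻¹ * p.2 ∉ ⨅ n, K n := by
        rw [hres, Subgroup.mem_bot, inv_mul_eq_one]
        exact h
      rw [Subgroup.mem_iInf] at h2
      push Not at h2
      obtain ⟨n, hn⟩ := h2
      exact ⟨n, fun _ => hn⟩
  choose f hf using h1
  refine ⟨(S ×ˢ S).sup f, ?_⟩
  intro a ha b hb hab
  by_contra hne
  have h3 : f (a, b) ≤ (S ×ˢ S).sup f := Finset.le_sup (f := f) (Finset.mem_product.2 ⟨ha, hb⟩)
  exact hf (a, b) hne (hK h3 hab)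

/-- all Fox images are trivial units and all free soluble quotients embed -/
theorem all_levels (π : FreeGroup (Option ι) →* G) (hπ : Function.Surjective π) (r : FreeGroup (Option ι))
    (hr : π.ker = Subgroup.normalClosure {r})
    (h2 : ∀ n, (incl ι).range ⊔ (pp π n).ker = ⊤) (n : ℕ) :
    (∀ w : FreeGroup ι, incl ι w ∈ (pp π n).ker → w ∈ derivedSeries (FreeGroup ι) n) ∧
    (∃ (q : G ⧸ derivedSeries G n) (e : ℤ), IsUnit e ∧ PP π n (fox r) = MonoidAlgebra.single q e) := by
  have hsecond : ∀ n, (∀ w : FreeGroup ι, incl ι w ∈ (pp π n).ker → w ∈ derivedSeries (FreeGroup ι) n) →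
      (∃ (q : G ⧸ derivedSeries G n) (e : ℤ), IsUnit e ∧ PP π n (fox r) = MonoidAlgebra.single q e) := by
    intro n hinj
    have hle : derivedSeries (FreeGroup ι) n ≤ ((pp π n).comp (incl ι)).ker := by
      intro x hx
      rw [MonoidHom.mem_ker]
      have h3 := map_derivedSeries_le_derivedSeries (π.comp (incl ι)) n ⟨x, hx, rfl⟩
      exact (QuotientGroup.eq_one_iff _).2 h3
    let j : FreeGroup ι ⧸ derivedSeries (FreeGroup ι) n →* G ⧸ derivedSeries G n :=
      QuotientGroup.lift _ ((pp π n).comp (incl ι)) hle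
    have hj : Function.Bijective j := by
      refine ⟨?_, ?_⟩
      · rw [injective_iff_map_eq_one]
        intro y
        refine QuotientGroup.induction_on y fun x hx => ?_
        exact (QuotientGroup.eq_one_iff _).2 (hinj x hx)
      · intro q
        obtain ⟨g, rfl⟩ := pp_surj π hπ n q
        have h : g ∈ (incl ι).range ⊔ (pp π n).ker := by rw [h2]; trivial
        rw [← SetLike.mem_coe, Subgroup.mul_normal, Set.mem_mul] at h
        obtain ⟨_, ⟨f0, rfl⟩, k, hk, hfk⟩ := h
        refine ⟨(f0 : FreeGroup ι), ?_⟩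
        rw [← hfk, map_mul, (MonoidHom.mem_ker).1 hk, mul_one]
        rfl
    have hup : UniqueProds (G ⧸ derivedSeries G n) :=
      ((MulEquiv.ofBijective j hj).uniqueProds_iff).1 (up_derived (FreeGroup ι) n)
    obtain ⟨l, hl⟩ := unit_step π hπ r hr n (h2 (n + 1))
    exact trivial_unit hl
  have hfirst : ∀ n, ∀ w : FreeGroup ι, incl ι w ∈ (pp π n).ker → w ∈ derivedSeries (FreeGroup ι) n := by
    intro n
    induction n with
    | zero => intro w _; rw [derivedSeries_zero]; trivial
    | succ n ih =>
      obtain ⟨q, e, he, hq⟩ := hsecond n ih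
      exact inj_step π hπ r hr n (h2 n) ih he hq
  exact ⟨hfirst n, hsecond n (hfirst n)⟩

/-- the Fox derivative of the relator is a trivial unit of the integral group ring -/
theorem global_unit {G G' : Type} [Group G] [Group G'] (π : FreeGroup (Option ι) →* G)
    (π' : FreeGroup (Option ι) →* G') (q : ∀ n, G' →* G ⧸ derivedSeries G n)
    (hq : ∀ n, (q n).comp π' = pp π n) (hanti : Antitone fun n => (q n).ker) (hres : ⨅ n, (q n).ker = ⊥)
    (r : FreeGroup (Option ι))
    (hu : ∀ n, ∃ (q : G ⧸ derivedSeries G n) (e : ℤ), IsUnit e ∧ PP π n (fox r) = MonoidAlgebra.single q e) :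
    ∃ (g : G') (e : ℤ), IsUnit e ∧ MonoidAlgebra.mapDomainRingHom ℤ π' (fox r) = MonoidAlgebra.single g e := by
  classical
  set ξ := MonoidAlgebra.mapDomainRingHom ℤ π' (fox r) with hξ
  obtain ⟨n, hn'⟩ := separate (fun n => (q n).ker) hanti hres ξ.coeff.support
  have hn : Set.InjOn (q n) (ξ.coeff.support : Set G') := by
    intro a ha b hb hab
    refine hn' a ha b hb ?_
    rw [MonoidHom.mem_ker, map_mul, map_inv, hab, inv_mul_cancel]
  obtain ⟨q0, e, he, hq0⟩ := hu n
  have hcomp : PP π n (fox r) = MonoidAlgebra.mapDomainRingHom ℤ (q n) ξ := by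
    rw [hξ, ← RingHom.comp_apply, ← MonoidAlgebra.mapDomainRingHom_comp, hq]
    rfl
  rw [hcomp] at hq0
  have h1 := congrArg MonoidAlgebra.coeff hq0
  rw [MonoidAlgebra.coeff_single] at h1
  have h2 : Finsupp.mapDomain (q n) ξ.coeff = Finsupp.single q0 e := h1
  have h3 := Finsupp.mapDomain_support_of_injOn ξ.coeff hn
  rw [h2, Finsupp.support_single_ne_zero q0 he.ne_zero] at h3
  have h4 : ξ.coeff.support.card = 1 := by
    rw [← Finset.card_image_of_injOn hn, ← h3, Finset.card_singleton]
  obtain ⟨g, hg⟩ := Finset.card_eq_one.1 h4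
  have h5 : ξ.coeff = Finsupp.single g (ξ.coeff g) := by
    ext y
    by_cases hy : y = g
    · subst hy; simp
    · rw [Finsupp.single_eq_of_ne hy]
      by_contra h6
      have : y ∈ ξ.coeff.support := Finsupp.mem_support_iff.2 h6
      rw [hg, Finset.mem_singleton] at this
      exact hy this
  rw [h5, Finsupp.mapDomain_single] at h2
  rcases Finsupp.single_eq_single_iff _ _ _ _ |>.1 h2 with ⟨_, h7⟩ | ⟨_, h8⟩
  · refine ⟨g, e, he, ?_⟩
    apply MonoidAlgebra.ext
    rw [MonoidAlgebra.coeff_single, h5, h7]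
  · exact absurd h8 he.ne_zero

/-- permutation action on the free abelian group on a `G`-set -/
noncomputable def permAct (G X : Type) [Group G] [MulAction G X] : G →* AddMonoid.End (X →₀ ℤ) where
  toFun g := Finsupp.mapDomain.addMonoidHom (g • ·)
  map_one' := by
    refine AddMonoidHom.ext fun x => ?_
    change Finsupp.mapDomain (fun y => (1 : G) • y) x = x
    simp only [one_smul]
    exact Finsupp.mapDomain_id
  map_mul' g h := by
    refine AddMonoidHom.ext fun x => ?_
    change Finsupp.mapDomain (fun y => (g * h) • y) x = Finsupp.mapDomain (g • ·) (Finsupp.mapDomain (h • ·) x)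
    rw [← Finsupp.mapDomain_comp]
    congr 1
    funext y
    exact mul_smul g h y

theorem permAct_single {X : Type} [MulAction G X] (g : G) (x : X) (c : ℤ) :
    permAct G X g (Finsupp.single x c) = Finsupp.single (g • x) c := Finsupp.mapDomain_single

/-- the last letter lies in the subgroup generated by the others -/
theorem none_mem (π : FreeGroup (Option ι) →* G) (r : FreeGroup (Option ι)) (hr : π r = 1) (H : Subgroup G)
    (hH : ∀ i, π (FreeGroup.of (some i)) ∈ H)
    {g : G} {e : ℤ} (he : IsUnit e) (hξ : MonoidAlgebra.mapDomainRingHom ℤ π (fox r) = MonoidAlgebra.single g e) :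
    π (FreeGroup.of none) ∈ H := by
  let T : MonoidAlgebra ℤ G →ₐ[ℤ] AddMonoid.End ((G ⧸ H) →₀ ℤ) :=
    MonoidAlgebra.lift ℤ (AddMonoid.End ((G ⧸ H) →₀ ℤ)) G (permAct G (G ⧸ H))
  have hT : ∀ q (c : ℤ), T (MonoidAlgebra.single q c) = c • permAct G (G ⧸ H) q :=
    fun q c => MonoidAlgebra.lift_single _ _ _
  let o : G ⧸ H := ((1 : G) : G ⧸ H)
  let m : (G ⧸ H) →₀ ℤ := Finsupp.single (π (FreeGroup.of none) • o) 1 - Finsupp.single o 1
  let S : MonoidAlgebra ℤ (FreeGroup (Option ι)) →+* AddMonoid.End ((G ⧸ H) →₀ ℤ) :=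
    T.toRingHom.comp (MonoidAlgebra.mapDomainRingHom ℤ π)
  have hc := cross_fox S m
  have hS : ∀ w, S.toMonoidHom.comp (jj (Option ι)) w = permAct G (G ⧸ H) (π w) := by
    intro w
    change T (MonoidAlgebra.mapDomainRingHom ℤ π (jj (Option ι) w)) = _
    rw [show MonoidAlgebra.mapDomainRingHom ℤ π (jj (Option ι) w) = MonoidAlgebra.single (π w) 1 by
      simp [jj, MonoidAlgebra.of_apply, MonoidAlgebra.mapDomainRingHom_apply, MonoidAlgebra.mapDomain_single], hT, one_smul]
  have hd : Cross (S.toMonoidHom.comp (jj (Option ι)))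
      (fun w => Finsupp.single (π w • o) 1 - Finsupp.single o 1 : FreeGroup (Option ι) → (G ⧸ H) →₀ ℤ) := by
    refine ⟨fun a b => ?_⟩
    beta_reduce
    rw [hS, map_sub, permAct_single, permAct_single, map_mul, mul_smul]
    abel
  have hfix : ∀ h ∈ H, h • o = o := by
    intro h hh
    change ((h * 1 : G) : G ⧸ H) = ((1 : G) : G ⧸ H)
    rw [QuotientGroup.eq, mul_one, mul_one]
    exact H.inv_mem hh
  have heq := Cross.ext hc hd (by
    intro x
    cases x with
    | none =>
      change S (fox (FreeGroup.of none)) m = m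
      rw [fox_none, map_one]
      rfl
    | some i =>
      change S (fox (FreeGroup.of (some i))) m = Finsupp.single (π (FreeGroup.of (some i)) • o) 1 - Finsupp.single o 1
      rw [fox_some, map_zero, hfix _ (hH i), sub_self]
      rfl) r
  beta_reduce at heq
  rw [hr, one_smul, sub_self] at heq
  have h1 : e • permAct G (G ⧸ H) g m = 0 := by
    rw [← heq]
    change _ = T (MonoidAlgebra.mapDomainRingHom ℤ π (fox r)) m
    rw [hξ, hT]
    rfl
  have h2 : permAct G (G ⧸ H) g m = 0 := by
    have := congrArg (fun z => e • z) h1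
    beta_reduce at this
    rwa [smul_smul, Int.isUnit_mul_self he, one_smul, smul_zero] at this
  have h3 : m = 0 := by
    have h4 : permAct G (G ⧸ H) g⁻¹ (permAct G (G ⧸ H) g m) = m := by
      change (permAct G (G ⧸ H) g⁻¹ * permAct G (G ⧸ H) g) m = m
      rw [← map_mul, inv_mul_cancel, map_one]
      rfl
    rw [← h4, h2, map_zero]
  have h5 : π (FreeGroup.of none) • o = o := by
    have := sub_eq_zero.1 h3
    exact Finsupp.single_left_injective one_ne_zero this
  have h6 : ((π (FreeGroup.of none) * 1 : G) : G ⧸ H) = ((1 : G) : G ⧸ H) := h5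
  rw [QuotientGroup.eq, mul_one, mul_one] at h6
  simpa using H.inv_mem h6

/-- free groups are residually soluble -/
theorem free_res (w : FreeGroup ι) (hw : ∀ n, w ∈ derivedSeries (FreeGroup ι) n) : w = 1 := by
  classical
  by_contra hne
  obtain ⟨p, hp, Θ, _, _, hΘ, τ, _, hτ⟩ := PFV.exists_pgroup w hne 0
  have : Fact p.Prime := ⟨hp⟩
  have hnil := hΘ.isNilpotent
  have hsol : Group.IsSolvable Θ := inferInstance
  obtain ⟨n, hn⟩ := hsol.solvable
  have h1 := map_derivedSeries_le_derivedSeries τ n ⟨w, hw n, rfl⟩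
  rw [hn, Subgroup.mem_bot] at h1
  exact hτ h1

instance residual_normal (G : Type) [Group G] : (⨅ n, derivedSeries G n).Normal := by
  refine ⟨fun x hx g => ?_⟩
  rw [Subgroup.mem_iInf] at hx ⊢
  exact fun n => (derivedSeries_normal G n).conj_mem x (hx n) g

theorem main (r : FreeGroup (Option ι))
    (hgen : ∀ n, Subgroup.closure (Set.range fun i : ι => (PresentedGroup.of (some i) : PresentedGroup {r})) ⊔
      derivedSeries (PresentedGroup {r}) n = ⊤) :
    Function.Bijective (FreeGroup.lift (fun i : ι =>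
      ((PresentedGroup.of (some i) : PresentedGroup {r}) :
        PresentedGroup {r} ⧸ ⨅ n, derivedSeries (PresentedGroup {r}) n))) := by
  let G := PresentedGroup {r}
  let S : Subgroup G := ⨅ n, derivedSeries G n
  let π : FreeGroup (Option ι) →* G := PresentedGroup.mk {r}
  have hπ : Function.Surjective π := QuotientGroup.mk'_surjective _
  have hker : π.ker = Subgroup.normalClosure {r} := QuotientGroup.ker_mk' _
  have hlift : (FreeGroup.lift (fun i : ι => (PresentedGroup.of (some i) : PresentedGroup {r}))) = π.comp (incl ι) := by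
    refine FreeGroup.ext_hom _ _ fun i => ?_
    rw [MonoidHom.comp_apply, incl_of, FreeGroup.lift_apply_of]
    rfl
  have hrange : Subgroup.closure (Set.range fun i : ι => (PresentedGroup.of (some i) : PresentedGroup {r})) =
      (π.comp (incl ι)).range := by
    rw [← hlift, FreeGroup.range_lift_eq_closure]
  have h2 : ∀ n, (incl ι).range ⊔ (pp π n).ker = ⊤ := by
    intro n
    rw [eq_top_iff]
    intro g _
    have h : π g ∈ (π.comp (incl ι)).range ⊔ derivedSeries (PresentedGroup {r}) n := by
      rw [← hrange, hgen n]; trivial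
    rw [← SetLike.mem_coe, Subgroup.mul_normal, Set.mem_mul] at h
    obtain ⟨_, ⟨f0, rfl⟩, k, hk, hfk⟩ := h
    have h3 : (incl ι f0)⁻¹ * g ∈ (pp π n).ker := by
      rw [pp_ker, Subgroup.mem_comap, map_mul, map_inv, ← hfk]
      simpa using hk
    have h4 : g = incl ι f0 * ((incl ι f0)⁻¹ * g) := by group
    rw [h4]
    exact Subgroup.mul_mem_sup ⟨f0, rfl⟩ h3
  have hall := all_levels π hπ r hker h2
  let π' : FreeGroup (Option ι) →* G ⧸ S := (QuotientGroup.mk' S).comp π
  have hπ' : Function.Surjective π' := (QuotientGroup.mk'_surjective _).comp hπ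
  have hSle : ∀ n, S ≤ derivedSeries G n := fun n => iInf_le _ n
  let q : ∀ n, G ⧸ S →* G ⧸ derivedSeries G n := fun n =>
    QuotientGroup.map _ _ (MonoidHom.id G) (by simpa using hSle n)
  have hqmem : ∀ n (x : G), ((x : G) : G ⧸ S) ∈ (q n).ker ↔ x ∈ derivedSeries G n := by
    intro n x
    rw [MonoidHom.mem_ker]
    exact QuotientGroup.eq_one_iff x
  have hanti : Antitone fun n => (q n).ker := by
    intro m n hmn y
    refine QuotientGroup.induction_on y fun x hx => ?_
    rw [hqmem] at hx ⊢
    exact derivedSeries_antitone G hmn hx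
  have hres : ⨅ n, (q n).ker = ⊥ := by
    rw [eq_bot_iff]
    intro y
    refine QuotientGroup.induction_on y fun x hx => ?_
    rw [Subgroup.mem_iInf] at hx
    rw [Subgroup.mem_bot, QuotientGroup.eq_one_iff, Subgroup.mem_iInf]
    exact fun n => (hqmem n x).1 (hx n)
  obtain ⟨g, e, he, hξ⟩ := global_unit π π' q (fun n => rfl) hanti hres r fun n => (hall n).2
  have hlift' : (FreeGroup.lift (fun i : ι => ((PresentedGroup.of (some i) : PresentedGroup {r}) : G ⧸ S))) =
      π'.comp (incl ι) := by
    refine FreeGroup.ext_hom _ _ fun i => ?_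
    rw [MonoidHom.comp_apply, incl_of, FreeGroup.lift_apply_of]
    rfl
  change Function.Bijective (FreeGroup.lift (fun i : ι => ((PresentedGroup.of (some i) : PresentedGroup {r}) : G ⧸ S)))
  rw [hlift']
  refine ⟨?_, ?_⟩
  · rw [injective_iff_map_eq_one]
    intro w hw
    refine free_res w fun n => (hall n).1 w ?_
    have h5 : π (incl ι w) ∈ S := (QuotientGroup.eq_one_iff _).1 hw
    rw [pp_ker, Subgroup.mem_comap]
    exact hSle n h5
  · have hr1 : π' r = 1 := by
      have : π r = 1 := by
        rw [← MonoidHom.mem_ker, hker]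
        exact Subgroup.subset_normalClosure rfl
      change QuotientGroup.mk' S (π r) = 1
      rw [this, map_one]
    have hnone := none_mem π' r hr1 (π'.comp (incl ι)).range
      (fun i => ⟨FreeGroup.of i, by rw [MonoidHom.comp_apply, incl_of]⟩) he hξ
    rw [← MonoidHom.range_eq_top, eq_top_iff]
    intro y _
    obtain ⟨x, rfl⟩ := hπ' y
    induction x using FreeGroup.induction_on with
    | C1 => rw [map_one]; exact one_mem _
    | of x =>
      cases x with
      | none => exact hnone
      | some i => exact ⟨FreeGroup.of i, by rw [MonoidHom.comp_apply, incl_of]⟩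
    | inv_of x hx => rw [map_inv]; exact inv_mem (hx trivial)
    | mul x y hx hy => rw [map_mul]; exact mul_mem (hx trivial) (hy trivial)

theorem main' (r : FreeGroup (Option ι))
    (hgen : ∀ n, Subgroup.closure (Set.range fun i : ι => (PresentedGroup.of (some i) : PresentedGroup {r})) ⊔
      derivedSeries (PresentedGroup {r}) n = ⊤) (hres : ⨅ n, derivedSeries (PresentedGroup {r}) n = ⊥) :
    Function.Bijective (FreeGroup.lift (fun i : ι => (PresentedGroup.of (some i) : PresentedGroup {r}))) := by
  have h := main r hgen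
  have hlift : FreeGroup.lift (fun i : ι =>
      ((PresentedGroup.of (some i) : PresentedGroup {r}) :
        PresentedGroup {r} ⧸ ⨅ n, derivedSeries (PresentedGroup {r}) n)) =
      (QuotientGroup.mk' _).comp
        (FreeGroup.lift (fun i : ι => (PresentedGroup.of (some i) : PresentedGroup {r}))) := by
    refine FreeGroup.ext_hom _ _ fun i => ?_
    rw [MonoidHom.comp_apply, FreeGroup.lift_apply_of, FreeGroup.lift_apply_of]
    rfl
  rw [hlift] at h
  refine ⟨fun x y hxy => h.1 ?_, fun g => ?_⟩
  · rw [MonoidHom.comp_apply, MonoidHom.comp_apply, hxy]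
  · obtain ⟨w, hw⟩ := h.2 (QuotientGroup.mk' _ g)
    have h1 := QuotientGroup.eq.1 hw
    rw [hres, Subgroup.mem_bot, inv_mul_eq_one] at h1
    exact ⟨w, h1⟩

end Pool.Agent.PFM
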