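import Pool.Agent.PFM.Fox

/-! The two halves of the induction: the Fox derivative is a trivial unit, and the free soluble quotients
embed. -/

set_option autoImplicit false

namespace Pool.Agent.PFM

open scoped commutatorElement

variable {ι G : Type} [Group G]

/-- `E → G / G^(n)` -/
def pp (π : FreeGroup (Option ι) →* G) (n : ℕ) : FreeGroup (Option ι) →* G ⧸ derivedSeries G n :=
  (QuotientGroup.mk' _).comp π

theorem pp_surj (π : FreeGroup (Option ι) →* G) (hπ : Function.Surjective π) (n : ℕ) :
    Function.Surjective (pp π n) := (QuotientGroup.mk'_surjective _).comp hπ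

theorem pp_ker (π : FreeGroup (Option ι) →* G) (n : ℕ) : (pp π n).ker = (derivedSeries G n).comap π := by
  rw [pp, ← MonoidHom.comap_ker, QuotientGroup.ker_mk']

theorem ker_succ (π : FreeGroup (Option ι) →* G) (hπ : Function.Surjective π) (n : ℕ) :
    (pp π (n + 1)).ker = ⁅(pp π n).ker, (pp π n).ker⁆ ⊔ π.ker := by
  rw [pp_ker, pp_ker, derivedSeries_succ, ← Subgroup.comap_map_eq, Subgroup.map_commutator,
    Subgroup.map_comap_eq_self_of_surjective hπ]

/-- the group ring map of `pp` -/
noncomputable def PP (π : FreeGroup (Option ι) →* G) (n : ℕ) :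
    MonoidAlgebra ℤ (FreeGroup (Option ι)) →+* MonoidAlgebra ℤ (G ⧸ derivedSeries G n) :=
  MonoidAlgebra.mapDomainRingHom ℤ (pp π n)

theorem PP_jj (π : FreeGroup (Option ι) →* G) (n : ℕ) (g : FreeGroup (Option ι)) :
    PP π n (jj (Option ι) g) = MonoidAlgebra.single (pp π n g) 1 := by
  simp [PP, jj, MonoidAlgebra.of_apply, MonoidAlgebra.mapDomainRingHom_apply, MonoidAlgebra.mapDomain_single]

/-- the Fox derivative of the relator is left invertible -/
theorem unit_step (π : FreeGroup (Option ι) →* G) (hπ : Function.Surjective π) (r : FreeGroup (Option ι))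
    (hr : π.ker = Subgroup.normalClosure {r}) (n : ℕ)
    (h2 : (incl ι).range ⊔ (pp π (n + 1)).ker = ⊤) : ∃ l, l * PP π n (fox r) = 1 := by
  set ξ := PP π n (fox r) with hξ
  let R := MonoidAlgebra ℤ (G ⧸ derivedSeries G n)
  let I : Submodule R R := Submodule.span R {ξ}
  let M := R ⧸ I
  let A : R →+* AddMonoid.End M := Module.toAddMonoidEnd R M
  have hc := cross_fox (A.comp (PP π n)) (Submodule.Quotient.mk (1 : R) : M)
  have hval : ∀ w, (A.comp (PP π n)) (fox w) (Submodule.Quotient.mk (1 : R) : M) =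
      (Submodule.Quotient.mk (PP π n (fox w)) : M) := by
    intro w
    change PP π n (fox w) • (Submodule.Quotient.mk (1 : R) : M) = _
    rw [← Submodule.Quotient.mk_smul, smul_eq_mul, mul_one]
  have hact : ∀ g ∈ (pp π n).ker, ((A.comp (PP π n)).toMonoidHom.comp (jj (Option ι))) g = 1 := by
    intro g hg
    change A (PP π n (jj _ g)) = 1
    rw [PP_jj, (MonoidHom.mem_ker).1 hg, ← MonoidAlgebra.one_def, map_one]
  have hrker : r ∈ (pp π n).ker := by
    rw [pp_ker, Subgroup.mem_comap]
    have : r ∈ π.ker := by rw [hr]; exact Subgroup.subset_normalClosure rfl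
    rw [(MonoidHom.mem_ker).1 this]
    exact one_mem _
  have hr0 : (A.comp (PP π n)) (fox r) (Submodule.Quotient.mk (1 : R) : M) = 0 := by
    rw [hval]
    exact (Submodule.Quotient.mk_eq_zero _).2 (Submodule.mem_span_singleton_self _)
  have h3 : (pp π (n + 1)).ker ≤ hc.zeros := by
    rw [ker_succ π hπ, hr]
    exact sup_le (hc.comm_le _ hact) (hc.nc_le r hr0 (hact r hrker))
  have h4 : (incl ι).range ≤ hc.zeros := by
    rintro _ ⟨w, rfl⟩
    rw [hc.mem_zeros, fox_incl, map_zero]
    rfl
  have h5 : FreeGroup.of (none : Option ι) ∈ hc.zeros := by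
    have : (⊤ : Subgroup _) ≤ hc.zeros := h2 ▸ sup_le h4 h3
    exact this trivial
  rw [hc.mem_zeros, hval, fox_none, map_one, Submodule.Quotient.mk_eq_zero, Submodule.mem_span_singleton] at h5
  obtain ⟨l, hl⟩ := h5
  exact ⟨l, hl⟩

section
variable (L : Type) [Group L]

/-- automorphisms of a commutative group as additive endomorphisms -/
def toEnd {L : Type} [CommGroup L] : MulAut L →* AddMonoid.End (Additive L) where
  toFun φ := MonoidHom.toAdditive φ.toMonoidHom
  map_one' := rfl
  map_mul' _ _ := rfl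

theorem toEnd_apply {L : Type} [CommGroup L] (φ : MulAut L) (x : Additive L) :
    toEnd φ x = Additive.ofMul (φ x.toMul) := rfl

end

/-- the free soluble quotient of the next derived length embeds -/
theorem inj_step (π : FreeGroup (Option ι) →* G) (hπ : Function.Surjective π) (r : FreeGroup (Option ι))
    (hr : π.ker = Subgroup.normalClosure {r}) (n : ℕ)
    (h2 : (incl ι).range ⊔ (pp π n).ker = ⊤)
    (hinj : ∀ w : FreeGroup ι, incl ι w ∈ (pp π n).ker → w ∈ derivedSeries (FreeGroup ι) n)
    {q0 : G ⧸ derivedSeries G n} {e : ℤ} (he : IsUnit e) (hξ : PP π n (fox r) = MonoidAlgebra.single q0 e) :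
    ∀ w : FreeGroup ι, incl ι w ∈ (pp π (n + 1)).ker → w ∈ derivedSeries (FreeGroup ι) (n + 1) := by
  set N : Subgroup (FreeGroup ι) := derivedSeries (FreeGroup ι) n with hN
  set B := FreeGroup ι ⧸ ⁅N, N⁆ with hB
  obtain ⟨f0, hf0⟩ : ∃ f0 : FreeGroup ι, (incl ι f0)⁻¹ * FreeGroup.of none ∈ (pp π n).ker := by
    have h : FreeGroup.of (none : Option ι) ∈ (incl ι).range ⊔ (pp π n).ker := by rw [h2]; trivial
    rw [← SetLike.mem_coe, Subgroup.mul_normal, Set.mem_mul] at h
    obtain ⟨_, ⟨f0, rfl⟩, k, hk, hfk⟩ := h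
    refine ⟨f0, ?_⟩
    rw [← hfk, inv_mul_cancel_left]
    exact hk
  let θ0 : FreeGroup (Option ι) →* B := FreeGroup.lift (fun o => o.elim (f0 : B) (fun i => ((FreeGroup.of i : FreeGroup ι) : B)))
  have hθ0i : ∀ w : FreeGroup ι, θ0 (incl ι w) = (w : B) := by
    intro w
    have : θ0.comp (incl ι) = QuotientGroup.mk' _ := by
      refine FreeGroup.ext_hom _ _ fun i => ?_
      rw [MonoidHom.comp_apply, incl_of]
      simp [θ0]
      rfl
    exact DFunLike.congr_fun this w
  let L : Subgroup B := N.map (QuotientGroup.mk' ⁅N, N⁆)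
  have hLn : L.Normal := Subgroup.Normal.map inferInstance _ (QuotientGroup.mk'_surjective _)
  have hLc : ∀ x ∈ L, ∀ y ∈ L, x * y = y * x := by
    rintro _ ⟨x, hx, rfl⟩ _ ⟨y, hy, rfl⟩
    rw [← map_mul, ← map_mul]
    apply QuotientGroup.eq.2
    have : (x * y)⁻¹ * (y * x) = ⁅y⁻¹, x⁻¹⁆ := by rw [commutatorElement_def]; group
    rw [this]
    exact Subgroup.commutator_mem_commutator (N.inv_mem hy) (N.inv_mem hx)
  let _ : CommGroup L := { (inferInstance : Group L) with
    mul_comm := fun x y => Subtype.ext (hLc x x.2 y y.2) }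
  have hNle : ⁅N, N⁆ ≤ N := N.commutator_le_self
  let ρ : B →* FreeGroup ι ⧸ N := QuotientGroup.map _ _ (MonoidHom.id _) (by simpa using hNle)
  have hρ : ∀ b : B, ρ b = 1 → b ∈ L := by
    intro b
    refine QuotientGroup.induction_on b fun x hx => ?_
    change ((x : FreeGroup ι) : FreeGroup ι ⧸ N) = 1 at hx
    rw [QuotientGroup.eq_one_iff] at hx
    exact ⟨x, hx, rfl⟩
  have hNle' : N ≤ ((pp π n).comp (incl ι)).ker := by
    intro x hx
    rw [MonoidHom.mem_ker]
    have h3 := map_derivedSeries_le_derivedSeries (π.comp (incl ι)) n ⟨x, hx, rfl⟩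
    exact (QuotientGroup.eq_one_iff _).2 h3
  let j : FreeGroup ι ⧸ N →* G ⧸ derivedSeries G n := QuotientGroup.lift N ((pp π n).comp (incl ι)) hNle'
  have hj : ∀ y, j y = 1 → y = 1 := by
    intro y
    refine QuotientGroup.induction_on y fun x hx => ?_
    exact (QuotientGroup.eq_one_iff _).2 (hinj x hx)
  have hcomp : pp π n = (j.comp ρ).comp θ0 := by
    refine FreeGroup.ext_hom _ _ fun o => ?_
    cases o with
    | none =>
      have h3 : pp π n (FreeGroup.of none) = pp π n (incl ι f0) := by
        have := (MonoidHom.mem_ker).1 hf0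
        rw [map_mul, map_inv, inv_mul_eq_one] at this
        exact this.symm
      rw [h3, MonoidHom.comp_apply, MonoidHom.comp_apply]
      have h4 : θ0 (FreeGroup.of none) = (f0 : B) := by simp [θ0]
      rw [h4]
      rfl
    | some i =>
      have h4 : θ0 (FreeGroup.of (some i)) = ((FreeGroup.of i : FreeGroup ι) : B) := by simp [θ0]
      rw [MonoidHom.comp_apply, MonoidHom.comp_apply, h4, ← incl_of]
      rfl
  have hθ0L : ∀ g ∈ (pp π n).ker, θ0 g ∈ L := by
    intro g hg
    apply hρ
    apply hj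
    rw [MonoidHom.mem_ker, hcomp] at hg
    exact hg
  let actA : FreeGroup (Option ι) →* MulAut L := MulAut.conjNormal.comp θ0
  have hactA : (pp π n).ker ≤ actA.ker := by
    intro g hg
    rw [MonoidHom.mem_ker]
    refine MulEquiv.ext fun x => Subtype.ext ?_
    have h3 := hθ0L g hg
    change (((MulAut.conjNormal (θ0 g)) x : L) : B) = ((x : L) : B)
    rw [MulAut.conjNormal_apply, hLc _ h3 _ x.2, mul_inv_cancel_right]
  let actA' : G ⧸ derivedSeries G n →* MulAut L :=
    (pp π n).liftOfSurjective (pp_surj π hπ n) ⟨actA, hactA⟩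
  have hactA' : ∀ g, actA' (pp π n g) = actA g := fun g =>
    MonoidHom.liftOfRightInverse_comp_apply _ _ _ _ g
  let act : FreeGroup (Option ι) →* AddMonoid.End (Additive L) := toEnd.comp actA
  let act' : G ⧸ derivedSeries G n →* AddMonoid.End (Additive L) := toEnd.comp actA'
  have hact' : ∀ g, act' (pp π n g) = act g := fun g => congrArg toEnd (hactA' g)
  let T : MonoidAlgebra ℤ (G ⧸ derivedSeries G n) →ₐ[ℤ] AddMonoid.End (Additive L) :=
    MonoidAlgebra.lift ℤ (AddMonoid.End (Additive L)) (G ⧸ derivedSeries G n) act'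
  have hT : ∀ q (c : ℤ), T (MonoidAlgebra.single q c) = c • act' q := fun q c => MonoidAlgebra.lift_single _ _ _
  have hrker : r ∈ (pp π n).ker := by
    rw [pp_ker, Subgroup.mem_comap]
    have : r ∈ π.ker := by rw [hr]; exact Subgroup.subset_normalClosure rfl
    rw [(MonoidHom.mem_ker).1 this]
    exact one_mem _
  let ρr : Additive L := Additive.ofMul ⟨θ0 r, hθ0L r hrker⟩
  let α : Additive L := e • act' q0⁻¹ (-ρr)
  have hα : T (PP π n (fox r)) α = -ρr := by
    rw [hξ, hT]
    change e • act' q0 (e • act' q0⁻¹ (-ρr)) = -ρr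
    rw [map_zsmul, smul_smul, Int.isUnit_mul_self he, one_smul]
    change (act' q0 * act' q0⁻¹) (-ρr) = -ρr
    rw [← map_mul, mul_inv_cancel, map_one]
    rfl
  have hcross := cross_fox (T.toRingHom.comp (PP π n)) α
  have hact2 : ∀ g, ((T.toRingHom.comp (PP π n)).toMonoidHom.comp (jj (Option ι))) g = act g := by
    intro g
    change T (PP π n (jj _ g)) = act g
    rw [PP_jj, hT, one_smul, hact']
  let D : FreeGroup (Option ι) → Additive L := fun w => T (PP π n (fox w)) α
  have hD : ∀ g h, D (g * h) = D g + act g (D h) := by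
    intro g h
    have := hcross.mul g h
    rw [hact2] at this
    exact this
  have hval : ∀ g (x : Additive L), (((act g x).toMul : L) : B) = θ0 g * ((x.toMul : L) : B) * (θ0 g)⁻¹ := fun g x => rfl
  let θ' : FreeGroup (Option ι) →* B := MonoidHom.mk' (fun w => (((D w).toMul : L) : B) * θ0 w) (by
    intro g h
    rw [hD, toMul_add, Subgroup.coe_mul, hval, map_mul]
    group)
  have hθ' : ∀ w, θ' w = (((D w).toMul : L) : B) * θ0 w := fun w => rfl
  have hθr : θ' r = 1 := by
    rw [hθ']
    have : D r = -ρr := hα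
    rw [this, toMul_neg, Subgroup.coe_inv]
    exact inv_mul_cancel _
  have hθi : ∀ w : FreeGroup ι, θ' (incl ι w) = (w : B) := by
    intro w
    have : D (incl ι w) = 0 := by
      change T (PP π n (fox (incl ι w))) α = 0
      rw [fox_incl, map_zero, map_zero]
      rfl
    rw [hθ', this, hθ0i]
    exact one_mul _
  have hθL : ∀ g ∈ (pp π n).ker, θ' g ∈ L := fun g hg => L.mul_mem (D g).toMul.2 (hθ0L g hg)
  have hker : (pp π (n + 1)).ker ≤ θ'.ker := by
    rw [ker_succ π hπ, hr]
    refine sup_le ?_ (Subgroup.normalClosure_le_normal (by simpa using hθr))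
    rw [Subgroup.commutator_le]
    intro g hg h hh
    rw [MonoidHom.mem_ker, map_commutatorElement, commutatorElement_eq_one_iff_mul_comm]
    exact hLc _ (hθL g hg) _ (hθL h hh)
  intro w hw
  have h3 := (MonoidHom.mem_ker).1 (hker hw)
  rw [hθi] at h3
  rw [derivedSeries_succ]
  exact (QuotientGroup.eq_one_iff _).1 h3

end Pool.Agent.PFM
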