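import Mathlib

/-! Unique products for free groups modulo the derived series, and trivial units. -/

set_option autoImplicit false

namespace Pool.Agent.PFM

/-- the unique product property passes to extensions -/
theorem up_ext {N G Q : Type} [Group N] [Group G] [Group Q] (i : N →* G) (hi : Function.Injective i)
    (f : G →* Q) (hex : ∀ g, f g = 1 → ∃ n, i n = g) (hfi : ∀ n, f (i n) = 1)
    [UniqueProds N] [UniqueProds Q] : UniqueProds G := by
  classical
  refine ⟨fun {A B} hA hB => ?_⟩
  obtain ⟨q1, hq1, q2, hq2, hu⟩ := UniqueProds.uniqueMul_of_nonempty (hA.image f) (hB.image f)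
  obtain ⟨a0, ha0, rfl⟩ := Finset.mem_image.1 hq1
  obtain ⟨b0, hb0, rfl⟩ := Finset.mem_image.1 hq2
  have h1 : Set.InjOn (fun n => a0 * i n) ((fun n => a0 * i n) ⁻¹' (A : Set G)) := by
    intro n _ m _ h
    exact hi (mul_left_cancel h)
  have h2 : Set.InjOn (fun n => i n * b0) ((fun n => i n * b0) ⁻¹' (B : Set G)) := by
    intro n _ m _ h
    exact hi (mul_right_cancel h)
  obtain ⟨n1, hn1, n2, hn2, hv⟩ := UniqueProds.uniqueMul_of_nonempty
    (A := A.preimage (fun n => a0 * i n) h1) (B := B.preimage (fun n => i n * b0) h2)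
    ⟨1, by simpa using ha0⟩ ⟨1, by simpa using hb0⟩
  rw [Finset.mem_preimage] at hn1 hn2
  refine ⟨_, hn1, _, hn2, ?_⟩
  intro a b ha hb hab
  have h3 := congrArg f hab
  simp only [map_mul, hfi, mul_one, one_mul] at h3
  obtain ⟨h4, h5⟩ := hu (Finset.mem_image_of_mem f ha) (Finset.mem_image_of_mem f hb) h3
  obtain ⟨m1, hm1⟩ := hex (a0⁻¹ * a) (by rw [map_mul, map_inv, h4]; simp)
  obtain ⟨m2, hm2⟩ := hex (b * b0⁻¹) (by rw [map_mul, map_inv, h5]; simp)
  have ea : a = a0 * i m1 := by rw [hm1]; group
  have eb : b = i m2 * b0 := by rw [hm2]; group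
  subst ea eb
  have h6 : i (m1 * m2) = i (n1 * n2) := by
    rw [map_mul, map_mul]
    have : a0 * (i m1 * i m2) * b0 = a0 * (i n1 * i n2) * b0 := by
      simpa only [mul_assoc] using hab
    exact mul_left_cancel (mul_right_cancel this)
  obtain ⟨h7, h8⟩ := hv (by simpa using ha) (by simpa using hb) (hi h6)
  exact ⟨by rw [h7], by rw [h8]⟩

instance up_abel_free (X : Type) : UniqueProds (Abelianization (FreeGroup X)) := by
  have h : UniqueProds (Multiplicative (FreeAbelianGroup X)) := inferInstance
  exact UniqueProds.of_injective_mulHom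
    (⟨fun a => Multiplicative.ofAdd (Additive.ofMul a : FreeAbelianGroup X), fun _ _ => rfl⟩ :
      Abelianization (FreeGroup X) →ₙ* Multiplicative (FreeAbelianGroup X))
    (fun _ _ h => h) h

theorem up_abel (H : Type) [Group H] [IsFreeGroup H] : UniqueProds (Abelianization H) :=
  ((IsFreeGroup.toFreeGroup H).abelianizationCongr.uniqueProds_iff).2 inferInstance

/-- passing from `F/N` to `F/[N,N]` for a free group `F` -/
theorem up_step {F : Type} [Group F] [IsFreeGroup F] (N : Subgroup F) [N.Normal]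
    [UniqueProds (F ⧸ N)] : UniqueProds (F ⧸ ⁅N, N⁆) := by
  have hfree : IsFreeGroup N := subgroupIsFreeOfIsFree N
  have hup := up_abel N
  have hker : commutator N ≤ ((QuotientGroup.mk' ⁅N, N⁆).comp N.subtype).ker := by
    intro n hn
    rw [MonoidHom.mem_ker]
    change QuotientGroup.mk' ⁅N, N⁆ (n : F) = 1
    rw [QuotientGroup.mk'_apply, QuotientGroup.eq_one_iff, ← Subgroup.map_subtype_commutator]
    exact ⟨n, hn, rfl⟩
  let i : Abelianization N →* F ⧸ ⁅N, N⁆ := QuotientGroup.lift _ ((QuotientGroup.mk' ⁅N, N⁆).comp N.subtype) hker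
  have hi : Function.Injective i := by
    rw [injective_iff_map_eq_one]
    intro a
    refine QuotientGroup.induction_on a fun n hn => ?_
    change QuotientGroup.mk' ⁅N, N⁆ (n : F) = 1 at hn
    rw [QuotientGroup.mk'_apply, QuotientGroup.eq_one_iff, ← Subgroup.map_subtype_commutator] at hn
    obtain ⟨m, hm, hmn⟩ := hn
    have : m = n := Subtype.ext hmn
    subst this
    exact (QuotientGroup.eq_one_iff _).2 hm
  have hle : ⁅N, N⁆ ≤ N := N.commutator_le_self
  let f : F ⧸ ⁅N, N⁆ →* F ⧸ N := QuotientGroup.map _ _ (MonoidHom.id F) (by simpa using hle)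
  refine up_ext i hi f ?_ ?_
  · intro g
    refine QuotientGroup.induction_on g fun x hx => ?_
    change ((x : F) : F ⧸ N) = 1 at hx
    rw [QuotientGroup.eq_one_iff] at hx
    exact ⟨QuotientGroup.mk (⟨x, hx⟩ : N), rfl⟩
  · intro n
    refine QuotientGroup.induction_on n fun x => ?_
    change ((x : F) : F ⧸ N) = 1
    rw [QuotientGroup.eq_one_iff]
    exact x.2

theorem up_derived (F : Type) [Group F] [IsFreeGroup F] (n : ℕ) : UniqueProds (F ⧸ derivedSeries F n) := by
  induction n with
  | zero =>
    have : Subsingleton (F ⧸ derivedSeries F 0) := by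
      rw [derivedSeries_zero]
      exact QuotientGroup.subsingleton_quotient_top
    exact ⟨fun {A B} hA hB => ⟨_, hA.choose_spec, _, hB.choose_spec, UniqueMul.of_subsingleton⟩⟩
  | succ n ih => exact up_step (derivedSeries F n)

/-- one-sided units are trivial -/
theorem trivial_unit {Q : Type} [Group Q] [UniqueProds Q] {l x : MonoidAlgebra ℤ Q} (h : l * x = 1) :
    ∃ (g : Q) (e : ℤ), IsUnit e ∧ x = MonoidAlgebra.single g e := by
  classical
  have htwo : TwoUniqueProds Q := UniqueProds.toTwoUniqueProds_of_group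
  have h0 : (1 : MonoidAlgebra ℤ Q).coeff = Finsupp.single 1 1 := by
    rw [MonoidAlgebra.one_def, MonoidAlgebra.coeff_single]
  have hl : l.coeff.support.Nonempty := by
    rw [Finset.nonempty_iff_ne_empty]
    intro h1
    rw [Finsupp.support_eq_empty, MonoidAlgebra.coeff_eq_zero] at h1
    rw [h1, zero_mul] at h
    exact zero_ne_one h
  have hx : x.coeff.support.Nonempty := by
    rw [Finset.nonempty_iff_ne_empty]
    intro h1
    rw [Finsupp.support_eq_empty, MonoidAlgebra.coeff_eq_zero] at h1
    rw [h1, mul_zero] at h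
    exact zero_ne_one h
  have key : ∀ p : Q × Q, p ∈ l.coeff.support ×ˢ x.coeff.support → UniqueMul l.coeff.support x.coeff.support p.1 p.2 →
      p.1 * p.2 = 1 ∧ l.coeff p.1 * x.coeff p.2 = 1 := by
    intro p hp hu
    rw [Finset.mem_product, Finsupp.mem_support_iff, Finsupp.mem_support_iff] at hp
    have h1 := MonoidAlgebra.coeff_mul_mul_of_uniqueMul hu
    rw [h, h0] at h1
    by_cases h2 : p.1 * p.2 = 1
    · rw [h2, Finsupp.single_eq_same] at h1
      exact ⟨h2, h1.symm⟩
    · rw [Finsupp.single_eq_of_ne h2] at h1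
      exact absurd h1.symm (mul_ne_zero hp.1 hp.2)
  have hcard : ¬ 1 < l.coeff.support.card * x.coeff.support.card := by
    intro hc
    obtain ⟨p, hp, q, hq, hpq, hup, huq⟩ := htwo.uniqueMul_of_one_lt_card hc
    have h1 := (key p hp hup).1
    have h2 := (key q hq huq).1
    rw [Finset.mem_product] at hp hq
    have h3 := hup hq.1 hq.2 (h2.trans h1.symm)
    exact hpq (Prod.ext h3.1.symm h3.2.symm)
  have hx1 : x.coeff.support.card = 1 := by
    have h1 := hl.card_pos
    have h2 := hx.card_pos
    nlinarith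
  have hl1 : l.coeff.support.card = 1 := by
    rw [hx1, mul_one] at hcard
    have := hl.card_pos
    omega
  obtain ⟨g, hg⟩ := Finset.card_eq_one.1 hx1
  obtain ⟨g', hg'⟩ := Finset.card_eq_one.1 hl1
  have hu : UniqueMul l.coeff.support x.coeff.support g' g := by
    intro a b ha hb _
    rw [hg', Finset.mem_singleton] at ha
    rw [hg, Finset.mem_singleton] at hb
    exact ⟨ha, hb⟩
  have h1 := (key (g', g) (by rw [hg, hg']; simp) hu).2
  refine ⟨g, x.coeff g, IsUnit.of_mul_eq_one_right _ h1, ?_⟩
  apply MonoidAlgebra.ext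
  rw [MonoidAlgebra.coeff_single]
  ext y
  by_cases hy : y = g
  · subst hy; simp
  · rw [Finsupp.single_eq_of_ne hy]
    by_contra h2
    have : y ∈ x.coeff.support := Finsupp.mem_support_iff.2 h2
    rw [hg, Finset.mem_singleton] at this
    exact hy this

end Pool.Agent.PFM
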